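import Mathlib

/-!
# Banach lattices, lattice homomorphisms, quotient maps

Quotients of Banach lattices by closed ideals are described by quotient maps: a quotient map
`Q : B → C` of Banach lattices is a surjective lattice homomorphism such that the norm of `C` is
the quotient norm. Its kernel is a closed ideal `I` and `C` is `B / I` up to an isometric lattice
isomorphism; conversely the canonical surjection `B → B / I` is such a map for every closed
ideal `I`.
-/

set_option autoImplicit false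
open Filter Topology

namespace Q100.BL

universe u v w

/-- Real Banach lattices: a complete normed space with a lattice order compatible with the linear
structure and a lattice norm. -/
class IsBanachLattice (E : Type u) [NormedAddCommGroup E] [NormedSpace ℝ E] [Lattice E] :
    Prop where
  add_le_add_left' : ∀ a b : E, a ≤ b → ∀ c : E, c + a ≤ c + b
  smul_nonneg' : ∀ (r : ℝ) (a : E), 0 ≤ r → 0 ≤ a → 0 ≤ r • a
  solid' : ∀ a b : E, |a| ≤ |b| → ‖a‖ ≤ ‖b‖
  complete' : CompleteSpace E

section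
variable {E : Type u} [NormedAddCommGroup E] [NormedSpace ℝ E] [Lattice E]
  {F : Type v} [NormedAddCommGroup F] [NormedSpace ℝ F] [Lattice F]

/-- Lattice homomorphisms: bounded linear maps with `T |x| = |T x|`. -/
def IsLatHom (T : E →L[ℝ] F) : Prop := ∀ x : E, T |x| = |T x|

/-- Quotient maps of Banach lattices: surjective lattice homomorphisms `Q : E → F` such that
the norm of `F` is the quotient norm, `‖y‖ = inf {‖x‖ : Q x = y}`. -/
structure IsQuotientMap (Q : E →L[ℝ] F) : Prop where
  latHom : IsLatHom Q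
  surj : Function.Surjective Q
  norm_le : ∀ x, ‖Q x‖ ≤ ‖x‖
  lift : ∀ y : F, ∀ ε : ℝ, 0 < ε → ∃ x : E, Q x = y ∧ ‖x‖ ≤ ‖y‖ + ε

end

/-- The set `Hom₁(A, C)` of contractive lattice homomorphisms. -/
def Hom₁ (A : Type u) [NormedAddCommGroup A] [NormedSpace ℝ A] [Lattice A]
    (C : Type v) [NormedAddCommGroup C] [NormedSpace ℝ C] [Lattice C] : Type (max u v) :=
  {φ : A →L[ℝ] C // IsLatHom φ ∧ ‖φ‖ ≤ 1}

/-- The point-norm topology on `Hom₁(A, C)`. -/
instance (A : Type u) [NormedAddCommGroup A] [NormedSpace ℝ A] [Lattice A]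
    (C : Type v) [NormedAddCommGroup C] [NormedSpace ℝ C] [Lattice C] :
    TopologicalSpace (Hom₁ A C) :=
  TopologicalSpace.induced (fun (φ : Hom₁ A C) (a : A) => φ.1 a) Pi.topologicalSpace

/-- `φ : A → C` is `1⁺`-liftable through the quotient map `Q : B → C`. -/
def OnePlusLiftable {A : Type u} [NormedAddCommGroup A] [NormedSpace ℝ A] [Lattice A]
    {B : Type v} [NormedAddCommGroup B] [NormedSpace ℝ B] [Lattice B]
    {C : Type w} [NormedAddCommGroup C] [NormedSpace ℝ C] [Lattice C]
    (Q : B →L[ℝ] C) (φ : A →L[ℝ] C) : Prop :=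
  ∀ ε : ℝ, 0 < ε → ∃ ψ : A →L[ℝ] B, IsLatHom ψ ∧ Q.comp ψ = φ ∧ ‖ψ‖ ≤ 1 + ε

/-- `ℓ`-open Banach lattices: for every separable Banach lattice `B` and every quotient map
`Q : B → C` (that is, `C = B / I` for a closed ideal `I`), the `1⁺`-liftable elements form an open
subset of `Hom₁(A, C)`. -/
def LOpen (A : Type u) [NormedAddCommGroup A] [NormedSpace ℝ A] [Lattice A] : Prop :=
  ∀ (B : Type) [NormedAddCommGroup B] [NormedSpace ℝ B] [Lattice B] [IsBanachLattice B]
    [TopologicalSpace.SeparableSpace B]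
    (C : Type) [NormedAddCommGroup C] [NormedSpace ℝ C] [Lattice C] [IsBanachLattice C]
    (Q : B →L[ℝ] C), IsQuotientMap Q → IsOpen {φ : Hom₁ A C | OnePlusLiftable Q φ.1}

/-- Semiprojective Banach lattices. Here `B` is a separable Banach lattice, `q n : B → C n` is the
quotient map by a closed ideal `I n` (the kernel of `q n`), the ideals increase, `q : B → D` is
the quotient map by the closure `I` of their union, and `π n : C n → D` is the canonical map. -/
def Semiprojective (A : Type u) [NormedAddCommGroup A] [NormedSpace ℝ A] [Lattice A] : Prop :=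
  ∀ (B : Type) [NormedAddCommGroup B] [NormedSpace ℝ B] [Lattice B] [IsBanachLattice B]
    [TopologicalSpace.SeparableSpace B]
    (C : ℕ → Type) [∀ n, NormedAddCommGroup (C n)] [∀ n, NormedSpace ℝ (C n)]
    [∀ n, Lattice (C n)] [∀ n, IsBanachLattice (C n)]
    (D : Type) [NormedAddCommGroup D] [NormedSpace ℝ D] [Lattice D] [IsBanachLattice D]
    (q : ∀ n, B →L[ℝ] C n) (Q : B →L[ℝ] D) (π : ∀ n, C n →L[ℝ] D),
    (∀ n, IsQuotientMap (q n)) → IsQuotientMap Q → (∀ n, (π n).comp (q n) = Q) →
    (∀ n x, q n x = 0 → q (n + 1) x = 0) →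
    ({x | Q x = 0} = closure (⋃ n, {x | q n x = 0})) →
    ∀ φ : A →L[ℝ] D, IsLatHom φ → ‖φ‖ ≤ 1 →
      ∃ n, ∀ ε : ℝ, 0 < ε → ∃ ψ : A →L[ℝ] C n, IsLatHom ψ ∧ (π n).comp ψ = φ ∧ ‖ψ‖ ≤ 1 + ε

end Q100.BL
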