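import Pool.Agent.Q100.BL

set_option autoImplicit false
open Filter Topology

namespace Q100.BL

universe u v w

section
variable {E : Type u} [NormedAddCommGroup E] [NormedSpace ℝ E] [Lattice E] [IsBanachLattice E]

instance instOAM : IsOrderedAddMonoid E where
  add_le_add_left := fun a b h c => by
    rw [add_comm a c, add_comm b c]
    exact IsBanachLattice.add_le_add_left' a b h c

lemma smul_mono {r : ℝ} (hr : 0 ≤ r) {a b : E} (h : a ≤ b) : r • a ≤ r • b := by
  have h1 := IsBanachLattice.smul_nonneg' r (b - a) hr (sub_nonneg.mpr h)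
  rw [smul_sub] at h1
  exact sub_nonneg.mp h1

lemma abs_smul_nonneg {r : ℝ} (hr : 0 ≤ r) (x : E) : |r • x| = r • |x| := by
  rcases eq_or_lt_of_le hr with h | h
  · subst h; simp
  · apply le_antisymm
    · apply abs_le'.mpr
      constructor
      · exact smul_mono hr (le_abs_self x)
      · rw [← smul_neg]; exact smul_mono hr (neg_le_abs x)
    · have h1 : |x| ≤ r⁻¹ • |r • x| := by
        apply abs_le'.mpr
        have hx : x = r⁻¹ • (r • x) := by rw [smul_smul, inv_mul_cancel₀ h.ne', one_smul]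
        constructor
        · calc x = r⁻¹ • (r • x) := hx
            _ ≤ r⁻¹ • |r • x| := smul_mono (inv_nonneg.mpr hr) (le_abs_self _)
        · calc -x = r⁻¹ • (-(r • x)) := by rw [smul_neg, ← hx]
            _ ≤ r⁻¹ • |r • x| := smul_mono (inv_nonneg.mpr hr) (neg_le_abs _)
      calc r • |x| ≤ r • (r⁻¹ • |r • x|) := smul_mono hr h1
        _ = |r • x| := by rw [smul_smul, mul_inv_cancel₀ h.ne', one_smul]

end

section
variable {E : Type u} [NormedAddCommGroup E] [NormedSpace ℝ E] [Lattice E] [IsBanachLattice E]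
  {F : Type v} [NormedAddCommGroup F] [NormedSpace ℝ F] [Lattice F] [IsBanachLattice F]
  {G : Type w} [NormedAddCommGroup G] [NormedSpace ℝ G] [Lattice G] [IsBanachLattice G]

lemma IsLatHom.smul {T : E →L[ℝ] F} (hT : IsLatHom T) {r : ℝ} (hr : 0 ≤ r) :
    IsLatHom (r • T) := by
  intro x
  show r • T |x| = |r • T x|
  rw [hT x, abs_smul_nonneg hr]

omit [IsBanachLattice E] [IsBanachLattice F] [IsBanachLattice G] in
lemma IsLatHom.comp {S : F →L[ℝ] G} {T : E →L[ℝ] F} (hS : IsLatHom S) (hT : IsLatHom T) :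
    IsLatHom (S.comp T) := by
  intro x
  show S (T |x|) = |S (T x)|
  rw [hT x, hS]

omit [IsBanachLattice E] [IsBanachLattice F] [IsBanachLattice G] in
/-- the canonical map between two quotients is a quotient map -/
lemma IsQuotientMap.of_comp {q : E →L[ℝ] F} {Q : E →L[ℝ] G} {π : F →L[ℝ] G}
    (hq : IsQuotientMap q) (hQ : IsQuotientMap Q) (h : π.comp q = Q) : IsQuotientMap π := by
  have h' : ∀ x, π (q x) = Q x := fun x => by rw [← h]; rfl
  refine ⟨?_, ?_, ?_, ?_⟩
  · intro y
    obtain ⟨x, rfl⟩ := hq.surj y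
    rw [← hq.latHom x, h', h', hQ.latHom x]
  · intro z
    obtain ⟨x, rfl⟩ := hQ.surj z
    exact ⟨q x, h' x⟩
  · intro y
    refine le_of_forall_pos_le_add (fun ε hε => ?_)
    obtain ⟨x, rfl, hx⟩ := hq.lift y ε hε
    rw [h']
    exact (hQ.norm_le x).trans hx
  · intro z ε hε
    obtain ⟨x, rfl, hx⟩ := hQ.lift z ε hε
    exact ⟨q x, h' x, (hq.norm_le x).trans hx⟩

end

/-- In an `ℓ`-open Banach lattice every contractive lattice homomorphism into a quotient of a
separable Banach lattice is `1⁺`-liftable. -/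
theorem liftable_of_lopen {A : Type u} [NormedAddCommGroup A] [NormedSpace ℝ A] [Lattice A]
    [IsBanachLattice A] (hA : LOpen A)
    {B : Type} [NormedAddCommGroup B] [NormedSpace ℝ B] [Lattice B] [IsBanachLattice B]
    [TopologicalSpace.SeparableSpace B]
    {C : Type} [NormedAddCommGroup C] [NormedSpace ℝ C] [Lattice C] [IsBanachLattice C]
    (Q : B →L[ℝ] C) (hQ : IsQuotientMap Q) (φ : A →L[ℝ] C) (hφ : IsLatHom φ) (hφ1 : ‖φ‖ ≤ 1) :
    OnePlusLiftable Q φ := by
  have hmem : ∀ t : unitInterval, IsLatHom ((t : ℝ) • φ) ∧ ‖(t : ℝ) • φ‖ ≤ 1 := by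
    intro t
    refine ⟨hφ.smul t.2.1, ?_⟩
    rw [norm_smul, Real.norm_eq_abs, abs_of_nonneg t.2.1]
    have h1 := t.2.1
    have h2 := t.2.2
    nlinarith [norm_nonneg φ]
  let γ : unitInterval → Hom₁ A C := fun t => ⟨(t : ℝ) • φ, hmem t⟩
  have hγ : Continuous γ := by
    refine continuous_induced_rng.mpr (continuous_pi (fun a => ?_))
    exact (continuous_subtype_val.smul continuous_const)
  set S : Set unitInterval := {t | OnePlusLiftable Q ((t : ℝ) • φ)} with hS
  have hopen : IsOpen S := (hA B C Q hQ).preimage hγ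
  have h0 : (0 : unitInterval) ∈ S := by
    intro ε hε
    refine ⟨0, ?_, ?_, ?_⟩
    · intro x; simp
    · ext x; simp
    · rw [norm_zero]; linarith
  have hclosed : IsClosed S := by
    refine isClosed_of_closure_subset (fun t ht => ?_)
    by_cases ht0 : (t : ℝ) = 0
    · have : t = 0 := Subtype.ext ht0
      rw [this]; exact h0
    · have htpos : 0 < (t : ℝ) := lt_of_le_of_ne t.2.1 (Ne.symm ht0)
      intro ε hε
      set c : ℝ := t * (1 + ε / 2) / (1 + ε) with hc
      have hct : c < t := by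
        rw [hc, div_lt_iff₀ (by linarith)]
        nlinarith
      have hcpos : 0 < c := by rw [hc]; positivity
      have hU : IsOpen {s : unitInterval | c < (s : ℝ)} := isOpen_lt continuous_const continuous_subtype_val
      obtain ⟨s, hs1, hs2⟩ := mem_closure_iff.mp ht _ hU hct
      have hs1' : c < (s : ℝ) := hs1
      have hspos : 0 < (s : ℝ) := lt_trans hcpos hs1'
      obtain ⟨ψ, hψ1, hψ2, hψ3⟩ := hs2 (ε / 2) (by positivity)
      have hr : 0 ≤ (t : ℝ) / s := by positivity
      refine ⟨((t : ℝ) / s) • ψ, hψ1.smul hr, ?_, ?_⟩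
      · ext a
        have h1 : Q (ψ a) = (s : ℝ) • φ a := by
          have := congrArg (fun T : A →L[ℝ] C => T a) hψ2
          exact this
        show Q (((t : ℝ) / s) • ψ a) = (t : ℝ) • φ a
        rw [map_smul, h1, smul_smul, div_mul_cancel₀ _ hspos.ne']
      · rw [norm_smul, Real.norm_eq_abs, abs_of_nonneg hr]
        have h1 : (t : ℝ) / s * (1 + ε / 2) ≤ 1 + ε := by
          rw [div_mul_eq_mul_div, div_le_iff₀ hspos]
          have h2 : c * (1 + ε) = t * (1 + ε / 2) := by
            rw [hc]; field_simp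
          nlinarith
        calc (t : ℝ) / s * ‖ψ‖ ≤ (t : ℝ) / s * (1 + ε / 2) := mul_le_mul_of_nonneg_left hψ3 hr
          _ ≤ 1 + ε := h1
  have huniv : S = Set.univ := IsClopen.eq_univ ⟨hclosed, hopen⟩ ⟨0, h0⟩
  have h1 : (1 : unitInterval) ∈ S := by rw [huniv]; trivial
  have h2 : OnePlusLiftable Q (((1 : unitInterval) : ℝ) • φ) := h1
  simpa using h2

/-- Every `ℓ`-open Banach lattice is semiprojective. -/
theorem semiprojective_of_lopen {A : Type u} [NormedAddCommGroup A] [NormedSpace ℝ A] [Lattice A]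
    [IsBanachLattice A] (hA : LOpen A) : Semiprojective A := by
  intro B _ _ _ _ _ C _ _ _ _ D _ _ _ _ q Q π hq hQ hπ _ _ φ hφ hφ1
  have hπ0 : IsQuotientMap (π 0) := (hq 0).of_comp hQ (hπ 0)
  have : TopologicalSpace.SeparableSpace (C 0) :=
    (hq 0).surj.denseRange.separableSpace (q 0).continuous
  exact ⟨0, liftable_of_lopen hA (π 0) hπ0 φ hφ hφ1⟩

end Q100.BL
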