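import Pool.Agent.Q100.BLLift

set_option autoImplicit false
open Filter Topology
open scoped ENNReal

namespace Q100.BL

universe u v w

/-- The product of two Banach lattices with the maximum norm is a Banach lattice. -/
instance instProd {E : Type u} [NormedAddCommGroup E] [NormedSpace ℝ E] [Lattice E]
    [IsBanachLattice E] {F : Type v} [NormedAddCommGroup F] [NormedSpace ℝ F] [Lattice F]
    [IsBanachLattice F] : IsBanachLattice (E × F) where
  add_le_add_left' := fun a b h c => ⟨add_le_add_right h.1 c.1, add_le_add_right h.2 c.2⟩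
  smul_nonneg' := fun r a hr ha => ⟨IsBanachLattice.smul_nonneg' _ _ hr ha.1,
    IsBanachLattice.smul_nonneg' _ _ hr ha.2⟩
  solid' := fun a b h => by
    have h1 : |a.1| ≤ |b.1| := h.1
    have h2 : |a.2| ≤ |b.2| := h.2
    rw [Prod.norm_def, Prod.norm_def]
    exact max_le_max (IsBanachLattice.solid' _ _ h1) (IsBanachLattice.solid' _ _ h2)
  complete' := inferInstance

instance instReal : IsBanachLattice ℝ where
  add_le_add_left' := fun a b h c => by linarith
  smul_nonneg' := fun r a hr ha => mul_nonneg hr ha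
  solid' := fun a b h => h
  complete' := inferInstance

/-- the underlying space of the counterexample -/
def CN (_n : ℕ) : Type := Ell1 × C(unitInterval, ℝ)

noncomputable instance (n : ℕ) : AddCommGroup (CN n) := inferInstanceAs (AddCommGroup (Ell1 × C(unitInterval, ℝ)))
noncomputable instance (n : ℕ) : Module ℝ (CN n) := inferInstanceAs (Module ℝ (Ell1 × C(unitInterval, ℝ)))
noncomputable instance (n : ℕ) : Lattice (CN n) := inferInstanceAs (Lattice (Ell1 × C(unitInterval, ℝ)))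

/-- the points `2⁻ᵏ` -/
noncomputable def pt (k : ℕ) : unitInterval :=
  ⟨(1 / 2) ^ k, by positivity, pow_le_one₀ (by norm_num) (by norm_num)⟩

/-- coupling terms -/
noncomputable def cpl (n : ℕ) (x : CN n) (k : ℕ) : ℝ := |x.1 (k + n)| + |x.2 (pt k)|

lemma ell1_coord_le (z : Ell1) (k : ℕ) : |z k| ≤ ‖z‖ := by
  have h := lp.norm_apply_le_norm (p := 1) (by simp) z k
  simpa using h

lemma cpl_le (n : ℕ) (x : CN n) (k : ℕ) : cpl n x k ≤ ‖x.1‖ + ‖x.2‖ := by
  unfold cpl
  exact add_le_add (ell1_coord_le _ _) (ContinuousMap.norm_coe_le_norm x.2 (pt k))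

lemma cpl_bdd (n : ℕ) (x : CN n) : BddAbove (Set.range (cpl n x)) :=
  ⟨‖x.1‖ + ‖x.2‖, by rintro _ ⟨k, rfl⟩; exact cpl_le n x k⟩

lemma cpl_nonneg (n : ℕ) (x : CN n) (k : ℕ) : 0 ≤ cpl n x k := by unfold cpl; positivity

/-- the norm -/
noncomputable def nrm (n : ℕ) (x : CN n) : ℝ := max (max ‖x.1‖ ‖x.2‖) (⨆ k, cpl n x k)

lemma nrm_le {n : ℕ} {x : CN n} {c : ℝ} (h1 : ‖x.1‖ ≤ c) (h2 : ‖x.2‖ ≤ c)
    (h3 : ∀ k, cpl n x k ≤ c) : nrm n x ≤ c :=
  max_le (max_le h1 h2) (ciSup_le h3)

lemma le_nrm1 (n : ℕ) (x : CN n) : ‖x.1‖ ≤ nrm n x := (le_max_left _ _).trans (le_max_left _ _)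
lemma le_nrm2 (n : ℕ) (x : CN n) : ‖x.2‖ ≤ nrm n x := (le_max_right _ _).trans (le_max_left _ _)
lemma le_nrm3 (n : ℕ) (x : CN n) (k : ℕ) : cpl n x k ≤ nrm n x :=
  (le_ciSup (cpl_bdd n x) k).trans (le_max_right _ _)

/-- the norm as a group norm -/
noncomputable def nrmGN (n : ℕ) : AddGroupNorm (CN n) where
  toFun := nrm n
  map_zero' := by
    apply le_antisymm
    · refine nrm_le ?_ ?_ ?_
      · show ‖(0 : Ell1)‖ ≤ 0; simp
      · show ‖(0 : C(unitInterval, ℝ))‖ ≤ 0; simp
      · intro k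
        show |(0 : Ell1) (k + n)| + |(0 : C(unitInterval, ℝ)) (pt k)| ≤ 0
        simp
    · exact (norm_nonneg _).trans (le_nrm1 n 0)
  add_le' := by
    intro x y
    refine nrm_le ?_ ?_ ?_
    · exact (norm_add_le x.1 y.1).trans (add_le_add (le_nrm1 n x) (le_nrm1 n y))
    · exact (norm_add_le x.2 y.2).trans (add_le_add (le_nrm2 n x) (le_nrm2 n y))
    · intro k
      have h1 : cpl n (x + y) k ≤ cpl n x k + cpl n y k := by
        show |(x.1 + y.1 : Ell1) (k + n)| + |(x.2 + y.2 : C(unitInterval, ℝ)) (pt k)| ≤ _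
        unfold cpl
        rw [lp.coeFn_add, Pi.add_apply, ContinuousMap.add_apply]
        have h2 := abs_add_le (x.1 (k + n)) (y.1 (k + n))
        have h3 := abs_add_le (x.2 (pt k)) (y.2 (pt k))
        linarith
      exact h1.trans (add_le_add (le_nrm3 n x k) (le_nrm3 n y k))
  neg' := by
    intro x
    have hc : ∀ k, cpl n (-x) k = cpl n x k := by
      intro k
      show |(-x.1 : Ell1) (k + n)| + |(-x.2 : C(unitInterval, ℝ)) (pt k)| = _
      unfold cpl
      rw [lp.coeFn_neg, Pi.neg_apply, ContinuousMap.neg_apply, abs_neg, abs_neg]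
    show max (max ‖-x.1‖ ‖-x.2‖) (⨆ k, cpl n (-x) k) = nrm n x
    unfold nrm
    simp_rw [hc]
    rw [norm_neg, norm_neg]
  eq_zero_of_map_eq_zero' := by
    intro x hx
    have h1 : ‖x.1‖ = 0 := le_antisymm ((le_nrm1 n x).trans (le_of_eq hx)) (norm_nonneg _)
    have h2 : ‖x.2‖ = 0 := le_antisymm ((le_nrm2 n x).trans (le_of_eq hx)) (norm_nonneg _)
    exact Prod.ext (norm_eq_zero.mp h1) (norm_eq_zero.mp h2)

noncomputable instance (n : ℕ) : NormedAddCommGroup (CN n) := (nrmGN n).toNormedAddCommGroup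

lemma norm_def' (n : ℕ) (x : CN n) : ‖x‖ = nrm n x := rfl

lemma cpl_smul (n : ℕ) (r : ℝ) (x : CN n) (k : ℕ) : cpl n (r • x) k = |r| * cpl n x k := by
  show |(r • x.1 : Ell1) (k + n)| + |(r • x.2 : C(unitInterval, ℝ)) (pt k)| = _
  unfold cpl
  rw [lp.coeFn_smul, Pi.smul_apply, ContinuousMap.smul_apply, smul_eq_mul, smul_eq_mul, abs_mul,
    abs_mul]
  ring

noncomputable instance (n : ℕ) : NormedSpace ℝ (CN n) where
  norm_smul_le := by
    intro r x
    rw [norm_def', norm_def', Real.norm_eq_abs]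
    refine nrm_le ?_ ?_ ?_
    · show ‖r • x.1‖ ≤ _
      rw [norm_smul, Real.norm_eq_abs]
      exact mul_le_mul_of_nonneg_left (le_nrm1 n x) (abs_nonneg r)
    · show ‖r • x.2‖ ≤ _
      rw [norm_smul, Real.norm_eq_abs]
      exact mul_le_mul_of_nonneg_left (le_nrm2 n x) (abs_nonneg r)
    · intro k
      rw [cpl_smul]
      exact mul_le_mul_of_nonneg_left (le_nrm3 n x k) (abs_nonneg r)

/-- the identity map to the product space -/
noncomputable def toProd (n : ℕ) : CN n →ₗ[ℝ] (Ell1 × C(unitInterval, ℝ)) := LinearMap.id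

lemma toProd_le (n : ℕ) (x : CN n) : ‖toProd n x‖ ≤ ‖x‖ := by
  show ‖((x.1, x.2) : Ell1 × C(unitInterval, ℝ))‖ ≤ _
  rw [Prod.norm_def]
  exact max_le (le_nrm1 n x) (le_nrm2 n x)

lemma le_toProd (n : ℕ) (x : CN n) : ‖x‖ ≤ 2 * ‖toProd n x‖ := by
  have h : ‖toProd n x‖ = max ‖x.1‖ ‖x.2‖ := rfl
  rw [h]
  have h1 : ‖x.1‖ ≤ max ‖x.1‖ ‖x.2‖ := le_max_left _ _
  have h2 : ‖x.2‖ ≤ max ‖x.1‖ ‖x.2‖ := le_max_right _ _
  have h3 := norm_nonneg x.1
  refine nrm_le (by linarith) (by linarith) (fun k => ?_)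
  have := cpl_le n x k
  linarith

/-- the identity as a continuous linear equivalence -/
noncomputable def toProdL (n : ℕ) : CN n ≃L[ℝ] (Ell1 × C(unitInterval, ℝ)) :=
  LinearEquiv.toContinuousLinearEquivOfBounds (LinearEquiv.refl ℝ (CN n)) 1 2
    (fun x => by rw [one_mul]; exact toProd_le n x) (fun x => le_toProd n x)

instance instCContLat : IsBanachLattice C(unitInterval, ℝ) where
  add_le_add_left' := fun a b h c => add_le_add_right h c
  smul_nonneg' := fun r a hr ha x => mul_nonneg hr (ha x)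
  solid' := fun a b h => by
    rw [ContinuousMap.norm_le _ (norm_nonneg _)]
    intro x
    exact (h x).trans (ContinuousMap.norm_coe_le_norm b x)
  complete' := inferInstance

instance (n : ℕ) : IsBanachLattice (CN n) where
  add_le_add_left' := fun a b h c =>
    IsBanachLattice.add_le_add_left' (E := Ell1 × C(unitInterval, ℝ)) a b h c
  smul_nonneg' := fun r a hr ha =>
    IsBanachLattice.smul_nonneg' (E := Ell1 × C(unitInterval, ℝ)) r a hr ha
  solid' := fun a b h => by
    have h1 : |a.1| ≤ |b.1| := h.1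
    have h2 : |a.2| ≤ |b.2| := h.2
    refine nrm_le ((IsBanachLattice.solid' _ _ h1).trans (le_nrm1 n b))
      ((IsBanachLattice.solid' _ _ h2).trans (le_nrm2 n b)) (fun k => ?_)
    refine le_trans ?_ (le_nrm3 n b k)
    unfold cpl
    exact add_le_add (h1 (k + n)) (h2 (pt k))
  complete' := by
    have h : IsUniformEmbedding (toProdL n) := (toProdL n).isUniformEmbedding
    exact (completeSpace_congr (e := (toProdL n).toEquiv) h).mpr inferInstance

end Q100.BL
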