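import Pool.Agent.Q100.BLBasic

set_option autoImplicit false
open Filter Topology
open scoped ENNReal

namespace Q100.BL

universe u v w

/-- The space `ℓ₁` of absolutely summable real sequences. -/
abbrev Ell1 : Type := lp (fun _ : ℕ => ℝ) 1

/-- The coordinatewise lattice order of `ℓ₁`. -/
noncomputable instance : Lattice Ell1 where
  le x y := ∀ j, x j ≤ y j
  le_refl x j := le_rfl
  le_trans x y z h1 h2 j := (h1 j).trans (h2 j)
  le_antisymm x y h1 h2 := by
    ext j
    exact le_antisymm (h1 j) (h2 j)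
  sup x y := ⟨fun j => x j ⊔ y j, by
    have h1 : ∀ j, ‖x j ⊔ y j‖ ≤ ((fun j => ‖x j‖) + fun j => ‖y j‖) j := by
      intro j
      simp only [Pi.add_apply, Real.norm_eq_abs]
      rcases le_total (x j) (y j) with h | h
      · rw [sup_eq_right.mpr h]; linarith [abs_nonneg (x j)]
      · rw [sup_eq_left.mpr h]; linarith [abs_nonneg (y j)]
    exact (((lp.memℓp x).norm.add (lp.memℓp y).norm).mono h1 : Memℓp (fun j => x j ⊔ y j) 1)⟩
  inf x y := ⟨fun j => x j ⊓ y j, by
    have h1 : ∀ j, ‖x j ⊓ y j‖ ≤ ((fun j => ‖x j‖) + fun j => ‖y j‖) j := by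
      intro j
      simp only [Pi.add_apply, Real.norm_eq_abs]
      rcases le_total (x j) (y j) with h | h
      · rw [inf_eq_left.mpr h]; linarith [abs_nonneg (y j)]
      · rw [inf_eq_right.mpr h]; linarith [abs_nonneg (x j)]
    exact (((lp.memℓp x).norm.add (lp.memℓp y).norm).mono h1 : Memℓp (fun j => x j ⊓ y j) 1)⟩
  le_sup_left x y j := le_sup_left (a := x j) (b := y j)
  le_sup_right x y j := le_sup_right (a := x j) (b := y j)
  sup_le x y z h1 h2 j := sup_le (h1 j) (h2 j)
  inf_le_left x y j := inf_le_left (a := x j) (b := y j)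
  inf_le_right x y j := inf_le_right (a := x j) (b := y j)
  le_inf x y z h1 h2 j := le_inf (h1 j) (h2 j)

lemma ell1_le_def (x y : Ell1) : x ≤ y ↔ ∀ j, x j ≤ y j := Iff.rfl

lemma ell1_abs_apply (x : Ell1) (j : ℕ) : (|x| : Ell1) j = |x j| := rfl

lemma ell1_norm (x : Ell1) : HasSum (fun j => |x j|) ‖x‖ := by
  have h := lp.hasSum_norm (p := 1) (by simp) x
  simpa using h

instance : IsBanachLattice Ell1 where
  add_le_add_left' := fun a b h c j => by
    rw [lp.coeFn_add, lp.coeFn_add]
    exact add_le_add_right (h j) _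
  smul_nonneg' := fun r a hr ha j => by
    rw [lp.coeFn_smul]
    exact mul_nonneg hr (ha j)
  solid' := fun a b h => by
    refine hasSum_le (fun j => ?_) (ell1_norm a) (ell1_norm b)
    exact h j
  complete' := inferInstance

end Q100.BL
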