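import Pool.Agent.Q100.BLEll1

set_option autoImplicit false
open Filter Topology
open scoped ENNReal

namespace Q100.BL

universe u v w

section
variable {E : Type u} [NormedAddCommGroup E] [NormedSpace ℝ E] [Lattice E] [IsBanachLattice E]

instance instSolid : HasSolidNorm E := ⟨fun a b h => IsBanachLattice.solid' a b h⟩

instance instComplete : CompleteSpace E := IsBanachLattice.complete'

lemma continuous_abs' : Continuous (fun x : E => |x|) := by
  have : (fun x : E => |x|) = fun x : E => x ⊔ (-x) := rfl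
  rw [this]
  exact continuous_id.sup continuous_neg

lemma inf_add_le' {a b c : E} (ha : 0 ≤ a) (hb : 0 ≤ b) (hc : 0 ≤ c) :
    a ⊓ (b + c) ≤ (a ⊓ b) + (a ⊓ c) := by
  rw [inf_add]
  have h1 : a ⊓ (b + c) - b ≤ a ⊓ c := by
    apply le_inf
    · have h2 : a ⊓ (b + c) ≤ a := inf_le_left
      calc a ⊓ (b + c) - b ≤ a - 0 := sub_le_sub h2 hb
        _ = a := sub_zero a
    · rw [sub_le_iff_le_add, add_comm c b]
      exact inf_le_right
  apply le_inf
  · have h2 : 0 ≤ a ⊓ c := le_inf ha hc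
    calc a ⊓ (b + c) ≤ a := inf_le_left
      _ ≤ a + (a ⊓ c) := le_add_of_nonneg_right h2
  · rw [sub_le_iff_le_add] at h1
    rw [add_comm b (a ⊓ c)]
    exact h1

lemma disj_smul {a b : E} (ha : 0 ≤ a) (hb : 0 ≤ b) (h : a ⊓ b = 0) {t : ℝ} (ht : 0 ≤ t) :
    a ⊓ (t • b) = 0 := by
  set r : ℝ := 1 + t with hr
  have hrpos : 0 < r := by linarith
  have h1 : a ≤ r • a := by
    have := smul_mono (E := E) (show 0 ≤ t from ht) ha
    rw [smul_zero] at this
    rw [hr, add_smul, one_smul]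
    exact le_add_of_nonneg_right this
  have h2 : t • b ≤ r • b := by
    rw [hr, add_smul, one_smul]
    exact le_add_of_nonneg_left hb
  set x := a ⊓ (t • b) with hx
  have h3 : r⁻¹ • x ≤ a := by
    calc r⁻¹ • x ≤ r⁻¹ • (r • a) := smul_mono (inv_nonneg.mpr hrpos.le) (inf_le_left.trans h1)
      _ = a := by rw [smul_smul, inv_mul_cancel₀ hrpos.ne', one_smul]
  have h4 : r⁻¹ • x ≤ b := by
    calc r⁻¹ • x ≤ r⁻¹ • (r • b) := smul_mono (inv_nonneg.mpr hrpos.le) (inf_le_right.trans h2)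
      _ = b := by rw [smul_smul, inv_mul_cancel₀ hrpos.ne', one_smul]
  have h5 : r⁻¹ • x ≤ 0 := by rw [← h]; exact le_inf h3 h4
  have h6 : x ≤ 0 := by
    calc x = r • (r⁻¹ • x) := by rw [smul_smul, mul_inv_cancel₀ hrpos.ne', one_smul]
      _ ≤ r • (0 : E) := smul_mono hrpos.le h5
      _ = 0 := smul_zero _
  refine le_antisymm h6 (le_inf ha ?_)
  have := smul_mono (E := E) ht hb
  rwa [smul_zero] at this

lemma disj_mono {a b a' b' : E} (ha : 0 ≤ a) (hb : 0 ≤ b) (haa : a ≤ a') (hbb : b ≤ b')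
    (h : a' ⊓ b' = 0) : a ⊓ b = 0 :=
  le_antisymm (h ▸ inf_le_inf haa hbb) (le_inf ha hb)

lemma abs_add_of_disj {x y : E} (h : |x| ⊓ |y| = 0) : |x + y| = |x| + |y| := by
  apply le_antisymm
  · exact abs_add_le x y
  · have h1 : |x| + |y| = |x| ⊔ |y| := by rw [← inf_add_sup |x| |y|, h, zero_add]
    have h2 : |x| ⊔ |y| = |(|y| - |x|)| := by
      rw [← sup_sub_inf_eq_abs_sub |x| |y|, h, sub_zero]
    rw [h1, h2]
    have h3 := abs_abs_sub_abs_le y (-x)
    rw [abs_neg, sub_neg_eq_add, add_comm y x] at h3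
    exact h3

lemma disj_sum {ι : Type} (s : Finset ι) (f : ι → E) (a : E) (ha : 0 ≤ a) (hf : ∀ i ∈ s, 0 ≤ f i)
    (h : ∀ i ∈ s, a ⊓ f i = 0) : a ⊓ (∑ i ∈ s, f i) = 0 := by
  classical
  induction s using Finset.induction_on with
  | empty => simp [ha]
  | insert i s hi ih =>
    rw [Finset.sum_insert hi]
    have hs : 0 ≤ ∑ i ∈ s, f i := Finset.sum_nonneg (fun j hj => hf j (Finset.mem_insert_of_mem hj))
    have hfi := hf i (Finset.mem_insert_self _ _)
    apply le_antisymm
    · refine (inf_add_le' ha hfi hs).trans ?_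
      rw [h i (Finset.mem_insert_self _ _),
        ih (fun j hj => hf j (Finset.mem_insert_of_mem hj))
          (fun j hj => h j (Finset.mem_insert_of_mem hj)), add_zero]
    · exact le_inf ha (add_nonneg hfi hs)

lemma abs_smul' (r : ℝ) (x : E) : |r • x| = |r| • |x| := by
  rcases le_total 0 r with h | h
  · rw [abs_smul_nonneg h, abs_of_nonneg h]
  · have h1 : r • x = (-r) • (-x) := by rw [smul_neg, neg_smul, neg_neg]
    rw [h1, abs_smul_nonneg (neg_nonneg.mpr h), abs_neg, abs_of_nonpos h]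

lemma sub_sup_zero_of_disj {a b : E} (h : a ⊓ b = 0) : (a - b) ⊔ 0 = a := by
  have h1 : (a - b) ⊔ 0 = a ⊔ b - b := by rw [sup_sub, sub_self]
  have h2 : a ⊔ b = a + b := by rw [← inf_add_sup a b, h, zero_add]
  rw [h1, h2, add_sub_cancel_right]

lemma IsLatHom.map_sup {F : Type v} [NormedAddCommGroup F] [NormedSpace ℝ F] [Lattice F]
    [IsBanachLattice F] {T : E →L[ℝ] F} (hT : IsLatHom T) (a b : E) : T (a ⊔ b) = T a ⊔ T b := by
  have h1 : (2 : ℕ) • (a ⊔ b) = a + b + |b - a| := two_nsmul_sup_eq_add_add_abs_sub a b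
  have h2 : (2 : ℕ) • (T a ⊔ T b) = T a + T b + |T b - T a| := two_nsmul_sup_eq_add_add_abs_sub _ _
  have h3 : (2 : ℕ) • T (a ⊔ b) = (2 : ℕ) • (T a ⊔ T b) := by
    rw [h2, ← map_nsmul, h1, map_add, map_add, hT, map_sub]
  have h4 : (2 : ℝ) • T (a ⊔ b) = (2 : ℝ) • (T a ⊔ T b) := by
    rw [two_smul, two_smul, ← two_nsmul, ← two_nsmul, h3]
  exact smul_right_injective F (by norm_num : (2 : ℝ) ≠ 0) h4

/-- modulus of a combination of disjoint elements -/
lemma abs_sum_disj (z : ℕ → E) (hz : ∀ n, 0 ≤ z n) (hd : ∀ n m, n ≠ m → z n ⊓ z m = 0)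
    (a : ℕ → ℝ) (N : ℕ) :
    |∑ n ∈ Finset.range N, a n • z n| = ∑ n ∈ Finset.range N, |a n| • z n := by
  induction N with
  | zero => simp
  | succ N ih =>
    rw [Finset.sum_range_succ, Finset.sum_range_succ, abs_add_of_disj, ih, abs_smul',
      abs_of_nonneg (hz N)]
    rw [ih, abs_smul', abs_of_nonneg (hz N), inf_comm]
    have hnn : ∀ n, 0 ≤ |a n| • z n := fun n => IsBanachLattice.smul_nonneg' _ _ (abs_nonneg _) (hz n)
    refine disj_sum _ _ _ (hnn N) (fun n _ => hnn n) (fun n hn => ?_)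
    have hne : N ≠ n := by
      have := Finset.mem_range.mp hn
      omega
    refine disj_smul (hnn N) (hz n) ?_ (abs_nonneg _)
    rw [inf_comm]
    refine disj_smul (hz n) (hz N) ?_ (abs_nonneg _)
    exact hd n N hne.symm

end

/-- Every contractive lattice homomorphism from `ℓ₁` into a quotient of a Banach lattice is
`1⁺`-liftable. -/
theorem ell1_liftable
    {B : Type v} [NormedAddCommGroup B] [NormedSpace ℝ B] [Lattice B] [IsBanachLattice B]
    {C : Type w} [NormedAddCommGroup C] [NormedSpace ℝ C] [Lattice C] [IsBanachLattice C]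
    (Q : B →L[ℝ] C) (hQ : IsQuotientMap Q) (φ : Ell1 →L[ℝ] C) (hφ : IsLatHom φ) (hφ1 : ‖φ‖ ≤ 1) :
    OnePlusLiftable Q φ := by
  intro ε hε
  -- unit vectors
  set e : ℕ → Ell1 := fun n => lp.single 1 n (1 : ℝ) with he
  have hone : (0 : ℝ≥0∞) < 1 := by simp
  have hen : ∀ n, ‖e n‖ = 1 := fun n => by rw [he]; simp only; rw [lp.norm_single hone]; simp
  have heabs : ∀ n, |e n| = e n := by
    intro n
    ext j
    rw [ell1_abs_apply]
    by_cases h : j = n
    · subst h; simp [he]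
    · simp [he, Pi.single_apply, h]
  have hedisj : ∀ n m, n ≠ m → e n ⊓ e m = 0 := by
    intro n m hnm
    ext j
    show (e n : ℕ → ℝ) j ⊓ (e m : ℕ → ℝ) j = 0
    by_cases h : j = n
    · subst h
      simp [he, Pi.single_apply, hnm]
    · have h1 : (e n : ℕ → ℝ) j = 0 := by simp [he, Pi.single_apply, h]
      rw [h1]
      refine inf_eq_left.mpr ?_
      by_cases h' : j = m
      · subst h'; simp [he]
      · simp [he, Pi.single_apply, h']
  -- lattice homomorphisms preserve infima of positive disjoint elements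
  have hφpos : ∀ x : Ell1, 0 ≤ x → 0 ≤ φ x := by
    intro x hx
    have h1 : |x| = x := abs_of_nonneg hx
    rw [← h1, hφ x]
    exact abs_nonneg _
  have hφinf : ∀ n m, n ≠ m → φ (e n) ⊓ φ (e m) = 0 := by
    intro n m hnm
    have hen0 : 0 ≤ e n := by rw [← heabs n]; exact abs_nonneg _
    have hem0 : 0 ≤ e m := by rw [← heabs m]; exact abs_nonneg _
    have h1 : e n ⊔ e m - e n ⊓ e m = |e m - e n| := sup_sub_inf_eq_abs_sub _ _
    have h2 : e n ⊓ e m + e n ⊔ e m = e n + e m := inf_add_sup _ _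
    rw [hedisj n m hnm, sub_zero] at h1
    rw [hedisj n m hnm, zero_add] at h2
    have h3 : |e m - e n| = e n + e m := by rw [← h1, h2]
    have h4 : |φ (e m) - φ (e n)| = φ (e n) + φ (e m) := by
      rw [← map_sub, ← hφ, h3, map_add]
    have h5 : φ (e n) ⊔ φ (e m) - φ (e n) ⊓ φ (e m) = |φ (e m) - φ (e n)| :=
      sup_sub_inf_eq_abs_sub _ _
    have h6 : φ (e n) ⊓ φ (e m) + φ (e n) ⊔ φ (e m) = φ (e n) + φ (e m) := inf_add_sup _ _
    rw [h4, ← h6] at h5
    have h7 : (2 : ℝ) • (φ (e n) ⊓ φ (e m)) = 0 := by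
      rw [two_smul]
      have : φ (e n) ⊔ φ (e m) - φ (e n) ⊓ φ (e m)
        - (φ (e n) ⊓ φ (e m) + φ (e n) ⊔ φ (e m)) = 0 := sub_eq_zero.mpr h5
      have h8 : -(φ (e n) ⊓ φ (e m) + φ (e n) ⊓ φ (e m)) = 0 := by
        rw [← this]; abel
      exact neg_eq_zero.mp h8
    exact (smul_eq_zero.mp h7).resolve_left (by norm_num)
  -- positive lifts
  have hlift : ∀ n, ∃ y : B, 0 ≤ y ∧ Q y = φ (e n) ∧ ‖y‖ ≤ 1 + ε := by
    intro n
    obtain ⟨x, hx1, hx2⟩ := hQ.lift (φ (e n)) ε hε
    refine ⟨|x|, abs_nonneg _, ?_, ?_⟩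
    · rw [hQ.latHom x, hx1, ← hφ, heabs]
    · rw [norm_abs_eq_norm]
      have : ‖φ (e n)‖ ≤ 1 := (φ.le_opNorm _).trans (by rw [hen, mul_one]; exact hφ1)
      linarith
  choose y hy0 hyQ hyn using hlift
  set c : ℕ → ℝ := fun n => (1 / 2) ^ n with hc
  have hcpos : ∀ n, 0 < c n := fun n => by rw [hc]; positivity
  have hcs : Summable c := summable_geometric_two
  have hsumm : Summable (fun n => c n • y n) := by
    refine Summable.of_norm_bounded (g := fun n => c n * (1 + ε)) (hcs.mul_right _) (fun n => ?_)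
    rw [norm_smul, Real.norm_eq_abs, abs_of_pos (hcpos n)]
    exact mul_le_mul_of_nonneg_left (hyn n) (hcpos n).le
  set S : B := ∑' n, c n • y n with hS
  have hcy0 : ∀ n, 0 ≤ c n • y n := fun n => IsBanachLattice.smul_nonneg' _ _ (hcpos n).le (hy0 n)
  have hS1 : ∀ n, c n • y n ≤ S := fun n => hsumm.le_tsum n (fun m _ => hcy0 m)
  have hS2 : ∀ n m, n ≠ m → c n • y n + c m • y m ≤ S := by
    intro n m hnm
    have h1 := hsumm.sum_le_tsum {n, m} (fun i _ => hcy0 i)
    rwa [Finset.sum_pair hnm] at h1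
  -- the disjoint lifts
  set z : ℕ → B := fun n => ((2 : ℝ) • y n - (c n)⁻¹ • S) ⊔ 0 with hz
  have hz0 : ∀ n, 0 ≤ z n := fun n => le_sup_right
  have hzy : ∀ n, z n ≤ y n := by
    intro n
    refine sup_le ?_ (hy0 n)
    have h1 : y n ≤ (c n)⁻¹ • S := by
      calc y n = (c n)⁻¹ • (c n • y n) := by
            rw [smul_smul, inv_mul_cancel₀ (hcpos n).ne', one_smul]
        _ ≤ (c n)⁻¹ • S := smul_mono (inv_nonneg.mpr (hcpos n).le) (hS1 n)
    rw [sub_le_iff_le_add, two_smul]
    exact add_le_add_right h1 _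
  have hzn : ∀ n, ‖z n‖ ≤ 1 + ε := by
    intro n
    refine le_trans (HasSolidNorm.solid ?_) (hyn n)
    rw [abs_of_nonneg (hz0 n), abs_of_nonneg (hy0 n)]
    exact hzy n
  have hzle : ∀ n m, n ≠ m → z n ≤ (y n - (c m / c n) • y m)⁺ := by
    intro n m hnm
    refine sup_le ?_ (posPart_nonneg _)
    refine le_trans ?_ (le_posPart _)
    have h1 : (c n)⁻¹ • (c n • y n + c m • y m) ≤ (c n)⁻¹ • S :=
      smul_mono (inv_nonneg.mpr (hcpos n).le) (hS2 n m hnm)
    rw [smul_add, smul_smul, smul_smul, inv_mul_cancel₀ (hcpos n).ne', one_smul] at h1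
    have h2 : (c n)⁻¹ * c m = c m / c n := by rw [div_eq_inv_mul]
    rw [h2] at h1
    calc (2 : ℝ) • y n - (c n)⁻¹ • S ≤ (2 : ℝ) • y n - (y n + (c m / c n) • y m) :=
          sub_le_sub_left h1 _
      _ = y n - (c m / c n) • y m := by rw [two_smul]; abel
  have hzdisj : ∀ n m, n ≠ m → z n ⊓ z m = 0 := by
    intro n m hnm
    have h1 := hzle n m hnm
    have h2 := hzle m n hnm.symm
    set x := y n - (c m / c n) • y m with hx
    have hr : 0 < c n / c m := div_pos (hcpos n) (hcpos m)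
    have h3 : (y m - (c n / c m) • y n)⁺ = (c n / c m) • x⁻ := by
      have h4 : y m - (c n / c m) • y n = (c n / c m) • (-x) := by
        rw [hx, neg_sub, smul_sub, smul_smul, div_mul_div_cancel₀ (hcpos m).ne', div_self (hcpos n).ne',
          one_smul]
      rw [h4, posPart_def, negPart_def]
      apply le_antisymm
      · refine sup_le (smul_mono hr.le le_sup_left) ?_
        exact IsBanachLattice.smul_nonneg' _ _ hr.le le_sup_right
      · have h5 : (-x) ⊔ 0 ≤ (c n / c m)⁻¹ • ((c n / c m) • (-x) ⊔ 0) := by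
          refine sup_le ?_ (IsBanachLattice.smul_nonneg' _ _ (inv_nonneg.mpr hr.le) le_sup_right)
          calc -x = (c n / c m)⁻¹ • ((c n / c m) • (-x)) := by
                rw [smul_smul, inv_mul_cancel₀ hr.ne', one_smul]
            _ ≤ _ := smul_mono (inv_nonneg.mpr hr.le) le_sup_left
        calc (c n / c m) • ((-x) ⊔ 0)
            ≤ (c n / c m) • ((c n / c m)⁻¹ • ((c n / c m) • (-x) ⊔ 0)) := smul_mono hr.le h5
          _ = _ := by rw [smul_smul, mul_inv_cancel₀ hr.ne', one_smul]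
    rw [h3] at h2
    exact disj_mono (hz0 n) (hz0 m) h1 h2
      (disj_smul (posPart_nonneg _) (negPart_nonneg _) (posPart_inf_negPart_eq_zero x) hr.le)
  -- the images
  have hQz : ∀ n, Q (z n) = φ (e n) := by
    intro n
    have hd0 : ∀ m, 0 ≤ φ (e m) := fun m => hφpos _ (by rw [← heabs m]; exact abs_nonneg _)
    have hQS : Q S = c n • φ (e n) + ∑' m, (if m = n then 0 else c m • φ (e m)) := by
      rw [hS, Q.map_tsum hsumm]
      have h1 : ∀ m, Q (c m • y m) = c m • φ (e m) := fun m => by rw [map_smul, hyQ]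
      simp_rw [h1]
      have h2 : Summable (fun m => c m • φ (e m)) := by
        have := hsumm.mapL Q
        simpa only [h1] using this
      exact h2.tsum_eq_add_tsum_ite n
    set r : ℕ → C := fun m => if m = n then 0 else c m • φ (e m) with hr
    have hr0 : ∀ m, 0 ≤ r m := by
      intro m
      simp only [hr]
      split_ifs
      · exact le_rfl
      · exact IsBanachLattice.smul_nonneg' _ _ (hcpos m).le (hd0 m)
    have hrs : Summable r := by
      have h1 : Summable (fun m => c m • φ (e m)) := by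
        refine Summable.of_norm_bounded (g := c) hcs (fun m => ?_)
        rw [norm_smul, Real.norm_eq_abs, abs_of_pos (hcpos m)]
        have : ‖φ (e m)‖ ≤ 1 := (φ.le_opNorm _).trans (by rw [hen, mul_one]; exact hφ1)
        nlinarith [hcpos m]
      refine Summable.of_norm_bounded (g := c) hcs (fun m => ?_)
      simp only [hr]
      split_ifs
      · rw [norm_zero]; exact (hcpos m).le
      · rw [norm_smul, Real.norm_eq_abs, abs_of_pos (hcpos m)]
        have : ‖φ (e m)‖ ≤ 1 := (φ.le_opNorm _).trans (by rw [hen, mul_one]; exact hφ1)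
        nlinarith [hcpos m]
    have hdr : φ (e n) ⊓ (∑' m, r m) = 0 := by
      have h1 : Tendsto (fun N => φ (e n) ⊓ ∑ m ∈ Finset.range N, r m) atTop
          (𝓝 (φ (e n) ⊓ ∑' m, r m)) :=
        (tendsto_const_nhds (x := φ (e n))).inf_nhds hrs.hasSum.tendsto_sum_nat
      refine tendsto_nhds_unique h1 ?_
      have h2 : (fun N => φ (e n) ⊓ ∑ m ∈ Finset.range N, r m) = fun _ => 0 := by
        funext N
        refine disj_sum _ _ _ (hd0 n) (fun m _ => hr0 m) (fun m _ => ?_)
        simp only [hr]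
        split_ifs with h
        · exact inf_eq_right.mpr (hd0 n)
        · exact disj_smul (hd0 n) (hd0 m) (hφinf n m (fun h' => h h'.symm)) (hcpos m).le
      rw [h2]
      exact tendsto_const_nhds
    have hR0 : 0 ≤ ∑' m, r m := tsum_nonneg hr0
    have hdr2 := disj_smul (hd0 n) hR0 hdr (inv_nonneg.mpr (hcpos n).le)
    have h3 : Q (z n) = (Q ((2 : ℝ) • y n - (c n)⁻¹ • S)) ⊔ 0 := by
      simp only [hz]
      rw [hQ.latHom.map_sup, map_zero]
    rw [h3, map_sub, map_smul, map_smul, hyQ, hQS, smul_add, smul_smul,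
      inv_mul_cancel₀ (hcpos n).ne', one_smul]
    have h4 : (2 : ℝ) • φ (e n) - (φ (e n) + (c n)⁻¹ • ∑' m, r m)
        = φ (e n) - (c n)⁻¹ • ∑' m, r m := by rw [two_smul]; abel
    rw [h4]
    exact sub_sup_zero_of_disj hdr2
  -- the lifted homomorphism
  have hsummz : ∀ a : Ell1, Summable (fun n => a n • z n) := by
    intro a
    refine Summable.of_norm_bounded (g := fun n => |a n| * (1 + ε))
      ((ell1_norm a).summable.mul_right _) (fun n => ?_)
    rw [norm_smul, Real.norm_eq_abs]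
    exact mul_le_mul_of_nonneg_left (hzn n) (abs_nonneg _)
  let ψ₀ : Ell1 →ₗ[ℝ] B :=
    { toFun := fun a => ∑' n, a n • z n
      map_add' := by
        intro a b
        rw [← (hsummz a).tsum_add (hsummz b)]
        refine tsum_congr (fun n => ?_)
        rw [lp.coeFn_add, Pi.add_apply, add_smul]
      map_smul' := by
        intro t a
        rw [RingHom.id_apply, ← (hsummz a).tsum_const_smul]
        refine tsum_congr (fun n => ?_)
        rw [lp.coeFn_smul, Pi.smul_apply, smul_eq_mul, mul_smul] }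
  have hψb : ∀ a, ‖ψ₀ a‖ ≤ (1 + ε) * ‖a‖ := by
    intro a
    have h1 : HasSum (fun n => |a n| * (1 + ε)) (‖a‖ * (1 + ε)) := (ell1_norm a).mul_right _
    have h2 := tsum_of_norm_bounded h1 (f := fun n => a n • z n) (fun n => by
      rw [norm_smul, Real.norm_eq_abs]
      exact mul_le_mul_of_nonneg_left (hzn n) (abs_nonneg _))
    rw [mul_comm]
    exact h2
  let ψ : Ell1 →L[ℝ] B := ψ₀.mkContinuous (1 + ε) hψb
  refine ⟨ψ, ?_, ?_, ?_⟩
  · intro a
    show ∑' n, (|a| : Ell1) n • z n = |∑' n, a n • z n|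
    have h1 : Tendsto (fun N => |∑ n ∈ Finset.range N, a n • z n|) atTop
        (𝓝 |∑' n, a n • z n|) :=
      (continuous_abs'.tendsto _).comp (hsummz a).hasSum.tendsto_sum_nat
    have h2 : Tendsto (fun N => ∑ n ∈ Finset.range N, |a n| • z n) atTop
        (𝓝 (∑' n, (|a| : Ell1) n • z n)) := (hsummz |a|).hasSum.tendsto_sum_nat
    refine tendsto_nhds_unique h2 ?_
    simpa only [abs_sum_disj z hz0 hzdisj] using h1
  · ext a
    show Q (∑' n, a n • z n) = φ a
    rw [Q.map_tsum (hsummz a)]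
    have h1 : ∀ n, Q (a n • z n) = φ (lp.single 1 n (a n)) := by
      intro n
      rw [map_smul, hQz, ← map_smul]
      congr 1
      rw [he]
      simp only
      rw [← lp.single_smul, smul_eq_mul, mul_one]
    simp_rw [h1]
    have h2 : HasSum (fun n => lp.single 1 n (a n)) a := lp.hasSum_single (by simp) a
    exact (h2.mapL φ).tsum_eq
  · exact ψ₀.mkContinuous_norm_le (by linarith) hψb

/-- `ℓ₁` is semiprojective. -/
theorem ell1_semiprojective : Semiprojective Ell1 := by
  intro B _ _ _ _ _ C _ _ _ _ D _ _ _ _ q Q π hq hQ hπ _ _ φ hφ hφ1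
  exact ⟨0, ell1_liftable (π 0) ((hq 0).of_comp hQ (hπ 0)) φ hφ hφ1⟩

end Q100.BL
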