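import Pool.Agent.Q100.BLCN

set_option autoImplicit false
open Filter Topology
open scoped ENNReal

namespace Q100.BL

lemma ell1_hasSum (a : Ell1) : HasSum (fun n => a n • (lp.single 1 n (1 : ℝ) : Ell1)) a := by
  have h : HasSum (fun n => (lp.single 1 n (a n) : Ell1)) a := lp.hasSum_single (by simp) a
  refine h.congr_fun (fun n => ?_) |> fun h => h
  rw [← lp.single_smul, smul_eq_mul, mul_one]

instance instSepEll1 : TopologicalSpace.SeparableSpace Ell1 := by
  set e : ℕ → Ell1 := fun n => lp.single 1 n (1 : ℝ) with he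
  have h1 : TopologicalSpace.IsSeparable (Submodule.span ℝ (Set.range e) : Set Ell1) :=
    (Set.countable_range e).isSeparable.span
  have h2 : (Set.univ : Set Ell1) ⊆ closure (Submodule.span ℝ (Set.range e) : Set Ell1) := by
    intro a _
    refine mem_closure_of_tendsto (ell1_hasSum a).tendsto_sum_nat (Eventually.of_forall (fun N => ?_))
    refine Submodule.sum_mem _ (fun n _ => Submodule.smul_mem _ _ (Submodule.subset_span ⟨n, rfl⟩))
  exact TopologicalSpace.isSeparable_univ_iff.mp (h1.closure.mono h2)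

instance instSepCN (n : ℕ) : TopologicalSpace.SeparableSpace (CN n) :=
  (toProdL n).symm.surjective.denseRange.separableSpace (toProdL n).symm.continuous

/-- scaling of the unit interval -/
noncomputable def scl (n : ℕ) : C(unitInterval, unitInterval) where
  toFun s := ⟨(1 / 2) ^ n * s, by
    have := s.2.1
    positivity, by
    have h1 : ((1 : ℝ) / 2) ^ n ≤ 1 := pow_le_one₀ (by norm_num) (by norm_num)
    have h2 := s.2.1
    have h3 := s.2.2
    have h4 : (0 : ℝ) ≤ (1 / 2) ^ n := by positivity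
    nlinarith⟩
  continuous_toFun := by
    refine Continuous.subtype_mk ?_ _
    exact continuous_const.mul continuous_subtype_val

lemma scl_pt (n k : ℕ) : scl n (pt k) = pt (k + n) := by
  apply Subtype.ext
  show (1 / 2 : ℝ) ^ n * (1 / 2) ^ k = (1 / 2) ^ (k + n)
  rw [← pow_add, add_comm]

lemma mem_val (n : ℕ) (s : unitInterval) : ((scl n s : unitInterval) : ℝ) = (1 / 2) ^ n * s := rfl

/-- quotient maps between the spaces -/
noncomputable def qn (n : ℕ) : CN 0 →L[ℝ] CN n :=
  LinearMap.mkContinuous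
    { toFun := fun x => ((x.1, x.2.comp (scl n)) : Ell1 × C(unitInterval, ℝ))
      map_add' := fun x y => rfl
      map_smul' := fun r x => rfl } 1 (fun x => by
    rw [one_mul]
    refine nrm_le (le_nrm1 0 x) ?_ (fun k => ?_)
    · refine le_trans ?_ (le_nrm2 0 x)
      rw [ContinuousMap.norm_le _ (norm_nonneg _)]
      intro s
      exact ContinuousMap.norm_coe_le_norm x.2 (scl n s)
    · refine le_trans ?_ (le_nrm3 0 x (k + n))
      show |x.1 (k + n)| + |x.2 (scl n (pt k))| ≤ |x.1 (k + n + 0)| + |x.2 (pt (k + n))|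
      rw [scl_pt, add_zero])

lemma qn_apply (n : ℕ) (x : CN 0) : qn n x = ((x.1, x.2.comp (scl n)) : Ell1 × C(unitInterval, ℝ)) := rfl

/-- the limit maps -/
noncomputable def pn (n : ℕ) : CN n →L[ℝ] (Ell1 × ℝ) :=
  LinearMap.mkContinuous
    { toFun := fun x => (x.1, x.2 0)
      map_add' := fun x y => rfl
      map_smul' := fun r x => rfl } 1 (fun x => by
    rw [one_mul]
    show ‖((x.1, x.2 0) : Ell1 × ℝ)‖ ≤ _
    rw [Prod.norm_def]
    exact max_le (le_nrm1 n x) ((ContinuousMap.norm_coe_le_norm x.2 0).trans (le_nrm2 n x)))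

lemma pn_apply (n : ℕ) (x : CN n) : pn n x = (x.1, x.2 0) := rfl

lemma pn_qn (n : ℕ) : (pn n).comp (qn n) = pn 0 := by
  ext x
  · rfl
  · show x.2 (scl n 0) = x.2 0
    congr 1
    apply Subtype.ext
    show (1 / 2 : ℝ) ^ n * 0 = 0
    rw [mul_zero]

lemma latHom_qn (n : ℕ) : IsLatHom (qn n) := by
  intro x
  rfl

lemma latHom_pn (n : ℕ) : IsLatHom (pn n) := by
  intro x
  rfl

/-- the lift of a continuous function -/
noncomputable def lft (n : ℕ) (w : C(unitInterval, ℝ)) : C(unitInterval, ℝ) where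
  toFun x := w (Set.projIcc 0 1 zero_le_one (2 ^ n * (x : ℝ))) * max 0 (min 1 (2 - 2 ^ n * (x : ℝ)))
  continuous_toFun := by
    have h1 : Continuous (fun x : unitInterval => (2 : ℝ) ^ n * (x : ℝ)) :=
      continuous_const.mul continuous_subtype_val
    exact (w.continuous.comp (continuous_projIcc.comp h1)).mul
      (continuous_const.max (continuous_const.min (continuous_const.sub h1)))

lemma lft_scl (n : ℕ) (w : C(unitInterval, ℝ)) (s : unitInterval) : lft n w (scl n s) = w s := by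
  show w (Set.projIcc 0 1 zero_le_one (2 ^ n * ((1 / 2) ^ n * (s : ℝ)))) *
    max 0 (min 1 (2 - 2 ^ n * ((1 / 2) ^ n * (s : ℝ)))) = w s
  have h1 : (2 : ℝ) ^ n * ((1 / 2) ^ n * (s : ℝ)) = s := by
    rw [← mul_assoc, ← mul_pow]; norm_num
  rw [h1]
  have h2 : Set.projIcc (0 : ℝ) 1 zero_le_one (s : ℝ) = s := Set.projIcc_val _ s
  rw [h2]
  have h3 : min (1 : ℝ) (2 - (s : ℝ)) = 1 := min_eq_left (by linarith [s.2.2])
  rw [h3, max_eq_right (by norm_num), mul_one]

lemma lft_pt (n : ℕ) (w : C(unitInterval, ℝ)) (k : ℕ) (hk : k < n) : lft n w (pt k) = 0 := by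
  show w (Set.projIcc 0 1 zero_le_one (2 ^ n * ((1 / 2 : ℝ) ^ k))) *
    max 0 (min 1 (2 - 2 ^ n * ((1 / 2 : ℝ) ^ k))) = 0
  have h1 : (2 : ℝ) ≤ 2 ^ n * (1 / 2) ^ k := by
    obtain ⟨m, rfl⟩ : ∃ m, n = k + (m + 1) := ⟨n - k - 1, by omega⟩
    have h2 : (2 : ℝ) ^ (k + (m + 1)) * (1 / 2) ^ k = 2 ^ m * 2 := by
      rw [pow_add, mul_comm ((2 : ℝ) ^ k), mul_assoc, ← mul_pow, pow_succ]; norm_num
    rw [h2]
    have : (1 : ℝ) ≤ 2 ^ m := one_le_pow₀ (by norm_num)
    linarith
  rw [max_eq_left, mul_zero]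
  exact (min_le_right _ _).trans (by linarith)

lemma lft_norm (n : ℕ) (w : C(unitInterval, ℝ)) : ‖lft n w‖ ≤ ‖w‖ := by
  rw [ContinuousMap.norm_le _ (norm_nonneg _)]
  intro x
  show ‖w (Set.projIcc 0 1 zero_le_one (2 ^ n * (x : ℝ))) * max 0 (min 1 (2 - 2 ^ n * (x : ℝ)))‖ ≤ ‖w‖
  rw [norm_mul]
  have h1 := ContinuousMap.norm_coe_le_norm w (Set.projIcc 0 1 zero_le_one (2 ^ n * (x : ℝ)))
  have h2 : ‖max 0 (min 1 (2 - 2 ^ n * (x : ℝ)))‖ ≤ 1 := by
    rw [Real.norm_eq_abs, abs_of_nonneg (le_max_left _ _)]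
    exact max_le (by norm_num) (min_le_left _ _)
  nlinarith [norm_nonneg w, norm_nonneg (w (Set.projIcc 0 1 zero_le_one (2 ^ n * (x : ℝ)))),
    norm_nonneg (max 0 (min 1 (2 - 2 ^ n * (x : ℝ))))]

lemma quot_qn (n : ℕ) : IsQuotientMap (qn n) := by
  have key : ∀ y : CN n, ∃ x : CN 0, qn n x = y ∧ ‖x‖ ≤ ‖y‖ := by
    intro y
    refine ⟨((y.1, lft n y.2) : Ell1 × C(unitInterval, ℝ)), ?_, ?_⟩
    · rw [qn_apply]
      refine Prod.ext rfl ?_
      ext s
      exact lft_scl n y.2 s
    · refine nrm_le (le_nrm1 n y) ((lft_norm n y.2).trans (le_nrm2 n y)) (fun k => ?_)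
      show |y.1 (k + 0)| + |lft n y.2 (pt k)| ≤ nrm n y
      rw [add_zero]
      rcases lt_or_ge k n with hk | hk
      · rw [lft_pt n y.2 k hk, abs_zero, add_zero]
        exact (ell1_coord_le _ _).trans (le_nrm1 n y)
      · have h1 : pt k = scl n (pt (k - n)) := by rw [scl_pt, Nat.sub_add_cancel hk]
        rw [h1, lft_scl]
        have h2 := le_nrm3 n y (k - n)
        unfold cpl at h2
        rwa [Nat.sub_add_cancel hk] at h2
  refine ⟨latHom_qn n, ?_, ?_, ?_⟩
  · intro y
    obtain ⟨x, hx, -⟩ := key y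
    exact ⟨x, hx⟩
  · intro x
    have := (qn n).le_of_opNorm_le (LinearMap.mkContinuous_norm_le _ zero_le_one _) x
    rwa [one_mul] at this
  · intro y ε hε
    obtain ⟨x, hx, hx2⟩ := key y
    exact ⟨x, hx, by linarith⟩

lemma quot_p0 : IsQuotientMap (pn 0) := by
  have key : ∀ (y : Ell1 × ℝ) (ε : ℝ), 0 < ε → ∃ x : CN 0, pn 0 x = y ∧ ‖x‖ ≤ ‖y‖ + ε := by
    rintro ⟨z, t⟩ ε hε
    have hz : Tendsto (fun k => |z k|) atTop (𝓝 0) := (ell1_norm z).summable.tendsto_atTop_zero
    obtain ⟨K, hK⟩ := (hz.eventually (gt_mem_nhds hε)).exists_forall_of_atTop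
    let w : C(unitInterval, ℝ) :=
      { toFun := fun x => t * max 0 (1 - 2 ^ K * (x : ℝ))
        continuous_toFun := continuous_const.mul (continuous_const.max
          (continuous_const.sub (continuous_const.mul continuous_subtype_val))) }
    have hw : ∀ x, w x = t * max 0 (1 - 2 ^ K * (x : ℝ)) := fun x => rfl
    have hwle : ∀ x, |w x| ≤ |t| := by
      intro x
      rw [hw, abs_mul, abs_of_nonneg (le_max_left (0 : ℝ) _)]
      have h1 : max 0 (1 - 2 ^ K * (x : ℝ)) ≤ 1 := by
        refine max_le (by norm_num) ?_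
        have := x.2.1
        have : 0 ≤ (2 : ℝ) ^ K * (x : ℝ) := by positivity
        linarith
      have h2 := abs_nonneg t
      nlinarith [le_max_left (0 : ℝ) (1 - 2 ^ K * (x : ℝ))]
    have hn : ‖((z, t) : Ell1 × ℝ)‖ = max ‖z‖ |t| := rfl
    refine ⟨((z, w) : Ell1 × C(unitInterval, ℝ)), ?_, ?_⟩
    · rw [pn_apply]
      refine Prod.ext rfl ?_
      show w 0 = t
      rw [hw]
      simp
    · rw [hn]
      have m1 := le_max_left ‖z‖ |t|
      have m2 := le_max_right ‖z‖ |t|
      refine nrm_le (by show ‖z‖ ≤ _; linarith) ?_ (fun k => ?_)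
      · show ‖w‖ ≤ _
        rw [ContinuousMap.norm_le _ (by positivity)]
        intro x
        exact (hwle x).trans (by linarith)
      · show |z (k + 0)| + |w (pt k)| ≤ _
        rw [add_zero]
        rcases le_or_gt k K with hk | hk
        · have h1 : w (pt k) = 0 := by
            rw [hw]
            have h2 : (1 : ℝ) ≤ 2 ^ K * (1 / 2) ^ k := by
              obtain ⟨m, rfl⟩ : ∃ m, K = k + m := ⟨K - k, by omega⟩
              have h3 : (2 : ℝ) ^ (k + m) * (1 / 2) ^ k = 2 ^ m := by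
                rw [pow_add, mul_comm ((2 : ℝ) ^ k), mul_assoc, ← mul_pow]; norm_num
              rw [h3]
              exact one_le_pow₀ (by norm_num)
            have h4 : ((pt k : unitInterval) : ℝ) = (1 / 2) ^ k := rfl
            rw [h4, max_eq_left (by linarith), mul_zero]
          rw [h1, abs_zero, add_zero]
          exact (ell1_coord_le z k).trans (by linarith)
        · have h1 := hK k hk.le
          have h2 := hwle (pt k)
          linarith
  refine ⟨latHom_pn 0, ?_, ?_, key⟩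
  · intro y
    obtain ⟨x, hx, -⟩ := key y 1 one_pos
    exact ⟨x, hx⟩
  · intro x
    have := (pn 0).le_of_opNorm_le (LinearMap.mkContinuous_norm_le _ zero_le_one _) x
    rwa [one_mul] at this

lemma ker_mono (n : ℕ) (x : CN 0) (h : qn n x = 0) : qn (n + 1) x = 0 := by
  rw [qn_apply] at h ⊢
  have h1 : x.1 = 0 := congrArg Prod.fst h
  have h2 : x.2.comp (scl n) = 0 := congrArg Prod.snd h
  refine Prod.ext h1 ?_
  show x.2.comp (scl (n + 1)) = 0
  ext s
  have h3 : scl (n + 1) s = scl n (scl 1 s) := by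
    apply Subtype.ext
    show (1 / 2 : ℝ) ^ (n + 1) * s = (1 / 2) ^ n * ((1 / 2) ^ 1 * s)
    ring
  show x.2 (scl (n + 1) s) = 0
  rw [h3]
  exact DFunLike.congr_fun h2 (scl 1 s)

lemma ker_closure : {x : CN 0 | pn 0 x = 0} = closure (⋃ n, {x : CN 0 | qn n x = 0}) := by
  apply Set.Subset.antisymm
  · intro x hx
    have hx' : pn 0 x = 0 := hx
    rw [pn_apply] at hx'
    have h1 : x.1 = 0 := congrArg Prod.fst hx'
    have h2 : x.2 0 = 0 := congrArg Prod.snd hx'
    rw [Metric.mem_closure_iff]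
    intro ε hε
    -- continuity at 0
    have hcont := Metric.continuous_iff.mp x.2.continuous 0 (ε / 2) (by positivity)
    obtain ⟨δ, hδ, hδ2⟩ := hcont
    obtain ⟨n, hn⟩ := exists_pow_lt_of_lt_one (show 0 < δ / 2 by positivity)
      (show (1 / 2 : ℝ) < 1 by norm_num)
    let w : C(unitInterval, ℝ) :=
      { toFun := fun s => x.2 s * min 1 (max 0 (2 ^ n * (s : ℝ) - 1))
        continuous_toFun := x.2.continuous.mul (continuous_const.min (continuous_const.max
          ((continuous_const.mul continuous_subtype_val).sub continuous_const))) }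
    have hw : ∀ s, w s = x.2 s * min 1 (max 0 (2 ^ n * (s : ℝ) - 1)) := fun s => rfl
    let y : CN 0 := ((0, w) : Ell1 × C(unitInterval, ℝ))
    refine ⟨y, Set.mem_iUnion.mpr ⟨n, ?_⟩, ?_⟩
    · show qn n ((0, w) : Ell1 × C(unitInterval, ℝ)) = 0
      rw [qn_apply]
      refine Prod.ext rfl ?_
      show w.comp (scl n) = 0
      ext s
      show w (scl n s) = 0
      rw [hw, mem_val]
      have h3 : (2 : ℝ) ^ n * ((1 / 2) ^ n * (s : ℝ)) = s := by
        rw [← mul_assoc, ← mul_pow]; norm_num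
      rw [h3, max_eq_left (by linarith [s.2.2]), min_eq_right zero_le_one, mul_zero]
    · have hd : ∀ s, |x.2 s - w s| ≤ ε / 2 := by
        intro s
        rw [hw]
        rcases lt_or_ge (s : ℝ) δ with hs | hs
        · have h3 : |x.2 s| ≤ ε / 2 := by
            have h4 := hδ2 s (by
              rw [Subtype.dist_eq, Real.dist_eq]
              show |(s : ℝ) - 0| < δ
              rw [sub_zero, abs_of_nonneg s.2.1]; exact hs)
            rw [h2, Real.dist_eq, sub_zero] at h4
            exact h4.le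
          have h4 : x.2 s - x.2 s * min 1 (max 0 (2 ^ n * (s : ℝ) - 1))
              = x.2 s * (1 - min 1 (max 0 (2 ^ n * (s : ℝ) - 1))) := by ring
          rw [h4, abs_mul]
          have h5 : 0 ≤ min 1 (max 0 (2 ^ n * (s : ℝ) - 1)) := le_min zero_le_one (le_max_left _ _)
          have h6 : min 1 (max 0 (2 ^ n * (s : ℝ) - 1)) ≤ 1 := min_le_left _ _
          rw [abs_of_nonneg (by linarith : 0 ≤ 1 - min 1 (max 0 (2 ^ n * (s : ℝ) - 1)))]
          nlinarith [abs_nonneg (x.2 s)]
        · have h3 : (2 : ℝ) ≤ 2 ^ n * (s : ℝ) := by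
            have h4 : (2 : ℝ) ^ n * (1 / 2) ^ n = 1 := by rw [← mul_pow]; norm_num
            have h5 : 2 * (1 / 2 : ℝ) ^ n ≤ s := by linarith
            have h6 : (0 : ℝ) < 2 ^ n := by positivity
            nlinarith
          rw [min_eq_left (le_max_of_le_right (by linarith)), mul_one, sub_self, abs_zero]
          positivity
      rw [dist_eq_norm]
      have h3 : ‖x - y‖ ≤ ε / 2 := by
        refine nrm_le ?_ ?_ (fun k => ?_)
        · show ‖x.1 - 0‖ ≤ _
          rw [h1, sub_zero, norm_zero]; positivity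
        · show ‖x.2 - w‖ ≤ _
          rw [ContinuousMap.norm_le _ (by positivity)]
          intro s
          exact hd s
        · show |(x.1 - 0 : Ell1) (k + 0)| + |(x.2 - w) (pt k)| ≤ _
          rw [h1, sub_zero]
          have := hd (pt k)
          have h0 : (0 : Ell1) (k + 0) = 0 := rfl
          rw [h0, abs_zero, zero_add]
          exact this
      exact lt_of_le_of_lt h3 (by linarith)
  · refine closure_minimal ?_ ?_
    · refine Set.iUnion_subset (fun n x hx => ?_)
      have hx' : qn n x = 0 := hx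
      show pn 0 x = 0
      rw [← pn_qn n]
      show pn n (qn n x) = 0
      rw [hx', map_zero]
    · exact isClosed_eq (pn 0).continuous continuous_const

/-- the homomorphism without lifts -/
noncomputable def phi : (Ell1 × Ell1) →L[ℝ] (Ell1 × ℝ) :=
  LinearMap.mkContinuous
    { toFun := fun x => (x.1, x.2 0)
      map_add' := fun x y => rfl
      map_smul' := fun r x => rfl } 1 (fun x => by
    rw [one_mul]
    show ‖((x.1, x.2 0) : Ell1 × ℝ)‖ ≤ ‖x‖
    rw [Prod.norm_def, Prod.norm_def]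
    exact max_le_max le_rfl (ell1_coord_le x.2 0))

lemma phi_apply (x : Ell1 × Ell1) : phi x = (x.1, x.2 0) := rfl

/-- the maximum sum of two copies of `ℓ₁` is not semiprojective -/
theorem not_semiprojective : ¬ Semiprojective (Ell1 × Ell1) := by
  intro h
  obtain ⟨n, hn⟩ := h (CN 0) CN (Ell1 × ℝ) qn (pn 0) pn quot_qn quot_p0 pn_qn ker_mono ker_closure
    phi (fun x => rfl) (LinearMap.mkContinuous_norm_le _ zero_le_one _)
  obtain ⟨ψ, hψ1, hψ2, hψ3⟩ := hn (1 / 2) (by norm_num)
  have hψ : ∀ x, pn n (ψ x) = phi x := fun x => by rw [← hψ2]; rfl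
  set e : ℕ → Ell1 := fun k => lp.single 1 k (1 : ℝ) with he
  have hone : (0 : ℝ≥0∞) < 1 := by simp
  have hen : ∀ k, ‖e k‖ = 1 := fun k => by rw [he]; simp only; rw [lp.norm_single hone]; simp
  have heabs : ∀ k, |e k| = e k := by
    intro k
    ext j
    rw [ell1_abs_apply]
    by_cases h : j = k
    · subst h; simp [he]
    · simp [he, h]
  set f : Ell1 × Ell1 := (0, e 0) with hf
  have hpos : ∀ x : Ell1 × Ell1, |x| = x → 0 ≤ (ψ x).2 := by
    intro x hx
    have h1 : ψ x = |ψ x| := by rw [← hψ1, hx]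
    rw [h1]
    exact (abs_nonneg (ψ x)).2
  have hfabs : |f| = f := by
    rw [hf]
    exact Prod.ext (abs_zero (α := Ell1)) (heabs 0)
  have hgabs : ∀ k, |((e k, 0) : Ell1 × Ell1)| = (e k, 0) := fun k =>
    Prod.ext (heabs k) (abs_zero (α := Ell1))
  set w : C(unitInterval, ℝ) := (ψ f).2 with hw
  have hw0 : w 0 = 1 := by
    have h1 := hψ f
    rw [pn_apply, phi_apply] at h1
    have h2 : (ψ f).2 0 = f.2 0 := congrArg Prod.snd h1
    rw [hw, h2, hf]
    show (e 0 : ℕ → ℝ) 0 = 1
    simp [he]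
  have hbound : ∀ k, w (pt k) ≤ 1 / 2 := by
    intro k
    set g : Ell1 × Ell1 := (e (k + n), 0) with hg
    have h1 : ‖ψ (g + f)‖ ≤ 3 / 2 := by
      have h2 : ‖g + f‖ ≤ 1 := by
        rw [hg, hf, Prod.mk_add_mk, add_zero, zero_add, Prod.norm_def]
        simp only [hen]
        norm_num
      calc ‖ψ (g + f)‖ ≤ ‖ψ‖ * ‖g + f‖ := ψ.le_opNorm _
        _ ≤ (1 + 1 / 2) * 1 := mul_le_mul hψ3 h2 (norm_nonneg _) (by norm_num)
        _ = 3 / 2 := by norm_num
    have h2 := (le_nrm3 n (ψ (g + f)) k).trans h1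
    have h3 : (ψ (g + f)).1 = e (k + n) := by
      have h4 := hψ (g + f)
      rw [pn_apply, phi_apply] at h4
      have h5 : (ψ (g + f)).1 = (g + f).1 := congrArg Prod.fst h4
      rw [h5, hg, hf]
      simp
    have h4 : (ψ (g + f)).2 = (ψ g).2 + w := by
      rw [map_add]; rfl
    have h5 : cpl n (ψ (g + f)) k = |e (k + n) (k + n)| + |(ψ g).2 (pt k) + w (pt k)| := by
      unfold cpl
      rw [h3, h4]
      rfl
    rw [h5] at h2
    have h6 : (e (k + n) : ℕ → ℝ) (k + n) = 1 := by simp [he]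
    rw [h6, abs_one] at h2
    have h7 : 0 ≤ (ψ g).2 (pt k) := (hpos g (hgabs (k + n))) (pt k)
    have h8 := le_abs_self ((ψ g).2 (pt k) + w (pt k))
    linarith
  have hlim : Tendsto (fun k => w (pt k)) atTop (𝓝 (w 0)) := by
    refine (w.continuous.tendsto 0).comp ?_
    rw [tendsto_subtype_rng]
    exact tendsto_pow_atTop_nhds_zero_of_lt_one (by norm_num) (by norm_num)
  have := le_of_tendsto' hlim hbound
  rw [hw0] at this
  norm_num at this

end Q100.BL
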