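import Mathlib

/-!
# Basic sequences, equivalence of sequences, biorthogonal systems
-/

set_option autoImplicit false
open Filter Topology

namespace Q100.Basic

universe u v w

variable {𝕜 : Type w} [RCLike 𝕜] {X : Type u} [NormedAddCommGroup X] [NormedSpace 𝕜 X]
  {Y : Type v} [NormedAddCommGroup Y] [NormedSpace 𝕜 Y]

/-- The series `∑ a_n u_n` converges to `z` (convergence of the partial sums in norm). -/
def SeriesTo (a : ℕ → 𝕜) (u : ℕ → X) (z : X) : Prop :=
  Tendsto (fun N => ∑ n ∈ Finset.range N, a n • u n) atTop (𝓝 z)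

/-- The series `∑ a_n u_n` converges. -/
def SeriesConverges (a : ℕ → 𝕜) (u : ℕ → X) : Prop := ∃ z, SeriesTo a u z

/-- The closed linear span of a sequence. -/
def cspan (𝕜 : Type w) [RCLike 𝕜] {X : Type u} [NormedAddCommGroup X] [NormedSpace 𝕜 X]
    (u : ℕ → X) : Submodule 𝕜 X :=
  (Submodule.span 𝕜 (Set.range u)).topologicalClosure

/-- `u` is a basic sequence, i.e. a Schauder basis of its closed linear span: every element of the
closed linear span has a unique expansion. -/
def IsBasicSeq (𝕜 : Type w) [RCLike 𝕜] {X : Type u} [NormedAddCommGroup X] [NormedSpace 𝕜 X]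
    (u : ℕ → X) : Prop :=
  ∀ z ∈ cspan 𝕜 u, ∃! a : ℕ → 𝕜, SeriesTo a u z

/-- Equivalence of sequences: `∑ a_n u_n` converges exactly when `∑ a_n v_n` converges. -/
def Equivalent (𝕜 : Type w) [RCLike 𝕜] {X : Type u} [NormedAddCommGroup X] [NormedSpace 𝕜 X]
    {Y : Type v} [NormedAddCommGroup Y] [NormedSpace 𝕜 Y] (u : ℕ → X) (v : ℕ → Y) : Prop :=
  ∀ a : ℕ → 𝕜, SeriesConverges a u ↔ SeriesConverges a v

/-- Biorthogonal systems. -/
def Biorthogonal (x : ℕ → X) (f : ℕ → X →L[𝕜] 𝕜) : Prop :=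
  ∀ i j, f i (x j) = if i = j then 1 else 0

/-- The pre-annihilator `[f_n]_⊥`. -/
def preann (f : ℕ → X →L[𝕜] 𝕜) : Submodule 𝕜 X where
  carrier := {z | ∀ g ∈ cspan 𝕜 f, g z = 0}
  add_mem' := fun {a b} ha hb g hg => by
    rw [map_add, ha g hg, hb g hg, add_zero]
  zero_mem' := fun g _ => map_zero g
  smul_mem' := fun c a ha g hg => by
    rw [map_smul, ha g hg, smul_zero]

end Q100.Basic
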