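import Pool.Agent.Q100.BasicDefs

/-!
# Sequences of type `ℓ₁` are basic
-/

set_option autoImplicit false
open Filter Topology

namespace Q100.Basic

universe u v w

variable {𝕜 : Type w} [RCLike 𝕜] {X : Type u} [NormedAddCommGroup X] [NormedSpace 𝕜 X]

/-- Sequences of type `ℓ₁`. -/
structure Ell1Type (c C : ℝ) (u : ℕ → X) : Prop where
  hc : 0 < c
  upper : ∀ n, ‖u n‖ ≤ C
  lower : ∀ (a : ℕ → 𝕜) (N : ℕ), c * ∑ n ∈ Finset.range N, ‖a n‖ ≤
    ‖∑ n ∈ Finset.range N, a n • u n‖

variable {c C : ℝ} {u : ℕ → X}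

theorem Ell1Type.C_nonneg (h : Ell1Type (𝕜 := 𝕜) c C u) : 0 ≤ C := (norm_nonneg _).trans (h.upper 0)

theorem Ell1Type.summable_of_bounded (h : Ell1Type (𝕜 := 𝕜) c C u) {a : ℕ → 𝕜} {M : ℝ}
    (hM : ∀ N, ‖∑ n ∈ Finset.range N, a n • u n‖ ≤ M) : Summable (fun n => ‖a n‖) := by
  refine summable_of_sum_range_le (c := M / c) (fun n => norm_nonneg _) (fun N => ?_)
  rw [le_div_iff₀ h.hc, mul_comm]
  exact (h.lower a N).trans (hM N)

theorem Ell1Type.summable_of_converges (h : Ell1Type (𝕜 := 𝕜) c C u) {a : ℕ → 𝕜}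
    (ha : SeriesConverges a u) : Summable (fun n => ‖a n‖) := by
  obtain ⟨z, hz⟩ := ha
  obtain ⟨M, hM⟩ := hz.norm.bddAbove_range
  exact h.summable_of_bounded (M := M) (fun N => hM ⟨N, rfl⟩)

theorem Ell1Type.converges_of_summable [CompleteSpace X] (h : Ell1Type (𝕜 := 𝕜) c C u)
    {a : ℕ → 𝕜} (ha : Summable (fun n => ‖a n‖)) : Summable (fun n => a n • u n) := by
  refine Summable.of_norm_bounded (ha.mul_right C) (fun n => ?_)
  rw [norm_smul]
  exact mul_le_mul_of_nonneg_left (h.upper n) (norm_nonneg _)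

theorem Ell1Type.unique (h : Ell1Type (𝕜 := 𝕜) c C u) {a b : ℕ → 𝕜} {z : X}
    (ha : SeriesTo a u z) (hb : SeriesTo b u z) : a = b := by
  have h1 : Tendsto (fun N => ∑ n ∈ Finset.range N, (a n - b n) • u n) atTop (𝓝 0) := by
    have := ha.sub hb
    rw [sub_self] at this
    refine this.congr (fun N => ?_)
    rw [← Finset.sum_sub_distrib]
    exact Finset.sum_congr rfl (fun n _ => by rw [sub_smul])
  have h2 : Tendsto (fun N => ‖∑ n ∈ Finset.range N, (a n - b n) • u n‖) atTop (𝓝 0) := by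
    simpa using h1.norm
  funext k
  have h3 : ∀ N, k < N → c * ‖a k - b k‖ ≤ ‖∑ n ∈ Finset.range N, (a n - b n) • u n‖ := by
    intro N hN
    refine le_trans ?_ (h.lower (fun n => a n - b n) N)
    refine mul_le_mul_of_nonneg_left ?_ h.hc.le
    exact Finset.single_le_sum (f := fun n => ‖a n - b n‖) (fun n _ => norm_nonneg _)
      (Finset.mem_range.2 hN)
  have h4 : c * ‖a k - b k‖ ≤ 0 := ge_of_tendsto h2 (by
    filter_upwards [eventually_gt_atTop k] with N hN
    exact h3 N hN)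
  have h5 : ‖a k - b k‖ ≤ 0 := by
    by_contra h6
    push Not at h6
    have := mul_pos h.hc h6
    linarith
  exact sub_eq_zero.1 (norm_le_zero_iff.1 h5)

theorem Ell1Type.lower_finsupp (h : Ell1Type (𝕜 := 𝕜) c C u) (b : ℕ →₀ 𝕜) (s : Finset ℕ) :
    c * ∑ n ∈ s, ‖b n‖ ≤ ‖Finsupp.linearCombination 𝕜 u b‖ := by
  obtain ⟨N, hN⟩ : ∃ N, s ∪ b.support ⊆ Finset.range N := by
    refine ⟨(s ∪ b.support).sup id + 1, fun n hn => ?_⟩
    rw [Finset.mem_range]
    exact Nat.lt_succ_of_le (Finset.le_sup (f := id) hn)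
  have h1 : Finsupp.linearCombination 𝕜 u b = ∑ n ∈ Finset.range N, b n • u n := by
    rw [Finsupp.linearCombination_apply, Finsupp.sum]
    refine Finset.sum_subset (Finset.union_subset_right hN) (fun n _ hn => ?_)
    rw [Finsupp.notMem_support_iff.1 hn, zero_smul]
  rw [h1]
  refine le_trans ?_ (h.lower b N)
  refine mul_le_mul_of_nonneg_left ?_ h.hc.le
  exact Finset.sum_le_sum_of_subset_of_nonneg (Finset.union_subset_left hN)
    (fun n _ _ => norm_nonneg _)

/-- A sequence of type `ℓ₁` in a Banach space is basic. -/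
theorem Ell1Type.isBasicSeq [CompleteSpace X] (h : Ell1Type (𝕜 := 𝕜) c C u) :
    IsBasicSeq 𝕜 u := by
  intro z hz
  have hz' : z ∈ closure (Submodule.span 𝕜 (Set.range u) : Set X) := hz
  -- approximations
  have happ : ∀ k : ℕ, ∃ b : ℕ →₀ 𝕜, ‖z - Finsupp.linearCombination 𝕜 u b‖ < (1 / 2) ^ k := by
    intro k
    obtain ⟨w, hw, hzw⟩ := Metric.mem_closure_iff.1 hz' ((1 / 2) ^ k) (by positivity)
    obtain ⟨b, rfl⟩ := (Finsupp.mem_span_range_iff_exists_finsupp).1 hw
    refine ⟨b, ?_⟩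
    rw [dist_eq_norm] at hzw
    exact hzw
  choose b hb using happ
  -- the sequence of coefficients converges in `ℓ₁`
  have hdiff : ∀ k l : ℕ, ‖Finsupp.linearCombination 𝕜 u (b k - b l)‖ <
      (1 / 2) ^ k + (1 / 2) ^ l := by
    intro k l
    rw [map_sub]
    have h1 : Finsupp.linearCombination 𝕜 u (b k) - Finsupp.linearCombination 𝕜 u (b l) =
      (z - Finsupp.linearCombination 𝕜 u (b l)) - (z - Finsupp.linearCombination 𝕜 u (b k)) := by
      abel
    rw [h1]
    have h2 := norm_sub_le (z - Finsupp.linearCombination 𝕜 u (b l))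
      (z - Finsupp.linearCombination 𝕜 u (b k))
    have h3 := hb k
    have h4 := hb l
    linarith
  have hsum : ∀ (k l : ℕ) (s : Finset ℕ), ∑ n ∈ s, ‖b k n - b l n‖ ≤
      ((1 / 2) ^ k + (1 / 2) ^ l) / c := by
    intro k l s
    rw [le_div_iff₀ h.hc, mul_comm]
    have := h.lower_finsupp (b k - b l) s
    refine le_trans ?_ (hdiff k l).le
    simpa using this
  have hcau : ∀ n, CauchySeq (fun k => b k n) := by
    intro n
    refine cauchySeq_of_le_geometric (1 / 2) (2 / c) (by norm_num) (fun k => ?_)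
    rw [dist_eq_norm]
    have h1 := hsum k (k + 1) {n}
    rw [Finset.sum_singleton] at h1
    refine h1.trans ?_
    rw [div_mul_eq_mul_div, pow_succ]
    refine div_le_div_of_nonneg_right ?_ h.hc.le
    have : (0 : ℝ) < (1 / 2) ^ k := by positivity
    linarith
  choose a ha using fun n => cauchySeq_tendsto_of_complete (hcau n)
  have hlim : ∀ (k : ℕ) (s : Finset ℕ), ∑ n ∈ s, ‖b k n - a n‖ ≤ ((1 / 2) ^ k) / c := by
    intro k s
    have h1 : Tendsto (fun l => ∑ n ∈ s, ‖b k n - b l n‖) atTop (𝓝 (∑ n ∈ s, ‖b k n - a n‖)) :=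
      tendsto_finsetSum s (fun n _ => ((ha n).const_sub _).norm)
    have h2 : Tendsto (fun l : ℕ => (((1 : ℝ) / 2) ^ k + (1 / 2) ^ l) / c) atTop
        (𝓝 (((1 / 2) ^ k + 0) / c)) :=
      ((tendsto_pow_atTop_nhds_zero_of_lt_one (by norm_num) (by norm_num)).const_add _).div_const _
    rw [add_zero] at h2
    exact le_of_tendsto_of_tendsto' h1 h2 (fun l => hsum k l s)
  refine ⟨a, ?_, fun a' ha' => h.unique ha' ?_⟩
  all_goals
    change Tendsto _ atTop (𝓝 z)
    rw [Metric.tendsto_atTop]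
    intro ε hε
    obtain ⟨k, hk⟩ : ∃ k : ℕ, ((1 : ℝ) / 2) ^ k * (1 + C / c) < ε := by
      have h0 : (0 : ℝ) < 1 + C / c := by
        have := div_nonneg h.C_nonneg h.hc.le
        linarith
      obtain ⟨k, hk⟩ := exists_pow_lt_of_lt_one (div_pos hε h0) (show (1 : ℝ) / 2 < 1 by norm_num)
      exact ⟨k, by rwa [lt_div_iff₀ h0] at hk⟩
    refine ⟨(b k).support.sup id + 1, fun N hN => ?_⟩
    have h1 : Finsupp.linearCombination 𝕜 u (b k) = ∑ n ∈ Finset.range N, b k n • u n := by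
      rw [Finsupp.linearCombination_apply, Finsupp.sum]
      refine Finset.sum_subset (fun n hn => ?_) (fun n _ hn => ?_)
      · rw [Finset.mem_range]
        have := Finset.le_sup (f := id) hn
        simp only [id] at this
        omega
      · rw [Finsupp.notMem_support_iff.1 hn, zero_smul]
    have h2 : ‖∑ n ∈ Finset.range N, a n • u n - ∑ n ∈ Finset.range N, b k n • u n‖ ≤
        C * ((1 / 2) ^ k / c) := by
      rw [← Finset.sum_sub_distrib]
      refine (norm_sum_le _ _).trans ?_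
      calc ∑ n ∈ Finset.range N, ‖a n • u n - b k n • u n‖
          ≤ ∑ n ∈ Finset.range N, C * ‖b k n - a n‖ := by
            refine Finset.sum_le_sum (fun n _ => ?_)
            rw [← sub_smul, norm_smul, norm_sub_rev, mul_comm]
            exact mul_le_mul_of_nonneg_right (h.upper n) (norm_nonneg _)
        _ = C * ∑ n ∈ Finset.range N, ‖b k n - a n‖ := by rw [Finset.mul_sum]
        _ ≤ _ := mul_le_mul_of_nonneg_left (hlim k _) h.C_nonneg
    rw [← h1] at h2
    have h3 := hb k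
    rw [dist_eq_norm]
    have h4 : ∑ n ∈ Finset.range N, a n • u n - z =
      (∑ n ∈ Finset.range N, a n • u n - Finsupp.linearCombination 𝕜 u (b k)) -
      (z - Finsupp.linearCombination 𝕜 u (b k)) := by abel
    rw [h4]
    refine (norm_sub_le _ _).trans_lt ?_
    have h5 : ((1 : ℝ) / 2) ^ k * (1 + C / c) = (1 / 2) ^ k + C * ((1 / 2) ^ k / c) := by ring
    linarith

end Q100.Basic
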