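import Mathlib

/-!
# Fundamental biorthogonal sequences in separable Banach spaces
-/

set_option autoImplicit false
open Filter Topology

namespace Q100.Bio

universe u

variable {𝕜 : Type} [RCLike 𝕜] {X : Type u} [NormedAddCommGroup X] [NormedSpace 𝕜 X]

/-- the recursion -/
noncomputable def bs (d : ℕ → X) (G : X → (X →L[𝕜] 𝕜)) : ℕ → X × (X →L[𝕜] 𝕜)
  | n =>
    let x := d n - ∑ i : Fin n, (bs d G i).2 (d n) • (bs d G i).1
    (x, G x - ∑ i : Fin n, (G x (bs d G i).1) • (bs d G i).2)

/-- the vectors -/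
noncomputable def bx (d : ℕ → X) (G : X → (X →L[𝕜] 𝕜)) (n : ℕ) : X := (bs d G n).1
/-- the functionals -/
noncomputable def bf (d : ℕ → X) (G : X → (X →L[𝕜] 𝕜)) (n : ℕ) : X →L[𝕜] 𝕜 := (bs d G n).2

lemma bx_eq (d : ℕ → X) (G : X → (X →L[𝕜] 𝕜)) (n : ℕ) :
    bx d G n = d n - ∑ i ∈ Finset.range n, bf d G i (d n) • bx d G i := by
  rw [Finset.sum_range]
  unfold bx
  rw [bs]
  rfl

lemma bf_eq (d : ℕ → X) (G : X → (X →L[𝕜] 𝕜)) (n : ℕ) :
    bf d G n = G (bx d G n) - ∑ i ∈ Finset.range n, G (bx d G n) (bx d G i) • bf d G i := by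
  rw [Finset.sum_range]
  have h : bx d G n = d n - ∑ i : Fin n, (bs d G i).2 (d n) • (bs d G i).1 := by
    unfold bx; rw [bs]
  rw [h]
  unfold bf
  rw [bs]
  rfl

/-- biorthogonality -/
lemma biorth (d : ℕ → X) (G : X → (X →L[𝕜] 𝕜)) (hG : ∀ x, x ≠ 0 → G x x = 1) (hG0 : G 0 = 0) :
    ∀ n, (bx d G n ≠ 0 → bf d G n (bx d G n) = 1) ∧
      (bx d G n = 0 → bf d G n = 0) ∧
      (∀ m, m < n → bf d G n (bx d G m) = 0 ∧ bf d G m (bx d G n) = 0) := by
  intro n
  induction n using Nat.strong_induction_on with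
  | _ n ih =>
    -- products of earlier elements
    have key : ∀ i, i < n → ∀ j, j < n → i ≠ j → bf d G i (bx d G j) = 0 := by
      intro i hi j hj hij
      rcases lt_or_gt_of_ne hij with h | h
      · exact ((ih j hj).2.2 i h).2
      · exact ((ih i hi).2.2 j h).1
    -- earlier functionals vanish on the new vector
    have h1 : ∀ m, m < n → bf d G m (bx d G n) = 0 := by
      intro m hm
      rw [bx_eq, map_sub, map_sum]
      have h2 : ∑ i ∈ Finset.range n, bf d G m (bf d G i (d n) • bx d G i)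
          = bf d G m (d n) * bf d G m (bx d G m) := by
        rw [Finset.sum_eq_single m]
        · rw [map_smul, smul_eq_mul]
        · intro i hi him
          rw [map_smul, key m hm i (Finset.mem_range.mp hi) him.symm, smul_zero]
        · intro h; exact absurd (Finset.mem_range.mpr hm) h
      rw [h2]
      by_cases hx : bx d G m = 0
      · rw [(ih m hm).2.1 hx]; simp
      · rw [(ih m hm).1 hx]; ring
    have h3 : bx d G n ≠ 0 → bf d G n (bx d G n) = 1 := by
      intro hx
      rw [bf_eq]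
      simp only [sub_apply, sum_apply, smul_apply, smul_eq_mul]
      rw [hG _ hx, Finset.sum_eq_zero, sub_zero]
      intro i hi
      rw [h1 i (Finset.mem_range.mp hi), mul_zero]
    refine ⟨h3, ?_, ?_⟩
    · intro hx
      rw [bf_eq, hx, hG0]
      have h0 : ∀ i ∈ Finset.range n, (0 : X →L[𝕜] 𝕜) (bx d G i) • bf d G i = 0 := by
        intro i _
        have : (0 : X →L[𝕜] 𝕜) (bx d G i) = 0 := rfl
        rw [this]
        ext v
        show (0 : 𝕜) * (bf d G i v) = 0
        rw [zero_mul]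
      rw [Finset.sum_eq_zero h0, sub_zero]
    · intro m hm
      refine ⟨?_, h1 m hm⟩
      rw [bf_eq]
      simp only [sub_apply, sum_apply, smul_apply, smul_eq_mul]
      have h2 : ∑ i ∈ Finset.range n, G (bx d G n) (bx d G i) * bf d G i (bx d G m)
          = G (bx d G n) (bx d G m) * bf d G m (bx d G m) := by
        rw [Finset.sum_eq_single m]
        · intro i hi him
          rw [key i (Finset.mem_range.mp hi) m hm him, mul_zero]
        · intro h; exact absurd (Finset.mem_range.mpr hm) h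
      rw [h2]
      by_cases hx : bx d G m = 0
      · rw [hx]; simp
      · rw [(ih m hm).1 hx]; ring

/-- Every separable normed space has a biorthogonal sequence with dense span (some vectors may be
zero, which covers the finite-dimensional case). -/
theorem exists_fundamental [TopologicalSpace.SeparableSpace X] :
    ∃ (x : ℕ → X) (f : ℕ → (X →L[𝕜] 𝕜)),
      (∀ n, x n ≠ 0 → f n (x n) = 1) ∧ (∀ n m, n ≠ m → f n (x m) = 0) ∧
      (∀ n, x n = 0 → f n = 0) ∧
      Dense (Submodule.span 𝕜 (Set.range x) : Set X) := by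
  classical
  have hG : ∀ x : X, ∃ g : X →L[𝕜] 𝕜, (x ≠ 0 → g x = 1) ∧ (x = 0 → g = 0) := by
    intro x
    by_cases hx : x = 0
    · exact ⟨0, fun h => absurd hx h, fun _ => rfl⟩
    · obtain ⟨g, -, hg⟩ := exists_dual_vector 𝕜 x (norm_ne_zero_iff.mpr hx)
      have hn : ((‖x‖ : ℝ) : 𝕜) ≠ 0 := RCLike.ofReal_ne_zero.mpr (norm_ne_zero_iff.mpr hx)
      refine ⟨((‖x‖ : ℝ) : 𝕜)⁻¹ • g, fun _ => ?_, fun h => absurd h hx⟩
      rw [smul_apply, hg, smul_eq_mul, inv_mul_cancel₀ hn]
  choose G hG1 hG2 using hG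
  let d := TopologicalSpace.denseSeq X
  have hb := biorth d G hG1 (hG2 0 rfl)
  refine ⟨bx d G, bf d G, fun n => (hb n).1, ?_, fun n => (hb n).2.1, ?_⟩
  · intro n m hnm
    rcases lt_or_gt_of_ne hnm with h | h
    · exact ((hb m).2.2 n h).2
    · exact ((hb n).2.2 m h).1
  · have h1 : Set.range d ⊆ (Submodule.span 𝕜 (Set.range (bx d G)) : Set X) := by
      rintro _ ⟨n, rfl⟩
      have h2 : d n = bx d G n + ∑ i ∈ Finset.range n, bf d G i (d n) • bx d G i := by
        rw [bx_eq]; abel
      rw [h2]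
      refine Submodule.add_mem _ (Submodule.subset_span ⟨n, rfl⟩) (Submodule.sum_mem _ (fun i _ =>
        Submodule.smul_mem _ _ (Submodule.subset_span ⟨i, rfl⟩)))
    exact (TopologicalSpace.denseRange_denseSeq X).mono h1

end Q100.Bio
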