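import Mathlib

/-!
# Iterated weak* sequential closures in `M(K) = C(K)*`
-/

set_option autoImplicit false
open Filter Topology MeasureTheory

noncomputable section

namespace Q100.SeqCl

universe u v

variable (K : Type u) [TopologicalSpace K] [CompactSpace K]

/-- The space `M(K)`, identified with the dual space of `C(K)`. -/
abbrev MK : Type u := C(K, ℝ) →L[ℝ] ℝ

variable {K}

/-- The Dirac measure at `x`. -/
def dirac (x : K) : MK K := ContinuousMap.evalCLM ℝ x

variable (K)

/-- The convex hull of the Dirac measures. -/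
def coDelta : Set (MK K) := convexHull ℝ (Set.range (dirac (K := K)))

/-- The linear span of the Dirac measures. -/
def linDelta : Set (MK K) := (Submodule.span ℝ (Set.range (dirac (K := K))) : Set (MK K))

variable {K}

/-- Weak* convergence of a sequence in `M(K)`. -/
def WeakStarTendsto (s : ℕ → MK K) (φ : MK K) : Prop :=
  ∀ f : C(K, ℝ), Tendsto (fun n => s n f) atTop (𝓝 (φ f))

/-- The weak* sequential closure: the set of all weak* limits of weak* convergent sequences of
elements of `A`. -/
def Seq (A : Set (MK K)) : Set (MK K) :=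
  {φ | ∃ s : ℕ → MK K, (∀ n, s n ∈ A) ∧ WeakStarTendsto s φ}

/-- The iterated sequential closures `Seq^α(A)`. -/
def SeqIter (A : Set (MK K)) (α : Ordinal.{v}) : Set (MK K) :=
  Ordinal.limitRecOn (motive := fun _ => Set (MK K)) α A (fun _ S => Seq S)
    (fun α _ S => ⋃ (β : Ordinal.{v}) (h : β < α), S β h)

theorem seqIter_zero (A : Set (MK K)) : SeqIter.{u, v} A 0 = A := by
  rw [SeqIter, Ordinal.limitRecOn_zero]

theorem seqIter_add_one (A : Set (MK K)) (α : Ordinal.{v}) :
    SeqIter A (α + 1) = Seq (SeqIter A α) := by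
  rw [SeqIter, Ordinal.limitRecOn_add_one]
  rfl

theorem seqIter_limit (A : Set (MK K)) (α : Ordinal.{v}) (h : Order.IsSuccLimit α) :
    SeqIter A α = ⋃ (β : Ordinal.{v}) (_ : β < α), SeqIter A β := by
  rw [SeqIter, Ordinal.limitRecOn_limit _ _ _ _ h]
  rfl

/-- `φ` is the functional given by the measure `m`. -/
def Represents [MeasurableSpace K] (m : Measure K) (φ : MK K) : Prop :=
  ∀ f : C(K, ℝ), φ f = ∫ x, f x ∂m

/-- `φ` is the functional given by the signed measure `s`. -/
def RepresentsSigned [MeasurableSpace K] (s : SignedMeasure K) (φ : MK K) : Prop :=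
  ∀ f : C(K, ℝ), φ f = ∫ x, f x ∂s.toJordanDecomposition.posPart -
    ∫ x, f x ∂s.toJordanDecomposition.negPart

/-- Absolute continuity `ν ≪ μ` for `ν ∈ M(K)` and a positive `μ ∈ M(K)`: the measures `s`, `m`
representing `ν`, `μ` (`m` a regular Borel measure) satisfy `|s|(B) = 0` whenever `m(B) = 0`. -/
def AbsCont [MeasurableSpace K] (ν μ : MK K) : Prop :=
  ∃ (m : Measure K) (s : SignedMeasure K), IsFiniteMeasure m ∧ m.Regular ∧ Represents m μ ∧
    RepresentsSigned s ν ∧ ∀ B, MeasurableSet B → m B = 0 → s.totalVariation B = 0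

end Q100.SeqCl
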