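import Pool.Agent.Q100.BuoDefs

set_option autoImplicit false
open Filter Topology
open scoped ENNReal

namespace Q100.Buo

/-- tent function on `[0,1]` -/
noncomputable def tent (u : ℝ) : ℝ := max 0 (1 - |2 * u - 1|)

lemma tent_nonneg (u : ℝ) : 0 ≤ tent u := le_max_left _ _

lemma tent_le_one (u : ℝ) : tent u ≤ 1 := by
  unfold tent
  exact max_le (by norm_num) (by linarith [abs_nonneg (2 * u - 1)])

lemma tent_zero_of_le {u : ℝ} (h : u ≤ 0) : tent u = 0 := by
  unfold tent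
  have : 1 ≤ |2 * u - 1| := by
    rw [abs_sub_comm]; exact le_trans (by linarith) (le_abs_self _)
  exact max_eq_left (by linarith)

lemma tent_zero_of_ge {u : ℝ} (h : 1 ≤ u) : tent u = 0 := by
  unfold tent
  have : 1 ≤ |2 * u - 1| := le_trans (by linarith) (le_abs_self _)
  exact max_eq_left (by linarith)

lemma tent_half : tent (1 / 2) = 1 := by
  unfold tent; norm_num

lemma tent_lip (u v : ℝ) : |tent u - tent v| ≤ 2 * |u - v| := by
  unfold tent
  refine (abs_max_sub_max_le_max _ _ _ _).trans ?_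
  simp only [sub_self, abs_zero]
  refine max_le (by positivity) ?_
  have h : (1 - |2 * u - 1| - (1 - |2 * v - 1|)) = |2 * v - 1| - |2 * u - 1| := by ring
  rw [h]
  refine (abs_abs_sub_abs_le _ _).trans ?_
  have h2 : 2 * v - 1 - (2 * u - 1) = -(2 * (u - v)) := by ring
  rw [h2, abs_neg, abs_mul]
  norm_num

lemma tent_diff_le_one (u v : ℝ) : |tent u - tent v| ≤ 1 := by
  rw [abs_le]
  constructor <;> linarith [tent_nonneg u, tent_nonneg v, tent_le_one u, tent_le_one v]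

/-- the one-scale bound -/
lemma scale_bound {p : ℝ} (hp : 1 < p) (M : ℕ) (x y : ℝ) :
    ∑ m ∈ Finset.range M, |tent (x - m) - tent (y - m)| ^ p ≤ 2 * (min 1 (2 * |x - y|)) ^ p := by
  have hp0 : 0 < p := by linarith
  set B := (min 1 (2 * |x - y|)) ^ p with hB
  have hBnn : 0 ≤ B := Real.rpow_nonneg (le_min zero_le_one (by positivity)) _
  have hterm : ∀ m : ℕ, |tent (x - m) - tent (y - m)| ^ p ≤ B := by
    intro m
    refine Real.rpow_le_rpow (abs_nonneg _) (le_min (tent_diff_le_one _ _) ?_) hp0.le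
    have := tent_lip (x - m) (y - m)
    have h2 : x - (m : ℝ) - (y - m) = x - y := by ring
    rwa [h2] at this
  have hzero : ∀ m : ℕ, m ∉ ({⌊x⌋₊, ⌊y⌋₊} : Finset ℕ) → |tent (x - m) - tent (y - m)| ^ p = 0 := by
    intro m hm
    have hz : ∀ w : ℝ, m ≠ ⌊w⌋₊ → tent (w - m) = 0 := by
      intro w hw
      rcases lt_or_gt_of_ne hw with h | h
      · -- m < floor w
        apply tent_zero_of_ge
        have h1 : ((m + 1 : ℕ) : ℝ) ≤ w := (Nat.le_floor_iff' (by omega)).mp h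
        push_cast at h1
        linarith
      · apply tent_zero_of_le
        have h1 : w < (m : ℝ) := (Nat.floor_lt' (by omega)).mp h
        linarith
    have h1 : m ≠ ⌊x⌋₊ := by intro h; apply hm; simp [h]
    have h2 : m ≠ ⌊y⌋₊ := by intro h; apply hm; simp [h]
    rw [hz x h1, hz y h2, sub_zero, abs_zero, Real.zero_rpow hp0.ne']
  calc ∑ m ∈ Finset.range M, |tent (x - m) - tent (y - m)| ^ p
      ≤ ∑ m ∈ ({⌊x⌋₊, ⌊y⌋₊} : Finset ℕ), |tent (x - m) - tent (y - m)| ^ p := by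
        have h1 : ∑ m ∈ Finset.range M, |tent (x - m) - tent (y - m)| ^ p
            = ∑ m ∈ (Finset.range M).filter (fun m => m ∈ ({⌊x⌋₊, ⌊y⌋₊} : Finset ℕ)),
              |tent (x - m) - tent (y - m)| ^ p := by
          rw [Finset.sum_filter]
          refine Finset.sum_congr rfl (fun m _ => ?_)
          by_cases hm : m ∈ ({⌊x⌋₊, ⌊y⌋₊} : Finset ℕ)
          · rw [if_pos hm]
          · rw [if_neg hm, hzero m hm]
        rw [h1]
        refine Finset.sum_le_sum_of_subset_of_nonneg ?_ (fun m _ _ => Real.rpow_nonneg (abs_nonneg _) _)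
        intro m hm
        exact (Finset.mem_filter.mp hm).2
    _ ≤ ∑ m ∈ ({⌊x⌋₊, ⌊y⌋₊} : Finset ℕ), B := Finset.sum_le_sum (fun m _ => hterm m)
    _ = (({⌊x⌋₊, ⌊y⌋₊} : Finset ℕ).card : ℝ) * B := by rw [Finset.sum_const, nsmul_eq_mul]
    _ ≤ 2 * B := by
        refine mul_le_mul_of_nonneg_right ?_ hBnn
        exact_mod_cast Finset.card_le_two

/-- the multi-scale sum -/
noncomputable def G (p : ℝ) (i : ℕ) (D : ℝ) : ℝ :=
  ∑ r ∈ Finset.range i, (1 / 2 : ℝ) ^ r * (min 1 (2 * (2 ^ r * D))) ^ p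

noncomputable def cc (p : ℝ) : ℝ := 2 ^ p / (2 ^ (p - 1) - 1)

lemma cc_pos {p : ℝ} (hp : 1 < p) : 0 < cc p := by
  have h1 : (1 : ℝ) < 2 ^ (p - 1) := Real.one_lt_rpow (by norm_num) (by linarith)
  exact div_pos (by positivity) (by linarith)

lemma cc_eq {p : ℝ} (hp : 1 < p) : (2 : ℝ) ^ p + cc p = cc p * 2 ^ (p - 1) := by
  have h1 : (1 : ℝ) < 2 ^ (p - 1) := Real.one_lt_rpow (by norm_num) (by linarith)
  have h2 : (2 : ℝ) ^ (p - 1) - 1 ≠ 0 := by linarith
  unfold cc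
  field_simp
  ring

lemma G_le_two {p : ℝ} (hp : 1 < p) (i : ℕ) (D : ℝ) (hD : 0 ≤ D) : G p i D ≤ 2 := by
  unfold G
  have h1 : ∀ r ∈ Finset.range i, (1 / 2 : ℝ) ^ r * (min 1 (2 * (2 ^ r * D))) ^ p ≤ (1 / 2 : ℝ) ^ r := by
    intro r _
    have : (min 1 (2 * ((2 : ℝ) ^ r * D))) ^ p ≤ 1 :=
      Real.rpow_le_one (le_min zero_le_one (by positivity)) (min_le_left _ _) (by linarith)
    have h2 : 0 ≤ (1 / 2 : ℝ) ^ r := by positivity
    nlinarith
  refine (Finset.sum_le_sum h1).trans ?_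
  have := sum_geometric_two_le i
  exact this

lemma G_bound {p : ℝ} (hp : 1 < p) : ∀ (i : ℕ) (D : ℝ), 0 ≤ D → D ≤ 1 →
    G p i D ≤ (cc p + 4) * D - cc p * D ^ p := by
  have hc := (cc_pos hp)
  intro i
  induction i with
  | zero =>
    intro D hD hD1
    have h1 : D ^ p ≤ D := by
      calc D ^ p ≤ D ^ (1 : ℝ) := Real.rpow_le_rpow_of_exponent_ge' hD hD1 zero_le_one hp.le
        _ = D := Real.rpow_one D
    unfold G
    simp only [Finset.range_zero, Finset.sum_empty]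
    nlinarith
  | succ i ih =>
    intro D hD hD1
    rcases le_total D (1 / 2) with h | h
    · have hG : G p (i + 1) D = (2 * D) ^ p + 1 / 2 * G p i (2 * D) := by
        unfold G
        rw [Finset.sum_range_succ']
        simp only [pow_zero, one_mul]
        rw [min_eq_right (by linarith), add_comm]
        congr 1
        rw [Finset.mul_sum]
        refine Finset.sum_congr rfl (fun r _ => ?_)
        have h2 : (2 : ℝ) * (2 ^ (r + 1) * D) = 2 * (2 ^ r * (2 * D)) := by ring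
        rw [h2, pow_succ]
        ring
      rw [hG]
      have h3 := ih (2 * D) (by linarith) (by linarith)
      have h4 : (2 * D) ^ p = 2 ^ p * D ^ p := Real.mul_rpow (by norm_num) hD
      have h5 := cc_eq hp
      have h6 : (2 : ℝ) ^ p = 2 ^ (p - 1) * 2 := by
        rw [← Real.rpow_add_one (by norm_num)]; congr 1; ring
      rw [h4] at h3 ⊢
      have h7 : 0 ≤ D ^ p := Real.rpow_nonneg hD _
      have h8 : 2 ^ p * D ^ p + 1 / 2 * ((cc p + 4) * (2 * D) - cc p * (2 ^ p * D ^ p))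
          = (cc p + 4) * D - cc p * D ^ p := by
        have h9 : (2 : ℝ) ^ p - 1 / 2 * cc p * 2 ^ p = - cc p := by
          have h11 : 1 / 2 * cc p * 2 ^ p = cc p * 2 ^ (p - 1) := by rw [h6]; ring
          linarith
        have h10 : 2 ^ p * D ^ p + 1 / 2 * ((cc p + 4) * (2 * D) - cc p * (2 ^ p * D ^ p))
          = (cc p + 4) * D + ((2 : ℝ) ^ p - 1 / 2 * cc p * 2 ^ p) * D ^ p := by ring
        rw [h10, h9]; ring
      linarith
    · have h1 : D ^ p ≤ D := by
        calc D ^ p ≤ D ^ (1 : ℝ) := Real.rpow_le_rpow_of_exponent_ge' hD hD1 zero_le_one hp.le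
          _ = D := Real.rpow_one D
      have h2 := G_le_two hp (i + 1) D hD
      nlinarith

/-- the constant in the block estimate -/
noncomputable def CC (p : ℝ) : ℝ := 2 * (cc p + 4)

lemma CC_pos {p : ℝ} (hp : 1 < p) : 0 < CC p := by
  have := (cc_pos hp)
  unfold CC; positivity

/-- the block estimate -/
lemma block_bound {p : ℝ} (hp : 1 < p) (i : ℕ) (u v : ℝ) (hu : 0 ≤ u) (huv : u ≤ v) (hv : v ≤ 1) :
    ∑ r ∈ Finset.range i, ∑ m ∈ Finset.range (2 ^ r),
      (1 / 2 : ℝ) ^ r * |tent (2 ^ r * u - m) - tent (2 ^ r * v - m)| ^ p ≤ CC p * (v - u) := by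
  have hp0 : 0 < p := by linarith
  have h1 : ∑ r ∈ Finset.range i, ∑ m ∈ Finset.range (2 ^ r),
      (1 / 2 : ℝ) ^ r * |tent (2 ^ r * u - m) - tent (2 ^ r * v - m)| ^ p
      ≤ 2 * G p i (v - u) := by
    unfold G
    rw [Finset.mul_sum]
    refine Finset.sum_le_sum (fun r _ => ?_)
    rw [← Finset.mul_sum]
    have h2 := scale_bound hp (2 ^ r) (2 ^ r * u) (2 ^ r * v)
    have h3 : |(2 : ℝ) ^ r * u - 2 ^ r * v| = 2 ^ r * (v - u) := by
      rw [abs_sub_comm, ← mul_sub, abs_of_nonneg (mul_nonneg (by positivity) (by linarith))]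
    rw [h3] at h2
    have h4 : 0 ≤ (1 / 2 : ℝ) ^ r := by positivity
    calc _ ≤ (1 / 2 : ℝ) ^ r * (2 * (min 1 (2 * (2 ^ r * (v - u)))) ^ p) :=
          mul_le_mul_of_nonneg_left h2 h4
      _ = _ := by ring
  have h2 := G_bound hp i (v - u) (by linarith) (by linarith)
  have h3 : 0 ≤ cc p * (v - u) ^ p :=
    mul_nonneg (cc_pos hp).le (Real.rpow_nonneg (by linarith) _)
  unfold CC
  nlinarith


/-- clamped local time of block `i` -/
noncomputable def uu (i n : ℕ) : ℝ := max 0 (min 1 ((n : ℝ) / 2 ^ (i + 1) - 1))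

lemma uu_nonneg (i n : ℕ) : 0 ≤ uu i n := le_max_left _ _
lemma uu_le_one (i n : ℕ) : uu i n ≤ 1 := max_le (by norm_num) (min_le_left _ _)
lemma uu_mono (i : ℕ) {a b : ℕ} (h : a ≤ b) : uu i a ≤ uu i b := by
  unfold uu
  have : (a : ℝ) / 2 ^ (i + 1) ≤ b / 2 ^ (i + 1) := by
    have h' : (a : ℝ) ≤ b := by exact_mod_cast h
    exact div_le_div_of_nonneg_right h' (by positivity)
  exact max_le_max le_rfl (min_le_min le_rfl (by linarith))

/-- the coordinates: `q = (i, r, m)` -/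
abbrev Idx : Type := ℕ × (ℕ × ℕ)

/-- amplitude (to the power `p`) -/
noncomputable def amp (q : Idx) : ℝ :=
  if q.2.1 < q.1 + 1 ∧ q.2.2 < 2 ^ q.2.1 then 1 / ((q.1 : ℝ) + 1) ^ 2 * (1 / 2) ^ q.2.1 else 0

lemma amp_nonneg (q : Idx) : 0 ≤ amp q := by
  unfold amp; split_ifs <;> positivity

/-- the sequence, coordinates indexed by `Idx` -/
noncomputable def X (p : ℝ) (n : ℕ) (q : Idx) : ℝ :=
  (amp q) ^ (1 / p) * tent (2 ^ q.2.1 * uu q.1 n - q.2.2)

lemma X_nonneg (p : ℝ) (n : ℕ) (q : Idx) : 0 ≤ X p n q :=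
  mul_nonneg (Real.rpow_nonneg (amp_nonneg q) _) (tent_nonneg _)

lemma X_diff_pow {p : ℝ} (hp : 1 < p) (a b : ℕ) (q : Idx) :
    |X p a q - X p b q| ^ p =
      amp q * |tent (2 ^ q.2.1 * uu q.1 a - q.2.2) - tent (2 ^ q.2.1 * uu q.1 b - q.2.2)| ^ p := by
  unfold X
  have hp0 : p ≠ 0 := by linarith
  rw [← mul_sub, abs_mul, abs_of_nonneg (Real.rpow_nonneg (amp_nonneg q) _),
    Real.mul_rpow (Real.rpow_nonneg (amp_nonneg q) _) (abs_nonneg _), ← Real.rpow_mul (amp_nonneg q),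
    one_div_mul_cancel hp0, Real.rpow_one]

/-- the clock -/
noncomputable def F (p : ℝ) (n : ℕ) : ℝ := ∑' i : ℕ, CC p * (1 / ((i : ℝ) + 1) ^ 2) * uu i n

lemma summable_delta : Summable (fun i : ℕ => 1 / ((i : ℝ) + 1) ^ 2) := by
  have h := (summable_nat_add_iff 1).mpr (Real.summable_one_div_nat_pow.mpr (one_lt_two))
  refine h.congr (fun i => ?_)
  push_cast
  rfl

lemma summable_F {p : ℝ} (hp : 1 < p) (n : ℕ) :
    Summable (fun i : ℕ => CC p * (1 / ((i : ℝ) + 1) ^ 2) * uu i n) := by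
  refine Summable.of_nonneg_of_le (fun i => ?_) (fun i => ?_) (summable_delta.mul_left (CC p))
  · have := (CC_pos hp).le
    have := uu_nonneg i n
    positivity
  · have := (CC_pos hp).le
    have h1 := uu_le_one i n
    have h2 : 0 ≤ CC p * (1 / ((i : ℝ) + 1) ^ 2) := by positivity
    nlinarith

lemma F_nonneg {p : ℝ} (hp : 1 < p) (n : ℕ) : 0 ≤ F p n := by
  refine tsum_nonneg (fun i => ?_)
  have := (CC_pos hp).le
  have := uu_nonneg i n
  positivity

lemma F_le {p : ℝ} (hp : 1 < p) (n : ℕ) : F p n ≤ ∑' i : ℕ, CC p * (1 / ((i : ℝ) + 1) ^ 2) := by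
  refine Summable.tsum_le_tsum (fun i => ?_) (summable_F hp n) (summable_delta.mul_left (CC p))
  have := (CC_pos hp).le
  have h1 := uu_le_one i n
  have h2 : 0 ≤ CC p * (1 / ((i : ℝ) + 1) ^ 2) := by positivity
  nlinarith

/-- one block of the `p`-th powers of the differences -/
lemma block_hasSum {p : ℝ} (hp : 1 < p) (a b : ℕ) (i : ℕ) :
    HasSum (fun s : ℕ × ℕ => |X p a (i, s) - X p b (i, s)| ^ p)
      (∑ r ∈ Finset.range (i + 1), ∑ m ∈ Finset.range (2 ^ r), 1 / ((i : ℝ) + 1) ^ 2 *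
        ((1 / 2 : ℝ) ^ r * |tent (2 ^ r * uu i a - m) - tent (2 ^ r * uu i b - m)| ^ p)) := by
  have hp0 : 0 < p := by linarith
  rw [Finset.sum_sigma']
  have h1 : ∑ x ∈ (Finset.range (i + 1)).sigma (fun r => Finset.range (2 ^ r)),
      1 / ((i : ℝ) + 1) ^ 2 * ((1 / 2 : ℝ) ^ x.1 *
        |tent (2 ^ x.1 * uu i a - x.2) - tent (2 ^ x.1 * uu i b - x.2)| ^ p)
      = ∑ s ∈ ((Finset.range (i + 1)).sigma (fun r => Finset.range (2 ^ r))).map
          (Equiv.sigmaEquivProd ℕ ℕ).toEmbedding, |X p a (i, s) - X p b (i, s)| ^ p := by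
    rw [Finset.sum_map]
    refine Finset.sum_congr rfl (fun x hx => ?_)
    rw [Finset.mem_sigma, Finset.mem_range, Finset.mem_range] at hx
    rw [X_diff_pow hp]
    show _ = amp (i, (x.1, x.2)) * |tent (2 ^ x.1 * uu i a - x.2) - tent (2 ^ x.1 * uu i b - x.2)| ^ p
    have h2 : amp (i, (x.1, x.2)) = 1 / ((i : ℝ) + 1) ^ 2 * (1 / 2) ^ x.1 := by
      unfold amp
      rw [if_pos hx]
    rw [h2]; ring
  rw [h1]
  refine hasSum_sum_of_ne_finset_zero (fun s hs => ?_)
  rw [X_diff_pow hp]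
  have h2 : amp (i, s) = 0 := by
    unfold amp
    rw [if_neg]
    rintro ⟨h3, h4⟩
    apply hs
    rw [Finset.mem_map]
    refine ⟨⟨s.1, s.2⟩, ?_, rfl⟩
    rw [Finset.mem_sigma, Finset.mem_range, Finset.mem_range]
    exact ⟨h3, h4⟩
  rw [h2, zero_mul]

lemma block_le {p : ℝ} (hp : 1 < p) {a b : ℕ} (hab : a ≤ b) (i : ℕ) :
    (∑' s : ℕ × ℕ, |X p a (i, s) - X p b (i, s)| ^ p) ≤
      CC p * (1 / ((i : ℝ) + 1) ^ 2) * uu i b - CC p * (1 / ((i : ℝ) + 1) ^ 2) * uu i a := by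
  rw [(block_hasSum hp a b i).tsum_eq]
  simp_rw [← Finset.mul_sum]
  have h1 := block_bound hp (i + 1) (uu i a) (uu i b) (uu_nonneg i a) (uu_mono i hab) (uu_le_one i b)
  simp_rw [← Finset.mul_sum] at h1
  have h2 : (0 : ℝ) ≤ 1 / ((i : ℝ) + 1) ^ 2 := by positivity
  calc _ ≤ 1 / ((i : ℝ) + 1) ^ 2 * (CC p * (uu i b - uu i a)) := mul_le_mul_of_nonneg_left h1 h2
    _ = _ := by ring

/-- the Hölder type estimate with summability -/
lemma diff_summable {p : ℝ} (hp : 1 < p) {a b : ℕ} (hab : a ≤ b) :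
    Summable (fun q : Idx => |X p a q - X p b q| ^ p) ∧
      ∑' q : Idx, |X p a q - X p b q| ^ p ≤ F p b - F p a := by
  have hnn : 0 ≤ fun q : Idx => |X p a q - X p b q| ^ p := fun q => Real.rpow_nonneg (abs_nonneg _) _
  have hs1 : ∀ i, Summable (fun s : ℕ × ℕ => |X p a (i, s) - X p b (i, s)| ^ p) :=
    fun i => (block_hasSum hp a b i).summable
  have hs2 : Summable (fun i : ℕ => ∑' s : ℕ × ℕ, |X p a (i, s) - X p b (i, s)| ^ p) := by
    refine Summable.of_nonneg_of_le (fun i => tsum_nonneg (fun s => hnn _)) (fun i => block_le hp hab i)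
      ((summable_F hp b).sub (summable_F hp a))
  have hs : Summable (fun q : Idx => |X p a q - X p b q| ^ p) :=
    (summable_prod_of_nonneg hnn).mpr ⟨hs1, hs2⟩
  refine ⟨hs, ?_⟩
  rw [hs.tsum_prod' hs1]
  unfold F
  rw [← (summable_F hp b).tsum_sub (summable_F hp a)]
  exact Summable.tsum_le_tsum (fun i => block_le hp hab i) hs2
    ((summable_F hp b).sub (summable_F hp a))

lemma X_zero (p : ℝ) (q : Idx) : X p 0 q = 0 := by
  unfold X uu
  rw [tent_zero_of_le, mul_zero]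
  have h1 : (((0 : ℕ) : ℝ) / 2 ^ (q.1 + 1) - 1) ≤ 0 := by simp
  have h2 : max 0 (min 1 (((0 : ℕ) : ℝ) / 2 ^ (q.1 + 1) - 1)) = 0 :=
    max_eq_left ((min_le_right _ _).trans h1)
  rw [h2]
  have : (0 : ℝ) ≤ (q.2.2 : ℝ) := by positivity
  linarith

lemma X_summable {p : ℝ} (hp : 1 < p) (n : ℕ) : Summable (fun q : Idx => |X p n q| ^ p) := by
  have h := (diff_summable hp (Nat.zero_le n)).1
  refine h.congr (fun q => ?_)
  rw [X_zero, zero_sub, abs_neg]

/-- the centre of the bump `(i, r, m)` -/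
lemma X_center {p : ℝ} (i r m : ℕ) (hr : r < i + 1) (hm : m < 2 ^ r) :
    X p (2 ^ (i + 1) + (2 * m + 1) * 2 ^ (i - r)) (i, (r, m)) = (amp (i, (r, m))) ^ (1 / p) := by
  unfold X
  have hpow : (2 : ℝ) ^ (i + 1) = 2 ^ (r + 1) * 2 ^ (i - r) := by
    rw [← pow_add]; congr 1; omega
  have h1 : (((2 ^ (i + 1) + (2 * m + 1) * 2 ^ (i - r) : ℕ) : ℝ) / 2 ^ (i + 1) - 1)
      = (2 * m + 1) / 2 ^ (r + 1) := by
    push_cast
    rw [add_div, div_self (by positivity), add_sub_cancel_left, hpow]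
    rw [mul_div_mul_right _ _ (by positivity)]
  have h2 : uu i (2 ^ (i + 1) + (2 * m + 1) * 2 ^ (i - r)) = (2 * m + 1) / 2 ^ (r + 1) := by
    unfold uu
    rw [h1, min_eq_right, max_eq_right]
    · positivity
    · rw [div_le_one (by positivity)]
      have h3 : 2 * m + 1 ≤ 2 ^ (r + 1) := by rw [pow_succ]; omega
      exact_mod_cast h3
  show _ * tent (2 ^ r * uu i (2 ^ (i + 1) + (2 * m + 1) * 2 ^ (i - r)) - m) = _
  rw [h2]
  have h3 : (2 : ℝ) ^ r * ((2 * m + 1) / 2 ^ (r + 1)) - m = 1 / 2 := by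
    rw [pow_succ]
    field_simp
    ring
  rw [h3, tent_half, mul_one]

lemma not_summable_amp : ¬ Summable amp := by
  intro h
  have h1 := (summable_prod_of_nonneg (f := amp) (fun q => amp_nonneg q)).mp h
  have h2 : (fun i : ℕ => ∑' s : ℕ × ℕ, amp (i, s)) = fun i : ℕ => 1 / ((i : ℝ) + 1) := by
    funext i
    have h3 : HasSum (fun s : ℕ × ℕ => amp (i, s))
        (∑ s ∈ ((Finset.range (i + 1)).sigma (fun r => Finset.range (2 ^ r))).map
          (Equiv.sigmaEquivProd ℕ ℕ).toEmbedding, amp (i, s)) := by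
      refine hasSum_sum_of_ne_finset_zero (fun s hs => ?_)
      unfold amp
      rw [if_neg]
      rintro ⟨h3, h4⟩
      apply hs
      rw [Finset.mem_map]
      refine ⟨⟨s.1, s.2⟩, ?_, rfl⟩
      rw [Finset.mem_sigma, Finset.mem_range, Finset.mem_range]
      exact ⟨h3, h4⟩
    rw [h3.tsum_eq, Finset.sum_map]
    have h4 : ∀ x ∈ (Finset.range (i + 1)).sigma (fun r => Finset.range (2 ^ r)),
        amp (i, (Equiv.sigmaEquivProd ℕ ℕ).toEmbedding x) = 1 / ((i : ℝ) + 1) ^ 2 * (1 / 2) ^ x.1 := by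
      intro x hx
      rw [Finset.mem_sigma, Finset.mem_range, Finset.mem_range] at hx
      show amp (i, (x.1, x.2)) = _
      unfold amp
      rw [if_pos hx]
    rw [Finset.sum_congr rfl h4, Finset.sum_sigma]
    have h5 : ∀ r ∈ Finset.range (i + 1), ∑ m ∈ Finset.range (2 ^ r),
        1 / ((i : ℝ) + 1) ^ 2 * (1 / 2 : ℝ) ^ r = 1 / ((i : ℝ) + 1) ^ 2 := by
      intro r _
      rw [Finset.sum_const, Finset.card_range, nsmul_eq_mul]
      push_cast
      have : (2 : ℝ) ^ r * (1 / ((i : ℝ) + 1) ^ 2 * (1 / 2) ^ r)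
          = 1 / ((i : ℝ) + 1) ^ 2 * (2 * (1 / 2)) ^ r := by
        rw [mul_pow]; ring
      rw [this]; norm_num
    rw [Finset.sum_congr rfl h5, Finset.sum_const, Finset.card_range, nsmul_eq_mul]
    push_cast
    field_simp
  rw [h2] at h1
  have h3 : Summable (fun i : ℕ => 1 / (((i + 1 : ℕ)) : ℝ)) := by
    refine h1.2.congr (fun i => ?_)
    push_cast
    rfl
  exact Real.not_summable_one_div_natCast ((summable_nat_add_iff 1).mp h3)

end Q100.Buo
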