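import Mathlib

set_option autoImplicit false
open Filter Topology
open scoped ENNReal

namespace Q100.Buo

universe u

/-- Order convergence of a sequence `d` to `d₀` in a vector lattice `E`: there are a decreasing
sequence `z` in `E` with infimum `0` and indices `N` such that `|d k - d₀| ≤ z m` for `k ≥ N m`. -/
def OrderTendsto {E : Type u} [Lattice E] [AddCommGroup E] (d : ℕ → E) (d₀ : E) : Prop :=
  ∃ z : ℕ → E, Antitone z ∧ IsGLB (Set.range z) 0 ∧ ∀ m, ∃ N, ∀ k, N ≤ k → |d k - d₀| ≤ z m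

/-- Buo-convergence: unbounded order convergence of an order bounded sequence. -/
def BuoTendsto {E : Type u} [Lattice E] [AddCommGroup E] (x : ℕ → E) (x₀ : E) : Prop :=
  (∀ u : E, 0 ≤ u → OrderTendsto (fun n => |x n - x₀| ⊓ u) 0) ∧
    ∃ y : E, 0 ≤ y ∧ ∀ n, |x n| ≤ y

/-- Buo-Cauchy sequences: along every strictly increasing sequence of indices the consecutive
differences converge to `0` in order. -/
def BuoCauchy {E : Type u} [Lattice E] [AddCommGroup E] (x : ℕ → E) : Prop :=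
  ∀ n : ℕ → ℕ, StrictMono n → OrderTendsto (fun k => x (n (k + 1)) - x (n k)) 0

/-- Sequential Buo-completeness. -/
def SeqBuoComplete (E : Type u) [Lattice E] [AddCommGroup E] : Prop :=
  ∀ x : ℕ → E, BuoCauchy x → ∃ x₀ : E, BuoTendsto x x₀

/-- The space `ℓ_p` of real sequences `x` with `∑ |x j| ^ p < ∞`, as a subgroup of all real
sequences. -/
def EllP (p : ℝ) : AddSubgroup (ℕ → ℝ) where
  carrier := {x | Memℓp x (ENNReal.ofReal p)}
  add_mem' := fun hx hy => hx.add hy
  zero_mem' := zero_memℓp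
  neg_mem' := fun hx => hx.neg

lemma mem_ellP {p : ℝ} (hp : 0 < p) (x : ℕ → ℝ) : x ∈ EllP p ↔ Summable (fun j => |x j| ^ p) := by
  have h : 0 < (ENNReal.ofReal p).toReal := by rwa [ENNReal.toReal_ofReal hp.le]
  show Memℓp x (ENNReal.ofReal p) ↔ _
  rw [memℓp_gen_iff h, ENNReal.toReal_ofReal hp.le]
  rfl

lemma memℓp_sup {q : ℝ≥0∞} {x y : ℕ → ℝ} (hx : Memℓp x q) (hy : Memℓp y q) : Memℓp (x ⊔ y) q := by
  have h1 : ∀ j, ‖(x ⊔ y) j‖ ≤ ((fun j => ‖x j‖) + fun j => ‖y j‖) j := by
    intro j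
    simp only [Pi.sup_apply, Pi.add_apply, Real.norm_eq_abs]
    rcases le_total (x j) (y j) with h | h
    · rw [sup_eq_right.mpr h]; linarith [abs_nonneg (x j)]
    · rw [sup_eq_left.mpr h]; linarith [abs_nonneg (y j)]
  exact (hx.norm.add hy.norm).mono h1

instance (p : ℝ) : Lattice (EllP p) :=
  Subtype.lattice (fun _ _ hx hy => memℓp_sup hx hy) (fun x y hx hy => by
    have h : x ⊓ y = -((-x) ⊔ (-y)) := by
      funext j
      simp [max_neg_neg]
    rw [h]
    exact (memℓp_sup hx.neg hy.neg).neg)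

end Q100.Buo
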