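import Pool.Agent.Q100.CCDefs
import Pool.Agent.Q100.Bio

set_option autoImplicit false
open Filter Topology

namespace Q100.CC

open Q100.Bio

universe u

section weights

variable (a : ℕ → ℝ)

/-- strictly decreasing summable weights -/
noncomputable def mu (k : ℕ) : ℝ := (1 / 2) ^ k / (1 + ∑ i ∈ Finset.range (k + 1), a i)

variable {a}

lemma mu_pos (ha : ∀ k, 0 ≤ a k) (k : ℕ) : 0 < mu a k := by
  have : 0 ≤ ∑ i ∈ Finset.range (k + 1), a i := Finset.sum_nonneg (fun i _ => ha i)
  unfold mu; positivity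

lemma mu_anti (ha : ∀ k, 0 ≤ a k) : StrictAnti (mu a) := by
  refine strictAnti_nat_of_succ_lt (fun k => ?_)
  have h0 : 0 ≤ ∑ i ∈ Finset.range (k + 1), a i := Finset.sum_nonneg (fun i _ => ha i)
  unfold mu
  rw [Finset.sum_range_succ _ (k + 1)]
  have h1 := ha (k + 1)
  have h2 : (0 : ℝ) < (1 / 2) ^ k := by positivity
  rw [div_lt_div_iff₀ (by positivity) (by positivity), pow_succ]
  nlinarith [mul_nonneg h2.le h0, mul_nonneg h2.le h1]

lemma mu_mul_le (ha : ∀ k, 0 ≤ a k) (k : ℕ) : mu a k * a k ≤ (1 / 2) ^ k := by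
  have h0 : 0 ≤ ∑ i ∈ Finset.range k, a i := Finset.sum_nonneg (fun i _ => ha i)
  have h1 := ha k
  unfold mu
  rw [Finset.sum_range_succ, div_mul_eq_mul_div, div_le_iff₀ (by positivity)]
  have h2 : (0 : ℝ) < (1 / 2) ^ k := by positivity
  nlinarith [mul_nonneg h2.le h0, mul_nonneg h2.le h1]

end weights

variable {𝕜 : Type} [RCLike 𝕜] {X : Type u} [NormedAddCommGroup X] [NormedSpace ℝ X]
  [NormedSpace 𝕜 X] [IsScalarTower ℝ 𝕜 X] [CompleteSpace X]

/-- the main construction, for a unimodular scalar `ω` with `ω ^ 4 = 1` -/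
theorem exists_convexCyclic [TopologicalSpace.SeparableSpace X] [Nontrivial X] (ω : 𝕜)
    (hω : ω ^ 4 = 1) (hω1 : ∀ z : 𝕜, z ≠ 0 → ∃ r : ℕ, 0 < RCLike.re (ω ^ r * z))
    (hω2 : ∀ z : 𝕜, ∃ θ : 𝕜, θ ≠ 0 ∧ ∀ (n : ℕ) (t : ℝ), 0 ≤ t →
      0 ≤ RCLike.re (θ * (ω ^ (2 * n) * ((t : 𝕜) * z)))) :
    ∃ S : X →L[𝕜] X, ConvexCyclic S ∧ ¬ ConvexCyclic (S ^ 2) := by
  obtain ⟨x, f, hfx, hfx0, hf0, hdense⟩ := exists_fundamental (𝕜 := 𝕜) (X := X)
  set a : ℕ → ℝ := fun k => ‖f k‖ * ‖x k‖ with ha
  have ha0 : ∀ k, 0 ≤ a k := fun k => by positivity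
  set μ : ℕ → ℝ := mu a with hμ
  have hμpos : ∀ k, 0 < μ k := mu_pos ha0
  have hμanti : StrictAnti μ := mu_anti ha0
  -- the operator
  have hPs : Summable (fun k => ((μ k : ℝ) : 𝕜) • (f k).smulRight (x k)) := by
    refine Summable.of_norm_bounded (g := fun k => (1 / 2 : ℝ) ^ k) summable_geometric_two (fun k => ?_)
    rw [norm_smul, RCLike.norm_ofReal, abs_of_pos (hμpos k), ContinuousLinearMap.norm_smulRight_apply]
    exact mu_mul_le ha0 k
  set P : X →L[𝕜] X := ∑' k, ((μ k : ℝ) : 𝕜) • (f k).smulRight (x k) with hP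
  have hPv : ∀ v, HasSum (fun k => (((μ k : ℝ) : 𝕜) * f k v) • x k) (P v) := by
    intro v
    have h1 := (hPs.hasSum).mapL (ContinuousLinearMap.apply 𝕜 X v)
    refine h1.congr_fun (fun k => ?_)
    show (((μ k : ℝ) : 𝕜) * f k v) • x k = ((μ k : ℝ) : 𝕜) • (f k v • x k)
    rw [smul_smul]
  set R : X →L[𝕜] X := (2 : 𝕜) • ContinuousLinearMap.id 𝕜 X + P with hR
  have hRv : ∀ v, R v = (2 : 𝕜) • v + P v := fun v => rfl
  -- eigenvectors
  have hRx : ∀ k, R (x k) = (((2 + μ k : ℝ)) : 𝕜) • x k := by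
    intro k
    have h1 : HasSum (fun j => (((μ j : ℝ) : 𝕜) * f j (x k)) • x j) (((μ k : ℝ) : 𝕜) • x k) := by
      have h2 : (((μ k : ℝ) : 𝕜) * f k (x k)) • x k = ((μ k : ℝ) : 𝕜) • x k := by
        by_cases hx : x k = 0
        · rw [hx]; simp
        · rw [hfx k hx, mul_one]
      rw [← h2]
      refine hasSum_single k (fun j hj => ?_)
      rw [hfx0 j k hj, mul_zero, zero_smul]
    rw [hRv, (hPv (x k)).unique h1, ← add_smul]
    push_cast
    rfl
  -- eigenfunctionals
  have hfR : ∀ k, x k ≠ 0 → ∀ v, f k (R v) = (((2 + μ k : ℝ)) : 𝕜) * f k v := by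
    intro k hk v
    have h1 : HasSum (fun j => f k ((((μ j : ℝ) : 𝕜) * f j v) • x j)) (f k (P v)) :=
      (hPv v).mapL (f k)
    have h2 : HasSum (fun j => f k ((((μ j : ℝ) : 𝕜) * f j v) • x j)) (((μ k : ℝ) : 𝕜) * f k v) := by
      have h3 : f k ((((μ k : ℝ) : 𝕜) * f k v) • x k) = ((μ k : ℝ) : 𝕜) * f k v := by
        rw [map_smul, hfx k hk, smul_eq_mul, mul_one]
      rw [← h3]
      refine hasSum_single k (fun j hj => ?_)
      rw [map_smul, hfx0 k j hj.symm, smul_zero]
    rw [hRv, map_add, map_smul, h1.unique h2, smul_eq_mul]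
    push_cast
    ring
  have hRnx : ∀ n k, (R ^ n) (x k) = ((((2 + μ k) ^ n : ℝ)) : 𝕜) • x k := by
    intro n k
    induction n with
    | zero => simp
    | succ n ih =>
      rw [pow_succ', mul_apply_eq_comp, ih, map_smul, hRx, smul_smul]
      congr 1
      push_cast
      ring
  have hfRn : ∀ k, x k ≠ 0 → ∀ n v, f k ((R ^ n) v) = ((((2 + μ k) ^ n : ℝ)) : 𝕜) * f k v := by
    intro k hk n v
    induction n with
    | zero => simp
    | succ n ih =>
      rw [pow_succ', mul_apply_eq_comp, hfR k hk, ih]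
      push_cast
      ring
  set S : X →L[𝕜] X := ω • R with hS
  have hSn : ∀ n v, (S ^ n) v = ω ^ n • (R ^ n) v := by
    intro n v
    rw [hS, smul_pow]
    rfl
  refine ⟨S, ?_, ?_⟩
  · -- the convex cyclic vector
    set c : ℕ → ℝ := fun k => (1 / 2) ^ k / (1 + ‖x k‖) with hc
    have hcpos : ∀ k, 0 < c k := fun k => by rw [hc]; positivity
    have hcx : ∀ k, c k * ‖x k‖ ≤ (1 / 2) ^ k := by
      intro k
      simp only [hc]
      rw [div_mul_eq_mul_div, div_le_iff₀ (by positivity)]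
      have h2 : (0 : ℝ) < (1 / 2) ^ k := by positivity
      nlinarith [norm_nonneg (x k)]
    have hvs : Summable (fun k => ((c k : ℝ) : 𝕜) • x k) := by
      refine Summable.of_norm_bounded (g := fun k => (1 / 2 : ℝ) ^ k) summable_geometric_two
        (fun k => ?_)
      rw [norm_smul, RCLike.norm_ofReal, abs_of_pos (hcpos k)]
      exact hcx k
    set v : X := ∑' k, ((c k : ℝ) : 𝕜) • x k with hv
    refine ⟨v, ?_⟩
    by_contra hnd
    rw [dense_iff_closure_eq] at hnd
    obtain ⟨y, hy⟩ : ∃ y, y ∉ closure (convexHull ℝ (Set.range (fun n : ℕ => (S ^ n) v))) := by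
      by_contra h
      push Not at h
      exact hnd (Set.eq_univ_of_forall h)
    obtain ⟨F, u, hF1, hF2⟩ := RCLike.geometric_hahn_banach_closed_point (𝕜 := 𝕜)
      (convex_convexHull ℝ _).closure isClosed_closure hy
    have hFS : ∀ n, RCLike.re (F ((S ^ n) v)) < u := fun n =>
      hF1 _ (subset_closure (subset_convexHull ℝ _ ⟨n, rfl⟩))
    -- the leading index
    have hex : ∃ k, F (x k) ≠ 0 := by
      by_contra h
      push Not at h
      have hF0 : ∀ w, F w = 0 := by
        intro w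
        have h1 : (Submodule.span 𝕜 (Set.range x) : Set X) ⊆ {w | F w = 0} := by
          intro w hw
          have h2 : Submodule.span 𝕜 (Set.range x) ≤ LinearMap.ker F.toLinearMap := by
            rw [Submodule.span_le]
            rintro _ ⟨k, rfl⟩
            exact h k
          exact h2 hw
        have h3 : closure (Submodule.span 𝕜 (Set.range x) : Set X) ⊆ {w | F w = 0} :=
          closure_minimal h1 (isClosed_eq F.continuous continuous_const)
        rw [hdense.closure_eq] at h3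
        exact h3 (Set.mem_univ w)
      have h1 := hFS 0
      rw [hF0] at h1 hF2
      linarith
    classical
    set k₀ := Nat.find hex with hk₀
    have hk1 : F (x k₀) ≠ 0 := Nat.find_spec hex
    have hk2 : ∀ k, k < k₀ → F (x k) = 0 := fun k hk => by
      by_contra h
      exact Nat.find_min hex hk h
    set L : ℝ := 2 + μ k₀ with hL
    have hLpos : 0 < L := by have := hμpos k₀; rw [hL]; linarith
    have hL2 : 2 ≤ L := by have := hμpos k₀; rw [hL]; linarith
    -- normalized values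
    set A : ℕ → 𝕜 := fun n => ∑' k, (((c k * ((2 + μ k) / L) ^ n : ℝ)) : 𝕜) * F (x k) with hA
    have hFR : ∀ n, F ((R ^ n) v) = ((L ^ n : ℝ) : 𝕜) * A n := by
      intro n
      rw [hv, (R ^ n).map_tsum hvs, F.map_tsum (hvs.mapL (R ^ n)), hA]
      simp only
      rw [← tsum_mul_left]
      refine tsum_congr (fun k => ?_)
      rw [map_smul, hRnx, map_smul, map_smul, smul_eq_mul, smul_eq_mul]
      have h1 : L ^ n * (c k * ((2 + μ k) / L) ^ n) = c k * (2 + μ k) ^ n := by
        rw [div_pow]; field_simp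
      rw [← mul_assoc, ← mul_assoc, ← RCLike.ofReal_mul, ← RCLike.ofReal_mul, h1]
    have hAlim : Tendsto A atTop (𝓝 (((c k₀ : ℝ) : 𝕜) * F (x k₀))) := by
      have h1 : ∑' k, (if k = k₀ then ((c k₀ : ℝ) : 𝕜) * F (x k₀) else 0)
          = ((c k₀ : ℝ) : 𝕜) * F (x k₀) := tsum_ite_eq k₀ _
      rw [← h1]
      refine tendsto_tsum_of_dominated_convergence (bound := fun k => (1 / 2 : ℝ) ^ k * ‖F‖)
        (summable_geometric_two.mul_right _) (fun k => ?_) (Eventually.of_forall (fun n k => ?_))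
      · rcases lt_trichotomy k k₀ with h | h | h
        · rw [hk2 k h, if_neg h.ne]
          simp
        · subst h
          rw [if_pos rfl, ← hL, div_self hLpos.ne']
          simp
        · rw [if_neg h.ne']
          have h2 : (2 + μ k) / L < 1 := by
            rw [div_lt_one hLpos, hL]
            have := hμanti h
            linarith
          have h3 : 0 ≤ (2 + μ k) / L := by have := hμpos k; positivity
          have h4 : Tendsto (fun n : ℕ => (((c k * ((2 + μ k) / L) ^ n : ℝ)) : 𝕜) * F (x k)) atTop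
              (𝓝 (((c k * 0 : ℝ) : 𝕜) * F (x k))) := by
            refine Tendsto.mul_const _ ?_
            exact (RCLike.continuous_ofReal.tendsto _).comp
              ((tendsto_pow_atTop_nhds_zero_of_lt_one h3 h2).const_mul (c k))
          simpa using h4
      · rcases lt_or_ge k k₀ with h | h
        · rw [hk2 k h]
          simp
        · rw [norm_mul, RCLike.norm_ofReal]
          have h3 : 0 ≤ (2 + μ k) / L := by have := hμpos k; positivity
          have h2 : (2 + μ k) / L ≤ 1 := by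
            rw [div_le_one hLpos, hL]
            have := hμanti.antitone h
            linarith
          have h5 : ((2 + μ k) / L) ^ n ≤ 1 := pow_le_one₀ h3 h2
          have h6 : 0 ≤ ((2 + μ k) / L) ^ n := pow_nonneg h3 n
          rw [abs_of_nonneg (mul_nonneg (hcpos k).le h6)]
          calc c k * ((2 + μ k) / L) ^ n * ‖F (x k)‖ ≤ c k * 1 * (‖F‖ * ‖x k‖) := by
                refine mul_le_mul (mul_le_mul_of_nonneg_left h5 (hcpos k).le) (F.le_opNorm _)
                  (norm_nonneg _) (by have := hcpos k; positivity)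
            _ = (c k * ‖x k‖) * ‖F‖ := by ring
            _ ≤ (1 / 2) ^ k * ‖F‖ := mul_le_mul_of_nonneg_right (hcx k) (norm_nonneg _)
    have hz : ((c k₀ : ℝ) : 𝕜) * F (x k₀) ≠ 0 :=
      mul_ne_zero (RCLike.ofReal_ne_zero.mpr (hcpos k₀).ne') hk1
    obtain ⟨r, hr⟩ := hω1 _ hz
    set ℓ : ℝ := RCLike.re (ω ^ r * (((c k₀ : ℝ) : 𝕜) * F (x k₀))) with hℓ
    -- along n = 4 m + r
    have hlim : Tendsto (fun m : ℕ => RCLike.re (ω ^ r * A (4 * m + r))) atTop (𝓝 ℓ) := by
      have h1 : Tendsto (fun m : ℕ => 4 * m + r) atTop atTop :=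
        tendsto_atTop_mono (fun m => by show m ≤ _; omega) tendsto_id
      exact (RCLike.continuous_re.tendsto _).comp ((hAlim.comp h1).const_mul (ω ^ r))
    have hval : ∀ m : ℕ, RCLike.re (F ((S ^ (4 * m + r)) v))
        = L ^ (4 * m + r) * RCLike.re (ω ^ r * A (4 * m + r)) := by
      intro m
      rw [hSn, map_smul, hFR, smul_eq_mul]
      have h1 : ω ^ (4 * m + r) = ω ^ r := by rw [pow_add, pow_mul, hω, one_pow, one_mul]
      rw [h1]
      have h2 : ω ^ r * (((L ^ (4 * m + r) : ℝ) : 𝕜) * A (4 * m + r))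
          = ((L ^ (4 * m + r) : ℝ) : 𝕜) * (ω ^ r * A (4 * m + r)) := by ring
      rw [h2, RCLike.re_ofReal_mul]
    have htop : Tendsto (fun m : ℕ => L ^ (4 * m + r) * RCLike.re (ω ^ r * A (4 * m + r))) atTop
        atTop := by
      refine Tendsto.atTop_mul_pos hr ?_ hlim
      have h1 : Tendsto (fun m : ℕ => 4 * m + r) atTop atTop :=
        tendsto_atTop_mono (fun m => by show m ≤ _; omega) tendsto_id
      exact (tendsto_pow_atTop_atTop_of_one_lt (by linarith)).comp h1
    obtain ⟨m, hm⟩ := (htop.eventually (eventually_ge_atTop u)).exists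
    have h1 := hFS (4 * m + r)
    rw [hval] at h1
    linarith
  · -- the square is not convex-cyclic
    rintro ⟨y, hy⟩
    obtain ⟨k, hk⟩ : ∃ k, x k ≠ 0 := by
      by_contra h
      push Not at h
      obtain ⟨w, hw⟩ := exists_ne (0 : X)
      have h1 : (Submodule.span 𝕜 (Set.range x) : Set X) ⊆ {0} := by
        intro z hz
        have h2 : Submodule.span 𝕜 (Set.range x) ≤ (⊥ : Submodule 𝕜 X) := by
          rw [Submodule.span_le]
          rintro _ ⟨k, rfl⟩
          exact h k
        exact h2 hz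
      have h3 : closure (Submodule.span 𝕜 (Set.range x) : Set X) ⊆ {0} :=
        closure_minimal h1 isClosed_singleton
      rw [hdense.closure_eq] at h3
      exact hw (h3 (Set.mem_univ w))
    obtain ⟨θ, hθ0, hθ⟩ := hω2 (f k y)
    set g : X → ℝ := fun w => RCLike.re (θ * f k w) with hg
    have hgc : Continuous g := RCLike.continuous_re.comp (continuous_const.mul (f k).continuous)
    have hconv : Convex ℝ {w | 0 ≤ g w} := by
      intro w₁ hw₁ w₂ hw₂ s t hs ht _
      have h1 : ∀ (q : ℝ) (w : X), f k (q • w) = ((q : ℝ) : 𝕜) * f k w := by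
        intro q w
        have : q • w = ((q : ℝ) : 𝕜) • w := by
          rw [← smul_one_smul 𝕜 q w, RCLike.real_smul_eq_coe_mul, mul_one]
        rw [this, map_smul, smul_eq_mul]
      show 0 ≤ RCLike.re (θ * f k (s • w₁ + t • w₂))
      rw [map_add, h1, h1]
      have h2 : θ * (((s : ℝ) : 𝕜) * f k w₁ + ((t : ℝ) : 𝕜) * f k w₂)
          = ((s : ℝ) : 𝕜) * (θ * f k w₁) + ((t : ℝ) : 𝕜) * (θ * f k w₂) := by ring
      rw [h2, map_add, RCLike.re_ofReal_mul, RCLike.re_ofReal_mul]
      exact add_nonneg (mul_nonneg hs hw₁) (mul_nonneg ht hw₂)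
    have horb : Set.range (fun n : ℕ => ((S ^ 2) ^ n) y) ⊆ {w | 0 ≤ g w} := by
      rintro _ ⟨n, rfl⟩
      show 0 ≤ RCLike.re (θ * f k (((S ^ 2) ^ n) y))
      rw [← pow_mul, hSn, map_smul, hfRn k hk, smul_eq_mul]
      refine hθ n _ ?_
      have := hμpos k
      positivity
    have h1 : closure (convexHull ℝ (Set.range (fun n : ℕ => ((S ^ 2) ^ n) y))) ⊆ {w | 0 ≤ g w} :=
      closure_minimal (convexHull_min horb hconv) (isClosed_le continuous_const hgc)
    rw [hy.closure_eq] at h1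
    have h2 := h1 (Set.mem_univ ((-(starRingEnd 𝕜 θ)) • x k))
    have h3 : g ((-(starRingEnd 𝕜 θ)) • x k) = -(‖θ‖ ^ 2) := by
      show RCLike.re (θ * f k ((-(starRingEnd 𝕜 θ)) • x k)) = _
      rw [map_smul, hfx k hk, smul_eq_mul, mul_one, mul_neg, RCLike.mul_conj]
      rw [← RCLike.ofReal_pow, ← RCLike.ofReal_neg, RCLike.ofReal_re]
    have h4 : 0 ≤ g ((-(starRingEnd 𝕜 θ)) • x k) := h2
    rw [h3] at h4
    have h5 : 0 < ‖θ‖ := norm_pos_iff.mpr hθ0
    nlinarith

end Q100.CC
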