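import Mathlib

set_option autoImplicit false

namespace Q100.CC

universe u

/-- `T` is convex-cyclic: for some vector `x` the convex hull of the orbit `{Tⁿ x : n ≥ 0}` is
dense. -/
def ConvexCyclic {𝕜 : Type} [RCLike 𝕜] {X : Type u} [NormedAddCommGroup X] [NormedSpace ℝ X]
    [NormedSpace 𝕜 X] (T : X →L[𝕜] X) : Prop :=
  ∃ x : X, Dense (convexHull ℝ (Set.range (fun n : ℕ => (T ^ n) x)))

end Q100.CC
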