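import Pool.Agent.Q100.CapDefs
import Pool.Agent.Q100.BLLift

set_option autoImplicit false
open Filter Topology

namespace Q100.Cap

open Q100.BL

universe u v

variable {E : Type u} [NormedAddCommGroup E] [NormedSpace ℝ E] [Lattice E] [IsBanachLattice E]

/-- positive functionals -/
def Pos (g : E →L[ℝ] ℝ) : Prop := ∀ x : E, 0 ≤ x → 0 ≤ g x

/-- strict positivity on an order interval -/
def StrictOn (g : E →L[ℝ] ℝ) (w : E) : Prop := ∀ z : E, 0 ≤ z → z ≤ w → g z = 0 → z = 0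

lemma exists_pos_functional {z : E} (hz : 0 ≤ z) (hz0 : z ≠ 0) :
    ∃ g : E →L[ℝ] ℝ, Pos g ∧ 0 < g z := by
  have hconv : Convex ℝ {x : E | 0 ≤ x} := by
    intro x hx y hy s t hs ht _
    exact add_nonneg (IsBanachLattice.smul_nonneg' _ _ hs hx) (IsBanachLattice.smul_nonneg' _ _ ht hy)
  have hcl : IsClosed {x : E | 0 ≤ x} := isClosed_nonneg
  have hnz : -z ∉ {x : E | 0 ≤ x} := by
    intro h
    have h1 : z ≤ 0 := neg_nonneg.mp h
    exact hz0 (le_antisymm h1 hz)
  obtain ⟨f, u, hf1, hf2⟩ := geometric_hahn_banach_closed_point hconv hcl hnz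
  have hu : 0 < u := by
    have := hf1 0 (le_refl (0 : E))
    simpa using this
  have hneg : ∀ x : E, 0 ≤ x → f x ≤ 0 := by
    intro x hx
    by_contra h
    push Not at h
    have h1 := hf1 ((u / f x) • x) (IsBanachLattice.smul_nonneg' _ _ (by positivity) hx)
    rw [map_smul, smul_eq_mul, div_mul_cancel₀ _ h.ne'] at h1
    exact lt_irrefl _ h1
  refine ⟨-f, fun x hx => ?_, ?_⟩
  · show 0 ≤ -(f x)
    have := hneg x hx
    linarith
  · show 0 < -(f z)
    rw [map_neg] at hf2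
    linarith

lemma Pos.mono {g : E →L[ℝ] ℝ} (hg : Pos g) {a b : E} (h : a ≤ b) : g a ≤ g b := by
  have := hg (b - a) (sub_nonneg.mpr h)
  rw [map_sub] at this
  linarith

/-- a directed set in an order interval has a largest element of its closure; version for the
null ideal of a positive functional -/
lemma exists_sup_null (hE : OrderContinuousNorm E) {g : E →L[ℝ] ℝ} (hg : Pos g) (z : E)
    (hz : 0 ≤ z) : ∃ n : E, 0 ≤ n ∧ n ≤ z ∧ g n = 0 ∧ ∀ v : E, 0 ≤ v → v ≤ z → g v = 0 → v ≤ n := by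
  set N : Set E := {v | 0 ≤ v ∧ v ≤ z ∧ g v = 0} with hN
  have h0N : (0 : E) ∈ N := ⟨le_rfl, hz, map_zero g⟩
  have hsup : ∀ a ∈ N, ∀ b ∈ N, a ⊔ b ∈ N := by
    intro a ha b hb
    refine ⟨ha.1.trans le_sup_left, sup_le ha.2.1 hb.2.1, ?_⟩
    apply le_antisymm
    · have h1 : a ⊔ b ≤ a + b := sup_le (le_add_of_nonneg_right hb.1) (le_add_of_nonneg_left ha.1)
      have h2 := hg.mono h1
      rw [map_add, ha.2.2, hb.2.2, add_zero] at h2
      exact h2
    · exact hg _ (ha.1.trans le_sup_left)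
  -- near maximal elements above any element
  have key : ∀ ε : ℝ, 0 < ε → ∀ a ∈ N, ∃ b ∈ N, a ≤ b ∧ ∀ c ∈ N, b ≤ c → ‖c - b‖ ≤ ε := by
    intro ε hε a ha
    by_contra hcon
    push Not at hcon
    -- build an increasing sequence with large steps
    have hstep : ∀ b : {b // b ∈ N ∧ a ≤ b}, ∃ c : {b // b ∈ N ∧ a ≤ b}, b.1 ≤ c.1 ∧ ε < ‖c.1 - b.1‖ := by
      rintro ⟨b, hb, hab⟩
      obtain ⟨c, hc, hbc, hcb⟩ := hcon b hb hab
      exact ⟨⟨c, hc, hab.trans hbc⟩, hbc, hcb⟩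
    choose nx hnx1 hnx2 using hstep
    let s : ℕ → {b // b ∈ N ∧ a ≤ b} := fun n => Nat.rec ⟨a, ha, le_rfl⟩ (fun _ b => nx b) n
    have hs : ∀ n, s (n + 1) = nx (s n) := fun n => rfl
    have hmono : Monotone (fun n => (s n).1) := monotone_nat_of_le_succ (fun n => by
      rw [hs]; exact hnx1 (s n))
    obtain ⟨l, hl⟩ := hE (fun n => (s n).1) (Or.inl hmono) ⟨0, z, fun n => ⟨(s n).2.1.1, (s n).2.1.2.1⟩⟩
    have h1 : Tendsto (fun n => ‖(s (n + 1)).1 - (s n).1‖) atTop (𝓝 ‖l - l‖) :=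
      ((hl.comp (tendsto_add_atTop_nat 1)).sub hl).norm
    rw [sub_self, norm_zero] at h1
    have h2 : ε ≤ 0 := ge_of_tendsto' h1 (fun n => by rw [hs]; exact (hnx2 (s n)).le)
    linarith
  have hstep : ∀ (k : ℕ) (a : {b // b ∈ N}), ∃ b : {b // b ∈ N}, a.1 ≤ b.1 ∧
      ∀ c ∈ N, b.1 ≤ c → ‖c - b.1‖ ≤ 1 / ((k : ℝ) + 1) := by
    rintro k ⟨a, ha⟩
    obtain ⟨b, hb, hab, h⟩ := key (1 / ((k : ℝ) + 1)) (by positivity) a ha
    exact ⟨⟨b, hb⟩, hab, h⟩
  choose nx hnx1 hnx2 using hstep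
  let s : ℕ → {b // b ∈ N} := fun n => Nat.rec ⟨0, h0N⟩ (fun k b => nx k b) n
  have hs : ∀ n, s (n + 1) = nx n (s n) := fun n => rfl
  have hmono : Monotone (fun n => (s n).1) := monotone_nat_of_le_succ (fun n => by
    rw [hs]; exact hnx1 n (s n))
  obtain ⟨l, hl⟩ := hE (fun n => (s n).1) (Or.inl hmono) ⟨0, z, fun n => ⟨(s n).2.1, (s n).2.2.1⟩⟩
  have hl0 : 0 ≤ l := ge_of_tendsto' hl (fun n => (s n).2.1)
  have hlz : l ≤ z := le_of_tendsto' hl (fun n => (s n).2.2.1)
  have hgl : g l = 0 := by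
    have h1 : Tendsto (fun n => g (s n).1) atTop (𝓝 (g l)) := (g.continuous.tendsto l).comp hl
    have h2 : (fun n => g (s n).1) = fun _ => (0 : ℝ) := funext (fun n => (s n).2.2.2)
    rw [h2] at h1
    exact (tendsto_nhds_unique h1 tendsto_const_nhds)
  refine ⟨l, hl0, hlz, hgl, fun v hv0 hvz hgv => ?_⟩
  have hvN : v ∈ N := ⟨hv0, hvz, hgv⟩
  have h1 : ∀ n : ℕ, ‖v ⊔ (s (n + 1)).1 - (s (n + 1)).1‖ ≤ 1 / ((n : ℝ) + 1) := by
    intro n
    have h2 := hnx2 n (s n) (v ⊔ (nx n (s n)).1) (hsup v hvN _ (nx n (s n)).2) le_sup_right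
    rw [hs]
    exact h2
  have h2 : Tendsto (fun n : ℕ => ‖v ⊔ (s (n + 1)).1 - (s (n + 1)).1‖) atTop (𝓝 ‖v ⊔ l - l‖) := by
    have h3 := hl.comp (tendsto_add_atTop_nat 1)
    exact (((tendsto_const_nhds (x := v)).sup_nhds h3).sub h3).norm
  have h3 : ‖v ⊔ l - l‖ ≤ 0 :=
    le_of_tendsto_of_tendsto' h2 tendsto_one_div_add_atTop_nhds_zero_nat h1
  have h4 : v ⊔ l = l := sub_eq_zero.mp (norm_eq_zero.mp (le_antisymm h3 (norm_nonneg _)))
  exact h4 ▸ le_sup_left

/-- below every nonzero positive element there is a nonzero element on whose order interval some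
positive functional is strictly positive -/
lemma exists_good (hE : OrderContinuousNorm E) {z : E} (hz : 0 ≤ z) (hz0 : z ≠ 0) :
    ∃ w : E, 0 ≤ w ∧ w ≠ 0 ∧ w ≤ z ∧ ∃ g : E →L[ℝ] ℝ, Pos g ∧ StrictOn g w := by
  obtain ⟨g, hg, hgz⟩ := exists_pos_functional hz hz0
  obtain ⟨n, hn0, hnz, hgn, hn⟩ := exists_sup_null hE hg z hz
  refine ⟨z - n, sub_nonneg.mpr hnz, ?_, sub_le_self z hn0, g, hg, ?_⟩
  · intro h
    rw [sub_eq_zero.mp h] at hgz
    linarith
  · intro v hv0 hvw hgv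
    have h1 : v + n ≤ z := by
      have := add_le_add_left hvw n
      rwa [sub_add_cancel] at this
    have h2 := hn (v + n) (add_nonneg hv0 hn0) h1 (by rw [map_add, hgv, hgn, add_zero])
    have h3 : v ≤ 0 := by
      have := sub_le_sub_right h2 n
      rwa [add_sub_cancel_right, sub_self] at this
    exact le_antisymm h3 hv0

lemma disj_family_sum_le {u : E} (w : ℕ → E) (hw0 : ∀ n, 0 ≤ w n) (hwu : ∀ n, w n ≤ u)
    (hd : ∀ n m, n ≠ m → w n ⊓ w m = 0) (N : ℕ) : ∑ i ∈ Finset.range N, w i ≤ u := by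
  induction N with
  | zero => simpa using (hw0 0).trans (hwu 0)
  | succ N ih =>
    rw [Finset.sum_range_succ]
    have h1 : w N ⊓ (∑ i ∈ Finset.range N, w i) = 0 :=
      disj_sum _ _ _ (hw0 N) (fun i _ => hw0 i) (fun i hi => hd N i (by
        have := Finset.mem_range.mp hi; omega))
    have h2 : (∑ i ∈ Finset.range N, w i) + w N = (∑ i ∈ Finset.range N, w i) ⊔ w N := by
      rw [← inf_add_sup, inf_comm, h1, zero_add]
    rw [h2]
    exact sup_le ih (hwu N)

/-- In a Banach lattice with order continuous norm every order interval `[0,u]` carries a strictly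
positive functional. -/
theorem exists_strictly_positive (hE : OrderContinuousNorm E) {u : E} (hu : 0 ≤ u) :
    ∃ g : E →L[ℝ] ℝ, Pos g ∧ StrictOn g u := by
  classical
  -- maximal disjoint families of good elements
  let P : Set (Set E) := {M | (∀ w ∈ M, 0 ≤ w ∧ w ≠ 0 ∧ w ≤ u ∧ ∃ g : E →L[ℝ] ℝ, Pos g ∧ StrictOn g w)
    ∧ ∀ w ∈ M, ∀ w' ∈ M, w ≠ w' → w ⊓ w' = 0}
  obtain ⟨M, hM⟩ := zorn_subset P (by
    intro c hc hchain
    refine ⟨⋃₀ c, ⟨?_, ?_⟩, fun s hs => Set.subset_sUnion_of_mem hs⟩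
    · rintro w ⟨s, hs, hw⟩
      exact (hc hs).1 w hw
    · rintro w ⟨s, hs, hw⟩ w' ⟨s', hs', hw'⟩ hne
      rcases hchain.total hs hs' with h | h
      · exact (hc hs').2 w (h hw) w' hw' hne
      · exact (hc hs).2 w hw w' (h hw') hne)
  have hMP : M ∈ P := hM.prop
  -- finiteness of the large members
  have hfin : ∀ ε : ℝ, 0 < ε → {w ∈ M | ε < ‖w‖}.Finite := by
    intro ε hε
    by_contra hinf
    have hinf' : {w ∈ M | ε < ‖w‖}.Infinite := hinf
    let e := hinf'.natEmbedding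
    set w : ℕ → E := fun n => (e n : E) with hw
    have hwM : ∀ n, w n ∈ M ∧ ε < ‖w n‖ := fun n => (e n).2
    have hinj : ∀ n m, n ≠ m → w n ≠ w m := fun n m h h' => h (e.injective (Subtype.ext h'))
    have hd : ∀ n m, n ≠ m → w n ⊓ w m = 0 := fun n m h =>
      hMP.2 _ (hwM n).1 _ (hwM m).1 (hinj n m h)
    have hw0 : ∀ n, 0 ≤ w n := fun n => (hMP.1 _ (hwM n).1).1
    have hwu : ∀ n, w n ≤ u := fun n => (hMP.1 _ (hwM n).1).2.2.1
    have hs := disj_family_sum_le w hw0 hwu hd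
    obtain ⟨l, hl⟩ := hE (fun N => ∑ i ∈ Finset.range N, w i)
      (Or.inl (monotone_nat_of_le_succ (fun N => by
        rw [Finset.sum_range_succ]; exact le_add_of_nonneg_right (hw0 N))))
      ⟨0, u, fun N => ⟨Finset.sum_nonneg (fun i _ => hw0 i), hs N⟩⟩
    have h1 : Tendsto (fun N => ‖(∑ i ∈ Finset.range (N + 1), w i) - ∑ i ∈ Finset.range N, w i‖)
        atTop (𝓝 ‖l - l‖) := ((hl.comp (tendsto_add_atTop_nat 1)).sub hl).norm
    rw [sub_self, norm_zero] at h1
    have h2 : ε ≤ 0 := ge_of_tendsto' h1 (fun N => by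
      rw [Finset.sum_range_succ, add_sub_cancel_left]; exact (hwM N).2.le)
    linarith
  have hcount : M.Countable := by
    have h1 : M ⊆ ⋃ k : ℕ, {w ∈ M | 1 / ((k : ℝ) + 1) < ‖w‖} := by
      intro w hw
      have h2 : 0 < ‖w‖ := norm_pos_iff.mpr (hMP.1 w hw).2.1
      obtain ⟨k, hk⟩ := exists_nat_one_div_lt h2
      exact Set.mem_iUnion.mpr ⟨k, hw, hk⟩
    exact (Set.countable_iUnion (fun k : ℕ => (hfin (1 / ((k : ℝ) + 1)) (by positivity)).countable)).mono h1
  -- the functional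
  have hch : ∀ w : M, ∃ g : E →L[ℝ] ℝ, Pos g ∧ StrictOn g (w : E) := fun w => (hMP.1 w.1 w.2).2.2.2
  choose G hG1 hG2 using hch
  haveI : Countable M := hcount.to_subtype
  obtain ⟨ι, hι⟩ := Countable.exists_injective_nat M
  set c : M → ℝ := fun w => (1 / 2) ^ (ι w) / (1 + ‖G w‖) with hc
  have hcpos : ∀ w, 0 < c w := fun w => by rw [hc]; positivity
  have hgs : Summable (fun w : M => c w • G w) := by
    refine Summable.of_norm_bounded (g := fun w : M => (1 / 2 : ℝ) ^ (ι w))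
      (summable_geometric_two.comp_injective hι) (fun w => ?_)
    rw [norm_smul, Real.norm_eq_abs, abs_of_pos (hcpos w)]
    simp only [hc]
    rw [div_mul_eq_mul_div, div_le_iff₀ (by positivity)]
    have h2 : (0 : ℝ) < (1 / 2) ^ (ι w) := by positivity
    nlinarith [norm_nonneg (G w)]
  set g : E →L[ℝ] ℝ := ∑' w : M, c w • G w with hg
  have hgv : ∀ v : E, HasSum (fun w : M => c w * G w v) (g v) := by
    intro v
    exact (hgs.hasSum).mapL (ContinuousLinearMap.apply ℝ ℝ v)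
  refine ⟨g, ?_, ?_⟩
  · intro x hx
    exact (hgv x).nonneg (fun w => mul_nonneg (hcpos w).le (hG1 w x hx))
  · intro z hz0 hzu hgz
    by_contra hzne
    -- all terms vanish
    have hterm : ∀ w : M, G w z = 0 := by
      intro w
      have h1 := (hgv z)
      rw [hgz] at h1
      have h2 := (hasSum_zero_iff_of_nonneg (fun w => mul_nonneg (hcpos w).le (hG1 w z hz0))).mp h1
      have h3 := congrFun h2 w
      exact (mul_eq_zero.mp h3).resolve_left (hcpos w).ne'
    have hdisj : ∀ w ∈ M, z ⊓ w = 0 := by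
      intro w hw
      have hw0 := (hMP.1 w hw).1
      have h1 : 0 ≤ z ⊓ w := le_inf hz0 hw0
      refine hG2 ⟨w, hw⟩ (z ⊓ w) h1 inf_le_right (le_antisymm ?_ (hG1 _ _ h1))
      rw [← hterm ⟨w, hw⟩]
      exact (hG1 ⟨w, hw⟩).mono inf_le_left
    obtain ⟨w', hw'0, hw'ne, hw'z, hw'g⟩ := exists_good hE hz0 hzne
    have hw'M : w' ∉ M := by
      intro h
      have h1 := hdisj w' h
      rw [inf_eq_right.mpr hw'z] at h1
      exact hw'ne h1
    have hnew : insert w' M ∈ P := by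
      constructor
      · rintro w (rfl | hw)
        · exact ⟨hw'0, hw'ne, hw'z.trans hzu, hw'g⟩
        · exact hMP.1 w hw
      · rintro w (rfl | hw) v (rfl | hv) hne
        · exact absurd rfl hne
        · exact disj_mono hw'0 (hMP.1 v hv).1 hw'z le_rfl (hdisj v hv)
        · rw [inf_comm]
          exact disj_mono hw'0 (hMP.1 w hw).1 hw'z le_rfl (hdisj w hw)
        · exact hMP.2 w hw v hv hne
    exact hw'M (hM.le_of_ge hnew (Set.subset_insert _ _) (Set.mem_insert _ _))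

/-- the control functional -/
theorem exists_control (hE : OrderContinuousNorm E) {Ω : Type v} [MeasurableSpace Ω]
    {μ : Set Ω → E} (hμ : IsCapacity μ) (hc : UpperContinuous μ) :
    ∃ g : E →L[ℝ] ℝ, Pos g ∧ AbsCont μ (fun A => g (μ A)) := by
  have hμ0 : ∀ A, MeasurableSet A → 0 ≤ μ A := fun A hA => by
    rw [← hμ.empty]; exact hμ.mono _ _ MeasurableSet.empty hA (Set.empty_subset _)
  obtain ⟨g, hg, hgs⟩ := exists_strictly_positive hE (hμ0 Set.univ MeasurableSet.univ)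
  refine ⟨g, hg, ?_⟩
  intro ε hε
  by_contra hcon
  push Not at hcon
  have hex : ∀ n : ℕ, ∃ A : Set Ω, MeasurableSet A ∧ g (μ A) < (1 / 2) ^ n ∧ ε ≤ ‖μ A‖ :=
    fun n => hcon ((1 / 2) ^ n) (by positivity)
  choose A hA1 hA2 hA3 using hex
  set B : ℕ → Set Ω := fun n => ⋃ k : ℕ, A (n + k) with hB
  have hBm : ∀ n, MeasurableSet (B n) := fun n => MeasurableSet.iUnion (fun k => hA1 _)
  have hBanti : Antitone B := by
    refine antitone_nat_of_succ_le (fun n => ?_)
    refine Set.iUnion_subset (fun k => ?_)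
    have h1 : n + 1 + k = n + (k + 1) := by ring
    rw [h1]
    exact Set.subset_iUnion (fun k => A (n + k)) (k + 1)
  have hAB : ∀ n, A n ⊆ B n := fun n => Set.subset_iUnion (fun k => A (n + k)) 0
  have hBinf : MeasurableSet (⋂ n, B n) := MeasurableSet.iInter hBm
  set v : E := μ (⋂ n, B n) with hv
  have hlim : Tendsto (fun n => μ (B n)) atTop (𝓝 v) := hc B hBm hBanti
  have hvB : ∀ n, v ≤ μ (B n) := fun n => hμ.mono _ _ hBinf (hBm n) (Set.iInter_subset B n)
  have hv0 : 0 ≤ v := hμ0 _ hBinf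
  have hvu : v ≤ μ Set.univ := hμ.mono _ _ hBinf MeasurableSet.univ (Set.subset_univ _)
  set w : ℕ → E := fun n => μ (A n) ⊓ v with hw
  have hw0 : ∀ n, 0 ≤ w n := fun n => le_inf (hμ0 _ (hA1 n)) hv0
  have hwv : ∀ n, w n ≤ v := fun n => inf_le_right
  have hwA : ∀ n, ‖μ (A n) - w n‖ ≤ ‖μ (B n) - v‖ := by
    intro n
    refine HasSolidNorm.solid ?_
    rw [abs_of_nonneg (sub_nonneg.mpr inf_le_left), abs_of_nonneg (sub_nonneg.mpr (hvB n))]
    have h1 : μ (A n) - w n = (μ (A n) - v) ⊔ 0 := by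
      have h2 : μ (A n) ⊓ v + μ (A n) ⊔ v = μ (A n) + v := inf_add_sup _ _
      have h3 : (μ (A n) - v) ⊔ 0 = μ (A n) ⊔ v - v := by rw [sup_sub, sub_self]
      rw [h3]
      have h4 : μ (A n) - μ (A n) ⊓ v - (μ (A n) ⊔ v - v) = μ (A n) + v - (μ (A n) ⊓ v + μ (A n) ⊔ v) := by
        abel
      rw [← h2, sub_self] at h4
      exact sub_eq_zero.mp h4
    rw [h1]
    refine sup_le (sub_le_sub_right (hμ.mono _ _ (hA1 n) (hBm n) (hAB n)) v) (sub_nonneg.mpr (hvB n))
  have hnormw : ∀ᶠ n in atTop, ε / 2 ≤ ‖w n‖ := by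
    have h1 : Tendsto (fun n => ‖μ (B n) - v‖) atTop (𝓝 0) := by
      rw [← tendsto_iff_norm_sub_tendsto_zero]; exact hlim
    filter_upwards [h1.eventually (gt_mem_nhds (show 0 < ε / 2 by positivity))] with n hn
    have h2 := hA3 n
    have h3 : ‖μ (A n)‖ ≤ ‖μ (A n) - w n‖ + ‖w n‖ := by
      have := norm_add_le (μ (A n) - w n) (w n)
      rwa [sub_add_cancel] at this
    have h4 := hwA n
    linarith
  have hgw : ∀ n, g (w n) ≤ (1 / 2) ^ n := fun n => (hg.mono inf_le_left).trans (hA2 n).le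
  -- partial suprema
  set T : ℕ → ℕ → E := fun m j => Nat.rec (w m) (fun k t => t ⊔ w (m + (k + 1))) j with hT
  have hT0 : ∀ m, T m 0 = w m := fun m => rfl
  have hTs : ∀ m j, T m (j + 1) = T m j ⊔ w (m + (j + 1)) := fun m j => rfl
  have hTv : ∀ m j, T m j ≤ v := by
    intro m j
    induction j with
    | zero => exact hwv m
    | succ j ih => rw [hTs]; exact sup_le ih (hwv _)
  have hTmono : ∀ m, Monotone (T m) := fun m => monotone_nat_of_le_succ (fun j => by
    rw [hTs]; exact le_sup_left)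
  have hTw : ∀ m j, w (m + j) ≤ T m j := by
    intro m j
    cases j with
    | zero => exact le_rfl
    | succ j => rw [hTs]; exact le_sup_right
  have hTle : ∀ m j k, j ≤ k → w (m + j) ≤ T m k := fun m j k h => (hTw m j).trans (hTmono m h)
  have hT00 : ∀ m j, 0 ≤ T m j := fun m j => (hw0 m).trans (by
    have := hTmono m (Nat.zero_le j)
    exact this)
  have hTg : ∀ m j, g (T m j) ≤ 2 * (1 / 2) ^ m - (1 / 2) ^ (m + j) := by
    intro m j
    induction j with
    | zero =>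
      rw [hT0, add_zero]
      have := hgw m
      linarith
    | succ j ih =>
      rw [hTs]
      have h1 : T m j ⊔ w (m + (j + 1)) ≤ T m j + w (m + (j + 1)) :=
        sup_le (le_add_of_nonneg_right (hw0 _)) (le_add_of_nonneg_left (hT00 m j))
      have h2 := hg.mono h1
      rw [map_add] at h2
      have h3 := hgw (m + (j + 1))
      have h4 : ((1 : ℝ) / 2) ^ (m + j) = 2 * (1 / 2) ^ (m + (j + 1)) := by
        rw [← add_assoc, pow_succ]; ring
      linarith
  have hzex : ∀ m, ∃ z, Tendsto (T m) atTop (𝓝 z) := fun m =>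
    hE (T m) (Or.inl (hTmono m)) ⟨0, v, fun j => ⟨hT00 m j, hTv m j⟩⟩
  choose z hz using hzex
  have hzw : ∀ m, w m ≤ z m := fun m => ge_of_tendsto' (hz m) (fun j => by
    have := hTmono m (Nat.zero_le j)
    exact this)
  have hzv : ∀ m, z m ≤ v := fun m => le_of_tendsto' (hz m) (hTv m)
  have hz0 : ∀ m, 0 ≤ z m := fun m => (hw0 m).trans (hzw m)
  have hzanti : Antitone z := by
    refine antitone_nat_of_succ_le (fun m => ?_)
    have h1 : ∀ j, T (m + 1) j ≤ T m (j + 1) := by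
      intro j
      induction j with
      | zero =>
        rw [hT0, hTs]
        exact le_sup_right
      | succ j ih =>
        rw [hTs, hTs m (j + 1)]
        refine sup_le_sup ih (le_of_eq ?_)
        congr 1
        ring
    exact le_of_tendsto_of_tendsto' (hz (m + 1)) ((hz m).comp (tendsto_add_atTop_nat 1)) h1
  have hgz : ∀ m, g (z m) ≤ 2 * (1 / 2) ^ m := by
    intro m
    have h1 : Tendsto (fun j => g (T m j)) atTop (𝓝 (g (z m))) := (g.continuous.tendsto _).comp (hz m)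
    refine le_of_tendsto' h1 (fun j => ?_)
    have := hTg m j
    have h2 : (0 : ℝ) < (1 / 2) ^ (m + j) := by positivity
    linarith
  obtain ⟨l, hl⟩ := hE z (Or.inr hzanti) ⟨0, v, fun m => ⟨hz0 m, hzv m⟩⟩
  have hl0 : 0 ≤ l := ge_of_tendsto' hl hz0
  have hlv : l ≤ v := le_of_tendsto' hl hzv
  have hgl : g l = 0 := by
    apply le_antisymm
    · have h1 : Tendsto (fun m => g (z m)) atTop (𝓝 (g l)) := (g.continuous.tendsto _).comp hl
      have h2 : Tendsto (fun m : ℕ => 2 * ((1 : ℝ) / 2) ^ m) atTop (𝓝 (2 * 0)) :=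
        (tendsto_pow_atTop_nhds_zero_of_lt_one (by norm_num) (by norm_num)).const_mul 2
      rw [mul_zero] at h2
      exact le_of_tendsto_of_tendsto' h1 h2 hgz
    · exact hg l hl0
  have hlz : l = 0 := hgs l hl0 (hlv.trans hvu) hgl
  rw [hlz] at hl
  have h1 : Tendsto (fun m => ‖z m‖) atTop (𝓝 0) := by simpa using hl.norm
  have h2 : ∀ᶠ m in atTop, ε / 2 ≤ ‖z m‖ := by
    filter_upwards [hnormw] with m hm
    refine hm.trans (HasSolidNorm.solid ?_)
    rw [abs_of_nonneg (hw0 m), abs_of_nonneg (hz0 m)]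
    exact hzw m
  have h3 : ε / 2 ≤ 0 := ge_of_tendsto h1 h2
  linarith

end Q100.Cap
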