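import Pool.Agent.Q100.BL

set_option autoImplicit false
open Filter Topology

namespace Q100.Cap

open Q100.BL

universe u v

/-- Order continuity of the norm: every monotone, order bounded sequence converges in norm. -/
def OrderContinuousNorm (E : Type u) [NormedAddCommGroup E] [Lattice E] : Prop :=
  ∀ x : ℕ → E, (Monotone x ∨ Antitone x) → (∃ a b : E, ∀ n, a ≤ x n ∧ x n ≤ b) →
    ∃ l : E, Tendsto x atTop (𝓝 l)

/-- Capacities on a `σ`-algebra with values in an ordered space `E`: `μ ∅ = 0` and `μ` is monotone
on measurable sets (so that all its values are positive). For `E = ℝ` these are the capacities and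
for a Banach lattice `E` the vector capacities of the problem file. -/
structure IsCapacity {Ω : Type v} [MeasurableSpace Ω] {E : Type u} [Zero E] [LE E]
    (μ : Set Ω → E) : Prop where
  empty : μ ∅ = 0
  mono : ∀ A B : Set Ω, MeasurableSet A → MeasurableSet B → A ⊆ B → μ A ≤ μ B

/-- Upper continuity: `μ (A n) → μ (⋂ n, A n)` in norm for nonincreasing sequences of measurable
sets. -/
def UpperContinuous {Ω : Type v} [MeasurableSpace Ω] {E : Type u} [NormedAddCommGroup E]
    (μ : Set Ω → E) : Prop :=
  ∀ A : ℕ → Set Ω, (∀ n, MeasurableSet (A n)) → Antitone A →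
    Tendsto (fun n => μ (A n)) atTop (𝓝 (μ (⋂ n, A n)))

/-- Absolute continuity of `μ` with respect to the real valued set function `ν`. -/
def AbsCont {Ω : Type v} [MeasurableSpace Ω] {E : Type u} [NormedAddCommGroup E]
    (μ : Set Ω → E) (ν : Set Ω → ℝ) : Prop :=
  ∀ ε : ℝ, 0 < ε → ∃ δ : ℝ, 0 < δ ∧ ∀ A : Set Ω, MeasurableSet A → ν A < δ → ‖μ A‖ < ε

end Q100.Cap
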