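import Pool.Agent.Q100.CoeDefs

/-!
# Nuclear coechelon spaces: ergodic shifts are sequentially hypercyclic
-/

set_option autoImplicit false
open Filter Topology
open scoped ENNReal NNReal

noncomputable section

namespace Q100.Coe

universe u

section Norms

variable {𝕜 : Type u} [RCLike 𝕜] {q : ℝ≥0∞} [hq : Fact (1 ≤ q)]

theorem nq_eq {u : ℕ → 𝕜} (h : Memℓp u q) :
    nq q u = ‖(⟨u, h⟩ : lp (fun _ : ℕ => 𝕜) q)‖ := dif_pos h

theorem nq_nonneg (u : ℕ → 𝕜) : 0 ≤ nq q u := by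
  unfold nq
  split_ifs
  · exact norm_nonneg _
  · exact le_rfl

theorem nq_add_le {u w : ℕ → 𝕜} (hu : Memℓp u q) (hw : Memℓp w q) :
    nq q (u + w) ≤ nq q u + nq q w := by
  rw [nq_eq hu, nq_eq hw, nq_eq (hu.add hw)]
  exact norm_add_le (⟨u, hu⟩ : lp (fun _ : ℕ => 𝕜) q) ⟨w, hw⟩

theorem q_ne_zero : q ≠ 0 := (zero_lt_one.trans_le hq.out).ne'

theorem nq_mono {u w : ℕ → 𝕜} (hw : Memℓp w q) (h : ∀ j, ‖u j‖ ≤ ‖w j‖) : nq q u ≤ nq q w := by
  have hu : Memℓp u q := hw.mono' h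
  rw [nq_eq hu, nq_eq hw]
  exact lp.norm_mono q_ne_zero h

theorem le_nq {u : ℕ → 𝕜} (hu : Memℓp u q) (j : ℕ) : ‖u j‖ ≤ nq q u := by
  rw [nq_eq hu]
  exact lp.norm_apply_le_norm q_ne_zero (⟨u, hu⟩ : lp (fun _ : ℕ => 𝕜) q) j

theorem nq_smul {u : ℕ → 𝕜} (hu : Memℓp u q) (c : 𝕜) : nq q (c • u) = ‖c‖ * nq q u := by
  rw [nq_eq hu, nq_eq (hu.const_smul c)]
  exact norm_smul c (⟨u, hu⟩ : lp (fun _ : ℕ => 𝕜) q)

theorem memℓp_of_summable {u : ℕ → 𝕜} (h : Summable fun j => ‖u j‖) : Memℓp u q := by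
  refine Memℓp.of_exponent_ge (memℓp_gen (p := 1) ?_) hq.out
  simpa using h

theorem nq_le_tsum {u : ℕ → 𝕜} (h : Summable fun j => ‖u j‖) : nq q u ≤ ∑' j, ‖u j‖ := by
  have hu : Memℓp u q := memℓp_of_summable h
  have hS : ∀ j, ‖u j‖ ≤ ∑' j, ‖u j‖ := fun j => h.le_tsum j (fun _ _ => norm_nonneg _)
  have hS0 : 0 ≤ ∑' j, ‖u j‖ := tsum_nonneg fun _ => norm_nonneg _
  rw [nq_eq hu]
  by_cases htop : q = ∞
  · subst htop
    exact lp.norm_le_of_forall_le hS0 hS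
  · have hq1 : 1 ≤ q.toReal := by
      rw [← ENNReal.toReal_one]
      exact ENNReal.toReal_mono htop hq.out
    refine lp.norm_le_of_forall_sum_le (by linarith) hS0 (fun s => ?_)
    set S := ∑' j, ‖u j‖ with hSdef
    rcases hS0.eq_or_lt with h0 | h0
    · have hz : ∀ j, ‖u j‖ = 0 := fun j => le_antisymm ((hS j).trans h0.symm.le) (norm_nonneg _)
      rw [← h0, Real.zero_rpow (by linarith)]
      refine (Finset.sum_nonpos fun i _ => ?_)
      show ‖u i‖ ^ q.toReal ≤ 0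
      rw [hz, Real.zero_rpow (by linarith)]
    · calc ∑ i ∈ s, ‖u i‖ ^ q.toReal ≤ ∑ i ∈ s, ‖u i‖ * S ^ (q.toReal - 1) := by
            refine Finset.sum_le_sum fun i _ => ?_
            have h1 : ‖u i‖ ^ q.toReal = ‖u i‖ * ‖u i‖ ^ (q.toReal - 1) := by
              rcases (norm_nonneg (u i)).eq_or_lt with h2 | h2
              · rw [← h2, Real.zero_rpow (by linarith), zero_mul]
              · rw [Real.rpow_sub_one h2.ne']; field_simp
            rw [h1]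
            exact mul_le_mul_of_nonneg_left
              (Real.rpow_le_rpow (norm_nonneg _) (hS i) (by linarith)) (norm_nonneg _)
        _ = (∑ i ∈ s, ‖u i‖) * S ^ (q.toReal - 1) := by rw [Finset.sum_mul]
        _ ≤ S * S ^ (q.toReal - 1) :=
            mul_le_mul_of_nonneg_right (h.sum_le_tsum _ (fun _ _ => norm_nonneg _))
              (Real.rpow_nonneg h0.le _)
        _ = S ^ q.toReal := by rw [Real.rpow_sub_one h0.ne']; field_simp

end Norms

section Basics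

variable {𝕜 : Type u} [RCLike 𝕜] {q : ℝ≥0∞} [hq : Fact (1 ≤ q)] {V : Weights}

theorem norm_wm (v : ℕ → ℝ) (hv : ∀ j, 0 ≤ v j) (x : ℕ → 𝕜) (j : ℕ) :
    ‖wm v x j‖ = v j * ‖x j‖ := by
  rw [wm, norm_mul, RCLike.norm_ofReal, abs_of_nonneg (hv j)]

theorem wm_add (v : ℕ → ℝ) (x y : ℕ → 𝕜) : wm v (x + y) = wm v x + wm v y := by
  funext j; simp [wm, mul_add]

theorem wm_smul (v : ℕ → ℝ) (c : 𝕜) (x : ℕ → 𝕜) : wm v (c • x) = c • wm v x := by
  funext j; simp [wm]; ring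

/-- Sequences with summable weighted entries belong to the step. -/
theorem memStep_of_summable {v : ℕ → ℝ} {x : ℕ → 𝕜} (h : Summable fun j => ‖wm v x j‖) :
    MemStep q v x :=
  ⟨memℓp_of_summable h, tendsto_zero_iff_norm_tendsto_zero.2 h.tendsto_atTop_zero⟩

/-- Elements of the space from sequences. -/
def mkK (x : ℕ → 𝕜) (hx : x ∈ coechelon 𝕜 q V) : Koe 𝕜 q V := (⟨x, hx⟩ : ↥(coechelon 𝕜 q V))

@[simp] theorem seq_mkK (x : ℕ → 𝕜) (hx : x ∈ coechelon 𝕜 q V) : (mkK x hx).seq = x := rfl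

theorem seq_add (x y : Koe 𝕜 q V) : (x + y).seq = x.seq + y.seq := rfl
theorem seq_sub (x y : Koe 𝕜 q V) : (x - y).seq = x.seq - y.seq := rfl
theorem seq_smul (c : 𝕜) (x : Koe 𝕜 q V) : (c • x).seq = c • x.seq := rfl
theorem seq_zero : (0 : Koe 𝕜 q V).seq = 0 := rfl

theorem seq_ext {x y : Koe 𝕜 q V} (h : x.seq = y.seq) : x = y :=
  Subtype.ext (p := fun x => x ∈ coechelon 𝕜 q V) h

theorem seq_mem (x : Koe 𝕜 q V) : ∃ m, MemStep q (V.v m) x.seq :=
  (show ↥(coechelon 𝕜 q V) from x).2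

theorem seq_sum {ι : Type*} (s : Finset ι) (f : ι → Koe 𝕜 q V) :
    (∑ i ∈ s, f i).seq = ∑ i ∈ s, (f i).seq :=
  map_sum ({ toFun := Koe.seq, map_zero' := rfl, map_add' := fun _ _ => rfl } :
    Koe 𝕜 q V →+ (ℕ → 𝕜)) f s

/-- Continuous seminorms are continuous on the steps. -/
theorem bdd_of_continuous (P : Seminorm 𝕜 (Koe 𝕜 q V)) (hP : Continuous P) (m : ℕ) :
    ∃ C : ℝ, 0 ≤ C ∧ ∀ x : Koe 𝕜 q V, MemStep q (V.v m) x.seq →
      P x ≤ C * stepNorm q (V.v m) x.seq := by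
  obtain ⟨s, C, -, hC⟩ := Seminorm.bound_of_continuous (ws 𝕜 q V) P hP
  have h1 : ∃ D : ℝ, 0 ≤ D ∧ ∀ x : Koe 𝕜 q V, MemStep q (V.v m) x.seq →
      (s.sup (stepFamily 𝕜 q V)) x ≤ D * stepNorm q (V.v m) x.seq := by
    choose c hc using fun i : StepSeminorm 𝕜 q V => i.2 m
    refine ⟨∑ i ∈ s, |c i|, Finset.sum_nonneg fun _ _ => abs_nonneg _, fun x hx => ?_⟩
    refine Seminorm.finset_sup_apply_le (mul_nonneg (Finset.sum_nonneg fun _ _ => abs_nonneg _)
      (nq_nonneg _)) (fun i hi => ?_)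
    refine (hc i x hx).trans (mul_le_mul_of_nonneg_right ?_ (nq_nonneg _))
    exact (le_abs_self _).trans (Finset.single_le_sum (f := fun i => |c i|)
      (fun _ _ => abs_nonneg _) hi)
  obtain ⟨D, hD0, hD⟩ := h1
  refine ⟨C * D, by positivity, fun x hx => ?_⟩
  have h2 := hC x
  rw [_root_.smul_apply] at h2
  refine h2.trans ?_
  rw [mul_assoc]
  exact mul_le_mul_of_nonneg_left (hD x hx) C.2

/-- Convergence in a step implies convergence. -/
theorem tendsto_of_step (m : ℕ) (z : ℕ → Koe 𝕜 q V) (z0 : Koe 𝕜 q V)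
    (h1 : ∀ i, MemStep q (V.v m) (z i - z0).seq)
    (h2 : Tendsto (fun i => stepNorm q (V.v m) (z i - z0).seq) atTop (𝓝 0)) :
    Tendsto z atTop (𝓝 z0) := by
  rw [(ws 𝕜 q V).tendsto_nhds]
  intro P ε hε
  obtain ⟨C, hC⟩ := P.2 m
  have h3 : Tendsto (fun i => C * stepNorm q (V.v m) (z i - z0).seq) atTop (𝓝 0) := by
    have := h2.const_mul C
    rwa [mul_zero] at this
  filter_upwards [h3.eventually (gt_mem_nhds hε)] with i hi
  exact (hC _ (h1 i)).trans_lt hi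

end Basics

section Dominated

variable {𝕜 : Type u} [RCLike 𝕜] {q : ℝ≥0∞} [hq : Fact (1 ≤ q)] {V : Weights}

/-- Nonnegative weights dominated by all the weights of `V`. -/
def Dom (V : Weights) (w : ℕ → ℝ) : Prop :=
  (∀ j, 0 ≤ w j) ∧ ∀ k, ∃ C : ℝ, ∀ j, w j ≤ C * V.v k j

theorem Dom.mem {w : ℕ → ℝ} (hw : Dom V w) (x : Koe 𝕜 q V) : MemStep q w x.seq := by
  obtain ⟨k, hk⟩ := seq_mem x
  obtain ⟨C, hC⟩ := hw.2 k
  exact hk.of_le hw.1 hC

/-- The map `x ↦ (w_j x_j)_j` from the coechelon space to `ℓ_q`. -/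
def Tw (w : ℕ → ℝ) (hw : Dom V w) : Koe 𝕜 q V →ₗ[𝕜] lp (fun _ : ℕ => 𝕜) q where
  toFun x := ⟨wm w x.seq, (hw.mem x).1⟩
  map_add' x y := by
    apply lp.ext
    exact wm_add w x.seq y.seq
  map_smul' c x := by
    apply lp.ext
    exact wm_smul w c x.seq

theorem Tw_apply {w : ℕ → ℝ} (hw : Dom V w) (x : Koe 𝕜 q V) (j : ℕ) :
    (Tw w hw x : ∀ _ : ℕ, 𝕜) j = (w j : 𝕜) * x.seq j := rfl

theorem norm_Tw {w : ℕ → ℝ} (hw : Dom V w) (x : Koe 𝕜 q V) :
    ‖Tw w hw x‖ = nq q (wm w x.seq) := (nq_eq (hw.mem x).1).symm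

/-- The corresponding seminorm. -/
def Pw (w : ℕ → ℝ) (hw : Dom V w) : StepSeminorm 𝕜 q V :=
  ⟨(normSeminorm 𝕜 (lp (fun _ : ℕ => 𝕜) q)).comp (Tw w hw), fun m => by
    obtain ⟨C, hC⟩ := hw.2 m
    refine ⟨|C|, fun x hx => ?_⟩
    show ‖Tw w hw x‖ ≤ _
    rw [norm_Tw, stepNorm]
    have h1 : nq q (wm w x.seq) ≤ nq q (((|C| : ℝ) : 𝕜) • wm (V.v m) x.seq) := by
      refine nq_mono (hx.1.const_smul _) (fun j => ?_)
      rw [norm_wm w hw.1, Pi.smul_apply, norm_smul, RCLike.norm_ofReal, abs_abs,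
        norm_wm _ (fun j => (V.pos m j).le), ← mul_assoc]
      refine mul_le_mul_of_nonneg_right ((hC j).trans ?_) (norm_nonneg _)
      exact mul_le_mul_of_nonneg_right (le_abs_self _) (V.pos m j).le
    rw [nq_smul hx.1, RCLike.norm_ofReal, abs_abs] at h1
    exact h1⟩

theorem continuous_Tw (w : ℕ → ℝ) (hw : Dom V w) : Continuous (Tw (𝕜 := 𝕜) (q := q) w hw) := by
  refine WithSeminorms.continuous_normedSpace_rng _ (ws 𝕜 q V) (Tw (𝕜 := 𝕜) (q := q) w hw)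
    ⟨{Pw w hw}, 1, ?_⟩
  rw [Finset.sup_singleton, one_smul]
  exact le_rfl

/-- Unit vectors. -/
def single' (j : ℕ) : ℕ → 𝕜 := Pi.single j 1

theorem summable_of_finite {u : ℕ → 𝕜} (s : Finset ℕ) (h : ∀ j ∉ s, u j = 0) :
    Summable fun j => ‖u j‖ :=
  summable_of_ne_finset_zero (s := s) (fun j hj => by rw [h j hj, norm_zero])

/-- Finitely supported sequences belong to every step. -/
theorem memStep_of_finite (v : ℕ → ℝ) {x : ℕ → 𝕜} (s : Finset ℕ) (h : ∀ j ∉ s, x j = 0) :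
    MemStep q v x :=
  memStep_of_summable (summable_of_finite s (fun j hj => by rw [wm, h j hj, mul_zero]))

/-- Nuclearity makes `w / v^{(n)}` summable for all dominated `w`. -/
theorem bound_of_nuclear (hnuc : IsNuclearSpace 𝕜 (Koe 𝕜 q V)) (w : ℕ → ℝ) (hw : Dom V w)
    (n : ℕ) : ∃ K : ℝ, ∀ s : Finset ℕ, ∑ j ∈ s, w j / V.v n j ≤ K := by
  classical
  obtain ⟨P, f, y, l, hP, hl, hf, ⟨D, hD⟩, hT⟩ := hnuc (lp (fun _ : ℕ => 𝕜) q)
    ⟨Tw w hw, continuous_Tw w hw⟩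
  obtain ⟨C, hC0, hC⟩ := bdd_of_continuous P hP n
  have hD0 : 0 ≤ D := (norm_nonneg _).trans (hD 0)
  refine ⟨∑' i, ‖l i‖ * (C * D), fun s => ?_⟩
  -- the unit vectors of the space
  have hmem : ∀ j, (Pi.single j 1 : ℕ → 𝕜) ∈ coechelon 𝕜 q V := fun j =>
    ⟨0, memStep_of_finite _ {j} (fun i hi => by
      rw [Pi.single_eq_of_ne (by simpa using hi)])⟩
  set e : ℕ → Koe 𝕜 q V := fun j => mkK (Pi.single j 1) (hmem j) with he
  have heseq : ∀ j, (e j).seq = Pi.single j 1 := fun j => rfl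
  -- the vectors `z i`
  set z : ℕ → Koe 𝕜 q V := fun i => ∑ j ∈ s, (((V.v n j : ℝ) : 𝕜)⁻¹ * (y i : ∀ _ : ℕ, 𝕜) j) • e j
    with hz
  have hzseq : ∀ i j, (z i).seq j = if j ∈ s then ((V.v n j : ℝ) : 𝕜)⁻¹ * (y i : ∀ _ : ℕ, 𝕜) j
      else 0 := by
    intro i j
    rw [hz]
    simp only
    rw [seq_sum, Finset.sum_apply]
    simp_rw [seq_smul, heseq, Pi.smul_apply, smul_eq_mul, Pi.single_apply]
    simp only [mul_ite, mul_one, mul_zero]
    rw [Finset.sum_ite_eq s j]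
  have hzmem : ∀ i, MemStep q (V.v n) (z i).seq := fun i =>
    memStep_of_finite _ s (fun j hj => by rw [hzseq, if_neg hj])
  have hznorm : ∀ i, stepNorm q (V.v n) (z i).seq ≤ D := by
    intro i
    refine le_trans ?_ (hD i)
    rw [stepNorm, show ‖y i‖ = nq q (y i : ∀ _ : ℕ, 𝕜) from (nq_eq (lp.memℓp (y i))).symm]
    refine nq_mono (lp.memℓp (y i)) (fun j => ?_)
    rw [norm_wm _ (fun j => (V.pos n j).le), hzseq]
    split_ifs
    · rw [norm_mul, norm_inv, RCLike.norm_ofReal, abs_of_pos (V.pos n j), ← mul_assoc,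
        mul_inv_cancel₀ (V.pos n j).ne', one_mul]
    · rw [norm_zero, mul_zero]; exact norm_nonneg _
  have hfz : ∀ i, ‖f i (z i)‖ ≤ C * D := by
    intro i
    refine (hf i _).trans ((hC _ (hzmem i)).trans ?_)
    exact mul_le_mul_of_nonneg_left (hznorm i) hC0
  -- the trace
  have htr : HasSum (fun i => l i * f i (z i)) (((∑ j ∈ s, w j / V.v n j : ℝ)) : 𝕜) := by
    have h1 : ∀ j ∈ s, HasSum (fun i => ((V.v n j : ℝ) : 𝕜)⁻¹ * (l i * (f i (e j) *
        (y i : ∀ _ : ℕ, 𝕜) j))) (((w j / V.v n j : ℝ)) : 𝕜) := by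
      intro j _
      have h2 := (hT (e j)).mapL (lp.evalCLM 𝕜 (fun _ : ℕ => 𝕜) q j)
      have h3 := h2.mul_left (((V.v n j : ℝ) : 𝕜)⁻¹)
      have h4 : ((V.v n j : ℝ) : 𝕜)⁻¹ * (lp.evalCLM 𝕜 (fun _ : ℕ => 𝕜) q j)
          ((⟨Tw w hw, continuous_Tw w hw⟩ : Koe 𝕜 q V →L[𝕜] lp (fun _ : ℕ => 𝕜) q) (e j)) =
          ((w j / V.v n j : ℝ) : 𝕜) := by
        show ((V.v n j : ℝ) : 𝕜)⁻¹ * ((Tw w hw (e j) : ∀ _ : ℕ, 𝕜) j) = _
        rw [Tw_apply, heseq, Pi.single_eq_same, mul_one]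
        push_cast
        rw [div_eq_inv_mul]
      rw [h4] at h3
      exact h3
    have h2 := hasSum_sum h1
    have h3 : (fun i => ∑ j ∈ s, ((V.v n j : ℝ) : 𝕜)⁻¹ * (l i * (f i (e j) *
        (y i : ∀ _ : ℕ, 𝕜) j))) = fun i => l i * f i (z i) := by
      funext i
      rw [hz]
      simp only
      rw [map_sum, Finset.mul_sum]
      refine Finset.sum_congr rfl (fun j _ => ?_)
      rw [map_smul, smul_eq_mul]
      ring
    rw [h3] at h2
    push_cast at h2 ⊢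
    exact h2
  have hsum : Summable fun i => ‖l i‖ * (C * D) := hl.mul_right _
  have h5 : ‖((∑ j ∈ s, w j / V.v n j : ℝ) : 𝕜)‖ ≤ ∑' i, ‖l i‖ * (C * D) := by
    rw [← htr.tsum_eq]
    refine tsum_of_norm_bounded hsum.hasSum (fun i => ?_)
    rw [norm_mul]
    exact mul_le_mul_of_nonneg_left (hfz i) (norm_nonneg _)
  rw [RCLike.norm_ofReal] at h5
  exact (le_abs_self _).trans h5

end Dominated

section Construct

variable {V : Weights}

/-- Construction of dominated weights. -/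
theorem exists_dom (δ : ℕ → ℝ≥0) (F : ℕ → Finset ℕ)
    (h : ∀ m, ∀ j ∈ F m, m ≤ j ∧ (δ m : ℝ) ≤ V.v m j) :
    ∃ w : ℕ → ℝ, Dom V w ∧ ∀ m, ∀ j ∈ F m, (δ m : ℝ) ≤ w j := by
  classical
  let w : ℕ → ℝ≥0 := fun j => ((Finset.range (j + 1)).filter (fun m => j ∈ F m)).sup δ
  refine ⟨fun j => (w j : ℝ), ⟨fun j => (w j).2, fun k => ?_⟩, fun m j hj => ?_⟩
  · set G : Finset ℕ := (Finset.range k).biUnion F with hG
    have hterm : ∀ j ∈ G, 0 ≤ (w j : ℝ) / V.v k j := fun j _ =>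
      div_nonneg (w j).2 (V.pos k j).le
    set C : ℝ := 1 + ∑ j ∈ G, (w j : ℝ) / V.v k j with hC
    have hS0 : 0 ≤ ∑ j ∈ G, (w j : ℝ) / V.v k j := Finset.sum_nonneg hterm
    refine ⟨C, fun j => ?_⟩
    by_cases hjG : j ∈ G
    · have h1 : (w j : ℝ) / V.v k j ≤ C := by
        have := Finset.single_le_sum hterm hjG
        linarith
      rwa [div_le_iff₀ (V.pos k j)] at h1
    · have h1 : w j ≤ ⟨V.v k j, (V.pos k j).le⟩ := by
        refine Finset.sup_le (fun m hm => ?_)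
        have hjm : j ∈ F m := (Finset.mem_filter.1 hm).2
        have hkm : k ≤ m := by
          by_contra hlt
          exact hjG (Finset.mem_biUnion.2 ⟨m, Finset.mem_range.2 (not_le.1 hlt), hjm⟩)
        exact_mod_cast ((h m j hjm).2.trans (V.mono hkm j))
      have h2 : (w j : ℝ) ≤ V.v k j := by exact_mod_cast h1
      have h3 := V.pos k j
      nlinarith
  · have h1 : m ∈ (Finset.range (j + 1)).filter (fun m => j ∈ F m) := by
      refine Finset.mem_filter.2 ⟨Finset.mem_range.2 ?_, hj⟩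
      have := (h m j hj).1
      omega
    exact_mod_cast Finset.le_sup (f := δ) h1

/-- If no weight tends to zero, nuclearity makes all the weights unbounded. -/
theorem unbounded (hsum : ∀ w : ℕ → ℝ, Dom V w → ∀ n, ∃ K : ℝ, ∀ s : Finset ℕ,
    ∑ j ∈ s, w j / V.v n j ≤ K) (hlim : ∀ m, ¬ Tendsto (V.v m) atTop (𝓝 0)) (n : ℕ) (K : ℝ)
    (J : ℕ) : ∃ j, J ≤ j ∧ K ≤ V.v n j := by
  classical
  by_contra hcon
  push Not at hcon
  -- `V n` is bounded
  obtain ⟨M, hM0, hM⟩ : ∃ M : ℝ, 0 < M ∧ ∀ j, V.v n j ≤ M := by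
    refine ⟨|K| + 1 + ∑ j ∈ Finset.range J, V.v n j, ?_, fun j => ?_⟩
    · have : 0 ≤ ∑ j ∈ Finset.range J, V.v n j := Finset.sum_nonneg fun j _ => (V.pos n j).le
      positivity
    · have h0 : 0 ≤ ∑ j ∈ Finset.range J, V.v n j := Finset.sum_nonneg fun j _ => (V.pos n j).le
      by_cases hj : J ≤ j
      · have := hcon j hj
        have := le_abs_self K
        linarith
      · have h1 := Finset.single_le_sum (f := fun j => V.v n j) (fun j _ => (V.pos n j).le)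
          (Finset.mem_range.2 (not_le.1 hj))
        have := abs_nonneg K
        linarith
  -- lower bounds on infinite sets
  have hδ : ∀ m, ∃ δ : ℝ≥0, 0 < δ ∧ ∀ J, ∃ j, J ≤ j ∧ (δ : ℝ) ≤ V.v m j := by
    intro m
    by_contra h
    push Not at h
    apply hlim m
    rw [Metric.tendsto_atTop]
    intro ε hε
    obtain ⟨J, hJ⟩ := h ⟨ε, hε.le⟩ (by exact_mod_cast hε)
    refine ⟨J, fun j hj => ?_⟩
    rw [Real.dist_eq, sub_zero, abs_of_pos (V.pos m j)]
    exact hJ j hj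
  choose δ hδ0 hδJ using hδ
  -- finite sets of large cardinality
  have hbig : ∀ m N : ℕ, ∃ F : Finset ℕ, F.card = N ∧ ∀ j ∈ F, m ≤ j ∧ (δ m : ℝ) ≤ V.v m j := by
    intro m N
    induction N with
    | zero => exact ⟨∅, rfl, by simp⟩
    | succ N ih =>
      obtain ⟨F, hF, hFj⟩ := ih
      obtain ⟨j, hj1, hj2⟩ := hδJ m (max m (F.sup id + 1))
      refine ⟨insert j F, ?_, ?_⟩
      · rw [Finset.card_insert_of_notMem, hF]
        intro hjF
        have := Finset.le_sup (f := id) hjF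
        simp only [id] at this
        have := (le_max_right m (F.sup id + 1)).trans hj1
        omega
      · intro i hi
        rcases Finset.mem_insert.1 hi with rfl | hi
        · exact ⟨(le_max_left _ _).trans hj1, hj2⟩
        · exact hFj i hi
  have hN : ∀ m : ℕ, ∃ N : ℕ, (m : ℝ) * M ≤ N * δ m := by
    intro m
    obtain ⟨N, hN⟩ := exists_nat_ge ((m : ℝ) * M / δ m)
    refine ⟨N, ?_⟩
    rwa [div_le_iff₀ (by exact_mod_cast hδ0 m)] at hN
  choose N hN using hN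
  choose F hF1 hF2 using fun m => hbig m (N m)
  obtain ⟨w, hw, hwF⟩ := exists_dom δ F hF2
  obtain ⟨K', hK'⟩ := hsum w hw n
  obtain ⟨m, hm⟩ := exists_nat_gt K'
  have h1 := hK' (F m)
  have h2 : (m : ℝ) ≤ ∑ j ∈ F m, w j / V.v n j := by
    calc (m : ℝ) = m * M / M := by field_simp
      _ ≤ (N m * δ m) / M := by
          exact div_le_div_of_nonneg_right (hN m) hM0.le
      _ = ∑ j ∈ F m, δ m / M := by
          rw [Finset.sum_const, hF1, nsmul_eq_mul, mul_div_assoc]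
      _ ≤ ∑ j ∈ F m, w j / V.v n j := by
          refine Finset.sum_le_sum (fun j hj => ?_)
          exact div_le_div₀ (hw.1 j) (hwF m j hj) (V.pos n j) (hM j)
  linarith

/-- The weight condition expressing that the shift acts on the coechelon space. -/
def ShiftCond (V : Weights) : Prop := ∀ m, ∃ (n : ℕ) (C : ℝ), ∀ j, V.v n j ≤ C * V.v m (j + 1)

theorem shift_iter (hS : ShiftCond V) (m L : ℕ) :
    ∃ (n : ℕ) (C : ℝ), 0 < C ∧ ∀ j i, i ≤ L → V.v n j ≤ C * V.v m (j + i) := by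
  induction L with
  | zero =>
    refine ⟨m, 1, one_pos, fun j i hi => ?_⟩
    have : i = 0 := by omega
    rw [this, one_mul, add_zero]
  | succ L ih =>
    obtain ⟨n, C, hC, h⟩ := ih
    obtain ⟨n', C', h'⟩ := hS n
    have hC' : 0 < |C'| + 1 := by positivity
    refine ⟨max n n', C + (|C'| + 1) * C, by positivity, fun j i hi => ?_⟩
    have hp : 0 < V.v m (j + i) := V.pos _ _
    rcases Nat.eq_zero_or_pos i with h0 | h0
    · subst h0
      have h1 := h j 0 (Nat.zero_le _)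
      have h2 := V.mono (le_max_left n n') j
      have h3 : 0 ≤ (|C'| + 1) * C * V.v m (j + 0) := by positivity
      calc V.v (max n n') j ≤ V.v n j := h2
        _ ≤ C * V.v m (j + 0) := h1
        _ ≤ (C + (|C'| + 1) * C) * V.v m (j + 0) := by rw [add_mul]; linarith
    · obtain ⟨i', rfl⟩ : ∃ i', i = i' + 1 := ⟨i - 1, by omega⟩
      have h1 := h (j + 1) i' (by omega)
      have h2 := h' j
      have h3 := V.mono (le_max_right n n') j
      have h4 : j + 1 + i' = j + (i' + 1) := by omega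
      rw [h4] at h1
      have h5 : C' * V.v n (j + 1) ≤ (|C'| + 1) * V.v n (j + 1) :=
        mul_le_mul_of_nonneg_right (by linarith [le_abs_self C']) (V.pos _ _).le
      calc V.v (max n n') j ≤ V.v n' j := h3
        _ ≤ C' * V.v n (j + 1) := h2
        _ ≤ (|C'| + 1) * V.v n (j + 1) := h5
        _ ≤ (|C'| + 1) * (C * V.v m (j + (i' + 1))) := mul_le_mul_of_nonneg_left h1 hC'.le
        _ ≤ (C + (|C'| + 1) * C) * V.v m (j + (i' + 1)) := by
            rw [add_mul]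
            have : 0 ≤ C * V.v m (j + (i' + 1)) := by positivity
            linarith

/-- Long windows. -/
theorem exists_windows (hS : ShiftCond V) (hunb : ∀ (n : ℕ) (K : ℝ) (J : ℕ),
    ∃ j, J ≤ j ∧ K ≤ V.v n j) :
    ∃ w : ℕ → ℝ, Dom V w ∧ ∀ L : ℕ, ∃ a : ℕ, ∀ i ≤ L, 1 ≤ w (a + i) := by
  have h1 : ∀ m : ℕ, ∃ a : ℕ, m ≤ a ∧ ∀ i ≤ m, 1 ≤ V.v m (a + i) := by
    intro m
    obtain ⟨n, C, hC, h⟩ := shift_iter hS m m
    obtain ⟨a, ha1, ha2⟩ := hunb n C m
    refine ⟨a, ha1, fun i hi => ?_⟩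
    have h2 := h a i hi
    have h3 : C * 1 ≤ C * V.v m (a + i) := by linarith
    exact le_of_mul_le_mul_left h3 hC
  choose a ha1 ha2 using h1
  obtain ⟨w, hw, hwF⟩ := exists_dom (V := V) (fun _ => 1)
    (fun m => (Finset.range (m + 1)).map (addLeftEmbedding (a m))) (by
      intro m j hj
      obtain ⟨i, hi, rfl⟩ := Finset.mem_map.1 hj
      rw [Finset.mem_range] at hi
      refine ⟨?_, ?_⟩
      · have := ha1 m
        simp only [addLeftEmbedding_apply]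
        omega
      · simp only [addLeftEmbedding_apply, NNReal.coe_one]
        exact ha2 m i (by omega))
  refine ⟨w, hw, fun L => ⟨a L, fun i hi => ?_⟩⟩
  have := hwF L (a L + i) (Finset.mem_map.2 ⟨i, Finset.mem_range.2 (by omega), rfl⟩)
  simpa using this

end Construct

end Q100.Coe
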