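import Mathlib

/-!
# Köthe coechelon spaces: definitions

`ℓ_q(v)` for `1 ≤ q ≤ ∞`, where the members of the step for `q = ∞` are required to tend to `0`
(so that `q = ∞` gives `c_0(v)`, the case `p = 0`; for `q < ∞` the requirement is automatic).
-/

set_option autoImplicit false
open Filter Topology
open scoped ENNReal

noncomputable section

namespace Q100.Coe

universe u

/-- Decreasing sequences `V = (v^{(m)})` of strictly positive weights. -/
structure Weights where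
  /-- the weights -/
  v : ℕ → ℕ → ℝ
  pos : ∀ m j, 0 < v m j
  anti : ∀ m j, v (m + 1) j ≤ v m j

section Steps

variable {𝕜 : Type u} [RCLike 𝕜] (q : ℝ≥0∞)

/-- The sequence `(v_j x_j)_j`. -/
def wm (v : ℕ → ℝ) (x : ℕ → 𝕜) : ℕ → 𝕜 := fun j => (v j : 𝕜) * x j

/-- Membership in `ℓ_q(v)`, for `q = ∞` membership in `c_0(v)`. -/
def MemStep (v : ℕ → ℝ) (x : ℕ → 𝕜) : Prop :=
  Memℓp (wm v x) q ∧ Tendsto (wm v x) atTop (𝓝 0)

open Classical in
/-- The `ℓ_q` norm of a sequence in `ℓ_q`. -/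
def nq (u : ℕ → 𝕜) : ℝ :=
  if h : Memℓp u q then ‖(⟨u, h⟩ : lp (fun _ : ℕ => 𝕜) q)‖ else 0

/-- The norm `‖(x_j v_j)_j‖_{ℓ_q}` of the step `ℓ_q(v)` (resp. `c_0(v)`). -/
def stepNorm (v : ℕ → ℝ) (x : ℕ → 𝕜) : ℝ := nq q (wm v x)

end Steps

section Space

variable (𝕜 : Type u) [RCLike 𝕜] (q : ℝ≥0∞) [Fact (1 ≤ q)] (V : Weights)

theorem Weights.mono (V : Weights) {m n : ℕ} (h : m ≤ n) (j : ℕ) : V.v n j ≤ V.v m j := by
  induction n, h using Nat.le_induction with
  | base => exact le_rfl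
  | succ n _ ih => exact (V.anti n j).trans ih

theorem MemStep.of_le {𝕜 : Type u} [RCLike 𝕜] {q : ℝ≥0∞} {v w : ℕ → ℝ} (hw : ∀ j, 0 ≤ w j)
    {C : ℝ} (hwv : ∀ j, w j ≤ C * v j) {x : ℕ → 𝕜} (hx : MemStep q v x) : MemStep q w x := by
  have h1 : ∀ j, ‖wm w x j‖ ≤ ‖((C : 𝕜) • wm v x) j‖ := by
    intro j
    simp only [wm, Pi.smul_apply, smul_eq_mul, norm_mul, RCLike.norm_ofReal]
    rw [← mul_assoc, ← abs_mul]
    refine mul_le_mul_of_nonneg_right ?_ (norm_nonneg _)
    rw [abs_of_nonneg (hw j)]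
    exact (hwv j).trans (le_abs_self _)
  refine ⟨(hx.1.const_smul (C : 𝕜)).mono' h1, ?_⟩
  have h2 : Tendsto ((C : 𝕜) • wm v x) atTop (𝓝 0) := by
    have := hx.2.const_smul (C : 𝕜)
    rwa [smul_zero] at this
  rw [tendsto_zero_iff_norm_tendsto_zero] at h2 ⊢
  exact squeeze_zero (fun j => norm_nonneg _) h1 h2

/-- The Köthe coechelon space `k_p(V)` as a space of sequences: the union of the steps
`ℓ_q(v^{(m)})` (`c_0(v^{(m)})` if `q = ∞`). -/
def coechelon : Submodule 𝕜 (ℕ → 𝕜) where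
  carrier := {x | ∃ m, MemStep q (V.v m) x}
  zero_mem' := by
    have : wm (V.v 0) (0 : ℕ → 𝕜) = 0 := by funext j; simp [wm]
    refine ⟨0, ?_, ?_⟩
    · rw [this]; exact zero_memℓp
    · rw [this]; exact tendsto_const_nhds
  add_mem' := by
    rintro x y ⟨m, hm⟩ ⟨n, hn⟩
    have hx : MemStep q (V.v (max m n)) x := hm.of_le (fun j => (V.pos _ j).le) (C := 1)
      (fun j => by rw [one_mul]; exact V.mono (le_max_left _ _) j)
    have hy : MemStep q (V.v (max m n)) y := hn.of_le (fun j => (V.pos _ j).le) (C := 1)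
      (fun j => by rw [one_mul]; exact V.mono (le_max_right _ _) j)
    have h : wm (V.v (max m n)) (x + y) = wm (V.v (max m n)) x + wm (V.v (max m n)) y := by
      funext j; simp [wm, mul_add]
    refine ⟨max m n, ?_, ?_⟩
    · rw [h]; exact hx.1.add hy.1
    · rw [h]
      have := hx.2.add hy.2
      rwa [add_zero] at this
  smul_mem' := by
    rintro c x ⟨m, hm⟩
    have h : wm (V.v m) (c • x) = c • wm (V.v m) x := by
      funext j; simp [wm]; ring
    refine ⟨m, ?_, ?_⟩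
    · rw [h]; exact hm.1.const_smul c
    · rw [h]
      have := hm.2.const_smul c
      rwa [smul_zero] at this

/-- The Köthe coechelon space, as a type of its own. -/
def Koe : Type u := ↥(coechelon 𝕜 q V)

instance : AddCommGroup (Koe 𝕜 q V) := inferInstanceAs (AddCommGroup ↥(coechelon 𝕜 q V))
instance : Module 𝕜 (Koe 𝕜 q V) := inferInstanceAs (Module 𝕜 ↥(coechelon 𝕜 q V))

/-- The sequence underlying an element of the coechelon space. -/
def Koe.seq {𝕜 : Type u} [RCLike 𝕜] {q : ℝ≥0∞} [Fact (1 ≤ q)] {V : Weights}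
    (x : Koe 𝕜 q V) : ℕ → 𝕜 := (show ↥(coechelon 𝕜 q V) from x).1

/-- The seminorms on `k_p(V)` whose restrictions to all the steps are continuous. -/
def StepSeminorm : Type u :=
  {P : Seminorm 𝕜 (Koe 𝕜 q V) // ∀ m, ∃ C : ℝ, ∀ x : Koe 𝕜 q V, MemStep q (V.v m) x.seq →
    P x ≤ C * stepNorm q (V.v m) x.seq}

instance : Nonempty (StepSeminorm 𝕜 q V) := ⟨⟨0, fun _ => ⟨0, fun _ _ => by simp⟩⟩⟩

/-- The family of all seminorms whose restrictions to all the steps are continuous. -/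
def stepFamily : SeminormFamily 𝕜 (Koe 𝕜 q V) (StepSeminorm 𝕜 q V) := fun P => P.1

/-- The topology of the locally convex inductive limit of the steps: the locally convex topology
defined by all the seminorms whose restrictions to all the steps are continuous. -/
instance : TopologicalSpace (Koe 𝕜 q V) := (stepFamily 𝕜 q V).moduleFilterBasis.topology

theorem ws : WithSeminorms (stepFamily 𝕜 q V) := ⟨rfl⟩

end Space

section Nuclear

variable (𝕜 : Type u) [RCLike 𝕜]

/-- A continuous linear map `T` from a topological vector space to a normed space is nuclear if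
`T x = ∑ l_i f_i(x) y_i` with `∑ |l_i| < ∞`, an equicontinuous sequence of functionals `f_i` and
a bounded sequence `y_i`. -/
def IsNuclearMap {E F : Type u} [AddCommGroup E] [Module 𝕜 E] [TopologicalSpace E]
    [NormedAddCommGroup F] [NormedSpace 𝕜 F] (T : E →L[𝕜] F) : Prop :=
  ∃ (P : Seminorm 𝕜 E) (f : ℕ → E →L[𝕜] 𝕜) (y : ℕ → F) (l : ℕ → 𝕜),
    Continuous P ∧ Summable (fun i => ‖l i‖) ∧ (∀ i x, ‖f i x‖ ≤ P x) ∧
    (∃ C : ℝ, ∀ i, ‖y i‖ ≤ C) ∧ ∀ x, HasSum (fun i => l i • f i x • y i) (T x)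

/-- Nuclear spaces: every continuous linear map to a Banach space is nuclear. -/
def IsNuclearSpace (E : Type u) [AddCommGroup E] [Module 𝕜 E] [TopologicalSpace E] : Prop :=
  ∀ (F : Type u) [NormedAddCommGroup F] [NormedSpace 𝕜 F] [CompleteSpace F] (T : E →L[𝕜] F),
    IsNuclearMap 𝕜 T

end Nuclear

section Dyn

variable {X : Type u} [TopologicalSpace X] (T : X → X)

/-- The return set `N_T(U, W) = {n ≥ 1 : Tⁿ(U) ∩ W ≠ ∅}`. -/
def returnSet (U W : Set X) : Set ℕ := {n | 1 ≤ n ∧ ((T^[n]) '' U ∩ W).Nonempty}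

/-- Syndetic sets of integers. -/
def Syndetic (S : Set ℕ) : Prop := ∃ r : ℕ, ∀ n : ℕ, ∃ k ∈ S, n ≤ k ∧ k ≤ n + r

/-- Topological ergodicity. -/
def TopErgodic : Prop :=
  ∀ U W : Set X, IsOpen U → IsOpen W → U.Nonempty → W.Nonempty → Syndetic (returnSet T U W)

/-- Sequential hypercyclicity: every point is the limit of a sequence from the orbit of `x`. -/
def SeqHypercyclic : Prop :=
  ∃ x : X, ∀ z : X, ∃ s : ℕ → ℕ, Tendsto (fun i => T^[s i] x) atTop (𝓝 z)

end Dyn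

/-- The shift `(x_1, x_2, x_3, …) ↦ (x_2, x_3, …)` of a sequence. -/
def sh {𝕜 : Type u} (x : ℕ → 𝕜) : ℕ → 𝕜 := fun j => x (j + 1)

/-- The backward shift on `k_p(V)`, if it maps `k_p(V)` into itself. -/
def bshift {𝕜 : Type u} [RCLike 𝕜] {q : ℝ≥0∞} [Fact (1 ≤ q)] {V : Weights}
    (hB : ∀ x ∈ coechelon 𝕜 q V, sh x ∈ coechelon 𝕜 q V) : Koe 𝕜 q V → Koe 𝕜 q V :=
  fun x => (⟨sh x.seq, hB _ (show ↥(coechelon 𝕜 q V) from x).2⟩ : ↥(coechelon 𝕜 q V))

end Q100.Coe
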