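import Pool.Agent.Q100.Coe

/-!
# Nuclear coechelon spaces: ergodic shifts are sequentially hypercyclic, main part
-/

set_option autoImplicit false
open Filter Topology
open scoped ENNReal NNReal

noncomputable section

namespace Q100.Coe

universe u

variable {𝕜 : Type u} [RCLike 𝕜] {q : ℝ≥0∞} [hq : Fact (1 ≤ q)] {V : Weights}

theorem seq_bshift (hB : ∀ x ∈ coechelon 𝕜 q V, sh x ∈ coechelon 𝕜 q V) (x : Koe 𝕜 q V) :
    (bshift hB x).seq = sh x.seq := rfl

theorem seq_iter (hB : ∀ x ∈ coechelon 𝕜 q V, sh x ∈ coechelon 𝕜 q V) (n : ℕ) :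
    ∀ (x : Koe 𝕜 q V) (j : ℕ), ((bshift hB)^[n] x).seq j = x.seq (j + n) := by
  induction n with
  | zero => intro x j; rfl
  | succ n ih =>
    intro x j
    rw [Function.iterate_succ_apply, ih, seq_bshift]
    show x.seq (j + n + 1) = _
    rw [add_assoc]

/-- If the shift maps the space into itself, the weights satisfy the shift condition. -/
theorem shiftCond_of_maps (hB : ∀ x ∈ coechelon 𝕜 q V, sh x ∈ coechelon 𝕜 q V) :
    ShiftCond V := by
  classical
  by_contra hcon
  unfold ShiftCond at hcon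
  push Not at hcon
  obtain ⟨m, hm⟩ := hcon
  have hfreq : ∀ n : ℕ, ∃ᶠ j in atTop, (4 : ℝ) ^ n * V.v m (j + 1) < V.v n j := by
    intro n hev
    obtain ⟨J, hJ⟩ := eventually_atTop.1 hev
    have hterm : ∀ j ∈ Finset.range J, 0 ≤ V.v n j / V.v m (j + 1) := fun j _ =>
      div_nonneg (V.pos n j).le (V.pos m _).le
    obtain ⟨j, hj⟩ := hm n (4 ^ n + ∑ j ∈ Finset.range J, V.v n j / V.v m (j + 1))
    have hS0 := Finset.sum_nonneg hterm
    have hpos := V.pos m (j + 1)
    by_cases hjJ : J ≤ j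
    · have h1 := hJ j hjJ
      push Not at h1
      nlinarith
    · have h1 := Finset.single_le_sum hterm (Finset.mem_range.2 (not_le.1 hjJ))
      have h2 : V.v n j = V.v n j / V.v m (j + 1) * V.v m (j + 1) := by field_simp
      have h3 : (0 : ℝ) < 4 ^ n := by positivity
      have h4 : V.v n j / V.v m (j + 1) * V.v m (j + 1) ≤
          (4 ^ n + ∑ j ∈ Finset.range J, V.v n j / V.v m (j + 1)) * V.v m (j + 1) := by
        refine mul_le_mul_of_nonneg_right ?_ hpos.le
        linarith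
      linarith
  obtain ⟨φ, hφ, hφP⟩ := extraction_forall_of_frequently hfreq
  have hinj : Function.Injective (fun n => φ n + 1) := fun a b h => hφ.injective (by
    simpa using h)
  set x : ℕ → 𝕜 := Function.extend (fun n => φ n + 1)
    (fun n => (((1 / 2 : ℝ) ^ n / V.v m (φ n + 1) : ℝ) : 𝕜)) 0 with hx
  have hxφ : ∀ n, x (φ n + 1) = (((1 / 2 : ℝ) ^ n / V.v m (φ n + 1) : ℝ) : 𝕜) := fun n =>
    hinj.extend_apply _ _ n
  have hxm : MemStep q (V.v m) x := by
    refine memStep_of_summable ?_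
    rw [← hinj.summable_iff]
    · refine (summable_geometric_of_lt_one (by norm_num) (by norm_num :
        (1 / 2 : ℝ) < 1)).congr (fun n => ?_)
      rw [Function.comp_apply, norm_wm _ (fun j => (V.pos m j).le), hxφ, RCLike.norm_ofReal,
        abs_of_nonneg (div_nonneg (by positivity) (V.pos m _).le)]
      have := (V.pos m (φ n + 1)).ne'
      field_simp
    · intro i hi
      rw [wm, hx, Function.extend_apply' _ _ _ (by simpa using hi)]
      simp
  obtain ⟨k, hk⟩ := hB x ⟨m, hxm⟩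
  have h1 : Tendsto (fun n => ‖wm (V.v k) (sh x) (φ n)‖) atTop (𝓝 0) :=
    (tendsto_zero_iff_norm_tendsto_zero.1 hk.2).comp hφ.tendsto_atTop
  have h2 : ∀ᶠ n in atTop, 1 ≤ ‖wm (V.v k) (sh x) (φ n)‖ := by
    filter_upwards [eventually_ge_atTop k] with n hn
    rw [norm_wm _ (fun j => (V.pos k j).le)]
    show 1 ≤ V.v k (φ n) * ‖x (φ n + 1)‖
    rw [hxφ, RCLike.norm_ofReal, abs_of_nonneg (div_nonneg (by positivity) (V.pos m _).le)]
    have h3 := hφP n
    have h4 := V.mono hn (φ n)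
    have h5 := V.pos m (φ n + 1)
    rw [mul_div_assoc', le_div_iff₀ h5, one_mul]
    have h6 : (1 : ℝ) ≤ 4 ^ n * (1 / 2) ^ n := by
      rw [← mul_pow]; norm_num; exact one_le_pow₀ (by norm_num)
    have h7 : (0 : ℝ) < (1 / 2) ^ n := by positivity
    calc V.v m (φ n + 1) = 1 * V.v m (φ n + 1) := (one_mul _).symm
      _ ≤ (4 ^ n * (1 / 2) ^ n) * V.v m (φ n + 1) := mul_le_mul_of_nonneg_right h6 h5.le
      _ = (4 ^ n * V.v m (φ n + 1)) * (1 / 2) ^ n := by ring
      _ ≤ V.v k (φ n) * (1 / 2) ^ n := mul_le_mul_of_nonneg_right (by linarith) h7.le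
  have h3 : ∀ᶠ n in atTop, ‖wm (V.v k) (sh x) (φ n)‖ < 1 := h1.eventually (gt_mem_nhds one_pos)
  obtain ⟨n, hn1, hn2⟩ := (h2.and h3).exists
  linarith

/-- Ergodicity excludes dominated weights with long windows. -/
theorem no_windows (hB : ∀ x ∈ coechelon 𝕜 q V, sh x ∈ coechelon 𝕜 q V)
    (herg : TopErgodic (bshift hB)) (w : ℕ → ℝ) (hw : Dom V w)
    (hwin : ∀ L : ℕ, ∃ a : ℕ, ∀ i ≤ L, 1 ≤ w (a + i)) : False := by
  classical
  -- the first coordinate is continuous
  have hw0 : Dom V (fun j => if j = 0 then 1 else 0) := by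
    refine ⟨fun j => by dsimp only; split_ifs <;> norm_num, fun k => ⟨(V.v k 0)⁻¹, fun j => ?_⟩⟩
    have h0 := V.pos k 0
    have hj := V.pos k j
    dsimp only
    by_cases h : j = 0
    · subst h
      rw [if_pos rfl, inv_mul_cancel₀ h0.ne']
    · rw [if_neg h]
      positivity
  have hc0 : Continuous (fun y : Koe 𝕜 q V => y.seq 0) := by
    have h1 := (lp.evalCLM 𝕜 (fun _ : ℕ => 𝕜) q 0).continuous.comp
      (continuous_Tw (𝕜 := 𝕜) (q := q) _ hw0)
    refine h1.congr (fun y => ?_)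
    show (Tw _ hw0 y : ∀ _ : ℕ, 𝕜) 0 = _
    rw [Tw_apply]
    simp
  have hU : IsOpen {x : Koe 𝕜 q V | ‖Tw w hw x‖ < 1} :=
    isOpen_lt (continuous_norm.comp (continuous_Tw w hw)) continuous_const
  have hW : IsOpen {y : Koe 𝕜 q V | 1 < ‖y.seq 0‖} :=
    isOpen_lt continuous_const (continuous_norm.comp hc0)
  have hUne : {x : Koe 𝕜 q V | ‖Tw w hw x‖ < 1}.Nonempty :=
    ⟨0, by show ‖Tw w hw 0‖ < 1; rw [map_zero, norm_zero]; exact one_pos⟩
  have hWne : {y : Koe 𝕜 q V | 1 < ‖y.seq 0‖}.Nonempty := by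
    refine ⟨mkK (Pi.single 0 2) ⟨0, memStep_of_finite _ {0} (fun i hi => by
      rw [Pi.single_eq_of_ne (by simpa using hi)])⟩, ?_⟩
    show 1 < ‖(Pi.single 0 2 : ℕ → 𝕜) 0‖
    rw [Pi.single_eq_same]
    simp
  obtain ⟨r, hr⟩ := herg _ _ hU hW hUne hWne
  obtain ⟨a, ha⟩ := hwin r
  obtain ⟨k, ⟨-, y, ⟨x, hx, hxy⟩, hy⟩, hk1, hk2⟩ := hr a
  have h1 : 1 < ‖x.seq k‖ := by
    have : 1 < ‖y.seq 0‖ := hy
    rw [← hxy, seq_iter, zero_add] at this
    exact this
  have h2 : 1 ≤ w k := by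
    obtain ⟨i, rfl⟩ := Nat.exists_eq_add_of_le hk1
    exact ha i (by omega)
  have h3 : ‖(Tw w hw x : ∀ _ : ℕ, 𝕜) k‖ ≤ ‖Tw w hw x‖ :=
    lp.norm_apply_le_norm q_ne_zero _ k
  have h4 : ‖Tw w hw x‖ < 1 := hx
  rw [Tw_apply, norm_mul, RCLike.norm_ofReal, abs_of_nonneg (hw.1 k)] at h3
  nlinarith

/-- Under nuclearity and ergodicity, some weight tends to zero. -/
theorem exists_tendsto_zero (hB : ∀ x ∈ coechelon 𝕜 q V, sh x ∈ coechelon 𝕜 q V)
    (hnuc : IsNuclearSpace 𝕜 (Koe 𝕜 q V)) (herg : TopErgodic (bshift hB)) :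
    ∃ m, Tendsto (V.v m) atTop (𝓝 0) := by
  by_contra hcon
  push Not at hcon
  obtain ⟨w, hw, hwin⟩ := exists_windows (shiftCond_of_maps hB)
    (fun n K J => unbounded (fun w hw n => bound_of_nuclear hnuc w hw n) hcon n K J)
  exact no_windows hB herg w hw hwin

/-! ### Weights tending to zero give sequentially hypercyclic shifts -/

theorem summable_of_enn {f : ℕ → ℝ} (hf : ∀ j, 0 ≤ f j) {B : ℝ} (hB : 0 ≤ B)
    (h : ∑' j, ENNReal.ofReal (f j) ≤ ENNReal.ofReal B) : Summable f ∧ ∑' j, f j ≤ B := by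
  have h1 : ∀ s : Finset ℕ, ∑ j ∈ s, f j ≤ B := by
    intro s
    rw [← ENNReal.ofReal_le_ofReal_iff hB, ENNReal.ofReal_sum_of_nonneg (fun j _ => hf j)]
    exact (ENNReal.sum_le_tsum s).trans h
  have h2 : Summable f := summable_of_sum_le hf h1
  exact ⟨h2, h2.tsum_le_of_sum_le h1⟩

/-- The estimate for sums of shifted vectors. -/
theorem shifted_sum (v : ℕ → ℝ) (hv : ∀ j, 0 ≤ v j) (y : ℕ → ℕ → 𝕜) (len : ℕ → ℕ)
    (hlen : ∀ l j, len l ≤ j → y l j = 0) (D : ℕ → ℕ) (k0 : ℕ)
    (hD : ∀ l, k0 ≤ l → ∑ i ∈ Finset.range (len l), v (i + D l) * ‖y l i‖ ≤ (1 / 2 : ℝ) ^ l)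
    (u : ℕ → 𝕜) (hu : ∀ j, ∃ s : Finset ℕ,
      u j = ∑ l ∈ s, if k0 ≤ l ∧ D l ≤ j then y l (j - D l) else 0) :
    MemStep q v u ∧ stepNorm q v u ≤ 2 * (1 / 2 : ℝ) ^ k0 := by
  classical
  set A : ℕ → ℕ → ℝ≥0∞ := fun l j => if k0 ≤ l ∧ D l ≤ j then
    ENNReal.ofReal (v j * ‖y l (j - D l)‖) else 0 with hA
  have h1 : ∀ j, ENNReal.ofReal ‖wm v u j‖ ≤ ∑' l, A l j := by
    intro j
    obtain ⟨s, hs⟩ := hu j
    refine le_trans ?_ (ENNReal.sum_le_tsum s)
    rw [norm_wm v hv, hs]
    have h2 : v j * ‖∑ l ∈ s, if k0 ≤ l ∧ D l ≤ j then y l (j - D l) else 0‖ ≤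
        ∑ l ∈ s, (if k0 ≤ l ∧ D l ≤ j then v j * ‖y l (j - D l)‖ else 0) := by
      refine (mul_le_mul_of_nonneg_left (norm_sum_le _ _) (hv j)).trans ?_
      rw [Finset.mul_sum]
      refine Finset.sum_le_sum fun l _ => ?_
      split_ifs
      · exact le_rfl
      · simp
    refine (ENNReal.ofReal_le_ofReal h2).trans ?_
    rw [ENNReal.ofReal_sum_of_nonneg (fun l _ => by
      split_ifs
      · exact mul_nonneg (hv j) (norm_nonneg _)
      · exact le_rfl)]
    refine Finset.sum_le_sum fun l _ => ?_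
    rw [hA]
    simp only
    split_ifs
    · exact le_rfl
    · simp
  have h2 : ∀ l, ∑' j, A l j ≤ if k0 ≤ l then ENNReal.ofReal ((1 / 2 : ℝ) ^ l) else 0 := by
    intro l
    by_cases hl : k0 ≤ l
    · rw [if_pos hl]
      have hinj : Function.Injective (fun i => i + D l) := add_left_injective _
      have hsupp : Function.support (A l) ⊆ Set.range (fun i => i + D l) := by
        intro j hj
        by_cases h : D l ≤ j
        · exact ⟨j - D l, by simp only; omega⟩
        · exfalso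
          apply hj
          rw [hA]
          simp only
          rw [if_neg (fun h' => h h'.2)]
      rw [← hinj.tsum_eq hsupp]
      have h3 : ∀ i, A l (i + D l) = ENNReal.ofReal (v (i + D l) * ‖y l i‖) := by
        intro i
        rw [hA]
        simp only
        rw [if_pos ⟨hl, by omega⟩, Nat.add_sub_cancel]
      simp_rw [h3]
      rw [tsum_eq_sum (s := Finset.range (len l)) (fun i hi => by
        rw [hlen l i (by simpa using hi), norm_zero, mul_zero, ENNReal.ofReal_zero]),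
        ← ENNReal.ofReal_sum_of_nonneg (fun i _ => mul_nonneg (hv _) (norm_nonneg _))]
      exact ENNReal.ofReal_le_ofReal (hD l hl)
    · rw [if_neg hl]
      have h3 : ∀ j, A l j = 0 := by
        intro j
        rw [hA]
        simp only
        rw [if_neg (fun h => hl h.1)]
      simp [h3]
  have h3 : ∑' j, ENNReal.ofReal ‖wm v u j‖ ≤ ENNReal.ofReal (2 * (1 / 2 : ℝ) ^ k0) := by
    calc ∑' j, ENNReal.ofReal ‖wm v u j‖ ≤ ∑' j, ∑' l, A l j := ENNReal.tsum_le_tsum h1
      _ = ∑' l, ∑' j, A l j := ENNReal.tsum_comm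
      _ ≤ ∑' l, (if k0 ≤ l then ENNReal.ofReal ((1 / 2 : ℝ) ^ l) else 0) :=
          ENNReal.tsum_le_tsum h2
      _ = ∑' i, ENNReal.ofReal ((1 / 2 : ℝ) ^ (i + k0)) := by
          have hinj : Function.Injective (fun i => i + k0) := add_left_injective _
          rw [← hinj.tsum_eq (f := fun l => if k0 ≤ l then ENNReal.ofReal ((1 / 2 : ℝ) ^ l) else 0)]
          · refine tsum_congr fun i => ?_
            rw [if_pos (by omega)]
          · intro j hj
            by_cases h : k0 ≤ j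
            · exact ⟨j - k0, by simp only; omega⟩
            · exfalso
              apply hj
              simp only
              rw [if_neg h]
      _ = ENNReal.ofReal (∑' i, (1 / 2 : ℝ) ^ (i + k0)) := by
          rw [ENNReal.ofReal_tsum_of_nonneg (fun i => by positivity)]
          simp_rw [pow_add]
          exact (summable_geometric_of_lt_one (by norm_num) (by norm_num)).mul_right _
      _ = ENNReal.ofReal (2 * (1 / 2 : ℝ) ^ k0) := by
          congr 1
          simp_rw [pow_add]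
          rw [tsum_mul_right, tsum_geometric_of_lt_one (by norm_num) (by norm_num)]
          norm_num
  obtain ⟨h4, h5⟩ := summable_of_enn (fun j => norm_nonneg _) (by positivity) h3
  exact ⟨memStep_of_summable h4, (nq_le_tsum h4).trans h5⟩

/-- Truncation. -/
theorem exists_trunc {u : ℕ → 𝕜} (hu : Memℓp u q) (hu0 : Tendsto u atTop (𝓝 0)) {ε : ℝ}
    (hε : 0 < ε) : ∃ N : ℕ, nq q (fun j => if j < N then 0 else u j) < ε := by
  classical
  have htm : ∀ N, Memℓp (fun j => if j < N then 0 else u j) q := fun N =>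
    hu.mono' (fun j => by split_ifs <;> simp)
  by_cases htop : q = ∞
  · subst htop
    have h1 : ∀ᶠ j in atTop, ‖u j‖ < ε / 2 :=
      (tendsto_zero_iff_norm_tendsto_zero.1 hu0).eventually (gt_mem_nhds (by positivity))
    obtain ⟨N, hN⟩ := eventually_atTop.1 h1
    refine ⟨N, ?_⟩
    rw [nq_eq (htm N)]
    refine (lp.norm_le_of_forall_le (by positivity : 0 ≤ ε / 2) (fun j => ?_)).trans_lt
      (by linarith)
    show ‖(if j < N then 0 else u j)‖ ≤ ε / 2
    split_ifs with h
    · simp; positivity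
    · exact (hN j (not_lt.1 h)).le
  · have h1 := (lp.hasSum_single htop (⟨u, hu⟩ : lp (fun _ : ℕ => 𝕜) q)).tendsto_sum_nat
    rw [Metric.tendsto_atTop] at h1
    obtain ⟨N, hN⟩ := h1 ε hε
    refine ⟨N, ?_⟩
    have h2 := hN N le_rfl
    rw [dist_eq_norm, norm_sub_rev] at h2
    rw [nq_eq (htm N)]
    refine lt_of_le_of_lt (le_of_eq ?_) h2
    congr 1
    apply lp.ext
    funext j
    rw [lp.coeFn_sub, Pi.sub_apply, lp.coeFn_sum, Finset.sum_apply]
    simp_rw [lp.single_apply]
    simp only [Pi.single_apply]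
    rw [Finset.sum_ite_eq (Finset.range N) j]
    show (if j < N then 0 else u j) = u j - if j ∈ Finset.range N then u j else 0
    simp only [Finset.mem_range]
    split_ifs <;> simp

/-- The finitely supported vectors of a countable dense family. -/
def vec (𝕜 : Type u) [RCLike 𝕜] (l : List ℕ) : ℕ → 𝕜 :=
  fun j => (l.map (TopologicalSpace.denseSeq 𝕜)).getD j 0

theorem vec_of_le {l : List ℕ} {j : ℕ} (h : l.length ≤ j) : vec 𝕜 l j = 0 := by
  rw [vec, List.getD_eq_default]
  simpa using h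

/-- Density of the family. -/
theorem exists_vec {v : ℕ → ℝ} (hv : ∀ j, 0 < v j) {z : ℕ → 𝕜} (hz : MemStep q v z) {ε : ℝ}
    (hε : 0 < ε) : ∃ l : List ℕ, stepNorm q v (vec 𝕜 l - z) < ε := by
  classical
  obtain ⟨N, hN⟩ := exists_trunc hz.1 hz.2 (half_pos hε)
  have hc : ∀ j, ∃ c : ℕ, ‖TopologicalSpace.denseSeq 𝕜 c - z j‖ < ε / (2 * (N + 1) * v j) := by
    intro j
    have hp : 0 < ε / (2 * (N + 1) * v j) := by
      have := hv j
      positivity
    obtain ⟨c, hc⟩ := (TopologicalSpace.denseRange_denseSeq 𝕜).exists_dist_lt (z j) hp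
    refine ⟨c, ?_⟩
    rw [dist_eq_norm, norm_sub_rev] at hc
    exact hc
  choose c hc using hc
  refine ⟨(List.range N).map c, ?_⟩
  have hvec : ∀ j, vec 𝕜 ((List.range N).map c) j =
      if j < N then TopologicalSpace.denseSeq 𝕜 (c j) else 0 := by
    intro j
    split_ifs with h
    · rw [vec, List.getD_eq_getElem _ _ (by simpa using h)]
      simp
    · exact vec_of_le (by simpa using h)
  set a : ℕ → 𝕜 := fun j => if j < N then (v j : 𝕜) * (TopologicalSpace.denseSeq 𝕜 (c j) - z j)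
    else 0 with ha
  set b : ℕ → 𝕜 := fun j => if j < N then 0 else wm v z j with hb
  have hsplit : wm v (vec 𝕜 ((List.range N).map c) - z) = a + (-1 : 𝕜) • b := by
    funext j
    simp only [Pi.add_apply, Pi.smul_apply, wm, Pi.sub_apply, hvec, ha, hb]
    split_ifs <;> simp
  have hasum : Summable fun j => ‖a j‖ :=
    summable_of_finite (Finset.range N) (fun j hj => by
      rw [ha]
      simp only
      rw [if_neg (by simpa using hj)])
  have hbm : Memℓp b q := hz.1.mono' (fun j => by rw [hb]; simp only; split_ifs <;> simp)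
  rw [stepNorm, hsplit]
  refine (nq_add_le (memℓp_of_summable hasum) (hbm.const_smul _)).trans_lt ?_
  rw [nq_smul hbm, norm_neg, norm_one, one_mul]
  have h1 : nq q a ≤ ε / 2 := by
    refine (nq_le_tsum hasum).trans ?_
    rw [tsum_eq_sum (s := Finset.range N) (fun j hj => by
      rw [ha]
      simp only
      rw [if_neg (by simpa using hj), norm_zero])]
    calc ∑ j ∈ Finset.range N, ‖a j‖ ≤ ∑ j ∈ Finset.range N, ε / (2 * (N + 1)) := by
          refine Finset.sum_le_sum fun j hj => ?_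
          rw [ha]
          simp only
          rw [if_pos (Finset.mem_range.1 hj), norm_mul, RCLike.norm_ofReal, abs_of_pos (hv j)]
          have h2 := (hc j).le
          have h3 := hv j
          calc v j * ‖TopologicalSpace.denseSeq 𝕜 (c j) - z j‖ ≤
              v j * (ε / (2 * (N + 1) * v j)) := mul_le_mul_of_nonneg_left h2 h3.le
            _ = ε / (2 * (N + 1)) := by field_simp
      _ = N * (ε / (2 * (N + 1))) := by rw [Finset.sum_const, Finset.card_range, nsmul_eq_mul]
      _ ≤ ε / 2 := by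
          rw [mul_div_assoc', div_le_div_iff₀ (by positivity) (by norm_num)]
          nlinarith
  linarith

/-- The enumeration of the family in which every member occurs infinitely often. -/
def yy (𝕜 : Type u) [RCLike 𝕜] (k : ℕ) : ℕ → 𝕜 :=
  vec 𝕜 ((Encodable.decode (α := List ℕ) k.unpair.1).getD [])

/-- The lengths of the members. -/
def ylen (k : ℕ) : ℕ := ((Encodable.decode (α := List ℕ) k.unpair.1).getD []).length

theorem yy_of_le {k j : ℕ} (h : ylen k ≤ j) : yy 𝕜 k j = 0 := vec_of_le h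

theorem yy_pair (l : List ℕ) (i : ℕ) : yy 𝕜 (Nat.pair (Encodable.encode l) i) = vec 𝕜 l := by
  rw [yy, Nat.unpair_pair]
  simp

theorem seqHypercyclic_of_tendsto (hB : ∀ x ∈ coechelon 𝕜 q V, sh x ∈ coechelon 𝕜 q V) (m : ℕ)
    (hm : Tendsto (V.v m) atTop (𝓝 0)) : SeqHypercyclic (bshift hB) := by
  classical
  -- thresholds
  have hS : ∀ l : ℕ, ∃ S : ℕ, ∀ s, S ≤ s →
      ∑ i ∈ Finset.range (ylen l), V.v m (i + s) * ‖yy 𝕜 l i‖ ≤ (1 / 2 : ℝ) ^ l := by
    intro l
    have h1 : Tendsto (fun s => ∑ i ∈ Finset.range (ylen l), V.v m (i + s) * ‖yy 𝕜 l i‖) atTop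
        (𝓝 0) := by
      have h2 : Tendsto (fun s => ∑ i ∈ Finset.range (ylen l), V.v m (i + s) * ‖yy 𝕜 l i‖) atTop
          (𝓝 (∑ i ∈ Finset.range (ylen l), 0 * ‖yy 𝕜 l i‖)) := by
        refine tendsto_finsetSum _ (fun i _ => ?_)
        refine Tendsto.mul_const _ (hm.comp ?_)
        exact tendsto_atTop_mono (fun s => Nat.le_add_left s i) tendsto_id
      simpa using h2
    obtain ⟨S, hS⟩ := eventually_atTop.1 (h1.eventually (gt_mem_nhds (by positivity :
      (0 : ℝ) < (1 / 2) ^ l)))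
    exact ⟨S, fun s hs => (hS s hs).le⟩
  choose S hS using hS
  -- the positions
  obtain ⟨N, hN0, hN⟩ : ∃ N : ℕ → ℕ, N 0 = S 0 ∧ ∀ l, N (l + 1) = N l + (S (l + 1) + ylen l + 1) :=
    ⟨fun l => Nat.rec (S 0) (fun l r => r + (S (l + 1) + ylen l + 1)) l, rfl, fun l => rfl⟩
  have hmono : StrictMono N := strictMono_nat_of_lt_succ (fun l => by rw [hN]; omega)
  have hle : ∀ k l, k < l → N k + S l ≤ N l := by
    intro k l hkl
    obtain ⟨l', rfl⟩ : ∃ l', l = l' + 1 := ⟨l - 1, by omega⟩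
    have h1 : N k ≤ N l' := hmono.monotone (by omega)
    rw [hN]
    omega
  have hle0 : ∀ l, S l ≤ N l := by
    intro l
    rcases Nat.eq_zero_or_pos l with rfl | h
    · exact hN0.ge
    · have := hle 0 l h
      omega
  have hlen : ∀ k l, k < l → N k + ylen k ≤ N l := by
    intro k l hkl
    have h1 : N (k + 1) ≤ N l := hmono.monotone hkl
    rw [hN] at h1
    omega
  -- the vector
  set X : ℕ → 𝕜 := fun j => ∑ l ∈ Finset.range (j + 1),
    if 0 ≤ l ∧ N l ≤ j then yy 𝕜 l (j - N l) else 0 with hX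
  have hXm : MemStep q (V.v m) X := by
    refine (shifted_sum (q := q) (V.v m) (fun j => (V.pos m j).le) (yy 𝕜) ylen
      (fun l j h => yy_of_le h) N 0 (fun l _ => hS l _ (hle0 l)) X (fun j => ⟨_, rfl⟩)).1
  refine ⟨mkK X ⟨m, hXm⟩, fun z => ?_⟩
  obtain ⟨m1, hm1⟩ := seq_mem z
  have hzm : MemStep q (V.v (max m m1)) z.seq := hm1.of_le (fun j => (V.pos _ j).le) (C := 1)
    (fun j => by rw [one_mul]; exact V.mono (le_max_right _ _) j)
  have hl : ∀ i : ℕ, ∃ l : List ℕ, stepNorm q (V.v (max m m1)) (vec 𝕜 l - z.seq) <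
      1 / ((i : ℝ) + 1) := fun i => exists_vec (V.pos _) hzm (by positivity)
  choose l hl using hl
  set κ : ℕ → ℕ := fun i => Nat.pair (Encodable.encode (l i)) i with hκ
  refine ⟨fun i => N (κ i), ?_⟩
  -- the error terms
  have herr : ∀ k : ℕ, MemStep q (V.v m) (fun j => X (j + N k) - yy 𝕜 k j) ∧
      stepNorm q (V.v m) (fun j => X (j + N k) - yy 𝕜 k j) ≤ 2 * (1 / 2 : ℝ) ^ (k + 1) := by
    intro k
    refine shifted_sum (q := q) (V.v m) (fun j => (V.pos m j).le) (yy 𝕜) ylen
      (fun l j h => yy_of_le h) (fun l => N l - N k) (k + 1) (fun l hl => ?_) _ (fun j => ?_)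
    · have := hle k l (by omega)
      exact hS l _ (by omega)
    · refine ⟨Finset.range (j + N k + 1), ?_⟩
      have h1 : k ∈ Finset.range (j + N k + 1) := by
        rw [Finset.mem_range]
        have := hmono.id_le k
        simp only [id] at this
        omega
      rw [hX]
      simp only
      rw [← Finset.add_sum_erase _ _ h1, ← Finset.add_sum_erase _ (fun l =>
        if k + 1 ≤ l ∧ N l - N k ≤ j then yy 𝕜 l (j - (N l - N k)) else 0) h1]
      rw [if_pos ⟨Nat.zero_le _, by omega⟩, if_neg (by omega), zero_add, Nat.add_sub_cancel,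
        add_sub_cancel_left]
      refine Finset.sum_congr rfl (fun l hl => ?_)
      have hlk : l ≠ k := (Finset.mem_erase.1 hl).1
      rcases lt_or_gt_of_ne hlk with h | h
      · rw [if_neg (show ¬ (k + 1 ≤ l ∧ N l - N k ≤ j) by omega)]
        split_ifs with h2
        · refine yy_of_le ?_
          have := hlen l k h
          omega
        · rfl
      · have h3 : N k < N l := hmono h
        by_cases h4 : N l ≤ j + N k
        · rw [if_pos ⟨Nat.zero_le _, h4⟩, if_pos ⟨h, by omega⟩]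
          congr 1
          omega
        · rw [if_neg (by omega), if_neg (by omega)]
  -- convergence
  have hκi : ∀ i, i ≤ κ i := fun i => Nat.right_le_pair _ _
  have hdiff : ∀ i, (((bshift hB)^[N (κ i)] (mkK X ⟨m, hXm⟩)) - z).seq =
      (fun j => X (j + N (κ i)) - yy 𝕜 (κ i) j) + (vec 𝕜 (l i) - z.seq) := by
    intro i
    funext j
    rw [seq_sub, Pi.sub_apply, seq_iter, seq_mkK, Pi.add_apply, Pi.sub_apply, hκ]
    simp only
    rw [yy_pair]
    ring
  have hvz : ∀ i, MemStep q (V.v (max m m1)) (vec 𝕜 (l i) - z.seq) := by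
    intro i
    have h1 : MemStep q (V.v (max m m1)) (vec 𝕜 (l i)) :=
      memStep_of_finite _ (Finset.range (l i).length) (fun j hj => vec_of_le (by simpa using hj))
    refine ⟨?_, ?_⟩
    · have : wm (V.v (max m m1)) (vec 𝕜 (l i) - z.seq) =
          wm (V.v (max m m1)) (vec 𝕜 (l i)) - wm (V.v (max m m1)) z.seq := by
        funext j; simp [wm, mul_sub]
      rw [this]
      exact h1.1.sub hzm.1
    · have : wm (V.v (max m m1)) (vec 𝕜 (l i) - z.seq) =
          wm (V.v (max m m1)) (vec 𝕜 (l i)) - wm (V.v (max m m1)) z.seq := by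
        funext j; simp [wm, mul_sub]
      rw [this]
      have := h1.2.sub hzm.2
      rwa [sub_zero] at this
  have herr' : ∀ i, MemStep q (V.v (max m m1)) (fun j => X (j + N (κ i)) - yy 𝕜 (κ i) j) :=
    fun i => (herr (κ i)).1.of_le (fun j => (V.pos _ j).le) (C := 1)
      (fun j => by rw [one_mul]; exact V.mono (le_max_left _ _) j)
  refine tendsto_of_step (max m m1) _ _ (fun i => ?_) ?_
  · rw [hdiff]
    refine ⟨?_, ?_⟩
    · rw [wm_add]; exact (herr' i).1.add (hvz i).1
    · rw [wm_add]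
      have := (herr' i).2.add (hvz i).2
      rwa [add_zero] at this
  · have hbound : ∀ i, stepNorm q (V.v (max m m1))
        (((bshift hB)^[N (κ i)] (mkK X ⟨m, hXm⟩)) - z).seq ≤
        (1 / 2 : ℝ) ^ i + 1 / ((i : ℝ) + 1) := by
      intro i
      rw [hdiff, stepNorm, wm_add]
      refine (nq_add_le (herr' i).1 (hvz i).1).trans (add_le_add ?_ (hl i).le)
      have h1 : nq q (wm (V.v (max m m1)) (fun j => X (j + N (κ i)) - yy 𝕜 (κ i) j)) ≤
          stepNorm q (V.v m) (fun j => X (j + N (κ i)) - yy 𝕜 (κ i) j) := by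
        refine nq_mono (herr (κ i)).1.1 (fun j => ?_)
        rw [norm_wm _ (fun j => (V.pos _ j).le), norm_wm _ (fun j => (V.pos _ j).le)]
        exact mul_le_mul_of_nonneg_right (V.mono (le_max_left _ _) j) (norm_nonneg _)
      refine h1.trans ((herr (κ i)).2.trans ?_)
      have h2 : (1 / 2 : ℝ) ^ (κ i) ≤ (1 / 2 : ℝ) ^ i :=
        pow_le_pow_of_le_one (by norm_num) (by norm_num) (hκi i)
      rw [pow_succ]
      linarith
    have h0 : Tendsto (fun i : ℕ => (1 / 2 : ℝ) ^ i + 1 / ((i : ℝ) + 1)) atTop (𝓝 0) := by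
      have := (tendsto_pow_atTop_nhds_zero_of_lt_one (by norm_num : (0 : ℝ) ≤ 1 / 2)
        (by norm_num)).add tendsto_one_div_add_atTop_nhds_zero_nat
      rwa [add_zero] at this
    exact squeeze_zero (fun i => nq_nonneg _) hbound h0

theorem main (hB : ∀ x ∈ coechelon 𝕜 q V, sh x ∈ coechelon 𝕜 q V)
    (hnuc : IsNuclearSpace 𝕜 (Koe 𝕜 q V)) (herg : TopErgodic (bshift hB)) :
    SeqHypercyclic (bshift hB) := by
  obtain ⟨m, hm⟩ := exists_tendsto_zero hB hnuc herg
  exact seqHypercyclic_of_tendsto hB m hm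

end Q100.Coe
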