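import Mathlib

/-!
# Admissible topologies on the set of closed subspaces
-/

set_option autoImplicit false
open Filter Topology Set

noncomputable section

namespace Q100.Eff

universe u

variable (𝕜 : Type) [RCLike 𝕜] (V : Type u) [NormedAddCommGroup V] [NormedSpace 𝕜 V]

/-- The set of closed linear subspaces of `V`. -/
def SB : Type u := {X : Submodule 𝕜 V // IsClosed (X : Set V)}

variable {V}

/-- `E⁺(U)`: the closed subspaces meeting `U`. -/
def Eplus (U : Set V) : Set (SB 𝕜 V) := {X | ((X.1 : Set V) ∩ U).Nonempty}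

/-- Admissible Polish topologies. -/
structure Admissible (τ : TopologicalSpace (SB 𝕜 V)) : Prop where
  polish : @PolishSpace (SB 𝕜 V) τ
  isOpen_Eplus : ∀ U : Set V, IsOpen U → IsOpen[τ] (Eplus 𝕜 U)
  subbasis : ∃ S : Set (Set (SB 𝕜 V)), τ = TopologicalSpace.generateFrom S ∧
    ∀ A ∈ S, ∃ U W : ℕ → Set V, (∀ n, IsOpen (U n) ∧ IsOpen (W n)) ∧
      A = ⋃ n, Eplus 𝕜 (U n) \ Eplus 𝕜 (W n)

/-- Each `h i` is continuous, `(h i X)` is dense in `X` for every `X`, and `(h i X)` is linearly
independent for every infinite-dimensional `X`. -/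
structure IsContinuousChoice (τ : TopologicalSpace (SB 𝕜 V)) (h : ℕ → SB 𝕜 V → V) : Prop where
  continuous : ∀ i, @Continuous _ _ τ _ (h i)
  dense : ∀ X : SB 𝕜 V, (X.1 : Set V) = closure (Set.range fun i => h i X)
  indep : ∀ X : SB 𝕜 V, ¬ FiniteDimensional 𝕜 X.1 → LinearIndependent 𝕜 fun i => h i X

variable (V) in
/-- There is an admissible Polish topology with a continuous choice of dense linearly independent
sequences. -/
def HasContinuousChoice : Prop :=
  ∃ τ : TopologicalSpace (SB 𝕜 V), Admissible 𝕜 τ ∧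
    ∃ h : ℕ → SB 𝕜 V → V, IsContinuousChoice 𝕜 τ h

/-- The Cantor set. -/
abbrev Cantor : Type := ℕ → Bool

end Q100.Eff
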