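import Pool.Agent.Q100.EffSel

/-!
# Continuous choice of dense linearly independent sequences
-/

set_option autoImplicit false
open Filter Topology Set

noncomputable section

namespace Q100.Eff

universe u

section

variable {𝕜 : Type} [RCLike 𝕜] {V : Type u} [NormedAddCommGroup V] [NormedSpace 𝕜 V]
  [TopologicalSpace.SeparableSpace V] [CompleteSpace V]

theorem exists_delta (W : Set (SB 𝕜 V)) (hW : IsOpen W) : ∃ δ : SB 𝕜 V → ℝ, Continuous δ ∧
    (∀ X, X ∉ W → δ X = 0) ∧ ∀ X, X ∈ W → 0 < δ X := by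
  letI : MetricSpace (SB 𝕜 V) := TopologicalSpace.metrizableSpaceMetric _
  by_cases hne : (Wᶜ).Nonempty
  · refine ⟨fun X => Metric.infDist X Wᶜ, Metric.continuous_infDist_pt _, fun X hX => ?_,
      fun X hX => ?_⟩
    · exact Metric.infDist_zero_of_mem hX
    · refine (IsClosed.notMem_iff_infDist_pos hW.isClosed_compl hne).1 ?_
      exact fun h => h hX
  · refine ⟨fun _ => 1, continuous_const, fun X hX => absurd ⟨X, hX⟩ hne, fun X _ => zero_lt_one⟩

variable (𝕜) in
/-- The scalars `1 / (N + 1)`. -/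
def sc (N : ℕ) : 𝕜 := ((N : 𝕜) + 1)⁻¹

theorem norm_sc (N : ℕ) : ‖sc 𝕜 N‖ = 1 / ((N : ℝ) + 1) := by
  unfold sc
  rw [norm_inv, one_div]
  congr 1
  have h : ((N : 𝕜) + 1) = ((N + 1 : ℕ) : 𝕜) := by push_cast; rfl
  rw [h, RCLike.norm_natCast]
  push_cast
  rfl

theorem sc_ne (N : ℕ) : sc 𝕜 N - sc 𝕜 (N + 1) ≠ 0 := by
  intro h
  have h1 : ‖sc 𝕜 N‖ = ‖sc 𝕜 (N + 1)‖ := by rw [sub_eq_zero.1 h]
  rw [norm_sc, norm_sc] at h1
  have h2 : (0 : ℝ) < (N : ℝ) + 1 := by positivity
  have h3 : (0 : ℝ) < ((N + 1 : ℕ) : ℝ) + 1 := by positivity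
  rw [div_eq_div_iff h2.ne' h3.ne'] at h1
  push_cast at h1
  linarith

/-- The inductive step. -/
theorem step (n : ℕ) (t : C(SB 𝕜 V, V)) (ht : ∀ X, t X ∈ X.1) (h : Fin n → C(SB 𝕜 V, V)) :
    ∃ g : C(SB 𝕜 V, V), (∀ X, g X ∈ X.1) ∧ (∀ X, ‖g X - t X‖ ≤ 1 / ((n : ℝ) + 1)) ∧
      ∀ X : SB 𝕜 V, ¬ FiniteDimensional 𝕜 X.1 → LinearIndependent 𝕜 (fun j => h j X) →
        LinearIndependent 𝕜 (Fin.snoc (fun j => h j X) (g X) : Fin (n + 1) → V) := by
  classical
  let f : ℕ → SB 𝕜 V → V := fun e X => sc 𝕜 e.unpair.2 • sel e.unpair.1 X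
  have hf : ∀ e, Continuous (f e) := fun e => (sel e.unpair.1).continuous.const_smul _
  let U : ℕ → Set (SB 𝕜 V) := fun e =>
    {X | LinearIndependent 𝕜 (Fin.snoc (fun j => h j X) (t X + f e X) : Fin (n + 1) → V)}
  have hU : ∀ e, IsOpen (U e) := by
    intro e
    have h1 : Continuous (fun X : SB 𝕜 V =>
        (Fin.snoc (fun j => h j X) (t X + f e X) : Fin (n + 1) → V)) := by
      refine continuous_pi (fun j => ?_)
      refine Fin.lastCases ?_ (fun i => ?_) j
      · simp only [Fin.snoc_last]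
        exact t.continuous.add (hf e)
      · simp only [Fin.snoc_castSucc]
        exact (h i).continuous
    exact isOpen_setOfPred_linearIndependent.preimage h1
  set W : Set (SB 𝕜 V) := ⋃ e, U e with hW
  have hWo : IsOpen W := isOpen_iUnion hU
  obtain ⟨δ, hδc, hδ0, hδ1⟩ := exists_delta W hWo
  have hn : (0 : ℝ) < 1 / ((n : ℝ) + 1) := by positivity
  let U' : ℕ → Set (SB 𝕜 V) := fun e => U e ∩ {X | ‖f e X‖ < min (1 / ((n : ℝ) + 1)) (δ X)}
  have hU' : ∀ e, IsOpen (U' e) := fun e => (hU e).inter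
    (isOpen_lt (hf e).norm (continuous_const.min hδc))
  have hUU' : ∀ X, X ∈ W → X ∈ ⋃ e, U' e := by
    intro X hX
    obtain ⟨e, he⟩ := mem_iUnion.1 hX
    have he' : LinearIndependent 𝕜
        (Fin.snoc (fun j => h j X) (t X + f e X) : Fin (n + 1) → V) := he
    rw [linearIndependent_finSnoc] at he'
    set S := Submodule.span 𝕜 (range fun j => h j X) with hS
    set s : V := sel e.unpair.1 X with hs
    have hb : 0 < min (1 / ((n : ℝ) + 1)) (δ X) := lt_min hn (hδ1 X hX)
    set b := min (1 / ((n : ℝ) + 1)) (δ X) with hbdef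
    obtain ⟨N, hN⟩ := exists_nat_one_div_lt (show 0 < b / (‖s‖ + 1) by positivity)
    have hsmall : ∀ N', N ≤ N' → ‖sc 𝕜 N' • s‖ < b := by
      intro N' hN'
      rw [norm_smul, norm_sc]
      have h1 : 1 / ((N' : ℝ) + 1) ≤ 1 / ((N : ℝ) + 1) := by
        apply one_div_le_one_div_of_le (by positivity)
        have : (N : ℝ) ≤ N' := by exact_mod_cast hN'
        linarith
      have h2 : 1 / ((N' : ℝ) + 1) * (‖s‖ + 1) < b := by
        rw [← lt_div_iff₀ (by positivity)]
        exact h1.trans_lt hN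
      have h3 : (0 : ℝ) < 1 / ((N' : ℝ) + 1) := by positivity
      nlinarith [norm_nonneg s]
    have hgood : ∃ N', N ≤ N' ∧ t X + sc 𝕜 N' • s ∉ S := by
      by_contra hcon
      push Not at hcon
      have h1 := hcon N le_rfl
      have h2 := hcon (N + 1) (Nat.le_succ N)
      have h3 : (sc 𝕜 N - sc 𝕜 (N + 1)) • s ∈ S := by
        have h4 := S.sub_mem h1 h2
        rwa [add_sub_add_left_eq_sub, ← sub_smul] at h4
      have h4 : s ∈ S := (S.smul_mem_iff (sc_ne N)).1 h3
      have h5 : t X ∈ S := by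
        have h6 := S.sub_mem h1 (S.smul_mem (sc 𝕜 N) h4)
        rwa [add_sub_cancel_right] at h6
      exact he'.2 (S.add_mem h5 (S.smul_mem _ h4))
    obtain ⟨N', hN'1, hN'2⟩ := hgood
    refine mem_iUnion.2 ⟨Nat.pair e.unpair.1 N', ?_, ?_⟩
    · show LinearIndependent 𝕜 (Fin.snoc (fun j => h j X)
        (t X + sc 𝕜 (Nat.pair e.unpair.1 N').unpair.2 • sel (Nat.pair e.unpair.1 N').unpair.1 X) :
          Fin (n + 1) → V)
      rw [Nat.unpair_pair]
      exact linearIndependent_finSnoc.2 ⟨he'.1, hN'2⟩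
    · show ‖sc 𝕜 (Nat.pair e.unpair.1 N').unpair.2 • sel (Nat.pair e.unpair.1 N').unpair.1 X‖ < b
      rw [Nat.unpair_pair]
      exact hsmall N' hN'1
  obtain ⟨p, hp⟩ := piecewise U' hU'
  let g : SB 𝕜 V → V := fun X => if X ∈ W then t X + f (p X) X else t X
  have hg1 : ∀ X, X ∈ W → g X = t X + f (p X) X := fun X hX => if_pos hX
  have hg0 : ∀ X, X ∉ W → g X = t X := fun X hX => if_neg hX
  have hgd : ∀ X, X ∈ W → ‖g X - t X‖ < min (1 / ((n : ℝ) + 1)) (δ X) := by
    intro X hX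
    rw [hg1 X hX, add_sub_cancel_left]
    exact (hp X (hUU' X hX)).1.2
  have hδnn : ∀ X, 0 ≤ δ X := by
    intro X
    by_cases hX : X ∈ W
    · exact (hδ1 X hX).le
    · exact (hδ0 X hX).ge
  have hgδ : ∀ X, ‖g X - t X‖ ≤ δ X := by
    intro X
    by_cases hX : X ∈ W
    · exact ((hgd X hX).trans_le (min_le_right _ _)).le
    · rw [hg0 X hX, sub_self, norm_zero]
      exact hδnn X
  have hgc : Continuous g := by
    rw [continuous_iff_continuousAt]
    intro X
    by_cases hX : X ∈ W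
    · have h1 : ContinuousAt (fun Y => t Y + f (p X) Y) X :=
        (t.continuous.add (hf _)).continuousAt
      refine h1.congr ?_
      filter_upwards [hWo.mem_nhds hX, (hp X (hUU' X hX)).2] with Y hY1 hY2
      rw [hg1 Y hY1, hY2]
    · have h1 : Tendsto (fun Y => g Y - t Y) (𝓝 X) (𝓝 0) := by
        refine squeeze_zero_norm hgδ ?_
        have h2 := hδc.tendsto X
        rwa [hδ0 X hX] at h2
      have h2 : Tendsto (fun Y => (g Y - t Y) + t Y) (𝓝 X) (𝓝 (0 + t X)) :=
        h1.add (t.continuous.tendsto X)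
      rw [ContinuousAt, hg0 X hX]
      simpa using h2
  refine ⟨⟨g, hgc⟩, fun X => ?_, fun X => ?_, fun X hX hind => ?_⟩
  · show g X ∈ X.1
    by_cases hX : X ∈ W
    · rw [hg1 X hX]
      exact X.1.add_mem (ht X) (X.1.smul_mem _ (sel_mem _ X))
    · rw [hg0 X hX]
      exact ht X
  · show ‖g X - t X‖ ≤ _
    by_cases hX : X ∈ W
    · exact ((hgd X hX).trans_le (min_le_left _ _)).le
    · rw [hg0 X hX, sub_self, norm_zero]
      exact hn.le
  · -- infinite-dimensional subspaces belong to `W`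
    show LinearIndependent 𝕜 (Fin.snoc (fun j => h j X) (g X) : Fin (n + 1) → V)
    have hXW : X ∈ W := by
      set S := Submodule.span 𝕜 (range fun j => h j X) with hS
      have hfd : FiniteDimensional 𝕜 S := FiniteDimensional.span_of_finite 𝕜 (finite_range _)
      have hScl : IsClosed (S : Set V) := S.closed_of_finiteDimensional
      obtain ⟨m, hm⟩ : ∃ m, sel m X ∉ S := by
        by_contra hcon
        push Not at hcon
        have hle : X.1 ≤ S := by
          intro x hx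
          have h1 : x ∈ closure (S : Set V) := by
            rw [Metric.mem_closure_iff]
            intro ε hε
            obtain ⟨m, hm⟩ := sel_near X x hx hε
            exact ⟨sel m X, hcon m, by rw [dist_comm]; exact hm⟩
          rwa [hScl.closure_eq] at h1
        exact hX (Submodule.finiteDimensional_of_le hle)
      have hgood : ∃ N, t X + sc 𝕜 N • sel m X ∉ S := by
        by_contra hcon
        push Not at hcon
        have h4 := S.sub_mem (hcon 0) (hcon (0 + 1))
        rw [add_sub_add_left_eq_sub, ← sub_smul] at h4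
        exact hm ((S.smul_mem_iff (sc_ne 0)).1 h4)
      obtain ⟨N, hN⟩ := hgood
      refine mem_iUnion.2 ⟨Nat.pair m N, ?_⟩
      show LinearIndependent 𝕜 (Fin.snoc (fun j => h j X)
        (t X + sc 𝕜 (Nat.pair m N).unpair.2 • sel (Nat.pair m N).unpair.1 X) : Fin (n + 1) → V)
      rw [Nat.unpair_pair]
      exact linearIndependent_finSnoc.2 ⟨hind, hN⟩
    rw [hg1 X hXW]
    exact (hp X (hUU' X hXW)).1.1

/-- The sequence. -/
def H (𝕜 : Type) [RCLike 𝕜] (V : Type u) [NormedAddCommGroup V] [NormedSpace 𝕜 V]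
    [TopologicalSpace.SeparableSpace V] [CompleteSpace V] (n : ℕ) : C(SB 𝕜 V, V) :=
  (step n (sel n.unpair.1) (sel_mem _) (fun j : Fin n => H 𝕜 V j.1)).choose
termination_by n
decreasing_by all_goals exact Fin.isLt _

theorem H_spec (n : ℕ) : (∀ X, H 𝕜 V n X ∈ X.1) ∧
    (∀ X, ‖H 𝕜 V n X - sel n.unpair.1 X‖ ≤ 1 / ((n : ℝ) + 1)) ∧
      ∀ X : SB 𝕜 V, ¬ FiniteDimensional 𝕜 X.1 →
        LinearIndependent 𝕜 (fun j : Fin n => H 𝕜 V j.1 X) →
        LinearIndependent 𝕜 (Fin.snoc (fun j : Fin n => H 𝕜 V j.1 X) (H 𝕜 V n X) :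
          Fin (n + 1) → V) := by
  have h := (step n (sel n.unpair.1) (sel_mem _) (fun j : Fin n => H 𝕜 V j.1)).choose_spec
  have h2 : H 𝕜 V n = (step n (sel n.unpair.1) (sel_mem _)
    (fun j : Fin n => H 𝕜 V j.1)).choose := by
    conv_lhs => rw [H]
  rw [← h2] at h
  exact h

theorem H_indep_fin (X : SB 𝕜 V) (hX : ¬ FiniteDimensional 𝕜 X.1) (n : ℕ) :
    LinearIndependent 𝕜 (fun j : Fin n => H 𝕜 V j.1 X) := by
  induction n with
  | zero => exact linearIndependent_empty_type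
  | succ n ih =>
    have h1 := (H_spec n).2.2 X hX ih
    have h2 : (fun j : Fin (n + 1) => H 𝕜 V j.1 X) =
        (Fin.snoc (fun j : Fin n => H 𝕜 V j.1 X) (H 𝕜 V n X) : Fin (n + 1) → V) := by
      funext j
      refine Fin.lastCases ?_ (fun i => ?_) j
      · rw [Fin.snoc_last]
        rfl
      · rw [Fin.snoc_castSucc]
        rfl
    rw [h2]
    exact h1

theorem H_indep (X : SB 𝕜 V) (hX : ¬ FiniteDimensional 𝕜 X.1) :
    LinearIndependent 𝕜 (fun j : ℕ => H 𝕜 V j X) := by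
  rw [linearIndependent_iff_finset_linearIndependent]
  intro s
  obtain ⟨N, hN⟩ : ∃ N, ∀ i ∈ s, i < N :=
    ⟨s.sup id + 1, fun i hi => Nat.lt_succ_of_le (Finset.le_sup (f := id) hi)⟩
  have h1 := (H_indep_fin X hX N).comp (fun i : s => (⟨i.1, hN i.1 i.2⟩ : Fin N)) (by
    intro i j hij
    exact Subtype.ext (congrArg Fin.val hij))
  exact h1

theorem H_dense (X : SB 𝕜 V) : (X.1 : Set V) = closure (range fun i => H 𝕜 V i X) := by
  refine Subset.antisymm ?_ ?_
  · intro x hx
    rw [Metric.mem_closure_iff]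
    intro ε hε
    obtain ⟨n, hn⟩ := sel_near X x hx (show 0 < ε / 2 by positivity)
    obtain ⟨k, hk⟩ := exists_nat_one_div_lt (show 0 < ε / 2 by positivity)
    refine ⟨_, ⟨Nat.pair n k, rfl⟩, ?_⟩
    have h1 := (H_spec (𝕜 := 𝕜) (V := V) (Nat.pair n k)).2.1 X
    rw [Nat.unpair_pair] at h1
    dsimp only at h1
    have h2 : 1 / (((Nat.pair n k : ℕ) : ℝ) + 1) ≤ 1 / ((k : ℝ) + 1) := by
      apply one_div_le_one_div_of_le (by positivity)
      have : (k : ℝ) ≤ (Nat.pair n k : ℕ) := by exact_mod_cast Nat.right_le_pair n k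
      linarith
    rw [← dist_eq_norm] at h1
    calc dist x (H 𝕜 V (Nat.pair n k) X) ≤
          dist (H 𝕜 V (Nat.pair n k) X) (sel n X) + dist (sel n X) x := by
            rw [dist_comm]
            exact dist_triangle _ _ _
      _ < ε := by linarith
  · refine closure_minimal ?_ X.2
    rintro _ ⟨i, rfl⟩
    exact (H_spec i).1 X

/-- Main theorem, for every separable Banach space. -/
theorem main (𝕜 : Type) [RCLike 𝕜] (V : Type u) [NormedAddCommGroup V] [NormedSpace 𝕜 V]
    [TopologicalSpace.SeparableSpace V] [CompleteSpace V] : HasContinuousChoice 𝕜 V :=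
  ⟨inferInstance, admissible, fun i => H 𝕜 V i, fun i => (H 𝕜 V i).continuous, H_dense, H_indep⟩

end

end Q100.Eff
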