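import Pool.Agent.Q100.EffTop

/-!
# Continuous selectors
-/

set_option autoImplicit false
open Filter Topology Set

noncomputable section

namespace Q100.Eff

universe u

section

variable {𝕜 : Type} [RCLike 𝕜] {V : Type u} [NormedAddCommGroup V] [NormedSpace 𝕜 V]
  [TopologicalSpace.SeparableSpace V]

variable (V) in
/-- The nested indices. -/
def nu (n : ℕ) (α : ℕ → Bool) : ℕ → ℕ
  | 0 => n
  | k + 1 => sInf {m | Ref V (nu n α k) m ∧ α m = true}

theorem sInf_eq_of {A B : Set ℕ} (hA : A.Nonempty) (h : ∀ m ≤ sInf A, (m ∈ B ↔ m ∈ A)) :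
    sInf B = sInf A := by
  have h1 : sInf A ∈ B := (h _ le_rfl).2 (Nat.sInf_mem hA)
  refine le_antisymm (Nat.sInf_le h1) ?_
  have h2 : sInf B ∈ B := Nat.sInf_mem ⟨_, h1⟩
  exact Nat.sInf_le ((h _ (Nat.sInf_le h1)).1 h2)

theorem nu_spec {n : ℕ} {X : SB 𝕜 V} (hX : code X n = true) (k : ℕ) :
    code X (nu V n (code X) k) = true ∧
      Ref V (nu V n (code X) k) (nu V n (code X) (k + 1)) := by
  have key : ∀ p, code X p = true →
      sInf {m | Ref V p m ∧ code X m = true} ∈ {m | Ref V p m ∧ code X m = true} := by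
    intro p hp
    refine Nat.sInf_mem ?_
    obtain ⟨m, h1, h2⟩ := (code_mem_Rng X).1 p hp
    exact ⟨m, h1, h2⟩
  have h1 : ∀ k, code X (nu V n (code X) k) = true := by
    intro k
    induction k with
    | zero => exact hX
    | succ k ih => exact (key _ ih).2
  exact ⟨h1 k, (key _ (h1 k)).1⟩

theorem nu_locconst {n : ℕ} {X : SB 𝕜 V} (hX : code X n = true) (k : ℕ) :
    ∀ᶠ Y in 𝓝 X, nu V n (code Y) k = nu V n (code X) k := by
  induction k with
  | zero => exact Eventually.of_forall (fun _ => rfl)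
  | succ k ih =>
    have h1 : ∀ᶠ Y : SB 𝕜 V in 𝓝 X, ∀ m ∈ Finset.range (nu V n (code X) (k + 1) + 1),
        code Y m = code X m := by
      rw [Filter.eventually_all_finset]
      intro m _
      have h2 : Tendsto (fun Y : SB 𝕜 V => code Y m) (𝓝 X) (𝓝 (code X m)) :=
        ((continuous_apply m).comp continuous_code).tendsto X
      rw [nhds_discrete Bool, tendsto_pure] at h2
      exact h2
    filter_upwards [ih, h1] with Y hY1 hY2
    show sInf {m | Ref V (nu V n (code Y) k) m ∧ code Y m = true} =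
      sInf {m | Ref V (nu V n (code X) k) m ∧ code X m = true}
    rw [hY1]
    refine sInf_eq_of ⟨_, (nu_spec hX k).2, (nu_spec hX (k + 1)).1⟩ (fun m hm => ?_)
    have h3 : code Y m = code X m := hY2 m (Finset.mem_range.2 (Nat.lt_succ_of_le hm))
    simp only [mem_setOf_eq, h3]

variable [CompleteSpace V]

/-- The selectors. -/
theorem exists_sel (n : ℕ) : ∃ s : SB 𝕜 V → V, Continuous s ∧ (∀ X, s X ∈ X.1) ∧
    ∀ X, code X n = true → s X ∈ bb V n := by
  classical
  have hex : ∀ X : SB 𝕜 V, ∃ x : V, (code X n = true → ∀ k, x ∈ bb V (nu V n (code X) k)) ∧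
      (code X n ≠ true → x = 0) := by
    intro X
    by_cases hX : code X n = true
    · obtain ⟨x, hx⟩ := nested (nu V n (code X)) (fun k => (nu_spec hX k).2)
      exact ⟨x, fun _ => hx, fun h => absurd hX h⟩
    · exact ⟨0, fun h => absurd h hX, fun _ => rfl⟩
  choose s hs1 hs2 using hex
  refine ⟨s, ?_, fun X => ?_, fun X hX => hs1 X hX 0⟩
  · rw [continuous_iff_continuousAt]
    intro X
    have hcode : ∀ᶠ Y : SB 𝕜 V in 𝓝 X, code Y n = code X n := by
      have h2 : Tendsto (fun Y : SB 𝕜 V => code Y n) (𝓝 X) (𝓝 (code X n)) :=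
        ((continuous_apply n).comp continuous_code).tendsto X
      rw [nhds_discrete Bool, tendsto_pure] at h2
      exact h2
    by_cases hX : code X n = true
    · rw [ContinuousAt, Metric.tendsto_nhds]
      intro ε hε
      obtain ⟨k, hk⟩ := rr_tendsto (nu V n (code X)) (fun k => (nu_spec hX k).2)
        (show 0 < ε / 2 by positivity)
      filter_upwards [nu_locconst hX k, hcode] with Y hY1 hY2
      have h1 : dist (s Y) (cc V (nu V n (code X) k)) < rr (nu V n (code X) k) := by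
        have := hs1 Y (hY2.trans hX) k
        rw [hY1] at this
        exact this
      have h2 : dist (s X) (cc V (nu V n (code X) k)) < rr (nu V n (code X) k) := hs1 X hX k
      calc dist (s Y) (s X) ≤ dist (s Y) (cc V (nu V n (code X) k)) +
            dist (s X) (cc V (nu V n (code X) k)) := dist_triangle_right _ _ _
        _ < ε := by linarith
    · have h1 : s X = 0 := hs2 X hX
      rw [ContinuousAt, h1]
      refine tendsto_const_nhds.congr' ?_
      filter_upwards [hcode] with Y hY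
      exact (hs2 Y (fun h => hX (hY ▸ h))).symm
  · by_cases hX : code X n = true
    · rw [mem_iff_code]
      intro m hm
      obtain ⟨δ, hδ, hδm⟩ := Metric.isOpen_iff.1 (isOpen_bb m) (s X) hm
      obtain ⟨k, hk⟩ := rr_tendsto (nu V n (code X)) (fun k => (nu_spec hX k).2)
        (show 0 < δ / 2 by positivity)
      obtain ⟨y, hy1, hy2⟩ := code_eq_true.1 (nu_spec hX k).1
      refine code_eq_true.2 ⟨y, hy1, hδm ?_⟩
      have e1 : dist y (cc V (nu V n (code X) k)) < rr (nu V n (code X) k) := hy2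
      have e2 : dist (s X) (cc V (nu V n (code X) k)) < rr (nu V n (code X) k) := hs1 X hX k
      rw [Metric.mem_ball]
      calc dist y (s X) ≤ dist y (cc V (nu V n (code X) k)) +
            dist (s X) (cc V (nu V n (code X) k)) := dist_triangle_right _ _ _
        _ < δ := by linarith
    · rw [hs2 X hX]
      exact X.1.zero_mem

/-- The selectors as continuous maps. -/
def sel (n : ℕ) : C(SB 𝕜 V, V) := ⟨(exists_sel n).choose, (exists_sel n).choose_spec.1⟩

theorem sel_mem (n : ℕ) (X : SB 𝕜 V) : sel n X ∈ X.1 := (exists_sel n).choose_spec.2.1 X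

theorem sel_bb (n : ℕ) (X : SB 𝕜 V) (h : code X n = true) : sel n X ∈ bb V n :=
  (exists_sel n).choose_spec.2.2 X h

theorem sel_near (X : SB 𝕜 V) (x : V) (hx : x ∈ X.1) {ε : ℝ} (hε : 0 < ε) :
    ∃ n, dist (sel n X) x < ε := by
  obtain ⟨n, hn1, hn2⟩ := exists_ball x (show 0 < ε / 2 by positivity)
  have h1 : dist (sel n X) (cc V n) < rr n := sel_bb n X (code_eq_true.2 ⟨x, hx, hn1⟩)
  refine ⟨n, ?_⟩
  calc dist (sel n X) x ≤ dist (sel n X) (cc V n) + dist x (cc V n) := dist_triangle_right _ _ _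
    _ < ε := by linarith

/-! ### Piecewise functions -/

/-- Locally constant choice of a member of an open cover. -/
theorem piecewise (W : ℕ → Set (SB 𝕜 V)) (hW : ∀ e, IsOpen (W e)) :
    ∃ p : SB 𝕜 V → ℕ, ∀ X, X ∈ ⋃ e, W e → X ∈ W (p X) ∧ ∀ᶠ Y in 𝓝 X, p Y = p X := by
  classical
  -- cylinders
  let cyl : SB 𝕜 V → ℕ → Set (SB 𝕜 V) := fun X k => {Y | ∀ j < k, code Y j = code X j}
  have hcyl_eq : ∀ X Y k, Y ∈ cyl X k → ∀ j ≤ k, cyl Y j = cyl X j := by
    intro X Y k hY j hj
    ext Z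
    constructor
    · intro h i hi
      rw [h i hi, hY i (hi.trans_le hj)]
    · intro h i hi
      rw [h i hi, hY i (hi.trans_le hj)]
  have hself : ∀ X k, X ∈ cyl X k := fun X k j _ => rfl
  have hnhds : ∀ X k, ∀ᶠ Y in 𝓝 X, Y ∈ cyl X k := by
    intro X k
    have h1 : ∀ᶠ Y : SB 𝕜 V in 𝓝 X, ∀ m ∈ Finset.range k, code Y m = code X m := by
      rw [Filter.eventually_all_finset]
      intro m _
      have h2 : Tendsto (fun Y : SB 𝕜 V => code Y m) (𝓝 X) (𝓝 (code X m)) :=
        ((continuous_apply m).comp continuous_code).tendsto X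
      rw [nhds_discrete Bool, tendsto_pure] at h2
      exact h2
    filter_upwards [h1] with Y hY j hj
    exact hY j (Finset.mem_range.2 hj)
  have hbase : ∀ (X : SB 𝕜 V) (U : Set (SB 𝕜 V)), IsOpen U → X ∈ U → ∃ k, cyl X k ⊆ U := by
    intro X U hU hX
    obtain ⟨O, hO, rfl⟩ := isInducing_code.isOpen_iff.1 hU
    obtain ⟨_, ⟨y, k, rfl⟩, hy1, hy2⟩ :=
      (PiNat.isTopologicalBasis_cylinders (fun _ : ℕ => Bool)).exists_subset_of_mem_open hX hO
    refine ⟨k, fun Y hY => hy2 ?_⟩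
    rw [PiNat.mem_cylinder_iff] at hy1 ⊢
    intro i hi
    rw [hY i hi, hy1 i hi]
  -- the level
  let κ : SB 𝕜 V → ℕ := fun X => sInf {k | ∃ e, cyl X k ⊆ W e}
  let p : SB 𝕜 V → ℕ := fun X => sInf {e | cyl X (κ X) ⊆ W e}
  refine ⟨p, fun X hX => ?_⟩
  obtain ⟨e, he⟩ := mem_iUnion.1 hX
  obtain ⟨k, hk⟩ := hbase X (W e) (hW e) he
  have hκ : ∃ e, cyl X (κ X) ⊆ W e := Nat.sInf_mem (s := {k | ∃ e, cyl X k ⊆ W e}) ⟨k, e, hk⟩
  have hp : cyl X (κ X) ⊆ W (p X) := Nat.sInf_mem (s := {e | cyl X (κ X) ⊆ W e}) hκ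
  refine ⟨hp (hself X _), ?_⟩
  filter_upwards [hnhds X (κ X)] with Y hY
  have h1 : κ Y = κ X := by
    refine sInf_eq_of (A := {k | ∃ e, cyl X k ⊆ W e}) ⟨k, e, hk⟩ (fun m hm => ?_)
    simp only [mem_setOf_eq]
    rw [hcyl_eq X Y (κ X) hY m hm]
  show sInf {e | cyl Y (κ Y) ⊆ W e} = sInf {e | cyl X (κ X) ⊆ W e}
  rw [h1, hcyl_eq X Y (κ X) hY (κ X) le_rfl]

end

end Q100.Eff
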