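import Pool.Agent.Q100.EffDefs

/-!
# A zero-dimensional admissible topology
-/

set_option autoImplicit false
open Filter Topology Set

noncomputable section

namespace Q100.Eff

universe u

/-! ### `G_δ` subsets of Polish spaces -/

theorem polish_of_isGδ {X : Type u} [TopologicalSpace X] [PolishSpace X] {s : Set X}
    (hs : IsGδ s) : PolishSpace s := by
  obtain ⟨f, hf, rfl⟩ := hs.eq_iInter_nat
  have hP : ∀ n, PolishSpace (f n) := fun n => (hf n).polishSpace
  let g : (⋂ n, f n : Set X) → ∀ n, f n := fun x n => ⟨x.1, mem_iInter.1 x.2 n⟩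
  have hg : Continuous g := by
    refine continuous_pi (fun n => ?_)
    exact Continuous.subtype_mk continuous_subtype_val _
  have hemb : IsClosedEmbedding g := by
    refine ⟨⟨?_, ?_⟩, ?_⟩
    · refine ⟨le_antisymm hg.le_induced ?_⟩
      have h1 : (Subtype.val : (⋂ n, f n : Set X) → X) = (fun y : ∀ n, f n => (y 0 : X)) ∘ g := rfl
      have h2 : Continuous (fun y : ∀ n, f n => (y 0 : X)) :=
        continuous_subtype_val.comp (continuous_apply 0)
      show TopologicalSpace.induced g _ ≤ TopologicalSpace.induced Subtype.val _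
      rw [h1, ← induced_compose]
      exact induced_mono h2.le_induced
    · intro x y h
      exact Subtype.ext (congrArg (fun z : ∀ n, f n => (z 0 : X)) h)
    · have h1 : range g = ⋂ n, {y : ∀ n, f n | (y n : X) = y 0} := by
        ext y
        rw [mem_iInter]
        constructor
        · rintro ⟨x, rfl⟩ n
          rfl
        · intro h
          refine ⟨⟨(y 0 : X), mem_iInter.2 (fun n => ?_)⟩, ?_⟩
          · have h2 : (y n : X) = y 0 := h n
            rw [← h2]
            exact (y n).2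
          · funext n
            exact Subtype.ext (h n).symm
      rw [h1]
      exact isClosed_iInter (fun n => isClosed_eq
        (continuous_subtype_val.comp (continuous_apply n))
        (continuous_subtype_val.comp (continuous_apply 0)))
  exact hemb.polishSpace

section

variable {𝕜 : Type} [RCLike 𝕜] {V : Type u} [NormedAddCommGroup V] [NormedSpace 𝕜 V]
  [TopologicalSpace.SeparableSpace V]

variable (V) in
/-- Centres. -/
def cc (n : ℕ) : V := TopologicalSpace.denseSeq V n.unpair.1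

/-- Radii. -/
def rr (n : ℕ) : ℝ := 1 / ((n.unpair.2 : ℝ) + 1)

theorem rr_pos (n : ℕ) : 0 < rr n := by
  unfold rr
  positivity

omit [NormedSpace 𝕜 V] in
theorem exists_ball (x : V) {ε : ℝ} (hε : 0 < ε) : ∃ n, dist x (cc V n) < rr n ∧ rr n < ε := by
  obtain ⟨j, hj⟩ := exists_nat_one_div_lt hε
  obtain ⟨k, hk⟩ := (TopologicalSpace.denseRange_denseSeq V).exists_dist_lt x
    (show (0 : ℝ) < 1 / ((j : ℝ) + 1) by positivity)
  refine ⟨Nat.pair k j, ?_, ?_⟩
  · unfold cc rr
    rw [Nat.unpair_pair]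
    exact hk
  · unfold rr
    rw [Nat.unpair_pair]
    exact hj

variable (V) in
/-- The balls. -/
def bb (n : ℕ) : Set V := Metric.ball (cc V n) (rr n)

omit [NormedSpace 𝕜 V] in
theorem isOpen_bb (n : ℕ) : IsOpen (bb V n) := Metric.isOpen_ball

omit [NormedSpace 𝕜 V] in
/-- The balls form a basis. -/
theorem exists_bb {x : V} {U : Set V} (hU : IsOpen U) (hx : x ∈ U) {ε : ℝ} (hε : 0 < ε) :
    ∃ n, x ∈ bb V n ∧ bb V n ⊆ U ∧ rr n < ε := by
  obtain ⟨δ, hδ, hδU⟩ := Metric.isOpen_iff.1 hU x hx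
  obtain ⟨n, h1, h2⟩ := exists_ball x (show 0 < min ε (δ / 2) by positivity)
  refine ⟨n, h1, fun y hy => hδU ?_, h2.trans_le (min_le_left _ _)⟩
  have h3 := h2.trans_le (min_le_right _ _)
  have h4 : dist y (cc V n) < rr n := hy
  rw [Metric.mem_ball]
  calc dist y x ≤ dist y (cc V n) + dist x (cc V n) := dist_triangle_right _ _ _
    _ < δ := by linarith

variable (V) in
/-- `m` refines `n`. -/
def Ref (n m : ℕ) : Prop :=
  (∀ y : V, dist y (cc V m) ≤ rr m → y ∈ bb V n) ∧ rr m ≤ rr n / 2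

omit [NormedSpace 𝕜 V] in
theorem exists_ref {x : V} {n : ℕ} (hx : x ∈ bb V n) : ∃ m, x ∈ bb V m ∧ Ref V n m := by
  have hx' : dist x (cc V n) < rr n := hx
  obtain ⟨m, h1, h2⟩ := exists_ball x
    (show 0 < min ((rr n - dist x (cc V n)) / 2) (rr n / 2) by
      have := rr_pos n
      refine lt_min ?_ ?_ <;> linarith)
  have h3 := h2.trans_le (min_le_left _ _)
  have h4 := h2.trans_le (min_le_right _ _)
  refine ⟨m, h1, fun y hy => ?_, h4.le⟩
  show dist y (cc V n) < rr n
  have h5 := dist_triangle y (cc V m) (cc V n)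
  have h6 := dist_triangle (cc V m) x (cc V n)
  rw [dist_comm (cc V m) x] at h6
  linarith

/-- The coding map. -/
def code (X : SB 𝕜 V) (n : ℕ) : Bool :=
  @decide (((X.1 : Set V) ∩ bb V n).Nonempty) (Classical.propDecidable _)

theorem code_eq_true {X : SB 𝕜 V} {n : ℕ} :
    code X n = true ↔ ((X.1 : Set V) ∩ bb V n).Nonempty := by
  unfold code
  exact @decide_eq_true_iff _ (Classical.propDecidable _)

/-- The topology. -/
instance : TopologicalSpace (SB 𝕜 V) := TopologicalSpace.induced code Pi.topologicalSpace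

theorem isInducing_code : IsInducing (code : SB 𝕜 V → ℕ → Bool) := ⟨rfl⟩

theorem continuous_code : Continuous (code : SB 𝕜 V → ℕ → Bool) := isInducing_code.continuous

theorem mem_iff_code {X : SB 𝕜 V} {x : V} : x ∈ X.1 ↔ ∀ n, x ∈ bb V n → code X n = true := by
  constructor
  · intro h n hn
    exact code_eq_true.2 ⟨x, h, hn⟩
  · intro h
    have h1 : x ∈ closure (X.1 : Set V) := by
      rw [Metric.mem_closure_iff]
      intro ε hε
      obtain ⟨n, hn1, hn2⟩ := exists_ball x (show 0 < ε / 2 by positivity)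
      obtain ⟨y, hy1, hy2⟩ := code_eq_true.1 (h n hn1)
      refine ⟨y, hy1, ?_⟩
      have h3 : dist y (cc V n) < rr n := hy2
      calc dist x y ≤ dist x (cc V n) + dist y (cc V n) := dist_triangle_right _ _ _
        _ < ε := by linarith
    rwa [X.2.closure_eq] at h1

theorem code_injective : Function.Injective (code : SB 𝕜 V → ℕ → Bool) := by
  intro X Y h
  refine Subtype.ext (Submodule.ext fun x => ?_)
  rw [mem_iff_code, mem_iff_code, h]

theorem isEmbedding_code : IsEmbedding (code : SB 𝕜 V → ℕ → Bool) :=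
  ⟨isInducing_code, code_injective⟩

variable (𝕜) in
/-- The sum set. -/
def sumSet (m n j : ℕ) : Set V :=
  {z | ∃ x ∈ bb V m, ∃ y ∈ bb V n, z = x + (TopologicalSpace.denseSeq 𝕜 j) • y}

theorem isOpen_sumSet (m n j : ℕ) : IsOpen (sumSet 𝕜 (V := V) m n j) := by
  have h : sumSet 𝕜 (V := V) m n j = ⋃ y ∈ bb V n,
      (fun x => x + (TopologicalSpace.denseSeq 𝕜 j) • y) '' bb V m := by
    ext z
    rw [mem_iUnion₂]
    constructor
    · rintro ⟨x, hx, y, hy, rfl⟩
      exact ⟨y, hy, x, hx, rfl⟩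
    · rintro ⟨y, hy, x, hx, rfl⟩
      exact ⟨x, hx, y, hy, rfl⟩
  rw [h]
  refine isOpen_biUnion (fun y _ => ?_)
  exact (isOpenMap_add_right _) _ (isOpen_bb m)

variable (𝕜 V) in
/-- The range of the coding map. -/
def Rng : Set (ℕ → Bool) :=
  {α | (∀ n, α n = true → ∃ m, Ref V n m ∧ α m = true) ∧
    (∀ m n, bb V m ⊆ bb V n → α m = true → α n = true) ∧
    (∀ n, (0 : V) ∈ bb V n → α n = true) ∧
    ∀ m n j, α m = true → α n = true → ∃ k, bb V k ⊆ sumSet 𝕜 m n j ∧ α k = true}

theorem code_mem_Rng (X : SB 𝕜 V) : code X ∈ Rng 𝕜 V := by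
  refine ⟨fun n hn => ?_, fun m n hmn hm => ?_, fun n hn => ?_, fun m n j hm hn => ?_⟩
  · obtain ⟨x, hx1, hx2⟩ := code_eq_true.1 hn
    obtain ⟨m, hm1, hm2⟩ := exists_ref hx2
    exact ⟨m, hm2, code_eq_true.2 ⟨x, hx1, hm1⟩⟩
  · obtain ⟨x, hx1, hx2⟩ := code_eq_true.1 hm
    exact code_eq_true.2 ⟨x, hx1, hmn hx2⟩
  · exact code_eq_true.2 ⟨0, X.1.zero_mem, hn⟩
  · obtain ⟨x, hx1, hx2⟩ := code_eq_true.1 hm
    obtain ⟨y, hy1, hy2⟩ := code_eq_true.1 hn
    obtain ⟨k, hk1, hk2, -⟩ := exists_bb (isOpen_sumSet (𝕜 := 𝕜) m n j)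
      (x := x + (TopologicalSpace.denseSeq 𝕜 j) • y) ⟨x, hx2, y, hy2, rfl⟩ zero_lt_one
    exact ⟨k, hk2, code_eq_true.2 ⟨_, X.1.add_mem hx1 (X.1.smul_mem _ hy1), hk1⟩⟩

/-- Nested balls converge. -/
theorem nested [CompleteSpace V] (ν : ℕ → ℕ) (hν : ∀ k, Ref V (ν k) (ν (k + 1))) :
    ∃ x : V, ∀ k, x ∈ bb V (ν k) := by
  have hr : ∀ k, rr (ν k) ≤ rr (ν 0) * (1 / 2) ^ k := by
    intro k
    induction k with
    | zero => simp
    | succ k ih =>
      rw [pow_succ]
      have := (hν k).2
      linarith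
  have hin : ∀ k l, k ≤ l → ∀ y : V, dist y (cc V (ν l)) ≤ rr (ν l) → y ∈ bb V (ν k) ∨ k = l := by
    intro k l hkl
    induction l, hkl using Nat.le_induction with
    | base => intro y _; exact Or.inr rfl
    | succ l hl ih =>
      intro y hy
      have h1 := (hν l).1 y hy
      rcases ih y (le_of_lt h1) with h | h
      · exact Or.inl h
      · left
        rw [h]
        exact h1
  have hdist : ∀ k, dist (cc V (ν k)) (cc V (ν (k + 1))) ≤ rr (ν 0) * (1 / 2) ^ k := by
    intro k
    have h1 := (hν k).1 (cc V (ν (k + 1))) (by rw [dist_self]; exact (rr_pos _).le)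
    have h2 : dist (cc V (ν (k + 1))) (cc V (ν k)) < rr (ν k) := h1
    rw [dist_comm]
    exact h2.le.trans (hr k)
  have hc : CauchySeq (fun k => cc V (ν k)) :=
    cauchySeq_of_le_geometric (1 / 2) (rr (ν 0)) (by norm_num) hdist
  obtain ⟨x, hx⟩ := cauchySeq_tendsto_of_complete hc
  have hclosed : ∀ k, dist x (cc V (ν k)) ≤ rr (ν k) := by
    intro k
    have h1 : Tendsto (fun l => dist (cc V (ν l)) (cc V (ν k))) atTop
        (𝓝 (dist x (cc V (ν k)))) := hx.dist tendsto_const_nhds
    refine le_of_tendsto h1 ?_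
    filter_upwards [eventually_ge_atTop k] with l hl
    rcases hin k l hl (cc V (ν l)) (by rw [dist_self]; exact (rr_pos _).le) with h | h
    · exact (show dist (cc V (ν l)) (cc V (ν k)) < rr (ν k) from h).le
    · rw [h, dist_self]
      exact (rr_pos _).le
  exact ⟨x, fun k => (hν k).1 x (hclosed (k + 1))⟩

theorem rr_nested (ν : ℕ → ℕ) (hν : ∀ k, Ref V (ν k) (ν (k + 1))) (k : ℕ) :
    rr (ν k) ≤ rr (ν 0) * (1 / 2) ^ k := by
  induction k with
  | zero => simp
  | succ k ih =>
    rw [pow_succ]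
    have := (hν k).2
    linarith

theorem rr_tendsto (ν : ℕ → ℕ) (hν : ∀ k, Ref V (ν k) (ν (k + 1))) {ε : ℝ} (hε : 0 < ε) :
    ∃ k, rr (ν k) < ε := by
  have h1 : Tendsto (fun k : ℕ => rr (ν 0) * (1 / 2) ^ k) atTop (𝓝 (rr (ν 0) * 0)) :=
    (tendsto_pow_atTop_nhds_zero_of_lt_one (by norm_num) (by norm_num)).const_mul _
  rw [mul_zero] at h1
  obtain ⟨k, hk⟩ := (h1.eventually_lt_const hε).exists
  exact ⟨k, (rr_nested ν hν k).trans_lt hk⟩

theorem Rng_subset [CompleteSpace V] : Rng 𝕜 V ⊆ range (code : SB 𝕜 V → ℕ → Bool) := by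
  rintro α ⟨h1, h2, h3, h4⟩
  set F : Set V := {x | ∀ n, x ∈ bb V n → α n = true} with hF
  have hFcl : IsClosed F := by
    rw [← isOpen_compl_iff, isOpen_iff_mem_nhds]
    intro x hx
    have hx' : ¬ ∀ n, x ∈ bb V n → α n = true := hx
    push Not at hx'
    obtain ⟨n, hn1, hn2⟩ := hx'
    filter_upwards [(isOpen_bb n).mem_nhds hn1] with y hy hyF
    exact hn2 (hyF n hy)
  have hFα : ∀ n, α n = true ↔ (F ∩ bb V n).Nonempty := by
    intro n
    constructor
    · intro hn
      choose! f hf using h1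
      let ν : ℕ → ℕ := fun k => Nat.rec n (fun _ m => f m) k
      have hν0 : ν 0 = n := rfl
      have hνs : ∀ k, ν (k + 1) = f (ν k) := fun k => rfl
      have hνα : ∀ k, α (ν k) = true := by
        intro k
        induction k with
        | zero => exact hn
        | succ k ih =>
          rw [hνs]
          exact (hf _ ih).2
      have hνR : ∀ k, Ref V (ν k) (ν (k + 1)) := by
        intro k
        rw [hνs]
        exact (hf _ (hνα k)).1
      obtain ⟨x, hx⟩ := nested ν hνR
      refine ⟨x, fun m hm => ?_, hx 0⟩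
      obtain ⟨δ, hδ, hδm⟩ := Metric.isOpen_iff.1 (isOpen_bb m) x hm
      obtain ⟨k, hk⟩ := rr_tendsto ν hνR (show 0 < δ / 2 by positivity)
      refine h2 (ν k) m (fun y hy => hδm ?_) (hνα k)
      have e1 : dist y (cc V (ν k)) < rr (ν k) := hy
      have e2 : dist x (cc V (ν k)) < rr (ν k) := hx k
      rw [Metric.mem_ball]
      calc dist y x ≤ dist y (cc V (ν k)) + dist x (cc V (ν k)) := dist_triangle_right _ _ _
        _ < δ := by linarith
    · rintro ⟨x, hx1, hx2⟩
      exact hx1 n hx2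
  -- closure under `x + q y`
  have hFq : ∀ x ∈ F, ∀ y ∈ F, ∀ j, x + (TopologicalSpace.denseSeq 𝕜 j) • y ∈ F := by
    intro x hx y hy j
    set q := TopologicalSpace.denseSeq 𝕜 j with hq
    have h5 : x + q • y ∈ closure F := by
      rw [Metric.mem_closure_iff]
      intro ε hε
      have hpos : 0 < ε / (4 * (1 + ‖q‖)) := by positivity
      obtain ⟨m, hm1, hm2⟩ := exists_ball x hpos
      obtain ⟨n, hn1, hn2⟩ := exists_ball y hpos
      obtain ⟨k, hk1, hk2⟩ := h4 m n j (hx m hm1) (hy n hn1)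
      obtain ⟨z, hz1, hz2⟩ := (hFα k).1 hk2
      refine ⟨z, hz1, ?_⟩
      obtain ⟨x', hx', y', hy', hz⟩ := hk1 hz2
      have e1 : dist x x' < 2 * (ε / (4 * (1 + ‖q‖))) := by
        have e2 : dist x' (cc V m) < rr m := hx'
        have := dist_triangle_right x x' (cc V m)
        linarith
      have e2 : dist y y' < 2 * (ε / (4 * (1 + ‖q‖))) := by
        have e2 : dist y' (cc V n) < rr n := hy'
        have := dist_triangle_right y y' (cc V n)
        linarith
      rw [hz, dist_eq_norm]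
      have e3 : x + q • y - (x' + q • y') = (x - x') + q • (y - y') := by
        rw [smul_sub]; abel
      rw [dist_eq_norm] at e1 e2
      rw [← hq, e3]
      calc ‖(x - x') + q • (y - y')‖ ≤ ‖x - x'‖ + ‖q • (y - y')‖ := norm_add_le _ _
        _ = ‖x - x'‖ + ‖q‖ * ‖y - y'‖ := by rw [norm_smul]
        _ ≤ 2 * (ε / (4 * (1 + ‖q‖))) + ‖q‖ * (2 * (ε / (4 * (1 + ‖q‖)))) := by
            gcongr
        _ = ε / 2 := by
            have : (1 + ‖q‖) ≠ 0 := by positivity
            field_simp
            ring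
        _ < ε := by linarith
    rwa [hFcl.closure_eq] at h5
  have hFl : ∀ x ∈ F, ∀ y ∈ F, ∀ l : 𝕜, x + l • y ∈ F := by
    intro x hx y hy l
    have hcl : IsClosed {l : 𝕜 | x + l • y ∈ F} :=
      hFcl.preimage (continuous_const.add (continuous_id.smul continuous_const))
    exact (TopologicalSpace.denseRange_denseSeq 𝕜).induction_on
      (p := fun l : 𝕜 => x + l • y ∈ F) l hcl (fun j => hFq x hx y hy j)
  have hF0 : (0 : V) ∈ F := fun n hn => h3 n hn
  let X : Submodule 𝕜 V :=
    { carrier := F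
      add_mem' := fun {x y} hx hy => by
        have := hFl x hx y hy 1
        rwa [one_smul] at this
      zero_mem' := hF0
      smul_mem' := fun c x hx => by
        have := hFl 0 hF0 x hx c
        rwa [zero_add] at this }
  refine ⟨⟨X, hFcl⟩, ?_⟩
  funext n
  rw [Bool.eq_iff_iff, code_eq_true, hFα]
  rfl

theorem isGδ_Rng : IsGδ (Rng 𝕜 V) := by
  have hcl : ∀ n : ℕ, IsClopen {α : ℕ → Bool | α n = true} := fun n =>
    (isClopen_discrete ({true} : Set Bool)).preimage (continuous_apply n)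
  have hcl' : ∀ n : ℕ, IsClopen {α : ℕ → Bool | ¬ α n = true} := fun n => (hcl n).compl
  have h : Rng 𝕜 V =
      (⋂ n, ({α : ℕ → Bool | ¬ α n = true} ∪ ⋃ m, {α : ℕ → Bool | Ref V n m ∧ α m = true})) ∩
      (⋂ m, ⋂ n, {α : ℕ → Bool | bb V m ⊆ bb V n → α m = true → α n = true}) ∩
      (⋂ n, {α : ℕ → Bool | (0 : V) ∈ bb V n → α n = true}) ∩
      (⋂ m, ⋂ n, ⋂ j, ({α : ℕ → Bool | ¬ α m = true} ∪ {α : ℕ → Bool | ¬ α n = true} ∪
        ⋃ k, {α : ℕ → Bool | bb V k ⊆ sumSet 𝕜 m n j ∧ α k = true})) := by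
    ext α
    simp only [Rng, mem_setOf_eq, mem_inter_iff, mem_iInter, mem_union, mem_iUnion, and_assoc]
    refine and_congr (forall_congr' fun n => by tauto) (and_congr Iff.rfl
      (and_congr Iff.rfl ?_))
    refine forall_congr' fun m => forall_congr' fun n => forall_congr' fun j => by tauto
  have hand : ∀ (P : Prop) (k : ℕ), IsOpen {α : ℕ → Bool | P ∧ α k = true} := by
    intro P k
    by_cases hP : P
    · simpa [hP] using (hcl k).2
    · simp [hP]
  have himp : ∀ (P : Prop) (S : Set (ℕ → Bool)), IsOpen S → IsOpen {α : ℕ → Bool | P → α ∈ S} := by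
    intro P S hS
    by_cases hP : P
    · simpa [hP] using hS
    · simp [hP]
  rw [h]
  refine IsGδ.inter (IsGδ.inter (IsGδ.inter ?_ ?_) ?_) ?_
  · exact IsGδ.iInter (fun n => ((hcl' n).2.union (isOpen_iUnion fun m => hand _ _)).isGδ)
  · refine IsGδ.iInter (fun m => IsGδ.iInter (fun n => IsOpen.isGδ ?_))
    refine himp _ {α | α m = true → α n = true} ?_
    have h2 : {α : ℕ → Bool | α m = true → α n = true} =
        {α : ℕ → Bool | ¬ α m = true} ∪ {α | α n = true} := by
      ext α
      simp only [mem_setOf_eq, mem_union]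
      tauto
    rw [h2]
    exact (hcl' m).2.union (hcl n).2
  · exact IsGδ.iInter (fun n => (himp _ _ (hcl n).2).isGδ)
  · exact IsGδ.iInter (fun m => IsGδ.iInter (fun n => IsGδ.iInter (fun j =>
      (((hcl' m).2.union (hcl' n).2).union (isOpen_iUnion fun k => hand _ _)).isGδ)))

instance [CompleteSpace V] : PolishSpace (SB 𝕜 V) := by
  have h1 : range (code : SB 𝕜 V → ℕ → Bool) = Rng 𝕜 V := by
    refine Subset.antisymm ?_ Rng_subset
    rintro _ ⟨X, rfl⟩
    exact code_mem_Rng X
  have h2 : PolishSpace (range (code : SB 𝕜 V → ℕ → Bool)) := by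
    have h3 : TopologicalSpace.IsCompletelyMetrizableSpace (ℕ → Bool) := inferInstance
    have h4 : PolishSpace (ℕ → Bool) := inferInstance
    rw [h1]
    exact polish_of_isGδ isGδ_Rng
  exact (isEmbedding_code (𝕜 := 𝕜) (V := V)).toHomeomorph.isClosedEmbedding.polishSpace

theorem isClopen_Ebb (n : ℕ) : IsClopen (Eplus 𝕜 (bb V n)) := by
  have h : Eplus 𝕜 (bb V n) = code ⁻¹' {α | α n = true} := by
    ext X
    exact code_eq_true.symm
  rw [h]
  exact ((isClopen_discrete ({true} : Set Bool)).preimage (continuous_apply n)).preimage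
    continuous_code

theorem isOpen_Eplus' (U : Set V) (hU : IsOpen U) : IsOpen (Eplus 𝕜 U) := by
  have h : Eplus 𝕜 U = ⋃ n, ⋃ (_ : bb V n ⊆ U), Eplus 𝕜 (bb V n) := by
    ext X
    rw [mem_iUnion₂]
    constructor
    · rintro ⟨x, hx1, hx2⟩
      obtain ⟨n, hn1, hn2, -⟩ := exists_bb hU hx2 zero_lt_one
      exact ⟨n, hn2, x, hx1, hn1⟩
    · rintro ⟨n, hn, x, hx1, hx2⟩
      exact ⟨x, hx1, hn hx2⟩
  rw [h]
  exact isOpen_iUnion (fun n => isOpen_iUnion (fun _ => (isClopen_Ebb n).2))

theorem admissible [CompleteSpace V] :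
    Admissible 𝕜 (inferInstance : TopologicalSpace (SB 𝕜 V)) where
  polish := inferInstance
  isOpen_Eplus := isOpen_Eplus'
  subbasis := by
    refine ⟨⋃ n : ℕ, {Eplus 𝕜 (bb V n), (Eplus 𝕜 (bb V n))ᶜ}, ?_, ?_⟩
    · refine le_antisymm ?_ ?_
      · refine le_generateFrom ?_
        intro A hA
        obtain ⟨n, hn⟩ := mem_iUnion.1 hA
        rcases hn with rfl | rfl
        · exact (isClopen_Ebb n).2
        · exact (isClopen_Ebb n).compl.2
      · refine continuous_iff_le_induced.1 ?_
        refine @continuous_pi _ _ _ (_) _ _ (fun n => ?_)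
        refine @Continuous.mk _ _ (_) _ _ (fun s _ => ?_)
        have hO1 : IsOpen[TopologicalSpace.generateFrom
            (⋃ n : ℕ, {Eplus 𝕜 (bb V n), (Eplus 𝕜 (bb V n))ᶜ})] (Eplus 𝕜 (bb V n)) :=
          TopologicalSpace.isOpen_generateFrom_of_mem (mem_iUnion.2 ⟨n, Or.inl rfl⟩)
        have hO2 : IsOpen[TopologicalSpace.generateFrom
            (⋃ n : ℕ, {Eplus 𝕜 (bb V n), (Eplus 𝕜 (bb V n))ᶜ})] (Eplus 𝕜 (bb V n))ᶜ :=
          TopologicalSpace.isOpen_generateFrom_of_mem (mem_iUnion.2 ⟨n, Or.inr rfl⟩)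
        have hpre : (fun X : SB 𝕜 V => code X n) ⁻¹' s =
            ⋃ A ∈ {A : Set (SB 𝕜 V) | (A = Eplus 𝕜 (bb V n) ∧ true ∈ s) ∨
              (A = (Eplus 𝕜 (bb V n))ᶜ ∧ false ∈ s)}, A := by
          ext X
          rw [mem_iUnion₂]
          constructor
          · intro hX
            have hX' : code X n ∈ s := hX
            cases hc : code X n with
            | true =>
              rw [hc] at hX'
              exact ⟨_, Or.inl ⟨rfl, hX'⟩, code_eq_true.1 hc⟩
            | false =>
              rw [hc] at hX'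
              refine ⟨_, Or.inr ⟨rfl, hX'⟩, fun h => ?_⟩
              rw [code_eq_true.2 h] at hc
              exact Bool.noConfusion hc
          · rintro ⟨A, (⟨rfl, h⟩ | ⟨rfl, h⟩), hA⟩
            · show code X n ∈ s
              rw [code_eq_true.2 hA]
              exact h
            · show code X n ∈ s
              have : code X n = false := by
                rw [Bool.eq_false_iff]
                intro h'
                exact hA (code_eq_true.1 h')
              rw [this]
              exact h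
        rw [hpre]
        refine @isOpen_biUnion _ _ (_) _ _ (fun A hA => ?_)
        rcases hA with ⟨rfl, _⟩ | ⟨rfl, _⟩
        · exact hO1
        · exact hO2
    · intro A hA
      obtain ⟨n, hn⟩ := mem_iUnion.1 hA
      rcases hn with rfl | rfl
      · refine ⟨fun _ => bb V n, fun _ => ∅, fun _ => ⟨isOpen_bb n, isOpen_empty⟩, ?_⟩
        have : Eplus 𝕜 (∅ : Set V) = ∅ := by
          ext X
          simp [Eplus]
        dsimp only
        rw [this, diff_empty, iUnion_const]
      · refine ⟨fun _ => univ, fun _ => bb V n, fun _ => ⟨isOpen_univ, isOpen_bb n⟩, ?_⟩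
        have : Eplus 𝕜 (univ : Set V) = univ := by
          ext X
          simp only [Eplus, inter_univ, mem_setOf_eq, mem_univ, iff_true]
          exact ⟨0, X.1.zero_mem⟩
        dsimp only
        rw [this, iUnion_const, compl_eq_univ_diff]

end

end Q100.Eff
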