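import Mathlib

/-!
# Simultaneous approximation in the dual of an `L₁`-predual
-/

set_option autoImplicit false
open Filter Topology MeasureTheory
open scoped ENNReal

noncomputable section

namespace Q100.FB

universe u v

section Simple

variable {Ω : Type v} [MeasurableSpace Ω] {μ : Measure Ω} {n : ℕ}

/-- The class in `L¹` of `F ∘ s`, for a simple function `s` with values in `ℝⁿ`. -/
def TT (s : SimpleFunc Ω (Fin n → ℝ)) (hs : s.FinMeasSupp μ) (F : (Fin n → ℝ) → ℝ) (hF : F 0 = 0) :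
    Lp ℝ 1 μ :=
  MemLp.toLp (s.map F) (SimpleFunc.memLp_iff_finMeasSupp one_ne_zero ENNReal.one_ne_top |>.2
    (hs.map hF))

variable {s : SimpleFunc Ω (Fin n → ℝ)} (hs : s.FinMeasSupp μ)

theorem TT_add {F G : (Fin n → ℝ) → ℝ} (hF : F 0 = 0) (hG : G 0 = 0) (hFG : (F + G) 0 = 0) :
    TT s hs (F + G) hFG = TT s hs F hF + TT s hs G hG := by
  unfold TT
  rw [← MemLp.toLp_add]
  rfl

theorem TT_sub {F G : (Fin n → ℝ) → ℝ} (hF : F 0 = 0) (hG : G 0 = 0) (hFG : (F - G) 0 = 0) :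
    TT s hs (F - G) hFG = TT s hs F hF - TT s hs G hG := by
  unfold TT
  rw [← MemLp.toLp_sub]
  rfl

theorem TT_smul (c : ℝ) {F : (Fin n → ℝ) → ℝ} (hF : F 0 = 0) (hcF : (c • F) 0 = 0) :
    TT s hs (c • F) hcF = c • TT s hs F hF := by
  unfold TT
  rw [← MemLp.toLp_const_smul]
  rfl

theorem norm_TT {F : (Fin n → ℝ) → ℝ} (hF : F 0 = 0) :
    ‖TT s hs F hF‖ = ∑ w ∈ s.range, |F w| * (μ (s ⁻¹' {w})).toReal := by
  classical
  unfold TT
  rw [Lp.norm_toLp, eLpNorm_one_eq_lintegral_enorm]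
  have h1 : ∫⁻ ω, ‖(s.map F) ω‖ₑ ∂μ = ∑ w ∈ s.range, ‖F w‖ₑ * μ (s ⁻¹' {w}) := by
    have h2 : (fun ω => ‖(s.map F) ω‖ₑ) = ⇑(s.map (fun w => ‖F w‖ₑ)) := rfl
    rw [h2, SimpleFunc.lintegral_eq_lintegral, SimpleFunc.map_lintegral]
  rw [h1, ENNReal.toReal_sum]
  · refine Finset.sum_congr rfl (fun w _ => ?_)
    rw [ENNReal.toReal_mul]
    congr 1
  · intro w _
    by_cases hw : w = 0
    · subst hw
      rw [hF, enorm_zero, zero_mul]
      exact ENNReal.zero_ne_top
    · exact ENNReal.mul_ne_top enorm_ne_top (hs.meas_preimage_singleton_ne_zero hw).ne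

theorem TT_zero (h : (0 : (Fin n → ℝ) → ℝ) 0 = 0) : TT s hs 0 h = 0 := by
  rw [← norm_eq_zero, norm_TT]
  simp

theorem TT_sum {ι : Type*} (t : Finset ι) (F : ι → (Fin n → ℝ) → ℝ) (hF : ∀ i, F i 0 = 0)
    (h : (∑ i ∈ t, F i) 0 = 0) : TT s hs (∑ i ∈ t, F i) h = ∑ i ∈ t, TT s hs (F i) (hF i) := by
  classical
  induction t using Finset.induction_on with
  | empty => simp only [Finset.sum_empty]; exact TT_zero hs _
  | insert i t hi ih =>
    have h1 : (∑ i ∈ t, F i) 0 = 0 := by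
      rw [Finset.sum_apply]
      exact Finset.sum_eq_zero fun i _ => hF i
    simp only [Finset.sum_insert hi]
    rw [TT_add hs (hF i) h1, ih h1]

end Simple

section Approx

variable {E : Type u} [NormedAddCommGroup E] [NormedSpace ℝ E] {Ω : Type v} [MeasurableSpace Ω]
  {μ : Measure Ω}

/-- Finitely many functionals on an `L₁`-predual are simultaneously approximated by linear
combinations of a sequence isometrically equivalent to the basis of `ℓ₁^N`. -/
theorem approx (I : StrongDual ℝ E ≃ₗᵢ[ℝ] Lp ℝ 1 μ) {n : ℕ} (φ : Fin n → StrongDual ℝ E) {τ : ℝ}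
    (hτ : 0 < τ) : ∃ (ι : Type) (_ : Fintype ι) (p : ι → StrongDual ℝ E) (G : Fin n → ι → ℝ),
      (∀ v, ‖p v‖ ≤ 1) ∧ (∀ a : ι → ℝ, ∑ v, |a v| ≤ ‖∑ v, a v • p v‖) ∧
      ∀ k, ‖φ k - ∑ v, G k v • p v‖ ≤ τ := by
  classical
  -- the vector function
  set Φ : Ω → (Fin n → ℝ) := fun ω k => (I (φ k) : Ω → ℝ) ω with hΦ
  have hΦint : MemLp Φ 1 μ := by
    have h1 : Φ = fun ω => ∑ k, (I (φ k) : Ω → ℝ) ω • (Pi.single k 1 : Fin n → ℝ) := by
      funext ω k
      rw [Finset.sum_apply]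
      simp_rw [Pi.smul_apply, Pi.single_apply, smul_eq_mul, mul_ite, mul_one, mul_zero]
      rw [Finset.sum_ite_eq]
      simp [hΦ]
    rw [memLp_one_iff_integrable, h1]
    refine integrable_finsetSum _ (fun k _ => Integrable.smul_const ?_ _)
    exact memLp_one_iff_integrable.1 (Lp.memLp (I (φ k)))
  obtain ⟨s, hs1, hs2⟩ := hΦint.exists_simpleFunc_eLpNorm_sub_lt ENNReal.one_ne_top
    (ε := ENNReal.ofReal τ) (by simpa using hτ)
  have hs : s.FinMeasSupp μ :=
    (SimpleFunc.memLp_iff_finMeasSupp one_ne_zero ENNReal.one_ne_top).1 hs2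
  set m : (Fin n → ℝ) → ℝ := fun w => (μ (s ⁻¹' {w})).toReal with hm
  set V : Finset (Fin n → ℝ) := s.range.filter (fun w => w ≠ 0 ∧ m w ≠ 0) with hV
  have hm0 : ∀ v ∈ V, 0 < m v := fun v hv =>
    lt_of_le_of_ne ENNReal.toReal_nonneg (Ne.symm (Finset.mem_filter.1 hv).2.2)
  -- the coordinates
  have hcoord : ∀ k, ‖I (φ k) - TT s hs (fun w => w k) rfl‖ ≤ τ := by
    intro k
    have h1 : I (φ k) = MemLp.toLp _ (Lp.memLp (I (φ k))) := (Lp.toLp_coeFn _ _).symm
    rw [h1]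
    unfold TT
    rw [← MemLp.toLp_sub, Lp.norm_toLp]
    refine ENNReal.toReal_le_of_le_ofReal hτ.le (le_trans ?_ hs1.le)
    refine eLpNorm_mono (fun ω => ?_)
    have h2 := norm_le_pi_norm ((Φ - ⇑s) ω) k
    exact h2
  -- the basis
  let F : (Fin n → ℝ) → ((Fin n → ℝ) → ℝ) := fun v w => if w = v ∧ v ≠ 0 then (m v)⁻¹ else 0
  have hF0 : ∀ v, F v 0 = 0 := by
    intro v
    show (if (0 : Fin n → ℝ) = v ∧ v ≠ 0 then (m v)⁻¹ else 0) = 0
    rw [if_neg]
    rintro ⟨h1, h2⟩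
    exact h2 h1.symm
  have hcomb : ∀ a : V → ℝ, ∀ w, (∑ v : V, a v • F v.1) w =
      if h : w ∈ V then a ⟨w, h⟩ * (m w)⁻¹ else 0 := by
    intro a w
    rw [Finset.sum_apply]
    simp_rw [Pi.smul_apply, smul_eq_mul]
    split_ifs with h
    · rw [Finset.sum_eq_single (⟨w, h⟩ : V)]
      · show a ⟨w, h⟩ * (if w = w ∧ w ≠ 0 then (m w)⁻¹ else 0) = _
        rw [if_pos ⟨rfl, (Finset.mem_filter.1 h).2.1⟩]
      · intro v _ hv
        show a v * (if w = v.1 ∧ v.1 ≠ 0 then (m v)⁻¹ else 0) = 0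
        rw [if_neg, mul_zero]
        rintro ⟨h1, -⟩
        exact hv (Subtype.ext h1.symm)
      · intro h1
        exact absurd (Finset.mem_univ _) h1
    · refine Finset.sum_eq_zero (fun v _ => ?_)
      show a v * (if w = v.1 ∧ v.1 ≠ 0 then (m v)⁻¹ else 0) = 0
      rw [if_neg, mul_zero]
      rintro ⟨h1, -⟩
      exact h (h1 ▸ v.2)
  have hcomb0 : ∀ a : V → ℝ, (∑ v : V, a v • F v.1) 0 = 0 := by
    intro a
    rw [hcomb, dif_neg]
    intro h
    exact (Finset.mem_filter.1 h).2.1 rfl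
  have hnorm : ∀ a : V → ℝ, ‖TT s hs (∑ v : V, a v • F v.1) (hcomb0 a)‖ = ∑ v : V, |a v| := by
    intro a
    rw [norm_TT]
    have h1 : ∀ w ∈ s.range, w ∉ V → |(∑ v : V, a v • F v.1) w| * m w = 0 := by
      intro w _ hw
      rw [hcomb, dif_neg hw, abs_zero, zero_mul]
    rw [← Finset.sum_subset (Finset.filter_subset _ _ : V ⊆ s.range) h1, ← Finset.sum_coe_sort V]
    refine Finset.sum_congr rfl (fun v _ => ?_)
    rw [hcomb, dif_pos v.2, abs_mul, abs_inv, abs_of_pos (hm0 v.1 v.2), mul_assoc,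
      inv_mul_cancel₀ (hm0 v.1 v.2).ne', mul_one]
  have hTTsum : ∀ a : V → ℝ, TT s hs (∑ v : V, a v • F v.1) (hcomb0 a) =
      ∑ v : V, a v • TT s hs (F v.1) (hF0 v.1) := by
    intro a
    rw [TT_sum hs Finset.univ (fun v : V => a v • F v.1) (fun v => by
      rw [Pi.smul_apply, hF0, smul_zero]) (hcomb0 a)]
    exact Finset.sum_congr rfl (fun v _ => TT_smul hs (a v) (hF0 v.1) _)
  refine ⟨V, inferInstance, fun v => I.symm (TT s hs (F v.1) (hF0 v.1)),
    fun k v => v.1 k * m v.1, fun v => ?_, fun a => ?_, fun k => ?_⟩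
  · rw [LinearIsometryEquiv.norm_map]
    have h1 := hnorm (Pi.single v 1)
    have h2 := hTTsum (Pi.single v 1)
    rw [h2] at h1
    have h3 : ∑ x : V, (Pi.single v 1 : V → ℝ) x • TT s hs (F x.1) (hF0 x.1) =
        TT s hs (F v.1) (hF0 v.1) := by
      rw [Finset.sum_eq_single v]
      · rw [Pi.single_eq_same, one_smul]
      · intro b _ hb
        rw [Pi.single_eq_of_ne hb, zero_smul]
      · intro h; exact absurd (Finset.mem_univ _) h
    have h4 : ∑ x : V, |(Pi.single v 1 : V → ℝ) x| = 1 := by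
      rw [Finset.sum_eq_single v]
      · rw [Pi.single_eq_same, abs_one]
      · intro b _ hb
        rw [Pi.single_eq_of_ne hb, abs_zero]
      · intro h; exact absurd (Finset.mem_univ _) h
    rw [h3, h4] at h1
    exact h1.le
  · rw [← hnorm a, hTTsum a, ← LinearIsometryEquiv.norm_map I.symm, map_sum]
    refine le_of_eq ?_
    congr 1
    exact Finset.sum_congr rfl (fun v _ => map_smul _ _ _)
  · have h1 : ∑ v : V, (v.1 k * m v.1) • I.symm (TT s hs (F v.1) (hF0 v.1)) =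
        I.symm (TT s hs (∑ v : V, (v.1 k * m v.1) • F v.1) (hcomb0 _)) := by
      rw [hTTsum, map_sum]
      exact Finset.sum_congr rfl (fun v _ => (map_smul _ _ _).symm)
    have h2 : TT s hs (∑ v : V, (v.1 k * m v.1) • F v.1) (hcomb0 _) =
        TT s hs (fun w => w k) rfl := by
      rw [← sub_eq_zero, ← norm_eq_zero, ← TT_sub hs _ _ (by
        rw [Pi.sub_apply, hcomb0]; simp), norm_TT]
      refine Finset.sum_eq_zero (fun w hw => ?_)
      rw [Pi.sub_apply, hcomb]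
      by_cases h3 : w ∈ V
      · rw [dif_pos h3]
        have h4 : w k * m w * (m w)⁻¹ - w k = 0 := by
          rw [mul_assoc, mul_inv_cancel₀ (hm0 w h3).ne', mul_one, sub_self]
        rw [h4, abs_zero, zero_mul]
      · rw [dif_neg h3]
        by_cases h4 : w = 0
        · subst h4
          simp
        · have h5 : m w = 0 := by
            by_contra h6
            exact h3 (Finset.mem_filter.2 ⟨hw, h4, h6⟩)
          show _ * m w = 0
          rw [h5, mul_zero]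
    rw [h1, h2, ← LinearIsometryEquiv.norm_map I, map_sub, LinearIsometryEquiv.apply_symm_apply]
    exact hcoord k

end Approx

end Q100.FB
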