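import Pool.Agent.Q100.FDefs

/-!
# The Daugavet property implies octahedrality
-/

set_option autoImplicit false
open Filter Topology

noncomputable section

namespace Q100.FB

universe u

variable {E : Type u} [NormedAddCommGroup E] [NormedSpace ℝ E]

theorem apply_le_norm (ψ : StrongDual ℝ E) (hψ : ‖ψ‖ ≤ 1) (y : E) : ψ y ≤ ‖y‖ := by
  calc ψ y ≤ ‖ψ y‖ := Real.le_norm_self _
    _ ≤ ‖ψ‖ * ‖y‖ := ψ.le_opNorm y
    _ ≤ 1 * ‖y‖ := mul_le_mul_of_nonneg_right hψ (norm_nonneg _)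
    _ = ‖y‖ := one_mul _

/-- Slices of slices. -/
theorem slice (hD : Daugavet E) (x : E) (hx : ‖x‖ = 1) (φ : StrongDual ℝ E) (hφ : ‖φ‖ = 1)
    (ε : ℝ) (hε : 0 < ε) : ∃ (φ₁ : StrongDual ℝ E) (ε₁ : ℝ), ‖φ₁‖ = 1 ∧ 0 < ε₁ ∧
      ∀ y : E, ‖y‖ ≤ 1 → 1 - ε₁ < φ₁ y → 1 - ε < φ y ∧ 2 - ε < ‖x + y‖ := by
  set η : ℝ := min (ε / 3) (1 / 4) with hη
  have hη0 : 0 < η := by positivity
  have hη1 : η ≤ 1 / 4 := min_le_right _ _
  have hη2 : 3 * η ≤ ε := by have := min_le_left (ε / 3) (1 / 4); linarith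
  have hφ0 : φ ≠ 0 := by
    rintro rfl
    rw [norm_zero] at hφ
    exact zero_ne_one hφ
  have hx0 : x ≠ 0 := by
    rintro rfl
    rw [norm_zero] at hx
    exact zero_ne_one hx
  have h1 : ‖ContinuousLinearMap.id ℝ E + φ.smulRight x‖ = 2 := by
    rw [hD φ x hφ0 hx0, ContinuousLinearMap.norm_smulRight_apply, hφ, hx]
    norm_num
  obtain ⟨w, hw1, hw2⟩ : ∃ w : E, ‖w‖ ≤ 1 ∧ 2 - η < ‖w + φ w • x‖ := by
    by_contra hcon
    push Not at hcon
    have h2 : ‖ContinuousLinearMap.id ℝ E + φ.smulRight x‖ ≤ 2 - η := by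
      refine ContinuousLinearMap.opNorm_le_of_unit_norm (by linarith) (fun w hw => ?_)
      exact hcon w hw.le
    linarith
  have hne : ‖w + φ w • x‖ ≠ 0 := by
    intro h
    rw [h] at hw2
    linarith
  obtain ⟨ψ0, hψ1, hψ2⟩ := exists_dual_vector ℝ _ hne
  have hψ3 : 2 - η < ψ0 w + φ w * ψ0 x := by
    have : ψ0 (w + φ w • x) = ψ0 w + φ w * ψ0 x := by
      rw [map_add, map_smul, smul_eq_mul]
    rw [← this, hψ2]
    simpa using hw2
  have hb : ∀ (g : StrongDual ℝ E) (v : E), ‖g‖ ≤ 1 → ‖v‖ ≤ 1 → |g v| ≤ 1 := by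
    intro g v hg hv
    rw [← Real.norm_eq_abs]
    calc ‖g v‖ ≤ ‖g‖ * ‖v‖ := g.le_opNorm v
      _ ≤ 1 * 1 := mul_le_mul hg hv (norm_nonneg _) zero_le_one
      _ = 1 := one_mul 1
  -- the sign
  obtain ⟨ψ, w', hψn, hw', hψx, hψw⟩ : ∃ (ψ : StrongDual ℝ E) (w' : E), ‖ψ‖ = 1 ∧ ‖w'‖ ≤ 1 ∧
      0 ≤ ψ x ∧ 2 - η < ψ w' + φ w' * ψ x := by
    rcases le_total 0 (ψ0 x) with h | h
    · exact ⟨ψ0, w, hψ1, hw1, h, hψ3⟩
    · refine ⟨-ψ0, -w, by rw [norm_neg]; exact hψ1, by rwa [norm_neg], ?_, ?_⟩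
      · show 0 ≤ -(ψ0 x)
        linarith
      · show 2 - η < -(ψ0 (-w)) + φ (-w) * -(ψ0 x)
        rw [map_neg, map_neg]
        linarith
  have a1 := (abs_le.1 (hb ψ w' hψn.le hw')).2
  have a2 := (abs_le.1 (hb ψ x hψn.le hx.le)).2
  have a3 := (abs_le.1 (hb φ w' hφ.le hw')).2
  have a4 : φ w' * ψ x ≤ ψ x := by nlinarith
  have hψx1 : 1 - η < ψ x := by linarith
  set g : StrongDual ℝ E := ψ + (ψ x) • φ with hg
  have hgw : 2 - η < g w' := by
    show 2 - η < ψ w' + ψ x * φ w'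
    linarith
  have hgn : 2 - η < ‖g‖ := by
    calc 2 - η < g w' := hgw
      _ ≤ ‖g w'‖ := Real.le_norm_self _
      _ ≤ ‖g‖ * ‖w'‖ := g.le_opNorm _
      _ ≤ ‖g‖ * 1 := mul_le_mul_of_nonneg_left hw' (norm_nonneg _)
      _ = ‖g‖ := mul_one _
  have hg0 : 0 < ‖g‖ := by linarith
  refine ⟨‖g‖⁻¹ • g, η / 2, ?_, by positivity, fun y hy hgy => ?_⟩
  · rw [norm_smul, norm_inv, norm_norm, inv_mul_cancel₀ hg0.ne']
  · have h2 : (1 - η / 2) * ‖g‖ < g y := by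
      have h3 : (‖g‖⁻¹ • g) y = ‖g‖⁻¹ * g y := rfl
      rw [h3, lt_inv_mul_iff₀ hg0] at hgy
      linarith
    have h3 : 2 - 2 * η < ψ y + ψ x * φ y := by
      have h4 : g y = ψ y + ψ x * φ y := rfl
      rw [← h4]
      nlinarith
    have b1 := (abs_le.1 (hb ψ y hψn.le hy)).2
    have b2 := (abs_le.1 (hb φ y hφ.le hy)).2
    have b3 : ψ x * φ y ≤ ψ x := by nlinarith
    have h5 : 1 - 2 * η < ψ y := by linarith
    have h6 : 1 - 2 * η < ψ x * φ y := by linarith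
    have h7 : 1 - 2 * η < φ y := by
      have : 0 < φ y := by
        by_contra hneg
        push Not at hneg
        nlinarith
      nlinarith
    refine ⟨by linarith, ?_⟩
    have h8 := apply_le_norm ψ hψn.le (x + y)
    rw [map_add] at h8
    linarith

/-- A simultaneous choice for finitely many unit vectors. -/
theorem finite_slice (hD : Daugavet E) (t : Finset E) (ht : ∀ x ∈ t, ‖x‖ = 1)
    (φ : StrongDual ℝ E) (hφ : ‖φ‖ = 1) (ε : ℝ) (hε : 0 < ε) :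
    ∃ (φ₁ : StrongDual ℝ E) (ε₁ : ℝ), ‖φ₁‖ = 1 ∧ 0 < ε₁ ∧
      ∀ y : E, ‖y‖ ≤ 1 → 1 - ε₁ < φ₁ y → 1 - ε < φ y ∧ ∀ x ∈ t, 2 - ε < ‖x + y‖ := by
  classical
  induction t using Finset.induction_on with
  | empty => exact ⟨φ, ε, hφ, hε, fun y _ h => ⟨h, by simp⟩⟩
  | insert x t hx ih =>
    obtain ⟨φ₁, ε₁, h1, h2, h3⟩ := ih (fun y hy => ht y (Finset.mem_insert_of_mem hy))
    obtain ⟨φ₂, ε₂, g1, g2, g3⟩ := slice hD x (ht x (Finset.mem_insert_self _ _)) φ₁ h1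
      (min ε ε₁) (lt_min hε h2)
    refine ⟨φ₂, ε₂, g1, g2, fun y hy hy2 => ?_⟩
    obtain ⟨e1, e2⟩ := g3 y hy hy2
    have e3 := h3 y hy (by
      have := min_le_right ε ε₁
      linarith)
    refine ⟨e3.1, fun z hz => ?_⟩
    rcases Finset.mem_insert.1 hz with rfl | hz
    · have := min_le_left ε ε₁
      linarith
    · exact e3.2 z hz

theorem exists_almost_norming (φ : StrongDual ℝ E) (hφ : ‖φ‖ = 1) (ε : ℝ) (hε : 0 < ε) :
    ∃ y : E, ‖y‖ ≤ 1 ∧ 1 - ε < φ y := by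
  by_contra hcon
  push Not at hcon
  have h1 : ‖φ‖ ≤ max (1 - ε) 0 := by
    refine ContinuousLinearMap.opNorm_le_of_unit_norm (le_max_right _ _) (fun y hy => ?_)
    rw [Real.norm_eq_abs, abs_le]
    constructor
    · have := hcon (-y) (by rw [norm_neg]; exact hy.le)
      rw [map_neg] at this
      have := le_max_left (1 - ε) 0
      linarith
    · exact (hcon y hy.le).trans (le_max_left _ _)
  rw [hφ] at h1
  rcases le_max_iff.1 h1 with h | h <;> linarith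

/-- Octahedrality of spaces with the Daugavet property. -/
theorem octahedral [Nontrivial E] (hD : Daugavet E) (F : Submodule ℝ E)
    [FiniteDimensional ℝ F] (δ : ℝ) (hδ : 0 < δ) :
    ∃ y : E, ‖y‖ ≤ 1 ∧ ∀ u ∈ F, ∀ l : ℝ, (1 - δ) * (‖u‖ + |l|) ≤ ‖u + l • y‖ := by
  classical
  -- a finite net of the sphere
  obtain ⟨t, ht1, ht2⟩ : ∃ t : Finset E, (∀ x ∈ t, ‖x‖ = 1) ∧
      ∀ u ∈ F, ‖u‖ = 1 → ∃ x ∈ t, ‖u - x‖ < δ / 2 := by
    have hc : IsCompact (Metric.sphere (0 : F) 1) := isCompact_sphere _ _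
    obtain ⟨s, hs1, hs2, hs3⟩ := hc.finite_cover_balls (show 0 < δ / 2 by positivity)
    refine ⟨hs2.toFinset.image (fun x : F => (x : E)), fun x hx => ?_, fun u hu hu1 => ?_⟩
    · obtain ⟨z, hz, rfl⟩ := Finset.mem_image.1 hx
      have := hs1 (hs2.mem_toFinset.1 hz)
      rw [mem_sphere_zero_iff_norm] at this
      exact this
    · have h1 : (⟨u, hu⟩ : F) ∈ Metric.sphere (0 : F) 1 := by
        rw [mem_sphere_zero_iff_norm]
        exact hu1
      obtain ⟨z, hz, hzu⟩ := Set.mem_iUnion₂.1 (hs3 h1)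
      refine ⟨z, Finset.mem_image.2 ⟨z, hs2.mem_toFinset.2 hz, rfl⟩, ?_⟩
      rw [Metric.mem_ball, dist_eq_norm] at hzu
      exact hzu
  obtain ⟨φ0, hφ0, -⟩ := exists_dual_vector' ℝ (0 : E)
  obtain ⟨φ₁, ε₁, h1, h2, h3⟩ := finite_slice hD t ht1 φ0 hφ0 (δ / 2) (by positivity)
  obtain ⟨y, hy1, hy2⟩ := exists_almost_norming φ₁ h1 ε₁ h2
  obtain ⟨h4, h5⟩ := h3 y hy1 hy2
  have hyn : 1 - δ / 2 < ‖y‖ := h4.trans_le (apply_le_norm φ0 hφ0.le y)
  have hsph : ∀ u ∈ F, ‖u‖ = 1 → 2 - δ ≤ ‖u + y‖ := by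
    intro u hu hu1
    obtain ⟨x, hx, hux⟩ := ht2 u hu hu1
    have h6 := h5 x hx
    have h7 : ‖x + y‖ ≤ ‖u + y‖ + ‖u - x‖ := by
      have : x + y = (u + y) - (u - x) := by abel
      rw [this]
      exact norm_sub_le _ _
    linarith
  -- positive coefficients
  have hpos : ∀ u ∈ F, ∀ l : ℝ, 0 ≤ l → (1 - δ) * (‖u‖ + l) ≤ ‖u + l • y‖ := by
    intro u hu l hl
    rcases eq_or_ne u 0 with rfl | hu0
    · rw [norm_zero, zero_add, zero_add, norm_smul, Real.norm_eq_abs, abs_of_nonneg hl]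
      nlinarith
    · have ha : 0 < ‖u‖ := norm_pos_iff.2 hu0
      have hs := hsph (‖u‖⁻¹ • u) (F.smul_mem _ hu) (by
        rw [norm_smul, norm_inv, norm_norm, inv_mul_cancel₀ ha.ne'])
      have hun : ‖‖u‖⁻¹ • u‖ = 1 := by
        rw [norm_smul, norm_inv, norm_norm, inv_mul_cancel₀ ha.ne']
      set v := ‖u‖⁻¹ • u with hv
      have huv : u = ‖u‖ • v := by
        rw [hv, smul_smul, mul_inv_cancel₀ ha.ne', one_smul]
      rcases le_total l ‖u‖ with hle | hle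
      · have e1 : ‖u‖ • (v + y) = (u + l • y) + (‖u‖ - l) • y := by
          rw [smul_add, ← huv, sub_smul]; abel
        have e2 : ‖u‖ * ‖v + y‖ ≤ ‖u + l • y‖ + (‖u‖ - l) := by
          calc ‖u‖ * ‖v + y‖ = ‖‖u‖ • (v + y)‖ := by rw [norm_smul, norm_norm]
            _ = ‖(u + l • y) + (‖u‖ - l) • y‖ := by rw [e1]
            _ ≤ ‖u + l • y‖ + ‖(‖u‖ - l) • y‖ := norm_add_le _ _
            _ ≤ ‖u + l • y‖ + (‖u‖ - l) := by
                gcongr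
                rw [norm_smul, Real.norm_eq_abs, abs_of_nonneg (by linarith)]
                nlinarith
        nlinarith
      · have e1 : l • (v + y) = (u + l • y) + (l - ‖u‖) • v := by
          rw [smul_add, sub_smul, ← huv]; abel
        have e2 : l * ‖v + y‖ ≤ ‖u + l • y‖ + (l - ‖u‖) := by
          calc l * ‖v + y‖ = ‖l • (v + y)‖ := by
                rw [norm_smul, Real.norm_eq_abs, abs_of_nonneg hl]
            _ = ‖(u + l • y) + (l - ‖u‖) • v‖ := by rw [e1]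
            _ ≤ ‖u + l • y‖ + ‖(l - ‖u‖) • v‖ := norm_add_le _ _
            _ ≤ ‖u + l • y‖ + (l - ‖u‖) := by
                gcongr
                rw [norm_smul, Real.norm_eq_abs, abs_of_nonneg (by linarith), hun, mul_one]
        nlinarith
  refine ⟨y, hy1, fun u hu l => ?_⟩
  rcases le_total 0 l with hl | hl
  · rw [abs_of_nonneg hl]
    exact hpos u hu l hl
  · have h6 := hpos (-u) (F.neg_mem hu) (-l) (by linarith)
    rw [norm_neg] at h6
    have h7 : -u + (-l) • y = -(u + l • y) := by rw [neg_smul, neg_add]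
    rw [h7, norm_neg] at h6
    rw [abs_of_nonpos hl]
    exact h6

end Q100.FB
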