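import Mathlib

/-!
# Free Banach lattices, `L₁`-preduals, the Daugavet property: definitions
-/

set_option autoImplicit false
open Filter Topology MeasureTheory
open scoped ENNReal

noncomputable section

namespace Q100.FB

universe u v

section

variable {E : Type u} [NormedAddCommGroup E] [NormedSpace ℝ E]

/-- `sup_{x ∈ B_E} ∑ |x_i^*(x)| ≤ 1`. -/
def WeakUnit {n : ℕ} (φ : Fin n → StrongDual ℝ E) : Prop :=
  ∀ x : E, ‖x‖ ≤ 1 → ∑ i, |φ i x| ≤ 1

/-- The norm `‖f‖ = sup ∑ |f(x_i^*)|`, the supremum over all finite families with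
`sup_{x ∈ B_E} ∑ |x_i^*(x)| ≤ 1`. -/
def fblNorm (f : StrongDual ℝ E → ℝ) : ℝ≥0∞ :=
  ⨆ (n : ℕ) (φ : Fin n → StrongDual ℝ E) (_ : WeakUnit φ), ENNReal.ofReal (∑ i, |f (φ i)|)

/-- Positively homogeneous functions on the dual. -/
def PosHom (f : StrongDual ℝ E → ℝ) : Prop :=
  ∀ (c : ℝ) (φ : StrongDual ℝ E), 0 ≤ c → f (c • φ) = c * f φ

/-- The evaluation functions `δ_x`. -/
def delta (x : E) : StrongDual ℝ E → ℝ := fun φ => φ x

/-- The vector lattice of functions generated by the `δ_x` (pointwise operations). -/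
inductive Lat : (StrongDual ℝ E → ℝ) → Prop
  | delta (x : E) : Lat (delta x)
  | add {f g : StrongDual ℝ E → ℝ} : Lat f → Lat g → Lat (f + g)
  | smul (c : ℝ) {f : StrongDual ℝ E → ℝ} : Lat f → Lat (c • f)
  | sup {f g : StrongDual ℝ E → ℝ} : Lat f → Lat g → Lat (f ⊔ g)

end

section

variable (E : Type u) [NormedAddCommGroup E] [NormedSpace ℝ E]

/-- The free Banach lattice `FBL[E]`: the closure, in the norm `fblNorm`, of the vector lattice
generated by the `δ_x` in the space of positively homogeneous functions. -/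
def FBL : Set (StrongDual ℝ E → ℝ) :=
  {f | PosHom f ∧ ∀ ε : ℝ, 0 < ε → ∃ g, Lat g ∧ fblNorm (f - g) ≤ ENNReal.ofReal ε}

/-- The norm of `FBL[E]` is octahedral: for all `f_1, …, f_n` in the unit sphere of `FBL[E]` and
`ε > 0` there is `y` in the unit sphere of `FBL[E]` with `‖f_i + y‖ > 2 - ε` for all `i`. -/
def OctahedralFBL : Prop :=
  ∀ (n : ℕ) (f : Fin n → StrongDual ℝ E → ℝ), (∀ i, f i ∈ FBL E ∧ fblNorm (f i) = 1) →
    ∀ ε : ℝ, 0 < ε → ∃ y ∈ FBL E, fblNorm y = 1 ∧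
      ∀ i, ENNReal.ofReal (2 - ε) < fblNorm (f i + y)

/-- `L₁`-preduals. -/
def IsL1Predual : Prop :=
  ∃ (Ω : Type v) (_ : MeasurableSpace Ω) (μ : Measure Ω),
    Nonempty (StrongDual ℝ E ≃ₗᵢ[ℝ] Lp ℝ 1 μ)

/-- The Daugavet property: `‖I + T‖ = 1 + ‖T‖` for all rank-one operators `T = φ ⊗ x`. -/
def Daugavet : Prop :=
  ∀ (φ : StrongDual ℝ E) (x : E), φ ≠ 0 → x ≠ 0 →
    ‖ContinuousLinearMap.id ℝ E + φ.smulRight x‖ = 1 + ‖φ.smulRight x‖

end

end Q100.FB
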