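import Pool.Agent.Q100.FApprox
import Pool.Agent.Q100.FDaug

/-!
# Octahedrality of free Banach lattices over `L₁`-preduals with the Daugavet property
-/

set_option autoImplicit false
open Filter Topology MeasureTheory
open scoped ENNReal

noncomputable section

namespace Q100.FB

universe u v

variable {E : Type u} [NormedAddCommGroup E] [NormedSpace ℝ E]

/-! ### The norm -/

theorem le_fblNorm_of {f : StrongDual ℝ E → ℝ} {n : ℕ} {φ : Fin n → StrongDual ℝ E}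
    (hφ : WeakUnit φ) : ENNReal.ofReal (∑ i, |f (φ i)|) ≤ fblNorm f :=
  le_iSup_of_le n (le_iSup_of_le φ (le_iSup_of_le hφ le_rfl))

theorem fblNorm_le {f : StrongDual ℝ E → ℝ} {C : ℝ} (hC : 0 ≤ C) :
    fblNorm f ≤ ENNReal.ofReal C ↔
      ∀ (n : ℕ) (φ : Fin n → StrongDual ℝ E), WeakUnit φ → ∑ i, |f (φ i)| ≤ C := by
  constructor
  · intro h n φ hφ
    have := (le_fblNorm_of (f := f) hφ).trans h
    exact (ENNReal.ofReal_le_ofReal_iff hC).1 this
  · intro h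
    exact iSup_le (fun n => iSup_le (fun φ => iSup_le (fun hφ =>
      ENNReal.ofReal_le_ofReal (h n φ hφ))))

theorem lt_fblNorm {f : StrongDual ℝ E → ℝ} {a : ℝ} {n : ℕ} {φ : Fin n → StrongDual ℝ E}
    (hφ : WeakUnit φ) (ha : a < ∑ i, |f (φ i)|) (h0 : 0 < ∑ i, |f (φ i)|) :
    ENNReal.ofReal a < fblNorm f :=
  lt_of_lt_of_le ((ENNReal.ofReal_lt_ofReal_iff h0).2 ha) (le_fblNorm_of hφ)

theorem exists_of_lt {f : StrongDual ℝ E → ℝ} {a : ℝ} (ha : 0 ≤ a)
    (h : ENNReal.ofReal a < fblNorm f) :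
    ∃ (n : ℕ) (φ : Fin n → StrongDual ℝ E), WeakUnit φ ∧ a < ∑ i, |f (φ i)| := by
  by_contra hcon
  push Not at hcon
  exact absurd ((fblNorm_le ha).2 hcon) (not_le.2 h)

theorem fblNorm_smul (c : ℝ) (f : StrongDual ℝ E → ℝ) :
    fblNorm (c • f) = ENNReal.ofReal |c| * fblNorm f := by
  unfold fblNorm
  simp_rw [ENNReal.mul_iSup]
  refine iSup_congr (fun n => iSup_congr (fun φ => iSup_congr (fun _ => ?_)))
  rw [← ENNReal.ofReal_mul (abs_nonneg _), Finset.mul_sum]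
  congr 1
  refine Finset.sum_congr rfl (fun i _ => ?_)
  rw [Pi.smul_apply, smul_eq_mul, abs_mul]

/-! ### The vector lattice -/

theorem Lat.posHom {f : StrongDual ℝ E → ℝ} (hf : Lat f) : PosHom f := by
  induction hf with
  | delta x => intro c φ _; rfl
  | add _ _ h1 h2 =>
    intro c φ hc
    rw [Pi.add_apply, Pi.add_apply, h1 c φ hc, h2 c φ hc, mul_add]
  | smul d _ h1 =>
    intro c φ hc
    rw [Pi.smul_apply, Pi.smul_apply, h1 c φ hc, smul_eq_mul, smul_eq_mul]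
    ring
  | sup _ _ h1 h2 =>
    intro c φ hc
    rw [Pi.sup_apply, Pi.sup_apply, h1 c φ hc, h2 c φ hc, ← mul_max_of_nonneg _ _ hc]

theorem Lat.continuous {f : StrongDual ℝ E → ℝ} (hf : Lat f) : Continuous f := by
  induction hf with
  | delta x => exact (ContinuousLinearMap.apply ℝ ℝ x).continuous
  | add _ _ h1 h2 => exact h1.add h2
  | smul d _ h1 => exact h1.const_smul d
  | sup _ _ h1 h2 => exact h1.sup h2

theorem Lat.finite_dep {f : StrongDual ℝ E → ℝ} (hf : Lat f) :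
    ∃ A : Finset E, ∀ φ ψ : StrongDual ℝ E, (∀ a ∈ A, φ a = ψ a) → f φ = f ψ := by
  classical
  induction hf with
  | delta x => exact ⟨{x}, fun φ ψ h => h x (Finset.mem_singleton_self x)⟩
  | add _ _ h1 h2 =>
    obtain ⟨A, hA⟩ := h1
    obtain ⟨B, hB⟩ := h2
    refine ⟨A ∪ B, fun φ ψ h => ?_⟩
    rw [Pi.add_apply, Pi.add_apply, hA φ ψ (fun a ha => h a (Finset.mem_union_left _ ha)),
      hB φ ψ (fun a ha => h a (Finset.mem_union_right _ ha))]
  | smul d _ h1 =>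
    obtain ⟨A, hA⟩ := h1
    refine ⟨A, fun φ ψ h => ?_⟩
    rw [Pi.smul_apply, Pi.smul_apply, hA φ ψ h]
  | sup _ _ h1 h2 =>
    obtain ⟨A, hA⟩ := h1
    obtain ⟨B, hB⟩ := h2
    refine ⟨A ∪ B, fun φ ψ h => ?_⟩
    rw [Pi.sup_apply, Pi.sup_apply, hA φ ψ (fun a ha => h a (Finset.mem_union_left _ ha)),
      hB φ ψ (fun a ha => h a (Finset.mem_union_right _ ha))]

theorem Lat.zero : Lat (0 : StrongDual ℝ E → ℝ) := by
  have h := Lat.smul (0 : ℝ) (Lat.delta (0 : E))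
  rwa [zero_smul] at h

theorem Lat.neg {f : StrongDual ℝ E → ℝ} (hf : Lat f) : Lat (-f) := by
  have h := Lat.smul (-1 : ℝ) hf
  rwa [neg_smul, one_smul] at h

theorem Lat.sub {f g : StrongDual ℝ E → ℝ} (hf : Lat f) (hg : Lat g) : Lat (f - g) := by
  rw [sub_eq_add_neg]
  exact hf.add hg.neg

theorem Lat.inf {f g : StrongDual ℝ E → ℝ} (hf : Lat f) (hg : Lat g) : Lat (f ⊓ g) := by
  have h := (hf.neg.sup hg.neg).neg
  rwa [neg_sup, neg_neg, neg_neg] at h

theorem Lat.sum {ι : Type*} (s : Finset ι) {f : ι → StrongDual ℝ E → ℝ} (hf : ∀ i, Lat (f i)) :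
    Lat (∑ i ∈ s, f i) := by
  classical
  induction s using Finset.induction_on with
  | empty => rw [Finset.sum_empty]; exact Lat.zero
  | insert a s ha ih =>
    rw [Finset.sum_insert ha]
    exact (hf a).add ih

theorem PosHom.zero {f : StrongDual ℝ E → ℝ} (hf : PosHom f) : f 0 = 0 := by
  have h := hf 0 0 le_rfl
  rwa [zero_smul, zero_mul] at h

/-! ### Extension of functionals -/

theorem extend {V : Type*} [AddCommGroup V] [Module ℝ V] (T : V →ₗ[ℝ] E) (g : V →ₗ[ℝ] ℝ)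
    (C : ℝ) (hC : 0 ≤ C) (hg : ∀ w, |g w| ≤ C * ‖T w‖) :
    ∃ g' : StrongDual ℝ E, ‖g'‖ ≤ C ∧ ∀ w, g' (T w) = g w := by
  obtain ⟨s, hs⟩ := T.rangeRestrict.exists_rightInverse_of_surjective T.range_rangeRestrict
  have hs' : ∀ w : LinearMap.range T, T (s w) = w := by
    intro w
    have h := congrArg (fun q : LinearMap.range T →ₗ[ℝ] LinearMap.range T => (q w : E)) hs
    exact h
  have hbound : ∀ w : LinearMap.range T, ‖(g ∘ₗ s) w‖ ≤ C * ‖w‖ := by
    intro w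
    have h := hg (s w)
    rw [hs' w] at h
    exact h
  obtain ⟨g', h1, h2⟩ := exists_extension_norm_eq (𝕜 := ℝ) (LinearMap.range T)
    ((g ∘ₗ s).mkContinuous C hbound)
  refine ⟨g', ?_, fun w => ?_⟩
  · rw [h2]
    exact LinearMap.mkContinuous_norm_le _ hC _
  · have h3 := h1 ⟨T w, LinearMap.mem_range_self T w⟩
    rw [LinearMap.mkContinuous_apply] at h3
    change g' (T w) = g (s ⟨T w, LinearMap.mem_range_self T w⟩) at h3
    rw [h3]
    have h4 := hg (s ⟨T w, LinearMap.mem_range_self T w⟩ - w)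
    rw [map_sub T, hs', sub_self, norm_zero, mul_zero] at h4
    have h5 := abs_eq_zero.1 (le_antisymm h4 (abs_nonneg _))
    rw [map_sub] at h5
    linarith

/-! ### The local approximation -/

theorem local_step {Ω : Type v} [MeasurableSpace Ω] {μ : Measure Ω}
    (I : StrongDual ℝ E ≃ₗᵢ[ℝ] Lp ℝ 1 μ) (h : StrongDual ℝ E → ℝ) (hL : Lat h) {η : ℝ}
    (hη : 0 < η) (hη1 : η < 1 / 8)
    (hup : ∀ (n : ℕ) (φ : Fin n → StrongDual ℝ E), WeakUnit φ → ∑ i, |h (φ i)| ≤ 1 + η)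
    (hlow : ∃ (n : ℕ) (φ : Fin n → StrongDual ℝ E), WeakUnit φ ∧ 1 - 2 * η < ∑ i, |h (φ i)|) :
    ∃ (ι : Type) (_ : Fintype ι) (p : ι → StrongDual ℝ E) (m : ℕ) (G : Fin m → ι → ℝ) (u : E)
      (M : ℝ), (∀ v, ‖p v‖ ≤ 1) ∧
      (∀ θ : ι → ℝ, (∀ v, |θ v| ≤ 1) → ∑ k, |∑ v, G k v * θ v| ≤ 1 + η) ∧ ‖u‖ ≤ 1 ∧ 0 ≤ M ∧
      1 - 2 * η < ∑ k, |h (∑ v, G k v • p v)| ∧
      1 - 4 * η < ∑ k, |(∑ v, G k v • p v) u| ∧
      ∀ k, |(∑ v, G k v • p v) u| ≤ M * |h (∑ v, G k v • p v)| := by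
  classical
  obtain ⟨n, φ, hφ, hφl⟩ := hlow
  -- continuity
  obtain ⟨τ₀, hτ₀, hτ⟩ : ∃ τ₀ > 0, ∀ ψ : Fin n → StrongDual ℝ E, dist ψ φ < τ₀ →
      1 - 2 * η < ∑ i, |h (ψ i)| := by
    have hc : Continuous (fun ψ : Fin n → StrongDual ℝ E => ∑ i, |h (ψ i)|) :=
      continuous_finsetSum _ (fun i _ => (hL.continuous.comp (continuous_apply i)).abs)
    have ho : IsOpen {ψ : Fin n → StrongDual ℝ E | 1 - 2 * η < ∑ i, |h (ψ i)|} :=
      isOpen_lt continuous_const hc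
    obtain ⟨τ₀, h1, h2⟩ := Metric.isOpen_iff.1 ho φ hφl
    exact ⟨τ₀, h1, fun ψ hψ => h2 hψ⟩
  set τ : ℝ := min (τ₀ / 2) (η / (n + 1)) with hτdef
  have hτ0 : 0 < τ := by positivity
  have hτ1 : τ < τ₀ := lt_of_le_of_lt (min_le_left _ _) (by linarith)
  have hτ2 : n * τ ≤ η := by
    have h1 : τ ≤ η / (n + 1) := min_le_right _ _
    rw [le_div_iff₀ (by positivity)] at h1
    nlinarith
  obtain ⟨ι, hι, p, G, hp1, hp2, hp3⟩ := approx I φ hτ0
  set ψ : Fin n → StrongDual ℝ E := fun k => ∑ v, G k v • p v with hψ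
  have hψl : 1 - 2 * η < ∑ i, |h (ψ i)| := by
    refine hτ ψ (lt_of_le_of_lt ((dist_pi_le_iff hτ0.le).2 (fun k => ?_)) hτ1)
    rw [dist_comm, dist_eq_norm]
    exact hp3 k
  have hψw : ∀ x : E, ‖x‖ ≤ 1 → ∑ i, |ψ i x| ≤ 1 + η := by
    intro x hx
    have h1 : ∀ i, |ψ i x| ≤ |φ i x| + τ := by
      intro i
      have h2 : |φ i x - ψ i x| ≤ τ := by
        calc |φ i x - ψ i x| = ‖(φ i - ψ i) x‖ := rfl
          _ ≤ ‖φ i - ψ i‖ * ‖x‖ := (φ i - ψ i).le_opNorm x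
          _ ≤ τ * 1 := mul_le_mul (hp3 i) hx (norm_nonneg _) hτ0.le
          _ = τ := mul_one _
      have h3 : |ψ i x| ≤ |φ i x| + |φ i x - ψ i x| := by
        have h4 := abs_sub_abs_le_abs_sub (ψ i x) (φ i x)
        rw [abs_sub_comm] at h4
        linarith
      linarith
    calc ∑ i, |ψ i x| ≤ ∑ i, (|φ i x| + τ) := Finset.sum_le_sum (fun i _ => h1 i)
      _ = ∑ i, |φ i x| + n * τ := by
          rw [Finset.sum_add_distrib, Finset.sum_const, Finset.card_univ, Fintype.card_fin,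
            nsmul_eq_mul]
      _ ≤ 1 + η := add_le_add (hφ x hx) hτ2
  -- the lemma about `G`
  have hW : ∀ θ : ι → ℝ, (∀ v, |θ v| ≤ 1) → ∑ k, |∑ v, G k v * θ v| ≤ 1 + η := by
    intro θ hθ
    let s : Fin n → ℝ := fun k => if 0 ≤ ∑ v, G k v * θ v then 1 else -1
    have hs : ∀ k, |∑ v, G k v * θ v| = s k * ∑ v, G k v * θ v := by
      intro k
      by_cases hk : 0 ≤ ∑ v, G k v * θ v
      · have : s k = 1 := if_pos hk
        rw [this, abs_of_nonneg hk, one_mul]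
      · have : s k = -1 := if_neg hk
        rw [this, abs_of_neg (not_le.1 hk), neg_one_mul]
    have hs1 : ∀ k, |s k| = 1 := by
      intro k
      by_cases hk : 0 ≤ ∑ v, G k v * θ v
      · have : s k = 1 := if_pos hk
        rw [this, abs_one]
      · have : s k = -1 := if_neg hk
        rw [this, abs_neg, abs_one]
    have h1 : ∑ k, |∑ v, G k v * θ v| = ∑ v, (∑ k, s k * G k v) * θ v := by
      simp_rw [hs, Finset.mul_sum, Finset.sum_mul]
      rw [Finset.sum_comm]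
      refine Finset.sum_congr rfl (fun v _ => Finset.sum_congr rfl (fun k _ => ?_))
      ring
    have h2 : ∑ v, (∑ k, s k * G k v) * θ v ≤ ∑ v, |∑ k, s k * G k v| := by
      refine Finset.sum_le_sum (fun v _ => ?_)
      calc (∑ k, s k * G k v) * θ v ≤ |(∑ k, s k * G k v) * θ v| := le_abs_self _
        _ = |∑ k, s k * G k v| * |θ v| := abs_mul _ _
        _ ≤ |∑ k, s k * G k v| * 1 := mul_le_mul_of_nonneg_left (hθ v) (abs_nonneg _)
        _ = _ := mul_one _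
    have h3 : ∑ v, (∑ k, s k * G k v) • p v = ∑ k, s k • ψ k := by
      simp_rw [hψ, Finset.smul_sum, Finset.sum_smul, smul_smul]
      rw [Finset.sum_comm]
    have h4 : ‖∑ k, s k • ψ k‖ ≤ 1 + η := by
      refine ContinuousLinearMap.opNorm_le_of_unit_norm (by linarith) (fun x hx => ?_)
      rw [_root_.sum_apply]
      calc ‖∑ k, (s k • ψ k) x‖ ≤ ∑ k, ‖(s k • ψ k) x‖ := norm_sum_le _ _
        _ = ∑ k, |ψ k x| := by
            refine Finset.sum_congr rfl (fun k _ => ?_)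
            show |s k * ψ k x| = |ψ k x|
            rw [abs_mul, hs1, one_mul]
        _ ≤ 1 + η := hψw x hx.le
    rw [h1]
    refine h2.trans ((hp2 _).trans ?_)
    rw [h3]
    exact h4
  -- zeroing out
  set G' : Fin n → ι → ℝ := fun k v => if h (ψ k) = 0 then 0 else G k v with hG'
  have hG'1 : ∀ k, h (ψ k) = 0 → ∀ v, G' k v = 0 := fun k hk v => if_pos hk
  have hG'2 : ∀ k, h (ψ k) ≠ 0 → ∀ v, G' k v = G k v := fun k hk v => if_neg hk
  have hψ'1 : ∀ k, h (ψ k) = 0 → ∑ v, G' k v • p v = 0 := by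
    intro k hk
    refine Finset.sum_eq_zero (fun v _ => ?_)
    rw [hG'1 k hk v, zero_smul]
  have hψ'2 : ∀ k, h (ψ k) ≠ 0 → ∑ v, G' k v • p v = ψ k := by
    intro k hk
    refine Finset.sum_congr rfl (fun v _ => ?_)
    rw [hG'2 k hk v]
  have hh : ∀ k, h (∑ v, G' k v • p v) = h (ψ k) := by
    intro k
    by_cases hk : h (ψ k) = 0
    · rw [hψ'1 k hk, hk, hL.posHom.zero]
    · rw [hψ'2 k hk]
  -- the vector
  obtain ⟨u, hu1, hu2⟩ : ∃ u : E, ‖u‖ ≤ 1 ∧ 1 - 4 * η < ∑ k, |(∑ v, G' k v • p v) u| := by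
    by_contra hcon
    push Not at hcon
    have ha : 0 < 1 - 4 * η := by linarith
    have h1 : WeakUnit (fun k => (1 - 4 * η)⁻¹ • ∑ v, G' k v • p v) := by
      intro x hx
      have h2 : ∀ k, |((1 - 4 * η)⁻¹ • ∑ v, G' k v • p v) x| =
          (1 - 4 * η)⁻¹ * |(∑ v, G' k v • p v) x| := by
        intro k
        show |(1 - 4 * η)⁻¹ * (∑ v, G' k v • p v) x| = _
        rw [abs_mul, abs_of_pos (inv_pos.2 ha)]
      simp_rw [h2]
      rw [← Finset.mul_sum, inv_mul_le_iff₀ ha, mul_one]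
      exact hcon x hx
    have h2 := hup n _ h1
    have h3 : ∀ k, |h ((1 - 4 * η)⁻¹ • ∑ v, G' k v • p v)| = (1 - 4 * η)⁻¹ * |h (ψ k)| := by
      intro k
      rw [hL.posHom _ _ (inv_pos.2 ha).le, hh, abs_mul, abs_of_pos (inv_pos.2 ha)]
    simp_rw [h3] at h2
    rw [← Finset.mul_sum, inv_mul_le_iff₀ ha] at h2
    nlinarith
  -- the constant
  obtain ⟨M, hM0, hM⟩ : ∃ M : ℝ, 0 ≤ M ∧ ∀ k, |(∑ v, G' k v • p v) u| ≤ M * |h (ψ k)| := by
    refine ⟨∑ k, |(∑ v, G' k v • p v) u| / |h (ψ k)|,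
      Finset.sum_nonneg (fun k _ => by positivity), fun k => ?_⟩
    by_cases hk : h (ψ k) = 0
    · rw [hψ'1 k hk, _root_.zero_apply, abs_zero, hk, abs_zero, mul_zero]
    · have h1 : |(∑ v, G' k v • p v) u| / |h (ψ k)| ≤
          ∑ k, |(∑ v, G' k v • p v) u| / |h (ψ k)| :=
        Finset.single_le_sum (f := fun k => |(∑ v, G' k v • p v) u| / |h (ψ k)|)
          (fun k _ => by positivity) (Finset.mem_univ k)
      rwa [div_le_iff₀ (abs_pos.2 hk)] at h1
  refine ⟨ι, hι, p, n, G', u, M, hp1, fun θ hθ => ?_, hu1, hM0, ?_, hu2, fun k => ?_⟩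
  · refine le_trans (Finset.sum_le_sum (fun k _ => ?_)) (hW θ hθ)
    by_cases hk : h (ψ k) = 0
    · have : ∑ v, G' k v * θ v = 0 := Finset.sum_eq_zero (fun v _ => by rw [hG'1 k hk v, zero_mul])
      rw [this, abs_zero]
      exact abs_nonneg _
    · have : ∑ v, G' k v * θ v = ∑ v, G k v * θ v :=
        Finset.sum_congr rfl (fun v _ => by rw [hG'2 k hk v])
      rw [this]
  · simp_rw [hh]
    exact hψl
  · rw [hh]
    exact hM k

/-! ### The construction -/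

/-- The bump functions. -/
def bump (x x' : E) (c L : ℝ) : StrongDual ℝ E → ℝ :=
  ((delta x ⊔ -delta x) - L • ((delta x' - c • delta x) ⊔ -(delta x' - c • delta x))) ⊔ 0

theorem bump_lat (x x' : E) (c L : ℝ) : Lat (bump x x' c L) :=
  (((Lat.delta x).sup (Lat.delta x).neg).sub
    (Lat.smul L (((Lat.delta x').sub (Lat.smul c (Lat.delta x))).sup
      ((Lat.delta x').sub (Lat.smul c (Lat.delta x))).neg))).sup Lat.zero

theorem bump_apply (x x' : E) (c L : ℝ) (φ : StrongDual ℝ E) :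
    bump x x' c L φ = max (|φ x| - L * |φ x' - c * φ x|) 0 := rfl

theorem bump_nonneg (x x' : E) (c L : ℝ) (φ : StrongDual ℝ E) : 0 ≤ bump x x' c L φ :=
  le_max_right _ _

theorem bump_le (x x' : E) (c L : ℝ) (hL : 0 ≤ L) (φ : StrongDual ℝ E) :
    bump x x' c L φ ≤ |φ x| := by
  rw [bump_apply]
  refine max_le ?_ (abs_nonneg _)
  have := mul_nonneg hL (abs_nonneg (φ x' - c * φ x))
  linarith

theorem bump_disj (x x' : E) (c c' L : ℝ) (hL : 0 < L) (hc : 2 ≤ L * |c - c'|)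
    (φ : StrongDual ℝ E) (h1 : 0 < bump x x' c L φ) (h2 : 0 < bump x x' c' L φ) : False := by
  rw [bump_apply] at h1 h2
  have e1 : L * |φ x' - c * φ x| < |φ x| := by
    rcases lt_max_iff.1 h1 with h | h
    · linarith
    · exact absurd h (lt_irrefl _)
  have e2 : L * |φ x' - c' * φ x| < |φ x| := by
    rcases lt_max_iff.1 h2 with h | h
    · linarith
    · exact absurd h (lt_irrefl _)
  have e3 : |c - c'| * |φ x| ≤ |φ x' - c * φ x| + |φ x' - c' * φ x| := by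
    rw [← abs_mul]
    have : (c - c') * φ x = -(φ x' - c * φ x) + (φ x' - c' * φ x) := by ring
    rw [this]
    refine (abs_add_le _ _).trans ?_
    rw [abs_neg]
  have e4 : L * (|c - c'| * |φ x|) ≤ L * (|φ x' - c * φ x| + |φ x' - c' * φ x|) :=
    mul_le_mul_of_nonneg_left e3 hL.le
  have e5 : 2 * |φ x| ≤ L * |c - c'| * |φ x| := mul_le_mul_of_nonneg_right hc (abs_nonneg _)
  nlinarith

/-- The signed terms. -/
def term (b h : StrongDual ℝ E → ℝ) (M : ℝ) : StrongDual ℝ E → ℝ :=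
  b ⊓ (M • (h ⊔ 0)) - b ⊓ (M • ((-h) ⊔ 0))

theorem term_lat {b h : StrongDual ℝ E → ℝ} (hb : Lat b) (hh : Lat h) (M : ℝ) :
    Lat (term b h M) :=
  (hb.inf (Lat.smul M (hh.sup Lat.zero))).sub (hb.inf (Lat.smul M (hh.neg.sup Lat.zero)))

theorem term_apply (b h : StrongDual ℝ E → ℝ) (M : ℝ) (φ : StrongDual ℝ E) :
    term b h M φ = min (b φ) (M * max (h φ) 0) - min (b φ) (M * max (-h φ) 0) := rfl

theorem abs_term_le (b h : StrongDual ℝ E → ℝ) (M : ℝ) (hM : 0 ≤ M) (φ : StrongDual ℝ E)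
    (hb : 0 ≤ b φ) : |term b h M φ| ≤ b φ := by
  rw [term_apply]
  have h1 : 0 ≤ min (b φ) (M * max (h φ) 0) := le_min hb (mul_nonneg hM (le_max_right _ _))
  have h2 : 0 ≤ min (b φ) (M * max (-h φ) 0) := le_min hb (mul_nonneg hM (le_max_right _ _))
  have h3 : min (b φ) (M * max (h φ) 0) ≤ b φ := min_le_left _ _
  have h4 : min (b φ) (M * max (-h φ) 0) ≤ b φ := min_le_left _ _
  rw [abs_le]
  constructor <;> linarith

theorem abs_add_term (b h : StrongDual ℝ E → ℝ) (M : ℝ) (hM : 0 ≤ M) (φ : StrongDual ℝ E)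
    (hb : 0 ≤ b φ) (hbM : b φ ≤ M * |h φ|) : |h φ + term b h M φ| = |h φ| + b φ := by
  rw [term_apply]
  rcases lt_trichotomy (h φ) 0 with hh | hh | hh
  · rw [abs_of_neg hh] at hbM ⊢
    rw [max_eq_right hh.le, max_eq_left (by linarith), mul_zero, min_eq_right hb,
      min_eq_left hbM, zero_sub, abs_of_nonpos (by linarith)]
    ring
  · rw [hh, abs_zero, mul_zero] at hbM
    have h0 : b φ = 0 := le_antisymm hbM hb
    rw [h0, hh]
    simp
  · rw [abs_of_pos hh] at hbM ⊢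
    rw [max_eq_left hh.le, max_eq_right (by linarith), mul_zero, min_eq_right hb,
      min_eq_left hbM, sub_zero, abs_of_nonneg (by linarith)]

theorem key {Ω : Type v} [MeasurableSpace Ω] {μ : Measure Ω} [Nontrivial E] (hD : Daugavet E)
    (I : StrongDual ℝ E ≃ₗᵢ[ℝ] Lp ℝ 1 μ) (N : ℕ) (h : Fin (N + 1) → StrongDual ℝ E → ℝ)
    (hL : ∀ i, Lat (h i)) {η : ℝ} (hη : 0 < η) (hη1 : η < 1 / 8)
    (hup : ∀ i, ∀ (n : ℕ) (φ : Fin n → StrongDual ℝ E), WeakUnit φ →
      ∑ k, |h i (φ k)| ≤ 1 + η)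
    (hlow : ∀ i, ∃ (n : ℕ) (φ : Fin n → StrongDual ℝ E), WeakUnit φ ∧
      1 - 2 * η < ∑ k, |h i (φ k)|) :
    ∃ y : StrongDual ℝ E → ℝ, Lat y ∧
      (∀ (n : ℕ) (φ : Fin n → StrongDual ℝ E), WeakUnit φ → ∑ k, |y (φ k)| ≤ 1) ∧
      ∀ i, ∃ (n : ℕ) (φ : Fin n → StrongDual ℝ E), WeakUnit φ ∧
        2 - 10 * η < ∑ k, |h i (φ k) + y (φ k)| := by
  classical
  choose ι hι p m G u M hp hG hu hM0 hl1 hl2 hM using
    fun i => local_step I (h i) (hL i) hη hη1 (hup i) (hlow i)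
  choose A hA using fun i => (hL i).finite_dep
  set B : Finset E := Finset.univ.biUnion A with hB
  set F : Submodule ℝ E := Submodule.span ℝ (B : Set E) with hF
  have : FiniteDimensional ℝ F := FiniteDimensional.span_finset ℝ B
  have hAF : ∀ i, ∀ a ∈ A i, a ∈ F := fun i a ha =>
    Submodule.subset_span (Finset.mem_coe.2 (Finset.mem_biUnion.2 ⟨i, Finset.mem_univ _, ha⟩))
  set δ : ℝ := η / 4 with hδ
  have hδ0 : 0 < δ := by positivity
  have hδ1 : δ < 1 := by rw [hδ]; linarith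
  obtain ⟨x, hx1, hx2⟩ := octahedral hD F δ hδ0
  obtain ⟨x', hx'1, hx'2⟩ := octahedral hD (F ⊔ Submodule.span ℝ {x}) δ hδ0
  have hkey : ∀ w ∈ F, ∀ l l' : ℝ, ‖w‖ + |l| + |l'| ≤ (1 + η) * ‖w + (l • x + l' • x')‖ := by
    intro w hw l l'
    have h1 := hx2 w hw l
    have h2 := hx'2 (w + l • x) (Submodule.add_mem_sup hw
      (Submodule.smul_mem _ _ (Submodule.mem_span_singleton_self x))) l'
    rw [add_assoc] at h2
    have h3 : (1 - δ) * (1 - δ) * (‖w‖ + |l| + |l'|) ≤ ‖w + (l • x + l' • x')‖ := by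
      refine le_trans ?_ h2
      have h4 : 0 ≤ δ * |l'| := mul_nonneg hδ0.le (abs_nonneg _)
      have h5 : (1 - δ) * ((1 - δ) * (‖w‖ + |l|)) ≤ (1 - δ) * ‖w + l • x‖ :=
        mul_le_mul_of_nonneg_left h1 (by linarith)
      have h6 : 0 ≤ (1 - δ) * (δ * |l'|) := mul_nonneg (by linarith) h4
      nlinarith
    have h4 : 1 ≤ (1 + η) * ((1 - δ) * (1 - δ)) := by
      rw [hδ]
      nlinarith [mul_pos hη hη, mul_pos (mul_pos hη hη) hη]
    have h5 : 0 ≤ ‖w‖ + |l| + |l'| := by positivity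
    calc ‖w‖ + |l| + |l'| = 1 * (‖w‖ + |l| + |l'|) := (one_mul _).symm
      _ ≤ ((1 + η) * ((1 - δ) * (1 - δ))) * (‖w‖ + |l| + |l'|) :=
          mul_le_mul_of_nonneg_right h4 h5
      _ = (1 + η) * ((1 - δ) * (1 - δ) * (‖w‖ + |l| + |l'|)) := by ring
      _ ≤ (1 + η) * ‖w + (l • x + l' • x')‖ := mul_le_mul_of_nonneg_left h3 (by linarith)
  -- the parameters
  set c : Fin (N + 1) → ℝ := fun i => (i : ℝ) / (N + 1) with hc
  have hN : (0 : ℝ) < N + 1 := by positivity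
  have hc0 : ∀ i, 0 ≤ c i := fun i => by positivity
  have hc1 : ∀ i, c i ≤ 1 := by
    intro i
    rw [hc]
    show (i : ℝ) / (N + 1) ≤ 1
    rw [div_le_one hN]
    exact_mod_cast i.2.le
  set L : ℝ := 2 * (N + 1) with hLdef
  have hL0 : 0 < L := by positivity
  have hcL : ∀ i j, i ≠ j → 2 ≤ L * |c i - c j| := by
    intro i j hij
    have h1 : c i - c j = ((i : ℤ) - (j : ℤ) : ℤ) / ((N : ℝ) + 1) := by
      rw [hc]
      push_cast
      ring
    have h2 : (1 : ℝ) ≤ |(((i : ℤ) - (j : ℤ) : ℤ) : ℝ)| := by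
      have h3 : (i : ℤ) - (j : ℤ) ≠ 0 := by
        intro h4
        exact hij (Fin.ext (by omega))
      exact_mod_cast Int.one_le_abs h3
    rw [h1, abs_div, abs_of_pos hN, hLdef]
    rw [mul_assoc, mul_div_cancel₀ _ hN.ne']
    linarith
  -- the new functionals
  have hext : ∀ i v, ∃ p' : StrongDual ℝ E, ‖p'‖ ≤ 1 + η ∧ (∀ a ∈ F, p' a = p i v a) ∧
      p' x = p i v (u i) ∧ p' x' = c i * p i v (u i) := by
    intro i v
    let T : (F × ℝ × ℝ) →ₗ[ℝ] E := F.subtype.coprod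
      ((LinearMap.toSpanSingleton ℝ E x).coprod (LinearMap.toSpanSingleton ℝ E x'))
    let g : (F × ℝ × ℝ) →ₗ[ℝ] ℝ := ((p i v).toLinearMap ∘ₗ F.subtype).coprod
      ((LinearMap.toSpanSingleton ℝ ℝ (p i v (u i))).coprod
        (LinearMap.toSpanSingleton ℝ ℝ (c i * p i v (u i))))
    have hT : ∀ w : F × ℝ × ℝ, T w = (w.1 : E) + (w.2.1 • x + w.2.2 • x') := fun w => rfl
    have hg : ∀ w : F × ℝ × ℝ, g w = p i v (w.1 : E) + (w.2.1 * p i v (u i) +
        w.2.2 * (c i * p i v (u i))) := fun w => rfl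
    have hpu : |p i v (u i)| ≤ 1 := by
      calc |p i v (u i)| = ‖p i v (u i)‖ := rfl
        _ ≤ ‖p i v‖ * ‖u i‖ := (p i v).le_opNorm _
        _ ≤ 1 * 1 := mul_le_mul (hp i v) (hu i) (norm_nonneg _) zero_le_one
        _ = 1 := one_mul 1
    obtain ⟨p', h1, h2⟩ := extend T g (1 + η) (by linarith) (fun w => by
      rw [hT, hg]
      refine le_trans ?_ (hkey w.1 w.1.2 w.2.1 w.2.2)
      have e1 : |p i v (w.1 : E)| ≤ ‖(w.1 : E)‖ := by
        calc |p i v (w.1 : E)| = ‖p i v (w.1 : E)‖ := rfl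
          _ ≤ ‖p i v‖ * ‖(w.1 : E)‖ := (p i v).le_opNorm _
          _ ≤ 1 * ‖(w.1 : E)‖ := mul_le_mul_of_nonneg_right (hp i v) (norm_nonneg _)
          _ = _ := one_mul _
      have e2 : |w.2.1 * p i v (u i)| ≤ |w.2.1| := by
        rw [abs_mul]
        calc |w.2.1| * |p i v (u i)| ≤ |w.2.1| * 1 :=
              mul_le_mul_of_nonneg_left hpu (abs_nonneg _)
          _ = _ := mul_one _
      have e3 : |w.2.2 * (c i * p i v (u i))| ≤ |w.2.2| := by
        rw [abs_mul, abs_mul, abs_of_nonneg (hc0 i)]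
        have : c i * |p i v (u i)| ≤ 1 * 1 := mul_le_mul (hc1 i) hpu (abs_nonneg _) zero_le_one
        calc |w.2.2| * (c i * |p i v (u i)|) ≤ |w.2.2| * (1 * 1) :=
              mul_le_mul_of_nonneg_left this (abs_nonneg _)
          _ = _ := by ring
      have e4 := abs_add_le (p i v (w.1 : E)) (w.2.1 * p i v (u i) + w.2.2 * (c i * p i v (u i)))
      have e5 := abs_add_le (w.2.1 * p i v (u i)) (w.2.2 * (c i * p i v (u i)))
      linarith)
    refine ⟨p', h1, fun a ha => ?_, ?_, ?_⟩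
    · have h3 := h2 (⟨a, ha⟩, 0, 0)
      rw [hT, hg] at h3
      simpa using h3
    · have h3 := h2 (0, 1, 0)
      rw [hT, hg] at h3
      simpa using h3
    · have h3 := h2 (0, 0, 1)
      rw [hT, hg] at h3
      simpa using h3
  choose p' hp'1 hp'2 hp'3 hp'4 using hext
  set ψ : ∀ i, Fin (m i) → StrongDual ℝ E := fun i k => ∑ v, G i k v • p i v with hψ
  set Z : ∀ i, Fin (m i) → StrongDual ℝ E := fun i k => ∑ v, G i k v • p' i v with hZ
  have happ : ∀ i k (q : ι i → StrongDual ℝ E) (w : E),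
      (∑ v, G i k v • q v) w = ∑ v, G i k v * q v w := by
    intro i k q w
    rw [_root_.sum_apply]
    rfl
  have hZF : ∀ i k, ∀ a ∈ F, Z i k a = ψ i k a := by
    intro i k a ha
    rw [hZ, hψ]
    dsimp only
    rw [happ, happ]
    exact Finset.sum_congr rfl (fun v _ => by rw [hp'2 i v a ha])
  have hZx : ∀ i k, Z i k x = ψ i k (u i) := by
    intro i k
    rw [hZ, hψ]
    dsimp only
    rw [happ, happ]
    exact Finset.sum_congr rfl (fun v _ => by rw [hp'3 i v])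
  have hZx' : ∀ i k, Z i k x' = c i * ψ i k (u i) := by
    intro i k
    rw [hZ, hψ]
    dsimp only
    rw [happ, happ, Finset.mul_sum]
    refine Finset.sum_congr rfl (fun v _ => ?_)
    rw [hp'4 i v]
    ring
  have hZh : ∀ i k, h i (Z i k) = h i (ψ i k) := fun i k =>
    hA i _ _ (fun a ha => hZF i k a (hAF i a ha))
  -- normalisation
  set ρ : ℝ := (1 + η) * (1 + η) with hρ
  have hρ0 : 0 < ρ := by positivity
  have hZw : ∀ i, WeakUnit (fun k => ρ⁻¹ • Z i k) := by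
    intro i w hw
    have h1 : ∀ k, |(ρ⁻¹ • Z i k) w| = ρ⁻¹ * |Z i k w| := by
      intro k
      show |ρ⁻¹ * Z i k w| = _
      rw [abs_mul, abs_of_pos (inv_pos.2 hρ0)]
    simp_rw [h1]
    rw [← Finset.mul_sum, inv_mul_le_iff₀ hρ0, mul_one]
    have hη2 : 0 < 1 + η := by linarith
    have h2 := hG i (fun v => (1 + η)⁻¹ * p' i v w) (fun v => by
      rw [abs_mul, abs_of_pos (inv_pos.2 hη2), inv_mul_le_iff₀ hη2, mul_one]
      calc |p' i v w| = ‖p' i v w‖ := rfl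
        _ ≤ ‖p' i v‖ * ‖w‖ := (p' i v).le_opNorm _
        _ ≤ (1 + η) * 1 := mul_le_mul (hp'1 i v) hw (norm_nonneg _) hη2.le
        _ = _ := mul_one _)
    have h3 : ∀ k, |∑ v, G i k v * ((1 + η)⁻¹ * p' i v w)| = (1 + η)⁻¹ * |Z i k w| := by
      intro k
      rw [hZ]
      dsimp only
      rw [happ, ← abs_of_pos (inv_pos.2 hη2), ← abs_mul, Finset.mul_sum,
        abs_of_pos (inv_pos.2 hη2)]
      congr 1
      refine Finset.sum_congr rfl (fun v _ => ?_)
      ring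
    simp_rw [h3] at h2
    rw [← Finset.mul_sum, inv_mul_le_iff₀ hη2] at h2
    exact h2
  -- the function
  let b : Fin (N + 1) → StrongDual ℝ E → ℝ := fun i => bump x x' (c i) L
  let t : Fin (N + 1) → StrongDual ℝ E → ℝ := fun i => term (b i) (h i) (M i)
  have htb : ∀ i φ, |t i φ| ≤ b i φ := fun i φ =>
    abs_term_le _ _ _ (hM0 i) _ (bump_nonneg _ _ _ _ _)
  have hdis : ∀ i j, i ≠ j → ∀ φ, 0 < b i φ → b j φ = 0 := by
    intro i j hij φ hi
    by_contra hj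
    exact bump_disj x x' (c i) (c j) L hL0 (hcL i j hij) φ hi
      (lt_of_le_of_ne (bump_nonneg _ _ _ _ _) (Ne.symm hj))
  have hy : Lat (∑ i, t i) := Lat.sum _ (fun i => term_lat (bump_lat _ _ _ _) (hL i) _)
  have hyb : ∀ φ, |(∑ i, t i) φ| ≤ |φ x| := by
    intro φ
    rw [Finset.sum_apply]
    by_cases hex : ∃ i, 0 < b i φ
    · obtain ⟨i, hi⟩ := hex
      rw [Finset.sum_eq_single i]
      · exact (htb i φ).trans (bump_le _ _ _ _ hL0.le _)
      · intro j _ hj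
        have h1 := htb j φ
        rw [hdis i j hj.symm φ hi] at h1
        exact abs_eq_zero.1 (le_antisymm h1 (abs_nonneg _))
      · intro hcon
        exact absurd (Finset.mem_univ i) hcon
    · push Not at hex
      rw [Finset.sum_eq_zero]
      · rw [abs_zero]
        exact abs_nonneg _
      · intro j _
        have h1 := (htb j φ).trans (hex j)
        exact abs_eq_zero.1 (le_antisymm h1 (abs_nonneg _))
  have hyZ : ∀ i k, |h i (Z i k) + (∑ j, t j) (Z i k)| =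
      |h i (ψ i k)| + |ψ i k (u i)| := by
    intro i k
    have hb1 : b i (Z i k) = |ψ i k (u i)| := by
      show bump x x' (c i) L (Z i k) = _
      rw [bump_apply, hZx, hZx', sub_self, abs_zero, mul_zero, sub_zero,
        max_eq_left (abs_nonneg _)]
    have ht : (∑ j, t j) (Z i k) = t i (Z i k) := by
      rw [Finset.sum_apply, Finset.sum_eq_single i]
      · intro j _ hj
        have h1 := htb j (Z i k)
        have h2 : b j (Z i k) = 0 := by
          by_cases hs : ψ i k (u i) = 0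
          · refine le_antisymm ?_ (bump_nonneg _ _ _ _ _)
            refine (bump_le _ _ _ _ hL0.le _).trans ?_
            rw [hZx, hs, abs_zero]
          · refine hdis i j hj.symm _ ?_
            rw [hb1]
            exact abs_pos.2 hs
        rw [h2] at h1
        exact abs_eq_zero.1 (le_antisymm h1 (abs_nonneg _))
      · intro hcon
        exact absurd (Finset.mem_univ i) hcon
    rw [ht]
    have h1 : |h i (Z i k) + term (b i) (h i) (M i) (Z i k)| = |h i (Z i k)| + b i (Z i k) := by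
      refine abs_add_term (b i) (h i) (M i) (hM0 i) (Z i k) (bump_nonneg _ _ _ _ _) ?_
      rw [hb1, hZh]
      exact hM i k
    rw [hb1, hZh] at h1
    rw [hZh]
    exact h1
  refine ⟨∑ i, t i, hy, fun n φ hφ => ?_, fun i => ⟨m i, fun k => ρ⁻¹ • Z i k, hZw i, ?_⟩⟩
  · exact (Finset.sum_le_sum (fun k _ => hyb (φ k))).trans (hφ x hx1)
  · have h1 : ∀ k, |h i (ρ⁻¹ • Z i k) + (∑ j, t j) (ρ⁻¹ • Z i k)| =
        ρ⁻¹ * (|h i (ψ i k)| + |ψ i k (u i)|) := by
      intro k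
      rw [(hL i).posHom _ _ (inv_pos.2 hρ0).le, hy.posHom _ _ (inv_pos.2 hρ0).le, ← mul_add,
        abs_mul, abs_of_pos (inv_pos.2 hρ0), hyZ]
    simp_rw [h1]
    rw [← Finset.mul_sum, Finset.sum_add_distrib, lt_inv_mul_iff₀ hρ0]
    have h2 := hl1 i
    have h3 := hl2 i
    have h4 : ρ * (2 - 10 * η) < (1 - 2 * η) + (1 - 4 * η) := by
      rw [hρ]
      nlinarith [mul_pos hη hη, mul_pos (mul_pos hη hη) hη]
    refine h4.trans ?_
    exact add_lt_add h2 h3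

/-- Main theorem. -/
theorem main [Nontrivial E] (hI : IsL1Predual.{u, v} E) (hD : Daugavet E) :
    OctahedralFBL E := by
  classical
  intro n f hf ε hε
  obtain ⟨Ω, _, μ, ⟨I⟩⟩ := hI
  -- a unit vector
  obtain ⟨x₀, hx₀⟩ : ∃ x : E, ‖x‖ = 1 := exists_norm_eq E zero_le_one
  obtain ⟨φ₀, hφ₀1, hφ₀2⟩ := exists_dual_vector ℝ x₀ (by rw [hx₀]; exact one_ne_zero)
  have hφ₀w : WeakUnit (fun _ : Fin 1 => φ₀) := by
    intro x hx
    rw [Fin.sum_univ_one]
    calc |φ₀ x| = ‖φ₀ x‖ := rfl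
      _ ≤ ‖φ₀‖ * ‖x‖ := φ₀.le_opNorm x
      _ ≤ 1 * 1 := mul_le_mul hφ₀1.le hx (norm_nonneg _) zero_le_one
      _ = 1 := one_mul 1
  have hφ₀x : φ₀ x₀ = 1 := by rw [hφ₀2, hx₀]; rfl
  have hzero : fblNorm (0 : StrongDual ℝ E → ℝ) = 0 := by
    have h := (fblNorm_le (f := (0 : StrongDual ℝ E → ℝ)) le_rfl).2 (fun n φ _ => by simp)
    rw [ENNReal.ofReal_zero] at h
    exact le_antisymm h zero_le
  have hLF : ∀ g : StrongDual ℝ E → ℝ, Lat g → g ∈ FBL E := by
    intro g hg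
    refine ⟨hg.posHom, fun ε hε => ⟨g, hg, ?_⟩⟩
    rw [sub_self, hzero]
    exact zero_le
  -- the extended family
  let f' : Fin (n + 1) → StrongDual ℝ E → ℝ := Fin.cons (delta x₀) f
  have hf'1 : ∀ i, f' i ∈ FBL E := by
    intro i
    refine Fin.cases ?_ (fun j => ?_) i
    · exact hLF _ (Lat.delta x₀)
    · exact (hf j).1
  have hf'2 : ∀ i, ∀ (m : ℕ) (φ : Fin m → StrongDual ℝ E), WeakUnit φ →
      ∑ k, |f' i (φ k)| ≤ 1 := by
    intro i
    refine Fin.cases ?_ (fun j => ?_) i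
    · intro m φ hφ
      exact hφ x₀ hx₀.le
    · refine (fblNorm_le (f := f j) zero_le_one).1 ?_
      rw [ENNReal.ofReal_one]
      exact (hf j).2.le
  have hf'3 : ∀ i, ∀ a : ℝ, 0 ≤ a → a < 1 → ∃ (m : ℕ) (φ : Fin m → StrongDual ℝ E),
      WeakUnit φ ∧ a < ∑ k, |f' i (φ k)| := by
    intro i
    refine Fin.cases ?_ (fun j => ?_) i
    · intro a _ ha
      refine ⟨1, fun _ => φ₀, hφ₀w, ?_⟩
      rw [Fin.sum_univ_one]
      show a < |φ₀ x₀|
      rw [hφ₀x, abs_one]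
      exact ha
    · intro a ha0 ha
      refine exists_of_lt ha0 ?_
      rw [show f' j.succ = f j from rfl, (hf j).2, ← ENNReal.ofReal_one]
      exact (ENNReal.ofReal_lt_ofReal_iff zero_lt_one).2 ha
  -- the parameter
  set η : ℝ := min (ε / 22) (1 / 32) with hη
  have hη0 : 0 < η := by positivity
  have hη1 : η ≤ 1 / 32 := min_le_right _ _
  have hη2 : 22 * η ≤ ε := by
    have := min_le_left (ε / 22) (1 / 32)
    linarith
  choose g hgL hg using fun i => (hf'1 i).2 η hη0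
  have hg' : ∀ i, ∀ (m : ℕ) (φ : Fin m → StrongDual ℝ E), WeakUnit φ →
      ∑ k, |f' i (φ k) - g i (φ k)| ≤ η := fun i => (fblNorm_le hη0.le).1 (hg i)
  obtain ⟨y₀, hy1, hy2, hy3⟩ := key hD I n g hgL hη0 (by linarith) (by
    intro i m φ hφ
    have h1 := hf'2 i m φ hφ
    have h2 := hg' i m φ hφ
    calc ∑ k, |g i (φ k)| ≤ ∑ k, (|f' i (φ k)| + |f' i (φ k) - g i (φ k)|) := by
          refine Finset.sum_le_sum (fun k _ => ?_)
          have h3 := abs_sub_abs_le_abs_sub (g i (φ k)) (f' i (φ k))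
          rw [abs_sub_comm] at h3
          linarith
      _ ≤ 1 + η := by
          rw [Finset.sum_add_distrib]
          linarith) (by
    intro i
    obtain ⟨m, φ, hφ, h1⟩ := hf'3 i (1 - η) (by linarith) (by linarith)
    refine ⟨m, φ, hφ, ?_⟩
    have h2 := hg' i m φ hφ
    have h3 : ∑ k, |f' i (φ k)| ≤ ∑ k, (|g i (φ k)| + |f' i (φ k) - g i (φ k)|) := by
      refine Finset.sum_le_sum (fun k _ => ?_)
      have h3 := abs_sub_abs_le_abs_sub (f' i (φ k)) (g i (φ k))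
      linarith
    rw [Finset.sum_add_distrib] at h3
    linarith)
  -- back to `f'`
  have hy4 : ∀ i, ∃ (m : ℕ) (φ : Fin m → StrongDual ℝ E), WeakUnit φ ∧
      2 - 11 * η < ∑ k, |f' i (φ k) + y₀ (φ k)| := by
    intro i
    obtain ⟨m, φ, hφ, h1⟩ := hy3 i
    refine ⟨m, φ, hφ, ?_⟩
    have h2 := hg' i m φ hφ
    have h3 : ∑ k, |g i (φ k) + y₀ (φ k)| ≤
        ∑ k, (|f' i (φ k) + y₀ (φ k)| + |f' i (φ k) - g i (φ k)|) := by
      refine Finset.sum_le_sum (fun k _ => ?_)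
      have h3 := abs_sub_abs_le_abs_sub (g i (φ k) + y₀ (φ k)) (f' i (φ k) + y₀ (φ k))
      rw [add_sub_add_right_eq_sub, abs_sub_comm] at h3
      linarith
    rw [Finset.sum_add_distrib] at h3
    linarith
  -- the norm of `y₀`
  have hy5 : fblNorm y₀ ≤ ENNReal.ofReal 1 := (fblNorm_le zero_le_one).2 hy2
  have hyfin : fblNorm y₀ ≠ ∞ := ne_top_of_le_ne_top ENNReal.ofReal_ne_top hy5
  set r : ℝ := (fblNorm y₀).toReal with hr
  have hry : fblNorm y₀ = ENNReal.ofReal r := (ENNReal.ofReal_toReal hyfin).symm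
  have hr0' : 0 ≤ r := ENNReal.toReal_nonneg
  have hr1 : r ≤ 1 := by
    rw [hry] at hy5
    exact (ENNReal.ofReal_le_ofReal_iff zero_le_one).1 hy5
  have hr2 : 1 - 11 * η < r := by
    obtain ⟨m, φ, hφ, h1⟩ := hy4 0
    have h2 := hf'2 0 m φ hφ
    have h3 : ∑ k, |f' 0 (φ k) + y₀ (φ k)| ≤ ∑ k, (|f' 0 (φ k)| + |y₀ (φ k)|) :=
      Finset.sum_le_sum (fun k _ => abs_add_le _ _)
    rw [Finset.sum_add_distrib] at h3
    have h4 := (fblNorm_le hr0').1 hry.le m φ hφ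
    linarith
  have hr0 : 0 < r := by linarith
  have hyr := (fblNorm_le hr0').1 hry.le
  refine ⟨r⁻¹ • y₀, hLF _ (Lat.smul _ hy1), ?_, fun i => ?_⟩
  · rw [fblNorm_smul, hry, abs_of_pos (inv_pos.2 hr0), ← ENNReal.ofReal_mul (inv_pos.2 hr0).le,
      inv_mul_cancel₀ hr0.ne', ENNReal.ofReal_one]
  · obtain ⟨m, φ, hφ, h1⟩ := hy4 i.succ
    have h2 := hyr m φ hφ
    have h3 : ∑ k, |f i (φ k) + y₀ (φ k)| ≤
        ∑ k, (|(f i + r⁻¹ • y₀) (φ k)| + (r⁻¹ - 1) * |y₀ (φ k)|) := by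
      refine Finset.sum_le_sum (fun k _ => ?_)
      have h4 : f i (φ k) + y₀ (φ k) = (f i + r⁻¹ • y₀) (φ k) - (r⁻¹ - 1) * y₀ (φ k) := by
        rw [Pi.add_apply, Pi.smul_apply, smul_eq_mul]
        ring
      have h5 : 0 ≤ r⁻¹ - 1 := by
        rw [sub_nonneg]
        exact (one_le_inv₀ hr0).2 hr1
      rw [h4]
      refine (abs_sub _ _).trans ?_
      rw [abs_mul, abs_of_nonneg h5]
    rw [Finset.sum_add_distrib, ← Finset.mul_sum] at h3
    have h5 : (r⁻¹ - 1) * ∑ k, |y₀ (φ k)| ≤ 1 - r := by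
      have h6 : 0 ≤ r⁻¹ - 1 := by
        rw [sub_nonneg]
        exact (one_le_inv₀ hr0).2 hr1
      calc (r⁻¹ - 1) * ∑ k, |y₀ (φ k)| ≤ (r⁻¹ - 1) * r := mul_le_mul_of_nonneg_left h2 h6
        _ = 1 - r := by
            rw [sub_mul, inv_mul_cancel₀ hr0.ne', one_mul]
    have h6 : 2 - ε < ∑ k, |(f i + r⁻¹ • y₀) (φ k)| := by
      have h7 : ∑ k, |f' i.succ (φ k) + y₀ (φ k)| = ∑ k, |f i (φ k) + y₀ (φ k)| := rfl
      linarith
    refine lt_fblNorm hφ h6 ?_
    have h7 : ∑ k, |f' i.succ (φ k) + y₀ (φ k)| = ∑ k, |f i (φ k) + y₀ (φ k)| := rfl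
    linarith

end Q100.FB
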