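import Mathlib
import Pool.Agent.Q98.Gdel

set_option autoImplicit false

open Filter Topology

namespace Q100.GD

/-- the countable rational vector space -/
abbrev V : Type := ℕ →₀ ℚ

/-- the set of functions on `V` dominating an additive functional whose absolute value,
subtracted, leaves a function with the parallelogram law -/
def A (c : ℝ) : Set (V → ℝ) :=
  {μ | ∃ φ : V → ℝ, (∀ u v, φ (u + v) = φ u + φ v) ∧ (∀ v, |φ v| ≤ c * μ v) ∧
    ∀ u v, (μ (u + v) - |φ (u + v)|) ^ 2 + (μ (u - v) - |φ (u - v)|) ^ 2 =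
      2 * (μ u - |φ u|) ^ 2 + 2 * (μ v - |φ v|) ^ 2}

theorem isClosed_A {c : ℝ} (hc : 0 ≤ c) : IsClosed (A c) := by
  classical
  rw [isClosed_iff_ultrafilter]
  intro μ₀ l hl hA
  have hch : ∀ μ : V → ℝ, ∃ φ : V → ℝ, μ ∈ A c → (∀ u v, φ (u + v) = φ u + φ v) ∧
      (∀ v, |φ v| ≤ c * μ v) ∧
      ∀ u v, (μ (u + v) - |φ (u + v)|) ^ 2 + (μ (u - v) - |φ (u - v)|) ^ 2 =
        2 * (μ u - |φ u|) ^ 2 + 2 * (μ v - |φ v|) ^ 2 := by
    intro μ
    by_cases h : μ ∈ A c
    · obtain ⟨φ, h1⟩ := h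
      exact ⟨φ, fun _ => h1⟩
    · exact ⟨0, fun h' => absurd h' h⟩
  choose G hG using hch
  have hcoord : ∀ u : V, Tendsto (fun μ : V → ℝ => μ u) (l : Filter (V → ℝ)) (𝓝 (μ₀ u)) :=
    fun u => ((continuous_apply u).tendsto μ₀).mono_left hl
  have hlim : ∀ u : V, ∃ r : ℝ, Tendsto (fun μ => G μ u) (l : Filter (V → ℝ)) (𝓝 r) := by
    intro u
    have hb : ∀ᶠ μ in (l : Filter (V → ℝ)), G μ u ∈ Metric.closedBall (0 : ℝ) (c * (μ₀ u + 1)) := by
      have h1 : ∀ᶠ μ in (l : Filter (V → ℝ)), μ u < μ₀ u + 1 :=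
        (hcoord u).eventually (gt_mem_nhds (by linarith))
      filter_upwards [h1, hA] with μ h2 h3
      rw [mem_closedBall_zero_iff]
      exact ((hG μ h3).2.1 u).trans (mul_le_mul_of_nonneg_left h2.le hc)
    obtain ⟨r, _, hr⟩ := (isCompact_closedBall (0 : ℝ) (c * (μ₀ u + 1))).ultrafilter_le_nhds
      (l.map fun μ => G μ u) (by
        rw [le_principal_iff]
        show _ ∈ (l.map fun μ => G μ u)
        rw [Ultrafilter.mem_map]
        exact hb)
    exact ⟨r, hr⟩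
  choose L hL using hlim
  have hne : (l : Filter (V → ℝ)).NeBot := l.neBot
  refine ⟨L, fun u v => ?_, fun v => ?_, fun u v => ?_⟩
  · refine tendsto_nhds_unique (hL (u + v)) (((hL u).add (hL v)).congr' ?_)
    filter_upwards [hA] with μ h
    exact ((hG μ h).1 u v).symm
  · refine le_of_tendsto_of_tendsto (hL v).abs ((hcoord v).const_mul c) ?_
    filter_upwards [hA] with μ h
    exact (hG μ h).2.1 v
  · have h1 : ∀ w : V, Tendsto (fun μ : V → ℝ => (μ w - |G μ w|) ^ 2) (l : Filter (V → ℝ))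
        (𝓝 ((μ₀ w - |L w|) ^ 2)) := fun w => ((hcoord w).sub (hL w).abs).pow 2
    refine tendsto_nhds_unique ((h1 (u + v)).add (h1 (u - v)))
      ((((h1 u).const_mul 2).add ((h1 v).const_mul 2)).congr' ?_)
    filter_upwards [hA] with μ h
    exact ((hG μ h).2.2 u v).symm

end Q100.GD
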