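import Pool.Agent.Q100.GD1

set_option autoImplicit false

open Filter Topology

namespace Q100.GD

/-- the Hilbert space with orthonormal basis indexed by the natural numbers -/
abbrev L2 : Type := lp (fun _ : ℕ => ℝ) 2

/-- the one-sum of the Hilbert space and the line -/
abbrev X0 : Type := WithLp 1 (L2 × ℝ)

theorem norm_X0 (x : X0) : ‖x‖ = ‖x.fst‖ + |x.snd| := by
  rw [WithLp.prod_norm_eq_of_L1, Real.norm_eq_abs]

theorem mem_A_one {μ : V → ℝ} (ι : V →+ X0) (h : ∀ v, ‖ι v‖ = μ v) : μ ∈ A 1 := by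
  have key : ∀ w : V, μ w - |(ι w).snd| = ‖(ι w).fst‖ := by
    intro w
    rw [← h w, norm_X0]; ring
  refine ⟨fun v => (ι v).snd, fun u v => ?_, fun v => ?_, fun u v => ?_⟩
  · show (ι (u + v)).snd = _
    rw [map_add]; rfl
  · show |(ι v).snd| ≤ _
    rw [one_mul]
    have := key v
    have h2 := norm_nonneg (ι v).fst
    linarith
  · show (μ (u + v) - |(ι (u + v)).snd|) ^ 2 + (μ (u - v) - |(ι (u - v)).snd|) ^ 2 =
      2 * (μ u - |(ι u).snd|) ^ 2 + 2 * (μ v - |(ι v).snd|) ^ 2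
    rw [key, key, key, key, map_add, map_sub]
    have h1 : (ι u + ι v).fst = (ι u).fst + (ι v).fst := rfl
    have h2 : (ι u - ι v).fst = (ι u).fst - (ι v).fst := rfl
    rw [h1, h2]
    have := parallelogram_law_with_norm ℝ (ι u).fst (ι v).fst
    nlinarith [this]

/-- A functional on a space with a dense additive image. -/
theorem extend_all {X : Type*} [NormedAddCommGroup X] [NormedSpace ℝ X] {μ : V → ℝ}
    (ι : V →+ X) (h : ∀ v, ‖ι v‖ = μ v) (hd : DenseRange ι) {c : ℝ} (hc1 : c ≤ 1)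
    (hμ : μ ∈ A c) :
    ∃ f : StrongDual ℝ X, (∀ x, |f x| ≤ c * ‖x‖) ∧
      ∀ x y, (‖x + y‖ - |f (x + y)|) ^ 2 + (‖x - y‖ - |f (x - y)|) ^ 2 =
        2 * (‖x‖ - |f x|) ^ 2 + 2 * (‖y‖ - |f y|) ^ 2 := by
  obtain ⟨φ, h1, h2, h3⟩ := hμ
  obtain ⟨f, _, hf⟩ := Q98.Gdel.exists_extend ι hd (AddMonoidHom.mk' φ h1) (fun v => by
    show |φ v| ≤ ‖ι v‖
    have := h2 v
    have h0 := norm_nonneg (ι v)
    rw [h v] at h0 ⊢
    nlinarith)
  have hf' : ∀ v, f (ι v) = φ v := hf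
  refine ⟨f, fun x => ?_, fun x y => ?_⟩
  · refine hd.induction_on x (isClosed_le f.continuous.abs (continuous_const.mul continuous_norm))
      fun v => ?_
    rw [hf', h]; exact h2 v
  · have hcl : IsClosed {p : X × X | (‖p.1 + p.2‖ - |f (p.1 + p.2)|) ^ 2 +
        (‖p.1 - p.2‖ - |f (p.1 - p.2)|) ^ 2 = 2 * (‖p.1‖ - |f p.1|) ^ 2 +
          2 * (‖p.2‖ - |f p.2|) ^ 2} := by
      apply isClosed_eq <;> fun_prop
    have h4 : Set.range (Prod.map ι ι) ⊆ {p : X × X | (‖p.1 + p.2‖ - |f (p.1 + p.2)|) ^ 2 +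
        (‖p.1 - p.2‖ - |f (p.1 - p.2)|) ^ 2 = 2 * (‖p.1‖ - |f p.1|) ^ 2 +
          2 * (‖p.2‖ - |f p.2|) ^ 2} := by
      rintro _ ⟨⟨a, b⟩, rfl⟩
      show (‖ι a + ι b‖ - |f (ι a + ι b)|) ^ 2 + (‖ι a - ι b‖ - |f (ι a - ι b)|) ^ 2 =
        2 * (‖ι a‖ - |f (ι a)|) ^ 2 + 2 * (‖ι b‖ - |f (ι b)|) ^ 2
      rw [← map_add, ← map_sub, h, h, h, h, hf', hf', hf', hf']
      exact h3 a b
    exact (hcl.closure_subset_iff.2 h4) ((hd.prodMap hd) (x, y))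

/-- the element `(h, t)` -/
def pt (h : L2) (t : ℝ) : X0 := WithLp.toLp 1 (h, t)

theorem norm_pt (h : L2) (t : ℝ) : ‖pt h t‖ = ‖h‖ + |t| := by
  rw [norm_X0]; rfl

theorem not_mem_A {μ : V → ℝ} (ι : V →+ X0) (h : ∀ v, ‖ι v‖ = μ v) (hd : DenseRange ι) {c : ℝ}
    (hc : c < 1) : μ ∉ A c := by
  intro hμ
  obtain ⟨f, h1, h2⟩ := extend_all ι h hd hc.le hμ
  obtain ⟨e, he⟩ : ∃ e : L2, ‖e‖ = 1 := ⟨lp.single 2 0 (1 : ℝ), by
    rw [lp.norm_single (by norm_num)]; simp⟩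
  have hu : ‖pt e 0‖ = 1 := by rw [norm_pt, he]; simp
  have hv : ‖pt 0 1‖ = 1 := by rw [norm_pt]; simp
  have hadd : ‖pt e 0 + pt 0 1‖ = 2 := by
    have : pt e 0 + pt 0 1 = pt e 1 := by
      show WithLp.toLp 1 ((e, (0:ℝ)) + ((0 : L2), (1:ℝ))) = _
      rw [Prod.mk_add_mk, add_zero, zero_add]; rfl
    rw [this, norm_pt, he]; norm_num
  have hsub : ‖pt e 0 - pt 0 1‖ = 2 := by
    have : pt e 0 - pt 0 1 = pt e (-1) := by
      show WithLp.toLp 1 ((e, (0:ℝ)) - ((0 : L2), (1:ℝ))) = _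
      rw [Prod.mk_sub_mk, sub_zero, zero_sub]; rfl
    rw [this, norm_pt, he]; norm_num
  have h3 := h2 (pt e 0) (pt 0 1)
  have h4 := h1 (pt e 0)
  have h5 := h1 (pt 0 1)
  rw [hadd, hsub, hu, hv, map_add, map_sub] at h3
  rw [hu] at h4
  rw [hv] at h5
  set α := f (pt e 0)
  set β := f (pt 0 1)
  have h6 : |α + β| + |α - β| - |α| - |β| = 1 := by
    have e1 : |α + β| ^ 2 = (α + β) ^ 2 := sq_abs _
    have e2 : |α - β| ^ 2 = (α - β) ^ 2 := sq_abs _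
    have e3 : |α| ^ 2 = α ^ 2 := sq_abs _
    have e4 : |β| ^ 2 = β ^ 2 := sq_abs _
    nlinarith
  rcases abs_cases (α + β) with ⟨a1, _⟩ | ⟨a1, _⟩ <;> rcases abs_cases (α - β) with ⟨a2, _⟩ | ⟨a2, _⟩ <;>
    rcases abs_cases α with ⟨a3, _⟩ | ⟨a3, _⟩ <;> rcases abs_cases β with ⟨a4, _⟩ | ⟨a4, _⟩ <;>
    rw [a1, a2, a3, a4] at h6 <;> rw [a3] at h4 <;> rw [a4] at h5 <;> linarith

end Q100.GD
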