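import Pool.Agent.Q100.GD2

set_option autoImplicit false

open Filter Topology
open scoped InnerProductSpace

namespace Q100.GD

theorem exists_basis_nat (E : Type) [NormedAddCommGroup E] [InnerProductSpace ℝ E] [CompleteSpace E]
    [TopologicalSpace.SeparableSpace E] (hinf : ¬ FiniteDimensional ℝ E) :
    Nonempty (HilbertBasis ℕ ℝ E) := by
  obtain ⟨w, b, hb⟩ := exists_hilbertBasis ℝ E
  have hon : Orthonormal ℝ (fun x : w => (x : E)) := by rw [← hb]; exact b.orthonormal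
  have hcount : w.Countable := by
    have hd : w.PairwiseDisjoint (fun x => Metric.ball x (1/2)) := by
      intro x hx y hy hxy
      apply Metric.ball_disjoint_ball
      have h1 : ‖x‖ = 1 := hon.1 ⟨x, hx⟩
      have h2 : ‖y‖ = 1 := hon.1 ⟨y, hy⟩
      have h3 : ⟪x, y⟫_ℝ = 0 := hon.2 (i := ⟨x, hx⟩) (j := ⟨y, hy⟩) (by simpa using hxy)
      have h4 : ‖x - y‖ ^ 2 = 2 := by
        rw [norm_sub_sq_real, h3, h1, h2]; norm_num
      rw [dist_eq_norm]
      nlinarith [norm_nonneg (x - y)]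
    exact hd.countable_of_isOpen (fun x _ => Metric.isOpen_ball)
      (fun x _ => ⟨x, Metric.mem_ball_self (by norm_num)⟩)
  have hinfw : w.Infinite := by
    intro hfin
    apply hinf
    have : Fintype w := hfin.fintype
    exact (b.toOrthonormalBasis).toBasis.finiteDimensional_of_finite
  have : Countable w := hcount.to_subtype
  have : Infinite w := hinfw.to_subtype
  obtain ⟨e⟩ := nonempty_equiv_of_countable (α := ℕ) (β := w)
  have hon' : Orthonormal ℝ (fun n : ℕ => ((e n : w) : E)) := hon.comp e e.injective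
  refine ⟨HilbertBasis.mk hon' ?_⟩
  have hr : Set.range (fun n : ℕ => ((e n : w) : E)) = Set.range b := by
    rw [hb]
    exact e.surjective.range_comp (fun x : w => (x : E))
  rw [hr, b.dense_span]

section Structure

variable {Y : Type} [NormedAddCommGroup Y] [NormedSpace ℝ Y]

/-- a norm one vector on which the functional is one -/
theorem exists_unit [CompleteSpace Y] (f : StrongDual ℝ Y)
    (hf : ∀ y, |f y| ≤ ‖y‖)
    (hpar : ∀ x y, (‖x + y‖ - |f (x + y)|) ^ 2 + (‖x - y‖ - |f (x - y)|) ^ 2 =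
        2 * (‖x‖ - |f x|) ^ 2 + 2 * (‖y‖ - |f y|) ^ 2)
    (hn : ∀ n : ℕ, ∃ y, (1 - 1 / ((n : ℝ) + 1)) * ‖y‖ < |f y|) :
    ∃ z : Y, f z = 1 ∧ ‖z‖ = 1 := by
  choose y hy using fun n => hn (n + 1)
  have hpos : ∀ n, 0 < |f (y n)| := by
    intro n
    have h1 := hy n
    have h2 : (0 : ℝ) ≤ (1 - 1 / (((n + 1 : ℕ) : ℝ) + 1)) * ‖y n‖ := by
      apply mul_nonneg _ (norm_nonneg _)
      rw [sub_nonneg, div_le_one (by positivity)]
      push_cast
      linarith [Nat.cast_nonneg (α := ℝ) n]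
    linarith
  set z : ℕ → Y := fun n => (f (y n))⁻¹ • y n with hz
  have hfz : ∀ n, f (z n) = 1 := by
    intro n
    rw [hz]
    simp only [map_smul, smul_eq_mul]
    exact inv_mul_cancel₀ (abs_pos.1 (hpos n))
  have hzn : ∀ n : ℕ, ‖z n‖ ≤ 1 + 1 / ((n : ℝ) + 1) := by
    intro n
    rw [hz]
    simp only [norm_smul, norm_inv, Real.norm_eq_abs]
    rw [inv_mul_le_iff₀ (hpos n)]
    have h1 := hy n
    push_cast at h1
    have hn0 : (0 : ℝ) ≤ n := Nat.cast_nonneg _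
    have h2 : (1 - 1 / ((n : ℝ) + 1 + 1)) * (1 + 1 / ((n : ℝ) + 1)) = 1 := by
      field_simp; ring
    have h3 : 0 < 1 + 1 / ((n : ℝ) + 1) := by positivity
    calc ‖y n‖ = (1 - 1 / ((n : ℝ) + 1 + 1)) * ‖y n‖ * (1 + 1 / ((n : ℝ) + 1)) := by
          rw [mul_assoc, mul_comm ‖y n‖, ← mul_assoc, h2, one_mul]
      _ ≤ |f (y n)| * (1 + 1 / ((n : ℝ) + 1)) := mul_le_mul_of_nonneg_right h1.le h3.le
  have hq : ∀ n : ℕ, (‖z n‖ - |f (z n)|) ^ 2 ≤ (1 / ((n : ℝ) + 1)) ^ 2 := by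
    intro n
    have h1 := hzn n
    have h2 := hf (z n)
    rw [hfz n, abs_one] at h2 ⊢
    apply pow_le_pow_left₀ (by linarith)
    linarith
  have hdist : ∀ n m N : ℕ, N ≤ n → N ≤ m → dist (z n) (z m) ≤ 2 / ((N : ℝ) + 1) := by
    intro n m N hn hm
    have h1 := hpar (z n) (z m)
    have h2 : f (z n - z m) = 0 := by rw [map_sub, hfz, hfz, sub_self]
    rw [h2, abs_zero, sub_zero] at h1
    have h3 : ∀ k : ℕ, N ≤ k → (‖z k‖ - |f (z k)|) ^ 2 ≤ (1 / ((N : ℝ) + 1)) ^ 2 := by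
      intro k hk
      refine (hq k).trans (pow_le_pow_left₀ (by positivity) ?_ 2)
      apply one_div_le_one_div_of_le (by positivity)
      have : (N : ℝ) ≤ k := by exact_mod_cast hk
      linarith
    have h4 : ‖z n - z m‖ ^ 2 ≤ (2 / ((N : ℝ) + 1)) ^ 2 := by
      have e1 := h3 n hn
      have e2 := h3 m hm
      have e3 := sq_nonneg (‖z n + z m‖ - |f (z n + z m)|)
      have e4 : (2 / ((N : ℝ) + 1)) ^ 2 = 4 * (1 / ((N : ℝ) + 1)) ^ 2 := by ring
      rw [e4]
      linarith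
    rw [dist_eq_norm]
    exact le_of_sq_le_sq h4 (by positivity)
  have hcau : CauchySeq z := by
    apply cauchySeq_of_le_tendsto_0 (fun N : ℕ => 2 / ((N : ℝ) + 1)) hdist
    have := (tendsto_one_div_add_atTop_nhds_zero_nat (𝕜 := ℝ)).const_mul 2
    simpa [div_eq_mul_inv] using this
  obtain ⟨w, hw⟩ := cauchySeq_tendsto_of_complete hcau
  have hfw : f w = 1 := by
    refine tendsto_nhds_unique ((f.continuous.tendsto w).comp hw) ?_
    have : f ∘ z = fun _ => (1 : ℝ) := by funext n; exact hfz n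
    rw [this]; exact tendsto_const_nhds
  refine ⟨w, hfw, le_antisymm ?_ ?_⟩
  · have h1 : Tendsto (fun n : ℕ => 1 + 1 / ((n : ℝ) + 1)) atTop (𝓝 (1 + 0)) :=
      tendsto_const_nhds.add tendsto_one_div_add_atTop_nhds_zero_nat
    rw [add_zero] at h1
    exact le_of_tendsto_of_tendsto' hw.norm h1 hzn
  · have := hf w
    rwa [hfw, abs_one] at this

theorem norm_split (f : StrongDual ℝ Y)
    (hf : ∀ y, |f y| ≤ ‖y‖)
    (hpar : ∀ x y, (‖x + y‖ - |f (x + y)|) ^ 2 + (‖x - y‖ - |f (x - y)|) ^ 2 =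
        2 * (‖x‖ - |f x|) ^ 2 + 2 * (‖y‖ - |f y|) ^ 2) {z : Y} (hz : f z = 1) (hz1 : ‖z‖ = 1)
    (h : Y) (hh : f h = 0) (t : ℝ) : ‖h + t • z‖ = ‖h‖ + |t| := by
  have h1 := hpar h (t • z)
  have e1 : ‖t • z‖ = |t| := by rw [norm_smul, hz1, mul_one, Real.norm_eq_abs]
  have e2 : f (t • z) = t := by rw [map_smul, hz, smul_eq_mul, mul_one]
  rw [map_add, map_sub, e1, e2, hh, zero_add, zero_sub, abs_neg, abs_zero, sub_self, sub_zero] at h1
  have h2 : ‖h + t • z‖ ≤ ‖h‖ + |t| := by rw [← e1]; exact norm_add_le _ _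
  have h3 : ‖h - t • z‖ ≤ ‖h‖ + |t| := by rw [← e1]; exact norm_sub_le _ _
  have h4 : |t| ≤ ‖h + t • z‖ := by
    have := hf (h + t • z)
    rwa [map_add, hh, e2, zero_add] at this
  have h5 : |t| ≤ ‖h - t • z‖ := by
    have := hf (h - t • z)
    rwa [map_sub, hh, e2, zero_sub, abs_neg] at this
  have h6 : (‖h - t • z‖ - |t|) ^ 2 ≤ ‖h‖ ^ 2 :=
    pow_le_pow_left₀ (by linarith) (by linarith) 2
  have h7 : ‖h‖ ^ 2 ≤ (‖h + t • z‖ - |t|) ^ 2 := by nlinarith
  have h8 : ‖h‖ ≤ ‖h + t • z‖ - |t| := le_of_sq_le_sq h7 (by linarith)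
  linarith

theorem structure_thm [CompleteSpace Y] [TopologicalSpace.SeparableSpace Y]
    (hinf : ¬ FiniteDimensional ℝ Y) (f : StrongDual ℝ Y)
    (hf : ∀ y, |f y| ≤ ‖y‖)
    (hpar : ∀ x y, (‖x + y‖ - |f (x + y)|) ^ 2 + (‖x - y‖ - |f (x - y)|) ^ 2 =
        2 * (‖x‖ - |f x|) ^ 2 + 2 * (‖y‖ - |f y|) ^ 2)
    (hn : ∀ n : ℕ, ∃ y, (1 - 1 / ((n : ℝ) + 1)) * ‖y‖ < |f y|) :
    Nonempty (Y ≃ₗᵢ[ℝ] X0) := by
  obtain ⟨z, hz, hz1⟩ := exists_unit f hf hpar hn
  let K : Submodule ℝ Y := LinearMap.ker (f : Y →ₗ[ℝ] ℝ)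
  have hK : ∀ k : K, f (k : Y) = 0 := fun k => k.2
  have hKc : IsClosed (K : Set Y) := by
    have : (K : Set Y) = f ⁻¹' {0} := by ext y; rfl
    rw [this]
    exact isClosed_singleton.preimage f.continuous
  have hcomp : CompleteSpace K := hKc.completeSpace_coe
  have hKpar : ∀ x y : K, ‖x + y‖ * ‖x + y‖ + ‖x - y‖ * ‖x - y‖ =
      2 * (‖x‖ * ‖x‖ + ‖y‖ * ‖y‖) := by
    intro x y
    have h1 := hpar (x : Y) (y : Y)
    rw [map_add, map_sub, hK, hK, add_zero, sub_zero, abs_zero, sub_zero, sub_zero, sub_zero,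
      sub_zero] at h1
    have e1 : ‖x + y‖ = ‖(x : Y) + (y : Y)‖ := rfl
    have e2 : ‖x - y‖ = ‖(x : Y) - (y : Y)‖ := rfl
    have e3 : ‖x‖ = ‖(x : Y)‖ := rfl
    have e4 : ‖y‖ = ‖(y : Y)‖ := rfl
    rw [e1, e2, e3, e4]
    nlinarith
  letI : InnerProductSpace ℝ K := InnerProductSpace.ofNorm ℝ hKpar
  -- the linear equivalence
  let Φ : Y ≃ₗ[ℝ] (K × ℝ) :=
    { toFun := fun y => (⟨y - f y • z, by
        show f (y - f y • z) = 0
        rw [map_sub, map_smul, hz, smul_eq_mul, mul_one, sub_self]⟩, f y)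
      map_add' := by
        intro a b
        refine Prod.ext (Subtype.ext ?_) (map_add f a b)
        show a + b - f (a + b) • z = (a - f a • z) + (b - f b • z)
        rw [map_add, add_smul]; abel
      map_smul' := by
        intro r a
        refine Prod.ext (Subtype.ext ?_) (map_smul f r a)
        show r • a - f (r • a) • z = r • (a - f a • z)
        rw [map_smul, smul_sub, smul_smul, smul_eq_mul]
      invFun := fun p => (p.1 : Y) + p.2 • z
      left_inv := by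
        intro y
        show (y - f y • z) + f y • z = y
        abel
      right_inv := by
        rintro ⟨k, t⟩
        have e : f ((k : Y) + t • z) = t := by
          rw [map_add, hK, map_smul, hz, smul_eq_mul, mul_one, zero_add]
        refine Prod.ext (Subtype.ext ?_) e
        show (k : Y) + t • z - f ((k : Y) + t • z) • z = k
        rw [e]; abel }
  have hΦn : ∀ y, ‖y‖ = ‖(Φ y).1‖ + |(Φ y).2| := by
    intro y
    have h1 := norm_split f hf hpar hz hz1 (y - f y • z) (by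
      rw [map_sub, map_smul, hz, smul_eq_mul, mul_one, sub_self]) (f y)
    rw [sub_add_cancel] at h1
    exact h1
  have hKinf : ¬ FiniteDimensional ℝ K := by
    intro hfin
    apply hinf
    exact Module.Finite.equiv Φ.symm
  obtain ⟨b⟩ := exists_basis_nat K hKinf
  let Ψ : (K × ℝ) ≃ₗ[ℝ] (L2 × ℝ) := b.repr.toLinearEquiv.prodCongr (LinearEquiv.refl ℝ ℝ)
  refine ⟨⟨(Φ.trans Ψ).trans (WithLp.linearEquiv 1 ℝ (L2 × ℝ)).symm, fun y => ?_⟩⟩
  rw [norm_X0, hΦn y]
  show ‖b.repr (Φ y).1‖ + |(Φ y).2| = _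
  rw [b.repr.norm_map]

end Structure

end Q100.GD
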