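import Pool.Agent.Q100.GD3

set_option autoImplicit false

open Filter Topology MeasureTheory
open scoped ENNReal

namespace Q100.GD

theorem par_ker (x y : X0) (hx : x.snd = 0) (hy : y.snd = 0) :
    ‖x + y‖ ^ 2 + ‖x - y‖ ^ 2 = 2 * ‖x‖ ^ 2 + 2 * ‖y‖ ^ 2 := by
  have h1 : (x + y).snd = 0 := by
    have : (x + y).snd = x.snd + y.snd := rfl
    rw [this, hx, hy, add_zero]
  have h2 : (x - y).snd = 0 := by
    have : (x - y).snd = x.snd - y.snd := rfl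
    rw [this, hx, hy, sub_zero]
  rw [norm_X0, norm_X0, norm_X0, norm_X0, h1, h2, hx, hy, abs_zero, add_zero, add_zero, add_zero,
    add_zero]
  have h3 : (x + y).fst = x.fst + y.fst := rfl
  have h4 : (x - y).fst = x.fst - y.fst := rfl
  rw [h3, h4]
  have := parallelogram_law_with_norm ℝ x.fst y.fst
  nlinarith [this]

theorem pt_data : ∃ u v : X0, ‖u‖ = 1 ∧ ‖v‖ = 1 ∧ ‖u + v‖ = 2 ∧ ‖u - v‖ = 2 := by
  obtain ⟨e, he⟩ : ∃ e : L2, ‖e‖ = 1 := ⟨lp.single 2 0 (1 : ℝ), by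
    rw [lp.norm_single (by norm_num)]; simp⟩
  refine ⟨pt e 0, pt 0 1, ?_, ?_, ?_, ?_⟩
  · rw [norm_pt, he]; simp
  · rw [norm_pt]; simp
  · have : pt e 0 + pt 0 1 = pt e 1 := by
      show WithLp.toLp 1 ((e, (0:ℝ)) + ((0 : L2), (1:ℝ))) = _
      rw [Prod.mk_add_mk, add_zero, zero_add]; rfl
    rw [this, norm_pt, he]; norm_num
  · have : pt e 0 - pt 0 1 = pt e (-1) := by
      show WithLp.toLp 1 ((e, (0:ℝ)) - ((0 : L2), (1:ℝ))) = _
      rw [Prod.mk_sub_mk, sub_zero, zero_sub]; rfl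
    rw [this, norm_pt, he]; norm_num

/-- the second coordinate as a linear functional -/
noncomputable def sndL : X0 →ₗ[ℝ] ℝ where
  toFun x := x.snd
  map_add' _ _ := rfl
  map_smul' _ _ := rfl

section LpPart

variable {α : Type*} [MeasurableSpace α] {ν : Measure α} {p : ℝ≥0∞} [Fact (1 ≤ p)]

theorem Lp_norm_rpow (hp : p ≠ ∞) (f : Lp ℝ p ν) :
    ‖f‖ ^ p.toReal = (∫⁻ x, ‖f x‖ₑ ^ p.toReal ∂ν).toReal := by
  have h1 : 1 ≤ p := Fact.out
  have h0 : p ≠ 0 := (lt_of_lt_of_le one_pos h1).ne'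
  have hp0 : 0 < p.toReal := ENNReal.toReal_pos h0 hp
  rw [Lp.norm_def, eLpNorm_eq_lintegral_rpow_enorm_toReal h0 hp, ENNReal.toReal_rpow,
    ← ENNReal.rpow_mul, one_div, inv_mul_cancel₀ hp0.ne', ENNReal.rpow_one]

theorem Lp_disj (hp : p ≠ ∞) (f g : Lp ℝ p ν) (h : ∀ᵐ x ∂ν, f x = 0 ∨ g x = 0) :
    ‖f + g‖ ^ p.toReal = ‖f‖ ^ p.toReal + ‖g‖ ^ p.toReal := by
  have h1 : 1 ≤ p := Fact.out
  have h0 : p ≠ 0 := (lt_of_lt_of_le one_pos h1).ne'
  have hp0 : 0 < p.toReal := ENNReal.toReal_pos h0 hp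
  rw [Lp_norm_rpow hp, Lp_norm_rpow hp, Lp_norm_rpow hp]
  have hfin : ∀ k : Lp ℝ p ν, ∫⁻ x, ‖k x‖ₑ ^ p.toReal ∂ν ≠ ∞ := by
    intro k
    have := lintegral_rpow_enorm_lt_top_of_eLpNorm_lt_top h0 hp (Lp.eLpNorm_lt_top k)
    exact this.ne
  rw [← ENNReal.toReal_add (hfin f) (hfin g)]
  congr 1
  rw [← lintegral_add_left' ((Lp.aestronglyMeasurable f).enorm.pow_const _)]
  apply lintegral_congr_ae
  filter_upwards [h, Lp.coeFn_add f g] with x hx hx2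
  rw [hx2, Pi.add_apply]
  rcases hx with hx | hx
  · rw [hx, zero_add, enorm_zero, ENNReal.zero_rpow_of_pos hp0, zero_add]
  · rw [hx, add_zero, enorm_zero, ENNReal.zero_rpow_of_pos hp0, add_zero]

theorem exists_ker {φ : Lp ℝ p ν →ₗ[ℝ] ℝ} (g0 g1 : Lp ℝ p ν) (hg0 : g0 ≠ 0) (hg1 : g1 ≠ 0)
    (h : ∀ᵐ x ∂ν, g0 x = 0 ∨ g1 x = 0) :
    ∃ f : Lp ℝ p ν, ‖f‖ = 1 ∧ φ f = 0 ∧ ∃ a b : ℝ, f = a • g0 + b • g1 := by
  obtain ⟨f, hf, hφ, a, b, hab⟩ : ∃ f : Lp ℝ p ν, f ≠ 0 ∧ φ f = 0 ∧ ∃ a b : ℝ, f = a • g0 + b • g1 := by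
    by_cases h0 : φ g0 = 0
    · exact ⟨g0, hg0, h0, 1, 0, by simp⟩
    · refine ⟨φ g1 • g0 + (-φ g0) • g1, ?_, ?_, _, _, rfl⟩
      · intro hz
        apply hg1
        have h2 : φ g1 • g0 = φ g0 • g1 := by
          rw [neg_smul, ← sub_eq_add_neg, sub_eq_zero] at hz; exact hz
        rw [Lp.ext_iff]
        filter_upwards [h, Lp.coeFn_smul (φ g1) g0, Lp.coeFn_smul (φ g0) g1,
          Lp.coeFn_zero ℝ p ν] with x hx e1 e2 e3
        rw [e3, Pi.zero_apply]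
        rcases hx with hx | hx
        · have e4 : (φ g1 • g0 : Lp ℝ p ν) x = (φ g0 • g1 : Lp ℝ p ν) x := by rw [h2]
          rw [e1, e2, Pi.smul_apply, Pi.smul_apply, hx, smul_zero, smul_eq_mul] at e4
          rcases mul_eq_zero.1 e4.symm with h5 | h5
          · exact absurd h5 h0
          · exact h5
        · exact hx
      · rw [map_add, map_smul, map_smul, smul_eq_mul, smul_eq_mul]; ring
  have hn : ‖f‖ ≠ 0 := norm_ne_zero_iff.2 hf
  refine ⟨‖f‖⁻¹ • f, ?_, ?_, ‖f‖⁻¹ * a, ‖f‖⁻¹ * b, ?_⟩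
  · rw [norm_smul, norm_inv, norm_norm, inv_mul_cancel₀ hn]
  · rw [map_smul, hφ, smul_zero]
  · conv_lhs => rw [hab]
    rw [smul_add, smul_smul, smul_smul, hab]

end LpPart

/-- the four quarters of the unit interval -/
theorem quarter_meas (j : Fin 4) :
    (volume.restrict (Set.Icc (0:ℝ) 1)) (Set.Ioo ((j : ℝ) / 4) (((j : ℝ) + 1) / 4)) =
      ENNReal.ofReal (1 / 4) := by
  rw [Measure.restrict_apply measurableSet_Ioo]
  have hj : (j : ℝ) ≤ 3 := by exact_mod_cast Nat.lt_succ_iff.1 j.2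
  have hj0 : (0 : ℝ) ≤ j := Nat.cast_nonneg _
  have : Set.Ioo ((j : ℝ) / 4) (((j : ℝ) + 1) / 4) ∩ Set.Icc (0:ℝ) 1 =
      Set.Ioo ((j : ℝ) / 4) (((j : ℝ) + 1) / 4) := by
    apply Set.inter_eq_left.2
    rintro x ⟨h1, h2⟩
    constructor <;> linarith
  rw [this, Real.volume_Ioo]
  congr 1
  ring

theorem not_Lp (p : ℝ≥0∞) [hp1 : Fact (1 ≤ p)] (hp : p ≠ ∞) :
    IsEmpty (X0 ≃ₗᵢ[ℝ] Lp ℝ p (volume.restrict (Set.Icc (0:ℝ) 1))) := by
  constructor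
  intro e
  set ν := (volume.restrict (Set.Icc (0:ℝ) 1) : Measure ℝ) with hν
  have hp1' : 1 ≤ p := Fact.out
  have h0 : p ≠ 0 := (lt_of_lt_of_le one_pos hp1').ne'
  have hp0 : 0 < p.toReal := ENNReal.toReal_pos h0 hp
  let S : Fin 4 → Set ℝ := fun j => Set.Ioo ((j : ℝ) / 4) (((j : ℝ) + 1) / 4)
  have hS : ∀ j, MeasurableSet (S j) := fun j => measurableSet_Ioo
  have hSn : ∀ j, ν (S j) = ENNReal.ofReal (1 / 4) := fun j => quarter_meas j
  have hSt : ∀ j, ν (S j) ≠ ∞ := fun j => by rw [hSn]; exact ENNReal.ofReal_ne_top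
  let g : Fin 4 → Lp ℝ p ν := fun j => indicatorConstLp p (hS j) (hSt j) (1 : ℝ)
  have hgS : ∀ j, ∀ᵐ x ∂ν, g j x = 0 ∨ x ∈ S j := by
    intro j
    filter_upwards [indicatorConstLp_coeFn (p := p) (hs := hS j) (hμs := hSt j) (c := (1 : ℝ))]
      with x hx
    by_cases hxS : x ∈ S j
    · exact Or.inr hxS
    · left
      show (indicatorConstLp p (hS j) (hSt j) (1 : ℝ) : ℝ → ℝ) x = 0
      rw [hx]; exact Set.indicator_of_notMem hxS _
  have hg0 : ∀ j, g j ≠ 0 := by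
    intro j h
    have h1 : ‖g j‖ = ‖(1:ℝ)‖ * ν.real (S j) ^ (1 / p.toReal) :=
      norm_indicatorConstLp h0 hp
    rw [h, norm_zero, norm_one, one_mul, Measure.real, hSn, ENNReal.toReal_ofReal (by norm_num)] at h1
    have : (0:ℝ) < (1/4 : ℝ) ^ (1 / p.toReal) := Real.rpow_pos_of_pos (by norm_num) _
    linarith
  have hSd : ∀ i j : Fin 4, i ≠ j → ∀ x, ¬ (x ∈ S i ∧ x ∈ S j) := by
    rintro i j hij x ⟨⟨h1, h2⟩, ⟨h3, h4⟩⟩
    rcases lt_or_gt_of_ne hij with h | h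
    · have : (i : ℝ) + 1 ≤ j := by exact_mod_cast h
      linarith
    · have : (j : ℝ) + 1 ≤ i := by exact_mod_cast h
      linarith
  have hgd : ∀ i j : Fin 4, i ≠ j → ∀ᵐ x ∂ν, g i x = 0 ∨ g j x = 0 := by
    intro i j hij
    filter_upwards [hgS i, hgS j] with x h1 h2
    rcases h1 with h1 | h1
    · exact Or.inl h1
    · rcases h2 with h2 | h2
      · exact Or.inr h2
      · exact absurd ⟨h1, h2⟩ (hSd i j hij x)
  let φ : Lp ℝ p ν →ₗ[ℝ] ℝ := sndL.comp (e.symm.toLinearEquiv : Lp ℝ p ν →ₗ[ℝ] X0)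
  obtain ⟨f1, hf1, hφ1, a, b, hab⟩ := exists_ker (φ := φ) (g 0) (g 1) (hg0 0) (hg0 1)
    (hgd 0 1 (by decide))
  obtain ⟨f2, hf2, hφ2, c, d, hcd⟩ := exists_ker (φ := φ) (g 2) (g 3) (hg0 2) (hg0 3)
    (hgd 2 3 (by decide))
  have hf12 : ∀ᵐ x ∂ν, f1 x = 0 ∨ f2 x = 0 := by
    filter_upwards [hgS 0, hgS 1, hgS 2, hgS 3, Lp.coeFn_add (a • g 0) (b • g 1),
      Lp.coeFn_add (c • g 2) (d • g 3), Lp.coeFn_smul a (g 0), Lp.coeFn_smul b (g 1),
      Lp.coeFn_smul c (g 2), Lp.coeFn_smul d (g 3)] with x h0 h1 h2 h3 e1 e2 s0 s1 s2 s3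
    rw [hab, hcd, e1, e2, Pi.add_apply, Pi.add_apply, s0, s1, s2, s3, Pi.smul_apply, Pi.smul_apply,
      Pi.smul_apply, Pi.smul_apply]
    have hA : ∀ i j : Fin 4, i ≠ j → ∀ x, x ∈ S i → x ∉ S j := fun i j hij x h1 h2 =>
      hSd i j hij x ⟨h1, h2⟩
    by_cases hx : x ∈ S 0 ∨ x ∈ S 1
    · right
      have h2' : g 2 x = 0 := by
        rcases h2 with h | h
        · exact h
        · rcases hx with hx | hx
          · exact absurd h (hA 0 2 (by decide) x hx)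
          · exact absurd h (hA 1 2 (by decide) x hx)
      have h3' : g 3 x = 0 := by
        rcases h3 with h | h
        · exact h
        · rcases hx with hx | hx
          · exact absurd h (hA 0 3 (by decide) x hx)
          · exact absurd h (hA 1 3 (by decide) x hx)
      rw [h2', h3', smul_zero, smul_zero, add_zero]
    · left
      push Not at hx
      have h0' : g 0 x = 0 := h0.resolve_right hx.1
      have h1' : g 1 x = 0 := h1.resolve_right hx.2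
      rw [h0', h1', smul_zero, smul_zero, add_zero]
  have hf12' : ∀ᵐ x ∂ν, f1 x = 0 ∨ (-f2) x = 0 := by
    filter_upwards [hf12, Lp.coeFn_neg f2] with x h1 h2
    rw [h2, Pi.neg_apply, neg_eq_zero]; exact h1
  have n1 := Lp_disj hp f1 f2 hf12
  have n2 := Lp_disj hp f1 (-f2) hf12'
  rw [norm_neg, ← sub_eq_add_neg] at n2
  rw [hf1, hf2, Real.one_rpow] at n1 n2
  have hpar := par_ker (e.symm f1) (e.symm f2) hφ1 hφ2
  rw [← map_add, ← map_sub, e.symm.norm_map, e.symm.norm_map, e.symm.norm_map, e.symm.norm_map,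
    hf1, hf2] at hpar
  have hA0 : 0 ≤ ‖f1 + f2‖ := norm_nonneg _
  have hB0 : 0 ≤ ‖f1 - f2‖ := norm_nonneg _
  have hAB : ‖f1 + f2‖ = ‖f1 - f2‖ :=
    (Real.rpow_left_inj hA0 hB0 hp0.ne').1 (n1.trans n2.symm)
  have hA2 : ‖f1 + f2‖ ^ 2 = 2 := by rw [← hAB] at hpar; linarith
  have hp2 : p.toReal = 2 := by
    have h1 : ‖f1 + f2‖ = Real.sqrt 2 := by
      rw [← hA2, Real.sqrt_sq hA0]
    rw [h1, Real.sqrt_eq_rpow, ← Real.rpow_mul (by norm_num)] at n1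
    have h2 : (2:ℝ) ^ (1 / 2 * p.toReal) = (2:ℝ) ^ (1:ℝ) := by rw [n1]; norm_num
    have h3 := (Real.strictMono_rpow_of_base_gt_one (b := 2) (by norm_num)).injective h2
    linarith
  have hp2' : p = 2 := by
    rw [← ENNReal.ofReal_toReal hp, hp2]; norm_num
  subst hp2'
  obtain ⟨u, v, hu, hv, huv, huv'⟩ := pt_data
  have := parallelogram_law_with_norm ℝ (e u) (e v)
  rw [← map_add, ← map_sub, e.norm_map, e.norm_map, e.norm_map, e.norm_map, hu, hv, huv, huv'] at this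
  norm_num at this

end Q100.GD
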