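import Pool.Agent.Q100.GD4

set_option autoImplicit false

open Filter Topology MeasureTheory
open scoped ENNReal

namespace Q100.GD

/-- the four-dimensional space with the sum norm -/
abbrev F4 : Type := PiLp 1 (fun _ : Fin 4 => ℝ)

theorem norm_F4 (x : F4) : ‖x‖ = |x 0| + |x 1| + |x 2| + |x 3| := by
  rw [PiLp.norm_eq_of_L1, Fin.sum_univ_four]; rfl

/-- a linear combination in the kernel of a functional -/
theorem exists_ker4 (φ : F4 →ₗ[ℝ] ℝ) :
    ∃ x y : F4, ‖x‖ = 1 ∧ ‖y‖ = 1 ∧ φ x = 0 ∧ φ y = 0 ∧ ‖x + y‖ = 2 ∧ ‖x - y‖ = 2 := by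
  have key : ∀ s t : ℝ, ∃ a b : ℝ, |a| + |b| = 1 ∧ a * s + b * t = 0 := by
    intro s t
    by_cases h : |t| + |s| = 0
    · have h1 : s = 0 := by
        have := abs_nonneg t
        have h2 := abs_nonneg s
        exact abs_eq_zero.1 (by linarith)
      have h2 : t = 0 := by
        have := abs_nonneg t
        have h2 := abs_nonneg s
        exact abs_eq_zero.1 (by linarith)
      exact ⟨1, 0, by simp, by rw [h1, h2]; ring⟩
    · have hpos : 0 < |t| + |s| := lt_of_le_of_ne (by positivity) (Ne.symm h)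
      refine ⟨t / (|t| + |s|), -s / (|t| + |s|), ?_, ?_⟩
      · rw [abs_div, abs_div, abs_neg, abs_of_pos hpos, ← add_div, div_self h]
      · field_simp; ring
  let e : Fin 4 → F4 := fun i => WithLp.toLp 1 (Pi.single i (1 : ℝ))
  obtain ⟨a, b, hab, hab'⟩ := key (φ (e 0)) (φ (e 1))
  obtain ⟨c, d, hcd, hcd'⟩ := key (φ (e 2)) (φ (e 3))
  let x : F4 := a • e 0 + b • e 1
  let y : F4 := c • e 2 + d • e 3
  have x0 : x 0 = a := by simp [x, e]
  have x1 : x 1 = b := by simp [x, e]
  have x2 : x 2 = 0 := by simp [x, e]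
  have x3 : x 3 = 0 := by simp [x, e]
  have y0 : y 0 = 0 := by simp [y, e]
  have y1 : y 1 = 0 := by simp [y, e]
  have y2 : y 2 = c := by simp [y, e]
  have y3 : y 3 = d := by simp [y, e]
  refine ⟨x, y, ?_, ?_, ?_, ?_, ?_, ?_⟩
  · rw [norm_F4, x0, x1, x2, x3, abs_zero, add_zero, add_zero]; exact hab
  · rw [norm_F4, y0, y1, y2, y3, abs_zero, zero_add, zero_add]; exact hcd
  · show φ (a • e 0 + b • e 1) = 0
    rw [map_add, map_smul, map_smul, smul_eq_mul, smul_eq_mul]; exact hab'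
  · show φ (c • e 2 + d • e 3) = 0
    rw [map_add, map_smul, map_smul, smul_eq_mul, smul_eq_mul]; exact hcd'
  · rw [norm_F4]
    simp only [PiLp.add_apply, x0, x1, x2, x3, y0, y1, y2, y3, add_zero, zero_add]
    linarith
  · rw [norm_F4]
    simp only [PiLp.sub_apply, x0, x1, x2, x3, y0, y1, y2, y3, sub_zero, zero_sub, abs_neg]
    linarith

/-- no almost isometric copy of the four-dimensional space in the one-sum -/
theorem not_almost (S : F4 →ₗ[ℝ] X0) :
    ¬ ∀ x, (1 - 1 / 10) * ‖x‖ ≤ ‖S x‖ ∧ ‖S x‖ ≤ (1 + 1 / 10) * ‖x‖ := by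
  intro h
  obtain ⟨x, y, hx, hy, hφx, hφy, hxy, hxy'⟩ := exists_ker4 (sndL.comp S)
  have hpar := par_ker (S x) (S y) hφx hφy
  rw [← map_add, ← map_sub] at hpar
  have h1 := (h (x + y)).1
  have h2 := (h (x - y)).1
  have h3 := (h x).2
  have h4 := (h y).2
  rw [hxy] at h1
  rw [hxy'] at h2
  rw [hx] at h3
  rw [hy] at h4
  have n1 := norm_nonneg (S x)
  have n2 := norm_nonneg (S y)
  nlinarith

theorem infinite_dim : ¬ FiniteDimensional ℝ X0 := by
  intro h
  let L : L2 →ₗ[ℝ] X0 :=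
    { toFun := fun k => pt k 0
      map_add' := by
        intro a b
        show WithLp.toLp 1 (a + b, (0:ℝ)) = WithLp.toLp 1 ((a, (0:ℝ)) + (b, (0:ℝ)))
        rw [Prod.mk_add_mk, add_zero]
      map_smul' := by
        intro r a
        show WithLp.toLp 1 (r • a, (0:ℝ)) = WithLp.toLp 1 (r • (a, (0:ℝ)))
        rw [Prod.smul_mk, smul_zero] }
  have hL : Function.Injective L := by
    intro a b hab
    have h1 : (pt a 0).fst = (pt b 0).fst := congrArg (fun z : X0 => z.fst) hab
    exact h1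
  have h2 : FiniteDimensional ℝ L2 := FiniteDimensional.of_injective L hL
  let b : HilbertBasis ℕ ℝ L2 := default
  have h3 : LinearIndependent ℝ b := b.orthonormal.linearIndependent
  exact (Set.infinite_univ (α := ℕ)) (by
    have := h3.finite
    exact Set.finite_univ)

theorem separable_L2 : TopologicalSpace.SeparableSpace L2 := by
  let b : HilbertBasis ℕ ℝ L2 := default
  have h1 : TopologicalSpace.IsSeparable (Set.range b) := (Set.countable_range b).isSeparable
  have h2 := h1.span (R := ℝ)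
  have h3 := h2.closure
  have h4 : closure (Submodule.span ℝ (Set.range b) : Set L2) = Set.univ := by
    have := b.dense_span
    rw [← Submodule.topologicalClosure_coe, this]; rfl
  rw [h4] at h3
  exact TopologicalSpace.isSeparable_univ_iff.1 h3

theorem separable : TopologicalSpace.SeparableSpace X0 := by
  have := separable_L2
  have h1 : TopologicalSpace.SeparableSpace (L2 × ℝ) := inferInstance
  exact (WithLp.prodContinuousLinearEquiv 1 ℝ L2 ℝ).symm.surjective.denseRange.separableSpace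
    (WithLp.prodContinuousLinearEquiv 1 ℝ L2 ℝ).symm.continuous

/-- the class of the one-sum among codes of infinite-dimensional spaces -/
theorem class_iff {Y : Type} [NormedAddCommGroup Y] [NormedSpace ℝ Y] [CompleteSpace Y]
    (hinf : ¬ FiniteDimensional ℝ Y) {μ : V → ℝ} (ι : V →+ Y) (h : ∀ v, ‖ι v‖ = μ v)
    (hd : DenseRange ι) :
    (∃ κ : V →+ X0, (∀ v, ‖κ v‖ = μ v) ∧ DenseRange κ) ↔
      μ ∈ A 1 ∧ ∀ n : ℕ, μ ∉ A (1 - 1 / ((n : ℝ) + 1)) := by
  constructor
  · rintro ⟨κ, h1, h2⟩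
    refine ⟨mem_A_one κ h1, fun n => not_mem_A κ h1 h2 ?_⟩
    have : (0:ℝ) < 1 / ((n : ℝ) + 1) := by positivity
    linarith
  · rintro ⟨h1, h2⟩
    obtain ⟨f, hf, hpar⟩ := extend_all ι h hd le_rfl h1
    have hsep : TopologicalSpace.SeparableSpace Y :=
      ⟨⟨Set.range ι, Set.countable_range ι, hd⟩⟩
    obtain ⟨e⟩ := structure_thm hinf f (fun y => by have := hf y; rwa [one_mul] at this) hpar (by
      intro n
      by_contra hcon
      push Not at hcon
      apply h2 n
      refine ⟨fun v => f (ι v), fun u v => ?_, fun v => ?_, fun u v => ?_⟩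
      · show f (ι (u + v)) = _
        rw [map_add, map_add]
      · show |f (ι v)| ≤ _
        rw [← h v]; exact hcon (ι v)
      · show (μ (u + v) - |f (ι (u + v))|) ^ 2 + (μ (u - v) - |f (ι (u - v))|) ^ 2 =
          2 * (μ u - |f (ι u)|) ^ 2 + 2 * (μ v - |f (ι v)|) ^ 2
        rw [← h, ← h, ← h, ← h, map_add, map_sub]
        exact hpar (ι u) (ι v))
    refine ⟨(e.toLinearEquiv.toLinearMap.toAddMonoidHom).comp ι, fun v => ?_, ?_⟩
    · show ‖e (ι v)‖ = μ v
      rw [e.norm_map, h]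
    · exact e.surjective.denseRange.comp hd e.continuous

/-- The class of the one-sum is a countable intersection of open sets, relative to any set of
codes of infinite-dimensional spaces. -/
theorem isGδ_class (S : Set (V → ℝ)) (hS : ∀ μ ∈ S, ∃ (Y : Type) (_ : NormedAddCommGroup Y)
    (_ : NormedSpace ℝ Y) (_ : CompleteSpace Y) (ι : V →+ Y), (∀ v, ‖ι v‖ = μ v) ∧ DenseRange ι ∧
      ¬ FiniteDimensional ℝ Y) :
    IsGδ {μ : S | ∃ κ : V →+ X0, (∀ v, ‖κ v‖ = μ.1 v) ∧ DenseRange κ} := by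
  have h1 : {μ : S | ∃ κ : V →+ X0, (∀ v, ‖κ v‖ = μ.1 v) ∧ DenseRange κ} =
      (Subtype.val ⁻¹' (A 1)) ∩ ⋂ n : ℕ, (Subtype.val ⁻¹' (A (1 - 1 / ((n : ℝ) + 1))))ᶜ := by
    ext μ
    obtain ⟨Y, i1, i2, i3, ι, h1, h2, h3⟩ := hS μ.1 μ.2
    have := class_iff h3 ι h1 h2
    rw [Set.mem_setOf_eq, this]
    simp [Set.mem_iInter]
  rw [h1]
  apply IsGδ.inter
  · exact ((isClosed_A zero_le_one).preimage continuous_subtype_val).isGδ
  · refine IsGδ.iInter fun n => IsOpen.isGδ ?_
    rw [isOpen_compl_iff]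
    apply (isClosed_A ?_).preimage continuous_subtype_val
    rw [sub_nonneg, div_le_one (by positivity)]
    linarith [Nat.cast_nonneg (α := ℝ) n]

end Q100.GD
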