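import Pool.Agent.Q100.SickStDefs

/-!
# Regular probability measures, strongly countably determined measures, analytic measures
-/

set_option autoImplicit false
open MeasureTheory Filter Topology

namespace Q100.Gd

universe u

/-- The regular Borel probability measures on `K`. -/
def RegProb (K : Type u) [TopologicalSpace K] [MeasurableSpace K] : Type u :=
  {μ : Measure K // IsProbabilityMeasure μ ∧ μ.Regular}

/-- The weak* topology induced by `C(K)`. -/
noncomputable instance (K : Type u) [TopologicalSpace K] [MeasurableSpace K] :
    TopologicalSpace (RegProb K) :=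
  TopologicalSpace.induced (fun (μ : RegProb K) (f : C(K, ℝ)) => ∫ x, f x ∂μ.1) inferInstance

/-- `μ` is strongly countably determined: it is a `G_δ` point of `P(K)`. -/
def StronglyCountablyDetermined {K : Type u} [TopologicalSpace K] [MeasurableSpace K]
    (μ : RegProb K) : Prop := IsGδ ({μ} : Set (RegProb K))

/-- A finite measure is analytic: `L₁(μ)` is separable and the image of `C(K)` in `L₁(μ)` is an
analytic set. -/
def AnalyticMeas {K : Type u} [TopologicalSpace K] [CompactSpace K] [MeasurableSpace K]
    [BorelSpace K] (μ : Measure K) [IsFiniteMeasure μ] : Prop :=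
  TopologicalSpace.SeparableSpace (Lp ℝ 1 μ) ∧
    AnalyticSet (Set.range (ContinuousMap.toLp (E := ℝ) 1 μ ℝ))

end Q100.Gd
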