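import Pool.Agent.Q100.SickDefs
import Pool.Agent.Q100.BLLift

/-!
# Sick products of two infinite compact spaces are metrizable
-/

set_option autoImplicit false
open Filter Topology

noncomputable section

namespace Q100.Sick

open Q100.BL

universe u v w

/-- A compact Hausdorff space with separable `C(K)` is metrizable. -/
theorem metrizable_of_separable (K : Type u) [TopologicalSpace K] [CompactSpace K] [T2Space K]
    [TopologicalSpace.SeparableSpace C(K, ℝ)] : TopologicalSpace.MetrizableSpace K := by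
  rcases isEmpty_or_nonempty C(K, ℝ) with h | h
  · exact (h.false 0).elim
  let d : ℕ → C(K, ℝ) := TopologicalSpace.denseSeq C(K, ℝ)
  let e : K → (ℕ → ℝ) := fun x n => d n x
  have hcont : Continuous e := continuous_pi (fun n => (d n).continuous)
  have hinj : Function.Injective e := by
    intro x y hxy
    by_contra hne
    obtain ⟨f, hf0, hf1, -⟩ := exists_continuous_zero_one_of_isClosed (isClosed_singleton (x := x))
      (isClosed_singleton (x := y)) (by simpa using hne)
    have hfx : f x = 0 := hf0 rfl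
    have hfy : f y = 1 := hf1 rfl
    obtain ⟨n, hn⟩ := (TopologicalSpace.denseRange_denseSeq C(K, ℝ)).exists_dist_lt f
      (show (0 : ℝ) < 1 / 4 by norm_num)
    have h1 := (ContinuousMap.dist_lt_iff (by norm_num)).1 hn x
    have h2 := (ContinuousMap.dist_lt_iff (by norm_num)).1 hn y
    have h3 : d n x = d n y := congrFun hxy n
    rw [Real.dist_eq] at h1 h2
    change |f x - d n x| < 1 / 4 at h1
    change |f y - d n y| < 1 / 4 at h2
    rw [hfx] at h1
    rw [hfy, ← h3] at h2
    have h4 := abs_lt.1 h1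
    have h5 := abs_lt.1 h2
    linarith [h4.1, h4.2, h5.1, h5.2]
  exact (hcont.isClosedEmbedding hinj).isEmbedding.metrizableSpace

section

variable {M : Type u} [TopologicalSpace M] [CompactSpace M]
  {E : Type v} [NormedAddCommGroup E] [NormedSpace ℝ E] [Lattice E] [IsBanachLattice E]
  {x : E} {T : C(M, ℝ) →ₗ[ℝ] E}

theorem map_abs (hT : IsVectorLatticeIso x T) (f : C(M, ℝ)) : T |f| = |T f| := by
  change T (f ⊔ -f) = T f ⊔ -T f
  rw [hT.map_sup, map_neg]

theorem map_mono (hT : IsVectorLatticeIso x T) {f g : C(M, ℝ)} (h : f ≤ g) : T f ≤ T g := by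
  have h1 : f ⊔ g = g := sup_eq_right.2 h
  have h2 := hT.map_sup f g
  rw [h1] at h2
  rw [h2]
  exact le_sup_left

theorem norm_mono (hT : IsVectorLatticeIso x T) {f g : C(M, ℝ)} (h : |f| ≤ |g|) :
    ‖T f‖ ≤ ‖T g‖ := by
  refine HasSolidNorm.solid ?_
  rw [← map_abs hT, ← map_abs hT]
  exact map_mono hT h

theorem norm_le (hT : IsVectorLatticeIso x T) (f : C(M, ℝ)) : ‖T f‖ ≤ ‖T 1‖ * ‖f‖ := by
  have h1 : |f| ≤ |(‖f‖ • (1 : C(M, ℝ)))| := by
    intro t
    change |f t| ≤ |‖f‖ * 1|
    rw [mul_one, abs_of_nonneg (norm_nonneg f)]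
    exact f.norm_coe_le_norm t
  refine (norm_mono hT h1).trans (le_of_eq ?_)
  rw [map_smul, norm_smul, norm_norm, mul_comm]

/-- Order bounded sequences that are Cauchy for the norm of `E` converge. -/
theorem exists_limit (hT : IsVectorLatticeIso x T) (S : ℕ → C(M, ℝ)) (hS : ∀ n, |S n| ≤ 1)
    (hc : CauchySeq (fun n => T (S n))) :
    ∃ F : C(M, ℝ), Tendsto (fun n => T (S n)) atTop (𝓝 (T F)) := by
  obtain ⟨y, hy⟩ := cauchySeq_tendsto_of_complete hc
  have h1 : ∀ n, |T (S n)| ≤ T 1 := fun n => by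
    rw [← map_abs hT]
    exact map_mono hT (hS n)
  have h2 : |y| ≤ T 1 := le_of_tendsto' ((continuous_abs' (E := E)).tendsto y |>.comp hy) h1
  have h3 : T 1 ∈ principalIdeal x := by
    rw [← hT.range_eq]; exact ⟨1, rfl⟩
  obtain ⟨c, hc0, hc1⟩ := h3
  have h4 : y ∈ Set.range T := by
    rw [hT.range_eq]
    exact ⟨c, hc0, h2.trans ((le_abs_self _).trans hc1)⟩
  obtain ⟨F, rfl⟩ := h4
  exact ⟨F, hy⟩

end

section

variable {K : Type u} [TopologicalSpace K] [CompactSpace K]
  {L : Type v} [TopologicalSpace L] [CompactSpace L] [T2Space L] [Infinite L]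
  {E : Type w} [NormedAddCommGroup E] [NormedSpace ℝ E] [Lattice E] [IsBanachLattice E]
  {x : E} {T : C(K × L, ℝ) →ₗ[ℝ] E}

/-- The function `h ⊗ 1`. -/
def fstF (h : C(K, ℝ)) : C(K × L, ℝ) := h.comp ContinuousMap.fst

/-- The function `1 ⊗ u`. -/
def sndF (K : Type u) [TopologicalSpace K] {L : Type v} [TopologicalSpace L] (u : C(L, ℝ)) :
    C(K × L, ℝ) := u.comp ContinuousMap.snd

omit [CompactSpace K] [CompactSpace L] [T2Space L] [Infinite L] in
@[simp] theorem fstF_apply (h : C(K, ℝ)) (p : K × L) : fstF h p = h p.1 := rfl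

omit [CompactSpace K] [CompactSpace L] [T2Space L] [Infinite L] in
@[simp] theorem sndF_apply (u : C(L, ℝ)) (p : K × L) : sndF K u p = u p.2 := rfl

/-- The key estimate: `‖h‖ ≤ C ‖T (h ⊗ 1)‖`. -/
theorem lower_bound (hT : IsVectorLatticeIso x T) :
    ∃ c : ℝ, 0 < c ∧ ∀ h : C(K, ℝ), c * ‖h‖ ≤ ‖T (fstF h)‖ := by
  by_contra hcon
  push Not at hcon
  -- functions `h_j`
  have hj : ∀ j : ℕ, ∃ h : C(K, ℝ), ‖h‖ = 1 ∧ ‖T (fstF h)‖ ≤ (1 / 2) ^ j := by
    intro j
    obtain ⟨h, hh⟩ := hcon ((1 / 2) ^ j) (by positivity)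
    have hpos : 0 < ‖h‖ := by
      by_contra h0
      have h0' : ‖h‖ = 0 := le_antisymm (not_lt.1 h0) (norm_nonneg _)
      rw [h0', mul_zero] at hh
      exact absurd hh (not_lt.2 (norm_nonneg _))
    refine ⟨‖h‖⁻¹ • h, ?_, ?_⟩
    · rw [norm_smul, norm_inv, norm_norm, inv_mul_cancel₀ hpos.ne']
    · have h1 : fstF (L := L) (‖h‖⁻¹ • h) = ‖h‖⁻¹ • fstF h := rfl
      rw [h1, map_smul, norm_smul, norm_inv, norm_norm, inv_mul_le_iff₀ hpos, mul_comm]
      exact hh.le
  choose h hh1 hh2 using hj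
  -- disjoint functions `u_j`
  obtain ⟨U, hUi, hUo, hUd⟩ := exists_seq_infinite_isOpen_pairwise_disjoint L
  have hu : ∀ j : ℕ, ∃ (u : C(L, ℝ)) (t : L), u t = 1 ∧ (∀ s, 0 ≤ u s ∧ u s ≤ 1) ∧
      ∀ s, s ∉ U j → u s = 0 := by
    intro j
    obtain ⟨t, ht⟩ := (hUi j).nonempty
    obtain ⟨u, hu0, hu1, hu⟩ := exists_continuous_zero_one_of_isClosed
      (hUo j).isClosed_compl (isClosed_singleton (x := t)) (by
        rw [Set.disjoint_singleton_right]; simpa using ht)
    exact ⟨u, t, hu1 rfl, fun s => hu s, fun s hs => hu0 hs⟩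
  choose u t hut hu01 hu0 using hu
  -- at most one `u_j` is nonzero at each point
  have hdisj : ∀ (s : L) (i j : ℕ), i ≠ j → u i s ≠ 0 → u j s = 0 := by
    intro s i j hij hi
    by_contra hj
    have h1 : s ∈ U i := by by_contra h2; exact hi (hu0 i s h2)
    have h2 : s ∈ U j := by by_contra h3; exact hj (hu0 j s h3)
    exact Set.disjoint_left.1 (hUd hij) h1 h2
  let w : ℕ → C(K × L, ℝ) := fun j => fstF (h j) * sndF K (u j)
  let S : ℕ → C(K × L, ℝ) := fun n => ∑ j ∈ Finset.range n, w j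
  have hSapp : ∀ n (p : K × L), S n p = ∑ j ∈ Finset.range n, h j p.1 * u j p.2 := by
    intro n p
    simp only [S, w, ContinuousMap.sum_apply]
    rfl
  have hSj : ∀ n j (p : K × L), u j p.2 ≠ 0 → j < n → S n p = h j p.1 * u j p.2 := by
    intro n j p hp hjn
    rw [hSapp, Finset.sum_eq_single j]
    · intro i _ hij
      rw [hdisj p.2 j i hij.symm hp, mul_zero]
    · intro h0; exact absurd (Finset.mem_range.2 hjn) h0
  have hle1 : ∀ j (p : K × L), |h j p.1 * u j p.2| ≤ 1 := by
    intro j p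
    rw [abs_mul]
    have h1 : |h j p.1| ≤ 1 := (h j).norm_coe_le_norm p.1 |>.trans (hh1 j).le
    have h2 : |u j p.2| ≤ 1 := by
      rw [abs_of_nonneg (hu01 j p.2).1]; exact (hu01 j p.2).2
    calc |h j p.1| * |u j p.2| ≤ 1 * 1 := mul_le_mul h1 h2 (abs_nonneg _) zero_le_one
      _ = 1 := one_mul 1
  have hSb : ∀ n, |S n| ≤ 1 := by
    intro n p
    change |S n p| ≤ 1
    by_cases hex : ∃ j < n, u j p.2 ≠ 0
    · obtain ⟨j, hj, hp⟩ := hex
      rw [hSj n j p hp hj]
      exact hle1 j p
    · push Not at hex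
      rw [hSapp, Finset.sum_eq_zero]
      · simp
      · intro j hj
        rw [hex j (Finset.mem_range.1 hj), mul_zero]
  have hc : CauchySeq (fun n => T (S n)) := by
    refine cauchySeq_of_le_geometric (1 / 2) 1 (by norm_num) (fun n => ?_)
    rw [dist_comm, dist_eq_norm, ← map_sub, one_mul]
    have h1 : S (n + 1) - S n = w n := by
      simp only [S, Finset.sum_range_succ]
      abel
    rw [h1]
    refine (norm_mono hT ?_).trans (hh2 n)
    intro p
    change |h n p.1 * u n p.2| ≤ |h n p.1|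
    rw [abs_mul]
    refine mul_le_of_le_one_right (abs_nonneg _) ?_
    rw [abs_of_nonneg (hu01 n p.2).1]; exact (hu01 n p.2).2
  obtain ⟨F, hF⟩ := exists_limit hT S hSb hc
  have hFj : ∀ j (s : K), F (s, t j) = h j s := by
    intro j s
    have h1 : |F - w j| ⊓ sndF K (u j) = 0 := by
      apply hT.injective
      rw [map_zero]
      have h2 : ∀ n, j < n → ‖T (|F - w j| ⊓ sndF K (u j))‖ ≤ ‖T F - T (S n)‖ := by
        intro n hn
        rw [← map_sub]
        refine norm_mono hT ?_
        intro p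
        change |min |F p - h j p.1 * u j p.2| (u j p.2)| ≤ |F p - S n p|
        rcases eq_or_ne (u j p.2) 0 with h0 | h0
        · rw [h0, min_eq_right (abs_nonneg _), abs_zero]
          exact abs_nonneg _
        · rw [hSj n j p h0 hn, abs_of_nonneg (le_min (abs_nonneg _) (hu01 j p.2).1)]
          exact min_le_left _ _
      have h3 : Tendsto (fun n => ‖T F - T (S n)‖) atTop (𝓝 0) := by
        have := (hF.const_sub (T F)).norm
        simpa using this
      have h4 : ‖T (|F - w j| ⊓ sndF K (u j))‖ ≤ 0 := ge_of_tendsto h3 (by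
        filter_upwards [eventually_gt_atTop j] with n hn
        exact h2 n hn)
      exact norm_le_zero_iff.1 h4
    have h2 : min |F (s, t j) - h j s * u j (t j)| (u j (t j)) = 0 :=
      congrArg (fun f : C(K × L, ℝ) => f (s, t j)) h1
    rw [hut, mul_one] at h2
    have h3 : |F (s, t j) - h j s| = 0 := by
      rcases min_choice |F (s, t j) - h j s| (1 : ℝ) with h4 | h4
      · rw [h4] at h2; exact h2
      · rw [h4] at h2; norm_num at h2
    exact sub_eq_zero.1 (abs_eq_zero.1 h3)
  -- the sequence `h_j` lies in a compact set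
  let Φ : C(L, C(K, ℝ)) := (F.comp ContinuousMap.prodSwap).curry
  have hΦ : ∀ j, Φ (t j) = h j := by
    intro j
    ext s
    exact hFj j s
  have hcomp : IsCompact (Set.range Φ) := isCompact_range Φ.continuous
  obtain ⟨g, -, φ, hφ, hlim⟩ := hcomp.tendsto_subseq (x := h) (fun j => ⟨t j, hΦ j⟩)
  have hg1 : ‖g‖ = 1 := by
    have h1 : Tendsto (fun k => ‖h (φ k)‖) atTop (𝓝 ‖g‖) := hlim.norm
    simp_rw [hh1] at h1
    exact (tendsto_nhds_unique h1 tendsto_const_nhds)
  have hg0 : fstF (L := L) g = 0 := by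
    apply hT.injective
    rw [map_zero]
    have h1 : ∀ k, ‖T (fstF (L := L) g)‖ ≤ ‖T 1‖ * ‖g - h (φ k)‖ + (1 / 2) ^ (φ k) := by
      intro k
      have h2 : fstF (L := L) g = fstF (g - h (φ k)) + fstF (h (φ k)) := by
        ext p; simp
      rw [h2, map_add]
      refine (norm_add_le _ _).trans (add_le_add ?_ (hh2 _))
      refine (norm_le hT _).trans (mul_le_mul_of_nonneg_left ?_ (norm_nonneg _))
      refine (ContinuousMap.norm_le _ (norm_nonneg _)).2 (fun p => ?_)
      exact (g - h (φ k)).norm_coe_le_norm p.1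
    have h3 : Tendsto (fun k => ‖T 1‖ * ‖g - h (φ k)‖ + (1 / 2 : ℝ) ^ (φ k)) atTop
        (𝓝 (‖T 1‖ * 0 + 0)) := by
      refine Tendsto.add (Tendsto.const_mul _ ?_) ?_
      · have h4 : Tendsto (fun k => ‖g - h (φ k)‖) atTop (𝓝 ‖g - g‖) :=
          (Tendsto.sub tendsto_const_nhds hlim).norm
        simpa using h4
      · exact (tendsto_pow_atTop_nhds_zero_of_lt_one (by norm_num) (by norm_num)).comp
          hφ.tendsto_atTop
    rw [mul_zero, add_zero] at h3
    exact norm_le_zero_iff.1 (ge_of_tendsto' h3 h1)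
  have hg : g = 0 := by
    ext s
    exact congrArg (fun f : C(K × L, ℝ) => f (s, t 0)) hg0
  rw [hg, norm_zero] at hg1
  norm_num at hg1

theorem metrizable_left [T2Space K] [TopologicalSpace.SeparableSpace E]
    (hT : IsVectorLatticeIso x T) : TopologicalSpace.MetrizableSpace K := by
  obtain ⟨c, hc, hlow⟩ := lower_bound hT
  let Φ : C(K, ℝ) →ₗ[ℝ] E :=
    { toFun := fun h => T (fstF h)
      map_add' := fun a b => by
        rw [← map_add]; rfl
      map_smul' := fun r a => by
        rw [RingHom.id_apply, ← map_smul]; rfl }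
  have hup : ∀ h, ‖Φ h‖ ≤ ‖T 1‖ * ‖h‖ := by
    intro h
    refine (norm_le hT _).trans (mul_le_mul_of_nonneg_left ?_ (norm_nonneg _))
    exact (ContinuousMap.norm_le _ (norm_nonneg _)).2 (fun p => h.norm_coe_le_norm p.1)
  let Ψ : C(K, ℝ) →L[ℝ] E := Φ.mkContinuous ‖T 1‖ hup
  have hanti : AntilipschitzWith (Real.toNNReal (1 / c)) Ψ := by
    refine AddMonoidHomClass.antilipschitz_of_bound Ψ (fun h => ?_)
    rw [Real.coe_toNNReal _ (by positivity), one_div, ← div_eq_inv_mul, le_div_iff₀ hc, mul_comm]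
    exact hlow h
  have hind : Topology.IsInducing Ψ :=
    (hanti.isUniformInducing Ψ.uniformContinuous).isInducing
  haveI : SecondCountableTopology E := UniformSpace.secondCountable_of_separable E
  haveI : SecondCountableTopology C(K, ℝ) := hind.secondCountableTopology
  exact metrizable_of_separable K

end

theorem metrizable_left_of_sick {K : Type u} [TopologicalSpace K] [CompactSpace K] [T2Space K]
    {L : Type v} [TopologicalSpace L] [CompactSpace L] [T2Space L] [Infinite L]
    (h : SickSpace.{max u v, w} (K × L)) : TopologicalSpace.MetrizableSpace K := by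
  obtain ⟨E, i1, i2, i3, i4, i5, x, -, T, hT⟩ := h
  exact metrizable_left hT

/-- Sickness is invariant under homeomorphisms. -/
theorem SickSpace.homeo {M : Type u} {N : Type v} [TopologicalSpace M] [TopologicalSpace N]
    (e : M ≃ₜ N) (h : SickSpace.{u, w} M) : SickSpace.{v, w} N := by
  obtain ⟨E, i1, i2, i3, i4, i5, x, hx, T, hT⟩ := h
  let R : C(N, ℝ) ≃ₗ[ℝ] C(M, ℝ) :=
    { toFun := fun f => f.comp ⟨e, e.continuous⟩
      invFun := fun f => f.comp ⟨e.symm, e.symm.continuous⟩
      map_add' := fun _ _ => rfl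
      map_smul' := fun _ _ => rfl
      left_inv := fun f => by ext p; simp
      right_inv := fun f => by ext p; simp }
  refine ⟨E, i1, i2, i3, i4, i5, x, hx, T.comp R.toLinearMap, ?_, ?_, ?_, ?_⟩
  · intro f g
    exact hT.map_sup (R f) (R g)
  · intro f g
    exact hT.map_inf (R f) (R g)
  · exact hT.injective.comp R.injective
  · rw [← hT.range_eq]
    ext y
    constructor
    · rintro ⟨f, rfl⟩; exact ⟨R f, rfl⟩
    · rintro ⟨f, rfl⟩
      refine ⟨R.symm f, ?_⟩
      change T (R (R.symm f)) = T f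
      rw [R.apply_symm_apply]

end Q100.Sick
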