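import Pool.Agent.Q100.GdDefs
import Pool.Agent.Q100.Sick

/-!
# `G_δ` measures on sick compact spaces are analytic
-/

set_option autoImplicit false
open MeasureTheory Filter Topology Set

namespace Q100.Gd

open Q100.BL Q100.Sick

universe u v

section rmk

variable {K : Type u} [TopologicalSpace K] [CompactSpace K] [T2Space K] [MeasurableSpace K]
  [BorelSpace K]

/-- Riesz representation. -/
lemma exists_measure (g : C(K, ℝ) →ₗ[ℝ] ℝ) (hg : ∀ f : C(K, ℝ), 0 ≤ f → 0 ≤ g f)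
    (hg1 : g 1 = 1) : ∃ ν : RegProb K, ∀ f : C(K, ℝ), ∫ x, f x ∂ν.1 = g f := by
  let j : CompactlySupportedContinuousMap K ℝ →ₗ[ℝ] C(K, ℝ) :=
    { toFun := fun f => f.toContinuousMap
      map_add' := fun f h => rfl
      map_smul' := fun c f => rfl }
  let Λ : CompactlySupportedContinuousMap K ℝ →ₚ[ℝ] ℝ :=
    PositiveLinearMap.mk₀ (g ∘ₗ j) (fun f hf => hg _ (fun x => hf x))
  let m := RealRMK.rieszMeasure Λ
  have hint : ∀ f : C(K, ℝ), ∫ x, f x ∂m = g f := by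
    intro f
    have := RealRMK.integral_rieszMeasure Λ (CompactlySupportedContinuousMap.continuousMapEquiv f)
    exact this
  have hreg : m.Regular := inferInstance
  have hfin : IsFiniteMeasure m := inferInstance
  have hprob : IsProbabilityMeasure m := by
    have h1 := hint 1
    rw [hg1] at h1
    simp only [ContinuousMap.one_apply, integral_const, smul_eq_mul, mul_one] at h1
    exact ⟨by
      rw [Measure.real, ENNReal.toReal_eq_one_iff] at h1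
      exact h1⟩
  exact ⟨⟨m, hprob, hreg⟩, hint⟩

omit [CompactSpace K] [T2Space K] [BorelSpace K] in
/-- A `G_δ` measure is determined by countably many functions. -/
lemma exists_countable (μ : RegProb K) (hμ : StronglyCountablyDetermined μ) :
    ∃ G : Set C(K, ℝ), G.Countable ∧
      ∀ ν : RegProb K, (∀ g ∈ G, ∫ x, g x ∂ν.1 = ∫ x, g x ∂μ.1) → ν = μ := by
  obtain ⟨𝒯, h𝒯o, h𝒯c, h𝒯⟩ := hμ
  have hex : ∀ t ∈ 𝒯, ∃ I : Finset C(K, ℝ), ∀ ν : RegProb K,
      (∀ g ∈ I, ∫ x, g x ∂ν.1 = ∫ x, g x ∂μ.1) → ν ∈ t := by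
    intro t ht
    obtain ⟨O, hO, rfl⟩ := isOpen_induced_iff.1 (h𝒯o t ht)
    have hμt : μ ∈ ⋂₀ 𝒯 := by rw [← h𝒯]; exact mem_singleton μ
    obtain ⟨I, w, hw1, hw2⟩ := isOpen_pi_iff.1 hO _ (hμt _ ht)
    refine ⟨I, fun ν hν => hw2 fun g hg => ?_⟩
    show (∫ x, g x ∂ν.1) ∈ w g
    rw [hν g hg]
    exact (hw1 g hg).2
  choose! I hI using hex
  refine ⟨⋃ t ∈ 𝒯, (I t : Set C(K, ℝ)), h𝒯c.biUnion fun t _ => (I t).countable_toSet,
    fun ν hν => ?_⟩
  have : ν ∈ ⋂₀ 𝒯 := fun t ht => hI t ht ν fun g hg => hν g (mem_biUnion ht hg)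
  rw [← h𝒯] at this
  exact this

/-- Upper approximation of continuous functions by a determining subspace. -/
lemma upper_approx (μ : RegProb K) (A : Submodule ℝ C(K, ℝ)) (hA1 : (1 : C(K, ℝ)) ∈ A)
    (hA : ∀ ν : RegProb K, (∀ g ∈ A, ∫ x, g x ∂ν.1 = ∫ x, g x ∂μ.1) → ν = μ)
    (f0 : C(K, ℝ)) (ε : ℝ) (hε : 0 < ε) :
    ∃ b ∈ A, f0 ≤ b ∧ ∫ x, b x ∂μ.1 < ∫ x, f0 x ∂μ.1 + ε := by
  have hprob : IsProbabilityMeasure μ.1 := μ.2.1
  have hint : ∀ f : C(K, ℝ), Integrable f μ.1 := fun f =>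
    f.continuous.integrable_of_hasCompactSupport (HasCompactSupport.of_compactSpace f)
  let m : C(K, ℝ) →ₗ[ℝ] ℝ :=
    { toFun := fun f => ∫ x, f x ∂μ.1
      map_add' := fun f g => integral_add (hint f) (hint g)
      map_smul' := fun c f => integral_const_mul c _ }
  have hmono : ∀ f g : C(K, ℝ), f ≤ g → m f ≤ m g := fun f g h =>
    integral_mono (hint f) (hint g) h
  by_contra hcon
  push Not at hcon
  -- the sublinear functional
  let B : C(K, ℝ) → Set ℝ := fun f => {r | ∃ b ∈ A, f ≤ b ∧ m b = r}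
  have hBne : ∀ f, (B f).Nonempty := by
    intro f
    refine ⟨m (‖f‖ • 1), ‖f‖ • 1, A.smul_mem _ hA1, fun x => ?_, rfl⟩
    have h1 := f.norm_coe_le_norm x
    have h2 : f x ≤ ‖f x‖ := Real.le_norm_self _
    show f x ≤ ‖f‖ * 1
    linarith
  have hBbd : ∀ f, BddBelow (B f) := by
    rintro f
    refine ⟨m f, ?_⟩
    rintro _ ⟨b, -, hb, rfl⟩
    exact hmono f b hb
  let N : C(K, ℝ) → ℝ := fun f => sInf (B f)
  have hN_le : ∀ f b, b ∈ A → f ≤ b → N f ≤ m b := fun f b hb hfb =>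
    csInf_le (hBbd f) ⟨b, hb, hfb, rfl⟩
  have hN_ge : ∀ f, m f ≤ N f := fun f =>
    le_csInf (hBne f) (by rintro _ ⟨b, -, hb, rfl⟩; exact hmono f b hb)
  have hNlt : ∀ f r, N f < r → ∃ b ∈ A, f ≤ b ∧ m b < r := by
    intro f r hr
    obtain ⟨_, ⟨b, hb, hfb, rfl⟩, hbr⟩ := exists_lt_of_csInf_lt (hBne f) hr
    exact ⟨b, hb, hfb, hbr⟩
  have hN_hom_le : ∀ c : ℝ, 0 < c → ∀ f, N (c • f) ≤ c * N f := by
    intro c hc f
    refine le_of_forall_pos_le_add fun η hη => ?_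
    obtain ⟨b, hb, hfb, hbr⟩ := hNlt f (N f + η / c) (by have := div_pos hη hc; linarith)
    have h1 : N (c • f) ≤ m (c • b) := hN_le _ _ (A.smul_mem c hb) (fun x => by
      show c * f x ≤ c * b x
      have := hfb x
      gcongr
      exact this)
    rw [map_smul, smul_eq_mul] at h1
    have h2 : c * m b ≤ c * (N f + η / c) := by gcongr
    have h3 : c * (N f + η / c) = c * N f + η := by field_simp
    linarith
  have hN_hom : ∀ c : ℝ, 0 < c → ∀ f, N (c • f) = c * N f := by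
    intro c hc f
    refine le_antisymm (hN_hom_le c hc f) ?_
    have h1 := hN_hom_le c⁻¹ (inv_pos.2 hc) (c • f)
    rw [smul_smul, inv_mul_cancel₀ hc.ne', one_smul] at h1
    have h2 : c * N f ≤ c * (c⁻¹ * N (c • f)) := by gcongr
    rwa [← mul_assoc, mul_inv_cancel₀ hc.ne', one_mul] at h2
  have hN_add : ∀ f g, N (f + g) ≤ N f + N g := by
    intro f g
    refine le_of_forall_pos_le_add fun η hη => ?_
    obtain ⟨b, hb, hfb, hbr⟩ := hNlt f (N f + η / 2) (by linarith)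
    obtain ⟨b', hb', hfb', hbr'⟩ := hNlt g (N g + η / 2) (by linarith)
    have h1 : N (f + g) ≤ m (b + b') := hN_le _ _ (A.add_mem hb hb') (fun x => by
      show f x + g x ≤ b x + b' x
      exact add_le_add (hfb x) (hfb' x))
    rw [map_add] at h1
    linarith
  have hN0 : N 0 = 0 := by
    have := hN_hom 2 (by norm_num) 0
    rw [smul_zero] at this
    linarith
  -- the functional on the span of `f0`
  have hf0 : m f0 + ε ≤ N f0 := by
    refine le_csInf (hBne f0) ?_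
    rintro _ ⟨b, hb, hfb, rfl⟩
    exact hcon b hb hfb
  have hf0ne : f0 ≠ 0 := by
    rintro rfl
    rw [hN0, map_zero] at hf0
    linarith
  let φ : C(K, ℝ) →ₗ.[ℝ] ℝ := LinearPMap.mkSpanSingleton f0 (N f0) hf0ne
  have hφ : ∀ x : φ.domain, φ x ≤ N x := by
    rintro ⟨x, hx⟩
    obtain ⟨c, rfl⟩ := Submodule.mem_span_singleton.1 hx
    have h1 : φ ⟨c • f0, hx⟩ = c * N f0 :=
      LinearPMap.mkSpanSingleton'_apply _ _ _ _ _
    rw [h1]
    show c * N f0 ≤ N (c • f0)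
    rcases lt_trichotomy c 0 with hc | hc | hc
    · have h2 := hN_add (c • f0) (-(c • f0))
      rw [add_neg_cancel, hN0, ← neg_smul, hN_hom (-c) (by linarith)] at h2
      linarith
    · rw [hc, zero_mul, zero_smul, hN0]
    · rw [hN_hom c hc]
  obtain ⟨g, hg1, hg2⟩ := exists_extension_of_le_sublinear φ N hN_hom hN_add hφ
  have hgf0 : g f0 = N f0 := by
    have h1 := hg1 ⟨f0, Submodule.mem_span_singleton_self f0⟩
    have h2 : φ ⟨f0, Submodule.mem_span_singleton_self f0⟩ = N f0 :=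
      LinearPMap.mkSpanSingleton_apply ℝ ℝ hf0ne (N f0)
    rw [h2] at h1
    exact h1
  have hgA : ∀ a ∈ A, g a = m a := by
    intro a ha
    have h1 : g a ≤ m a := (hg2 a).trans (hN_le a a ha le_rfl)
    have h2 : g (-a) ≤ m (-a) := (hg2 (-a)).trans (hN_le (-a) (-a) (A.neg_mem ha) le_rfl)
    rw [map_neg, map_neg] at h2
    linarith
  have hgpos : ∀ f : C(K, ℝ), 0 ≤ f → 0 ≤ g f := by
    intro f hf
    have h1 : g (-f) ≤ m 0 := (hg2 (-f)).trans (hN_le (-f) 0 A.zero_mem (by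
      intro x
      show -f x ≤ 0
      have : 0 ≤ f x := hf x
      linarith))
    rw [map_neg, map_zero] at h1
    linarith
  have hg_one : g 1 = 1 := by
    rw [hgA 1 hA1]
    show ∫ x, (1 : C(K, ℝ)) x ∂μ.1 = 1
    simp
  obtain ⟨ν, hν⟩ := exists_measure g hgpos hg_one
  have hνμ : ν = μ := hA ν fun a ha => by rw [hν, hgA a ha]; rfl
  have h3 := hν f0
  rw [hνμ, hgf0] at h3
  have h4 : m f0 = N f0 := h3
  linarith

/-- The countable sandwich family. -/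
lemma exists_sandwich (μ : RegProb K) (hμ : StronglyCountablyDetermined μ) :
    ∃ A : Set C(K, ℝ), A.Countable ∧ A.Nonempty ∧ ∀ f : C(K, ℝ), ∀ ε : ℝ, 0 < ε →
      ∃ a ∈ A, ∃ b ∈ A, a ≤ f ∧ f ≤ b ∧ ∫ x, b x ∂μ.1 - ∫ x, a x ∂μ.1 < ε := by
  have hprob : IsProbabilityMeasure μ.1 := μ.2.1
  have hint : ∀ f : C(K, ℝ), Integrable f μ.1 := fun f =>
    f.continuous.integrable_of_hasCompactSupport (HasCompactSupport.of_compactSpace f)
  obtain ⟨G, hGc, hG⟩ := exists_countable μ hμ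
  set A0 : Submodule ℝ C(K, ℝ) := Submodule.span ℝ (insert 1 G) with hA0
  have hA0sub : insert 1 G ⊆ (A0 : Set C(K, ℝ)) := Submodule.subset_span
  have hdet : ∀ ν : RegProb K, (∀ g ∈ A0, ∫ x, g x ∂ν.1 = ∫ x, g x ∂μ.1) → ν = μ :=
    fun ν hν => hG ν fun g hg => hν g (hA0sub (mem_insert_of_mem _ hg))
  have hup := upper_approx μ A0 (hA0sub (mem_insert _ _)) hdet
  have hsep : TopologicalSpace.IsSeparable (A0 : Set C(K, ℝ)) :=
    ((hGc.insert 1).isSeparable).span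
  obtain ⟨c, hcc, hc⟩ := hsep
  set A : Set C(K, ℝ) := (fun p : C(K, ℝ) × ℚ => p.1 + (p.2 : ℝ) • (1 : C(K, ℝ))) ''
    (c ×ˢ (univ : Set ℚ)) with hA
  have hAc : A.Countable := (hcc.prod countable_univ).image _
  have hupper : ∀ f : C(K, ℝ), ∀ ε : ℝ, 0 < ε → ∃ b ∈ A, f ≤ b ∧
      ∫ x, b x ∂μ.1 < ∫ x, f x ∂μ.1 + ε := by
    intro f ε hε
    obtain ⟨b, hb, hfb, hbm⟩ := hup f (ε / 2) (by linarith)
    obtain ⟨q, hq1, hq2⟩ := exists_rat_btwn (show ε / 8 < ε / 4 by linarith)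
    obtain ⟨b', hb', hbb'⟩ := Metric.mem_closure_iff.1 (hc hb) (ε / 8) (by linarith)
    have hd : ∀ x, |b x - b' x| < ε / 8 := fun x => by
      have := (ContinuousMap.dist_lt_iff (by linarith)).1 hbb' x
      rwa [Real.dist_eq] at this
    refine ⟨b' + (q : ℝ) • 1, ⟨(b', q), ⟨hb', mem_univ _⟩, rfl⟩, fun x => ?_, ?_⟩
    · show f x ≤ b' x + q * 1
      have h1 := abs_lt.1 (hd x)
      have h2 : f x ≤ b x := hfb x
      linarith [h1.2]
    · have h1 : ∫ x, (b' + (q : ℝ) • (1 : C(K, ℝ))) x ∂μ.1 ≤ ∫ x, (b x + ε / 2) ∂μ.1 := by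
        refine integral_mono (hint _) ((hint b).add (integrable_const _)) fun x => ?_
        show b' x + q * 1 ≤ b x + ε / 2
        have h1 := abs_lt.1 (hd x)
        linarith [h1.1]
      rw [integral_add (hint b) (integrable_const _)] at h1
      simp only [integral_const, probReal_univ, smul_eq_mul, one_mul] at h1
      linarith
  obtain ⟨b1, hb1, -, -⟩ := hupper 0 1 one_pos
  refine ⟨A ∪ (fun f => -f) '' A, hAc.union (hAc.image _), ⟨b1, Or.inl hb1⟩,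
    fun f ε hε => ?_⟩
  obtain ⟨b, hb, hfb, hbm⟩ := hupper f (ε / 2) (by linarith)
  obtain ⟨a, ha, hfa, ham⟩ := hupper (-f) (ε / 2) (by linarith)
  refine ⟨-a, Or.inr ⟨a, ha, rfl⟩, b, Or.inl hb, ?_, hfb, ?_⟩
  · intro x
    have : -f x ≤ a x := hfa x
    show -a x ≤ f x
    linarith
  · have h1 : ∫ x, (-f) x ∂μ.1 = -∫ x, f x ∂μ.1 := integral_neg _
    have h2 : ∫ x, (-a) x ∂μ.1 = -∫ x, a x ∂μ.1 := integral_neg _
    rw [h1] at ham
    rw [h2]
    linarith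

end rmk

section abstract_part

lemma inter_analytic {α : Type*} [TopologicalSpace α] [T2Space α] {s t : Set α}
    (hs : AnalyticSet s) (ht : AnalyticSet t) : AnalyticSet (s ∩ t) := by
  rw [inter_eq_iInter]
  exact AnalyticSet.iInter fun b => by cases b <;> assumption

/-- An abstract form of the graph argument. -/
lemma analytic_range {C E L : Type*} [TopologicalSpace E] [PolishSpace E] [Preorder E]
    [OrderClosedTopology E] [TopologicalSpace L] [PolishSpace L] [Preorder L]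
    [OrderClosedTopology L] (T : C → E) (J : C → L) (F : ℕ → Set E) (hF : ∀ n, IsClosed (F n))
    (hT : Set.range T = ⋃ n, F n) (A : ℕ → Set (C × C)) (hAc : ∀ m, (A m).Countable)
    (h1 : ∀ f m, ∃ p ∈ A m, T p.1 ≤ T f ∧ T f ≤ T p.2 ∧ J p.1 ≤ J f ∧ J f ≤ J p.2)
    (h2 : ∀ f g, (∀ m, ∃ p ∈ A m, T p.1 ≤ T f ∧ T f ≤ T p.2 ∧ J p.1 ≤ g ∧ g ≤ J p.2) →
      g = J f) : AnalyticSet (Set.range J) := by
  have himg : Set.range J = Prod.snd '' ((⋃ n, F n ×ˢ (univ : Set L)) ∩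
      ⋂ m, ⋃ p : A m, {q : E × L | T p.1.1 ≤ q.1 ∧ q.1 ≤ T p.1.2 ∧ J p.1.1 ≤ q.2 ∧
        q.2 ≤ J p.1.2}) := by
    ext g
    constructor
    · rintro ⟨f, rfl⟩
      refine ⟨(T f, J f), ⟨?_, mem_iInter.2 fun m => ?_⟩, rfl⟩
      · have h3 : T f ∈ Set.range T := ⟨f, rfl⟩
        rw [hT] at h3
        obtain ⟨n, hn⟩ := mem_iUnion.1 h3
        exact mem_iUnion.2 ⟨n, hn, mem_univ _⟩
      · obtain ⟨p, hp, h4⟩ := h1 f m
        exact mem_iUnion.2 ⟨⟨p, hp⟩, h4⟩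
    · rintro ⟨⟨y, g'⟩, ⟨h3, h4⟩, rfl⟩
      have h5 : y ∈ Set.range T := by
        rw [hT]
        obtain ⟨n, hn, -⟩ := mem_iUnion.1 h3
        exact mem_iUnion.2 ⟨n, hn⟩
      obtain ⟨f, rfl⟩ := h5
      refine ⟨f, (h2 f g' fun m => ?_).symm⟩
      obtain ⟨⟨p, hp⟩, h6⟩ := mem_iUnion.1 (mem_iInter.1 h4 m)
      exact ⟨p, hp, h6⟩
  rw [himg]
  refine AnalyticSet.image_of_continuous (inter_analytic ?_ ?_) continuous_snd
  · exact AnalyticSet.iUnion fun n => IsClosed.analyticSet ((hF n).prod isClosed_univ)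
  · refine AnalyticSet.iInter fun m => ?_
    haveI : Countable (A m) := (hAc m).to_subtype
    refine AnalyticSet.iUnion fun p => IsClosed.analyticSet ?_
    exact (isClosed_le continuous_const continuous_fst).inter
      ((isClosed_le continuous_fst continuous_const).inter
      ((isClosed_le continuous_const continuous_snd).inter
      (isClosed_le continuous_snd continuous_const)))

end abstract_part

section main

variable {K : Type u} [TopologicalSpace K] [CompactSpace K] [T2Space K] [MeasurableSpace K]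
  [BorelSpace K]

lemma integrable_cont (μ : Measure K) [IsFiniteMeasure μ] (f : C(K, ℝ)) : Integrable f μ :=
  f.continuous.integrable_of_hasCompactSupport (HasCompactSupport.of_compactSpace f)

lemma toLp_mono (μ : Measure K) [IsFiniteMeasure μ] {f g : C(K, ℝ)} (h : f ≤ g) :
    ContinuousMap.toLp (E := ℝ) 1 μ ℝ f ≤ ContinuousMap.toLp (E := ℝ) 1 μ ℝ g := by
  rw [← Lp.coeFn_le]
  filter_upwards [ContinuousMap.coeFn_toLp (𝕜 := ℝ) (p := 1) μ f,
    ContinuousMap.coeFn_toLp (𝕜 := ℝ) (p := 1) μ g] with x hx hy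
  rw [hx, hy]
  exact h x

lemma sandwich_norm (μ : Measure K) [IsFiniteMeasure μ] {f a b : C(K, ℝ)} (haf : a ≤ f)
    (hfb : f ≤ b) (g : Lp ℝ 1 μ) (hag : ContinuousMap.toLp (E := ℝ) 1 μ ℝ a ≤ g)
    (hgb : g ≤ ContinuousMap.toLp (E := ℝ) 1 μ ℝ b) :
    ‖g - ContinuousMap.toLp (E := ℝ) 1 μ ℝ f‖ ≤ ∫ x, b x ∂μ - ∫ x, a x ∂μ := by
  rw [L1.norm_eq_integral_norm, ← integral_sub (integrable_cont μ b) (integrable_cont μ a)]
  refine integral_mono_ae (L1.integrable_coeFn _).norm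
    ((integrable_cont μ b).sub (integrable_cont μ a)) ?_
  have h1 := (Lp.coeFn_le _ g).2 hag
  have h2 := (Lp.coeFn_le g _).2 hgb
  filter_upwards [h1, h2, ContinuousMap.coeFn_toLp (𝕜 := ℝ) (p := 1) μ a,
    ContinuousMap.coeFn_toLp (𝕜 := ℝ) (p := 1) μ b,
    ContinuousMap.coeFn_toLp (𝕜 := ℝ) (p := 1) μ f,
    Lp.coeFn_sub g (ContinuousMap.toLp (E := ℝ) 1 μ ℝ f)] with x h1 h2 ha hb hf hs
  rw [hs, Pi.sub_apply, hf, Real.norm_eq_abs, abs_le]
  rw [ha] at h1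
  rw [hb] at h2
  have h3 : a x ≤ f x := haf x
  have h4 : f x ≤ b x := hfb x
  show -(b x - a x) ≤ _ ∧ _ ≤ b x - a x
  constructor <;> linarith

lemma separable_L1 (μ : Measure K) [IsProbabilityMeasure μ] [μ.Regular] (A : Set C(K, ℝ))
    (hAc : A.Countable) (hA : ∀ f : C(K, ℝ), ∀ ε : ℝ, 0 < ε →
      ∃ a ∈ A, ∃ b ∈ A, a ≤ f ∧ f ≤ b ∧ ∫ x, b x ∂μ - ∫ x, a x ∂μ < ε) :
    TopologicalSpace.SeparableSpace (Lp ℝ 1 μ) := by
  have hdense : DenseRange (ContinuousMap.toLp (E := ℝ) 1 μ ℝ : C(K, ℝ) →L[ℝ] Lp ℝ 1 μ) :=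
    ContinuousMap.toLp_denseRange ℝ μ ℝ ENNReal.one_ne_top
  refine ⟨(ContinuousMap.toLp (E := ℝ) 1 μ ℝ) '' A, hAc.image _, ?_⟩
  rw [Metric.dense_iff]
  intro g r hr
  obtain ⟨f, hf1⟩ := hdense.exists_dist_lt g (show 0 < r / 2 by linarith)
  obtain ⟨a, ha, b, hb, haf, hfb, hab⟩ := hA f (r / 2) (by linarith)
  refine ⟨ContinuousMap.toLp (E := ℝ) 1 μ ℝ a, ?_, ⟨a, ha, rfl⟩⟩
  have h1 := sandwich_norm μ haf hfb (ContinuousMap.toLp (E := ℝ) 1 μ ℝ a) le_rfl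
    (toLp_mono μ (haf.trans hfb))
  rw [Metric.mem_ball]
  calc dist (ContinuousMap.toLp (E := ℝ) 1 μ ℝ a) g
      ≤ dist (ContinuousMap.toLp (E := ℝ) 1 μ ℝ a) (ContinuousMap.toLp (E := ℝ) 1 μ ℝ f) +
        dist (ContinuousMap.toLp (E := ℝ) 1 μ ℝ f) g := dist_triangle _ _ _
    _ < r := by
      rw [dist_eq_norm (ContinuousMap.toLp (E := ℝ) 1 μ ℝ a), dist_comm _ g]
      linarith

lemma range_eq_iUnion {E : Type v} [NormedAddCommGroup E] [NormedSpace ℝ E] [Lattice E]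
    [IsBanachLattice E] {u : E} (hu0 : 0 ≤ u) :
    principalIdeal u = ⋃ n : ℕ, {y : E | |y| ≤ (n : ℝ) • u} := by
  ext y
  simp only [principalIdeal, mem_setOf_eq, mem_iUnion]
  constructor
  · rintro ⟨c, hc, hy⟩
    obtain ⟨n, hn⟩ := exists_nat_ge c
    refine ⟨n, hy.trans ?_⟩
    have h1 := IsBanachLattice.smul_nonneg' ((n : ℝ) - c) u (sub_nonneg.2 hn) hu0
    rw [sub_smul] at h1
    exact sub_nonneg.1 h1
  · rintro ⟨n, hn⟩
    refine ⟨n + 1, by positivity, hn.trans ?_⟩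
    rw [add_smul, one_smul]
    exact le_add_of_nonneg_right hu0

theorem analytic_of_scd (hK : Sick.{u, v} K) (μ : RegProb K)
    (hμ : StronglyCountablyDetermined μ) :
    haveI : IsProbabilityMeasure μ.1 := μ.2.1
    AnalyticMeas μ.1 := by
  haveI hprob : IsProbabilityMeasure μ.1 := μ.2.1
  haveI hreg : μ.1.Regular := μ.2.2
  obtain ⟨A, hAc, hAne, hA⟩ := exists_sandwich μ hμ
  have hsep : TopologicalSpace.SeparableSpace (Lp ℝ 1 μ.1) := separable_L1 μ.1 A hAc hA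
  refine ⟨hsep, ?_⟩
  obtain ⟨E, i1, i2, i3, i4, i5, u, hu0, T, hT, hT1⟩ := hK
  haveI : CompleteSpace E := IsBanachLattice.complete'
  have hTrefl : ∀ f g : C(K, ℝ), T f ≤ T g → f ≤ g := by
    intro f g h
    have h1 : T (f ⊔ g) = T g := by rw [hT.map_sup]; exact sup_eq_right.2 h
    exact sup_eq_right.1 (hT.injective h1)
  haveI : PolishSpace (Lp ℝ 1 μ.1) := inferInstance
  haveI : PolishSpace E := inferInstance
  refine analytic_range (T := T) (J := ContinuousMap.toLp (E := ℝ) 1 μ.1 ℝ)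
    (F := fun n : ℕ => {y : E | |y| ≤ (n : ℝ) • u}) (fun n => ?_)
    (by rw [hT.range_eq, range_eq_iUnion hu0])
    (A := fun m => {p : C(K, ℝ) × C(K, ℝ) | p.1 ∈ A ∧ p.2 ∈ A ∧
      ∫ x, p.2 x ∂μ.1 - ∫ x, p.1 x ∂μ.1 < 1 / ((m : ℝ) + 1)}) (fun m => ?_) (fun f m => ?_)
    (fun f g hfg => ?_)
  · exact isClosed_le (continuous_abs' (E := E)) continuous_const
  · refine (hAc.prod hAc).mono ?_
    rintro ⟨a, b⟩ ⟨ha, hb, -⟩
    exact ⟨ha, hb⟩
  · obtain ⟨a, ha, b, hb, haf, hfb, hab⟩ := hA f (1 / ((m : ℝ) + 1)) (by positivity)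
    exact ⟨(a, b), ⟨ha, hb, hab⟩, map_mono hT haf, map_mono hT hfb, toLp_mono μ.1 haf,
      toLp_mono μ.1 hfb⟩
  · have h4 : ∀ m : ℕ, ‖g - ContinuousMap.toLp (E := ℝ) 1 μ.1 ℝ f‖ ≤ 1 / ((m : ℝ) + 1) := by
      intro m
      obtain ⟨⟨a, b⟩, ⟨ha, hb, hab⟩, hq1, hq2, hq3, hq4⟩ := hfg m
      exact (sandwich_norm μ.1 (hTrefl _ _ hq1) (hTrefl _ _ hq2) g hq3 hq4).trans hab.le
    have h5 : ‖g - ContinuousMap.toLp (E := ℝ) 1 μ.1 ℝ f‖ ≤ 0 :=
      ge_of_tendsto' tendsto_one_div_add_atTop_nhds_zero_nat h4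
    exact sub_eq_zero.1 (norm_le_zero_iff.1 h5)

end main

end Q100.Gd
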