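import Mathlib

/-!
# Good sequences of scalars (multiple recurrence of operators)
-/

set_option autoImplicit false
open Filter Topology
open scoped ENNReal

noncomputable section

namespace Q100.GoodSeq

universe u

/-- The upper density `limsup |B ∩ [1, N]| / N` of a set of positive integers. -/
def upperDensity (B : Set ℕ) : ℝ :=
  limsup (fun N : ℕ => ((B ∩ Set.Icc 1 N).ncard : ℝ) / N) atTop

/-- Property `𝒜` for a sequence `(T_n)_{n ≥ 1}` of operators. -/
def PropertyA {X : Type u} [NormedAddCommGroup X] [NormedSpace ℂ X] (T : ℕ → X →L[ℂ] X) : Prop :=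
  ∀ U : Set X, IsOpen U → U.Nonempty → ∃ x : X, 0 < upperDensity {n | T n x ∈ U}

/-- Topological multiple recurrence: for every non-empty open `U` and every `m ≥ 1` there is
`k ≥ 1` with `U ∩ T⁻ᵏ U ∩ ⋯ ∩ T⁻ᵐᵏ U ≠ ∅`. -/
def MultiplyRecurrent {X : Type u} [NormedAddCommGroup X] [NormedSpace ℂ X]
    (T : X →L[ℂ] X) : Prop :=
  ∀ U : Set X, IsOpen U → U.Nonempty → ∀ m : ℕ, 1 ≤ m → ∃ k : ℕ, 1 ≤ k ∧
    ∃ x : X, ∀ j : ℕ, j ≤ m → (T ^ (j * k)) x ∈ U

/-- Good sequences: `T` is topologically multiply recurrent whenever `(λ_n T^n)` has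
property `𝒜`, for all operators `T` on all infinite-dimensional separable complex Banach
spaces. -/
def Good (lam : ℕ → ℂ) : Prop :=
  ∀ (X : Type u) [NormedAddCommGroup X] [NormedSpace ℂ X] [CompleteSpace X]
    [TopologicalSpace.SeparableSpace X], ¬ FiniteDimensional ℂ X →
    ∀ T : X →L[ℂ] X, PropertyA (fun n => lam n • T ^ n) → MultiplyRecurrent T

/-- The limit of `|λ_n| / |λ_{n+τ}|` exists in `[0, ∞]`. -/
def RatioLimitExists (lam : ℕ → ℂ) (τ : ℕ) : Prop :=
  ∃ L : ℝ≥0∞, Tendsto (fun n => ENNReal.ofReal (‖lam n‖ / ‖lam (n + τ)‖)) atTop (𝓝 L)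

end Q100.GoodSeq
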