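import Pool.Agent.Q100.GoodDefs
import Pool.Agent.TH709.RGap.Dens

/-!
# A good sequence without ratio limits

The sequence is `λ_n = 2` if `n` is a square and `λ_n = 1` otherwise. Szemerédi's theorem is
obtained from the density Hales-Jewett theorem (`Pool.Agent.TH709.RGap.ipr`).
-/

set_option autoImplicit false
open Filter Topology
open scoped ENNReal

noncomputable section

namespace Q100.GoodSeq

universe u

/-- Szemerédi's theorem. -/
theorem szemeredi (B : Set ℕ) (δ : ℝ) (hδ : 0 < δ)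
    (h : ∀ L : ℕ, ∃ N : ℕ, L ≤ N ∧ δ * N ≤ ((B ∩ Set.Icc 1 N).ncard : ℝ)) (q : ℕ) :
    ∃ a d : ℕ, 0 < d ∧ ∀ t : ℕ, t ≤ q → a + t * d ∈ B := by
  classical
  obtain ⟨r, η, hη, hr⟩ := Pool.Agent.TH709.RGap.ipr q δ hδ
  let A : Set (Fin 1 → ℤ) := {v | ∃ n : ℕ, n ∈ B ∧ v 0 = n}
  have hA : Pool.Agent.TH709.RGap.Dense A δ := by
    intro L
    obtain ⟨N, hN, hd⟩ := h L
    refine ⟨N, hN, fun _ => 1, ?_⟩
    rw [pow_one]
    refine hd.trans ?_
    rw [Nat.cast_le]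
    have hinj : Set.InjOn (fun n : ℕ => (fun _ : Fin 1 => (n : ℤ))) (B ∩ Set.Icc 1 N) := by
      intro a _ b _ hab
      have := congrFun hab 0
      simpa using this
    rw [← Set.ncard_image_of_injOn hinj]
    refine Set.ncard_le_ncard ?_ ?_
    · rintro _ ⟨n, ⟨hnB, hn1, hnN⟩, rfl⟩
      refine ⟨⟨n, hnB, rfl⟩, fun i => ⟨?_, ?_⟩⟩
      · change (1 : ℤ) ≤ (n : ℤ)
        exact_mod_cast hn1
      · have : (n : ℤ) ≤ N := by exact_mod_cast hnN
        change (n : ℤ) < 1 + N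
        linarith
    · have hfin : (Pool.Agent.TH709.RGap.box (fun _ : Fin 1 => (1 : ℤ)) N :
          Set (Fin 1 → ℤ)).Finite := Finset.finite_toSet _
      refine hfin.subset ?_
      rintro v ⟨-, hv⟩
      exact (Pool.Agent.TH709.RGap.mem_box _ _ _).2 hv
  obtain ⟨I, hI, hdense⟩ := hr 1 A hA (fun t _ => ((t : ℕ) : ℤ)) (fun _ => 1)
  obtain ⟨N, hN, x, hx⟩ := hdense 1
  have hpos : (0 : ℝ) < ({v : Fin 1 → ℤ | v ∈ {a : Fin 1 → ℤ | ∀ t : Fin (q + 1),
      a + (∑ i ∈ I, (fun _ : Fin r => (1 : ℤ)) i) • (fun _ : Fin 1 => ((t : ℕ) : ℤ)) ∈ A} ∧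
      ∀ i, x i ≤ v i ∧ v i < x i + N}.ncard : ℝ) := by
    refine lt_of_lt_of_le ?_ hx
    have : (0 : ℝ) < N := by exact_mod_cast hN
    positivity
  have hne := Set.nonempty_of_ncard_ne_zero (by exact_mod_cast hpos.ne')
  obtain ⟨a, ha, -⟩ := hne
  have hcard : ∑ i ∈ I, (fun _ : Fin r => (1 : ℤ)) i = (I.card : ℤ) := by simp
  rw [hcard] at ha
  obtain ⟨n0, hn0, ha0⟩ := ha 0
  have ha0' : a 0 = n0 := by simpa using ha0
  refine ⟨n0, I.card, Finset.card_pos.2 hI, fun t ht => ?_⟩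
  obtain ⟨n, hn, hnt⟩ := ha ⟨t, Nat.lt_succ_of_le ht⟩
  have h1 : (n : ℤ) = n0 + (I.card : ℤ) * t := by
    rw [← hnt, ← ha0']
    simp
  have h2 : n0 + t * I.card = n := by
    have : ((n0 + t * I.card : ℕ) : ℤ) = (n : ℤ) := by rw [h1]; push_cast; ring
    exact_mod_cast this
  rw [h2]
  exact hn

/-- Removing a set of density zero. -/
theorem dense_diff {A Z : Set ℕ} (hA : 0 < upperDensity A)
    (hZ : Tendsto (fun N : ℕ => ((Z ∩ Set.Icc 1 N).ncard : ℝ) / N) atTop (𝓝 0)) :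
    ∃ δ : ℝ, 0 < δ ∧ ∀ L : ℕ, ∃ N : ℕ, L ≤ N ∧ δ * N ≤ (((A \ Z) ∩ Set.Icc 1 N).ncard : ℝ) := by
  set D := upperDensity A with hD
  have hfr : ∃ᶠ N : ℕ in atTop, D / 2 < ((A ∩ Set.Icc 1 N).ncard : ℝ) / N := by
    refine frequently_lt_of_lt_limsup ?_ ?_
    · refine isCoboundedUnder_le_of_le atTop (x := 0) (fun N => by positivity)
    · change D / 2 < upperDensity A
      rw [← hD]; linarith
  have hev : ∀ᶠ N : ℕ in atTop, ((Z ∩ Set.Icc 1 N).ncard : ℝ) / N < D / 4 :=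
    hZ.eventually_lt_const (by linarith)
  refine ⟨D / 4, by linarith, fun L => ?_⟩
  obtain ⟨N, hN1, hN2, hN3⟩ := (hfr.and_eventually (hev.and (eventually_ge_atTop (L + 1)))).exists
  refine ⟨N, by omega, ?_⟩
  have hN0 : (0 : ℝ) < N := by
    have : 0 < N := by omega
    exact_mod_cast this
  rw [lt_div_iff₀ hN0] at hN1
  rw [div_lt_iff₀ hN0] at hN2
  have h1 : ((A ∩ Set.Icc 1 N).ncard : ℝ) ≤ (((A \ Z) ∩ Set.Icc 1 N).ncard : ℝ) +
      ((Z ∩ Set.Icc 1 N).ncard : ℝ) := by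
    have hfin : (((A \ Z) ∩ Set.Icc 1 N) ∪ (Z ∩ Set.Icc 1 N)).Finite :=
      ((Set.finite_Icc 1 N).subset Set.inter_subset_right).union
        ((Set.finite_Icc 1 N).subset Set.inter_subset_right)
    have h2 : A ∩ Set.Icc 1 N ⊆ ((A \ Z) ∩ Set.Icc 1 N) ∪ (Z ∩ Set.Icc 1 N) := by
      rintro n ⟨h3, h4⟩
      by_cases h5 : n ∈ Z
      · exact Or.inr ⟨h5, h4⟩
      · exact Or.inl ⟨⟨h3, h5⟩, h4⟩
    have h3 := (Set.ncard_le_ncard h2 hfin).trans (Set.ncard_union_le _ _)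
    exact_mod_cast h3
  linarith

/-- The exceptional set: the squares. -/
def Sq : Set ℕ := {n | IsSquare n}

theorem sq_density :
    Tendsto (fun N : ℕ => ((Sq ∩ Set.Icc 1 N).ncard : ℝ) / N) atTop (𝓝 0) := by
  have h1 : ∀ N : ℕ, (Sq ∩ Set.Icc 1 N).ncard ≤ Nat.sqrt N := by
    intro N
    have h2 : Sq ∩ Set.Icc 1 N ⊆ ((Finset.Icc 1 (Nat.sqrt N)).image (fun k => k * k) : Finset ℕ) := by
      rintro n ⟨⟨r, rfl⟩, h3, h4⟩
      rw [Finset.mem_coe, Finset.mem_image]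
      refine ⟨r, Finset.mem_Icc.2 ⟨?_, Nat.le_sqrt.2 h4⟩, rfl⟩
      rcases Nat.eq_zero_or_pos r with h5 | h5
      · subst h5; simp at h3
      · exact h5
    refine (Set.ncard_le_ncard h2 (Finset.finite_toSet _)).trans ?_
    rw [Set.ncard_coe_finset]
    refine Finset.card_image_le.trans ?_
    simp
  refine squeeze_zero (fun N => by positivity) (g := fun N : ℕ => 1 / Real.sqrt N) (fun N => ?_) ?_
  · rcases Nat.eq_zero_or_pos N with h0 | h0
    · subst h0; simp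
    have hN0 : (0 : ℝ) < N := by exact_mod_cast h0
    rw [div_le_div_iff₀ hN0 (Real.sqrt_pos.2 hN0), one_mul]
    have h2 : ((Sq ∩ Set.Icc 1 N).ncard : ℝ) ≤ Real.sqrt N := by
      refine le_trans ?_ (Real.nat_sqrt_le_real_sqrt (a := N))
      exact_mod_cast h1 N
    calc ((Sq ∩ Set.Icc 1 N).ncard : ℝ) * Real.sqrt N ≤ Real.sqrt N * Real.sqrt N :=
          mul_le_mul_of_nonneg_right h2 (Real.sqrt_nonneg _)
      _ = N := Real.mul_self_sqrt hN0.le
  · have h2 : Tendsto (fun N : ℕ => Real.sqrt N) atTop atTop :=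
      Real.tendsto_sqrt_atTop.comp tendsto_natCast_atTop_atTop
    simp only [one_div]
    exact h2.inv_tendsto_atTop

open Classical in
/-- The sequence: `2` at the squares and `1` elsewhere. -/
def lam (n : ℕ) : ℂ := if n ∈ Sq then 2 else 1

theorem lam_sq {n : ℕ} (h : n ∈ Sq) : lam n = 2 := by rw [lam, if_pos h]

theorem lam_nsq {n : ℕ} (h : n ∉ Sq) : lam n = 1 := by rw [lam, if_neg h]

theorem good_lam : Good.{u} lam := by
  intro X _ _ _ _ _ T hT U hU hUne m _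
  obtain ⟨x, hx⟩ := hT U hU hUne
  obtain ⟨δ, hδ, hd⟩ := dense_diff hx sq_density
  obtain ⟨a, d, hd0, hmem⟩ := szemeredi _ δ hδ hd m
  refine ⟨d, hd0, (T ^ a) x, fun j hj => ?_⟩
  obtain ⟨h1, h2⟩ := hmem j hj
  have h3 : (lam (a + j * d) • T ^ (a + j * d)) x ∈ U := h1
  rw [lam_nsq h2, one_smul] at h3
  have h4 : (T ^ (j * d)) ((T ^ a) x) = (T ^ (a + j * d)) x := by
    rw [add_comm, pow_add]; rfl
  rw [h4]
  exact h3

theorem not_sq {k m : ℕ} (h1 : k * k < m) (h2 : m < (k + 1) * (k + 1)) : m ∉ Sq := by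
  rintro ⟨r, hr⟩
  subst hr
  have h3 : k < r := Nat.mul_self_lt_mul_self_iff.1 h1
  have h4 : r < k + 1 := Nat.mul_self_lt_mul_self_iff.1 h2
  omega

theorem no_limit (τ : ℕ) (hτ : 1 ≤ τ) : ¬ RatioLimitExists lam τ := by
  rintro ⟨L, hL⟩
  have h1 : Tendsto (fun k : ℕ => k * k) atTop atTop :=
    tendsto_atTop_mono (fun k => Nat.le_mul_self k) tendsto_id
  have h2 : Tendsto (fun k : ℕ => k * k + 1) atTop atTop :=
    tendsto_atTop_mono (fun k => Nat.le_succ _) h1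
  have hev : ∀ᶠ k : ℕ in atTop, k * k + 1 + τ < (k + 1) * (k + 1) := by
    filter_upwards [eventually_ge_atTop (τ + 1)] with k hk
    nlinarith
  have hA := hL.comp h1
  have hB := hL.comp h2
  have hA' : Tendsto (fun _ : ℕ => (ENNReal.ofReal 2)) atTop (𝓝 L) := by
    refine hA.congr' ?_
    filter_upwards [hev] with k hk
    have h3 : k * k ∈ Sq := ⟨k, rfl⟩
    have h4 : k * k + τ ∉ Sq := not_sq (k := k) (by omega) (by omega)
    simp only [Function.comp_apply]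
    rw [lam_sq h3, lam_nsq h4]
    norm_num
  have hB' : Tendsto (fun _ : ℕ => (ENNReal.ofReal 1)) atTop (𝓝 L) := by
    refine hB.congr' ?_
    filter_upwards [hev] with k hk
    have h3 : k * k + 1 ∉ Sq := not_sq (k := k) (by omega) (by omega)
    have h4 : k * k + 1 + τ ∉ Sq := not_sq (k := k) (by omega) (by omega)
    simp only [Function.comp_apply]
    rw [lam_nsq h3, lam_nsq h4]
    norm_num
  have h5 := tendsto_nhds_unique hA' tendsto_const_nhds
  have h6 := tendsto_nhds_unique hB' tendsto_const_nhds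
  rw [h5, ENNReal.ofReal_eq_ofReal_iff (by norm_num) (by norm_num)] at h6
  norm_num at h6

end Q100.GoodSeq
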