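import Mathlib

/-!
# Gurarii, weakly Lindelöf determined and weakly compactly generated spaces
-/

set_option autoImplicit false

open Topology

namespace Q100.Gur

universe u v

/-- `E` is a Gurarii space: for all finite-dimensional `X ⊆ Y`, each isometric embedding
`f : X → E` and each `ε > 0` there is an `ε`-isometric embedding `g : Y → E` extending `f`. -/
def IsGurarii (E : Type v) [NormedAddCommGroup E] [NormedSpace ℝ E] : Prop :=
  ∀ (Y : Type u) [NormedAddCommGroup Y] [NormedSpace ℝ Y] [FiniteDimensional ℝ Y]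
    (X : Submodule ℝ Y) (f : X →ₗᵢ[ℝ] E) (ε : ℝ), 0 < ε →
    ∃ g : Y →ₗ[ℝ] E, (∀ x : X, g x = f x) ∧
      ∀ y : Y, (1 + ε)⁻¹ * ‖y‖ ≤ ‖g y‖ ∧ ‖g y‖ ≤ (1 + ε) * ‖y‖

/-- `E` is weakly compactly generated: it contains a weakly compact set with dense linear span. -/
def WCG (E : Type v) [NormedAddCommGroup E] [NormedSpace ℝ E] : Prop :=
  ∃ W : Set E, IsCompact (toWeakSpace ℝ E '' W) ∧ Dense (Submodule.span ℝ W : Set E)

/-- `E` is weakly Lindelöf determined: for some set `Γ` there is a one-to-one weak*-continuous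
linear operator from the dual of `E` into the functions on `Γ` with countable support (with the
product topology). -/
def WLD (E : Type v) [NormedAddCommGroup E] [NormedSpace ℝ E] : Prop :=
  ∃ (Γ : Type v) (T : WeakDual ℝ E →L[ℝ] (Γ → ℝ)), Function.Injective T ∧
    ∀ φ : WeakDual ℝ E, {γ : Γ | T φ γ ≠ 0}.Countable

end Q100.Gur
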