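import Pool.Agent.Q100.GurWcg

/-!
# The space of terms is a Gurarii space
-/

set_option autoImplicit false

open Topology Filter

noncomputable section

namespace Q100.Gur

universe u

/-- Finitely many norming functionals. -/
theorem exists_norming (Y : Type u) [NormedAddCommGroup Y] [NormedSpace ℝ Y]
    [FiniteDimensional ℝ Y] {η : ℝ} (hη : 0 < η) :
    ∃ (m : ℕ) (ys : Fin m → StrongDual ℝ Y), (∀ j, ‖ys j‖ ≤ 1) ∧
      ∀ y : Y, y ≠ 0 → ∃ j, (1 - η) * ‖y‖ ≤ |ys j y| := by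
  classical
  haveI : ProperSpace Y := FiniteDimensional.proper_real Y
  have hcomp : IsCompact (Metric.sphere (0 : Y) 1) := isCompact_sphere _ _
  obtain ⟨t, ht, htc⟩ := hcomp.elim_nhds_subcover (fun y => Metric.ball y η)
    (fun y _ => Metric.ball_mem_nhds y hη)
  have hg : ∀ y : Y, ∃ g : StrongDual ℝ Y, ‖g‖ ≤ 1 ∧ g y = ‖y‖ := by
    intro y
    obtain ⟨g, hg1, hg2⟩ := exists_dual_vector'' ℝ y
    exact ⟨g, hg1, by simpa using hg2⟩
  choose g hg1 hg2 using hg
  let e := t.equivFin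
  refine ⟨t.card, fun j => g (e.symm j).1, fun j => hg1 _, ?_⟩
  intro y hy
  have hn : 0 < ‖y‖ := norm_pos_iff.2 hy
  have hmem : ‖y‖⁻¹ • y ∈ Metric.sphere (0 : Y) 1 := by
    rw [mem_sphere_zero_iff_norm, norm_smul, norm_inv, norm_norm, inv_mul_cancel₀ hn.ne']
  obtain ⟨s, hs⟩ := Set.mem_iUnion.1 (htc hmem)
  obtain ⟨hst, hs⟩ := Set.mem_iUnion.1 hs
  refine ⟨e ⟨s, hst⟩, ?_⟩
  simp only [Equiv.symm_apply_apply]
  have hs1 : ‖s‖ = 1 := mem_sphere_zero_iff_norm.1 (ht s hst)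
  have hs2 : ‖‖y‖⁻¹ • y - s‖ < η := by rwa [← dist_eq_norm]
  have h1 : ‖y - ‖y‖ • s‖ ≤ η * ‖y‖ := by
    have : y - ‖y‖ • s = ‖y‖ • (‖y‖⁻¹ • y - s) := by
      rw [smul_sub, smul_smul, mul_inv_cancel₀ hn.ne', one_smul]
    rw [this, norm_smul, norm_norm, mul_comm]
    exact mul_le_mul_of_nonneg_right hs2.le hn.le
  have h2 : g s y = ‖y‖ + g s (y - ‖y‖ • s) := by
    rw [map_sub, map_smul, hg2, hs1]; simp
  have h3 : |g s (y - ‖y‖ • s)| ≤ η * ‖y‖ := by
    have h4 := (g s).le_opNorm (y - ‖y‖ • s)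
    have h5 : ‖g s‖ * ‖y - ‖y‖ • s‖ ≤ 1 * ‖y - ‖y‖ • s‖ :=
      mul_le_mul_of_nonneg_right (hg1 s) (norm_nonneg (y - ‖y‖ • s))
    rw [Real.norm_eq_abs] at h4
    linarith
  have h4 := (abs_le.1 h3).1
  have h5 : (1 - η) * ‖y‖ ≤ g s y := by rw [h2]; linarith
  exact h5.trans (le_abs_self _)

theorem functional_pi {n : ℕ} (G : StrongDual ℝ (Fin n → ℝ)) (z : Fin n → ℝ) :
    G z = ∑ i, G (Pi.single i 1) * z i := by
  have h : z = ∑ i, z i • (Pi.single i (1 : ℝ) : Fin n → ℝ) := by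
    funext j
    rw [Finset.sum_apply, Finset.sum_eq_single j]
    · simp
    · intro i _ hij
      simp [Pi.single_eq_of_ne hij.symm]
    · intro h; exact absurd (Finset.mem_univ j) h
  conv_lhs => rw [h]
  rw [map_sum]
  apply Finset.sum_congr rfl
  intro i _
  rw [map_smul, smul_eq_mul, mul_comm]

theorem functional_l1 {n : ℕ} (G : StrongDual ℝ (Fin n → ℝ)) (hG : ‖G‖ ≤ 1) :
    ∑ i, |G (Pi.single i 1)| ≤ 1 := by
  set s : Fin n → ℝ := fun i => SignType.sign (G (Pi.single i 1)) with hs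
  have hs1 : ‖s‖ ≤ 1 := by
    rw [pi_norm_le_iff_of_nonneg zero_le_one]
    intro i
    rw [hs]
    rcases lt_trichotomy (G (Pi.single i 1)) 0 with h | h | h
    · simp [sign_neg h]
    · simp [h]
    · simp [sign_pos h]
  have h1 : G s = ∑ i, |G (Pi.single i 1)| := by
    rw [functional_pi]
    apply Finset.sum_congr rfl
    intro i _
    rw [hs]
    exact self_mul_sign _
  rw [← h1]
  calc G s ≤ ‖G s‖ := le_abs_self _
    _ ≤ ‖G‖ * ‖s‖ := G.le_opNorm s
    _ ≤ 1 * 1 := mul_le_mul hG hs1 (norm_nonneg s) zero_le_one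
    _ = 1 := one_mul 1

theorem av_apply {Y : Type u} [NormedAddCommGroup Y] [NormedSpace ℝ Y]
    (G : Tm → StrongDual ℝ Y) (y : Y) (δ : Tm) : (av G δ) y = av (fun δ => G δ y) δ := by
  obtain ⟨k, n, a, c⟩ := δ
  rw [av_node, av_node, _root_.sum_apply]
  rfl

theorem node_notMem {n : ℕ} {c : Fin n → Tm} {T : Set Tm} (hc : ∀ δ ∈ T, ∃ i, c i = δ) (k : ℕ)
    (a : Fin n → ℝ) : Tm.node k n a c ∉ T := by
  intro h
  obtain ⟨i, hi⟩ := hc _ h
  have := Tm.ht_lt k n a c i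
  rw [hi] at this
  exact lt_irrefl _ this

/-- The extension lemma. -/
theorem exists_ext_lemma {Y : Type u} [NormedAddCommGroup Y] [NormedSpace ℝ Y]
    [FiniteDimensional ℝ Y] (X : Submodule ℝ Y) (f' : X →ₗ[ℝ] B) {T : Set Tm} (hT : T.Finite)
    (hexc : ∀ x, ∀ δ ∉ T, (f' x).fn δ = av (f' x).fn δ) {η : ℝ} (hη : 0 < η) (hη1 : η < 1)
    (h1 : ∀ x, (1 - η) * ‖x‖ ≤ ‖f' x‖) (h2 : ∀ x, ‖f' x‖ ≤ (1 + η) * ‖x‖) :
    ∃ g' : Y →ₗ[ℝ] B, (∀ y, g' y ∈ E00) ∧ (∀ x : X, g' x = f' x) ∧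
      ∀ y, (1 - η) * ((1 - η) * ‖y‖) ≤ ‖g' y‖ ∧ ‖g' y‖ ≤ (1 + η) * ‖y‖ := by
  classical
  haveI : Fintype T := hT.fintype
  let n := Fintype.card T
  let e : T ≃ Fin n := Fintype.equivFin T
  let c : Fin n → Tm := fun i => (e.symm i).1
  have hc : ∀ δ ∈ T, ∃ i, c i = δ := fun δ hδ => ⟨e ⟨δ, hδ⟩, by simp [c]⟩
  -- coordinates
  let ρ : X →ₗ[ℝ] (Fin n → ℝ) := LinearMap.pi fun i => (B.evl (c i)).comp f'
  have hρ : ∀ x i, ρ x i = (f' x).fn (c i) := fun x i => rfl
  have hρ1 : ∀ x, ‖f' x‖ ≤ ‖ρ x‖ := by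
    intro x
    rw [B.norm_le_iff _ (norm_nonneg _)]
    refine norm_le_of_harm (T := T) (norm_nonneg _) (hexc x) ?_
    intro δ hδ
    obtain ⟨i, rfl⟩ := hc δ hδ
    exact norm_le_pi_norm (ρ x) i
  have hρinj : Function.Injective ρ := by
    rw [injective_iff_map_eq_zero]
    intro x hx
    have h3 := (h1 x).trans (hρ1 x)
    rw [hx, norm_zero] at h3
    have h4 : ‖x‖ ≤ 0 := by
      by_contra hcon
      push Not at hcon
      have := mul_pos (sub_pos.2 hη1) hcon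
      linarith
    exact norm_le_zero_iff.1 h4
  -- extensions of the coordinates
  have hh : ∀ i, ∃ h : StrongDual ℝ Y, (∀ x : X, h x = ρ x i) ∧ ‖h‖ ≤ 1 + η := by
    intro i
    let φ : StrongDual ℝ X := LinearMap.mkContinuous ((LinearMap.proj i).comp ρ) (1 + η) (fun x => by
      show ‖ρ x i‖ ≤ (1 + η) * ‖x‖
      exact (B.abs_le (f' x) (c i)).trans (h2 x))
    obtain ⟨g, hg1, hg2⟩ := exists_extension_norm_eq X φ
    refine ⟨g, fun x => by rw [hg1]; rfl, ?_⟩
    rw [hg2]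
    exact LinearMap.mkContinuous_norm_le _ (by linarith) _
  choose h hhx hhn using hh
  -- norming functionals
  obtain ⟨m, ys, hys1, hys2⟩ := exists_norming Y hη
  -- coefficients
  have ha : ∀ j, ∃ G : StrongDual ℝ (Fin n → ℝ), ‖G‖ ≤ 1 ∧ ∀ x : X, G (ρ x) = (1 - η) * ys j x := by
    intro j
    let eρ : X ≃ₗ[ℝ] LinearMap.range ρ := LinearEquiv.ofInjective ρ hρinj
    let ψl : LinearMap.range ρ →ₗ[ℝ] ℝ :=
      (1 - η) • ((ys j : Y →ₗ[ℝ] ℝ).comp (X.subtype.comp eρ.symm.toLinearMap))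
    have hψl : ∀ z, ψl z = (1 - η) * ys j (eρ.symm z : Y) := fun z => rfl
    let ψ : StrongDual ℝ (LinearMap.range ρ) := LinearMap.mkContinuous ψl 1 (fun z => by
      rw [hψl, one_mul, Real.norm_eq_abs, abs_mul, abs_of_pos (sub_pos.2 hη1)]
      have h3 : |ys j (eρ.symm z : Y)| ≤ ‖(eρ.symm z : Y)‖ := by
        have h4 := (ys j).le_opNorm (eρ.symm z : Y)
        have h5 : ‖ys j‖ * ‖(eρ.symm z : Y)‖ ≤ 1 * ‖(eρ.symm z : Y)‖ :=
          mul_le_mul_of_nonneg_right (hys1 j) (norm_nonneg _)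
        rw [Real.norm_eq_abs] at h4
        linarith
      have h4 : ρ (eρ.symm z) = z := by
        have := eρ.apply_symm_apply z
        exact congrArg Subtype.val this
      calc (1 - η) * |ys j (eρ.symm z : Y)| ≤ (1 - η) * ‖eρ.symm z‖ :=
            mul_le_mul_of_nonneg_left h3 (sub_pos.2 hη1).le
        _ ≤ ‖f' (eρ.symm z)‖ := h1 _
        _ ≤ ‖ρ (eρ.symm z)‖ := hρ1 _
        _ = ‖z‖ := by rw [h4]; rfl)
    obtain ⟨G, hG1, hG2⟩ := exists_extension_norm_eq (LinearMap.range ρ) ψ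
    refine ⟨G, ?_, ?_⟩
    · rw [hG2]
      exact LinearMap.mkContinuous_norm_le _ zero_le_one _
    · intro x
      have h3 := hG1 ⟨ρ x, LinearMap.mem_range_self ρ x⟩
      have h4 : eρ.symm ⟨ρ x, LinearMap.mem_range_self ρ x⟩ = x := by
        rw [LinearEquiv.symm_apply_eq]
        rfl
      have h5 : ψ ⟨ρ x, LinearMap.mem_range_self ρ x⟩ = (1 - η) * ys j x := by
        show ψl _ = _
        rw [hψl, h4]
      rw [← h5, ← h3]
  choose G hG1 hG2 using ha
  let a : Fin m → Fin n → ℝ := fun j i => G j (Pi.single i 1)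
  have hasum : ∀ j, ∑ i, |a j i| ≤ 1 := fun j => functional_l1 (G j) (hG1 j)
  have hco : ∀ j i, co (a j) i = a j i := fun j i => if_pos (hasum j)
  let γ : Fin m → Tm := fun j => Tm.node j n (a j) c
  have hγT : ∀ j, γ j ∉ T := fun j => node_notMem hc _ _
  have hγinj : Function.Injective γ := by
    intro j j' hjj
    have : (j : ℕ) = j' := by
      simp only [γ, Tm.node.injEq] at hjj
      exact hjj.1
    exact Fin.ext this
  -- the functionals
  let Φ : Tm → StrongDual ℝ Y := fun δ =>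
    if hδ : δ ∈ T then h (e ⟨δ, hδ⟩) else if hδ' : ∃ j, γ j = δ then (1 - η) • ys hδ'.choose else 0
  have hΦT : ∀ i, Φ (c i) = h i := by
    intro i
    have hmem : c i ∈ T := (e.symm i).2
    show (if hδ : c i ∈ T then h (e ⟨c i, hδ⟩) else _) = h i
    rw [dif_pos hmem]
    congr 1
    exact e.apply_symm_apply i
  have hΦγ : ∀ j, Φ (γ j) = (1 - η) • ys j := by
    intro j
    have hex : ∃ j', γ j' = γ j := ⟨j, rfl⟩
    show (if hδ : γ j ∈ T then h (e ⟨γ j, hδ⟩) else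
      if hδ' : ∃ j', γ j' = γ j then (1 - η) • ys hδ'.choose else 0) = _
    rw [dif_neg (hγT j), dif_pos hex, hγinj hex.choose_spec]
  have hΦn : ∀ δ, ‖Φ δ‖ ≤ 1 + η := by
    intro δ
    show ‖(if hδ : δ ∈ T then h (e ⟨δ, hδ⟩) else
      if hδ' : ∃ j', γ j' = δ then (1 - η) • ys hδ'.choose else 0 : StrongDual ℝ Y)‖ ≤ 1 + η
    split_ifs with h3 h4
    · exact hhn _
    · rw [norm_smul, Real.norm_eq_abs, abs_of_pos (sub_pos.2 hη1)]
      have := mul_le_mul_of_nonneg_left (hys1 h4.choose) (sub_pos.2 hη1).le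
      linarith
    · rw [norm_zero]; linarith
  set T' : Set Tm := T ∪ Set.range γ with hT'
  have hT'fin : T'.Finite := hT.union (Set.finite_range γ)
  let G' : Tm → StrongDual ℝ Y := ext T' Φ
  have hG'n : ∀ δ, ‖G' δ‖ ≤ 1 + η := by
    intro δ
    refine norm_le_of_harm (T := T') (by linarith) (fun δ hδ => ext_notMem Φ hδ) ?_ δ
    intro δ hδ
    show ‖ext T' Φ δ‖ ≤ 1 + η
    rw [ext_mem Φ hδ]
    exact hΦn δ
  have hG'b : ∀ y δ, |G' δ y| ≤ (1 + η) * ‖y‖ := by
    intro y δ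
    have h3 := (G' δ).le_opNorm y
    rw [Real.norm_eq_abs] at h3
    exact h3.trans (mul_le_mul_of_nonneg_right (hG'n δ) (norm_nonneg y))
  let g' : Y →ₗ[ℝ] B :=
    { toFun := fun y => mkB (fun δ => G' δ y) ((1 + η) * ‖y‖) (hG'b y)
      map_add' := fun y z => B.ext' fun δ => by
        rw [mkB_fn, B.fn_add, mkB_fn, mkB_fn, map_add]
      map_smul' := fun r y => B.ext' fun δ => by
        rw [mkB_fn, RingHom.id_apply, B.fn_smul, mkB_fn, map_smul, smul_eq_mul] }
  have hg' : ∀ y δ, (g' y).fn δ = G' δ y := fun y δ => rfl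
  have hharm : ∀ y, ∀ δ ∉ T', (g' y).fn δ = av (g' y).fn δ := by
    intro y δ hδ
    have h3 : G' δ = av G' δ := ext_notMem Φ hδ
    rw [hg', h3, av_apply]
    rfl
  have hγmem : ∀ j, γ j ∈ T' := fun j => Or.inr ⟨j, rfl⟩
  have hG'γ : ∀ j, G' (γ j) = (1 - η) • ys j := by
    intro j
    show ext T' Φ (γ j) = _
    rw [ext_mem Φ (hγmem j), hΦγ]
  refine ⟨g', ?_, ?_, ?_⟩
  · intro y
    refine hT'fin.subset ?_
    intro δ hδ
    by_contra hcon
    exact hδ (hharm y δ hcon)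
  · intro x
    apply B.ext'
    refine eq_of_harm (T := T') (hharm x) ?_ ?_
    · intro δ hδ
      exact hexc x δ fun h3 => hδ (Or.inl h3)
    · intro δ hδ
      rcases hδ with hδ | ⟨j, rfl⟩
      · obtain ⟨i, rfl⟩ := hc δ hδ
        have h3 : G' (c i) = h i := by
          show ext T' Φ (c i) = _
          rw [ext_mem Φ (Or.inl hδ), hΦT]
        rw [hg', h3, hhx, hρ]
      · rw [hg', hG'γ, hexc x _ (hγT j)]
        show (1 - η) * ys j x = av (f' x).fn (Tm.node j n (a j) c)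
        rw [av_node, ← hG2 j x, functional_pi]
        apply Finset.sum_congr rfl
        intro i _
        rw [hco, hρ]
        rfl
  · intro y
    constructor
    · by_cases hy : y = 0
      · rw [hy, norm_zero, mul_zero, mul_zero]
        exact norm_nonneg _
      · obtain ⟨j, hj⟩ := hys2 y hy
        have h3 := B.abs_le (g' y) (γ j)
        rw [hg', hG'γ] at h3
        have h4 : ((1 - η) • ys j) y = (1 - η) * ys j y := rfl
        rw [h4, abs_mul, abs_of_pos (sub_pos.2 hη1)] at h3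
        exact (mul_le_mul_of_nonneg_left hj (sub_pos.2 hη1).le).trans h3
    · rw [B.norm_le_iff _ (mul_nonneg (by linarith) (norm_nonneg y))]
      exact hG'b y

theorem gurarii : IsGurarii.{u} E := by
  intro Y _ _ _ X f ε hε
  -- projection
  obtain ⟨P, hP⟩ := X.subtype.exists_leftInverse_of_injective (Submodule.ker_subtype X)
  have hPx : ∀ x : X, P x = x := fun x => congrArg (fun L => L x) hP
  set PC := LinearMap.toContinuousLinearMap P with hPC
  set CP : ℝ := ‖PC‖ with hCP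
  have hCP0 : 0 ≤ CP := norm_nonneg PC
  have hPn : ∀ y, ‖P y‖ ≤ CP * ‖y‖ := fun y => PC.le_opNorm y
  set η : ℝ := ε / ((1 + ε) * (2 + CP)) with hη
  have hη0 : 0 < η := by positivity
  have hηeq : η * (2 + CP) = ε / (1 + ε) := by
    rw [hη]; field_simp
  have hεε : ε / (1 + ε) < 1 := by
    rw [div_lt_one (by positivity)]; linarith
  have hη1 : η < 1 := by nlinarith
  -- basis
  let b := Module.finBasis ℝ X
  let L := LinearMap.toContinuousLinearMap (b.equivFun : X →ₗ[ℝ] (Fin (Module.finrank ℝ X) → ℝ))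
  set K : ℝ := (Module.finrank ℝ X) * ‖L‖ + 1 with hK
  have hL0 : 0 ≤ ‖L‖ := norm_nonneg L
  have hK0 : 0 < K := by positivity
  have hsum : ∀ x : X, ∑ i, |b.repr x i| ≤ K * ‖x‖ := by
    intro x
    have h1 : ∀ i, |b.repr x i| ≤ ‖L‖ * ‖x‖ := by
      intro i
      have h2 : ‖(L x) i‖ ≤ ‖L x‖ := norm_le_pi_norm (L x) i
      exact h2.trans (L.le_opNorm x)
    calc ∑ i, |b.repr x i| ≤ ∑ i : Fin (Module.finrank ℝ X), ‖L‖ * ‖x‖ :=
          Finset.sum_le_sum fun i _ => h1 i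
      _ = (Module.finrank ℝ X) * (‖L‖ * ‖x‖) := by simp
      _ ≤ K * ‖x‖ := by
          rw [hK]
          have := norm_nonneg x
          nlinarith
  -- approximations
  have happ : ∀ i, ∃ e : B, e ∈ E00 ∧ ‖(f (b i) : B) - e‖ ≤ η / K := by
    intro i
    have h1 : (f (b i) : B) ∈ closure (E00 : Set B) := (f (b i)).2
    obtain ⟨e, he, hd⟩ := Metric.mem_closure_iff.1 h1 (η / K) (by positivity)
    exact ⟨e, he, by rw [← dist_eq_norm]; exact hd.le⟩
  choose e heE he using happ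
  let f' : X →ₗ[ℝ] B := b.constr ℝ e
  have hf' : ∀ x, f' x = ∑ i, b.repr x i • e i := fun x => b.constr_apply_fintype ℝ e x
  have hfsum : ∀ x, (f x : B) = ∑ i, b.repr x i • (f (b i) : B) := by
    intro x
    have h1 : f x = ∑ i, b.repr x i • f (b i) := by
      conv_lhs => rw [← b.sum_repr x]
      rw [map_sum]
      exact Finset.sum_congr rfl fun i _ => map_smul f _ _
    rw [h1, Submodule.coe_sum]
    rfl
  have hff' : ∀ x, ‖(f x : B) - f' x‖ ≤ η * ‖x‖ := by
    intro x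
    rw [hfsum, hf', ← Finset.sum_sub_distrib]
    calc ‖∑ i, (b.repr x i • (f (b i) : B) - b.repr x i • e i)‖
        ≤ ∑ i, ‖b.repr x i • (f (b i) : B) - b.repr x i • e i‖ := norm_sum_le _ _
      _ ≤ ∑ i, |b.repr x i| * (η / K) := by
          apply Finset.sum_le_sum
          intro i _
          rw [← smul_sub, norm_smul, Real.norm_eq_abs]
          exact mul_le_mul_of_nonneg_left (he i) (abs_nonneg _)
      _ = (∑ i, |b.repr x i|) * (η / K) := (Finset.sum_mul _ _ _).symm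
      _ ≤ K * ‖x‖ * (η / K) := mul_le_mul_of_nonneg_right (hsum x) (by positivity)
      _ = η * ‖x‖ := by field_simp
  have hfn : ∀ x, ‖(f x : B)‖ = ‖x‖ := fun x => f.norm_map x
  set T : Set Tm := ⋃ i, exc (e i).fn with hT
  have hTfin : T.Finite := Set.finite_iUnion fun i => heE i
  obtain ⟨g', hg1, hg2, hg3⟩ := exists_ext_lemma X f' hTfin (fun x δ hδ => by
    have h1 : ∀ i, (e i).fn δ = av (e i).fn δ := by
      intro i
      by_contra hne
      exact hδ (Set.mem_iUnion.2 ⟨i, hne⟩)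
    have h2 : (f' x).fn = fun δ => ∑ i, b.repr x i • (e i).fn δ := by
      funext δ
      rw [hf', B.fn_sum]
      rfl
    rw [h2, av_sum]
    apply Finset.sum_congr rfl
    intro i _
    rw [av_smul, ← h1]) hη0 hη1
    (fun x => by
      have h1 := norm_sub_norm_le (f x : B) ((f x : B) - f' x)
      rw [sub_sub_cancel, hfn] at h1
      have h2 := hff' x
      linarith)
    (fun x => by
      have h1 := norm_sub_le (f x : B) ((f x : B) - f' x)
      rw [sub_sub_cancel, hfn] at h1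
      have h2 := hff' x
      linarith)
  have hf'E : ∀ x, f' x ∈ E := by
    intro x
    rw [hf']
    exact E00_le (Submodule.sum_mem _ fun i _ => Submodule.smul_mem _ _ (heE i))
  let gB : Y →ₗ[ℝ] B := g' + ((E.subtype.comp f.toLinearMap) - f').comp P
  have hgB : ∀ y, gB y = g' y + ((f (P y) : B) - f' (P y)) := fun y => rfl
  have hgE : ∀ y, gB y ∈ E := by
    intro y
    rw [hgB]
    exact E.add_mem (E00_le (hg1 y)) (E.sub_mem (f (P y)).2 (hf'E _))
  refine ⟨gB.codRestrict E hgE, ?_, ?_⟩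
  · intro x
    apply Subtype.ext
    show gB x = f x
    rw [hgB, hPx, hg2]
    abel
  · intro y
    have hn : ‖gB.codRestrict E hgE y‖ = ‖gB y‖ := rfl
    rw [hn, hgB]
    obtain ⟨h1, h2⟩ := hg3 y
    have h3 : ‖(f (P y) : B) - f' (P y)‖ ≤ η * (CP * ‖y‖) :=
      (hff' _).trans (mul_le_mul_of_nonneg_left (hPn y) hη0.le)
    have hy : 0 ≤ ‖y‖ := norm_nonneg y
    constructor
    · have h4 := norm_sub_norm_le (g' y) (-((f (P y) : B) - f' (P y)))
      rw [norm_neg, sub_neg_eq_add] at h4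
      have h5 : (1 + ε)⁻¹ = 1 - η * (2 + CP) := by
        rw [hηeq]; field_simp; ring
      rw [h5]
      nlinarith [mul_nonneg (mul_nonneg hη0.le hη0.le) hy]
    · have h4 := norm_add_le (g' y) ((f (P y) : B) - f' (P y))
      have h5 : η * (1 + CP) ≤ ε := by
        have h6 : ε / (1 + ε) ≤ ε := div_le_self hε.le (by linarith)
        nlinarith
      have h6 : η * (1 + CP) * ‖y‖ ≤ ε * ‖y‖ := mul_le_mul_of_nonneg_right h5 hy
      nlinarith

end Q100.Gur
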