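import Pool.Agent.Q100.GurDefs

/-!
# The space of terms
-/

set_option autoImplicit false

open Topology

noncomputable section

namespace Q100.Gur

universe u v

/-- Well-founded terms. -/
inductive Tm : Type
  | node (k n : ℕ) (a : Fin n → ℝ) (c : Fin n → Tm) : Tm

namespace Tm

/-- The height. -/
def ht : Tm → ℕ
  | node _ _ _ c => Finset.univ.sup (fun i => (c i).ht + 1)

theorem ht_lt (k n : ℕ) (a : Fin n → ℝ) (c : Fin n → Tm) (i : Fin n) :
    (c i).ht < (node k n a c).ht := by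
  have h : (c i).ht + 1 ≤ (node k n a c).ht := by
    rw [ht]
    exact Finset.le_sup (f := fun i => (c i).ht + 1) (Finset.mem_univ i)
  omega

end Tm

/-- The admissible coefficients. -/
def co {n : ℕ} (a : Fin n → ℝ) (i : Fin n) : ℝ := if ∑ j, |a j| ≤ 1 then a i else 0

theorem co_sum {n : ℕ} (a : Fin n → ℝ) : ∑ i, |co a i| ≤ 1 := by
  by_cases h : ∑ j, |a j| ≤ 1
  · simp only [co, if_pos h]; exact h
  · simp only [co, if_neg h, abs_zero, Finset.sum_const_zero]; exact zero_le_one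

section av

variable {V : Type u} [NormedAddCommGroup V] [NormedSpace ℝ V]

/-- The average of a function over the children. -/
def av (x : Tm → V) : Tm → V
  | Tm.node _ _ a c => ∑ i, co a i • x (c i)

theorem av_node (x : Tm → V) (k n : ℕ) (a : Fin n → ℝ) (c : Fin n → Tm) :
    av x (Tm.node k n a c) = ∑ i, co a i • x (c i) := rfl

theorem av_norm_le {x : Tm → V} {C : ℝ} (hC : 0 ≤ C) (δ : Tm)
    (h : ∀ δ', δ'.ht < δ.ht → ‖x δ'‖ ≤ C) : ‖av x δ‖ ≤ C := by
  obtain ⟨k, n, a, c⟩ := δ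
  rw [av_node]
  calc ‖∑ i, co a i • x (c i)‖ ≤ ∑ i, ‖co a i • x (c i)‖ := norm_sum_le _ _
    _ ≤ ∑ i, |co a i| * C := by
        apply Finset.sum_le_sum
        intro i _
        rw [norm_smul, Real.norm_eq_abs]
        exact mul_le_mul_of_nonneg_left (h _ (Tm.ht_lt k n a c i)) (abs_nonneg _)
    _ = (∑ i, |co a i|) * C := (Finset.sum_mul _ _ _).symm
    _ ≤ 1 * C := mul_le_mul_of_nonneg_right (co_sum a) hC
    _ = C := one_mul C

theorem av_congr {x y : Tm → V} (δ : Tm) (h : ∀ δ', δ'.ht < δ.ht → x δ' = y δ') :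
    av x δ = av y δ := by
  obtain ⟨k, n, a, c⟩ := δ
  rw [av_node, av_node]
  exact Finset.sum_congr rfl fun i _ => by rw [h _ (Tm.ht_lt k n a c i)]

open Classical in
/-- The extension of a function from a set of terms. -/
def ext (T : Set Tm) (y : Tm → V) : Tm → V
  | Tm.node k n a c => if Tm.node k n a c ∈ T then y (Tm.node k n a c)
      else ∑ i, co a i • ext T y (c i)

theorem ext_mem {T : Set Tm} (y : Tm → V) {δ : Tm} (h : δ ∈ T) : ext T y δ = y δ := by
  obtain ⟨k, n, a, c⟩ := δ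
  rw [ext, if_pos h]

theorem ext_notMem {T : Set Tm} (y : Tm → V) {δ : Tm} (h : δ ∉ T) :
    ext T y δ = av (ext T y) δ := by
  obtain ⟨k, n, a, c⟩ := δ
  rw [ext, if_neg h]
  rfl

/-- Bound for a function that is harmonic outside of a set. -/
theorem norm_le_of_harm {T : Set Tm} {x : Tm → V} {C : ℝ} (hC : 0 ≤ C)
    (h1 : ∀ δ ∉ T, x δ = av x δ) (h2 : ∀ δ ∈ T, ‖x δ‖ ≤ C) (δ : Tm) : ‖x δ‖ ≤ C := by
  induction hn : δ.ht using Nat.strong_induction_on generalizing δ with
  | _ n ih =>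
    by_cases h : δ ∈ T
    · exact h2 δ h
    · rw [h1 δ h]
      exact av_norm_le hC δ fun δ' hδ' => ih _ (hn ▸ hδ') δ' rfl

/-- Uniqueness. -/
theorem eq_of_harm {T : Set Tm} {x y : Tm → V} (hx : ∀ δ ∉ T, x δ = av x δ)
    (hy : ∀ δ ∉ T, y δ = av y δ) (h : ∀ δ ∈ T, x δ = y δ) (δ : Tm) : x δ = y δ := by
  induction hn : δ.ht using Nat.strong_induction_on generalizing δ with
  | _ n ih =>
    by_cases h' : δ ∈ T
    · exact h δ h'
    · rw [hx δ h', hy δ h']
      exact av_congr δ fun δ' hδ' => ih _ (hn ▸ hδ') δ' rfl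

theorem av_add (x y : Tm → V) (δ : Tm) : av (fun δ => x δ + y δ) δ = av x δ + av y δ := by
  obtain ⟨k, n, a, c⟩ := δ
  simp only [av_node, smul_add, Finset.sum_add_distrib]

theorem av_smul (r : ℝ) (x : Tm → V) (δ : Tm) : av (fun δ => r • x δ) δ = r • av x δ := by
  obtain ⟨k, n, a, c⟩ := δ
  simp only [av_node, Finset.smul_sum]
  exact Finset.sum_congr rfl fun i _ => smul_comm _ _ _

theorem av_zero (δ : Tm) : av (fun _ => (0 : V)) δ = 0 := by
  obtain ⟨k, n, a, c⟩ := δ
  simp only [av_node, smul_zero, Finset.sum_const_zero]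

theorem av_sum {ι : Type v} (s : Finset ι) (x : ι → Tm → V) (δ : Tm) :
    av (fun δ => ∑ i ∈ s, x i δ) δ = ∑ i ∈ s, av (x i) δ := by
  obtain ⟨k, n, a, c⟩ := δ
  simp only [av_node, Finset.smul_sum]
  exact Finset.sum_comm

end av

/-! ### The space -/

instance : TopologicalSpace Tm := ⊥
instance : DiscreteTopology Tm := ⟨rfl⟩

/-- The space of bounded functions on the terms. -/
def B : Type := BoundedContinuousFunction Tm ℝ

instance : NormedAddCommGroup B :=
  (inferInstance : NormedAddCommGroup (BoundedContinuousFunction Tm ℝ))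
instance : NormedSpace ℝ B := (inferInstance : NormedSpace ℝ (BoundedContinuousFunction Tm ℝ))
instance : CompleteSpace B := (inferInstance : CompleteSpace (BoundedContinuousFunction Tm ℝ))

/-- The underlying function. -/
def B.fn (x : B) : Tm → ℝ := fun δ => BoundedContinuousFunction.toContinuousMap x δ

theorem B.ext' {x y : B} (h : ∀ δ, x.fn δ = y.fn δ) : x = y :=
  BoundedContinuousFunction.ext h

theorem B.fn_add (x y : B) (δ : Tm) : (x + y).fn δ = x.fn δ + y.fn δ := rfl
theorem B.fn_smul (r : ℝ) (x : B) (δ : Tm) : (r • x).fn δ = r * x.fn δ := rfl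
theorem B.fn_zero (δ : Tm) : (0 : B).fn δ = 0 := rfl
theorem B.fn_sub (x y : B) (δ : Tm) : (x - y).fn δ = x.fn δ - y.fn δ := rfl

/-- Evaluation as a linear map. -/
def B.evl (δ : Tm) : B →ₗ[ℝ] ℝ where
  toFun x := x.fn δ
  map_add' _ _ := rfl
  map_smul' _ _ := rfl

theorem B.fn_sum {ι : Type v} (s : Finset ι) (x : ι → B) (δ : Tm) :
    (∑ i ∈ s, x i).fn δ = ∑ i ∈ s, (x i).fn δ :=
  map_sum (B.evl δ) x s

theorem B.norm_le_iff (x : B) {C : ℝ} (hC : 0 ≤ C) : ‖x‖ ≤ C ↔ ∀ δ, |x.fn δ| ≤ C :=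
  BoundedContinuousFunction.norm_le (α := Tm) (β := ℝ) hC

theorem B.abs_le (x : B) (δ : Tm) : |x.fn δ| ≤ ‖x‖ := (x.norm_le_iff (norm_nonneg x)).1 le_rfl δ

/-- Constructor. -/
def mkB (x : Tm → ℝ) (C : ℝ) (h : ∀ δ, |x δ| ≤ C) : B :=
  BoundedContinuousFunction.ofNormedAddCommGroupDiscrete x C h

theorem mkB_fn (x : Tm → ℝ) (C : ℝ) (h : ∀ δ, |x δ| ≤ C) (δ : Tm) : (mkB x C h).fn δ = x δ := rfl

/-- The exceptional set. -/
def exc (x : Tm → ℝ) : Set Tm := {δ | x δ ≠ av x δ}

/-- The functions with finite exceptional set. -/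
def E00 : Submodule ℝ B where
  carrier := {x | (exc x.fn).Finite}
  zero_mem' := by
    refine Set.Finite.subset Set.finite_empty ?_
    intro δ hδ
    exact hδ (by show (0 : ℝ) = av (fun _ => (0 : ℝ)) δ; rw [av_zero])
  add_mem' := by
    intro x y hx hy
    refine (hx.union hy).subset ?_
    intro δ hδ
    by_contra hcon
    rw [Set.mem_union, not_or] at hcon
    apply hδ
    have h1 : x.fn δ = av x.fn δ := not_not.1 hcon.1
    have h2 : y.fn δ = av y.fn δ := not_not.1 hcon.2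
    show x.fn δ + y.fn δ = av (fun δ => x.fn δ + y.fn δ) δ
    rw [av_add, ← h1, ← h2]
  smul_mem' := by
    intro r x hx
    refine hx.subset ?_
    intro δ hδ
    by_contra hcon
    apply hδ
    have h1 : x.fn δ = av x.fn δ := not_not.1 hcon
    show r • x.fn δ = av (fun δ => r • x.fn δ) δ
    rw [av_smul, ← h1]

/-- The space. -/
def E : Submodule ℝ B := E00.topologicalClosure

theorem E00_le : E00 ≤ E := Submodule.le_topologicalClosure _

instance : CompleteSpace E := by
  have : IsClosed (E : Set B) := Submodule.isClosed_topologicalClosure _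
  exact this.completeSpace_coe

/-! ### The basic vectors -/

/-- The basic vector of a term. -/
def vf (γ : Tm) : Tm → ℝ := ext {γ} (fun _ => 1)

theorem vf_self (γ : Tm) : vf γ γ = 1 := ext_mem _ rfl

theorem vf_ne {γ δ : Tm} (h : δ ≠ γ) : vf γ δ = av (vf γ) δ := ext_notMem _ h

theorem vf_le (γ δ : Tm) : |vf γ δ| ≤ 1 :=
  norm_le_of_harm (T := {γ}) (x := vf γ) zero_le_one (fun δ hδ => vf_ne hδ)
    (fun δ hδ => by rw [Set.mem_singleton_iff.1 hδ, vf_self]; simp) δ

theorem vf_zero {γ δ : Tm} (h : δ ≠ γ) (hle : δ.ht ≤ γ.ht) : vf γ δ = 0 := by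
  induction hn : δ.ht using Nat.strong_induction_on generalizing δ with
  | _ n ih =>
    rw [vf_ne h]
    rw [← av_zero (V := ℝ) δ]
    apply av_congr
    intro δ' hδ'
    refine ih _ (hn ▸ hδ') ?_ (by omega) rfl
    rintro rfl
    omega

/-- The basic vector as a member of the space of bounded functions. -/
def vB (γ : Tm) : B := mkB (vf γ) 1 (vf_le γ)

theorem vB_fn (γ δ : Tm) : (vB γ).fn δ = vf γ δ := rfl

theorem vB_mem (γ : Tm) : vB γ ∈ E00 := by
  refine (Set.finite_singleton γ).subset ?_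
  intro δ hδ
  by_contra hne
  exact hδ (vf_ne hne)

open Classical in
/-- The basic vectors span `E00`. -/
theorem span_vB : E00 ≤ Submodule.span ℝ (Set.range vB) := by
  intro x hx
  have hfin : (exc x.fn).Finite := hx
  set F := hfin.toFinset with hF
  have key : x = ∑ γ ∈ F, (x.fn γ - av x.fn γ) • vB γ := by
    apply B.ext'
    intro δ
    rw [B.fn_sum]
    show x.fn δ = ∑ γ ∈ F, (x.fn γ - av x.fn γ) • vf γ δ
    induction hn : δ.ht using Nat.strong_induction_on generalizing δ with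
    | _ n ih =>
      have hav : av x.fn δ = ∑ γ ∈ F, (x.fn γ - av x.fn γ) • av (vf γ) δ := by
        rw [av_congr (y := fun δ => ∑ γ ∈ F, (x.fn γ - av x.fn γ) • vf γ δ) δ
          (fun δ' hδ' => ih _ (hn ▸ hδ') δ' rfl)]
        rw [av_sum]
        exact Finset.sum_congr rfl fun γ _ => av_smul _ _ _
      by_cases hδ : δ ∈ F
      · rw [← Finset.add_sum_erase _ _ hδ, vf_self]
        rw [← Finset.add_sum_erase _ _ hδ] at hav
        have h2 : av (vf δ) δ = 0 := by
          rw [← av_zero (V := ℝ) δ]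
          exact av_congr δ fun δ' hδ' => vf_zero (by rintro rfl; omega) hδ'.le
        rw [h2, smul_zero, zero_add] at hav
        have h3 : ∑ γ ∈ F.erase δ, (x.fn γ - av x.fn γ) • vf γ δ =
            ∑ γ ∈ F.erase δ, (x.fn γ - av x.fn γ) • av (vf γ) δ := by
          apply Finset.sum_congr rfl
          intro γ hγ
          rw [vf_ne (Finset.ne_of_mem_erase hγ).symm]
        rw [h3, ← hav, smul_eq_mul, mul_one]
        ring
      · have h2 : x.fn δ = av x.fn δ := by
          by_contra hne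
          exact hδ (hfin.mem_toFinset.2 hne)
        rw [h2, hav]
        apply Finset.sum_congr rfl
        intro γ hγ
        rw [vf_ne (by rintro rfl; exact hδ hγ)]
  rw [key]
  exact Submodule.sum_mem _ fun γ _ => Submodule.smul_mem _ _ (Submodule.subset_span ⟨γ, rfl⟩)

/-- The basic vector in the space. -/
def vE (γ : Tm) : E := ⟨vB γ, E00_le (vB_mem γ)⟩

/-- The basic vectors of a given height behave like the basis of `c_0`. -/
theorem sum_le (f : StrongDual ℝ E) (h : ℕ) (F : Finset Tm) (hF : ∀ γ ∈ F, γ.ht = h) :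
    ∑ γ ∈ F, |f (vE γ)| ≤ ‖f‖ := by
  set s : Tm → ℝ := fun γ => SignType.sign (f (vE γ)) with hs
  have hs1 : ∀ γ, |s γ| ≤ 1 := by
    intro γ
    rw [hs]
    rcases lt_trichotomy (f (vE γ)) 0 with h | h | h
    · simp [sign_neg h]
    · simp [h]
    · simp [sign_pos h]
  set x : E := ∑ γ ∈ F, s γ • vE γ with hx
  have hx1 : ‖x‖ ≤ 1 := by
    show ‖(x : B)‖ ≤ 1
    rw [B.norm_le_iff _ zero_le_one]
    have hval : (x : B).fn = fun δ => ∑ γ ∈ F, s γ • vf γ δ := by
      funext δ
      rw [hx, Submodule.coe_sum, B.fn_sum]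
      rfl
    refine norm_le_of_harm (T := (F : Set Tm)) (x := (x : B).fn) zero_le_one ?_ ?_
    · intro δ hδ
      rw [hval, av_sum]
      apply Finset.sum_congr rfl
      intro γ hγ
      rw [av_smul, ← vf_ne]
      rintro rfl
      exact hδ hγ
    · intro δ hδ
      rw [hval]
      show ‖∑ γ ∈ F, s γ • vf γ δ‖ ≤ 1
      rw [Finset.sum_eq_single_of_mem δ hδ, vf_self]
      · simpa using hs1 δ
      · intro γ hγ hne
        rw [vf_zero (Ne.symm hne) (by rw [hF γ hγ, hF δ hδ]), smul_zero]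
  calc ∑ γ ∈ F, |f (vE γ)| = f x := by
        rw [hx, map_sum]
        apply Finset.sum_congr rfl
        intro γ _
        rw [map_smul, smul_eq_mul, hs]
        exact (sign_mul_self _).symm
    _ ≤ ‖f x‖ := le_abs_self _
    _ ≤ ‖f‖ * ‖x‖ := f.le_opNorm x
    _ ≤ ‖f‖ * 1 := mul_le_mul_of_nonneg_left hx1 (norm_nonneg f)
    _ = ‖f‖ := mul_one _

/-- Only finitely many basic vectors of a given height have large values. -/
theorem finite_large (f : StrongDual ℝ E) (h : ℕ) {ε : ℝ} (hε : 0 < ε) :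
    {γ : Tm | γ.ht = h ∧ ε ≤ |f (vE γ)|}.Finite := by
  by_contra hinf
  obtain ⟨N, hN⟩ := exists_nat_gt (‖f‖ / ε)
  obtain ⟨F, hF, hFc⟩ := Set.Infinite.exists_subset_card_eq hinf N
  have h1 := sum_le f h F (fun γ hγ => (hF hγ).1)
  have h2 : (N : ℝ) * ε ≤ ∑ γ ∈ F, |f (vE γ)| := by
    rw [← hFc, ← nsmul_eq_mul]
    exact Finset.card_nsmul_le_sum _ _ _ fun γ hγ => (hF hγ).2
  rw [div_lt_iff₀ hε] at hN
  linarith

end Q100.Gur
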