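import Pool.Agent.Q100.GurTm

/-!
# The space of terms is WCG, WLD and not separable
-/

set_option autoImplicit false

open Topology Filter

noncomputable section

namespace Q100.Gur

theorem vE_norm_le (γ : Tm) : ‖vE γ‖ ≤ 1 := by
  show ‖vB γ‖ ≤ 1
  rw [B.norm_le_iff _ zero_le_one]
  exact vf_le γ

/-- The linear span of the basic vectors is dense. -/
theorem dense_span {W : Set E} (hW : ∀ γ, ∃ r : ℝ, r ≠ 0 ∧ r • vE γ ∈ W) :
    Dense (Submodule.span ℝ W : Set E) := by
  have h1 : ∀ γ, vE γ ∈ Submodule.span ℝ W := by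
    intro γ
    obtain ⟨r, hr, hrW⟩ := hW γ
    have := Submodule.smul_mem (Submodule.span ℝ W) r⁻¹ (Submodule.subset_span hrW)
    rwa [smul_smul, inv_mul_cancel₀ hr, one_smul] at this
  intro x
  -- approximate `x` by members of `E00`
  have hx : (x : B) ∈ closure (E00 : Set B) := x.2
  rw [Metric.mem_closure_iff] at hx
  rw [Metric.mem_closure_iff]
  intro ε hε
  obtain ⟨y, hy, hxy⟩ := hx ε hε
  refine ⟨⟨y, E00_le hy⟩, ?_, hxy⟩
  have h2 : ∀ z ∈ Submodule.span ℝ (Set.range vB), ∀ hz : z ∈ E,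
      (⟨z, hz⟩ : E) ∈ Submodule.span ℝ W := by
    intro z hz
    have hle : Submodule.span ℝ (Set.range vB) ≤ E := by
      rw [Submodule.span_le]
      rintro _ ⟨γ, rfl⟩
      exact E00_le (vB_mem γ)
    have h3 : z ∈ (Submodule.span ℝ W).map E.subtype := by
      have h4 : Submodule.span ℝ (Set.range vB) ≤ (Submodule.span ℝ W).map E.subtype := by
        rw [Submodule.span_le]
        rintro _ ⟨γ, rfl⟩
        exact ⟨vE γ, h1 γ, rfl⟩
      exact h4 hz
    intro hzE
    obtain ⟨w, hw, hwz⟩ := h3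
    have : w = ⟨z, hzE⟩ := Subtype.ext hwz
    rw [← this]
    exact hw
  exact h2 y (span_vB hy) _

/-- The weights. -/
def wt (γ : Tm) : ℝ := 1 / ((γ.ht : ℝ) + 1)

theorem wt_pos (γ : Tm) : 0 < wt γ := by unfold wt; positivity

theorem wt_le (γ : Tm) : wt γ ≤ 1 := by
  unfold wt
  rw [div_le_one (by positivity)]
  have : (0 : ℝ) ≤ γ.ht := Nat.cast_nonneg _
  linarith

theorem tendsto_zero (f : StrongDual ℝ E) :
    Tendsto (fun γ => f (wt γ • vE γ)) cofinite (𝓝 0) := by
  rw [Metric.tendsto_nhds]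
  intro ε hε
  rw [eventually_cofinite]
  obtain ⟨N, hN⟩ := exists_nat_gt (‖f‖ / ε)
  have hN' : ‖f‖ < N * ε := by rwa [div_lt_iff₀ hε] at hN
  refine Set.Finite.subset (Set.Finite.biUnion (Set.finite_lt_nat N) fun h _ =>
    finite_large f h hε) ?_
  intro γ hγ
  simp only [dist_zero_right, not_lt, Set.mem_setOf_eq, Real.norm_eq_abs] at hγ
  rw [map_smul, smul_eq_mul, abs_mul, abs_of_pos (wt_pos γ)] at hγ
  have hf : |f (vE γ)| ≤ ‖f‖ := by
    have h1 := f.le_opNorm (vE γ)
    have h2 : ‖f‖ * ‖vE γ‖ ≤ ‖f‖ * 1 := mul_le_mul_of_nonneg_left (vE_norm_le γ) (norm_nonneg f)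
    rw [Real.norm_eq_abs] at h1
    linarith
  refine Set.mem_biUnion (x := γ.ht) ?_ ⟨rfl, ?_⟩
  · show γ.ht < N
    by_contra hcon
    push Not at hcon
    have h1 : ε ≤ wt γ * ‖f‖ := hγ.trans (mul_le_mul_of_nonneg_left hf (wt_pos γ).le)
    have h2 : wt γ * ‖f‖ < ε := by
      unfold wt
      rw [div_mul_eq_mul_div, one_mul, div_lt_iff₀ (by positivity)]
      have h3 : (N : ℝ) ≤ γ.ht := by exact_mod_cast hcon
      nlinarith
    linarith
  · refine hγ.trans ?_
    exact mul_le_of_le_one_left (abs_nonneg _) (wt_le γ)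

theorem wcg : WCG E := by
  refine ⟨insert 0 (Set.range fun γ => wt γ • vE γ), ?_, ?_⟩
  · rw [Set.image_insert_eq, map_zero, ← Set.range_comp]
    apply Tendsto.isCompact_insert_range_of_cofinite
    have hinj : Function.Injective (topDualPairing ℝ E).flip := by
      intro x y hxy
      by_contra hne
      obtain ⟨f, -, hf⟩ := exists_dual_vector ℝ (x - y) (norm_ne_zero_iff.2 (sub_ne_zero.2 hne))
      have h1 : f x = f y := congrArg (fun L => L f) hxy
      rw [map_sub, h1, _root_.sub_self] at hf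
      have : ‖x - y‖ ≠ 0 := norm_ne_zero_iff.2 (sub_ne_zero.2 hne)
      apply this
      have h2 : ((‖x - y‖ : ℝ)) = 0 := by simpa using hf.symm
      exact h2
    refine (WeakBilin.tendsto_iff_forall_eval_tendsto (B := (topDualPairing ℝ E).flip) hinj).2 ?_
    intro f
    have h := tendsto_zero f
    rw [← map_zero f] at h
    exact h
  · apply dense_span
    intro γ
    exact ⟨wt γ, (wt_pos γ).ne', Or.inr ⟨γ, rfl⟩⟩

theorem wld : WLD E := by
  let T : WeakDual ℝ E →L[ℝ] (Tm → ℝ) :=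
    ContinuousLinearMap.pi fun γ =>
      { toFun := fun φ => φ (vE γ)
        map_add' := fun _ _ => rfl
        map_smul' := fun _ _ => rfl
        cont := WeakDual.eval_continuous (vE γ) }
  refine ⟨Tm, T, ?_, ?_⟩
  · intro φ ψ h
    have h1 : ∀ γ, φ (vE γ) = ψ (vE γ) := fun γ => congrFun h γ
    have h2 : Dense (Submodule.span ℝ (Set.range vE) : Set E) :=
      dense_span fun γ => ⟨1, one_ne_zero, by rw [one_smul]; exact ⟨γ, rfl⟩⟩
    apply WeakDual.toStrongDual.injective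
    apply ContinuousLinearMap.ext_on h2
    rintro _ ⟨γ, rfl⟩
    exact h1 γ
  · intro φ
    have h1 : {γ : Tm | T φ γ ≠ 0} ⊆ ⋃ h : ℕ, ⋃ n : ℕ,
        {γ : Tm | γ.ht = h ∧ 1 / ((n : ℝ) + 1) ≤ |(WeakDual.toStrongDual φ) (vE γ)|} := by
      intro γ hγ
      have hγ' : (WeakDual.toStrongDual φ) (vE γ) ≠ 0 := hγ
      obtain ⟨n, hn⟩ := exists_nat_one_div_lt (abs_pos.2 hγ')
      exact Set.mem_iUnion.2 ⟨γ.ht, Set.mem_iUnion.2 ⟨n, rfl, hn.le⟩⟩
    refine Set.Countable.mono h1 ?_
    refine Set.countable_iUnion fun h => Set.countable_iUnion fun n => ?_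
    exact (finite_large _ h (by positivity)).countable

/-- A family of terms. -/
def tm1 (r : ℝ) : Tm := Tm.node 0 1 (fun _ => r) (fun _ => Tm.node 0 0 Fin.elim0 Fin.elim0)

theorem tm1_inj {r s : ℝ} (h : tm1 r = tm1 s) : r = s := by
  unfold tm1 at h
  simp only [Tm.node.injEq, heq_eq_eq, true_and] at h
  exact congrFun h.1 0

theorem tm1_ht (r : ℝ) : (tm1 r).ht = 1 := by
  unfold tm1
  rw [Tm.ht]
  have : (Tm.node 0 0 Fin.elim0 Fin.elim0).ht = 0 := by
    rw [Tm.ht]
    simp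
  simp [this]

theorem not_separable : ¬ TopologicalSpace.SeparableSpace E := by
  intro hsep
  have h1 : ∀ r s : ℝ, r ≠ s → 1 ≤ dist (vE (tm1 r)) (vE (tm1 s)) := by
    intro r s hrs
    rw [dist_eq_norm]
    have h2 : |(vB (tm1 r) - vB (tm1 s)).fn (tm1 r)| ≤ ‖vB (tm1 r) - vB (tm1 s)‖ := B.abs_le _ _
    rw [B.fn_sub, vB_fn, vB_fn, vf_self, vf_zero (fun h => hrs (tm1_inj h))
      (by rw [tm1_ht, tm1_ht]), sub_zero, abs_one] at h2
    exact h2
  obtain ⟨D, hDc, hDd⟩ := TopologicalSpace.exists_countable_dense E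
  have h3 : ∀ r : ℝ, ∃ d ∈ D, dist (vE (tm1 r)) d < 1 / 2 := fun r =>
    hDd.exists_dist_lt _ (by norm_num)
  choose d hdD hd using h3
  have hinj : Function.Injective d := by
    intro r s hrs
    by_contra hne
    have h4 := h1 r s hne
    have h5 := dist_triangle_right (vE (tm1 r)) (vE (tm1 s)) (d r)
    have h6 := hd r
    have h7 := hd s
    rw [← hrs] at h7
    linarith
  have hcount : (Set.univ : Set ℝ).Countable := by
    have : Set.MapsTo d Set.univ D := fun r _ => hdD r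
    exact this.countable_of_injOn hinj.injOn hDc
  exact Cardinal.not_countable_real hcount

end Q100.Gur
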