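import Mathlib

/-!
# Ulam's theorem for `ω₁`

A finite measure defined on all subsets of `ω₁` is concentrated, up to `ε`, on a finite set. The
statement is for functions on the power set that are nonnegative, finitely additive and continuous
at the empty set.
-/

set_option autoImplicit false
open Filter Topology Cardinal

namespace Q100.Ulam

universe u

/-- The first uncountable ordinal as a type. -/
abbrev Om : Type := (ℵ_ 1).ord.ToType

theorem not_countable_Om : ¬ Countable Om := by
  intro h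
  have h1 : #Om = ℵ_ 1 := by rw [Cardinal.mk_toType, card_ord]
  have h2 := Cardinal.mk_le_aleph0_iff.2 h
  rw [h1, ← aleph_zero, aleph_le_aleph] at h2
  exact absurd h2 (by simp)

theorem countable_Iio (a : Om) : (Set.Iio a).Countable := by
  rw [← Cardinal.le_aleph0_iff_set_countable]
  have h1 : #(Set.Iio a) < ℵ_ 1 := Cardinal.mk_Iio_toType_ord_lt a
  have h2 : ℵ_ 1 = Order.succ ℵ₀ := by rw [← aleph_zero, ← aleph_succ]; simp
  exact Order.lt_succ_iff.1 (h1.trans_eq h2)

/-- Finite measures on a power set. -/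
structure IsFinMeas {T : Type u} (μ : Set T → ℝ) : Prop where
  nonneg : ∀ A, 0 ≤ μ A
  add : ∀ A B, Disjoint A B → μ (A ∪ B) = μ A + μ B
  cont : ∀ A : ℕ → Set T, Antitone A → (⋂ n, A n) = ∅ → Tendsto (fun n => μ (A n)) atTop (𝓝 0)

section

variable {T : Type u} {μ : Set T → ℝ} (h : IsFinMeas μ)

include h

theorem IsFinMeas.empty : μ ∅ = 0 := by
  have h1 := h.add ∅ ∅ (by simp)
  rw [Set.union_empty] at h1
  linarith

theorem IsFinMeas.mono {A B : Set T} (hAB : A ⊆ B) : μ A ≤ μ B := by
  have h1 := h.add A (B \ A) Set.disjoint_sdiff_right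
  rw [Set.union_diff_cancel hAB] at h1
  have := h.nonneg (B \ A)
  linarith

theorem IsFinMeas.split (A B : Set T) : μ A = μ (A ∩ B) + μ (A \ B) := by
  have h1 : (A ∩ B) ∪ (A \ B) = A := by
    ext t
    simp only [Set.mem_union, Set.mem_inter_iff, Set.mem_diff]
    tauto
  have h2 : Disjoint (A ∩ B) (A \ B) := by
    rw [Set.disjoint_left]
    rintro t ⟨-, h3⟩ ⟨-, h4⟩
    exact h4 h3
  rw [← h.add _ _ h2, h1]

theorem IsFinMeas.union_le (A B : Set T) : μ (A ∪ B) ≤ μ A + μ B := by
  have h1 := h.add A (B \ A) Set.disjoint_sdiff_right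
  rw [Set.union_sdiff_self] at h1
  have := h.mono (Set.sdiff_subset : B \ A ⊆ B)
  linarith

theorem IsFinMeas.sum {ι : Type*} (s : Finset ι) (B : ι → Set T)
    (hB : ∀ i ∈ s, ∀ j ∈ s, i ≠ j → Disjoint (B i) (B j)) :
    μ (⋃ i ∈ s, B i) = ∑ i ∈ s, μ (B i) := by
  classical
  induction s using Finset.induction_on with
  | empty => simp [h.empty]
  | insert a s ha ih =>
    rw [Finset.set_biUnion_insert, h.add, Finset.sum_insert ha, ih]
    · intro i hi j hj hij
      exact hB i (Finset.mem_insert_of_mem hi) j (Finset.mem_insert_of_mem hj) hij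
    · rw [Set.disjoint_iUnion₂_right]
      intro i hi
      refine hB a (Finset.mem_insert_self _ _) i (Finset.mem_insert_of_mem hi) ?_
      rintro rfl
      exact ha hi

/-- A disjoint family contains only countably many sets of positive measure. -/
theorem IsFinMeas.countable_pos {ι : Type*} (B : ι → Set T)
    (hB : ∀ i j, i ≠ j → Disjoint (B i) (B j)) : {i | 0 < μ (B i)}.Countable := by
  have h1 : ∀ k : ℕ, {i | 1 / ((k : ℝ) + 1) ≤ μ (B i)}.Finite := by
    intro k
    by_contra hinf
    obtain ⟨s, hs1, hs2⟩ := (show {i | 1 / ((k : ℝ) + 1) ≤ μ (B i)}.Infinite from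
      hinf).exists_subset_card_eq (⌊μ Set.univ * (k + 1)⌋₊ + 1)
    have h2 := h.sum s B (fun i _ j _ hij => hB i j hij)
    have h3 : μ (⋃ i ∈ s, B i) ≤ μ Set.univ := h.mono (Set.subset_univ _)
    have h4 : (s.card : ℝ) * (1 / ((k : ℝ) + 1)) ≤ ∑ i ∈ s, μ (B i) := by
      rw [← nsmul_eq_mul, ← Finset.sum_const]
      exact Finset.sum_le_sum (fun i hi => hs1 hi)
    have h5 : (s.card : ℝ) ≤ μ Set.univ * (k + 1) := by
      have h6 : (s.card : ℝ) * (1 / ((k : ℝ) + 1)) ≤ μ Set.univ := by linarith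
      rwa [mul_one_div, div_le_iff₀ (by positivity)] at h6
    have h6 := Nat.lt_floor_add_one (μ Set.univ * ((k : ℝ) + 1))
    rw [hs2] at h5
    push_cast at h5
    linarith
  refine (Set.countable_iUnion (fun k => (h1 k).countable)).mono ?_
  intro i hi
  obtain ⟨k, hk⟩ := exists_nat_one_div_lt (show 0 < μ (B i) from hi)
  exact Set.mem_iUnion.2 ⟨k, hk.le⟩

/-- Countable sets of null points are null. -/
theorem IsFinMeas.null_of_countable {R : Set T} (hR : R.Countable) (h0 : ∀ t ∈ R, μ {t} = 0) :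
    μ R = 0 := by
  classical
  obtain ⟨g, hg⟩ := Set.countable_iff_exists_injOn.1 hR
  have hfin : ∀ k : ℕ, μ {t | t ∈ R ∧ g t < k} = 0 := by
    intro k
    have hf : {t | t ∈ R ∧ g t < k}.Finite := by
      refine Set.Finite.of_finite_image (f := g) ((Set.finite_lt_nat k).subset ?_) ?_
      · rintro _ ⟨t, ht, rfl⟩; exact ht.2
      · exact hg.mono (fun t ht => ht.1)
    have h1 : {t | t ∈ R ∧ g t < k} = ⋃ t ∈ hf.toFinset, {t} := by
      ext t; simp
    rw [h1, h.sum]
    · refine Finset.sum_eq_zero (fun t ht => h0 t ?_)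
      exact ((hf.mem_toFinset).1 ht).1
    · intro i _ j _ hij
      simpa using hij
  have hlim := h.cont (fun k => {t | t ∈ R ∧ k ≤ g t})
    (fun k l hkl t ht => ⟨ht.1, hkl.trans ht.2⟩) (by
      ext t
      simp only [Set.mem_iInter, Set.mem_ofPred_eq, Set.mem_empty_iff_false, iff_false, not_forall]
      exact ⟨g t + 1, fun h2 => by omega⟩)
  have heq : ∀ k : ℕ, μ {t | t ∈ R ∧ k ≤ g t} = μ R := by
    intro k
    have h1 := h.split R {t | g t < k}
    have h2 : R ∩ {t | g t < k} = {t | t ∈ R ∧ g t < k} := rfl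
    have h3 : R \ {t | g t < k} = {t | t ∈ R ∧ k ≤ g t} := by
      ext t; simp
    rw [h2, h3, hfin k, zero_add] at h1
    exact h1.symm
  simp_rw [heq] at hlim
  exact tendsto_nhds_unique tendsto_const_nhds hlim

end

/-- Ulam's theorem. -/
theorem ulam {μ : Set Om → ℝ} (h : IsFinMeas μ) (ε : ℝ) (hε : 0 < ε) :
    ∃ F : Finset Om, μ ((F : Set Om)ᶜ) < ε := by
  classical
  set P : Set Om := {t | 0 < μ {t}} with hP
  have hPc : P.Countable := h.countable_pos (fun t => {t}) (fun i j hij => by simpa using hij)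
  have hnull : ∀ t, t ∉ P → μ {t} = 0 := fun t ht =>
    le_antisymm (not_lt.1 ht) (h.nonneg _)
  -- the Ulam matrix
  have hf : ∀ β : Om, ∃ f : Om → ℕ, Set.InjOn f (Set.Iio β) := fun β =>
    Set.countable_iff_exists_injOn.1 (countable_Iio β)
  choose f hf using hf
  have hPnull : μ Pᶜ = 0 := by
    by_contra hne
    have hpos : 0 < μ Pᶜ := lt_of_le_of_ne (h.nonneg _) (Ne.symm hne)
    have hex : ∀ α : Om, ∃ n : ℕ, 0 < μ {β | β ∉ P ∧ α < β ∧ f β α = n} := by
      intro α
      by_contra hcon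
      push Not at hcon
      have hz : ∀ n : ℕ, μ {β | β ∉ P ∧ α < β ∧ f β α = n} = 0 := fun n =>
        le_antisymm (hcon n) (h.nonneg _)
      have h1 : μ {β | β ∉ P ∧ β ≤ α} = 0 := by
        refine h.null_of_countable ?_ (fun t ht => hnull t ht.1)
        refine ((countable_Iio α).insert α).mono ?_
        rintro β ⟨-, hβ⟩
        rcases hβ.eq_or_lt with h2 | h2
        · exact Or.inl h2
        · exact Or.inr h2
      have h2 : μ {β | β ∉ P ∧ α < β} = μ Pᶜ := by
        have h3 := h.split Pᶜ {β | β ≤ α}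
        have h4 : Pᶜ ∩ {β | β ≤ α} = {β | β ∉ P ∧ β ≤ α} := rfl
        have h5 : Pᶜ \ {β | β ≤ α} = {β | β ∉ P ∧ α < β} := by ext β; simp
        rw [h4, h5, h1, zero_add] at h3
        exact h3.symm
      have h3 : ∀ k : ℕ, μ {β | β ∉ P ∧ α < β ∧ f β α < k} = 0 := by
        intro k
        have h4 : {β | β ∉ P ∧ α < β ∧ f β α < k} =
            ⋃ n ∈ Finset.range k, {β | β ∉ P ∧ α < β ∧ f β α = n} := by
          ext β
          simp only [Set.mem_ofPred_eq, Finset.mem_range, Set.mem_iUnion, exists_prop]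
          constructor
          · rintro ⟨h5, h6, h7⟩; exact ⟨f β α, h7, h5, h6, rfl⟩
          · rintro ⟨n, h5, h6, h7, h8⟩; exact ⟨h6, h7, h8 ▸ h5⟩
        rw [h4, h.sum]
        · exact Finset.sum_eq_zero (fun n _ => hz n)
        · intro i _ j _ hij
          rw [Set.disjoint_left]
          rintro β ⟨-, -, h5⟩ ⟨-, -, h6⟩
          exact hij (h5.symm.trans h6)
      have h4 := h.cont (fun k => {β | β ∉ P ∧ α < β ∧ k ≤ f β α})
        (fun k l hkl β hβ => ⟨hβ.1, hβ.2.1, hkl.trans hβ.2.2⟩) (by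
          ext β
          simp only [Set.mem_iInter, Set.mem_ofPred_eq, Set.mem_empty_iff_false, iff_false,
            not_forall]
          exact ⟨f β α + 1, fun h5 => by omega⟩)
      have h5 : ∀ k : ℕ, μ {β | β ∉ P ∧ α < β ∧ k ≤ f β α} = μ Pᶜ := by
        intro k
        have h6 := h.split {β | β ∉ P ∧ α < β} {β | f β α < k}
        have h7 : {β | β ∉ P ∧ α < β} ∩ {β | f β α < k} = {β | β ∉ P ∧ α < β ∧ f β α < k} := by
          ext β; simp [and_assoc]
        have h8 : {β | β ∉ P ∧ α < β} \ {β | f β α < k} = {β | β ∉ P ∧ α < β ∧ k ≤ f β α} := by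
          ext β; simp [and_assoc]
        rw [h7, h8, h3 k, zero_add, h2] at h6
        exact h6.symm
      simp_rw [h5] at h4
      exact hne (tendsto_nhds_unique tendsto_const_nhds h4)
    choose n hn using hex
    have hcover : (Set.univ : Set Om) = ⋃ k : ℕ, {α | n α = k} := by
      ext α; simp
    have hunc : ∃ k : ℕ, ¬ {α | n α = k}.Countable := by
      by_contra hcon
      push Not at hcon
      apply not_countable_Om
      rw [← Set.countable_univ_iff, hcover]
      exact Set.countable_iUnion hcon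
    obtain ⟨k, hk⟩ := hunc
    apply hk
    refine (h.countable_pos (fun α => {β | β ∉ P ∧ α < β ∧ f β α = k}) ?_).mono ?_
    · intro i j hij
      rw [Set.disjoint_left]
      rintro β ⟨-, h5, h6⟩ ⟨-, h7, h8⟩
      exact hij (hf β h5 h7 (h6.trans h8.symm))
    · intro α hα
      have h5 : n α = k := hα
      have h6 := hn α
      rw [h5] at h6
      exact h6
  -- conclusion
  obtain ⟨g, hg⟩ := Set.countable_iff_exists_injOn.1 hPc
  have hlim := h.cont (fun k => {t | t ∈ P ∧ k ≤ g t})
    (fun k l hkl t ht => ⟨ht.1, hkl.trans ht.2⟩) (by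
      ext t
      simp only [Set.mem_iInter, Set.mem_ofPred_eq, Set.mem_empty_iff_false, iff_false, not_forall]
      exact ⟨g t + 1, fun h2 => by omega⟩)
  obtain ⟨k, hk⟩ := (hlim.eventually_lt_const hε).exists
  have hf : {t | t ∈ P ∧ g t < k}.Finite := by
    refine Set.Finite.of_finite_image (f := g) ((Set.finite_lt_nat k).subset ?_) ?_
    · rintro _ ⟨t, ht, rfl⟩; exact ht.2
    · exact hg.mono (fun t ht => ht.1)
  refine ⟨hf.toFinset, ?_⟩
  have hsub : ((hf.toFinset : Finset Om) : Set Om)ᶜ ⊆ Pᶜ ∪ {t | t ∈ P ∧ k ≤ g t} := by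
    intro t ht
    by_cases htP : t ∈ P
    · right
      refine ⟨htP, ?_⟩
      by_contra hlt
      apply ht
      rw [Set.Finite.coe_toFinset]
      exact ⟨htP, not_le.1 hlt⟩
    · exact Or.inl htP
  have h1 := (h.mono hsub).trans (h.union_le _ _)
  rw [hPnull, zero_add] at h1
  exact h1.trans_lt hk

end Q100.Ulam
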