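import Pool.Agent.Q100.IenvDefs
import Pool.Agent.Q100.Ulam

/-!
# The (I)-envelopes of the bounded parts need not be dense in the (I)-envelope
-/

set_option autoImplicit false
open Filter Topology
open scoped ZeroAtInfty BoundedContinuousFunction

noncomputable section

namespace Q100.Ienv

open Q100.Ulam

universe u

section General

variable {X : Type u} [NormedAddCommGroup X] [NormedSpace ℝ X]

theorem wconv_ge {B : Set (StrongDual ℝ X)} {x : X} {c : ℝ} (h : ∀ d ∈ B, c ≤ d x)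
    {z : StrongDual ℝ X} (hz : z ∈ wconv B) : c ≤ z x := by
  have hcl : IsClosed {w : WeakDual ℝ X | c ≤ w x} :=
    isClosed_le continuous_const (WeakDual.eval_continuous x)
  have hsub : (StrongDual.toWeakDual '' (convexHull ℝ B) : Set (WeakDual ℝ X)) ⊆
      {w : WeakDual ℝ X | c ≤ w x} := by
    rintro _ ⟨y, hy, rfl⟩
    have hconv : Convex ℝ {y : StrongDual ℝ X | c ≤ y x} := by
      intro a ha b hb s t hs ht hst
      have h1 : c ≤ a x := ha
      have h2 : c ≤ b x := hb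
      change c ≤ s * a x + t * b x
      calc c = s * c + t * c := by rw [← add_mul, hst, one_mul]
        _ ≤ s * a x + t * b x :=
          add_le_add (mul_le_mul_of_nonneg_left h1 hs) (mul_le_mul_of_nonneg_left h2 ht)
    exact (convexHull_min h hconv) hy
  have h1 : StrongDual.toWeakDual z ∈
    (closure (StrongDual.toWeakDual '' (convexHull ℝ B)) : Set (WeakDual ℝ X)) := hz
  have h2 : StrongDual.toWeakDual z ∈ {w : WeakDual ℝ X | c ≤ w x} := closure_minimal hsub hcl h1
  exact h2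

theorem subset_wconv (B : Set (StrongDual ℝ X)) : B ⊆ wconv B := by
  intro z hz
  have h1 : StrongDual.toWeakDual z ∈
    (closure (StrongDual.toWeakDual '' (convexHull ℝ B)) : Set (WeakDual ℝ X)) :=
    subset_closure ⟨z, subset_convexHull ℝ B hz, rfl⟩
  exact h1

theorem Ienv_ge {A : Set (StrongDual ℝ X)} {x : X} {c : ℝ} (h : ∀ d ∈ A, c ≤ d x)
    {z : StrongDual ℝ X} (hz : z ∈ Ienv A) : c ≤ z x := by
  have h1 := hz (fun _ => A) (by rw [Set.iUnion_const])
  have hcl : IsClosed {y : StrongDual ℝ X | c ≤ y x} :=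
    isClosed_le continuous_const (ContinuousLinearMap.apply ℝ ℝ x).continuous
  have hconv : Convex ℝ {y : StrongDual ℝ X | c ≤ y x} := by
    intro a ha b hb s t hs ht hst
    have h1 : c ≤ a x := ha
    have h2 : c ≤ b x := hb
    change c ≤ s * a x + t * b x
    calc c = s * c + t * c := by rw [← add_mul, hst, one_mul]
      _ ≤ s * a x + t * b x :=
        add_le_add (mul_le_mul_of_nonneg_left h1 hs) (mul_le_mul_of_nonneg_left h2 ht)
  have hsub : convexHull ℝ (⋃ _ : ℕ, wconv A) ⊆ {y : StrongDual ℝ X | c ≤ y x} := by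
    refine convexHull_min ?_ hconv
    intro y hy
    obtain ⟨_, hy'⟩ := Set.mem_iUnion.1 hy
    exact wconv_ge h hy'
  exact (closure_minimal hsub hcl) h1

end General

/-- A discrete copy of `ω₁`. -/
def T : Type := Om

instance : TopologicalSpace T := ⊥
instance : DiscreteTopology T := ⟨rfl⟩

theorem not_countable_T : ¬ Countable T := not_countable_Om

theorem ulamT {μ : Set T → ℝ} (h : IsFinMeas μ) (ε : ℝ) (hε : 0 < ε) :
    ∃ F : Finset T, μ ((F : Set T)ᶜ) < ε := ulam (μ := μ) h ε hε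

/-- The Banach space of the example. -/
abbrev XX : Type := ℝ × (T →ᵇ ℝ) × C₀(ℕ × T, ℝ)

/-- The functional `r + h(t)/(n+1) + (n+1) x(n,t)`. -/
def dd (n : ℕ) (t : T) : StrongDual ℝ XX :=
  LinearMap.mkContinuous
    { toFun := fun p : XX => p.1 + p.2.1 t / ((n : ℝ) + 1) + ((n : ℝ) + 1) * p.2.2 (n, t)
      map_add' := fun p q => by
        simp only [Prod.fst_add, Prod.snd_add, BoundedContinuousFunction.coe_add, Pi.add_apply,
          ZeroAtInftyContinuousMap.coe_add]
        ring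
      map_smul' := fun r p => by
        simp only [Prod.smul_fst, Prod.smul_snd, BoundedContinuousFunction.coe_smul,
          ZeroAtInftyContinuousMap.coe_smul, Pi.smul_apply, smul_eq_mul, RingHom.id_apply]
        ring } (1 + 1 + ((n : ℝ) + 1)) (fun p => by
    change ‖p.1 + p.2.1 t / ((n : ℝ) + 1) + ((n : ℝ) + 1) * p.2.2 (n, t)‖ ≤ _
    have h1 : ‖p.1‖ ≤ ‖p‖ := norm_fst_le p
    have h2 : ‖p.2.1 t / ((n : ℝ) + 1)‖ ≤ ‖p‖ := by
      rw [norm_div]
      have h3 : ‖p.2.1 t‖ ≤ ‖p‖ :=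
        (p.2.1.norm_coe_le_norm t).trans ((norm_fst_le p.2).trans (norm_snd_le p))
      have h4 : (1 : ℝ) ≤ ‖(n : ℝ) + 1‖ := by
        rw [Real.norm_of_nonneg (by positivity)]
        linarith [(Nat.cast_nonneg n : (0 : ℝ) ≤ n)]
      exact (div_le_self (norm_nonneg _) h4).trans h3
    have h5 : ‖((n : ℝ) + 1) * p.2.2 (n, t)‖ ≤ ((n : ℝ) + 1) * ‖p‖ := by
      rw [norm_mul, Real.norm_of_nonneg (by positivity : (0 : ℝ) ≤ (n : ℝ) + 1)]
      refine mul_le_mul_of_nonneg_left ?_ (by positivity)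
      refine le_trans ?_ ((norm_snd_le p.2).trans (norm_snd_le p))
      exact p.2.2.toBCF.norm_coe_le_norm (n, t)
    have h6 := norm_add_le (p.1 + p.2.1 t / ((n : ℝ) + 1)) (((n : ℝ) + 1) * p.2.2 (n, t))
    have h7 := norm_add_le p.1 (p.2.1 t / ((n : ℝ) + 1))
    linarith)

theorem dd_apply (n : ℕ) (t : T) (p : XX) :
    dd n t p = p.1 + p.2.1 t / ((n : ℝ) + 1) + ((n : ℝ) + 1) * p.2.2 (n, t) := rfl

/-- The functional `r`. -/
def zeta : StrongDual ℝ XX := ContinuousLinearMap.fst ℝ _ _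

theorem zeta_apply (p : XX) : zeta p = p.1 := rfl

/-- Indicator functions as elements of `ℓ_∞(T)`. -/
def indB (γ : Set T) : T →ᵇ ℝ :=
  BoundedContinuousFunction.ofNormedAddCommGroup (Set.indicator γ (fun _ => (1 : ℝ)))
    continuous_of_discreteTopology 1 (fun t => by
      by_cases h : t ∈ γ
      · rw [Set.indicator_of_mem h]; simp
      · rw [Set.indicator_of_notMem h]; simp)

theorem indB_apply (γ : Set T) (t : T) : indB γ t = Set.indicator γ (fun _ => (1 : ℝ)) t := rfl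

/-- Indicator functions of finite sets as elements of `c₀(ℕ × T)`. -/
def indC (S : Finset (ℕ × T)) : C₀(ℕ × T, ℝ) where
  toFun := Set.indicator (S : Set (ℕ × T)) (fun _ => (1 : ℝ))
  continuous_toFun := continuous_of_discreteTopology
  zero_at_infty' := by
    rw [Filter.cocompact_eq_cofinite]
    refine tendsto_const_nhds.congr' ?_
    have h : ∀ᶠ i in (cofinite : Filter (ℕ × T)), i ∉ (S : Set (ℕ × T)) :=
      S.finite_toSet.compl_mem_cofinite
    filter_upwards [h] with i hi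
    rw [Set.indicator_of_notMem hi]

theorem indC_apply (S : Finset (ℕ × T)) (i : ℕ × T) :
    indC S i = Set.indicator (S : Set (ℕ × T)) (fun _ => (1 : ℝ)) i := rfl

/-- The point `(0, 1_γ, 0)`. -/
def pp (γ : Set T) : XX := (0, indB γ, 0)

/-- The point `(0, 0, 1_S)`. -/
def bb (S : Finset (ℕ × T)) : XX := (0, 0, indC S)

theorem norm_pp_le (γ : Set T) : ‖pp γ‖ ≤ 1 := by
  rw [pp, Prod.norm_mk, Prod.norm_mk, norm_zero, norm_zero]
  refine max_le zero_le_one (max_le ?_ zero_le_one)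
  exact BoundedContinuousFunction.norm_ofNormedAddCommGroup_le _ zero_le_one _

theorem norm_bb_le (S : Finset (ℕ × T)) : ‖bb S‖ ≤ 1 := by
  rw [bb, Prod.norm_mk, Prod.norm_mk, norm_zero, norm_zero]
  refine max_le zero_le_one (max_le zero_le_one ?_)
  have h : ‖(indC S).toBCF‖ ≤ 1 := by
    refine (BoundedContinuousFunction.norm_le zero_le_one).2 (fun i => ?_)
    change ‖indC S i‖ ≤ 1
    rw [indC_apply]
    by_cases h : i ∈ (S : Set (ℕ × T))
    · rw [Set.indicator_of_mem h]; simp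
    · rw [Set.indicator_of_notMem h]; simp
  exact h

theorem pp_union {γ δ : Set T} (h : Disjoint γ δ) : pp (γ ∪ δ) = pp γ + pp δ := by
  have h1 : indB (γ ∪ δ) = indB γ + indB δ := by
    ext t
    rw [BoundedContinuousFunction.coe_add, Pi.add_apply, indB_apply, indB_apply, indB_apply,
      Set.indicator_union_of_disjoint h]
  rw [pp, h1]
  simp [pp]

open Classical in
theorem dd_pp (n : ℕ) (t : T) (γ : Set T) :
    dd n t (pp γ) = if t ∈ γ then 1 / ((n : ℝ) + 1) else 0 := by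
  rw [dd_apply]
  have h1 : (pp γ).1 = 0 := rfl
  have h2 : (pp γ).2.1 t = Set.indicator γ (fun _ => (1 : ℝ)) t := rfl
  have h3 : (pp γ).2.2 (n, t) = 0 := rfl
  rw [h1, h2, h3, mul_zero, add_zero, zero_add]
  by_cases h : t ∈ γ
  · rw [Set.indicator_of_mem h, if_pos h]
  · rw [Set.indicator_of_notMem h, if_neg h, zero_div]

open Classical in
theorem dd_bb (n : ℕ) (t : T) (S : Finset (ℕ × T)) :
    dd n t (bb S) = if (n, t) ∈ S then (n : ℝ) + 1 else 0 := by
  rw [dd_apply]
  have h1 : (bb S).1 = 0 := rfl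
  have h2 : (bb S).2.1 t = 0 := rfl
  have h3 : (bb S).2.2 (n, t) = Set.indicator (S : Set (ℕ × T)) (fun _ => (1 : ℝ)) (n, t) := rfl
  rw [h1, h2, h3, zero_div, zero_add, zero_add]
  by_cases h : (n, t) ∈ S
  · rw [Set.indicator_of_mem (by exact_mod_cast h), if_pos h, mul_one]
  · rw [Set.indicator_of_notMem (by exact_mod_cast h), if_neg h, mul_zero]

/-- The set `A`. -/
def AA : Set (StrongDual ℝ XX) := {d | ∃ n t, d = dd n t}

theorem bounded_part {m : ℕ} {d : StrongDual ℝ XX} (hd : d ∈ {z | z ∈ AA ∧ ‖z‖ ≤ m}) :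
    ∃ n t, n + 1 ≤ m ∧ d = dd n t := by
  classical
  obtain ⟨⟨n, t, rfl⟩, h⟩ := hd
  refine ⟨n, t, ?_, rfl⟩
  have h1 : (n : ℝ) + 1 ≤ ‖dd n t‖ := by
    have h2 := (dd n t).le_opNorm (bb {(n, t)})
    rw [dd_bb, if_pos (Finset.mem_singleton_self _)] at h2
    have h3 := mul_le_mul_of_nonneg_left (norm_bb_le {(n, t)}) (norm_nonneg (dd n t))
    have h4 := le_abs_self ((n : ℝ) + 1)
    rw [Real.norm_eq_abs] at h2
    linarith
  have h2 := h1.trans h
  exact_mod_cast h2

/-- The point `ζ` lies in the (I)-envelope of `A`. -/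
theorem zeta_mem : zeta ∈ Ienv AA := by
  classical
  intro B hB
  refine closure_mono (subset_convexHull ℝ _) ?_
  rw [Metric.mem_closure_iff]
  intro ε hε
  obtain ⟨n, hn⟩ := exists_nat_one_div_lt hε
  -- infinitely many `t` with `dd n t` in the same piece
  obtain ⟨k, hk⟩ : ∃ k, {t : T | dd n t ∈ B k}.Infinite := by
    by_contra hcon
    push Not at hcon
    apply not_countable_T
    rw [← Set.countable_univ_iff]
    have h1 : (Set.univ : Set T) = ⋃ k, {t : T | dd n t ∈ B k} := by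
      ext t
      simp only [Set.mem_univ, Set.mem_iUnion, Set.mem_ofPred_eq, true_iff]
      have : dd n t ∈ AA := ⟨n, t, rfl⟩
      rw [hB] at this
      exact Set.mem_iUnion.1 this
    rw [h1]
    exact Set.countable_iUnion (fun k => (hcon k).countable)
  have hne : (cofinite ⊓ 𝓟 {t : T | dd n t ∈ B k}).NeBot :=
    Filter.cofinite_inf_principal_neBot_iff.2 hk
  let 𝓤 : Ultrafilter T := Ultrafilter.of (cofinite ⊓ 𝓟 {t : T | dd n t ∈ B k})
  have hU : (𝓤 : Filter T) ≤ cofinite ⊓ 𝓟 {t : T | dd n t ∈ B k} := Ultrafilter.of_le _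
  have hU1 : (𝓤 : Filter T) ≤ cofinite := hU.trans inf_le_left
  have hU2 : ∀ᶠ t in (𝓤 : Filter T), dd n t ∈ B k :=
    (hU.trans inf_le_right) (mem_principal_self _)
  have hnorm : ∀ t, ‖dd n t‖ ≤ 1 + 1 + ((n : ℝ) + 1) := fun t =>
    LinearMap.mkContinuous_norm_le _ (by positivity) _
  have hcomp := WeakDual.isCompact_closedBall (𝕜 := ℝ) (E := XX) 0 (1 + 1 + ((n : ℝ) + 1))
  have hle : ((𝓤.map (fun t => StrongDual.toWeakDual (dd n t)) : Ultrafilter (WeakDual ℝ XX)) :
      Filter (WeakDual ℝ XX)) ≤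
      𝓟 (WeakDual.toStrongDual ⁻¹' Metric.closedBall (0 : StrongDual ℝ XX)
        (1 + 1 + ((n : ℝ) + 1))) := by
    rw [Ultrafilter.coe_map]
    refine tendsto_principal.2 (Eventually.of_forall (fun t => ?_))
    exact (dist_zero_right (dd n t)).le.trans (hnorm t)
  obtain ⟨z, -, hz⟩ := hcomp.ultrafilter_le_nhds _ hle
  rw [Ultrafilter.coe_map] at hz
  have hzt : Tendsto (fun t => StrongDual.toWeakDual (dd n t)) 𝓤 (𝓝 z) := hz
  have hzmem : WeakDual.toStrongDual z ∈ wconv (B k) := by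
    have h1 : z ∈ (closure (StrongDual.toWeakDual '' (convexHull ℝ (B k))) :
        Set (WeakDual ℝ XX)) := by
      refine mem_closure_of_tendsto (b := (𝓤 : Filter T))
        (f := fun t => StrongDual.toWeakDual (dd n t)) hzt ?_
      filter_upwards [hU2] with t ht
      exact ⟨dd n t, subset_convexHull ℝ _ ht, rfl⟩
    exact h1
  refine ⟨WeakDual.toStrongDual z, Set.mem_iUnion.2 ⟨k, hzmem⟩, ?_⟩
  rw [dist_eq_norm]
  refine lt_of_le_of_lt ?_ hn
  refine ContinuousLinearMap.opNorm_le_bound _ (by positivity) (fun p => ?_)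
  have h1 : Tendsto (fun t => zeta p - dd n t p) 𝓤 (𝓝 (zeta p - z p)) := by
    refine Tendsto.const_sub _ ?_
    exact ((WeakDual.eval_continuous p).tendsto z).comp hzt
  have h2 : Tendsto (fun t : T => 1 / ((n : ℝ) + 1) * ‖p‖ + ((n : ℝ) + 1) * |p.2.2 (n, t)|) 𝓤
      (𝓝 (1 / ((n : ℝ) + 1) * ‖p‖ + ((n : ℝ) + 1) * |0|)) := by
    refine Tendsto.const_add _ (Tendsto.const_mul _ (Tendsto.abs ?_))
    have h3 : Tendsto p.2.2 cofinite (𝓝 0) := by
      have := p.2.2.zero_at_infty'
      rw [Filter.cocompact_eq_cofinite] at this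
      exact this
    have h4 : Tendsto (fun t : T => ((n, t) : ℕ × T)) 𝓤 cofinite :=
      (Function.Injective.tendsto_cofinite (fun a b hab => (Prod.mk.inj hab).2)).mono_left hU1
    exact h3.comp h4
  rw [abs_zero, mul_zero, add_zero] at h2
  refine le_of_tendsto_of_tendsto' h1.norm h2 (fun t => ?_)
  rw [zeta_apply, dd_apply]
  have h5 : p.1 - (p.1 + p.2.1 t / ((n : ℝ) + 1) + ((n : ℝ) + 1) * p.2.2 (n, t)) =
      -(p.2.1 t / ((n : ℝ) + 1)) - ((n : ℝ) + 1) * p.2.2 (n, t) := by ring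
  rw [h5]
  refine (norm_sub_le _ _).trans (add_le_add ?_ ?_)
  · rw [norm_neg, norm_div, Real.norm_of_nonneg (by positivity : (0 : ℝ) ≤ (n : ℝ) + 1),
      div_eq_inv_mul, one_div]
    refine mul_le_mul_of_nonneg_left ?_ (by positivity)
    exact (p.2.1.norm_coe_le_norm t).trans ((norm_fst_le p.2).trans (norm_snd_le p))
  · rw [norm_mul, Real.norm_of_nonneg (by positivity : (0 : ℝ) ≤ (n : ℝ) + 1), Real.norm_eq_abs]

theorem isFinMeas_of_mem {m : ℕ} {z : StrongDual ℝ XX}
    (hz : z ∈ Ienv ({z | z ∈ AA ∧ ‖z‖ ≤ m})) : IsFinMeas (fun γ : Set T => z (pp γ)) := by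
  classical
  refine ⟨fun γ => ?_, fun γ δ h => ?_, fun γ hanti hempty => ?_⟩
  · refine Ienv_ge (fun d hd => ?_) hz
    obtain ⟨n, t, -, rfl⟩ := bounded_part hd
    rw [dd_pp]
    split_ifs <;> positivity
  · have h1 : pp (γ ∪ δ) = pp γ + pp δ := pp_union h
    simp only [h1, map_add]
  · -- the cover
    let C : ℕ → Set (StrongDual ℝ XX) := fun j =>
      {d | d ∈ {z | z ∈ AA ∧ ‖z‖ ≤ m} ∧ d (pp (γ j)) = 0}
    have hcov : {z | z ∈ AA ∧ ‖z‖ ≤ m} = ⋃ j, C j := by
      ext d
      constructor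
      · intro hd
        obtain ⟨n, t, -, rfl⟩ := bounded_part hd
        have h1 : t ∉ ⋂ j, (γ j : Set T) := by
          have h2 : (⋂ j, (γ j : Set T)) = ∅ := hempty
          rw [h2]; exact Set.notMem_empty _
        rw [Set.mem_iInter] at h1
        push Not at h1
        obtain ⟨j, hj⟩ := h1
        refine Set.mem_iUnion.2 ⟨j, hd, ?_⟩
        rw [dd_pp, if_neg hj]
      · intro hd
        obtain ⟨j, hj⟩ := Set.mem_iUnion.1 hd
        exact hj.1
    have hzc := hz C hcov
    rw [Metric.tendsto_atTop]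
    intro ε hε
    obtain ⟨y, hy, hzy⟩ := Metric.mem_closure_iff.1 hzc ε hε
    let Y : Submodule ℝ (StrongDual ℝ XX) :=
      { carrier := {y | ∃ k0, ∀ k, k0 ≤ k → y (pp (γ k)) = 0}
        add_mem' := by
          rintro a b ⟨k0, hk0⟩ ⟨k1, hk1⟩
          refine ⟨max k0 k1, fun k hk => ?_⟩
          rw [_root_.add_apply, hk0 k (le_of_max_le_left hk), hk1 k (le_of_max_le_right hk),
            add_zero]
        zero_mem' := ⟨0, fun _ _ => rfl⟩
        smul_mem' := by
          rintro c a ⟨k0, hk0⟩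
          refine ⟨k0, fun k hk => ?_⟩
          rw [_root_.smul_apply, hk0 k hk, smul_zero] }
    have hYsub : convexHull ℝ (⋃ j, wconv (C j)) ⊆ (Y : Set (StrongDual ℝ XX)) := by
      refine convexHull_min ?_ Y.convex
      intro w hw
      obtain ⟨j, hj⟩ := Set.mem_iUnion.1 hw
      refine ⟨j, fun k hk => ?_⟩
      have hzero : ∀ d ∈ C j, d (pp (γ k)) = 0 := by
        rintro d ⟨hd, hd0⟩
        obtain ⟨n, t, -, rfl⟩ := bounded_part hd
        rw [dd_pp] at hd0 ⊢
        by_cases h1 : t ∈ (γ j : Set T)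
        · rw [if_pos h1] at hd0
          have : (0 : ℝ) < 1 / ((n : ℝ) + 1) := by positivity
          linarith
        · rw [if_neg (fun h2 => h1 (hanti hk h2))]
      have h1 : 0 ≤ w (pp (γ k)) := wconv_ge (fun d hd => (hzero d hd).ge) hj
      have h2 : 0 ≤ w (-(pp (γ k))) := wconv_ge (fun d hd => by
        rw [map_neg, hzero d hd, neg_zero]) hj
      rw [map_neg] at h2
      linarith
    obtain ⟨k0, hk0⟩ := hYsub hy
    refine ⟨k0, fun k hk => ?_⟩
    rw [dist_zero_right]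
    have h1 : z (pp (γ k)) = (z - y) (pp (γ k)) := by
      rw [_root_.sub_apply, hk0 k hk, sub_zero]
    rw [h1]
    refine ((z - y).le_opNorm _).trans_lt ?_
    rw [dist_eq_norm] at hzy
    have h2 := mul_le_mul_of_nonneg_left (norm_pp_le (γ k)) (norm_nonneg (z - y))
    linarith

/-- The distance of `ζ` to the (I)-envelopes of the bounded parts is at least one. -/
theorem dist_ge {z : StrongDual ℝ XX} (hz : z ∈ IenvB AA) : 1 ≤ ‖z - zeta‖ := by
  classical
  obtain ⟨m, hm⟩ := Set.mem_iUnion.1 hz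
  refine le_of_forall_pos_le_add (fun ε hε => ?_)
  obtain ⟨F, hF⟩ := ulamT (isFinMeas_of_mem hm) (ε / (m + 1)) (by positivity)
  let S : Finset (ℕ × T) := (Finset.range m) ×ˢ (F : Finset T)
  have h1 : 1 ≤ z (bb S + ((m : ℝ) + 1) • pp ((F : Set T)ᶜ)) := by
    refine Ienv_ge (fun d hd => ?_) hm
    obtain ⟨n, t, hn, rfl⟩ := bounded_part hd
    rw [map_add, map_smul, dd_bb, dd_pp]
    by_cases ht : t ∈ F
    · have h2 : (n, t) ∈ S := Finset.mem_product.2 ⟨Finset.mem_range.2 (by omega), ht⟩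
      have h3 : t ∉ ((F : Set T)ᶜ) := fun h => h ht
      rw [if_pos h2, if_neg h3, smul_zero, add_zero]
      linarith [(Nat.cast_nonneg n : (0 : ℝ) ≤ n)]
    · have h2 : (n, t) ∉ S := fun h => ht (Finset.mem_product.1 h).2
      have h3 : t ∈ ((F : Set T)ᶜ) := ht
      rw [if_neg h2, if_pos h3, zero_add, smul_eq_mul, mul_one_div, le_div_iff₀ (by positivity)]
      have h4 : ((n + 1 : ℕ) : ℝ) ≤ m := by exact_mod_cast hn
      push_cast at h4
      linarith
  rw [map_add, map_smul, smul_eq_mul] at h1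
  have h2 : ((m : ℝ) + 1) * z (pp ((F : Set T)ᶜ)) < ε := by
    have h3 : z (pp ((F : Set T)ᶜ)) < ε / (m + 1) := hF
    rw [lt_div_iff₀ (by positivity)] at h3
    linarith
  have h3 : z (bb S) = (z - zeta) (bb S) := by
    rw [_root_.sub_apply, zeta_apply]
    have : (bb S).1 = 0 := rfl
    rw [this, sub_zero]
  have h4 : z (bb S) ≤ ‖z - zeta‖ := by
    rw [h3]
    refine (le_abs_self _).trans (((z - zeta).le_opNorm _).trans ?_)
    have h5 := mul_le_mul_of_nonneg_left (norm_bb_le S) (norm_nonneg (z - zeta))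
    linarith
  linarith

theorem not_dense : ¬ (Ienv AA ⊆ closure (IenvB AA)) := by
  intro h
  obtain ⟨z, hz, hd⟩ := Metric.mem_closure_iff.1 (h zeta_mem) 1 one_pos
  rw [dist_comm, dist_eq_norm] at hd
  exact absurd (dist_ge hz) (not_le.2 hd)

end Q100.Ienv
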