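import Mathlib

/-!
# (I)-envelopes
-/

set_option autoImplicit false
open Filter Topology

namespace Q100.Ienv

universe u

variable {X : Type u} [NormedAddCommGroup X] [NormedSpace ℝ X]

/-- The weak* closed convex hull of a set in the dual space. -/
def wconv (B : Set (StrongDual ℝ X)) : Set (StrongDual ℝ X) :=
  StrongDual.toWeakDual ⁻¹'
    (closure (StrongDual.toWeakDual '' (convexHull ℝ B) : Set (WeakDual ℝ X)))

/-- The (I)-envelope: the intersection, over all countable covers `A = ⋃ A_n`, of the norm closed
convex hulls of the union of the weak* closed convex hulls of the `A_n`. -/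
def Ienv (A : Set (StrongDual ℝ X)) : Set (StrongDual ℝ X) :=
  {z | ∀ B : ℕ → Set (StrongDual ℝ X), A = ⋃ n, B n →
    z ∈ closure (convexHull ℝ (⋃ n, wconv (B n)))}

/-- The union of the (I)-envelopes of the bounded parts `A ∩ n B`, where `B` is the dual ball. -/
def IenvB (A : Set (StrongDual ℝ X)) : Set (StrongDual ℝ X) :=
  ⋃ n : ℕ, Ienv {z | z ∈ A ∧ ‖z‖ ≤ n}

end Q100.Ienv
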