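import Mathlib

/-!
# Automatic continuity of Borel homomorphisms
-/

set_option autoImplicit false
open Filter Topology MeasureTheory

noncomputable section

namespace Q100.QL

/-- Pettis: if `A` has the Baire property and is not meagre, then `A - A` is a neighbourhood of
zero. -/
theorem sub_mem_nhds {G : Type*} [AddCommGroup G] [TopologicalSpace G] [IsTopologicalAddGroup G]
    [BaireSpace G] (A : Set G) (hA : MeasurableSet[borel G] A) (hne : ¬ IsMeagre A) :
    ∃ V ∈ 𝓝 (0 : G), ∀ h ∈ V, ∃ a ∈ A, ∃ b ∈ A, h = a - b := by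
  letI : MeasurableSpace G := borel G
  haveI : BorelSpace G := ⟨rfl⟩
  obtain ⟨U, hU, hAU⟩ := hA.residualEq_isOpen
  have hUne : U.Nonempty := by
    rw [Set.nonempty_iff_ne_empty]
    rintro rfl
    apply hne
    have h1 : ∀ᶠ x in residual G, (x ∈ A) = (x ∈ (∅ : Set G)) := hAU
    show Aᶜ ∈ residual G
    filter_upwards [h1] with x hx hxA
    rw [hx] at hxA
    exact hxA
  obtain ⟨u, hu⟩ := hUne
  refine ⟨{h | u + h ∈ U}, ?_, fun h hh => ?_⟩
  · have : ContinuousAt (fun h : G => u + h) 0 := by fun_prop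
    exact this (hU.mem_nhds (by simpa using hu))
  · -- the set `A ∩ (A + h)` is nonempty
    have h1 : ∀ᶠ x in residual G, (x ∈ A) = (x ∈ U) := hAU
    have h2 : ∀ᶠ x in residual G, (x - h ∈ A) = (x - h ∈ U) := by
      have h3 : map (Homeomorph.subRight h) (residual G) = residual G :=
        Homeomorph.residual_map_eq (Homeomorph.subRight h)
      have h4 : ∀ᶠ x in map (Homeomorph.subRight h) (residual G), (x ∈ A) = (x ∈ U) := by
        rw [h3]; exact h1
      exact h4
    have h5 : Dense {x : G | (x ∈ A) = (x ∈ U) ∧ (x - h ∈ A) = (x - h ∈ U)} :=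
      dense_of_mem_residual (h1.and h2)
    have h6 : IsOpen {x : G | x ∈ U ∧ x - h ∈ U} :=
      hU.inter (hU.preimage (continuous_id.sub continuous_const))
    obtain ⟨x, ⟨hx1, hx2⟩, hx3, hx4⟩ := h5.inter_open_nonempty _ h6 ⟨u + h, hh, by simpa using hu⟩
    refine ⟨x, by rw [hx3]; exact hx1, x - h, by rw [hx4]; exact hx2, by abel⟩

/-- Borel homomorphisms from Baire groups to separable groups are continuous. -/
theorem continuous_of_borel {G H : Type*} [AddCommGroup G] [TopologicalSpace G]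
    [IsTopologicalAddGroup G] [BaireSpace G] [AddCommGroup H] [TopologicalSpace H]
    [IsTopologicalAddGroup H] [TopologicalSpace.SeparableSpace H] (f : G →+ H)
    (hf : ∀ U : Set H, IsOpen U → MeasurableSet[borel G] (f ⁻¹' U)) : Continuous f := by
  refine continuous_of_continuousAt_zero f ?_
  rw [ContinuousAt, map_zero]
  intro W hW
  -- a symmetric difference neighbourhood
  obtain ⟨V, hV, hVW⟩ : ∃ V : Set H, (IsOpen V ∧ (0 : H) ∈ V) ∧ ∀ a ∈ V, ∀ b ∈ V, a - b ∈ W := by
    have h1 : Tendsto (fun p : H × H => p.1 - p.2) (𝓝 (0, 0)) (𝓝 0) := by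
      have : Continuous (fun p : H × H => p.1 - p.2) := by fun_prop
      simpa using this.tendsto (0, 0)
    have h2 := h1 hW
    rw [mem_map, nhds_prod_eq, mem_prod_iff] at h2
    obtain ⟨S, hS, T, hT, hST⟩ := h2
    obtain ⟨S', hS'S, hS'o, hS'0⟩ := mem_nhds_iff.1 hS
    obtain ⟨T', hT'T, hT'o, hT'0⟩ := mem_nhds_iff.1 hT
    exact ⟨S' ∩ T', ⟨hS'o.inter hT'o, hS'0, hT'0⟩, fun a ha b hb =>
      hST (Set.mk_mem_prod (hS'S ha.1) (hT'T hb.2))⟩
  -- countably many translates cover the range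
  set D := TopologicalSpace.denseSeq H with hD
  have hcov : ∀ g : G, ∃ n, f g - D n ∈ V := by
    intro g
    have h1 : IsOpen {y : H | f g - y ∈ V} := hV.1.preimage (continuous_const.sub continuous_id)
    obtain ⟨n, hn⟩ := (TopologicalSpace.denseRange_denseSeq H).exists_mem_open h1
      ⟨f g, by simpa using hV.2⟩
    exact ⟨n, hn⟩
  have hmeag : ∃ n, ¬ IsMeagre (f ⁻¹' {y | y - D n ∈ V}) := by
    by_contra hcon
    push Not at hcon
    have h1 : IsMeagre (⋃ n, f ⁻¹' {y | y - D n ∈ V}) := isMeagre_iUnion hcon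
    have h2 : (⋃ n, f ⁻¹' {y | y - D n ∈ V}) = Set.univ := by
      rw [Set.eq_univ_iff_forall]
      intro g
      obtain ⟨n, hn⟩ := hcov g
      exact Set.mem_iUnion.2 ⟨n, hn⟩
    rw [h2] at h1
    have h3 : (∅ : Set G) ∈ residual G := by simpa [IsMeagre] using h1
    have h4 := dense_of_mem_residual h3
    have h5 := h4.nonempty
    exact Set.not_nonempty_empty h5
  obtain ⟨n, hn⟩ := hmeag
  have hmeas : MeasurableSet[borel G] (f ⁻¹' {y | y - D n ∈ V}) :=
    hf _ (hV.1.preimage (continuous_id.sub continuous_const))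
  obtain ⟨N, hN, hNd⟩ := sub_mem_nhds _ hmeas hn
  rw [mem_map]
  refine mem_of_superset hN (fun h hh => ?_)
  obtain ⟨a, ha, b, hb, rfl⟩ := hNd h hh
  have h1 := hVW _ ha _ hb
  show f (a - b) ∈ W
  rw [map_sub]
  simpa using h1

end Q100.QL
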