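import Pool.Agent.Q100.QLDefs
import Pool.Agent.Q100.QLUniq

/-!
# A quasi-linear map whose preimage is not normable
-/

set_option autoImplicit false
open Filter Topology MeasureTheory
open scoped ENNReal

noncomputable section

namespace Q100.QL

/-- The space `ℓ₁`. -/
abbrev L : Type := lp (fun _ : ℕ => ℝ) 1

theorem summ (x : L) : Summable fun n => |(x : ∀ _ : ℕ, ℝ) n| := by
  have := (lp.memℓp x).summable (by simp)
  simpa using this

theorem norm_eq (x : L) : ‖x‖ = ∑' n, |(x : ∀ _ : ℕ, ℝ) n| := by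
  rw [lp.norm_eq_tsum_rpow (by simp)]
  simp

/-- Members of `ℓ₁` from summable sequences. -/
def mkL (u : ℕ → ℝ) (h : Summable fun n => |u n|) : L :=
  ⟨u, memℓp_gen (by simpa using h)⟩

@[simp] theorem mkL_apply (u : ℕ → ℝ) (h : Summable fun n => |u n|) (n : ℕ) :
    (mkL u h : ∀ _ : ℕ, ℝ) n = u n := rfl

theorem abs_le_norm (x : L) (n : ℕ) : |(x : ∀ _ : ℕ, ℝ) n| ≤ ‖x‖ := by
  rw [norm_eq]
  exact (summ x).le_tsum n (fun _ _ => abs_nonneg _)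

theorem continuous_coord (n : ℕ) : Continuous fun x : L => (x : ∀ _ : ℕ, ℝ) n :=
  (lp.evalCLM ℝ (fun _ : ℕ => ℝ) 1 n).continuous

/-- A dominated convergence principle in `ℓ₁`. -/
theorem tendsto_L {α : Type*} {l : Filter α} {G : α → L} {g : L} {H1 H2 : α → L} {h1 h2 : L}
    (hc : ∀ n, Tendsto (fun a => (G a : ∀ _ : ℕ, ℝ) n) l (𝓝 ((g : ∀ _ : ℕ, ℝ) n)))
    (hH1 : Tendsto H1 l (𝓝 h1)) (hH2 : Tendsto H2 l (𝓝 h2))
    (hdom : ∀ a n, |(G a : ∀ _ : ℕ, ℝ) n| ≤ |(H1 a : ∀ _ : ℕ, ℝ) n| + |(H2 a : ∀ _ : ℕ, ℝ) n|)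
    (hdom' : ∀ n, |(g : ∀ _ : ℕ, ℝ) n| ≤ |(h1 : ∀ _ : ℕ, ℝ) n| + |(h2 : ∀ _ : ℕ, ℝ) n|) :
    Tendsto G l (𝓝 g) := by
  classical
  rw [tendsto_iff_norm_sub_tendsto_zero]
  rw [tendsto_iff_norm_sub_tendsto_zero] at hH1 hH2
  have hS : Summable fun n => |(h1 : ∀ _ : ℕ, ℝ) n| + |(h2 : ∀ _ : ℕ, ℝ) n| :=
    (summ h1).add (summ h2)
  -- the fundamental inequality
  have key : ∀ (A : Finset ℕ) (a : α), ‖G a - g‖ ≤
      ∑ n ∈ A, |(G a : ∀ _ : ℕ, ℝ) n - (g : ∀ _ : ℕ, ℝ) n| + (‖H1 a - h1‖ + ‖H2 a - h2‖) +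
      2 * (∑' n, (|(h1 : ∀ _ : ℕ, ℝ) n| + |(h2 : ∀ _ : ℕ, ℝ) n|) -
        ∑ n ∈ A, (|(h1 : ∀ _ : ℕ, ℝ) n| + |(h2 : ∀ _ : ℕ, ℝ) n|)) := by
    intro A a
    have e1 : Summable fun n => (if n ∈ A then |(G a : ∀ _ : ℕ, ℝ) n - (g : ∀ _ : ℕ, ℝ) n|
        else 0) := summable_of_ne_finset_zero (s := A) (fun n hn => if_neg hn)
    have e2 : Summable fun n => |((H1 a - h1 : L) : ∀ _ : ℕ, ℝ) n| +
      |((H2 a - h2 : L) : ∀ _ : ℕ, ℝ) n| := (summ _).add (summ _)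
    have e3 : Summable fun n => (if n ∈ A then (|(h1 : ∀ _ : ℕ, ℝ) n| +
        |(h2 : ∀ _ : ℕ, ℝ) n|) else 0) := summable_of_ne_finset_zero (s := A)
      (fun n hn => if_neg hn)
    have e4 : Summable fun n => 2 * ((|(h1 : ∀ _ : ℕ, ℝ) n| + |(h2 : ∀ _ : ℕ, ℝ) n|) -
        (if n ∈ A then (|(h1 : ∀ _ : ℕ, ℝ) n| + |(h2 : ∀ _ : ℕ, ℝ) n|) else 0)) :=
      (hS.sub e3).mul_left 2
    have h5 : ∀ n, |((G a - g : L) : ∀ _ : ℕ, ℝ) n| ≤
        (if n ∈ A then |(G a : ∀ _ : ℕ, ℝ) n - (g : ∀ _ : ℕ, ℝ) n| else 0) +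
        (|((H1 a - h1 : L) : ∀ _ : ℕ, ℝ) n| + |((H2 a - h2 : L) : ∀ _ : ℕ, ℝ) n|) +
        2 * ((|(h1 : ∀ _ : ℕ, ℝ) n| + |(h2 : ∀ _ : ℕ, ℝ) n|) -
        (if n ∈ A then (|(h1 : ∀ _ : ℕ, ℝ) n| + |(h2 : ∀ _ : ℕ, ℝ) n|) else 0)) := by
      intro n
      rw [lp.coeFn_sub, Pi.sub_apply, lp.coeFn_sub, Pi.sub_apply, lp.coeFn_sub, Pi.sub_apply]
      have f1 := abs_nonneg ((H1 a : ∀ _ : ℕ, ℝ) n - (h1 : ∀ _ : ℕ, ℝ) n)
      have f2 := abs_nonneg ((H2 a : ∀ _ : ℕ, ℝ) n - (h2 : ∀ _ : ℕ, ℝ) n)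
      split_ifs with hn
      · linarith
      · have f3 := hdom a n
        have f4 := hdom' n
        have f5 : |(H1 a : ∀ _ : ℕ, ℝ) n| ≤ |(H1 a : ∀ _ : ℕ, ℝ) n - (h1 : ∀ _ : ℕ, ℝ) n| +
            |(h1 : ∀ _ : ℕ, ℝ) n| := by
          have := abs_sub_abs_le_abs_sub ((H1 a : ∀ _ : ℕ, ℝ) n) ((h1 : ∀ _ : ℕ, ℝ) n)
          linarith
        have f6 : |(H2 a : ∀ _ : ℕ, ℝ) n| ≤ |(H2 a : ∀ _ : ℕ, ℝ) n - (h2 : ∀ _ : ℕ, ℝ) n| +
            |(h2 : ∀ _ : ℕ, ℝ) n| := by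
          have := abs_sub_abs_le_abs_sub ((H2 a : ∀ _ : ℕ, ℝ) n) ((h2 : ∀ _ : ℕ, ℝ) n)
          linarith
        have f7 : |(G a : ∀ _ : ℕ, ℝ) n - (g : ∀ _ : ℕ, ℝ) n| ≤
            |(G a : ∀ _ : ℕ, ℝ) n| + |(g : ∀ _ : ℕ, ℝ) n| := abs_sub _ _
        linarith
    rw [norm_eq]
    refine ((summ _).tsum_le_tsum h5 ((e1.add e2).add e4)).trans ?_
    rw [((e1.add e2).tsum_add e4), e1.tsum_add e2, (summ (H1 a - h1)).tsum_add (summ (H2 a - h2)),
      ← norm_eq, ← norm_eq, tsum_mul_left, hS.tsum_sub e3,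
      tsum_eq_sum (s := A) (f := fun n => if n ∈ A then |(G a : ∀ _ : ℕ, ℝ) n -
        (g : ∀ _ : ℕ, ℝ) n| else 0) (fun n hn => if_neg hn),
      tsum_eq_sum (s := A) (f := fun n => if n ∈ A then (|(h1 : ∀ _ : ℕ, ℝ) n| +
        |(h2 : ∀ _ : ℕ, ℝ) n|) else 0) (fun n hn => if_neg hn)]
    refine le_of_eq ?_
    congr 1
    · congr 1
      exact Finset.sum_congr rfl (fun n hn => if_pos hn)
    · congr 2
      exact Finset.sum_congr rfl (fun n hn => if_pos hn)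
  rw [Metric.tendsto_nhds]
  intro ε hε
  obtain ⟨A, hA⟩ : ∃ A : Finset ℕ, ∑' n, (|(h1 : ∀ _ : ℕ, ℝ) n| + |(h2 : ∀ _ : ℕ, ℝ) n|) -
      ∑ n ∈ A, (|(h1 : ∀ _ : ℕ, ℝ) n| + |(h2 : ∀ _ : ℕ, ℝ) n|) < ε / 8 := by
    have h3 := hS.hasSum
    have h4 := h3.eventually (lt_mem_nhds (show ∑' n, (|(h1 : ∀ _ : ℕ, ℝ) n| +
      |(h2 : ∀ _ : ℕ, ℝ) n|) - ε / 8 < _ by linarith))
    obtain ⟨A, hA⟩ := h4.exists
    exact ⟨A, by linarith⟩
  have t1 : Tendsto (fun a => ∑ n ∈ A, |(G a : ∀ _ : ℕ, ℝ) n - (g : ∀ _ : ℕ, ℝ) n|) l (𝓝 0) := by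
    have : Tendsto (fun a => ∑ n ∈ A, |(G a : ∀ _ : ℕ, ℝ) n - (g : ∀ _ : ℕ, ℝ) n|) l
        (𝓝 (∑ n ∈ A, |(g : ∀ _ : ℕ, ℝ) n - (g : ∀ _ : ℕ, ℝ) n|)) :=
      tendsto_finsetSum _ (fun n _ => ((hc n).sub_const _).abs)
    simpa using this
  have t2 : Tendsto (fun a => ∑ n ∈ A, |(G a : ∀ _ : ℕ, ℝ) n - (g : ∀ _ : ℕ, ℝ) n| +
      (‖H1 a - h1‖ + ‖H2 a - h2‖)) l (𝓝 0) := by
    have := t1.add (hH1.add hH2)
    simpa using this
  filter_upwards [t2.eventually (gt_mem_nhds (show (0 : ℝ) < ε / 2 by positivity))] with a ha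
  rw [Real.dist_eq, sub_zero, abs_of_nonneg (norm_nonneg _)]
  have := key A a
  linarith

theorem continuous_L {α : Type*} [TopologicalSpace α] {G H1 H2 : α → L}
    (hc : ∀ n, Continuous fun a => (G a : ∀ _ : ℕ, ℝ) n) (h1 : Continuous H1) (h2 : Continuous H2)
    (hdom : ∀ a n, |(G a : ∀ _ : ℕ, ℝ) n| ≤ |(H1 a : ∀ _ : ℕ, ℝ) n| +
      |(H2 a : ∀ _ : ℕ, ℝ) n|) : Continuous G := by
  rw [continuous_iff_continuousAt]
  intro a
  exact tendsto_L (fun n => (hc n).continuousAt) h1.continuousAt h2.continuousAt hdom (hdom a)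

/-! ### The function `s log |s|` -/

/-- `s log |s|`. -/
def fl (s : ℝ) : ℝ := s * Real.log s

theorem fl_zero : fl 0 = 0 := by simp [fl]
theorem fl_one : fl 1 = 0 := by simp [fl]
theorem fl_neg (s : ℝ) : fl (-s) = -fl s := by simp [fl]
theorem continuous_fl : Continuous fl := Real.continuous_mul_log

theorem fl_mul (a s : ℝ) : fl (a * s) = a * fl s + s * fl a := by
  unfold fl
  rcases eq_or_ne a 0 with rfl | ha
  · simp
  rcases eq_or_ne s 0 with rfl | hs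
  · simp
  rw [Real.log_mul ha hs]
  ring

theorem abs_fl_le (s : ℝ) : |fl s| ≤ 1 + s ^ 2 := by
  have key : ∀ s : ℝ, 0 < s → |fl s| ≤ 1 + s ^ 2 := by
    intro s hs
    rcases le_total s 1 with h | h
    · have := Real.abs_log_mul_self_lt s hs h
      rw [mul_comm] at this
      unfold fl
      nlinarith [sq_nonneg s]
    · unfold fl
      rw [abs_of_nonneg (mul_nonneg hs.le (Real.log_nonneg h))]
      have := Real.log_le_sub_one_of_pos hs
      nlinarith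
  rcases lt_trichotomy s 0 with h | h | h
  · have := key (-s) (by linarith)
    rw [fl_neg, abs_neg] at this
    simpa using this
  · rw [h, fl_zero]; norm_num
  · exact key s h

theorem dl_bound_pos {s t : ℝ} (hs : 0 ≤ s) (ht : 0 ≤ t) :
    |fl (s + t) - fl s - fl t| ≤ s + t := by
  rcases hs.eq_or_lt with rfl | hs
  · rw [zero_add, fl_zero]; simpa using ht
  rcases ht.eq_or_lt with rfl | ht
  · rw [add_zero, fl_zero]; simpa using hs.le
  have hst : 0 < s + t := by linarith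
  have e : fl (s + t) - fl s - fl t = s * Real.log ((s + t) / s) + t * Real.log ((s + t) / t) := by
    unfold fl
    rw [Real.log_div hst.ne' hs.ne', Real.log_div hst.ne' ht.ne']
    ring
  have h1 : 0 ≤ Real.log ((s + t) / s) := Real.log_nonneg (by rw [le_div_iff₀ hs]; linarith)
  have h2 : 0 ≤ Real.log ((s + t) / t) := Real.log_nonneg (by rw [le_div_iff₀ ht]; linarith)
  have h3 : s * Real.log ((s + t) / s) ≤ t := by
    have := Real.log_le_sub_one_of_pos (div_pos hst hs)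
    calc s * Real.log ((s + t) / s) ≤ s * ((s + t) / s - 1) := mul_le_mul_of_nonneg_left this hs.le
      _ = t := by field_simp; ring
  have h4 : t * Real.log ((s + t) / t) ≤ s := by
    have := Real.log_le_sub_one_of_pos (div_pos hst ht)
    calc t * Real.log ((s + t) / t) ≤ t * ((s + t) / t - 1) := mul_le_mul_of_nonneg_left this ht.le
      _ = s := by field_simp; ring
  rw [e, abs_of_nonneg (add_nonneg (mul_nonneg hs.le h1) (mul_nonneg ht.le h2))]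
  linarith

theorem dl_bound (s t : ℝ) : |fl (s + t) - fl s - fl t| ≤ |s| + |t| := by
  -- the case of opposite signs
  have key : ∀ s r : ℝ, 0 ≤ s → 0 ≤ r → |fl (s - r) - fl s - fl (-r)| ≤ s + r := by
    intro s r hs hr
    rcases le_total r s with h | h
    · have h1 := dl_bound_pos (s := s - r) (t := r) (by linarith) hr
      rw [sub_add_cancel] at h1
      have e : fl (s - r) - fl s - fl (-r) = -(fl s - fl (s - r) - fl r) := by
        rw [fl_neg]; ring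
      rw [e, abs_neg]
      linarith
    · have h1 := dl_bound_pos (s := r - s) (t := s) (by linarith) hs
      rw [sub_add_cancel] at h1
      have e : fl (s - r) - fl s - fl (-r) = fl r - fl (r - s) - fl s := by
        rw [fl_neg, ← neg_sub r s, fl_neg]; ring
      rw [e]
      linarith
  rcases le_total 0 s with hs | hs <;> rcases le_total 0 t with ht | ht
  · rw [abs_of_nonneg hs, abs_of_nonneg ht]
    exact dl_bound_pos hs ht
  · rw [abs_of_nonneg hs, abs_of_nonpos ht]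
    have := key s (-t) hs (by linarith)
    rw [neg_neg, sub_neg_eq_add] at this
    exact this
  · rw [abs_of_nonpos hs, abs_of_nonneg ht]
    have := key t (-s) ht (by linarith)
    rw [neg_neg, sub_neg_eq_add] at this
    rw [add_comm s t, add_comm (-s) t]
    have e : fl (t + s) - fl s - fl t = fl (t + s) - fl t - fl s := by ring
    rw [e]
    exact this
  · rw [abs_of_nonpos hs, abs_of_nonpos ht]
    have h1 := dl_bound_pos (s := -s) (t := -t) (by linarith) (by linarith)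
    have e : fl (-s + -t) - fl (-s) - fl (-t) = -(fl (s + t) - fl s - fl t) := by
      rw [fl_neg, fl_neg, show -s + -t = -(s + t) by ring, fl_neg]; ring
    rw [e, abs_neg] at h1
    exact h1

/-! ### The data -/

theorem half_pos' (n : ℕ) : (0 : ℝ) < (1 / 2) ^ n := by positivity
theorem half_le (n : ℕ) : ((1 : ℝ) / 2) ^ n ≤ 1 := pow_le_one₀ (by norm_num) (by norm_num)

/-- The geometric sequence. -/
def geo : L := mkL (fun n => (1 / 2) ^ n) (by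
  simp_rw [abs_of_pos (half_pos' _)]
  exact summable_geometric_of_lt_one (by norm_num) (by norm_num))

theorem phi_bound (x : L) (n : ℕ) :
    |(1 / 2 : ℝ) ^ n * fl ((x : ∀ _ : ℕ, ℝ) n)| ≤ (1 / 2) ^ n * (1 + ‖x‖ ^ 2) := by
  rw [abs_mul, abs_of_pos (half_pos' n)]
  refine mul_le_mul_of_nonneg_left ((abs_fl_le _).trans ?_) (half_pos' n).le
  have := abs_le_norm x n
  have h2 : ((x : ∀ _ : ℕ, ℝ) n) ^ 2 ≤ ‖x‖ ^ 2 := by
    rw [← sq_abs]
    exact pow_le_pow_left₀ (abs_nonneg _) this 2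
  linarith

/-- The map `φ(x)_n = 2^{-n} x_n log |x_n|`. -/
def phi (x : L) : L := mkL (fun n => (1 / 2) ^ n * fl ((x : ∀ _ : ℕ, ℝ) n)) (by
  refine Summable.of_nonneg_of_le (fun n => abs_nonneg _) (phi_bound x) ?_
  exact (summable_geometric_of_lt_one (by norm_num) (by norm_num)).mul_right _)

theorem continuous_phi : Continuous phi := by
  refine continuous_L (H1 := fun x : L => (1 + ‖x‖ ^ 2) • geo) (H2 := fun _ => 0) (fun n => ?_) ?_
    continuous_const (fun x n => ?_)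
  · exact continuous_const.mul (continuous_fl.comp (continuous_coord n))
  · fun_prop
  · refine (phi_bound x n).trans ?_
    rw [lp.coeFn_smul, Pi.smul_apply, smul_eq_mul, lp.coeFn_zero]
    have h0 : (0 : ℝ) ≤ 1 + ‖x‖ ^ 2 := by positivity
    show _ ≤ |(1 + ‖x‖ ^ 2) * (1 / 2 : ℝ) ^ n| + |(0 : ℝ)|
    rw [abs_zero, add_zero, abs_mul, abs_of_nonneg h0, abs_of_pos (half_pos' n), mul_comm]

theorem incl_bound (y : L) (n : ℕ) :
    |(1 / 2 : ℝ) ^ n * (y : ∀ _ : ℕ, ℝ) n| ≤ |(y : ∀ _ : ℕ, ℝ) n| := by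
  rw [abs_mul, abs_of_pos (half_pos' n)]
  have := half_le n
  nlinarith [abs_nonneg ((y : ∀ _ : ℕ, ℝ) n)]

/-- The inclusion `y ↦ (2^{-n} y_n)`. -/
def incl : L →ₗ[ℝ] L where
  toFun y := mkL (fun n => (1 / 2) ^ n * (y : ∀ _ : ℕ, ℝ) n)
    (Summable.of_nonneg_of_le (fun n => abs_nonneg _) (incl_bound y) (summ y))
  map_add' x y := by
    apply lp.ext
    funext n
    show (1 / 2 : ℝ) ^ n * ((x : ∀ _ : ℕ, ℝ) n + (y : ∀ _ : ℕ, ℝ) n) =
      (1 / 2 : ℝ) ^ n * (x : ∀ _ : ℕ, ℝ) n + (1 / 2 : ℝ) ^ n * (y : ∀ _ : ℕ, ℝ) n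
    ring
  map_smul' c x := by
    apply lp.ext
    funext n
    show (1 / 2 : ℝ) ^ n * (c * (x : ∀ _ : ℕ, ℝ) n) = c * ((1 / 2 : ℝ) ^ n * (x : ∀ _ : ℕ, ℝ) n)
    ring

theorem incl_apply (y : L) (n : ℕ) :
    (incl y : ∀ _ : ℕ, ℝ) n = (1 / 2) ^ n * (y : ∀ _ : ℕ, ℝ) n := rfl

theorem mem_range_incl {z : L} {u : ℕ → ℝ} (hz : ∀ n, (z : ∀ _ : ℕ, ℝ) n = (1 / 2) ^ n * u n) :
    z ∈ LinearMap.range incl ↔ Summable fun n => |u n| := by
  constructor
  · rintro ⟨y, rfl⟩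
    refine (summ y).congr (fun n => ?_)
    have h1 := hz n
    rw [incl_apply] at h1
    rw [mul_left_cancel₀ (half_pos' n).ne' h1]
  · intro h
    refine ⟨mkL u h, ?_⟩
    apply lp.ext
    funext n
    rw [hz, incl_apply, mkL_apply]

/-- The counterexample. -/
def data : Data L L L where
  incl := incl
  incl_injective := by
    intro x y h
    apply lp.ext
    funext n
    have h1 : (incl x : ∀ _ : ℕ, ℝ) n = (incl y : ∀ _ : ℕ, ℝ) n := by rw [h]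
    rw [incl_apply, incl_apply] at h1
    exact mul_left_cancel₀ (half_pos' n).ne' h1
  norm_incl_le := by
    intro y
    rw [norm_eq, norm_eq]
    exact (summ _).tsum_le_tsum (incl_bound y) (summ y)
  phi := phi
  borel_phi := by
    intro U hU
    exact MeasurableSpace.measurableSet_generateFrom (hU.preimage continuous_phi)
  lin := by
    intro x y a b
    rw [mem_range_incl (u := fun n => fl (a * (x : ∀ _ : ℕ, ℝ) n + b * (y : ∀ _ : ℕ, ℝ) n) -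
      (a * fl ((x : ∀ _ : ℕ, ℝ) n) + b * fl ((y : ∀ _ : ℕ, ℝ) n)))]
    · have hs : Summable fun n => |a| * |(x : ∀ _ : ℕ, ℝ) n| + |b| * |(y : ∀ _ : ℕ, ℝ) n| +
          (|fl a| * |(x : ∀ _ : ℕ, ℝ) n| + |fl b| * |(y : ∀ _ : ℕ, ℝ) n|) :=
        (((summ x).mul_left _).add ((summ y).mul_left _)).add
          (((summ x).mul_left _).add ((summ y).mul_left _))
      refine Summable.of_nonneg_of_le (fun n => abs_nonneg _) (fun n => ?_) hs
      have e : fl (a * (x : ∀ _ : ℕ, ℝ) n + b * (y : ∀ _ : ℕ, ℝ) n) -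
          (a * fl ((x : ∀ _ : ℕ, ℝ) n) + b * fl ((y : ∀ _ : ℕ, ℝ) n)) =
          (fl (a * (x : ∀ _ : ℕ, ℝ) n + b * (y : ∀ _ : ℕ, ℝ) n) - fl (a * (x : ∀ _ : ℕ, ℝ) n) -
            fl (b * (y : ∀ _ : ℕ, ℝ) n)) + (fl a * (x : ∀ _ : ℕ, ℝ) n +
            fl b * (y : ∀ _ : ℕ, ℝ) n) := by
        rw [fl_mul, fl_mul]; ring
      rw [e]
      refine (abs_add_le _ _).trans (add_le_add ?_ ?_)
      · refine (dl_bound _ _).trans ?_
        rw [abs_mul, abs_mul]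
      · refine (abs_add_le _ _).trans ?_
        rw [abs_mul, abs_mul]
    · intro n
      show (1 / 2 : ℝ) ^ n * fl (a * (x : ∀ _ : ℕ, ℝ) n + b * (y : ∀ _ : ℕ, ℝ) n) -
        (a * ((1 / 2 : ℝ) ^ n * fl ((x : ∀ _ : ℕ, ℝ) n)) +
        b * ((1 / 2 : ℝ) ^ n * fl ((y : ∀ _ : ℕ, ℝ) n))) = _
      ring

end Q100.QL
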