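import Pool.Agent.Q100.KPDefs
import Pool.Agent.Q100.QL
import Pool.Agent.Q100.CoeMain

/-!
# The Kalton-Peck map is singular
-/

set_option autoImplicit false
open Filter Topology
open scoped ENNReal

noncomputable section

namespace Q100.KP

open Q100.QL (fl fl_zero fl_one fl_neg fl_mul dl_bound continuous_fl)
open Q100.Coe (nq nq_eq nq_add_le nq_mono nq_smul nq_nonneg le_nq exists_trunc)

/-- Coordinates. -/
def co (x : E2) (i : ℕ) : ℝ := (x : ∀ _ : ℕ, ℝ) i

theorem co_add (x y : E2) (i : ℕ) : co (x + y) i = co x i + co y i := rfl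
theorem co_sub (x y : E2) (i : ℕ) : co (x - y) i = co x i - co y i := rfl
theorem co_smul (c : ℝ) (x : E2) (i : ℕ) : co (c • x) i = c * co x i := rfl
theorem co_zero (i : ℕ) : co 0 i = 0 := rfl
theorem co_neg (x : E2) (i : ℕ) : co (-x) i = -co x i := rfl
theorem co_ext {x y : E2} (h : ∀ i, co x i = co y i) : x = y := by
  apply lp.ext
  funext i
  exact h i

theorem co_mem (x : E2) : Memℓp (co x) 2 := lp.memℓp x

theorem norm_co (x : E2) : nq 2 (co x) = ‖x‖ := nq_eq (co_mem x)

theorem co_sum {ι : Type*} (s : Finset ι) (f : ι → E2) (i : ℕ) :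
    co (∑ j ∈ s, f j) i = ∑ j ∈ s, co (f j) i := by
  unfold co
  rw [lp.coeFn_sum, Finset.sum_apply]

theorem abs_co_le (x : E2) (i : ℕ) : |co x i| ≤ ‖x‖ := by
  rw [← norm_co, ← Real.norm_eq_abs]
  exact le_nq (co_mem x) i

/-- Members of `ℓ₂` from sequences. -/
def mk2 (u : ℕ → ℝ) (h : Memℓp u 2) : E2 := ⟨u, h⟩

theorem co_mk2 (u : ℕ → ℝ) (h : Memℓp u 2) (i : ℕ) : co (mk2 u h) i = u i := rfl

theorem norm_mk2 (u : ℕ → ℝ) (h : Memℓp u 2) : ‖mk2 u h‖ = nq 2 u := (nq_eq h).symm

/-- The Kalton-Peck map, with values in the space of all sequences: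
`K(x)_i = x_i log (‖x‖ / |x_i|)`. -/
def K (x : E2) : ℕ → ℝ := fun i => co x i * Real.log ‖x‖ - fl (co x i)

theorem K_zero : K 0 = 0 := by
  funext i
  simp [K, co_zero, fl_zero]

theorem K_smul (c : ℝ) (x : E2) : K (c • x) = c • K x := by
  rcases eq_or_ne c 0 with rfl | hc
  · rw [zero_smul, zero_smul, K_zero]
  rcases eq_or_ne x 0 with rfl | hx
  · rw [smul_zero, K_zero, smul_zero]
  funext i
  show co (c • x) i * Real.log ‖c • x‖ - fl (co (c • x) i) = c * (co x i * Real.log ‖x‖ - fl (co x i))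
  rw [co_smul, fl_mul, norm_smul, Real.log_mul (norm_ne_zero_iff.2 hc) (norm_ne_zero_iff.2 hx),
    Real.norm_eq_abs, Real.log_abs]
  unfold fl
  ring

theorem nq2_add_le {u w : ℕ → ℝ} (hu : Memℓp u 2) (hw : Memℓp w 2) :
    nq 2 (u + w) ≤ nq 2 u + nq 2 w := nq_add_le hu hw

/-- A sequence dominated by a member of `ℓ₂`. -/
theorem dom2 {u : ℕ → ℝ} {x : E2} (h : ∀ i, |u i| ≤ |co x i|) : Memℓp u 2 ∧ nq 2 u ≤ ‖x‖ := by
  refine ⟨(co_mem x).mono' h, ?_⟩
  rw [← norm_co]
  exact nq_mono (co_mem x) h

/-- The absolute value in `ℓ₂`. -/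
def ab (x : E2) : E2 := mk2 (fun i => |co x i|) ((co_mem x).mono' (fun i => by
  rw [Real.norm_eq_abs, Real.norm_eq_abs, abs_abs]))

theorem co_ab (x : E2) (i : ℕ) : co (ab x) i = |co x i| := rfl

theorem norm_ab (x : E2) : ‖ab x‖ = ‖x‖ := by
  refine le_antisymm ?_ ?_
  · rw [← norm_co, ← norm_co]
    exact nq_mono (co_mem x) (fun i => by
      rw [Real.norm_eq_abs, Real.norm_eq_abs, co_ab, abs_abs])
  · rw [← norm_co, ← norm_co]
    exact nq_mono (co_mem _) (fun i => by
      rw [Real.norm_eq_abs, Real.norm_eq_abs, co_ab, abs_abs])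

theorem glog_bound {v : E2} {s : ℝ} (hs : 0 < s) (hv : ‖v‖ ≤ s) :
    ‖Real.log ‖v‖ • v - Real.log s • v‖ ≤ s := by
  rcases eq_or_ne v 0 with rfl | hne
  · simpa using hs.le
  have h0 : 0 < ‖v‖ := norm_pos_iff.2 hne
  rw [← sub_smul, norm_smul, Real.norm_eq_abs, ← Real.log_div h0.ne' hs.ne']
  have h1 : |Real.log (‖v‖ / s) * (‖v‖ / s)| < 1 :=
    Real.abs_log_mul_self_lt _ (div_pos h0 hs) ((div_le_one hs).2 hv)
  rw [abs_mul, abs_of_pos (div_pos h0 hs), mul_div_assoc', div_lt_iff₀ hs, one_mul] at h1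
  exact h1.le

/-- Quasi-additivity of the Kalton-Peck map. -/
theorem K_add (x y : E2) : Memℓp (K (x + y) - K x - K y) 2 ∧
    nq 2 (K (x + y) - K x - K y) ≤ 4 * (‖x‖ + ‖y‖) := by
  rcases eq_or_ne x 0 with rfl | hx
  · have : K (0 + y) - K 0 - K y = 0 := by rw [zero_add, K_zero]; simp
    rw [this]
    refine ⟨zero_memℓp, ?_⟩
    have h1 := norm_co 0
    have h2 : co 0 = (0 : ℕ → ℝ) := rfl
    rw [h2] at h1
    rw [h1, norm_zero]
    positivity
  have hs : 0 < ‖x‖ + ‖y‖ := add_pos_of_pos_of_nonneg (norm_pos_iff.2 hx) (norm_nonneg _)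
  set s := ‖x‖ + ‖y‖ with hs'
  set G : E2 := Real.log ‖x + y‖ • (x + y) - Real.log ‖x‖ • x - Real.log ‖y‖ • y with hG
  have hGn : ‖G‖ ≤ 3 * s := by
    have e : G = (Real.log ‖x + y‖ • (x + y) - Real.log s • (x + y)) -
        (Real.log ‖x‖ • x - Real.log s • x) - (Real.log ‖y‖ • y - Real.log s • y) := by
      rw [hG, smul_add (Real.log s)]
      abel
    rw [e]
    have h1 := glog_bound hs (norm_add_le x y)
    have h2 := glog_bound (v := x) hs (by rw [hs']; linarith [norm_nonneg y])
    have h3 := glog_bound (v := y) hs (by rw [hs']; linarith [norm_nonneg x])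
    calc _ ≤ ‖(Real.log ‖x + y‖ • (x + y) - Real.log s • (x + y)) -
        (Real.log ‖x‖ • x - Real.log s • x)‖ + ‖Real.log ‖y‖ • y - Real.log s • y‖ :=
          norm_sub_le _ _
      _ ≤ ‖Real.log ‖x + y‖ • (x + y) - Real.log s • (x + y)‖ +
        ‖Real.log ‖x‖ • x - Real.log s • x‖ + ‖Real.log ‖y‖ • y - Real.log s • y‖ := by
          gcongr
          exact norm_sub_le _ _
      _ ≤ 3 * s := by linarith
  have hd : ∀ i, |-(fl (co x i + co y i) - fl (co x i) - fl (co y i))| ≤
      |co (ab x + ab y) i| := by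
    intro i
    rw [abs_neg, co_add, co_ab, co_ab, abs_of_nonneg (add_nonneg (abs_nonneg (co x i))
      (abs_nonneg (co y i)))]
    exact dl_bound _ _
  obtain ⟨hd1, hd2⟩ := dom2 hd
  have e : K (x + y) - K x - K y = co G +
      (fun i => -(fl (co x i + co y i) - fl (co x i) - fl (co y i))) := by
    funext i
    show (co x i + co y i) * Real.log ‖x + y‖ - fl (co x i + co y i) -
      (co x i * Real.log ‖x‖ - fl (co x i)) - (co y i * Real.log ‖y‖ - fl (co y i)) =
      (Real.log ‖x + y‖ * (co x i + co y i) - Real.log ‖x‖ * co x i - Real.log ‖y‖ * co y i) +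
      -(fl (co x i + co y i) - fl (co x i) - fl (co y i))
    ring
  rw [e]
  refine ⟨(co_mem G).add hd1, (nq2_add_le (co_mem G) hd1).trans ?_⟩
  rw [norm_co]
  have h4 : ‖ab x + ab y‖ ≤ s := by
    refine (norm_add_le _ _).trans ?_
    rw [norm_ab, norm_ab]
  linarith

/-! ### The linear correction -/

/-- The subspace of square summable sequences. -/
def P2 : Submodule ℝ (ℕ → ℝ) where
  carrier := {u | Memℓp u 2}
  zero_mem' := zero_memℓp
  add_mem' := fun h1 h2 => Memℓp.add h1 h2
  smul_mem' := fun c _ h => Memℓp.const_smul h c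

/-- The linear map induced by `K` modulo `ℓ₂`. -/
def Kbar : E2 →ₗ[ℝ] ((ℕ → ℝ) ⧸ P2) where
  toFun x := P2.mkQ (K x)
  map_add' x y := by
    rw [← map_add, ← sub_eq_zero, ← map_sub, Submodule.mkQ_apply, Submodule.Quotient.mk_eq_zero,
      ← sub_sub]
    exact (K_add x y).1
  map_smul' c x := by
    rw [K_smul, map_smul]
    rfl

theorem exists_lin : ∃ Lam : E2 →ₗ[ℝ] (ℕ → ℝ), ∀ x, Memℓp (K x - Lam x) 2 := by
  obtain ⟨s, hs⟩ := P2.mkQ.exists_rightInverse_of_surjective (Submodule.range_mkQ P2)
  refine ⟨s.comp Kbar, fun x => ?_⟩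
  have h1 : P2.mkQ (K x - (s.comp Kbar) x) = 0 := by
    rw [map_sub, sub_eq_zero, LinearMap.comp_apply]
    have := LinearMap.congr_fun hs (Kbar x)
    rw [LinearMap.comp_apply, LinearMap.id_apply] at this
    rw [this]
    rfl
  rw [Submodule.mkQ_apply, Submodule.Quotient.mk_eq_zero] at h1
  exact h1

/-- The linear correction. -/
def Lam : E2 →ₗ[ℝ] (ℕ → ℝ) := exists_lin.choose

theorem Lam_spec (x : E2) : Memℓp (K x - Lam x) 2 := exists_lin.choose_spec x

/-- The Kalton-Peck map with values in `ℓ₂`. -/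
def Om (x : E2) : E2 := mk2 (K x - Lam x) (Lam_spec x)

theorem co_Om (x : E2) (i : ℕ) : co (Om x) i = K x i - Lam x i := rfl

theorem quasiLinear_Om : QuasiLinear Om := by
  refine ⟨fun c x => co_ext fun i => ?_, 4, fun x y => ?_⟩
  · rw [co_smul, co_Om, co_Om, K_smul, map_smul, Pi.smul_apply, Pi.smul_apply, smul_eq_mul,
      smul_eq_mul]
    ring
  · have e : co (Om (x + y) - Om x - Om y) = K (x + y) - K x - K y := by
      funext i
      show (K (x + y) i - Lam (x + y) i) - (K x i - Lam x i) - (K y i - Lam y i) =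
        K (x + y) i - K x i - K y i
      rw [map_add, Pi.add_apply]
      ring
    rw [← norm_co, e]
    exact (K_add x y).2

/-! ### Singularity -/

theorem dl_hom (s u : ℝ) : fl (s + s * u) - fl s - fl (s * u) = s * (fl (1 + u) - fl u) := by
  have h1 : s + s * u = s * (1 + u) := by ring
  rw [h1, fl_mul, fl_mul]
  ring

/-- The defect of additivity is small when one of the arguments is small. -/
theorem dl_small (l : ℝ) (hl : 0 < l) : ∃ c : ℝ, 0 ≤ c ∧ ∀ s t : ℝ,
    |fl (s + t) - fl s - fl t| ≤ l * (|s| + |t|) + c * min |s| |t| := by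
  have hcont : Tendsto (fun u : ℝ => fl (1 + u) - fl u) (𝓝 0) (𝓝 0) := by
    have h1 : Continuous fun u : ℝ => fl (1 + u) - fl u :=
      (continuous_fl.comp (continuous_const.add continuous_id)).sub continuous_fl
    have h2 := h1.tendsto 0
    rw [add_zero, fl_one, fl_zero, sub_zero] at h2
    exact h2
  obtain ⟨η, hη, hη1⟩ := Metric.tendsto_nhds_nhds.1 hcont l hl
  have key : ∀ s t : ℝ, |t| ≤ |s| →
      |fl (s + t) - fl s - fl t| ≤ l * (|s| + |t|) + (1 / η + 1) * min |s| |t| := by
    intro s t hts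
    rw [min_eq_right hts]
    rcases eq_or_ne s 0 with rfl | hs
    · have ht : t = 0 := by
        rw [abs_zero] at hts
        exact abs_nonpos_iff.1 hts
      subst ht
      simp [fl_zero]
    have hs0 : 0 < |s| := abs_pos.2 hs
    have hη' : 0 < 1 / η := by positivity
    by_cases hlt : |t| < η * |s|
    · have h1 : t = s * (t / s) := by field_simp
      have h2 : |t / s| < η := by
        rw [abs_div, div_lt_iff₀ hs0]
        exact hlt
      have h3 := hη1 (x := t / s) (by rw [Real.dist_eq, sub_zero]; exact h2)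
      rw [Real.dist_eq, sub_zero] at h3
      have h4 : |fl (s + t) - fl s - fl t| ≤ l * |s| := by
        rw [h1, dl_hom, abs_mul, mul_comm]
        exact mul_le_mul_of_nonneg_right h3.le hs0.le
      have h5 : 0 ≤ l * |t| := by positivity
      have h6 : 0 ≤ (1 / η + 1) * |t| := by positivity
      linarith
    · push Not at hlt
      have h1 : |s| ≤ 1 / η * |t| := by
        rw [div_mul_eq_mul_div, one_mul, le_div_iff₀ hη]
        linarith
      have h2 := dl_bound s t
      have h5 : 0 ≤ l * (|s| + |t|) := by positivity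
      linarith
  refine ⟨1 / η + 1, by positivity, fun s t => ?_⟩
  rcases le_total |t| |s| with h | h
  · exact key s t h
  · have h1 := key t s h
    rw [add_comm t s, min_comm, add_comm |t| |s|] at h1
    have h2 : fl (s + t) - fl s - fl t = fl (s + t) - fl t - fl s := by ring
    rw [h2]
    exact h1

/-- The overlap of two vectors. -/
def ov (x y : E2) : ℝ := nq 2 (fun i => min |co x i| |co y i|)

theorem ov_mem (x y : E2) : Memℓp (fun i => min |co x i| |co y i|) 2 :=
  (co_mem x).mono' (fun i => by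
    rw [Real.norm_eq_abs, Real.norm_eq_abs,
      abs_of_nonneg (le_min (abs_nonneg _) (abs_nonneg _))]
    exact min_le_left _ _)

/-- Almost disjoint orthonormal sequences in infinite-dimensional subspaces. -/
theorem exists_seq (W : Submodule ℝ E2) (hW : ¬ FiniteDimensional ℝ W) (ε : ℝ) (hε : 0 < ε)
    (n : ℕ) : ∃ w : ℕ → E2, (∀ k < n, w k ∈ W ∧ ‖w k‖ = 1) ∧
      ∀ j k, j < k → k < n → inner ℝ (w j) (w k) = 0 ∧ ov (w j) (w k) ≤ ε := by
  classical
  induction n with
  | zero => exact ⟨fun _ => 0, by simp, by omega⟩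
  | succ n ih =>
    obtain ⟨w, hw1, hw2⟩ := ih
    -- the tails
    have htail : ∀ j, ∃ N, nq 2 (fun i => if i < N then 0 else co (w j) i) < ε := by
      intro j
      refine exists_trunc (co_mem (w j)) ?_ hε
      have h1 := (lp.memℓp (w j)).summable (by simp)
      have h2 := h1.tendsto_atTop_zero
      have h3 : Tendsto (fun i => ‖co (w j) i‖ ^ 2) atTop (𝓝 0) := by
        refine h2.congr (fun i => ?_)
        show ‖co (w j) i‖ ^ (2 : ℝ≥0∞).toReal = _
        norm_num
      have h4 : Tendsto (fun i => Real.sqrt (‖co (w j) i‖ ^ 2)) atTop (𝓝 0) := by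
        have := h3.sqrt
        rwa [Real.sqrt_zero] at this
      rw [tendsto_zero_iff_norm_tendsto_zero]
      refine h4.congr (fun i => ?_)
      rw [Real.sqrt_sq (norm_nonneg _)]
    choose N hN using htail
    set M := (Finset.range n).sup N with hM
    -- a new vector
    let Φ : W →ₗ[ℝ] (Fin M → ℝ) × (Fin n → ℝ) :=
      { toFun := fun v => (fun i => co v.1 i, fun j => inner ℝ (w j) v.1)
        map_add' := fun u v => by
          refine Prod.ext ?_ ?_
          · funext i; rfl
          · funext j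
            exact inner_add_right _ _ _
        map_smul' := fun c v => by
          refine Prod.ext ?_ ?_
          · funext i; rfl
          · funext j
            exact inner_smul_right _ _ _ }
    have hker : ∃ v : W, v ≠ 0 ∧ Φ v = 0 := by
      by_contra hcon
      push Not at hcon
      apply hW
      have hinj : Function.Injective Φ := by
        rw [← LinearMap.ker_eq_bot, LinearMap.ker_eq_bot']
        intro v hv
        by_contra h
        exact hcon v h hv
      exact FiniteDimensional.of_injective Φ hinj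
    obtain ⟨v, hv0, hv⟩ := hker
    have hv0' : (v.1 : E2) ≠ 0 := fun h => hv0 (Subtype.ext h)
    have hvn : 0 < ‖v.1‖ := norm_pos_iff.2 hv0'
    set z : E2 := ‖v.1‖⁻¹ • v.1 with hz
    have hz1 : ‖z‖ = 1 := by
      rw [hz, norm_smul, norm_inv, norm_norm, inv_mul_cancel₀ hvn.ne']
    have hzW : z ∈ W := W.smul_mem _ v.2
    have hz0 : ∀ i < M, co z i = 0 := by
      intro i hi
      have h1 := congrFun (congrArg Prod.fst hv) ⟨i, hi⟩
      have h2 : co v.1 i = 0 := h1
      rw [hz, co_smul, h2, mul_zero]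
    have hzo : ∀ j < n, inner ℝ (w j) z = 0 := by
      intro j hj
      have h1 := congrFun (congrArg Prod.snd hv) ⟨j, hj⟩
      have h2 : inner ℝ (w j) v.1 = 0 := h1
      rw [hz, inner_smul_right, h2, mul_zero]
    refine ⟨fun k => if k = n then z else w k, fun k hk => ?_, fun j k hjk hk => ?_⟩
    · by_cases h : k = n
      · simp only [h, if_true]
        exact ⟨hzW, hz1⟩
      · simp only [h, if_false]
        exact hw1 k (by omega)
    · have hj : j ≠ n := by omega
      by_cases h : k = n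
      · subst h
        simp only [hj, if_true, if_false]
        refine ⟨hzo j hjk, le_trans ?_ (hN j).le⟩
        have hNM : N j ≤ M := Finset.le_sup (f := N) (Finset.mem_range.2 hjk)
        refine nq_mono ((co_mem (w j)).mono' (fun i => by split_ifs <;> simp)) (fun i => ?_)
        rw [Real.norm_eq_abs, Real.norm_eq_abs,
          abs_of_nonneg (le_min (abs_nonneg _) (abs_nonneg _))]
        by_cases hi : i < N j
        · rw [hz0 i (by omega), abs_zero, min_eq_right (abs_nonneg _)]
          exact abs_nonneg _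
        · rw [if_neg hi]
          exact min_le_left _ _
      · simp only [hj, h, if_false]
        exact hw2 j k hjk (by omega)

/-- Signs with small sums. -/
theorem exists_signs (v : ℕ → E2) (n : ℕ) : ∃ σ : ℕ → ℝ, (∀ j, σ j = 1 ∨ σ j = -1) ∧
    ‖∑ j ∈ Finset.range n, σ j • v j‖ ^ 2 ≤ ∑ j ∈ Finset.range n, ‖v j‖ ^ 2 := by
  classical
  induction n with
  | zero => exact ⟨fun _ => 1, fun _ => Or.inl rfl, by simp⟩
  | succ n ih =>
    obtain ⟨σ, hσ, hs⟩ := ih
    set s := ∑ j ∈ Finset.range n, σ j • v j with hs'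
    have hpar : ‖s + v n‖ ^ 2 + ‖s - v n‖ ^ 2 = 2 * (‖s‖ ^ 2 + ‖v n‖ ^ 2) := by
      have := parallelogram_law_with_norm ℝ s (v n)
      nlinarith
    have hcongr : ∀ (τ : ℝ), ∑ j ∈ Finset.range n, (if j = n then τ else σ j) • v j = s := by
      intro τ
      refine Finset.sum_congr rfl (fun j hj => ?_)
      have : j ≠ n := by
        have := Finset.mem_range.1 hj
        omega
      rw [if_neg this]
    by_cases h : ‖s + v n‖ ^ 2 ≤ ‖s‖ ^ 2 + ‖v n‖ ^ 2
    · refine ⟨fun j => if j = n then 1 else σ j, fun j => ?_, ?_⟩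
      · dsimp only
        split_ifs
        · exact Or.inl rfl
        · exact hσ j
      · rw [Finset.sum_range_succ, Finset.sum_range_succ]
        dsimp only
        rw [hcongr, if_pos rfl, one_smul]
        linarith
    · refine ⟨fun j => if j = n then -1 else σ j, fun j => ?_, ?_⟩
      · dsimp only
        split_ifs
        · exact Or.inr rfl
        · exact hσ j
      · rw [Finset.sum_range_succ, Finset.sum_range_succ]
        dsimp only
        rw [hcongr, if_pos rfl, neg_one_smul, ← sub_eq_add_neg]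
        linarith

/-- The entropy defect of almost disjoint vectors is small. -/
theorem defect (l c ε : ℝ) (hl : 0 < l) (hc : 0 ≤ c) (hε : 0 ≤ ε)
    (hlc : ∀ s t : ℝ, |fl (s + t) - fl s - fl t| ≤ l * (|s| + |t|) + c * min |s| |t|)
    (y : ℕ → E2) (n : ℕ) (hy : ∀ j < n, ‖y j‖ ≤ 1)
    (hov : ∀ j k, j < k → k < n → ov (y j) (y k) ≤ ε) (m : ℕ) (hm : m ≤ n) :
    Memℓp (fun i => fl (∑ j ∈ Finset.range m, co (y j) i) -
      ∑ j ∈ Finset.range m, fl (co (y j) i)) 2 ∧
    nq 2 (fun i => fl (∑ j ∈ Finset.range m, co (y j) i) -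
      ∑ j ∈ Finset.range m, fl (co (y j) i)) ≤ m * (l * (n + 1) + c * (n * ε)) := by
  classical
  induction m with
  | zero =>
    have e : (fun i => fl (∑ j ∈ Finset.range 0, co (y j) i) -
        ∑ j ∈ Finset.range 0, fl (co (y j) i)) = (co 0 : ℕ → ℝ) := by
      funext i
      simp [fl_zero, co_zero]
    rw [e]
    refine ⟨co_mem 0, ?_⟩
    rw [norm_co]
    simp
  | succ m ih =>
    obtain ⟨ih1, ih2⟩ := ih (by omega)
    -- the new term
    set Y : E2 := ∑ j ∈ Finset.range m, y j with hY
    have hYc : ∀ i, co Y i = ∑ j ∈ Finset.range m, co (y j) i := fun i => co_sum _ _ i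
    have hYn : ‖Y‖ ≤ n := by
      calc ‖Y‖ ≤ ∑ j ∈ Finset.range m, ‖y j‖ := norm_sum_le _ _
        _ ≤ ∑ j ∈ Finset.range m, (1 : ℝ) := Finset.sum_le_sum fun j hj =>
            hy j (by have := Finset.mem_range.1 hj; omega)
        _ = m := by simp
        _ ≤ n := by exact_mod_cast (by omega : m ≤ n)
    set ovs : ℕ → E2 := fun j => mk2 _ (ov_mem (y j) (y m)) with hovs
    have hovn : ∀ j < m, ‖ovs j‖ ≤ ε := by
      intro j hj
      rw [hovs]
      simp only
      rw [norm_mk2]
      exact hov j m hj (by omega)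
    set B : E2 := l • (ab Y + ab (y m)) + c • ∑ j ∈ Finset.range m, ovs j with hB
    have hBn : ‖B‖ ≤ l * (n + 1) + c * (n * ε) := by
      have h1 : ‖l • (ab Y + ab (y m))‖ ≤ l * (n + 1) := by
        rw [norm_smul, Real.norm_eq_abs, abs_of_pos hl]
        refine mul_le_mul_of_nonneg_left ((norm_add_le _ _).trans ?_) hl.le
        rw [norm_ab, norm_ab]
        exact add_le_add hYn (hy m (by omega))
      have h2 : ‖c • ∑ j ∈ Finset.range m, ovs j‖ ≤ c * (n * ε) := by
        rw [norm_smul, Real.norm_eq_abs, abs_of_nonneg hc]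
        refine mul_le_mul_of_nonneg_left ?_ hc
        calc ‖∑ j ∈ Finset.range m, ovs j‖ ≤ ∑ j ∈ Finset.range m, ‖ovs j‖ := norm_sum_le _ _
          _ ≤ ∑ j ∈ Finset.range m, ε := Finset.sum_le_sum fun j hj =>
              hovn j (Finset.mem_range.1 hj)
          _ = m * ε := by rw [Finset.sum_const, Finset.card_range, nsmul_eq_mul]
          _ ≤ n * ε := by
              exact mul_le_mul_of_nonneg_right (by exact_mod_cast (by omega : m ≤ n)) hε
      exact (norm_add_le _ _).trans (add_le_add h1 h2)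
    have hdom : ∀ i, |fl (co Y i + co (y m) i) - fl (co Y i) - fl (co (y m) i)| ≤ |co B i| := by
      intro i
      refine (hlc _ _).trans (le_trans ?_ (le_abs_self _))
      rw [hB, co_add, co_smul, co_add, co_ab, co_ab, co_smul, co_sum (Finset.range m) ovs]
      refine add_le_add le_rfl (mul_le_mul_of_nonneg_left ?_ hc)
      have h1 : |co Y i| ≤ ∑ j ∈ Finset.range m, |co (y j) i| := by
        rw [hYc]
        exact Finset.abs_sum_le_sum_abs _ _
      refine (min_le_min_right _ h1).trans ?_
      -- `min (∑ a_j) b ≤ ∑ min a_j b`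
      have h2 : ∀ (s : Finset ℕ) (a : ℕ → ℝ) (b : ℝ), (∀ j, 0 ≤ a j) → 0 ≤ b →
          min (∑ j ∈ s, a j) b ≤ ∑ j ∈ s, min (a j) b := by
        intro s a b ha hb
        induction s using Finset.induction_on with
        | empty => simp [hb]
        | insert j s hj ih =>
          rw [Finset.sum_insert hj, Finset.sum_insert hj]
          have h3 : 0 ≤ ∑ j ∈ s, a j := Finset.sum_nonneg fun j _ => ha j
          have h4 : min (a j + ∑ j ∈ s, a j) b ≤ min (a j) b + min (∑ j ∈ s, a j) b := by
            rcases le_total (a j) b with h5 | h5 <;>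
              rcases le_total (∑ j ∈ s, a j) b with h6 | h6 <;>
              simp only [min_eq_left, min_eq_right, h5, h6]
            · exact min_le_left _ _
            · exact (min_le_right _ _).trans (by linarith [ha j])
            · exact (min_le_right _ _).trans (by linarith)
            · exact (min_le_right _ _).trans (by linarith)
          linarith
      exact h2 _ _ _ (fun j => abs_nonneg _) (abs_nonneg _)
    obtain ⟨hd1, hd2⟩ := dom2 hdom
    have e : (fun i => fl (∑ j ∈ Finset.range (m + 1), co (y j) i) -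
        ∑ j ∈ Finset.range (m + 1), fl (co (y j) i)) =
        (fun i => fl (∑ j ∈ Finset.range m, co (y j) i) -
        ∑ j ∈ Finset.range m, fl (co (y j) i)) +
        (fun i => fl (co Y i + co (y m) i) - fl (co Y i) - fl (co (y m) i)) := by
      funext i
      rw [Pi.add_apply, Finset.sum_range_succ, Finset.sum_range_succ, ← hYc]
      ring
    rw [e]
    refine ⟨ih1.add hd1, (nq2_add_le ih1 hd1).trans ?_⟩
    push_cast
    linarith

end Q100.KP
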