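import Mathlib

/-!
# Quasi-linear maps on `ℓ₂`: definitions
-/

set_option autoImplicit false
open Filter Topology

noncomputable section

namespace Q100.KP

/-- The real Hilbert space `ℓ₂`. -/
abbrev E2 : Type := lp (fun _ : ℕ => ℝ) 2

/-- Quasi-linear maps on `ℓ₂`: homogeneous maps with
`‖Ω(x+y) - Ω(x) - Ω(y)‖ ≤ Q (‖x‖ + ‖y‖)`. -/
structure QuasiLinear (Om : E2 → E2) : Prop where
  homog : ∀ (c : ℝ) (x : E2), Om (c • x) = c • Om x
  quasi : ∃ Q : ℝ, ∀ x y : E2, ‖Om (x + y) - Om x - Om y‖ ≤ Q * (‖x‖ + ‖y‖)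

/-- A map is trivial on a subspace `W` if it is at finite distance from a linear map on `W`. -/
def TrivialOn (W : Submodule ℝ E2) (Phi : E2 → E2) : Prop :=
  ∃ (L : W →ₗ[ℝ] E2) (C : ℝ), 0 ≤ C ∧ ∀ x : W, ‖Phi x - L x‖ ≤ C * ‖x‖

/-- Singular maps: the restriction to every closed infinite-dimensional subspace is not
trivial. -/
def Singular (Om : E2 → E2) : Prop :=
  ∀ W : Submodule ℝ E2, IsClosed (W : Set E2) → ¬ FiniteDimensional ℝ W → ¬ TrivialOn W Om

/-- The pair `(T, U)` is compatible with `Ω`: the map `Ω U - T Ω` is trivial on `ℓ₂`. -/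
def Compatible (Om : E2 → E2) (T U : E2 →L[ℝ] E2) : Prop :=
  TrivialOn ⊤ (fun x => Om (U x) - T (Om x))

end Q100.KP
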