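import Pool.Agent.Q100.KP

/-!
# A singular quasi-linear map with a compatible pair whose difference is not compact
-/

set_option autoImplicit false
open Filter Topology
open scoped ENNReal

noncomputable section

namespace Q100.KP

open Q100.QL (fl fl_zero fl_one fl_neg fl_mul dl_bound continuous_fl)
open Q100.Coe (nq nq_eq nq_add_le nq_mono nq_smul nq_nonneg le_nq exists_trunc)

/-- The Kalton-Peck map is not trivial on any infinite-dimensional subspace. -/
theorem not_trivial (W : Submodule ℝ E2) (hW : ¬ FiniteDimensional ℝ W) : ¬ TrivialOn W Om := by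
  classical
  rintro ⟨L, C, hC0, hL⟩
  obtain ⟨n, hn⟩ := exists_nat_gt (Real.exp (2 * (2 * C + 1)))
  have hn0 : (0 : ℝ) < n := (Real.exp_pos _).trans hn
  have hlog : 2 * (2 * C + 1) < Real.log n := by
    rw [Real.lt_log_iff_exp_lt hn0]
    exact hn
  have hn1 : (1 : ℝ) ≤ n := by
    have : 0 < n := by exact_mod_cast hn0
    exact_mod_cast this
  set a : ℝ := 1 / Real.sqrt n with ha
  have hsq : 0 < Real.sqrt n := Real.sqrt_pos.2 hn0
  have ha0 : 0 < a := by positivity
  have ha1 : a ≤ 1 := by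
    rw [ha, div_le_one hsq, Real.one_le_sqrt]
    exact hn1
  have ha2 : n * a ^ 2 = 1 := by
    rw [ha, div_pow, Real.sq_sqrt hn0.le]
    field_simp
  have hloga : Real.log a = -(Real.log n / 2) := by
    rw [ha, Real.log_div one_ne_zero hsq.ne', Real.log_one, Real.log_sqrt hn0.le]
    ring
  -- the parameters
  set l : ℝ := 1 / (2 * (n + 1) ^ 2) with hl
  have hl0 : 0 < l := by positivity
  obtain ⟨c, hc0, hc⟩ := dl_small l hl0
  set ε : ℝ := 1 / (2 * (c + 1) * (n + 1) ^ 2) with hε
  have hε0 : 0 < ε := by positivity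
  have hsmall : (n : ℝ) * (l * (n + 1) + c * (n * ε)) ≤ 1 := by
    have h1 : l * (2 * (n + 1) ^ 2) = 1 := by rw [hl]; field_simp
    have h2 : ε * (2 * (c + 1) * (n + 1) ^ 2) = 1 := by rw [hε]; field_simp
    have h3 : (n : ℝ) * (l * (n + 1)) ≤ 1 / 2 := by nlinarith
    have h4 : (n : ℝ) * (c * (n * ε)) ≤ 1 / 2 := by
      have h5 : c * ε * (n + 1 : ℝ) ^ 2 ≤ 1 / 2 := by nlinarith [mul_nonneg hε0.le (sq_nonneg ((n : ℝ) + 1))]
      have h6 : (n : ℝ) * (c * (n * ε)) = c * ε * n ^ 2 := by ring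
      have h7 : c * ε * (n : ℝ) ^ 2 ≤ c * ε * (n + 1 : ℝ) ^ 2 :=
        mul_le_mul_of_nonneg_left (by nlinarith) (mul_nonneg hc0 hε0.le)
      rw [h6]
      linarith
    nlinarith
  obtain ⟨w, hw1, hw2⟩ := exists_seq W hW ε hε0 n
  set u : ℕ → W := fun j => if h : j < n then ⟨w j, (hw1 j h).1⟩ else 0 with hu
  have huw : ∀ j < n, (u j : E2) = w j := by
    intro j hj
    rw [hu]
    simp only
    rw [dif_pos hj]
  -- the signs
  set v : ℕ → E2 := fun j => Om (u j) - L (u j) with hv
  have hvC : ∀ j < n, ‖v j‖ ≤ C := by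
    intro j hj
    have h1 := hL (u j)
    rw [Submodule.coe_norm, huw j hj, (hw1 j hj).2, mul_one, ← huw j hj] at h1
    exact h1
  obtain ⟨σ, hσ, hσs⟩ := exists_signs v n
  have hsig : ∀ j, |σ j| = 1 := fun j => by
    rcases hσ j with h | h <;> rw [h] <;> simp
  have hS : ‖∑ j ∈ Finset.range n, (σ j * a) • v j‖ ≤ C := by
    have h1 : ∑ j ∈ Finset.range n, (σ j * a) • v j = a • ∑ j ∈ Finset.range n, σ j • v j := by
      rw [Finset.smul_sum]
      refine Finset.sum_congr rfl (fun j _ => ?_)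
      rw [smul_smul, mul_comm]
    have h2 : ‖∑ j ∈ Finset.range n, σ j • v j‖ ^ 2 ≤ n * C ^ 2 := by
      refine hσs.trans ?_
      calc ∑ j ∈ Finset.range n, ‖v j‖ ^ 2 ≤ ∑ j ∈ Finset.range n, C ^ 2 :=
            Finset.sum_le_sum fun j hj =>
              pow_le_pow_left₀ (norm_nonneg _) (hvC j (Finset.mem_range.1 hj)) 2
        _ = n * C ^ 2 := by rw [Finset.sum_const, Finset.card_range, nsmul_eq_mul]
    rw [h1, norm_smul, Real.norm_eq_abs, abs_of_pos ha0]
    refine abs_le_of_sq_le_sq' ?_ hC0 |>.2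
    rw [mul_pow]
    calc a ^ 2 * ‖∑ j ∈ Finset.range n, σ j • v j‖ ^ 2 ≤ a ^ 2 * (n * C ^ 2) :=
          mul_le_mul_of_nonneg_left h2 (sq_nonneg a)
      _ = (n * a ^ 2) * C ^ 2 := by ring
      _ = C ^ 2 := by rw [ha2, one_mul]
  -- the vectors
  set y : ℕ → E2 := fun j => (σ j * a) • (u j : E2) with hy
  set X : W := ∑ j ∈ Finset.range n, (σ j * a) • u j with hX
  have hXc : (X : E2) = ∑ j ∈ Finset.range n, y j := by
    rw [hX]
    exact map_sum W.subtype _ _
  have hyn : ∀ j < n, ‖y j‖ = a := by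
    intro j hj
    rw [hy]
    simp only
    rw [norm_smul, huw j hj, (hw1 j hj).2, mul_one, Real.norm_eq_abs, abs_mul, hsig, one_mul,
      abs_of_pos ha0]
  have hyo : ∀ j k, j < k → k < n → inner ℝ (y j) (y k) = 0 := by
    intro j k hjk hk
    rw [hy]
    simp only
    rw [inner_smul_left, inner_smul_right, huw j (by omega), huw k hk, (hw2 j k hjk hk).1,
      mul_zero, mul_zero]
  have hXn : ∀ m ≤ n, ‖∑ j ∈ Finset.range m, y j‖ ^ 2 = m * a ^ 2 := by
    intro m
    induction m with
    | zero => intro _; simp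
    | succ m ih =>
      intro hm
      have h1 : inner ℝ (∑ j ∈ Finset.range m, y j) (y m) = 0 := by
        rw [sum_inner]
        exact Finset.sum_eq_zero fun j hj => hyo j m (Finset.mem_range.1 hj) (by omega)
      rw [Finset.sum_range_succ, sq, norm_add_sq_eq_norm_sq_add_norm_sq_real h1, ← sq, ← sq,
        ih (by omega), hyn m (by omega)]
      push_cast
      ring
  have hX1 : ‖(X : E2)‖ = 1 := by
    have h1 := hXn n le_rfl
    rw [← hXc, ha2] at h1
    exact (sq_eq_sq₀ (norm_nonneg _) zero_le_one).1 (by rw [h1, one_pow])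
  have hyov : ∀ j k, j < k → k < n → ov (y j) (y k) ≤ ε := by
    intro j k hjk hk
    refine le_trans ?_ (hw2 j k hjk hk).2
    refine nq_mono (ov_mem _ _) (fun i => ?_)
    rw [Real.norm_eq_abs, Real.norm_eq_abs,
      abs_of_nonneg (show 0 ≤ min |co (y j) i| |co (y k) i| from
        le_min (abs_nonneg _) (abs_nonneg _)),
      abs_of_nonneg (show 0 ≤ min |co (w j) i| |co (w k) i| from
        le_min (abs_nonneg _) (abs_nonneg _))]
    have h1 : ∀ j < n, |co (y j) i| ≤ |co (w j) i| := by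
      intro j hj
      rw [hy]
      simp only
      rw [co_smul, huw j hj, abs_mul, abs_mul, hsig, one_mul, abs_of_pos ha0]
      have := abs_nonneg (co (w j) i)
      nlinarith
    exact min_le_min (h1 j (by omega)) (h1 k hk)
  obtain ⟨hE1, hE2⟩ := defect l c ε hl0 hc0 hε0.le hc y n (fun j hj => by rw [hyn j hj]; exact ha1)
    hyov n le_rfl
  set Ev : E2 := mk2 _ hE1 with hEv
  have hEn : ‖Ev‖ ≤ 1 := by
    rw [hEv, norm_mk2]
    exact hE2.trans hsmall
  -- the two expressions
  set D : E2 := Om (X : E2) - ∑ j ∈ Finset.range n, (σ j * a) • Om (u j : E2) with hD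
  have hD1 : ‖D‖ ≤ 2 * C := by
    have h1 : D = (Om (X : E2) - L X) - ∑ j ∈ Finset.range n, (σ j * a) • v j := by
      have h2 : L X = ∑ j ∈ Finset.range n, (σ j * a) • L (u j) := by
        rw [hX, map_sum]
        exact Finset.sum_congr rfl (fun j _ => map_smul _ _ _)
      rw [h2, hD, hv]
      simp only [smul_sub, Finset.sum_sub_distrib]
      abel
    rw [h1]
    have h2 := hL X
    rw [Submodule.coe_norm, hX1, mul_one] at h2
    calc _ ≤ ‖Om (X : E2) - L X‖ + ‖∑ j ∈ Finset.range n, (σ j * a) • v j‖ := norm_sub_le _ _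
      _ ≤ 2 * C := by linarith
  have hD2 : D = (-Real.log a) • (X : E2) - Ev := by
    refine co_ext fun i => ?_
    have hlam : Lam (X : E2) i = ∑ j ∈ Finset.range n, (σ j * a) * Lam (u j : E2) i := by
      have : (X : E2) = ∑ j ∈ Finset.range n, (σ j * a) • (u j : E2) := hXc
      rw [this, map_sum, Finset.sum_apply]
      refine Finset.sum_congr rfl (fun j _ => ?_)
      rw [map_smul, Pi.smul_apply, smul_eq_mul]
    have hK1 : K (X : E2) i = -fl (co (X : E2) i) := by
      rw [K, hX1, Real.log_one]; ring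
    have hK2 : ∀ j ∈ Finset.range n, K (u j : E2) i = -fl (co (u j : E2) i) := by
      intro j hj
      rw [K, huw j (Finset.mem_range.1 hj), (hw1 j (Finset.mem_range.1 hj)).2, Real.log_one]
      ring
    have hco : co (X : E2) i = ∑ j ∈ Finset.range n, co (y j) i := by
      rw [hXc, co_sum]
    have hfl : ∀ j, (σ j * a) * fl (co (u j : E2) i) = fl (co (y j) i) -
        Real.log a * co (y j) i := by
      intro j
      have h1 : co (y j) i = (σ j * a) * co (u j : E2) i := rfl
      have h2 : fl (σ j * a) = (σ j * a) * Real.log a := by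
        unfold fl
        rw [Real.log_mul (by rcases hσ j with h | h <;> rw [h] <;> norm_num) ha0.ne']
        have : Real.log (σ j) = 0 := by
          rcases hσ j with h | h <;> rw [h] <;> simp
        rw [this, zero_add]
      rw [h1, fl_mul, h2]
      ring
    rw [hD, co_sub, co_sub, co_smul, co_sum, co_Om, hlam, hK1, hEv, co_mk2]
    simp_rw [co_smul, co_Om]
    have h1 : ∑ j ∈ Finset.range n, (σ j * a) * (K (u j : E2) i - Lam (u j : E2) i) =
        -∑ j ∈ Finset.range n, fl (co (y j) i) + Real.log a * co (X : E2) i -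
        ∑ j ∈ Finset.range n, (σ j * a) * Lam (u j : E2) i := by
      rw [hco, Finset.mul_sum, ← Finset.sum_neg_distrib, ← Finset.sum_add_distrib,
        ← Finset.sum_sub_distrib]
      refine Finset.sum_congr rfl (fun j hj => ?_)
      rw [hK2 j hj]
      have := hfl j
      linarith
    rw [h1, ← hco]
    ring
  have hfin : -Real.log a ≤ ‖D‖ + ‖Ev‖ := by
    have h1 : (-Real.log a) • (X : E2) = D + Ev := by rw [hD2]; abel
    have h2 : ‖(-Real.log a) • (X : E2)‖ ≤ ‖D‖ + ‖Ev‖ := by rw [h1]; exact norm_add_le _ _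
    rw [norm_smul, hX1, mul_one] at h2
    exact (Real.le_norm_self _).trans h2
  rw [hloga] at hfin
  linarith

/-! ### The symmetries -/

theorem summ_sq (x : E2) : Summable fun i => (co x i) ^ 2 := by
  have h1 := (lp.memℓp x).summable (by simp)
  refine h1.congr (fun i => ?_)
  show ‖co x i‖ ^ (2 : ℝ≥0∞).toReal = _
  norm_num

theorem norm_sq (x : E2) : ‖x‖ ^ 2 = ∑' i, (co x i) ^ 2 := by
  have h1 := lp.norm_rpow_eq_tsum (by simp : 0 < (2 : ℝ≥0∞).toReal) x
  have h2 : ∀ i, ‖(x : ∀ _ : ℕ, ℝ) i‖ ^ (2 : ℝ≥0∞).toReal = (co x i) ^ 2 := by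
    intro i
    show ‖co x i‖ ^ (2 : ℝ≥0∞).toReal = _
    norm_num
  simp_rw [h2] at h1
  rw [← h1]
  norm_num

theorem mem_of_sq {u : ℕ → ℝ} (h : Summable fun i => (u i) ^ 2) : Memℓp u 2 := by
  refine memℓp_gen ?_
  refine h.congr (fun i => ?_)
  norm_num

theorem norm_eq_of_sq {x y : E2} (h : ∑' i, (co x i) ^ 2 = ∑' i, (co y i) ^ 2) : ‖x‖ = ‖y‖ := by
  have h1 : ‖x‖ ^ 2 = ‖y‖ ^ 2 := by rw [norm_sq, norm_sq, h]
  exact (sq_eq_sq₀ (norm_nonneg _) (norm_nonneg _)).1 h1

/-- The signs `(-1)^i`. -/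
def sgn (i : ℕ) : ℝ := (-1) ^ i

theorem sgn_sq (i : ℕ) : sgn i * sgn i = 1 := by
  unfold sgn
  rw [← mul_pow]
  norm_num

theorem sgn_cases (i : ℕ) : sgn i = 1 ∨ sgn i = -1 := neg_one_pow_eq_or ℝ i

/-- The permutation exchanging `2k` and `2k+1`. -/
def sw (i : ℕ) : ℕ := if Even i then i + 1 else i - 1

theorem sw_sw (i : ℕ) : sw (sw i) = i := by
  unfold sw
  by_cases h : Even i
  · rw [if_pos h, if_neg (by rw [Nat.not_even_iff_odd]; exact h.add_one)]
    omega
  · rw [if_neg h]
    have h1 : Odd i := Nat.not_even_iff_odd.1 h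
    have h2 : Even (i - 1) := by
      obtain ⟨k, rfl⟩ := h1
      exact ⟨k, by omega⟩
    rw [if_pos h2]
    obtain ⟨k, rfl⟩ := h1
    omega

theorem sgn_sw (i : ℕ) : sgn (sw i) = -sgn i := by
  unfold sgn sw
  by_cases h : Even i
  · rw [if_pos h, pow_succ]
    ring
  · rw [if_neg h]
    obtain ⟨k, rfl⟩ := Nat.not_even_iff_odd.1 h
    rw [Nat.add_sub_cancel, pow_succ]
    ring

/-- The permutation as an equivalence. -/
def swE : ℕ ≃ ℕ := ⟨sw, sw, sw_sw, sw_sw⟩

theorem swap_mem (x : E2) : Summable fun i => (co x (sw i)) ^ 2 :=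
  (Equiv.summable_iff swE (f := fun i => (co x i) ^ 2)).2 (summ_sq x)

theorem diag_mem (x : E2) : Summable fun i => (sgn i * co x i) ^ 2 :=
  (summ_sq x).congr (fun i => by
    rw [mul_pow, sq (sgn i), sgn_sq, one_mul])

/-- The isometry exchanging the coordinates `2k` and `2k+1`, as a linear map. -/
def gamL : E2 →ₗ[ℝ] E2 where
  toFun x := mk2 (fun i => co x (sw i)) (mem_of_sq (swap_mem x))
  map_add' x y := co_ext fun i => rfl
  map_smul' c x := co_ext fun i => rfl

theorem co_gamL (x : E2) (i : ℕ) : co (gamL x) i = co x (sw i) := rfl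

theorem norm_gamL (x : E2) : ‖gamL x‖ = ‖x‖ := by
  refine norm_eq_of_sq ?_
  exact Equiv.tsum_eq swE (fun i => (co x i) ^ 2)

theorem gamL_gamL (x : E2) : gamL (gamL x) = x :=
  co_ext fun i => by rw [co_gamL, co_gamL, sw_sw]

/-- The diagonal isometry with entries `(-1)^i`, as a linear map. -/
def diaL : E2 →ₗ[ℝ] E2 where
  toFun x := mk2 (fun i => sgn i * co x i) (mem_of_sq (diag_mem x))
  map_add' x y := co_ext fun i => by
    show sgn i * (co x i + co y i) = sgn i * co x i + sgn i * co y i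
    ring
  map_smul' c x := co_ext fun i => by
    show sgn i * (c * co x i) = c * (sgn i * co x i)
    ring

theorem co_diaL (x : E2) (i : ℕ) : co (diaL x) i = sgn i * co x i := rfl

theorem norm_diaL (x : E2) : ‖diaL x‖ = ‖x‖ := by
  refine norm_eq_of_sq (tsum_congr fun i => ?_)
  rw [co_diaL, mul_pow, sq (sgn i), sgn_sq, one_mul]

theorem diaL_diaL (x : E2) : diaL (diaL x) = x :=
  co_ext fun i => by rw [co_diaL, co_diaL, ← mul_assoc, sgn_sq, one_mul]

theorem gamL_diaL (x : E2) : gamL (diaL x) = -diaL (gamL x) :=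
  co_ext fun i => by
    rw [co_gamL, co_diaL, co_neg, co_diaL, co_gamL, sgn_sw]
    ring

/-- `T = diag((-1)^i)` as an operator. -/
def Top : E2 →L[ℝ] E2 := diaL.mkContinuous 1 (fun x => by rw [norm_diaL, one_mul])

theorem Top_apply (x : E2) : Top x = diaL x := rfl

theorem K_diaL (x : E2) (i : ℕ) : K (diaL x) i = sgn i * K x i := by
  show co (diaL x) i * Real.log ‖diaL x‖ - fl (co (diaL x) i) =
    sgn i * (co x i * Real.log ‖x‖ - fl (co x i))
  rw [norm_diaL, co_diaL]
  rcases sgn_cases i with h | h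
  · rw [h, one_mul, one_mul]
  · rw [h, neg_one_mul, neg_one_mul, fl_neg]
    ring

/-- The quasi-linear map of the counterexample. -/
def Om' (x : E2) : E2 := Om (gamL x)

theorem quasiLinear_Om' : QuasiLinear Om' := by
  obtain ⟨Q, hQ⟩ := quasiLinear_Om.quasi
  refine ⟨fun c x => ?_, Q, fun x y => ?_⟩
  · unfold Om'
    rw [map_smul, quasiLinear_Om.homog]
  · unfold Om'
    rw [map_add]
    refine (hQ _ _).trans ?_
    rw [norm_gamL, norm_gamL]

theorem singular_Om' : Singular Om' := by
  intro W _ hW htriv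
  obtain ⟨L, C, hC, hL⟩ := htriv
  have hinj : Function.Injective gamL := by
    intro x y h
    rw [← gamL_gamL x, h, gamL_gamL]
  refine not_trivial (W.map gamL) ?_ ?_
  · intro hfin
    apply hW
    exact (Submodule.equivMapOfInjective gamL hinj W).symm.finiteDimensional
  · have hmem : ∀ x : (W.map gamL), gamL (x : E2) ∈ W := by
      rintro ⟨_, ⟨z, hz, rfl⟩⟩
      show gamL (gamL z) ∈ W
      rw [gamL_gamL]
      exact hz
    let g : (W.map gamL) →ₗ[ℝ] W :=
      { toFun := fun x => ⟨gamL x, hmem x⟩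
        map_add' := fun x y => Subtype.ext (map_add gamL _ _)
        map_smul' := fun c x => Subtype.ext (map_smul gamL _ _) }
    refine ⟨L.comp g, C, hC, fun x => ?_⟩
    have h1 := hL (g x)
    have h2 : Om' (g x : E2) = Om (x : E2) := by
      show Om (gamL (gamL (x : E2))) = _
      rw [gamL_gamL]
    rw [h2] at h1
    refine h1.trans (le_of_eq ?_)
    congr 1
    show ‖gamL (x : E2)‖ = ‖(x : E2)‖
    exact norm_gamL _

theorem compatible : Compatible Om' Top (-Top) := by
  -- the commutator is linear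
  have hco : ∀ x : E2, ∀ i, co (Om' ((-Top) x) - Top (Om' x)) i =
      -Lam (gamL ((-Top) x)) i + sgn i * Lam (gamL x) i := by
    intro x i
    have h1 : gamL ((-Top) x) = diaL (gamL x) := by
      show gamL (-(diaL x)) = _
      rw [map_neg, gamL_diaL, neg_neg]
    rw [co_sub, Top_apply, co_diaL]
    show (K (gamL ((-Top) x)) i - Lam (gamL ((-Top) x)) i) - sgn i * (K (gamL x) i -
      Lam (gamL x) i) = _
    rw [h1, K_diaL]
    ring
  let L : (⊤ : Submodule ℝ E2) →ₗ[ℝ] E2 :=
    { toFun := fun x => Om' ((-Top) (x : E2)) - Top (Om' (x : E2))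
      map_add' := fun x y => co_ext fun i => by
        rw [co_add, hco, hco, hco]
        simp only [Submodule.coe_add, map_add, Pi.add_apply]
        ring
      map_smul' := fun c x => co_ext fun i => by
        rw [RingHom.id_apply, co_smul, hco, hco]
        simp only [Submodule.coe_smul, map_smul, Pi.smul_apply, smul_eq_mul]
        ring }
  refine ⟨L, 0, le_rfl, fun x => ?_⟩
  rw [zero_mul]
  have : (Om' ((-Top) (x : E2)) - Top (Om' (x : E2))) - L x = 0 := sub_self _
  rw [this, norm_zero]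

theorem not_finiteDimensional : ¬ FiniteDimensional ℝ E2 := by
  classical
  intro h
  set n := Module.finrank ℝ E2 with hn
  have hsum : ∀ c : Fin (n + 1) → ℝ, Memℓp (fun i : ℕ => if h : i < n + 1 then c ⟨i, h⟩ else 0)
      2 := fun c => mem_of_sq (summable_of_ne_finset_zero (s := Finset.range (n + 1))
        (fun i hi => by
          rw [dif_neg (by simpa using hi)]
          norm_num))
  let Φ : (Fin (n + 1) → ℝ) →ₗ[ℝ] E2 :=
    { toFun := fun c => mk2 _ (hsum c)
      map_add' := fun c d => co_ext fun i => by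
        rw [co_add, co_mk2, co_mk2, co_mk2]
        split_ifs <;> simp
      map_smul' := fun r c => co_ext fun i => by
        rw [RingHom.id_apply, co_smul, co_mk2, co_mk2]
        split_ifs <;> simp }
  have hinj : Function.Injective Φ := by
    intro c d hcd
    funext i
    have h1 : co (Φ c) i = co (Φ d) i := by rw [hcd]
    have h2 : ∀ c : Fin (n + 1) → ℝ, co (Φ c) i = c i := by
      intro c
      show (if h : (i : ℕ) < n + 1 then c ⟨i, h⟩ else 0) = c i
      rw [dif_pos i.2]
    rw [h2, h2] at h1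
    exact h1
  have h1 := LinearMap.finrank_le_finrank_of_injective hinj
  rw [Module.finrank_fin_fun] at h1
  omega

theorem not_compact : ¬ IsCompactOperator (Top - (-Top)) := by
  intro h
  have h1 : IsCompactOperator (fun x : E2 => ((1 / 2 : ℝ) • Top) ((Top - (-Top)) x)) :=
    h.clm_comp ((1 / 2 : ℝ) • Top)
  have h2 : (fun x : E2 => ((1 / 2 : ℝ) • Top) ((Top - (-Top)) x)) = id := by
    funext x
    show (1 / 2 : ℝ) • diaL (diaL x - -(diaL x)) = x
    rw [sub_neg_eq_add, map_add, diaL_diaL, ← two_smul ℝ x, smul_smul]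
    norm_num
  rw [h2] at h1
  have h3 : LocallyCompactSpace E2 := isCompactOperator_id_iff_locallyCompactSpace.1 h1
  exact not_finiteDimensional (FiniteDimensional.of_locallyCompactSpace ℝ)

theorem main : ∃ (Om : E2 → E2) (T U : E2 →L[ℝ] E2), QuasiLinear Om ∧ Singular Om ∧
    Compatible Om T U ∧ ¬ IsCompactOperator (T - U) :=
  ⟨Om', Top, -Top, quasiLinear_Om', singular_Om', compatible, not_compact⟩

end Q100.KP
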