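import Mathlib

/-!
# Two consequences of the Hahn-Banach theorem

* `mem_closure_image`: a bipolar type statement (Helly / Goldstine).
* `surjective_of_dual`: an operator whose adjoint is bounded below is onto.
-/

set_option autoImplicit false
open Filter Topology

namespace Q100.OpenLem

universe u v w

variable {𝕜 : Type w} [RCLike 𝕜]
  {X : Type u} [NormedAddCommGroup X] [NormedSpace 𝕜 X]
  {Y : Type v} [NormedAddCommGroup Y] [NormedSpace 𝕜 Y]

theorem mem_closure_image (T : X →L[𝕜] Y) (y : Y) (C : ℝ) (hC : 0 ≤ C)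
    (h : ∀ φ : Y →L[𝕜] 𝕜, ‖φ y‖ ≤ C * ‖φ.comp T‖) :
    y ∈ closure (T '' Metric.closedBall (0 : X) C) := by
  letI : NormedSpace ℝ X := NormedSpace.restrictScalars ℝ 𝕜 X
  letI : NormedSpace ℝ Y := NormedSpace.restrictScalars ℝ 𝕜 Y
  haveI : IsScalarTower ℝ 𝕜 X := inferInstance
  haveI : IsScalarTower ℝ 𝕜 Y := inferInstance
  by_contra hy
  have hconv : Convex ℝ (closure (T '' Metric.closedBall (0 : X) C)) := by
    refine Convex.closure ?_
    have h1 : Convex ℝ (Metric.closedBall (0 : X) C) := convex_closedBall _ _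
    exact h1.is_linear_image (IsLinearMap.mk (map_add T) (fun c x => by
      rw [← algebraMap_smul 𝕜 c x, map_smul, algebraMap_smul]))
  obtain ⟨f, u, hf1, hf2⟩ := RCLike.geometric_hahn_banach_closed_point (𝕜 := 𝕜) hconv
    isClosed_closure hy
  have hu : ∀ x : X, ‖x‖ ≤ C → ‖f (T x)‖ ≤ u := by
    intro x hx
    obtain ⟨c, hc, hc2⟩ := RCLike.exists_norm_eq_mul_self (f (T x))
    have h1 : (T (c • x)) ∈ closure (T '' Metric.closedBall (0 : X) C) := by
      apply subset_closure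
      refine ⟨c • x, ?_, rfl⟩
      rw [mem_closedBall_zero_iff, norm_smul, hc, one_mul]
      exact hx
    have h2 := hf1 _ h1
    rw [map_smul, map_smul, smul_eq_mul, ← hc2, RCLike.ofReal_re] at h2
    exact h2.le
  have hu0 : 0 ≤ u := by
    have := hu 0 (by simpa using hC)
    simpa using this
  have h3 : C * ‖f.comp T‖ ≤ u := by
    rcases hC.eq_or_lt with h0 | h0
    · rw [← h0, zero_mul]; exact hu0
    · rw [mul_comm, ← le_div_iff₀ h0]
      refine ContinuousLinearMap.opNorm_le_bound _ (by positivity) (fun x => ?_)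
      rcases eq_or_ne x 0 with hx | hx
      · simp [hx]
      have hx' : 0 < ‖x‖ := norm_pos_iff.2 hx
      have h4 := hu (((C / ‖x‖ : ℝ) : 𝕜) • x) (by
        rw [norm_smul, RCLike.norm_ofReal, abs_of_nonneg (by positivity),
          div_mul_cancel₀ _ hx'.ne'])
      rw [map_smul, map_smul, norm_smul, RCLike.norm_ofReal, abs_of_nonneg (by positivity)] at h4
      rw [ContinuousLinearMap.comp_apply, div_mul_eq_mul_div, le_div_iff₀ h0]
      have h5 : C / ‖x‖ * ‖f (T x)‖ * ‖x‖ = ‖f (T x)‖ * C := by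
        field_simp
      rw [← h5]
      exact mul_le_mul_of_nonneg_right h4 hx'.le
  have h4 : RCLike.re (f y) ≤ ‖f y‖ := RCLike.re_le_norm _
  have h5 := h f
  linarith

theorem surjective_of_approx [CompleteSpace X] (T : X →L[𝕜] Y) (C : ℝ)
    (h : ∀ y, ∃ x, ‖x‖ ≤ C * ‖y‖ ∧ ‖y - T x‖ ≤ ‖y‖ / 2) : Function.Surjective T := by
  intro y
  choose g hg1 hg2 using h
  let r : ℕ → Y := fun n => Nat.rec y (fun _ z => z - T (g z)) n
  have hr0 : r 0 = y := rfl
  have hrs : ∀ n, r (n + 1) = r n - T (g (r n)) := fun n => rfl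
  have hrn : ∀ n, ‖r n‖ ≤ ‖y‖ * (1 / 2) ^ n := by
    intro n
    induction n with
    | zero => simp [hr0]
    | succ n ih =>
      rw [hrs, pow_succ]
      have := hg2 (r n)
      linarith
  have hC : ∀ n, ‖g (r n)‖ ≤ |C| * ‖y‖ * (1 / 2) ^ n := by
    intro n
    refine (hg1 _).trans ?_
    calc C * ‖r n‖ ≤ |C| * ‖r n‖ := mul_le_mul_of_nonneg_right (le_abs_self C) (norm_nonneg _)
      _ ≤ |C| * (‖y‖ * (1 / 2) ^ n) := mul_le_mul_of_nonneg_left (hrn n) (abs_nonneg C)
      _ = _ := by ring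
  have hsum : Summable (fun n => g (r n)) := by
    refine Summable.of_norm_bounded (g := fun n => |C| * ‖y‖ * (1 / 2) ^ n) ?_ hC
    exact (summable_geometric_of_lt_one (by norm_num) (by norm_num)).mul_left _
  refine ⟨∑' n, g (r n), ?_⟩
  have h1 : HasSum (fun n => T (g (r n))) (T (∑' n, g (r n))) := by
    have := (ContinuousLinearMap.hasSum T hsum.hasSum)
    exact this
  have h2 : Tendsto (fun n => ∑ k ∈ Finset.range n, T (g (r k))) atTop (𝓝 (T (∑' n, g (r n)))) :=
    h1.tendsto_sum_nat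
  have h3 : ∀ n, ∑ k ∈ Finset.range n, T (g (r k)) = y - r n := by
    intro n
    induction n with
    | zero => simp [hr0]
    | succ n ih => rw [Finset.sum_range_succ, ih, hrs]; abel
  have h4 : Tendsto r atTop (𝓝 0) := by
    refine squeeze_zero_norm hrn ?_
    have : Tendsto (fun n : ℕ => ‖y‖ * ((1 : ℝ) / 2) ^ n) atTop (𝓝 (‖y‖ * 0)) :=
      (tendsto_pow_atTop_nhds_zero_of_lt_one (by norm_num) (by norm_num)).const_mul _
    simpa using this
  have h5 : Tendsto (fun n => ∑ k ∈ Finset.range n, T (g (r k))) atTop (𝓝 (y - 0)) := by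
    simp_rw [h3]
    exact h4.const_sub y
  rw [sub_zero] at h5
  exact tendsto_nhds_unique h2 h5

theorem surjective_of_dual [CompleteSpace X] (T : X →L[𝕜] Y) (C : ℝ) (hC : 0 ≤ C)
    (h : ∀ φ : Y →L[𝕜] 𝕜, ‖φ‖ ≤ C * ‖φ.comp T‖) : Function.Surjective T := by
  refine surjective_of_approx T C (fun y => ?_)
  have h1 : y ∈ closure (T '' Metric.closedBall (0 : X) (C * ‖y‖)) := by
    refine mem_closure_image T y _ (by positivity) (fun φ => ?_)
    calc ‖φ y‖ ≤ ‖φ‖ * ‖y‖ := φ.le_opNorm y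
      _ ≤ (C * ‖φ.comp T‖) * ‖y‖ := mul_le_mul_of_nonneg_right (h φ) (norm_nonneg y)
      _ = _ := by ring
  rcases eq_or_ne y 0 with hy | hy
  · exact ⟨0, by simp [hy], by simp [hy]⟩
  have hy' : 0 < ‖y‖ := norm_pos_iff.2 hy
  obtain ⟨z, ⟨x, hx, rfl⟩, hz⟩ := Metric.mem_closure_iff.1 h1 (‖y‖ / 2) (by positivity)
  refine ⟨x, mem_closedBall_zero_iff.1 hx, ?_⟩
  rw [dist_eq_norm] at hz
  exact hz.le

end Q100.OpenLem
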