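import Pool.Agent.Q100.MBDefs
import Pool.Agent.Q100.OpenLem

/-!
# Bounded completeness of the functionals forces an M-basis to be shrinking
-/

set_option autoImplicit false
open Filter Topology

namespace Q100.MB

open Q100.OpenLem

universe u v

variable {𝕜 : Type v} [RCLike 𝕜] {E : Type u} [NormedAddCommGroup E] [NormedSpace 𝕜 E]

/-- The functionals `g` for which `g (y j)` is Cauchy form a closed set, if `y` is bounded. -/
theorem cauchy_of_mem (f : ℕ → E →L[𝕜] 𝕜) (y : ℕ → E) (C : ℝ) (hC : ∀ j, ‖y j‖ ≤ C)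
    (h : ∀ n, CauchySeq (fun j => f n (y j))) (g : E →L[𝕜] 𝕜) (hg : g ∈ fspan f) :
    CauchySeq (fun j => g (y j)) := by
  have hspan : ∀ g ∈ Submodule.span 𝕜 (Set.range f), CauchySeq (fun j => g (y j)) := by
    intro g hg
    induction hg using Submodule.span_induction with
    | mem g hg => obtain ⟨n, rfl⟩ := hg; exact h n
    | zero => exact cauchySeq_const 0
    | add a b _ _ ha hb => exact ha.add hb
    | smul c a _ ha => exact (uniformContinuous_const_smul c).comp_cauchySeq ha
  have hC0 : 0 ≤ C := (norm_nonneg _).trans (hC 0)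
  rw [Metric.cauchySeq_iff']
  intro ε hε
  have hg' : g ∈ closure (Submodule.span 𝕜 (Set.range f) : Set (E →L[𝕜] 𝕜)) := hg
  obtain ⟨a, ha, hga⟩ := Metric.mem_closure_iff.1 hg' (ε / (4 * (C + 1))) (by positivity)
  obtain ⟨N, hN⟩ := Metric.cauchySeq_iff'.1 (hspan a ha) (ε / 2) (by positivity)
  refine ⟨N, fun n hn => ?_⟩
  have h1 := hN n hn
  rw [dist_eq_norm] at h1 hga ⊢
  have h2 : ∀ j, ‖g (y j) - a (y j)‖ ≤ ε / 4 := by
    intro j
    rw [← _root_.sub_apply]
    refine ((g - a).le_opNorm _).trans ?_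
    calc ‖g - a‖ * ‖y j‖ ≤ (ε / (4 * (C + 1))) * (C + 1) :=
          mul_le_mul hga.le ((hC j).trans (by linarith)) (norm_nonneg _) (by positivity)
      _ = ε / 4 := by field_simp
  have h3 : g (y n) - g (y N) = (g (y n) - a (y n)) + (a (y n) - a (y N)) -
      (g (y N) - a (y N)) := by ring
  rw [h3]
  refine (norm_sub_le _ _).trans_lt ?_
  have h4 := norm_add_le (g (y n) - a (y n)) (a (y n) - a (y N))
  have h5 := h2 n
  have h6 := h2 N
  linarith

variable {x : ℕ → E} {f : ℕ → E →L[𝕜] 𝕜}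

theorem canon_mem (h : IsMBasis x f) (z : E) : canon f z ∈ fspan (fun n => canon f (x n)) := by
  have h1 : (Submodule.span 𝕜 (Set.range x)).topologicalClosure ≤
      (fspan (fun n => canon f (x n))).comap (canon f : E →ₗ[𝕜] (FSpan f →L[𝕜] 𝕜)) := by
    refine Submodule.topologicalClosure_minimal _ ?_ ?_
    · rw [Submodule.span_le]
      rintro _ ⟨n, rfl⟩
      exact Submodule.le_topologicalClosure _ (Submodule.subset_span ⟨n, rfl⟩)
    · exact (Submodule.isClosed_topologicalClosure _).preimage (canon f).continuous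
  have h2 : z ∈ (Submodule.span 𝕜 (Set.range x)).topologicalClosure := by
    rw [h.fundamental]; trivial
  exact h1 h2

theorem eq_of_agree (h : IsMBasis x f) (a b : E →L[𝕜] 𝕜) (hab : ∀ n, a (x n) = b (x n)) :
    a = b := by
  have h1 : (Submodule.span 𝕜 (Set.range x)).topologicalClosure ≤
      LinearMap.ker ((a - b : E →L[𝕜] 𝕜) : E →ₗ[𝕜] 𝕜) := by
    refine Submodule.topologicalClosure_minimal _ ?_ ?_
    · rw [Submodule.span_le]
      rintro _ ⟨n, rfl⟩
      simp [hab n]
    · exact (a - b).isClosed_ker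
  ext z
  have h2 : z ∈ (Submodule.span 𝕜 (Set.range x)).topologicalClosure := by
    rw [h.fundamental]; trivial
  have h3 := h1 h2
  simpa [sub_eq_zero] using h3

/-- Helly's theorem in the form needed. -/
theorem exists_approx (φ : FSpan (fun n => canon f (x n)) →L[𝕜] 𝕜) (j : ℕ) :
    ∃ g : FSpan f, ‖g‖ ≤ ‖φ‖ ∧ ∀ i < j,
      ‖φ (fElem (fun n => canon f (x n)) i) - canon f (x i) g‖ < 1 / ((j : ℝ) + 1) := by
  let T : FSpan f →L[𝕜] (Fin j → 𝕜) := ContinuousLinearMap.pi (fun i => canon f (x i))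
  let y : Fin j → 𝕜 := fun i => φ (fElem (fun n => canon f (x n)) i)
  have hdec : ∀ (w : Fin j → 𝕜) (ψ : (Fin j → 𝕜) →L[𝕜] 𝕜),
      ψ w = ∑ i, ψ (Pi.single i 1) * w i := by
    intro w ψ
    conv_lhs => rw [pi_eq_sum_univ' w, map_sum]
    refine Finset.sum_congr rfl (fun i _ => ?_)
    rw [map_smul, smul_eq_mul, mul_comm]
  have h1 : y ∈ closure (T '' Metric.closedBall (0 : FSpan f) ‖φ‖) := by
    refine mem_closure_image T y _ (norm_nonneg _) (fun ψ => ?_)
    have h2 : ψ y = φ (∑ i, ψ (Pi.single i 1) • fElem (fun n => canon f (x n)) i) := by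
      rw [map_sum, hdec y ψ]
      refine Finset.sum_congr rfl (fun i _ => ?_)
      rw [map_smul, smul_eq_mul]
    have h3 : incl _ (∑ i, ψ (Pi.single i 1) • fElem (fun n => canon f (x n)) i) = ψ.comp T := by
      ext g
      rw [ContinuousLinearMap.comp_apply, hdec (T g) ψ, map_sum, _root_.sum_apply]
      refine Finset.sum_congr rfl (fun i _ => ?_)
      rw [map_smul, _root_.smul_apply, smul_eq_mul]
      rfl
    rw [h2, ← h3, LinearIsometry.norm_map]
    exact φ.le_opNorm _
  obtain ⟨_, ⟨g, hg, rfl⟩, hgy⟩ := Metric.mem_closure_iff.1 h1 (1 / ((j : ℝ) + 1)) (by positivity)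
  refine ⟨g, mem_closedBall_zero_iff.1 hg, fun i hi => ?_⟩
  rw [dist_eq_norm] at hgy
  exact (norm_le_pi_norm (y - T g) ⟨i, hi⟩).trans_lt hgy

/-- Elements of the linear span of the `f_n` as elements of the closed span. -/
def spanElem (f : ℕ → E →L[𝕜] 𝕜) (a : Submodule.span 𝕜 (Set.range f)) : FSpan f :=
  ⟨a.1, Submodule.le_topologicalClosure _ a.2⟩

theorem dense_spanElem (f : ℕ → E →L[𝕜] 𝕜) : Dense (Set.range (spanElem f)) := by
  intro a
  have ha : a.1 ∈ closure (Submodule.span 𝕜 (Set.range f) : Set (E →L[𝕜] 𝕜)) := a.2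
  rw [Metric.mem_closure_iff] at ha ⊢
  intro ε hε
  obtain ⟨b, hb, hab⟩ := ha ε hε
  exact ⟨_, ⟨⟨b, hb⟩, rfl⟩, hab⟩

/-- The element `u(z)` of `[u(x_n)]`. -/
noncomputable def codr (h : IsMBasis x f) : E →L[𝕜] FSpan (fun n => canon f (x n)) where
  toFun z := ⟨canon f z, canon_mem h z⟩
  map_add' a b := Subtype.ext (map_add _ a b)
  map_smul' c a := Subtype.ext (map_smul _ c a)
  cont := (canon f).continuous.subtype_mk _

theorem exists_repr (h : IsMBasis x f)
    (hb : BoundedlyComplete (fun n => canon f (x n)))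
    (φ : FSpan (fun n => canon f (x n)) →L[𝕜] 𝕜) :
    ∃ z : FSpan f, φ.comp (codr h) = incl f z ∧ ‖φ‖ ≤ ‖z‖ := by
  choose g hg1 hg2 using fun j => exists_approx φ j
  have hlim : ∀ n, Tendsto (fun j => canon f (x n) (g j)) atTop
      (𝓝 (φ (fElem (fun n => canon f (x n)) n))) := by
    intro n
    rw [tendsto_iff_norm_sub_tendsto_zero]
    refine squeeze_zero' (Eventually.of_forall (fun j => norm_nonneg _)) ?_
      tendsto_one_div_add_atTop_nhds_zero_nat
    filter_upwards [eventually_gt_atTop n] with j hj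
    rw [norm_sub_rev]
    exact (hg2 j n hj).le
  obtain ⟨z, hz⟩ := hb g ⟨‖φ‖, hg1⟩ (fun a ha =>
    cauchy_of_mem _ g ‖φ‖ hg1 (fun n => (hlim n).cauchySeq) a ha)
  have hzn : ∀ n, φ (fElem (fun n => canon f (x n)) n) = incl f z (x n) := by
    intro n
    have h1 := hz (canon f (x n)) (fElem (fun n => canon f (x n)) n).2
    exact tendsto_nhds_unique (hlim n) h1
  have hU : φ.comp (codr h) = incl f z := by
    refine eq_of_agree h _ _ (fun n => ?_)
    rw [← hzn n]
    rfl
  refine ⟨z, hU, ?_⟩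
  have h1 : Set.EqOn φ ((ContinuousLinearMap.apply 𝕜 𝕜 z).comp
      (incl (fun n => canon f (x n))).toContinuousLinearMap) Set.univ := by
    rw [← (dense_spanElem (fun n => canon f (x n))).closure_eq]
    refine Set.EqOn.closure ?_ φ.continuous (ContinuousLinearMap.continuous _)
    rintro _ ⟨⟨a, ha⟩, rfl⟩
    change φ (spanElem _ ⟨a, ha⟩) = a z
    induction ha using Submodule.span_induction with
    | mem g hg =>
      obtain ⟨n, rfl⟩ := hg
      exact hzn n
    | zero => exact map_zero φ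
    | add a b ha hb iha ihb =>
      have h2 : φ (spanElem _ ⟨a, ha⟩ + spanElem _ ⟨b, hb⟩) = (a + b) z := by
        rw [map_add, iha, ihb]; rfl
      exact h2
    | smul c a ha iha =>
      have h2 : φ (c • spanElem _ ⟨a, ha⟩) = (c • a) z := by
        rw [map_smul, iha]; rfl
      exact h2
  refine φ.opNorm_le_bound (norm_nonneg z) (fun a => ?_)
  have h2 := h1 (Set.mem_univ a)
  have h3 : φ a = incl _ a z := h2
  rw [h3, mul_comm, ← (incl (fun n => canon f (x n))).norm_map a]
  exact (incl _ a).le_opNorm z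

theorem shrinking_of_boundedlyComplete [CompleteSpace E] (h : IsMBasis x f)
    (hb : BoundedlyComplete (fun n => canon f (x n))) : Shrinking f := by
  have hUs : Function.Surjective (codr h) := by
    refine surjective_of_dual (codr h) 1 zero_le_one (fun φ => ?_)
    obtain ⟨z, hz1, hz2⟩ := exists_repr h hb φ
    rw [hz1, one_mul, LinearIsometry.norm_map]
    exact hz2
  have hUi : Function.Injective (codr h) := by
    rw [injective_iff_map_eq_zero]
    intro e he
    refine h.total e (fun n => ?_)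
    have h1 : canon f e = 0 := congrArg Subtype.val he
    have h2 := congrArg (fun a : FSpan f →L[𝕜] 𝕜 => a (fElem f n)) h1
    exact h2
  let V : E ≃L[𝕜] FSpan (fun n => canon f (x n)) :=
    ContinuousLinearEquiv.ofBijective (codr h) (LinearMap.ker_eq_bot.2 hUi)
      (LinearMap.range_eq_top.2 hUs)
  rw [Shrinking, eq_top_iff]
  intro f₀ _
  obtain ⟨z, hz1, -⟩ := exists_repr h hb
    (f₀.comp (V.symm : FSpan (fun n => canon f (x n)) →L[𝕜] E))
  have h1 : f₀ = incl f z := by
    rw [← hz1]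
    ext e
    have h2 : codr h e = V e := rfl
    rw [ContinuousLinearMap.comp_apply, h2]
    simp
  rw [h1]
  exact z.2

end Q100.MB
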