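import Mathlib

/-!
# M-bases (Markushevich bases)
-/

set_option autoImplicit false
open Filter Topology

noncomputable section

namespace Q100.MB

universe u v

variable {𝕜 : Type v} [RCLike 𝕜] {E : Type u} [NormedAddCommGroup E] [NormedSpace 𝕜 E]

/-- `x` is an M-basis of `E` with associated sequence of functionals `f`. -/
structure IsMBasis (x : ℕ → E) (f : ℕ → E →L[𝕜] 𝕜) : Prop where
  biorthogonal : ∀ i j, f i (x j) = if i = j then 1 else 0
  fundamental : (Submodule.span 𝕜 (Set.range x)).topologicalClosure = ⊤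
  total : ∀ z : E, (∀ n, f n z = 0) → z = 0

/-- The closed linear span `[f_n]` of a sequence of functionals, as a subspace of the dual. -/
def fspan (f : ℕ → E →L[𝕜] 𝕜) : Submodule 𝕜 (E →L[𝕜] 𝕜) :=
  (Submodule.span 𝕜 (Set.range f)).topologicalClosure

/-- The closed linear span `[f_n]` of a sequence of functionals, as a Banach space, with the norm
of the dual space. -/
def FSpan (f : ℕ → E →L[𝕜] 𝕜) : Type (max u v) := fspan f

instance (f : ℕ → E →L[𝕜] 𝕜) : NormedAddCommGroup (FSpan f) :=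
  inferInstanceAs (NormedAddCommGroup (fspan f))

instance (f : ℕ → E →L[𝕜] 𝕜) : NormedSpace 𝕜 (FSpan f) :=
  inferInstanceAs (NormedSpace 𝕜 (fspan f))

instance (f : ℕ → E →L[𝕜] 𝕜) : CompleteSpace (FSpan f) :=
  (Submodule.isClosed_topologicalClosure
    (Submodule.span 𝕜 (Set.range f))).completeSpace_coe

/-- The isometric inclusion of `[f_n]` in the dual space. -/
def incl (f : ℕ → E →L[𝕜] 𝕜) : FSpan f →ₗᵢ[𝕜] (E →L[𝕜] 𝕜) where
  toFun g := g.1
  map_add' _ _ := rfl
  map_smul' _ _ := rfl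
  norm_map' _ := rfl

/-- `{x_n}` is shrinking: the associated functionals span a dense subspace of the dual. -/
def Shrinking (f : ℕ → E →L[𝕜] 𝕜) : Prop := fspan f = ⊤

/-- Bounded completeness of an M-basis with associated functionals `f_n`: every bounded sequence
that is Cauchy in the weak topology `σ(E, [f_n])` converges in that topology to a point of `E`. -/
def BoundedlyComplete (f : ℕ → E →L[𝕜] 𝕜) : Prop :=
  ∀ y : ℕ → E, (∃ C : ℝ, ∀ j, ‖y j‖ ≤ C) →
    (∀ g : E →L[𝕜] 𝕜, g ∈ fspan f → CauchySeq (fun j => g (y j))) →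
    ∃ z : E, ∀ g : E →L[𝕜] 𝕜, g ∈ fspan f → Tendsto (fun j => g (y j)) atTop (𝓝 (g z))

/-- The elements `f_n` of the space `[f_n]`. -/
def fElem (f : ℕ → E →L[𝕜] 𝕜) (n : ℕ) : FSpan f :=
  ⟨f n, Submodule.le_topologicalClosure _ (Submodule.subset_span ⟨n, rfl⟩)⟩

/-- The canonical map `u : E → [f_n]*`, `u(x)(f) = f(x)`. -/
def canon (f : ℕ → E →L[𝕜] 𝕜) : E →L[𝕜] (FSpan f →L[𝕜] 𝕜) :=
  (incl f).toContinuousLinearMap.flip

@[simp] theorem canon_apply (f : ℕ → E →L[𝕜] 𝕜) (z : E) (g : FSpan f) :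
    canon f z g = incl f g z := rfl

end Q100.MB
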