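import Pool.Agent.W654.Kron

set_option autoImplicit false

/-!
# Density of `λ₁ⁿ (1/2 + n δ) + λ₂ⁿ (1/2 + n δ̄)` for generic `δ`
-/

open Filter Topology

namespace Q100.Nh

theorem toCircle_coe (x : ℝ) :
    ((AddCircle.toCircle (x : UnitAddCircle) : Circle) : ℂ) = Complex.exp (2 * Real.pi * x * Complex.I) := by
  rw [AddCircle.toCircle_apply_mk, Circle.coe_exp]
  congr 1
  push_cast
  ring

/-- Kronecker's theorem in exponential form. -/
theorem kron (σ θ : ℝ)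
    (hind : ∀ k l : ℤ, Complex.exp ((k * σ + l * θ) * Complex.I) = 1 → k = 0 ∧ l = 0)
    (ω τ : ℂ) (hω : ‖ω‖ = 1) (hτ : ‖τ‖ = 1) (ε : ℝ) (hε : 0 < ε) (N : ℕ) :
    ∃ n : ℕ, N ≤ n ∧ ‖Complex.exp (n * σ * Complex.I) - ω‖ < ε ∧
      ‖Complex.exp (n * θ * Complex.I) - τ‖ < ε := by
  have hpi : (Real.pi : ℝ) ≠ 0 := Real.pi_ne_zero
  let z : UnitAddTorus (Fin 2) := ![((σ / (2 * Real.pi) : ℝ) : UnitAddCircle),
    ((θ / (2 * Real.pi) : ℝ) : UnitAddCircle)]
  let x : UnitAddTorus (Fin 2) := ![((Complex.arg ω / (2 * Real.pi) : ℝ) : UnitAddCircle),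
    ((Complex.arg τ / (2 * Real.pi) : ℝ) : UnitAddCircle)]
  have hz0 : ∀ n : ℕ, ((AddCircle.toCircle ((n • z) 0) : Circle) : ℂ) =
      Complex.exp (n * σ * Complex.I) := by
    intro n
    have e : (n • z) 0 = ((n * (σ / (2 * Real.pi)) : ℝ) : UnitAddCircle) := by
      change n • ((σ / (2 * Real.pi) : ℝ) : UnitAddCircle) = _
      rw [← AddCircle.coe_nsmul, nsmul_eq_mul]
    rw [e, toCircle_coe]
    congr 1
    push_cast
    field_simp
  have hz1 : ∀ n : ℕ, ((AddCircle.toCircle ((n • z) 1) : Circle) : ℂ) =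
      Complex.exp (n * θ * Complex.I) := by
    intro n
    have e : (n • z) 1 = ((n * (θ / (2 * Real.pi)) : ℝ) : UnitAddCircle) := by
      change n • ((θ / (2 * Real.pi) : ℝ) : UnitAddCircle) = _
      rw [← AddCircle.coe_nsmul, nsmul_eq_mul]
    rw [e, toCircle_coe]
    congr 1
    push_cast
    field_simp
  have harg : ∀ w : ℂ, ‖w‖ = 1 → ((AddCircle.toCircle ((Complex.arg w / (2 * Real.pi) : ℝ) :
      UnitAddCircle) : Circle) : ℂ) = w := by
    intro w hw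
    rw [toCircle_coe]
    have e : (2 * Real.pi * ((Complex.arg w / (2 * Real.pi) : ℝ) : ℂ) * Complex.I) =
        Complex.arg w * Complex.I := by
      push_cast
      field_simp
    rw [e]
    have := Complex.norm_mul_exp_arg_mul_I w
    rwa [hw, Complex.ofReal_one, one_mul] at this
  have hcont : Continuous fun y : UnitAddTorus (Fin 2) =>
      (((AddCircle.toCircle (y 0) : Circle) : ℂ), ((AddCircle.toCircle (y 1) : Circle) : ℂ)) := by
    refine Continuous.prodMk ?_ ?_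
    · exact continuous_subtype_val.comp (AddCircle.continuous_toCircle.comp (continuous_apply 0))
    · exact continuous_subtype_val.comp (AddCircle.continuous_toCircle.comp (continuous_apply 1))
  obtain ⟨δ, hδ, hd⟩ := Metric.continuous_iff.1 hcont x ε hε
  obtain ⟨n, hn⟩ := Pool.Agent.W654.Kron.kronecker z (x - N • z) (fun k hk => by
    have h1 : k 0 • ((σ / (2 * Real.pi) : ℝ) : UnitAddCircle) +
        k 1 • ((θ / (2 * Real.pi) : ℝ) : UnitAddCircle) = 0 := by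
      rw [Fin.sum_univ_two] at hk
      exact hk
    rw [← AddCircle.coe_zsmul, ← AddCircle.coe_zsmul, ← AddCircle.coe_add] at h1
    have h2 := congrArg (fun y : UnitAddCircle => ((AddCircle.toCircle y : Circle) : ℂ)) h1
    simp only [toCircle_coe, AddCircle.toCircle_zero, Circle.coe_one] at h2
    have e : (2 * Real.pi * ((k 0 • (σ / (2 * Real.pi)) + k 1 • (θ / (2 * Real.pi)) : ℝ) : ℂ) *
        Complex.I) = ((k 0 * σ + k 1 * θ) * Complex.I) := by
      rw [zsmul_eq_mul, zsmul_eq_mul]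
      push_cast
      field_simp
    rw [e] at h2
    obtain ⟨h3, h4⟩ := hind _ _ h2
    rw [Fin.sum_univ_two, h3, h4]
    simp) δ hδ
  have h5 : dist ((n + N) • z) x < δ := by
    have e : dist ((n + N) • z) x = dist (n • z) (x - N • z) := by
      rw [dist_eq_norm, dist_eq_norm]
      congr 1
      rw [add_smul]
      abel
    rwa [e]
  have h6 := hd _ h5
  rw [Prod.dist_eq, max_lt_iff] at h6
  simp only [hz0, hz1] at h6
  have x0 : x 0 = ((Complex.arg ω / (2 * Real.pi) : ℝ) : UnitAddCircle) := rfl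
  have x1 : x 1 = ((Complex.arg τ / (2 * Real.pi) : ℝ) : UnitAddCircle) := rfl
  rw [x0, x1, harg ω hω, harg τ hτ, dist_eq_norm, dist_eq_norm] at h6
  exact ⟨n + N, Nat.le_add_left _ _, h6.1, h6.2⟩

/-- the sequence -/
noncomputable def V (r σ θ : ℝ) (n : ℕ) (δ : ℂ) : ℂ :=
  (r * Complex.exp ((σ + θ) * Complex.I)) ^ n * (1 / 2 + n * δ) +
    (r * Complex.exp ((σ - θ) * Complex.I)) ^ n * (1 / 2 + n * (starRingEnd ℂ) δ)

theorem V_eq (r σ θ : ℝ) (n : ℕ) (δ : ℂ) :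
    V r σ θ n δ = r ^ n * Complex.exp (n * σ * Complex.I) *
      ((2 * (Complex.exp (n * θ * Complex.I) * (1 / 2 + n * δ)).re : ℝ) : ℂ) := by
  set E := Complex.exp (n * θ * Complex.I) with hE
  have h1 : ((2 * (E * (1 / 2 + n * δ)).re : ℝ) : ℂ) = E * (1 / 2 + n * δ) +
      (starRingEnd ℂ) (E * (1 / 2 + n * δ)) := by
    rw [Complex.add_conj]
  rw [h1]
  have h2 : (starRingEnd ℂ) (E * (1 / 2 + n * δ)) = Complex.exp (-(n * θ * Complex.I)) *
      (1 / 2 + n * (starRingEnd ℂ) δ) := by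
    rw [map_mul, map_add, map_mul, map_div₀, hE, ← Complex.exp_conj]
    simp only [map_mul, Complex.conj_natCast, Complex.conj_ofReal, Complex.conj_I, map_one,
      map_ofNat, mul_neg]
  rw [h2]
  unfold V
  rw [mul_pow, mul_pow, ← Complex.exp_nat_mul, ← Complex.exp_nat_mul]
  have e1 : Complex.exp (n * ((σ + θ) * Complex.I)) = Complex.exp (n * σ * Complex.I) * E := by
    rw [hE, ← Complex.exp_add]
    congr 1
    ring
  have e2 : Complex.exp (n * ((σ - θ) * Complex.I)) = Complex.exp (n * σ * Complex.I) *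
      Complex.exp (-(n * θ * Complex.I)) := by
    rw [← Complex.exp_add]
    congr 1
    ring
  rw [e1, e2]
  ring

theorem continuous_V (r σ θ : ℝ) (n : ℕ) : Continuous (V r σ θ n) := by
  unfold V
  fun_prop

theorem dense_open (r σ θ : ℝ) (hr : 1 ≤ r)
    (hind : ∀ k l : ℤ, Complex.exp ((k * σ + l * θ) * Complex.I) = 1 → k = 0 ∧ l = 0)
    (z : ℂ) (ε : ℝ) (hε : 0 < ε) : Dense {δ : ℂ | ∃ n : ℕ, ‖V r σ θ n δ - z‖ < ε} := by
  rw [Metric.dense_iff]
  intro δ₀ η hη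
  obtain ⟨δ₁, h10, hd1⟩ : ∃ δ₁ : ℂ, δ₁ ≠ 0 ∧ ‖δ₁ - δ₀‖ ≤ η / 2 := by
    by_cases h : δ₀ = 0
    · refine ⟨((η / 2 : ℝ) : ℂ), by exact_mod_cast (by positivity : η / 2 ≠ 0), ?_⟩
      rw [h, sub_zero, Complex.norm_real, Real.norm_eq_abs, abs_of_pos (by positivity)]
    · exact ⟨δ₀, h, by simp; positivity⟩
  obtain ⟨ω, hω, hzω⟩ : ∃ ω : ℂ, ‖ω‖ = 1 ∧ z = ‖z‖ * ω := by
    by_cases h : z = 0
    · exact ⟨1, by simp, by simp [h]⟩
    · refine ⟨z / ‖z‖, ?_, ?_⟩
      · rw [norm_div, Complex.norm_real, norm_norm, div_self (norm_ne_zero_iff.2 h)]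
      · have : (‖z‖ : ℂ) ≠ 0 := by exact_mod_cast norm_ne_zero_iff.2 h
        field_simp
  have hn1 : (0:ℝ) < ‖δ₁‖ := norm_pos_iff.2 h10
  set τ : ℂ := Complex.I * (starRingEnd ℂ) δ₁ / ‖δ₁‖ with hτ
  have hn1' : (‖δ₁‖ : ℂ) ≠ 0 := by exact_mod_cast hn1.ne'
  have hτn : ‖τ‖ = 1 := by
    rw [hτ, norm_div, norm_mul, Complex.norm_I, one_mul, RCLike.norm_conj, Complex.norm_real,
      norm_norm, div_self hn1.ne']
  have hτδ : τ * δ₁ = ‖δ₁‖ * Complex.I := by
    have h1 : (starRingEnd ℂ) δ₁ * δ₁ = (‖δ₁‖ : ℂ) ^ 2 := by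
      rw [mul_comm, Complex.mul_conj, Complex.normSq_eq_norm_sq]
      push_cast
      ring
    rw [hτ, div_mul_eq_mul_div, mul_assoc, h1]
    field_simp
  set ε' : ℝ := min (ε / (‖z‖ + 1)) (η / (8 * ‖δ₁‖)) with hε'
  have hε'0 : 0 < ε' := lt_min (by positivity) (by positivity)
  obtain ⟨N, hN⟩ := exists_nat_gt (8 * (‖z‖ + 1) / η)
  obtain ⟨n, hnN, hn1, hn2⟩ := kron σ θ hind ω τ hω hτn ε' hε'0 (max N 1)
  set E := Complex.exp (n * θ * Complex.I) with hE
  have hn0 : (0:ℝ) < n := by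
    have : 1 ≤ n := (le_max_right _ _).trans hnN
    exact_mod_cast this
  have hnN' : 8 * (‖z‖ + 1) / η < n := hN.trans_le (by exact_mod_cast (le_max_left _ _).trans hnN)
  have hrn : (1:ℝ) ≤ r ^ n := one_le_pow₀ hr
  have hEn : ‖E‖ = 1 := by
    rw [hE]
    have : (n * θ * Complex.I : ℂ) = ((n * θ : ℝ) : ℂ) * Complex.I := by push_cast; ring
    rw [this, Complex.norm_exp_ofReal_mul_I]
  set s : ℝ := (‖z‖ / (2 * r ^ n) - (1 / 2) * E.re) / n - (E * δ₁).re with hs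
  have hEc : E * (starRingEnd ℂ) E = 1 := by
    rw [Complex.mul_conj, Complex.normSq_eq_norm_sq, hEn]
    simp
  refine ⟨δ₁ + s * (starRingEnd ℂ) E, ?_, n, ?_⟩
  · rw [Metric.mem_ball, dist_eq_norm]
    have h1 : ‖(s : ℂ) * (starRingEnd ℂ) E‖ = |s| := by
      rw [norm_mul, RCLike.norm_conj, hEn, mul_one, Complex.norm_real, Real.norm_eq_abs]
    have h2 : |s| < η / 2 := by
      have h3 : |(E * δ₁).re| ≤ ε' * ‖δ₁‖ := by
        have e : E * δ₁ = (E - τ) * δ₁ + ‖δ₁‖ * Complex.I := by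
          rw [sub_mul, hτδ]
          ring
        have e2 : (E * δ₁).re = ((E - τ) * δ₁).re := by
          rw [e, Complex.add_re]
          simp
        rw [e2]
        refine (Complex.abs_re_le_norm _).trans ?_
        rw [norm_mul]
        exact mul_le_mul_of_nonneg_right hn2.le (norm_nonneg _)
      have h4 : ε' * ‖δ₁‖ ≤ η / 8 := by
        have : ε' ≤ η / (8 * ‖δ₁‖) := min_le_right _ _
        rw [le_div_iff₀ (by positivity)] at this
        linarith
      have h5 : |(‖z‖ / (2 * r ^ n) - (1 / 2) * E.re) / n| ≤ η / 8 := by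
        rw [abs_div, abs_of_pos hn0, div_le_iff₀ hn0]
        have h6 : |‖z‖ / (2 * r ^ n) - (1 / 2) * E.re| ≤ ‖z‖ + 1 := by
          have h7 : |E.re| ≤ 1 := (Complex.abs_re_le_norm _).trans hEn.le
          have h8 : ‖z‖ / (2 * r ^ n) ≤ ‖z‖ := by
            rw [div_le_iff₀ (by positivity)]
            nlinarith [norm_nonneg z]
          have h9 : 0 ≤ ‖z‖ / (2 * r ^ n) := by positivity
          rw [abs_le] at h7 ⊢
          constructor <;> linarith [norm_nonneg z]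
        rw [div_lt_iff₀ hη] at hnN'
        linarith
      calc |s| ≤ |(‖z‖ / (2 * r ^ n) - (1 / 2) * E.re) / n| + |(E * δ₁).re| := abs_sub _ _
        _ < η / 2 := by linarith
    calc ‖δ₁ + s * (starRingEnd ℂ) E - δ₀‖ = ‖(δ₁ - δ₀) + s * (starRingEnd ℂ) E‖ := by
          congr 1; ring
      _ ≤ ‖δ₁ - δ₀‖ + ‖(s : ℂ) * (starRingEnd ℂ) E‖ := norm_add_le _ _
      _ < η := by rw [h1]; linarith
  · rw [V_eq]
    have h1 : (E * (1 / 2 + n * (δ₁ + s * (starRingEnd ℂ) E))).re = ‖z‖ / (2 * r ^ n) := by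
      have e : E * (1 / 2 + n * (δ₁ + s * (starRingEnd ℂ) E)) =
          ((1 / 2 : ℝ) : ℂ) * E + ((n : ℝ) : ℂ) * (E * δ₁) + ((n * s : ℝ) : ℂ) := by
        have : E * (1 / 2 + n * (δ₁ + s * (starRingEnd ℂ) E)) = (1 / 2) * E + n * (E * δ₁) +
          n * s * (E * (starRingEnd ℂ) E) := by ring
        rw [this, hEc]
        push_cast
        ring
      rw [e, Complex.add_re, Complex.add_re, Complex.re_ofReal_mul, Complex.re_ofReal_mul,
        Complex.ofReal_re, hs]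
      field_simp
      ring
    rw [h1]
    have h2 : ((2 * (‖z‖ / (2 * r ^ n)) : ℝ) : ℂ) = ‖z‖ / (r : ℂ) ^ n := by
      push_cast
      have : (r : ℂ) ^ n ≠ 0 := by exact_mod_cast (by positivity : (r ^ n : ℝ) ≠ 0)
      field_simp
    rw [h2]
    have hr0 : (r : ℂ) ^ n ≠ 0 := by exact_mod_cast (by positivity : (r ^ n : ℝ) ≠ 0)
    have h3 : (r : ℂ) ^ n * Complex.exp (n * σ * Complex.I) * (‖z‖ / (r : ℂ) ^ n) - z =
        ‖z‖ * (Complex.exp (n * σ * Complex.I) - ω) := by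
      conv_lhs => rw [hzω]
      rw [norm_mul, hω, mul_one, Complex.norm_real, norm_norm]
      field_simp
    rw [h3, norm_mul, Complex.norm_real, norm_norm]
    have h4 : ε' ≤ ε / (‖z‖ + 1) := min_le_left _ _
    calc ‖z‖ * ‖Complex.exp (n * σ * Complex.I) - ω‖ ≤ ‖z‖ * (ε / (‖z‖ + 1)) :=
          mul_le_mul_of_nonneg_left (hn1.le.trans h4) (norm_nonneg _)
      _ < ε := by
          rw [mul_div_assoc', div_lt_iff₀ (by positivity)]
          nlinarith [norm_nonneg z]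

/-- For generic `δ` the sequence is dense. -/
theorem exists_dense (r σ θ : ℝ) (hr : 1 ≤ r)
    (hind : ∀ k l : ℤ, Complex.exp ((k * σ + l * θ) * Complex.I) = 1 → k = 0 ∧ l = 0)
    (κ : ℝ) (hκ : 0 < κ) : ∃ δ : ℂ, ‖δ‖ < κ ∧ Dense (Set.range fun n : ℕ => V r σ θ n δ) := by
  have hD : Dense (⋂ i : ℕ × ℕ, {δ : ℂ | ∃ n : ℕ, ‖V r σ θ n δ - TopologicalSpace.denseSeq ℂ i.1‖ <
      1 / ((i.2 : ℝ) + 1)}) := by
    refine dense_iInter_of_isOpen (fun i => ?_) (fun i => ?_)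
    · have : {δ : ℂ | ∃ n : ℕ, ‖V r σ θ n δ - TopologicalSpace.denseSeq ℂ i.1‖ <
          1 / ((i.2 : ℝ) + 1)} = ⋃ n : ℕ, {δ : ℂ | ‖V r σ θ n δ - TopologicalSpace.denseSeq ℂ i.1‖ <
          1 / ((i.2 : ℝ) + 1)} := by
        ext δ
        simp
      rw [this]
      refine isOpen_iUnion fun n => isOpen_lt ?_ continuous_const
      exact ((continuous_V r σ θ n).sub continuous_const).norm
    · exact dense_open r σ θ hr hind _ _ (by positivity)
  obtain ⟨δ, hδ, hδ2⟩ := hD.inter_open_nonempty (Metric.ball 0 κ) Metric.isOpen_ball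
    ⟨0, Metric.mem_ball_self hκ⟩
  refine ⟨δ, by simpa using hδ, ?_⟩
  rw [Metric.dense_iff]
  intro z η hη
  obtain ⟨_, h1, ⟨i, rfl⟩⟩ := Metric.dense_iff.1 (TopologicalSpace.denseRange_denseSeq ℂ) z (η / 2)
    (by positivity)
  obtain ⟨k, hk⟩ := exists_nat_one_div_lt (show 0 < η / 2 by positivity)
  obtain ⟨n, hn⟩ := Set.mem_iInter.1 hδ2 (i, k)
  refine ⟨_, ?_, n, rfl⟩
  rw [Metric.mem_ball, dist_eq_norm] at h1 ⊢
  calc ‖V r σ θ n δ - z‖ = ‖(V r σ θ n δ - TopologicalSpace.denseSeq ℂ i) +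
        (TopologicalSpace.denseSeq ℂ i - z)‖ := by congr 1; ring
    _ ≤ _ := norm_add_le _ _
    _ < η := by linarith

end Q100.Nh
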