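import Mathlib

set_option autoImplicit false

/-!
# Support functionals with prescribed values on two Jordan blocks

For linearly independent vectors `u₁, v₁, u₂, v₂` of a complex normed space and all small `z₁, z₂`
there are a unit vector `x = a₁ u₁ + b₁ v₁ + a₂ u₂ + b₂ v₂` and a functional `f` of norm one with
`f x = 1`, `f (aⱼ uⱼ + bⱼ vⱼ) = 1/2` and `bⱼ f uⱼ = zⱼ`. It is found by maximising
`|b₁ b₂ exp (2 (z₁ a₁ / b₁ + z₂ a₂ / b₂))| / ‖x‖²`.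
-/

open Filter Topology

namespace Q100.Nh

/-- The function that is maximised. -/
noncomputable def Q (z₁ z₂ : ℂ) (w : Fin 4 → ℂ) : ℂ :=
  w 1 * w 3 * Complex.exp (2 * (z₁ * w 0 / w 1 + z₂ * w 2 / w 3))

theorem Q_smul (z₁ z₂ : ℂ) (w : Fin 4 → ℂ) (c : ℂ) (hc : c ≠ 0) (h1 : w 1 ≠ 0) (h3 : w 3 ≠ 0) :
    Q z₁ z₂ (c • w) = c ^ 2 * Q z₁ z₂ w := by
  unfold Q
  simp only [Pi.smul_apply, smul_eq_mul]
  have e1 : z₁ * (c * w 0) / (c * w 1) = z₁ * w 0 / w 1 := by field_simp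
  have e2 : z₂ * (c * w 2) / (c * w 3) = z₂ * w 2 / w 3 := by field_simp
  rw [e1, e2]
  ring

/-- the functional -/
noncomputable def phi (z₁ z₂ : ℂ) (w h : Fin 4 → ℂ) : ℂ :=
  h 1 / (2 * w 1) + h 3 / (2 * w 3) + z₁ * (h 0 / w 1 - w 0 * h 1 / w 1 ^ 2) +
    z₂ * (h 2 / w 3 - w 2 * h 3 / w 3 ^ 2)

theorem hasDerivAt_Q (z₁ z₂ : ℂ) (w h : Fin 4 → ℂ) (h1 : w 1 ≠ 0) (h3 : w 3 ≠ 0) :
    HasDerivAt (fun t : ℝ => Q z₁ z₂ (w + (t : ℂ) • h)) (2 * phi z₁ z₂ w h * Q z₁ z₂ w) 0 := by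
  have l : ∀ i, HasDerivAt (fun t : ℝ => w i + (t : ℂ) * h i) (h i) 0 := by
    intro i
    have := (((Complex.ofRealCLM.hasDerivAt (x := (0 : ℝ))).mul_const (h i)).const_add (w i))
    simpa using this
  have e0 : ∀ i, w i + ((0 : ℝ) : ℂ) * h i = w i := by intro i; simp
  have q1 := ((l 0).const_mul z₁).div (l 1) (by rw [e0]; exact h1)
  have q2 := ((l 2).const_mul z₂).div (l 3) (by rw [e0]; exact h3)
  have q3 := ((q1.add q2).const_mul 2).cexp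
  have q4 := ((l 1).mul (l 3)).mul q3
  refine (q4.congr_deriv ?_).congr_of_eventuallyEq ?_
  · simp only [Pi.add_apply, Pi.mul_apply, Pi.div_apply, e0]
    unfold Q phi
    field_simp
    ring
  · refine Eventually.of_forall fun t => ?_
    unfold Q
    simp only [Pi.add_apply, Pi.smul_apply, smul_eq_mul, Pi.mul_apply, Pi.div_apply]

/-- the functional as a linear map -/
noncomputable def phiL (z₁ z₂ : ℂ) (w : Fin 4 → ℂ) : (Fin 4 → ℂ) →ₗ[ℂ] ℂ where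
  toFun := phi z₁ z₂ w
  map_add' x y := by
    unfold phi
    simp only [Pi.add_apply]
    ring
  map_smul' c x := by
    unfold phi
    simp only [Pi.smul_apply, smul_eq_mul, RingHom.id_apply]
    ring

theorem phi_self (z₁ z₂ : ℂ) (w : Fin 4 → ℂ) (h1 : w 1 ≠ 0) (h3 : w 3 ≠ 0) :
    phi z₁ z₂ w w = 1 := by
  unfold phi
  field_simp
  ring

section

variable {X : Type*} [NormedAddCommGroup X] [NormedSpace ℂ X]

theorem support (E : (Fin 4 → ℂ) →ₗ[ℂ] X) (z₁ z₂ : ℂ) (w : Fin 4 → ℂ) (h1 : w 1 ≠ 0)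
    (h3 : w 3 ≠ 0) (hw : ‖E w‖ = 1)
    (hmax : ∀ᶠ w' in 𝓝 w, ‖Q z₁ z₂ w'‖ ≤ ‖Q z₁ z₂ w‖ * ‖E w'‖ ^ 2) (h : Fin 4 → ℂ) :
    (phi z₁ z₂ w h).re ≤ ‖E (w + h)‖ - 1 := by
  set q : ℝ := ‖E (w + h)‖ - 1 with hq
  have hQ : Q z₁ z₂ w ≠ 0 := by
    unfold Q
    exact mul_ne_zero (mul_ne_zero h1 h3) (Complex.exp_ne_zero _)
  have hd := hasDerivAt_Q z₁ z₂ w h h1 h3
  have hd2 : HasDerivAt (fun t : ℝ => (Q z₁ z₂ (w + (t : ℂ) • h) / Q z₁ z₂ w).re)
      (2 * phi z₁ z₂ w h).re 0 := by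
    have h5 := hd.div_const (Q z₁ z₂ w)
    rw [mul_div_assoc, div_self hQ, mul_one] at h5
    have := (Complex.reCLM.hasFDerivAt (x := Q z₁ z₂ (w + ((0:ℝ) : ℂ) • h) / Q z₁ z₂ w)).comp_hasDerivAt
      (0 : ℝ) h5
    simpa [Function.comp_def] using this
  have hd3 : HasDerivAt (fun t : ℝ => (1 + t * q) ^ 2) (2 * q) 0 := by
    have h6 : HasDerivAt (fun t : ℝ => 1 + t * q) q 0 := by
      simpa using ((hasDerivAt_id (0 : ℝ)).mul_const q).const_add 1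
    exact (h6.pow 2).congr_deriv (by simp)
  have hF := hd3.sub hd2
  have hpos : ∀ᶠ t : ℝ in 𝓝[>] 0, 0 ≤ (1 + t * q) ^ 2 - (Q z₁ z₂ (w + (t : ℂ) • h) / Q z₁ z₂ w).re := by
    have hc : Tendsto (fun t : ℝ => w + (t : ℂ) • h) (𝓝 0) (𝓝 w) := by
      have : Continuous fun t : ℝ => w + (t : ℂ) • h := by fun_prop
      have := this.tendsto 0
      simpa using this
    have h7 := (hc.eventually hmax).filter_mono (nhdsWithin_le_nhds (s := Set.Ioi 0))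
    have h8 : ∀ᶠ t : ℝ in 𝓝[>] 0, t < 1 :=
      nhdsWithin_le_nhds (gt_mem_nhds (by norm_num : (0 : ℝ) < 1))
    filter_upwards [h7, h8, self_mem_nhdsWithin] with t ht ht1 ht0
    have ht0' : (0 : ℝ) < t := ht0
    have h9 : ‖E (w + (t : ℂ) • h)‖ ≤ 1 + t * q := by
      have e : w + (t : ℂ) • h = ((1 - t : ℝ) : ℂ) • w + (t : ℂ) • (w + h) := by
        push_cast
        module
      rw [e, map_add, map_smul, map_smul]
      refine (norm_add_le _ _).trans ?_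
      rw [norm_smul, norm_smul, hw, Complex.norm_real, Complex.norm_real, Real.norm_eq_abs,
        Real.norm_eq_abs, abs_of_pos ht0', abs_of_pos (by linarith : (0 : ℝ) < 1 - t)]
      rw [hq]
      linarith [mul_sub t (‖E (w + h)‖) 1]
    have h10 : (Q z₁ z₂ (w + (t : ℂ) • h) / Q z₁ z₂ w).re ≤ (1 + t * q) ^ 2 := by
      refine (Complex.re_le_norm _).trans ?_
      rw [norm_div, div_le_iff₀ (norm_pos_iff.2 hQ)]
      refine ht.trans ?_
      rw [mul_comm]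
      exact mul_le_mul_of_nonneg_right (pow_le_pow_left₀ (norm_nonneg _) h9 2) (norm_nonneg _)
    linarith
  have hs := hF.tendsto_slope.mono_left (nhdsWithin_mono 0 (fun t (ht : t ∈ Set.Ioi (0:ℝ)) =>
    (ne_of_gt ht : t ≠ 0)) : 𝓝[>] (0:ℝ) ≤ 𝓝[≠] 0)
  have h0 : (0 : ℝ) ≤ 2 * q - (2 * phi z₁ z₂ w h).re := by
    refine ge_of_tendsto hs ?_
    filter_upwards [hpos, self_mem_nhdsWithin] with t ht ht0
    have ht0' : (0 : ℝ) < t := ht0
    rw [slope_def_field]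
    refine div_nonneg ?_ (by linarith)
    simp only [Pi.sub_apply]
    have e : ((1 + (0:ℝ) * q) ^ 2 - (Q z₁ z₂ (w + ((0:ℝ) : ℂ) • h) / Q z₁ z₂ w).re) = 0 := by
      simp [div_self hQ]
    rw [e]
    linarith
  have e2 : (2 * phi z₁ z₂ w h).re = 2 * (phi z₁ z₂ w h).re := by
    simp
  rw [e2] at h0
  linarith

theorem norm_phi_le (E : (Fin 4 → ℂ) →ₗ[ℂ] X) (z₁ z₂ : ℂ) (w : Fin 4 → ℂ) (h1 : w 1 ≠ 0)
    (h3 : w 3 ≠ 0) (hw : ‖E w‖ = 1)
    (hmax : ∀ᶠ w' in 𝓝 w, ‖Q z₁ z₂ w'‖ ≤ ‖Q z₁ z₂ w‖ * ‖E w'‖ ^ 2) (y : Fin 4 → ℂ) :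
    ‖phi z₁ z₂ w y‖ ≤ ‖E y‖ := by
  have key : ∀ y : Fin 4 → ℂ, (phi z₁ z₂ w y).re ≤ ‖E y‖ := by
    intro y
    have := support E z₁ z₂ w h1 h3 hw hmax (y - w)
    have e : phi z₁ z₂ w (y - w) = phi z₁ z₂ w y - 1 := by
      have := (phiL z₁ z₂ w).map_sub y w
      change phi z₁ z₂ w (y - w) = phi z₁ z₂ w y - phi z₁ z₂ w w at this
      rw [this, phi_self z₁ z₂ w h1 h3]
    rw [e, add_sub_cancel] at this
    simp at this
    linarith
  by_cases hz : phi z₁ z₂ w y = 0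
  · rw [hz, norm_zero]
    exact norm_nonneg _
  · set c : ℂ := (‖phi z₁ z₂ w y‖ : ℂ) / phi z₁ z₂ w y with hc
    have hcn : ‖c‖ = 1 := by
      rw [hc, norm_div, Complex.norm_real, norm_norm, div_self (norm_ne_zero_iff.2 hz)]
    have h5 := key (c • y)
    have e : phi z₁ z₂ w (c • y) = c * phi z₁ z₂ w y := (phiL z₁ z₂ w).map_smul c y
    rw [e, hc, div_mul_cancel₀ _ hz, Complex.ofReal_re, map_smul, norm_smul, ← hc, hcn, one_mul] at h5
    exact h5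

/-- existence of an interior maximum -/
theorem exists_max (E : (Fin 4 → ℂ) →ₗ[ℂ] X) (hE : Function.Injective E) :
    ∃ κ : ℝ, 0 < κ ∧ ∀ z₁ z₂ : ℂ, ‖z₁‖ ≤ κ → ‖z₂‖ ≤ κ → ∃ w : Fin 4 → ℂ, w 1 ≠ 0 ∧ w 3 ≠ 0 ∧
      ‖E w‖ = 1 ∧ ∀ᶠ w' in 𝓝 w, ‖Q z₁ z₂ w'‖ ≤ ‖Q z₁ z₂ w‖ * ‖E w'‖ ^ 2 := by
  have hEc : Continuous E := LinearMap.continuous_of_finiteDimensional E
  obtain ⟨C, hC0, hC⟩ : ∃ C : ℝ, 0 < C ∧ ∀ w, ‖w‖ ≤ C * ‖E w‖ := by
    obtain ⟨K, hK, h⟩ := LinearMap.exists_antilipschitzWith E (LinearMap.ker_eq_bot.2 hE)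
    refine ⟨K, hK, fun w => ?_⟩
    have := h.le_mul_dist w 0
    simpa using this
  have hCi : ∀ (w : Fin 4 → ℂ) i, ‖w i‖ ≤ C * ‖E w‖ := fun w i => (norm_le_pi_norm w i).trans (hC w)
  set w₀ : Fin 4 → ℂ := ![0, 1, 0, 1] with hw₀
  have hw01 : w₀ 1 = 1 := rfl
  have hw03 : w₀ 3 = 1 := rfl
  have hw00 : w₀ 0 = 0 := rfl
  have hw02 : w₀ 2 = 0 := rfl
  have hw0ne : w₀ ≠ 0 := fun h => by
    have := congrFun h 1
    rw [hw01] at this
    exact one_ne_zero this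
  have hn0 : 0 < ‖E w₀‖ := norm_pos_iff.2 (fun h => hw0ne (hE (by rw [h, map_zero])))
  set n₀ := ‖E w₀‖ with hn₀
  set m₁ : ℝ := 1 / n₀ ^ 2 with hm₁
  have hm1 : 0 < m₁ := by positivity
  set e1 : ℝ := Real.exp 1 with he1
  have he1p : 0 < e1 := Real.exp_pos 1
  -- `L`
  set L : ℝ := 2 * (e1 * C ^ 2) / m₁ with hL
  have hL0 : 0 < L := by positivity
  set η : ℝ := m₁ / (2 * (e1 * C)) with hη
  have hη0 : 0 < η := by positivity
  refine ⟨1 / (4 * L), by positivity, ?_⟩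
  intro z₁ z₂ hz₁ hz₂
  have hQ0 : Q z₁ z₂ w₀ = 1 := by
    unfold Q
    rw [hw00, hw01, hw02, hw03]
    simp
  -- bound of `Q`
  have hQb : ∀ w : Fin 4 → ℂ, ‖w 0‖ ≤ L * ‖w 1‖ → ‖w 2‖ ≤ L * ‖w 3‖ →
      ‖Q z₁ z₂ w‖ ≤ ‖w 1‖ * ‖w 3‖ * e1 := by
    intro w ha hb
    unfold Q
    rw [norm_mul, norm_mul]
    refine mul_le_mul_of_nonneg_left ?_ (by positivity)
    rw [Complex.norm_exp, he1]
    refine Real.exp_le_exp.2 ((Complex.re_le_norm _).trans ?_)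
    have g : ∀ (z a b : ℂ), ‖z‖ ≤ 1 / (4 * L) → ‖a‖ ≤ L * ‖b‖ → ‖z * a / b‖ ≤ 1 / 4 := by
      intro z a b hz hab
      by_cases hb0 : b = 0
      · rw [hb0, div_zero, norm_zero]; norm_num
      rw [norm_div, norm_mul, div_le_iff₀ (norm_pos_iff.2 hb0)]
      calc ‖z‖ * ‖a‖ ≤ 1 / (4 * L) * (L * ‖b‖) := mul_le_mul hz hab (norm_nonneg _) (by positivity)
        _ = 1 / 4 * ‖b‖ := by field_simp
    have := norm_add_le (z₁ * w 0 / w 1) (z₂ * w 2 / w 3)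
    have h1 := g z₁ (w 0) (w 1) hz₁ ha
    have h2 := g z₂ (w 2) (w 3) hz₂ hb
    rw [norm_mul]
    simp only [Complex.norm_ofNat]
    linarith
  set K : Set (Fin 4 → ℂ) := {w | ‖E w‖ = 1 ∧ ‖w 0‖ ≤ L * ‖w 1‖ ∧ ‖w 2‖ ≤ L * ‖w 3‖ ∧ η ≤ ‖w 1‖ ∧
    η ≤ ‖w 3‖} with hK
  have hKc : IsCompact K := by
    refine Metric.isCompact_of_isClosed_isBounded ?_ ?_
    · have t0 : IsClosed {w : Fin 4 → ℂ | ‖E w‖ = 1} := isClosed_eq hEc.norm continuous_const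
      have t1 : IsClosed {w : Fin 4 → ℂ | ‖w 0‖ ≤ L * ‖w 1‖} := isClosed_le (by fun_prop) (by fun_prop)
      have t2 : IsClosed {w : Fin 4 → ℂ | ‖w 2‖ ≤ L * ‖w 3‖} := isClosed_le (by fun_prop) (by fun_prop)
      have t3 : IsClosed {w : Fin 4 → ℂ | η ≤ ‖w 1‖} := isClosed_le (by fun_prop) (by fun_prop)
      have t4 : IsClosed {w : Fin 4 → ℂ | η ≤ ‖w 3‖} := isClosed_le (by fun_prop) (by fun_prop)
      exact t0.inter (t1.inter (t2.inter (t3.inter t4)))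
    · refine (Metric.isBounded_iff_subset_closedBall 0).2 ⟨C, fun w hw => ?_⟩
      rw [mem_closedBall_zero_iff]
      have := hC w
      rw [hw.1, mul_one] at this
      exact this
  have hwn : (1 : ℝ) ≤ C * n₀ := by
    have := hCi w₀ 1
    rw [hw01] at this
    simpa using this
  have hK0 : ((n₀⁻¹ : ℝ) : ℂ) • w₀ ∈ K := by
    have hη1 : η ≤ n₀⁻¹ := by
      rw [hη, hm₁, div_div, one_div, ← one_div, ← one_div]
      refine one_div_le_one_div_of_le hn0 ?_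
      have : 1 ≤ e1 := by rw [he1]; exact Real.one_le_exp (by norm_num)
      nlinarith [mul_pos hn0 hn0, mul_le_mul_of_nonneg_left hwn hn0.le]
    refine ⟨?_, ?_, ?_, ?_, ?_⟩
    · rw [map_smul, norm_smul, Complex.norm_real, Real.norm_eq_abs, abs_of_pos (inv_pos.2 hn0),
        ← hn₀, inv_mul_cancel₀ hn0.ne']
    · rw [Pi.smul_apply, hw00, smul_zero, norm_zero]
      positivity
    · rw [Pi.smul_apply, hw02, smul_zero, norm_zero]
      positivity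
    · rw [Pi.smul_apply, hw01, smul_eq_mul, mul_one, Complex.norm_real, Real.norm_eq_abs,
        abs_of_pos (inv_pos.2 hn0)]
      exact hη1
    · rw [Pi.smul_apply, hw03, smul_eq_mul, mul_one, Complex.norm_real, Real.norm_eq_abs,
        abs_of_pos (inv_pos.2 hn0)]
      exact hη1
  have hcont : ContinuousOn (fun w => ‖Q z₁ z₂ w‖) K := by
    refine ContinuousOn.norm ?_
    unfold Q
    refine ContinuousOn.mul (by fun_prop) (Complex.continuous_exp.comp_continuousOn ?_)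
    refine ContinuousOn.mul continuousOn_const (ContinuousOn.add ?_ ?_)
    · refine ContinuousOn.div (by fun_prop) (by fun_prop) fun w hw => ?_
      exact norm_pos_iff.1 (hη0.trans_le hw.2.2.2.1)
    · refine ContinuousOn.div (by fun_prop) (by fun_prop) fun w hw => ?_
      exact norm_pos_iff.1 (hη0.trans_le hw.2.2.2.2)
  obtain ⟨w, hwK, hwmax⟩ := hKc.exists_isMaxOn ⟨_, hK0⟩ hcont
  obtain ⟨hwE, hwa, hwb, hw1, hw3⟩ := hwK
  have h1 : w 1 ≠ 0 := norm_pos_iff.1 (hη0.trans_le hw1)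
  have h3 : w 3 ≠ 0 := norm_pos_iff.1 (hη0.trans_le hw3)
  have hbig : m₁ ≤ ‖Q z₁ z₂ w‖ := by
    have := hwmax hK0
    simp only [Set.mem_ofPred_eq] at this
    rw [Q_smul _ _ _ _ (by exact_mod_cast (inv_pos.2 hn0).ne') (by rw [hw01]; exact one_ne_zero)
      (by rw [hw03]; exact one_ne_zero), hQ0, mul_one, norm_pow, Complex.norm_real,
      Real.norm_eq_abs, abs_of_pos (inv_pos.2 hn0), inv_pow, ← one_div] at this
    exact this
  have hci := fun i => hCi w i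
  simp only [hwE, mul_one] at hci
  have hQw := hQb w hwa hwb
  have hCe : 0 < e1 * C := by positivity
  -- strict inequalities
  have s1 : η < ‖w 1‖ := by
    by_contra hcon
    push Not at hcon
    have : ‖w 1‖ * ‖w 3‖ * e1 ≤ η * C * e1 := by
      have := mul_le_mul hcon (hci 3) (norm_nonneg _) hη0.le
      nlinarith
    have e : η * C * e1 = m₁ / 2 := by rw [hη]; field_simp
    linarith
  have s3 : η < ‖w 3‖ := by
    by_contra hcon
    push Not at hcon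
    have : ‖w 1‖ * ‖w 3‖ * e1 ≤ C * η * e1 := by
      have := mul_le_mul (hci 1) hcon (norm_nonneg _) hC0.le
      nlinarith
    have e : C * η * e1 = m₁ / 2 := by rw [hη]; field_simp
    linarith
  have s0 : ‖w 0‖ < L * ‖w 1‖ := by
    by_contra hcon
    push Not at hcon
    have h5 : ‖w 1‖ ≤ C / L := by
      rw [le_div_iff₀ hL0, mul_comm]
      exact hcon.trans (hci 0)
    have : ‖w 1‖ * ‖w 3‖ * e1 ≤ C / L * C * e1 := by
      have := mul_le_mul h5 (hci 3) (norm_nonneg _) (by positivity)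
      nlinarith
    have e : C / L * C * e1 = m₁ / 2 := by rw [hL]; field_simp
    linarith
  have s2 : ‖w 2‖ < L * ‖w 3‖ := by
    by_contra hcon
    push Not at hcon
    have h5 : ‖w 3‖ ≤ C / L := by
      rw [le_div_iff₀ hL0, mul_comm]
      exact hcon.trans (hci 2)
    have : ‖w 1‖ * ‖w 3‖ * e1 ≤ C * (C / L) * e1 := by
      have := mul_le_mul (hci 1) h5 (norm_nonneg _) hC0.le
      nlinarith
    have e : C * (C / L) * e1 = m₁ / 2 := by rw [hL]; field_simp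
    linarith
  refine ⟨w, h1, h3, hwE, ?_⟩
  have hEw : 0 < ‖E w‖ := by rw [hwE]; exact one_pos
  have ev1 : ∀ᶠ w' in 𝓝 w, 0 < ‖E w'‖ := (hEc.norm.tendsto w).eventually (lt_mem_nhds hEw)
  have ev2 : ∀ᶠ w' : Fin 4 → ℂ in 𝓝 w, η < ‖w' 1‖ / ‖E w'‖ := by
    have : Tendsto (fun w' : Fin 4 → ℂ => ‖w' 1‖ / ‖E w'‖) (𝓝 w) (𝓝 (‖w 1‖ / ‖E w‖)) :=
      ((continuous_apply 1).norm.tendsto w).div (hEc.norm.tendsto w) hEw.ne'
    refine this.eventually (lt_mem_nhds ?_)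
    rw [hwE, div_one]
    exact s1
  have ev3 : ∀ᶠ w' : Fin 4 → ℂ in 𝓝 w, η < ‖w' 3‖ / ‖E w'‖ := by
    have : Tendsto (fun w' : Fin 4 → ℂ => ‖w' 3‖ / ‖E w'‖) (𝓝 w) (𝓝 (‖w 3‖ / ‖E w‖)) :=
      ((continuous_apply 3).norm.tendsto w).div (hEc.norm.tendsto w) hEw.ne'
    refine this.eventually (lt_mem_nhds ?_)
    rw [hwE, div_one]
    exact s3
  have ev4 : ∀ᶠ w' : Fin 4 → ℂ in 𝓝 w, ‖w' 0‖ < L * ‖w' 1‖ :=
    (isOpen_lt (by fun_prop) (by fun_prop)).mem_nhds s0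
  have ev5 : ∀ᶠ w' : Fin 4 → ℂ in 𝓝 w, ‖w' 2‖ < L * ‖w' 3‖ :=
    (isOpen_lt (by fun_prop) (by fun_prop)).mem_nhds s2
  filter_upwards [ev1, ev2, ev3, ev4, ev5] with w' g1 g2 g3 g4 g5
  have g1' : (0:ℝ) < ‖E w'‖⁻¹ := inv_pos.2 g1
  have hw'1 : w' 1 ≠ 0 := by
    intro h
    rw [h, norm_zero, zero_div] at g2
    linarith
  have hw'3 : w' 3 ≠ 0 := by
    intro h
    rw [h, norm_zero, zero_div] at g3
    linarith
  have hmem : ((‖E w'‖⁻¹ : ℝ) : ℂ) • w' ∈ K := by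
    have nc : ‖((‖E w'‖⁻¹ : ℝ) : ℂ)‖ = ‖E w'‖⁻¹ := by
      rw [Complex.norm_real, Real.norm_eq_abs, abs_of_pos g1']
    refine ⟨?_, ?_, ?_, ?_, ?_⟩
    · rw [map_smul, norm_smul, nc, inv_mul_cancel₀ g1.ne']
    · rw [Pi.smul_apply, Pi.smul_apply, norm_smul, norm_smul, nc]
      calc ‖E w'‖⁻¹ * ‖w' 0‖ ≤ ‖E w'‖⁻¹ * (L * ‖w' 1‖) := mul_le_mul_of_nonneg_left g4.le g1'.le
        _ = _ := by ring
    · rw [Pi.smul_apply, Pi.smul_apply, norm_smul, norm_smul, nc]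
      calc ‖E w'‖⁻¹ * ‖w' 2‖ ≤ ‖E w'‖⁻¹ * (L * ‖w' 3‖) := mul_le_mul_of_nonneg_left g5.le g1'.le
        _ = _ := by ring
    · rw [Pi.smul_apply, norm_smul, nc, mul_comm, ← div_eq_mul_inv]
      exact g2.le
    · rw [Pi.smul_apply, norm_smul, nc, mul_comm, ← div_eq_mul_inv]
      exact g3.le
  have := hwmax hmem
  simp only [Set.mem_ofPred_eq] at this
  rw [Q_smul _ _ _ _ (by exact_mod_cast g1'.ne') hw'1 hw'3, norm_mul, norm_pow, Complex.norm_real,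
    Real.norm_eq_abs, abs_of_pos g1', inv_pow] at this
  rw [inv_mul_le_iff₀ (by positivity)] at this
  linarith

/-- **Support functionals with prescribed values on two Jordan blocks.** -/
theorem exists_pair (u₁ v₁ u₂ v₂ : X) (hli : LinearIndependent ℂ ![u₁, v₁, u₂, v₂]) :
    ∃ κ : ℝ, 0 < κ ∧ ∀ z₁ z₂ : ℂ, ‖z₁‖ ≤ κ → ‖z₂‖ ≤ κ → ∃ (a₁ b₁ a₂ b₂ : ℂ) (f : X →L[ℂ] ℂ),
      ‖(a₁ • u₁ + b₁ • v₁) + (a₂ • u₂ + b₂ • v₂)‖ = 1 ∧ ‖f‖ = 1 ∧
      f ((a₁ • u₁ + b₁ • v₁) + (a₂ • u₂ + b₂ • v₂)) = 1 ∧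
      f (a₁ • u₁ + b₁ • v₁) = 1 / 2 ∧ f (a₂ • u₂ + b₂ • v₂) = 1 / 2 ∧
      b₁ * f u₁ = z₁ ∧ b₂ * f u₂ = z₂ := by
  set E : (Fin 4 → ℂ) →ₗ[ℂ] X := Fintype.linearCombination ℂ ![u₁, v₁, u₂, v₂] with hEdef
  have hE : Function.Injective E := by
    exact linearIndependent_iff_injective_fintypeLinearCombination.1 hli
  have hEw : ∀ w : Fin 4 → ℂ, E w = (w 0 • u₁ + w 1 • v₁) + (w 2 • u₂ + w 3 • v₂) := by
    intro w
    rw [hEdef, Fintype.linearCombination_apply, Fin.sum_univ_four]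
    simp [add_assoc]
  obtain ⟨κ, hκ, H⟩ := exists_max E hE
  refine ⟨κ, hκ, fun z₁ z₂ h₁ h₂ => ?_⟩
  obtain ⟨w, h1, h3, hw, hmax⟩ := H z₁ z₂ h₁ h₂
  have hle := norm_phi_le E z₁ z₂ w h1 h3 hw hmax
  let e := LinearEquiv.ofInjective E hE
  let g₀ : LinearMap.range E →ₗ[ℂ] ℂ := (phiL z₁ z₂ w).comp e.symm.toLinearMap
  have hg₀ : ∀ y : LinearMap.range E, ‖g₀ y‖ ≤ 1 * ‖y‖ := by
    intro y
    have h5 := hle (e.symm y)
    have h6 : E (e.symm y) = y := by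
      have := e.apply_symm_apply y
      exact congrArg Subtype.val this
    rw [h6] at h5
    rw [one_mul]
    exact h5
  let g : LinearMap.range E →L[ℂ] ℂ := g₀.mkContinuous 1 hg₀
  obtain ⟨f, hf1, hf2⟩ := exists_extension_norm_eq (LinearMap.range E) g
  have hfE : ∀ y : Fin 4 → ℂ, f (E y) = phi z₁ z₂ w y := by
    intro y
    have := hf1 ⟨E y, LinearMap.mem_range_self E y⟩
    rw [this]
    change (phiL z₁ z₂ w) (e.symm ⟨E y, _⟩) = _
    have h7 : e.symm ⟨E y, LinearMap.mem_range_self E y⟩ = y := by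
      rw [LinearEquiv.symm_apply_eq]
      rfl
    rw [h7]
    rfl
  have hfle : ‖f‖ ≤ 1 := by
    rw [hf2]
    exact g₀.mkContinuous_norm_le zero_le_one hg₀
  have hfx : f (E w) = 1 := by rw [hfE, phi_self z₁ z₂ w h1 h3]
  have hfge : 1 ≤ ‖f‖ := by
    have := f.le_opNorm (E w)
    rw [hfx, hw] at this
    simpa using this
  have c1 : f (w 0 • u₁ + w 1 • v₁) = 1 / 2 := by
    have := hfE ![w 0, w 1, 0, 0]
    rw [hEw] at this
    simp only [Matrix.cons_val_zero, Matrix.cons_val_one, Matrix.cons_val, zero_smul, add_zero] at this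
    rw [this]
    unfold phi
    simp only [Matrix.cons_val_zero, Matrix.cons_val_one, Matrix.cons_val]
    field_simp
    ring
  have c2 : f (w 2 • u₂ + w 3 • v₂) = 1 / 2 := by
    have := hfE ![0, 0, w 2, w 3]
    rw [hEw] at this
    simp only [Matrix.cons_val_zero, Matrix.cons_val_one, Matrix.cons_val, zero_smul, add_zero,
      zero_add] at this
    rw [this]
    unfold phi
    simp only [Matrix.cons_val_zero, Matrix.cons_val_one, Matrix.cons_val]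
    field_simp
    ring
  have c3 : w 1 * f u₁ = z₁ := by
    have := hfE ![1, 0, 0, 0]
    rw [hEw] at this
    simp only [Matrix.cons_val_zero, Matrix.cons_val_one, Matrix.cons_val, zero_smul, add_zero,
      one_smul] at this
    rw [this]
    unfold phi
    simp only [Matrix.cons_val_zero, Matrix.cons_val_one, Matrix.cons_val]
    field_simp
    ring
  have c4 : w 3 * f u₂ = z₂ := by
    have := hfE ![0, 0, 1, 0]
    rw [hEw] at this
    simp only [Matrix.cons_val_zero, Matrix.cons_val_one, Matrix.cons_val, zero_smul, add_zero,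
      one_smul, zero_add] at this
    rw [this]
    unfold phi
    simp only [Matrix.cons_val_zero, Matrix.cons_val_one, Matrix.cons_val]
    field_simp
    ring
  rw [hEw] at hw hfx
  exact ⟨w 0, w 1, w 2, w 3, f, hw, le_antisymm hfle hfge, hfx, c1, c2, c3, c4⟩

end

end Q100.Nh
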