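import Pool.Agent.Q100.PolyDefs

/-!
# Polytopes given by finitely many inequalities
-/

set_option autoImplicit false
open Filter Topology MeasureTheory

namespace Q100.Poly

universe u v

theorem isPolytope_of_ineq {X : Type u} [NormedAddCommGroup X] [NormedSpace ℝ X]
    (E : Submodule ℝ X) (hE : FiniteDimensional ℝ E) {ι : Type v} [Finite ι]
    (φ : ι → X →ₗ[ℝ] ℝ) (h : ∀ x ∈ E, ‖x‖ ≤ 1 ↔ ∀ i, φ i x ≤ 1) :
    IsPolytope {x : X | x ∈ E ∧ ‖x‖ ≤ 1} := by
  classical
  have _ := Fintype.ofFinite ι
  set K : Set X := {x : X | x ∈ E ∧ ‖x‖ ≤ 1} with hK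
  have hcomp : IsCompact K := by
    have hprop : ProperSpace E := FiniteDimensional.proper ℝ E
    have h1 : IsCompact (Metric.closedBall (0 : E) 1) := isCompact_closedBall 0 1
    have h2 := h1.image (f := fun e : E => (e : X)) continuous_subtype_val
    have h3 : (fun e : E => (e : X)) '' Metric.closedBall (0 : E) 1 = K := by
      ext x
      constructor
      · rintro ⟨e, he, rfl⟩
        exact ⟨e.2, by simpa using he⟩
      · rintro ⟨hx1, hx2⟩
        exact ⟨⟨x, hx1⟩, by simpa using hx2, rfl⟩
    rwa [h3] at h2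
  have hconv : Convex ℝ K := by
    have h1 : K = (E : Set X) ∩ Metric.closedBall 0 1 := by
      ext x
      simp [hK]
    rw [h1]
    exact E.convex.inter (convex_closedBall _ _)
  let act : X → Set ι := fun x => {i | φ i x = 1}
  have hinj : Set.InjOn act (K.extremePoints ℝ) := by
    intro x hx x' hx' hact
    by_contra hne
    have hxK := hx.1
    have hx'K := hx'.1
    have hle := (h x hxK.1).1 hxK.2
    have hle' := (h x' hx'K.1).1 hx'K.2
    set v := x' - x with hv
    have hvE : v ∈ E := E.sub_mem hx'K.1 hxK.1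
    have hact0 : ∀ i, φ i x = 1 → φ i v = 0 := by
      intro i hi
      have h1 : i ∈ act x' := by rw [← hact]; exact hi
      have h2 : φ i x' = 1 := h1
      rw [hv, map_sub, hi, h2, sub_self]
    have hex : ∀ i, ∃ t : ℝ, 0 < t ∧ ∀ s, |s| ≤ t → φ i (x + s • v) ≤ 1 := by
      intro i
      by_cases hi : φ i x = 1
      · refine ⟨1, one_pos, fun s _ => ?_⟩
        rw [map_add, map_smul, hact0 i hi, smul_zero, add_zero]
        exact hi.le
      · have hlt : φ i x < 1 := lt_of_le_of_ne (hle i) hi
        refine ⟨(1 - φ i x) / (|φ i v| + 1), div_pos (by linarith) (by positivity), fun s hs => ?_⟩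
        rw [map_add, map_smul, smul_eq_mul]
        have h1 : s * φ i v ≤ |s| * |φ i v| := by
          rw [← abs_mul]; exact le_abs_self _
        have h2 : |s| * |φ i v| ≤ (1 - φ i x) / (|φ i v| + 1) * |φ i v| :=
          mul_le_mul_of_nonneg_right hs (abs_nonneg _)
        have h3 : (1 - φ i x) / (|φ i v| + 1) * |φ i v| ≤ 1 - φ i x := by
          rw [div_mul_eq_mul_div, div_le_iff₀ (by positivity)]
          nlinarith [abs_nonneg (φ i v)]
        linarith
    choose t ht0 ht using hex
    obtain ⟨s, hs0, hs⟩ : ∃ s : ℝ, 0 < s ∧ ∀ i, s ≤ t i := by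
      rcases isEmpty_or_nonempty ι with h0 | h0
      · exact ⟨1, one_pos, fun i => (h0.false i).elim⟩
      · obtain ⟨i0, hi0⟩ := Finite.exists_min t
        exact ⟨t i0, ht0 i0, hi0⟩
    have hmem : ∀ r : ℝ, |r| ≤ s → x + r • v ∈ K := by
      intro r hr
      have h1 : x + r • v ∈ E := E.add_mem hxK.1 (E.smul_mem _ hvE)
      refine ⟨h1, (h _ h1).2 (fun i => ht i r (hr.trans (hs i)))⟩
    have h1 := hmem s (by rw [abs_of_pos hs0])
    have h2 := hmem (-s) (by rw [abs_neg, abs_of_pos hs0])
    have h3 : x ∈ openSegment ℝ (x + s • v) (x + (-s) • v) := by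
      refine ⟨1 / 2, 1 / 2, by norm_num, by norm_num, by norm_num, ?_⟩
      rw [← smul_add, show x + s • v + (x + -s • v) = (2 : ℝ) • x by
        rw [neg_smul, two_smul]; abel, smul_smul]
      norm_num
    have h4 := hx.2 h1 h2 h3
    have h5 : s • v = 0 := by
      have : x + s • v = x := h4
      simpa using this
    have h6 : v = 0 := (smul_eq_zero.1 h5).resolve_left hs0.ne'
    exact hne (sub_eq_zero.1 h6).symm
  have hfin : (K.extremePoints ℝ).Finite :=
    Set.Finite.of_finite_image (Set.toFinite (act '' K.extremePoints ℝ)) hinj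
  refine ⟨K.extremePoints ℝ, hfin, ?_⟩
  have h1 := closure_convexHull_extremePoints hcomp hconv
  rw [(hfin.isClosed_convexHull ℝ).closure_eq] at h1
  exact h1.symm

end Q100.Poly
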