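import Pool.Agent.Q100.Renorm
import Pool.Agent.Q100.Polytope

/-!
# A polyhedral renorming of `c₀` with a Cantor set of extreme points
-/

set_option autoImplicit false
open Filter Topology MeasureTheory
open scoped ZeroAtInfty

noncomputable section

namespace Q100.Poly

open Q100.Renorm

/-- The weights. -/
def wM (m : ℕ) : ℝ := (1 / 2) ^ (m + 2)

/-- The moduli of the coordinates of the extreme points. -/
def ep (m : ℕ) : ℝ := (1 / 2) ^ m

/-- The normalizing constants. -/
def cn (n : ℕ) : ℝ := ep n + ∑ m ∈ Finset.range n, wM m * ep m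

/-- The functions defining the norm. -/
def pn (n : ℕ) (x : ℕ → ℝ) : ℝ := |x n| + ∑ m ∈ Finset.range n, wM m * |x m|

theorem wM_pos (m : ℕ) : 0 < wM m := by unfold wM; positivity
theorem ep_pos (m : ℕ) : 0 < ep m := by unfold ep; positivity
theorem ep_le_one (m : ℕ) : ep m ≤ 1 := pow_le_one₀ (by norm_num) (by norm_num)

theorem wM_hasSum : HasSum wM (1 / 2) := by
  have h := (hasSum_geometric_of_lt_one (r := (1 / 2 : ℝ)) (by norm_num) (by norm_num)).mul_left
    (1 / 4)
  have h1 : (fun i : ℕ => 1 / 4 * (1 / 2 : ℝ) ^ i) = wM := by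
    funext i; unfold wM; rw [pow_add]; ring
  rw [h1] at h
  have h2 : (1 / 4 : ℝ) * (1 - 1 / 2)⁻¹ = 1 / 2 := by norm_num
  rw [h2] at h
  exact h

theorem sum_wM_le (n : ℕ) : ∑ m ∈ Finset.range n, wM m ≤ 1 / 2 :=
  sum_le_hasSum _ (fun m _ => (wM_pos m).le) wM_hasSum

theorem cn_lower (n : ℕ) : 1 / 4 ≤ cn n := by
  rcases Nat.eq_zero_or_pos n with h | h
  · subst h; simp [cn, ep]; norm_num
  · have h1 : wM 0 * ep 0 ≤ ∑ m ∈ Finset.range n, wM m * ep m :=
      Finset.single_le_sum (f := fun m => wM m * ep m)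
        (fun m _ => (mul_pos (wM_pos m) (ep_pos m)).le) (Finset.mem_range.2 h)
    have h2 : wM 0 * ep 0 = 1 / 4 := by simp [wM, ep]; norm_num
    have h3 := ep_pos n
    unfold cn
    linarith

theorem cn_pos (n : ℕ) : 0 < cn n := lt_of_lt_of_le (by norm_num) (cn_lower n)

theorem cn_upper (n : ℕ) : cn n ≤ 3 / 2 := by
  have h1 : ∑ m ∈ Finset.range n, wM m * ep m ≤ ∑ m ∈ Finset.range n, wM m :=
    Finset.sum_le_sum (fun m _ => by
      have := mul_le_mul_of_nonneg_left (ep_le_one m) (wM_pos m).le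
      linarith)
  have h2 := sum_wM_le n
  have h3 := ep_le_one n
  unfold cn
  linarith

theorem pn_nonneg (n : ℕ) (x : ℕ → ℝ) : 0 ≤ pn n x :=
  add_nonneg (abs_nonneg _) (Finset.sum_nonneg (fun m _ => mul_nonneg (wM_pos m).le (abs_nonneg _)))

theorem pn_add (n : ℕ) (x y : ℕ → ℝ) : pn n (x + y) ≤ pn n x + pn n y := by
  unfold pn
  have h1 : ∑ m ∈ Finset.range n, wM m * |(x + y) m| ≤
      ∑ m ∈ Finset.range n, wM m * |x m| + ∑ m ∈ Finset.range n, wM m * |y m| := by
    rw [← Finset.sum_add_distrib]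
    refine Finset.sum_le_sum (fun m _ => ?_)
    rw [← mul_add]
    exact mul_le_mul_of_nonneg_left (abs_add_le _ _) (wM_pos m).le
  have h2 : |(x + y) n| ≤ |x n| + |y n| := abs_add_le _ _
  linarith

theorem pn_smul (n : ℕ) (r : ℝ) (x : ℕ → ℝ) : pn n (r • x) = |r| * pn n x := by
  unfold pn
  rw [mul_add, Finset.mul_sum]
  congr 1
  · simp [abs_mul]
  · refine Finset.sum_congr rfl (fun m _ => ?_)
    simp only [Pi.smul_apply, smul_eq_mul, abs_mul]
    ring

theorem pn_le {n : ℕ} {x : ℕ → ℝ} {K : ℝ} (hK : ∀ m, |x m| ≤ K) (hK0 : 0 ≤ K) :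
    pn n x ≤ 3 / 2 * K := by
  unfold pn
  have h1 : ∑ m ∈ Finset.range n, wM m * |x m| ≤ (∑ m ∈ Finset.range n, wM m) * K := by
    rw [Finset.sum_mul]
    exact Finset.sum_le_sum (fun m _ => mul_le_mul_of_nonneg_left (hK m) (wM_pos m).le)
  have h2 := mul_le_mul_of_nonneg_right (sum_wM_le n) hK0
  have h3 := hK n
  linarith

/-- The underlying space `c₀`. -/
abbrev W : Type := C₀(ℕ, ℝ)

theorem abs_coord_le (x : W) (m : ℕ) : |x m| ≤ ‖x‖ := by
  have := x.toBCF.norm_coe_le_norm m
  exact this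

/-- The function defining the norm. -/
def pfun (x : W) : ℝ := ⨆ n, pn n x / cn n

theorem bdd (x : W) : BddAbove (Set.range (fun n => pn n x / cn n)) := by
  refine ⟨6 * ‖x‖, ?_⟩
  rintro _ ⟨n, rfl⟩
  simp only
  rw [div_le_iff₀ (cn_pos n)]
  have h1 := pn_le (n := n) (abs_coord_le x) (norm_nonneg x)
  have h2 := cn_lower n
  have h3 := norm_nonneg x
  nlinarith

theorem pn_le_pfun (n : ℕ) (x : W) : pn n x ≤ cn n * pfun x := by
  have h1 := le_ciSup (bdd x) n
  rw [div_le_iff₀ (cn_pos n)] at h1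
  unfold pfun
  linarith

theorem pfun_le {x : W} {r : ℝ} (h : ∀ n, pn n x ≤ cn n * r) : pfun x ≤ r := by
  refine ciSup_le (fun n => ?_)
  rw [div_le_iff₀ (cn_pos n), mul_comm]
  exact h n

theorem pfun_nonneg (x : W) : 0 ≤ pfun x := by
  have h1 := pn_le_pfun 0 x
  have h2 := pn_nonneg 0 x
  have h3 := cn_pos 0
  by_contra h
  push Not at h
  nlinarith

/-- The seminorm. -/
def sn : Seminorm ℝ W :=
  Seminorm.ofSMulLE pfun
    (le_antisymm (pfun_le (fun n => by simp [pn])) (pfun_nonneg 0))
    (fun x y => pfun_le (fun n => by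
      rw [mul_add]
      exact (pn_add n x y).trans (add_le_add (pn_le_pfun n x) (pn_le_pfun n y))))
    (fun r x => pfun_le (fun n => by
      have h1 : pn n (r • x : W) = |r| * pn n x := pn_smul n r x
      rw [h1, Real.norm_eq_abs]
      have h2 := mul_le_mul_of_nonneg_left (pn_le_pfun n x) (abs_nonneg r)
      linarith))

theorem sn_apply (x : W) : sn x = pfun x := rfl

/-- The equivalent norm. -/
def EN : EquivNorm W where
  p := sn
  c := 2 / 3
  C := 6
  hc := by norm_num
  lower x := by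
    have h1 : ‖x‖ ≤ 3 / 2 * pfun x := by
      have h2 : ‖x.toBCF‖ ≤ 3 / 2 * pfun x := by
        refine (BoundedContinuousFunction.norm_le (by
          have := pfun_nonneg x; positivity)).2 (fun n => ?_)
        have h3 := pn_le_pfun n x
        have h4 : |x n| ≤ pn n x := by
          unfold pn
          have : 0 ≤ ∑ m ∈ Finset.range n, wM m * |x m| :=
            Finset.sum_nonneg (fun m _ => mul_nonneg (wM_pos m).le (abs_nonneg _))
          linarith
        have h5 := mul_le_mul_of_nonneg_right (cn_upper n) (pfun_nonneg x)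
        change |x n| ≤ _
        linarith
      exact h2
    rw [sn_apply]
    linarith
  upper x := pfun_le (fun n => by
    have h1 := pn_le (n := n) (abs_coord_le x) (norm_nonneg x)
    have h2 := cn_lower n
    have h3 := norm_nonneg x
    nlinarith)

/-- The renormed space. -/
abbrev X : Type := Space EN

/-- The coordinates. -/
def cf (x : X) : ℕ → ℝ := toW EN x

theorem cf_add (x y : X) : cf (x + y) = cf x + cf y := rfl
theorem cf_smul (r : ℝ) (x : X) : cf (r • x) = r • cf x := rfl

theorem cf_tendsto (x : X) : Tendsto (cf x) atTop (𝓝 0) := by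
  have h := (toW EN x).zero_at_infty'
  rw [Filter.cocompact_eq_cofinite, Nat.cofinite_eq_atTop] at h
  exact h

theorem cf_ext {x y : X} (h : ∀ n, cf x n = cf y n) : x = y := by
  apply (toW EN).injective
  ext n
  exact h n

theorem N1 (n : ℕ) (x : X) : pn n (cf x) ≤ cn n * ‖x‖ := pn_le_pfun n (toW EN x)

theorem N2 {x : X} {r : ℝ} (h : ∀ n, pn n (cf x) ≤ cn n * r) : ‖x‖ ≤ r := pfun_le h

theorem N3 {x : X} {r : ℝ} (h : r < ‖x‖) : ∃ n, r < pn n (cf x) / cn n :=
  exists_lt_of_lt_ciSup h

theorem abs_cf_le (x : X) (n : ℕ) : |cf x n| ≤ 3 / 2 * ‖x‖ := by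
  have h1 := N1 n x
  have h2 : |cf x n| ≤ pn n (cf x) := by
    unfold pn
    have : 0 ≤ ∑ m ∈ Finset.range n, wM m * |cf x m| :=
      Finset.sum_nonneg (fun m _ => mul_nonneg (wM_pos m).le (abs_nonneg _))
    linarith
  have h3 := mul_le_mul_of_nonneg_right (cn_upper n) (norm_nonneg x)
  linarith

/-- The coordinate functionals. -/
def coord (n : ℕ) : X →L[ℝ] ℝ :=
  LinearMap.mkContinuous
    { toFun := fun x => cf x n
      map_add' := fun _ _ => rfl
      map_smul' := fun _ _ => rfl } (3 / 2) (fun x => abs_cf_le x n)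

@[simp] theorem coord_apply (n : ℕ) (x : X) : coord n x = cf x n := rfl

/-- Signs. -/
def sg (a : ℕ → Bool) (m : ℕ) : ℝ := if a m then 1 else -1

theorem abs_sg (a : ℕ → Bool) (m : ℕ) : |sg a m| = 1 := by
  unfold sg; split_ifs <;> simp

theorem sg_mul_self (a : ℕ → Bool) (m : ℕ) : sg a m * sg a m = 1 := by
  unfold sg; split_ifs <;> simp

theorem sg_mul_le (a : ℕ → Bool) (m : ℕ) (t : ℝ) : sg a m * t ≤ |t| := by
  have h := le_abs_self (sg a m * t)
  rwa [abs_mul, abs_sg, one_mul] at h

/-- The functionals defining the norm. -/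
def phi (n : ℕ) (a : ℕ → Bool) : X →L[ℝ] ℝ :=
  (cn n)⁻¹ • (sg a n • coord n + ∑ m ∈ Finset.range n, (wM m * sg a m) • coord m)

theorem phi_apply (n : ℕ) (a : ℕ → Bool) (x : X) :
    phi n a x = (sg a n * cf x n + ∑ m ∈ Finset.range n, wM m * (sg a m * cf x m)) / cn n := by
  unfold phi
  rw [_root_.smul_apply, _root_.add_apply, _root_.sum_apply, _root_.smul_apply, smul_eq_mul,
    div_eq_inv_mul]
  congr 2
  refine Finset.sum_congr rfl (fun m _ => ?_)
  rw [_root_.smul_apply, smul_eq_mul, coord_apply]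
  ring

theorem phi_le_pn (n : ℕ) (a : ℕ → Bool) (x : X) : phi n a x ≤ pn n (cf x) / cn n := by
  rw [phi_apply]
  refine div_le_div_of_nonneg_right ?_ (cn_pos n).le
  unfold pn
  exact add_le_add (sg_mul_le _ _ _) (Finset.sum_le_sum (fun m _ =>
    mul_le_mul_of_nonneg_left (sg_mul_le _ _ _) (wM_pos m).le))

theorem phi_le_norm (n : ℕ) (a : ℕ → Bool) (x : X) : phi n a x ≤ ‖x‖ := by
  refine (phi_le_pn n a x).trans ?_
  rw [div_le_iff₀ (cn_pos n), mul_comm]
  exact N1 n x

theorem exists_phi_eq (n : ℕ) (x : X) : ∃ a, phi n a x = pn n (cf x) / cn n := by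
  refine ⟨fun m => decide (0 ≤ cf x m), ?_⟩
  have h : ∀ m, sg (fun m => decide (0 ≤ cf x m)) m * cf x m = |cf x m| := by
    intro m
    unfold sg
    by_cases h0 : 0 ≤ cf x m
    · simp [h0, abs_of_nonneg h0]
    · rw [abs_of_neg (not_le.1 h0)]
      simp [h0]
  rw [phi_apply]
  simp_rw [h]
  rfl

theorem summable_w {d : ℕ → ℝ} {K : ℝ} (hd : ∀ m, |d m| ≤ K) : Summable (fun m => wM m * d m) := by
  refine Summable.of_norm_bounded (wM_hasSum.summable.mul_right K) (fun m => ?_)
  rw [norm_mul, Real.norm_eq_abs, Real.norm_eq_abs, abs_of_pos (wM_pos m)]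
  exact mul_le_mul_of_nonneg_left (hd m) (wM_pos m).le

/-- The key lemma. -/
theorem keyL {d : ℕ → ℝ} (hd : Tendsto d atTop (𝓝 0))
    (h1 : ∀ n, d n + ∑ m ∈ Finset.range n, wM m * d m ≤ 0)
    (h2 : 0 ≤ ∑' m, wM m * d m) : ∀ n, d n = 0 := by
  obtain ⟨K, hK⟩ := hd.abs.bddAbove_range
  have hK' : ∀ m, |d m| ≤ K := fun m => hK ⟨m, rfl⟩
  have hs := summable_w hK'
  set D : ℕ → ℝ := fun n => -∑ m ∈ Finset.range n, wM m * d m with hD
  have hD0 : D 0 = 0 := by simp [hD]
  have hDs : ∀ n, D (n + 1) = D n - wM n * d n := by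
    intro n; simp only [hD, Finset.sum_range_succ]; ring
  have hdD : ∀ n, d n ≤ D n := fun n => by
    have := h1 n
    simp only [hD]; linarith
  have hlim : Tendsto D atTop (𝓝 (-∑' m, wM m * d m)) := hs.hasSum.tendsto_sum_nat.neg
  have hw1 : ∀ n, wM n ≤ 1 / 4 := fun n => by
    unfold wM
    rw [pow_add]
    have : (1 / 2 : ℝ) ^ n ≤ 1 := pow_le_one₀ (by norm_num) (by norm_num)
    nlinarith
  have hstep : ∀ n, D n * (1 - wM n) ≤ D (n + 1) := fun n => by
    rw [hDs]
    have := mul_le_mul_of_nonneg_left (hdD n) (wM_pos n).le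
    linarith
  have hDn : ∀ n, 0 ≤ D n := by
    intro n
    induction n with
    | zero => rw [hD0]
    | succ n ih =>
      have h3 := hw1 n
      have h4 : 0 ≤ D n * (1 - wM n) := mul_nonneg ih (by linarith)
      exact h4.trans (hstep n)
  have hS : ∑' m, wM m * d m = 0 := by
    refine le_antisymm ?_ h2
    have := ge_of_tendsto' hlim hDn
    linarith
  rw [hS, neg_zero] at hlim
  have hq : ∀ k n, k ≤ n → (1 / 2 + (1 / 2) ^ (n + 1)) * D k ≤ D n := by
    intro k n hkn
    induction n, hkn using Nat.le_induction with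
    | base =>
      have h3 : (1 / 2 : ℝ) ^ (k + 1) ≤ 1 / 2 := by
        rw [pow_succ]
        have : (1 / 2 : ℝ) ^ k ≤ 1 := pow_le_one₀ (by norm_num) (by norm_num)
        linarith
      nlinarith [hDn k]
    | succ n hkn ih =>
      refine le_trans ?_ (hstep n)
      have h3 := hw1 n
      have h4 : (1 / 2 + (1 / 2) ^ (n + 1)) * D k * (1 - wM n) ≤ D n * (1 - wM n) :=
        mul_le_mul_of_nonneg_right ih (by linarith)
      refine le_trans ?_ h4
      have h5 : (1 / 2 + (1 / 2 : ℝ) ^ (n + 1 + 1)) ≤ (1 / 2 + (1 / 2) ^ (n + 1)) * (1 - wM n) := by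
        unfold wM
        have h6 : (1 / 2 : ℝ) ^ n ≤ 1 := pow_le_one₀ (by norm_num) (by norm_num)
        have h7 : (0 : ℝ) < (1 / 2) ^ n := by positivity
        simp only [pow_succ]
        nlinarith
      calc (1 / 2 + (1 / 2) ^ (n + 1 + 1)) * D k ≤
          ((1 / 2 + (1 / 2) ^ (n + 1)) * (1 - wM n)) * D k :=
            mul_le_mul_of_nonneg_right h5 (hDn k)
        _ = _ := by ring
  have hDk : ∀ k, D k = 0 := by
    intro k
    refine le_antisymm ?_ (hDn k)
    have h3 : ∀ᶠ n in atTop, 1 / 2 * D k ≤ D n := by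
      filter_upwards [eventually_ge_atTop k] with n hn
      have h4 := hq k n hn
      have h5 : (0 : ℝ) < (1 / 2) ^ (n + 1) := by positivity
      nlinarith [hDn k]
    have h4 := ge_of_tendsto hlim h3
    linarith
  intro n
  have h3 := hDs n
  rw [hDk, hDk] at h3
  have h4 : wM n * d n = 0 := by linarith
  exact (mul_eq_zero.1 h4).resolve_left (wM_pos n).ne'

/-- The cluster functionals (not normalized). -/
def psi (a : ℕ → Bool) : X →L[ℝ] ℝ :=
  LinearMap.mkContinuous
    { toFun := fun x => ∑' m, wM m * (sg a m * cf x m)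
      map_add' := fun x y => by
        have hb : ∀ (z : X) m, |sg a m * cf z m| ≤ 3 / 2 * ‖z‖ := fun z m => by
          rw [abs_mul, abs_sg, one_mul]; exact abs_cf_le z m
        rw [← (summable_w (hb x)).tsum_add (summable_w (hb y))]
        refine tsum_congr (fun m => ?_)
        rw [cf_add, Pi.add_apply]; ring
      map_smul' := fun r x => by
        rw [RingHom.id_apply, smul_eq_mul, ← tsum_mul_left]
        refine tsum_congr (fun m => ?_)
        rw [cf_smul, Pi.smul_apply, smul_eq_mul]; ring } (3 / 4) (fun x => by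
    have hb : ∀ m, |sg a m * cf x m| ≤ 3 / 2 * ‖x‖ := fun m => by
      rw [abs_mul, abs_sg, one_mul]; exact abs_cf_le x m
    change ‖∑' m, wM m * (sg a m * cf x m)‖ ≤ _
    have h1 : HasSum (fun m => wM m * (3 / 2 * ‖x‖)) (1 / 2 * (3 / 2 * ‖x‖)) :=
      wM_hasSum.mul_right _
    refine (tsum_of_norm_bounded h1 (fun m => ?_)).trans (le_of_eq (by ring))
    rw [norm_mul, Real.norm_eq_abs, Real.norm_eq_abs, abs_of_pos (wM_pos m)]
    exact mul_le_mul_of_nonneg_left (hb m) (wM_pos m).le)

theorem psi_apply (a : ℕ → Bool) (x : X) : psi a x = ∑' m, wM m * (sg a m * cf x m) := rfl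

/-- The limit of the constants `cn`. -/
def cInf : ℝ := ∑' m, wM m * ep m

theorem summable_ep : Summable (fun m => wM m * ep m) :=
  summable_w (K := 1) (fun m => by rw [abs_of_pos (ep_pos m)]; exact ep_le_one m)

theorem ep_tendsto : Tendsto ep atTop (𝓝 0) :=
  tendsto_pow_atTop_nhds_zero_of_lt_one (by norm_num) (by norm_num)

theorem cInf_tendsto : Tendsto cn atTop (𝓝 cInf) := by
  have := ep_tendsto.add summable_ep.hasSum.tendsto_sum_nat
  rw [zero_add] at this
  exact this

theorem cInf_pos : 0 < cInf := by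
  have := ge_of_tendsto' cInf_tendsto cn_lower
  linarith

/-- Unit vectors. -/
def uv (k : ℕ) : X := (toW EN).symm
  { toFun := Pi.single k 1
    continuous_toFun := continuous_of_discreteTopology
    zero_at_infty' := by
      rw [Filter.cocompact_eq_cofinite, Nat.cofinite_eq_atTop]
      refine tendsto_const_nhds.congr' ?_
      filter_upwards [eventually_gt_atTop k] with n hn
      rw [Pi.single_apply, if_neg (by omega)] }

theorem cf_uv (k n : ℕ) : cf (uv k) n = if n = k then 1 else 0 := by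
  have h : cf (uv k) n = (Pi.single k (1 : ℝ) : ℕ → ℝ) n := rfl
  rw [h, Pi.single_apply]

theorem norm_uv_le (k : ℕ) : ‖uv k‖ ≤ 6 := by
  refine N2 (fun n => ?_)
  have h1 : pn n (cf (uv k)) ≤ 3 / 2 * 1 := pn_le (fun m => by
    rw [cf_uv]; split_ifs <;> simp) zero_le_one
  have h2 := cn_lower n
  linarith

theorem norm_term_le (a : ℕ → Bool) (m : ℕ) : ‖(sg a m * ep m) • uv m‖ ≤ 6 * (1 / 2) ^ m := by
  rw [norm_smul, norm_mul, Real.norm_eq_abs, abs_sg, one_mul, Real.norm_eq_abs,
    abs_of_pos (ep_pos m), mul_comm]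
  exact mul_le_mul_of_nonneg_right (norm_uv_le m) (ep_pos m).le

theorem summable_bound : Summable (fun m : ℕ => 6 * (1 / 2 : ℝ) ^ m) :=
  (summable_geometric_of_lt_one (by norm_num) (by norm_num)).mul_left _

/-- The extreme points. -/
def xa (a : ℕ → Bool) : X := ∑' m, (sg a m * ep m) • uv m

theorem summable_xa (a : ℕ → Bool) : Summable (fun m => (sg a m * ep m) • uv m) :=
  Summable.of_norm_bounded summable_bound (norm_term_le a)

theorem cf_xa (a : ℕ → Bool) (n : ℕ) : cf (xa a) n = sg a n * ep n := by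
  have h1 : coord n (xa a) = ∑' m, coord n ((sg a m * ep m) • uv m) :=
    (coord n).map_tsum (summable_xa a)
  rw [coord_apply] at h1
  rw [h1, tsum_eq_single n]
  · rw [map_smul, coord_apply, cf_uv, if_pos rfl, smul_eq_mul, mul_one]
  · intro m hm
    rw [map_smul, coord_apply, cf_uv, if_neg (Ne.symm hm), smul_zero]

theorem continuous_xa : Continuous xa := by
  refine continuous_tsum (fun m => ?_) summable_bound (fun m a => norm_term_le a m)
  have h1 : Continuous (fun a : ℕ → Bool => sg a m) := by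
    have h2 : Continuous (fun b : Bool => if b then (1 : ℝ) else -1) :=
      continuous_of_discreteTopology
    exact h2.comp (continuous_apply m)
  exact (h1.mul continuous_const).smul continuous_const

theorem sg_inj {a b : ℕ → Bool} {n : ℕ} (h : sg a n = sg b n) : a n = b n := by
  unfold sg at h
  cases ha : a n <;> cases hb : b n <;> simp_all <;> norm_num at h

theorem xa_injective : Function.Injective xa := by
  intro a b hab
  funext n
  have h1 := cf_xa a n
  rw [hab, cf_xa] at h1
  exact (sg_inj (mul_right_cancel₀ (ep_pos n).ne' h1)).symm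

theorem phi_xa (n : ℕ) (a : ℕ → Bool) : phi n a (xa a) = 1 := by
  rw [phi_apply]
  have h1 : ∀ m, sg a m * cf (xa a) m = ep m := fun m => by
    rw [cf_xa, ← mul_assoc, sg_mul_self, one_mul]
  simp_rw [h1]
  exact div_self (cn_pos n).ne'

theorem norm_xa (a : ℕ → Bool) : ‖xa a‖ = 1 := by
  refine le_antisymm ?_ ?_
  · refine N2 (fun n => ?_)
    rw [mul_one]
    unfold pn cn
    have h1 : ∀ m, |cf (xa a) m| = ep m := fun m => by
      rw [cf_xa, abs_mul, abs_sg, one_mul, abs_of_pos (ep_pos m)]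
    simp_rw [h1]
    exact le_rfl
  · rw [← phi_xa 0 a]
    exact phi_le_norm 0 a _

/-- The cluster functional of index `a` attains its norm only at `xa a`. -/
theorem claim1 {a : ℕ → Bool} {x : X} (hx : ‖x‖ ≤ 1) (h : cInf ≤ psi a x) : x = xa a := by
  have hb : ∀ m, |cf x m| ≤ 3 / 2 * ‖x‖ := abs_cf_le x
  have hb' : ∀ m, |sg a m * cf x m| ≤ 3 / 2 * ‖x‖ := fun m => by
    rw [abs_mul, abs_sg, one_mul]; exact hb m
  have hb'' : ∀ m, |(|cf x m|)| ≤ 3 / 2 * ‖x‖ := fun m => by rw [abs_abs]; exact hb m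
  have hs1 := summable_w hb''
  have hs2 := summable_w hb'
  have hle : psi a x ≤ ∑' m, wM m * |cf x m| :=
    hs2.tsum_le_tsum (fun m => mul_le_mul_of_nonneg_left (sg_mul_le _ _ _) (wM_pos m).le) hs1
  have hd : ∀ n, |cf x n| - ep n = 0 := by
    refine keyL (d := fun n => |cf x n| - ep n) ?_ ?_ ?_
    · have h1 := (cf_tendsto x).abs.sub ep_tendsto
      simpa using h1
    · intro n
      have h1 := N1 n x
      have h2 : ∑ m ∈ Finset.range n, wM m * (|cf x m| - ep m) =
          ∑ m ∈ Finset.range n, wM m * |cf x m| - ∑ m ∈ Finset.range n, wM m * ep m := by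
        rw [← Finset.sum_sub_distrib]
        exact Finset.sum_congr rfl (fun m _ => by ring)
      rw [h2]
      have h3 : cn n * ‖x‖ ≤ cn n * 1 := mul_le_mul_of_nonneg_left hx (cn_pos n).le
      unfold pn at h1
      have h4 : cn n = ep n + ∑ m ∈ Finset.range n, wM m * ep m := rfl
      linarith
    · have h1 : ∑' m, wM m * (|cf x m| - ep m) = ∑' m, wM m * |cf x m| - cInf := by
        rw [cInf, ← hs1.tsum_sub summable_ep]
        exact tsum_congr (fun m => by ring)
      rw [h1]
      linarith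
  have hsum0 : ∑' m, wM m * (|cf x m| - sg a m * cf x m) ≤ 0 := by
    have h1 : ∑' m, wM m * (|cf x m| - sg a m * cf x m) = ∑' m, wM m * |cf x m| - psi a x := by
      rw [psi_apply, ← hs1.tsum_sub hs2]
      exact tsum_congr (fun m => by ring)
    have h2 : ∑' m, wM m * |cf x m| = cInf := by
      rw [cInf]
      exact tsum_congr (fun m => by rw [sub_eq_zero.1 (hd m)])
    rw [h1, h2]
    linarith
  have hnn : ∀ m, 0 ≤ wM m * (|cf x m| - sg a m * cf x m) := fun m =>
    mul_nonneg (wM_pos m).le (sub_nonneg.2 (sg_mul_le _ _ _))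
  have hs3 : Summable (fun m => wM m * (|cf x m| - sg a m * cf x m)) := by
    have := hs1.sub hs2
    refine this.congr (fun m => by ring)
  refine cf_ext (fun n => ?_)
  have h1 : wM n * (|cf x n| - sg a n * cf x n) ≤ 0 :=
    (hs3.le_tsum n (fun m _ => hnn m)).trans hsum0
  have h2 : |cf x n| - sg a n * cf x n = 0 := by
    have h3 := le_antisymm h1 (hnn n)
    exact (mul_eq_zero.1 h3).resolve_left (wM_pos n).ne'
  rw [cf_xa]
  have h3 := hd n
  have h4 : ep n = sg a n * cf x n := by linarith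
  rw [h4, ← mul_assoc, sg_mul_self, one_mul]

theorem claim2 {a : ℕ → Bool} {u : X} (h0 : psi a u = 0) (h : ∀ n, phi n a u ≤ 0) : u = 0 := by
  have hd : ∀ n, sg a n * cf u n = 0 := by
    refine keyL (d := fun n => sg a n * cf u n) ?_ ?_ ?_
    · rw [tendsto_zero_iff_norm_tendsto_zero]
      have h1 := (cf_tendsto u).norm
      rw [norm_zero] at h1
      refine h1.congr (fun n => ?_)
      rw [norm_mul, Real.norm_eq_abs (sg a n), abs_sg, one_mul]
    · intro n
      have h1 := h n
      rw [phi_apply, div_le_iff₀ (cn_pos n), zero_mul] at h1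
      exact h1
    · rw [← psi_apply, h0]
  refine cf_ext (fun n => ?_)
  have h1 := hd n
  have h2 : cf (0 : X) n = 0 := rfl
  rw [h2]
  refine (mul_eq_zero.1 h1).resolve_left ?_
  intro h3
  have := abs_sg a n
  rw [h3] at this
  simp at this

/-- Convergence of the functionals to the cluster functionals. -/
theorem conv {𝓤 : Filter ℕ} [𝓤.NeBot] {k : ℕ → ℕ} (hk : Tendsto k 𝓤 atTop)
    {b : ℕ → ℕ → Bool} {a : ℕ → Bool} (hb : Tendsto b 𝓤 (𝓝 a))
    {v : ℕ → X} {z : X} (hv : Tendsto v 𝓤 (𝓝 z)) :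
    Tendsto (fun N => phi (k N) (b N) (v N)) 𝓤 (𝓝 (psi a z / cInf)) := by
  have h1 : Tendsto (fun N => phi (k N) (b N) z) 𝓤 (𝓝 (psi a z / cInf)) := by
    have h2 : Tendsto (fun N => (sg (b N) (k N) * cf z (k N) +
        ∑ m ∈ Finset.range (k N), wM m * (sg (b N) m * cf z m)) / cn (k N)) 𝓤
        (𝓝 ((0 + psi a z) / cInf)) := by
      refine Tendsto.div (Tendsto.add ?_ ?_) (cInf_tendsto.comp hk) cInf_pos.ne'
      · rw [tendsto_zero_iff_norm_tendsto_zero]
        have h3 := ((cf_tendsto z).comp hk).norm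
        rw [norm_zero] at h3
        refine h3.congr (fun N => ?_)
        rw [norm_mul, Real.norm_eq_abs (sg _ _), abs_sg, one_mul]
        rfl
      · have h3 : ∀ N, ∑ m ∈ Finset.range (k N), wM m * (sg (b N) m * cf z m) =
            ∑' m, if m < k N then wM m * (sg (b N) m * cf z m) else 0 := by
          intro N
          rw [tsum_eq_sum (s := Finset.range (k N))]
          · refine Finset.sum_congr rfl (fun m hm => ?_)
            rw [if_pos (Finset.mem_range.1 hm)]
          · intro m hm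
            rw [if_neg (fun h => hm (Finset.mem_range.2 h))]
        simp_rw [h3]
        rw [psi_apply]
        refine tendsto_tsum_of_dominated_convergence (bound := fun m => wM m * (3 / 2 * ‖z‖))
          (wM_hasSum.summable.mul_right _) (fun m => ?_) (Eventually.of_forall (fun N m => ?_))
        · have h4 : ∀ᶠ N in 𝓤, b N m = a m := by
            have h5 : Tendsto (fun N => b N m) 𝓤 (𝓝 (a m)) :=
              (continuous_apply m).continuousAt.tendsto.comp hb
            exact h5.eventually (IsOpen.mem_nhds (isOpen_discrete {a m}) rfl)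
          have h6 : ∀ᶠ N in 𝓤, m < k N := hk.eventually_gt_atTop m
          refine tendsto_const_nhds.congr' ?_
          filter_upwards [h4, h6] with N hN1 hN2
          rw [if_pos hN2]
          simp only [sg, hN1]
        · split_ifs
          · rw [norm_mul, Real.norm_eq_abs, Real.norm_eq_abs, abs_of_pos (wM_pos m), abs_mul,
              abs_sg, one_mul]
            exact mul_le_mul_of_nonneg_left (abs_cf_le z m) (wM_pos m).le
          · rw [norm_zero]
            have := wM_pos m
            positivity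
    rw [zero_add] at h2
    refine h2.congr (fun N => ?_)
    rw [phi_apply]
  have h3 : Tendsto (fun N => phi (k N) (b N) (v N) - phi (k N) (b N) z) 𝓤 (𝓝 0) := by
    rw [tendsto_zero_iff_norm_tendsto_zero]
    have h4 : Tendsto (fun N => ‖v N - z‖) 𝓤 (𝓝 0) := by
      have := (hv.sub_const z).norm
      simpa using this
    refine squeeze_zero (fun _ => norm_nonneg _) (fun N => ?_) h4
    rw [← map_sub, Real.norm_eq_abs, abs_le]
    constructor
    · have := phi_le_norm (k N) (b N) (-(v N - z))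
      rw [map_neg, norm_neg] at this
      linarith
    · exact phi_le_norm _ _ _
  have := h3.add h1
  rw [zero_add] at this
  refine this.congr (fun N => by ring)

end Q100.Poly
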