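import Mathlib

/-!
# Polyhedral Banach spaces and optimal representations in `L₁(μ, Y)`
-/

set_option autoImplicit false
open Filter Topology MeasureTheory

namespace Q100.Poly

universe u v

/-- Polytopes: convex hulls of finite sets. -/
def IsPolytope {X : Type u} [AddCommGroup X] [Module ℝ X] (S : Set X) : Prop :=
  ∃ F : Set X, F.Finite ∧ S = convexHull ℝ F

/-- Polyhedral normed spaces: the closed unit ball of every finite-dimensional subspace is a
polytope. -/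
def Polyhedral (X : Type u) [NormedAddCommGroup X] [NormedSpace ℝ X] : Prop :=
  ∀ E : Submodule ℝ X, FiniteDimensional ℝ E → IsPolytope {x : X | x ∈ E ∧ ‖x‖ ≤ 1}

/-- `f ∈ L₁(μ, Y)` is norm-attaining as an element of the projective tensor product of `L₁(μ)` and
`Y`: it has an optimal representation `f(ω) = ∑ g_i(ω) y_i` (a.e.) with `g_i ∈ L₁(μ)`, `y_i ∈ Y`
and `‖f‖ = ∑ ‖g_i‖₁ ‖y_i‖`. -/
def HasOptimalRepresentation {Ω : Type v} [MeasurableSpace Ω] (μ : Measure Ω)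
    {Y : Type u} [NormedAddCommGroup Y] [NormedSpace ℝ Y] (f : Ω → Y) : Prop :=
  ∃ (g : ℕ → Ω → ℝ) (y : ℕ → Y), (∀ i, Integrable (g i) μ) ∧
    (∀ᵐ ω ∂μ, HasSum (fun i => g i ω • y i) (f ω)) ∧
    HasSum (fun i => (∫ ω, ‖g i ω‖ ∂μ) * ‖y i‖) (∫ ω, ‖f ω‖ ∂μ)

end Q100.Poly
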