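import Pool.Agent.Q100.PolyC0

/-!
# The renormed `c₀` is polyhedral, and `θ ↦ x_θ` has no optimal representation
-/

set_option autoImplicit false
open Filter Topology MeasureTheory
open scoped ZeroAtInfty ENNReal

noncomputable section

namespace Q100.Poly

open Q100.Renorm

/-- Convergence along an ultrafilter in a compact set. -/
theorem ultra_lim {Z : Type*} [TopologicalSpace Z] {K : Set Z} (hK : IsCompact K)
    (𝓤 : Ultrafilter ℕ) (f : ℕ → Z) (hf : ∀ᶠ n in (𝓤 : Filter ℕ), f n ∈ K) :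
    ∃ z ∈ K, Tendsto f 𝓤 (𝓝 z) := by
  have h1 : ((𝓤.map f : Ultrafilter Z) : Filter Z) ≤ 𝓟 K := by
    rw [Ultrafilter.coe_map]
    exact tendsto_principal.2 hf
  obtain ⟨z, hz, hle⟩ := hK.ultrafilter_le_nhds (𝓤.map f) h1
  exact ⟨z, hz, hle⟩

/-- In a finite-dimensional subspace finitely many of the functionals `phi n a` suffice. -/
theorem finite_suffices (E : Submodule ℝ X) (hE : FiniteDimensional ℝ E) :
    ∃ N0 : ℕ, ∀ z ∈ E, (∀ n, n ≤ N0 → ∀ a, phi n a z ≤ 1) → ‖z‖ ≤ 1 := by
  classical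
  by_contra hcon
  push Not at hcon
  have hexists : ∀ N : ℕ, ∃ (w : X) (k : ℕ) (b : ℕ → Bool), w ∈ E ∧ ‖w‖ = 1 ∧ N < k ∧
      1 - 1 / ((N : ℝ) + 1) < phi k b w ∧ ∀ n, n ≤ N → ∀ a, phi n a w < phi k b w := by
    intro N
    obtain ⟨z, hzE, hz1, hz2⟩ := hcon N
    have hz0 : 0 < ‖z‖ := by linarith
    have hn1 : ‖‖z‖⁻¹ • z‖ = 1 := by
      rw [norm_smul, norm_inv, norm_norm, inv_mul_cancel₀ hz0.ne']
    have hlt : max (1 - 1 / ((N : ℝ) + 1)) (‖z‖⁻¹) < ‖‖z‖⁻¹ • z‖ := by
      rw [hn1]
      refine max_lt ?_ (inv_lt_one_of_one_lt₀ hz2)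
      have : (0 : ℝ) < 1 / ((N : ℝ) + 1) := by positivity
      linarith
    obtain ⟨k, hk⟩ := N3 hlt
    obtain ⟨b, hb⟩ := exists_phi_eq k (‖z‖⁻¹ • z)
    rw [← hb] at hk
    have hsmall : ∀ n, n ≤ N → ∀ a, phi n a (‖z‖⁻¹ • z) < phi k b (‖z‖⁻¹ • z) := by
      intro n hn a
      refine lt_of_le_of_lt ?_ ((le_max_right _ _).trans_lt hk)
      rw [map_smul, smul_eq_mul]
      have := mul_le_mul_of_nonneg_left (hz1 n hn a) (inv_nonneg.2 hz0.le)
      linarith
    refine ⟨‖z‖⁻¹ • z, k, b, E.smul_mem _ hzE, hn1, ?_, (le_max_left _ _).trans_lt hk, hsmall⟩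
    by_contra hkN
    exact lt_irrefl _ (hsmall k (not_lt.1 hkN) b)
  choose w k b hwE hw1 hNk hphi1 hphi2 using hexists
  let 𝓤 : Ultrafilter ℕ := hyperfilter ℕ
  have hU : (𝓤 : Filter ℕ) ≤ atTop := by
    rw [← Nat.cofinite_eq_atTop]; exact hyperfilter_le_cofinite
  -- the unit sphere of `E` is compact
  have hS : IsCompact {x : X | x ∈ E ∧ ‖x‖ = 1} := by
    have hprop : ProperSpace E := FiniteDimensional.proper ℝ E
    have h2 := (isCompact_sphere (0 : E) 1).image (f := fun e : E => (e : X))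
      continuous_subtype_val
    have h3 : (fun e : E => (e : X)) '' Metric.sphere (0 : E) 1 = {x : X | x ∈ E ∧ ‖x‖ = 1} := by
      ext x
      constructor
      · rintro ⟨e, he, rfl⟩
        exact ⟨e.2, by simpa using he⟩
      · rintro ⟨hx1, hx2⟩
        exact ⟨⟨x, hx1⟩, by simpa using hx2, rfl⟩
    rwa [h3] at h2
  have hk : Tendsto k 𝓤 atTop := by
    have h1 : Tendsto k atTop atTop := tendsto_atTop_mono (fun N => (hNk N).le) tendsto_id
    exact h1.mono_left hU
  obtain ⟨z, ⟨hzE, hz1⟩, hwz⟩ := ultra_lim hS 𝓤 w (Eventually.of_forall (fun N => ⟨hwE N, hw1 N⟩))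
  obtain ⟨a, -, hba⟩ := ultra_lim (isCompact_univ (X := ℕ → Bool)) 𝓤 b
    (Eventually.of_forall (fun N => Set.mem_univ _))
  -- the limit is `xa a`
  have hlim1 := conv hk hba hwz
  have hone : Tendsto (fun N : ℕ => 1 - 1 / ((N : ℝ) + 1)) 𝓤 (𝓝 1) := by
    have h1 := (tendsto_one_div_add_atTop_nhds_zero_nat (𝕜 := ℝ)).const_sub 1
    rw [sub_zero] at h1
    exact h1.mono_left hU
  have hpsi : 1 ≤ psi a z / cInf :=
    le_of_tendsto_of_tendsto' hone hlim1 (fun N => (hphi1 N).le)
  rw [le_div_iff₀ cInf_pos, one_mul] at hpsi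
  have hz : z = xa a := claim1 hz1.le hpsi
  have hpsix : psi a (xa a) = cInf := by
    rw [psi_apply, cInf]
    refine tsum_congr (fun m => ?_)
    rw [cf_xa, ← mul_assoc (sg a m), sg_mul_self, one_mul]
  rw [hz] at hzE hwz
  -- decomposition
  let s : ℕ → ℝ := fun N => psi a (w N) / cInf
  let y : ℕ → X := fun N => w N - s N • xa a
  have hs : Tendsto s 𝓤 (𝓝 1) := by
    have h1 : Tendsto (fun N => psi a (w N)) 𝓤 (𝓝 (psi a (xa a))) :=
      ((psi a).continuous.tendsto _).comp hwz
    have h2 := h1.div_const cInf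
    rw [hpsix, div_self cInf_pos.ne'] at h2
    exact h2
  have hyE : ∀ N, y N ∈ E := fun N => E.sub_mem (hwE N) (E.smul_mem _ hzE)
  have hpsiy : ∀ N, psi a (y N) = 0 := by
    intro N
    simp only [y, s, map_sub, map_smul, smul_eq_mul, hpsix]
    rw [div_mul_cancel₀ _ cInf_pos.ne', sub_self]
  have hspos : ∀ᶠ N in (𝓤 : Filter ℕ), 0 < s N := hs.eventually_const_lt one_pos
  have hy0 : ∀ᶠ N in (𝓤 : Filter ℕ), y N ≠ 0 := by
    filter_upwards [hspos] with N hN h0
    have h1 : w N = s N • xa a := sub_eq_zero.1 h0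
    have h2 := hw1 N
    rw [h1, norm_smul, norm_xa, mul_one, Real.norm_eq_abs, abs_of_pos hN] at h2
    have h3 := hphi2 N 0 (Nat.zero_le N) a
    have h4 := phi_le_norm (k N) (b N) (w N)
    rw [hw1 N] at h4
    rw [h1, h2, one_smul] at h3
    rw [phi_xa] at h3
    rw [h1, h2, one_smul] at h4
    linarith
  let u : ℕ → X := fun N => ‖y N‖⁻¹ • y N
  obtain ⟨v, ⟨hvE, hv1⟩, huv⟩ := ultra_lim hS 𝓤 u (by
    filter_upwards [hy0] with N hN
    refine ⟨E.smul_mem _ (hyE N), ?_⟩
    rw [norm_smul, norm_inv, norm_norm, inv_mul_cancel₀ (norm_ne_zero_iff.2 hN)])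
  have hpsiv : psi a v = 0 := by
    have h1 : Tendsto (fun N => psi a (u N)) 𝓤 (𝓝 (psi a v)) :=
      ((psi a).continuous.tendsto _).comp huv
    have h2 : ∀ N, psi a (u N) = 0 := fun N => by
      simp only [u, map_smul, hpsiy, smul_zero]
    simp_rw [h2] at h1
    exact (tendsto_nhds_unique h1 tendsto_const_nhds)
  have hfin : v = 0 := by
    refine claim2 hpsiv (fun n => ?_)
    have h1 : Tendsto (fun N => phi n a (u N)) 𝓤 (𝓝 (phi n a v)) :=
      ((phi n a).continuous.tendsto _).comp huv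
    have h2 := conv hk hba huv
    rw [hpsiv, zero_div] at h2
    have h3 : ∀ᶠ N in (𝓤 : Filter ℕ), phi n a (u N) ≤ phi (k N) (b N) (u N) := by
      have h4 : ∀ᶠ N in (𝓤 : Filter ℕ), n ≤ N := hU (eventually_ge_atTop n)
      filter_upwards [h4, hspos, hy0] with N hN hsN hyN
      have h5 := hphi2 N n hN a
      have hdec : w N = s N • xa a + ‖y N‖ • u N := by
        simp only [u, y]
        rw [smul_smul, mul_inv_cancel₀ (norm_ne_zero_iff.2 hyN), one_smul]
        abel
      obtain ⟨uN, huN⟩ : ∃ uN, uN = u N := ⟨_, rfl⟩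
      rw [← huN] at hdec ⊢
      rw [hdec, map_add, map_add, map_smul, map_smul, map_smul, map_smul, phi_xa] at h5
      simp only [smul_eq_mul] at h5
      have h6 := phi_le_norm (k N) (b N) (xa a)
      rw [norm_xa] at h6
      have h7 := mul_le_mul_of_nonneg_left h6 hsN.le
      have h8 : 0 < ‖y N‖ := norm_pos_iff.2 hyN
      have h9 : ‖y N‖ * phi n a uN < ‖y N‖ * phi (k N) (b N) uN := by linarith
      exact (lt_of_mul_lt_mul_left h9 h8.le).le
    exact le_of_tendsto_of_tendsto h1 h2 h3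
  rw [hfin, norm_zero] at hv1
  norm_num at hv1

/-- Extension of finite sign vectors. -/
def extB (N : ℕ) (c : Fin (N + 1) → Bool) : ℕ → Bool :=
  fun m => if h : m < N + 1 then c ⟨m, h⟩ else true

theorem phi_congr {n : ℕ} {a b : ℕ → Bool} (h : ∀ m, m ≤ n → a m = b m) (x : X) :
    phi n a x = phi n b x := by
  rw [phi_apply, phi_apply]
  congr 2
  · unfold sg; rw [h n le_rfl]
  · refine Finset.sum_congr rfl (fun m hm => ?_)
    unfold sg
    rw [h m (Finset.mem_range.1 hm).le]

theorem polyhedral_X : Polyhedral X := by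
  intro E hE
  obtain ⟨N0, hN0⟩ := finite_suffices E hE
  refine isPolytope_of_ineq E hE (ι := Fin (N0 + 1) × (Fin (N0 + 1) → Bool))
    (fun i => (phi i.1 (extB N0 i.2) : X →ₗ[ℝ] ℝ)) (fun x hx => ?_)
  constructor
  · intro h i
    exact (phi_le_norm _ _ _).trans h
  · intro h
    refine hN0 x hx (fun n hn a => ?_)
    have h1 := h (⟨n, by omega⟩, fun j => a j)
    have h2 : phi n a x = phi n (extB N0 (fun j => a j)) x := by
      refine phi_congr (fun m hm => ?_) x
      unfold extB
      rw [dif_pos (by omega)]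
    rw [h2]
    exact h1

/-- Triangular uniqueness. -/
theorem eq_xa_of_phi {a : ℕ → Bool} {z : X} (h : ∀ n, phi n a z = 1) : z = xa a := by
  have h1 : ∀ n, sg a n * cf z n = ep n := by
    intro n
    induction n using Nat.strong_induction_on with
    | _ n ih =>
      have h2 := h n
      rw [phi_apply, div_eq_one_iff_eq (cn_pos n).ne'] at h2
      have h3 : ∑ m ∈ Finset.range n, wM m * (sg a m * cf z m) =
          ∑ m ∈ Finset.range n, wM m * ep m :=
        Finset.sum_congr rfl (fun m hm => by rw [ih m (Finset.mem_range.1 hm)])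
      rw [h3] at h2
      unfold cn at h2
      linarith
  refine cf_ext (fun n => ?_)
  rw [cf_xa, ← h1 n, ← mul_assoc, sg_mul_self, one_mul]

/-- If `xa a` is represented optimally then it is `±` one of the normalized vectors. -/
theorem mem_of_optimal {a : ℕ → Bool} {g : ℕ → ℝ} {y : ℕ → X}
    (h1 : HasSum (fun i => g i • y i) (xa a)) (h2 : HasSum (fun i => |g i| * ‖y i‖) 1) :
    ∃ i, ∃ s : Bool, xa a = (if s then (1 : ℝ) else -1) • (‖y i‖⁻¹ • y i) := by
  have hne : ∃ i, g i • y i ≠ 0 := by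
    by_contra hcon
    push Not at hcon
    simp_rw [hcon] at h1
    have h3 := h1.unique hasSum_zero
    have h4 := norm_xa a
    rw [h3, norm_zero] at h4
    norm_num at h4
  obtain ⟨i, hi⟩ := hne
  have hgi : g i ≠ 0 := fun h => hi (by rw [h, zero_smul])
  have hyi : y i ≠ 0 := fun h => hi (by rw [h, smul_zero])
  have hyn : 0 < ‖y i‖ := norm_pos_iff.2 hyi
  have hgp : 0 < |g i| := abs_pos.2 hgi
  have hphi : ∀ n, g i * phi n a (y i) = |g i| * ‖y i‖ := by
    intro n
    have h3 : HasSum (fun j => g j * phi n a (y j)) 1 := by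
      have := (phi n a).hasSum h1
      rw [phi_xa] at this
      refine this.congr_fun (fun j => ?_)
      simp
    have hle : ∀ j, g j * phi n a (y j) ≤ |g j| * ‖y j‖ := by
      intro j
      refine (le_abs_self _).trans ?_
      rw [abs_mul]
      refine mul_le_mul_of_nonneg_left ?_ (abs_nonneg _)
      rw [abs_le]
      constructor
      · have := phi_le_norm n a (-(y j))
        rw [map_neg, norm_neg] at this
        linarith
      · exact phi_le_norm n a _
    by_contra hne
    have hlt : g i * phi n a (y i) < |g i| * ‖y i‖ := lt_of_le_of_ne (hle i) hne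
    have := hasSum_lt hle hlt h3 h2
    exact lt_irrefl _ this
  refine ⟨i, decide (0 < g i), ?_⟩
  symm
  refine eq_xa_of_phi (fun n => ?_)
  rw [map_smul, map_smul, smul_eq_mul, smul_eq_mul]
  have h3 := hphi n
  by_cases hpos : 0 < g i
  · rw [abs_of_pos hpos] at h3
    have h4 : phi n a (y i) = ‖y i‖ := mul_left_cancel₀ hgi h3
    rw [h4]
    simp [hpos, hyn.ne']
  · have hneg : g i < 0 := lt_of_le_of_ne (not_lt.1 hpos) hgi
    rw [abs_of_neg hneg] at h3
    have h4 : phi n a (y i) = -‖y i‖ := by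
      have : g i * phi n a (y i) = g i * (-‖y i‖) := by rw [h3]; ring
      exact mul_left_cancel₀ hgi this
    rw [h4]
    simp [hpos, hyn.ne']

/-- The measure space: Lebesgue measure on `[0, 1]`. -/
def mu : Measure ℝ := volume.restrict (Set.Icc 0 1)

instance : IsProbabilityMeasure mu := ⟨by simp [mu]⟩

/-- A Borel isomorphism. -/
def eB : ℝ ≃ᵐ (ℕ → Bool) := PolishSpace.measurableEquivNatBoolOfNotCountable
  (not_countable (α := ℝ))

/-- The function without optimal representation. -/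
def fF : ℝ → X := fun t => xa (eB t)

theorem fF_stronglyMeasurable : StronglyMeasurable fF :=
  continuous_xa.stronglyMeasurable.comp_measurable eB.measurable

theorem norm_fF (t : ℝ) : ‖fF t‖ = 1 := norm_xa _

theorem fF_integrable : Integrable fF mu := by
  refine Integrable.of_bound fF_stronglyMeasurable.aestronglyMeasurable 1
    (Eventually.of_forall (fun t => (norm_fF t).le))

theorem fF_injective : Function.Injective fF := xa_injective.comp eB.injective

theorem no_optimal : ¬ HasOptimalRepresentation mu fF := by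
  rintro ⟨g, y, hg, hsum, hopt⟩
  simp only [norm_fF, integral_const, smul_eq_mul, mul_one, probReal_univ] at hopt
  -- the sum of the norms is `1` almost everywhere
  let H : ℝ → ℝ≥0∞ := fun t => ∑' i, ENNReal.ofReal (|g i t| * ‖y i‖)
  have hmeas : ∀ i, AEMeasurable (fun t => ENNReal.ofReal (|g i t| * ‖y i‖)) mu := fun i =>
    ENNReal.measurable_ofReal.comp_aemeasurable
      (((hg i).norm.mul_const ‖y i‖).aestronglyMeasurable.aemeasurable)
  have hHint : ∫⁻ t, H t ∂mu = 1 := by
    rw [lintegral_tsum hmeas]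
    have h1 : ∀ i, ∫⁻ t, ENNReal.ofReal (|g i t| * ‖y i‖) ∂mu =
        ENNReal.ofReal ((∫ t, ‖g i t‖ ∂mu) * ‖y i‖) := by
      intro i
      rw [← integral_mul_const, ofReal_integral_eq_lintegral_ofReal ((hg i).norm.mul_const _)
        (Eventually.of_forall (fun t => by positivity))]
      rfl
    simp_rw [h1]
    rw [← ENNReal.ofReal_tsum_of_nonneg (fun i => mul_nonneg
      (integral_nonneg (fun t => norm_nonneg _)) (norm_nonneg _)) hopt.summable, hopt.tsum_eq,
      ENNReal.ofReal_one]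
  have hle : ∀ᵐ t ∂mu, (1 : ℝ≥0∞) ≤ H t := by
    filter_upwards [hsum] with t ht
    by_cases htop : H t = ⊤
    · rw [htop]; exact le_top
    have hs : Summable (fun i => |g i t| * ‖y i‖) := by
      have h1 := ENNReal.summable_toReal htop
      refine h1.congr (fun i => ENNReal.toReal_ofReal (by positivity))
    have h2 : H t = ENNReal.ofReal (∑' i, |g i t| * ‖y i‖) :=
      (ENNReal.ofReal_tsum_of_nonneg (fun i => by positivity) hs).symm
    rw [h2, ← ENNReal.ofReal_one]
    refine ENNReal.ofReal_le_ofReal ?_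
    rw [← norm_fF t, ← ht.tsum_eq]
    have h3 : ∀ i, ‖g i t • y i‖ = |g i t| * ‖y i‖ := fun i => by
      rw [norm_smul, Real.norm_eq_abs]
    refine (norm_tsum_le_tsum_norm ?_).trans (le_of_eq (tsum_congr h3))
    exact hs.congr (fun i => (h3 i).symm)
  have hae : (fun _ => (1 : ℝ≥0∞)) =ᵐ[mu] H := by
    refine ae_eq_of_ae_le_of_lintegral_le hle ?_ ?_ ?_
    · simp
    · exact AEMeasurable.tsum hmeas
    · rw [hHint]; simp
  -- the countable set
  let D : Set X := Set.range (fun p : ℕ × Bool =>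
    (if p.2 then (1 : ℝ) else -1) • (‖y p.1‖⁻¹ • y p.1))
  have hD : D.Countable := Set.countable_range _
  have hfD : ∀ᵐ t ∂mu, fF t ∈ D := by
    filter_upwards [hsum, hae] with t ht1 ht2
    have hs : Summable (fun i => |g i t| * ‖y i‖) := by
      have h1 := ENNReal.summable_toReal (f := fun i => ENNReal.ofReal (|g i t| * ‖y i‖))
        (by rw [show (∑' i, ENNReal.ofReal (|g i t| * ‖y i‖)) = 1 from ht2.symm]
            exact ENNReal.one_ne_top)
      refine h1.congr (fun i => ENNReal.toReal_ofReal (by positivity))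
    have h2 : H t = ENNReal.ofReal (∑' i, |g i t| * ‖y i‖) :=
      (ENNReal.ofReal_tsum_of_nonneg (fun i => by positivity) hs).symm
    have h3 : ∑' i, |g i t| * ‖y i‖ = 1 := by
      have h4 : ENNReal.ofReal (∑' i, |g i t| * ‖y i‖) = ENNReal.ofReal 1 := by
        rw [← h2, ENNReal.ofReal_one]; exact ht2.symm
      exact (ENNReal.ofReal_eq_ofReal_iff (tsum_nonneg (fun i => by positivity))
        zero_le_one).1 h4
    have h5 : HasSum (fun i => |g i t| * ‖y i‖) 1 := by
      rw [← h3]; exact hs.hasSum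
    obtain ⟨i, s, his⟩ := mem_of_optimal ht1 h5
    exact ⟨(i, s), his.symm⟩
  have hcount : (fF ⁻¹' D).Countable := hD.preimage_of_injOn fF_injective.injOn
  have hzero : mu (fF ⁻¹' D) = 0 := by
    have h1 : (volume : Measure ℝ) (fF ⁻¹' D) = 0 := hcount.measure_zero _
    exact le_antisymm ((Measure.restrict_apply_le _ _).trans h1.le) zero_le
  have hone : mu (fF ⁻¹' D)ᶜ = 0 := hfD
  have huniv : mu Set.univ ≤ 0 := by
    rw [← Set.union_compl_self (fF ⁻¹' D)]
    refine (measure_union_le _ _).trans ?_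
    rw [hzero, hone, add_zero]
  rw [measure_univ] at huniv
  exact absurd huniv (by simp)

end Q100.Poly
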