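import Pool.Agent.H342R3.PosIso

/-!
# Positive isomorphisms `C(K) ≃ C(Cantor)` from averaging and extension operators

The two proofs are those of `Pool.Agent.H342R3.PosIso` (for `K = [0,1]`), with the operators
`R, E, J, u` as hypotheses.
-/

set_option autoImplicit false

open Filter Topology Set

namespace Q100.Pos

open Pool.Agent.H342R3.PosIso hiding X

variable {K : Type*} [TopologicalSpace K] [CompactSpace K]

theorem gen1 {R : C(K, ℝ) →L[ℝ] Y} {E : Y →L[ℝ] C(K, ℝ)} (hR : PU R) (hE : PU E)
    (hRE : ∀ y, R (E y) = y) {J : C(K, ℝ) →L[ℝ] Y} {u : Y →L[ℝ] C(K, ℝ)} (hJ : PU J) (hu : PU u)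
    (huJ : ∀ x, u (J x) = x) :
    ∃ T : C(K, ℝ) ≃L[ℝ] C(ℕ → Bool, ℝ),
      ∀ f : C(K, ℝ), (∀ x, 0 ≤ f x) → ∀ y, 0 ≤ T f y := by
  -- the projection H
  let A : Y →L[ℝ] Y := (ind false).comp (J.comp (u.comp (pre false)))
  let B : Bool → Y →L[ℝ] Y := fun b => if b then ind true else 0
  have hB0 : B false = 0 := rfl
  have hB1 : B true = ind true := rfl
  have hApos : Pos A := (ind_pos false).comp (hJ.1.comp (hu.1.comp (pre_PU false).1))
  have hD : Data A B := by
    refine ⟨hApos, ?_, ?_⟩
    · intro b
      cases b
      · rw [hB0]; intro f hf t; simp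
      · rw [hB1]; exact ind_pos true
    · rw [hB0, hB1]
      have : A 1 = ind false 1 := by
        show ind false (J (u (pre false 1))) = _
        rw [(pre_PU false).2, hu.2, hJ.2]
      rw [this, _root_.zero_apply, add_zero]
      exact ind_one
  obtain ⟨H, hH, hfix⟩ := exists_fix hD
  have hHrec : ∀ y, H y = ind false (J (u (pre false y))) + ind true (H (pre true y)) := by
    intro y
    conv_lhs => rw [← hfix]
    rw [Phi_apply, hB0, hB1, _root_.zero_apply, add_zero]
    rfl
  have hHf : ∀ y, pre false (H y) = J (u (pre false y)) := by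
    intro y
    rw [hHrec, map_add, pre_ind_same, pre_ft, add_zero]
  have hHt : ∀ y, pre true (H y) = H (pre true y) := by
    intro y
    conv_lhs => rw [hHrec]
    rw [map_add, pre_ind_same, pre_tf, zero_add]
  have hHH : ∀ y, H (H y) = H y := by
    have hfix2 : Phi A B (H.comp H) = H.comp H := by
      ext1 y
      rw [Phi_apply, hB0, hB1, _root_.zero_apply, add_zero]
      show ind false (J (u (pre false y))) + ind true (H (H (pre true y))) = H (H y)
      conv_rhs => rw [hHrec (H y)]
      rw [hHf, huJ, hHt]
    have := unique hD (hH.comp hH) hH hfix2 hfix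
    intro y
    exact congrArg (fun V : Y →L[ℝ] Y => V y) this
  -- the two maps
  let T1a : C(K, ℝ) →L[ℝ] Y := (pre false).comp R
  let T1b : C(K, ℝ) →L[ℝ] C(K, ℝ) := ContinuousLinearMap.id ℝ C(K, ℝ) + (2:ℝ) • (E.comp ((pre true).comp R))
  let T2a : C(K, ℝ) →L[ℝ] Y := (2:ℝ) • ((ind false).comp J)
  let T2b : Y →L[ℝ] Y := ContinuousLinearMap.id ℝ Y + (2:ℝ) • ((ind true).comp H)
  have hT1a : ∀ x, T1a x = pre false (R x) := fun x => rfl
  have hT1b : ∀ x, T1b x = x + (2:ℝ) • E (pre true (R x)) := fun x => rfl
  have hT2a : ∀ x, T2a x = (2:ℝ) • ind false (J x) := fun x => rfl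
  have hT2b : ∀ y, T2b y = y + (2:ℝ) • ind true (H y) := fun y => rfl
  let T : C(K, ℝ) →L[ℝ] Y := T2a.comp T1b + T2b.comp T1a
  have hT : ∀ x, T x = T2a (T1b x) + T2b (T1a x) := fun x => rfl
  have hTpos : Pos T := by
    intro f hf ω
    have hRf : ∀ ω, 0 ≤ R f ω := hR.1 f hf
    have ha : ∀ ω, 0 ≤ T1a f ω := (pre_PU false).1 _ hRf
    have hb : ∀ s, 0 ≤ T1b f s := by
      intro s
      rw [hT1b]
      have h1 := hE.1 _ ((pre_PU true).1 _ hRf) s
      have h2 := hf s
      simp only [ContinuousMap.add_apply, ContinuousMap.smul_apply, smul_eq_mul]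
      linarith
    have h3 := ind_pos false _ (hJ.1 _ hb) ω
    have h4 := ind_pos true _ (hH.1 _ ha) ω
    have h5 := ha ω
    rw [hT, hT2a, hT2b]
    simp only [ContinuousMap.add_apply, ContinuousMap.smul_apply, smul_eq_mul]
    linarith
  -- injectivity of the second map
  have inj2 : ∀ x y, T2a x + T2b y = 0 → x = 0 ∧ y = 0 := by
    intro x y h
    rw [hT2a, hT2b] at h
    have h1 : H y + (2:ℝ) • (ind false (J x) + ind true (H y)) = 0 := by
      have := congrArg H h
      rw [map_zero] at this
      rw [← this]
      have e : H ((2:ℝ) • ind false (J x) + (y + (2:ℝ) • ind true (H y))) =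
          H y + (2:ℝ) • H (ind false (J x) + ind true (H y)) := by
        simp only [map_add, map_smul, smul_add]; abel
      rw [e, hHrec (ind false (J x) + ind true (H y))]
      simp only [map_add, pre_ind_same, pre_ft, pre_tf, add_zero, zero_add, huJ, hHH]
    have h2 : H y + (1/2:ℝ) • pre true (H y) = 0 := by
      have := congrArg (fun z => (1/2:ℝ) • pre true z) h1
      simp only [map_add, map_smul, pre_tf, pre_ind_same, zero_add, map_zero, smul_zero, smul_add,
        smul_smul] at this
      norm_num at this
      rw [add_comm] at this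
      simpa using this
    have h3 : H y = 0 := fix_zero (pre true) (fun y => (pre_PU true).norm_le y) h2
    rw [h3, map_zero, add_zero, zero_add] at h1
    have h4 : x = 0 := by
      have := congrArg (fun z => (1/2:ℝ) • u (pre false z)) h1
      simp only [map_smul, pre_ind_same, huJ, map_zero, smul_zero, smul_smul] at this
      norm_num at this
      exact this
    refine ⟨h4, ?_⟩
    rw [h4, h3] at h
    simpa using h
  have surj2 : ∀ z, ∃ x y, T2a x + T2b y = z := by
    intro z
    obtain ⟨v, hv⟩ := fix_solve (pre true) (fun y => (pre_PU true).norm_le y)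
      ((1/2:ℝ) • pre true (H z))
    have hHv : H v = v := by
      have h1 : H v + (1/2:ℝ) • pre true (H v) = (1/2:ℝ) • pre true (H z) := by
        have := congrArg H hv
        rw [map_add, map_smul, map_smul, ← hHt, ← hHt, hHH] at this
        exact this
      have h2 : (H v - v) + (1/2:ℝ) • pre true (H v - v) = 0 := by
        rw [map_sub, smul_sub]
        have : H v - v + ((1/2:ℝ) • pre true (H v) - (1/2:ℝ) • pre true v) =
          (H v + (1/2:ℝ) • pre true (H v)) - (v + (1/2:ℝ) • pre true v) := by abel
        rw [this, h1, hv, sub_self]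
      exact sub_eq_zero.1 (fix_zero (pre true) (fun y => (pre_PU true).norm_le y) h2)
    refine ⟨(1/2:ℝ) • u (pre false z - pre false v), z - H z + v, ?_⟩
    rw [hT2a, hT2b]
    have h1 : H (z - H z + v) = v := by
      rw [map_add, map_sub, hHH, sub_self, zero_add, hHv]
    rw [h1]
    have key : v + (2:ℝ) • ind false (J ((1/2:ℝ) • u (pre false z - pre false v))) + (2:ℝ) • ind true v = H z := by
      rw [eq_iff]
      constructor
      · simp only [map_add, map_smul, pre_ind_same, pre_ft, smul_zero, add_zero, smul_smul]
        norm_num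
        rw [hHf]
        have : pre false v = J (u (pre false v)) := by
          conv_lhs => rw [← hHv]
          rw [hHf]
        rw [← this]
        abel
      · simp only [map_add, map_smul, pre_ind_same, pre_tf, smul_zero, add_zero]
        have := congrArg (fun z => (2:ℝ) • z) hv
        simp only [smul_add, smul_smul] at this
        norm_num at this
        rw [add_comm]
        exact this
    rw [← sub_eq_zero]
    rw [← sub_eq_zero] at key
    rw [← key]
    abel
  have inj1 : ∀ x, T1a x = 0 → T1b x = 0 → x = 0 := by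
    intro x h1 h2
    rw [hT1a] at h1
    rw [hT1b] at h2
    have h3 : R x + (2:ℝ) • pre true (R x) = 0 := by
      have := congrArg R h2
      rw [map_add, map_smul, hRE, map_zero] at this
      exact this
    have h4 : R x + (1/2:ℝ) • ind true (R x) = 0 := by
      rw [eq_iff]
      constructor
      · simp only [map_add, map_smul, pre_ft, smul_zero, add_zero, map_zero]
        exact h1
      · simp only [map_add, map_smul, pre_ind_same, map_zero]
        have := congrArg (fun z => (1/2:ℝ) • z) h3
        simp only [smul_add, smul_smul, smul_zero] at this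
        norm_num at this
        rw [add_comm] at this
        simpa using this
    have h5 : R x = 0 := fix_zero (ind true) (ind_norm_le true) h4
    rw [h5, map_zero, map_zero, smul_zero, add_zero] at h2
    exact h2
  have surj1 : ∀ (z : Y) (w : C(K, ℝ)), ∃ x, T1a x = z ∧ T1b x = w := by
    intro z w
    obtain ⟨y, hy⟩ := fix_solve (ind true) (ind_norm_le true) (ind false z + (1/2:ℝ) • ind true (R w))
    have hRx : R (w - E (R w - y)) = y := by
      rw [map_sub, hRE]; abel
    refine ⟨w - E (R w - y), ?_, ?_⟩
    · rw [hT1a, hRx]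
      have := congrArg (pre false) hy
      simpa only [map_add, map_smul, pre_ft, pre_ind_same, smul_zero, add_zero] using this
    · rw [hT1b, hRx]
      have h1 : pre true y = (1/2:ℝ) • (R w - y) := by
        have := congrArg (pre true) hy
        simp only [map_add, map_smul, pre_tf, pre_ind_same, zero_add] at this
        rw [smul_sub]
        exact eq_sub_of_add_eq this
      rw [h1, map_smul, smul_smul]
      norm_num
  have hbij : Function.Bijective T := by
    constructor
    · rw [injective_iff_map_eq_zero]
      intro x hx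
      rw [hT] at hx
      obtain ⟨h1, h2⟩ := inj2 _ _ hx
      exact inj1 x h2 h1
    · intro z
      obtain ⟨x', y', h⟩ := surj2 z
      obtain ⟨x, hx1, hx2⟩ := surj1 y' x'
      exact ⟨x, by rw [hT, hx1, hx2, h]⟩
  refine ⟨ContinuousLinearEquiv.ofBijective T (LinearMap.ker_eq_bot.2 hbij.1)
    (LinearMap.range_eq_top.2 hbij.2), ?_⟩
  intro f hf ω
  rw [ContinuousLinearEquiv.coeFn_ofBijective]
  exact hTpos f hf ω


theorem gen2 {R : C(K, ℝ) →L[ℝ] Y} {E : Y →L[ℝ] C(K, ℝ)} (hR : PU R) (hE : PU E)
    (hRE : ∀ y, R (E y) = y) {J : C(K, ℝ) →L[ℝ] Y} {u : Y →L[ℝ] C(K, ℝ)} (hJ : PU J) (hu : PU u)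
    (huJ : ∀ x, u (J x) = x) :
    ∃ T : C(ℕ → Bool, ℝ) ≃L[ℝ] C(K, ℝ),
      ∀ f : C(ℕ → Bool, ℝ), (∀ x, 0 ≤ f x) → ∀ y, 0 ≤ (T f) y := by
  -- the projection H
  let A : Y →L[ℝ] Y := (ind false).comp (J.comp (u.comp (pre false)))
  let B : Bool → Y →L[ℝ] Y := fun b => if b then ind true else 0
  have hB0 : B false = 0 := rfl
  have hB1 : B true = ind true := rfl
  have hApos : Pos A := (ind_pos false).comp (hJ.1.comp (hu.1.comp (pre_PU false).1))
  have hD : Data A B := by
    refine ⟨hApos, ?_, ?_⟩
    · intro b
      cases b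
      · rw [hB0]; intro f hf t; simp
      · rw [hB1]; exact ind_pos true
    · rw [hB0, hB1]
      have : A 1 = ind false 1 := by
        show ind false (J (u (pre false 1))) = _
        rw [(pre_PU false).2, hu.2, hJ.2]
      rw [this, _root_.zero_apply, add_zero]
      exact ind_one
  obtain ⟨H, hH, hfix⟩ := exists_fix hD
  have hHrec : ∀ y, H y = ind false (J (u (pre false y))) + ind true (H (pre true y)) := by
    intro y
    conv_lhs => rw [← hfix]
    rw [Phi_apply, hB0, hB1, _root_.zero_apply, add_zero]
    rfl
  have hHf : ∀ y, pre false (H y) = J (u (pre false y)) := by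
    intro y
    rw [hHrec, map_add, pre_ind_same, pre_ft, add_zero]
  have hHt : ∀ y, pre true (H y) = H (pre true y) := by
    intro y
    conv_lhs => rw [hHrec]
    rw [map_add, pre_ind_same, pre_tf, zero_add]
  have hHH : ∀ y, H (H y) = H y := by
    have hfix2 : Phi A B (H.comp H) = H.comp H := by
      ext1 y
      rw [Phi_apply, hB0, hB1, _root_.zero_apply, add_zero]
      show ind false (J (u (pre false y))) + ind true (H (H (pre true y))) = H (H y)
      conv_rhs => rw [hHrec (H y)]
      rw [hHf, huJ, hHt]
    have := unique hD (hH.comp hH) hH hfix2 hfix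
    intro y
    exact congrArg (fun V : Y →L[ℝ] Y => V y) this
  -- the two maps: first `Y → C(K, ℝ) × Y`
  let T1a : Y →L[ℝ] C(K, ℝ) := u.comp (pre false)
  let T1b : Y →L[ℝ] Y := ContinuousLinearMap.id ℝ Y + (2:ℝ) • (H.comp (pre true))
  -- second: `C(K, ℝ) × Y → C(K, ℝ)`
  let T2a : C(K, ℝ) →L[ℝ] C(K, ℝ) := ContinuousLinearMap.id ℝ C(K, ℝ) + (2:ℝ) • (E.comp ((ind true).comp R))
  let T2b : Y →L[ℝ] C(K, ℝ) := (2:ℝ) • (E.comp (ind false))
  have hT1a : ∀ y, T1a y = u (pre false y) := fun x => rfl
  have hT1b : ∀ y, T1b y = y + (2:ℝ) • H (pre true y) := fun x => rfl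
  have hT2a : ∀ x, T2a x = x + (2:ℝ) • E (ind true (R x)) := fun x => rfl
  have hT2b : ∀ y, T2b y = (2:ℝ) • E (ind false y) := fun y => rfl
  let T : Y →L[ℝ] C(K, ℝ) := T2a.comp T1a + T2b.comp T1b
  have hT : ∀ y, T y = T2a (T1a y) + T2b (T1b y) := fun x => rfl
  have hTpos : Pos T := by
    intro f hf s
    have ha : ∀ s, 0 ≤ T1a f s := hu.1 _ ((pre_PU false).1 _ hf)
    have hb : ∀ ω, 0 ≤ T1b f ω := by
      intro ω
      rw [hT1b]
      have h1 := hH.1 _ ((pre_PU true).1 _ hf) ω
      have h2 := hf ω
      simp only [ContinuousMap.add_apply, ContinuousMap.smul_apply, smul_eq_mul]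
      linarith
    have h3 := hE.1 _ (ind_pos true _ (hR.1 _ ha)) s
    have h4 := hE.1 _ (ind_pos false _ hb) s
    have h5 := ha s
    rw [hT, hT2a, hT2b]
    simp only [ContinuousMap.add_apply, ContinuousMap.smul_apply, smul_eq_mul]
    linarith
  -- second map
  have inj2 : ∀ x y, T2a x + T2b y = 0 → x = 0 ∧ y = 0 := by
    intro x y h
    rw [hT2a, hT2b] at h
    have h1 : R x + (2:ℝ) • (ind true (R x) + ind false y) = 0 := by
      have := congrArg R h
      simp only [map_add, map_smul, hRE, map_zero] at this
      rw [← this, smul_add]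
      abel
    have h2 : R x + (1/2:ℝ) • pre true (R x) = 0 := by
      have := congrArg (fun z => (1/2:ℝ) • pre true z) h1
      simp only [map_add, map_smul, pre_tf, pre_ind_same, add_zero, map_zero, smul_zero, smul_add,
        smul_smul] at this
      norm_num at this
      rw [add_comm] at this
      simpa using this
    have h3 : R x = 0 := fix_zero (pre true) (fun y => (pre_PU true).norm_le y) h2
    rw [h3, map_zero, zero_add, zero_add] at h1
    have h4 : y = 0 := by
      have := congrArg (fun z => (1/2:ℝ) • (pre false z)) h1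
      simp only [map_smul, pre_ind_same, map_zero, smul_zero, smul_smul] at this
      norm_num at this
      exact this
    refine ⟨?_, h4⟩
    rw [h4, h3] at h
    simpa using h
  have surj2 : ∀ z, ∃ x y, T2a x + T2b y = z := by
    intro z
    obtain ⟨v, hv⟩ := fix_solve (pre true) (fun y => (pre_PU true).norm_le y)
      ((1/2:ℝ) • pre true (R z))
    refine ⟨z - E (R z) + E v, (1/2:ℝ) • (pre false (R z) - pre false v), ?_⟩
    rw [hT2a, hT2b]
    have h1 : R (z - E (R z) + E v) = v := by
      rw [map_add, map_sub, hRE, hRE, sub_self, zero_add]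
    rw [h1]
    have key : v + (2:ℝ) • ind true v + (2:ℝ) • ind false ((1/2:ℝ) • (pre false (R z) - pre false v)) = R z := by
      rw [eq_iff]
      constructor
      · simp only [map_add, map_smul, pre_ind_same, pre_ft, smul_zero, add_zero, smul_smul]
        norm_num
      · simp only [map_add, map_smul, pre_ind_same, pre_tf, smul_zero, add_zero]
        have := congrArg (fun z => (2:ℝ) • z) hv
        simp only [smul_add, smul_smul] at this
        norm_num at this
        rw [add_comm]
        exact this
    have hE' := congrArg E key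
    simp only [map_add, map_smul] at hE'
    rw [← sub_eq_zero]
    rw [← sub_eq_zero] at hE'
    simp only [map_smul]
    rw [← hE']
    abel
  have inj1 : ∀ y, T1a y = 0 → T1b y = 0 → y = 0 := by
    intro y h1 h2
    rw [hT1a] at h1
    rw [hT1b] at h2
    -- H y + 2 pre true (H y) = 0
    have h3 : H y + (2:ℝ) • pre true (H y) = 0 := by
      have := congrArg H h2
      rw [map_add, map_smul, hHH, map_zero, ← hHt] at this
      exact this
    have h4 : H y + (1/2:ℝ) • ind true (H y) = 0 := by
      rw [eq_iff]
      constructor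
      · simp only [map_add, map_smul, pre_ft, smul_zero, add_zero, map_zero]
        rw [hHf, h1, map_zero]
      · simp only [map_add, map_smul, pre_ind_same, map_zero]
        have := congrArg (fun z => (1/2:ℝ) • z) h3
        simp only [smul_add, smul_smul, smul_zero] at this
        norm_num at this
        rw [add_comm] at this
        simpa using this
    have h5 : H y = 0 := fix_zero (ind true) (ind_norm_le true) h4
    have h6 : H (pre true y) = 0 := by rw [← hHt, h5, map_zero]
    rw [h6, smul_zero, add_zero] at h2
    exact h2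
  have surj1 : ∀ (z : C(K, ℝ)) (w : Y), ∃ y, T1a y = z ∧ T1b y = w := by
    intro z w
    obtain ⟨v, hv⟩ := fix_solve (ind true) (ind_norm_le true)
      (ind false (J z) + (1/2:ℝ) • ind true (H w))
    have hHindf : ∀ g, H (ind false g) = ind false (J (u g)) := by
      intro g
      rw [hHrec, pre_ind_same, pre_tf, map_zero, map_zero, add_zero]
    have hHindt : ∀ g, H (ind true g) = ind true (H g) := by
      intro g
      rw [hHrec, pre_ft, pre_ind_same, map_zero, map_zero, map_zero, zero_add]
    have hHv : H v = v := by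
      have h1 : H v + (1/2:ℝ) • ind true (H v) = ind false (J z) + (1/2:ℝ) • ind true (H w) := by
        have := congrArg H hv
        simp only [map_add, map_smul, hHindf, hHindt, huJ, hHH] at this
        exact this
      have h2 : (H v - v) + (1/2:ℝ) • ind true (H v - v) = 0 := by
        rw [map_sub, smul_sub]
        have : H v - v + ((1/2:ℝ) • ind true (H v) - (1/2:ℝ) • ind true v) =
          (H v + (1/2:ℝ) • ind true (H v)) - (v + (1/2:ℝ) • ind true v) := by abel
        rw [this, h1, hv, sub_self]
      exact sub_eq_zero.1 (fix_zero (ind true) (ind_norm_le true) h2)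
    have hvf : pre false v = J z := by
      have := congrArg (pre false) hv
      simpa only [map_add, map_smul, pre_ft, pre_ind_same, smul_zero, add_zero] using this
    have hvt : pre true v = (1/2:ℝ) • (H w - v) := by
      have := congrArg (pre true) hv
      simp only [map_add, map_smul, pre_tf, pre_ind_same, zero_add] at this
      rw [smul_sub]
      exact eq_sub_of_add_eq this
    refine ⟨w - H w + v, ?_, ?_⟩
    · rw [hT1a]
      have : u (pre false (w - H w)) = 0 := by
        rw [map_sub, map_sub, hHf, huJ, sub_self]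
      rw [map_add, map_add, this, hvf, huJ, zero_add]
    · rw [hT1b]
      have h1 : H (pre true (w - H w + v)) = pre true v := by
        rw [← hHt, map_add, map_sub, hHH, sub_self, zero_add, hHv]
      rw [h1, hvt, smul_smul]
      norm_num
  have hbij : Function.Bijective T := by
    constructor
    · rw [injective_iff_map_eq_zero]
      intro x hx
      rw [hT] at hx
      obtain ⟨h1, h2⟩ := inj2 _ _ hx
      exact inj1 x h1 h2
    · intro z
      obtain ⟨x', y', h⟩ := surj2 z
      obtain ⟨y, hy1, hy2⟩ := surj1 x' y'
      exact ⟨y, by rw [hT, hy1, hy2, h]⟩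
  refine ⟨ContinuousLinearEquiv.ofBijective T (LinearMap.ker_eq_bot.2 hbij.1)
    (LinearMap.range_eq_top.2 hbij.2), ?_⟩
  intro f hf ω
  rw [ContinuousLinearEquiv.coeFn_ofBijective]
  exact hTpos f hf ω


end Q100.Pos
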