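import Pool.Agent.Q100.PosGen

/-!
# Averaging and extension operators for compact metrizable spaces
-/

set_option autoImplicit false

open Filter Topology Set

namespace Q100.Pos

open Pool.Agent.H342R3.PosIso hiding X

/-- The parameter space. -/
abbrev Q := ℕ → unitInterval

/-- The weights. -/
noncomputable def wt (b : Bool) (x : unitInterval) : ℝ := if b then 1 - (x : ℝ) else (x : ℝ)

theorem wt_nonneg (b : Bool) (x : unitInterval) : 0 ≤ wt b x := by
  unfold wt
  split_ifs
  · linarith [x.2.2]
  · exact x.2.1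

theorem wt_sum (x : unitInterval) : wt false x + wt true x = 1 := by
  simp [wt]

theorem wt_cont (b : Bool) : Continuous (wt b) := by
  cases b
  · show Continuous fun x : unitInterval => if (false : Bool) then 1 - (x : ℝ) else (x : ℝ)
    simpa using continuous_subtype_val
  · show Continuous fun x : unitInterval => if (true : Bool) then 1 - (x : ℝ) else (x : ℝ)
    simp only [if_true]
    exact continuous_const.sub continuous_subtype_val

/-- The weight of the first digit. -/
noncomputable def wq (b : Bool) : C(Q, ℝ) := ⟨fun s => wt b (s 0), (wt_cont b).comp (continuous_apply 0)⟩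

/-- The shift. -/
def sh : C(Q, Q) := ⟨fun s n => s (n + 1), continuous_pi fun n => continuous_apply (n + 1)⟩

theorem sh_apply (s : Q) (n : ℕ) : sh s n = s (n + 1) := rfl

/-- The operators of the recursion. -/
noncomputable def BQ (b : Bool) : C(Q, ℝ) →L[ℝ] C(Q, ℝ) :=
  (ContinuousLinearMap.mul ℝ C(Q, ℝ) (wq b)).comp (ContinuousMap.compCLM ℝ ℝ sh)

theorem BQ_apply (b : Bool) (f : C(Q, ℝ)) (s : Q) : BQ b f s = wt b (s 0) * f (sh s) := rfl

theorem BQ_data : Data (0 : Y →L[ℝ] C(Q, ℝ)) BQ := by
  refine ⟨fun f hf t => by simp, fun b f hf s => ?_, ?_⟩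
  · rw [BQ_apply]
    exact mul_nonneg (wt_nonneg b _) (hf _)
  · ext s
    simp only [ContinuousMap.add_apply, BQ_apply, _root_.zero_apply, ContinuousMap.one_apply, mul_one,
      ContinuousMap.zero_apply, zero_add]
    exact wt_sum _

/-- The universal product operator. -/
theorem exists_UQ : ∃ U : Y →L[ℝ] C(Q, ℝ), PU U ∧
    ∀ y s, U y s = wt false (s 0) * U (pre false y) (sh s) + wt true (s 0) * U (pre true y) (sh s) := by
  obtain ⟨U, hU, hfix⟩ := exists_fix BQ_data
  refine ⟨U, hU, fun y t => ?_⟩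
  have : U y t = Phi 0 BQ U y t := by rw [hfix]
  rw [this, Phi_apply]
  simp only [ContinuousMap.add_apply, BQ_apply, _root_.zero_apply, ContinuousMap.zero_apply, zero_add]

theorem support {U : Y →L[ℝ] C(Q, ℝ)} (hU : PU U)
    (hrec : ∀ y s, U y s = wt false (s 0) * U (pre false y) (sh s) +
      wt true (s 0) * U (pre true y) (sh s)) (n : ℕ) :
    ∀ (y : Y) (s : Q) (c ε : ℝ), (∀ ω : Cant, (∀ i < n, 0 < wt (ω i) (s i)) → |y ω - c| ≤ ε) →
      |U y s - c| ≤ ε := by
  induction n with
  | zero =>
    intro y s c ε h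
    exact hU.abs_sub_le (fun x => h x (fun i hi => absurd hi (by omega))) s
  | succ n ih =>
    intro y s c ε h
    rw [hrec]
    have key : ∀ b, wt b (s 0) * |U (pre b y) (sh s) - c| ≤ wt b (s 0) * ε := by
      intro b
      rcases (wt_nonneg b (s 0)).eq_or_lt with h0 | h0
      · rw [← h0, zero_mul, zero_mul]
      · refine mul_le_mul_of_nonneg_left ?_ h0.le
        refine ih (pre b y) (sh s) c ε ?_
        intro ω hω
        rw [pre_apply]
        apply h
        intro i hi
        cases i with
        | zero => exact h0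
        | succ i => exact hω i (by omega)
    have e : wt false (s 0) * U (pre false y) (sh s) + wt true (s 0) * U (pre true y) (sh s) - c =
        wt false (s 0) * (U (pre false y) (sh s) - c) + wt true (s 0) * (U (pre true y) (sh s) - c) := by
      linear_combination c * wt_sum (s 0)
    rw [e]
    calc |wt false (s 0) * (U (pre false y) (sh s) - c) + wt true (s 0) * (U (pre true y) (sh s) - c)|
        ≤ |wt false (s 0) * (U (pre false y) (sh s) - c)| + |wt true (s 0) * (U (pre true y) (sh s) - c)| :=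
          abs_add_le _ _
      _ = wt false (s 0) * |U (pre false y) (sh s) - c| + wt true (s 0) * |U (pre true y) (sh s) - c| := by
          rw [abs_mul, abs_mul, abs_of_nonneg (wt_nonneg _ _), abs_of_nonneg (wt_nonneg _ _)]
      _ ≤ wt false (s 0) * ε + wt true (s 0) * ε := add_le_add (key false) (key true)
      _ = ε := by rw [← add_mul, wt_sum, one_mul]

theorem support' {U : Y →L[ℝ] C(Q, ℝ)} (hU : PU U)
    (hrec : ∀ y s, U y s = wt false (s 0) * U (pre false y) (sh s) +
      wt true (s 0) * U (pre true y) (sh s))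
    (y : Y) (s : Q) (c : ℝ) (h : ∀ ω : Cant, (∀ i, 0 < wt (ω i) (s i)) → y ω = c) :
    U y s = c := by
  by_contra hne
  have hpos : 0 < |U y s - c| := abs_pos.2 (sub_ne_zero.2 hne)
  obtain ⟨n, hn⟩ := exists_osc y (ε := |U y s - c| / 2) (by positivity)
  have h1 : |U y s - c| ≤ |U y s - c| / 2 := by
    refine support hU hrec n y s c _ ?_
    intro ω hω
    -- complete the digits
    have hd : ∀ i, ∃ b, 0 < wt b (s i) := by
      intro i
      by_contra hcon
      push Not at hcon
      have h1 := wt_sum (s i)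
      have h2 := hcon false
      have h3 := hcon true
      linarith
    choose d hd using hd
    have h2 : y (fun i => if i < n then ω i else d i) = c := by
      apply h
      intro i
      by_cases hi : i < n
      · simpa [hi] using hω i hi
      · simpa [hi] using hd i
    have h3 : |y ω - y (fun i => if i < n then ω i else d i)| ≤ |U y s - c| / 2 := by
      apply hn
      intro i hi
      simp [hi]
    rwa [h2] at h3
  linarith

variable {K : Type*} [TopologicalSpace K] [CompactSpace K]

/-- Operators from a continuous map to the parameter space. -/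
theorem exists_op (h : C(K, Q)) : ∃ V : Y →L[ℝ] C(K, ℝ), PU V ∧
    ∀ (y : Y) (t : K) (c : ℝ), (∀ ω : Cant, (∀ i, 0 < wt (ω i) (h t i)) → y ω = c) → V y t = c := by
  obtain ⟨U, hU, hrec⟩ := exists_UQ
  refine ⟨(ContinuousMap.compCLM ℝ ℝ h).comp U, (PU_comp h).comp hU, ?_⟩
  intro y t c hc
  exact support' hU hrec y (h t) c hc

/-! ### The extension operator -/

theorem exists_ext [T2Space K] [NormalSpace K] (f : Cant → K) (hf : Continuous f)
    (hinj : Function.Injective f) :
    ∃ (R : C(K, ℝ) →L[ℝ] Y) (E : Y →L[ℝ] C(K, ℝ)), PU R ∧ PU E ∧ ∀ y, R (E y) = y := by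
  have hcl : ∀ (i : ℕ) (b : Bool), IsClosed (f '' {ω | ω i = b}) := by
    intro i b
    refine (IsClosed.isCompact ?_).image hf |>.isClosed
    exact isClosed_eq (continuous_apply i) continuous_const
  have hdis : ∀ i : ℕ, Disjoint (f '' {ω | ω i = true}) (f '' {ω | ω i = false}) := by
    intro i
    rw [Set.disjoint_left]
    rintro _ ⟨ω, hω, rfl⟩ ⟨ω', hω', h⟩
    have := hinj h
    subst this
    simp only [mem_setOf_eq] at hω hω'
    rw [hω] at hω'
    exact absurd hω' (by simp)
  choose g hg0 hg1 hg01 using fun i =>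
    exists_continuous_zero_one_of_isClosed (hcl i true) (hcl i false) (hdis i)
  let h : C(K, Q) := ⟨fun t i => ⟨g i t, hg01 i t⟩,
    continuous_pi fun i => (g i).continuous.subtype_mk _⟩
  obtain ⟨E, hE, hEs⟩ := exists_op h
  refine ⟨ContinuousMap.compCLM ℝ ℝ ⟨f, hf⟩, E, PU_comp _, hE, ?_⟩
  intro y
  ext ω
  show E y (f ω) = y ω
  apply hEs
  intro ω' hω'
  congr 1
  funext i
  have h1 := hω' i
  by_contra hne
  have h2 : wt (ω' i) (h (f ω) i) = 0 := by
    cases hb : ω i with
    | false =>
      have h3 : ω' i = true := by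
        cases hb' : ω' i with
        | false => exact absurd (hb'.trans hb.symm) hne
        | true => rfl
      rw [h3]
      have h4 : g i (f ω) = 1 := hg1 i ⟨ω, hb, rfl⟩
      show 1 - g i (f ω) = 0
      rw [h4, _root_.sub_self]
    | true =>
      have h3 : ω' i = false := by
        cases hb' : ω' i with
        | true => exact absurd (hb'.trans hb.symm) hne
        | false => rfl
      rw [h3]
      exact hg0 i ⟨ω, hb, rfl⟩
  rw [h2] at h1
  exact lt_irrefl _ h1

/-! ### The averaging operator -/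

theorem exists_sep (K : Type*) [TopologicalSpace K] [CompactSpace K] [TopologicalSpace.MetrizableSpace K]
    [Nonempty K] :
    ∃ f : ℕ → C(K, ℝ), ∀ x y : K, x ≠ y → ∃ i, 2 / 3 < f i x ∧ f i y < 1 / 3 := by
  letI := TopologicalSpace.metrizableSpaceMetric K
  haveI : TopologicalSpace.SeparableSpace K := inferInstance
  let d := TopologicalSpace.denseSeq K
  refine ⟨fun n => ⟨fun x => (n.unpair.1 : ℝ) * dist x (d n.unpair.2), by fun_prop⟩, ?_⟩
  intro x y hxy
  have hδ : 0 < dist x y := dist_pos.2 hxy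
  obtain ⟨q, hq⟩ := exists_nat_gt (2 / dist x y)
  have hq' : 2 < q * dist x y := by rwa [div_lt_iff₀ hδ] at hq
  have hq0 : (0 : ℝ) < q := by
    have : 0 < 2 / dist x y := by positivity
    linarith
  obtain ⟨m, hm⟩ := (TopologicalSpace.denseRange_denseSeq K).exists_dist_lt y
    (show (0 : ℝ) < 1 / (3 * q) by positivity)
  have hm1 : q * dist y (d m) < 1 / 3 := by
    have h1 : dist y (d m) < 1 / (3 * q) := hm
    calc q * dist y (d m) < q * (1 / (3 * q)) := by gcongr
      _ = 1 / 3 := by field_simp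
  refine ⟨Nat.pair q m, ?_, ?_⟩
  · show 2 / 3 < ((Nat.unpair (Nat.pair q m)).1 : ℝ) * dist x (d (Nat.unpair (Nat.pair q m)).2)
    rw [Nat.unpair_pair]
    have h1 : dist x y ≤ dist x (d m) + dist y (d m) := dist_triangle_right _ _ _
    have h2 : q * dist x y ≤ q * dist x (d m) + q * dist y (d m) := by
      rw [← mul_add]; gcongr
    show 2 / 3 < (q : ℝ) * dist x (d m)
    linarith
  · show ((Nat.unpair (Nat.pair q m)).1 : ℝ) * dist y (d (Nat.unpair (Nat.pair q m)).2) < 1 / 3
    rw [Nat.unpair_pair]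
    exact hm1

theorem exists_avg (K : Type*) [TopologicalSpace K] [CompactSpace K] [TopologicalSpace.MetrizableSpace K]
    [Nonempty K] :
    ∃ (J : C(K, ℝ) →L[ℝ] Y) (u : Y →L[ℝ] C(K, ℝ)), PU J ∧ PU u ∧ ∀ x, u (J x) = x := by
  obtain ⟨f, hf⟩ := exists_sep K
  let h : C(K, Q) := ⟨fun t i => Set.projIcc 0 1 zero_le_one (3 * f i t - 1),
    continuous_pi fun i => continuous_projIcc.comp (by fun_prop)⟩
  let F : ℕ → Bool → Set K := fun i b => if b then {t | f i t ≤ 2 / 3} else {t | 1 / 3 ≤ f i t}
  have hF : ∀ i b, IsClosed (F i b) := by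
    intro i b
    cases b
    · exact isClosed_le continuous_const (f i).continuous
    · exact isClosed_le (f i).continuous continuous_const
  have hwF : ∀ i b t, 0 < wt b (h t i) → t ∈ F i b := by
    intro i b t hw
    cases b
    · show 1 / 3 ≤ f i t
      by_contra hcon
      push Not at hcon
      have : h t i = 0 := by
        show Set.projIcc 0 1 zero_le_one (3 * f i t - 1) = 0
        exact Set.projIcc_of_le_left _ (by linarith)
      rw [this] at hw
      exact absurd hw (by simp [wt])
    · show f i t ≤ 2 / 3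
      by_contra hcon
      push Not at hcon
      have : h t i = 1 := by
        show Set.projIcc 0 1 zero_le_one (3 * f i t - 1) = 1
        exact Set.projIcc_of_right_le _ (by linarith)
      rw [this] at hw
      exact absurd hw (by simp [wt])
  have hFs : ∀ (ω : Cant) (x y : K), (∀ i, x ∈ F i (ω i)) → (∀ i, y ∈ F i (ω i)) → x = y := by
    intro ω x y hx hy
    by_contra hne
    obtain ⟨i, h1, h2⟩ := hf x y hne
    have h3 := hx i
    have h4 := hy i
    cases hb : ω i with
    | false =>
      rw [hb] at h4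
      have : 1 / 3 ≤ f i y := h4
      linarith
    | true =>
      rw [hb] at h3
      have : f i x ≤ 2 / 3 := h3
      linarith
  -- the graph
  let G : Set (Cant × K) := {p | ∀ i, p.2 ∈ F i (p.1 i)}
  have hG : IsClosed G := by
    have : G = ⋂ i, ⋃ b : Bool, {p : Cant × K | p.1 i = b ∧ p.2 ∈ F i b} := by
      ext p
      simp only [G, mem_setOf_eq, mem_iInter, mem_iUnion]
      constructor
      · intro hp i
        exact ⟨p.1 i, rfl, hp i⟩
      · intro hp i
        obtain ⟨b, hb, hb'⟩ := hp i
        rw [hb]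
        exact hb'
    rw [this]
    refine isClosed_iInter fun i => ?_
    refine isClosed_iUnion_of_finite fun b => ?_
    refine IsClosed.inter ?_ ?_
    · exact isClosed_eq ((continuous_apply i).comp continuous_fst) continuous_const
    · exact (hF i b).preimage continuous_snd
  haveI : CompactSpace G := isCompact_iff_compactSpace.1 hG.isCompact
  let p1 : G → Cant := fun p => p.1.1
  have hp1 : Continuous p1 := continuous_fst.comp continuous_subtype_val
  have hp1i : Function.Injective p1 := by
    rintro ⟨⟨ω, x⟩, hx⟩ ⟨⟨ω', y⟩, hy⟩ hxy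
    have : ω = ω' := hxy
    subst this
    have : x = y := hFs ω x y hx hy
    subst this
    rfl
  have hemb : IsClosedEmbedding p1 := hp1.isClosedEmbedding hp1i
  -- nonempty
  have hdig : ∀ t : K, ∃ ω : Cant, ∀ i, 0 < wt (ω i) (h t i) := by
    intro t
    have hd : ∀ i, ∃ b, 0 < wt b (h t i) := by
      intro i
      by_contra hcon
      push Not at hcon
      have h1 := wt_sum (h t i)
      have h2 := hcon false
      have h3 := hcon true
      linarith
    choose d hd using hd
    exact ⟨d, hd⟩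
  have hne : (Set.range p1).Nonempty := by
    obtain ⟨t⟩ := ‹Nonempty K›
    obtain ⟨ω, hω⟩ := hdig t
    exact ⟨ω, ⟨⟨(ω, t), fun i => hwF i _ t (hω i)⟩, rfl⟩⟩
  obtain ⟨r, hr, hrr, hrc⟩ := PiNat.exists_retraction_of_isClosed hemb.isClosed_range hne
  -- the map
  let e := hemb.isEmbedding.toHomeomorph
  let Φ : C(Cant, K) := ⟨fun ω => (e.symm ⟨r ω, by rw [← hrr]; exact ⟨ω, rfl⟩⟩).1.2, by
    refine continuous_snd.comp (continuous_subtype_val.comp (e.symm.continuous.comp ?_))
    exact hrc.subtype_mk _⟩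
  have hΦ : ∀ (ω : Cant) (t : K), (∀ i, t ∈ F i (ω i)) → Φ ω = t := by
    intro ω t ht
    have hmem : ω ∈ Set.range p1 := ⟨⟨(ω, t), ht⟩, rfl⟩
    have h1 : r ω = ω := hr ω hmem
    have h2 : e.symm ⟨r ω, by rw [← hrr]; exact ⟨ω, rfl⟩⟩ = ⟨(ω, t), ht⟩ := by
      rw [Homeomorph.symm_apply_eq]
      apply Subtype.ext
      show r ω = ω
      exact h1
    show (e.symm ⟨r ω, _⟩).1.2 = t
    rw [h2]
  obtain ⟨u, hu, hus⟩ := exists_op h
  refine ⟨ContinuousMap.compCLM ℝ ℝ Φ, u, PU_comp _, hu, ?_⟩
  intro x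
  ext t
  apply hus
  intro ω hω
  show x (Φ ω) = x t
  rw [hΦ ω t (fun i => hwF i _ t (hω i))]

/-! ### Conclusion -/

theorem exists_cant (M : Type*) [TopologicalSpace M] [CompactSpace M]
    [TopologicalSpace.MetrizableSpace M] [Uncountable M] :
    ∃ f : Cant → M, Continuous f ∧ Function.Injective f := by
  letI := TopologicalSpace.metrizableSpaceMetric M
  obtain ⟨f, -, hf, hfi⟩ := isClosed_univ.exists_nat_bool_injection_of_not_countable (α := M)
    (by rw [Set.countable_univ_iff]; exact not_countable)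
  exact ⟨f, hf, hfi⟩

/-- Any two spaces `C(K)`, `C(L)`, with `K`, `L` uncountable compact metrizable, are positively
isomorphic. -/
theorem main (K : Type*) [TopologicalSpace K] [CompactSpace K] [TopologicalSpace.MetrizableSpace K]
    [Uncountable K] (L : Type*) [TopologicalSpace L] [CompactSpace L]
    [TopologicalSpace.MetrizableSpace L] [Uncountable L] :
    ∃ T : C(K, ℝ) ≃L[ℝ] C(L, ℝ), ∀ f : C(K, ℝ), (∀ x, 0 ≤ f x) → ∀ y, 0 ≤ T f y := by
  obtain ⟨T1, hT1⟩ : ∃ T : C(K, ℝ) ≃L[ℝ] C(ℕ → Bool, ℝ),
      ∀ f : C(K, ℝ), (∀ x, 0 ≤ f x) → ∀ y, 0 ≤ T f y := by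
    obtain ⟨f, hf, hfi⟩ := exists_cant K
    obtain ⟨R, E, hR, hE, hRE⟩ := exists_ext f hf hfi
    obtain ⟨J, u, hJ, hu, huJ⟩ := exists_avg K
    exact gen1 hR hE hRE hJ hu huJ
  obtain ⟨T2, hT2⟩ : ∃ T : C(ℕ → Bool, ℝ) ≃L[ℝ] C(L, ℝ),
      ∀ f : C(ℕ → Bool, ℝ), (∀ x, 0 ≤ f x) → ∀ y, 0 ≤ T f y := by
    obtain ⟨f, hf, hfi⟩ := exists_cant L
    obtain ⟨R, E, hR, hE, hRE⟩ := exists_ext f hf hfi
    obtain ⟨J, u, hJ, hu, huJ⟩ := exists_avg L
    exact gen2 hR hE hRE hJ hu huJ
  refine ⟨T1.trans T2, fun f hf y => ?_⟩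
  exact hT2 _ (hT1 f hf) y

end Q100.Pos
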