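import Mathlib

/-!
# Borel maps that are linear modulo a Banach subspace: definitions
-/

set_option autoImplicit false
open Filter Topology MeasureTheory

noncomputable section

namespace Q100.QL

/-- The data of the problem: Banach spaces `X`, `Y`; a subspace of `Y` that is a Banach space `M`
under a larger norm (`M` is given with its inclusion map `incl` into `Y`); and a Borel map
`phi : X → Y` that is linear modulo `M`. -/
structure Data (X Y M : Type) [NormedAddCommGroup X] [NormedSpace ℝ X] [NormedAddCommGroup Y]
    [NormedSpace ℝ Y] [NormedAddCommGroup M] [NormedSpace ℝ M] where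
  /-- the inclusion of `M` into `Y` -/
  incl : M →ₗ[ℝ] Y
  incl_injective : Function.Injective incl
  norm_incl_le : ∀ m, ‖incl m‖ ≤ ‖m‖
  /-- the Borel map -/
  phi : X → Y
  borel_phi : ∀ U : Set Y, IsOpen U → MeasurableSet[borel X] (phi ⁻¹' U)
  lin : ∀ (x y : X) (a b : ℝ), phi (a • x + b • y) - (a • phi x + b • phi y) ∈
    LinearMap.range incl

variable {X Y M : Type} [NormedAddCommGroup X] [NormedSpace ℝ X] [NormedAddCommGroup Y]
  [NormedSpace ℝ Y] [NormedAddCommGroup M] [NormedSpace ℝ M]

/-- The preimage `φ⁻¹(M)`, a linear subspace of `X`. -/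
def Data.preim (D : Data X Y M) : Submodule ℝ X where
  carrier := {x | D.phi x ∈ LinearMap.range D.incl}
  zero_mem' := by
    have h := D.lin 0 0 0 0
    simpa using h
  add_mem' := by
    intro x y hx hy
    have h := D.lin x y 1 1
    rw [one_smul, one_smul, one_smul, one_smul] at h
    have h2 := (LinearMap.range D.incl).add_mem h ((LinearMap.range D.incl).add_mem hx hy)
    rwa [sub_add_cancel] at h2
  smul_mem' := by
    intro c x hx
    have h := D.lin x 0 c 0
    rw [zero_smul, zero_smul, add_zero, add_zero] at h
    have h2 := (LinearMap.range D.incl).add_mem h ((LinearMap.range D.incl).smul_mem c hx)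
    rwa [sub_add_cancel] at h2

/-- A topology on `φ⁻¹(M)` is a Polish vector space topology whose Borel sets are the Borel
subsets of `X` contained in `φ⁻¹(M)`. -/
structure Data.IsPolishVectorTopology (D : Data X Y M) (τ : TopologicalSpace D.preim) : Prop where
  polish : @PolishSpace D.preim τ
  add : @ContinuousAdd D.preim τ _
  smul : @ContinuousSMul ℝ D.preim _ _ τ
  borel : ∀ A : Set D.preim, MeasurableSet[@borel D.preim τ] A ↔
    MeasurableSet[borel X] (Subtype.val '' A)

/-- A topology on a real vector space is normable: it is induced by some norm. -/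
def Normable {E : Type} [AddCommGroup E] [Module ℝ E] (τ : TopologicalSpace E) : Prop :=
  ∃ p : Seminorm ℝ E, (∀ x, p x = 0 → x = 0) ∧
    ∀ U : Set E, IsOpen[τ] U ↔ ∀ x ∈ U, ∃ r : ℝ, 0 < r ∧ ∀ y, p (y - x) < r → y ∈ U

end Q100.QL
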