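import Pool.Agent.Q100.QL

/-!
# A quasi-linear map whose preimage is not normable, main part
-/

set_option autoImplicit false
open Filter Topology MeasureTheory
open scoped ENNReal

noncomputable section

namespace Q100.QL

instance : TopologicalSpace.SeparableSpace L := by
  rw [← TopologicalSpace.isSeparable_univ_iff]
  have h1 : ∀ N : ℕ, TopologicalSpace.IsSeparable
      (Set.range fun c : Fin N → ℝ => ∑ i, c i • (lp.single 1 (i : ℕ) (1 : ℝ) : L)) := by
    intro N
    exact TopologicalSpace.isSeparable_range (by fun_prop)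
  refine ((TopologicalSpace.IsSeparable.iUnion h1).closure).mono (fun x _ => ?_)
  have h2 := (lp.hasSum_single (p := 1) ENNReal.one_ne_top x).tendsto_sum_nat
  refine mem_closure_of_tendsto h2 (Eventually.of_forall fun N => ?_)
  refine Set.mem_iUnion.2 ⟨N, fun i => (x : ∀ _ : ℕ, ℝ) i, ?_⟩
  simp only
  rw [Fin.sum_univ_eq_sum_range (fun i => (x : ∀ _ : ℕ, ℝ) i • (lp.single 1 i (1 : ℝ) : L))]
  refine Finset.sum_congr rfl (fun i _ => ?_)
  rw [← lp.single_smul, smul_eq_mul, mul_one]

/-- The preimage `φ⁻¹(M)`. -/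
abbrev S : Type := ↥data.preim

theorem mem_S (x : L) : x ∈ data.preim ↔ Summable fun n => |fl ((x : ∀ _ : ℕ, ℝ) n)| :=
  mem_range_incl (fun n => rfl)

/-- The map `ψ(x)_n = x_n log |x_n|` from `φ⁻¹(M)` to `ℓ₁`. -/
def psi (x : S) : L := mkL (fun n => fl ((x.1 : ∀ _ : ℕ, ℝ) n)) ((mem_S x.1).1 x.2)

theorem psi_apply (x : S) (n : ℕ) : (psi x : ∀ _ : ℕ, ℝ) n = fl ((x.1 : ∀ _ : ℕ, ℝ) n) := rfl

/-- The embedding defining the topology. -/
def gr (x : S) : L × L := (x.1, psi x)

/-- The topology. -/
def tau : TopologicalSpace S := TopologicalSpace.induced gr inferInstance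

/-- The defect of additivity. -/
def delta (p : L × L) : L :=
  mkL (fun n => fl ((p.1 : ∀ _ : ℕ, ℝ) n + (p.2 : ∀ _ : ℕ, ℝ) n) - fl ((p.1 : ∀ _ : ℕ, ℝ) n) -
    fl ((p.2 : ∀ _ : ℕ, ℝ) n))
    (Summable.of_nonneg_of_le (fun n => abs_nonneg _) (fun n => dl_bound _ _)
      ((summ p.1).add (summ p.2)))

theorem continuous_delta : Continuous delta := by
  refine continuous_L (H1 := fun p => p.1) (H2 := fun p => p.2) (fun n => ?_) continuous_fst
    continuous_snd (fun p n => dl_bound _ _)
  have h1 : Continuous fun p : L × L => (p.1 : ∀ _ : ℕ, ℝ) n :=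
    (continuous_coord n).comp continuous_fst
  have h2 : Continuous fun p : L × L => (p.2 : ∀ _ : ℕ, ℝ) n :=
    (continuous_coord n).comp continuous_snd
  exact ((continuous_fl.comp (h1.add h2)).sub (continuous_fl.comp h1)).sub
    (continuous_fl.comp h2)

theorem psi_add (x y : S) : psi (x + y) = psi x + psi y + delta (x.1, y.1) := by
  apply lp.ext
  funext n
  show fl ((x.1 : ∀ _ : ℕ, ℝ) n + (y.1 : ∀ _ : ℕ, ℝ) n) = fl ((x.1 : ∀ _ : ℕ, ℝ) n) +
    fl ((y.1 : ∀ _ : ℕ, ℝ) n) + (fl ((x.1 : ∀ _ : ℕ, ℝ) n + (y.1 : ∀ _ : ℕ, ℝ) n) -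
    fl ((x.1 : ∀ _ : ℕ, ℝ) n) - fl ((y.1 : ∀ _ : ℕ, ℝ) n))
  ring

theorem psi_smul (c : ℝ) (x : S) : psi (c • x) = c • psi x + fl c • x.1 := by
  apply lp.ext
  funext n
  show fl (c * (x.1 : ∀ _ : ℕ, ℝ) n) = c * fl ((x.1 : ∀ _ : ℕ, ℝ) n) +
    fl c * (x.1 : ∀ _ : ℕ, ℝ) n
  rw [fl_mul]
  ring

theorem psi_zero : psi 0 = 0 := by
  have := psi_smul 0 0
  simpa using this

theorem gr_inj : Function.Injective gr := fun x y h => Subtype.ext (congrArg Prod.fst h)

theorem continuous_gr : @Continuous S (L × L) tau _ gr := continuous_induced_dom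

theorem continuous_val : @Continuous S L tau _ Subtype.val :=
  @Continuous.comp S (L × L) L tau _ _ gr Prod.fst continuous_fst continuous_gr

theorem continuous_psi : @Continuous S L tau _ psi :=
  @Continuous.comp S (L × L) L tau _ _ gr Prod.snd continuous_snd continuous_gr

theorem isClosed_range : IsClosed (Set.range gr) := by
  have h : Set.range gr = ⋂ n : ℕ, {p : L × L | (p.2 : ∀ _ : ℕ, ℝ) n =
      fl ((p.1 : ∀ _ : ℕ, ℝ) n)} := by
    ext p
    simp only [Set.mem_range, Set.mem_iInter, Set.mem_ofPred_eq]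
    constructor
    · rintro ⟨x, rfl⟩ n
      rfl
    · intro hp
      have hx : p.1 ∈ data.preim := by
        rw [mem_S]
        refine (summ p.2).congr (fun n => ?_)
        rw [hp n]
      refine ⟨⟨p.1, hx⟩, ?_⟩
      refine Prod.ext rfl ?_
      apply lp.ext
      funext n
      exact (hp n).symm
  rw [h]
  refine isClosed_iInter (fun n => isClosed_eq ?_ ?_)
  · exact (continuous_coord n).comp continuous_snd
  · exact continuous_fl.comp ((continuous_coord n).comp continuous_fst)

theorem isTop : data.IsPolishVectorTopology tau := by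
  have hind : @IsInducing S (L × L) tau _ gr := @IsInducing.mk S (L × L) tau _ gr rfl
  have hemb : @IsClosedEmbedding S (L × L) tau _ gr :=
    @IsClosedEmbedding.mk S (L × L) tau _ gr (@IsEmbedding.mk S (L × L) tau _ gr hind gr_inj)
      isClosed_range
  have hpol : @PolishSpace S tau := @Topology.IsClosedEmbedding.polishSpace S (L × L) tau _ _ _ hemb
  refine ⟨hpol, ?_, ?_, ?_⟩
  · letI := tau
    refine ⟨continuous_induced_rng.2 ?_⟩
    have h1 : Continuous fun p : S × S => p.1.1 := continuous_val.comp continuous_fst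
    have h2 : Continuous fun p : S × S => p.2.1 := continuous_val.comp continuous_snd
    have h3 : Continuous fun p : S × S => psi p.1 := continuous_psi.comp continuous_fst
    have h4 : Continuous fun p : S × S => psi p.2 := continuous_psi.comp continuous_snd
    have h5 : Continuous fun p : S × S => (p.1.1 + p.2.1, psi p.1 + psi p.2 +
        delta (p.1.1, p.2.1)) :=
      (h1.add h2).prodMk ((h3.add h4).add (continuous_delta.comp (h1.prodMk h2)))
    refine h5.congr (fun p => ?_)
    refine Prod.ext rfl ?_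
    exact (psi_add p.1 p.2).symm
  · letI := tau
    refine ⟨continuous_induced_rng.2 ?_⟩
    have h1 : Continuous fun p : ℝ × S => p.2.1 := continuous_val.comp continuous_snd
    have h3 : Continuous fun p : ℝ × S => psi p.2 := continuous_psi.comp continuous_snd
    have h5 : Continuous fun p : ℝ × S => (p.1 • p.2.1, p.1 • psi p.2 + fl p.1 • p.2.1) :=
      (continuous_fst.smul h1).prodMk ((continuous_fst.smul h3).add
        ((continuous_fl.comp continuous_fst).smul h1))
    refine h5.congr (fun p => ?_)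
    refine Prod.ext rfl ?_
    exact (psi_smul p.1 p.2).symm
  · intro A
    letI := tau
    letI : MeasurableSpace S := borel S
    haveI : BorelSpace S := ⟨rfl⟩
    letI : MeasurableSpace L := borel L
    haveI : BorelSpace L := ⟨rfl⟩
    haveI := hpol
    constructor
    · intro hA
      exact MeasurableSet.image_of_continuousOn_injOn (s := A) hA
        continuous_val.continuousOn Subtype.val_injective.injOn
    · intro hA
      have h1 : A = Subtype.val ⁻¹' (Subtype.val '' A) :=
        (Set.preimage_image_eq A Subtype.val_injective).symm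
      rw [h1]
      exact continuous_val.measurable hA

/-- Uniqueness of the Polish vector space topology. -/
theorem le_of_isTop {X Y M : Type} [NormedAddCommGroup X] [NormedSpace ℝ X] [NormedAddCommGroup Y]
    [NormedSpace ℝ Y] [NormedAddCommGroup M] [NormedSpace ℝ M] {D : Data X Y M}
    {τ₁ τ₂ : TopologicalSpace D.preim} (h1 : D.IsPolishVectorTopology τ₁)
    (h2 : D.IsPolishVectorTopology τ₂) : τ₁ ≤ τ₂ := by
  have g1 : @IsTopologicalAddGroup _ τ₁ _ := by
    letI := τ₁
    haveI := h1.add
    haveI := h1.smul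
    haveI : ContinuousNeg D.preim := ⟨by
      have : Continuous fun x : D.preim => (-1 : ℝ) • x := continuous_const_smul _
      simpa using this⟩
    exact {}
  have g2 : @IsTopologicalAddGroup _ τ₂ _ := by
    letI := τ₂
    haveI := h2.add
    haveI := h2.smul
    haveI : ContinuousNeg D.preim := ⟨by
      have : Continuous fun x : D.preim => (-1 : ℝ) • x := continuous_const_smul _
      simpa using this⟩
    exact {}
  have b1 : @BaireSpace _ τ₁ := by
    letI := τ₁
    haveI := h1.polish
    infer_instance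
  have s2 : @TopologicalSpace.SeparableSpace _ τ₂ := by
    letI := τ₂
    haveI := h2.polish
    infer_instance
  have hc := @continuous_of_borel D.preim D.preim _ τ₁ g1 b1 _ τ₂ g2 s2 (AddMonoidHom.id _) (by
    intro U hU
    show MeasurableSet[@borel _ τ₁] U
    rw [h1.borel, ← h2.borel]
    exact MeasurableSpace.measurableSet_generateFrom hU)
  exact continuous_id_iff_le.1 hc

/-- Unit vectors. -/
def ek (k : ℕ) : S := ⟨lp.single 1 k (1 : ℝ), by
  rw [mem_S]
  refine summable_of_ne_finset_zero (s := {k}) (fun n hn => ?_)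
  rw [lp.single_apply, Pi.single_eq_of_ne (by simpa using hn), fl_zero, abs_zero]⟩

theorem ek_apply (k n : ℕ) : ((ek k).1 : ∀ _ : ℕ, ℝ) n = if n = k then 1 else 0 := by
  show (lp.single 1 k (1 : ℝ) : ∀ _ : ℕ, ℝ) n = _
  rw [lp.single_apply, Pi.single_apply]

theorem norm_ek (k : ℕ) : ‖(ek k).1‖ = 1 := by
  show ‖(lp.single 1 k (1 : ℝ) : L)‖ = 1
  rw [lp.norm_single (by norm_num)]
  simp

theorem psi_ek (k : ℕ) : psi (ek k) = 0 := by
  apply lp.ext
  funext n
  rw [psi_apply, ek_apply]
  split_ifs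
  · rw [fl_one]; rfl
  · rw [fl_zero]; rfl

theorem not_normable : ¬ Normable tau := by
  classical
  rintro ⟨p, -, hp⟩
  -- the unit ball of the norm is open
  have h1 : IsOpen[tau] {x : S | p x < 1} := by
    rw [hp]
    intro x hx
    refine ⟨1 - p x, by have : p x < 1 := hx; linarith, fun y hy => ?_⟩
    have h2 : p y ≤ p (y - x) + p x := by
      have := map_add_le_add p (y - x) x
      rwa [sub_add_cancel] at this
    show p y < 1
    linarith
  obtain ⟨O, hO, hOe⟩ := h1
  have h0 : ((0 : L), (0 : L)) ∈ O := by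
    have h2 : (0 : S) ∈ gr ⁻¹' O := by
      rw [hOe]
      show p 0 < 1
      rw [map_zero]
      exact one_pos
    have h3 : gr (0 : S) = (0, 0) := Prod.ext rfl psi_zero
    rw [← h3]
    exact h2
  obtain ⟨δ, hδ, hball⟩ := Metric.isOpen_iff.1 hO _ h0
  have h2 : ∀ x : S, ‖x.1‖ < δ → ‖psi x‖ < δ → p x < 1 := by
    intro x hx1 hx2
    have h3 : x ∈ gr ⁻¹' O := by
      apply hball
      rw [Metric.mem_ball, dist_eq_norm, Prod.norm_def, max_lt_iff]
      constructor
      · simpa [gr] using hx1
      · simpa [gr] using hx2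
    rw [hOe] at h3
    exact h3
  -- a small multiple
  obtain ⟨l, hl0, hl1, hl2⟩ : ∃ l : ℝ, 0 < l ∧ l < δ ∧ |fl l| < δ := by
    have h3 : Tendsto (fun s : ℝ => |fl s|) (𝓝[>] 0) (𝓝 0) := by
      have := (continuous_abs.comp continuous_fl).tendsto 0
      rw [Function.comp_apply, fl_zero, abs_zero] at this
      exact this.mono_left nhdsWithin_le_nhds
    have h4 : ∀ᶠ s : ℝ in 𝓝[>] 0, s < δ := nhdsWithin_le_nhds (gt_mem_nhds hδ)
    obtain ⟨l, ⟨hl1, hl2⟩, hl3⟩ := ((h3.eventually (gt_mem_nhds hδ)).and h4 |>.and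
      self_mem_nhdsWithin).exists
    exact ⟨l, hl3, hl2, hl1⟩
  have h3 : ∀ k, p (ek k) ≤ 1 / l := by
    intro k
    have h4 : p (l • ek k) < 1 := by
      refine h2 _ ?_ ?_
      · show ‖l • (ek k).1‖ < δ
        rw [norm_smul, norm_ek, mul_one, Real.norm_eq_abs, abs_of_pos hl0]
        exact hl1
      · rw [psi_smul, psi_ek, smul_zero, zero_add, norm_smul, norm_ek, mul_one]
        exact hl2
    rw [map_smul_eq_mul, Real.norm_eq_abs, abs_of_pos hl0] at h4
    rw [le_div_iff₀ hl0]
    linarith
  -- small vectors have small images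
  obtain ⟨r, hr, hr1⟩ : ∃ r : ℝ, 0 < r ∧ ∀ y : S, p y < r → ‖psi y‖ < 1 := by
    have h4 : IsOpen[tau] {x : S | ‖psi x‖ < 1} := by
      letI := tau
      exact isOpen_lt (continuous_norm.comp continuous_psi) continuous_const
    rw [hp] at h4
    obtain ⟨r, hr, h5⟩ := h4 0 (by show ‖psi 0‖ < 1; rw [psi_zero, norm_zero]; exact one_pos)
    exact ⟨r, hr, fun y hy => h5 y (by rwa [sub_zero])⟩
  set ε := r * l / 2 with hε
  have hε0 : 0 < ε := by positivity
  obtain ⟨n, hn⟩ := exists_nat_gt (max ε (Real.exp (1 / ε + Real.log ε)))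
  have hn1 : ε < n := (le_max_left _ _).trans_lt hn
  have hn2 : Real.exp (1 / ε + Real.log ε) < n := (le_max_right _ _).trans_lt hn
  have hn0 : (0 : ℝ) < n := hε0.trans hn1
  set c : S := (ε / n) • ∑ k ∈ Finset.range n, ek k with hc
  have hpc : p c < r := by
    rw [hc, map_smul_eq_mul, Real.norm_eq_abs, abs_of_pos (div_pos hε0 hn0)]
    have h4 : p (∑ k ∈ Finset.range n, ek k) ≤ n * (1 / l) := by
      calc p (∑ k ∈ Finset.range n, ek k) ≤ ∑ k ∈ Finset.range n, p (ek k) :=
          Finset.le_sum_of_subadditive p (map_zero p).le (map_add_le_add p) _ _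
        _ ≤ ∑ k ∈ Finset.range n, 1 / l := Finset.sum_le_sum fun k _ => h3 k
        _ = n * (1 / l) := by rw [Finset.sum_const, Finset.card_range, nsmul_eq_mul]
    calc ε / n * p (∑ k ∈ Finset.range n, ek k) ≤ ε / n * (n * (1 / l)) :=
          mul_le_mul_of_nonneg_left h4 (div_pos hε0 hn0).le
      _ = r / 2 := by rw [hε]; field_simp
      _ < r := by linarith
  have hpsi := hr1 c hpc
  have hcn : ∀ k ∈ Finset.range n, ((c.1 : L) : ∀ _ : ℕ, ℝ) k = ε / n := by
    intro k hk
    have h4 : (c.1 : L) = (ε / n) • ∑ k ∈ Finset.range n, (ek k).1 := by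
      rw [hc]
      show (ε / n) • ((∑ k ∈ Finset.range n, ek k : S) : L) = _
      congr 1
      exact map_sum (data.preim.subtype) _ _
    rw [h4]
    show (ε / n) * ((∑ k ∈ Finset.range n, (ek k).1 : L) : ∀ _ : ℕ, ℝ) k = ε / n
    rw [lp.coeFn_sum, Finset.sum_apply]
    simp_rw [ek_apply]
    rw [Finset.sum_ite_eq (Finset.range n) k, if_pos hk, mul_one]
  have h5 : ε * (Real.log n - Real.log ε) ≤ ‖psi c‖ := by
    rw [norm_eq]
    calc ε * (Real.log n - Real.log ε) = ∑ k ∈ Finset.range n, |fl (ε / n)| := by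
          rw [Finset.sum_const, Finset.card_range, nsmul_eq_mul]
          have h6 : fl (ε / n) = -(ε / n * (Real.log n - Real.log ε)) := by
            unfold fl
            rw [Real.log_div hε0.ne' hn0.ne']
            ring
          have h7 : Real.log ε ≤ Real.log n := Real.log_le_log hε0 hn1.le
          rw [h6, abs_neg, abs_of_nonneg (mul_nonneg (div_pos hε0 hn0).le (by linarith))]
          field_simp
      _ = ∑ k ∈ Finset.range n, |(psi c : ∀ _ : ℕ, ℝ) k| := by
          refine Finset.sum_congr rfl (fun k hk => ?_)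
          rw [psi_apply, hcn k hk]
      _ ≤ ∑' k, |(psi c : ∀ _ : ℕ, ℝ) k| := (summ (psi c)).sum_le_tsum _
          (fun _ _ => abs_nonneg _)
  have h6 : 1 / ε + Real.log ε < Real.log n := by
    rw [Real.lt_log_iff_exp_lt hn0]
    exact hn2
  have h7 : 1 < ε * (Real.log n - Real.log ε) := by
    have : 1 / ε < Real.log n - Real.log ε := by linarith
    rw [div_lt_iff₀ hε0] at this
    linarith
  linarith

theorem main : (∃ τ, data.IsPolishVectorTopology τ) ∧
    ∀ τ, data.IsPolishVectorTopology τ → ¬ Normable τ := by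
  refine ⟨⟨tau, isTop⟩, fun τ hτ => ?_⟩
  have : τ = tau := le_antisymm (le_of_isTop hτ isTop) (le_of_isTop isTop hτ)
  rw [this]
  exact not_normable

end Q100.QL
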