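import Pool.Agent.Q100.RSEDefs

set_option autoImplicit false
open Filter Topology
open scoped ENNReal

namespace Q100.RSE

universe u v

variable {𝕜 : Type} [RCLike 𝕜] {X : Type u} [NormedAddCommGroup X] [NormedSpace 𝕜 X]

/-- splitting the norm of `ℓ₁` at one coordinate -/
lemma l1_split (f : lp (fun _ : ℕ => 𝕜) 1) (i : ℕ) :
    ‖f i‖ + ‖f - lp.single 1 i (f i)‖ = ‖f‖ := by
  have hp : (0 : ℝ) < (1 : ℝ≥0∞).toReal := by simp
  have h1 := lp.hasSum_norm hp f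
  have h2 := lp.hasSum_norm hp (f - lp.single 1 i (f i))
  simp only [ENNReal.toReal_one, Real.rpow_one] at h1 h2
  have h3 : HasSum (fun j : ℕ => if j = i then ‖f i‖ else 0) ‖f i‖ := by
    have := hasSum_ite_eq i ‖f i‖
    exact this
  have h4 := h3.add h2
  have h5 : (fun j : ℕ => (if j = i then ‖f i‖ else 0) +
      ‖((f - lp.single 1 i (f i) : lp (fun _ : ℕ => 𝕜) 1) : ℕ → 𝕜) j‖)
      = fun j => ‖f j‖ := by
    funext j
    rw [lp.coeFn_sub, Pi.sub_apply]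
    by_cases hj : j = i
    · subst hj
      rw [lp.single_apply_self]; simp
    · rw [lp.single_apply_ne _ _ _ hj]; simp [hj]
  rw [h5] at h4
  exact h4.unique h1

/-- rotation of a value to its modulus -/
lemma rot (g : X →L[𝕜] 𝕜) (x : X) : ∃ c : 𝕜, ‖c‖ = 1 ∧ g (c • x) = ((‖g x‖ : ℝ) : 𝕜) := by
  obtain ⟨c, hc, hc'⟩ := RCLike.exists_norm_mul_eq_self (g x)
  have hcc : (starRingEnd 𝕜 c) * c = 1 := by
    rw [RCLike.conj_mul, hc]; simp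
  refine ⟨(starRingEnd 𝕜 c), by rw [RCLike.norm_conj, hc], ?_⟩
  rw [map_smul, smul_eq_mul]
  calc (starRingEnd 𝕜 c) * g x = (starRingEnd 𝕜 c) * (c * ((‖g x‖ : ℝ) : 𝕜)) := by rw [hc']
    _ = ((starRingEnd 𝕜 c) * c) * ((‖g x‖ : ℝ) : 𝕜) := by ring
    _ = ((‖g x‖ : ℝ) : 𝕜) := by rw [hcc, one_mul]

/-- evaluation bound from the separation -/
lemma opNorm_add_le {h k : X →L[𝕜] 𝕜} {t : ℝ}
    (hu : ∀ x y, ‖x‖ ≤ 1 → ‖y‖ ≤ 1 → RCLike.re (h x + k y) < t) : ‖h‖ + ‖k‖ ≤ t := by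
  have hsum : ∀ x y, ‖x‖ ≤ 1 → ‖y‖ ≤ 1 → ‖h x‖ + ‖k y‖ < t := by
    intro x y hx hy
    obtain ⟨c, hc, hcx⟩ := rot h x
    obtain ⟨d, hd, hdy⟩ := rot k y
    have := hu (c • x) (d • y) (by rw [norm_smul, hc, one_mul]; exact hx)
      (by rw [norm_smul, hd, one_mul]; exact hy)
    rw [map_add, hcx, hdy, RCLike.ofReal_re, RCLike.ofReal_re] at this
    exact this
  have ht : 0 < t := by
    have := hsum 0 0 (by simp) (by simp)
    simpa using this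
  by_contra hcon
  push Not at hcon
  -- choose near-norming points
  have : ∃ x y, ‖x‖ ≤ 1 ∧ ‖y‖ ≤ 1 ∧ t ≤ ‖h x‖ + ‖k y‖ := by
    set e := (‖h‖ + ‖k‖ - t) / 2 with he
    have hepos : 0 < e := by rw [he]; linarith
    have key : ∀ g : X →L[𝕜] 𝕜, ∃ x, ‖x‖ ≤ 1 ∧ ‖g‖ - e ≤ ‖g x‖ := by
      intro g
      by_cases hg : ‖g‖ - e < 0
      · exact ⟨0, by simp, by simpa using hg.le⟩
      · push Not at hg
        obtain ⟨x, hx, hx2⟩ := g.exists_lt_apply_of_lt_opNorm (show ‖g‖ - e < ‖g‖ by linarith)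
        exact ⟨x, hx.le, hx2.le⟩
    obtain ⟨x, hx, hx2⟩ := key h
    obtain ⟨y, hy, hy2⟩ := key k
    exact ⟨x, y, hx, hy, by linarith⟩
  obtain ⟨x, y, hx, hy, hxy⟩ := this
  exact absurd (hsum x y hx hy) (not_lt.mpr hxy)

/-- Helly type lemma: a bidual element `ξ` with `‖ξ‖ ≤ 1` and `‖2x₀ - ξ‖ ≤ 1` can be approximated
by an element of the unit ball of `X`. -/
lemma helly (x₀ : X) (ξ : (X →L[𝕜] 𝕜) →ₗ[𝕜] 𝕜) (h1 : ∀ φ, ‖ξ φ‖ ≤ ‖φ‖)
    (h2 : ∀ φ, ‖φ ((2 : 𝕜) • x₀) - ξ φ‖ ≤ ‖φ‖) (ψ : X →L[𝕜] 𝕜) (τ : ℝ) (hτ : 0 < τ) :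
    ∃ a : X, ‖a‖ ≤ 1 ∧ ‖(2 : 𝕜) • x₀ - a‖ ≤ 1 + τ ∧ ‖ψ a - ξ ψ‖ ≤ τ := by
  let _ : NormedSpace ℝ X := NormedSpace.restrictScalars ℝ 𝕜 X
  let B : Set X := Metric.closedBall (0 : X) 1
  let L : (X × X) →ₗ[𝕜] (X × 𝕜) :=
    { toFun := fun p => (p.1 + p.2, ψ p.1)
      map_add' := by
        intro p q
        ext
        · simp; abel
        · simp
      map_smul' := by
        intro c p
        ext <;> simp }
  have hconv : Convex ℝ (closure (L '' (B ×ˢ B))) := by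
    have hB : Convex ℝ (B ×ˢ B) := (convex_closedBall (0 : X) 1).prod (convex_closedBall (0 : X) 1)
    have hlin : IsLinearMap ℝ (fun p : X × X => (L p : X × 𝕜)) := by
      refine ⟨fun p q => L.map_add p q, fun r p => ?_⟩
      have h1 : r • p = ((r : ℝ) : 𝕜) • p := rfl
      have h2 : r • L p = ((r : ℝ) : 𝕜) • L p := by
        ext
        · rfl
        · simp [RCLike.real_smul_eq_coe_mul]
      show L (r • p) = r • L p
      rw [h1, h2, map_smul]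
    exact (hB.is_linear_image hlin).closure
  by_cases hv : (((2 : 𝕜) • x₀, ξ ψ) : X × 𝕜) ∈ closure (L '' (B ×ˢ B))
  · obtain ⟨p, ⟨⟨a, b⟩, hab, rfl⟩, hp⟩ := Metric.mem_closure_iff.mp hv τ hτ
    have ha : ‖a‖ ≤ 1 := by simpa [B] using hab.1
    have hb : ‖b‖ ≤ 1 := by simpa [B] using hab.2
    have e1 : dist ((2 : 𝕜) • x₀) (a + b) < τ :=
      lt_of_le_of_lt (by rw [Prod.dist_eq]; exact le_max_left _ _) hp
    have e2 : dist (ξ ψ) (ψ a) < τ :=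
      lt_of_le_of_lt (by rw [Prod.dist_eq]; exact le_max_right _ _) hp
    refine ⟨a, ha, ?_, ?_⟩
    · have : (2 : 𝕜) • x₀ - a = b + ((2 : 𝕜) • x₀ - (a + b)) := by abel
      rw [this]
      rw [dist_eq_norm] at e1
      exact (norm_add_le _ _).trans (by linarith)
    · rw [dist_eq_norm, norm_sub_rev] at e2
      exact e2.le
  · exfalso
    obtain ⟨f, u, hf1, hf2⟩ := RCLike.geometric_hahn_banach_closed_point (𝕜 := 𝕜)
      hconv isClosed_closure hv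
    -- decompose f
    let φ : X →L[𝕜] 𝕜 := f.comp (ContinuousLinearMap.inl 𝕜 X 𝕜)
    let α : 𝕜 := f (0, 1)
    have hf : ∀ (x : X) (s : 𝕜), f (x, s) = φ x + s * α := by
      intro x s
      have h3 : ((x, s) : X × 𝕜) = (x, 0) + s • ((0, 1) : X × 𝕜) := by
        ext <;> simp
      rw [h3, map_add, map_smul, smul_eq_mul]
      rfl
    let θ : X →L[𝕜] 𝕜 := φ + α • ψ
    have hle : ‖θ‖ + ‖φ‖ ≤ u := by
      refine opNorm_add_le (fun x y hx hy => ?_)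
      have h3 := hf1 (L (x, y)) (subset_closure ⟨(x, y), ⟨by simpa [B] using hx, by simpa [B] using hy⟩, rfl⟩)
      have h4 : f (L (x, y)) = θ x + φ y := by
        show f (x + y, ψ x) = _
        rw [hf, map_add]
        simp only [θ, add_apply, smul_apply, smul_eq_mul]
        ring
      rw [h4] at h3
      exact h3
    rw [hf] at hf2
    have h5 : φ ((2 : 𝕜) • x₀) + ξ ψ * α = ξ θ + (φ ((2 : 𝕜) • x₀) - ξ φ) := by
      simp only [θ, map_add, map_smul, smul_eq_mul]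
      ring
    rw [h5] at hf2
    have h6 : RCLike.re (ξ θ + (φ ((2 : 𝕜) • x₀) - ξ φ)) ≤ ‖θ‖ + ‖φ‖ := by
      refine (RCLike.re_le_norm _).trans ((norm_add_le _ _).trans ?_)
      exact add_le_add (h1 θ) (h2 φ)
    linarith


variable {Y : Type v} [NormedAddCommGroup Y] [NormedSpace 𝕜 Y]

lemma near_one {z : 𝕜} {τ : ℝ} (hz : ‖z‖ ≤ 1) (hτ : 0 ≤ τ) (h : 1 - τ ^ 2 / 2 ≤ RCLike.re z) :
    ‖z - 1‖ ≤ τ := by
  have h1 : ‖z - 1‖ ^ 2 ≤ τ ^ 2 := by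
    rw [RCLike.norm_sq_eq_def]
    have h2 : ‖z‖ ^ 2 ≤ 1 := by nlinarith [norm_nonneg z]
    rw [RCLike.norm_sq_eq_def] at h2
    simp only [map_sub, RCLike.one_re, RCLike.one_im, sub_zero]
    nlinarith
  exact abs_le_of_sq_le_sq' h1 hτ |>.2

lemma eq_one_of_re {κ : 𝕜} (h1 : ‖κ‖ = 1) (h2 : RCLike.re κ = 1) : κ = 1 := by
  have := near_one (τ := 0) h1.le le_rfl (by simp [h2])
  have h3 : ‖κ - 1‖ = 0 := le_antisymm this (norm_nonneg _)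
  exact sub_eq_zero.mp (norm_eq_zero.mp h3)

/-- In an `ℓ₁`-predual two coordinate functionals are almost separated by a point of the unit
sphere. -/
lemma exists_point (J : (X →L[𝕜] 𝕜) ≃ₗᵢ[𝕜] lp (fun _ : ℕ => 𝕜) 1) (τ : ℝ) (hτ : 0 < τ)
    (hτ1 : τ ≤ 1 / 2) :
    ∃ x : X, ‖x‖ = 1 ∧ 1 - τ ≤ ‖J.symm (lp.single 1 0 1) x‖ ∧
      ‖J.symm (lp.single 1 1 1) x‖ ≤ 2 * τ := by
  set g1 := J.symm (lp.single 1 0 1) with hg1
  set g2 := J.symm (lp.single 1 1 1) with hg2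
  have hone : (0 : ℝ≥0∞) < 1 := by simp
  have ng1 : ‖g1‖ = 1 := by
    rw [hg1, LinearIsometryEquiv.norm_map, lp.norm_single hone]; simp
  have ng2 : ‖g2‖ = 1 := by
    rw [hg2, LinearIsometryEquiv.norm_map, lp.norm_single hone]; simp
  have key : ∀ c : 𝕜, ‖c‖ = 1 → ∃ x : X, ‖x‖ ≤ 1 ∧ ‖g1 x - 1‖ ≤ τ ∧ ‖c * g2 x - 1‖ ≤ τ := by
    intro c hc
    have hn : ‖g1 + c • g2‖ = 2 := by
      have h1 : g1 + c • g2 = J.symm (lp.single 1 0 1 + c • lp.single 1 1 1) := by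
        rw [map_add, map_smul]
      rw [h1, LinearIsometryEquiv.norm_map]
      rw [← l1_split _ 0]
      have h2 : ((lp.single 1 0 1 + c • lp.single 1 1 1 : lp (fun _ : ℕ => 𝕜) 1) : ℕ → 𝕜) 0 = 1 := by
        show (lp.single (E := fun _ : ℕ => 𝕜) 1 0 1 : ℕ → 𝕜) 0
          + c * (lp.single (E := fun _ : ℕ => 𝕜) 1 1 1 : ℕ → 𝕜) 0 = 1
        rw [lp.single_apply_self, lp.single_apply_ne _ _ _ (by norm_num : (0 : ℕ) ≠ 1)]
        simp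
      rw [h2]
      have h3 : (lp.single 1 0 1 + c • lp.single 1 1 1 : lp (fun _ : ℕ => 𝕜) 1) - lp.single 1 0 1
          = c • lp.single 1 1 1 := by abel
      rw [h3, norm_smul, hc, lp.norm_single hone]
      norm_num
    have hlt : 2 - τ ^ 2 / 2 < ‖g1 + c • g2‖ := by rw [hn]; nlinarith [sq_nonneg τ, pow_pos hτ 2]
    obtain ⟨x, hx, hx2⟩ := (g1 + c • g2).exists_lt_apply_of_lt_opNorm hlt
    obtain ⟨w, hw, hwx⟩ := rot (g1 + c • g2) x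
    have hwn : ‖w • x‖ ≤ 1 := by rw [norm_smul, hw, one_mul]; exact hx.le
    have e1 : ‖g1 (w • x)‖ ≤ 1 := (g1.le_opNorm _).trans (by rw [ng1, one_mul]; exact hwn)
    have e2 : ‖c * g2 (w • x)‖ ≤ 1 := by
      rw [norm_mul, hc, one_mul]
      exact (g2.le_opNorm _).trans (by rw [ng2, one_mul]; exact hwn)
    have e3 : RCLike.re (g1 (w • x)) + RCLike.re (c * g2 (w • x)) = ‖(g1 + c • g2) x‖ := by
      rw [← map_add]
      have : g1 (w • x) + c * g2 (w • x) = (g1 + c • g2) (w • x) := by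
        simp [add_apply, smul_apply]
        ring
      rw [this, hwx, RCLike.ofReal_re]
    have e4 := (RCLike.re_le_norm (g1 (w • x))).trans e1
    have e5 := (RCLike.re_le_norm (c * g2 (w • x))).trans e2
    exact ⟨w • x, hwn, near_one e1 hτ.le (by linarith), near_one e2 hτ.le (by linarith)⟩
  obtain ⟨xp, hxp, hp1, hp2⟩ := key 1 (by simp)
  obtain ⟨xm, hxm, hm1, hm2⟩ := key (-1) (by simp)
  set x : X := (2⁻¹ : 𝕜) • (xp + xm) with hx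
  have n2 : ‖(2⁻¹ : 𝕜)‖ = 2⁻¹ := by simp
  have hxn : ‖x‖ ≤ 1 := by
    rw [hx, norm_smul, n2]
    have := norm_add_le xp xm
    linarith
  have hg1x : ‖g1 x - 1‖ ≤ τ := by
    have : g1 x - 1 = (2⁻¹ : 𝕜) * ((g1 xp - 1) + (g1 xm - 1)) := by
      rw [hx, map_smul, map_add, smul_eq_mul]
      have h2 : (2 : 𝕜) ≠ 0 := two_ne_zero
      field_simp
      ring
    rw [this, norm_mul, n2]
    have := norm_add_le (g1 xp - 1) (g1 xm - 1)
    linarith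
  have hg2x : ‖g2 x‖ ≤ τ := by
    have : g2 x = (2⁻¹ : 𝕜) * ((1 * g2 xp - 1) - (-1 * g2 xm - 1)) := by
      rw [hx, map_smul, map_add, smul_eq_mul]
      ring
    rw [this, norm_mul, n2]
    have := norm_sub_le (1 * g2 xp - 1) (-1 * g2 xm - 1)
    linarith
  have hg1x' : 1 - τ ≤ ‖g1 x‖ := by
    have h1 : ‖(1 : 𝕜)‖ ≤ ‖g1 x‖ + ‖g1 x - 1‖ := by
      have : (1 : 𝕜) = g1 x - (g1 x - 1) := by ring
      calc ‖(1 : 𝕜)‖ = ‖g1 x - (g1 x - 1)‖ := by rw [← this]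
        _ ≤ _ := norm_sub_le _ _
    rw [norm_one] at h1
    linarith
  have hxn' : 1 - τ ≤ ‖x‖ := hg1x'.trans ((g1.le_opNorm x).trans (by rw [ng1, one_mul]))
  have hxpos : 0 < ‖x‖ := by linarith
  have hinv : ‖((‖x‖ : ℝ) : 𝕜)⁻¹‖ = ‖x‖⁻¹ := by
    rw [norm_inv, RCLike.norm_ofReal, abs_of_pos hxpos]
  refine ⟨((‖x‖ : ℝ) : 𝕜)⁻¹ • x, ?_, ?_, ?_⟩
  · rw [norm_smul, hinv, inv_mul_cancel₀ hxpos.ne']
  · rw [map_smul, norm_smul, hinv]
    have h1 : 1 ≤ ‖x‖⁻¹ := (one_le_inv₀ hxpos).mpr hxn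
    nlinarith [norm_nonneg (g1 x)]
  · rw [map_smul, norm_smul, hinv]
    have h1 : ‖x‖⁻¹ ≤ 2 := by
      rw [inv_le_comm₀ hxpos (by norm_num)]
      linarith
    have h2 : 0 ≤ ‖x‖⁻¹ := inv_nonneg.mpr hxpos.le
    nlinarith [norm_nonneg (g2 x)]


/-- The main construction. -/
lemma core (J : (X →L[𝕜] 𝕜) ≃ₗᵢ[𝕜] lp (fun _ : ℕ => 𝕜) 1) (hB : CompactBPBpRSE 𝕜 X Y)
    (ε : ℝ) (hε : 0 < ε) : ∃ δ : ℝ, 0 < δ ∧ δ < 1 ∧ ∀ m d : Y,
      (∀ s t : 𝕜, ‖s‖ ≤ 1 → ‖t‖ ≤ 1 → ‖s • m + t • d‖ ≤ 1) → 1 - δ ≤ ‖m‖ → ‖d‖ ≤ ε := by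
  obtain ⟨ε₁, hε₁, hε₁8, hε₁ε⟩ : ∃ e : ℝ, 0 < e ∧ e ≤ 1 / 8 ∧ 8 * √e ≤ ε := by
    refine ⟨min (1 / 8) (ε ^ 2 / 64), by positivity, min_le_left _ _, ?_⟩
    have h1 : √(min (1 / 8) (ε ^ 2 / 64)) ≤ ε / 8 := by
      rw [Real.sqrt_le_left (by positivity)]
      calc min (1 / 8) (ε ^ 2 / 64) ≤ ε ^ 2 / 64 := min_le_right _ _
        _ = (ε / 8) ^ 2 := by ring
    linarith
  obtain ⟨η, hη, hηε, hBP⟩ := hB ε₁ hε₁
  refine ⟨η / 4, by positivity, by linarith, fun m d hmd hm => ?_⟩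
  set τ : ℝ := η / 8 with hτdef
  have hτ : 0 < τ := by positivity
  obtain ⟨x, hx, hx1, hx2⟩ := exists_point J τ hτ (by linarith)
  set g1 := J.symm (lp.single 1 0 1) with hg1
  set g2 := J.symm (lp.single 1 1 1) with hg2
  have hone : (0 : ℝ≥0∞) < 1 := by simp
  have ng1 : ‖g1‖ = 1 := by
    rw [hg1, LinearIsometryEquiv.norm_map, lp.norm_single hone]; simp
  have ng2 : ‖g2‖ = 1 := by
    rw [hg2, LinearIsometryEquiv.norm_map, lp.norm_single hone]; simp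
  have g1le : ∀ y, ‖g1 y‖ ≤ ‖y‖ := fun y => (g1.le_opNorm y).trans (by rw [ng1, one_mul])
  have g2le : ∀ y, ‖g2 y‖ ≤ ‖y‖ := fun y => (g2.le_opNorm y).trans (by rw [ng2, one_mul])
  have hm1 : ‖m‖ ≤ 1 := by simpa using hmd 1 0 (by simp) (by simp)
  have hd1 : ‖d‖ ≤ 1 := by simpa using hmd 0 1 (by simp) (by simp)
  -- the operator
  let T₀ : X →L[𝕜] Y := g1.smulRight m + g2.smulRight d
  have hT₀ : ∀ y, T₀ y = g1 y • m + g2 y • d := fun y => rfl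
  have hN1 : ‖T₀‖ ≤ 1 := by
    refine T₀.opNorm_le_bound zero_le_one (fun y => ?_)
    rw [one_mul]
    by_cases hy : y = 0
    · simp [hy]
    · have hy' : 0 < ‖y‖ := norm_pos_iff.mpr hy
      have hinv : ‖((‖y‖ : ℝ) : 𝕜)⁻¹‖ = ‖y‖⁻¹ := by
        rw [norm_inv, RCLike.norm_ofReal, abs_of_pos hy']
      have h1 := hmd (((‖y‖ : ℝ) : 𝕜)⁻¹ * g1 y) (((‖y‖ : ℝ) : 𝕜)⁻¹ * g2 y)
        (by rw [norm_mul, hinv]; rw [inv_mul_le_iff₀ hy', mul_one]; exact g1le y)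
        (by rw [norm_mul, hinv]; rw [inv_mul_le_iff₀ hy', mul_one]; exact g2le y)
      rw [mul_smul, mul_smul, ← smul_add, norm_smul, hinv, inv_mul_le_iff₀ hy', mul_one] at h1
      exact h1
  have hT₀x : 1 - η / 4 - 3 * τ ≤ ‖T₀ x‖ := by
    rw [hT₀]
    have h1 : ‖g1 x • m‖ ≤ ‖g1 x • m + g2 x • d‖ + ‖g2 x • d‖ := by
      have : g1 x • m = (g1 x • m + g2 x • d) - g2 x • d := by abel
      calc ‖g1 x • m‖ = ‖(g1 x • m + g2 x • d) - g2 x • d‖ := by rw [← this]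
        _ ≤ _ := norm_sub_le _ _
    rw [norm_smul, norm_smul] at h1
    have h2 : (1 - τ) * (1 - η / 4) ≤ ‖g1 x‖ * ‖m‖ :=
      mul_le_mul hx1 hm (by linarith) (norm_nonneg _)
    have h3 : ‖g2 x‖ * ‖d‖ ≤ 2 * τ := by nlinarith [norm_nonneg (g2 x), norm_nonneg d]
    nlinarith
  have hTxpos : 0 < ‖T₀ x‖ := by linarith
  have hNpos : 0 < ‖T₀‖ := by
    have := T₀.le_opNorm x
    rw [hx, mul_one] at this
    linarith
  set N := ‖T₀‖ with hN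
  have hNinv : ‖((N : ℝ) : 𝕜)⁻¹‖ = N⁻¹ := by
    rw [norm_inv, RCLike.norm_ofReal, abs_of_pos hNpos]
  let T : X →L[𝕜] Y := ((N : ℝ) : 𝕜)⁻¹ • T₀
  have hTn : ‖T‖ = 1 := by
    show ‖((N : ℝ) : 𝕜)⁻¹ • T₀‖ = 1
    rw [norm_smul, hNinv, ← hN, inv_mul_cancel₀ hNpos.ne']
  have hTc : IsCompactOperator T := by
    have c1 : IsCompactOperator (g1.smulRight m) := by
      have h1 : IsCompactOperator g1 :=
        isCompactOperator_of_locallyCompactSpace_dom g1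
      exact h1.clm_comp (ContinuousLinearMap.toSpanSingleton 𝕜 m)
    have c2 : IsCompactOperator (g2.smulRight d) := by
      have h1 : IsCompactOperator g2 :=
        isCompactOperator_of_locallyCompactSpace_dom g2
      exact h1.clm_comp (ContinuousLinearMap.toSpanSingleton 𝕜 d)
    have c3 : IsCompactOperator T₀ := c1.add c2
    exact c3.smul (((N : ℝ) : 𝕜)⁻¹)
  have hTx : 1 - η < ‖T x‖ := by
    show 1 - η < ‖((N : ℝ) : 𝕜)⁻¹ • T₀ x‖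
    rw [norm_smul, hNinv]
    have h1 : 1 ≤ N⁻¹ := (one_le_inv₀ hNpos).mpr hN1
    nlinarith
  obtain ⟨S, x₀, -, hRSE, hSn, hx₀, hSx₀, hST, hxx₀⟩ := hBP T hTc hTn x hx hTx
  have hT₀S : ∀ v, ‖T₀ v‖ ≤ ‖S v‖ + ε₁ * ‖v‖ := by
    intro v
    have h1 : T₀ v = ((N : ℝ) : 𝕜) • T v := by
      show T₀ v = ((N : ℝ) : 𝕜) • (((N : ℝ) : 𝕜)⁻¹ • T₀ v)
      rw [smul_smul, mul_inv_cancel₀, one_smul]
      exact RCLike.ofReal_ne_zero.mpr hNpos.ne'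
    have h2 : ‖T v‖ ≤ ‖S v‖ + ε₁ * ‖v‖ := by
      have h3 : T v = S v - (S - T) v := by simp [sub_apply]
      rw [h3]
      refine (norm_sub_le _ _).trans ?_
      have := (S - T).le_opNorm v
      have h4 : ‖S - T‖ * ‖v‖ ≤ ε₁ * ‖v‖ := mul_le_mul_of_nonneg_right hST.le (norm_nonneg _)
      linarith
    rw [h1, norm_smul, RCLike.norm_ofReal, abs_of_pos hNpos]
    calc N * ‖T v‖ ≤ 1 * ‖T v‖ := mul_le_mul_of_nonneg_right hN1 (norm_nonneg _)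
      _ = ‖T v‖ := one_mul _
      _ ≤ _ := h2
  have hg1x₀ : 1 - 2 * ε₁ ≤ ‖g1 x₀‖ := by
    have h1 : ‖g1 x‖ ≤ ‖g1 x₀‖ + ‖x - x₀‖ := by
      have h2 : g1 x = g1 x₀ + g1 (x - x₀) := by rw [← map_add]; congr 1; abel
      rw [h2]
      exact (norm_add_le _ _).trans (by linarith [g1le (x - x₀)])
    linarith
  have hg2x₀ : ‖g2 x₀‖ ≤ 2 * ε₁ := by
    have h1 : ‖g2 x₀‖ ≤ ‖g2 x‖ + ‖x - x₀‖ := by
      have h2 : g2 x₀ = g2 x - g2 (x - x₀) := by rw [← map_sub]; congr 1; abel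
      rw [h2]
      exact (norm_sub_le _ _).trans (by linarith [g2le (x - x₀)])
    linarith
  set c : ℝ := 1 - ‖g2 x₀‖ with hc
  have hc2 : 1 / 2 ≤ c := by linarith
  -- the bidual element
  let ξ₁ : (X →L[𝕜] 𝕜) →ₗ[𝕜] 𝕜 :=
    { toFun := fun φ => ((c : ℝ) : 𝕜) * (J φ : ℕ → 𝕜) 1
      map_add' := by
        intro φ ψ
        rw [map_add, lp.coeFn_add, Pi.add_apply, mul_add]
      map_smul' := by
        intro r φ
        rw [map_smul, lp.coeFn_smul, Pi.smul_apply]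
        simp only [smul_eq_mul, RingHom.id_apply]
        ring }
  let ξ₀ : (X →L[𝕜] 𝕜) →ₗ[𝕜] 𝕜 :=
    { toFun := fun φ => φ x₀
      map_add' := fun φ ψ => rfl
      map_smul' := fun r φ => rfl }
  have hbound : ∀ (s : 𝕜), ‖s‖ = 1 → ∀ φ, ‖φ x₀ + s * ξ₁ φ‖ ≤ ‖φ‖ := by
    intro s hs φ
    set ρ := (J φ : ℕ → 𝕜) 1 with hρ
    have h1 := l1_split (J φ) 1
    rw [LinearIsometryEquiv.norm_map, ← hρ] at h1
    have h2 : ‖φ - ρ • g2‖ = ‖J φ - lp.single 1 1 ρ‖ := by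
      rw [← J.norm_map (φ - ρ • g2), map_sub, map_smul, hg2, LinearIsometryEquiv.apply_symm_apply]
      rw [← lp.single_smul]
      simp
    have h3 : φ x₀ + s * ξ₁ φ = ρ * (g2 x₀ + s * ((c : ℝ) : 𝕜)) + (φ - ρ • g2) x₀ := by
      show φ x₀ + s * (((c : ℝ) : 𝕜) * ρ) = _
      simp only [sub_apply, smul_apply, smul_eq_mul]
      ring
    rw [h3, ← h1, ← h2]
    refine (norm_add_le _ _).trans (add_le_add ?_ ?_)
    · rw [norm_mul]
      have h4 : ‖g2 x₀ + s * ((c : ℝ) : 𝕜)‖ ≤ 1 := by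
        refine (norm_add_le _ _).trans ?_
        rw [norm_mul, hs, one_mul, RCLike.norm_ofReal, abs_of_nonneg (by linarith)]
        linarith
      nlinarith [norm_nonneg ρ]
    · refine ((φ - ρ • g2).le_opNorm x₀).trans ?_
      rw [hx₀, mul_one]
  have hA : ∀ n : ℕ, ∃ a : X, ‖a‖ ≤ 1 ∧ ‖(2 : 𝕜) • x₀ - a‖ ≤ 1 + 1 / ((n : ℝ) + 1) ∧
      ‖g2 a - (g2 x₀ + ((c : ℝ) : 𝕜))‖ ≤ 1 / ((n : ℝ) + 1) := by
    intro n
    obtain ⟨a, ha1, ha2, ha3⟩ := helly x₀ (ξ₀ + ξ₁)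
      (fun φ => by
        have := hbound 1 (by simp) φ
        rw [one_mul] at this
        exact this)
      (fun φ => by
        have := hbound (-1) (by simp) φ
        have h2 : φ ((2 : 𝕜) • x₀) - (ξ₀ + ξ₁) φ = φ x₀ + -1 * ξ₁ φ := by
          show φ ((2 : 𝕜) • x₀) - (φ x₀ + ξ₁ φ) = _
          rw [map_smul, smul_eq_mul]
          ring
        rw [h2]
        exact this)
      g2 (1 / ((n : ℝ) + 1)) (by positivity)
    refine ⟨a, ha1, ha2, ?_⟩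
    have h2 : (ξ₀ + ξ₁) g2 = g2 x₀ + ((c : ℝ) : 𝕜) := by
      rw [LinearMap.add_apply]
      have h3 : ξ₁ g2 = ((c : ℝ) : 𝕜) * (J g2 : ℕ → 𝕜) 1 := rfl
      have h4 : J g2 = lp.single 1 1 1 := by rw [hg2, LinearIsometryEquiv.apply_symm_apply]
      rw [h3, h4, lp.single_apply_self, mul_one]
      rfl
    rw [h2] at ha3
    exact ha3
  choose a ha1 ha2 ha3 using hA
  have hlim0 : Tendsto (fun n : ℕ => 1 / ((n : ℝ) + 1)) atTop (𝓝 0) :=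
    tendsto_one_div_add_atTop_nhds_zero_nat
  -- norming functional
  obtain ⟨y, hy1, hy2⟩ := exists_dual_vector'' 𝕜 (S x₀)
  rw [hSx₀] at hy2
  have hyle : ∀ z, RCLike.re (y z) ≤ ‖z‖ := fun z =>
    (RCLike.re_le_norm _).trans ((y.le_opNorm z).trans (by nlinarith [norm_nonneg z]))
  have hSle : ∀ z, ‖S z‖ ≤ ‖z‖ := fun z => (S.le_opNorm z).trans (by rw [hSn, one_mul])
  have hre : ∀ n : ℕ, 1 - 1 / ((n : ℝ) + 1) ≤ RCLike.re (y (S (a n))) := by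
    intro n
    have h1 : RCLike.re (y (S (a n))) + RCLike.re (y (S ((2 : 𝕜) • x₀ - a n))) = 2 := by
      rw [← map_add, ← map_add, ← map_add]
      have : a n + ((2 : 𝕜) • x₀ - a n) = (2 : 𝕜) • x₀ := by abel
      rw [this, map_smul, map_smul, hy2]
      simp
    have h2 : RCLike.re (y (S ((2 : 𝕜) • x₀ - a n))) ≤ 1 + 1 / ((n : ℝ) + 1) :=
      (hyle _).trans ((hSle _).trans (ha2 n))
    linarith
  have hre2 : ∀ n, RCLike.re (y (S (a n))) ≤ 1 := fun n => (hyle _).trans ((hSle _).trans (ha1 n))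
  have hlim1 : Tendsto (fun n : ℕ => 1 - 1 / ((n : ℝ) + 1)) atTop (𝓝 1) := by
    simpa using hlim0.const_sub 1
  have hSa : Tendsto (fun n => ‖S (a n)‖) atTop (𝓝 ‖S‖) := by
    rw [hSn]
    refine tendsto_of_tendsto_of_tendsto_of_le_of_le hlim1 tendsto_const_nhds ?_ ?_
    · intro n; exact (hre n).trans (hyle _)
    · intro n; exact (hSle _).trans (ha1 n)
  have hReT : Tendsto (fun n => RCLike.re (y (S (a n)))) atTop (𝓝 1) :=
    tendsto_of_tendsto_of_tendsto_of_le_of_le hlim1 tendsto_const_nhds hre hre2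
  obtain ⟨x', hx', hx'2⟩ := hRSE
  obtain ⟨σ, c1, hσ, hc1, hlimS⟩ := hx'2 a ha1 hSa
  obtain ⟨σ', c2, hσ', hc2', hlimS'⟩ := hx'2 (fun _ => x₀) (fun _ => hx₀.le)
    (by simp only [hSx₀, hSn]; exact tendsto_const_nhds)
  have hSx₀' : S x₀ = c2 • S x' := tendsto_nhds_unique tendsto_const_nhds hlimS'
  have hc2ne : c2 ≠ 0 := by
    intro h; rw [h, norm_zero] at hc2'; norm_num at hc2'
  have hκ : c1 • S x' = (c1 * c2⁻¹) • S x₀ := by
    rw [hSx₀', smul_smul, mul_assoc, inv_mul_cancel₀ hc2ne, mul_one]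
  rw [hκ] at hlimS
  have hκ1 : c1 * c2⁻¹ = 1 := by
    refine eq_one_of_re (by rw [norm_mul, norm_inv, hc1, hc2']; norm_num) ?_
    have h1 : Tendsto (fun n => RCLike.re (y (S (a (σ n))))) atTop
        (𝓝 (RCLike.re (y ((c1 * c2⁻¹) • S x₀)))) :=
      ((RCLike.continuous_re.comp y.continuous).tendsto _).comp hlimS
    have h2 : Tendsto (fun n => RCLike.re (y (S (a (σ n))))) atTop (𝓝 1) :=
      hReT.comp hσ.tendsto_atTop
    have h3 := tendsto_nhds_unique h1 h2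
    rw [map_smul, hy2] at h3
    simpa using h3
  rw [hκ1, one_smul] at hlimS
  have hlimv : Tendsto (fun n => ‖S (a (σ n) - x₀)‖) atTop (𝓝 0) := by
    have h1 : Tendsto (fun n => S (a (σ n)) - S x₀) atTop (𝓝 (S x₀ - S x₀)) :=
      hlimS.sub tendsto_const_nhds
    rw [sub_self] at h1
    have h2 := h1.norm
    rw [norm_zero] at h2
    refine h2.congr (fun n => ?_)
    rw [map_sub]
  -- estimates for the first coordinate
  have hg1v : ∀ n : ℕ, ‖g1 (a n - x₀)‖ ≤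
      √((1 + (1 + 1 / ((n : ℝ) + 1)) ^ 2) / 2 - (1 - 2 * ε₁) ^ 2) := by
    intro n
    refine Real.le_sqrt_of_sq_le ?_
    have h1 := parallelogram_law_with_norm 𝕜 (g1 x₀) (g1 (a n - x₀))
    have h2 : g1 x₀ + g1 (a n - x₀) = g1 (a n) := by rw [← map_add]; congr 1; abel
    have h3 : g1 x₀ - g1 (a n - x₀) = g1 ((2 : 𝕜) • x₀ - a n) := by
      rw [← map_sub]; congr 1; rw [two_smul]; abel
    rw [h2, h3] at h1
    have h4 := (g1le (a n)).trans (ha1 n)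
    have h5 := (g1le ((2 : 𝕜) • x₀ - a n)).trans (ha2 n)
    have h6 : ‖g1 (a n)‖ * ‖g1 (a n)‖ ≤ 1 := by nlinarith [norm_nonneg (g1 (a n))]
    have h7 : ‖g1 ((2 : 𝕜) • x₀ - a n)‖ * ‖g1 ((2 : 𝕜) • x₀ - a n)‖
        ≤ (1 + 1 / ((n : ℝ) + 1)) ^ 2 := by
      rw [sq]; exact mul_self_le_mul_self (norm_nonneg _) h5
    have h8 : (1 - 2 * ε₁) ^ 2 ≤ ‖g1 x₀‖ * ‖g1 x₀‖ := by
      rw [sq]; exact mul_self_le_mul_self (by linarith) hg1x₀
    nlinarith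
  have hmain : ∀ n, ‖g2 (a (σ n) - x₀)‖ * ‖d‖ ≤ ‖S (a (σ n) - x₀)‖ + 2 * ε₁ +
      √((1 + (1 + 1 / (((σ n : ℕ) : ℝ) + 1)) ^ 2) / 2 - (1 - 2 * ε₁) ^ 2) := by
    intro n
    set v := a (σ n) - x₀ with hv
    have h1 := hT₀S v
    rw [hT₀] at h1
    have h2 : ‖v‖ ≤ 2 := by
      have := norm_sub_le (a (σ n)) x₀
      have := ha1 (σ n)
      linarith
    have h3 : ‖g2 v • d‖ ≤ ‖g1 v • m + g2 v • d‖ + ‖g1 v • m‖ := by
      have : g2 v • d = (g1 v • m + g2 v • d) - g1 v • m := by abel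
      calc ‖g2 v • d‖ = ‖(g1 v • m + g2 v • d) - g1 v • m‖ := by rw [← this]
        _ ≤ _ := norm_sub_le _ _
    rw [norm_smul, norm_smul] at h3
    have h4 := hg1v (σ n)
    have h5 : ‖g1 v‖ * ‖m‖ ≤ ‖g1 v‖ := by nlinarith [norm_nonneg (g1 v)]
    have h6 : ε₁ * ‖v‖ ≤ 2 * ε₁ := by nlinarith
    linarith
  have hlimL : Tendsto (fun n => ‖g2 (a (σ n) - x₀)‖ * ‖d‖) atTop (𝓝 (c * ‖d‖)) := by
    refine Tendsto.mul_const _ ?_
    have h1 : Tendsto (fun n => g2 (a n)) atTop (𝓝 (g2 x₀ + ((c : ℝ) : 𝕜))) := by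
      rw [tendsto_iff_norm_sub_tendsto_zero]
      exact squeeze_zero (fun n => norm_nonneg _) ha3 hlim0
    have h2 : Tendsto (fun n => ‖g2 (a (σ n)) - g2 x₀‖) atTop
        (𝓝 ‖(g2 x₀ + ((c : ℝ) : 𝕜)) - g2 x₀‖) :=
      ((h1.comp hσ.tendsto_atTop).sub tendsto_const_nhds).norm
    rw [add_sub_cancel_left, RCLike.norm_ofReal, abs_of_nonneg (by linarith)] at h2
    refine h2.congr (fun n => ?_)
    rw [map_sub]
  have hlimR : Tendsto (fun n => ‖S (a (σ n) - x₀)‖ + 2 * ε₁ +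
      √((1 + (1 + 1 / (((σ n : ℕ) : ℝ) + 1)) ^ 2) / 2 - (1 - 2 * ε₁) ^ 2)) atTop
      (𝓝 (0 + 2 * ε₁ + √((1 + (1 + 0) ^ 2) / 2 - (1 - 2 * ε₁) ^ 2))) := by
    have h1 : Tendsto (fun n => 1 / (((σ n : ℕ) : ℝ) + 1)) atTop (𝓝 0) :=
      hlim0.comp hσ.tendsto_atTop
    exact (hlimv.add tendsto_const_nhds).add
      ((((((h1.const_add 1).pow 2).const_add 1).div_const 2).sub tendsto_const_nhds).sqrt)
  have hfin := le_of_tendsto_of_tendsto' hlimL hlimR hmain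
  have hs : √((1 + (1 + 0) ^ 2) / 2 - (1 - 2 * ε₁) ^ 2) ≤ 2 * √ε₁ := by
    have h1 : (1 + (1 + 0) ^ 2) / 2 - (1 - 2 * ε₁) ^ 2 ≤ (2 * √ε₁) ^ 2 := by
      rw [mul_pow, Real.sq_sqrt hε₁.le]
      nlinarith [sq_nonneg ε₁]
    exact (Real.sqrt_le_sqrt h1).trans (by rw [Real.sqrt_sq (by positivity)])
  have he : ε₁ ≤ √ε₁ := by
    refine Real.le_sqrt_of_sq_le ?_
    nlinarith
  have hcd : 1 / 2 * ‖d‖ ≤ c * ‖d‖ := mul_le_mul_of_nonneg_right hc2 (norm_nonneg _)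
  linarith

end Q100.RSE
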