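import Mathlib

set_option autoImplicit false
open Filter Topology

namespace Q100.RSE

universe u v

section
variable {𝕜 : Type} [RCLike 𝕜] {X : Type u} [NormedAddCommGroup X] [NormedSpace 𝕜 X]
  {Y : Type v} [NormedAddCommGroup Y] [NormedSpace 𝕜 Y]

/-- `T` is range strongly exposing: there is a unit vector `x₀` such that every sequence `x` in the
closed unit ball with `‖T (x n)‖ → ‖T‖` has a subsequence `x ∘ σ` and a scalar `c` of modulus one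
with `T (x (σ n)) → c • T x₀`. -/
def IsRSE (T : X →L[𝕜] Y) : Prop :=
  ∃ x₀ : X, ‖x₀‖ = 1 ∧ ∀ x : ℕ → X, (∀ n, ‖x n‖ ≤ 1) →
    Tendsto (fun n => ‖T (x n)‖) atTop (𝓝 ‖T‖) →
    ∃ (σ : ℕ → ℕ) (c : 𝕜), StrictMono σ ∧ ‖c‖ = 1 ∧
      Tendsto (fun n => T (x (σ n))) atTop (𝓝 (c • T x₀))
end

/-- The space of compact operators from `X` to `Y` has the Bishop-Phelps-Bollobas property for
range strongly exposing operators (BPBp-RSE). -/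
def CompactBPBpRSE (𝕜 : Type) [RCLike 𝕜] (X : Type u) [NormedAddCommGroup X] [NormedSpace 𝕜 X]
    (Y : Type v) [NormedAddCommGroup Y] [NormedSpace 𝕜 Y] : Prop :=
  ∀ ε : ℝ, 0 < ε → ∃ η : ℝ, 0 < η ∧ η < ε ∧
    ∀ T : X →L[𝕜] Y, IsCompactOperator T → ‖T‖ = 1 → ∀ x : X, ‖x‖ = 1 → 1 - η < ‖T x‖ →
      ∃ (S : X →L[𝕜] Y) (x₀ : X), IsCompactOperator S ∧ IsRSE S ∧ ‖S‖ = 1 ∧ ‖x₀‖ = 1 ∧
        ‖S x₀‖ = 1 ∧ ‖S - T‖ < ε ∧ ‖x - x₀‖ < ε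

/-- Uniform convexity of a real Banach space, as in the problem file. -/
def RealUniformlyConvex (Y : Type v) [NormedAddCommGroup Y] [NormedSpace ℝ Y] : Prop :=
  ∀ ε : ℝ, 0 < ε → ∃ δ : ℝ, 0 < δ ∧ δ < 1 ∧ ∀ y₁ y₂ : Y, ‖y₁‖ = 1 → ‖y₂‖ = 1 →
    1 - δ < ‖y₁ + y₂‖ / 2 → ‖y₁ - y₂‖ < ε

/-- Complex uniform convexity (`ℂ`-uniform convexity) of a complex Banach space, as in the
problem file. -/
def ComplexUniformlyConvex (Y : Type v) [NormedAddCommGroup Y] [NormedSpace ℂ Y] : Prop :=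
  ∀ ε : ℝ, 0 < ε → ∃ δ : ℝ, 0 < δ ∧ ∀ y₀ y₁ : Y,
    (∀ w : ℂ, ‖w‖ = 1 → ‖y₀ + w • y₁‖ ≤ 1) → ε < ‖y₁‖ → ‖y₀‖ < 1 - δ

end Q100.RSE
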