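import Mathlib

/-!
# Equivalent renormings of a Banach space
-/

set_option autoImplicit false
open Filter Topology

noncomputable section

namespace Q100.Renorm

universe u

/-- An equivalent norm on a normed space. -/
structure EquivNorm (W : Type u) [NormedAddCommGroup W] [NormedSpace ℝ W] where
  p : Seminorm ℝ W
  c : ℝ
  C : ℝ
  hc : 0 < c
  lower : ∀ x, c * ‖x‖ ≤ p x
  upper : ∀ x, p x ≤ C * ‖x‖

variable {W : Type u} [NormedAddCommGroup W] [NormedSpace ℝ W]

/-- The space `W` with an equivalent norm. -/
def Space (_ : EquivNorm W) : Type u := W

instance (N : EquivNorm W) : AddCommGroup (Space N) := inferInstanceAs (AddCommGroup W)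

instance (N : EquivNorm W) : Module ℝ (Space N) := inferInstanceAs (Module ℝ W)

/-- The identity map from the renormed space to the original one. -/
def toW (N : EquivNorm W) : Space N ≃ₗ[ℝ] W where
  toFun x := x
  invFun x := x
  map_add' _ _ := rfl
  map_smul' _ _ := rfl
  left_inv _ := rfl
  right_inv _ := rfl

instance (N : EquivNorm W) : NormedAddCommGroup (Space N) :=
  AddGroupNorm.toNormedAddCommGroup
    { toFun := fun x => N.p (toW N x)
      map_zero' := by rw [map_zero, map_zero]
      add_le' := fun x y => by rw [map_add]; exact map_add_le_add _ _ _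
      neg' := fun x => by rw [map_neg, map_neg_eq_map]
      eq_zero_of_map_eq_zero' := fun x hx => by
        have h1 := N.lower (toW N x)
        have h2 : N.p (toW N x) = 0 := hx
        rw [h2] at h1
        have h3 : ‖toW N x‖ ≤ 0 := by
          by_contra h4
          push Not at h4
          have := mul_pos N.hc h4
          linarith
        have h4 : toW N x = 0 := norm_le_zero_iff.1 h3
        exact (toW N).map_eq_zero_iff.1 h4 }

theorem norm_def (N : EquivNorm W) (x : Space N) : ‖x‖ = N.p (toW N x) := rfl

instance (N : EquivNorm W) : NormedSpace ℝ (Space N) where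
  norm_smul_le r x := by
    rw [norm_def, norm_def, map_smul, map_smul_eq_mul]

/-- The identity map as a continuous linear map. -/
def toWL (N : EquivNorm W) : Space N →L[ℝ] W :=
  (toW N).toLinearMap.mkContinuous (1 / N.c) (fun x => by
    rw [norm_def, one_div, ← div_eq_inv_mul, le_div_iff₀ N.hc, mul_comm]
    exact N.lower _)

/-- The inverse of the identity map as a continuous linear map. -/
def ofWL (N : EquivNorm W) : W →L[ℝ] Space N :=
  (toW N).symm.toLinearMap.mkContinuous N.C (fun x => N.upper x)

/-- The identity map as a continuous linear equivalence. -/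
def equivW (N : EquivNorm W) : Space N ≃L[ℝ] W :=
  { toW N with
    continuous_toFun := (toWL N).continuous
    continuous_invFun := (ofWL N).continuous }

instance (N : EquivNorm W) [CompleteSpace W] : CompleteSpace (Space N) :=
  (completeSpace_congr (e := (equivW N).toEquiv) (equivW N).isUniformEmbedding).2 inferInstance

end Q100.Renorm
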