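import Pool.Agent.Q100.RigDefs

/-!
# A quasi-rigid operator whose `Ω(T)` is not covered by an orbit
-/

set_option autoImplicit false
open Filter Topology
open scoped ENNReal

noncomputable section

namespace Q100.Rig

universe u

/-- The index set: the disjoint union of the cyclic groups of order `2^j`. -/
abbrev J : Type := Σ j : ℕ, ZMod (2 ^ j)

/-- The shift by `k` on the index set. -/
def shE (k : ℤ) : J ≃ J where
  toFun p := ⟨p.1, p.2 + (k : ZMod (2 ^ p.1))⟩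
  invFun p := ⟨p.1, p.2 - (k : ZMod (2 ^ p.1))⟩
  left_inv p := by simp
  right_inv p := by simp

theorem shE_apply (k : ℤ) (p : J) : shE k p = ⟨p.1, p.2 + (k : ZMod (2 ^ p.1))⟩ := rfl

theorem shE_fst (k : ℤ) (p : J) : (shE k p).1 = p.1 := rfl

theorem shE_shE (k l : ℤ) (p : J) : shE k (shE l p) = shE (k + l) p := by
  rw [shE_apply, shE_apply, shE_apply]
  simp only [Sigma.mk.injEq, heq_eq_eq, true_and]
  push_cast
  ring

theorem shE_zero (p : J) : shE 0 p = p := by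
  rw [shE_apply]
  simp

theorem shE_eq_of_dvd {k l : ℤ} {p : J} (h : (2 : ℤ) ^ p.1 ∣ k - l) : shE k p = shE l p := by
  rw [shE_apply, shE_apply]
  have h1 : (k : ZMod (2 ^ p.1)) = (l : ZMod (2 ^ p.1)) := by
    rw [← sub_eq_zero, ← Int.cast_sub, ZMod.intCast_zmod_eq_zero_iff_dvd]
    exact_mod_cast h
  rw [h1]

theorem dvd_of_shE_eq {k l : ℤ} {p : J} (h : shE k p = shE l p) : (2 : ℤ) ^ p.1 ∣ k - l := by
  rw [shE_apply, shE_apply] at h
  have h1 := eq_of_heq (Sigma.mk.inj h).2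
  have h2 : (k : ZMod (2 ^ p.1)) = (l : ZMod (2 ^ p.1)) := add_left_cancel h1
  rw [← sub_eq_zero, ← Int.cast_sub, ZMod.intCast_zmod_eq_zero_iff_dvd] at h2
  exact_mod_cast h2

/-- The weights `1 + min (a, 2^j - a)`. -/
def w (p : J) : ℝ := 1 + (p.2.valMinAbs.natAbs : ℝ)

theorem w_pos (p : J) : 0 < w p := by unfold w; positivity

theorem one_le_w (p : J) : 1 ≤ w p := by
  unfold w
  have : (0 : ℝ) ≤ (p.2.valMinAbs.natAbs : ℝ) := by positivity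
  linarith

theorem natAbs_cast_le (n : ℕ) [NeZero n] (k : ℤ) : ((k : ZMod n).valMinAbs).natAbs ≤ k.natAbs :=
  ZMod.natAbs_min_of_le_div_two n _ _ (by rw [ZMod.coe_valMinAbs])
    (ZMod.natAbs_valMinAbs_le _)

theorem w_le (k : ℤ) (p : J) : w (shE k p) ≤ (1 + |(k : ℝ)|) * w p := by
  have h1 : ((shE k p).2.valMinAbs.natAbs : ℝ) ≤ (p.2.valMinAbs.natAbs : ℝ) + |(k : ℝ)| := by
    have h2 : (shE k p).2.valMinAbs.natAbs ≤ p.2.valMinAbs.natAbs + k.natAbs := by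
      refine (ZMod.natAbs_valMinAbs_add_le p.2 (k : ZMod (2 ^ p.1))).trans ?_
      refine (Int.natAbs_add_le _ _).trans ?_
      exact Nat.add_le_add_left (natAbs_cast_le _ k) _
    have h3 : ((k.natAbs : ℕ) : ℝ) = |(k : ℝ)| := by
      rw [Nat.cast_natAbs, Int.cast_abs]
    rw [← h3]
    exact_mod_cast h2
  unfold w
  have h4 : (0 : ℝ) ≤ (p.2.valMinAbs.natAbs : ℝ) := by positivity
  have h5 := abs_nonneg (k : ℝ)
  nlinarith

section Space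

variable (𝕜 : Type u) [RCLike 𝕜]

/-- The Banach space `ℓ₁(J)`. -/
abbrev X : Type u := lp (fun _ : J => 𝕜) 1

variable {𝕜}

theorem summ (x : X 𝕜) : Summable fun p => ‖(x : ∀ _ : J, 𝕜) p‖ := by
  have := (lp.memℓp x).summable (by simp)
  simpa using this

theorem norm_eq (x : X 𝕜) : ‖x‖ = ∑' p, ‖(x : ∀ _ : J, 𝕜) p‖ := by
  rw [lp.norm_eq_tsum_rpow (by simp)]
  simp

/-- Members from summable families. -/
def mkX (u : J → 𝕜) (h : Summable fun p => ‖u p‖) : X 𝕜 := ⟨u, memℓp_gen (by simpa using h)⟩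

theorem norm_apply_le (x : X 𝕜) (p : J) : ‖(x : ∀ _ : J, 𝕜) p‖ ≤ ‖x‖ := by
  rw [norm_eq]
  exact (summ x).le_tsum p (fun _ _ => norm_nonneg _)

theorem U_bound (k : ℤ) (x : X 𝕜) (p : J) :
    ‖((w p / w (shE (-k) p) : ℝ) : 𝕜) * (x : ∀ _ : J, 𝕜) (shE (-k) p)‖ ≤
      (1 + |(k : ℝ)|) * ‖(x : ∀ _ : J, 𝕜) (shE (-k) p)‖ := by
  rw [norm_mul, RCLike.norm_ofReal, abs_of_pos (div_pos (w_pos _) (w_pos _))]
  refine mul_le_mul_of_nonneg_right ?_ (norm_nonneg _)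
  rw [div_le_iff₀ (w_pos _)]
  have h := w_le k (shE (-k) p)
  rw [shE_shE, add_neg_cancel, shE_zero] at h
  exact h

theorem summ_sh (k : ℤ) (x : X 𝕜) : Summable fun p => ‖(x : ∀ _ : J, 𝕜) (shE k p)‖ :=
  (Equiv.summable_iff (shE k) (f := fun p => ‖(x : ∀ _ : J, 𝕜) p‖)).2 (summ x)

theorem U_summ (k : ℤ) (x : X 𝕜) : Summable fun p =>
    ‖((w p / w (shE (-k) p) : ℝ) : 𝕜) * (x : ∀ _ : J, 𝕜) (shE (-k) p)‖ :=
  Summable.of_nonneg_of_le (fun _ => norm_nonneg _) (U_bound k x) ((summ_sh (-k) x).mul_left _)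

/-- The weighted shifts. -/
def U (k : ℤ) : X 𝕜 →L[𝕜] X 𝕜 :=
  LinearMap.mkContinuous
    { toFun := fun x => mkX (fun p => ((w p / w (shE (-k) p) : ℝ) : 𝕜) *
        (x : ∀ _ : J, 𝕜) (shE (-k) p)) (U_summ k x)
      map_add' := fun x y => by
        apply lp.ext
        funext p
        exact mul_add _ _ _
      map_smul' := fun c x => by
        apply lp.ext
        funext p
        show ((w p / w (shE (-k) p) : ℝ) : 𝕜) * (c * (x : ∀ _ : J, 𝕜) (shE (-k) p)) =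
          c * (((w p / w (shE (-k) p) : ℝ) : 𝕜) * (x : ∀ _ : J, 𝕜) (shE (-k) p))
        ring } (1 + |(k : ℝ)|) (fun x => by
        rw [norm_eq, norm_eq]
        refine ((U_summ k x).tsum_le_tsum (U_bound k x) ((summ_sh (-k) x).mul_left _)).trans ?_
        rw [tsum_mul_left, Equiv.tsum_eq (shE (-k)) (fun p => ‖(x : ∀ _ : J, 𝕜) p‖)])

theorem U_apply (k : ℤ) (x : X 𝕜) (p : J) : (U k x : ∀ _ : J, 𝕜) p =
    ((w p / w (shE (-k) p) : ℝ) : 𝕜) * (x : ∀ _ : J, 𝕜) (shE (-k) p) := rfl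

theorem U_zero : (U 0 : X 𝕜 →L[𝕜] X 𝕜) = 1 := by
  ext x p
  rw [U_apply, neg_zero, shE_zero, div_self (w_pos p).ne']
  simp

theorem U_add (k l : ℤ) (x : X 𝕜) : U k (U l x) = U (k + l) x := by
  apply lp.ext
  funext p
  rw [U_apply, U_apply, U_apply, shE_shE, ← mul_assoc, ← RCLike.ofReal_mul]
  have h1 : -l + -k = -(k + l) := by ring
  rw [h1]
  congr 2
  have := (w_pos (shE (-k) p)).ne'
  have := (w_pos (shE (-(k + l)) p)).ne'
  field_simp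

/-- The operator. -/
def T (𝕜 : Type u) [RCLike 𝕜] : X 𝕜 →L[𝕜] X 𝕜 := U 1

theorem T_pow (n : ℕ) : (T 𝕜) ^ n = U (n : ℤ) := by
  induction n with
  | zero => rw [pow_zero, Nat.cast_zero, U_zero]
  | succ n ih =>
    rw [pow_succ, ih]
    ext1 x
    show U (n : ℤ) (U 1 x) = _
    rw [U_add]
    push_cast
    rfl

/-- Periodicity. -/
theorem U_periodic {k l : ℤ} {p : J} (h : (2 : ℤ) ^ p.1 ∣ k - l) (x : X 𝕜) :
    (U k x : ∀ _ : J, 𝕜) p = (U l x : ∀ _ : J, 𝕜) p := by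
  have h1 : shE (-k) p = shE (-l) p := shE_eq_of_dvd (by
    have : -k - -l = -(k - l) := by ring
    rw [this]
    exact h.neg_right)
  rw [U_apply, U_apply, h1]

/-- The vectors supported in finitely many blocks. -/
def D (𝕜 : Type u) [RCLike 𝕜] : Set (X 𝕜) := {x | ∃ m : ℕ, ∀ p : J, m ≤ p.1 →
  (x : ∀ _ : J, 𝕜) p = 0}

theorem dense_D : Dense (D 𝕜) := by
  classical
  intro x
  have h := lp.hasSum_single (p := 1) ENNReal.one_ne_top x
  refine mem_closure_of_tendsto h (Eventually.of_forall fun s => ?_)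
  refine ⟨s.sup (fun p => p.1) + 1, fun p hp => ?_⟩
  rw [lp.coeFn_sum, Finset.sum_apply]
  refine Finset.sum_eq_zero fun r hr => ?_
  rw [lp.single_apply, Pi.single_eq_of_ne]
  rintro rfl
  have := Finset.le_sup (f := fun p : J => p.1) hr
  omega

instance : TopologicalSpace.SeparableSpace (X 𝕜) := by
  classical
  rw [← TopologicalSpace.isSeparable_univ_iff]
  have h1 : TopologicalSpace.IsSeparable
      ((Submodule.span 𝕜 (Set.range fun p : J => (lp.single 1 p (1 : 𝕜) : X 𝕜)) :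
        Submodule 𝕜 (X 𝕜)) : Set (X 𝕜)) :=
    (Set.countable_range _).isSeparable.span
  refine h1.closure.mono (fun x _ => ?_)
  have h2 := lp.hasSum_single (p := 1) ENNReal.one_ne_top x
  refine mem_closure_of_tendsto h2 (Eventually.of_forall fun s => ?_)
  refine Submodule.sum_mem _ (fun p _ => ?_)
  have : (lp.single 1 p ((x : ∀ _ : J, 𝕜) p) : X 𝕜) =
      ((x : ∀ _ : J, 𝕜) p) • (lp.single 1 p (1 : 𝕜) : X 𝕜) := by
    rw [← lp.single_smul, smul_eq_mul, mul_one]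
  rw [this]
  exact Submodule.smul_mem _ _ (Submodule.subset_span ⟨p, rfl⟩)

/-- The convergence of the powers on `D`. -/
theorem eventually_eq (k : ℤ) (x : X 𝕜) (hx : x ∈ D 𝕜) :
    ∀ᶠ m : ℕ in atTop, U ((2 : ℤ) ^ m - k) x = U (-k) x := by
  obtain ⟨m0, hm0⟩ := hx
  filter_upwards [eventually_ge_atTop m0] with m hm
  apply lp.ext
  funext p
  by_cases hp : m0 ≤ p.1
  · rw [U_apply, U_apply, hm0 _ (by rw [shE_fst]; exact hp), hm0 _ (by rw [shE_fst]; exact hp),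
      mul_zero, mul_zero]
  · refine U_periodic ?_ x
    have : (2 : ℤ) ^ m - k - -k = 2 ^ m := by ring
    rw [this]
    exact pow_dvd_pow 2 (by omega)

/-- All the negative powers belong to `Ω(T)`. -/
theorem mem_Omega (k : ℕ) : (U (-(k : ℤ)) : X 𝕜 →L[𝕜] X 𝕜) ∈ OmegaSet (T 𝕜) := by
  refine ⟨fun n => 2 ^ (n + k + 1) - k, ?_, ?_, D 𝕜, dense_D, fun x hx => ?_⟩
  · refine strictMono_nat_of_lt_succ (fun n => ?_)
    have h1 : k < 2 ^ k := Nat.lt_two_pow_self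
    have h2 : 2 ^ k ≤ 2 ^ (n + k + 1) := Nat.pow_le_pow_right (by norm_num) (by omega)
    have h3 : 2 ^ (n + 1 + k + 1) = 2 * 2 ^ (n + k + 1) := by
      rw [show n + 1 + k + 1 = (n + k + 1) + 1 by omega, pow_succ]; ring
    rw [h3]
    omega
  · intro n
    have h1 : k < 2 ^ k := Nat.lt_two_pow_self
    have h2 : 2 ^ k ≤ 2 ^ (n + k + 1) := Nat.pow_le_pow_right (by norm_num) (by omega)
    show 1 ≤ 2 ^ (n + k + 1) - k
    exact Nat.sub_pos_of_lt (lt_of_lt_of_le h1 h2)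
  · refine tendsto_const_nhds.congr' ?_
    have h3 : Tendsto (fun n : ℕ => n + k + 1) atTop atTop :=
      tendsto_atTop_mono (fun n => (by omega : n ≤ n + k + 1)) tendsto_id
    filter_upwards [h3.eventually (eventually_eq (k : ℤ) x hx)] with n hn
    rw [T_pow, ← hn]
    congr 2
    have h1 : k < 2 ^ k := Nat.lt_two_pow_self
    have h2 : 2 ^ k ≤ 2 ^ (n + k + 1) := Nat.pow_le_pow_right (by norm_num) (by omega)
    rw [Nat.cast_sub (by omega)]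
    push_cast
    rfl

theorem quasiRigid : QuasiRigid (T 𝕜) := by
  obtain ⟨ω, h1, h2, D', h3, h4⟩ := mem_Omega (𝕜 := 𝕜) 0
  refine ⟨ω, h1, h2, D', h3, fun x hx => ?_⟩
  have := h4 x hx
  rw [Nat.cast_zero, neg_zero, U_zero] at this
  exact this

/-- The vector that is far from its orbit. -/
def x0 (𝕜 : Type u) [RCLike 𝕜] : X 𝕜 :=
  mkX (fun p => if p.2 = 0 then (((1 / 2 : ℝ) ^ p.1 : ℝ) : 𝕜) else 0) (by
    have hinj : Function.Injective (fun j : ℕ => (⟨j, 0⟩ : J)) := fun a b h =>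
      congrArg Sigma.fst h
    rw [← hinj.summable_iff]
    · refine (summable_geometric_of_lt_one (by norm_num) (by norm_num :
        (1 / 2 : ℝ) < 1)).congr (fun j => ?_)
      rw [Function.comp_apply, if_pos rfl, RCLike.norm_ofReal, abs_of_pos (by positivity)]
    · intro p hp
      rw [if_neg, norm_zero]
      intro h
      apply hp
      exact ⟨p.1, Sigma.ext rfl (heq_of_eq h.symm)⟩)

theorem x0_apply (p : J) : (x0 𝕜 : ∀ _ : J, 𝕜) p =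
    if p.2 = 0 then (((1 / 2 : ℝ) ^ p.1 : ℝ) : 𝕜) else 0 := rfl

theorem far (n : ℕ) (hn : 1 ≤ n) : 1 / 2 ≤ ‖U (n : ℤ) (x0 𝕜) - x0 𝕜‖ := by
  -- the `2`-adic valuation
  obtain ⟨v, m, hm, hnv⟩ : ∃ v m : ℕ, ¬ 2 ∣ m ∧ n = 2 ^ v * m :=
    Nat.exists_eq_pow_mul_and_not_dvd (by omega) 2 (by norm_num)
  set j := v + 1 with hj
  have hnd : ¬ (2 : ℤ) ^ j ∣ (n : ℤ) := by
    intro h
    have h1 : 2 ^ j ∣ n := by exact_mod_cast h
    rw [hnv, hj, pow_succ] at h1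
    exact hm (Nat.dvd_of_mul_dvd_mul_left (by positivity) h1)
  set p : J := ⟨j, ((n : ℤ) : ZMod (2 ^ j))⟩ with hp
  have hp0 : p.2 ≠ 0 := by
    intro h
    apply hnd
    have h1 : ((n : ℤ) : ZMod (2 ^ j)) = 0 := h
    rw [ZMod.intCast_zmod_eq_zero_iff_dvd] at h1
    exact_mod_cast h1
  have hsh : shE (-(n : ℤ)) p = ⟨j, 0⟩ := by
    rw [shE_apply, hp]
    simp
  have hw : (2 : ℝ) ^ v ≤ w p := by
    have h1 : 2 ^ v ≤ p.2.valMinAbs.natAbs := by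
      have h2 : (2 : ℤ) ^ v ∣ p.2.valMinAbs := by
        have h3 : (2 : ℤ) ^ j ∣ p.2.valMinAbs - n := by
          have h4 : ((p.2.valMinAbs - n : ℤ) : ZMod (2 ^ j)) = 0 := by
            rw [Int.cast_sub, ZMod.coe_valMinAbs, sub_eq_zero]
          rw [ZMod.intCast_zmod_eq_zero_iff_dvd] at h4
          exact_mod_cast h4
        have h5 : (2 : ℤ) ^ v ∣ p.2.valMinAbs - n := (pow_dvd_pow 2 (by omega)).trans h3
        have h6 : (2 : ℤ) ^ v ∣ (n : ℤ) := by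
          rw [hnv]
          push_cast
          exact dvd_mul_right _ _
        have := dvd_add h5 h6
        rwa [sub_add_cancel] at this
      have h7 : p.2.valMinAbs ≠ 0 := by
        intro h8
        exact hp0 ((ZMod.valMinAbs_eq_zero _).1 h8)
      have h9 := Int.natAbs_le_of_dvd_ne_zero h2 h7
      simpa [Int.natAbs_pow] using h9
    unfold w
    have h2 : ((2 : ℝ) ^ v) ≤ (p.2.valMinAbs.natAbs : ℝ) := by exact_mod_cast h1
    linarith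
  refine le_trans ?_ (norm_apply_le _ p)
  rw [lp.coeFn_sub, Pi.sub_apply, U_apply, hsh, x0_apply, x0_apply, if_pos rfl, if_neg hp0,
    sub_zero, norm_mul, RCLike.norm_ofReal, RCLike.norm_ofReal,
    abs_of_pos (div_pos (w_pos _) (w_pos _)), abs_of_pos (by positivity)]
  have hw0 : w (⟨j, 0⟩ : J) = 1 := by
    unfold w
    simp
  rw [hw0, div_one]
  have h3 : (1 / 2 : ℝ) = 2 ^ v * (1 / 2) ^ j := by
    rw [hj, pow_succ, ← mul_assoc, ← mul_pow]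
    norm_num
  show 1 / 2 ≤ w p * (1 / 2 : ℝ) ^ j
  calc (1 / 2 : ℝ) = 2 ^ v * (1 / 2) ^ j := h3
    _ ≤ w p * (1 / 2) ^ j := mul_le_mul_of_nonneg_right hw (by positivity)

/-- Unit vectors. -/
def e (p : J) : X 𝕜 := lp.single 1 p (1 : 𝕜)

theorem e_self (p : J) : ((e p : X 𝕜) : ∀ _ : J, 𝕜) p = 1 := by
  unfold e
  rw [lp.single_apply, Pi.single_eq_same]

theorem e_ne {p r : J} (h : r ≠ p) : ((e p : X 𝕜) : ∀ _ : J, 𝕜) r = 0 := by
  unfold e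
  rw [lp.single_apply, Pi.single_eq_of_ne h]

theorem norm_e (p : J) : ‖(e p : X 𝕜)‖ = 1 := by
  unfold e
  rw [lp.norm_single (by norm_num)]
  simp

theorem U_e_apply (k : ℤ) (p : J) : ‖(U k (e p : X 𝕜) : ∀ _ : J, 𝕜) (shE k p)‖ =
    w (shE k p) / w p := by
  rw [U_apply, shE_shE, neg_add_cancel, shE_zero, e_self, mul_one, RCLike.norm_ofReal,
    abs_of_pos (div_pos (w_pos _) (w_pos _))]

/-- If the identity is in the closure of the orbit of `Λ`, then `Λ` is a power of `T`. -/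
theorem eq_U (Lam : X 𝕜 →L[𝕜] X 𝕜) (h : (1 : X 𝕜 →L[𝕜] X 𝕜) ∈ sotClosure (leftOrbit (T 𝕜) Lam)) :
    ∃ s : ℤ, Lam = U s := by
  classical
  -- the finite blocks
  have hr : ∀ j : ℕ, ∃ r : ℕ, ∀ (x : X 𝕜) (p : J), p.1 ≤ j →
      (U (r : ℤ) (Lam x) : ∀ _ : J, 𝕜) p = (x : ∀ _ : J, 𝕜) p := by
    intro j
    by_contra hcon
    push Not at hcon
    choose x p hp hne using hcon
    have hpos : ∀ r : ℕ, 0 < ‖(U (r : ℤ) (Lam (x r)) : ∀ _ : J, 𝕜) (p r) -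
        (x r : ∀ _ : J, 𝕜) (p r)‖ := fun r => norm_pos_iff.2 (sub_ne_zero.2 (hne r))
    have hne' : (Finset.range (2 ^ j)).Nonempty := ⟨0, by simp⟩
    obtain ⟨r0, -, hr0⟩ := (Finset.range (2 ^ j)).exists_min_image
      (fun r => ‖(U (r : ℤ) (Lam (x r)) : ∀ _ : J, 𝕜) (p r) - (x r : ∀ _ : J, 𝕜) (p r)‖) hne'
    obtain ⟨S, ⟨n, -, rfl⟩, hS⟩ := h ((Finset.range (2 ^ j)).image x) _ (hpos r0)
    have hmod : n % 2 ^ j ∈ Finset.range (2 ^ j) := Finset.mem_range.2 (Nat.mod_lt _ (by positivity))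
    have h1 := hS (x (n % 2 ^ j)) (Finset.mem_image_of_mem _ hmod)
    have h2 := hr0 _ hmod
    have h3 : ‖(U (n : ℤ) (Lam (x (n % 2 ^ j))) : ∀ _ : J, 𝕜) (p (n % 2 ^ j)) -
        (x (n % 2 ^ j) : ∀ _ : J, 𝕜) (p (n % 2 ^ j))‖ ≤
        ‖((T 𝕜) ^ n).comp Lam (x (n % 2 ^ j)) - (1 : X 𝕜 →L[𝕜] X 𝕜) (x (n % 2 ^ j))‖ := by
      rw [T_pow]
      exact norm_apply_le (U (n : ℤ) (Lam (x (n % 2 ^ j))) - x (n % 2 ^ j)) (p (n % 2 ^ j))
    have h4 : (U (n : ℤ) (Lam (x (n % 2 ^ j))) : ∀ _ : J, 𝕜) (p (n % 2 ^ j)) =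
        (U ((n % 2 ^ j : ℕ) : ℤ) (Lam (x (n % 2 ^ j))) : ∀ _ : J, 𝕜) (p (n % 2 ^ j)) := by
      refine U_periodic ?_ _
      have h5 : ((2 ^ j : ℕ) : ℤ) ∣ (n : ℤ) - ((n % 2 ^ j : ℕ) : ℤ) := by
        rw [Int.natCast_mod]
        exact Int.dvd_self_sub_emod
      have h6 : (2 : ℤ) ^ (p (n % 2 ^ j)).1 ∣ 2 ^ j := pow_dvd_pow 2 (hp _)
      push_cast at h5
      push_cast
      exact h6.trans h5
    rw [h4] at h3
    linarith
  choose r hr using hr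
  -- the structure of `Λ`
  have hLam : ∀ (j : ℕ) (x : X 𝕜) (p : J), p.1 ≤ j →
      (Lam x : ∀ _ : J, 𝕜) p = (U (-(r j : ℤ)) x : ∀ _ : J, 𝕜) p := by
    intro j x p hp
    have h1 : Lam x = U (-(r j : ℤ)) (U (r j : ℤ) (Lam x)) := by
      rw [U_add, neg_add_cancel, U_zero]
      rfl
    rw [h1, U_apply, hr j x _ (by rw [shE_fst]; exact hp), U_apply]
  set s : ℕ → ℤ := fun j => ((-(r j : ℤ) : ℤ) : ZMod (2 ^ j)).valMinAbs with hs
  have hsr : ∀ j, (2 : ℤ) ^ j ∣ s j - -(r j : ℤ) := by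
    intro j
    have h4 : ((s j - -(r j : ℤ) : ℤ) : ZMod (2 ^ j)) = 0 := by
      rw [Int.cast_sub, hs]
      simp only
      rw [ZMod.coe_valMinAbs, sub_self]
    rw [ZMod.intCast_zmod_eq_zero_iff_dvd] at h4
    exact_mod_cast h4
  have hLam2 : ∀ (j : ℕ) (x : X 𝕜) (p : J), p.1 ≤ j →
      (Lam x : ∀ _ : J, 𝕜) p = (U (s j) x : ∀ _ : J, 𝕜) p := by
    intro j x p hp
    rw [hLam j x p hp]
    refine (U_periodic ?_ x).symm
    exact (pow_dvd_pow 2 hp).trans (hsr j)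
  obtain ⟨K, hK⟩ := exists_nat_ge ‖Lam‖
  have hsK : ∀ j, (s j).natAbs ≤ K := by
    intro j
    have h1 : ‖(Lam (e ⟨j, 0⟩) : ∀ _ : J, 𝕜) (shE (s j) ⟨j, 0⟩)‖ = w (shE (s j) ⟨j, 0⟩) := by
      rw [hLam2 j _ _ le_rfl, U_e_apply]
      have : w (⟨j, 0⟩ : J) = 1 := by unfold w; simp
      rw [this, div_one]
    have h2 : w (shE (s j) ⟨j, 0⟩) = 1 + ((s j).natAbs : ℝ) := by
      unfold w
      have h3 : (shE (s j) ⟨j, 0⟩).2.valMinAbs = s j := by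
        show ((0 : ZMod (2 ^ j)) + ((s j : ℤ) : ZMod (2 ^ j))).valMinAbs = s j
        rw [zero_add]
        have : ((s j : ℤ) : ZMod (2 ^ j)) = ((-(r j : ℤ) : ℤ) : ZMod (2 ^ j)) := by
          rw [hs]
          simp only
          rw [ZMod.coe_valMinAbs]
        rw [this]
      rw [h3]
    have h3 : ‖(Lam (e ⟨j, 0⟩) : ∀ _ : J, 𝕜) (shE (s j) ⟨j, 0⟩)‖ ≤ ‖Lam‖ := by
      refine (norm_apply_le _ _).trans ((Lam.le_opNorm _).trans ?_)
      rw [norm_e, mul_one]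
    rw [h1, h2] at h3
    have h4 : ((s j).natAbs : ℝ) ≤ K := by linarith
    exact_mod_cast h4
  -- a large block
  set j0 := 2 * K + 1 with hj0
  have hpow : 2 * K < 2 ^ j0 := by
    have : j0 < 2 ^ j0 := Nat.lt_two_pow_self
    omega
  have hconst : ∀ j, j0 ≤ j → s j = s j0 := by
    intro j hj
    have h1 : (U (s j) (e ⟨j0, 0⟩ : X 𝕜) : ∀ _ : J, 𝕜) (shE (s j0) ⟨j0, 0⟩) =
        (U (s j0) (e ⟨j0, 0⟩ : X 𝕜) : ∀ _ : J, 𝕜) (shE (s j0) ⟨j0, 0⟩) := by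
      rw [← hLam2 j _ _ (by rw [shE_fst]; exact hj), ← hLam2 j0 _ _ (by rw [shE_fst])]
    have h2 : (U (s j0) (e ⟨j0, 0⟩ : X 𝕜) : ∀ _ : J, 𝕜) (shE (s j0) ⟨j0, 0⟩) ≠ 0 := by
      rw [← norm_pos_iff, U_e_apply]
      exact div_pos (w_pos _) (w_pos _)
    have h3 : shE (-(s j)) (shE (s j0) ⟨j0, 0⟩) = (⟨j0, 0⟩ : J) := by
      by_contra hne
      apply h2
      rw [← h1, U_apply, e_ne hne, mul_zero]
    rw [shE_shE] at h3
    have h4 : (2 : ℤ) ^ j0 ∣ (-(s j) + s j0) - 0 := by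
      refine dvd_of_shE_eq (p := (⟨j0, 0⟩ : J)) ?_
      rw [h3, shE_zero]
    rw [sub_zero] at h4
    by_contra hne
    have h5 : -(s j) + s j0 ≠ 0 := fun h6 => hne (by linarith)
    have h7 := Int.natAbs_le_of_dvd_ne_zero h4 h5
    have h8 := hsK j
    have h9 := hsK j0
    have h10 : ((2 : ℤ) ^ j0).natAbs = 2 ^ j0 := by
      rw [Int.natAbs_pow]; rfl
    rw [h10] at h7
    omega
  refine ⟨s j0, ?_⟩
  ext x p
  rw [hLam2 (max j0 p.1) x p (le_max_right _ _), hconst _ (le_max_left _ _)]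

/-- Main result. -/
theorem main (Lam : X 𝕜 →L[𝕜] X 𝕜) :
    ∃ h ∈ OmegaSet (T 𝕜), h ∉ sotClosure (leftOrbit (T 𝕜) Lam) := by
  classical
  by_contra hcon
  push Not at hcon
  have h1 : (1 : X 𝕜 →L[𝕜] X 𝕜) ∈ OmegaSet (T 𝕜) := by
    have := mem_Omega (𝕜 := 𝕜) 0
    rwa [Nat.cast_zero, neg_zero, U_zero] at this
  obtain ⟨s, rfl⟩ := eq_U Lam (hcon _ h1)
  set k := s.natAbs with hk
  have h2 := hcon _ (mem_Omega (𝕜 := 𝕜) k)
  obtain ⟨S, ⟨n, hn, rfl⟩, hS⟩ := h2 {x0 𝕜} (1 / 2 / (1 + (k : ℝ)) / 2) (by positivity)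
  have h3 := hS (x0 𝕜) (Finset.mem_singleton_self _)
  have h4 : ((T 𝕜) ^ n).comp (U s) (x0 𝕜) = U (n + s) (x0 𝕜) := by
    rw [T_pow]
    exact U_add _ _ _
  rw [h4] at h3
  -- apply `U k`
  obtain ⟨n', hn', hn1⟩ : ∃ n' : ℕ, (n' : ℤ) = k + (n + s) ∧ 1 ≤ n' := by
    refine ⟨(k + (n + s)).toNat, ?_, ?_⟩
    · rw [Int.toNat_of_nonneg]
      omega
    · omega
  have h5 : U (k : ℤ) (U (n + s) (x0 𝕜) - U (-(k : ℤ)) (x0 𝕜)) = U (n' : ℤ) (x0 𝕜) - x0 𝕜 := by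
    rw [map_sub, U_add, U_add, add_neg_cancel, U_zero, hn']
    rfl
  have h6 := far (𝕜 := 𝕜) n' hn1
  rw [← h5] at h6
  have h7 : ‖U (k : ℤ) (U (n + s) (x0 𝕜) - U (-(k : ℤ)) (x0 𝕜))‖ ≤
      (1 + |((k : ℤ) : ℝ)|) * ‖U (n + s) (x0 𝕜) - U (-(k : ℤ)) (x0 𝕜)‖ :=
    (ContinuousLinearMap.le_opNorm _ _).trans (mul_le_mul_of_nonneg_right
      (LinearMap.mkContinuous_norm_le _ (by positivity) _) (norm_nonneg _))
  have h8 : |((k : ℤ) : ℝ)| = (k : ℝ) := by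
    rw [Int.cast_natCast, abs_of_nonneg (by positivity)]
  rw [h8] at h7
  have hk0 : (0 : ℝ) < 1 + (k : ℝ) := by positivity
  have h9 : (1 + (k : ℝ)) * ‖U (n + s) (x0 𝕜) - U (-(k : ℤ)) (x0 𝕜)‖ <
      (1 + (k : ℝ)) * (1 / 2 / (1 + (k : ℝ)) / 2) := mul_lt_mul_of_pos_left h3 hk0
  have h10 : (1 + (k : ℝ)) * (1 / 2 / (1 + (k : ℝ)) / 2) = 1 / 4 := by field_simp; norm_num
  linarith

end Space

end Q100.Rig
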