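import Mathlib

/-!
# Quasi-rigid operators and the set `Ω(T)`: definitions
-/

set_option autoImplicit false
open Filter Topology

noncomputable section

namespace Q100.Rig

universe u

variable {𝕜 X : Type u} [RCLike 𝕜] [NormedAddCommGroup X] [NormedSpace 𝕜 X]

/-- `T` is quasi-rigid: for some strictly increasing sequence `θ` of positive integers,
`T^{θ_n} x → x` for all `x` in a dense set. -/
def QuasiRigid (T : X →L[𝕜] X) : Prop :=
  ∃ θ : ℕ → ℕ, StrictMono θ ∧ (∀ n, 1 ≤ θ n) ∧ ∃ D : Set X, Dense D ∧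
    ∀ x ∈ D, Tendsto (fun n => (T ^ θ n) x) atTop (𝓝 x)

/-- The set `Ω(T)` of all `h ∈ L(X)` such that, for some strictly increasing sequence `ω` of
positive integers, `T^{ω_n} x → h x` for all `x` in a dense set. -/
def OmegaSet (T : X →L[𝕜] X) : Set (X →L[𝕜] X) :=
  {h | ∃ ω : ℕ → ℕ, StrictMono ω ∧ (∀ n, 1 ≤ ω n) ∧ ∃ D : Set X, Dense D ∧
    ∀ x ∈ D, Tendsto (fun n => (T ^ ω n) x) atTop (𝓝 (h x))}

/-- The closure in the strong operator topology. -/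
def sotClosure (A : Set (X →L[𝕜] X)) : Set (X →L[𝕜] X) :=
  {h | ∀ (F : Finset X) (ε : ℝ), 0 < ε → ∃ S ∈ A, ∀ x ∈ F, ‖S x - h x‖ < ε}

/-- The orbit `{Tⁿ Λ : n ≥ 1}` of `Λ` under the left multiplication by `T`. -/
def leftOrbit (T Lam : X →L[𝕜] X) : Set (X →L[𝕜] X) :=
  {S | ∃ n : ℕ, 1 ≤ n ∧ S = (T ^ n).comp Lam}

end Q100.Rig
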