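import Mathlib

/-!
# Combinatorics of the binary tree: chains and antichains
-/

set_option autoImplicit false
open Filter Topology

namespace Q100.ST

/-- Nodes of the infinite binary tree: finite 0-1 sequences, ordered by `<+:` (initial segment). -/
abbrev Nd : Type := List Bool

/-- Finite antichains. -/
def AC (A : Finset Nd) : Prop := IsAntichain (fun s t : Nd => s <+: t) (A : Set Nd)

/-- Finite chains. -/
def CH (C : Finset Nd) : Prop := IsChain (fun s t : Nd => s <+: t) (C : Set Nd)

theorem AC.subset {A B : Finset Nd} (hB : AC B) (h : A ⊆ B) : AC A :=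
  IsAntichain.subset hB (Finset.coe_subset.2 h)

theorem AC_empty : AC ∅ := by simp [AC]

theorem CH_empty : CH ∅ := by simp [CH]

theorem AC_singleton (t : Nd) : AC {t} := by simp [AC]

theorem CH_singleton (t : Nd) : CH {t} := by simp [CH]

theorem prefix_total {a b c : Nd} (h1 : a <+: c) (h2 : b <+: c) : a <+: b ∨ b <+: a := by
  rcases le_total a.length b.length with h | h
  · exact Or.inl (List.prefix_of_prefix_length_le h1 h2 h)
  · exact Or.inr (List.prefix_of_prefix_length_le h2 h1 h)

theorem eq_of_prefix_length {a b : Nd} (h : a <+: b) (hl : b.length ≤ a.length) : a = b :=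
  h.eq_of_length_le hl

/-- The trichotomy of a subtree. -/
theorem tri {s t : Nd} (h : s <+: t) :
    (t = s ∧ ¬ (s ++ [false] <+: t) ∧ ¬ (s ++ [true] <+: t)) ∨
    (t ≠ s ∧ (s ++ [false] <+: t) ∧ ¬ (s ++ [true] <+: t)) ∨
    (t ≠ s ∧ ¬ (s ++ [false] <+: t) ∧ (s ++ [true] <+: t)) := by
  obtain ⟨r, rfl⟩ := h
  cases r with
  | nil =>
    left
    refine ⟨by simp, fun h => ?_, fun h => ?_⟩
    · have := h.length_le; simp at this
    · have := h.length_le; simp at this
  | cons b r =>
    cases b
    · right; left
      refine ⟨by simp, ?_, fun h => ?_⟩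
      · rw [List.prefix_append_right_inj]; simp
      · rw [List.prefix_append_right_inj] at h; simp at h
    · right; right
      refine ⟨by simp, fun h => ?_, ?_⟩
      · rw [List.prefix_append_right_inj] at h; simp at h
      · rw [List.prefix_append_right_inj]; simp

theorem not_both {s t u : Nd} (h1 : s ++ [false] <+: t) (h2 : s ++ [true] <+: u) :
    ¬ (t <+: u) ∧ ¬ (u <+: t) := by
  have key : ∀ w : Nd, s ++ [false] <+: w → s ++ [true] <+: w → False := by
    intro w h3 h4
    have h5 : s ++ [false] = s ++ [true] :=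
      (List.prefix_of_prefix_length_le h3 h4 (by simp)).eq_of_length (by simp)
    simp at h5
  exact ⟨fun h => key u (h1.trans h) h2, fun h => key t h1 (h2.trans h)⟩

/-- Duality between chains and antichains. -/
theorem lemA (f a : Nd → ℝ) : ∀ (n : ℕ) (s : Nd) (M K : ℝ) (D : Finset Nd),
    (∀ t ∈ D, s <+: t ∧ t.length < s.length + n) →
    (∀ C : Finset Nd, CH C → (∀ t ∈ C, s <+: t) → ∑ t ∈ C, |f t| ≤ M) →
    (∀ A : Finset Nd, A ⊆ D → AC A → ∑ t ∈ A, |a t| ≤ K) →
    ∑ t ∈ D, |f t| * |a t| ≤ M * K := by
  classical
  intro n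
  induction n with
  | zero =>
    intro s M K D hD hM hK
    have hM0 : 0 ≤ M := by simpa using hM ∅ CH_empty (by simp)
    have hK0 : 0 ≤ K := by simpa using hK ∅ (by simp) AC_empty
    have hDe : D = ∅ := by
      rw [Finset.eq_empty_iff_forall_notMem]
      intro t ht
      have h1 := (hD t ht).1.length_le
      have h2 := (hD t ht).2
      omega
    rw [hDe, Finset.sum_empty]
    positivity
  | succ n ih =>
    intro s M K D hD hM hK
    have hK0 : 0 ≤ K := by simpa using hK ∅ (by simp) AC_empty
    set D0 := D.filter (fun t => s ++ [false] <+: t) with hD0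
    set D1 := D.filter (fun t => s ++ [true] <+: t) with hD1
    -- the splitting of the sum
    have hsplit : ∑ t ∈ D, |f t| * |a t| = ∑ t ∈ D, (if t = s then |f t| * |a t| else 0) +
        (∑ t ∈ D0, |f t| * |a t| + ∑ t ∈ D1, |f t| * |a t|) := by
      rw [hD0, hD1, Finset.sum_filter, Finset.sum_filter, ← Finset.sum_add_distrib,
        ← Finset.sum_add_distrib]
      refine Finset.sum_congr rfl (fun t ht => ?_)
      rcases tri (hD t ht).1 with ⟨h1, h2, h3⟩ | ⟨h1, h2, h3⟩ | ⟨h1, h2, h3⟩
      · rw [if_pos h1, if_neg h2, if_neg h3]; ring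
      · rw [if_neg h1, if_pos h2, if_neg h3]; ring
      · rw [if_neg h1, if_neg h2, if_pos h3]; ring
    set M' := M - |f s| with hM'
    have hchild : ∀ b : Bool, ∀ C : Finset Nd, CH C → (∀ t ∈ C, s ++ [b] <+: t) →
        ∑ t ∈ C, |f t| ≤ M' := by
      intro b C hC hCs
      have hsC : s ∉ C := by
        intro h
        have := (hCs s h).length_le
        simp at this
      have hle : ∀ t ∈ C, s <+: t := fun t ht => (List.prefix_append s [b]).trans (hCs t ht)
      have h1 := hM (insert s C) (by
        unfold CH
        rw [Finset.coe_insert]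
        refine hC.insert (fun t ht _ => Or.inl (hle t ht))) (by
          intro t ht
          rcases Finset.mem_insert.1 ht with h | h
          · rw [h]
          · exact hle t h)
      rw [Finset.sum_insert hsC] at h1
      linarith
    have hM'0 : 0 ≤ M' := by simpa using hchild false ∅ CH_empty (by simp)
    -- the splitting of the antichain bound
    let S0 : Set ℝ := {r | ∃ A : Finset Nd, A ⊆ D0 ∧ AC A ∧ r = ∑ t ∈ A, |a t|}
    have hS0ne : S0.Nonempty := ⟨0, ∅, by simp, AC_empty, by simp⟩
    have hunion : ∀ A0 A1 : Finset Nd, A0 ⊆ D0 → A1 ⊆ D1 → AC A0 → AC A1 →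
        ∑ t ∈ A0, |a t| + ∑ t ∈ A1, |a t| ≤ K := by
      intro A0 A1 h0 h1 hA0 hA1
      have hd : Disjoint A0 A1 := by
        rw [Finset.disjoint_left]
        intro t ht0 ht1
        exact (not_both (Finset.mem_filter.1 (h0 ht0)).2 (Finset.mem_filter.1 (h1 ht1)).2).1
          List.prefix_rfl
      rw [← Finset.sum_union hd]
      refine hK _ (Finset.union_subset (h0.trans (Finset.filter_subset _ _))
        (h1.trans (Finset.filter_subset _ _))) ?_
      unfold AC
      rw [Finset.coe_union]
      intro t ht u hu htu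
      rcases ht with ht | ht <;> rcases hu with hu | hu
      · exact hA0 ht hu htu
      · exact (not_both (Finset.mem_filter.1 (h0 ht)).2 (Finset.mem_filter.1 (h1 hu)).2).1
      · exact (not_both (Finset.mem_filter.1 (h0 hu)).2 (Finset.mem_filter.1 (h1 ht)).2).2
      · exact hA1 ht hu htu
    have hS0b : BddAbove S0 := by
      refine ⟨K, ?_⟩
      rintro r ⟨A, hA, hAC, rfl⟩
      have := hunion A ∅ hA (by simp) hAC AC_empty
      simpa using this
    set K0 := sSup S0 with hK0'
    have hb0 : ∀ A : Finset Nd, A ⊆ D0 → AC A → ∑ t ∈ A, |a t| ≤ K0 := fun A hA hAC =>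
      le_csSup hS0b ⟨A, hA, hAC, rfl⟩
    have hb1 : ∀ A : Finset Nd, A ⊆ D1 → AC A → ∑ t ∈ A, |a t| ≤ K - K0 := by
      intro A hA hAC
      have h1 : K0 ≤ K - ∑ t ∈ A, |a t| := by
        refine csSup_le hS0ne ?_
        rintro r ⟨B, hB, hBC, rfl⟩
        have := hunion B A hB hA hBC hAC
        linarith
      linarith
    have hlen : ∀ (b : Bool) (t : Nd), t ∈ D → s ++ [b] <+: t →
        s ++ [b] <+: t ∧ t.length < (s ++ [b]).length + n := by
      intro b t ht hb
      refine ⟨hb, ?_⟩
      have := (hD t ht).2
      rw [List.length_append, List.length_singleton]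
      omega
    have e0 := ih (s ++ [false]) M' K0 D0 (fun t ht =>
      hlen false t (Finset.mem_filter.1 ht).1 (Finset.mem_filter.1 ht).2) (hchild false) hb0
    have e1 := ih (s ++ [true]) M' (K - K0) D1 (fun t ht =>
      hlen true t (Finset.mem_filter.1 ht).1 (Finset.mem_filter.1 ht).2) (hchild true) hb1
    have es : ∑ t ∈ D, (if t = s then |f t| * |a t| else 0) ≤ |f s| * K := by
      rw [Finset.sum_ite_eq' D s]
      split_ifs with h
      · have := hK {s} (by simpa using h) (AC_singleton s)
        rw [Finset.sum_singleton] at this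
        exact mul_le_mul_of_nonneg_left this (abs_nonneg _)
      · positivity
    rw [hsplit]
    have : M * K = |f s| * K + (M' * K0 + M' * (K - K0)) := by rw [hM']; ring
    linarith

/-- Below every node there is a node such that the chain sums beyond it are small. -/
theorem lemB (g : Nd → ℝ) (M : ℝ) (hM : ∀ C : Finset Nd, CH C → ∑ t ∈ C, |g t| ≤ M)
    (v : Nd) (ε : ℝ) (hε : 0 < ε) :
    ∃ s : Nd, v <+: s ∧ ∀ C : Finset Nd, CH C → (∀ t ∈ C, s <+: t) → ∑ t ∈ C, |g t| ≤ ε := by
  classical
  by_contra hcon
  push Not at hcon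
  have key : ∀ (k : ℕ) (s : Nd), v <+: s → ∃ C : Finset Nd, CH C ∧ (∀ t ∈ C, s <+: t) ∧
      k * ε ≤ ∑ t ∈ C, |g t| := by
    intro k
    induction k with
    | zero => intro s _; exact ⟨∅, CH_empty, by simp, by simp⟩
    | succ k ih =>
      intro s hs
      obtain ⟨C1, hC1, hC1s, hsum1⟩ := hcon s hs
      have hne : C1.Nonempty := by
        rw [Finset.nonempty_iff_ne_empty]
        rintro rfl
        rw [Finset.sum_empty] at hsum1
        linarith
      obtain ⟨m, hm, hmax⟩ := C1.exists_max_image List.length hne
      have hle : ∀ t ∈ C1, t <+: m := by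
        intro t ht
        by_cases htm : t = m
        · rw [htm]
        · rcases hC1 ht hm htm with h | h
          · exact h
          · have := eq_of_prefix_length h (hmax t ht)
            rw [this]
      obtain ⟨C2, hC2, hC2s, hsum2⟩ := ih (m ++ [true])
        ((hs.trans (hC1s m hm)).trans (List.prefix_append _ _))
      have hlt : ∀ t ∈ C1, ∀ u ∈ C2, t <+: u ∧ t ≠ u := by
        intro t ht u hu
        have h1 : m ++ [true] <+: u := hC2s u hu
        refine ⟨((hle t ht).trans (List.prefix_append _ _)).trans h1, ?_⟩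
        rintro rfl
        have h2 := (hle t ht).length_le
        have h3 := h1.length_le
        simp at h3
        omega
      refine ⟨C1 ∪ C2, ?_, ?_, ?_⟩
      · unfold CH
        rw [Finset.coe_union]
        intro t ht u hu htu
        rcases ht with ht | ht <;> rcases hu with hu | hu
        · exact hC1 ht hu htu
        · exact Or.inl (hlt t ht u hu).1
        · exact Or.inr (hlt u hu t ht).1
        · exact hC2 ht hu htu
      · intro t ht
        rcases Finset.mem_union.1 ht with h | h
        · exact hC1s t h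
        · exact ((hC1s m hm).trans (List.prefix_append _ _)).trans (hC2s t h)
      · have hd : Disjoint C1 C2 := by
          rw [Finset.disjoint_left]
          intro t ht1 ht2
          exact (hlt t ht1 t ht2).2 rfl
        rw [Finset.sum_union hd]
        push_cast
        linarith
  obtain ⟨k, hk⟩ := exists_nat_gt (M / ε)
  obtain ⟨C, hC, -, hsum⟩ := key k v List.prefix_rfl
  have h1 := hM C hC
  rw [div_lt_iff₀ hε] at hk
  linarith

end Q100.ST
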