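import Pool.Agent.Q100.WBDefs

/-!
# The stopping time space: definitions

The nodes of the binary tree are the finite 0-1 sequences (`List Bool`), ordered by `s <+: t`
(`s` is an initial segment of `t`).
-/

set_option autoImplicit false
open Filter Topology

noncomputable section

namespace Q100.ST

/-- The finitely supported real families `(a_t)` indexed by the nodes of the binary tree. -/
def Fam : Type := List Bool →₀ ℝ

instance : AddCommGroup Fam := inferInstanceAs (AddCommGroup (List Bool →₀ ℝ))
instance : Module ℝ Fam := inferInstanceAs (Module ℝ (List Bool →₀ ℝ))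

/-- The `t`-th coordinate of a family. -/
def Fam.co (a : Fam) (t : List Bool) : ℝ := (show List Bool →₀ ℝ from a) t

/-- The (finite) support of a family. -/
def Fam.supp (a : Fam) : Finset (List Bool) := (show List Bool →₀ ℝ from a).support

/-- `∑_{t ∈ A} |a_t|`. -/
def asum (A : Set (List Bool)) (a : Fam) : ℝ :=
  ∑ t ∈ a.supp, A.indicator (fun t => |a.co t|) t

/-- The norm `‖a‖ = sup_A ∑_{t ∈ A} |a_t|`, the supremum over all antichains `A` of the tree. -/
def stNorm (a : Fam) : ℝ :=
  ⨆ A : {A : Set (List Bool) // IsAntichain (fun s t => s <+: t) A}, asum A.1 a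

theorem co_zero (t : List Bool) : (0 : Fam).co t = 0 := rfl
theorem co_add (a b : Fam) (t : List Bool) : (a + b).co t = a.co t + b.co t :=
  Finsupp.add_apply _ _ _
theorem co_neg (a : Fam) (t : List Bool) : (-a).co t = -a.co t := Finsupp.neg_apply _ _
theorem co_smul (r : ℝ) (a : Fam) (t : List Bool) : (r • a).co t = r * a.co t :=
  Finsupp.smul_apply _ _ _
theorem mem_supp (a : Fam) (t : List Bool) : t ∈ a.supp ↔ a.co t ≠ 0 := Finsupp.mem_support_iff
theorem co_ext {a b : Fam} (h : ∀ t, a.co t = b.co t) : a = b := Finsupp.ext h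

theorem asum_le_sum (A : Set (List Bool)) (a : Fam) : asum A a ≤ ∑ t ∈ a.supp, |a.co t| :=
  Finset.sum_le_sum fun t _ => Set.indicator_le_self' (fun _ _ => abs_nonneg _) t

theorem bddAbove_asum (a : Fam) : BddAbove (Set.range fun A :
    {A : Set (List Bool) // IsAntichain (fun s t => s <+: t) A} => asum A.1 a) :=
  ⟨∑ t ∈ a.supp, |a.co t|, by rintro _ ⟨A, rfl⟩; exact asum_le_sum _ _⟩

theorem asum_eq (A : Finset (List Bool)) (a : Fam) :
    asum (A : Set (List Bool)) a = ∑ t ∈ A, |a.co t| := by
  classical
  unfold asum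
  have h1 : ∑ t ∈ a.supp, (A : Set (List Bool)).indicator (fun t => |a.co t|) t =
      ∑ t ∈ a.supp ∪ A, (A : Set (List Bool)).indicator (fun t => |a.co t|) t := by
    refine Finset.sum_subset Finset.subset_union_left (fun t _ ht => ?_)
    have : a.co t = 0 := by
      by_contra h
      exact ht ((mem_supp a t).2 h)
    by_cases h2 : t ∈ (A : Set (List Bool))
    · rw [Set.indicator_of_mem h2, this, abs_zero]
    · rw [Set.indicator_of_notMem h2]
  have h2 : ∑ t ∈ A, |a.co t| =
      ∑ t ∈ a.supp ∪ A, (A : Set (List Bool)).indicator (fun t => |a.co t|) t := by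
    rw [← Finset.sum_subset (Finset.subset_union_right (s₁ := a.supp) (s₂ := A))]
    · refine Finset.sum_congr rfl (fun t ht => ?_)
      rw [Set.indicator_of_mem (Finset.mem_coe.2 ht)]
    · intro t _ ht
      rw [Set.indicator_of_notMem (by simpa using ht)]
  rw [h1, h2]

theorem stNorm_le_iff (a : Fam) (r : ℝ) : stNorm a ≤ r ↔
    ∀ A : Finset (List Bool), IsAntichain (fun s t => s <+: t) (A : Set (List Bool)) →
      ∑ t ∈ A, |a.co t| ≤ r := by
  classical
  haveI : Nonempty {A : Set (List Bool) // IsAntichain (fun s t => s <+: t) A} :=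
    ⟨⟨∅, by simp⟩⟩
  constructor
  · intro h A hA
    rw [← asum_eq]
    exact (le_ciSup (bddAbove_asum a) ⟨_, hA⟩).trans h
  · intro h
    refine ciSup_le (fun A => ?_)
    have h1 : asum A.1 a = ∑ t ∈ a.supp.filter (fun t => t ∈ A.1), |a.co t| := by
      rw [asum, Finset.sum_filter]
      rfl
    rw [h1]
    refine h _ (A.2.subset ?_)
    intro t ht
    exact (Finset.mem_filter.1 (Finset.mem_coe.1 ht)).2

theorem sum_le_stNorm (a : Fam) (A : Finset (List Bool))
    (hA : IsAntichain (fun s t => s <+: t) (A : Set (List Bool))) :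
    ∑ t ∈ A, |a.co t| ≤ stNorm a :=
  (stNorm_le_iff a _).1 le_rfl A hA

theorem abs_co_le (a : Fam) (t : List Bool) : |a.co t| ≤ stNorm a := by
  have := sum_le_stNorm a {t} (by simp)
  rwa [Finset.sum_singleton] at this

theorem stNorm_nonneg (a : Fam) : 0 ≤ stNorm a := (abs_nonneg _).trans (abs_co_le a [])

/-- The norm, as a bundled group norm. -/
def stGroupNorm : AddGroupNorm Fam where
  toFun := stNorm
  map_zero' := le_antisymm ((stNorm_le_iff _ _).2 fun A _ => by simp [co_zero]) (stNorm_nonneg _)
  add_le' a b := (stNorm_le_iff _ _).2 fun A hA => by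
    refine (Finset.sum_le_sum (fun t _ => ?_)).trans (Finset.sum_add_distrib.le.trans
      (add_le_add (sum_le_stNorm a A hA) (sum_le_stNorm b A hA)))
    rw [co_add]
    exact abs_add_le _ _
  neg' a := by
    unfold stNorm asum
    congr 1
    funext A
    have hs : (-a).supp = a.supp := Finsupp.support_neg _
    rw [hs]
    simp_rw [co_neg, abs_neg]
  eq_zero_of_map_eq_zero' a h := by
    refine co_ext fun t => ?_
    have := abs_co_le a t
    rw [show stNorm a = 0 from h] at this
    rw [co_zero]
    exact abs_nonpos_iff.1 this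

instance : NormedAddCommGroup Fam := stGroupNorm.toNormedAddCommGroup

theorem norm_def (a : Fam) : ‖a‖ = stNorm a := rfl

instance : NormedSpace ℝ Fam where
  norm_smul_le r a := by
    rw [norm_def, norm_def, stNorm_le_iff]
    intro A hA
    simp_rw [co_smul, abs_mul]
    rw [← Finset.mul_sum]
    exact mul_le_mul_of_nonneg_left (sum_le_stNorm a A hA) (abs_nonneg _)

/-- The stopping time space: the completion of the finitely supported families under
`‖a‖ = sup_A ∑_{t ∈ A} |a_t|`. -/
abbrev X : Type := UniformSpace.Completion Fam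

/-- The relative weak topology of the closed unit ball of a real normed space. -/
def ballWeak (Y : Type*) [NormedAddCommGroup Y] [NormedSpace ℝ Y] :
    TopologicalSpace (Metric.closedBall (0 : Y) 1) :=
  TopologicalSpace.induced Subtype.val (Q100.WB.weakTop ℝ Y)

end Q100.ST
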