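import Pool.Agent.Q100.STree

/-!
# The main estimate for the stopping time space
-/

set_option autoImplicit false
open Filter Topology

noncomputable section

namespace Q100.ST

/-- The nodes of length `n`. -/
def Lev (n : ℕ) : Finset Nd := (List.finite_length_eq Bool n).toFinset

/-- The nodes of length at most `L`. -/
def LEq (L : ℕ) : Finset Nd := (List.finite_length_le Bool L).toFinset

@[simp] theorem mem_Lev {n : ℕ} {t : Nd} : t ∈ Lev n ↔ t.length = n := by simp [Lev]

@[simp] theorem mem_LEq {L : ℕ} {t : Nd} : t ∈ LEq L ↔ t.length ≤ L := by simp [LEq]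

theorem take_eq_of_prefix {n : ℕ} {v t : Nd} (hv : v.length = n) (h : v <+: t) :
    t.take n = v := by
  obtain ⟨r, rfl⟩ := h
  rw [← hv, List.take_left]

open Classical in
/-- The perturbed vector. -/
def qc (n : ℕ) (a0 : Nd → ℝ) (s : Nd → Nd) (c : Nd → ℝ) (t : Nd) : ℝ :=
  if t.length < n then a0 t else if t = s (t.take n) then c (t.take n) else 0

section

variable {n : ℕ} {a0 : Nd → ℝ} {s : Nd → Nd} {c : Nd → ℝ}

theorem qc_lt {t : Nd} (h : t.length < n) : qc n a0 s c t = a0 t := by rw [qc, if_pos h]

theorem qc_s (hs : ∀ v, v <+: s v) {v : Nd} (hv : v.length = n) : qc n a0 s c (s v) = c v := by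
  have h1 : n ≤ (s v).length := by rw [← hv]; exact (hs v).length_le
  have h2 : (s v).take n = v := take_eq_of_prefix hv (hs v)
  rw [qc, if_neg (not_lt.2 h1), h2, if_pos rfl]

theorem qc_ne {t : Nd} (h1 : ¬ t.length < n) (h2 : t ≠ s (t.take n)) : qc n a0 s c t = 0 := by
  rw [qc, if_neg h1, if_neg h2]

/-- The nodes where `qc` does not vanish, away from `s v`, are incomparable with the nodes
beyond `v`. -/
theorem incomp (hs : ∀ v, v <+: s v) {v : Nd} (hv : v.length = n) {t u : Nd}
    (htq : qc n a0 s c t ≠ 0) (hts : ¬ (t <+: s v)) (hts' : t ≠ s v) (hu : v <+: u) :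
    ¬ (t <+: u) ∧ ¬ (u <+: t) := by
  by_cases hlen : t.length < n
  · constructor
    · intro h
      apply hts
      exact (List.prefix_of_prefix_length_le h hu (by omega)).trans (hs v)
    · intro h
      have h1 := h.length_le
      have h2 := hu.length_le
      omega
  · have ht : t = s (t.take n) := by
      by_contra h
      exact htq (qc_ne hlen h)
    have hlt : (t.take n).length = n := by
      rw [List.length_take]; omega
    have hne : t.take n ≠ v := by
      intro h
      rw [h] at ht
      exact hts' ht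
    have hpt : t.take n <+: t := List.take_prefix n t
    constructor
    · intro h
      apply hne
      exact (List.prefix_of_prefix_length_le (hpt.trans h) hu (by omega)).eq_of_length (by omega)
    · intro h
      apply hne
      exact (List.prefix_of_prefix_length_le hpt (hu.trans h) (by omega)).eq_of_length (by omega)

end

theorem lemM (g : Nd → ℝ) (hg : ∀ t, 0 ≤ g t) (M : ℝ)
    (hM : ∀ C : Finset Nd, CH C → ∑ t ∈ C, |g t| ≤ M)
    (a0 : Nd → ℝ) (n : ℕ) (ha0 : ∀ t : Nd, n ≤ t.length → a0 t = 0)
    (hb : ∀ A : Finset Nd, AC A → ∑ t ∈ A, |a0 t| ≤ 1) (ε : ℝ) (hε : 0 < ε) :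
    ∃ (L : ℕ) (δ : ℝ) (q : Nd → ℝ), 0 < δ ∧ (∀ t : Nd, L < t.length → q t = 0) ∧
      (∀ A : Finset Nd, AC A → ∑ t ∈ A, |q t| ≤ 1) ∧
      ∀ a : Nd → ℝ, (∀ A : Finset Nd, AC A → ∑ t ∈ A, |a t| ≤ 1 + δ) →
        (∀ t : Nd, t.length ≤ L → |a t - q t| < δ) →
        ∀ D : Finset Nd, ∑ t ∈ D, g t * |a t - a0 t| ≤ ε := by
  classical
  have hM0 : 0 ≤ M := by simpa using hM ∅ CH_empty
  have hgM : ∀ t, g t ≤ M := fun t => by
    have := hM {t} (CH_singleton t)
    rw [Finset.sum_singleton, abs_of_nonneg (hg t)] at this
    exact this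
  set W : ℝ := ((Lev n).card : ℝ) with hW
  have hW0 : 0 ≤ W := by positivity
  set ε' : ℝ := ε / (6 * (W + 1)) with hε'
  have hε'0 : 0 < ε' := by positivity
  choose s hs1 hs2 using fun v => lemB g M hM v ε' hε'0
  set L : ℕ := n + (Lev n).sup (fun v => (s v).length) with hL
  have hLs : ∀ v ∈ Lev n, (s v).length ≤ L := fun v hv => by
    have := Finset.le_sup (f := fun v => (s v).length) hv
    omega
  set P : ℝ := ((LEq L).card : ℝ) with hP
  have hP0 : 0 ≤ P := by positivity
  set δ : ℝ := min 1 (ε / (2 * (P * M + W * (M * (2 + P)) + 1))) with hδ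
  have hδ0 : 0 < δ := lt_min one_pos (by positivity)
  have hδ1 : δ ≤ 1 := min_le_left _ _
  have hδ2 : (P * M + W * (M * (2 + P)) + 1) * δ ≤ ε / 2 := by
    have h1 : δ ≤ ε / (2 * (P * M + W * (M * (2 + P)) + 1)) := min_le_right _ _
    rw [le_div_iff₀ (by positivity)] at h1
    linarith
  -- almost maximal weights
  let V : Set ℝ := {r | ∃ c : Nd → ℝ, (∀ v, 0 ≤ c v) ∧
    (∀ A : Finset Nd, AC A → ∑ t ∈ A, |qc n a0 s c t| ≤ 1) ∧ r = ∑ v ∈ Lev n, c v}
  have hVne : V.Nonempty := by
    refine ⟨0, fun _ => 0, fun _ => le_rfl, fun A hA => ?_, by simp⟩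
    have h1 : ∀ t, qc n a0 s (fun _ => 0) t = a0 t := by
      intro t
      by_cases h : t.length < n
      · exact qc_lt h
      · rw [qc, if_neg h, ha0 t (not_lt.1 h)]; simp
    simp_rw [h1]
    exact hb A hA
  have hVb : BddAbove V := by
    refine ⟨W, ?_⟩
    rintro r ⟨c, hc0, hc1, rfl⟩
    have h1 : ∀ v ∈ Lev n, c v ≤ 1 := by
      intro v hv
      have := hc1 {s v} (AC_singleton _)
      rw [Finset.sum_singleton, qc_s hs1 (mem_Lev.1 hv), abs_of_nonneg (hc0 v)] at this
      exact this
    calc ∑ v ∈ Lev n, c v ≤ ∑ v ∈ Lev n, (1 : ℝ) := Finset.sum_le_sum h1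
      _ = W := by simp [hW]
  obtain ⟨r, ⟨c, hc0, hc1, rfl⟩, hr⟩ := exists_lt_of_lt_csSup hVne
    (show sSup V - δ < sSup V by linarith)
  set q := qc n a0 s c with hq
  have htight : ∀ v ∈ Lev n, ∃ A : Finset Nd, AC A ∧ s v ∈ A ∧ 1 - δ < ∑ t ∈ A, |q t| := by
    intro v hv
    by_contra hcon
    push Not at hcon
    have hmem : ∑ w ∈ Lev n, (c w + if w = v then δ else 0) ∈ V := by
      refine ⟨fun w => c w + if w = v then δ else 0, fun w => ?_, fun A hA => ?_, rfl⟩
      · have := hc0 w
        show 0 ≤ c w + if w = v then δ else 0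
        split_ifs <;> linarith
      · have h1 : ∀ t, qc n a0 s (fun w => c w + if w = v then δ else 0) t =
            q t + if t = s v then δ else 0 := by
          intro t
          by_cases hlen : t.length < n
          · rw [qc_lt hlen, hq, qc_lt hlen, if_neg, add_zero]
            rintro rfl
            have h2 := (hs1 v).length_le
            rw [mem_Lev.1 hv] at h2
            omega
          · by_cases h2 : t = s (t.take n)
            · have h3 : (t.take n).length = n := by rw [List.length_take]; omega
              rw [hq]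
              conv_lhs => rw [h2]
              conv_rhs => rw [h2]
              rw [qc_s hs1 h3, qc_s hs1 h3]
              congr 1
              by_cases h4 : t.take n = v
              · rw [if_pos h4, h4, if_pos rfl]
              · rw [if_neg h4, if_neg]
                intro h5
                apply h4
                have h6 := take_eq_of_prefix h3 (hs1 (t.take n))
                rw [h5, take_eq_of_prefix (mem_Lev.1 hv) (hs1 v)] at h6
                exact h6.symm
            · rw [qc_ne hlen h2, hq, qc_ne hlen h2, if_neg, add_zero]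
              rintro rfl
              apply h2
              rw [take_eq_of_prefix (mem_Lev.1 hv) (hs1 v)]
        simp_rw [h1]
        by_cases hA2 : s v ∈ A
        · have h2 : ∑ t ∈ A, |q t + if t = s v then δ else 0| ≤
              ∑ t ∈ A, (|q t| + if t = s v then δ else 0) := by
            refine Finset.sum_le_sum (fun t _ => ?_)
            refine (abs_add_le _ _).trans ?_
            split_ifs
            · rw [abs_of_pos hδ0]
            · rw [abs_zero]
          refine h2.trans ?_
          rw [Finset.sum_add_distrib, Finset.sum_ite_eq' A (s v), if_pos hA2]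
          have := hcon A hA hA2
          linarith
        · have h2 : ∀ t ∈ A, |q t + if t = s v then δ else 0| = |q t| := by
            intro t ht
            rw [if_neg, add_zero]
            rintro rfl
            exact hA2 ht
          rw [Finset.sum_congr rfl h2]
          exact hc1 A hA
    have h1 := le_csSup hVb hmem
    rw [Finset.sum_add_distrib, Finset.sum_ite_eq' (Lev n) v, if_pos hv] at h1
    linarith
  have hqL : ∀ t : Nd, L < t.length → q t = 0 := by
    intro t ht
    refine qc_ne (by omega) ?_
    intro h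
    have h3 : t.take n ∈ Lev n := by
      rw [mem_Lev, List.length_take]; omega
    have h4 := hLs _ h3
    rw [← h] at h4
    omega
  refine ⟨L, δ, q, hδ0, hqL, hc1, fun a ha1 ha2 D => ?_⟩
  -- the part of small length
  have hnear : ∀ A : Finset Nd, A ⊆ LEq L → ∑ t ∈ A, |q t| - P * δ ≤ ∑ t ∈ A, |a t| := by
    intro A hA
    have h1 : ∀ t ∈ A, |q t| ≤ |a t| + δ := by
      intro t ht
      have h2 := ha2 t (mem_LEq.1 (hA ht))
      have h3 : |q t| ≤ |a t| + |a t - q t| := by
        have := abs_sub_abs_le_abs_sub (q t) (a t)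
        rw [abs_sub_comm] at this
        linarith
      linarith
    have h2 := Finset.sum_le_sum h1
    rw [Finset.sum_add_distrib, Finset.sum_const, nsmul_eq_mul] at h2
    have h3 : (A.card : ℝ) ≤ P := by
      rw [hP]
      exact_mod_cast Finset.card_le_card hA
    nlinarith
  -- the incomparable part
  have hinc : ∀ v ∈ Lev n, ∀ B : Finset Nd, AC B →
      (∀ u ∈ B, v <+: u ∧ ¬ (s v <+: u) ∧ L < u.length) → ∑ t ∈ B, |a t| ≤ (2 + P) * δ := by
    intro v hv B hB hBu
    obtain ⟨A, hA, hsA, hAsum⟩ := htight v hv
    set A' := A.filter (fun t => q t ≠ 0 ∨ t = s v) with hA'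
    have hA'sub : A' ⊆ A := Finset.filter_subset _ _
    have hA'sum : ∑ t ∈ A', |q t| = ∑ t ∈ A, |q t| := by
      rw [hA', Finset.sum_filter]
      refine Finset.sum_congr rfl (fun t _ => ?_)
      by_cases h : q t = 0
      · rw [h, abs_zero]; split_ifs <;> rfl
      · rw [if_pos (Or.inl h)]
    have hA'L : A' ⊆ LEq L := by
      intro t ht
      rw [mem_LEq]
      rcases (Finset.mem_filter.1 ht).2 with h | h
      · by_contra h2
        exact h (hqL t (not_le.1 h2))
      · rw [h]; exact hLs v hv
    have hinc2 : ∀ t ∈ A', ∀ u ∈ B, ¬ (t <+: u) ∧ ¬ (u <+: t) := by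
      intro t ht u hu
      obtain ⟨h1, h2, h3⟩ := hBu u hu
      by_cases hts : t = s v
      · subst hts
        refine ⟨h2, fun h => ?_⟩
        have h4 := h.length_le
        have h5 := hLs v hv
        omega
      · have h4 : q t ≠ 0 := ((Finset.mem_filter.1 ht).2).resolve_right hts
        have h5 : ¬ (t <+: s v) := hA (hA'sub ht) hsA hts
        exact incomp hs1 (mem_Lev.1 hv) h4 h5 hts h1
    have hd : Disjoint A' B := by
      rw [Finset.disjoint_left]
      intro t h1 h2
      exact (hinc2 t h1 t h2).1 List.prefix_rfl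
    have hAB : AC (A' ∪ B) := by
      unfold AC
      rw [Finset.coe_union]
      intro t ht u hu htu
      rcases ht with ht | ht <;> rcases hu with hu | hu
      · exact hA (hA'sub ht) (hA'sub hu) htu
      · exact (hinc2 t ht u hu).1
      · exact (hinc2 u hu t ht).2
      · exact hB ht hu htu
    have h1 := ha1 _ hAB
    rw [Finset.sum_union hd] at h1
    have h2 := hnear A' hA'L
    rw [hA'sum] at h2
    linarith
  -- splitting of the sum
  have hsplit : ∑ t ∈ D, g t * |a t - a0 t| ≤
      ∑ t ∈ LEq L, g t * |a t - a0 t| + ∑ t ∈ D.filter (fun t => L < t.length), g t * |a t| := by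
    have h1 : ∑ t ∈ D, g t * |a t - a0 t| =
        ∑ t ∈ D.filter (fun t => ¬ L < t.length), g t * |a t - a0 t| +
        ∑ t ∈ D.filter (fun t => L < t.length), g t * |a t - a0 t| := by
      rw [add_comm, Finset.sum_filter_add_sum_filter_not]
    rw [h1]
    refine add_le_add ?_ (le_of_eq ?_)
    · refine Finset.sum_le_sum_of_subset_of_nonneg ?_ (fun t _ _ =>
        mul_nonneg (hg t) (abs_nonneg _))
      intro t ht
      rw [mem_LEq]
      exact not_lt.1 (Finset.mem_filter.1 ht).2
    · refine Finset.sum_congr rfl (fun t ht => ?_)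
      have := (Finset.mem_filter.1 ht).2
      rw [ha0 t (by omega), sub_zero]
  have hpart1 : ∑ t ∈ LEq L, g t * |a t - a0 t| ≤ P * M * δ + W * ε' := by
    have h1 : ∀ t ∈ LEq L, g t * |a t - a0 t| ≤ M * δ + g t * |q t - a0 t| := by
      intro t ht
      have h2 : |a t - a0 t| ≤ |a t - q t| + |q t - a0 t| := abs_sub_le _ _ _
      have h3 := ha2 t (mem_LEq.1 ht)
      have h4 := mul_le_mul_of_nonneg_left h2 (hg t)
      have h5 : g t * |a t - q t| ≤ M * δ := mul_le_mul (hgM t) h3.le (abs_nonneg _) hM0
      linarith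
    refine (Finset.sum_le_sum h1).trans ?_
    rw [Finset.sum_add_distrib, Finset.sum_const, nsmul_eq_mul]
    refine add_le_add (le_of_eq (by rw [← hP]; ring)) ?_
    -- only the nodes `s v` matter
    have h6 : ∀ t ∈ LEq L, g t * |q t - a0 t| ≤
        ∑ v ∈ Lev n, (if t = s v then g t * |q t - a0 t| else 0) := by
      intro t _
      have hnn : ∀ v ∈ Lev n, 0 ≤ (if t = s v then g t * |q t - a0 t| else 0) := by
        intro v _
        split_ifs
        · exact mul_nonneg (hg t) (abs_nonneg _)
        · exact le_rfl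
      by_cases hlen : t.length < n
      · rw [hq, qc_lt hlen, sub_self, abs_zero, mul_zero]
        simp
      · by_cases h7 : t = s (t.take n)
        · have h8 : t.take n ∈ Lev n := by rw [mem_Lev, List.length_take]; omega
          refine le_trans ?_ (Finset.single_le_sum hnn h8)
          rw [if_pos h7]
        · rw [hq, qc_ne hlen h7, ha0 t (not_lt.1 hlen), sub_self, abs_zero, mul_zero]
          simp
    refine (Finset.sum_le_sum h6).trans ?_
    rw [Finset.sum_comm]
    have h7 : ∀ v ∈ Lev n, ∑ t ∈ LEq L, (if t = s v then g t * |q t - a0 t| else 0) ≤ ε' := by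
      intro v hv
      rw [Finset.sum_ite_eq' (LEq L) (s v), if_pos (mem_LEq.2 (hLs v hv))]
      have h8 : n ≤ (s v).length := by
        have := (hs1 v).length_le
        rw [mem_Lev.1 hv] at this
        exact this
      rw [ha0 _ h8, sub_zero, hq, qc_s hs1 (mem_Lev.1 hv), abs_of_nonneg (hc0 v)]
      have h9 : g (s v) ≤ ε' := by
        have := hs2 v {s v} (CH_singleton _) (by simp)
        rw [Finset.sum_singleton, abs_of_nonneg (hg _)] at this
        exact this
      have h10 : c v ≤ 1 := by
        have := hc1 {s v} (AC_singleton _)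
        rw [Finset.sum_singleton, hq, qc_s hs1 (mem_Lev.1 hv), abs_of_nonneg (hc0 v)] at this
        exact this
      calc g (s v) * c v ≤ ε' * 1 := mul_le_mul h9 h10 (hc0 v) hε'0.le
        _ = ε' := mul_one _
    refine (Finset.sum_le_sum h7).trans ?_
    rw [Finset.sum_const, nsmul_eq_mul]
  have hpart2 : ∑ t ∈ D.filter (fun t => L < t.length), g t * |a t| ≤
      W * (2 * ε' + M * ((2 + P) * δ)) := by
    set D' := D.filter (fun t => L < t.length) with hD'
    have h1 : ∀ t ∈ D', g t * |a t| = ∑ v ∈ Lev n, (if v <+: t then g t * |a t| else 0) := by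
      intro t ht
      have hlen : L < t.length := (Finset.mem_filter.1 ht).2
      have h2 : t.take n ∈ Lev n := by rw [mem_Lev, List.length_take]; omega
      rw [Finset.sum_eq_single_of_mem _ h2, if_pos (List.take_prefix n t)]
      intro v hv hne
      rw [if_neg]
      intro h3
      exact hne (take_eq_of_prefix (mem_Lev.1 hv) h3).symm
    rw [Finset.sum_congr rfl h1, Finset.sum_comm]
    have h2 : ∀ v ∈ Lev n, ∑ t ∈ D', (if v <+: t then g t * |a t| else 0) ≤
        2 * ε' + M * ((2 + P) * δ) := by
      intro v hv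
      rw [← Finset.sum_filter, ← Finset.sum_filter_add_sum_filter_not _ (fun t => s v <+: t)]
      obtain ⟨N, hN⟩ : ∃ N : ℕ, ∀ t ∈ D', t.length < N := by
        refine ⟨D'.sup List.length + 1, fun t ht => ?_⟩
        exact Nat.lt_succ_of_le (Finset.le_sup (f := List.length) ht)
      refine add_le_add ?_ ?_
      · have h3 := lemA g a N (s v) ε' (1 + δ)
          ((D'.filter (fun t => v <+: t)).filter (fun t => s v <+: t)) ?_ (hs2 v)
          (fun A _ hA => ha1 A hA)
        · have h4 : ∀ t, |g t| = g t := fun t => abs_of_nonneg (hg t)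
          simp_rw [h4] at h3
          refine h3.trans ?_
          nlinarith
        · intro t ht
          refine ⟨(Finset.mem_filter.1 ht).2, ?_⟩
          have := hN t (Finset.mem_filter.1 (Finset.mem_filter.1 ht).1).1
          omega
      · have h3 := lemA g a N v M ((2 + P) * δ)
          ((D'.filter (fun t => v <+: t)).filter (fun t => ¬ (s v <+: t))) ?_
          (fun C hC _ => hM C hC) ?_
        · have h4 : ∀ t, |g t| = g t := fun t => abs_of_nonneg (hg t)
          simp_rw [h4] at h3
          exact h3
        · intro t ht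
          refine ⟨(Finset.mem_filter.1 (Finset.mem_filter.1 ht).1).2, ?_⟩
          have := hN t (Finset.mem_filter.1 (Finset.mem_filter.1 ht).1).1
          omega
        · intro A hAD hA
          refine hinc v hv A hA (fun u hu => ?_)
          have h5 := Finset.mem_filter.1 (hAD hu)
          have h6 := Finset.mem_filter.1 h5.1
          exact ⟨h6.2, h5.2, (Finset.mem_filter.1 h6.1).2⟩
    refine (Finset.sum_le_sum h2).trans ?_
    rw [Finset.sum_const, nsmul_eq_mul]
  have hfin : P * M * δ + W * ε' + W * (2 * ε' + M * ((2 + P) * δ)) ≤ ε := by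
    have h1 : W * ε' * 6 ≤ ε := by
      rw [hε']
      rw [mul_div_assoc', div_mul_eq_mul_div, div_le_iff₀ (by positivity)]
      nlinarith
    have h2 : P * M * δ + W * (M * ((2 + P) * δ)) ≤ ε / 2 := by nlinarith
    nlinarith
  linarith

end Q100.ST
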