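import Pool.Agent.Q100.STreeDefs
import Pool.Agent.Q100.STreeM

/-!
# A countable weak `π`-base for the ball of the stopping time space
-/

set_option autoImplicit false
open Filter Topology

noncomputable section

namespace Q100.ST

open UniformSpace

/-- Coordinate functionals on `Fam`. -/
def cof (t : Nd) : Fam →L[ℝ] ℝ :=
  LinearMap.mkContinuous
    { toFun := fun a => a.co t
      map_add' := fun a b => co_add a b t
      map_smul' := fun r a => co_smul r a t } 1 (fun a => by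
        rw [one_mul]; exact abs_co_le a t)

theorem cof_apply (t : Nd) (a : Fam) : cof t a = a.co t := rfl

/-- Coordinate functionals on `X`. -/
def cx (t : Nd) : X →L[ℝ] ℝ := (cof t).extend (Completion.toComplL (𝕜 := ℝ) (E := Fam))

theorem cx_coe (t : Nd) (a : Fam) : cx t (a : X) = a.co t :=
  ContinuousLinearMap.extend_eq (cof t) (e := Completion.toComplL (𝕜 := ℝ) (E := Fam))
    Completion.denseRange_coe (Completion.isUniformInducing_coe Fam) a

theorem abs_cx_le (t : Nd) (y : X) : |cx t y| ≤ ‖y‖ := by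
  refine Completion.induction_on y ?_ ?_
  · exact isClosed_le (continuous_abs.comp (cx t).continuous) continuous_norm
  · intro a
    rw [cx_coe, Completion.norm_coe]
    exact abs_co_le a t

/-- The family with the coordinates `r t`, `t ∈ D`. -/
def mk (D : Finset Nd) (r : Nd → ℝ) : Fam :=
  Finsupp.onFinset D (fun t => by classical exact if t ∈ D then r t else 0) (by
    classical
    intro t ht
    by_contra h
    simp [h] at ht)

open Classical in
theorem co_mk (D : Finset Nd) (r : Nd → ℝ) (t : Nd) :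
    (mk D r).co t = if t ∈ D then r t else 0 := rfl

/-- Unit vectors. -/
def ev (t : Nd) : Fam := mk {t} (fun _ => 1)

theorem co_sum {ι : Type*} (s : Finset ι) (F : ι → Fam) (t : Nd) :
    (∑ i ∈ s, F i).co t = ∑ i ∈ s, (F i).co t := by
  show cof t (∑ i ∈ s, F i) = ∑ i ∈ s, cof t (F i)
  exact map_sum (cof t) F s

theorem co_ev (t u : Nd) : (ev t).co u = if u = t then 1 else 0 := by
  classical
  rw [ev, co_mk]
  simp

theorem eq_sum (a : Fam) (D : Finset Nd) (hD : ∀ t, a.co t ≠ 0 → t ∈ D) :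
    a = ∑ t ∈ D, a.co t • ev t := by
  refine co_ext fun u => ?_
  rw [co_sum]
  simp_rw [co_smul, co_ev]
  simp only [mul_ite, mul_one, mul_zero]
  rw [Finset.sum_ite_eq D u]
  split_ifs with h
  · rfl
  · by_contra h2
    exact h (hD u h2)

theorem norm_le_iff (a : Fam) (r : ℝ) : ‖a‖ ≤ r ↔ ∀ A : Finset Nd, AC A →
    ∑ t ∈ A, |a.co t| ≤ r := stNorm_le_iff a r

/-- Chain sums of functionals. -/
theorem chain_le (f : X →L[ℝ] ℝ) (C : Finset Nd) (hC : CH C) :
    ∑ t ∈ C, |f (ev t : X)| ≤ ‖f‖ := by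
  classical
  set b : Fam := mk C (fun t => SignType.sign (f (ev t : X))) with hb
  have hb1 : ‖b‖ ≤ 1 := by
    rw [norm_le_iff]
    intro A hA
    have h1 : ∀ t ∈ A, |b.co t| ≤ if t ∈ C then 1 else 0 := by
      intro t _
      rw [hb, co_mk]
      split_ifs
      · rcases SignType.trichotomy (SignType.sign (f (ev t : X))) with h | h | h <;> simp [h]
      · simp
    refine (Finset.sum_le_sum h1).trans ?_
    rw [← Finset.sum_filter, Finset.sum_const, nsmul_eq_mul, mul_one]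
    have h2 : (A.filter (fun t => t ∈ C)).card ≤ 1 := by
      rw [Finset.card_le_one]
      intro x hx y hy
      obtain ⟨hxA, hxC⟩ := Finset.mem_filter.1 hx
      obtain ⟨hyA, hyC⟩ := Finset.mem_filter.1 hy
      by_contra hne
      rcases hC hxC hyC hne with h | h
      · exact hA hxA hyA hne h
      · exact hA hyA hxA (Ne.symm hne) h
    exact_mod_cast h2
  have hfb : f (b : X) = ∑ t ∈ C, |f (ev t : X)| := by
    have h1 : b = ∑ t ∈ C, b.co t • ev t := by
      refine eq_sum b C (fun t ht => ?_)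
      by_contra h
      rw [hb, co_mk, if_neg h] at ht
      exact ht rfl
    have h2 : (b : X) = ∑ t ∈ C, b.co t • (ev t : X) := by
      have := congrArg (Completion.toComplL (𝕜 := ℝ) (E := Fam)) h1
      rw [map_sum] at this
      simpa using this
    rw [h2, map_sum]
    refine Finset.sum_congr rfl (fun t ht => ?_)
    rw [map_smul, smul_eq_mul, hb, co_mk, if_pos ht]
    exact sign_mul_self _
  rw [← hfb]
  calc f (b : X) ≤ ‖f (b : X)‖ := Real.le_norm_self _
    _ ≤ ‖f‖ * ‖(b : X)‖ := f.le_opNorm _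
    _ ≤ ‖f‖ * 1 := by
        rw [Completion.norm_coe]
        exact mul_le_mul_of_nonneg_left hb1 (norm_nonneg _)
    _ = ‖f‖ := mul_one _

theorem abs_apply_le (f : X →L[ℝ] ℝ) (a : Fam) (D : Finset Nd) (hD : ∀ t, a.co t ≠ 0 → t ∈ D) :
    |f (a : X)| ≤ ∑ t ∈ D, |f (ev t : X)| * |a.co t| := by
  have h1 := eq_sum a D hD
  have h2 : (a : X) = ∑ t ∈ D, a.co t • (ev t : X) := by
    have := congrArg (Completion.toComplL (𝕜 := ℝ) (E := Fam)) h1
    rw [map_sum] at this
    simpa using this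
  rw [h2, map_sum]
  refine (Finset.abs_sum_le_sum_abs _ _).trans (Finset.sum_le_sum fun t _ => ?_)
  rw [map_smul, smul_eq_mul, abs_mul, mul_comm]

/-- The boxes. -/
def box (L k : ℕ) (q : Nd →₀ ℚ) : Set (Metric.closedBall (0 : X) 1) :=
  {y | ∀ t : Nd, t.length ≤ L → |cx t y.1 - q t| < 1 / ((k : ℝ) + 1)}

theorem isOpen_pre (φ : X →L[ℝ] ℝ) (U : Set ℝ) (hU : IsOpen U) :
    @IsOpen _ (ballWeak X) ((fun y : Metric.closedBall (0 : X) 1 => φ y.1) ⁻¹' U) := by
  refine @IsOpen.preimage _ _ (ballWeak X) _ _ ?_ _ hU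
  refine @Continuous.comp _ _ _ (ballWeak X) (Q100.WB.weakTop ℝ X) _ _ _ ?_ ?_
  · exact continuous_iff_le_induced.2 (iInf_le _ φ)
  · exact continuous_induced_dom

theorem isOpen_box (L k : ℕ) (q : Nd →₀ ℚ) : @IsOpen _ (ballWeak X) (box L k q) := by
  have h1 : box L k q = ⋂ t ∈ (LEq L : Set Nd),
      ((fun y : Metric.closedBall (0 : X) 1 => cx t y.1) ⁻¹'
        {r | |r - q t| < 1 / ((k : ℝ) + 1)}) := by
    ext y
    simp [box]
  rw [h1]
  refine @Set.Finite.isOpen_biInter _ _ (ballWeak X) _ _ (LEq L).finite_toSet (fun t _ => ?_)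
  refine isOpen_pre _ _ ?_
  exact isOpen_lt (by fun_prop) continuous_const

theorem exists_basic (W : Set (Metric.closedBall (0 : X) 1)) (hW : @IsOpen _ (ballWeak X) W)
    (x : Metric.closedBall (0 : X) 1) (hx : x ∈ W) :
    ∃ (F : Finset (X →L[ℝ] ℝ)) (ε : ℝ), 0 < ε ∧
      ∀ y : Metric.closedBall (0 : X) 1, (∀ f ∈ F, |f y.1 - f x.1| < ε) → y ∈ W := by
  classical
  obtain ⟨V, hV, rfl⟩ := hW
  have h1 : V ∈ @nhds X (Q100.WB.weakTop ℝ X) x.1 := @IsOpen.mem_nhds X (Q100.WB.weakTop ℝ X) x.1 V hV hx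
  have h2 := (@nhds_iInf X (X →L[ℝ] ℝ) (fun φ => TopologicalSpace.induced φ inferInstance) x.1)
  have h3 : V ∈ ⨅ φ : X →L[ℝ] ℝ, comap φ (𝓝 (φ x.1)) := by
    have : @nhds X (Q100.WB.weakTop ℝ X) x.1 = ⨅ φ : X →L[ℝ] ℝ, comap φ (𝓝 (φ x.1)) := by
      rw [Q100.WB.weakTop, h2]
      congr 1
      funext φ
      rw [nhds_induced]
    rwa [this] at h1
  rw [Filter.mem_iInf'] at h3
  obtain ⟨I, hI, U, hU, -, hVU, -⟩ := h3
  have h4 : ∀ φ : X →L[ℝ] ℝ, ∃ ε : ℝ, 0 < ε ∧ ∀ y : X, |φ y - φ x.1| < ε → y ∈ U φ := by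
    intro φ
    obtain ⟨S, hS, hSU⟩ := hU φ
    obtain ⟨ε, hε, hb⟩ := Metric.mem_nhds_iff.1 hS
    exact ⟨ε, hε, fun y hy => hSU (hb (by simpa [Real.dist_eq] using hy))⟩
  choose e he heU using h4
  obtain ⟨ε, hε, hεe⟩ : ∃ ε : ℝ, 0 < ε ∧ ∀ φ ∈ hI.toFinset, ε ≤ e φ := by
    by_cases hne : hI.toFinset.Nonempty
    · obtain ⟨φ, hφ, hmin⟩ := hI.toFinset.exists_min_image e hne
      exact ⟨e φ, he φ, hmin⟩
    · rw [Finset.not_nonempty_iff_eq_empty] at hne
      exact ⟨1, one_pos, by simp [hne]⟩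
  refine ⟨hI.toFinset, ε, hε, fun y hy => ?_⟩
  show y.1 ∈ V
  rw [hVU]
  simp only [Set.mem_iInter]
  intro φ hφ
  exact heU φ y.1 ((hy φ (hI.mem_toFinset.2 hφ)).trans_le (hεe φ (hI.mem_toFinset.2 hφ)))

theorem key (x : X) (hx : ‖x‖ ≤ 1) (F : Finset (X →L[ℝ] ℝ)) (ε : ℝ) (hε : 0 < ε) :
    ∃ (L k : ℕ) (q : Nd →₀ ℚ), (box L k q).Nonempty ∧
      ∀ y ∈ box L k q, ∀ f ∈ F, |f y.1 - f x| < ε := by
  classical
  set M : ℝ := ∑ f ∈ F, ‖f‖ with hM
  have hM0 : 0 ≤ M := Finset.sum_nonneg fun f _ => norm_nonneg _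
  have hfM : ∀ f ∈ F, ‖f‖ ≤ M := fun f hf =>
    Finset.single_le_sum (f := fun f : X →L[ℝ] ℝ => ‖f‖) (fun f _ => norm_nonneg f) hf
  set η : ℝ := ε / (8 * (M + 1)) with hη
  have hη0 : 0 < η := by positivity
  have hMη : M * (2 * η) ≤ ε / 4 := by
    have : η * (8 * (M + 1)) = ε := by rw [hη]; field_simp
    nlinarith
  have hMη' : ∀ f ∈ F, ∀ z w : X, ‖z - w‖ ≤ 2 * η → |f z - f w| ≤ ε / 4 := by
    intro f hf z w hzw
    rw [← map_sub, ← Real.norm_eq_abs]
    calc ‖f (z - w)‖ ≤ ‖f‖ * ‖z - w‖ := f.le_opNorm _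
      _ ≤ M * (2 * η) := mul_le_mul (hfM f hf) hzw (norm_nonneg _) hM0
      _ ≤ ε / 4 := hMη
  -- finitely supported approximations
  have happ : ∀ (y : X) (r : ℝ), 0 < r → ∃ b : Fam, ‖(b : X) - y‖ < r := by
    intro y r hr
    obtain ⟨b, hb⟩ := Completion.denseRange_coe.exists_dist_lt y hr
    refine ⟨b, ?_⟩
    rw [dist_eq_norm, norm_sub_rev] at hb
    exact hb
  obtain ⟨b, hb⟩ := happ x η hη0
  have hbn : ‖b‖ ≤ 1 + η := by
    rw [← Completion.norm_coe b]
    calc ‖(b : X)‖ = ‖x + ((b : X) - x)‖ := by rw [add_sub_cancel]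
      _ ≤ ‖x‖ + ‖(b : X) - x‖ := norm_add_le _ _
      _ ≤ 1 + η := add_le_add hx hb.le
  set a0 : Fam := (1 + η)⁻¹ • b with ha0
  have ha0n : ‖a0‖ ≤ 1 := by
    rw [ha0, norm_smul, norm_inv, Real.norm_eq_abs, abs_of_pos (by linarith),
      inv_mul_le_iff₀ (by linarith), mul_one]
    exact hbn
  have ha0x : ‖(a0 : X) - x‖ ≤ 2 * η := by
    have h1 : ‖(a0 : X) - (b : X)‖ ≤ η := by
      rw [← Completion.coe_sub, Completion.norm_coe, ha0]
      have : (1 + η)⁻¹ • b - b = (-(η / (1 + η))) • b := by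
        rw [sub_eq_iff_eq_add, ← one_smul ℝ b, smul_smul, smul_smul, ← add_smul]
        congr 1
        field_simp
        ring
      rw [this, norm_smul, Real.norm_eq_abs, abs_neg, abs_of_nonneg (by positivity),
        div_mul_eq_mul_div, div_le_iff₀ (by linarith)]
      exact mul_le_mul_of_nonneg_left hbn hη0.le
    calc ‖(a0 : X) - x‖ = ‖((a0 : X) - (b : X)) + ((b : X) - x)‖ := by congr 1; abel
      _ ≤ ‖(a0 : X) - (b : X)‖ + ‖(b : X) - x‖ := norm_add_le _ _
      _ ≤ 2 * η := by linarith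
  -- the weights
  set g : Nd → ℝ := fun t => ∑ f ∈ F, |f (ev t : X)| with hg
  have hg0 : ∀ t, 0 ≤ g t := fun t => Finset.sum_nonneg fun f _ => abs_nonneg _
  have hgM : ∀ C : Finset Nd, CH C → ∑ t ∈ C, |g t| ≤ M := by
    intro C hC
    simp_rw [abs_of_nonneg (hg0 _), hg]
    rw [Finset.sum_comm, hM]
    exact Finset.sum_le_sum fun f _ => chain_le f C hC
  obtain ⟨L, δ, q, hδ, hqL, hq1, hqa⟩ := lemM g hg0 M hgM (fun t => a0.co t)
    (a0.supp.sup List.length + 1) (by
      intro t ht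
      by_contra h
      have := Finset.le_sup (f := List.length) ((mem_supp a0 t).2 h)
      omega) (fun A hA => (norm_le_iff a0 1).1 ha0n A hA) (ε / 4) (by positivity)
  obtain ⟨k, hk⟩ := exists_nat_one_div_lt (show (0 : ℝ) < δ / 4 by positivity)
  have hk0 : (0 : ℝ) < 1 / ((k : ℝ) + 1) := by positivity
  choose q' hq' using fun t => exists_rat_btwn (show q t < q t + 1 / ((k : ℝ) + 1) by linarith)
  set Q : Nd →₀ ℚ := Finsupp.onFinset (LEq L) (fun t => if t ∈ LEq L then q' t else 0) (by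
    intro t ht
    by_contra h
    simp [h] at ht) with hQ
  have hQt : ∀ t : Nd, t.length ≤ L → Q t = q' t := by
    intro t ht
    show (if t ∈ LEq L then q' t else 0) = q' t
    rw [if_pos (mem_LEq.2 ht)]
  refine ⟨L, k, Q, ?_, ?_⟩
  · -- nonempty
    set v : Fam := mk (LEq L) q with hv
    have hvt : ∀ t, v.co t = q t := by
      intro t
      rw [hv, co_mk]
      split_ifs with h
      · rfl
      · rw [mem_LEq, not_le] at h
        exact (hqL t h).symm
    refine ⟨⟨(v : X), ?_⟩, ?_⟩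
    · rw [mem_closedBall_zero_iff, Completion.norm_coe, norm_le_iff]
      intro A hA
      simp_rw [hvt]
      exact hq1 A hA
    · intro t ht
      show |cx t (v : X) - Q t| < _
      rw [cx_coe, hvt, hQt t ht, abs_sub_comm, abs_lt]
      have := hq' t
      constructor <;> linarith [this.1, this.2]
  · intro y hy f hf
    have hy1 : ‖y.1‖ ≤ 1 := mem_closedBall_zero_iff.1 y.2
    obtain ⟨a, ha⟩ := happ y.1 (min (δ / 4) (2 * η)) (by positivity)
    have had : ‖(a : X) - y.1‖ < δ / 4 := ha.trans_le (min_le_left _ _)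
    have haη : ‖(a : X) - y.1‖ ≤ 2 * η := (ha.trans_le (min_le_right _ _)).le
    have han : ‖a‖ ≤ 1 + δ := by
      rw [← Completion.norm_coe a]
      calc ‖(a : X)‖ = ‖y.1 + ((a : X) - y.1)‖ := by rw [add_sub_cancel]
        _ ≤ ‖y.1‖ + ‖(a : X) - y.1‖ := norm_add_le _ _
        _ ≤ 1 + δ := by linarith
    have hclose : ∀ t : Nd, t.length ≤ L → |a.co t - q t| < δ := by
      intro t ht
      have h1 : |a.co t - cx t y.1| < δ / 4 := by
        rw [← cx_coe, ← map_sub]
        exact (abs_cx_le t _).trans_lt had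
      have h2 : |cx t y.1 - q' t| < 1 / ((k : ℝ) + 1) := by
        have := hy t ht
        rwa [hQt t ht] at this
      have h3 : |(q' t : ℝ) - q t| < 1 / ((k : ℝ) + 1) := by
        rw [abs_lt]
        have := hq' t
        constructor <;> linarith [this.1, this.2]
      calc |a.co t - q t| = |(a.co t - cx t y.1) + ((cx t y.1 - q' t) + (q' t - q t))| := by
            congr 1; ring
        _ ≤ |a.co t - cx t y.1| + (|cx t y.1 - q' t| + |q' t - q t|) :=
            (abs_add_le _ _).trans (add_le_add le_rfl (abs_add_le _ _))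
        _ < δ := by linarith
    have h1 := hqa (fun t => a.co t) (fun A hA => (norm_le_iff a (1 + δ)).1 han A hA) hclose
      (a.supp ∪ a0.supp)
    have h2 : |f (a : X) - f (a0 : X)| ≤ ε / 4 := by
      refine le_trans ?_ h1
      rw [← map_sub, ← Completion.coe_sub]
      refine (abs_apply_le f (a - a0) (a.supp ∪ a0.supp) ?_).trans ?_
      · intro t ht
        by_contra h
        rw [Finset.mem_union, not_or, mem_supp, mem_supp, not_not, not_not] at h
        apply ht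
        rw [sub_eq_add_neg, co_add, co_neg, h.1, h.2]
        simp
      · refine Finset.sum_le_sum fun t _ => ?_
        rw [sub_eq_add_neg, co_add, co_neg, ← sub_eq_add_neg]
        refine mul_le_mul_of_nonneg_right ?_ (abs_nonneg _)
        exact Finset.single_le_sum (f := fun f : X →L[ℝ] ℝ => |f (ev t : X)|)
          (fun f _ => abs_nonneg _) hf
    have h3 := hMη' f hf _ _ haη
    have h4 := hMη' f hf _ _ ha0x
    calc |f y.1 - f x| = |(f (a : X) - f (a0 : X)) + ((f (a0 : X) - f x) - (f (a : X) - f y.1))| := by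
          congr 1; ring
      _ ≤ |f (a : X) - f (a0 : X)| + (|f (a0 : X) - f x| + |f (a : X) - f y.1|) :=
          (abs_add_le _ _).trans (add_le_add le_rfl (abs_sub _ _))
      _ < ε := by linarith

theorem main : ∃ 𝒰 : Set (Set (Metric.closedBall (0 : X) 1)), 𝒰.Countable ∧
    (∀ U ∈ 𝒰, U.Nonempty ∧ @IsOpen _ (ballWeak X) U) ∧
    ∀ W : Set (Metric.closedBall (0 : X) 1), @IsOpen _ (ballWeak X) W → W.Nonempty →
      ∃ U ∈ 𝒰, U ⊆ W := by
  refine ⟨{U | U.Nonempty ∧ ∃ (p : ℕ × ℕ × (Nd →₀ ℚ)), U = box p.1 p.2.1 p.2.2}, ?_, ?_, ?_⟩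
  · refine (Set.countable_range (fun p : ℕ × ℕ × (Nd →₀ ℚ) => box p.1 p.2.1 p.2.2)).mono ?_
    rintro U ⟨-, p, rfl⟩
    exact ⟨p, rfl⟩
  · rintro U ⟨h, p, rfl⟩
    exact ⟨h, isOpen_box _ _ _⟩
  · rintro W hW ⟨x, hx⟩
    obtain ⟨F, ε, hε, hF⟩ := exists_basic W hW x hx
    obtain ⟨L, k, q, hne, h⟩ := key x.1 (mem_closedBall_zero_iff.1 x.2) F ε hε
    exact ⟨box L k q, ⟨hne, (L, k, q), rfl⟩, fun y hy => hF y (h y hy)⟩

end Q100.ST
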