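import Pool.Agent.Q100.SeqDefs

/-!
# Absolutely continuous measures stay in the same iterated sequential closure
-/

set_option autoImplicit false
open Filter Topology MeasureTheory

noncomputable section

namespace Q100.SeqCl

universe u v

variable {K : Type u} [TopologicalSpace K] [CompactSpace K]

/-- The functional `h · μ`. -/
def hmul (h : C(K, ℝ)) (μ : MK K) : MK K := μ.comp (ContinuousLinearMap.mul ℝ C(K, ℝ) h)

@[simp] theorem hmul_apply (h : C(K, ℝ)) (μ : MK K) (f : C(K, ℝ)) : hmul h μ f = μ (h * f) := rfl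

/-- Positive functionals. -/
def Pos (μ : MK K) : Prop := ∀ f : C(K, ℝ), 0 ≤ f → 0 ≤ μ f

theorem pos_dirac (x : K) : Pos (dirac x) := fun f hf => hf x

theorem pos_coDelta {μ : MK K} (h : μ ∈ coDelta K) : Pos μ := by
  have hc : Convex ℝ {μ : MK K | Pos μ} := by
    intro a ha b hb s t hs ht _ f hf
    have h1 := mul_nonneg hs (ha f hf)
    have h2 := mul_nonneg ht (hb f hf)
    simpa using add_nonneg h1 h2
  have h1 : coDelta K ⊆ {μ : MK K | Pos μ} := by
    refine convexHull_min ?_ hc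
    rintro _ ⟨x, rfl⟩
    exact pos_dirac x
  exact h1 h

theorem pos_seqIter (α : Ordinal.{v}) : ∀ μ ∈ SeqIter (coDelta K) α, Pos μ := by
  induction α using Ordinal.limitRecOn with
  | zero =>
    intro μ hμ
    rw [seqIter_zero] at hμ
    exact pos_coDelta hμ
  | add_one α ih =>
    intro μ hμ
    rw [seqIter_add_one] at hμ
    obtain ⟨s, hs, hlim⟩ := hμ
    intro f hf
    exact ge_of_tendsto' (hlim f) (fun n => ih _ (hs n) f hf)
  | limit α hα ih =>
    intro μ hμ
    rw [seqIter_limit _ _ hα] at hμ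
    simp only [Set.mem_iUnion] at hμ
    obtain ⟨β, hβ, hμβ⟩ := hμ
    exact ih β hβ μ hμβ

theorem abs_apply_le {μ : MK K} (hμ : Pos μ) (f g : C(K, ℝ)) :
    |μ (f * g)| ≤ ‖g‖ * μ |f| := by
  have h1 : ∀ x, |f x * g x| ≤ ‖g‖ * |f x| := by
    intro x
    rw [abs_mul, mul_comm]
    exact mul_le_mul_of_nonneg_right (g.norm_coe_le_norm x) (abs_nonneg _)
  have h2 : 0 ≤ ‖g‖ • |f| - f * g := by
    intro x
    have := (abs_le.1 (h1 x)).2
    change (0 : ℝ) ≤ ‖g‖ * |f x| - f x * g x
    linarith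
  have h3 : 0 ≤ ‖g‖ • |f| + f * g := by
    intro x
    have := (abs_le.1 (h1 x)).1
    change (0 : ℝ) ≤ ‖g‖ * |f x| + f x * g x
    linarith
  have h4 := hμ _ h2
  have h5 := hμ _ h3
  rw [map_sub, map_smul, smul_eq_mul] at h4
  rw [map_add, map_smul, smul_eq_mul] at h5
  rw [abs_le]
  constructor <;> linarith

/-- Multiplication by a continuous function maps `Seq^α(co Δ)` to `Seq^α(lin Δ)`. -/
theorem hmul_mem (α : Ordinal.{v}) : ∀ μ ∈ SeqIter (coDelta K) α, ∀ h : C(K, ℝ),
    hmul h μ ∈ SeqIter (linDelta K) α := by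
  induction α using Ordinal.limitRecOn with
  | zero =>
    intro μ hμ h
    rw [seqIter_zero] at hμ ⊢
    have hc : Convex ℝ {μ : MK K | hmul h μ ∈ Submodule.span ℝ (Set.range (dirac (K := K)))} := by
      intro a ha b hb s t _ _ _
      have h1 : hmul h (s • a + t • b) = s • hmul h a + t • hmul h b := by
        ext f; simp
      change hmul h (s • a + t • b) ∈ Submodule.span ℝ (Set.range (dirac (K := K)))
      rw [h1]
      exact add_mem (Submodule.smul_mem _ _ ha) (Submodule.smul_mem _ _ hb)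
    have h1 : coDelta K ⊆ {μ : MK K | hmul h μ ∈
        Submodule.span ℝ (Set.range (dirac (K := K)))} := by
      refine convexHull_min ?_ hc
      rintro _ ⟨x, rfl⟩
      have h2 : hmul h (dirac x) = h x • dirac x := by
        ext f; simp [dirac]
      change hmul h (dirac x) ∈ Submodule.span ℝ (Set.range (dirac (K := K)))
      rw [h2]
      exact Submodule.smul_mem _ _ (Submodule.subset_span ⟨x, rfl⟩)
    exact h1 hμ
  | add_one α ih =>
    intro μ hμ h
    rw [seqIter_add_one] at hμ ⊢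
    obtain ⟨s, hs, hlim⟩ := hμ
    exact ⟨fun n => hmul h (s n), fun n => ih _ (hs n) h, fun f => hlim (h * f)⟩
  | limit α hα ih =>
    intro μ hμ h
    rw [seqIter_limit _ _ hα] at hμ ⊢
    simp only [Set.mem_iUnion] at hμ ⊢
    obtain ⟨β, hβ, hμβ⟩ := hμ
    exact ⟨β, hβ, ih β hβ μ hμβ h⟩

/-- The form in which absolute continuity is used. -/
def Approx (ν μ : MK K) : Prop := ∃ H : ℕ → C(K, ℝ),
    (∀ j f, |ν f - μ (H j * f)| ≤ ‖f‖ * (1 / 2) ^ j) ∧
    (∀ j, μ |H (j + 1) - H j| ≤ 2 * (1 / 2) ^ j)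

section Measure

variable [T2Space K] [MeasurableSpace K] [BorelSpace K]

theorem approx_of_absCont {ν μ : MK K} (h : AbsCont ν μ) : Approx ν μ := by
  obtain ⟨m, s, hm, hreg, hμ, hν, hac⟩ := h
  set p := s.toJordanDecomposition.posPart with hp
  set q := s.toJordanDecomposition.negPart with hq
  have hpac : p ≪ m := by
    refine Measure.AbsolutelyContinuous.mk (fun B hB hmB => ?_)
    have h1 := hac B hB hmB
    rw [SignedMeasure.totalVariation, Measure.add_apply] at h1
    exact (add_eq_zero.1 h1).1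
  have hqac : q ≪ m := by
    refine Measure.AbsolutelyContinuous.mk (fun B hB hmB => ?_)
    have h1 := hac B hB hmB
    rw [SignedMeasure.totalVariation, Measure.add_apply] at h1
    exact (add_eq_zero.1 h1).2
  let g : K → ℝ := fun x => (p.rnDeriv m x).toReal - (q.rnDeriv m x).toReal
  have hgp : Integrable (fun x => (p.rnDeriv m x).toReal) m := Measure.integrable_toReal_rnDeriv
  have hgq : Integrable (fun x => (q.rnDeriv m x).toReal) m := Measure.integrable_toReal_rnDeriv
  have hg : Integrable g m := hgp.sub hgq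
  have hbdd : ∀ (f : C(K, ℝ)) (φ : K → ℝ), Integrable φ m → Integrable (fun x => φ x * f x) m := by
    intro f φ hφ
    exact hφ.mul_bdd (c := ‖f‖) f.continuous.aestronglyMeasurable
      (Eventually.of_forall (fun x => f.norm_coe_le_norm x))
  have hνg : ∀ f : C(K, ℝ), ν f = ∫ x, g x * f x ∂m := by
    intro f
    rw [hν f, ← integral_toReal_rnDeriv_mul hpac, ← integral_toReal_rnDeriv_mul hqac,
      ← integral_sub (hbdd f _ hgp) (hbdd f _ hgq)]
    refine integral_congr_ae (Eventually.of_forall (fun x => ?_))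
    simp only [g]
    ring
  have happ : ∀ j : ℕ, ∃ H : C(K, ℝ), ∫ x, |g x - H x| ∂m ≤ (1 / 2) ^ (j + 1) := by
    intro j
    obtain ⟨H, hH, -⟩ := hg.exists_boundedContinuous_integral_sub_le
      (ε := (1 / 2) ^ (j + 1)) (by positivity)
    exact ⟨H.toContinuousMap, hH⟩
  choose H hH using happ
  have hHint : ∀ j, Integrable (fun x => H j x) m := fun j => by
    have := hbdd (H j) (fun _ => 1) (integrable_const _)
    simpa using this
  have hdint : ∀ j, Integrable (fun x => |g x - H j x|) m := fun j => (hg.sub (hHint j)).abs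
  refine ⟨H, fun j f => ?_, fun j => ?_⟩
  · rw [hνg f, hμ (H j * f)]
    have h1 : ∫ x, g x * f x ∂m - ∫ x, (H j * f) x ∂m = ∫ x, (g x - H j x) * f x ∂m := by
      have h2 : ∫ x, (H j * f) x ∂m = ∫ x, H j x * f x ∂m := rfl
      rw [h2, ← integral_sub (hbdd f _ hg) (hbdd f _ (hHint j))]
      refine integral_congr_ae (Eventually.of_forall (fun x => ?_))
      simp only
      ring
    rw [h1]
    calc |∫ x, (g x - H j x) * f x ∂m| ≤ ∫ x, |(g x - H j x) * f x| ∂m :=
          abs_integral_le_integral_abs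
      _ ≤ ∫ x, ‖f‖ * |g x - H j x| ∂m := by
          refine integral_mono (hbdd f _ (hg.sub (hHint j))).abs ((hdint j).const_mul _)
            (fun x => ?_)
          simp only
          rw [abs_mul, mul_comm]
          exact mul_le_mul_of_nonneg_right (f.norm_coe_le_norm x) (abs_nonneg _)
      _ = ‖f‖ * ∫ x, |g x - H j x| ∂m := integral_const_mul _ _
      _ ≤ ‖f‖ * (1 / 2) ^ j := by
          refine mul_le_mul_of_nonneg_left ((hH j).trans ?_) (norm_nonneg _)
          exact pow_le_pow_of_le_one (by norm_num) (by norm_num) (Nat.le_succ j)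
  · rw [hμ]
    calc ∫ x, |H (j + 1) - H j| x ∂m ≤ ∫ x, (|g x - H (j + 1) x| + |g x - H j x|) ∂m := by
          refine integral_mono ((hHint (j + 1)).sub (hHint j)).abs
            ((hdint (j + 1)).add (hdint j)) (fun x => ?_)
          simp only [ContinuousMap.abs_apply, ContinuousMap.coe_sub, Pi.sub_apply]
          have h1 : H (j + 1) x - H j x = (g x - H j x) - (g x - H (j + 1) x) := by ring
          rw [h1]
          exact (abs_sub _ _).trans (le_of_eq (add_comm _ _))
      _ = ∫ x, |g x - H (j + 1) x| ∂m + ∫ x, |g x - H j x| ∂m :=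
          integral_add (hdint (j + 1)) (hdint j)
      _ ≤ (1 / 2) ^ (j + 1 + 1) + (1 / 2) ^ (j + 1) := add_le_add (hH (j + 1)) (hH j)
      _ ≤ 2 * (1 / 2) ^ j := by
          have : (0 : ℝ) < (1 / 2) ^ j := by positivity
          rw [pow_succ, pow_succ]
          linarith

end Measure

/-- Telescoping estimate. -/
theorem tele {μ : MK K} (hμ : Pos μ) (H : ℕ → C(K, ℝ)) (m k : ℕ) (hmk : m ≤ k)
    (hb : ∀ j, j < k → μ |H (j + 1) - H j| ≤ 4 * (1 / 2) ^ j) (f : C(K, ℝ)) :
    |μ (H k * f) - μ (H m * f)| ≤ ‖f‖ * (8 * (1 / 2) ^ m - 8 * (1 / 2) ^ k) := by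
  induction k, hmk using Nat.le_induction with
  | base => simp
  | succ k hmk ih =>
    have h1 := ih (fun j hj => hb j (by omega))
    have h2 := hb k (Nat.lt_succ_self k)
    have h3 := abs_apply_le hμ (H (k + 1) - H k) f
    have h4 : μ (H (k + 1) * f) - μ (H m * f) =
      μ ((H (k + 1) - H k) * f) + (μ (H k * f) - μ (H m * f)) := by
      rw [sub_mul, map_sub]; ring
    rw [h4]
    refine (abs_add_le _ _).trans ?_
    have h5 : ‖f‖ * μ |H (k + 1) - H k| ≤ ‖f‖ * (4 * (1 / 2) ^ k) :=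
      mul_le_mul_of_nonneg_left h2 (norm_nonneg _)
    have h6 : (1 / 2 : ℝ) ^ k = 2 * (1 / 2) ^ (k + 1) := by rw [pow_succ]; ring
    calc _ ≤ ‖f‖ * (4 * (1 / 2) ^ k) + ‖f‖ * (8 * (1 / 2) ^ m - 8 * (1 / 2) ^ k) := by linarith
      _ = ‖f‖ * (8 * (1 / 2) ^ m - 8 * (1 / 2) ^ (k + 1)) := by rw [h6]; ring

/-- The key diagonal argument. -/
theorem succ_step {ν μ : MK K} (h : Approx ν μ) (s : ℕ → MK K) (hs : ∀ n, Pos (s n))
    (hlim : WeakStarTendsto s μ) :
    ∃ G : ℕ → C(K, ℝ), WeakStarTendsto (fun n => hmul (G n) (s n)) ν := by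
  classical
  obtain ⟨H, hH1, hH2⟩ := h
  let P : ℕ → ℕ → Prop := fun n k => ∀ j, j < k → s n |H (j + 1) - H j| ≤ 4 * (1 / 2) ^ j
  let k : ℕ → ℕ := fun n => Nat.findGreatest (P n) n
  have hk : ∀ n, P n (k n) := fun n => by
    refine Nat.findGreatest_spec (P := P n) (Nat.zero_le n) ?_
    intro j hj
    omega
  have hP : ∀ m, ∀ᶠ n in atTop, P n m := by
    intro m
    have h1 : ∀ j, ∀ᶠ n in atTop, s n |H (j + 1) - H j| ≤ 4 * (1 / 2) ^ j := by
      intro j
      have h2 : μ |H (j + 1) - H j| < 4 * (1 / 2) ^ j := by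
        refine (hH2 j).trans_lt ?_
        have : (0 : ℝ) < (1 / 2) ^ j := by positivity
        linarith
      filter_upwards [(hlim |H (j + 1) - H j|).eventually_lt_const h2] with n hn
      exact hn.le
    have h3 : ∀ᶠ n in atTop, ∀ j ∈ Finset.range m, s n |H (j + 1) - H j| ≤ 4 * (1 / 2) ^ j := by
      rw [Filter.eventually_all_finset]
      intro j _
      exact h1 j
    filter_upwards [h3] with n hn j hj
    exact hn j (Finset.mem_range.2 hj)
  have hktop : ∀ m, ∀ᶠ n in atTop, m ≤ k n := by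
    intro m
    filter_upwards [hP m, eventually_ge_atTop m] with n hn hmn
    exact Nat.le_findGreatest hmn hn
  refine ⟨fun n => H (k n), fun f => ?_⟩
  rw [Metric.tendsto_atTop]
  intro ε hε
  obtain ⟨m, hm⟩ : ∃ m : ℕ, (1 / 2 : ℝ) ^ m * (9 * (‖f‖ + 1)) < ε / 2 := by
    have h0 : (0 : ℝ) < 9 * (‖f‖ + 1) := by positivity
    obtain ⟨m, hm⟩ := exists_pow_lt_of_lt_one (div_pos (half_pos hε) h0)
      (show (1 : ℝ) / 2 < 1 by norm_num)
    exact ⟨m, by rwa [lt_div_iff₀ h0] at hm⟩
  have h1 : ∀ᶠ n in atTop, |s n (H m * f) - μ (H m * f)| < ε / 2 := by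
    have := Metric.tendsto_nhds.1 (hlim (H m * f)) (ε / 2) (by positivity)
    exact this
  obtain ⟨N, hN⟩ := eventually_atTop.1 (h1.and (hktop m))
  refine ⟨N, fun n hn => ?_⟩
  obtain ⟨h2, h3⟩ := hN n hn
  rw [Real.dist_eq, hmul_apply]
  have h4 := tele (hs n) H m (k n) h3 (hk n) f
  have h5 := hH1 m f
  have h6 : s n (H (k n) * f) - ν f = (s n (H (k n) * f) - s n (H m * f)) +
    (s n (H m * f) - μ (H m * f)) - (ν f - μ (H m * f)) := by ring
  rw [h6]
  refine (abs_sub _ _).trans_lt ?_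
  have h7 := abs_add_le (s n (H (k n) * f) - s n (H m * f)) (s n (H m * f) - μ (H m * f))
  have h8 : ‖f‖ * (8 * (1 / 2) ^ m - 8 * (1 / 2) ^ (k n)) + ‖f‖ * (1 / 2) ^ m ≤
      (1 / 2 : ℝ) ^ m * (9 * (‖f‖ + 1)) := by
    have h9 : (0 : ℝ) < (1 / 2) ^ m := by positivity
    have h10 : (0 : ℝ) < (1 / 2) ^ (k n) := by positivity
    have h11 := norm_nonneg f
    nlinarith [mul_nonneg h11 h10.le]
  linarith

/-- The case `α = 0`. -/
theorem zero_step {ν μ : MK K} (h : Approx ν μ) (hμ : μ ∈ coDelta K) : ν ∈ linDelta K := by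
  classical
  obtain ⟨H, hH1, -⟩ := h
  -- a finite set carrying `μ`
  have hfin : ∃ F : Finset K, μ ∈ Submodule.span ℝ ((F : Set K).image (dirac (K := K))) := by
    have h1 : μ ∈ Submodule.span ℝ (Set.range (dirac (K := K))) :=
      (convexHull_subset_affineSpan _).trans (affineSpan_subset_span) hμ
    obtain ⟨T, hT1, hT2⟩ := Submodule.mem_span_finite_of_mem_span h1
    have hex : ∀ t ∈ T, ∃ x, dirac (K := K) x = t := fun t ht => hT1 ht
    choose g hg using hex
    refine ⟨T.attach.image (fun t => g t.1 t.2), Submodule.span_mono ?_ hT2⟩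
    intro t ht
    exact ⟨g t ht, by simpa using ⟨t, ht, rfl⟩, hg t ht⟩
  obtain ⟨F, hF⟩ := hfin
  set S := Submodule.span ℝ ((F : Set K).image (dirac (K := K))) with hS
  have hmulS : ∀ (g : C(K, ℝ)), ∀ φ ∈ S, hmul g φ ∈ S := by
    intro g φ hφ
    induction hφ using Submodule.span_induction with
    | mem a ha =>
      obtain ⟨x, hx, rfl⟩ := ha
      have h2 : hmul g (dirac x) = g x • dirac x := by
        ext f; simp [dirac]
      rw [h2]
      exact Submodule.smul_mem _ _ (Submodule.subset_span ⟨x, hx, rfl⟩)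
    | zero =>
      have : hmul g (0 : MK K) = 0 := by ext f; simp
      rw [this]; exact zero_mem _
    | add a b _ _ ha hb =>
      have : hmul g (a + b) = hmul g a + hmul g b := by ext f; simp
      rw [this]; exact add_mem ha hb
    | smul c a _ ha =>
      have : hmul g (c • a) = c • hmul g a := by ext f; simp
      rw [this]; exact Submodule.smul_mem _ _ ha
  haveI : FiniteDimensional ℝ S :=
    FiniteDimensional.span_of_finite ℝ (F.finite_toSet.image _)
  have hclosed : IsClosed (S : Set (MK K)) := S.closed_of_finiteDimensional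
  have hlim : Tendsto (fun j => hmul (H j) μ) atTop (𝓝 ν) := by
    refine (tendsto_iff_norm_sub_tendsto_zero (E := MK K)).2 ?_
    refine squeeze_zero (fun j => ContinuousLinearMap.opNorm_nonneg (hmul (H j) μ - ν))
      (g := fun j : ℕ => (1 / 2 : ℝ) ^ j) (fun j => ?_)
      (tendsto_pow_atTop_nhds_zero_of_lt_one (by norm_num) (by norm_num))
    refine ContinuousLinearMap.opNorm_le_bound _ (by positivity) (fun f => ?_)
    rw [_root_.sub_apply, hmul_apply, norm_sub_rev]
    exact (hH1 j f).trans (le_of_eq (mul_comm _ _))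
  have h2 : ν ∈ S := hclosed.mem_of_tendsto hlim (Eventually.of_forall (fun j => hmulS _ _ hF))
  refine Submodule.span_mono ?_ h2
  rintro _ ⟨x, -, rfl⟩
  exact ⟨x, rfl⟩

theorem main_approx (α : Ordinal.{v}) : ∀ μ ∈ SeqIter (coDelta K) α, ∀ ν : MK K, Approx ν μ →
    ν ∈ SeqIter (linDelta K) α := by
  induction α using Ordinal.limitRecOn with
  | zero =>
    intro μ hμ ν h
    rw [seqIter_zero] at hμ ⊢
    exact zero_step h hμ
  | add_one α ih =>
    intro μ hμ ν h
    rw [seqIter_add_one] at hμ ⊢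
    obtain ⟨s, hs, hlim⟩ := hμ
    obtain ⟨G, hG⟩ := succ_step h s (fun n => pos_seqIter α _ (hs n)) hlim
    exact ⟨_, fun n => hmul_mem α _ (hs n) (G n), hG⟩
  | limit α hα ih =>
    intro μ hμ ν h
    rw [seqIter_limit _ _ hα] at hμ ⊢
    simp only [Set.mem_iUnion] at hμ ⊢
    obtain ⟨β, hβ, hμβ⟩ := hμ
    exact ⟨β, hβ, ih β hβ μ hμβ ν h⟩

end Q100.SeqCl
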