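import Pool.Agent.Q100.BL

/-!
# Sick compact spaces
-/

set_option autoImplicit false
open Filter Topology

namespace Q100.Sick

open Q100.BL

universe u v

/-- The principal ideal generated by `x ≥ 0` in a Banach lattice. -/
def principalIdeal {E : Type v} [NormedAddCommGroup E] [NormedSpace ℝ E] [Lattice E] (x : E) :
    Set E := {y | ∃ c : ℝ, 0 < c ∧ |y| ≤ c • x}

/-- `T` is a vector lattice isomorphism of `C(K)` onto the principal ideal `E_x`: it is linear,
injective, preserves the lattice operations and its range is `E_x`. -/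
structure IsVectorLatticeIso {K : Type u} [TopologicalSpace K] {E : Type v}
    [NormedAddCommGroup E] [NormedSpace ℝ E] [Lattice E] (x : E) (T : C(K, ℝ) →ₗ[ℝ] E) : Prop where
  map_sup : ∀ f g, T (f ⊔ g) = T f ⊔ T g
  map_inf : ∀ f g, T (f ⊓ g) = T f ⊓ T g
  injective : Function.Injective T
  range_eq : Set.range T = principalIdeal x

/-- Sick compact spaces: there are a separable Banach lattice `E`, an element `x ≥ 0` of `E` and a
vector lattice isomorphism of `C(K)` onto the principal ideal generated by `x`. -/
def SickSpace (K : Type u) [TopologicalSpace K] : Prop :=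
  ∃ (E : Type v) (_ : NormedAddCommGroup E) (_ : NormedSpace ℝ E) (_ : Lattice E)
    (_ : IsBanachLattice E) (_ : TopologicalSpace.SeparableSpace E) (x : E), 0 ≤ x ∧
    ∃ T : C(K, ℝ) →ₗ[ℝ] E, IsVectorLatticeIso x T

end Q100.Sick
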