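import Pool.Agent.Q100.SickDefs

/-!
# Sick compact spaces and the Stone space of the clopen algebra
-/

set_option autoImplicit false
open Filter Topology

namespace Q100.Sick

open Q100.BL TopologicalSpace

universe u v

/-- Sick spaces, in the form of the problem: there are a separable Banach lattice `E`, an element
`u ≥ 0` of `E` and an injective vector lattice homomorphism `T : C(K) → E` whose range is the
principal ideal `E_u` and with `T 1 = u`. -/
def Sick (K : Type u) [TopologicalSpace K] : Prop :=
  ∃ (E : Type v) (_ : NormedAddCommGroup E) (_ : NormedSpace ℝ E) (_ : Lattice E)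
    (_ : IsBanachLattice E) (_ : SeparableSpace E) (x : E), 0 ≤ x ∧
    ∃ T : C(K, ℝ) →ₗ[ℝ] E, IsVectorLatticeIso x T ∧ T 1 = x

/-- Ultrafilters of the Boolean algebra of clopen subsets. -/
structure IsUltra {K : Type u} [TopologicalSpace K] (U : Set (Clopens K)) : Prop where
  top_mem : ⊤ ∈ U
  bot_notMem : ⊥ ∉ U
  inf_mem : ∀ a ∈ U, ∀ b ∈ U, a ⊓ b ∈ U
  mono : ∀ a ∈ U, ∀ b, a ≤ b → b ∈ U
  compl : ∀ a : Clopens K, a ∈ U ∨ aᶜ ∈ U

/-- The Stone space of the algebra `Clop(K)`: its ultrafilters. -/
def StClop (K : Type u) [TopologicalSpace K] : Type u := {U : Set (Clopens K) // IsUltra U}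

/-- The topology generated by the sets `{U : a ∈ U}`. -/
instance (K : Type u) [TopologicalSpace K] : TopologicalSpace (StClop K) :=
  generateFrom (Set.range fun a : Clopens K => {U : StClop K | a ∈ U.1})

end Q100.Sick
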