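import Pool.Agent.Q100.Sick
import Pool.Agent.Q100.SickStDefs

/-!
# The Stone space of the clopen algebra of a sick compact space is sick
-/

set_option autoImplicit false
open Filter Topology

noncomputable section

namespace Q100.Sick

open Q100.BL TopologicalSpace

universe u v

section stone

variable {K : Type u} [TopologicalSpace K]

/-- The canonical map `K → St(Clop(K))`. -/
def toSt (x : K) : StClop K := ⟨{a | x ∈ a}, by
  refine ⟨Set.mem_univ x, fun h => h, fun a ha b hb => ⟨ha, hb⟩, fun a ha b hab => hab ha,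
    fun a => ?_⟩
  by_cases h : x ∈ a
  · exact Or.inl h
  · exact Or.inr h⟩

theorem mem_toSt (x : K) (a : Clopens K) : a ∈ (toSt x).1 ↔ x ∈ a := Iff.rfl

theorem isOpen_basic (a : Clopens K) : IsOpen {U : StClop K | a ∈ U.1} :=
  isOpen_generateFrom_of_mem ⟨a, rfl⟩

theorem compl_mem_iff (U : StClop K) (a : Clopens K) : aᶜ ∈ U.1 ↔ a ∉ U.1 := by
  constructor
  · intro h1 h2
    have h3 := U.2.inf_mem _ h2 _ h1
    rw [inf_compl_self] at h3
    exact U.2.bot_notMem h3
  · intro h
    exact (U.2.compl a).resolve_left h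

theorem isClosed_basic (a : Clopens K) : IsClosed {U : StClop K | a ∈ U.1} := by
  have h : {U : StClop K | a ∈ U.1}ᶜ = {U : StClop K | aᶜ ∈ U.1} := by
    ext U
    exact (compl_mem_iff U a).symm
  rw [← isOpen_compl_iff, h]
  exact isOpen_basic _

theorem continuous_toSt : Continuous (toSt : K → StClop K) := by
  rw [continuous_generateFrom_iff]
  rintro _ ⟨a, rfl⟩
  exact a.isClopen.2

theorem surjective_toSt [CompactSpace K] : Function.Surjective (toSt : K → StClop K) := by
  classical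
  intro U
  have h1 : (⋂ a : U.1, ((a : Clopens K) : Set K)).Nonempty := by
    refine CompactSpace.iInter_nonempty (fun a => a.1.isClopen.1) (fun s => ?_)
    have h2 : (s.inf (fun a => (a : Clopens K))) ∈ U.1 := by
      induction s using Finset.induction_on with
      | empty => exact U.2.top_mem
      | insert a s _ ih =>
        rw [Finset.inf_insert]
        exact U.2.inf_mem _ a.2 _ ih
    have h3 : ((s.inf (fun a => (a : Clopens K)) : Clopens K) : Set K).Nonempty := by
      by_contra hne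
      rw [Set.not_nonempty_iff_eq_empty] at hne
      have h4 : (s.inf (fun a => (a : Clopens K)) : Clopens K) = ⊥ := Clopens.ext hne
      rw [h4] at h2
      exact U.2.bot_notMem h2
    obtain ⟨x, hx⟩ := h3
    refine ⟨x, Set.mem_iInter₂.2 (fun a ha => ?_)⟩
    exact (Finset.inf_le (f := fun a : U.1 => (a : Clopens K)) ha : _ ≤ (a : Clopens K)) hx
  obtain ⟨x, hx⟩ := h1
  refine ⟨x, Subtype.ext (Set.ext fun a => ?_)⟩
  rw [mem_toSt]
  constructor
  · intro ha
    by_contra hna
    have h2 := (compl_mem_iff U a).2 hna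
    exact (Set.mem_iInter.1 hx ⟨aᶜ, h2⟩ : x ∈ ((aᶜ : Clopens K) : Set K)) ha
  · intro ha
    exact Set.mem_iInter.1 hx ⟨a, ha⟩

instance [CompactSpace K] : CompactSpace (StClop K) :=
  ⟨by
    rw [← (surjective_toSt (K := K)).range_eq]
    exact isCompact_range continuous_toSt⟩

instance : T2Space (StClop K) := by
  refine ⟨fun U V hUV => ?_⟩
  have h1 : ∃ a : Clopens K, a ∈ U.1 ∧ a ∉ V.1 := by
    by_contra hcon
    push Not at hcon
    refine hUV (Subtype.ext (Set.ext fun a => ⟨hcon a, fun ha => ?_⟩))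
    by_contra hna
    exact (compl_mem_iff V a).1 (hcon _ ((compl_mem_iff U a).2 hna)) ha
  obtain ⟨a, ha, ha'⟩ := h1
  refine ⟨_, _, isOpen_basic a, isOpen_basic aᶜ, ha, (compl_mem_iff V a).2 ha', ?_⟩
  rw [Set.disjoint_left]
  intro W hW hW'
  exact (compl_mem_iff W a).1 hW' hW

theorem isQuotientMap_toSt [CompactSpace K] : Topology.IsQuotientMap (toSt : K → StClop K) :=
  (continuous_toSt.isClosedMap).isQuotientMap continuous_toSt surjective_toSt

end stone

/-! ### Functions with finite range -/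

section simple

variable {K : Type u} [TopologicalSpace K]

/-- Continuous functions with finite range. -/
def fin (K : Type u) [TopologicalSpace K] : Subalgebra ℝ C(K, ℝ) where
  carrier := {s | (Set.range s).Finite}
  mul_mem' := by
    intro f g (hf : (Set.range f).Finite) (hg : (Set.range g).Finite)
    refine (Set.Finite.image2 (fun a b => a * b) hf hg).subset ?_
    rintro _ ⟨x, rfl⟩
    exact ⟨f x, ⟨x, rfl⟩, g x, ⟨x, rfl⟩, rfl⟩
  add_mem' := by
    intro f g (hf : (Set.range f).Finite) (hg : (Set.range g).Finite)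
    refine (Set.Finite.image2 (fun a b => a + b) hf hg).subset ?_
    rintro _ ⟨x, rfl⟩
    exact ⟨f x, ⟨x, rfl⟩, g x, ⟨x, rfl⟩, rfl⟩
  algebraMap_mem' := by
    intro r
    refine (Set.finite_singleton r).subset ?_
    rintro _ ⟨x, rfl⟩
    exact rfl

theorem mem_fin (f : C(K, ℝ)) : f ∈ fin K ↔ (Set.range f).Finite := Iff.rfl

theorem fin_sup {f g : C(K, ℝ)} (hf : f ∈ fin K) (hg : g ∈ fin K) : f ⊔ g ∈ fin K := by
  rw [mem_fin] at *
  refine (Set.Finite.image2 (fun a b => a ⊔ b) hf hg).subset ?_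
  rintro _ ⟨x, rfl⟩
  exact ⟨f x, ⟨x, rfl⟩, g x, ⟨x, rfl⟩, rfl⟩

theorem isClopen_preimage {f : C(K, ℝ)} (hf : f ∈ fin K) (S : Set ℝ) : IsClopen (f ⁻¹' S) := by
  have key : ∀ S : Set ℝ, IsClosed (f ⁻¹' S) := by
    intro S
    have h1 : f ⁻¹' S = f ⁻¹' (S ∩ Set.range f) := by
      ext x
      exact ⟨fun h => ⟨h, x, rfl⟩, fun h => h.1⟩
    rw [h1]
    exact (((mem_fin f).1 hf).subset Set.inter_subset_right).isClosed.preimage f.continuous
  refine ⟨key S, ?_⟩
  rw [← isClosed_compl_iff, ← Set.preimage_compl]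
  exact key _

/-- Indicator functions of clopen sets. -/
def ind (b : Set K) (hb : IsClopen b) : C(K, ℝ) :=
  ⟨b.indicator 1, (continuous_const).indicator (by
    intro a ha
    rw [hb.frontier_eq] at ha
    exact absurd ha (Set.notMem_empty a))⟩

theorem ind_of_mem {b : Set K} (hb : IsClopen b) {x : K} (hx : x ∈ b) : ind b hb x = 1 :=
  Set.indicator_of_mem hx _

theorem ind_of_notMem {b : Set K} (hb : IsClopen b) {x : K} (hx : x ∉ b) : ind b hb x = 0 :=
  Set.indicator_of_notMem hx _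

theorem ind_mem_fin (b : Set K) (hb : IsClopen b) : ind b hb ∈ fin K := by
  rw [mem_fin]
  refine (Set.toFinite ({0, 1} : Set ℝ)).subset ?_
  rintro _ ⟨x, rfl⟩
  by_cases hx : x ∈ b
  · rw [ind_of_mem hb hx]; simp
  · rw [ind_of_notMem hb hx]; simp

/-- The functions with finite range are dense in `C(St(Clop(K)))`. -/
theorem fin_dense [CompactSpace K] : (fin (StClop K)).topologicalClosure = ⊤ := by
  refine ContinuousMap.subalgebra_topologicalClosure_eq_top_of_separatesPoints _ ?_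
  intro U V hUV
  have h1 : ∃ a : Clopens K, a ∈ U.1 ∧ a ∉ V.1 := by
    by_contra hcon
    push Not at hcon
    refine hUV (Subtype.ext (Set.ext fun a => ⟨hcon a, fun ha => ?_⟩))
    by_contra hna
    exact (compl_mem_iff V a).1 (hcon _ ((compl_mem_iff U a).2 hna)) ha
  obtain ⟨a, ha, ha'⟩ := h1
  have hcl : IsClopen {W : StClop K | a ∈ W.1} := ⟨isClosed_basic a, isOpen_basic a⟩
  refine ⟨_, ⟨ind _ hcl, ind_mem_fin _ hcl, rfl⟩, ?_⟩
  have e1 : ind _ hcl U = 1 := ind_of_mem hcl ha
  have e2 : ind _ hcl V = 0 := ind_of_notMem hcl ha'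
  change ind _ hcl U ≠ ind _ hcl V
  rw [e1, e2]
  exact one_ne_zero

end simple

/-! ### Interpolation of clopen sets -/

section interp

variable {K : Type u} [TopologicalSpace K] [CompactSpace K]
  {E : Type v} [NormedAddCommGroup E] [NormedSpace ℝ E] [Lattice E] [IsBanachLattice E]
  {x : E} {T : C(K, ℝ) →ₗ[ℝ] E}

theorem interp (hT : IsVectorLatticeIso x T) (f : C(K, ℝ))
    (hf : T f ∈ closure (T '' (fin K : Set C(K, ℝ)))) (α β : ℝ) (hαβ : α < β) :
    ∃ b : Set K, IsClopen b ∧ (∀ t, β ≤ f t → t ∈ b) ∧ (∀ t, f t ≤ α → t ∉ b) := by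
  classical
  set γ : ℝ := β - α with hγ
  have hγ0 : 0 < γ := by rw [hγ]; linarith
  set m : ℝ := (α + β) / 2 with hm
  set p : ℕ → ℝ := fun k => m - γ / 8 * (2 - (1 / 2) ^ k) with hp
  set q : ℕ → ℝ := fun k => m + γ / 8 * (2 - (1 / 2) ^ k) with hq
  have hpw : ∀ k : ℕ, (0 : ℝ) < (1 / 2) ^ k ∧ ((1 : ℝ) / 2) ^ k ≤ 1 := fun k =>
    ⟨by positivity, pow_le_one₀ (by norm_num) (by norm_num)⟩
  have hpm : ∀ k, p k < m := fun k => by
    have h1 := hpw k
    have h2 : 0 < γ / 8 * (2 - (1 / 2) ^ k) := mul_pos (by positivity) (by linarith [h1.2])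
    show m - γ / 8 * (2 - (1 / 2) ^ k) < m
    linarith
  have hqm : ∀ k, m < q k := fun k => by
    have h1 := hpw k
    have h2 : 0 < γ / 8 * (2 - (1 / 2) ^ k) := mul_pos (by positivity) (by linarith [h1.2])
    show m < m + γ / 8 * (2 - (1 / 2) ^ k)
    linarith
  have hqs : ∀ k, q (k + 1) - q k = γ / 16 * (1 / 2) ^ k := fun k => by
    rw [hq]
    dsimp only
    rw [pow_succ]
    ring
  have hps : ∀ k, p k - p (k + 1) = γ / 16 * (1 / 2) ^ k := fun k => by
    rw [hp]
    dsimp only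
    rw [pow_succ]
    ring
  have hqb : ∀ k, q k ≤ m + γ / 4 := fun k => by
    have h1 := hpw k
    have h2 : 0 ≤ γ / 8 * (1 / 2) ^ k := by positivity
    show m + γ / 8 * (2 - (1 / 2) ^ k) ≤ m + γ / 4
    linarith
  have hpb : ∀ k, m - γ / 4 ≤ p k := fun k => by
    have h1 := hpw k
    have h2 : 0 ≤ γ / 8 * (1 / 2) ^ k := by positivity
    show m - γ / 4 ≤ m - γ / 8 * (2 - (1 / 2) ^ k)
    linarith
  -- the approximating functions
  have hs : ∀ k : ℕ, ∃ s ∈ fin K, dist (T f) (T s) < (1 / 4) ^ k := by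
    intro k
    obtain ⟨_, ⟨s, hs, rfl⟩, h⟩ := Metric.mem_closure_iff.1 hf ((1 / 4) ^ k) (by positivity)
    exact ⟨s, hs, h⟩
  choose s hs1 hs2 using hs
  have hslim : Tendsto (fun k => T (s k)) atTop (𝓝 (T f)) := by
    rw [tendsto_iff_dist_tendsto_zero]
    refine squeeze_zero (fun n => dist_nonneg) (fun n => ?_)
      (tendsto_pow_atTop_nhds_zero_of_lt_one (r := (1 / 4 : ℝ)) (by norm_num) (by norm_num))
    rw [dist_comm]
    exact (hs2 n).le
  have hsdiff : ∀ k, ‖T (s (k + 1) - s k)‖ ≤ 2 * (1 / 4) ^ k := by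
    intro k
    rw [map_sub, ← dist_eq_norm]
    have h1 := dist_triangle_left (T (s (k + 1))) (T (s k)) (T f)
    have h2 := hs2 k
    have h3 := hs2 (k + 1)
    have h4 : ((1 : ℝ) / 4) ^ (k + 1) ≤ (1 / 4) ^ k := by
      rw [pow_succ]
      have : (0 : ℝ) < (1 / 4) ^ k := by positivity
      linarith
    linarith
  -- the clopen sets
  let B : ℕ → {b : Set K // IsClopen b} := fun k => Nat.rec
    ⟨s 0 ⁻¹' Set.Ici (q 0), isClopen_preimage (hs1 0) _⟩
    (fun k b => ⟨(b.1 ∪ s (k + 1) ⁻¹' Set.Ici (q (k + 1))) \ s (k + 1) ⁻¹' Set.Iic (p (k + 1)),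
      (b.2.union (isClopen_preimage (hs1 (k + 1)) _)).diff (isClopen_preimage (hs1 (k + 1)) _)⟩) k
  have hB0 : (B 0).1 = s 0 ⁻¹' Set.Ici (q 0) := rfl
  have hBs : ∀ k, (B (k + 1)).1 =
      ((B k).1 ∪ s (k + 1) ⁻¹' Set.Ici (q (k + 1))) \ s (k + 1) ⁻¹' Set.Iic (p (k + 1)) :=
    fun k => rfl
  have hBq : ∀ k t, q k ≤ s k t → t ∈ (B k).1 := by
    intro k t ht
    cases k with
    | zero => rw [hB0]; exact ht
    | succ k =>
      rw [hBs]
      refine ⟨Or.inr ht, fun h => ?_⟩
      have h1 : s (k + 1) t ≤ p (k + 1) := h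
      have h2 := hpm (k + 1)
      have h3 := hqm (k + 1)
      linarith
  have hBp : ∀ k t, s k t ≤ p k → t ∉ (B k).1 := by
    intro k t ht hB
    cases k with
    | zero =>
      rw [hB0] at hB
      have h1 : q 0 ≤ s 0 t := hB
      have h2 := hpm 0
      have h3 := hqm 0
      linarith
    | succ k =>
      rw [hBs] at hB
      exact hB.2 ht
  -- the indicator functions form a Cauchy sequence
  let χ : ℕ → C(K, ℝ) := fun k => ind (B k).1 (B k).2
  have hχ1 : ∀ k t, t ∈ (B k).1 → χ k t = 1 := fun k t ht => ind_of_mem (B k).2 ht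
  have hχ0 : ∀ k t, t ∉ (B k).1 → χ k t = 0 := fun k t ht => ind_of_notMem (B k).2 ht
  have hχdiff : ∀ k t, |χ k t - χ (k + 1) t| * (γ / 16 * (1 / 2) ^ k) ≤
      |s (k + 1) t - s k t| := by
    intro k t
    have hd : 0 < γ / 16 * (1 / 2) ^ k := by positivity
    by_cases h1 : t ∈ (B k).1 <;> by_cases h2 : t ∈ (B (k + 1)).1
    · rw [hχ1 k t h1, hχ1 (k + 1) t h2, sub_self, abs_zero, zero_mul]
      exact abs_nonneg _
    · rw [hχ1 k t h1, hχ0 (k + 1) t h2, sub_zero, abs_one, one_mul]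
      have h3 : s (k + 1) t ≤ p (k + 1) := by
        by_contra h3
        exact h2 (by rw [hBs]; exact ⟨Or.inl h1, h3⟩)
      have h4 : p k < s k t := by
        by_contra h4
        exact hBp k t (not_lt.1 h4) h1
      rw [abs_sub_comm]
      refine le_trans ?_ (le_abs_self _)
      have := hps k
      linarith
    · rw [hχ0 k t h1, hχ1 (k + 1) t h2, zero_sub, abs_neg, abs_one, one_mul]
      have h3 : q (k + 1) ≤ s (k + 1) t := by
        rw [hBs] at h2
        exact h2.1.resolve_left h1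
      have h4 : s k t < q k := by
        by_contra h4
        exact h1 (hBq k t (not_lt.1 h4))
      refine le_trans ?_ (le_abs_self _)
      have := hqs k
      linarith
    · rw [hχ0 k t h1, hχ0 (k + 1) t h2, sub_self, abs_zero, zero_mul]
      exact abs_nonneg _
  have hcau : CauchySeq (fun k => T (χ k)) := by
    refine cauchySeq_of_le_geometric (1 / 2) (32 / γ) (by norm_num) (fun k => ?_)
    rw [dist_eq_norm, ← map_sub]
    have hd : 0 < γ / 16 * (1 / 2) ^ k := by positivity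
    have h1 : ‖T ((γ / 16 * (1 / 2) ^ k) • (χ k - χ (k + 1)))‖ ≤ ‖T (s (k + 1) - s k)‖ := by
      refine norm_mono hT ?_
      intro t
      change |γ / 16 * (1 / 2) ^ k * (χ k t - χ (k + 1) t)| ≤ |s (k + 1) t - s k t|
      rw [abs_mul, abs_of_pos hd, mul_comm]
      exact hχdiff k t
    rw [map_smul, norm_smul, Real.norm_eq_abs, abs_of_pos hd] at h1
    have h2 := h1.trans (hsdiff k)
    rw [← le_div_iff₀' hd] at h2
    refine h2.trans (le_of_eq ?_)
    have h3 : ((1 : ℝ) / 4) ^ k = (1 / 2) ^ k * (1 / 2) ^ k := by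
      rw [← mul_pow]; norm_num
    rw [h3]
    have h4 : ((1 : ℝ) / 2) ^ k ≠ 0 := by positivity
    field_simp
    norm_num
  have hχb : ∀ k, |χ k| ≤ 1 := by
    intro k t
    change |χ k t| ≤ 1
    by_cases h : t ∈ (B k).1
    · rw [hχ1 k t h, abs_one]
    · rw [hχ0 k t h, abs_zero]; exact zero_le_one
  obtain ⟨g, hg⟩ := exists_limit hT χ hχb hcau
  -- a general limit argument
  have hlim : ∀ (a b : ℕ → C(K, ℝ)) (a' b' : C(K, ℝ)),
      Tendsto (fun k => T (a k)) atTop (𝓝 (T a')) → Tendsto (fun k => T (b k)) atTop (𝓝 (T b')) →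
      (∀ k, a k ⊓ b k = 0) → a' ⊓ b' = 0 := by
    intro a b a' b' ha hb hab
    have h1 : Tendsto (fun k => T (a k) ⊓ T (b k)) atTop (𝓝 (T a' ⊓ T b')) := ha.inf_nhds hb
    have h2 : (fun k => T (a k) ⊓ T (b k)) = fun _ => (0 : E) := by
      funext k
      rw [← hT.map_inf, hab k, map_zero]
    rw [h2] at h1
    have h3 : T a' ⊓ T b' = 0 := tendsto_nhds_unique h1 tendsto_const_nhds
    rw [← hT.map_inf] at h3
    exact hT.injective (h3.trans (map_zero T).symm)
  have hone : Tendsto (fun k => T (1 - χ k)) atTop (𝓝 (T (1 - g))) := by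
    simp_rw [map_sub]
    exact tendsto_const_nhds.sub hg
  have hg01 : ∀ t, g t = 0 ∨ g t = 1 := by
    have h1 := hlim χ (fun k => 1 - χ k) g (1 - g) hg hone (fun k => by
      ext t
      change min (χ k t) (1 - χ k t) = 0
      by_cases h : t ∈ (B k).1
      · rw [hχ1 k t h]; norm_num
      · rw [hχ0 k t h]; norm_num)
    intro t
    have h2 : min (g t) (1 - g t) = 0 := congrArg (fun h : C(K, ℝ) => h t) h1
    rcases min_choice (g t) (1 - g t) with h | h
    · left; rw [← h, h2]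
    · right
      rw [h] at h2
      linarith
  -- upper part
  have hup : ((f - algebraMap ℝ C(K, ℝ) (m + γ / 4)) ⊔ 0) ⊓ (1 - g) = 0 := by
    refine hlim (fun k => (s k - algebraMap ℝ C(K, ℝ) (m + γ / 4)) ⊔ 0) (fun k => 1 - χ k) _ _
      ?_ hone (fun k => ?_)
    · simp_rw [hT.map_sup, map_sub]
      exact (hslim.sub tendsto_const_nhds).sup_nhds tendsto_const_nhds
    · ext t
      change min (max (s k t - (m + γ / 4)) 0) (1 - χ k t) = 0
      by_cases h : t ∈ (B k).1
      · rw [hχ1 k t h, sub_self, min_eq_right (le_max_right _ _)]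
      · have h1 : s k t < q k := by
          by_contra h1
          exact h (hBq k t (not_lt.1 h1))
        have h2 := hqb k
        rw [hχ0 k t h, max_eq_right (by linarith), sub_zero, min_eq_left zero_le_one]
  have hdown : ((algebraMap ℝ C(K, ℝ) (m - γ / 4) - f) ⊔ 0) ⊓ g = 0 := by
    refine hlim (fun k => (algebraMap ℝ C(K, ℝ) (m - γ / 4) - s k) ⊔ 0) χ _ _
      ?_ hg (fun k => ?_)
    · simp_rw [hT.map_sup, map_sub]
      exact (tendsto_const_nhds.sub hslim).sup_nhds tendsto_const_nhds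
    · ext t
      change min (max ((m - γ / 4) - s k t) 0) (χ k t) = 0
      by_cases h : t ∈ (B k).1
      · have h1 : p k < s k t := by
          by_contra h1
          exact hBp k t (not_lt.1 h1) h
        have h2 := hpb k
        rw [hχ1 k t h, max_eq_right (by linarith), min_eq_left zero_le_one]
      · rw [hχ0 k t h, min_eq_right (le_max_right _ _)]
  have hclop : IsClopen (g ⁻¹' {1}) := by
    refine isClopen_preimage (f := g) ?_ _
    rw [mem_fin]
    refine (Set.toFinite ({0, 1} : Set ℝ)).subset ?_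
    rintro _ ⟨t, rfl⟩
    rcases hg01 t with h | h <;> rw [h] <;> simp
  refine ⟨g ⁻¹' {1}, hclop, fun t ht => ?_, fun t ht h1 => ?_⟩
  · show g t = 1
    rcases hg01 t with h | h
    · exfalso
      have h2 : min (max (f t - (m + γ / 4)) 0) (1 - g t) = 0 :=
        congrArg (fun h : C(K, ℝ) => h t) hup
      rw [h, sub_zero] at h2
      have h3 : 0 < f t - (m + γ / 4) := by
        rw [hm, hγ]
        linarith
      rw [max_eq_left h3.le] at h2
      rcases min_choice (f t - (m + γ / 4)) 1 with h4 | h4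
      · rw [h4] at h2; linarith
      · rw [h4] at h2; exact one_ne_zero h2
    · exact h
  · have h1' : g t = 1 := h1
    have h2 : min (max ((m - γ / 4) - f t) 0) (g t) = 0 :=
      congrArg (fun h : C(K, ℝ) => h t) hdown
    rw [h1'] at h2
    have h3 : 0 < (m - γ / 4) - f t := by
      rw [hm, hγ]
      linarith
    rw [max_eq_left h3.le] at h2
    rcases min_choice ((m - γ / 4) - f t) 1 with h4 | h4
    · rw [h4] at h2; linarith
    · rw [h4] at h2; exact one_ne_zero h2

/-- The closed sublattice generated by the components of the unit. -/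
def SF (T : C(K, ℝ) →ₗ[ℝ] E) : Submodule ℝ E :=
  (Submodule.map T (Subalgebra.toSubmodule (fin K))).topologicalClosure

theorem mem_SF {y : E} : y ∈ SF T ↔ y ∈ closure (T '' (fin K : Set C(K, ℝ))) := Iff.rfl

theorem T_mem_SF {f : C(K, ℝ)} (hf : f ∈ fin K) : T f ∈ SF T :=
  mem_SF.2 (subset_closure ⟨f, hf, rfl⟩)

theorem SF_sup (hT : IsVectorLatticeIso x T) {y z : E} (hy : y ∈ SF T) (hz : z ∈ SF T) :
    y ⊔ z ∈ SF T := by
  rw [mem_SF] at *
  have h1 : ((y, z) : E × E) ∈
      closure ((T '' (fin K : Set C(K, ℝ))) ×ˢ (T '' (fin K : Set C(K, ℝ)))) := by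
    rw [closure_prod_eq]
    exact ⟨hy, hz⟩
  refine map_mem_closure (f := fun p : E × E => p.1 ⊔ p.2) continuous_sup h1 ?_
  rintro ⟨_, _⟩ ⟨⟨s, hs, rfl⟩, ⟨t, ht, rfl⟩⟩
  exact ⟨s ⊔ t, fin_sup hs ht, hT.map_sup s t⟩

theorem SF_inf (hT : IsVectorLatticeIso x T) {y z : E} (hy : y ∈ SF T) (hz : z ∈ SF T) :
    y ⊓ z ∈ SF T := by
  have h : y ⊓ z = -(-y ⊔ -z) := by rw [neg_sup, neg_neg, neg_neg]
  rw [h]
  exact (SF T).neg_mem (SF_sup hT ((SF T).neg_mem hy) ((SF T).neg_mem hz))

/-- The order of `SF T`. -/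
@[instance_reducible]
def latSF (hT : IsVectorLatticeIso x T) : Lattice (SF T) :=
  Subtype.lattice (fun _ _ hy hz => SF_sup hT hy hz) (fun _ _ hy hz => SF_inf hT hy hz)

theorem banSF (hT : IsVectorLatticeIso x T) :
    letI := latSF hT
    IsBanachLattice (SF T) := by
  letI := latSF hT
  exact
    { add_le_add_left' := fun a b (h : (a : E) ≤ b) c =>
        show (c : E) + a ≤ (c : E) + b from add_le_add_right h _
      smul_nonneg' := fun r a hr (ha : (0 : E) ≤ a) =>
        show (0 : E) ≤ r • (a : E) from IsBanachLattice.smul_nonneg' r (a : E) hr ha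
      solid' := fun a b h => by
        have h1 : |(a : E)| ≤ |(b : E)| := h
        have h2 : ‖(a : E)‖ ≤ ‖(b : E)‖ := HasSolidNorm.solid h1
        exact h2
      complete' := (Submodule.isClosed_topologicalClosure _).completeSpace_coe }

theorem comp_mem (hT : IsVectorLatticeIso x T) (h : C(StClop K, ℝ)) :
    T (h.comp ⟨toSt, continuous_toSt⟩) ∈ SF T := by
  rw [mem_SF]
  have h1 : h ∈ (fin (StClop K)).topologicalClosure := by
    rw [fin_dense]
    exact Algebra.mem_top
  have h2 : h ∈ closure ((fin (StClop K) : Subalgebra ℝ C(StClop K, ℝ)) : Set C(StClop K, ℝ)) := h1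
  rw [Metric.mem_closure_iff] at h2 ⊢
  intro ε hε
  have hpos : 0 < ‖T 1‖ + 1 := by positivity
  obtain ⟨s, hs, hs'⟩ := h2 (ε / (‖T 1‖ + 1)) (by positivity)
  refine ⟨_, ⟨s.comp ⟨toSt, continuous_toSt⟩, ?_, rfl⟩, ?_⟩
  · show (Set.range _).Finite
    refine ((mem_fin s).1 hs).subset ?_
    rintro _ ⟨t, rfl⟩
    exact ⟨toSt t, rfl⟩
  · rw [dist_eq_norm, ← map_sub]
    have h3 := norm_le hT (h.comp ⟨toSt, continuous_toSt⟩ - s.comp ⟨toSt, continuous_toSt⟩)
    have h4 : ‖h.comp ⟨toSt, continuous_toSt⟩ - s.comp ⟨toSt, continuous_toSt⟩‖ ≤ ‖h - s‖ := by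
      rw [ContinuousMap.norm_le _ (norm_nonneg _)]
      intro t
      exact (h - s).norm_coe_le_norm (toSt t)
    rw [dist_eq_norm] at hs'
    have h5 : ‖T 1‖ * ‖h - s‖ ≤ (‖T 1‖ + 1) * ‖h - s‖ := by
      have := norm_nonneg (h - s)
      linarith
    have h6 : (‖T 1‖ + 1) * ‖h - s‖ < ε := by
      rwa [lt_div_iff₀' hpos] at hs'
    calc ‖T (h.comp ⟨toSt, continuous_toSt⟩ - s.comp ⟨toSt, continuous_toSt⟩)‖
        ≤ ‖T 1‖ * ‖h.comp ⟨toSt, continuous_toSt⟩ - s.comp ⟨toSt, continuous_toSt⟩‖ := h3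
      _ ≤ ‖T 1‖ * ‖h - s‖ := mul_le_mul_of_nonneg_left h4 (norm_nonneg _)
      _ ≤ (‖T 1‖ + 1) * ‖h - s‖ := h5
      _ < ε := h6

theorem exists_comp (hT : IsVectorLatticeIso x T) (f : C(K, ℝ)) (hf : T f ∈ SF T) :
    ∃ h : C(StClop K, ℝ), f = h.comp ⟨toSt, continuous_toSt⟩ := by
  have h1 : ∀ s t : K, toSt s = toSt t → f s = f t := by
    have key : ∀ s t : K, f s < f t → toSt s ≠ toSt t := by
      intro s t hst heq
      obtain ⟨b, hb, h1, h2⟩ := interp hT f (mem_SF.1 hf) (f s) (f t) hst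
      have h3 : (⟨b, hb⟩ : Clopens K) ∈ (toSt t).1 := h1 t le_rfl
      rw [← heq] at h3
      exact h2 s le_rfl h3
    intro s t hst
    rcases lt_trichotomy (f s) (f t) with h | h | h
    · exact absurd hst (key s t h)
    · exact h
    · exact absurd hst.symm (key t s h)
  choose r hr using surjective_toSt (K := K)
  have h2 : ∀ t, f (r (toSt t)) = f t := fun t => h1 _ _ (hr (toSt t))
  have hc : Continuous (fun U => f (r U)) := by
    rw [isQuotientMap_toSt.continuous_iff]
    exact f.continuous.congr (fun t => (h2 t).symm)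
  refine ⟨⟨fun U => f (r U), hc⟩, ?_⟩
  ext t
  exact (h2 t).symm

end interp

/-- Main theorem. -/
theorem sick_stClop {K : Type u} [TopologicalSpace K] [CompactSpace K]
    (hK : Sick.{u, v} K) : Sick.{u, v} (StClop K) := by
  obtain ⟨E, _, _, _, _, _, x, hx, T, hT, hT1⟩ := hK
  letI := latSF hT
  have hban : IsBanachLattice (SF T) := banSF hT
  have hone : (1 : C(K, ℝ)) ∈ fin K := (fin K).one_mem
  let T' : C(StClop K, ℝ) →ₗ[ℝ] SF T :=
    { toFun := fun h => ⟨T (h.comp ⟨toSt, continuous_toSt⟩), comp_mem hT h⟩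
      map_add' := fun g h => Subtype.ext (by
        show T ((g + h).comp _) = T (g.comp _) + T (h.comp _)
        rw [← map_add]
        rfl)
      map_smul' := fun c h => Subtype.ext (by
        show T ((c • h).comp _) = c • T (h.comp _)
        rw [← map_smul]
        rfl) }
  have hT'1 : T' 1 = ⟨x, hT1 ▸ T_mem_SF hone⟩ := Subtype.ext hT1
  refine ⟨SF T, inferInstance, inferInstance, inferInstance, hban, ?_,
    ⟨x, hT1 ▸ T_mem_SF hone⟩, hx, T', ⟨?_, ?_, ?_, ?_⟩, hT'1⟩
  · have : SecondCountableTopology E := UniformSpace.secondCountable_of_separable E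
    infer_instance
  · intro g h
    exact Subtype.ext (hT.map_sup (g.comp ⟨toSt, continuous_toSt⟩) (h.comp ⟨toSt, continuous_toSt⟩))
  · intro g h
    exact Subtype.ext (hT.map_inf (g.comp ⟨toSt, continuous_toSt⟩) (h.comp ⟨toSt, continuous_toSt⟩))
  · intro g h hgh
    have h1 : T (g.comp ⟨toSt, continuous_toSt⟩) = T (h.comp ⟨toSt, continuous_toSt⟩) :=
      congrArg Subtype.val hgh
    have h2 := hT.injective h1
    ext U
    obtain ⟨t, rfl⟩ := surjective_toSt U
    exact congrArg (fun F : C(K, ℝ) => F t) h2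
  · ext ⟨y, hy⟩
    constructor
    · rintro ⟨h, hh⟩
      have h1 : T (h.comp ⟨toSt, continuous_toSt⟩) = y := congrArg Subtype.val hh
      have h2 : y ∈ principalIdeal x := by
        rw [← hT.range_eq]
        exact ⟨_, h1⟩
      obtain ⟨c, hc, h3⟩ := h2
      exact ⟨c, hc, h3⟩
    · rintro ⟨c, hc, h3⟩
      have h2 : y ∈ principalIdeal x := ⟨c, hc, h3⟩
      rw [← hT.range_eq] at h2
      obtain ⟨f, rfl⟩ := h2
      obtain ⟨h, rfl⟩ := exists_comp hT f hy
      exact ⟨h, rfl⟩

end Q100.Sick
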