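import Mathlib

/-!
# Double cone functions
-/

set_option autoImplicit false

open Filter Topology

noncomputable section

namespace Q100.Sna

universe u

variable {M : Type u} [MetricSpace M]

/-- The cone function. -/
def cone (D ν : ℝ) (u z : M) : ℝ := max (D / 2 - ν * dist u z) 0

theorem cone_nonneg (D ν : ℝ) (u z : M) : 0 ≤ cone D ν u z := le_max_right _ _

theorem cone_lip {D ν : ℝ} (hν : 0 ≤ ν) (u x y : M) :
    cone D ν u x - cone D ν u y ≤ ν * dist x y := by
  unfold cone
  have h1 : dist u y ≤ dist u x + dist x y := dist_triangle _ _ _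
  have h2 : 0 ≤ ν * dist x y := mul_nonneg hν dist_nonneg
  have h3 : ν * dist u y ≤ ν * dist u x + ν * dist x y := by
    rw [← mul_add]; exact mul_le_mul_of_nonneg_left h1 hν
  rcases le_total (D / 2 - ν * dist u x) 0 with h | h
  · rw [max_eq_right h]
    have := le_max_right (D / 2 - ν * dist u y) 0
    linarith
  · rw [max_eq_left h]
    have := le_max_left (D / 2 - ν * dist u y) 0
    linarith

/-- The gap property. -/
structure Gap (u v : M) (μ τ : ℝ) : Prop where
  left : ∀ z, dist u z ≤ 2 * dist u v / 3 → dist u v - μ * dist u z - τ ≤ dist z v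
  right : ∀ z, dist v z ≤ 2 * dist u v / 3 → dist u v - μ * dist v z - τ ≤ dist u z

/-- The double cone function. -/
def psi (ν : ℝ) (u v z : M) : ℝ := cone (dist u v) ν u z - cone (dist u v) ν v z

/-- The double cone lemma. -/
theorem psi_main {u v : M} {μ τ ς : ℝ} (hD : 0 < dist u v) (hς : 0 < ς) (hς4 : ς ≤ 1 / 4)
    (hμ : μ = 1 - 4 * ς) (hτ0 : 0 ≤ τ) (hτ : τ ≤ ς * dist u v / 2) (hG : Gap u v μ τ) :
    psi (1 - ς) u v u - psi (1 - ς) u v v = dist u v ∧
    (∀ x y, |psi (1 - ς) u v x - psi (1 - ς) u v y| ≤ 2 * dist x y) ∧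
    ∀ x y, (psi (1 - ς) u v x - psi (1 - ς) u v y ≤ (1 - ς) * dist x y) ∨
      (psi (1 - ς) u v x - psi (1 - ς) u v y ≤ dist x y + τ - ς * (dist u x + dist v y) ∧
        dist x y ≤ 3 * dist u v) := by
  set D := dist u v with hDdef
  set ν := 1 - ς with hν
  have hν0 : 3 / 4 ≤ ν := by linarith
  have hν1 : ν < 1 := by linarith
  have hμ0 : 0 ≤ μ := by linarith
  -- support
  have supp : ∀ (w z : M), 0 < cone D ν w z → ν * dist w z < D / 2 := by
    intro w z h
    unfold cone at h
    rcases lt_max_iff.1 h with h | h
    · linarith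
    · exact absurd h (lt_irrefl _)
  have supp3 : ∀ (w z : M), 0 < cone D ν w z → dist w z ≤ 2 * D / 3 := by
    intro w z h
    have h1 := supp w z h
    have h2 : 3 / 4 * dist w z ≤ ν * dist w z := mul_le_mul_of_nonneg_right hν0 dist_nonneg
    linarith
  have czero : ∀ (w z : M), ¬ 0 < cone D ν w z → cone D ν w z = 0 := fun w z h =>
    le_antisymm (not_lt.1 h) (cone_nonneg _ _ _ _)
  have cval : ∀ (w z : M), 0 < cone D ν w z → cone D ν w z = D / 2 - ν * dist w z := by
    intro w z h
    unfold cone
    rw [max_eq_left]
    have := supp w z h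
    linarith
  -- disjoint supports
  have disj : ∀ z, 0 < cone D ν u z → 0 < cone D ν v z → False := by
    intro z h1 h2
    have h3 := hG.left z (supp3 u z h1)
    have h4 := supp u z h1
    have h5 := supp v z h2
    rw [dist_comm z v] at h3
    -- D - μ a - τ ≤ b, ν a < D/2, ν b < D/2
    have h6 : ν * (D - μ * dist u z - τ) ≤ ν * dist v z := mul_le_mul_of_nonneg_left h3 (by linarith)
    have h7 : μ * (ν * dist u z) ≤ μ * (D / 2) := mul_le_mul_of_nonneg_left h4.le hμ0
    have h8 : ν * (D - τ) < D / 2 + μ * (D / 2) := by nlinarith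
    have h9 : ν * τ ≤ 1 * τ := mul_le_mul_of_nonneg_right hν1.le hτ0
    -- (1 - ς) D - τ < (1 + 1 - 4 ς) D / 2 = (1 - 2 ς) D
    have h10 : (1 - ς) * D - τ < (1 - 2 * ς) * D := by
      rw [hμ] at h8
      rw [hν] at h8 h9
      nlinarith
    have h11 : ς * D < τ := by linarith
    have h12 : 0 < ς * D := mul_pos hς hD
    linarith
  -- distance
  have dst : ∀ x y, 0 < cone D ν u x → 0 < cone D ν v y →
      D - (1 - 2 * ς) * (dist u x + dist v y) - τ ≤ dist x y := by
    intro x y hx hy
    have h1 := hG.left x (supp3 u x hx)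
    have h2 := hG.right y (supp3 v y hy)
    have h3 : dist x v ≤ dist x y + dist v y := by
      rw [dist_comm v y]; exact dist_triangle _ _ _
    have h4 : dist u y ≤ dist u x + dist x y := dist_triangle _ _ _
    rw [hμ] at h1 h2
    nlinarith
  have main : ∀ x y, (psi ν u v x - psi ν u v y ≤ ν * dist x y) ∨
      (psi ν u v x - psi ν u v y ≤ dist x y + τ - ς * (dist u x + dist v y) ∧
        dist x y ≤ 3 * D ∧ ς * D / 2 ≤ dist x y) := by
    intro x y
    unfold psi
    rw [← hDdef]
    by_cases hx : 0 < cone D ν u x
    · by_cases hy : 0 < cone D ν v y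
      · right
        have h1 : cone D ν v x = 0 := czero _ _ fun h => disj x hx h
        have h2 : cone D ν u y = 0 := czero _ _ fun h => disj y h hy
        have h3 := dst x y hx hy
        have h4 := supp u x hx
        have h5 := supp v y hy
        refine ⟨?_, ?_, ?_⟩
        · rw [h1, h2, cval u x hx, cval v y hy]
          rw [hν]
          nlinarith
        · have h6 : dist x y ≤ dist u x + D + dist v y := by
            calc dist x y ≤ dist x u + dist u y := dist_triangle _ _ _
              _ ≤ dist x u + (dist u v + dist v y) := by gcongr; exact dist_triangle _ _ _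
              _ = dist u x + D + dist v y := by rw [dist_comm x u, hDdef]; ring
          have h7 := supp3 u x hx
          have h8 := supp3 v y hy
          linarith
        · -- (a + b) ν < D
          have h6 : (1 - ς) * (dist u x + dist v y) < D := by rw [← hν]; linarith
          have h7 : (1 - 2 * ς) * (dist u x + dist v y) ≤ (1 - ς) * D := by
            have h8 : 0 ≤ dist u x + dist v y := add_nonneg dist_nonneg dist_nonneg
            nlinarith
          linarith
      · left
        rw [czero v y hy]
        have h1 := cone_lip (D := D) (by linarith : 0 ≤ ν) u x y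
        have h2 := cone_nonneg D ν v x
        linarith
    · left
      rw [czero u x hx]
      have h1 := cone_lip (D := D) (by linarith : 0 ≤ ν) v y x
      have h2 := cone_nonneg D ν u y
      rw [dist_comm y x] at h1
      linarith
  refine ⟨?_, ?_, ?_⟩
  · unfold psi cone
    rw [← hDdef, dist_self, dist_self, dist_comm v u, ← hDdef]
    rw [max_eq_left (by linarith), max_eq_right (by nlinarith)]
    ring
  · have h1 : ∀ x y, psi ν u v x - psi ν u v y ≤ 2 * dist x y := by
      intro x y
      rcases main x y with h | ⟨h, -, h2⟩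
      · have h3 : ν * dist x y ≤ 2 * dist x y := mul_le_mul_of_nonneg_right (by linarith) dist_nonneg
        linarith
      · have h3 : 0 ≤ ς * (dist u x + dist v y) :=
          mul_nonneg hς.le (add_nonneg dist_nonneg dist_nonneg)
        linarith
    intro x y
    rw [abs_le]
    have h2 := h1 x y
    have h3 := h1 y x
    rw [dist_comm y x] at h3
    constructor <;> linarith
  · intro x y
    rcases main x y with h | ⟨h, h2, -⟩
    · exact Or.inl h
    · exact Or.inr ⟨h, h2⟩

end Q100.Sna
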