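import Pool.Agent.Q99.FS.Defs

/-!
# Strongly norm attaining and strongly exposing Lipschitz functions

`Lip0 ℝ M o` (from `Pool/Agent/Q99/FS/Defs.lean`) is the Banach space of Lipschitz functions on `M`
vanishing at `o`, with the least Lipschitz constant as norm; `FreeSp ℝ M o` is the Lipschitz-free
space, the closed linear span of the evaluations `del ℝ o x` in the dual of `Lip0 ℝ M o`.
-/

set_option autoImplicit false

open Filter Topology Q99.FS

noncomputable section

namespace Q100.Sna

universe u

variable {M : Type u} [MetricSpace M]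

/-- The molecule `m_{p,q} = (δ_p - δ_q) / d(p,q)`. -/
def mol (o p q : M) : FreeSp ℝ M o := (dist p q)⁻¹ • (del ℝ o p - del ℝ o q)

/-- The value `f(m_{p,q}) = (f(p) - f(q)) / d(p,q)`. -/
def val {o : M} (f : Lip0 ℝ M o) (p q : M) : ℝ := (f.fn p - f.fn q) / dist p q

/-- The set of the functions that strongly attain their norm. -/
def SNA (o : M) : Set (Lip0 ℝ M o) := {f | ∃ p q : M, p ≠ q ∧ ‖f‖ = |val f p q|}

/-- `f` strongly exposes at `m_{p,q}`: every sequence of molecules on which `|f|` tends to `‖f‖`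
has a subsequence converging in norm to `m_{p,q}` or to `-m_{p,q}`. -/
def ExposesAt {o : M} (f : Lip0 ℝ M o) (p q : M) : Prop :=
  ∀ a b : ℕ → M, (∀ n, a n ≠ b n) → Tendsto (fun n => |val f (a n) (b n)|) atTop (𝓝 ‖f‖) →
    ∃ φ : ℕ → ℕ, StrictMono φ ∧
      (Tendsto (fun n => mol o (a (φ n)) (b (φ n))) atTop (𝓝 (mol o p q)) ∨
        Tendsto (fun n => mol o (a (φ n)) (b (φ n))) atTop (𝓝 (-mol o p q)))

/-- The set of the functions that strongly expose at some molecule. -/
def LipSE (o : M) : Set (Lip0 ℝ M o) := {f | ∃ p q : M, p ≠ q ∧ ExposesAt f p q}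

end Q100.Sna
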