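import Pool.Agent.Q100.SnaVar

/-!
# Points at a given level, and the composition trick
-/

set_option autoImplicit false

open Filter Topology MeasureTheory

noncomputable section

namespace Q100.Sna

universe u

variable {M : Type u} [MetricSpace M]

theorem exists_level {g f : M → ℝ} {ℓ : ℝ} (hℓ0 : 0 ≤ ℓ) (hℓ2 : ℓ ≤ 2)
    (hg : ∀ x y, |g x - g y| ≤ ℓ * dist x y) (hf : ∀ x y, |f x - f y| ≤ dist x y)
    {η : ℝ} (hη : 0 < η) (hη1 : η ≤ 1)
    (hNR : ∀ ψ : M → ℝ, (∀ x y, |ψ x - ψ y| ≤ 2 * dist x y) → ¬ Region (fun x => g x + η * ψ x))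
    {r : ℝ} (hr : 0 < r) (β : ℝ) (n : ℕ) :
    ∀ ε : ℝ, 0 < ε → ∃ ε₀ : ℝ, 0 < ε₀ ∧ ∀ p q : M, dist p q ≤ n * (r / 2) →
      ℓ * dist p q - (g p - g q) ≤ ε₀ → f q ≤ β → β ≤ f p →
      ∃ z : M, β ≤ f z ∧ f z ≤ β + 3 * r ∧ dist p z + dist z q ≤ dist p q + ε := by
  induction n with
  | zero =>
    intro ε hε
    refine ⟨1, one_pos, ?_⟩
    intro p q hpq _ h1 h2
    have h3 : dist p q ≤ 0 := by simpa using hpq
    have h4 : p = q := dist_le_zero.1 h3
    subst h4
    refine ⟨p, h2, by linarith, by rw [dist_self]; linarith⟩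
  | succ n ih =>
    intro ε hε
    obtain ⟨e1, he1, ih⟩ := ih (ε / 2) (by positivity)
    set ε' : ℝ := min (ε / 2) (min (r / 2) (e1 / 4)) with hε'
    have hε'0 : 0 < ε' := by positivity
    have hε'1 : ε' ≤ ε / 2 := min_le_left _ _
    have hε'2 : ε' ≤ r / 2 := (min_le_right _ _).trans (min_le_left _ _)
    have hε'3 : ε' ≤ e1 / 4 := (min_le_right _ _).trans (min_le_right _ _)
    obtain ⟨e2, he2, hshort⟩ := exists_short hℓ0 hℓ2 hg hη hη1 hNR hr
      (L := (n + 1 : ℕ) * (r / 2) + r) (by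
        have : (0 : ℝ) ≤ (n + 1 : ℕ) * (r / 2) := by positivity
        linarith) hε'0
    refine ⟨min e2 (e1 / 2), by positivity, ?_⟩
    intro p q hpq hloss h1 h2
    have hloss1 : ℓ * dist p q - (g p - g q) ≤ e2 := hloss.trans (min_le_left _ _)
    have hloss2 : ℓ * dist p q - (g p - g q) ≤ e1 / 2 := hloss.trans (min_le_right _ _)
    by_cases h3 : dist p q < 3 * r
    · refine ⟨p, h2, ?_, by rw [dist_self]; linarith⟩
      have := (le_abs_self _).trans (hf p q)
      linarith
    push Not at h3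
    obtain ⟨u, v, huv1, huv2, huv3⟩ := hshort p q h3 (by linarith) hloss1
    have hcast : ((n + 1 : ℕ) : ℝ) * (r / 2) = n * (r / 2) + r / 2 := by push_cast; ring
    rw [hcast] at hpq
    have hvq : 0 ≤ dist v q := dist_nonneg
    have hpu : 0 ≤ dist p u := dist_nonneg
    -- losses
    have hgen : ∀ a b c : M, dist a b + dist b c ≤ dist a c + ε' →
        ℓ * dist a c - (g a - g c) ≤ e1 / 2 →
        ℓ * dist a b - (g a - g b) ≤ e1 ∧ ℓ * dist b c - (g b - g c) ≤ e1 := by
      intro a b c hab hac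
      have h4 : g a - g b ≤ ℓ * dist a b := (le_abs_self _).trans (hg a b)
      have h5 : g b - g c ≤ ℓ * dist b c := (le_abs_self _).trans (hg b c)
      have h6 : ℓ * (dist a b + dist b c) ≤ ℓ * (dist a c + ε') := mul_le_mul_of_nonneg_left hab hℓ0
      have h7 : ℓ * ε' ≤ 2 * ε' := mul_le_mul_of_nonneg_right hℓ2 hε'0.le
      constructor <;> nlinarith
    by_cases hfu : f u ≤ β
    · have h4 : dist u q ≤ dist u v + dist v q := dist_triangle _ _ _
      obtain ⟨h5, -⟩ := hgen p u q (by linarith) hloss2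
      obtain ⟨z, hz1, hz2, hz3⟩ := ih p u (by linarith) h5 hfu h2
      refine ⟨z, hz1, hz2, ?_⟩
      have h6 : dist z q ≤ dist z u + dist u q := dist_triangle _ _ _
      linarith
    push Not at hfu
    by_cases hfv : β ≤ f v
    · have h4 : dist p v ≤ dist p u + dist u v := dist_triangle _ _ _
      obtain ⟨-, h5⟩ := hgen p v q (by linarith) hloss2
      obtain ⟨z, hz1, hz2, hz3⟩ := ih v q (by linarith) h5 h1 hfv
      refine ⟨z, hz1, hz2, ?_⟩
      have h6 : dist p z ≤ dist p v + dist v z := dist_triangle _ _ _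
      linarith
    push Not at hfv
    refine ⟨u, hfu.le, ?_, ?_⟩
    · have := (le_abs_self _).trans (hf u v)
      linarith
    · have h4 : dist u q ≤ dist u v + dist v q := dist_triangle _ _ _
      linarith

/-- A function with derivative `1` on a dense open set of small measure and `0` elsewhere. -/
theorem exists_phi {δ : ℝ} (hδ : 0 < δ) :
    ∃ φ : ℝ → ℝ, (∀ s t, s ≤ t → 0 ≤ φ t - φ s ∧ φ t - φ s ≤ t - s ∧ φ t - φ s ≤ δ) ∧
      ∀ s t, s < t → ∃ a b, s < a ∧ a < b ∧ b < t ∧
        ∀ x y, a ≤ x → x ≤ y → y ≤ b → φ y - φ x = y - x := by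
  have hcount : (volume : Measure ℝ) (Set.range ((↑) : ℚ → ℝ)) < ENNReal.ofReal δ := by
    rw [(Set.countable_range _).measure_zero]
    exact ENNReal.ofReal_pos.2 hδ
  obtain ⟨O, hO1, hO2, hO3⟩ := Set.exists_isOpen_lt_of_lt _ _ hcount
  have hOm : MeasurableSet O := hO2.measurableSet
  have hint : ∀ a b : ℝ, IntervalIntegrable (O.indicator fun _ => (1 : ℝ)) volume a b := by
    intro a b
    rw [intervalIntegrable_iff]
    exact (integrableOn_const (by simp)).indicator hOm
  let φ : ℝ → ℝ := fun s => ∫ x in (0 : ℝ)..s, O.indicator (fun _ => (1 : ℝ)) x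
  have hφ : ∀ s t, φ t - φ s = ∫ x in s..t, O.indicator (fun _ => (1 : ℝ)) x := by
    intro s t
    exact intervalIntegral.integral_interval_sub_left (hint _ _) (hint _ _)
  have hind0 : ∀ x, 0 ≤ O.indicator (fun _ => (1 : ℝ)) x := by
    intro x
    exact Set.indicator_nonneg (fun _ _ => zero_le_one) x
  have hind1 : ∀ x, O.indicator (fun _ => (1 : ℝ)) x ≤ 1 := by
    intro x
    by_cases hx : x ∈ O
    · rw [Set.indicator_of_mem hx]
    · rw [Set.indicator_of_notMem hx]; exact zero_le_one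
  refine ⟨φ, ?_, ?_⟩
  · intro s t hst
    rw [hφ]
    refine ⟨?_, ?_, ?_⟩
    · exact intervalIntegral.integral_nonneg hst fun x _ => hind0 x
    · calc ∫ x in s..t, O.indicator (fun _ => (1 : ℝ)) x ≤ ∫ x in s..t, (1 : ℝ) :=
            intervalIntegral.integral_mono_on hst (hint _ _) intervalIntegrable_const fun x _ => hind1 x
        _ = t - s := by simp
    · rw [intervalIntegral.integral_of_le hst, MeasureTheory.integral_indicator hOm]
      rw [MeasureTheory.setIntegral_const, smul_eq_mul, mul_one]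
      rw [MeasureTheory.measureReal_restrict_apply hOm] <;> skip
      have h1 : (volume : Measure ℝ) (O ∩ Set.Ioc s t) ≤ ENNReal.ofReal δ :=
        (measure_mono Set.inter_subset_left).trans hO3.le
      exact ENNReal.toReal_le_of_le_ofReal hδ.le h1
  · intro s t hst
    obtain ⟨q, hq1, hq2⟩ := exists_rat_btwn hst
    have hqO : (q : ℝ) ∈ O := hO1 ⟨q, rfl⟩
    have hnhds : O ∩ Set.Ioo s t ∈ 𝓝 (q : ℝ) :=
      inter_mem (hO2.mem_nhds hqO) (Ioo_mem_nhds hq1 hq2)
    obtain ⟨e, he, hball⟩ := Metric.mem_nhds_iff.1 hnhds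
    have hmem : ∀ x : ℝ, |x - q| < e → x ∈ O ∩ Set.Ioo s t := fun x hx => hball (by
      rw [Metric.mem_ball, Real.dist_eq]; exact hx)
    refine ⟨q - e / 2, q + e / 2, ?_, by linarith, ?_, ?_⟩
    · exact (hmem (q - e / 2) (by rw [abs_lt]; constructor <;> linarith)).2.1
    · exact (hmem (q + e / 2) (by rw [abs_lt]; constructor <;> linarith)).2.2
    · intro x y hx hxy hy
      rw [hφ]
      have : ∫ z in x..y, O.indicator (fun _ => (1 : ℝ)) z = ∫ z in x..y, (1 : ℝ) := by
        apply intervalIntegral.integral_congr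
        intro z hz
        rw [Set.uIcc_of_le hxy] at hz
        have hz' : z ∈ O := (hmem z (by rw [abs_lt]; constructor <;> linarith [hz.1, hz.2])).1
        show O.indicator (fun _ => (1 : ℝ)) z = 1
        rw [Set.indicator_of_mem hz']
      rw [this]
      simp

end Q100.Sna
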