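import Pool.Agent.Q100.SnaDefs
import Pool.Agent.Q100.SnaLevel

/-!
# Strongly exposing functions from regions
-/

set_option autoImplicit false

open Filter Topology Q99.FS

noncomputable section

namespace Q100.Sna

universe u

variable {M : Type u} [MetricSpace M] {o : M}

/-! ### Generalities -/

theorem abs_sub_le (f : Lip0 ℝ M o) (x y : M) : |f.fn x - f.fn y| ≤ ‖f‖ * dist x y := by
  have := f.norm_sub_le' x y
  rwa [Real.norm_eq_abs] at this

theorem sub_le (f : Lip0 ℝ M o) (x y : M) : f.fn x - f.fn y ≤ ‖f‖ * dist x y :=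
  (le_abs_self _).trans (abs_sub_le f x y)

theorem norm_le_of {f : Lip0 ℝ M o} {K : ℝ} (hK : 0 ≤ K)
    (h : ∀ x y, |f.fn x - f.fn y| ≤ K * dist x y) : ‖f‖ ≤ K :=
  Lip0.norm_le' f hK (fun x y => by rw [Real.norm_eq_abs]; exact h x y)

theorem fn_add (f g : Lip0 ℝ M o) (x : M) : (f + g).fn x = f.fn x + g.fn x := rfl
theorem fn_smul (c : ℝ) (f : Lip0 ℝ M o) (x : M) : (c • f).fn x = c * f.fn x := rfl
theorem fn_sub (f g : Lip0 ℝ M o) (x : M) : (f - g).fn x = f.fn x - g.fn x := rfl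

theorem val_swap (f : Lip0 ℝ M o) (p q : M) : val f q p = - val f p q := by
  unfold val
  rw [dist_comm q p, ← neg_div]
  congr 1
  ring

theorem abs_val (f : Lip0 ℝ M o) (p q : M) : |val f p q| = |f.fn p - f.fn q| / dist p q := by
  unfold val
  rw [abs_div, abs_of_nonneg (dist_nonneg (x := p) (y := q))]

theorem exists_attain {g : Lip0 ℝ M o} (hg : g ∈ SNA o) :
    ∃ p q : M, p ≠ q ∧ g.fn p - g.fn q = ‖g‖ * dist p q := by
  obtain ⟨p, q, hpq, h⟩ := hg
  have hd : 0 < dist p q := dist_pos.2 hpq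
  rw [abs_val] at h
  have h1 : |g.fn p - g.fn q| = ‖g‖ * dist p q := by
    rw [h, div_mul_cancel₀ _ hd.ne']
  rcases abs_choice (g.fn p - g.fn q) with h2 | h2
  · exact ⟨p, q, hpq, by rw [← h1, h2]⟩
  · refine ⟨q, p, hpq.symm, ?_⟩
    rw [dist_comm q p, ← h1, h2]
    ring

theorem del_dist (x y : M) : ‖del ℝ o x - del ℝ o y‖ ≤ dist x y := by
  show ‖(del ℝ o x - del ℝ o y : FreeSp ℝ M o).1‖ ≤ dist x y
  refine ContinuousLinearMap.opNorm_le_bound _ dist_nonneg ?_
  intro f
  show ‖f.fn x - f.fn y‖ ≤ dist x y * ‖f‖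
  rw [mul_comm]
  exact f.norm_sub_le' x y

theorem continuous_del : Continuous (del ℝ o : M → FreeSp ℝ M o) := by
  have : LipschitzWith 1 (del ℝ o : M → FreeSp ℝ M o) := by
    apply LipschitzWith.of_dist_le_mul
    intro x y
    rw [NNReal.coe_one, one_mul, dist_eq_norm]
    exact del_dist x y
  exact this.continuous

theorem mol_tendsto {a b : ℕ → M} {p q : M} (hpq : p ≠ q) (ha : Tendsto a atTop (𝓝 p))
    (hb : Tendsto b atTop (𝓝 q)) : Tendsto (fun n => mol o (a n) (b n)) atTop (𝓝 (mol o p q)) := by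
  unfold mol
  have h1 : Tendsto (fun n => (dist (a n) (b n))⁻¹) atTop (𝓝 (dist p q)⁻¹) :=
    (ha.dist hb).inv₀ (dist_ne_zero.2 hpq)
  have h2 : Tendsto (fun n => del ℝ o (a n) - del ℝ o (b n)) atTop (𝓝 (del ℝ o p - del ℝ o q)) :=
    ((continuous_del.tendsto p).comp ha).sub ((continuous_del.tendsto q).comp hb)
  exact h1.smul h2

theorem mol_swap (p q : M) : mol o q p = - mol o p q := by
  unfold mol
  rw [dist_comm q p, ← smul_neg, neg_sub]

/-- Evaluation of a function on the free space. -/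
theorem eval_mol (f : Lip0 ℝ M o) (p q : M) : (mol o p q).1 f = val f p q := by
  show (dist p q)⁻¹ * (f.fn p - f.fn q) = (f.fn p - f.fn q) / dist p q
  rw [div_eq_inv_mul]

theorem eval_tendsto (f : Lip0 ℝ M o) {x : ℕ → FreeSp ℝ M o} {y : FreeSp ℝ M o}
    (h : Tendsto x atTop (𝓝 y)) : Tendsto (fun n => (x n).1 f) atTop (𝓝 (y.1 f)) := by
  have h1 : Continuous fun z : FreeSp ℝ M o => (z.1 : StrongDual ℝ (Lip0 ℝ M o)) f := by
    have h2 : Continuous fun z : FreeSp ℝ M o => (z.1 : StrongDual ℝ (Lip0 ℝ M o)) :=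
      continuous_subtype_val
    exact (ContinuousLinearMap.apply ℝ ℝ f).continuous.comp h2
  exact (h1.tendsto y).comp h

/-! ### Criterion -/

/-- If the nearly norming pairs are close to `(p, q)`, then `f` strongly exposes at `m_{p,q}`. -/
theorem exposes_of {F : Lip0 ℝ M o} {p q : M} (hpq : p ≠ q)
    (h : ∀ κ : ℝ, 0 < κ → ∃ s : ℝ, 0 < s ∧ ∀ x y, x ≠ y → (‖F‖ - s) * dist x y ≤ F.fn x - F.fn y →
      dist p x + dist q y ≤ κ) : ExposesAt F p q := by
  have key : ∀ a b : ℕ → M, (∀ n, a n ≠ b n) → Tendsto (fun n => val F (a n) (b n)) atTop (𝓝 ‖F‖) →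
      Tendsto (fun n => mol o (a n) (b n)) atTop (𝓝 (mol o p q)) := by
    intro a b hab hlim
    have hd : ∀ κ : ℝ, 0 < κ → ∀ᶠ n in atTop, dist p (a n) + dist q (b n) ≤ κ := by
      intro κ hκ
      obtain ⟨s, hs, hs'⟩ := h κ hκ
      have h1 : ∀ᶠ n in atTop, ‖F‖ - s < val F (a n) (b n) :=
        hlim.eventually (lt_mem_nhds (by linarith))
      filter_upwards [h1] with n hn
      apply hs' _ _ (hab n)
      have hd : 0 < dist (a n) (b n) := dist_pos.2 (hab n)
      unfold val at hn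
      rw [lt_div_iff₀ hd] at hn
      exact hn.le
    refine mol_tendsto hpq ?_ ?_
    · rw [Metric.tendsto_atTop]
      intro ε hε
      obtain ⟨N, hN⟩ := eventually_atTop.1 (hd (ε / 2) (by positivity))
      refine ⟨N, fun n hn => ?_⟩
      have := hN n hn
      have h2 : 0 ≤ dist q (b n) := dist_nonneg
      rw [dist_comm]
      linarith
    · rw [Metric.tendsto_atTop]
      intro ε hε
      obtain ⟨N, hN⟩ := eventually_atTop.1 (hd (ε / 2) (by positivity))
      refine ⟨N, fun n hn => ?_⟩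
      have := hN n hn
      have h2 : 0 ≤ dist p (a n) := dist_nonneg
      rw [dist_comm]
      linarith
  intro a b hab hlim
  by_cases hfreq : ∃ᶠ n in atTop, 0 ≤ val F (a n) (b n)
  · obtain ⟨φ, hφ, hφ'⟩ := extraction_of_frequently_atTop hfreq
    refine ⟨φ, hφ, Or.inl (key _ _ (fun n => hab _) ?_)⟩
    have h1 := hlim.comp hφ.tendsto_atTop
    refine h1.congr fun n => ?_
    exact abs_of_nonneg (hφ' n)
  · rw [not_frequently] at hfreq
    obtain ⟨φ, hφ, hφ'⟩ := extraction_of_frequently_atTop hfreq.frequently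
    refine ⟨φ, hφ, Or.inr ?_⟩
    have h1 := hlim.comp hφ.tendsto_atTop
    have h2 : Tendsto (fun n => mol o (b (φ n)) (a (φ n))) atTop (𝓝 (mol o p q)) := by
      refine key _ _ (fun n => (hab _).symm) ?_
      refine h1.congr fun n => ?_
      rw [val_swap]
      exact abs_of_neg (not_le.1 (hφ' n))
    have h3 := h2.neg
    refine h3.congr fun n => ?_
    rw [mol_swap, neg_neg]

/-- Every strongly exposing function strongly attains its norm. -/
theorem lipSE_subset : (LipSE o : Set (Lip0 ℝ M o)) ⊆ SNA o := by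
  rintro f ⟨p, q, hpq, hexp⟩
  refine ⟨p, q, hpq, ?_⟩
  have happ : ∀ ε : ℝ, 0 < ε → ∃ a b : M, a ≠ b ∧ ‖f‖ - ε < |val f a b| := by
    intro ε hε
    by_contra hcon
    push Not at hcon
    have h0 : 0 ≤ ‖f‖ - ε := (abs_nonneg _).trans (hcon p q hpq)
    have h1 : ‖f‖ ≤ ‖f‖ - ε := by
      refine norm_le_of h0 ?_
      intro x y
      rcases eq_or_ne x y with rfl | hxy
      · simp
      · have hd : 0 < dist x y := dist_pos.2 hxy
        have := hcon x y hxy
        rw [abs_val, div_le_iff₀ hd] at this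
        exact this
    linarith
  choose a b hab hab' using fun n : ℕ => happ (1 / ((n : ℝ) + 1)) (by positivity)
  have hle : ∀ x y : M, |val f x y| ≤ ‖f‖ := by
    intro x y
    rcases eq_or_ne x y with rfl | hxy
    · unfold val; simp
    · rw [abs_val, div_le_iff₀ (dist_pos.2 hxy)]
      exact abs_sub_le f x y
  have hlim : Tendsto (fun n => |val f (a n) (b n)|) atTop (𝓝 ‖f‖) := by
    have h1 : Tendsto (fun n : ℕ => ‖f‖ - 1 / ((n : ℝ) + 1)) atTop (𝓝 (‖f‖ - 0)) :=
      tendsto_const_nhds.sub tendsto_one_div_add_atTop_nhds_zero_nat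
    rw [sub_zero] at h1
    exact tendsto_of_tendsto_of_tendsto_of_le_of_le h1 tendsto_const_nhds
      (fun n => (hab' n).le) (fun n => hle _ _)
  obtain ⟨φ, hφ, h⟩ := hexp a b hab hlim
  have h1 := hlim.comp hφ.tendsto_atTop
  rcases h with h | h
  · have h2 := (eval_tendsto f h).abs
    rw [eval_mol] at h2
    exact tendsto_nhds_unique h1 (h2.congr fun n => by rw [eval_mol]; rfl)
  · have h2 := (eval_tendsto f h).abs
    have h3 : ((-mol o p q : FreeSp ℝ M o).1 : StrongDual ℝ (Lip0 ℝ M o)) f = - val f p q := by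
      rw [← mol_swap, eval_mol, val_swap]
    rw [h3, abs_neg] at h2
    exact tendsto_nhds_unique h1 (h2.congr fun n => by rw [eval_mol]; rfl)

/-! ### From regions to exposing functions -/

/-- Constructor. -/
def mkLip (o : M) (ψ : M → ℝ) (K : ℝ) (hK : 0 ≤ K) (h : ∀ x y, |ψ x - ψ y| ≤ K * dist x y) :
    Lip0 ℝ M o :=
  Lip0.mk (fun x => ψ x - ψ o) (_root_.sub_self _) K hK (fun x y => by
    rw [Real.norm_eq_abs]
    have : ψ x - ψ o - (ψ y - ψ o) = ψ x - ψ y := by ring
    rw [this]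
    exact h x y)

theorem mkLip_fn (o : M) (ψ : M → ℝ) (K : ℝ) (hK : 0 ≤ K) (h : ∀ x y, |ψ x - ψ y| ≤ K * dist x y)
    (x : M) : (mkLip o ψ K hK h).fn x = ψ x - ψ o := rfl

theorem mkLip_norm (o : M) (ψ : M → ℝ) (K : ℝ) (hK : 0 ≤ K)
    (h : ∀ x y, |ψ x - ψ y| ≤ K * dist x y) : ‖mkLip o ψ K hK h‖ ≤ K := by
  refine norm_le_of hK ?_
  intro x y
  rw [mkLip_fn, mkLip_fn]
  have : ψ x - ψ o - (ψ y - ψ o) = ψ x - ψ y := by ring
  rw [this]
  exact h x y

theorem exists_exposing (hdense : Dense (SNA o : Set (Lip0 ℝ M o))) {G : Lip0 ℝ M o}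
    (hR : Region G.fn) {ρ : ℝ} (hρ : 0 < ρ) : ∃ F ∈ (LipSE o : Set (Lip0 ℝ M o)), ‖F - G‖ < ρ := by
  obtain ⟨u, v, hD, t, ht, hreg⟩ := hR
  set D := dist u v with hDdef
  -- reformulation with the norm
  have hreg' : ∀ x y, x ≠ y → (‖G‖ - t) * dist x y ≤ G.fn x - G.fn y →
      dist u x + dist v y ≤ D / 3 := by
    intro x y hxy h
    apply hreg x y hxy
    refine le_trans ?_ h
    apply mul_le_mul_of_nonneg_right _ dist_nonneg
    have : (G.fn u - G.fn v) / D ≤ ‖G‖ := by
      rw [div_le_iff₀ hD]; exact sub_le G u v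
    linarith
  set t' : ℝ := min (t / 4) (ρ / 2) with ht'
  have ht'0 : 0 < t' := by positivity
  have ht'1 : t' ≤ t / 4 := min_le_left _ _
  have ht'2 : t' ≤ ρ / 2 := min_le_right _ _
  obtain ⟨g, hgS, hgG⟩ := hdense.exists_dist_lt G ht'0
  rw [dist_eq_norm] at hgG
  obtain ⟨p, q, hpq, hgpq⟩ := exists_attain hgS
  set ℓ := ‖g‖ with hℓ
  have hℓ0 : 0 ≤ ℓ := norm_nonneg g
  have hd1 : 0 < dist p q := dist_pos.2 hpq
  -- transfer of slices
  have hGg : ‖G‖ ≤ ℓ + t' := by
    have h1 : ‖G‖ ≤ ‖G - g‖ + ‖g‖ := by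
      have := norm_add_le (G - g) g
      rwa [sub_add_cancel] at this
    linarith
  have hslice : ∀ x y, x ≠ y → (ℓ - t / 2) * dist x y ≤ g.fn x - g.fn y →
      dist u x + dist v y ≤ D / 3 := by
    intro x y hxy h
    apply hreg' x y hxy
    have h1 : (g - G).fn x - (g - G).fn y ≤ ‖g - G‖ * dist x y := sub_le _ x y
    rw [fn_sub, fn_sub] at h1
    have h2 : ‖g - G‖ = ‖G - g‖ := norm_sub_rev _ _
    rw [h2] at h1
    have h3 : ‖G - g‖ * dist x y ≤ t / 4 * dist x y :=
      mul_le_mul_of_nonneg_right (hgG.le.trans ht'1) dist_nonneg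
    have h4 : ‖G‖ * dist x y ≤ (ℓ + t / 4) * dist x y :=
      mul_le_mul_of_nonneg_right (by linarith) dist_nonneg
    nlinarith
  -- the gap
  set c : ℝ := min 1 (t / (4 * (ℓ + 1))) with hc
  have hc0 : 0 < c := by positivity
  have hc1 : c ≤ 1 := min_le_left _ _
  have hc2 : 2 * c * ℓ ≤ t / 2 := by
    have h1 : c ≤ t / (4 * (ℓ + 1)) := min_le_right _ _
    have h2 : c * (4 * (ℓ + 1)) ≤ t := by rwa [le_div_iff₀ (by positivity)] at h1
    nlinarith
  have hno : ∀ (z : M) (m : ℝ), z ≠ p → z ≠ q → 0 ≤ m → m ≤ 2 * dist p z → m ≤ 2 * dist z q →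
      dist p z + dist z q - c * m ≤ dist p q → False := by
    intro z m hzp hzq hm0 hm1 hm2 hz
    have h1 : g.fn p - g.fn z ≤ ℓ * dist p z := sub_le g p z
    have h2 : g.fn z - g.fn q ≤ ℓ * dist z q := sub_le g z q
    have h3 : ℓ * (dist p z + dist z q - c * m) ≤ ℓ * dist p q := mul_le_mul_of_nonneg_left hz hℓ0
    have h4 : (ℓ - t / 2) * dist p z ≤ g.fn p - g.fn z := by
      have h5 : c * ℓ * m ≤ c * ℓ * (2 * dist p z) := mul_le_mul_of_nonneg_left hm1 (by positivity)
      have h6 : 2 * c * ℓ * dist p z ≤ t / 2 * dist p z := mul_le_mul_of_nonneg_right hc2 dist_nonneg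
      nlinarith
    have h5 : (ℓ - t / 2) * dist z q ≤ g.fn z - g.fn q := by
      have h5 : c * ℓ * m ≤ c * ℓ * (2 * dist z q) := mul_le_mul_of_nonneg_left hm2 (by positivity)
      have h6 : 2 * c * ℓ * dist z q ≤ t / 2 * dist z q := mul_le_mul_of_nonneg_right hc2 dist_nonneg
      nlinarith
    have h6 := hslice p z hzp.symm h4
    have h7 := hslice z q hzq h5
    have h8 : D ≤ dist u z + dist z v := dist_triangle _ _ _
    rw [dist_comm z v] at h8
    have h9 : 0 ≤ dist u p := dist_nonneg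
    have h10 : 0 ≤ dist v q := dist_nonneg
    linarith
  have hG : Gap p q (1 - c) 0 := by
    constructor
    · intro z hz
      by_contra hcon
      push Not at hcon
      have h1 : dist p q ≤ dist p z + dist z q := dist_triangle _ _ _
      have hzp : z ≠ p := by
        rintro rfl
        rw [dist_self] at hcon
        linarith
      have hzq : z ≠ q := by
        rintro rfl
        linarith
      refine hno z (dist p z) hzp hzq dist_nonneg ?_ ?_ ?_
      · have := dist_nonneg (x := p) (y := z)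
        linarith
      · linarith
      · linarith
    · intro z hz
      by_contra hcon
      push Not at hcon
      have h1 : dist p q ≤ dist p z + dist z q := dist_triangle _ _ _
      have h2 : dist z q = dist q z := dist_comm _ _
      have hzq : z ≠ q := by
        rintro rfl
        rw [dist_self] at hcon
        linarith
      have hzp : z ≠ p := by
        rintro rfl
        linarith
      refine hno z (dist q z) hzp hzq dist_nonneg ?_ ?_ ?_
      · linarith
      · have := dist_nonneg (x := q) (y := z)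
        linarith
      · linarith
  -- the double cone
  set ς : ℝ := c / 4 with hς
  have hς0 : 0 < ς := by positivity
  obtain ⟨hp1, hp2, hp3⟩ := psi_main hd1 hς0 (by linarith : ς ≤ 1 / 4) (by rw [hς]; ring) le_rfl
    (by positivity) hG
  set ψ := psi (1 - ς) p q with hψ
  set η : ℝ := ρ / 8 with hη
  have hη0 : 0 < η := by positivity
  set Ψ : Lip0 ℝ M o := mkLip o ψ 2 two_pos.le hp2 with hΨ
  refine ⟨g + η • Ψ, ⟨p, q, hpq, ?_⟩, ?_⟩
  swap
  · have h1 : ‖g + η • Ψ - G‖ ≤ ‖G - g‖ + η * 2 := by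
      have h2 : g + η • Ψ - G = -(G - g) + η • Ψ := by abel
      rw [h2]
      refine (norm_add_le _ _).trans ?_
      rw [norm_neg, norm_smul, Real.norm_eq_abs, abs_of_pos hη0]
      have := mkLip_norm o ψ 2 two_pos.le hp2
      gcongr
    have h3 : η * 2 = ρ / 4 := by rw [hη]; ring
    linarith
  have hdiff : ∀ x y, (g + η • Ψ).fn x - (g + η • Ψ).fn y = g.fn x - g.fn y + η * (ψ x - ψ y) := by
    intro x y
    rw [fn_add, fn_add, fn_smul, fn_smul, hΨ, mkLip_fn, mkLip_fn]
    ring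
  have hnorm : ℓ + η ≤ ‖g + η • Ψ‖ := by
    have h1 := sub_le (g + η • Ψ) p q
    rw [hdiff, hgpq, hp1] at h1
    have h2 : (ℓ + η) * dist p q ≤ ‖g + η • Ψ‖ * dist p q := by linarith
    exact le_of_mul_le_mul_right h2 hd1
  apply exposes_of hpq
  intro κ hκ
  set s : ℝ := min (η * ς / 2) (κ * (η * ς) / (3 * dist p q)) with hs
  have hs0 : 0 < s := by positivity
  have hs1 : s ≤ η * ς / 2 := min_le_left _ _
  have hs2 : s ≤ κ * (η * ς) / (3 * dist p q) := min_le_right _ _
  refine ⟨s, hs0, ?_⟩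
  intro x y hxy h
  have hd : 0 < dist x y := dist_pos.2 hxy
  rw [hdiff] at h
  have h1 : (ℓ + η - s) * dist x y ≤ g.fn x - g.fn y + η * (ψ x - ψ y) := by
    refine le_trans ?_ h
    apply mul_le_mul_of_nonneg_right _ hd.le
    linarith
  have h2 : g.fn x - g.fn y ≤ ℓ * dist x y := sub_le g x y
  have h3 : (η - s) * dist x y ≤ η * (ψ x - ψ y) := by nlinarith
  have hης : 0 < η * ς := by positivity
  rcases hp3 x y with h4 | ⟨h4, h5⟩
  · exfalso
    have h5 : η * (ψ x - ψ y) ≤ η * ((1 - ς) * dist x y) := mul_le_mul_of_nonneg_left h4 hη0.le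
    have h6 : (η * ς - s) * dist x y ≤ 0 := by nlinarith
    have h7 : 0 < η * ς - s := by linarith
    have := mul_pos h7 hd
    linarith
  · have h6 : η * (ψ x - ψ y) ≤ η * (dist x y + 0 - ς * (dist p x + dist q y)) :=
      mul_le_mul_of_nonneg_left h4 hη0.le
    have h7 : η * ς * (dist p x + dist q y) ≤ s * dist x y := by nlinarith
    have h8 : s * dist x y ≤ s * (3 * dist p q) := mul_le_mul_of_nonneg_left h5 hs0.le
    have h9 : s * (3 * dist p q) ≤ κ * (η * ς) := by
      rwa [le_div_iff₀ (by positivity)] at hs2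
    have h10 : η * ς * (dist p x + dist q y) ≤ η * ς * κ := by linarith
    exact le_of_mul_le_mul_left h10 hης

end Q100.Sna
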