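import Pool.Agent.Q100.SnaExp

/-!
# Density of the strongly norm attaining functions implies density of the strongly exposing ones
-/

set_option autoImplicit false

open Filter Topology Q99.FS

noncomputable section

namespace Q100.Sna

universe u

variable {M : Type u} [MetricSpace M] {o : M}

theorem region_const {G G' : M → ℝ} {c : ℝ} (h : ∀ x, G' x = G x + c) (hG : Region G) :
    Region G' := by
  obtain ⟨u, v, hD, t, ht, hreg⟩ := hG
  refine ⟨u, v, hD, t, ht, ?_⟩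
  intro x y hxy hle
  apply hreg x y hxy
  have h1 : ∀ x y, G' x - G' y = G x - G y := fun x y => by rw [h, h]; ring
  rw [h1, h1] at hle
  exact hle

theorem exists_near_one (hdense : Dense (SNA o : Set (Lip0 ℝ M o))) {f : Lip0 ℝ M o}
    (hf : ‖f‖ = 1) {ρ : ℝ} (hρ : 0 < ρ) : ∃ F ∈ (LipSE o : Set (Lip0 ℝ M o)), ‖F - f‖ < ρ := by
  by_contra hcon
  push Not at hcon
  set η : ℝ := min (1 / 10) (ρ / 10) with hη
  have hη0 : 0 < η := by positivity
  have hη1 : η ≤ 1 / 10 := min_le_left _ _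
  have hη2 : η ≤ ρ / 10 := min_le_right _ _
  -- no regions near `f`
  have hNR : ∀ G : Lip0 ℝ M o, ‖G - f‖ ≤ 4 * η → ¬ Region G.fn := by
    intro G hG hR
    obtain ⟨F, hF, hFG⟩ := exists_exposing hdense hR hη0
    have h1 := hcon F hF
    have h2 : ‖F - f‖ ≤ ‖F - G‖ + ‖G - f‖ := by
      have := norm_add_le (F - G) (G - f)
      rwa [sub_add_sub_cancel] at this
    linarith
  have hflip : ∀ x y, f.fn x - f.fn y ≤ dist x y := by
    intro x y
    have := sub_le f x y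
    rwa [hf, one_mul] at this
  have hflip' : ∀ x y, |f.fn x - f.fn y| ≤ dist x y := by
    intro x y
    have := abs_sub_le f x y
    rwa [hf, one_mul] at this
  -- a nearly norming pair
  obtain ⟨p0, q0, hpq0, hnear⟩ : ∃ p0 q0 : M, p0 ≠ q0 ∧
      (1 - η / 40) * dist p0 q0 ≤ f.fn p0 - f.fn q0 := by
    by_contra hcon2
    push Not at hcon2
    have h0 : 0 ≤ 1 - η / 40 := by linarith
    have h1 : ‖f‖ ≤ 1 - η / 40 := by
      refine norm_le_of h0 ?_
      intro x y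
      rcases eq_or_ne x y with rfl | hxy
      · simp
      · rw [abs_le]
        have h2 := hcon2 x y hxy
        have h3 := hcon2 y x hxy.symm
        rw [dist_comm y x] at h3
        constructor <;> linarith
    linarith
  have hd0 : 0 < dist p0 q0 := dist_pos.2 hpq0
  set s0 : ℝ := f.fn p0 - f.fn q0 with hs0
  have hs0pos : 0 < s0 := by
    have : 0 < (1 - η / 40) * dist p0 q0 := by
      apply mul_pos _ hd0
      linarith
    linarith
  obtain ⟨φ, hφ1, hφ2⟩ := exists_phi (δ := s0 / 40) (by positivity)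
  have hφabs : ∀ s t, |φ s - φ t| ≤ |s - t| := by
    intro s t
    rcases le_total s t with h | h
    · obtain ⟨h1, h2, -⟩ := hφ1 s t h
      rw [abs_sub_comm, abs_sub_comm s t, abs_of_nonneg h1, abs_of_nonneg (by linarith)]
      exact h2
    · obtain ⟨h1, h2, -⟩ := hφ1 t s h
      rw [abs_of_nonneg h1, abs_of_nonneg (by linarith)]
      exact h2
  -- the composed function
  have hφf : ∀ x y, |φ (f.fn x) - φ (f.fn y)| ≤ 1 * dist x y := by
    intro x y
    rw [one_mul]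
    exact (hφabs _ _).trans (hflip' x y)
  set Φ : Lip0 ℝ M o := mkLip o (fun x => φ (f.fn x)) 1 zero_le_one hφf with hΦ
  set g0 : Lip0 ℝ M o := f - η • Φ with hg0
  have hΦ1 : ‖Φ‖ ≤ 1 := mkLip_norm _ _ _ _ _
  have hg0f : ‖g0 - f‖ ≤ η := by
    have : g0 - f = -(η • Φ) := by rw [hg0]; abel
    rw [this, norm_neg, norm_smul, Real.norm_eq_abs, abs_of_pos hη0]
    exact mul_le_of_le_one_right hη0.le hΦ1
  have hg0diff : ∀ x y, g0.fn x - g0.fn y = (f.fn x - f.fn y) - η * (φ (f.fn x) - φ (f.fn y)) := by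
    intro x y
    rw [hg0, fn_sub, fn_sub, fn_smul, fn_smul, hΦ, mkLip_fn, mkLip_fn]
    ring
  have hg0norm : 1 - η / 20 ≤ ‖g0‖ := by
    have h1 := sub_le g0 p0 q0
    rw [hg0diff] at h1
    have h2 : f.fn q0 ≤ f.fn p0 := by linarith
    obtain ⟨-, -, h3⟩ := hφ1 _ _ h2
    have h4 : η * (φ (f.fn p0) - φ (f.fn q0)) ≤ η * (s0 / 40) := mul_le_mul_of_nonneg_left h3 hη0.le
    have h5 : (1 - η / 40) * s0 ≤ ‖g0‖ * dist p0 q0 := by
      have : (1 - η / 40) * s0 = s0 - η * (s0 / 40) := by ring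
      rw [this]
      linarith
    have h6 : (1 - η / 40) * ((1 - η / 40) * dist p0 q0) ≤ (1 - η / 40) * s0 :=
      mul_le_mul_of_nonneg_left hnear (by linarith)
    have h7 : (1 - η / 20) * dist p0 q0 ≤ ‖g0‖ * dist p0 q0 := by
      have h8 : (1 - η / 20) * dist p0 q0 ≤ (1 - η / 40) * ((1 - η / 40) * dist p0 q0) := by
        have : (1 - η / 40) * ((1 - η / 40) * dist p0 q0) =
            (1 - η / 20) * dist p0 q0 + (η / 40) ^ 2 * dist p0 q0 := by ring
        rw [this]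
        have : 0 ≤ (η / 40) ^ 2 * dist p0 q0 := by positivity
        linarith
      linarith
    exact le_of_mul_le_mul_right h7 hd0
  have hg0norm' : ‖g0‖ ≤ 1 := by
    refine norm_le_of zero_le_one ?_
    intro x y
    rw [hg0diff, one_mul]
    refine le_trans ?_ (hflip' x y)
    rcases le_total (f.fn x) (f.fn y) with h | h
    · obtain ⟨h1, h2, -⟩ := hφ1 _ _ h
      rw [abs_of_nonpos (show f.fn x - f.fn y ≤ 0 by linarith), abs_le]
      constructor <;> nlinarith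
    · obtain ⟨h1, h2, -⟩ := hφ1 _ _ h
      rw [abs_of_nonneg (show 0 ≤ f.fn x - f.fn y by linarith), abs_le]
      constructor <;> nlinarith
  -- the strongly attaining function
  obtain ⟨g, hgS, hgg0⟩ := hdense.exists_dist_lt g0 (show 0 < η / 20 by positivity)
  rw [dist_eq_norm] at hgg0
  obtain ⟨p, q, hpq, hgpq⟩ := exists_attain hgS
  set ℓ := ‖g‖ with hℓ
  have hℓ0 : 0 ≤ ℓ := norm_nonneg g
  have hℓlow : 1 - η / 10 ≤ ℓ := by
    have : ‖g0‖ ≤ ‖g0 - g‖ + ‖g‖ := by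
      have := norm_add_le (g0 - g) g
      rwa [sub_add_cancel] at this
    linarith
  have hℓup : ℓ ≤ 2 := by
    have : ‖g‖ ≤ ‖g0 - g‖ + ‖g0‖ := by
      have := norm_sub_le g0 (g0 - g)
      rw [sub_sub_cancel] at this
      linarith
    linarith
  have hd : 0 < dist p q := dist_pos.2 hpq
  have hg0g : ∀ x y, |(g0.fn x - g0.fn y) - (g.fn x - g.fn y)| ≤ η / 20 * dist x y := by
    intro x y
    have h1 := abs_sub_le (g0 - g) x y
    rw [fn_sub g0 g x, fn_sub g0 g y] at h1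
    have h2 : g0.fn x - g.fn x - (g0.fn y - g.fn y) = g0.fn x - g0.fn y - (g.fn x - g.fn y) := by ring
    rw [h2] at h1
    exact h1.trans (mul_le_mul_of_nonneg_right hgg0.le dist_nonneg)
  -- no regions for perturbations of `g`
  have hNRg : ∀ ψ : M → ℝ, (∀ x y, |ψ x - ψ y| ≤ 2 * dist x y) →
      ¬ Region (fun x => g.fn x + η * ψ x) := by
    intro ψ hψ hR
    set Ψ : Lip0 ℝ M o := mkLip o ψ 2 two_pos.le hψ with hΨ
    refine hNR (g + η • Ψ) ?_ ?_
    · have h1 : g + η • Ψ - f = -(g0 - g) + (g0 - f) + η • Ψ := by abel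
      rw [h1]
      have h2 : ‖η • Ψ‖ ≤ η * 2 := by
        rw [norm_smul, Real.norm_eq_abs, abs_of_pos hη0]
        exact mul_le_mul_of_nonneg_left (mkLip_norm _ _ _ _ _) hη0.le
      have h3 := norm_add_le (-(g0 - g) + (g0 - f)) (η • Ψ)
      have h4 := norm_add_le (-(g0 - g)) (g0 - f)
      rw [norm_neg] at h4
      linarith
    · refine region_const (c := -(η * ψ o)) ?_ hR
      intro x
      rw [fn_add, fn_smul, hΨ, mkLip_fn]
      ring
  -- levels
  have hfpq : f.fn q < f.fn p := by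
    by_contra hcon3
    push Not at hcon3
    have h1 := hg0diff p q
    obtain ⟨h2, h3, -⟩ := hφ1 _ _ hcon3
    have h4 : g0.fn p - g0.fn q ≤ 0 := by
      rw [h1]; nlinarith
    have h5 := (abs_le.1 (hg0g p q)).1
    rw [hgpq] at h5
    have h6 : (ℓ - η / 20) * dist p q ≤ 0 := by linarith
    have h7 : 0 < ℓ - η / 20 := by linarith
    have := mul_pos h7 hd
    linarith
  obtain ⟨a, b, ha, hab, hb, hφab⟩ := hφ2 _ _ hfpq
  set r : ℝ := (b - a) / 12 with hr
  have hr0 : 0 < r := by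
    rw [hr]; linarith
  have hη1' : η ≤ 1 := by linarith
  have hgabs : ∀ x y, |g.fn x - g.fn y| ≤ ℓ * dist x y := fun x y => abs_sub_le g x y
  obtain ⟨N, hN⟩ := exists_nat_gt ((dist p q + 1) / (r / 2))
  have hN' : dist p q + 1 ≤ N * (r / 2) := by
    have := (div_lt_iff₀ (by positivity : (0 : ℝ) < r / 2)).1 hN
    exact this.le
  set ε1 : ℝ := η * r / 10 with hε1
  have hε10 : 0 < ε1 := by positivity
  obtain ⟨e2, he2, hlev2⟩ := exists_level hℓ0 hℓup hgabs hflip' hη0 hη1' hNRg hr0 a N ε1 hε10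
  set ε2 : ℝ := min ε1 (min (e2 / 2) 1) with hε2
  have hε20 : 0 < ε2 := by positivity
  have hε21 : ε2 ≤ ε1 := min_le_left _ _
  have hε22 : ε2 ≤ e2 / 2 := (min_le_right _ _).trans (min_le_left _ _)
  have hε23 : ε2 ≤ 1 := (min_le_right _ _).trans (min_le_right _ _)
  obtain ⟨e3, he3, hlev3⟩ := exists_level hℓ0 hℓup hgabs hflip' hη0 hη1' hNRg hr0 (b - 3 * r) N ε2 hε20
  obtain ⟨x, hx1, hx2, hx3⟩ := hlev3 p q (by linarith) (by rw [hgpq, _root_.sub_self]; exact he3.le)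
    (by linarith) (by linarith)
  have hlx : ℓ * dist x q - (g.fn x - g.fn q) ≤ e2 := by
    have h1 : g.fn p - g.fn x ≤ ℓ * dist p x := sub_le g p x
    have h2 : ℓ * (dist p x + dist x q) ≤ ℓ * (dist p q + ε2) := mul_le_mul_of_nonneg_left hx3 hℓ0
    have h3 : ℓ * ε2 ≤ 2 * ε2 := mul_le_mul_of_nonneg_right hℓup hε20.le
    nlinarith
  obtain ⟨y, hy1, hy2, hy3⟩ := hlev2 x q
    (by
      have : 0 ≤ dist p x := dist_nonneg
      linarith) hlx (by linarith) (by linarith)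
  -- final contradiction
  have hyx : f.fn y ≤ f.fn x := by linarith
  have h1 : φ (f.fn x) - φ (f.fn y) = f.fn x - f.fn y := hφab _ _ hy1 hyx (by linarith)
  have h2 : g0.fn x - g0.fn y = (1 - η) * (f.fn x - f.fn y) := by
    rw [hg0diff, h1]; ring
  have h3 : g0.fn x - g0.fn y ≤ (1 - η) * dist x y := by
    rw [h2]; exact mul_le_mul_of_nonneg_left (hflip x y) (by linarith)
  have h4 := (abs_le.1 (hg0g x y)).1
  have h5 : g.fn p - g.fn x ≤ ℓ * dist p x := sub_le g p x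
  have h6 : g.fn y - g.fn q ≤ ℓ * dist y q := sub_le g y q
  have h7 : ℓ * (dist p x + dist x q) ≤ ℓ * (dist p q + ε2) := mul_le_mul_of_nonneg_left hx3 hℓ0
  have h7' : dist p q ≤ dist p x + dist x q := dist_triangle _ _ _
  have h7'' : dist p x + dist x q - ε2 ≤ dist p q := by linarith
  have h8 : ℓ * (dist x y + dist y q) ≤ ℓ * (dist x q + ε1) := mul_le_mul_of_nonneg_left hy3 hℓ0
  have h9 : ℓ * ε1 ≤ 2 * ε1 := mul_le_mul_of_nonneg_right hℓup hε10.le
  have h10 : ℓ * ε2 ≤ 2 * ε1 := by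
    have := mul_le_mul_of_nonneg_right hℓup hε20.le
    linarith
  have h11 : ℓ * dist x y - 4 * ε1 ≤ g.fn x - g.fn y := by
    have h12 : ℓ * (dist p x + dist x q - ε2) ≤ ℓ * dist p q := mul_le_mul_of_nonneg_left h7'' hℓ0
    nlinarith
  have h12 : 6 * r ≤ dist x y := by
    have := hflip x y
    linarith
  have h13 : (1 - η / 10) * dist x y ≤ ℓ * dist x y := mul_le_mul_of_nonneg_right hℓlow dist_nonneg
  have h14 : η * (6 * r) ≤ η * dist x y := mul_le_mul_of_nonneg_left h12 hη0.le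
  have h15 : 4 * ε1 = 4 * (η * r) / 10 := by rw [hε1]; ring
  have h16 : 0 < η * r := by positivity
  linarith

theorem lipSE_smul {F : Lip0 ℝ M o} (hF : F ∈ (LipSE o : Set (Lip0 ℝ M o))) {c : ℝ} (hc : 0 < c) :
    c • F ∈ (LipSE o : Set (Lip0 ℝ M o)) := by
  obtain ⟨p, q, hpq, hexp⟩ := hF
  refine ⟨p, q, hpq, ?_⟩
  intro a b hab hlim
  apply hexp a b hab
  have h1 : ∀ n, |val (c • F) (a n) (b n)| = c * |val F (a n) (b n)| := by
    intro n
    have : val (c • F) (a n) (b n) = c * val F (a n) (b n) := by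
      unfold val
      rw [fn_smul, fn_smul]
      ring
    rw [this, abs_mul, abs_of_pos hc]
  have h2 : ‖c • F‖ = c * ‖F‖ := by
    rw [norm_smul, Real.norm_eq_abs, abs_of_pos hc]
  rw [h2] at hlim
  have h3 := hlim.const_mul c⁻¹
  have h4 : c⁻¹ * (c * ‖F‖) = ‖F‖ := by
    rw [← mul_assoc, inv_mul_cancel₀ hc.ne', one_mul]
  rw [h4] at h3
  refine h3.congr fun n => ?_
  rw [h1, ← mul_assoc, inv_mul_cancel₀ hc.ne', one_mul]

theorem dense_lipSE (hdense : Dense (SNA o : Set (Lip0 ℝ M o))) :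
    Dense (LipSE o : Set (Lip0 ℝ M o)) := by
  -- a nonzero function
  obtain ⟨g, hg⟩ := hdense.nonempty
  obtain ⟨p, q, hpq, -⟩ := hg
  have hnz : ∃ h : Lip0 ℝ M o, h ≠ 0 := by
    have hl : ∀ x y : M, |dist x p - dist y p| ≤ 1 * dist x y := by
      intro x y
      rw [one_mul]
      exact abs_dist_sub_le x y p
    refine ⟨mkLip o (fun x => dist x p) 1 zero_le_one hl, ?_⟩
    intro h0
    have h1 : ∀ x, (mkLip o (fun x => dist x p) 1 zero_le_one hl).fn x = 0 := by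
      intro x
      rw [h0]
      rfl
    have h2 := h1 p
    have h3 := h1 q
    rw [mkLip_fn] at h2 h3
    rw [dist_self] at h2
    have h4 : dist q p = 0 := by linarith
    exact hpq (dist_eq_zero.1 h4).symm
  obtain ⟨h, hh⟩ := hnz
  have hh0 : 0 < ‖h‖ := norm_pos_iff.2 hh
  rw [Metric.dense_iff]
  intro f ρ hρ
  obtain ⟨f1, hf1, hf1d⟩ : ∃ f1 : Lip0 ℝ M o, f1 ≠ 0 ∧ ‖f1 - f‖ < ρ / 2 := by
    by_cases hf : f = 0
    · refine ⟨(ρ / (4 * ‖h‖)) • h, ?_, ?_⟩
      · exact smul_ne_zero (by positivity) hh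
      · rw [hf, sub_zero, norm_smul, Real.norm_eq_abs, abs_of_pos (by positivity)]
        have : ρ / (4 * ‖h‖) * ‖h‖ = ρ / 4 := by field_simp
        rw [this]
        linarith
    · exact ⟨f, hf, by rw [_root_.sub_self, norm_zero]; positivity⟩
  have hn : 0 < ‖f1‖ := norm_pos_iff.2 hf1
  have hone : ‖‖f1‖⁻¹ • f1‖ = 1 := by
    rw [norm_smul, norm_inv, norm_norm, inv_mul_cancel₀ hn.ne']
  obtain ⟨F, hF, hFd⟩ := exists_near_one hdense hone (ρ := ρ / (2 * ‖f1‖)) (by positivity)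
  refine ⟨‖f1‖ • F, ?_, lipSE_smul hF hn⟩
  rw [Metric.mem_ball, dist_eq_norm]
  have h1 : ‖f1‖ • F - f = ‖f1‖ • (F - ‖f1‖⁻¹ • f1) + (f1 - f) := by
    rw [smul_sub, smul_smul, mul_inv_cancel₀ hn.ne', one_smul]
    abel
  rw [h1]
  have h2 : ‖‖f1‖ • (F - ‖f1‖⁻¹ • f1)‖ < ρ / 2 := by
    rw [norm_smul, norm_norm]
    have h3 : ‖f1‖ * ‖F - ‖f1‖⁻¹ • f1‖ < ‖f1‖ * (ρ / (2 * ‖f1‖)) :=
      mul_lt_mul_of_pos_left hFd hn
    have h4 : ‖f1‖ * (ρ / (2 * ‖f1‖)) = ρ / 2 := by field_simp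
    linarith
  have h3 := norm_add_le (‖f1‖ • (F - ‖f1‖⁻¹ • f1)) (f1 - f)
  linarith

end Q100.Sna
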