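import Pool.Agent.Q100.SnaCone

/-!
# The variational lemma
-/

set_option autoImplicit false

open Filter Topology

noncomputable section

namespace Q100.Sna

universe u

variable {M : Type u} [MetricSpace M]

/-- The slices of `G` are eventually contained in a small region around a pair of points. -/
def Region (G : M → ℝ) : Prop :=
  ∃ u v : M, 0 < dist u v ∧ ∃ t : ℝ, 0 < t ∧ ∀ x y, x ≠ y →
    ((G u - G v) / dist u v - t) * dist x y ≤ G x - G y → dist u x + dist v y ≤ dist u v / 3

theorem region_of_gap {g : M → ℝ} {ℓ : ℝ} (hg : ∀ x y, |g x - g y| ≤ ℓ * dist x y)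
    {η : ℝ} (hη : 0 < η) (hη1 : η ≤ 1) {u v : M} {μ τ ς e t : ℝ} (hD : 0 < dist u v) (hς : 0 < ς)
    (hς4 : ς ≤ 1 / 4) (hμ : μ = 1 - 4 * ς) (hτ0 : 0 ≤ τ) (hτ : τ ≤ ς * dist u v / 2)
    (hG : Gap u v μ τ) (he : ℓ * dist u v - (g u - g v) ≤ e) (ht : 0 < t)
    (h1 : e + t * dist u v < η * ς * dist u v)
    (h2 : η * τ + 3 * (e + t * dist u v) ≤ η * ς * (dist u v / 3)) :
    ∃ ψ : M → ℝ, (∀ x y, |ψ x - ψ y| ≤ 2 * dist x y) ∧ Region (fun x => g x + η * ψ x) := by
  obtain ⟨hp1, hp2, hp3⟩ := psi_main hD hς hς4 hμ hτ0 hτ hG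
  refine ⟨psi (1 - ς) u v, hp2, u, v, hD, t, ht, ?_⟩
  intro x y hxy h
  have hd : 0 < dist x y := dist_pos.2 hxy
  set D := dist u v with hDdef
  set ψ := psi (1 - ς) u v with hψ
  have h3 : (g u + η * ψ u - (g v + η * ψ v)) / D = (g u - g v) / D + η := by
    have : g u + η * ψ u - (g v + η * ψ v) = (g u - g v) + η * D := by
      rw [← hp1]; ring
    rw [this, add_div, mul_div_assoc, div_self hD.ne', mul_one]
  have h4 : ℓ - e / D ≤ (g u - g v) / D := by
    rw [sub_le_iff_le_add, ← add_div, le_div_iff₀ hD]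
    linarith
  have h5 : g x - g y ≤ ℓ * dist x y := (le_abs_self _).trans (hg x y)
  have h6 : (ℓ - e / D + η - t) * dist x y ≤ g x + η * ψ x - (g y + η * ψ y) := by
    refine le_trans ?_ h
    apply mul_le_mul_of_nonneg_right _ hd.le
    show ℓ - e / D + η - t ≤ (g u + η * ψ u - (g v + η * ψ v)) / D - t
    rw [h3]
    linarith
  have h7 : (η - e / D - t) * dist x y ≤ η * (ψ x - ψ y) := by nlinarith
  rcases hp3 x y with h8 | ⟨h8, h9⟩
  · exfalso
    have h10 : η * (ψ x - ψ y) ≤ η * ((1 - ς) * dist x y) := mul_le_mul_of_nonneg_left h8 hη.le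
    have h11 : (η * ς - e / D - t) * dist x y ≤ 0 := by nlinarith
    have h12 : 0 < η * ς - e / D - t := by
      have : e / D + t < η * ς := by
        have h13 : (e + t * D) / D < η * ς := by rw [div_lt_iff₀ hD]; exact h1
        rwa [add_div, mul_div_assoc, div_self hD.ne', mul_one] at h13
      linarith
    have := mul_pos h12 hd
    linarith
  · have h10 : η * (ψ x - ψ y) ≤ η * (dist x y + τ - ς * (dist u x + dist v y)) :=
      mul_le_mul_of_nonneg_left h8 hη.le
    have h11 : η * ς * (dist u x + dist v y) ≤ η * τ + (e / D + t) * dist x y := by nlinarith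
    by_cases hneg : e / D + t ≤ 0
    · have h12 : (e / D + t) * dist x y ≤ 0 := mul_nonpos_of_nonpos_of_nonneg hneg hd.le
      have h13 : (e / D + t) * D = e + t * D := by
        rw [add_mul, div_mul_cancel₀ _ hD.ne']
      have h14 : e + t * D ≤ 0 := by rw [← h13]; exact mul_nonpos_of_nonpos_of_nonneg hneg hD.le
      -- then use τ small
      have h15 : η * ς * (dist u x + dist v y) ≤ η * τ := by linarith
      have h16 : ς * (dist u x + dist v y) ≤ τ := by
        have : η * (ς * (dist u x + dist v y)) ≤ η * τ := by rw [← mul_assoc]; exact h15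
        exact le_of_mul_le_mul_left this hη
      -- need a + b ≤ D/3: from G lower bound
      have he0 : 0 ≤ ℓ * D - (g u - g v) := by
        have := (le_abs_self _).trans (hg u v)
        rw [← hDdef] at this
        linarith
      have : 0 < t * D := mul_pos ht hD
      linarith
    · push Not at hneg
      have h12 : (e / D + t) * dist x y ≤ (e / D + t) * (3 * D) :=
        mul_le_mul_of_nonneg_left h9 hneg.le
      have h13 : (e / D + t) * (3 * D) = 3 * (e + t * D) := by
        field_simp
      have h14 : η * ς * (dist u x + dist v y) ≤ η * ς * (D / 3) := by linarith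
      exact le_of_mul_le_mul_left h14 (mul_pos hη hς)

/-- The variational lemma. -/
theorem exists_short {g : M → ℝ} {ℓ : ℝ} (hℓ0 : 0 ≤ ℓ) (hℓ2 : ℓ ≤ 2)
    (hg : ∀ x y, |g x - g y| ≤ ℓ * dist x y)
    {η : ℝ} (hη : 0 < η) (hη1 : η ≤ 1)
    (hNR : ∀ ψ : M → ℝ, (∀ x y, |ψ x - ψ y| ≤ 2 * dist x y) → ¬ Region (fun x => g x + η * ψ x))
    {r L ε : ℝ} (hr : 0 < r) (hL : r ≤ L) (hε : 0 < ε) :
    ∃ ε₀ : ℝ, 0 < ε₀ ∧ ∀ p q : M, 3 * r ≤ dist p q → dist p q ≤ L →
      ℓ * dist p q - (g p - g q) ≤ ε₀ →
      ∃ u v : M, r ≤ dist u v ∧ dist u v < 3 * r ∧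
        dist p u + dist u v + dist v q ≤ dist p q + ε := by
  -- constants
  set lam : ℝ := 2000 / (η * r) with hlam
  have hlam0 : 0 < lam := by positivity
  set K : ℝ := lam + 2 / ε + 2 with hK
  have hKlam : lam ≤ K := by
    have : 0 < 2 / ε := by positivity
    linarith
  have hK2 : 2 ≤ K := by
    have : 0 < 2 / ε := by positivity
    linarith
  have hKε : 2 / ε ≤ K := by linarith
  have hK0 : 0 < K := by linarith
  set c0 : ℝ := lam / K * Real.exp (-lam * (L + 1)) with hc0
  have hc00 : 0 < c0 := by positivity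
  set τ : ℝ := min (c0 * η * r / 1000) (min (ε / 2) (1 / K)) with hτ
  have hτ0 : 0 < τ := by positivity
  have hτ1 : τ ≤ c0 * η * r / 1000 := min_le_left _ _
  have hτ2 : τ ≤ ε / 2 := (min_le_right _ _).trans (min_le_left _ _)
  have hτ3 : τ ≤ 1 / K := (min_le_right _ _).trans (min_le_right _ _)
  have hL0 : 0 < L := by linarith
  set t : ℝ := c0 * η * r / (100 * (L + 1)) with ht
  have ht0 : 0 < t := by positivity
  refine ⟨c0 * η * r / 1000, by positivity, ?_⟩
  intro p q hpq1 hpq2 hloss0
  -- the functional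
  let loss : M × M → ℝ := fun w => dist p w.1 + dist w.1 w.2 + dist w.2 q - dist p q
  have hloss_nonneg : ∀ w, 0 ≤ loss w := by
    intro w
    have h1 : dist p q ≤ dist p w.1 + dist w.1 w.2 + dist w.2 q := dist_triangle4 _ _ _ _
    show 0 ≤ dist p w.1 + dist w.1 w.2 + dist w.2 q - dist p q
    linarith
  let F : M × M → ℝ := fun w => Real.exp (-lam * dist w.1 w.2) - K * loss w
  let S : Set ℝ := F '' {w | r ≤ dist w.1 w.2}
  have hF1 : ∀ w, F w ≤ 1 := by
    intro w
    have h1 : Real.exp (-lam * dist w.1 w.2) ≤ 1 := by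
      rw [Real.exp_le_one_iff]
      have := mul_nonneg hlam0.le (dist_nonneg (x := w.1) (y := w.2))
      linarith
    have h2 := mul_nonneg hK0.le (hloss_nonneg w)
    show Real.exp (-lam * dist w.1 w.2) - K * loss w ≤ 1
    linarith
  have hbdd : BddAbove S := ⟨1, by rintro _ ⟨w, -, rfl⟩; exact hF1 w⟩
  have hmem0 : F (p, q) ∈ S := ⟨(p, q), by show r ≤ dist p q; linarith, rfl⟩
  obtain ⟨_, ⟨w, hw, rfl⟩, hwF⟩ := exists_lt_of_lt_csSup (⟨_, hmem0⟩ : S.Nonempty)
    (show sSup S - K * τ < sSup S by have := mul_pos hK0 hτ0; linarith)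
  have hmax : ∀ w', r ≤ dist w'.1 w'.2 → F w' < F w + K * τ := by
    intro w' hw'
    have := le_csSup hbdd ⟨w', hw', rfl⟩
    linarith
  obtain ⟨u, v⟩ := w
  have hw : r ≤ dist u v := hw
  set D := dist u v with hD
  have hD0 : 0 < D := lt_of_lt_of_le hr hw
  set c : ℝ := lam / K * Real.exp (-lam * D) with hc
  have hcpos : 0 < c := by positivity
  have hc1 : c ≤ 1 := by
    have h1 : Real.exp (-lam * D) ≤ 1 := by
      rw [Real.exp_le_one_iff]
      have := mul_nonneg hlam0.le hD0.le
      linarith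
    have h2 : lam / K ≤ 1 := by rw [div_le_one hK0]; exact hKlam
    calc c ≤ 1 * 1 := by
          rw [hc]
          exact mul_le_mul h2 h1 (Real.exp_pos _).le zero_le_one
      _ = 1 := one_mul 1
  -- loss bound
  have hlossw : loss (u, v) ≤ c / lam + τ := by
    have h1 := hmax (p, q) (by show r ≤ dist p q; linarith)
    have h2 : F (p, q) = Real.exp (-lam * dist p q) := by
      show Real.exp (-lam * dist p q) - K * (dist p p + dist p q + dist q q - dist p q) = _
      rw [dist_self, dist_self]; ring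
    have h3 : F (u, v) = Real.exp (-lam * D) - K * loss (u, v) := rfl
    rw [h2, h3] at h1
    have h4 : 0 < Real.exp (-lam * dist p q) := Real.exp_pos _
    have h5 : K * loss (u, v) ≤ Real.exp (-lam * D) + K * τ := by linarith
    have h6 : c / lam = Real.exp (-lam * D) / K := by
      rw [hc]; field_simp
    rw [h6]
    have h7 : K * (Real.exp (-lam * D) / K + τ) = Real.exp (-lam * D) + K * τ := by
      field_simp
    refine le_of_mul_le_mul_left ?_ hK0
    rw [h7]
    exact h5
  have hlossw1 : loss (u, v) ≤ 1 / K + τ := by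
    refine hlossw.trans ?_
    have h6 : c / lam = Real.exp (-lam * D) / K := by
      rw [hc]; field_simp
    have h1 : Real.exp (-lam * D) ≤ 1 := by
      rw [Real.exp_le_one_iff]
      have := mul_nonneg hlam0.le hD0.le
      linarith
    rw [h6]
    gcongr
  have hlossε : loss (u, v) ≤ ε := by
    have h1 : 1 / K ≤ ε / 2 := by
      rw [div_le_iff₀ hK0]
      have : ε / 2 * (2 / ε) = 1 := by field_simp
      nlinarith
    linarith
  have hdef : loss (u, v) = dist p u + D + dist v q - dist p q := rfl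
  by_cases hD3 : D < 3 * r
  · refine ⟨u, v, hw, hD3, ?_⟩
    rw [← hD]
    linarith
  push Not at hD3
  exfalso
  -- D ≤ L + 1
  have hDL : D ≤ L + 1 := by
    have h1 : loss (u, v) ≤ 1 := by
      have : 1 / K ≤ 1 / 2 := one_div_le_one_div_of_le two_pos hK2
      linarith
    have h2 : 0 ≤ dist p u := dist_nonneg
    have h3 : 0 ≤ dist v q := dist_nonneg
    linarith
  have hcc0 : c0 ≤ c := by
    rw [hc0, hc]
    apply mul_le_mul_of_nonneg_left _ (by positivity)
    apply Real.exp_le_exp.2
    nlinarith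
  -- the slope inequality
  have key : ∀ d' a : ℝ, ∀ w' : M × M, dist w'.1 w'.2 = d' → r ≤ d' →
      loss w' - loss (u, v) ≤ a + d' - D → c * (D - d') ≤ a + d' - D + τ := by
    intro d' a w' hw' hd' hl
    have h1 := hmax w' (by rw [hw']; exact hd')
    have h2 : F w' = Real.exp (-lam * d') - K * loss w' := by
      show Real.exp (-lam * dist w'.1 w'.2) - K * loss w' = _
      rw [hw']
    have h3 : F (u, v) = Real.exp (-lam * D) - K * loss (u, v) := rfl
    rw [h2, h3] at h1
    have h4 : Real.exp (-lam * D) * (1 + lam * (D - d')) ≤ Real.exp (-lam * d') := by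
      have h5 : Real.exp (-lam * d') = Real.exp (-lam * D) * Real.exp (lam * (D - d')) := by
        rw [← Real.exp_add]; congr 1; ring
      rw [h5]
      apply mul_le_mul_of_nonneg_left _ (Real.exp_pos _).le
      have := Real.add_one_le_exp (lam * (D - d'))
      linarith
    have h5 : K * (loss w' - loss (u, v)) ≤ K * (a + d' - D) := mul_le_mul_of_nonneg_left hl hK0.le
    have h6 : Real.exp (-lam * D) * (lam * (D - d')) ≤ K * (a + d' - D + τ) := by nlinarith
    have h7 : K * (c * (D - d')) = Real.exp (-lam * D) * (lam * (D - d')) := by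
      rw [hc]; field_simp
    refine le_of_mul_le_mul_left ?_ hK0
    rw [h7]
    exact h6
  set ς : ℝ := c / (4 * (1 + c)) with hς
  have h1c : 0 < 1 + c := by linarith
  have hς0 : 0 < ς := by positivity
  have hςc : c / 8 ≤ ς := by
    rw [hς]
    apply div_le_div_of_nonneg_left hcpos.le (by positivity)
    linarith
  have hς4 : ς ≤ 1 / 4 := by
    rw [hς, div_le_iff₀ (by positivity)]
    linarith
  have hμ : 1 / (1 + c) = 1 - 4 * ς := by
    rw [hς]; field_simp; ring
  have gapineq : ∀ a d' : ℝ, c * (D - d') ≤ a + d' - D + τ → D - 1 / (1 + c) * a - τ ≤ d' := by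
    intro a d' h
    have h1 : (1 + c) * (D - d') ≤ a + τ := by linarith
    have h2 : D - d' ≤ (a + τ) / (1 + c) := by
      rw [le_div_iff₀ h1c]; linarith
    have h3 : (a + τ) / (1 + c) = 1 / (1 + c) * a + τ / (1 + c) := by ring
    have h4 : τ / (1 + c) ≤ τ := div_le_self hτ0.le (by linarith)
    linarith
  have hGap : Gap u v (1 / (1 + c)) τ := by
    constructor
    · intro z hz
      rw [← hD] at hz ⊢
      apply gapineq
      have hzv : r ≤ dist z v := by
        have : D ≤ dist u z + dist z v := dist_triangle _ _ _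
        linarith
      refine key (dist z v) (dist u z) (z, v) rfl hzv ?_
      have h1 : loss (z, v) = dist p z + dist z v + dist v q - dist p q := rfl
      have h2 : dist p z ≤ dist p u + dist u z := dist_triangle _ _ _
      rw [h1, hdef]
      linarith
    · intro z hz
      rw [← hD] at hz ⊢
      apply gapineq
      have hzv : r ≤ dist u z := by
        have : D ≤ dist u z + dist z v := dist_triangle _ _ _
        rw [dist_comm z v] at this
        linarith
      refine key (dist u z) (dist v z) (u, z) rfl hzv ?_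
      have h1 : loss (u, z) = dist p u + dist u z + dist z q - dist p q := rfl
      have h2 : dist z q ≤ dist v z + dist v q := by
        rw [dist_comm v z]; exact dist_triangle _ _ _
      rw [h1, hdef]
      linarith
  -- the loss of g
  set x0 : ℝ := c * η * r with hx0
  have hx0pos : 0 < x0 := by positivity
  have hx0' : c0 * η * r ≤ x0 := by
    rw [hx0]; gcongr
  have he : ℓ * D - (g u - g v) ≤ x0 * 4 / 1000 := by
    have h1 : g p - g u ≤ ℓ * dist p u := (le_abs_self _).trans (hg p u)
    have h2 : g v - g q ≤ ℓ * dist v q := (le_abs_self _).trans (hg v q)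
    have h3 : ℓ * loss (u, v) ≤ 2 * loss (u, v) :=
      mul_le_mul_of_nonneg_right hℓ2 (hloss_nonneg _)
    have h4 : ℓ * loss (u, v) = ℓ * dist p u + ℓ * D + ℓ * dist v q - ℓ * dist p q := by
      rw [hdef]; ring
    have h5 : c / lam = x0 / 2000 := by
      rw [hx0, hlam]; field_simp
    rw [h5] at hlossw
    linarith
  have hDx : x0 * 3 ≤ c * η * D := by
    rw [hx0]
    have : c * η * (3 * r) ≤ c * η * D := mul_le_mul_of_nonneg_left hD3 (by positivity)
    linarith
  have hηςD : c * η * D / 8 ≤ η * ς * D := by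
    have : c / 8 * (η * D) ≤ ς * (η * D) := mul_le_mul_of_nonneg_right hςc (by positivity)
    linarith
  have htD : t * D ≤ x0 / 100 := by
    have h1 : t * D ≤ t * (L + 1) := mul_le_mul_of_nonneg_left hDL ht0.le
    have h2 : t * (L + 1) = c0 * η * r / 100 := by
      rw [ht]; field_simp
    linarith
  have hτx : τ ≤ x0 / 1000 := by linarith
  have hτς : τ ≤ ς * D / 2 := by
    have h1 : c / 8 * D ≤ ς * D := mul_le_mul_of_nonneg_right hςc hD0.le
    have h2 : x0 ≤ c * r := by
      rw [hx0]
      have : c * η * r = c * r * η := by ring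
      rw [this]
      exact mul_le_of_le_one_right (by positivity) hη1
    have h3 : c * (3 * r) ≤ c * D := mul_le_mul_of_nonneg_left hD3 hcpos.le
    have h4 : 0 < c * r := by positivity
    linarith
  obtain ⟨ψ, hψ1, hψ2⟩ := region_of_gap hg hη hη1 (μ := 1 / (1 + c)) (τ := τ) (ς := ς)
    (e := x0 * 4 / 1000) (t := t) hD0 hς0 hς4 hμ hτ0.le hτς hGap he ht0
    (by rw [← hD]; linarith)
    (by
      rw [← hD]
      have h1 : η * τ ≤ τ := mul_le_of_le_one_left hτ0.le hη1
      have h2 : η * ς * (D / 3) = η * ς * D / 3 := by ring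
      rw [h2]
      linarith)
  exact hNR ψ hψ1 hψ2

end Q100.Sna
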