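import Pool.Agent.Q100.SprDefs

/-!
# No stable phase retrieval embedding of `C[1, ω^ω]` into itself
-/

set_option autoImplicit false
open Filter Topology Ordinal

noncomputable section

namespace Q100.Spr

universe u

/-! ### Ordinals -/

/-- The least multiple of `ω ^ k` above `s`. -/
def cl (k : ℕ) (s : Ordinal.{0}) : Ordinal.{0} := sInf {x | s ≤ x ∧ ω ^ k ∣ x}

theorem opos (k : ℕ) : (0 : Ordinal.{0}) < ω ^ k := pow_pos omega0_pos k

theorem cl_mem (k : ℕ) (s : Ordinal.{0}) : s ≤ cl k s ∧ ω ^ k ∣ cl k s := by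
  have h : cl k s ∈ {x : Ordinal.{0} | s ≤ x ∧ ω ^ k ∣ x} := by
    refine csInf_mem ⟨ω ^ k * s, ?_, Dvd.intro s rfl⟩
    exact Ordinal.le_mul_right s (opos k)
  exact h

theorem cl_le {k : ℕ} {s x : Ordinal.{0}} (h1 : s ≤ x) (h2 : ω ^ k ∣ x) : cl k s ≤ x :=
  csInf_le' ⟨h1, h2⟩

theorem cl_zero (s : Ordinal.{0}) : cl 0 s = s := by
  refine le_antisymm (cl_le le_rfl ?_) (cl_mem 0 s).1
  rw [pow_zero]
  exact one_dvd s

theorem cl_cl (k : ℕ) (s : Ordinal.{0}) : cl (k + 1) (cl k s) = cl (k + 1) s := by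
  have h1 : cl k s ≤ cl (k + 1) s := cl_le (cl_mem (k + 1) s).1
    (dvd_trans (pow_dvd_pow ω (Nat.le_succ k)) (cl_mem (k + 1) s).2)
  refine le_antisymm (cl_le h1 (cl_mem (k + 1) s).2) (cl_le ?_ (cl_mem (k + 1) _).2)
  exact (cl_mem k s).1.trans (cl_mem (k + 1) _).1

theorem cl_top {n : ℕ} {s : Ordinal.{0}} (h1 : 1 ≤ s) (h2 : s ≤ ω ^ n) : cl n s = ω ^ n := by
  refine le_antisymm (cl_le h2 dvd_rfl) (Ordinal.le_of_dvd ?_ (cl_mem n s).2)
  intro h
  have h3 := (cl_mem n s).1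
  rw [h] at h3
  exact absurd (h1.trans h3) (by simp)

theorem cl_le_top {n k : ℕ} (hk : k ≤ n) {s : Ordinal.{0}} (h2 : s ≤ ω ^ n) :
    cl k s ≤ ω ^ n := cl_le h2 (pow_dvd_pow ω hk)

/-- Limits of strictly increasing sequences of multiples of `ω ^ k`. -/
theorem dvd_sup {k : ℕ} {s : ℕ → Ordinal.{0}} (hs : StrictMono s) (hd : ∀ i, ω ^ k ∣ s i) :
    ω ^ (k + 1) ∣ ⨆ i, s i := by
  choose q hq using hd
  have hqm : StrictMono q := by
    intro i j hij
    have h1 := hs hij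
    rw [hq i, hq j] at h1
    exact lt_of_mul_lt_mul_left' h1
  have hbdd : BddAbove (Set.range q) := Ordinal.bddAbove_of_small
  have h1 : (⨆ i, s i) = ω ^ k * ⨆ i, q i := by
    have h2 := (Ordinal.isNormal_mul_right (opos k)).map_iSup hbdd
    rw [h2]
    exact iSup_congr hq
  rw [h1, pow_succ]
  refine mul_dvd_mul_left _ ?_
  rw [← isSuccPrelimit_iff_omega0_dvd]
  refine Order.isSuccPrelimit_of_succ_lt (fun x hx => ?_)
  obtain ⟨i, hi⟩ := exists_lt_of_lt_ciSup hx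
  calc Order.succ x ≤ q i := Order.succ_le_of_lt hi
    _ < q (i + 1) := hqm (Nat.lt_succ_self i)
    _ ≤ ⨆ i, q i := le_ciSup hbdd (i + 1)

/-- Finiteness of large oscillations. -/
theorem finite_large {F : Ordinal.{0} → ℝ} (hF : Continuous F) (k : ℕ) {ε : ℝ} (hε : 0 < ε) :
    {s : Ordinal.{0} | ω ^ k ∣ s ∧ ε ≤ |F s - F (cl (k + 1) s)| ∧ s ≤ ω ^ ω}.Finite := by
  by_contra hinf
  have hinf' : Set.Infinite
      {s : Ordinal.{0} | ω ^ k ∣ s ∧ ε ≤ |F s - F (cl (k + 1) s)| ∧ s ≤ ω ^ ω} := hinf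
  let f := hinf'.natEmbedding
  obtain ⟨g, hg⟩ := exists_increasing_or_nonincreasing_subseq (· < ·)
    (fun i => ((f i : {s : Ordinal.{0} // _}) : Ordinal.{0}))
  have hinj : ∀ i j, ((f i) : Ordinal.{0}) = (f j) → i = j := fun i j h =>
    f.injective (Subtype.ext h)
  rcases hg with hg | hg
  · set s : ℕ → Ordinal.{0} := fun i => ((f (g i)) : Ordinal.{0}) with hs
    have hsm : StrictMono s := fun i j hij => hg i j hij
    have hbdd : BddAbove (Set.range s) := Ordinal.bddAbove_of_small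
    have hlim : Tendsto s atTop (𝓝 (⨆ i, s i)) := tendsto_atTop_ciSup hsm.monotone hbdd
    have hdvd := dvd_sup (k := k) hsm (fun i => (f (g i)).2.1)
    have hlim2 : Tendsto (fun i => cl (k + 1) (s i)) atTop (𝓝 (⨆ i, s i)) :=
      tendsto_of_tendsto_of_tendsto_of_le_of_le hlim tendsto_const_nhds
        (fun i => (cl_mem (k + 1) (s i)).1) (fun i => cl_le (le_ciSup hbdd i) hdvd)
    have h1 : Tendsto (fun i => |F (s i) - F (cl (k + 1) (s i))|) atTop
        (𝓝 |F (⨆ i, s i) - F (⨆ i, s i)|) :=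
      (((hF.tendsto _).comp hlim).sub ((hF.tendsto _).comp hlim2)).abs
    rw [_root_.sub_self, abs_zero] at h1
    obtain ⟨i, hi⟩ := (h1.eventually_lt_const hε).exists
    exact absurd (f (g i)).2.2.1 (not_le.2 hi)
  · have hanti : ∀ i j, i < j → ((f (g j)) : Ordinal.{0}) < (f (g i)) := by
      intro i j hij
      refine lt_of_le_of_ne (not_lt.1 (hg i j hij)) (fun h => ?_)
      have := hinj _ _ h
      exact absurd (g.injective this) (ne_of_gt hij)
    obtain ⟨_, ⟨i, rfl⟩, hi⟩ := WellFounded.has_min (wellFounded_lt (α := Ordinal.{0}))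
      (Set.range fun i => ((f (g i)) : Ordinal.{0})) ⟨_, 0, rfl⟩
    exact hi _ ⟨i + 1, rfl⟩ (hanti i (i + 1) (Nat.lt_succ_self i))

/-- Telescoping. -/
theorem abs_le_tel {F : Ordinal.{0} → ℝ} {n : ℕ} {B : ℝ}
    (h : ∀ k < n, ∀ s, 1 ≤ s → s ≤ ω ^ n → ω ^ k ∣ s → |F s - F (cl (k + 1) s)| ≤ B)
    (htop : |F (ω ^ n)| ≤ B) (s : Ordinal.{0}) (h1 : 1 ≤ s) (h2 : s ≤ ω ^ n) :
    |F s| ≤ ((n : ℝ) + 1) * B := by
  have key : ∀ k, k ≤ n → |F s| ≤ (k : ℝ) * B + |F (cl k s)| := by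
    intro k
    induction k with
    | zero =>
      intro _
      rw [cl_zero, Nat.cast_zero, zero_mul, zero_add]
    | succ k ih =>
      intro hk
      have h3 := ih (Nat.le_of_succ_le hk)
      have h4 := h k hk (cl k s) (h1.trans (cl_mem k s).1)
        (cl_le_top (Nat.le_of_succ_le hk) h2) (cl_mem k s).2
      rw [cl_cl] at h4
      have h5 : |F (cl k s)| ≤ |F (cl k s) - F (cl (k + 1) s)| + |F (cl (k + 1) s)| := by
        have := abs_add_le (F (cl k s) - F (cl (k + 1) s)) (F (cl (k + 1) s))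
        rwa [sub_add_cancel] at this
      push_cast
      linarith
  have h3 := key n le_rfl
  rw [cl_top h1 h2] at h3
  linarith

/-! ### Functions on `[1, ω^ω]` -/

/-- The space `[1, ω^ω]`. -/
abbrev K : Type 1 := OI (ω ^ ω)

theorem one_le_top : (1 : Ordinal.{0}) ≤ ω ^ ω := Order.one_le_iff_pos.2 (opow_pos ω omega0_pos)

theorem pow_lt_top (n : ℕ) : (ω : Ordinal.{0}) ^ n < ω ^ ω := by
  rw [← opow_natCast]
  exact (opow_lt_opow_iff_right one_lt_omega0).2 (natCast_lt_omega0 n)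

/-- Extension to all ordinals. -/
def ext (F : C(K, ℝ)) : Ordinal.{0} → ℝ := Set.IccExtend one_le_top F

theorem continuous_ext (F : C(K, ℝ)) : Continuous (ext F) := F.continuous.Icc_extend'

theorem ext_of_mem (F : C(K, ℝ)) {s : Ordinal.{0}} (hs : s ∈ Set.Icc (1 : Ordinal.{0}) (ω ^ ω)) :
    ext F s = F ⟨s, hs⟩ := Set.IccExtend_of_mem _ _ hs

theorem ext_val (F : C(K, ℝ)) (x : K) : ext F x.1 = F x := Set.IccExtend_val _ _ x

theorem abs_ext_le (F : C(K, ℝ)) (s : Ordinal.{0}) : |ext F s| ≤ ‖F‖ :=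
  F.norm_coe_le_norm _

theorem isClopen_Ioc (a b : Ordinal.{0}) : IsClopen (Set.Ioc a b) := by
  constructor
  · have h : Set.Ioc a b = Set.Icc (Order.succ a) b := by
      ext x
      rw [Set.mem_Ioc, Set.mem_Icc, Order.succ_le_iff]
    rw [h]
    exact isClosed_Icc
  · have h : Set.Ioc a b = Set.Ioo a (Order.succ b) := by
      ext x
      rw [Set.mem_Ioc, Set.mem_Ioo, Order.lt_succ_iff]
    rw [h]
    exact isOpen_Ioo

/-- The indicator function of `(a, a + ω ^ k]`. -/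
def D (a : Ordinal.{0}) (k : ℕ) : C(K, ℝ) :=
  ⟨(Subtype.val ⁻¹' Set.Ioc a (a + ω ^ k)).indicator 1, continuous_const.indicator (by
    intro x hx
    rw [((isClopen_Ioc a (a + ω ^ k)).preimage continuous_subtype_val).frontier_eq] at hx
    exact absurd hx (Set.notMem_empty x))⟩

theorem D_of_mem {a : Ordinal.{0}} {k : ℕ} {x : K} (h1 : a < x.1) (h2 : x.1 ≤ a + ω ^ k) :
    D a k x = 1 := Set.indicator_of_mem (show x ∈ Subtype.val ⁻¹' Set.Ioc a (a + ω ^ k) from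
      ⟨h1, h2⟩) _

theorem D_of_notMem {a : Ordinal.{0}} {k : ℕ} {x : K} (h : ¬ (a < x.1 ∧ x.1 ≤ a + ω ^ k)) :
    D a k x = 0 := Set.indicator_of_notMem (show x ∉ Subtype.val ⁻¹' Set.Ioc a (a + ω ^ k) from
      h) _

theorem norm_D_le (a : Ordinal.{0}) (k : ℕ) : ‖D a k‖ ≤ 1 := by
  rw [ContinuousMap.norm_le _ zero_le_one]
  intro x
  by_cases h : a < x.1 ∧ x.1 ≤ a + ω ^ k
  · rw [D_of_mem h.1 h.2, norm_one]
  · rw [D_of_notMem h, norm_zero]
    exact zero_le_one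

/-- The `i`-th left end point. -/
def lep (a : Ordinal.{0}) (k i : ℕ) : Ordinal.{0} := a + ω ^ k * i

theorem lep_add (a : Ordinal.{0}) (k i : ℕ) : lep a k i + ω ^ k = lep a k (i + 1) := by
  unfold lep
  rw [Nat.cast_add, Nat.cast_one, mul_add_one, add_assoc]

theorem lep_mono (a : Ordinal.{0}) (k : ℕ) : Monotone (lep a k) := by
  refine monotone_nat_of_le_succ (fun i => ?_)
  rw [← lep_add]
  exact le_self_add

theorem le_lep (a : Ordinal.{0}) (k i : ℕ) : a ≤ lep a k i := le_self_add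

theorem lep_lt (a : Ordinal.{0}) (k i : ℕ) : lep a k i + ω ^ k ≤ a + ω ^ (k + 1) := by
  rw [lep_add]
  unfold lep
  rw [pow_succ]
  gcongr
  exact (natCast_lt_omega0 (i + 1)).le

theorem sum_abs_le (φ : StrongDual ℝ C(K, ℝ)) (a : Ordinal.{0}) (k N : ℕ) :
    ∑ i ∈ Finset.range N, |φ (D (lep a k i) k)| ≤ ‖φ‖ := by
  classical
  let s : ℕ → ℝ := fun i => if 0 ≤ φ (D (lep a k i) k) then 1 else -1
  have hs1 : ∀ i, |s i| = 1 := by
    intro i
    by_cases h : 0 ≤ φ (D (lep a k i) k)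
    · rw [show s i = 1 from if_pos h, abs_one]
    · rw [show s i = -1 from if_neg h, abs_neg, abs_one]
  have hs2 : ∀ i, |φ (D (lep a k i) k)| = s i * φ (D (lep a k i) k) := by
    intro i
    by_cases h : 0 ≤ φ (D (lep a k i) k)
    · rw [show s i = 1 from if_pos h, abs_of_nonneg h, one_mul]
    · rw [show s i = -1 from if_neg h, abs_of_neg (not_le.1 h), neg_one_mul]
  set g : C(K, ℝ) := ∑ i ∈ Finset.range N, s i • D (lep a k i) k with hg
  have hgn : ‖g‖ ≤ 1 := by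
    rw [ContinuousMap.norm_le _ zero_le_one]
    intro x
    have hgx : g x = ∑ i ∈ Finset.range N, s i * D (lep a k i) k x := by
      rw [hg, ContinuousMap.sum_apply]
      rfl
    rw [hgx]
    by_cases hex : ∃ i ∈ Finset.range N, lep a k i < x.1 ∧ x.1 ≤ lep a k i + ω ^ k
    · obtain ⟨i, hi, h1, h2⟩ := hex
      rw [Finset.sum_eq_single i]
      · rw [D_of_mem h1 h2, mul_one, Real.norm_eq_abs, hs1]
      · intro j _ hj
        rw [D_of_notMem, mul_zero]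
        rintro ⟨h3, h4⟩
        rcases lt_or_gt_of_ne hj with h | h
        · have h5 := lep_mono a k (Nat.succ_le_of_lt h)
          rw [lep_add] at h4
          exact absurd (h1.trans_le h4) (not_lt.2 h5)
        · have h5 := lep_mono a k (Nat.succ_le_of_lt h)
          rw [lep_add] at h2
          exact absurd (h3.trans_le h2) (not_lt.2 h5)
      · intro h
        exact absurd hi h
    · push Not at hex
      rw [Finset.sum_eq_zero, norm_zero]
      · exact zero_le_one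
      · intro i hi
        rw [D_of_notMem, mul_zero]
        rintro ⟨h1, h2⟩
        exact absurd h2 (not_le.2 (hex i hi h1))
  calc ∑ i ∈ Finset.range N, |φ (D (lep a k i) k)| = φ g := by
        rw [hg, map_sum]
        refine Finset.sum_congr rfl (fun i _ => ?_)
        rw [hs2, map_smul, _root_.smul_eq_mul]
    _ ≤ ‖φ g‖ := Real.le_norm_self _
    _ ≤ ‖φ‖ * ‖g‖ := φ.le_opNorm g
    _ ≤ ‖φ‖ * 1 := mul_le_mul_of_nonneg_left hgn (norm_nonneg φ)
    _ = ‖φ‖ := mul_one _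

theorem exists_small (G : Finset (StrongDual ℝ C(K, ℝ))) (a : Ordinal.{0}) (k : ℕ) {ε : ℝ}
    (hε : 0 < ε) : ∃ i : ℕ, ∀ φ ∈ G, |φ (D (lep a k i) k)| < ε := by
  by_contra hcon
  push Not at hcon
  obtain ⟨N, hN⟩ := exists_nat_gt ((∑ φ ∈ G, ‖φ‖) / ε)
  have h1 : (N : ℝ) * ε ≤ ∑ i ∈ Finset.range N, ∑ φ ∈ G, |φ (D (lep a k i) k)| := by
    calc (N : ℝ) * ε = ∑ i ∈ Finset.range N, ε := by
          rw [Finset.sum_const, Finset.card_range, _root_.nsmul_eq_mul]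
      _ ≤ _ := by
          refine Finset.sum_le_sum (fun i _ => ?_)
          obtain ⟨φ, hφ, h⟩ := hcon i
          exact h.trans (Finset.single_le_sum (f := fun φ => |φ (D (lep a k i) k)|)
            (fun φ _ => abs_nonneg _) hφ)
  rw [Finset.sum_comm] at h1
  have h2 : ∑ φ ∈ G, ∑ i ∈ Finset.range N, |φ (D (lep a k i) k)| ≤ ∑ φ ∈ G, ‖φ‖ :=
    Finset.sum_le_sum (fun φ _ => sum_abs_le φ a k N)
  rw [div_lt_iff₀ hε] at hN
  linarith

/-- The tree argument. -/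
theorem tree (Λ : Set (StrongDual ℝ C(K, ℝ))) {M : ℝ} (hM0 : 0 ≤ M) (hM : ∀ φ ∈ Λ, ‖φ‖ ≤ M)
    (hfin : ∀ (v : C(K, ℝ)) (ε : ℝ), 0 < ε → {φ ∈ Λ | ε ≤ |φ v|}.Finite) {ε : ℝ}
    (hε : 0 < ε) (m : ℕ) : ∀ (a : Ordinal.{0}), a + ω ^ m ≤ ω ^ ω →
    ∀ G : Finset (StrongDual ℝ C(K, ℝ)), ∃ (g : C(K, ℝ)) (x : K), a < x.1 ∧ x.1 ≤ a + ω ^ m ∧
      g x = m ∧ (∀ φ ∈ Λ, |φ g| ≤ M + m * ε) ∧ ∀ φ ∈ G, |φ g| ≤ m * ε := by
  classical
  induction m with
  | zero =>
    intro a ha G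
    have h1 : (1 : Ordinal.{0}) ≤ a + ω ^ 0 := by
      rw [pow_zero]
      exact le_add_self
    refine ⟨0, ⟨a + ω ^ 0, h1, ha⟩, ?_, le_rfl, ?_, fun φ _ => ?_, fun φ _ => ?_⟩
    · show a < a + ω ^ 0
      rw [pow_zero]
      exact lt_add_one a
    · simp
    · rw [map_zero, abs_zero, Nat.cast_zero, zero_mul, add_zero]
      exact hM0
    · rw [map_zero, abs_zero, Nat.cast_zero, zero_mul]
  | succ m ih =>
    intro a ha G
    obtain ⟨i, hi⟩ := exists_small G a m hε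
    set b := lep a m i with hb
    have hbd : b + ω ^ m ≤ a + ω ^ (m + 1) := lep_lt a m i
    obtain ⟨g, x, hx1, hx2, hgx, hg1, hg2⟩ := ih b (hbd.trans ha)
      (G ∪ (hfin (D b m) ε hε).toFinset)
    refine ⟨D b m + g, x, (le_lep a m i).trans_lt hx1, hx2.trans hbd, ?_, fun φ hφ => ?_,
      fun φ hφ => ?_⟩
    · rw [ContinuousMap.add_apply, D_of_mem hx1 hx2, hgx]
      push_cast
      ring
    · rw [map_add]
      have h1 := abs_add_le (φ (D b m)) (φ g)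
      by_cases h2 : ε ≤ |φ (D b m)|
      · have h3 := hg2 φ (Finset.mem_union_right _ ((hfin (D b m) ε hε).mem_toFinset.2 ⟨hφ, h2⟩))
        have h4 : |φ (D b m)| ≤ M := by
          calc |φ (D b m)| ≤ ‖φ‖ * ‖D b m‖ := φ.le_opNorm _
            _ ≤ M * 1 := mul_le_mul (hM φ hφ) (norm_D_le b m) (norm_nonneg _) hM0
            _ = M := mul_one M
        push_cast
        linarith
      · have h3 := hg1 φ hφ
        push_cast
        linarith [not_le.1 h2]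
    · rw [map_add]
      have h1 := abs_add_le (φ (D b m)) (φ g)
      have h2 := hi φ hφ
      have h3 := hg2 φ (Finset.mem_union_left _ hφ)
      push_cast
      linarith

/-- Evaluation functionals. -/
def evf (T : C(K, ℝ) →L[ℝ] C(K, ℝ)) (s : Ordinal.{0}) : StrongDual ℝ C(K, ℝ) :=
  LinearMap.mkContinuous
    { toFun := fun v => ext (T v) s
      map_add' := fun v w => by rw [map_add]; rfl
      map_smul' := fun c v => by rw [map_smul]; rfl } ‖T‖
    (fun v => (abs_ext_le (T v) s).trans (T.le_opNorm v))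

theorem evf_apply (T : C(K, ℝ) →L[ℝ] C(K, ℝ)) (s : Ordinal.{0}) (v : C(K, ℝ)) :
    evf T s v = ext (T v) s := rfl

theorem norm_evf_le (T : C(K, ℝ) →L[ℝ] C(K, ℝ)) (s : Ordinal.{0}) : ‖evf T s‖ ≤ ‖T‖ :=
  LinearMap.mkContinuous_norm_le _ (norm_nonneg T) _

/-- `C[1, ω^ω]` does not embed into `C[1, ω^n]`. -/
theorem no_emb (T : C(K, ℝ) →L[ℝ] C(K, ℝ)) (n : ℕ) (C' : ℝ) (hC' : 0 ≤ C')
    (h : ∀ (v : C(K, ℝ)) (B : ℝ), (∀ s, 1 ≤ s → s ≤ ω ^ n → |ext (T v) s| ≤ B) →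
      ‖v‖ ≤ C' * B) : False := by
  classical
  set Λ : Set (StrongDual ℝ C(K, ℝ)) :=
    {φ | φ = evf T (ω ^ n) ∨ ∃ k < n, ∃ s : Ordinal.{0}, s ≤ ω ^ n ∧ ω ^ k ∣ s ∧
      φ = evf T s - evf T (cl (k + 1) s)} with hΛ
  have hM : ∀ φ ∈ Λ, ‖φ‖ ≤ 2 * ‖T‖ := by
    rintro φ (rfl | ⟨k, hk, s, hs1, hs2, rfl⟩)
    · have := norm_evf_le T (ω ^ n)
      have := norm_nonneg T
      linarith
    · calc ‖evf T s - evf T (cl (k + 1) s)‖ ≤ ‖evf T s‖ + ‖evf T (cl (k + 1) s)‖ :=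
            norm_sub_le (evf T s) (evf T (cl (k + 1) s))
        _ ≤ 2 * ‖T‖ := by linarith [norm_evf_le T s, norm_evf_le T (cl (k + 1) s)]
  have hfin : ∀ (v : C(K, ℝ)) (ε : ℝ), 0 < ε → {φ ∈ Λ | ε ≤ |φ v|}.Finite := by
    intro v ε hε
    have h1 : {φ ∈ Λ | ε ≤ |φ v|} ⊆ {evf T (ω ^ n)} ∪ ⋃ k ∈ Finset.range n,
        (fun s => evf T s - evf T (cl (k + 1) s)) ''
          {s : Ordinal.{0} | ω ^ k ∣ s ∧ ε ≤ |ext (T v) s - ext (T v) (cl (k + 1) s)| ∧
            s ≤ ω ^ ω} := by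
      rintro φ ⟨rfl | ⟨k, hk, s, hs1, hs2, rfl⟩, hφ⟩
      · exact Or.inl rfl
      · right
        refine Set.mem_iUnion₂.2 ⟨k, Finset.mem_range.2 hk, s, ⟨hs2, ?_, ?_⟩, rfl⟩
        · exact hφ
        · exact hs1.trans (pow_lt_top n).le
    refine Set.Finite.subset ?_ h1
    refine (Set.finite_singleton _).union ?_
    refine Set.Finite.biUnion (Finset.finite_toSet _) (fun k _ => Set.Finite.image _ ?_)
    exact finite_large (continuous_ext (T v)) k hε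
  obtain ⟨m, hm⟩ := exists_nat_gt (C' * (((n : ℝ) + 1) * (2 * ‖T‖ + 1)))
  have hε : (0 : ℝ) < 1 / ((m : ℝ) + 1) := by positivity
  obtain ⟨g, x, -, -, hgx, hg, -⟩ := tree Λ (by positivity) hM hfin hε m 0
    (by rw [zero_add]; exact (pow_lt_top m).le) ∅
  have hg' : ∀ φ ∈ Λ, |φ g| ≤ 2 * ‖T‖ + 1 := by
    intro φ hφ
    have h1 := hg φ hφ
    have h2 : (m : ℝ) * (1 / ((m : ℝ) + 1)) ≤ 1 := by
      rw [mul_one_div, div_le_one (by positivity)]
      linarith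
    linarith
  have h1 := h g (((n : ℝ) + 1) * (2 * ‖T‖ + 1)) (fun s hs1 hs2 => by
    refine abs_le_tel (fun k hk s hs1 hs2 hs3 => ?_) ?_ s hs1 hs2
    · exact hg' _ (Or.inr ⟨k, hk, s, hs2, hs3, rfl⟩)
    · exact hg' _ (Or.inl rfl))
  have h2 : (m : ℝ) ≤ ‖g‖ := by
    rw [← hgx]
    exact (le_abs_self _).trans (g.norm_coe_le_norm x)
  linarith

/-- The top point. -/
def top : K := ⟨ω ^ ω, one_le_top, le_rfl⟩

theorem min_abs_eq (a b : ℝ) : |(|a| - |b|)| = min |a - b| |a + b| := by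
  rcases le_total 0 a with ha | ha <;> rcases le_total 0 b with hb | hb
  · rw [abs_of_nonneg ha, abs_of_nonneg hb, abs_of_nonneg (add_nonneg ha hb), min_eq_left]
    exact abs_sub_le_of_nonneg_of_le ha (by linarith) hb (by linarith)
  · rw [abs_of_nonneg ha, abs_of_nonpos hb, sub_neg_eq_add, min_eq_right]
    rw [abs_of_nonneg (by linarith : 0 ≤ a - b)]
    exact abs_le.2 ⟨by linarith, by linarith⟩
  · rw [abs_of_nonpos ha, abs_of_nonneg hb, min_eq_right]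
    · rw [← abs_neg]
      congr 1
      ring
    · rw [abs_of_nonpos (by linarith : a - b ≤ 0)]
      exact abs_le.2 ⟨by linarith, by linarith⟩
  · rw [abs_of_nonpos ha, abs_of_nonpos hb, min_eq_left]
    · rw [← abs_neg]
      congr 1
      ring
    · rw [abs_of_nonpos (by linarith : a + b ≤ 0)]
      exact abs_le.2 ⟨by linarith, by linarith⟩

/-- There is a nonzero function killed by `v ↦ (T v)(ω^ω)`. -/
theorem exists_kernel (T : C(K, ℝ) →L[ℝ] C(K, ℝ)) : ∃ u : C(K, ℝ), u ≠ 0 ∧ T u top = 0 := by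
  have hx1 : (1 : Ordinal.{0}) ∈ Set.Icc (1 : Ordinal.{0}) (ω ^ ω) := ⟨le_rfl, one_le_top⟩
  have h2 : (1 : Ordinal.{0}) + 1 ≤ ω ^ ω := by
    have h3 : (1 : Ordinal.{0}) + 1 ≤ ω ^ 1 := by
      rw [pow_one]
      have : ((2 : ℕ) : Ordinal.{0}) < ω := natCast_lt_omega0 2
      have h4 : ((2 : ℕ) : Ordinal.{0}) = 1 + 1 := by norm_num [one_add_one_eq_two]
      rw [← h4]
      exact this.le
    exact h3.trans (pow_lt_top 1).le
  have hx2 : (1 : Ordinal.{0}) + 1 ∈ Set.Icc (1 : Ordinal.{0}) (ω ^ ω) := ⟨le_self_add, h2⟩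
  set e₁ := D 0 0 with he₁
  set e₂ := D 1 0 with he₂
  have h11 : e₁ ⟨1, hx1⟩ = 1 := D_of_mem (by simp) (by simp)
  have h12 : e₁ ⟨1 + 1, hx2⟩ = 0 := D_of_notMem (by simp)
  have h21 : e₂ ⟨1, hx1⟩ = 0 := D_of_notMem (by simp)
  have h22 : e₂ ⟨1 + 1, hx2⟩ = 1 := D_of_mem (by simp) (by simp)
  by_cases h : T e₁ top = 0
  · refine ⟨e₁, fun h0 => ?_, h⟩
    rw [h0] at h11
    simp at h11
  · refine ⟨(T e₂ top) • e₁ - (T e₁ top) • e₂, fun h0 => h ?_, ?_⟩
    · have h3 : ((T e₂ top) • e₁ - (T e₁ top) • e₂) ⟨1 + 1, hx2⟩ = 0 := by rw [h0]; rfl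
      have h4 : (T e₂ top) * e₁ ⟨1 + 1, hx2⟩ - (T e₁ top) * e₂ ⟨1 + 1, hx2⟩ = 0 := h3
      rw [h12, h22] at h4
      linarith
    · rw [map_sub, map_smul, map_smul]
      show (T e₂ top) * T e₁ top - (T e₁ top) * T e₂ top = 0
      ring

theorem exists_nat_pow {β : Ordinal.{0}} (hβ : β < ω ^ ω) : ∃ n : ℕ, β ≤ ω ^ n := by
  obtain ⟨c, hc, h⟩ := (lt_opow_of_isSuccLimit omega0_ne_zero isSuccLimit_omega0).1 hβ
  obtain ⟨n, rfl⟩ := lt_omega0.1 hc
  rw [opow_natCast] at h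
  exact ⟨n, h.le⟩

/-- Main theorem. -/
theorem main (T : C(K, ℝ) →L[ℝ] C(K, ℝ)) (c : ℝ) (hc : 0 < c) (hT : ∀ v, c * ‖v‖ ≤ ‖T v‖)
    (C : ℝ) : ¬ DoesSPR (LinearMap.range T.toLinearMap) C := by
  intro hSPR
  -- the pair inequality
  have hpair : ∀ u v : C(K, ℝ), ∀ δ : ℝ, (∀ t : K, min |T u t| |T v t| ≤ δ) → 0 ≤ δ →
      min ‖T u‖ ‖T v‖ ≤ |C| * δ := by
    intro u v δ hδ hδ0
    set f : C(K, ℝ) := T ((1 / 2 : ℝ) • (v + u)) with hf
    set g : C(K, ℝ) := T ((1 / 2 : ℝ) • (v - u)) with hg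
    have h1 : f - g = T u := by
      rw [hf, hg, ← map_sub]
      congr 1
      rw [← smul_sub]
      have : v + u - (v - u) = (2 : ℝ) • u := by
        rw [two_smul]; abel
      rw [this, smul_smul]
      norm_num
    have h2 : f + g = T v := by
      rw [hf, hg, ← map_add]
      congr 1
      rw [← smul_add]
      have : v + u + (v - u) = (2 : ℝ) • v := by
        rw [two_smul]; abel
      rw [this, smul_smul]
      norm_num
    have h3 := hSPR f ⟨_, rfl⟩ g ⟨_, rfl⟩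
    rw [h1, h2] at h3
    have h4 : ‖|f| - |g|‖ ≤ δ := by
      rw [ContinuousMap.norm_le _ hδ0]
      intro t
      have h5 : (|f| - |g|) t = |f t| - |g t| := rfl
      rw [h5, Real.norm_eq_abs, min_abs_eq]
      have h6 : f t - g t = T u t := by rw [← h1]; rfl
      have h7 : f t + g t = T v t := by rw [← h2]; rfl
      rw [h6, h7]
      exact hδ t
    calc min ‖T u‖ ‖T v‖ ≤ C * ‖|f| - |g|‖ := h3
      _ ≤ |C| * ‖|f| - |g|‖ := mul_le_mul_of_nonneg_right (le_abs_self C) (norm_nonneg _)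
      _ ≤ |C| * δ := mul_le_mul_of_nonneg_left h4 (abs_nonneg C)
  -- a normalized kernel vector
  obtain ⟨u, hu0, hutop⟩ := exists_kernel T
  have hun : 0 < ‖u‖ := norm_pos_iff.2 hu0
  set δ : ℝ := c / (2 * (|C| + 1)) with hδ
  have hδ0 : 0 < δ := by positivity
  have hCδ : |C| * δ < c := by
    rw [hδ, mul_div_assoc', div_lt_iff₀ (by positivity)]
    nlinarith [abs_nonneg C]
  -- `T u` is small near the top
  have hsmall : ∃ β < (ω : Ordinal.{0}) ^ ω, ∀ s ∈ Set.Ioc β (ω ^ ω),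
      |ext (T u) s| < δ * ‖u‖ := by
    have h1 : Tendsto (fun s => |ext (T u) s|) (𝓝 (ω ^ ω)) (𝓝 |ext (T u) (ω ^ ω)|) :=
      ((continuous_ext (T u)).abs).tendsto _
    have h2 : ext (T u) (ω ^ ω) = 0 := by
      rw [← hutop, ← ext_val (T u) top]
      rfl
    rw [h2, abs_zero] at h1
    have h3 := h1.eventually_lt_const (show 0 < δ * ‖u‖ by positivity)
    obtain ⟨β, hβ, hβ2⟩ := exists_Ioc_subset_of_mem_nhds h3 ⟨0, opow_pos ω omega0_pos⟩
    exact ⟨β, hβ, fun s hs => hβ2 hs⟩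
  obtain ⟨β, hβ, hβs⟩ := hsmall
  obtain ⟨n, hn⟩ := exists_nat_pow hβ
  refine no_emb T n (1 / δ) (by positivity) (fun v B hB => ?_)
  by_cases hv : v = 0
  · rw [hv, norm_zero]
    have h1 := hB (ω ^ n) (Order.one_le_iff_pos.2 (opos n)) le_rfl
    have h2 : 0 ≤ B := (abs_nonneg _).trans h1
    positivity
  · have hvn : 0 < ‖v‖ := norm_pos_iff.2 hv
    have hB0 : 0 ≤ B :=
      (abs_nonneg _).trans (hB (ω ^ n) (Order.one_le_iff_pos.2 (opos n)) le_rfl)
    by_contra hcon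
    push Not at hcon
    have hBv : B / ‖v‖ < δ := by
      rw [div_lt_iff₀ hvn]
      rw [one_div, inv_mul_lt_iff₀ hδ0] at hcon
      exact hcon
    have h1 := hpair (‖u‖⁻¹ • u) (‖v‖⁻¹ • v) δ (fun t => by
      by_cases ht : t.1 ≤ ω ^ n
      · refine (min_le_right _ _).trans ?_
        rw [map_smul]
        show |‖v‖⁻¹ * T v t| ≤ δ
        rw [abs_mul, abs_of_pos (inv_pos.2 hvn)]
        have h2 := hB t.1 t.2.1 ht
        rw [ext_val] at h2
        calc ‖v‖⁻¹ * |T v t| ≤ ‖v‖⁻¹ * B := mul_le_mul_of_nonneg_left h2 (inv_pos.2 hvn).le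
          _ = B / ‖v‖ := by rw [div_eq_inv_mul]
          _ ≤ δ := hBv.le
      · refine (min_le_left _ _).trans ?_
        rw [map_smul]
        show |‖u‖⁻¹ * T u t| ≤ δ
        rw [abs_mul, abs_of_pos (inv_pos.2 hun)]
        have h2 := hβs t.1 ⟨hn.trans_lt (not_le.1 ht), t.2.2⟩
        rw [ext_val] at h2
        rw [inv_mul_le_iff₀ hun, mul_comm]
        exact h2.le) hδ0.le
    have h2 : c ≤ ‖T (‖u‖⁻¹ • u)‖ := by
      have h3 := hT (‖u‖⁻¹ • u)
      rwa [norm_smul, norm_inv, norm_norm, inv_mul_cancel₀ hun.ne', mul_one] at h3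
    have h3 : c ≤ ‖T (‖v‖⁻¹ • v)‖ := by
      have h3 := hT (‖v‖⁻¹ • v)
      rwa [norm_smul, norm_inv, norm_norm, inv_mul_cancel₀ hvn.ne', mul_one] at h3
    have h4 := le_min h2 h3
    linarith

end Q100.Spr
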