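import Mathlib

/-!
# Stable phase retrieval in `C[1, β]`
-/

set_option autoImplicit false
open Filter Topology Ordinal

noncomputable section

namespace Q100.Spr

universe u

/-- The ordinal interval `[1, β]`. -/
abbrev OI (β : Ordinal.{0}) : Type 1 := ↥(Set.Icc (1 : Ordinal.{0}) β)

/-- The subspace `E` of `C(K)` does `C`-stable phase retrieval. -/
def DoesSPR {K : Type u} [TopologicalSpace K] [CompactSpace K] (E : Submodule ℝ C(K, ℝ))
    (C : ℝ) : Prop :=
  ∀ f ∈ E, ∀ g ∈ E, min ‖f - g‖ ‖f + g‖ ≤ C * ‖|f| - |g|‖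

end Q100.Spr
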