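import Pool.Agent.Q100.BasicEll1

/-!
# A biorthogonal system with `[x_n] + [f_n]_⊥` closed and `(f_n)` not equivalent to `(φ_n)`

The space is `ℓ₁ × C_b(ℝ)`, with `x_n = (e_n, 0)` and `f_n = (e_n*, δ_{q_n})` where `(q_n)` is an
enumeration of the rationals.
-/

set_option autoImplicit false
open Filter Topology BoundedContinuousFunction
open scoped ENNReal

noncomputable section

namespace Q100.Basic

universe w

variable (𝕜 : Type w) [RCLike 𝕜]

/-- The Banach space of the example. -/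
abbrev ESp : Type w := lp (fun _ : ℕ => 𝕜) 1 × (ℝ →ᵇ 𝕜)

/-- An enumeration of the rationals. -/
def qn : ℕ ≃ ℚ := (Denumerable.eqv ℚ).symm

/-- The vectors `x_n = (e_n, 0)`. -/
def xs (n : ℕ) : ESp 𝕜 := (lp.single 1 n (1 : 𝕜), 0)

/-- The functionals `f_n = (e_n*, δ_{q_n})`. -/
def fs (n : ℕ) : ESp 𝕜 →L[𝕜] 𝕜 :=
  (lp.evalCLM 𝕜 (fun _ : ℕ => 𝕜) 1 n).comp (ContinuousLinearMap.fst 𝕜 _ _) +
    (BoundedContinuousFunction.evalCLM 𝕜 ((qn n : ℚ) : ℝ)).comp (ContinuousLinearMap.snd 𝕜 _ _)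

variable {𝕜}

@[simp] theorem fs_apply (n : ℕ) (z : ESp 𝕜) : fs 𝕜 n z = z.1 n + z.2 (qn n : ℝ) := rfl

theorem biorth : Biorthogonal (xs 𝕜) (fs 𝕜) := by
  intro i j
  rw [fs_apply]
  simp only [xs, lp.single_apply, BoundedContinuousFunction.coe_zero, Pi.zero_apply, add_zero]
  rw [Pi.single_apply]

theorem norm_one_eq (z : lp (fun _ : ℕ => 𝕜) 1) : HasSum (fun n => ‖z n‖) ‖z‖ := by
  have h := lp.hasSum_norm (p := 1) (by simp) z
  simpa using h

theorem xs_ell1 : Ell1Type (𝕜 := 𝕜) 1 1 (xs 𝕜) where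
  hc := one_pos
  upper := by
    intro n
    rw [xs, Prod.norm_mk, lp.norm_single (by simp)]
    simp
  lower := by
    intro a N
    rw [one_mul]
    refine le_trans ?_ (norm_fst_le _)
    have h1 := norm_one_eq (∑ n ∈ Finset.range N, a n • xs 𝕜 n).1
    have h2 : ∀ k ∈ Finset.range N, ‖a k‖ = ‖(∑ n ∈ Finset.range N, a n • xs 𝕜 n).1 k‖ := by
      intro k hk
      rw [Prod.fst_sum]
      simp only [xs, Prod.smul_mk, lp.coeFn_sum, Finset.sum_apply, lp.coeFn_smul, Pi.smul_apply,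
        lp.single_apply, smul_eq_mul]
      rw [Finset.sum_eq_single k]
      · simp
      · intro b _ hb
        simp [hb.symm]
      · intro h; exact absurd hk h
    rw [Finset.sum_congr rfl h2]
    exact sum_le_hasSum _ (fun _ _ => norm_nonneg _) h1

/-- A bounded continuous function with prescribed signs at finitely many rationals. -/
theorem exists_signs (s : Finset ℕ) (σ : ℕ → ℝ) (hσ : ∀ n, |σ n| ≤ 1) :
    ∃ h : ℝ →ᵇ 𝕜, ‖h‖ ≤ 1 ∧ ∀ n ∈ s, h (qn n : ℝ) = (σ n : 𝕜) := by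
  classical
  let S : Set ℝ := ((s.image (fun n => ((qn n : ℚ) : ℝ)) : Finset ℝ) : Set ℝ)
  have hS : S.Finite := Finset.finite_toSet _
  have hfin : Finite S := hS
  have hdisc : DiscreteTopology S := inferInstance
  let σ' : ℝ → ℝ := fun t => if h : ∃ n, ((qn n : ℚ) : ℝ) = t then σ h.choose else 0
  have hσ'1 : ∀ t, |σ' t| ≤ 1 := by
    intro t
    by_cases h : ∃ n, ((qn n : ℚ) : ℝ) = t
    · simp only [σ', dif_pos h]; exact hσ _
    · simp only [σ', dif_neg h, abs_zero]; exact zero_le_one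
  have hσ'2 : ∀ n, σ' (qn n : ℝ) = σ n := by
    intro n
    have h : ∃ m, ((qn m : ℚ) : ℝ) = ((qn n : ℚ) : ℝ) := ⟨n, rfl⟩
    simp only [σ', dif_pos h]
    congr 1
    have := h.choose_spec
    exact qn.injective (by exact_mod_cast this)
  let f : S →ᵇ ℝ := BoundedContinuousFunction.ofNormedAddCommGroup (fun t => σ' t)
    continuous_of_discreteTopology 1 (fun t => hσ'1 t)
  obtain ⟨g, hg1, hg2⟩ := exists_norm_eq_domRestrict_eq_of_closed f hS.isClosed
  have hf : ‖f‖ ≤ 1 := BoundedContinuousFunction.norm_ofNormedAddCommGroup_le _ zero_le_one _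
  let h : ℝ →ᵇ 𝕜 := BoundedContinuousFunction.ofNormedAddCommGroup
    (fun t => ((g t : ℝ) : 𝕜)) (RCLike.continuous_ofReal.comp g.continuous) 1 (fun t => by
      rw [RCLike.norm_ofReal]
      exact (g.norm_coe_le_norm t).trans (hg1.le.trans hf))
  refine ⟨h, BoundedContinuousFunction.norm_ofNormedAddCommGroup_le _ zero_le_one _, ?_⟩
  intro n hn
  have hmem : ((qn n : ℚ) : ℝ) ∈ S := by
    simp only [S, Finset.coe_image, Set.mem_image, Finset.mem_coe]
    exact ⟨n, hn, rfl⟩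
  have h1 : g (qn n : ℝ) = σ n := by
    have h2 := congrArg (fun φ : S →ᵇ ℝ => φ ⟨(qn n : ℝ), hmem⟩) hg2
    have h3 : f ⟨(qn n : ℝ), hmem⟩ = σ n := hσ'2 n
    rw [← h3]
    exact h2
  change ((g (qn n : ℝ) : ℝ) : 𝕜) = _
  rw [h1]

theorem fs_ell1 : Ell1Type (𝕜 := 𝕜) (1 / 2) 2 (fs 𝕜) where
  hc := by norm_num
  upper := by
    intro n
    refine ContinuousLinearMap.opNorm_le_bound _ (by norm_num) (fun z => ?_)
    rw [fs_apply]
    refine (norm_add_le _ _).trans ?_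
    have h1 : ‖z.1 n‖ ≤ ‖z‖ := (lp.norm_apply_le_norm (by simp) z.1 n).trans (norm_fst_le z)
    have h2 : ‖z.2 (qn n : ℝ)‖ ≤ ‖z‖ := (z.2.norm_coe_le_norm _).trans (norm_snd_le z)
    linarith
  lower := by
    intro a N
    set φ : ESp 𝕜 →L[𝕜] 𝕜 := ∑ n ∈ Finset.range N, a n • fs 𝕜 n with hφ
    have key : ∀ σ : ℕ → ℝ, (∀ n, |σ n| ≤ 1) →
        ‖∑ n ∈ Finset.range N, a n * (σ n : 𝕜)‖ ≤ ‖φ‖ := by
      intro σ hσ
      obtain ⟨h, hh1, hh2⟩ := exists_signs (𝕜 := 𝕜) (Finset.range N) σ hσ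
      have h1 : φ ((0 : lp (fun _ : ℕ => 𝕜) 1), h) = ∑ n ∈ Finset.range N, a n * (σ n : 𝕜) := by
        rw [hφ, _root_.sum_apply]
        refine Finset.sum_congr rfl (fun n hn => ?_)
        rw [_root_.smul_apply, fs_apply, hh2 n hn]
        simp
      rw [← h1]
      refine (φ.le_opNorm _).trans ?_
      have h2 : ‖((0 : lp (fun _ : ℕ => 𝕜) 1), h)‖ ≤ 1 := by
        rw [Prod.norm_mk, norm_zero]
        exact max_le zero_le_one hh1
      calc ‖φ‖ * _ ≤ ‖φ‖ * 1 := mul_le_mul_of_nonneg_left h2 (norm_nonneg _)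
        _ = ‖φ‖ := mul_one _
    have hsgn : ∀ r : ℝ, |((SignType.sign r : SignType) : ℝ)| ≤ 1 := by
      intro r
      rcases lt_trichotomy r 0 with h | h | h
      · rw [sign_neg h]; simp
      · rw [h]; simp
      · rw [sign_pos h]; simp
    have hre : ∑ n ∈ Finset.range N, |RCLike.re (a n)| ≤ ‖φ‖ := by
      refine le_trans ?_ (key (fun n => (SignType.sign (RCLike.re (a n)) : ℝ)) (fun n => hsgn _))
      refine le_trans (le_of_eq ?_) (RCLike.re_le_norm _)
      rw [map_sum]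
      refine Finset.sum_congr rfl (fun n _ => ?_)
      rw [mul_comm, RCLike.re_ofReal_mul]
      exact (sign_mul_self _).symm
    have him : ∑ n ∈ Finset.range N, |RCLike.im (a n)| ≤ ‖φ‖ := by
      refine le_trans ?_ (key (fun n => (SignType.sign (RCLike.im (a n)) : ℝ)) (fun n => hsgn _))
      refine le_trans (le_of_eq ?_) (RCLike.im_le_norm _)
      rw [map_sum]
      refine Finset.sum_congr rfl (fun n _ => ?_)
      rw [mul_comm, RCLike.im_ofReal_mul]
      exact (sign_mul_self _).symm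
    have hsum : ∑ n ∈ Finset.range N, ‖a n‖ ≤
        ∑ n ∈ Finset.range N, |RCLike.re (a n)| + ∑ n ∈ Finset.range N, |RCLike.im (a n)| := by
      rw [← Finset.sum_add_distrib]
      refine Finset.sum_le_sum (fun n _ => ?_)
      have h1 : ‖a n‖ ^ 2 ≤ (|RCLike.re (a n)| + |RCLike.im (a n)|) ^ 2 := by
        rw [RCLike.norm_sq_eq_def]
        have h2 := abs_nonneg (RCLike.re (a n))
        have h3 := abs_nonneg (RCLike.im (a n))
        have h4 := abs_mul_abs_self (RCLike.re (a n))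
        have h5 := abs_mul_abs_self (RCLike.im (a n))
        nlinarith
      exact abs_le_of_sq_le_sq' h1 (by positivity) |>.2
    linarith

/-- The functionals `f_n` are total. -/
theorem total {z : ESp 𝕜} (hz : ∀ n, fs 𝕜 n z = 0) : z = 0 := by
  have h1 : ∀ n, z.2 (qn n : ℝ) = - z.1 n := by
    intro n
    have := hz n
    rw [fs_apply] at this
    exact eq_neg_of_add_eq_zero_right this
  have h2 : Tendsto (fun n => ‖z.1 n‖) atTop (𝓝 0) := (norm_one_eq z.1).summable.tendsto_atTop_zero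
  have h3 : ∀ t : ℝ, z.2 t = 0 := by
    intro t
    by_contra hne
    have hpos : 0 < ‖z.2 t‖ := norm_pos_iff.2 hne
    have hopen : IsOpen {s : ℝ | ‖z.2 t‖ / 2 < ‖z.2 s‖} :=
      isOpen_lt continuous_const (z.2.continuous.norm)
    have ht : t ∈ {s : ℝ | ‖z.2 t‖ / 2 < ‖z.2 s‖} := by
      change ‖z.2 t‖ / 2 < ‖z.2 t‖
      linarith
    obtain ⟨δ, hδ, hball⟩ := Metric.isOpen_iff.1 hopen t ht
    -- infinitely many rationals in the ball
    have hinf : {n : ℕ | ((qn n : ℚ) : ℝ) ∈ Metric.ball t δ}.Infinite := by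
      intro hfin
      have hfin2 : {q : ℚ | (q : ℝ) ∈ Metric.ball t δ}.Finite := by
        refine (hfin.image qn).subset (fun q hq => ?_)
        exact ⟨qn.symm q, by simpa using hq, by simp⟩
      have hfin3 : ((fun q : ℚ => (q : ℝ)) '' {q : ℚ | (q : ℝ) ∈ Metric.ball t δ}).Finite :=
        hfin2.image _
      have hcl := hfin3.isClosed
      have hd : Dense (Set.range ((↑) : ℚ → ℝ)) := Rat.denseRange_cast
      have hsub : Metric.ball t δ ⊆
          (fun q : ℚ => (q : ℝ)) '' {q : ℚ | (q : ℝ) ∈ Metric.ball t δ} := by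
        intro s hs
        rw [← hcl.closure_eq]
        rw [Metric.mem_closure_iff]
        intro ε hε
        obtain ⟨r, hr, hrb⟩ := Metric.isOpen_iff.1 Metric.isOpen_ball s hs
        obtain ⟨q, hq⟩ := Metric.denseRange_iff.1 Rat.denseRange_cast s (min ε r)
          (lt_min hε hr)
        refine ⟨q, ⟨q, ?_, rfl⟩, hq.trans_le (min_le_left _ _)⟩
        refine hrb ?_
        rw [Metric.mem_ball, dist_comm]
        exact hq.trans_le (min_le_right _ _)
      have hb : (Metric.ball t δ).Infinite := by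
        rw [Real.ball_eq_Ioo]
        exact Set.Ioo_infinite (by linarith)
      exact hb (hfin3.subset hsub)
    obtain ⟨N, hN⟩ := (Metric.tendsto_atTop.1 h2) (‖z.2 t‖ / 2) (by positivity)
    obtain ⟨n, hn1, hn2⟩ := hinf.exists_gt N
    have h4 := hN n hn2.le
    rw [dist_zero_right, norm_norm] at h4
    have h5 : ‖z.2 t‖ / 2 < ‖z.2 (qn n : ℝ)‖ := hball hn1
    rw [h1 n, norm_neg] at h5
    linarith
  have h4 : z.2 = 0 := by
    ext t
    exact h3 t
  have h5 : z.1 = 0 := by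
    ext n
    have := h1 n
    rw [h3] at this
    simpa using this.symm
  exact Prod.ext h5 h4

theorem preann_eq_bot : preann (fs 𝕜) = ⊥ := by
  rw [eq_bot_iff]
  intro z hz
  rw [Submodule.mem_bot]
  refine total (fun n => hz _ ?_)
  exact Submodule.le_topologicalClosure _ (Submodule.subset_span ⟨n, rfl⟩)

theorem snd_eq_zero {z : ESp 𝕜} (hz : z ∈ cspan 𝕜 (xs 𝕜)) : z.2 = 0 := by
  have h1 : cspan 𝕜 (xs 𝕜) ≤ LinearMap.ker (ContinuousLinearMap.snd 𝕜
      (lp (fun _ : ℕ => 𝕜) 1) (ℝ →ᵇ 𝕜) : ESp 𝕜 →ₗ[𝕜] (ℝ →ᵇ 𝕜)) := by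
    refine Submodule.topologicalClosure_minimal _ ?_ (ContinuousLinearMap.isClosed_ker _)
    rw [Submodule.span_le]
    rintro _ ⟨n, rfl⟩
    rfl
  exact h1 hz

section General

variable {X : Type*} [NormedAddCommGroup X] [NormedSpace 𝕜 X] {u : ℕ → X} {f : ℕ → X →L[𝕜] 𝕜}

theorem restr_converges (hf : ∀ z ∈ cspan 𝕜 u, ∀ s : Finset ℕ, ∑ n ∈ s, ‖f n z‖ ≤ ‖z‖)
    {a : ℕ → 𝕜} (ha : Tendsto a atTop (𝓝 0)) :
    SeriesConverges a (fun n => (f n).comp (cspan 𝕜 u).subtypeL) := by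
  refine cauchySeq_tendsto_of_complete (Metric.cauchySeq_iff'.2 (fun ε hε => ?_))
  have ha' : Tendsto (fun n => ‖a n‖) atTop (𝓝 0) := by simpa using ha.norm
  obtain ⟨N, hN⟩ := Metric.tendsto_atTop.1 ha' (ε / 2) (by positivity)
  refine ⟨N, fun n hn => ?_⟩
  rw [dist_eq_norm]
  have h1 : ∑ k ∈ Finset.range n, a k • (f k).comp (cspan 𝕜 u).subtypeL -
      ∑ k ∈ Finset.range N, a k • (f k).comp (cspan 𝕜 u).subtypeL =
      ∑ k ∈ Finset.Ico N n, a k • (f k).comp (cspan 𝕜 u).subtypeL := by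
    rw [Finset.sum_Ico_eq_sub _ hn]
  rw [h1]
  refine lt_of_le_of_lt (ContinuousLinearMap.opNorm_le_bound _ (M := ε / 2) (by positivity)
    (fun z => ?_)) (by linarith)
  rw [_root_.sum_apply]
  refine (norm_sum_le _ _).trans ?_
  have h2 : ∀ k ∈ Finset.Ico N n, ‖(a k • (f k).comp (cspan 𝕜 u).subtypeL) z‖ ≤
      ε / 2 * ‖f k z‖ := by
    intro k hk
    rw [_root_.smul_apply, norm_smul]
    refine mul_le_mul_of_nonneg_right ?_ (norm_nonneg _)
    have := hN k (Finset.mem_Ico.1 hk).1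
    rw [dist_zero_right, norm_norm] at this
    exact this.le
  refine (Finset.sum_le_sum h2).trans ?_
  rw [← Finset.mul_sum]
  exact mul_le_mul_of_nonneg_left (hf z.1 z.2 _) (by positivity)

theorem not_equivalent_of {c C : ℝ} (hfe : Ell1Type (𝕜 := 𝕜) c C f)
    (hf : ∀ z ∈ cspan 𝕜 u, ∀ s : Finset ℕ, ∑ n ∈ s, ‖f n z‖ ≤ ‖z‖) :
    ¬ Equivalent 𝕜 f (fun n => (f n).comp (cspan 𝕜 u).subtypeL) := by
  intro h
  let a : ℕ → 𝕜 := fun n => ((1 / ((n : ℝ) + 1) : ℝ) : 𝕜)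
  have hn : ∀ n, ‖a n‖ = 1 / ((n : ℝ) + 1) := by
    intro n
    rw [RCLike.norm_ofReal, abs_of_nonneg (by positivity)]
  have h1 : Tendsto a atTop (𝓝 0) := by
    rw [tendsto_zero_iff_norm_tendsto_zero]
    simp_rw [hn]
    exact tendsto_one_div_add_atTop_nhds_zero_nat
  have h2 := hfe.summable_of_converges ((h a).2 (restr_converges hf h1))
  simp_rw [hn] at h2
  have h3 : Summable (fun n : ℕ => 1 / ((n : ℝ))) := by
    rw [← summable_nat_add_iff 1]
    simpa using h2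
  exact Real.not_summable_one_div_natCast h3

end General

theorem sum_fs_le {z : ESp 𝕜} (hz : z ∈ cspan 𝕜 (xs 𝕜)) (s : Finset ℕ) :
    ∑ n ∈ s, ‖fs 𝕜 n z‖ ≤ ‖z‖ := by
  have h2 : ∀ k ∈ s, ‖fs 𝕜 k z‖ = ‖z.1 k‖ := by
    intro k _
    rw [fs_apply, snd_eq_zero hz]
    simp
  rw [Finset.sum_congr rfl h2]
  exact (sum_le_hasSum _ (fun _ _ => norm_nonneg _) (norm_one_eq z.1)).trans (norm_fst_le z)

end Q100.Basic
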