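import Pool.Agent.Q100.UDefs

/-!
# Banach lattices given by generators and relations
-/

set_option autoImplicit false
open Filter Topology
open scoped ENNReal

noncomputable section

namespace Q100.U

universe u

theorem IsLatHom.of_sup {X Y : BLat.{u}} {T : X →L[ℝ] Y}
    (h : ∀ x y : X, T (x ⊔ y) = T x ⊔ T y) : IsLatHom T := by
  refine ⟨h, fun x y => ?_⟩
  have h1 : x ⊓ y = -(-x ⊔ -y) := by rw [neg_sup, neg_neg, neg_neg]
  rw [h1, map_neg, h, map_neg, map_neg, neg_sup, neg_neg, neg_neg]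

theorem IsLatHom.abs {X Y : BLat.{u}} {T : X →L[ℝ] Y} (h : IsLatHom T) (x : X) :
    T |x| = |T x| := by
  show T (x ⊔ -x) = T x ⊔ -T x
  rw [h.1, map_neg]

theorem IsLatHom.nonneg {X Y : BLat.{u}} {T : X →L[ℝ] Y} (h : IsLatHom T) {x : X}
    (hx : 0 ≤ x) : 0 ≤ T x := by
  have h1 : T x = |T x| := by rw [← h.abs, abs_of_nonneg hx]
  rw [h1]
  exact abs_nonneg _

theorem IsLatHom.zero {X Y : BLat.{u}} : IsLatHom (0 : X →L[ℝ] Y) :=
  IsLatHom.of_sup (fun _ _ => (sup_idem _).symm)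

theorem smul_sup_of_nonneg {X : BLat.{u}} (c : ℝ) (hc : 0 ≤ c) (x y : X) :
    c • (x ⊔ y) = c • x ⊔ c • y := by
  rcases hc.eq_or_lt with rfl | hc
  · rw [zero_smul, zero_smul, zero_smul, sup_idem]
  · refine le_antisymm ?_ (sup_le (smul_le_smul_of_nonneg_left le_sup_left hc.le)
      (smul_le_smul_of_nonneg_left le_sup_right hc.le))
    have h1 : x ⊔ y ≤ c⁻¹ • (c • x ⊔ c • y) := by
      refine sup_le ?_ ?_
      · calc x = c⁻¹ • (c • x) := by rw [smul_smul, inv_mul_cancel₀ hc.ne', one_smul]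
          _ ≤ _ := smul_le_smul_of_nonneg_left le_sup_left (inv_pos.2 hc).le
      · calc y = c⁻¹ • (c • y) := by rw [smul_smul, inv_mul_cancel₀ hc.ne', one_smul]
          _ ≤ _ := smul_le_smul_of_nonneg_left le_sup_right (inv_pos.2 hc).le
    calc c • (x ⊔ y) ≤ c • (c⁻¹ • (c • x ⊔ c • y)) := smul_le_smul_of_nonneg_left h1 hc.le
      _ = c • x ⊔ c • y := by rw [smul_smul, mul_inv_cancel₀ hc.ne', one_smul]

theorem IsLatHom.smul {X Y : BLat.{u}} {T : X →L[ℝ] Y} (h : IsLatHom T) (c : ℝ) (hc : 0 ≤ c) :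
    IsLatHom (c • T) := by
  refine IsLatHom.of_sup (fun x y => ?_)
  rw [_root_.smul_apply, _root_.smul_apply, _root_.smul_apply, h.1, smul_sup_of_nonneg c hc]

theorem IsLatHom.comp {X Y Z : BLat.{u}} {T : X →L[ℝ] Y} {S : Y →L[ℝ] Z} (hS : IsLatHom S)
    (hT : IsLatHom T) : IsLatHom (S ∘L T) :=
  IsLatHom.of_sup (fun x y => by
    show S (T (x ⊔ y)) = S (T x) ⊔ S (T y)
    rw [hT.1, hS.1])

theorem norm_sup_le {X : BLat.{u}} (x y : X) : ‖x ⊔ y‖ ≤ ‖x‖ + ‖y‖ := by
  have h1 : |x ⊔ y| ≤ |(|x| + |y|)| := by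
    rw [abs_of_nonneg (add_nonneg (abs_nonneg x) (abs_nonneg y))]
    refine abs_le'.2 ⟨sup_le ?_ ?_, ?_⟩
    · exact (le_abs_self x).trans (le_add_of_nonneg_right (abs_nonneg y))
    · exact (le_abs_self y).trans (le_add_of_nonneg_left (abs_nonneg x))
    · rw [neg_sup]
      exact inf_le_left.trans ((neg_le_abs x).trans (le_add_of_nonneg_right (abs_nonneg y)))
  calc ‖x ⊔ y‖ ≤ ‖|x| + |y|‖ := norm_le_norm_of_abs_le_abs h1
    _ ≤ ‖|x|‖ + ‖|y|‖ := norm_add_le _ _
    _ = ‖x‖ + ‖y‖ := by rw [norm_abs_eq_norm, norm_abs_eq_norm]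

/-! ### `ℓ_∞`-sums -/

section linf

variable {I : Type u} (X : I → BLat.{u})

theorem memℓp_sup {f g : ∀ i, X i} (hf : Memℓp f ∞) (hg : Memℓp g ∞) :
    Memℓp (fun i => f i ⊔ g i) ∞ := by
  rw [memℓp_infty_iff] at *
  obtain ⟨C, hC⟩ := hf
  obtain ⟨D, hD⟩ := hg
  refine ⟨C + D, ?_⟩
  rintro _ ⟨i, rfl⟩
  exact (norm_sup_le _ _).trans (add_le_add (hC ⟨i, rfl⟩) (hD ⟨i, rfl⟩))

theorem memℓp_inf {f g : ∀ i, X i} (hf : Memℓp f ∞) (hg : Memℓp g ∞) :
    Memℓp (fun i => f i ⊓ g i) ∞ := by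
  have h : (fun i => f i ⊓ g i) = -(fun i => (-f) i ⊔ (-g) i) := by
    funext i
    show f i ⊓ g i = -(-f i ⊔ -g i)
    rw [neg_sup, neg_neg, neg_neg]
  rw [h]
  exact (memℓp_sup X hf.neg hg.neg).neg

/-- The order of the `ℓ_∞`-sum. -/
@[instance_reducible]
def linfLattice : Lattice (lp (fun i => (X i : Type u)) ∞) where
  le f g := ∀ i, f i ≤ g i
  le_refl f i := le_rfl
  le_trans f g h h1 h2 i := (h1 i).trans (h2 i)
  le_antisymm f g h1 h2 := lp.ext (funext fun i => le_antisymm (h1 i) (h2 i))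
  sup f g := ⟨fun i => f i ⊔ g i, memℓp_sup X (lp.memℓp f) (lp.memℓp g)⟩
  inf f g := ⟨fun i => f i ⊓ g i, memℓp_inf X (lp.memℓp f) (lp.memℓp g)⟩
  le_sup_left f g i := le_sup_left
  le_sup_right f g i := le_sup_right
  sup_le f g h h1 h2 i := sup_le (h1 i) (h2 i)
  inf_le_left f g i := inf_le_left
  inf_le_right f g i := inf_le_right
  le_inf f g h h1 h2 i := le_inf (h1 i) (h2 i)

/-- The `ℓ_∞`-sum of Banach lattices. -/
def linf : BLat.{u} :=
  letI := linfLattice X
  { carrier := lp (fun i => (X i : Type u)) ∞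
    i5 := ⟨fun a b (h : ∀ i, a i ≤ b i) c i => add_le_add_left (h i) (c i),
      fun a b (h : ∀ i, a i ≤ b i) c i => add_le_add_right (h i) (c i)⟩
    i6 := {
      smul_le_smul_of_nonneg_left := fun c hc a b h i => smul_le_smul_of_nonneg_left (h i) hc
      smul_le_smul_of_nonneg_right := fun a ha c d h i =>
        smul_le_smul_of_nonneg_right h (ha i) }
    i7 := ⟨fun f g h => by
      refine lp.norm_le_of_forall_le (norm_nonneg g) (fun i => ?_)
      have h1 : |f i| ≤ |g i| := h i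
      exact (norm_le_norm_of_abs_le_abs h1).trans (lp.norm_apply_le_norm ENNReal.top_ne_zero g i)⟩ }

end linf

/-! ### Closed sublattices -/

/-- The order of a sublattice. -/
@[instance_reducible]
def subLattice {X : BLat.{u}} (M : Submodule ℝ X) (hM : ∀ x ∈ M, ∀ y ∈ M, x ⊔ y ∈ M) :
    Lattice M :=
  Subtype.lattice (fun x y hx hy => hM x hx y hy) (fun x y hx hy => by
    have h : x ⊓ y = -(-x ⊔ -y) := by rw [neg_sup, neg_neg, neg_neg]
    rw [h]
    exact M.neg_mem (hM _ (M.neg_mem hx) _ (M.neg_mem hy)))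

/-- A closed sublattice as a Banach lattice. -/
def sub {X : BLat.{u}} (M : Submodule ℝ X) (hc : IsClosed (M : Set X))
    (hM : ∀ x ∈ M, ∀ y ∈ M, x ⊔ y ∈ M) : BLat.{u} :=
  letI := subLattice M hM
  { carrier := M
    i3 := hc.completeSpace_coe
    i5 := ⟨fun a b (h : (a : X) ≤ b) c => add_le_add_left h (c : X),
      fun a b (h : (a : X) ≤ b) c => add_le_add_right h (c : X)⟩
    i6 := {
      smul_le_smul_of_nonneg_left := fun c hc a b (h : (a : X) ≤ b) =>
        show c • (a : X) ≤ c • (b : X) from smul_le_smul_of_nonneg_left h hc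
      smul_le_smul_of_nonneg_right := fun a (ha : (0 : X) ≤ a) c d h =>
        show c • (a : X) ≤ d • (a : X) from smul_le_smul_of_nonneg_right h ha }
    i7 := ⟨fun f g h => by
      have h1 : |(f : X)| ≤ |(g : X)| := h
      have h2 : ‖(f : X)‖ ≤ ‖(g : X)‖ := norm_le_norm_of_abs_le_abs h1
      exact h2⟩ }

/-! ### Terms -/

/-- Vector lattice terms in the generators `A`. -/
inductive Tm (A : Type u) : Type u
  | zero : Tm A
  | gen (a : A) : Tm A
  | add (s t : Tm A) : Tm A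
  | smul (c : ℝ) (t : Tm A) : Tm A
  | sup (s t : Tm A) : Tm A

section terms

variable {A : Type u}

/-- Evaluation of terms. -/
def eval {X : BLat.{u}} (x : A → X) : Tm A → X
  | .zero => 0
  | .gen a => x a
  | .add s t => eval x s + eval x t
  | .smul c t => c • eval x t
  | .sup s t => eval x s ⊔ eval x t

/-- An a priori bound. -/
def bd : Tm A → ℝ
  | .zero => 0
  | .gen _ => 1
  | .add s t => bd s + bd t
  | .smul c t => |c| * bd t
  | .sup s t => bd s + bd t

theorem norm_eval_le {X : BLat.{u}} (x : A → X) (hx : ∀ a, ‖x a‖ ≤ 1) (t : Tm A) :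
    ‖eval x t‖ ≤ bd t := by
  induction t with
  | zero => exact norm_zero.le
  | gen a => exact hx a
  | add s t h1 h2 => exact (norm_add_le _ _).trans (add_le_add h1 h2)
  | smul c t h =>
    show ‖c • eval x t‖ ≤ |c| * bd t
    rw [norm_smul, Real.norm_eq_abs]
    exact mul_le_mul_of_nonneg_left h (abs_nonneg c)
  | sup s t h1 h2 => exact (norm_sup_le _ _).trans (add_le_add h1 h2)

theorem map_eval {X Y : BLat.{u}} {T : X →L[ℝ] Y} (hT : IsLatHom T) (x : A → X) (t : Tm A) :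
    T (eval x t) = eval (fun a => T (x a)) t := by
  induction t with
  | zero => exact map_zero T
  | gen a => rfl
  | add s t h1 h2 =>
    show T (eval x s + eval x t) = eval _ s + eval _ t
    rw [map_add, h1, h2]
  | smul c t h =>
    show T (c • eval x t) = c • eval _ t
    rw [map_smul, h]
  | sup s t h1 h2 =>
    show T (eval x s ⊔ eval x t) = eval _ s ⊔ eval _ t
    rw [hT.1, h1, h2]

theorem eval_dep (t : Tm A) : ∃ S : Finset A, ∀ (X : BLat.{u}) (x x' : A → X),
    (∀ a ∈ S, x a = x' a) → eval x t = eval x' t := by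
  classical
  induction t with
  | zero => exact ⟨∅, fun _ _ _ _ => rfl⟩
  | gen a => exact ⟨{a}, fun _ _ _ h => h a (Finset.mem_singleton_self a)⟩
  | add s t h1 h2 =>
    obtain ⟨S, hS⟩ := h1
    obtain ⟨S', hS'⟩ := h2
    refine ⟨S ∪ S', fun X x x' h => ?_⟩
    show eval x s + eval x t = eval x' s + eval x' t
    rw [hS X x x' (fun a ha => h a (Finset.mem_union_left _ ha)),
      hS' X x x' (fun a ha => h a (Finset.mem_union_right _ ha))]
  | smul c t h =>
    obtain ⟨S, hS⟩ := h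
    refine ⟨S, fun X x x' h => ?_⟩
    show c • eval x t = c • eval x' t
    rw [hS X x x' h]
  | sup s t h1 h2 =>
    obtain ⟨S, hS⟩ := h1
    obtain ⟨S', hS'⟩ := h2
    refine ⟨S ∪ S', fun X x x' h => ?_⟩
    show eval x s ⊔ eval x t = eval x' s ⊔ eval x' t
    rw [hS X x x' (fun a ha => h a (Finset.mem_union_left _ ha)),
      hS' X x x' (fun a ha => h a (Finset.mem_union_right _ ha))]

theorem eval_zero (X : BLat.{u}) (t : Tm A) : eval (fun _ => (0 : X)) t = 0 := by
  induction t with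
  | zero => rfl
  | gen a => rfl
  | add s t h1 h2 =>
    show eval _ s + eval _ t = 0
    rw [h1, h2, add_zero]
  | smul c t h =>
    show c • eval _ t = 0
    rw [h, smul_zero]
  | sup s t h1 h2 =>
    show eval _ s ⊔ eval _ t = 0
    rw [h1, h2, sup_idem]

end terms

/-! ### The universal Banach lattice -/

section univ

variable {A : Type u} (C : ∀ X : BLat.{u}, (A → X) → Prop)

/-- The hypotheses on the class of admissible families. -/
structure Adm : Prop where
  norm_le : ∀ (X : BLat.{u}) (x : A → X), C X x → ∀ a, ‖x a‖ ≤ 1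
  exists_one : ∃ (X : BLat.{u}) (x : A → X), C X x

variable {C}

theorem exists_test (hC : Adm C) (t : Tm A) (n : ℕ) : ∃ (X : BLat.{u}) (x : A → X), C X x ∧
    ∀ (Y : BLat.{u}) (y : A → Y), C Y y → ‖eval y t‖ ≤ ‖eval x t‖ + 1 / (n + 1) := by
  set S : Set ℝ := {r | ∃ (X : BLat.{u}) (x : A → X), C X x ∧ r = ‖eval x t‖} with hS
  have hne : S.Nonempty := by
    obtain ⟨X, x, hx⟩ := hC.exists_one
    exact ⟨_, X, x, hx, rfl⟩
  have hbd : BddAbove S := by
    refine ⟨bd t, ?_⟩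
    rintro r ⟨X, x, hx, rfl⟩
    exact norm_eval_le x (hC.norm_le X x hx) t
  have hn : (0 : ℝ) < 1 / (n + 1) := by positivity
  obtain ⟨r, ⟨X, x, hx, rfl⟩, hr⟩ := exists_lt_of_lt_csSup hne
    (show sSup S - 1 / (n + 1) < sSup S by linarith)
  refine ⟨X, x, hx, fun Y y hy => ?_⟩
  have h1 : ‖eval y t‖ ≤ sSup S := le_csSup hbd ⟨Y, y, hy, rfl⟩
  linarith

variable (hC : Adm C)

/-- The chosen test lattices. -/
def TX (i : Tm A × ULift.{u} ℕ) : BLat.{u} := (exists_test hC i.1 i.2.down).choose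

/-- The chosen test families. -/
def Tx (i : Tm A × ULift.{u} ℕ) : A → TX hC i :=
  (exists_test hC i.1 i.2.down).choose_spec.choose

theorem Tx_spec (i : Tm A × ULift.{u} ℕ) : C (TX hC i) (Tx hC i) ∧
    ∀ (Y : BLat.{u}) (y : A → Y), C Y y →
      ‖eval y i.1‖ ≤ ‖eval (Tx hC i) i.1‖ + 1 / (i.2.down + 1) :=
  (exists_test hC i.1 i.2.down).choose_spec.choose_spec

/-- The big `ℓ_∞`-sum. -/
def Big : BLat.{u} := linf (TX hC)

/-- The generators in the big sum. -/
def bgen (a : A) : Big hC :=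
  (⟨fun i => Tx hC i a, show Memℓp (fun i => Tx hC i a) ∞ by
    rw [memℓp_infty_iff]
    refine ⟨1, ?_⟩
    rintro _ ⟨i, rfl⟩
    exact hC.norm_le _ _ (Tx_spec hC i).1 a⟩ : lp (fun i => (TX hC i : Type u)) ∞)

/-- Coordinates. -/
def coord (i : Tm A × ULift.{u} ℕ) (f : Big hC) : TX hC i :=
  (show lp (fun i => (TX hC i : Type u)) ∞ from f) i

theorem norm_coord_le (i : Tm A × ULift.{u} ℕ) (f : Big hC) : ‖coord hC i f‖ ≤ ‖f‖ :=
  lp.norm_apply_le_norm ENNReal.top_ne_zero (show lp (fun i => (TX hC i : Type u)) ∞ from f) i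

theorem norm_le_of_coord {f : Big hC} {c : ℝ} (hc : 0 ≤ c) (h : ∀ i, ‖coord hC i f‖ ≤ c) :
    ‖f‖ ≤ c :=
  lp.norm_le_of_forall_le (f := (show lp (fun i => (TX hC i : Type u)) ∞ from f)) hc h

theorem le_of_coord {f g : Big hC} (h : ∀ i, coord hC i f ≤ coord hC i g) : f ≤ g := h

theorem coord_eval (i : Tm A × ULift.{u} ℕ) (t : Tm A) :
    coord hC i (eval (bgen hC) t) = eval (Tx hC i) t := by
  induction t with
  | zero => rfl
  | gen a => rfl
  | add s t h1 h2 =>
    show coord hC i (eval (bgen hC) s) + coord hC i (eval (bgen hC) t) = _ + _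
    rw [h1, h2]
  | smul c t h =>
    show c • coord hC i (eval (bgen hC) t) = c • _
    rw [h]
  | sup s t h1 h2 =>
    show coord hC i (eval (bgen hC) s) ⊔ coord hC i (eval (bgen hC) t) = _ ⊔ _
    rw [h1, h2]

theorem norm_eval_le_norm (Y : BLat.{u}) (y : A → Y) (hy : C Y y) (t : Tm A) :
    ‖eval y t‖ ≤ ‖eval (bgen hC) t‖ := by
  refine le_of_forall_pos_le_add (fun ε hε => ?_)
  obtain ⟨n, hn⟩ := exists_nat_one_div_lt hε
  have h1 := (Tx_spec hC (t, ⟨n⟩)).2 Y y hy
  have h2 := norm_coord_le hC (t, ⟨n⟩) (eval (bgen hC) t)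
  rw [coord_eval] at h2
  dsimp only at h1
  linarith

/-- The submodule of terms. -/
def Sm : Submodule ℝ (Big hC) where
  carrier := Set.range (eval (bgen hC))
  add_mem' := by
    rintro _ _ ⟨s, rfl⟩ ⟨t, rfl⟩
    exact ⟨.add s t, rfl⟩
  zero_mem' := ⟨.zero, rfl⟩
  smul_mem' := by
    rintro c _ ⟨t, rfl⟩
    exact ⟨.smul c t, rfl⟩

theorem closure_sup : ∀ x ∈ (Sm hC).topologicalClosure, ∀ y ∈ (Sm hC).topologicalClosure,
    x ⊔ y ∈ (Sm hC).topologicalClosure := by
  intro x hx y hy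
  have h1 : ((x, y) : Big hC × Big hC) ∈
      closure (((Sm hC : Submodule ℝ (Big hC)) : Set (Big hC)) ×ˢ (Sm hC : Set (Big hC))) := by
    rw [closure_prod_eq]
    exact ⟨hx, hy⟩
  refine map_mem_closure (f := fun p : Big hC × Big hC => p.1 ⊔ p.2) continuous_sup h1 ?_
  rintro ⟨_, _⟩ ⟨⟨s, rfl⟩, ⟨t, rfl⟩⟩
  exact ⟨.sup s t, rfl⟩

/-- The universal Banach lattice. -/
def Un : BLat.{u} :=
  sub (Sm hC).topologicalClosure (Sm hC).isClosed_topologicalClosure (closure_sup hC)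

/-- The inclusion. -/
def inc (f : Un hC) : Big hC := (show (Sm hC).topologicalClosure from f).1

/-- The generators. -/
def gen (a : A) : Un hC :=
  (⟨bgen hC a, (Sm hC).le_topologicalClosure ⟨.gen a, rfl⟩⟩ : (Sm hC).topologicalClosure)

theorem inc_eval (t : Tm A) : inc hC (eval (gen hC) t) = eval (bgen hC) t := by
  induction t with
  | zero => rfl
  | gen a => rfl
  | add s t h1 h2 =>
    show inc hC (eval (gen hC) s) + inc hC (eval (gen hC) t) = _ + _
    rw [h1, h2]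
  | smul c t h =>
    show c • inc hC (eval (gen hC) t) = c • _
    rw [h]
  | sup s t h1 h2 =>
    show inc hC (eval (gen hC) s) ⊔ inc hC (eval (gen hC) t) = _ ⊔ _
    rw [h1, h2]

theorem norm_inc (f : Un hC) : ‖inc hC f‖ = ‖f‖ := rfl

theorem denseRange_eval : DenseRange (eval (gen hC)) := by
  intro f
  have h1 : inc hC f ∈ closure (Set.range (eval (bgen hC))) :=
    (show (Sm hC).topologicalClosure from f).2
  rw [Metric.mem_closure_iff] at h1 ⊢
  intro ε hε
  obtain ⟨_, ⟨t, rfl⟩, ht⟩ := h1 ε hε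
  refine ⟨_, ⟨t, rfl⟩, ?_⟩
  rw [← inc_eval] at ht
  exact ht

theorem gen_le_gen_of {a b : A} (h : ∀ (X : BLat.{u}) (x : A → X), C X x → x a ≤ x b) :
    gen hC a ≤ gen hC b :=
  le_of_coord hC (f := bgen hC a) (g := bgen hC b) (fun i => h _ _ (Tx_spec hC i).1)

theorem gen_nonneg_of {a : A} (h : ∀ (X : BLat.{u}) (x : A → X), C X x → 0 ≤ x a) :
    0 ≤ gen hC a :=
  le_of_coord hC (f := 0) (g := bgen hC a) (fun i => h _ _ (Tx_spec hC i).1)

theorem norm_gen_le (a : A) : ‖gen hC a‖ ≤ 1 :=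
  norm_le_of_coord hC (f := bgen hC a) zero_le_one
    (fun i => hC.norm_le _ _ (Tx_spec hC i).1 a)

/-- The universal property: existence. -/
theorem exists_hom (Y : BLat.{u}) (y : A → Y) (hy : C Y y) :
    ∃ T : Un hC →L[ℝ] Y, IsLatHom T ∧ (∀ a, T (gen hC a) = y a) ∧ ‖T‖ ≤ 1 := by
  classical
  set f : (Tm A →₀ ℝ) →ₗ[ℝ] Y := Finsupp.linearCombination ℝ (eval y) with hf
  set e : (Tm A →₀ ℝ) →ₗ[ℝ] Un hC := Finsupp.linearCombination ℝ (eval (gen hC)) with he
  have hterm : ∀ c : Tm A →₀ ℝ, ∃ t : Tm A, f c = eval y t ∧ e c = eval (gen hC) t := by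
    intro c
    induction c using Finsupp.induction_linear with
    | zero => exact ⟨.zero, by rw [map_zero]; rfl, by rw [map_zero]; rfl⟩
    | add c d h1 h2 =>
      obtain ⟨s, hs1, hs2⟩ := h1
      obtain ⟨t, ht1, ht2⟩ := h2
      exact ⟨.add s t, by rw [map_add, hs1, ht1]; rfl, by rw [map_add, hs2, ht2]; rfl⟩
    | single t c =>
      refine ⟨.smul c t, ?_, ?_⟩
      · rw [hf, Finsupp.linearCombination_single]; rfl
      · rw [he, Finsupp.linearCombination_single]; rfl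
  have hnorm : ∀ c, ‖f c‖ ≤ 1 * ‖e c‖ := by
    intro c
    obtain ⟨t, h1, h2⟩ := hterm c
    rw [h1, h2, one_mul, ← norm_inc, inc_eval]
    exact norm_eval_le_norm hC Y y hy t
  have he1 : ∀ t, e (Finsupp.single t 1) = eval (gen hC) t := by
    intro t
    rw [he, Finsupp.linearCombination_single, one_smul]
  have hf1 : ∀ t, f (Finsupp.single t 1) = eval y t := by
    intro t
    rw [hf, Finsupp.linearCombination_single, one_smul]
  have hdense : DenseRange e := by
    refine (denseRange_eval hC).mono ?_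
    rintro _ ⟨t, rfl⟩
    exact ⟨_, he1 t⟩
  set T : Un hC →L[ℝ] Y := f.extendOfNorm e with hT
  have hTt : ∀ t, T (eval (gen hC) t) = eval y t := by
    intro t
    rw [← he1, hT, LinearMap.extendOfNorm_eq hdense ⟨1, hnorm⟩, hf1]
  refine ⟨T, IsLatHom.of_sup ?_, fun a => hTt (.gen a), ?_⟩
  · intro p q
    have hd : DenseRange (Prod.map (eval (gen hC)) (eval (gen hC))) :=
      (denseRange_eval hC).prodMap (denseRange_eval hC)
    have hcl : IsClosed {z : Un hC × Un hC | T (z.1 ⊔ z.2) = T z.1 ⊔ T z.2} :=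
      isClosed_eq (T.continuous.comp continuous_sup)
        ((T.continuous.comp continuous_fst).sup (T.continuous.comp continuous_snd))
    refine hd.induction_on (p := fun z : Un hC × Un hC => T (z.1 ⊔ z.2) = T z.1 ⊔ T z.2) (p, q)
      hcl ?_
    rintro ⟨s, t⟩
    show T (eval (gen hC) s ⊔ eval (gen hC) t) = T (eval (gen hC) s) ⊔ T (eval (gen hC) t)
    rw [hTt, hTt]
    exact hTt (.sup s t)
  · exact LinearMap.opNorm_extendOfNorm_le hdense zero_le_one hnorm

/-- The universal property: uniqueness. -/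
theorem hom_ext {Y : BLat.{u}} {S T : Un hC →L[ℝ] Y} (hS : IsLatHom S) (hT : IsLatHom T)
    (h : ∀ a, S (gen hC a) = T (gen hC a)) : S = T := by
  ext f
  refine (denseRange_eval hC).induction_on (p := fun f => S f = T f) f
    (isClosed_eq S.continuous T.continuous) (fun t => ?_)
  rw [map_eval hS, map_eval hT]
  congr 1
  funext a
  exact h a

end univ

end Q100.U
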