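import Mathlib

/-!
# Projective and free Banach lattices: definitions
-/

set_option autoImplicit false
open Filter Topology

noncomputable section

namespace Q100.U

universe u

/-- A (real) Banach lattice in the universe `u`. -/
structure BLat : Type (u + 1) where
  carrier : Type u
  [i1 : NormedAddCommGroup carrier]
  [i2 : NormedSpace ℝ carrier]
  [i3 : CompleteSpace carrier]
  [i4 : Lattice carrier]
  [i5 : IsOrderedAddMonoid carrier]
  [i6 : IsOrderedModule ℝ carrier]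
  [i7 : HasSolidNorm carrier]

instance : CoeSort BLat.{u} (Type u) := ⟨BLat.carrier⟩

attribute [instance] BLat.i1 BLat.i2 BLat.i3 BLat.i4 BLat.i5 BLat.i6 BLat.i7

/-- Lattice homomorphisms. -/
def IsLatHom {X Y : BLat.{u}} (T : X →L[ℝ] Y) : Prop :=
  (∀ x y : X, T (x ⊔ y) = T x ⊔ T y) ∧ ∀ x y : X, T (x ⊓ y) = T x ⊓ T y

/-- `Q : X → Y` is (up to an isometric lattice isomorphism) the quotient map of `X` by the closed
ideal `ker Q`: it is a surjective lattice homomorphism and `‖Q x‖` is the distance of `x` to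
`ker Q`. -/
def IsQuotientMap {X Y : BLat.{u}} (Q : X →L[ℝ] Y) : Prop :=
  IsLatHom Q ∧ Function.Surjective Q ∧
    ∀ x : X, ‖Q x‖ = Metric.infDist x {z : X | Q z = 0}

/-- Projective Banach lattices. -/
def Projective (P : BLat.{u}) : Prop :=
  ∀ (X Y : BLat.{u}) (Q : X →L[ℝ] Y), IsQuotientMap Q → ∀ T : P →L[ℝ] Y, IsLatHom T →
    ∀ ε : ℝ, 0 < ε → ∃ T' : P →L[ℝ] X, IsLatHom T' ∧ Q ∘L T' = T ∧ ‖T'‖ ≤ (1 + ε) * ‖T‖

/-- Topological order units: `e ≥ 0` and every closed ideal containing `e` is the whole space. -/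
def TopOrderUnit {X : BLat.{u}} (e : X) : Prop :=
  0 ≤ e ∧ ∀ J : Submodule ℝ X, IsClosed (J : Set X) →
    (∀ x ∈ J, ∀ y : X, |y| ≤ |x| → y ∈ J) → e ∈ J → J = ⊤

/-- `X` with the map `δ : B → X` is the free Banach lattice `FBL(B)`. -/
def IsFBL (X : BLat.{u}) (B : Type u) (δ : B → X) : Prop :=
  (∀ b, ‖δ b‖ = 1) ∧ ∀ (Y : BLat.{u}) (f : B → Y), BddAbove (Set.range fun b => ‖f b‖) →
    ∃ T : X →L[ℝ] Y, IsLatHom T ∧ (∀ b, T (δ b) = f b) ∧ ‖T‖ = ⨆ b, ‖f b‖ ∧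
      ∀ T' : X →L[ℝ] Y, IsLatHom T' → (∀ b, T' (δ b) = f b) → T' = T

/-- `X` and `Y` are isometrically lattice isomorphic. -/
def LatIsometric (X Y : BLat.{u}) : Prop :=
  ∃ T : X ≃ₗᵢ[ℝ] Y, (∀ x y : X, T (x ⊔ y) = T x ⊔ T y) ∧ ∀ x y : X, T (x ⊓ y) = T x ⊓ T y

end Q100.U
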