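import Pool.Agent.Q100.UConstr

/-!
# A projective Banach lattice without topological order unit which is not free
-/

set_option autoImplicit false
open Filter Topology
open scoped ENNReal

noncomputable section

namespace Q100.U

universe u

/-! ### Lifting to a universe -/

/-- The order of a lifted Banach lattice. -/
@[instance_reducible]
def uliftLattice (X : BLat.{0}) : Lattice (ULift.{u} X) :=
  { (inferInstance : PartialOrder (ULift.{u} X)) with
    sup := fun f g => ⟨f.down ⊔ g.down⟩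
    inf := fun f g => ⟨f.down ⊓ g.down⟩
    le_sup_left := fun f g => show f.down ≤ f.down ⊔ g.down from le_sup_left
    le_sup_right := fun f g => show g.down ≤ f.down ⊔ g.down from le_sup_right
    sup_le := fun f g h (h1 : f.down ≤ h.down) (h2 : g.down ≤ h.down) =>
      show f.down ⊔ g.down ≤ h.down from sup_le h1 h2
    inf_le_left := fun f g => show f.down ⊓ g.down ≤ f.down from inf_le_left
    inf_le_right := fun f g => show f.down ⊓ g.down ≤ g.down from inf_le_right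
    le_inf := fun f g h (h1 : f.down ≤ g.down) (h2 : f.down ≤ h.down) =>
      show f.down ≤ g.down ⊓ h.down from le_inf h1 h2 }

/-- Lifting a Banach lattice to another universe. -/
def up (X : BLat.{0}) : BLat.{u} :=
  letI := uliftLattice.{u} X
  { carrier := ULift.{u} X
    i5 := ⟨fun a b (h : a.down ≤ b.down) c => add_le_add_left h c.down,
      fun a b (h : a.down ≤ b.down) c => add_le_add_right h c.down⟩
    i6 := {
      smul_le_smul_of_nonneg_left := fun c hc a b (h : a.down ≤ b.down) =>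
        show c • a.down ≤ c • b.down from smul_le_smul_of_nonneg_left h hc
      smul_le_smul_of_nonneg_right := fun a (ha : 0 ≤ a.down) c d h =>
        show c • a.down ≤ d • a.down from smul_le_smul_of_nonneg_right h ha }
    i7 := ⟨fun f g h => by
      have h1 : |f.down| ≤ |g.down| := h
      have h2 : ‖f.down‖ ≤ ‖g.down‖ := norm_le_norm_of_abs_le_abs h1
      exact h2⟩ }

/-- The real line. -/
def R0 : BLat.{0} := { carrier := ℝ }

/-- The real line. -/
def R : BLat.{u} := up R0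

/-- The plane with the norm `|x| + |y|`. -/
def L12 : Type := ℝ × ℝ

instance : AddCommGroup L12 := inferInstanceAs (AddCommGroup (ℝ × ℝ))
instance : Module ℝ L12 := inferInstanceAs (Module ℝ (ℝ × ℝ))
instance : Lattice L12 := inferInstanceAs (Lattice (ℝ × ℝ))

/-- The norm of `ℓ_1^2`. -/
def L12.groupNorm : AddGroupNorm L12 where
  toFun x := |x.1| + |x.2|
  map_zero' := by
    show |(0 : ℝ)| + |(0 : ℝ)| = 0
    rw [abs_zero, add_zero]
  add_le' x y := by
    show |x.1 + y.1| + |x.2 + y.2| ≤ |x.1| + |x.2| + (|y.1| + |y.2|)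
    have h1 := abs_add_le x.1 y.1
    have h2 := abs_add_le x.2 y.2
    linarith
  neg' x := by
    show |-x.1| + |-x.2| = |x.1| + |x.2|
    rw [abs_neg, abs_neg]
  eq_zero_of_map_eq_zero' x h := by
    have h' : |x.1| + |x.2| = 0 := h
    have h1 : |x.1| = 0 := by
      have := abs_nonneg x.1
      have := abs_nonneg x.2
      linarith
    have h2 : |x.2| = 0 := by
      have := abs_nonneg x.1
      have := abs_nonneg x.2
      linarith
    exact Prod.ext (abs_eq_zero.1 h1) (abs_eq_zero.1 h2)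

instance : NormedAddCommGroup L12 := L12.groupNorm.toNormedAddCommGroup

theorem L12.norm_def (x : L12) : ‖x‖ = |x.1| + |x.2| := rfl

instance : NormedSpace ℝ L12 where
  norm_smul_le c x := by
    show |c * x.1| + |c * x.2| ≤ |c| * (|x.1| + |x.2|)
    rw [abs_mul, abs_mul]
    exact le_of_eq (by ring)

instance : FiniteDimensional ℝ L12 := inferInstanceAs (FiniteDimensional ℝ (ℝ × ℝ))

instance : CompleteSpace L12 := FiniteDimensional.complete ℝ L12

instance : IsOrderedAddMonoid L12 := inferInstanceAs (IsOrderedAddMonoid (ℝ × ℝ))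

instance : IsOrderedModule ℝ L12 := inferInstanceAs (IsOrderedModule ℝ (ℝ × ℝ))

instance : HasSolidNorm L12 := ⟨fun x y h => by
  rw [L12.norm_def, L12.norm_def]
  exact add_le_add h.1 h.2⟩

/-- `ℓ_1^2`. -/
def L0 : BLat.{0} := { carrier := L12 }

/-- `ℓ_1^2`. -/
def L : BLat.{u} := up L0

/-- Elements of `R`. -/
def mkR (x : ℝ) : R.{u} := (⟨x⟩ : ULift.{u} ℝ)

/-- Values of elements of `R`. -/
def valR (x : R.{u}) : ℝ := (show ULift.{u} ℝ from x).down

theorem mkR_valR (x : R.{u}) : mkR (valR x) = x := rfl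

theorem valR_mkR (x : ℝ) : valR (mkR.{u} x) = x := rfl

theorem norm_R (x : R.{u}) : ‖x‖ = |valR x| := rfl

theorem valR_zero : valR (0 : R.{u}) = 0 := rfl

theorem valR_nonneg {x : R.{u}} : 0 ≤ x ↔ 0 ≤ valR x := Iff.rfl

/-- A pair of real functionals as a map into `ℓ_1^2`. -/
def pair {X : BLat.{u}} (S T : X →L[ℝ] R.{u}) : X →L[ℝ] L.{u} :=
  LinearMap.mkContinuous
    { toFun := fun x => ((⟨(valR (S x), valR (T x))⟩ : ULift.{u} L12) : L.{u})
      map_add' := fun x y => by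
        rw [map_add, map_add]
        rfl
      map_smul' := fun c x => by
        rw [map_smul, map_smul]
        rfl }
    (‖S‖ + ‖T‖) (fun x => by
      have h1 : |valR (S x)| ≤ ‖S‖ * ‖x‖ := S.le_opNorm x
      have h2 : |valR (T x)| ≤ ‖T‖ * ‖x‖ := T.le_opNorm x
      have h3 : |valR (S x)| + |valR (T x)| ≤ (‖S‖ + ‖T‖) * ‖x‖ := by
        rw [add_mul]
        exact add_le_add h1 h2
      exact h3)

theorem norm_pair_apply {X : BLat.{u}} (S T : X →L[ℝ] R.{u}) (x : X) :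
    ‖pair S T x‖ = ‖S x‖ + ‖T x‖ := rfl

theorem pair_latHom {X : BLat.{u}} {S T : X →L[ℝ] R.{u}} (hS : IsLatHom S) (hT : IsLatHom T) :
    IsLatHom (pair S T) := by
  refine IsLatHom.of_sup (fun x y => ?_)
  show ((⟨(valR (S (x ⊔ y)), valR (T (x ⊔ y)))⟩ : ULift.{u} L12) : L.{u}) = _
  rw [hS.1, hT.1]
  rfl

/-! ### The positive free Banach lattice -/

section pos

variable (A : Type u)

/-- Positive families in the unit ball. -/
def PosC : ∀ X : BLat.{u}, (A → X) → Prop := fun _ x => ∀ a, 0 ≤ x a ∧ ‖x a‖ ≤ 1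

theorem posAdm : Adm (PosC A) where
  norm_le _ _ h a := (h a).2
  exists_one := ⟨R, fun _ => 0, fun _ => ⟨le_rfl, by rw [norm_zero]; exact zero_le_one⟩⟩

/-- The positive free Banach lattice over `A`. -/
def PF : BLat.{u} := Un (posAdm A)

variable {A}

/-- The generators. -/
def g (a : A) : PF A := gen (posAdm A) a

theorem g_nonneg (a : A) : 0 ≤ g a := gen_nonneg_of (posAdm A) (fun _ _ h => (h a).1)

theorem norm_g_le (a : A) : ‖g a‖ ≤ 1 := norm_gen_le (posAdm A) a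

theorem pf_exists (Y : BLat.{u}) (y : A → Y) (h1 : ∀ a, 0 ≤ y a) (h2 : ∀ a, ‖y a‖ ≤ 1) :
    ∃ T : PF A →L[ℝ] Y, IsLatHom T ∧ (∀ a, T (g a) = y a) ∧ ‖T‖ ≤ 1 :=
  exists_hom (posAdm A) Y y (fun a => ⟨h1 a, h2 a⟩)

/-- Evaluation of terms in `PF A`. -/
def ev (t : Tm A) : PF A := eval (gen (posAdm A)) t

theorem denseRange_ev : DenseRange (ev (A := A)) := denseRange_eval (posAdm A)

theorem map_ev {Y : BLat.{u}} {T : PF A →L[ℝ] Y} (hT : IsLatHom T) (t : Tm A) :
    T (ev t) = eval (fun a => T (g a)) t := map_eval hT _ t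

theorem pf_ext {Y : BLat.{u}} {S T : PF A →L[ℝ] Y} (hS : IsLatHom S) (hT : IsLatHom T)
    (h : ∀ a, S (g a) = T (g a)) : S = T := hom_ext (posAdm A) hS hT h

theorem pf_norm_le {Y : BLat.{u}} {T : PF A →L[ℝ] Y} (hT : IsLatHom T) {c : ℝ} (hc : 0 < c)
    (h : ∀ a, ‖T (g a)‖ ≤ c) : ‖T‖ ≤ c := by
  obtain ⟨S, hS1, hS2, hS3⟩ := pf_exists Y (fun a => c⁻¹ • T (g a))
    (fun a => smul_nonneg (inv_pos.2 hc).le (hT.nonneg (g_nonneg a))) (fun a => by
      rw [norm_smul, Real.norm_eq_abs, abs_of_pos (inv_pos.2 hc), inv_mul_le_iff₀ hc, mul_one]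
      exact h a)
  have h1 : T = c • S := by
    refine pf_ext hT (hS1.smul c hc.le) (fun a => ?_)
    rw [_root_.smul_apply, hS2, smul_smul, mul_inv_cancel₀ hc.ne', one_smul]
  rw [h1, norm_smul, Real.norm_eq_abs, abs_of_pos hc]
  calc c * ‖S‖ ≤ c * 1 := mul_le_mul_of_nonneg_left hS3 hc.le
    _ = c := mul_one c

/-- Projectivity. -/
theorem pf_projective : Projective (PF A) := by
  intro X Y Q hQ T hT ε hε
  by_cases h0 : T = 0
  · refine ⟨0, IsLatHom.zero, ?_, ?_⟩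
    · rw [h0, ContinuousLinearMap.comp_zero]
    · rw [norm_zero]
      positivity
  have hT0 : 0 < ‖T‖ := norm_pos_iff.2 h0
  set c : ℝ := (1 + ε) * ‖T‖ with hc
  have hc0 : 0 < c := by positivity
  have hTc : ‖T‖ < c := by
    rw [hc]
    nlinarith
  have hlift : ∀ a : A, ∃ x : X, Q x = T (g a) ∧ ‖x‖ ≤ c := by
    intro a
    obtain ⟨x₀, hx₀⟩ := hQ.2.1 (T (g a))
    have h1 : Metric.infDist x₀ {z : X | Q z = 0} < c := by
      rw [← hQ.2.2, hx₀]
      calc ‖T (g a)‖ ≤ ‖T‖ * ‖g a‖ := T.le_opNorm _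
        _ ≤ ‖T‖ * 1 := mul_le_mul_of_nonneg_left (norm_g_le a) hT0.le
        _ = ‖T‖ := mul_one _
        _ < c := hTc
    have hne : ({z : X | Q z = 0} : Set X).Nonempty := ⟨0, map_zero Q⟩
    obtain ⟨z, hz1, hz2⟩ := (Metric.infDist_lt_iff hne).1 h1
    refine ⟨x₀ - z, ?_, ?_⟩
    · rw [map_sub, hx₀, show Q z = 0 from hz1, sub_zero]
    · rw [← dist_eq_norm]
      exact hz2.le
  choose x hx1 hx2 using hlift
  have hx3 : ∀ a, Q |x a| = T (g a) := by
    intro a
    rw [hQ.1.abs, hx1, abs_of_nonneg (hT.nonneg (g_nonneg a))]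
  obtain ⟨S, hS1, hS2, hS3⟩ := pf_exists X (fun a => c⁻¹ • |x a|)
    (fun a => smul_nonneg (inv_pos.2 hc0).le (abs_nonneg _)) (fun a => by
      rw [norm_smul, Real.norm_eq_abs, abs_of_pos (inv_pos.2 hc0), inv_mul_le_iff₀ hc0, mul_one,
        norm_abs_eq_norm]
      exact hx2 a)
  refine ⟨c • S, hS1.smul c hc0.le, ?_, ?_⟩
  · refine pf_ext (hQ.1.comp (hS1.smul c hc0.le)) hT (fun a => ?_)
    show Q (c • S (g a)) = T (g a)
    rw [hS2, smul_smul, mul_inv_cancel₀ hc0.ne', one_smul, hx3]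
  · rw [norm_smul, Real.norm_eq_abs, abs_of_pos hc0]
    calc c * ‖S‖ ≤ c * 1 := mul_le_mul_of_nonneg_left hS3 hc0.le
      _ = c := mul_one c

/-- Coordinate functionals with prescribed value. -/
theorem pf_coord (b : A) : ∃ φ : PF A →L[ℝ] R.{u}, IsLatHom φ ∧ valR (φ (g b)) = 1 ∧
    (∀ a, a ≠ b → φ (g a) = 0) ∧ ‖φ‖ ≤ 1 := by
  classical
  obtain ⟨φ, h1, h2, h3⟩ := pf_exists (A := A) R.{u} (fun a => if a = b then mkR 1 else 0)
    (fun a => by
      split_ifs
      · rw [valR_nonneg, valR_mkR]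
        exact zero_le_one
      · exact le_rfl)
    (fun a => by
      split_ifs
      · rw [norm_R, valR_mkR, abs_one]
      · rw [norm_zero]
        exact zero_le_one)
  refine ⟨φ, h1, ?_, fun a ha => ?_, h3⟩
  · rw [h2, if_pos rfl, valR_mkR]
  · rw [h2, if_neg ha]

/-- No topological order unit. -/
theorem pf_no_tou (hA : Uncountable A) (e : PF A) : ¬ TopOrderUnit e := by
  classical
  intro he
  have h1 : ∀ n : ℕ, ∃ t : Tm A, dist e (ev t) < 1 / (n + 1) := fun n =>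
    denseRange_ev.exists_dist_lt e (by positivity)
  choose t ht using h1
  choose S hS using fun n => eval_dep (t n)
  have hcount : (⋃ n, (S n : Set A)).Countable :=
    Set.countable_iUnion (fun n => (S n).countable_toSet)
  obtain ⟨b, hb⟩ : ∃ b, b ∉ ⋃ n, (S n : Set A) := by
    by_contra hcon
    push Not at hcon
    have : (Set.univ : Set A).Countable := hcount.mono (fun a _ => hcon a)
    exact not_countable (Set.countable_univ_iff.1 this)
  obtain ⟨φ, hφ1, hφ2, hφ3, hφ4⟩ := pf_coord b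
  have hφt : ∀ n, φ (ev (t n)) = 0 := by
    intro n
    rw [map_ev hφ1, hS n R _ (fun _ => 0) (fun a ha => hφ3 a (by
      rintro rfl
      exact hb (Set.mem_iUnion.2 ⟨n, ha⟩))), eval_zero]
  have hφe : φ e = 0 := by
    have hlim : Tendsto (fun n => ev (t n)) atTop (𝓝 e) := by
      rw [tendsto_iff_dist_tendsto_zero]
      refine squeeze_zero (fun n => dist_nonneg) (fun n => ?_) tendsto_one_div_add_atTop_nhds_zero_nat
      rw [dist_comm]
      exact (ht n).le
    have h2 := (φ.continuous.tendsto e).comp hlim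
    have h3 : (φ ∘ fun n => ev (t n)) = fun _ => 0 := funext hφt
    rw [h3] at h2
    exact tendsto_nhds_unique h2 tendsto_const_nhds
  have hJ := he.2 (LinearMap.ker φ.toLinearMap) (φ.isClosed_ker) (fun x hx y hy => by
    rw [LinearMap.mem_ker] at hx ⊢
    have hx' : φ x = 0 := hx
    show φ y = 0
    have h4 : 0 ≤ φ (|x| - |y|) := hφ1.nonneg (sub_nonneg.2 hy)
    rw [map_sub, hφ1.abs, hφ1.abs, hx', abs_zero, sub_nonneg] at h4
    have h5 : |valR (φ y)| ≤ 0 := h4
    have h6 : valR (φ y) = 0 := abs_eq_zero.1 (le_antisymm h5 (abs_nonneg _))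
    rw [← mkR_valR (φ y), h6]
    rfl) hφe
  have hgb : g b ∈ LinearMap.ker φ.toLinearMap := by
    rw [hJ]
    exact Submodule.mem_top
  have hgb' : φ (g b) = 0 := hgb
  rw [hgb', valR_zero] at hφ2
  exact zero_ne_one hφ2

/-- Not free. -/
theorem pf_not_free (hA : Nonempty A) (B : Type u) (δ : B → PF A) : ¬ IsFBL (PF A) B δ := by
  classical
  rintro ⟨hδ, hfree⟩
  -- the set `B` is not empty
  have hB : Nonempty B := by
    by_contra hB
    rw [not_nonempty_iff] at hB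
    obtain ⟨a⟩ := hA
    obtain ⟨φ, hφ1, hφ2, -, -⟩ := pf_coord a
    obtain ⟨T, -, -, -, hT⟩ := hfree R (fun _ => 0) ⟨0, by rintro _ ⟨b, rfl⟩; exact norm_zero.le⟩
    have h1 := hT φ hφ1 (fun b => isEmptyElim b)
    have h2 := hT 0 IsLatHom.zero (fun b => isEmptyElim b)
    rw [h1, ← h2] at hφ2
    have h3 : (0 : ℝ) = 1 := hφ2
    exact zero_ne_one h3
  have hone : ∀ s : ℝ, |s| = 1 → ∃ T : PF A →L[ℝ] R.{u}, IsLatHom T ∧
      (∀ b, T (δ b) = mkR s) ∧ ‖T‖ = 1 := by
    intro s hs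
    have hn : ∀ b : B, ‖(mkR.{u} s)‖ = 1 := fun b => by rw [norm_R, valR_mkR, hs]
    obtain ⟨T, hT1, hT2, hT3, -⟩ := hfree R (fun _ => mkR s) ⟨1, by
      rintro _ ⟨b, rfl⟩
      exact (hn b).le⟩
    refine ⟨T, hT1, hT2, ?_⟩
    rw [hT3]
    rw [norm_R, valR_mkR, hs]
    exact ciSup_const
  obtain ⟨T₁, hT₁, hT₁δ, hT₁n⟩ := hone 1 abs_one
  obtain ⟨T₂, hT₂, hT₂δ, hT₂n⟩ := hone (-1) (by rw [abs_neg, abs_one])
  have hne : T₁ ≠ T₂ := by
    intro h
    obtain ⟨b⟩ := hB
    have h1 := hT₁δ b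
    rw [h, hT₂δ] at h1
    have h2 : valR (mkR.{u} (-1)) = valR (mkR.{u} 1) := by rw [h1]
    rw [valR_mkR, valR_mkR] at h2
    norm_num at h2
  obtain ⟨a, ha⟩ : ∃ a, T₁ (g a) ≠ T₂ (g a) := by
    by_contra hcon
    push Not at hcon
    exact hne (pf_ext hT₁ hT₂ hcon)
  obtain ⟨φ, hφ1, hφ2, hφ3, hφ4⟩ := pf_coord a
  -- norms of pairs computed in `PF A`
  have hpair1 : ∀ T : PF A →L[ℝ] R.{u}, IsLatHom T → ‖T‖ = 1 →
      ‖pair T φ‖ = ‖T (g a)‖ + 1 := by
    intro T hT hTn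
    have hφa : ‖φ (g a)‖ = 1 := by rw [norm_R, hφ2, abs_one]
    have hb : ∀ c, ‖T (g c)‖ ≤ 1 := by
      intro c
      calc ‖T (g c)‖ ≤ ‖T‖ * ‖g c‖ := T.le_opNorm _
        _ ≤ 1 * 1 := by
            rw [hTn]
            exact mul_le_mul_of_nonneg_left (norm_g_le c) zero_le_one
        _ = 1 := one_mul 1
    refine le_antisymm ?_ ?_
    · refine pf_norm_le (pair_latHom hT hφ1) (by positivity) (fun c => ?_)
      rw [norm_pair_apply]
      by_cases hc : c = a
      · rw [hc, hφa]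
      · rw [hφ3 c hc, norm_zero, add_zero]
        have := norm_nonneg (T (g a))
        linarith [hb c]
    · calc ‖T (g a)‖ + 1 = ‖pair T φ (g a)‖ := by rw [norm_pair_apply, hφa]
        _ ≤ ‖pair T φ‖ * ‖g a‖ := (pair T φ).le_opNorm _
        _ ≤ ‖pair T φ‖ * 1 := mul_le_mul_of_nonneg_left (norm_g_le a) (norm_nonneg _)
        _ = ‖pair T φ‖ := mul_one _
  -- norms of pairs computed by freeness
  have hpair2 : ∀ T : PF A →L[ℝ] R.{u}, IsLatHom T → (∀ b, ‖T (δ b)‖ = 1) →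
      ‖pair T φ‖ = ⨆ b, (1 + ‖φ (δ b)‖) := by
    intro T hT hTδ
    have hn : ∀ b, ‖pair T φ (δ b)‖ = 1 + ‖φ (δ b)‖ := fun b => by
      rw [norm_pair_apply, hTδ]
    obtain ⟨T', -, -, hT'3, hT'4⟩ := hfree L (fun b => pair T φ (δ b)) ⟨‖pair T φ‖, by
      rintro _ ⟨b, rfl⟩
      calc ‖pair T φ (δ b)‖ ≤ ‖pair T φ‖ * ‖δ b‖ := (pair T φ).le_opNorm _
        _ = ‖pair T φ‖ := by rw [hδ, mul_one]⟩
    have h1 := hT'4 (pair T φ) (pair_latHom hT hφ1) (fun b => rfl)
    rw [h1, hT'3]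
    simp_rw [hn]
  have e1 := hpair1 T₁ hT₁ hT₁n
  have e2 := hpair1 T₂ hT₂ hT₂n
  have e3 := hpair2 T₁ hT₁ (fun b => by rw [hT₁δ, norm_R, valR_mkR, abs_one])
  have e4 := hpair2 T₂ hT₂ (fun b => by rw [hT₂δ, norm_R, valR_mkR, abs_neg, abs_one])
  have e5 : ‖T₁ (g a)‖ = ‖T₂ (g a)‖ := by linarith
  have p1 : 0 ≤ valR (T₁ (g a)) := hT₁.nonneg (g_nonneg a)
  have p2 : 0 ≤ valR (T₂ (g a)) := hT₂.nonneg (g_nonneg a)
  rw [norm_R, norm_R, abs_of_nonneg p1, abs_of_nonneg p2] at e5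
  exact ha (by rw [← mkR_valR (T₁ (g a)), ← mkR_valR (T₂ (g a)), e5])

end pos

theorem isFBL_transfer {X F : BLat.{u}} (h : LatIsometric X F) {B : Type u} {δ : B → F}
    (hF : IsFBL F B δ) : ∃ δ' : B → X, IsFBL X B δ' := by
  obtain ⟨T, hT1, -⟩ := h
  have hTs : ∀ x y : F, T.symm (x ⊔ y) = T.symm x ⊔ T.symm y := by
    intro x y
    apply T.injective
    rw [hT1, T.apply_symm_apply, T.apply_symm_apply, T.apply_symm_apply]
  refine ⟨fun b => T.symm (δ b), fun b => ?_, fun Y f hf => ?_⟩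
  · rw [LinearIsometryEquiv.norm_map]
    exact hF.1 b
  · obtain ⟨S, hS1, hS2, hS3, hS4⟩ := hF.2 Y f hf
    refine ⟨S ∘L (T : X →L[ℝ] F), ?_, fun b => ?_, ?_, fun S' hS' hS'b => ?_⟩
    · refine IsLatHom.of_sup (fun x y => ?_)
      show S (T (x ⊔ y)) = S (T x) ⊔ S (T y)
      rw [hT1, hS1.1]
    · show S (T (T.symm (δ b))) = f b
      rw [T.apply_symm_apply, hS2]
    · rw [← hS3]
      exact ContinuousLinearMap.opNorm_comp_linearIsometryEquiv S T
    · have h1 : S' ∘L (T.symm : F →L[ℝ] X) = S := by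
        refine hS4 _ (IsLatHom.of_sup (fun x y => ?_)) (fun b => hS'b b)
        show S' (T.symm (x ⊔ y)) = S' (T.symm x) ⊔ S' (T.symm y)
        rw [hTs, hS'.1]
      ext x
      rw [← h1]
      show S' x = S' (T.symm (T x))
      rw [T.symm_apply_apply]

/-- Main theorem. -/
theorem main : ∃ P : BLat.{u}, Projective P ∧ (¬ ∃ e : P, TopOrderUnit e) ∧
    ∀ (F : BLat.{u}) (B : Type u) (δ : B → F), IsFBL F B δ → ¬ LatIsometric P F := by
  have hA : Uncountable (ULift.{u} ℝ) :=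
    (Equiv.uncountable_iff Equiv.ulift).2 inferInstance
  refine ⟨PF (ULift.{u} ℝ), pf_projective, ?_, fun F B δ hF hI => ?_⟩
  · rintro ⟨e, he⟩
    exact pf_no_tou hA e he
  · obtain ⟨δ', hδ'⟩ := isFBL_transfer hI hF
    exact pf_not_free ⟨⟨0⟩⟩ B δ' hδ'

end Q100.U
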