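import Mathlib

/-!
# Banach ultraproducts over good ultrafilters and injectivity
-/

set_option autoImplicit false
open Filter Topology
open scoped ENNReal

noncomputable section

namespace Q100.UP

universe u v w

section

variable (𝕜 : Type) [RCLike 𝕜] {I : Type u} (U : Ultrafilter I) (X : I → Type v)
  [∀ i, NormedAddCommGroup (X i)] [∀ i, NormedSpace 𝕜 (X i)]

/-- The bounded families with `lim_U ‖x i‖ = 0`. -/
def c0 : Submodule 𝕜 (lp X ∞) where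
  carrier := {x | Tendsto (fun i => ‖x i‖) U (𝓝 0)}
  add_mem' := by
    intro x y hx hy
    have h1 : Tendsto (fun i => ‖x i‖ + ‖y i‖) U (𝓝 (0 + 0)) := Tendsto.add hx hy
    rw [add_zero] at h1
    exact squeeze_zero (fun _ => norm_nonneg _) (fun i => norm_add_le (x i) (y i)) h1
  zero_mem' := by
    show Tendsto (fun i => ‖(0 : lp X ∞) i‖) U (𝓝 0)
    simp only [lp.coeFn_zero, Pi.zero_apply, norm_zero]
    exact tendsto_const_nhds
  smul_mem' := by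
    intro c x hx
    have h1 : Tendsto (fun i => ‖c‖ * ‖x i‖) U (𝓝 (‖c‖ * 0)) := Tendsto.const_mul _ hx
    rw [mul_zero] at h1
    refine squeeze_zero (fun _ => norm_nonneg _) (fun i => ?_) h1
    exact (norm_smul c (x i)).le

theorem mem_c0 (x : lp X ∞) : x ∈ c0 𝕜 U X ↔ Tendsto (fun i => ‖x i‖) U (𝓝 0) := Iff.rfl

instance isClosed_c0 : IsClosed (c0 𝕜 U X : Set (lp X ∞)) := by
  refine isClosed_of_closure_subset (fun x hx => ?_)
  show Tendsto (fun i => ‖x i‖) U (𝓝 0)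
  rw [Metric.tendsto_nhds]
  intro ε hε
  obtain ⟨y, hy, hxy⟩ := Metric.mem_closure_iff.1 hx (ε / 2) (by positivity)
  have hy' : Tendsto (fun i => ‖y i‖) U (𝓝 0) := hy
  filter_upwards [hy'.eventually_lt_const (show 0 < ε / 2 by positivity)] with i hi
  have h1 : ‖x i - y i‖ ≤ ‖x - y‖ := lp.norm_apply_le_norm ENNReal.top_ne_zero (x - y) i
  rw [dist_eq_norm] at hxy
  have h2 : ‖x i‖ ≤ ‖x i - y i‖ + ‖y i‖ := by
    calc ‖x i‖ = ‖(x i - y i) + y i‖ := by rw [sub_add_cancel]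
      _ ≤ _ := norm_add_le _ _
  rw [Real.dist_eq, sub_zero, abs_of_nonneg (norm_nonneg _)]
  linarith

/-- The Banach ultraproduct `[X_i]_U = ℓ_∞(X_i) / c_0^U(X_i)`. -/
def Ultraproduct : Type (max u v) := lp X ∞ ⧸ c0 𝕜 U X

instance : NormedAddCommGroup (Ultraproduct 𝕜 U X) :=
  Submodule.Quotient.normedAddCommGroup (c0 𝕜 U X)

instance : NormedSpace 𝕜 (Ultraproduct 𝕜 U X) :=
  Submodule.Quotient.normedSpace (c0 𝕜 U X) 𝕜

end

section

variable {I : Type u}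

/-- Countably incomplete ultrafilters. -/
def CountablyIncomplete (U : Ultrafilter I) : Prop :=
  ∃ A : ℕ → Set I, Antitone A ∧ (∀ n, A n ∈ U) ∧ ⋂ n, A n = ∅

open scoped Classical in
/-- `ℵ`-good ultrafilters. -/
def Good (U : Ultrafilter I) (κ : Cardinal.{w}) : Prop :=
  ∀ S : Type w, Cardinal.mk S < κ → ∀ f : Finset S → Set I, (∀ A, f A ∈ U) →
    (∀ A B, A ⊆ B → f B ⊆ f A) → ∃ g : Finset S → Set I, (∀ A, g A ∈ U) ∧
      (∀ A, g A ⊆ f A) ∧ ∀ A B, g (A ∪ B) = g A ∩ g B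

end

section

variable (𝕜 : Type) [RCLike 𝕜] {E : Type v} [NormedAddCommGroup E] [NormedSpace 𝕜 E]

/-- The Banach–Mazur distance between `G` and `ℓ_∞^{dim G}` is at most `lam`. -/
def DistLinftyLe (G : Submodule 𝕜 E) (lam : ℝ) : Prop :=
  ∀ ε : ℝ, 0 < ε → ∃ u : G ≃ₗ[𝕜] (Fin (Module.finrank 𝕜 G) → 𝕜), ∃ a b : ℝ,
    0 ≤ a ∧ 0 ≤ b ∧ a * b ≤ lam + ε ∧ (∀ x, ‖u x‖ ≤ a * ‖x‖) ∧ ∀ y, ‖u.symm y‖ ≤ b * ‖y‖

variable (E)

/-- Every finite-dimensional subspace of `E` lies in a finite-dimensional subspace `G` with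
`d(G, ℓ_∞^{dim G}) ≤ lam`. -/
def IsLinfty (lam : ℝ) : Prop :=
  ∀ F : Submodule 𝕜 E, FiniteDimensional 𝕜 F →
    ∃ G : Submodule 𝕜 E, FiniteDimensional 𝕜 G ∧ F ≤ G ∧ DistLinftyLe 𝕜 G lam

/-- Lindenstrauss spaces. -/
def Lindenstrauss : Prop := ∀ lam : ℝ, 1 < lam → IsLinfty 𝕜 E lam

/-- `Y` has a dense subset of cardinality `< κ`. -/
def DensLT (Y : Type w) [TopologicalSpace Y] (κ : Cardinal.{w}) : Prop :=
  ∃ D : Set Y, Dense D ∧ Cardinal.mk D < κ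

/-- Universally `(lam, ℵ)`-injective spaces. -/
def UnivInjective (lam : ℝ) (κ : Cardinal.{w}) : Prop :=
  ∀ (Z : Type w) [NormedAddCommGroup Z] [NormedSpace 𝕜 Z] [CompleteSpace Z]
    (Y : Submodule 𝕜 Z), IsClosed (Y : Set Z) → DensLT Y κ →
    ∀ t : Y →L[𝕜] E, ∃ T : Z →L[𝕜] E, (∀ y : Y, T y = t y) ∧ ‖T‖ ≤ lam * ‖t‖

/-- `ℵ`-injective spaces. -/
def AlephInjective (κ : Cardinal.{w}) : Prop :=
  ∀ (Z : Type w) [NormedAddCommGroup Z] [NormedSpace 𝕜 Z] [CompleteSpace Z], DensLT Z κ →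
    ∀ Y : Submodule 𝕜 Z, IsClosed (Y : Set Z) →
      ∀ t : Y →L[𝕜] E, ∃ T : Z →L[𝕜] E, ∀ y : Y, T y = t y

end

end Q100.UP
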