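import Pool.Agent.Q100.UPDefs

/-!
# `ℒ_∞` ultraproducts over good ultrafilters are universally injective
-/

set_option autoImplicit false
open Filter Topology
open scoped ENNReal

noncomputable section

namespace Q100.UP

universe u v w

section basics

variable {𝕜 : Type} [RCLike 𝕜] {I : Type u} {U : Ultrafilter I} {X : I → Type v}
  [∀ i, NormedAddCommGroup (X i)] [∀ i, NormedSpace 𝕜 (X i)]

variable (𝕜 U X) in
/-- The quotient map. -/
def q : lp X ∞ →L[𝕜] Ultraproduct 𝕜 U X :=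
  LinearMap.mkContinuous (c0 𝕜 U X).mkQ 1 (fun x => by
    rw [one_mul]
    exact Submodule.Quotient.norm_mk_le (c0 𝕜 U X) x)

theorem q_surj : Function.Surjective (q 𝕜 U X) := Submodule.mkQ_surjective _

theorem q_eq_zero {x : lp X ∞} : q 𝕜 U X x = 0 ↔ Tendsto (fun i => ‖x i‖) U (𝓝 0) :=
  Submodule.Quotient.mk_eq_zero (c0 𝕜 U X)

theorem q_lt {x : lp X ∞} {c : ℝ} (h : ‖q 𝕜 U X x‖ < c) : ∀ᶠ i in U, ‖x i‖ < c := by
  obtain ⟨ε, hε, hc⟩ : ∃ ε, 0 < ε ∧ ‖q 𝕜 U X x‖ + ε < c := ⟨(c - ‖q 𝕜 U X x‖) / 2, by linarith,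
    by linarith⟩
  obtain ⟨y, hy1, hy2⟩ := Submodule.Quotient.norm_mk_lt (S := c0 𝕜 U X)
    ((q 𝕜 U X x : Ultraproduct 𝕜 U X) : lp X ∞ ⧸ c0 𝕜 U X) hε
  have h1 : x - y ∈ c0 𝕜 U X := by
    rw [← Submodule.Quotient.eq]
    exact hy1.symm
  have h2 : Tendsto (fun i => ‖(x - y) i‖) U (𝓝 0) := h1
  have h3 : ‖y‖ < ‖q 𝕜 U X x‖ + ε := hy2
  filter_upwards [h2.eventually_lt_const (show 0 < c - (‖q 𝕜 U X x‖ + ε) by linarith)] with i hi
  have h4 : ‖y i‖ ≤ ‖y‖ := lp.norm_apply_le_norm ENNReal.top_ne_zero y i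
  have h5 : ‖x i‖ ≤ ‖(x - y) i‖ + ‖y i‖ := by
    calc ‖x i‖ = ‖(x - y) i + y i‖ := by
          congr 1
          show x i = x i - y i + y i
          rw [sub_add_cancel]
      _ ≤ _ := norm_add_le _ _
  linarith

theorem q_le {x : lp X ∞} {c : ℝ} (hc : 0 ≤ c) (h : ∀ᶠ i in U, ‖x i‖ ≤ c) :
    ‖q 𝕜 U X x‖ ≤ c := by
  classical
  let y : lp X ∞ := ⟨fun i => if ‖x i‖ ≤ c then x i else 0, by
    show Memℓp (fun i => if ‖x i‖ ≤ c then x i else 0) ∞
    rw [memℓp_infty_iff]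
    refine ⟨c, ?_⟩
    rintro _ ⟨i, rfl⟩
    dsimp only
    split_ifs with h1
    · exact h1
    · rw [norm_zero]; exact hc⟩
  have hy : ∀ i, y i = if ‖x i‖ ≤ c then x i else 0 := fun i => rfl
  have hyn : ‖y‖ ≤ c := by
    refine lp.norm_le_of_forall_le hc (fun i => ?_)
    rw [hy]
    split_ifs with h1
    · exact h1
    · rw [norm_zero]; exact hc
  have hxy : q 𝕜 U X (x - y) = 0 := by
    rw [q_eq_zero]
    refine tendsto_const_nhds.congr' ?_
    filter_upwards [h] with i hi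
    have : (x - y) i = x i - y i := rfl
    rw [this, hy, if_pos hi, sub_self, norm_zero]
  rw [map_sub, sub_eq_zero] at hxy
  rw [hxy]
  calc ‖q 𝕜 U X y‖ ≤ 1 * ‖y‖ :=
        (q 𝕜 U X).le_of_opNorm_le (LinearMap.mkContinuous_norm_le _ zero_le_one _) y
    _ ≤ c := by rw [one_mul]; exact hyn

/-- Uniform bounds on finite-dimensional families. -/
theorem uniform {m : ℕ} (e : Fin m → lp X ∞) {K K' : ℝ} (hK : 0 ≤ K) (hKK : K < K')
    (he : ∀ a : Fin m → 𝕜, ‖∑ j, a j • q 𝕜 U X (e j)‖ ≤ K * ‖a‖) :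
    ∀ᶠ i in U, ∀ a : Fin m → 𝕜, ‖∑ j, a j • e j i‖ ≤ K' * ‖a‖ := by
  classical
  set M : ℝ := ∑ j, ‖e j‖ with hM
  have hM0 : 0 ≤ M := Finset.sum_nonneg (fun j _ => norm_nonneg _)
  have hLip : ∀ i (a : Fin m → 𝕜), ‖∑ j, a j • e j i‖ ≤ M * ‖a‖ := by
    intro i a
    calc ‖∑ j, a j • e j i‖ ≤ ∑ j, ‖a j • e j i‖ := norm_sum_le _ _
      _ ≤ ∑ j, ‖e j‖ * ‖a‖ := by
          refine Finset.sum_le_sum (fun j _ => ?_)
          rw [norm_smul, mul_comm]
          exact mul_le_mul (lp.norm_apply_le_norm ENNReal.top_ne_zero (e j) i)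
            (norm_le_pi_norm a j) (norm_nonneg _) (norm_nonneg _)
      _ = M * ‖a‖ := by rw [hM, Finset.sum_mul]
  set η : ℝ := (K' - K) / 2 with hη
  have hη0 : 0 < η := by rw [hη]; linarith
  -- a finite net of the unit ball
  have hcomp : IsCompact (Metric.closedBall (0 : Fin m → 𝕜) 1) := isCompact_closedBall _ _
  obtain ⟨t, ht1, ht2, ht3⟩ := hcomp.finite_cover_balls (show 0 < η / (M + 1) by positivity)
  have hev : ∀ᶠ i in U, ∀ a ∈ t, ‖∑ j, a j • e j i‖ < K + η := by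
    rw [ht2.eventually_all]
    intro a ha
    have h1 : ‖a‖ ≤ 1 := by simpa using ht1 ha
    have h2 : ‖q 𝕜 U X (∑ j, a j • e j)‖ < K + η := by
      rw [map_sum]
      simp_rw [map_smul]
      calc ‖∑ j, a j • q 𝕜 U X (e j)‖ ≤ K * ‖a‖ := he a
        _ ≤ K * 1 := mul_le_mul_of_nonneg_left h1 hK
        _ < K + η := by linarith
    filter_upwards [q_lt h2] with i hi
    have h3 : (∑ j, a j • e j : lp X ∞) i = ∑ j, a j • e j i := by
      rw [lp.coeFn_sum, Finset.sum_apply]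
      rfl
    rwa [h3] at hi
  filter_upwards [hev] with i hi
  have hball : ∀ a : Fin m → 𝕜, ‖a‖ ≤ 1 → ‖∑ j, a j • e j i‖ ≤ K' := by
    intro a ha
    have ha' : a ∈ Metric.closedBall (0 : Fin m → 𝕜) 1 := by simpa using ha
    obtain ⟨b, hb, hab⟩ := Set.mem_iUnion₂.1 (ht3 ha')
    rw [Metric.mem_ball, dist_eq_norm] at hab
    have h1 : ∑ j, a j • e j i = ∑ j, b j • e j i + ∑ j, (a - b) j • e j i := by
      rw [← Finset.sum_add_distrib]
      refine Finset.sum_congr rfl (fun j _ => ?_)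
      rw [← add_smul]
      congr 1
      show a j = b j + (a j - b j)
      ring
    rw [h1]
    calc ‖∑ j, b j • e j i + ∑ j, (a - b) j • e j i‖
        ≤ ‖∑ j, b j • e j i‖ + ‖∑ j, (a - b) j • e j i‖ := norm_add_le _ _
      _ ≤ (K + η) + M * ‖a - b‖ := add_le_add (hi b hb).le (hLip i _)
      _ ≤ (K + η) + η := by
          have h2 : M * ‖a - b‖ ≤ (M + 1) * (η / (M + 1)) :=
            mul_le_mul (by linarith) hab.le (norm_nonneg _) (by positivity)
          rw [mul_div_cancel₀ _ (by positivity : (M + 1) ≠ 0)] at h2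
          linarith
      _ = K' := by rw [hη]; ring
  intro a
  by_cases ha : a = 0
  · subst ha
    simp
  · have hn : 0 < ‖a‖ := norm_pos_iff.2 ha
    have h1 := hball ((‖a‖⁻¹ : 𝕜) • a) (by
      rw [norm_smul, norm_inv, RCLike.norm_ofReal, abs_of_pos hn, inv_mul_cancel₀ hn.ne'])
    have h2 : ∑ j, (((‖a‖⁻¹ : 𝕜) • a) j) • e j i = (‖a‖⁻¹ : 𝕜) • ∑ j, a j • e j i := by
      rw [Finset.smul_sum]
      refine Finset.sum_congr rfl (fun j _ => ?_)
      rw [Pi.smul_apply, smul_assoc]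
    rw [h2, norm_smul, norm_inv, RCLike.norm_ofReal, abs_of_pos hn, inv_mul_le_iff₀ hn] at h1
    linarith

end basics

section local_

variable {𝕜 : Type} [RCLike 𝕜] {E : Type v} [NormedAddCommGroup E] [NormedSpace 𝕜 E]
  {Z : Type w} [NormedAddCommGroup Z] [NormedSpace 𝕜 Z] {Y : Submodule 𝕜 Z}

/-- Local extensions of finite rank with constant close to `c`. -/
def Loc (t : Y →L[𝕜] E) (c : ℝ) : Prop :=
  ∀ C, c < C → ∀ A : Finset Y, ∃ (m : ℕ) (s : Fin m → StrongDual 𝕜 Z) (e : Fin m → E) (K L : ℝ),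
    0 ≤ K ∧ 0 ≤ L ∧ K * L ≤ C ∧ (∀ a : Fin m → 𝕜, ‖∑ j, a j • e j‖ ≤ K * ‖a‖) ∧
    (∀ j, ‖s j‖ ≤ L) ∧ ∀ y ∈ A, ∑ j, s j y • e j = t y

theorem loc_of_linfty {lam : ℝ} (hE : IsLinfty 𝕜 E lam) (t : Y →L[𝕜] E) (C : ℝ)
    (hC : lam * ‖t‖ < C) (A : Finset Y) :
    ∃ (m : ℕ) (s : Fin m → StrongDual 𝕜 Z) (e : Fin m → E) (K L : ℝ),
    0 ≤ K ∧ 0 ≤ L ∧ K * L ≤ C ∧ (∀ a : Fin m → 𝕜, ‖∑ j, a j • e j‖ ≤ K * ‖a‖) ∧
    (∀ j, ‖s j‖ ≤ L) ∧ ∀ y ∈ A, ∑ j, s j y • e j = t y := by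
  classical
  set F : Submodule 𝕜 Y := Submodule.span 𝕜 (A : Set Y) with hF
  have hFd : FiniteDimensional 𝕜 F := FiniteDimensional.span_finset 𝕜 A
  obtain ⟨G, hGd, hFG, hG⟩ := hE (F.map t.toLinearMap) inferInstance
  set ε : ℝ := (C - lam * ‖t‖) / (‖t‖ + 1) with hε
  have ht0 : 0 ≤ ‖t‖ := norm_nonneg t
  have hε0 : 0 < ε := div_pos (by linarith) (by linarith)
  obtain ⟨m, u, hu⟩ : ∃ (m : ℕ) (u : G ≃L[𝕜] (Fin m → 𝕜)),
      ‖(u : G →L[𝕜] (Fin m → 𝕜))‖ * ‖(u.symm : (Fin m → 𝕜) →L[𝕜] G)‖ ≤ lam + ε := by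
    obtain ⟨u, a, b, ha, hb, hab, hua, hub⟩ := hG ε hε0
    refine ⟨_, u.toContinuousLinearEquiv, le_trans ?_ hab⟩
    refine mul_le_mul ?_ ?_ (norm_nonneg _) ha
    · exact ContinuousLinearMap.opNorm_le_bound _ ha (fun x => hua x)
    · exact ContinuousLinearMap.opNorm_le_bound _ hb (fun y => hub y)
  have htF : ∀ y : F, t y ∈ G := fun y => hFG ⟨y, y.2, rfl⟩
  let tF : F →L[𝕜] G := (t.comp F.subtypeL).codRestrict G htF
  have htFn : ‖tF‖ ≤ ‖t‖ := by
    refine ContinuousLinearMap.opNorm_le_bound _ ht0 (fun y => ?_)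
    show ‖t y‖ ≤ ‖t‖ * ‖(y : Y)‖
    exact t.le_opNorm _
  let uC : G →L[𝕜] (Fin m → 𝕜) := u
  let α : Fin m → StrongDual 𝕜 F := fun j =>
    (ContinuousLinearMap.proj (R := 𝕜) (φ := fun _ : Fin m => 𝕜) j).comp (uC.comp tF)
  have hα : ∀ j y, α j y = u (tF y) j := fun j y => rfl
  have hαn : ∀ j, ‖α j‖ ≤ ‖uC‖ * ‖t‖ := by
    intro j
    refine ContinuousLinearMap.opNorm_le_bound _ (by positivity) (fun y => ?_)
    rw [hα]
    calc ‖u (tF y) j‖ ≤ ‖u (tF y)‖ := norm_le_pi_norm _ j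
      _ ≤ ‖uC‖ * ‖tF y‖ := uC.le_opNorm _
      _ ≤ ‖uC‖ * (‖tF‖ * ‖y‖) := by gcongr; exact tF.le_opNorm _
      _ ≤ ‖uC‖ * (‖t‖ * ‖y‖) := by gcongr
      _ = ‖uC‖ * ‖t‖ * ‖y‖ := by ring
  choose β hβ1 hβ2 using fun j => exists_extension_norm_eq F (α j)
  choose γ hγ1 hγ2 using fun j => exists_extension_norm_eq Y (β j)
  let us : (Fin m → 𝕜) →L[𝕜] G := u.symm
  refine ⟨m, γ, fun j => (us (Pi.single j 1) : E), ‖us‖, ‖uC‖ * ‖t‖, norm_nonneg _,
    by positivity, ?_, fun a => ?_, fun j => ?_, fun y hy => ?_⟩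
  · have h1 : ‖uC‖ * ‖us‖ ≤ lam + ε := hu
    calc ‖us‖ * (‖uC‖ * ‖t‖) = (‖uC‖ * ‖us‖) * ‖t‖ := by ring
      _ ≤ (lam + ε) * ‖t‖ := mul_le_mul_of_nonneg_right h1 ht0
      _ = lam * ‖t‖ + ε * ‖t‖ := by ring
      _ ≤ lam * ‖t‖ + ε * (‖t‖ + 1) := by
          have : ε * ‖t‖ ≤ ε * (‖t‖ + 1) := mul_le_mul_of_nonneg_left (by linarith) hε0.le
          linarith
      _ = C := by
          rw [hε, div_mul_cancel₀ _ (by positivity)]
          ring
  · have h1 : ∑ j, a j • (us (Pi.single j 1) : E) = (us a : E) := by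
      have h2 : a = ∑ j, a j • (Pi.single j (1 : 𝕜) : Fin m → 𝕜) := by
        funext k
        rw [Finset.sum_apply]
        simp [Pi.single_apply]
      conv_rhs => rw [h2]
      rw [map_sum, AddSubmonoidClass.coe_finsetSum]
      refine Finset.sum_congr rfl (fun j _ => ?_)
      rw [map_smul]
      rfl
    rw [h1]
    exact us.le_opNorm a
  · rw [hγ2, hβ2]
    exact hαn j
  · have hyF : y ∈ F := Submodule.subset_span (Finset.mem_coe.2 hy)
    have h0 : ∀ j, γ j y = u (tF ⟨y, hyF⟩) j := by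
      intro j
      rw [hγ1, ← hα]
      exact hβ1 j ⟨y, hyF⟩
    simp_rw [h0]
    have h1 : ∑ j, (u (tF ⟨y, hyF⟩) j) • (us (Pi.single j 1) : E) =
        (us (u (tF ⟨y, hyF⟩)) : E) := by
      have h2 : u (tF ⟨y, hyF⟩) =
          ∑ j, (u (tF ⟨y, hyF⟩) j) • (Pi.single j (1 : 𝕜) : Fin m → 𝕜) := by
        funext k
        rw [Finset.sum_apply]
        simp [Pi.single_apply]
      conv_rhs => rw [h2]
      rw [map_sum, AddSubmonoidClass.coe_finsetSum]
      refine Finset.sum_congr rfl (fun j _ => ?_)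
      rw [map_smul]
      rfl
    rw [h1]
    have h3 : us (u (tF ⟨y, hyF⟩)) = tF ⟨y, hyF⟩ := u.symm_apply_apply _
    rw [h3]
    rfl

theorem loc_linfty {lam : ℝ} (hE : IsLinfty 𝕜 E lam) (t : Y →L[𝕜] E) : Loc t (lam * ‖t‖) :=
  fun C hC A => loc_of_linfty hE t C hC A

theorem loc_lindenstrauss (hE : Lindenstrauss 𝕜 E) (t : Y →L[𝕜] E) : Loc t ‖t‖ := by
  intro C hC A
  have ht0 : 0 ≤ ‖t‖ := norm_nonneg t
  have hpos : 0 < (C - ‖t‖) / (2 * (‖t‖ + 1)) := div_pos (by linarith) (by linarith)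
  refine loc_of_linfty (hE (1 + (C - ‖t‖) / (2 * (‖t‖ + 1))) (by linarith)) t C ?_ A
  have h1 : (C - ‖t‖) / (2 * (‖t‖ + 1)) * ‖t‖ ≤ (C - ‖t‖) / (2 * (‖t‖ + 1)) * (‖t‖ + 1) :=
    mul_le_mul_of_nonneg_left (by linarith) hpos.le
  have h2 : (C - ‖t‖) / (2 * (‖t‖ + 1)) * (‖t‖ + 1) = (C - ‖t‖) / 2 := by
    have : (‖t‖ + 1) ≠ 0 := by positivity
    field_simp
  rw [add_mul, one_mul]
  linarith

end local_

section glue

variable {𝕜 : Type} [RCLike 𝕜] {I : Type u} {U : Ultrafilter I} {X : I → Type v}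
  [∀ i, NormedAddCommGroup (X i)] [∀ i, NormedSpace 𝕜 (X i)]
  {Z : Type w} [NormedAddCommGroup Z] [NormedSpace 𝕜 Z] {Y : Submodule 𝕜 Z}

theorem local_ev (t : Y →L[𝕜] Ultraproduct 𝕜 U X) {c : ℝ} (hloc : Loc t c) {S : Type w}
    (σ : S → Y) (y : S → lp X ∞) (hy : ∀ s, q 𝕜 U X (y s) = t (σ s)) (A : Finset S) {δ : ℝ}
    (hδ : 0 < δ) : ∀ᶠ i in U, ∃ T' : Z →L[𝕜] X i, ‖T'‖ ≤ c + δ ∧
      ∀ s ∈ A, ‖T' (σ s) - y s i‖ ≤ δ := by
  classical
  obtain ⟨m, s, e, K, L, hK, hL, hKL, he, hs, hsA⟩ := hloc (c + δ / 2) (by linarith) (A.image σ)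
  choose e' he' using fun j => q_surj (𝕜 := 𝕜) (U := U) (X := X) (e j)
  set K' : ℝ := K + δ / (2 * (L + 1)) with hK'
  have hKK : K < K' := by
    have : 0 < δ / (2 * (L + 1)) := by positivity
    linarith
  have h1 := uniform (𝕜 := 𝕜) (U := U) e' hK hKK (fun a => by
    simp_rw [he']
    exact he a)
  have h2 : ∀ᶠ i in U, ∀ r ∈ A, ‖(∑ j, s j (σ r) • e' j - y r : lp X ∞) i‖ < δ := by
    rw [Filter.eventually_all_finset]
    intro r hr
    have h3 : q 𝕜 U X (∑ j, s j (σ r) • e' j - y r) = 0 := by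
      rw [map_sub, map_sum, hy, sub_eq_zero]
      simp_rw [map_smul, he']
      exact hsA (σ r) (Finset.mem_image_of_mem σ hr)
    exact (q_eq_zero.1 h3).eventually_lt_const hδ
  filter_upwards [h1, h2] with i hi1 hi2
  let T' : Z →L[𝕜] X i := ∑ j, (s j).smulRight (e' j i)
  have hT' : ∀ z, T' z = ∑ j, s j z • e' j i := by
    intro z
    rw [_root_.sum_apply]
    rfl
  refine ⟨T', ?_, fun r hr => ?_⟩
  · have hpos : 0 ≤ c + δ := by
      have h3 : 0 ≤ K * L := mul_nonneg hK hL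
      linarith
    refine ContinuousLinearMap.opNorm_le_bound _ hpos (fun z => ?_)
    rw [hT']
    have h3 : ‖(fun j => s j z)‖ ≤ L * ‖z‖ := by
      rw [pi_norm_le_iff_of_nonneg (by positivity)]
      intro j
      exact ((s j).le_opNorm z).trans (mul_le_mul_of_nonneg_right (hs j) (norm_nonneg _))
    have hK'0 : 0 ≤ K' := hK.trans hKK.le
    have h4 : K' * L ≤ c + δ := by
      rw [hK', add_mul]
      have h5 : δ / (2 * (L + 1)) * L ≤ δ / 2 := by
        rw [div_mul_eq_mul_div, div_le_div_iff₀ (by positivity) (by positivity)]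
        nlinarith
      linarith
    calc ‖∑ j, s j z • e' j i‖ ≤ K' * ‖(fun j => s j z)‖ := hi1 (fun j => s j z)
      _ ≤ K' * (L * ‖z‖) := mul_le_mul_of_nonneg_left h3 hK'0
      _ = (K' * L) * ‖z‖ := by ring
      _ ≤ (c + δ) * ‖z‖ := mul_le_mul_of_nonneg_right h4 (norm_nonneg _)
  · have h3 := hi2 r hr
    have h4 : (∑ j, s j (σ r) • e' j - y r : lp X ∞) i = T' (σ r) - y r i := by
      rw [hT', lp.coeFn_sub, Pi.sub_apply, lp.coeFn_sum, Finset.sum_apply]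
      rfl
    rw [h4] at h3
    exact h3.le

theorem glue (hU : CountablyIncomplete U) {κ : Cardinal.{w}} (hG : Good U κ)
    (t : Y →L[𝕜] Ultraproduct 𝕜 U X) {c : ℝ} (hc : 0 ≤ c) (hloc : Loc t c)
    (S : Type w) [Infinite S] (hS : Cardinal.mk S < κ) (σ : S → Y) (hσ : DenseRange σ) :
    ∃ T : Z →L[𝕜] Ultraproduct 𝕜 U X, (∀ y : Y, T y = t y) ∧ ‖T‖ ≤ c := by
  classical
  obtain ⟨A₀, hanti, hmem, hemp⟩ := hU
  choose y hy using fun s => q_surj (𝕜 := 𝕜) (U := U) (X := X) (t (σ s))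
  have hdec : ∀ m n : ℕ, m ≤ n → (1 : ℝ) / (n + 1) ≤ 1 / (m + 1) := by
    intro m n hmn
    apply one_div_le_one_div_of_le (by positivity)
    have : (m : ℝ) ≤ n := by exact_mod_cast hmn
    linarith
  let f : Finset S → Set I := fun A => {i | i ∈ A₀ A.card ∧ ∃ T' : Z →L[𝕜] X i,
    ‖T'‖ ≤ c + 1 / ((A.card : ℝ) + 1) ∧ ∀ s ∈ A, ‖T' (σ s) - y s i‖ ≤ 1 / ((A.card : ℝ) + 1)}
  obtain ⟨g, hg1, hg2, hg3⟩ := hG S hS f (fun A => by
    have h1 : (0 : ℝ) < 1 / ((A.card : ℝ) + 1) := by positivity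
    filter_upwards [hmem A.card, local_ev t hloc σ y hy A h1] with i hi1 hi2
    exact ⟨hi1, hi2⟩) (fun A B hAB => by
    rintro i ⟨hi1, T', hi2, hi3⟩
    have hcard : A.card ≤ B.card := Finset.card_le_card hAB
    have h1 := hdec _ _ hcard
    refine ⟨hanti hcard hi1, T', by linarith, fun s hs => (hi3 s (hAB hs)).trans h1⟩)
  -- the operators
  have hT : ∀ i, ∃ T' : Z →L[𝕜] X i, ‖T'‖ ≤ c + 1 ∧ ∀ B : Finset S, i ∈ g B →
      ‖T'‖ ≤ c + 1 / ((B.card : ℝ) + 1) ∧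
        ∀ s ∈ B, ‖T' (σ s) - y s i‖ ≤ 1 / ((B.card : ℝ) + 1) := by
    intro i
    by_cases hex : ∃ A, i ∈ g A
    · obtain ⟨n, hn⟩ : ∃ n, i ∉ A₀ n := by
        by_contra hcon
        push Not at hcon
        have : i ∈ ⋂ n, A₀ n := Set.mem_iInter.2 hcon
        rw [hemp] at this
        exact this
      have hbd : ∀ A, i ∈ g A → A.card < n := by
        intro A hA
        by_contra hcon
        exact hn (hanti (not_lt.1 hcon) (hg2 A hA).1)
      obtain ⟨A, hA, hAmin⟩ := WellFounded.has_min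
        (measure (fun A : Finset S => n - A.card)).wf {A | i ∈ g A} hex
      have hAmax : ∀ B, i ∈ g B → B ⊆ A := by
        intro B hB
        have hAB : i ∈ g (A ∪ B) := by
          rw [hg3]
          exact ⟨hA, hB⟩
        have h1 : ¬ (n - (A ∪ B).card < n - A.card) := hAmin (A ∪ B) hAB
        have h2 := hbd _ hAB
        have h3 := hbd _ hA
        have h4 : (A ∪ B).card ≤ A.card := by omega
        have h5 := Finset.eq_of_subset_of_card_le Finset.subset_union_left h4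
        rw [h5]
        exact Finset.subset_union_right
      obtain ⟨-, T', hT'1, hT'2⟩ := hg2 A hA
      refine ⟨T', ?_, fun B hB => ?_⟩
      · have h1 := hdec 0 A.card (Nat.zero_le _)
        rw [Nat.cast_zero, zero_add, div_one] at h1
        linarith
      · have hBA := hAmax B hB
        have h1 := hdec _ _ (Finset.card_le_card hBA)
        exact ⟨by linarith, fun s hs => (hT'2 s (hBA hs)).trans h1⟩
    · refine ⟨0, ?_, fun B hB => absurd ⟨B, hB⟩ hex⟩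
      rw [norm_zero]
      linarith
  choose T' hT'0 hT'1 using hT
  have hTle : ∀ i z, ‖T' i z‖ ≤ (c + 1) * ‖z‖ := fun i z =>
    (T' i).le_of_opNorm_le (hT'0 i) z
  let L₀ : Z →ₗ[𝕜] lp X ∞ :=
    { toFun := fun z => ⟨fun i => T' i z, by
        show Memℓp (fun i => T' i z) ∞
        rw [memℓp_infty_iff]
        refine ⟨(c + 1) * ‖z‖, ?_⟩
        rintro _ ⟨i, rfl⟩
        exact hTle i z⟩
      map_add' := fun z z' => lp.ext (funext fun i => map_add (T' i) z z')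
      map_smul' := fun a z => lp.ext (funext fun i => map_smul (T' i) a z) }
  have hL₀ : ∀ z i, (L₀ z) i = T' i z := fun z i => rfl
  let L : Z →L[𝕜] lp X ∞ := L₀.mkContinuous (c + 1) (fun z =>
    lp.norm_le_of_forall_le (by positivity) (fun i => hTle i z))
  have hL : ∀ z i, (L z) i = T' i z := fun z i => rfl
  refine ⟨(q 𝕜 U X).comp L, ?_, ?_⟩
  · have hdense : ∀ s, q 𝕜 U X (L (σ s)) = t (σ s) := by
      intro s
      rw [← hy, ← sub_eq_zero, ← map_sub, q_eq_zero, Metric.tendsto_nhds]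
      intro ε hε
      obtain ⟨n, hn⟩ := exists_nat_one_div_lt hε
      obtain ⟨B, hB⟩ := Infinite.exists_subset_card_eq S n
      have hcard : n ≤ (insert s B).card := by
        rw [← hB]
        exact Finset.card_le_card (Finset.subset_insert s B)
      filter_upwards [hg1 (insert s B)] with i hi
      have h1 := (hT'1 i (insert s B) hi).2 s (Finset.mem_insert_self s B)
      have h2 := hdec _ _ hcard
      have h3 : (L (σ s) - y s) i = T' i (σ s) - y s i := rfl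
      rw [h3, Real.dist_eq, sub_zero, abs_of_nonneg (norm_nonneg _)]
      exact (h1.trans h2).trans_lt hn
    intro y₀
    exact hσ.induction_on (p := fun y₀ : Y => q 𝕜 U X (L y₀) = t y₀) y₀
      (isClosed_eq (((q 𝕜 U X).comp L).continuous.comp continuous_subtype_val) t.continuous)
      hdense
  · refine ContinuousLinearMap.opNorm_le_bound _ hc (fun z => ?_)
    have h1 : ∀ n : ℕ, ‖((q 𝕜 U X).comp L) z‖ ≤ (c + 1 / ((n : ℝ) + 1)) * ‖z‖ := by
      intro n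
      have hpos : (0 : ℝ) < 1 / ((n : ℝ) + 1) := by positivity
      obtain ⟨B, hB⟩ := Infinite.exists_subset_card_eq S n
      refine q_le (by positivity) ?_
      filter_upwards [hg1 B] with i hi
      show ‖T' i z‖ ≤ (c + 1 / ((n : ℝ) + 1)) * ‖z‖
      have h2 := (hT'1 i B hi).1
      rw [hB] at h2
      exact (T' i).le_of_opNorm_le h2 z
    have h2 : Tendsto (fun n : ℕ => (c + 1 / ((n : ℝ) + 1)) * ‖z‖) atTop
        (𝓝 ((c + 0) * ‖z‖)) :=
      (tendsto_const_nhds.add tendsto_one_div_add_atTop_nhds_zero_nat).mul_const _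
    rw [add_zero] at h2
    exact ge_of_tendsto' h2 h1

/-- From a dense set to an infinite index type. -/
theorem extend_of_loc (hU : CountablyIncomplete U) {κ : Cardinal.{w}} (hG : Good U κ)
    (t : Y →L[𝕜] Ultraproduct 𝕜 U X) {c : ℝ} (hc : 0 ≤ c) (hloc : Loc t c)
    (hY : DensLT Y κ) :
    ∃ T : Z →L[𝕜] Ultraproduct 𝕜 U X, (∀ y : Y, T y = t y) ∧ ‖T‖ ≤ c := by
  obtain ⟨D, hD, hDκ⟩ := hY
  by_cases hinf : Infinite D
  · exact glue hU hG t hc hloc D hDκ (Subtype.val) (by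
      rw [DenseRange, Subtype.range_coe]
      exact hD)
  · have hfin : D.Finite := by
      rw [not_infinite_iff_finite] at hinf
      exact Set.toFinite D
    have huniv : D = Set.univ := by
      rw [← hfin.isClosed.closure_eq]
      exact hD.closure_eq
    have hsub : Subsingleton Y := by
      by_contra hcon
      rw [not_subsingleton_iff_nontrivial] at hcon
      have : Infinite Y := Module.Free.infinite 𝕜 Y
      rw [huniv] at hfin
      exact Set.infinite_univ hfin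
    refine ⟨0, fun y => ?_, by rw [norm_zero]; exact hc⟩
    have : y = 0 := Subsingleton.elim _ _
    rw [this, map_zero]
    rfl

end glue

end Q100.UP

namespace Q100.UP

universe u v w

theorem densLT_sub {𝕜 : Type} [RCLike 𝕜] {Z : Type w} [NormedAddCommGroup Z] [NormedSpace 𝕜 Z]
    {κ : Cardinal.{w}} (hκ : Cardinal.aleph0 ≤ κ) (hZ : DensLT Z κ) (Y : Submodule 𝕜 Z) :
    DensLT Y κ := by
  classical
  obtain ⟨D, hD, hDκ⟩ := hZ
  by_cases hinf : Infinite D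
  · have hex : ∀ p : D × ℕ, ∃ y : Y, (∃ y' : Y, dist (p.1 : Z) y' < 1 / ((p.2 : ℝ) + 1)) →
        dist (p.1 : Z) y < 1 / ((p.2 : ℝ) + 1) := by
      intro p
      by_cases h : ∃ y' : Y, dist (p.1 : Z) y' < 1 / ((p.2 : ℝ) + 1)
      · obtain ⟨y, hy⟩ := h
        exact ⟨y, fun _ => hy⟩
      · exact ⟨0, fun h' => absurd h' h⟩
    choose σ hσ using hex
    refine ⟨Set.range σ, ?_, ?_⟩
    · intro y
      rw [Metric.mem_closure_iff]
      intro ε hε
      obtain ⟨n, hn⟩ := exists_nat_one_div_lt (show 0 < ε / 2 by positivity)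
      have hpos : (0 : ℝ) < 1 / ((n : ℝ) + 1) := by positivity
      obtain ⟨d, hd, hdy⟩ := Metric.mem_closure_iff.1 (hD (y : Z)) _ hpos
      have h1 := hσ (⟨d, hd⟩, n) ⟨y, by rw [dist_comm]; exact hdy⟩
      refine ⟨_, ⟨(⟨d, hd⟩, n), rfl⟩, ?_⟩
      have h2 : dist (y : Z) (σ (⟨d, hd⟩, n) : Z) ≤ dist (y : Z) d +
          dist d (σ (⟨d, hd⟩, n) : Z) := dist_triangle _ _ _
      have h3 : dist d (σ (⟨d, hd⟩, n) : Z) < 1 / ((n : ℝ) + 1) := h1
      have h4 : dist y (σ (⟨d, hd⟩, n)) = dist (y : Z) (σ (⟨d, hd⟩, n) : Z) := rfl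
      rw [h4]
      linarith
    · refine lt_of_le_of_lt Cardinal.mk_range_le ?_
      have h1 : Cardinal.mk (D × ℕ) = Cardinal.mk D := by
        rw [Cardinal.mk_prod, Cardinal.lift_id', Cardinal.mk_nat, Cardinal.lift_aleph0]
        exact Cardinal.mul_aleph0_eq (Cardinal.infinite_iff.1 hinf)
      rw [h1]
      exact hDκ
  · have hfin : D.Finite := by
      rw [not_infinite_iff_finite] at hinf
      exact Set.toFinite D
    have huniv : D = Set.univ := by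
      rw [← hfin.isClosed.closure_eq]
      exact hD.closure_eq
    have hfinZ : Finite Z := by
      rw [huniv] at hfin
      exact Set.finite_univ_iff.1 hfin
    have hfinY : Finite Y := Finite.of_injective (Subtype.val : Y → Z) Subtype.val_injective
    refine ⟨Set.univ, dense_univ, ?_⟩
    rw [Cardinal.mk_univ]
    exact (Cardinal.mk_lt_aleph0_iff.2 hfinY).trans_le hκ

section

variable {𝕜 : Type} [RCLike 𝕜] {I : Type u} {U : Ultrafilter I} {X : I → Type v}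
  [∀ i, NormedAddCommGroup (X i)] [∀ i, NormedSpace 𝕜 (X i)]

theorem univ_of_lindenstrauss {κ : Cardinal.{w}} (hU : CountablyIncomplete U) (hG : Good U κ)
    (hX : Lindenstrauss 𝕜 (Ultraproduct 𝕜 U X)) :
    UnivInjective 𝕜 (Ultraproduct 𝕜 U X) 1 κ := by
  intro Z _ _ _ Y _ hYκ t
  rw [one_mul]
  exact extend_of_loc hU hG t (norm_nonneg t) (loc_lindenstrauss hX t) hYκ

theorem univ_of_linfty {κ : Cardinal.{w}} (hU : CountablyIncomplete U) (hG : Good U κ)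
    {lam : ℝ} (hlam : 0 ≤ lam) (hX : IsLinfty 𝕜 (Ultraproduct 𝕜 U X) lam) :
    UnivInjective 𝕜 (Ultraproduct 𝕜 U X) lam κ := by
  intro Z _ _ _ Y _ hYκ t
  exact extend_of_loc hU hG t (mul_nonneg hlam (norm_nonneg t)) (loc_linfty hX t) hYκ

theorem aleph_of_univ {E : Type v} [NormedAddCommGroup E] [NormedSpace 𝕜 E]
    {κ : Cardinal.{w}} (hκ : Cardinal.aleph0 ≤ κ)
    {lam : ℝ} (hE : UnivInjective 𝕜 E lam κ) : AlephInjective 𝕜 E κ := by
  intro Z _ _ _ hZ Y hY t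
  obtain ⟨T, hT, -⟩ := hE Z Y hY (densLT_sub hκ hZ Y) t
  exact ⟨T, hT⟩

end

end Q100.UP
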