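import Pool.Agent.Q100.WBDefs

/-!
# A dense subspace on which the norm is weakly Baire measurable
-/

set_option autoImplicit false
open Filter Topology
open scoped ENNReal

noncomputable section

namespace Q100.WB

universe u w

section General

variable {𝕜 : Type w} [RCLike 𝕜] {X : Type u} [NormedAddCommGroup X] [NormedSpace 𝕜 X]

theorem tendsto_weakTop {ι : Type*} {l : Filter ι} {e : ι → X} {z : X}
    (h : ∀ φ : X →L[𝕜] 𝕜, Tendsto (fun i => φ (e i)) l (𝓝 (φ z))) :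
    Tendsto e l (@nhds X (weakTop 𝕜 X) z) := by
  rw [weakTop, nhds_iInf, tendsto_iInf]
  intro φ
  rw [nhds_induced, tendsto_comap_iff]
  exact h φ

theorem continuous_weakTop (φ : X →L[𝕜] 𝕜) : @Continuous X 𝕜 (weakTop 𝕜 X) _ φ :=
  continuous_iff_le_induced.2 (iInf_le _ φ)

theorem measurable_norm_apply (φ : X →L[𝕜] 𝕜) :
    @Measurable X ℝ (Ba 𝕜 X) (borel ℝ) (fun x => ‖φ x‖) := by
  have h : @Continuous X ℝ (weakTop 𝕜 X) inferInstance (fun x => ‖φ x‖) :=
    @Continuous.comp X 𝕜 ℝ (weakTop 𝕜 X) _ _ _ _ continuous_norm (continuous_weakTop φ)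
  rw [measurable_iff_comap_le]
  exact le_iSup (fun f : {f : X → ℝ // @Continuous X ℝ (weakTop 𝕜 X) inferInstance f} =>
    MeasurableSpace.comap f.1 (borel ℝ)) ⟨_, h⟩

/-- If `e i → 0` weakly along the cofinite filter of an uncountable set, then a `Ba(X, w)`
measurable function takes the value `f 0` at all but countably many `e i`. -/
theorem countable_ne {ι : Type*} {e : ι → X}
    (he : ∀ φ : X →L[𝕜] 𝕜, Tendsto (fun i => φ (e i)) cofinite (𝓝 0))
    {B : Set X} (hB : @MeasurableSet X (Ba 𝕜 X) B) : {i | ¬ (e i ∈ B ↔ (0 : X) ∈ B)}.Countable := by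
  let m : MeasurableSpace X :=
    { MeasurableSet' := fun B => {i | ¬ (e i ∈ B ↔ (0 : X) ∈ B)}.Countable
      measurableSet_empty := by simp
      measurableSet_compl := by
        intro s hs
        refine hs.mono ?_
        intro i hi
        simp only [Set.mem_ofPred_eq, Set.mem_compl_iff] at hi ⊢
        tauto
      measurableSet_iUnion := by
        intro s hs
        refine (Set.countable_iUnion hs).mono ?_
        intro i hi
        simp only [Set.mem_ofPred_eq, Set.mem_iUnion] at hi ⊢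
        by_contra hcon
        push Not at hcon
        apply hi
        constructor
        · rintro ⟨k, hk⟩; exact ⟨k, (hcon k).1 hk⟩
        · rintro ⟨k, hk⟩; exact ⟨k, (hcon k).2 hk⟩ }
  have hle : Ba 𝕜 X ≤ m := by
    refine iSup_le ?_
    rintro ⟨f, hf⟩
    have hlim : Tendsto (fun i => f (e i)) cofinite (𝓝 (f 0)) := by
      have h1 : Tendsto f (@nhds X (weakTop 𝕜 X) 0) (𝓝 (f 0)) :=
        @Continuous.tendsto X ℝ (weakTop 𝕜 X) _ f hf 0
      exact h1.comp (tendsto_weakTop (fun φ => by simpa using he φ))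
    have hcount : {i | f (e i) ≠ f 0}.Countable := by
      have h1 : ∀ k : ℕ, {i | ¬ dist (f (e i)) (f 0) < 1 / ((k : ℝ) + 1)}.Finite := by
        intro k
        have h2 := Metric.tendsto_nhds.1 hlim (1 / ((k : ℝ) + 1)) (by positivity)
        exact h2
      refine (Set.countable_iUnion (fun k => (h1 k).countable)).mono ?_
      intro i hi
      simp only [Set.mem_ofPred_eq, Set.mem_iUnion] at hi ⊢
      have h2 : 0 < dist (f (e i)) (f 0) := dist_pos.2 hi
      obtain ⟨k, hk⟩ := exists_nat_one_div_lt h2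
      exact ⟨k, not_lt.2 hk.le⟩
    rintro _ ⟨U, -, rfl⟩
    refine hcount.mono ?_
    intro i hi hcon
    apply hi
    simp only [Set.mem_preimage]
    rw [hcon]
  exact hle _ hB

end General

variable (𝕜 : Type w) [RCLike 𝕜]

/-- The index set: the nodes of the binary tree and its branches. -/
abbrev Idx : Type := (Σ n : ℕ, (Fin n → Bool)) ⊕ (ℕ → Bool)

instance instDecIdx : DecidableEq Idx := Classical.decEq _

instance instDecBranch : DecidableEq (ℕ → Bool) := Classical.decEq _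

/-- The Hilbert space of the example. -/
abbrev HS : Type w := lp (fun _ : Idx => 𝕜) 2

/-- Restriction of a branch to its first `n` values. -/
def res (n : ℕ) (σ : ℕ → Bool) : Fin n → Bool := fun i => σ i

/-- The dense subspace: finitely many coordinates on the branches are nonzero, and at high levels
the coordinates on the tree are `2⁻ⁿ` times the sum of those on the branches above. -/
def DS : Submodule 𝕜 (HS 𝕜) where
  carrier := {x | ∃ c : (ℕ → Bool) →₀ 𝕜, (∀ σ, x (Sum.inr σ) = c σ) ∧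
    ∃ N : ℕ, ∀ n, N ≤ n → ∀ s : Fin n → Bool,
      x (Sum.inl ⟨n, s⟩) = ((1 / 2 : 𝕜)) ^ n * c.sum (fun σ v => if res n σ = s then v else 0)}
  add_mem' := by
    rintro x y ⟨c, hc, N, hN⟩ ⟨d, hd, M, hM⟩
    refine ⟨c + d, fun σ => ?_, max N M, fun n hn s => ?_⟩
    · rw [lp.coeFn_add, Pi.add_apply, hc, hd, Finsupp.add_apply]
    · rw [lp.coeFn_add, Pi.add_apply, hN n (le_of_max_le_left hn), hM n (le_of_max_le_right hn),
        Finsupp.sum_add_index']
      · ring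
      · intro σ; simp
      · intro σ a b
        split_ifs <;> simp
  zero_mem' := ⟨0, fun σ => rfl, 0, fun n _ s => by simp⟩
  smul_mem' := by
    rintro a x ⟨c, hc, N, hN⟩
    refine ⟨a • c, fun σ => ?_, N, fun n hn s => ?_⟩
    · rw [lp.coeFn_smul, Pi.smul_apply, hc, Finsupp.smul_apply]
    · rw [lp.coeFn_smul, Pi.smul_apply, hN n hn, Finsupp.sum_smul_index']
      · simp only [smul_eq_mul, Finsupp.sum, Finset.mul_sum]
        refine Finset.sum_congr rfl (fun σ _ => ?_)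
        split_ifs <;> ring
      · intro σ; simp

variable {𝕜}

/-- The vector `a_σ = e_σ + ∑ 2⁻ⁿ e_{σ|n}`. -/
def av (σ : ℕ → Bool) : HS 𝕜 :=
  lp.single 2 (Sum.inr σ) (1 : 𝕜) +
    ∑' n : ℕ, ((1 / 2 : 𝕜)) ^ n • lp.single 2 (Sum.inl ⟨n, res n σ⟩) (1 : 𝕜)

theorem norm_half_pow (n : ℕ) : ‖((1 / 2 : 𝕜)) ^ n‖ = (1 / 2 : ℝ) ^ n := by
  rw [norm_pow, norm_div, norm_one, RCLike.norm_ofNat]

theorem summable_av (σ : ℕ → Bool) : Summable (fun n : ℕ =>
    ((1 / 2 : 𝕜)) ^ n • (lp.single 2 (Sum.inl ⟨n, res n σ⟩) (1 : 𝕜) : HS 𝕜)) := by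
  refine Summable.of_norm_bounded (summable_geometric_of_lt_one (r := (1 / 2 : ℝ))
    (by norm_num) (by norm_num)) (fun n => ?_)
  rw [norm_smul, norm_half_pow, lp.norm_single (by simp), norm_one, mul_one]

theorem av_apply (σ : ℕ → Bool) (i : Idx) : (av σ : HS 𝕜) i =
    (Pi.single (Sum.inr σ) (1 : 𝕜) : Idx → 𝕜) i +
      ∑' n : ℕ, ((1 / 2 : 𝕜)) ^ n * (Pi.single (Sum.inl ⟨n, res n σ⟩) (1 : 𝕜) : Idx → 𝕜) i := by
  rw [av, lp.coeFn_add, Pi.add_apply]
  congr 1
  have h := (lp.evalCLM 𝕜 (fun _ : Idx => 𝕜) 2 i).map_tsum (summable_av (𝕜 := 𝕜) σ)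
  have h2 : (lp.evalCLM 𝕜 (fun _ : Idx => 𝕜) 2 i) (∑' n : ℕ,
    ((1 / 2 : 𝕜)) ^ n • (lp.single 2 (Sum.inl ⟨n, res n σ⟩) (1 : 𝕜) : HS 𝕜)) =
    (∑' n : ℕ, ((1 / 2 : 𝕜)) ^ n • (lp.single 2 (Sum.inl ⟨n, res n σ⟩) (1 : 𝕜) : HS 𝕜) : HS 𝕜) i :=
    rfl
  rw [← h2, h]
  rfl

theorem av_inr (σ τ : ℕ → Bool) : (av σ : HS 𝕜) (Sum.inr τ) = if σ = τ then 1 else 0 := by
  classical
  rw [av_apply]
  have h : ∀ n : ℕ, ((1 / 2 : 𝕜)) ^ n *
      (Pi.single (Sum.inl ⟨n, res n σ⟩) (1 : 𝕜) : Idx → 𝕜) (Sum.inr τ) = 0 := by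
    intro n
    rw [Pi.single_apply, if_neg (by simp), mul_zero]
  simp_rw [h]
  rw [tsum_zero, add_zero, Pi.single_apply]
  by_cases hst : σ = τ
  · simp [hst]
  · rw [if_neg hst, if_neg]
    intro h2
    exact hst (Sum.inr_injective h2).symm

theorem av_inl (σ : ℕ → Bool) (n : ℕ) (s : Fin n → Bool) :
    (av σ : HS 𝕜) (Sum.inl ⟨n, s⟩) = if res n σ = s then (1 / 2 : 𝕜) ^ n else 0 := by
  classical
  rw [av_apply]
  rw [tsum_eq_single n, Pi.single_apply, if_neg (by simp), zero_add, Pi.single_apply]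
  · by_cases h : res n σ = s
    · rw [if_pos h, if_pos (by rw [h]), mul_one]
    · rw [if_neg h, if_neg, mul_zero]
      intro h2
      have h3 := Sum.inl_injective h2
      simp only [Sigma.mk.injEq, heq_eq_eq, true_and] at h3
      exact h h3.symm
  · intro m hm
    rw [Pi.single_apply, if_neg, mul_zero]
    intro h2
    have h3 := Sum.inl_injective h2
    exact hm (congrArg Sigma.fst h3).symm

theorem av_mem (σ : ℕ → Bool) : av σ ∈ DS 𝕜 := by
  classical
  refine ⟨Finsupp.single σ 1, fun τ => ?_, 0, fun n _ s => ?_⟩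
  · rw [av_inr, Finsupp.single_apply]
  · rw [av_inl, Finsupp.sum_single_index (by simp)]
    split_ifs <;> simp

theorem single_mem (n : ℕ) (s : Fin n → Bool) :
    (lp.single 2 (Sum.inl ⟨n, s⟩) (1 : 𝕜) : HS 𝕜) ∈ DS 𝕜 := by
  classical
  refine ⟨0, fun τ => ?_, n + 1, fun m hm t => ?_⟩
  · rw [lp.single_apply, Pi.single_apply, if_neg (by simp)]
    rfl
  · rw [lp.single_apply, Pi.single_apply, if_neg, Finsupp.sum_zero_index, mul_zero]
    intro h2
    have h3 := Sum.inl_injective h2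
    have h4 := congrArg Sigma.fst h3
    simp only at h4
    omega

theorem dense_DS : (DS 𝕜).topologicalClosure = ⊤ := by
  classical
  rw [Submodule.topologicalClosure_eq_top_iff, eq_bot_iff]
  intro x hx
  rw [Submodule.mem_bot]
  rw [Submodule.mem_orthogonal] at hx
  have h1 : ∀ (n : ℕ) (s : Fin n → Bool), x (Sum.inl ⟨n, s⟩) = 0 := by
    intro n s
    have h2 := hx _ (single_mem n s)
    rw [lp.inner_single_left] at h2
    simpa using h2
  have h3 : ∀ σ : ℕ → Bool, x (Sum.inr σ) = 0 := by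
    intro σ
    have h2 := hx _ (av_mem σ)
    rw [lp.inner_eq_tsum, tsum_eq_single (Sum.inr σ)] at h2
    · rw [av_inr, if_pos rfl] at h2
      simpa using h2
    · rintro (⟨n, s⟩ | τ) hne
      · rw [h1 n s, inner_zero_right]
      · rw [av_inr, if_neg, inner_zero_left]
        rintro rfl
        exact hne rfl
  ext i
  rcases i with ⟨n, s⟩ | σ
  · exact h1 n s
  · exact h3 σ

/-- The function whose value is the square of the norm on the dense subspace. -/
def G (x : HS 𝕜) : ℝ≥0∞ :=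
  (∑' s : (Σ n : ℕ, (Fin n → Bool)), ENNReal.ofReal (‖x (Sum.inl s)‖ ^ 2)) +
    limsup (fun n : ℕ => ENNReal.ofReal (4 ^ n) *
      ∑ s : Fin n → Bool, ENNReal.ofReal (‖x (Sum.inl ⟨n, s⟩)‖ ^ 2)) atTop

theorem measurable_coord (i : Idx) :
    @Measurable (HS 𝕜) ℝ (Ba 𝕜 (HS 𝕜)) (borel ℝ) (fun x => ‖x i‖) :=
  measurable_norm_apply (lp.evalCLM 𝕜 (fun _ : Idx => 𝕜) 2 i)

theorem measurable_G : @Measurable (HS 𝕜) ℝ≥0∞ (Ba 𝕜 (HS 𝕜)) (borel ℝ≥0∞) G := by
  let _ : MeasurableSpace (HS 𝕜) := Ba 𝕜 (HS 𝕜)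
  have h1 : ∀ i : Idx, Measurable (fun x : HS 𝕜 => ENNReal.ofReal (‖x i‖ ^ 2)) := fun i =>
    ENNReal.measurable_ofReal.comp ((measurable_coord i).pow_const 2)
  have h2 : Measurable (fun x : HS 𝕜 => ∑' s : (Σ n : ℕ, (Fin n → Bool)),
      ENNReal.ofReal (‖x (Sum.inl s)‖ ^ 2)) := Measurable.tsum (fun s => h1 _)
  have h3 : Measurable (fun x : HS 𝕜 => limsup (fun n : ℕ => ENNReal.ofReal (4 ^ n) *
      ∑ s : Fin n → Bool, ENNReal.ofReal (‖x (Sum.inl ⟨n, s⟩)‖ ^ 2)) atTop) := by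
    refine Measurable.limsup (fun n => ?_)
    exact (Finset.measurable_fun_sum _ (fun s _ => h1 _)).const_mul _
  exact h2.add h3

theorem hasSum_norm_sq (x : HS 𝕜) : HasSum (fun i => ‖x i‖ ^ 2) (‖x‖ ^ 2) := by
  have h := lp.hasSum_norm (p := 2) (by simp) x
  simpa using h

theorem norm_sq_sum_of_subsingleton {ι : Type*} (S : Finset ι) (c : ι → 𝕜)
    (h : ∀ a ∈ S, ∀ b ∈ S, a = b) : ‖∑ a ∈ S, c a‖ ^ 2 = ∑ a ∈ S, ‖c a‖ ^ 2 := by
  rcases S.eq_empty_or_nonempty with h0 | ⟨a, ha⟩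
  · simp [h0]
  · have h1 : S = {a} := Finset.eq_singleton_iff_unique_mem.2 ⟨ha, fun b hb => h b hb a ha⟩
    rw [h1]; simp

theorem G_eq {x : HS 𝕜} (hx : x ∈ DS 𝕜) : (G x).toReal = ‖x‖ ^ 2 := by
  classical
  obtain ⟨c, hc, N, hN⟩ := hx
  have hsum := hasSum_norm_sq x
  have hs1 : Summable (fun s : (Σ n : ℕ, (Fin n → Bool)) => ‖x (Sum.inl s)‖ ^ 2) :=
    hsum.summable.comp_injective Sum.inl_injective
  have hs2 : HasSum (fun σ : ℕ → Bool => ‖x (Sum.inr σ)‖ ^ 2) (∑ σ ∈ c.support, ‖c σ‖ ^ 2) := by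
    simp_rw [hc]
    refine hasSum_sum_of_ne_finset_zero (fun σ hσ => ?_)
    rw [Finsupp.notMem_support_iff.1 hσ]
    simp
  have htot : ‖x‖ ^ 2 = (∑' s : (Σ n : ℕ, (Fin n → Bool)), ‖x (Sum.inl s)‖ ^ 2) +
      ∑ σ ∈ c.support, ‖c σ‖ ^ 2 := hsum.unique (HasSum.sum hs1.hasSum hs2)
  have hev : ∀ᶠ n : ℕ in atTop, ENNReal.ofReal (4 ^ n) *
      ∑ s : Fin n → Bool, ENNReal.ofReal (‖x (Sum.inl ⟨n, s⟩)‖ ^ 2) =
      ENNReal.ofReal (∑ σ ∈ c.support, ‖c σ‖ ^ 2) := by
    have hinj : ∀ᶠ n : ℕ in atTop, ∀ σ ∈ c.support, ∀ τ ∈ c.support,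
        res n σ = res n τ → σ = τ := by
      rw [Filter.eventually_all_finset]
      intro σ _
      rw [Filter.eventually_all_finset]
      intro τ _
      by_cases hst : σ = τ
      · exact Eventually.of_forall (fun _ _ => hst)
      · obtain ⟨k, hk⟩ := Function.ne_iff.1 hst
        filter_upwards [eventually_gt_atTop k] with n hn h
        exact absurd (congrFun h ⟨k, hn⟩) hk
    filter_upwards [hinj, eventually_ge_atTop N] with n hn1 hn2
    rw [← ENNReal.ofReal_sum_of_nonneg (fun _ _ => by positivity),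
      ← ENNReal.ofReal_mul (by positivity)]
    congr 1
    have h1 : ∀ s : Fin n → Bool, ‖x (Sum.inl ⟨n, s⟩)‖ ^ 2 =
        (1 / 4 : ℝ) ^ n * ∑ σ ∈ c.support with res n σ = s, ‖c σ‖ ^ 2 := by
      intro s
      rw [hN n hn2 s, norm_mul, norm_half_pow, mul_pow, Finsupp.sum, ← Finset.sum_filter,
        norm_sq_sum_of_subsingleton]
      · congr 1
        rw [← pow_mul, mul_comm n 2, pow_mul]
        norm_num
      · intro σ hσ τ hτ
        rw [Finset.mem_filter] at hσ hτ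
        exact hn1 σ hσ.1 τ hτ.1 (hσ.2.trans hτ.2.symm)
    simp_rw [h1]
    rw [← Finset.mul_sum, ← mul_assoc, ← mul_pow, Finset.sum_fiberwise]
    norm_num
  have hlim : limsup (fun n : ℕ => ENNReal.ofReal (4 ^ n) *
      ∑ s : Fin n → Bool, ENNReal.ofReal (‖x (Sum.inl ⟨n, s⟩)‖ ^ 2)) atTop =
      ENNReal.ofReal (∑ σ ∈ c.support, ‖c σ‖ ^ 2) := by
    refine Tendsto.limsup_eq ?_
    exact tendsto_const_nhds.congr' (hev.mono (fun n h => h.symm))
  rw [G, hlim, ← ENNReal.ofReal_tsum_of_nonneg (fun _ => by positivity) hs1,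
    ← ENNReal.ofReal_add (tsum_nonneg (fun _ => by positivity))
      (Finset.sum_nonneg (fun _ _ => by positivity)), ← htot, ENNReal.toReal_ofReal (by positivity)]

theorem norm_measurable_on : BaMeasurableOn 𝕜 (DS 𝕜 : Set (HS 𝕜)) (fun x => ‖x‖) := by
  intro U hU
  have h1 : @Measurable (HS 𝕜) ℝ (Ba 𝕜 (HS 𝕜)) (borel ℝ) (fun x => Real.sqrt (G x).toReal) := by
    let _ : MeasurableSpace (HS 𝕜) := Ba 𝕜 (HS 𝕜)
    exact Real.continuous_sqrt.measurable.comp (ENNReal.measurable_toReal.comp measurable_G)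
  refine ⟨(fun x => Real.sqrt (G x).toReal) ⁻¹' U,
    h1 (MeasurableSpace.measurableSet_generateFrom hU), ?_⟩
  ext x
  simp only [Set.mem_inter_iff, Set.mem_preimage, SetLike.mem_coe]
  constructor
  · rintro ⟨h2, h3⟩
    rw [G_eq h3, Real.sqrt_sq (norm_nonneg _)]
    exact ⟨h2, h3⟩
  · rintro ⟨h2, h3⟩
    rw [G_eq h3, Real.sqrt_sq (norm_nonneg _)] at h2
    exact ⟨h2, h3⟩

theorem norm_not_measurable : ¬ BaMeasurable 𝕜 (fun x : HS 𝕜 => ‖x‖) := by
  classical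
  intro h
  have h1 := h (Set.Ioi 0) isOpen_Ioi
  let e : (ℕ → Bool) → HS 𝕜 := fun σ => lp.single 2 (Sum.inr σ) (1 : 𝕜)
  have he : ∀ φ : HS 𝕜 →L[𝕜] 𝕜, Tendsto (fun σ => φ (e σ)) cofinite (𝓝 0) := by
    intro φ
    obtain ⟨y, rfl⟩ := (InnerProductSpace.toDual 𝕜 (HS 𝕜)).surjective φ
    rw [tendsto_zero_iff_norm_tendsto_zero]
    have h2 : Summable (fun σ : ℕ → Bool => ‖y (Sum.inr σ)‖ ^ 2) :=
      (hasSum_norm_sq y).summable.comp_injective Sum.inr_injective
    have h3 := h2.tendsto_cofinite_zero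
    have h4 : Tendsto (fun σ : ℕ → Bool => Real.sqrt (‖y (Sum.inr σ)‖ ^ 2)) cofinite (𝓝 0) := by
      have h5 := (Real.continuous_sqrt.tendsto 0).comp h3
      rw [Real.sqrt_zero] at h5
      exact h5
    refine h4.congr (fun σ => ?_)
    rw [InnerProductSpace.toDual_apply_apply, lp.inner_single_right, Real.sqrt_sq (norm_nonneg _)]
    simp
  have h2 := countable_ne he h1
  have h3 : {σ : ℕ → Bool | ¬ (e σ ∈ (fun x : HS 𝕜 => ‖x‖) ⁻¹' Set.Ioi 0 ↔
      (0 : HS 𝕜) ∈ (fun x : HS 𝕜 => ‖x‖) ⁻¹' Set.Ioi 0)} = Set.univ := by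
    ext σ
    simp [e, lp.norm_single]
  rw [h3] at h2
  have h4 : Countable (ℕ → Bool) := Set.countable_univ_iff.1 h2
  have h5 := Cardinal.mk_le_aleph0_iff.2 h4
  rw [← Cardinal.power_def, Cardinal.mk_bool, Cardinal.mk_nat] at h5
  exact absurd h5 (not_le.2 (Cardinal.cantor _))

end Q100.WB
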