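import Mathlib

/-!
# The Baire `σ`-algebra of the weak topology of a Banach space
-/

set_option autoImplicit false
open Filter Topology

namespace Q100.WB

universe u w

/-- The weak topology `σ(X, X*)` of a normed space: the coarsest topology for which all the
elements of `X*` are continuous. -/
def weakTop (𝕜 : Type w) [RCLike 𝕜] (X : Type u) [NormedAddCommGroup X] [NormedSpace 𝕜 X] :
    TopologicalSpace X :=
  ⨅ φ : X →L[𝕜] 𝕜, TopologicalSpace.induced φ inferInstance

/-- The Baire `σ`-algebra `Ba(X, w)` of the weak topology: the smallest `σ`-algebra for which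
all the `w`-continuous functions `X → ℝ` are measurable. -/
def Ba (𝕜 : Type w) [RCLike 𝕜] (X : Type u) [NormedAddCommGroup X] [NormedSpace 𝕜 X] :
    MeasurableSpace X :=
  ⨆ f : {f : X → ℝ // @Continuous X ℝ (weakTop 𝕜 X) inferInstance f},
    MeasurableSpace.comap f.1 (borel ℝ)

/-- `f` is `Ba(X, w)`-measurable. -/
def BaMeasurable (𝕜 : Type w) [RCLike 𝕜] {X : Type u} [NormedAddCommGroup X] [NormedSpace 𝕜 X]
    (f : X → ℝ) : Prop :=
  ∀ U : Set ℝ, IsOpen U → @MeasurableSet X (Ba 𝕜 X) (f ⁻¹' U)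

/-- `f` is relatively `Ba(X, w)`-measurable on `A`: its restriction to `A` is measurable for the
trace `σ`-algebra on `A`. -/
def BaMeasurableOn (𝕜 : Type w) [RCLike 𝕜] {X : Type u} [NormedAddCommGroup X] [NormedSpace 𝕜 X]
    (A : Set X) (f : X → ℝ) : Prop :=
  ∀ U : Set ℝ, IsOpen U → ∃ B : Set X, @MeasurableSet X (Ba 𝕜 X) B ∧ f ⁻¹' U ∩ A = B ∩ A

end Q100.WB
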