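import Mathlib

/-!
# Wiener's lemma for unitary operators without eigenvectors

If `T` is a unitary operator of a complex Hilbert space without eigenvectors, then the Cesàro means
of `|⟨y, Tⁿ x⟩|²` tend to `0`, for all `x, y`.  The proof: a limit of the rank-one averages
`(1/N) ∑ |Tⁿx⟩⟨Tⁿx|` is a compact positive operator commuting with `T`.
-/

set_option autoImplicit false

open Filter Topology Finset
open scoped InnerProductSpace ComplexConjugate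

namespace Pool.Agent.Q100.WN

variable {H : Type*} [NormedAddCommGroup H] [InnerProductSpace ℂ H]

/-- The averaged form `(1/N) ∑ ⟨u, Tⁿx⟩⟨Tⁿx, v⟩`. -/
noncomputable def q (T : H →L[ℂ] H) (x : H) (N : ℕ) (u v : H) : ℂ :=
  (∑ n ∈ range N, ⟪u, (T ^ n) x⟫_ℂ * ⟪(T ^ n) x, v⟫_ℂ) / N

theorem norm_pow_apply {T : H →L[ℂ] H} (hT : ∀ x, ‖T x‖ = ‖x‖) (n : ℕ) (x : H) :
    ‖(T ^ n) x‖ = ‖x‖ := by
  induction n with
  | zero => simp
  | succ n ih => rw [pow_succ']; rw [mul_apply_eq_comp, hT, ih]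

theorem q_norm_le {T : H →L[ℂ] H} (hT : ∀ x, ‖T x‖ = ‖x‖) (x : H) (N : ℕ) (u v : H) :
    ‖q T x N u v‖ ≤ ‖x‖ ^ 2 * ‖u‖ * ‖v‖ := by
  unfold q
  rcases Nat.eq_zero_or_pos N with h | h
  · subst h; simp; positivity
  rw [norm_div, div_le_iff₀ (by simpa using h)]
  calc ‖∑ n ∈ range N, ⟪u, (T ^ n) x⟫_ℂ * ⟪(T ^ n) x, v⟫_ℂ‖
      ≤ ∑ n ∈ range N, ‖⟪u, (T ^ n) x⟫_ℂ * ⟪(T ^ n) x, v⟫_ℂ‖ := norm_sum_le _ _
    _ ≤ ∑ n ∈ range N, ‖x‖ ^ 2 * ‖u‖ * ‖v‖ := by
        refine sum_le_sum fun n _ => ?_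
        rw [norm_mul]
        have h1 := norm_inner_le_norm (𝕜 := ℂ) u ((T ^ n) x)
        have h2 := norm_inner_le_norm (𝕜 := ℂ) ((T ^ n) x) v
        rw [norm_pow_apply hT] at h1 h2
        calc ‖⟪u, (T ^ n) x⟫_ℂ‖ * ‖⟪(T ^ n) x, v⟫_ℂ‖ ≤ (‖u‖ * ‖x‖) * (‖x‖ * ‖v‖) := by gcongr
          _ = _ := by ring
    _ = _ := by simp; ring

theorem q_self (T : H →L[ℂ] H) (x : H) (N : ℕ) (u : H) :
    q T x N u u = (((∑ n ∈ range N, ‖⟪u, (T ^ n) x⟫_ℂ‖ ^ 2) / N : ℝ) : ℂ) := by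
  unfold q
  rw [Complex.ofReal_div, Complex.ofReal_sum, Complex.ofReal_natCast]
  congr 1
  refine sum_congr rfl fun n _ => ?_
  rw [← inner_conj_symm ((T ^ n) x) u, RCLike.mul_conj, Complex.ofReal_pow]
  rfl

theorem q_norm_le' {T : H →L[ℂ] H} (hT : ∀ x, ‖T x‖ = ‖x‖) (x : H) (N : ℕ) (u v : H) :
    ‖q T x N u v‖ ^ 2 ≤ (‖x‖ * ‖v‖) ^ 2 * (q T x N u u).re := by
  rw [q_self, Complex.ofReal_re]
  unfold q
  rcases Nat.eq_zero_or_pos N with h | h
  · subst h; simp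
  have hN : (0 : ℝ) < N := by exact_mod_cast h
  have h1 : ‖∑ n ∈ range N, ⟪u, (T ^ n) x⟫_ℂ * ⟪(T ^ n) x, v⟫_ℂ‖ ≤
      (∑ n ∈ range N, ‖⟪u, (T ^ n) x⟫_ℂ‖) * (‖x‖ * ‖v‖) := by
    rw [sum_mul]
    refine (norm_sum_le _ _).trans (sum_le_sum fun n _ => ?_)
    rw [norm_mul]
    have h2 := norm_inner_le_norm (𝕜 := ℂ) ((T ^ n) x) v
    rw [norm_pow_apply hT] at h2
    gcongr
  have h3 : (∑ n ∈ range N, ‖⟪u, (T ^ n) x⟫_ℂ‖) ^ 2 ≤
      N * ∑ n ∈ range N, ‖⟪u, (T ^ n) x⟫_ℂ‖ ^ 2 := by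
    have := sq_sum_le_card_mul_sum_sq (s := range N) (f := fun n => ‖⟪u, (T ^ n) x⟫_ℂ‖)
    simpa using this
  rw [norm_div, div_pow]
  rw [div_le_iff₀ (by simp; positivity)]
  simp only [Complex.norm_natCast]
  calc ‖∑ n ∈ range N, ⟪u, (T ^ n) x⟫_ℂ * ⟪(T ^ n) x, v⟫_ℂ‖ ^ 2
      ≤ ((∑ n ∈ range N, ‖⟪u, (T ^ n) x⟫_ℂ‖) * (‖x‖ * ‖v‖)) ^ 2 := by gcongr
    _ = (∑ n ∈ range N, ‖⟪u, (T ^ n) x⟫_ℂ‖) ^ 2 * (‖x‖ * ‖v‖) ^ 2 := by ring
    _ ≤ (N * ∑ n ∈ range N, ‖⟪u, (T ^ n) x⟫_ℂ‖ ^ 2) * (‖x‖ * ‖v‖) ^ 2 := by gcongr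
    _ = _ := by field_simp

/-- Shift invariance of the limit. -/
theorem q_shift {T : H →L[ℂ] H} (hT : ∀ x, ‖T x‖ = ‖x‖) (hT' : ∀ x y, ⟪T x, T y⟫_ℂ = ⟪x, y⟫_ℂ)
    (x : H) (N : ℕ) (u v : H) :
    ‖q T x N (T u) (T v) - q T x N u v‖ ≤ 2 * (‖x‖ ^ 2 * ‖u‖ * ‖v‖) / N := by
  unfold q
  rcases Nat.eq_zero_or_pos N with h | h
  · subst h; simp
  rw [← sub_div, norm_div, Complex.norm_natCast]
  gcongr
  obtain ⟨M, rfl⟩ : ∃ M, N = M + 1 := ⟨N - 1, by omega⟩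
  rw [sum_range_succ', sum_range_succ]
  have h1 : ∀ k, ⟪T u, (T ^ (k + 1)) x⟫_ℂ * ⟪(T ^ (k + 1)) x, T v⟫_ℂ =
      ⟪u, (T ^ k) x⟫_ℂ * ⟪(T ^ k) x, v⟫_ℂ := by
    intro k
    rw [pow_succ']
    rw [mul_apply_eq_comp, hT', hT']
  simp only [h1]
  rw [add_sub_add_left_eq_sub]
  have key : ∀ (a b : H) (n : ℕ), ‖⟪a, (T ^ n) x⟫_ℂ * ⟪(T ^ n) x, b⟫_ℂ‖ ≤ ‖x‖ ^ 2 * ‖a‖ * ‖b‖ := by
    intro a b n
    rw [norm_mul]
    have h1 := norm_inner_le_norm (𝕜 := ℂ) a ((T ^ n) x)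
    have h2 := norm_inner_le_norm (𝕜 := ℂ) ((T ^ n) x) b
    rw [norm_pow_apply hT] at h1 h2
    calc ‖⟪a, (T ^ n) x⟫_ℂ‖ * ‖⟪(T ^ n) x, b⟫_ℂ‖ ≤ (‖a‖ * ‖x‖) * (‖x‖ * ‖b‖) := by gcongr
      _ = _ := by ring
  refine (norm_sub_le _ _).trans ?_
  have h2 := key (T u) (T v) 0
  have h3 := key u v M
  rw [hT, hT] at h2
  linarith

theorem q_trace {T : H →L[ℂ] H} (hT : ∀ x, ‖T x‖ = ‖x‖) (x : H) (N : ℕ) {k : ℕ} (e : Fin k → H)
    (he : Orthonormal ℂ e) : ∑ i, (q T x N (e i) (e i)).re ≤ ‖x‖ ^ 2 := by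
  rcases Nat.eq_zero_or_pos N with h | h
  · subst h; simp [q]
  have hN : (0 : ℝ) < N := by exact_mod_cast h
  simp only [q_self, Complex.ofReal_re]
  rw [← sum_div, div_le_iff₀ hN, sum_comm]
  calc ∑ n ∈ range N, ∑ i, ‖⟪e i, (T ^ n) x⟫_ℂ‖ ^ 2 ≤ ∑ n ∈ range N, ‖x‖ ^ 2 := by
        refine sum_le_sum fun n _ => ?_
        have := he.sum_inner_products_le (s := univ) ((T ^ n) x)
        rwa [norm_pow_apply hT] at this
    _ = ‖x‖ ^ 2 * N := by simp; ring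

/-- The limit form along an ultrafilter. -/
theorem exists_limit {T : H →L[ℂ] H} (hT : ∀ x, ‖T x‖ = ‖x‖) (x : H) (U : Ultrafilter ℕ) (u v : H) :
    ∃ z : ℂ, Tendsto (fun N => q T x N u v) U (𝓝 z) := by
  have hc : IsCompact (Metric.closedBall (0 : ℂ) (‖x‖ ^ 2 * ‖u‖ * ‖v‖)) := isCompact_closedBall _ _
  obtain ⟨z, -, hz⟩ := hc.ultrafilter_le_nhds (U.map fun N => q T x N u v) (by
    rw [le_principal_iff, Ultrafilter.coe_map, Filter.mem_map]
    refine Filter.univ_mem' fun N => ?_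
    simpa using q_norm_le hT x N u v)
  exact ⟨z, hz⟩

section Limit

variable [CompleteSpace H] {T : H →L[ℂ] H}

/-- The limit operator: `⟪K u, v⟫` is the limit of `q`. -/
theorem exists_operator (hT : ∀ x, ‖T x‖ = ‖x‖) (x : H) (U : Ultrafilter ℕ) :
    ∃ K : H →L[ℂ] H, ∀ u v, Tendsto (fun N => q T x N u v) U (𝓝 ⟪K u, v⟫_ℂ) := by
  choose Q hQ using exists_limit hT x U
  have hq_add_left : ∀ N u u' v, q T x N (u + u') v = q T x N u v + q T x N u' v := by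
    intro N u u' v
    simp only [q, inner_add_left, add_mul, sum_add_distrib, add_div]
  have hq_smul_left : ∀ N (c : ℂ) u v, q T x N (c • u) v = conj c * q T x N u v := by
    intro N c u v
    simp only [q, inner_smul_left, mul_assoc, ← mul_sum, mul_div_assoc]
  have hq_add_right : ∀ N u v v', q T x N u (v + v') = q T x N u v + q T x N u v' := by
    intro N u v v'
    simp only [q, inner_add_right, mul_add, sum_add_distrib, add_div]
  have hq_smul_right : ∀ N (c : ℂ) u v, q T x N u (c • v) = c * q T x N u v := by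
    intro N c u v
    simp only [q, inner_smul_right]
    rw [← mul_div_assoc, mul_sum]
    congr 1
    refine sum_congr rfl fun n _ => ?_
    ring
  let L : H →ₗ⋆[ℂ] H →ₗ[ℂ] ℂ := LinearMap.mk₂'ₛₗ _ _ Q
    (fun u u' v => tendsto_nhds_unique (hQ (u + u') v)
      (by simpa only [hq_add_left] using (hQ u v).add (hQ u' v)))
    (fun c u v => tendsto_nhds_unique (hQ (c • u) v)
      (by simpa only [hq_smul_left, smul_eq_mul] using (hQ u v).const_mul (conj c)))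
    (fun u v v' => tendsto_nhds_unique (hQ u (v + v'))
      (by simpa only [hq_add_right] using (hQ u v).add (hQ u v')))
    (fun c u v => tendsto_nhds_unique (hQ u (c • v))
      (by simpa only [hq_smul_right, smul_eq_mul, RingHom.id_apply] using (hQ u v).const_mul c))
  have hb : ∀ u v, ‖L u v‖ ≤ ‖x‖ ^ 2 * ‖u‖ * ‖v‖ := by
    intro u v
    exact le_of_tendsto (hQ u v).norm (Eventually.of_forall fun N => q_norm_le hT x N u v)
  let B : H →L⋆[ℂ] H →L[ℂ] ℂ := L.mkContinuous₂ (‖x‖ ^ 2) hb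
  refine ⟨InnerProductSpace.continuousLinearMapOfBilin B, fun u v => ?_⟩
  rw [InnerProductSpace.continuousLinearMapOfBilin_apply]
  exact hQ u v

/-- A positive operator with finite trace commuting with `T` gives an eigenvector of `T`. -/
theorem exists_eigenvector {K : H →L[ℂ] H} {M : ℝ}
    (hsymm : ∀ u v, ⟪K u, v⟫_ℂ = ⟪u, K v⟫_ℂ)
    (hK : ∀ u, ‖K u‖ ^ 2 ≤ M * (⟪K u, u⟫_ℂ).re)
    (hpos : ∀ u, 0 ≤ (⟪K u, u⟫_ℂ).re)
    (htr : ∀ (k : ℕ) (e : Fin k → H), Orthonormal ℂ e → ∑ i, (⟪K (e i), e i⟫_ℂ).re ≤ M)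
    (hcomm : ∀ u, K (T u) = T (K u)) (hK0 : K ≠ 0) :
    ∃ (μ : ℂ) (v : H), v ≠ 0 ∧ T v = μ • v := by
  have hM : 0 ≤ M := by simpa using htr 0 ![] (Orthonormal.of_isEmpty _)
  -- finite-dimensional subspaces outside of which `K` is small
  have hF : ∀ ε : ℝ, 0 < ε → ∃ F : Submodule ℂ H, FiniteDimensional ℂ F ∧
      ∀ u ∈ Fᗮ, (⟪K u, u⟫_ℂ).re ≤ ε * ‖u‖ ^ 2 := by
    intro ε hε
    by_contra hcon
    push Not at hcon
    have hlong : ∀ k : ℕ, ∃ e : Fin k → H, Orthonormal ℂ e ∧ ∀ i, ε ≤ (⟪K (e i), e i⟫_ℂ).re := by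
      intro k
      induction k with
      | zero => exact ⟨![], Orthonormal.of_isEmpty _, fun i => i.elim0⟩
      | succ k ih =>
        obtain ⟨e, he, hek⟩ := ih
        obtain ⟨u, hu, hu2⟩ := hcon (Submodule.span ℂ (Set.range e))
          (FiniteDimensional.span_of_finite ℂ (Set.finite_range e))
        have hu0 : u ≠ 0 := by
          rintro rfl
          simp at hu2
        have hun : ‖u‖ ≠ 0 := norm_ne_zero_iff.2 hu0
        set v : H := ((‖u‖⁻¹ : ℝ) : ℂ) • u with hv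
        have hvn : ‖v‖ = 1 := by
          rw [hv, norm_smul, Complex.norm_real, norm_inv, norm_norm, inv_mul_cancel₀ hun]
        refine ⟨Matrix.vecCons v e, orthonormal_vecCons_iff.2 ⟨hvn, fun i => ?_, he⟩, ?_⟩
        · rw [hv, inner_smul_left]
          rw [Submodule.mem_orthogonal'] at hu
          rw [hu (e i) (Submodule.subset_span ⟨i, rfl⟩), mul_zero]
        · intro i
          refine Fin.cases ?_ (fun i => ?_) i
          · simp only [Matrix.cons_val_zero]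
            rw [hv, map_smul, inner_smul_left, inner_smul_right, Complex.conj_ofReal, ← mul_assoc,
              ← Complex.ofReal_mul, Complex.re_ofReal_mul]
            have h1 : ε * ‖u‖ ^ 2 ≤ (⟪K u, u⟫_ℂ).re := hu2.le
            have h2 : 0 < ‖u‖⁻¹ * ‖u‖⁻¹ := by positivity
            calc ε = ‖u‖⁻¹ * ‖u‖⁻¹ * (ε * ‖u‖ ^ 2) := by field_simp
              _ ≤ _ := by gcongr
          · simpa using hek i
    obtain ⟨k, hk⟩ := exists_nat_gt (M / ε)
    obtain ⟨e, he, hek⟩ := hlong k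
    have h1 := htr k e he
    have h2 : (k : ℝ) * ε ≤ ∑ i, (⟪K (e i), e i⟫_ℂ).re := by
      calc (k : ℝ) * ε = ∑ _i : Fin k, ε := by simp
        _ ≤ _ := sum_le_sum fun i _ => hek i
    rw [div_lt_iff₀ hε] at hk
    linarith
  -- compactness
  have hcpt : IsCompactOperator K := by
    choose F hFd hFs using fun m : ℕ => hF (1 / (m + 1)) (by positivity)
    have hlim : Tendsto (fun m => K ∘L (F m).starProjection) atTop (𝓝 K) := by
      rw [tendsto_iff_norm_sub_tendsto_zero]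
      have hb : ∀ m, ‖K ∘L (F m).starProjection - K‖ ≤ Real.sqrt (M * (1 / (m + 1))) := by
        intro m
        refine ContinuousLinearMap.opNorm_le_bound _ (Real.sqrt_nonneg _) fun u => ?_
        have h1 : (K ∘L (F m).starProjection - K) u = - K (u - (F m).starProjection u) := by
          simp [map_sub]
        rw [h1, norm_neg]
        set w := u - (F m).starProjection u with hw
        have hwm : w ∈ (F m)ᗮ := Submodule.sub_starProjection_mem_orthogonal u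
        have hwn : ‖w‖ ≤ ‖u‖ := by
          have := (F m)ᗮ.norm_starProjection_apply_le u
          rwa [Submodule.starProjection_orthogonal_val] at this
        have h2 := hK w
        have h3 := hFs m w hwm
        have h4 : ‖K w‖ ^ 2 ≤ (M * (1 / (m + 1))) * ‖u‖ ^ 2 := by
          calc ‖K w‖ ^ 2 ≤ M * (⟪K w, w⟫_ℂ).re := h2
            _ ≤ M * (1 / (m + 1) * ‖w‖ ^ 2) := by gcongr
            _ ≤ M * (1 / (m + 1) * ‖u‖ ^ 2) := by gcongr
            _ = _ := by ring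
        have h5 := Real.sqrt_le_sqrt h4
        rwa [Real.sqrt_sq (norm_nonneg _), Real.sqrt_mul (by positivity), Real.sqrt_sq (norm_nonneg _)] at h5
      refine squeeze_zero (fun _ => norm_nonneg _) hb ?_
      have h6 : Tendsto (fun m : ℕ => M * (1 / ((m : ℝ) + 1))) atTop (𝓝 (M * 0)) :=
        tendsto_one_div_add_atTop_nhds_zero_nat.const_mul M
      have h7 := (Real.continuous_sqrt.tendsto _).comp h6
      simpa [Function.comp_def] using h7
    refine isCompactOperator_of_tendsto hlim (Eventually.of_forall fun m => ?_)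
    have : FiniteDimensional ℂ (F m) := hFd m
    have h8 : IsCompactOperator (K ∘L (F m).subtypeL) :=
      isCompactOperator_of_locallyCompactSpace_rng _
    have h9 := h8.comp_clm ((F m).orthogonalProjectionOnto)
    exact h9
  have hsym : (K : H →ₗ[ℂ] H).IsSymmetric := fun u v => hsymm u v
  -- an eigenvalue
  obtain ⟨μ, hμ, hμ0⟩ : ∃ μ, Module.End.HasEigenvalue (K : Module.End ℂ H) μ ∧ μ ≠ 0 := by
    by_contra hcon
    push Not at hcon
    exact hK0 ((ContinuousLinearMap.eq_zero_of_forall_hasEigenvalue_eq_zero hcpt hsym).1 hcon)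
  have hfd := ContinuousLinearMap.finite_dimensional_eigenspace hcpt μ hμ0
  set E := Module.End.eigenspace (K : Module.End ℂ H) μ with hE
  have hTE : ∀ u ∈ E, (T : H →ₗ[ℂ] H) u ∈ E := by
    intro u hu
    rw [hE, Module.End.mem_eigenspace_iff] at hu ⊢
    simp only [ContinuousLinearMap.coe_coe] at hu ⊢
    rw [hcomm, hu, map_smul]
  have hnt : Nontrivial E := by
    obtain ⟨v, hv⟩ := hμ.exists_hasEigenvector
    exact ⟨⟨⟨v, hv.1⟩, 0, fun h => hv.2 (by simpa using congrArg Subtype.val h)⟩⟩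
  obtain ⟨ν, hν⟩ := Module.End.exists_eigenvalue ((T : H →ₗ[ℂ] H).restrict hTE)
  obtain ⟨v, hv⟩ := hν.exists_hasEigenvector
  refine ⟨ν, v, fun h => hv.2 (Subtype.ext h), ?_⟩
  have := congrArg Subtype.val hv.apply_eq_smul
  simpa using this

/-- **Wiener's lemma.** -/
theorem wiener (hTu : T ∈ unitary (H →L[ℂ] H))
    (hne : ∀ (μ : ℂ) (v : H), T v = μ • v → v = 0) (x y : H) :
    Tendsto (fun N : ℕ => (∑ n ∈ range N, ‖⟪y, (T ^ n) x⟫_ℂ‖ ^ 2) / N) atTop (𝓝 0) := by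
  have hT' : ∀ x y, ⟪T x, T y⟫_ℂ = ⟪x, y⟫_ℂ := by
    intro x y
    rw [← ContinuousLinearMap.adjoint_inner_right, ← ContinuousLinearMap.star_eq_adjoint,
      ← mul_apply_eq_comp, Unitary.star_mul_self_of_mem hTu, one_apply_eq_self]
  have hT : ∀ x, ‖T x‖ = ‖x‖ := by
    intro x
    have h1 := hT' x x
    rw [inner_self_eq_norm_sq_to_K, inner_self_eq_norm_sq_to_K] at h1
    have h2 : ‖T x‖ ^ 2 = ‖x‖ ^ 2 := by exact_mod_cast h1
    exact (sq_eq_sq₀ (norm_nonneg _) (norm_nonneg _)).1 h2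
  have hsurj : ∀ v, ∃ w, T w = v := fun v => ⟨star T v, by
    rw [← mul_apply_eq_comp, Unitary.mul_star_self_of_mem hTu, one_apply_eq_self]⟩
  rw [Metric.tendsto_atTop]
  by_contra hcon
  push Not at hcon
  obtain ⟨δ, hδ, hN⟩ := hcon
  have hfr : ∃ᶠ N in atTop, δ ≤ (q T x N y y).re := by
    rw [frequently_atTop]
    intro N
    obtain ⟨M, hM1, hM2⟩ := hN N
    refine ⟨M, hM1, ?_⟩
    rw [q_self, Complex.ofReal_re]
    rw [dist_zero_right, Real.norm_of_nonneg (by positivity)] at hM2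
    exact hM2
  have hnb : (atTop ⊓ 𝓟 {N | δ ≤ (q T x N y y).re}).NeBot := by
    rw [← frequently_mem_iff_neBot]
    exact hfr
  let U : Ultrafilter ℕ := Ultrafilter.of (atTop ⊓ 𝓟 {N | δ ≤ (q T x N y y).re})
  have hU : (U : Filter ℕ) ≤ atTop ⊓ 𝓟 {N | δ ≤ (q T x N y y).re} := Ultrafilter.of_le _
  have hU1 : (U : Filter ℕ) ≤ atTop := hU.trans inf_le_left
  have hU2 : ∀ᶠ N in (U : Filter ℕ), δ ≤ (q T x N y y).re :=
    (le_principal_iff.1 (hU.trans inf_le_right))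
  obtain ⟨K, hK⟩ := exists_operator hT x U
  have hsymm : ∀ u v, ⟪K u, v⟫_ℂ = ⟪u, K v⟫_ℂ := by
    intro u v
    rw [← inner_conj_symm u (K v)]
    refine tendsto_nhds_unique (hK u v) ?_
    have h1 := (Complex.continuous_conj.tendsto _).comp (hK v u)
    refine h1.congr fun N => ?_
    simp only [Function.comp, q, map_div₀, map_sum, map_mul, inner_conj_symm, Complex.conj_natCast]
    congr 1
    refine sum_congr rfl fun n _ => ?_
    ring
  have hre : ∀ u, Tendsto (fun N => (q T x N u u).re) U (𝓝 (⟪K u, u⟫_ℂ).re) := fun u =>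
    (Complex.continuous_re.tendsto _).comp (hK u u)
  have hpos : ∀ u, 0 ≤ (⟪K u, u⟫_ℂ).re := fun u =>
    ge_of_tendsto (hre u) (Eventually.of_forall fun N => by
      rw [q_self, Complex.ofReal_re]; positivity)
  refine absurd (exists_eigenvector (T := T) (K := K) (M := ‖x‖ ^ 2) hsymm ?_ hpos ?_ ?_ ?_) ?_
  · intro u
    rcases eq_or_ne (K u) 0 with h0 | h0
    · rw [h0]; simp
    have h1 : ‖⟪K u, K u⟫_ℂ‖ ^ 2 ≤ (‖x‖ * ‖K u‖) ^ 2 * (⟪K u, u⟫_ℂ).re :=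
      le_of_tendsto_of_tendsto (((hK u (K u)).norm).pow 2) ((hre u).const_mul _)
        (Eventually.of_forall fun N => q_norm_le' hT x N u (K u))
    rw [inner_self_eq_norm_sq_to_K] at h1
    have h2 : 0 < ‖K u‖ ^ 2 := by positivity
    have h3 : ‖((‖K u‖ : ℂ)) ^ 2‖ = ‖K u‖ ^ 2 := by
      rw [norm_pow, Complex.norm_real, norm_norm]
    have h4 : (‖K u‖ ^ 2) ^ 2 ≤ (‖x‖ * ‖K u‖) ^ 2 * (⟪K u, u⟫_ℂ).re := by
      rw [← h3]; exact h1
    have h5 : ‖K u‖ ^ 2 * ‖K u‖ ^ 2 ≤ (‖x‖ ^ 2 * (⟪K u, u⟫_ℂ).re) * ‖K u‖ ^ 2 := by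
      nlinarith [h4]
    exact le_of_mul_le_mul_right h5 h2
  · intro k e he
    have h1 : Tendsto (fun N => ∑ i, (q T x N (e i) (e i)).re) U
        (𝓝 (∑ i, (⟪K (e i), e i⟫_ℂ).re)) := tendsto_finset_sum _ fun i _ => hre (e i)
    exact le_of_tendsto h1 (Eventually.of_forall fun N => q_trace hT x N e he)
  · intro u
    refine ext_inner_right ℂ fun w => ?_
    obtain ⟨v, rfl⟩ := hsurj w
    rw [hT']
    have h1 : Tendsto (fun N => q T x N (T u) (T v) - q T x N u v) U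
        (𝓝 (⟪K (T u), T v⟫_ℂ - ⟪K u, v⟫_ℂ)) := (hK (T u) (T v)).sub (hK u v)
    have h2 : Tendsto (fun N => q T x N (T u) (T v) - q T x N u v) U (𝓝 0) := by
      rw [tendsto_zero_iff_norm_tendsto_zero]
      refine squeeze_zero (fun _ => norm_nonneg _) (fun N => q_shift hT hT' x N u v) ?_
      exact (tendsto_const_div_atTop_nhds_zero_nat _).mono_left hU1
    exact sub_eq_zero.1 (tendsto_nhds_unique h1 h2)
  · rintro rfl
    have h1 := ge_of_tendsto (hre y) hU2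
    simp at h1
    linarith
  · rintro ⟨μ, v, hv, hv2⟩
    exact hv (hne μ v hv2)

end Limit

end Pool.Agent.Q100.WN
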