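import Pool.Agent.Q100.WN1

/-!
# Selection of sparse exponents for a unitary operator without eigenvectors
-/

set_option autoImplicit false

open Filter Topology Finset
open scoped InnerProductSpace ComplexConjugate

namespace Pool.Agent.Q100.WN

variable {H : Type*} [NormedAddCommGroup H] [InnerProductSpace ℂ H] [CompleteSpace H]
  {T : H →L[ℂ] H}

theorem unitary_inner (hTu : T ∈ unitary (H →L[ℂ] H)) (x y : H) : ⟪T x, T y⟫_ℂ = ⟪x, y⟫_ℂ := by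
  rw [← ContinuousLinearMap.adjoint_inner_right, ← ContinuousLinearMap.star_eq_adjoint,
    ← mul_apply_eq_comp, Unitary.star_mul_self_of_mem hTu, one_apply_eq_self]

theorem unitary_norm (hTu : T ∈ unitary (H →L[ℂ] H)) (x : H) : ‖T x‖ = ‖x‖ := by
  have h1 := unitary_inner hTu x x
  rw [inner_self_eq_norm_sq_to_K, inner_self_eq_norm_sq_to_K] at h1
  have h2 : ‖T x‖ ^ 2 = ‖x‖ ^ 2 := by exact_mod_cast h1
  exact (sq_eq_sq₀ (norm_nonneg _) (norm_nonneg _)).1 h2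

/-- Powers have no eigenvectors either. -/
theorem pow_no_eig (hne : ∀ (μ : ℂ) (v : H), T v = μ • v → v = 0) {m : ℕ} (hm : 0 < m) :
    ∀ (μ : ℂ) (v : H), (T ^ m) v = μ • v → v = 0 := by
  intro μ v hv
  by_contra hv0
  set W : Submodule ℂ H := Submodule.span ℂ (Set.range fun j : Fin m => (T ^ (j : ℕ)) v) with hW
  have hfd : FiniteDimensional ℂ W := FiniteDimensional.span_of_finite ℂ (Set.finite_range _)
  have hTW : ∀ u ∈ W, (T : H →ₗ[ℂ] H) u ∈ W := by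
    intro u hu
    have h1 : W ≤ W.comap (T : H →ₗ[ℂ] H) := by
      rw [hW, Submodule.span_le]
      rintro _ ⟨j, rfl⟩
      simp only [SetLike.mem_coe, Submodule.mem_comap, ContinuousLinearMap.coe_coe]
      have h2 : T ((T ^ (j : ℕ)) v) = (T ^ ((j : ℕ) + 1)) v := by
        rw [pow_succ' T (j : ℕ), mul_apply_eq_comp]
      rw [h2]
      rcases Nat.lt_or_ge ((j : ℕ) + 1) m with h | h
      · exact Submodule.subset_span ⟨⟨(j : ℕ) + 1, h⟩, rfl⟩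
      · have h3 : (j : ℕ) + 1 = m := le_antisymm j.2 h
        rw [h3, hv]
        refine Submodule.smul_mem _ _ (Submodule.subset_span ⟨⟨0, hm⟩, ?_⟩)
        simp
    exact h1 hu
  have hvW : v ∈ W := Submodule.subset_span ⟨⟨0, hm⟩, by simp⟩
  have hnt : Nontrivial W :=
    ⟨⟨⟨v, hvW⟩, 0, fun h => hv0 (by simpa using congrArg Subtype.val h)⟩⟩
  obtain ⟨ν, hν⟩ := Module.End.exists_eigenvalue ((T : H →ₗ[ℂ] H).restrict hTW)
  obtain ⟨w, hw⟩ := hν.exists_hasEigenvector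
  refine hw.2 (Subtype.ext (hne ν w ?_))
  have := congrArg Subtype.val hw.apply_eq_smul
  simpa using this

/-- Finite selection. -/
theorem select_finite (hTu : T ∈ unitary (H →L[ℂ] H))
    (hne : ∀ (μ : ℂ) (v : H), T v = μ • v → v = 0) (P : Finset (H × H)) (M N₀ : ℕ) {ε : ℝ}
    (hε : 0 < ε) :
    ∃ n ≥ N₀, ∀ p ∈ P, ∀ m, 1 ≤ m → m ≤ M → ‖⟪p.1, ((T ^ n) ^ m) p.2⟫_ℂ‖ < ε := by
  classical
  have hlim : Tendsto (fun N : ℕ => ∑ p ∈ P, ∑ m ∈ Icc 1 M,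
      (∑ n ∈ range N, ‖⟪p.1, ((T ^ m) ^ n) p.2⟫_ℂ‖ ^ 2) / N) atTop (𝓝 0) := by
    have : (0 : ℝ) = ∑ p ∈ P, ∑ m ∈ Icc 1 M, (0 : ℝ) := by simp
    rw [this]
    refine tendsto_finset_sum _ fun p _ => tendsto_finset_sum _ fun m hm => ?_
    exact wiener (pow_mem hTu m) (pow_no_eig hne (by simp at hm; omega)) p.2 p.1
  by_contra hcon
  push Not at hcon
  have hlow : ∀ N : ℕ, N₀ ≤ N → ((N : ℝ) - N₀) * ε ^ 2 / N ≤ ∑ p ∈ P, ∑ m ∈ Icc 1 M,
      (∑ n ∈ range N, ‖⟪p.1, ((T ^ m) ^ n) p.2⟫_ℂ‖ ^ 2) / N := by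
    intro N hN
    have h1 : ∑ p ∈ P, ∑ m ∈ Icc 1 M, (∑ n ∈ range N, ‖⟪p.1, ((T ^ m) ^ n) p.2⟫_ℂ‖ ^ 2) / (N : ℝ) =
        (∑ n ∈ range N, ∑ p ∈ P, ∑ m ∈ Icc 1 M, ‖⟪p.1, ((T ^ m) ^ n) p.2⟫_ℂ‖ ^ 2) / N := by
      simp only [← sum_div]
      congr 1
      rw [sum_comm (s := range N) (t := P)]
      refine sum_congr rfl fun p _ => ?_
      rw [sum_comm]
    rw [h1]
    gcongr
    calc ((N : ℝ) - N₀) * ε ^ 2 = ∑ _n ∈ Ico N₀ N, ε ^ 2 := by
          simp [Nat.cast_sub hN]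
      _ ≤ ∑ n ∈ Ico N₀ N, ∑ p ∈ P, ∑ m ∈ Icc 1 M, ‖⟪p.1, ((T ^ m) ^ n) p.2⟫_ℂ‖ ^ 2 := by
          refine sum_le_sum fun n hn => ?_
          obtain ⟨p, hp, m, hm1, hm2, hb⟩ := hcon n (by simp at hn; exact hn.1)
          have h2 : ((T ^ m) ^ n) = ((T ^ n) ^ m) := by rw [← pow_mul, ← pow_mul, mul_comm]
          calc ε ^ 2 ≤ ‖⟪p.1, ((T ^ m) ^ n) p.2⟫_ℂ‖ ^ 2 := by rw [h2]; gcongr
            _ ≤ ∑ m ∈ Icc 1 M, ‖⟪p.1, ((T ^ m) ^ n) p.2⟫_ℂ‖ ^ 2 :=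
                single_le_sum (f := fun m => ‖⟪p.1, ((T ^ m) ^ n) p.2⟫_ℂ‖ ^ 2)
                  (fun _ _ => by positivity) (by simp; omega)
            _ ≤ _ := single_le_sum (f := fun p : H × H => ∑ m ∈ Icc 1 M,
                ‖⟪p.1, ((T ^ m) ^ n) p.2⟫_ℂ‖ ^ 2) (fun _ _ => by positivity) hp
      _ ≤ _ := sum_le_sum_of_subset_of_nonneg (fun n hn => by simp at hn ⊢; exact hn.2)
          fun _ _ _ => by positivity
  have h3 : Tendsto (fun N : ℕ => ((N : ℝ) - N₀) * ε ^ 2 / N) atTop (𝓝 (ε ^ 2)) := by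
    have h4 : Tendsto (fun N : ℕ => (1 - (N₀ : ℝ) / N) * ε ^ 2) atTop (𝓝 ((1 - 0) * ε ^ 2)) :=
      ((tendsto_const_nhds).sub (tendsto_const_div_atTop_nhds_zero_nat _)).mul_const _
    rw [sub_zero, one_mul] at h4
    refine h4.congr' ?_
    filter_upwards [eventually_gt_atTop 0] with N hN
    have : (N : ℝ) ≠ 0 := by positivity
    field_simp
  have h5 := le_of_tendsto_of_tendsto h3 hlim (by
    filter_upwards [eventually_ge_atTop N₀] with N hN using hlow N hN)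
  have : 0 < ε ^ 2 := by positivity
  linarith

/-- Selection for a compact set. -/
theorem select_compact (hTu : T ∈ unitary (H →L[ℂ] H))
    (hne : ∀ (μ : ℂ) (v : H), T v = μ • v → v = 0) {S : Set H} (hS : IsCompact S) (M N₀ : ℕ)
    {ε : ℝ} (hε : 0 < ε) :
    ∃ n ≥ N₀, ∀ v ∈ S, ∀ y ∈ S, ∀ m, 1 ≤ m → m ≤ M → ‖⟪v, ((T ^ n) ^ m) y⟫_ℂ‖ < ε := by
  classical
  obtain ⟨B, hB0, hB⟩ := hS.isBounded.exists_pos_norm_le
  set η : ℝ := ε / (4 * B) with hη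
  have hη0 : 0 < η := by positivity
  obtain ⟨t, htS, htf, htc⟩ := hS.finite_cover_balls hη0
  obtain ⟨n, hn, hsel⟩ := select_finite hTu hne (htf.toFinset ×ˢ htf.toFinset) M N₀
    (ε := ε / 2) (by positivity)
  refine ⟨n, hn, fun v hv y hy m hm1 hm2 => ?_⟩
  obtain ⟨v', hv', hvv⟩ := Set.mem_iUnion₂.1 (htc hv)
  obtain ⟨y', hy', hyy⟩ := Set.mem_iUnion₂.1 (htc hy)
  rw [Metric.mem_ball, dist_eq_norm] at hvv hyy
  have h1 := hsel (v', y') (by simp [hv', hy']) m hm1 hm2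
  have hA : ∀ z, ‖((T ^ n) ^ m) z‖ = ‖z‖ := unitary_norm (pow_mem (pow_mem hTu n) m)
  have h2 : ⟪v, ((T ^ n) ^ m) y⟫_ℂ = ⟪v', ((T ^ n) ^ m) y'⟫_ℂ + ⟪v - v', ((T ^ n) ^ m) y⟫_ℂ +
      ⟪v', ((T ^ n) ^ m) (y - y')⟫_ℂ := by
    rw [map_sub, inner_sub_left, inner_sub_right]; ring
  rw [h2]
  have h3 : ‖⟪v - v', ((T ^ n) ^ m) y⟫_ℂ‖ ≤ η * B := by
    refine (norm_inner_le_norm _ _).trans ?_
    rw [hA]
    exact mul_le_mul hvv.le (hB y hy) (norm_nonneg _) hη0.le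
  have h4 : ‖⟪v', ((T ^ n) ^ m) (y - y')⟫_ℂ‖ ≤ B * η := by
    refine (norm_inner_le_norm _ _).trans ?_
    rw [hA]
    exact mul_le_mul (hB v' (htS hv')) hyy.le (norm_nonneg _) hB0.le
  have h5 : η * B = ε / 4 := by rw [hη]; field_simp
  calc _ ≤ ‖⟪v', ((T ^ n) ^ m) y'⟫_ℂ‖ + ‖⟪v - v', ((T ^ n) ^ m) y⟫_ℂ‖ +
        ‖⟪v', ((T ^ n) ^ m) (y - y')⟫_ℂ‖ := norm_add₃_le
    _ < ε / 2 + ε / 4 + ε / 4 := by linarith [mul_comm B η]
    _ = ε := by ring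

section Exp

noncomputable local instance : NormedAlgebra ℚ (H →L[ℂ] H) :=
  NormedAlgebra.restrictScalars ℚ ℂ (H →L[ℂ] H)

theorem exp_add' {A B : H →L[ℂ] H} (h : Commute A B) :
    NormedSpace.exp (A + B) = NormedSpace.exp A * NormedSpace.exp B :=
  NormedSpace.exp_add_of_commute h

theorem exp_cont' : Continuous (NormedSpace.exp : (H →L[ℂ] H) → (H →L[ℂ] H)) :=
  NormedSpace.exp_continuous

theorem exp_hasSum' (A : H →L[ℂ] H) :
    HasSum (fun m : ℕ => ((Nat.factorial m : ℂ)⁻¹) • A ^ m) (NormedSpace.exp A) :=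
  NormedSpace.exp_series_hasSum_exp' (𝕂 := ℂ) A

theorem exp_smul_one' (z : ℂ) :
    NormedSpace.exp (z • (1 : H →L[ℂ] H)) = Complex.exp z • (1 : H →L[ℂ] H) := by
  have h := NormedSpace.algebraMap_exp_comm (𝕂 := ℂ) (𝔸 := H →L[ℂ] H) z
  rw [Algebra.algebraMap_eq_smul_one, Algebra.algebraMap_eq_smul_one] at h
  rw [← h, Complex.exp_eq_exp_ℂ]

theorem exp_zero' : NormedSpace.exp (0 : H →L[ℂ] H) = 1 := NormedSpace.exp_zero

theorem inner_exp_hasSum (A : H →L[ℂ] H) (t : ℂ) (u y : H) :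
    HasSum (fun m : ℕ => ((Nat.factorial m : ℂ)⁻¹) * (t ^ m * ⟪u, (A ^ m) y⟫_ℂ))
      ⟪u, NormedSpace.exp (t • A) y⟫_ℂ := by
  have h1 := exp_hasSum' (t • A)
  have h2 : HasSum (fun m : ℕ => (((Nat.factorial m : ℂ)⁻¹) • (t • A) ^ m) y)
      (NormedSpace.exp (t • A) y) :=
    h1.mapL (ContinuousLinearMap.apply ℂ H y)
  have h3 := h2.mapL (innerSL ℂ u)
  simp only [innerSL_apply_apply] at h3
  refine (congrArg (fun F : ℕ → ℂ => HasSum F _) (funext fun m => ?_)).mp h3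
  rw [smul_apply, inner_smul_right, smul_pow, smul_apply, inner_smul_right]

/-- The selection lemma for the exponentials `exp (t (Tⁿ - ω(n)))`. -/
theorem select_exp (hTu : T ∈ unitary (H →L[ℂ] H))
    (hne : ∀ (μ : ℂ) (v : H), T v = μ • v → v = 0) {S : Set H} (hS : IsCompact S) {C : ℝ}
    (hC : 0 ≤ C) {ε : ℝ} (hε : 0 < ε) (N₀ : ℕ) {ω : ℕ → ℂ} (hω : Tendsto ω atTop (𝓝 0)) :
    ∃ n ≥ N₀, ∀ v ∈ S, ∀ y ∈ S, ∀ t : ℂ, ‖t‖ ≤ C →
      ‖⟪v, NormedSpace.exp (t • (T ^ n - ω n • (1 : H →L[ℂ] H))) y⟫_ℂ - ⟪v, y⟫_ℂ‖ ≤ ε ∧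
      ‖⟪(T ^ n) y, NormedSpace.exp (t • (T ^ n - ω n • (1 : H →L[ℂ] H))) y⟫_ℂ - t * ‖y‖ ^ 2‖ ≤ ε := by
  classical
  obtain ⟨B, hB0, hB⟩ := hS.isBounded.exists_pos_norm_le
  choose n hn hsel using fun j : ℕ => select_compact hTu hne hS (j + 1) (max N₀ j)
    (ε := 1 / ((j : ℝ) + 1)) (by positivity)
  have hn1 : ∀ j, N₀ ≤ n j := fun j => (le_max_left _ _).trans (hn j)
  have hn2 : ∀ j, j ≤ n j := fun j => (le_max_right _ _).trans (hn j)
  -- the bounds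
  set s : ℕ → ℕ → ℝ := fun j m => if m ≤ j + 1 then 1 / ((j : ℝ) + 1) else B ^ 2 with hs
  have hs0 : ∀ j m, 0 ≤ s j m := by intro j m; simp only [hs]; split_ifs <;> positivity
  have hsB : ∀ j m, s j m ≤ 1 + B ^ 2 := by
    intro j m
    simp only [hs]
    split_ifs
    · have : 1 / ((j : ℝ) + 1) ≤ 1 := by
        rw [div_le_one (by positivity)]
        linarith [(Nat.cast_nonneg j : (0 : ℝ) ≤ j)]
      nlinarith [sq_nonneg B]
    · linarith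
  set g : ℕ → ℕ → ℝ := fun j m => ((Nat.factorial m : ℝ)⁻¹) * (C ^ m * s j m) with hg
  have hg0 : ∀ j m, 0 ≤ g j m := by
    intro j m; have := hs0 j m; simp only [hg]; positivity
  have hexps : Summable fun m : ℕ => ((Nat.factorial m : ℝ)⁻¹) * (C ^ m * (1 + B ^ 2)) := by
    have h1 := (Real.summable_pow_div_factorial C).mul_right (1 + B ^ 2)
    refine h1.congr fun m => ?_
    field_simp
  have hgle : ∀ j m, g j m ≤ ((Nat.factorial m : ℝ)⁻¹) * (C ^ m * (1 + B ^ 2)) := by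
    intro j m
    have := hsB j m
    simp only [hg]
    gcongr
  have hgs : ∀ j, Summable (g j) := fun j => Summable.of_nonneg_of_le (hg0 j) (hgle j) hexps
  set D : ℕ → ℝ := fun j => ∑' m, g j m with hD
  have hD0 : Tendsto D atTop (𝓝 0) := by
    have h1 : Tendsto (fun j => ∑' m, g j m) atTop (𝓝 (∑' _ : ℕ, (0 : ℝ))) := by
      refine tendsto_tsum_of_dominated_convergence hexps (fun m => ?_) (Eventually.of_forall
        fun j m => by rw [Real.norm_of_nonneg (hg0 j m)]; exact hgle j m)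
      have h2 : Tendsto (fun j : ℕ => ((Nat.factorial m : ℝ)⁻¹) * (C ^ m * (1 / ((j : ℝ) + 1))))
          atTop (𝓝 (((Nat.factorial m : ℝ)⁻¹) * (C ^ m * 0))) :=
        (tendsto_one_div_add_atTop_nhds_zero_nat.const_mul _).const_mul _
      rw [mul_zero, mul_zero] at h2
      refine h2.congr' ?_
      filter_upwards [eventually_ge_atTop m] with j hj
      simp only [hg, hs]
      rw [if_pos (by omega)]
    simpa using h1
  have hDn : ∀ j, 0 ≤ D j := fun j => tsum_nonneg (hg0 j)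
  -- the inner products
  have hA : ∀ j m z, ‖((T ^ n j) ^ m) z‖ = ‖z‖ := fun j m =>
    unitary_norm (pow_mem (pow_mem hTu (n j)) m)
  have hin : ∀ j, ∀ v ∈ S, ∀ y ∈ S, ∀ m, 1 ≤ m → ‖⟪v, ((T ^ n j) ^ m) y⟫_ℂ‖ ≤ s j m := by
    intro j v hv y hy m hm
    simp only [hs]
    split_ifs with h
    · exact (hsel j v hv y hy m hm h).le
    · refine (norm_inner_le_norm _ _).trans ?_
      rw [hA, sq]
      exact mul_le_mul (hB v hv) (hB y hy) (norm_nonneg _) hB0.le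
  have hin2 : ∀ j, ∀ y ∈ S, ∀ m, m ≠ 1 → ‖⟪(T ^ n j) y, ((T ^ n j) ^ m) y⟫_ℂ‖ ≤ s j m := by
    intro j y hy m hm
    rcases Nat.eq_zero_or_pos m with h0 | h0
    · subst h0
      rw [pow_zero, one_apply_eq_self, norm_inner_symm]
      have h1 := hsel j y hy y hy 1 le_rfl (by omega)
      rw [pow_one] at h1
      simp only [hs]
      rw [if_pos (by omega)]
      exact h1.le
    · obtain ⟨k, rfl⟩ : ∃ k, m = k + 1 := ⟨m - 1, by omega⟩
      rw [pow_succ' (T ^ n j) k, mul_apply_eq_comp, unitary_inner (pow_mem hTu (n j))]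
      simp only [hs]
      split_ifs with h
      · exact (hsel j y hy y hy k (by omega) (by omega)).le
      · refine (norm_inner_le_norm _ _).trans ?_
        rw [hA, sq]
        exact mul_le_mul (hB y hy) (hB y hy) (norm_nonneg _) hB0.le
  have hD1 : ∀ j, ∀ v ∈ S, ∀ y ∈ S, ∀ t : ℂ, ‖t‖ ≤ C →
      ‖⟪v, NormedSpace.exp (t • (T ^ n j)) y⟫_ℂ - ⟪v, y⟫_ℂ‖ ≤ D j := by
    intro j v hv y hy t ht
    have h1 := inner_exp_hasSum (T ^ n j) t v y
    have h2 : HasSum (fun m : ℕ => if m = 0 then (0 : ℂ) else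
        ((Nat.factorial m : ℂ)⁻¹) * (t ^ m * ⟪v, ((T ^ n j) ^ m) y⟫_ℂ))
        (⟪v, NormedSpace.exp (t • (T ^ n j)) y⟫_ℂ - ⟪v, y⟫_ℂ) := by
      have h3 := h1.sub (hasSum_ite_eq (0 : ℕ) (⟪v, y⟫_ℂ))
      refine (congrArg (fun F : ℕ → ℂ => HasSum F _) (funext fun m => ?_)).mp h3
      by_cases hm : m = 0
      · subst hm; simp
      · simp [hm]
    refine h2.norm_le_of_bounded (hgs j).hasSum fun m => ?_
    by_cases hm : m = 0
    · rw [if_pos hm, norm_zero]; exact hg0 j m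
    · rw [if_neg hm, norm_mul, norm_mul, norm_pow, norm_inv, Complex.norm_natCast]
      have := hin j v hv y hy m (by omega)
      simp only [hg]
      gcongr
  have hD2 : ∀ j, ∀ y ∈ S, ∀ t : ℂ, ‖t‖ ≤ C →
      ‖⟪(T ^ n j) y, NormedSpace.exp (t • (T ^ n j)) y⟫_ℂ - t * ‖y‖ ^ 2‖ ≤ D j := by
    intro j y hy t ht
    have h1 := inner_exp_hasSum (T ^ n j) t ((T ^ n j) y) y
    have h2 : HasSum (fun m : ℕ => if m = 1 then (0 : ℂ) else
        ((Nat.factorial m : ℂ)⁻¹) * (t ^ m * ⟪(T ^ n j) y, ((T ^ n j) ^ m) y⟫_ℂ))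
        (⟪(T ^ n j) y, NormedSpace.exp (t • (T ^ n j)) y⟫_ℂ - t * ‖y‖ ^ 2) := by
      have h3 := h1.sub (hasSum_ite_eq (1 : ℕ) (t * ‖y‖ ^ 2 : ℂ))
      refine (congrArg (fun F : ℕ → ℂ => HasSum F _) (funext fun m => ?_)).mp h3
      by_cases hm : m = 1
      · subst hm
        simp only [if_true, Nat.factorial_one, Nat.cast_one, inv_one, one_mul, pow_one]
        rw [unitary_inner (pow_mem hTu (n j)), inner_self_eq_norm_sq_to_K]
        simp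
      · simp [hm]
    refine h2.norm_le_of_bounded (hgs j).hasSum fun m => ?_
    by_cases hm : m = 1
    · rw [if_pos hm, norm_zero]; exact hg0 j m
    · rw [if_neg hm, norm_mul, norm_mul, norm_pow, norm_inv, Complex.norm_natCast]
      have := hin2 j y hy m hm
      simp only [hg]
      gcongr
  -- pass to `T ^ n - ω n`
  have hexp : ∀ (j : ℕ) (t : ℂ), NormedSpace.exp (t • (T ^ n j - ω (n j) • (1 : H →L[ℂ] H))) =
      Complex.exp (-(t * ω (n j))) • NormedSpace.exp (t • (T ^ n j)) := by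
    intro j t
    have h1 : t • (T ^ n j - ω (n j) • (1 : H →L[ℂ] H)) =
        t • (T ^ n j) + (-(t * ω (n j))) • (1 : H →L[ℂ] H) := by
      rw [smul_sub, smul_smul, neg_smul, sub_eq_add_neg]
    rw [h1, exp_add' ((Commute.one_right _).smul_right _), exp_smul_one', mul_smul_comm, mul_one]
  have hωn : Tendsto (fun j => ω (n j)) atTop (𝓝 0) :=
    hω.comp (tendsto_atTop_mono hn2 tendsto_id)
  have hωn' : Tendsto (fun j => C * ‖ω (n j)‖) atTop (𝓝 0) := by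
    simpa using (hωn.norm.const_mul C)
  set R : ℝ := B ^ 2 * (1 + C) with hR
  have hR0 : 0 ≤ R := by positivity
  have hE : Tendsto (fun j => 2 * (C * ‖ω (n j)‖) * (R + D j) + D j) atTop
      (𝓝 (2 * 0 * (R + 0) + 0)) :=
    (((hωn'.const_mul 2).mul (hD0.const_add R))).add hD0
  rw [mul_zero, zero_mul, zero_add] at hE
  obtain ⟨j, hj1, hj2⟩ := ((hE.eventually_lt_const hε).and
    (hωn'.eventually_le_const (show (0 : ℝ) < 1 by norm_num))).exists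
  have hfin : ∀ (t z z₀ : ℂ), ‖t‖ ≤ C → ‖z - z₀‖ ≤ D j → ‖z₀‖ ≤ R →
      ‖Complex.exp (-(t * ω (n j))) * z - z₀‖ ≤ ε := by
    intro t z z₀ ht hz hz0
    have h1 : ‖-(t * ω (n j))‖ ≤ C * ‖ω (n j)‖ := by
      rw [norm_neg, norm_mul]; gcongr
    have h2 := Complex.norm_exp_sub_one_le (h1.trans hj2)
    have h3 : ‖z‖ ≤ R + D j := by
      calc ‖z‖ = ‖z₀ + (z - z₀)‖ := by ring_nf
        _ ≤ ‖z₀‖ + ‖z - z₀‖ := norm_add_le _ _
        _ ≤ _ := by linarith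
    calc ‖Complex.exp (-(t * ω (n j))) * z - z₀‖
        = ‖(Complex.exp (-(t * ω (n j))) - 1) * z + (z - z₀)‖ := by ring_nf
      _ ≤ ‖Complex.exp (-(t * ω (n j))) - 1‖ * ‖z‖ + ‖z - z₀‖ := by
          refine (norm_add_le _ _).trans ?_
          rw [norm_mul]
      _ ≤ (2 * (C * ‖ω (n j)‖)) * (R + D j) + D j := by
          have h4 : ‖Complex.exp (-(t * ω (n j))) - 1‖ ≤ 2 * (C * ‖ω (n j)‖) := by linarith
          have h5 := hDn j
          gcongr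
      _ ≤ ε := hj1.le
  refine ⟨n j, hn1 j, fun v hv y hy t ht => ⟨?_, ?_⟩⟩
  · rw [hexp, smul_apply, inner_smul_right]
    refine hfin t _ _ ht (hD1 j v hv y hy t ht) ?_
    calc ‖⟪v, y⟫_ℂ‖ ≤ ‖v‖ * ‖y‖ := norm_inner_le_norm _ _
      _ ≤ B * B := mul_le_mul (hB v hv) (hB y hy) (norm_nonneg _) hB0.le
      _ ≤ R := by rw [hR]; nlinarith [mul_nonneg (sq_nonneg B) hC]
  · rw [hexp, smul_apply, inner_smul_right]
    refine hfin t _ _ ht (hD2 j y hy t ht) ?_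
    have h6 : ‖y‖ ^ 2 ≤ B ^ 2 := by gcongr; exact hB y hy
    rw [norm_mul, norm_pow, Complex.norm_real, norm_norm]
    calc ‖t‖ * ‖y‖ ^ 2 ≤ C * B ^ 2 := by gcongr
      _ ≤ R := by rw [hR]; nlinarith [sq_nonneg B]

end Exp

end Pool.Agent.Q100.WN
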