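import Pool.Agent.Q100.WN2

/-!
# The variational argument

Sparse exponents `n k` are chosen for a unitary operator `T` without eigenvectors in such a way
that the products `exp (c₀ A₀) ⋯ exp (c_K A_K) x₀`, `A_k = T ^ (n k) - ω k`, converge weakly, and the
limit depends in a weakly continuous way on `c`.
-/

set_option autoImplicit false

open Filter Topology Finset
open scoped InnerProductSpace ComplexConjugate

namespace Pool.Agent.Q100.WN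

variable {H : Type*} [NormedAddCommGroup H] [InnerProductSpace ℂ H] [CompleteSpace H]
  {T : H →L[ℂ] H}

/-- The scheme: exponents and compact sets. -/
theorem exists_scheme (hTu : T ∈ unitary (H →L[ℂ] H))
    (hne : ∀ (μ : ℂ) (v : H), T v = μ • v → v = 0) (x₀ : H) {C : ℝ} (hC : 0 ≤ C)
    {ω : ℕ → ℕ → ℂ} (hω : ∀ k, Tendsto (ω k) atTop (𝓝 0)) :
    ∃ (n : ℕ → ℕ) (S : ℕ → Set H), (∀ k, IsCompact (S k)) ∧ S 0 = {x₀} ∧
      (∀ k, ∀ y ∈ S k, ∀ t : ℂ, ‖t‖ ≤ C →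
        NormedSpace.exp (t • (T ^ n k - ω k (n k) • (1 : H →L[ℂ] H))) y ∈ S (k + 1)) ∧
      (∀ k, ∀ v ∈ S k, ∀ y ∈ S k, ∀ t : ℂ, ‖t‖ ≤ C →
        ‖⟪v, NormedSpace.exp (t • (T ^ n k - ω k (n k) • (1 : H →L[ℂ] H))) y⟫_ℂ - ⟪v, y⟫_ℂ‖ ≤
          (1 / 2) ^ k / 4) ∧
      (∀ k, ∀ y ∈ S k, ∀ t : ℂ, ‖t‖ ≤ C →
        ‖⟪(T ^ n k) y, NormedSpace.exp (t • (T ^ n k - ω k (n k) • (1 : H →L[ℂ] H))) y⟫_ℂ -
          t * ‖y‖ ^ 2‖ ≤ (1 / 2) ^ k / 4) := by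
  have key : ∀ (k : ℕ) (S : {S : Set H // IsCompact S}), ∃ n : ℕ, ∀ v ∈ S.1, ∀ y ∈ S.1,
      ∀ t : ℂ, ‖t‖ ≤ C →
      ‖⟪v, NormedSpace.exp (t • (T ^ n - ω k n • (1 : H →L[ℂ] H))) y⟫_ℂ - ⟪v, y⟫_ℂ‖ ≤
        (1 / 2) ^ k / 4 ∧
      ‖⟪(T ^ n) y, NormedSpace.exp (t • (T ^ n - ω k n • (1 : H →L[ℂ] H))) y⟫_ℂ - t * ‖y‖ ^ 2‖ ≤
        (1 / 2) ^ k / 4 := by
    intro k S
    obtain ⟨n, -, hn⟩ := select_exp hTu hne S.2 hC (ε := (1 / 2) ^ k / 4) (by positivity) 0 (hω k)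
    exact ⟨n, hn⟩
  choose N hN using key
  have himg : ∀ (k : ℕ) (S : {S : Set H // IsCompact S}),
      IsCompact ((fun p : ℂ × H =>
        NormedSpace.exp (p.1 • (T ^ N k S - ω k (N k S) • (1 : H →L[ℂ] H))) p.2) ''
          (Metric.closedBall 0 C ×ˢ S.1)) := by
    intro k S
    refine ((isCompact_closedBall _ _).prod S.2).image ?_
    exact (exp_cont'.comp (continuous_fst.smul continuous_const)).clm_apply continuous_snd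
  let st : ℕ → {S : Set H // IsCompact S} := fun k =>
    Nat.rec ⟨{x₀}, isCompact_singleton⟩ (fun k S => ⟨_, himg k S⟩) k
  have hst : ∀ k, (st (k + 1)).1 = (fun p : ℂ × H =>
        NormedSpace.exp (p.1 • (T ^ N k (st k) - ω k (N k (st k)) • (1 : H →L[ℂ] H))) p.2) ''
          (Metric.closedBall 0 C ×ˢ (st k).1) := fun k => rfl
  refine ⟨fun k => N k (st k), fun k => (st k).1, fun k => (st k).2, rfl, ?_, ?_, ?_⟩
  · intro k y hy t ht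
    simp only
    rw [hst]
    exact ⟨(t, y), ⟨by simpa using ht, hy⟩, rfl⟩
  · intro k v hv y hy t ht
    exact (hN k (st k) v hv y hy t ht).1
  · intro k y hy t ht
    exact (hN k (st k) y hy y hy t ht).2

/-- The partial products. -/
noncomputable def X (A : ℕ → H →L[ℂ] H) (x₀ : H) (c : ℕ → ℂ) : ℕ → H
  | 0 => x₀
  | k + 1 => NormedSpace.exp (c k • A k) (X A x₀ c k)

theorem X_continuous (A : ℕ → H →L[ℂ] H) (x₀ : H) (K : ℕ) :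
    Continuous fun c : ℕ → ℂ => X A x₀ c K := by
  induction K with
  | zero => exact continuous_const
  | succ k ih =>
    show Continuous fun c : ℕ → ℂ => NormedSpace.exp (c k • A k) (X A x₀ c k)
    exact (exp_cont'.comp ((continuous_apply k).smul continuous_const)).clm_apply ih

theorem X_add (A : ℕ → H →L[ℂ] H) (hA : ∀ i j, Commute (A i) (A j)) (x₀ : H) (c β : ℕ → ℂ)
    (s : ℂ) (K : ℕ) :
    X A x₀ (c + s • β) K =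
      NormedSpace.exp (s • ∑ k ∈ range K, β k • A k) (X A x₀ c K) := by
  induction K with
  | zero => simp [X, exp_zero']
  | succ k ih =>
    show NormedSpace.exp ((c + s • β) k • A k) (X A x₀ (c + s • β) k) = _
    rw [ih]
    show _ = NormedSpace.exp (s • ∑ k ∈ range (k + 1), β k • A k)
      (NormedSpace.exp (c k • A k) (X A x₀ c k))
    rw [← mul_apply_eq_comp, ← mul_apply_eq_comp]
    congr 1
    have hc1 : Commute (A k) (∑ i ∈ range k, β i • A i) :=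
      Commute.sum_right _ _ _ fun i _ => (hA k i).smul_right _
    have hc2 : Commute ((c + s • β) k • A k) (s • ∑ i ∈ range k, β i • A i) :=
      (hc1.smul_left _).smul_right _
    have hc3 : Commute (s • ∑ i ∈ range (k + 1), β i • A i) (c k • A k) := by
      refine (Commute.smul_left ?_ _).smul_right _
      exact (Commute.sum_right _ _ _ fun i _ => (hA k i).smul_right _).symm
    rw [← exp_add' hc2, ← exp_add' hc3]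
    congr 1
    rw [sum_range_succ, smul_add, Pi.add_apply, Pi.smul_apply, smul_eq_mul, add_smul, smul_smul]
    abel

section Scheme

variable {A : ℕ → H →L[ℂ] H} {x₀ : H} {S : ℕ → Set H} {C : ℝ}

theorem X_mem (hS0 : S 0 = {x₀})
    (hS : ∀ k, ∀ y ∈ S k, ∀ t : ℂ, ‖t‖ ≤ C → NormedSpace.exp (t • A k) y ∈ S (k + 1))
    {c : ℕ → ℂ} (hc : ∀ k, ‖c k‖ ≤ C) (K : ℕ) : X A x₀ c K ∈ S K := by
  induction K with
  | zero => rw [hS0]; rfl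
  | succ k ih => exact hS k _ ih _ (hc k)

theorem S_mono (hC : 0 ≤ C)
    (hS : ∀ k, ∀ y ∈ S k, ∀ t : ℂ, ‖t‖ ≤ C → NormedSpace.exp (t • A k) y ∈ S (k + 1)) :
    Monotone S := by
  refine monotone_nat_of_le_succ fun k y hy => ?_
  have := hS k y hy 0 (by simpa using hC)
  rwa [zero_smul, exp_zero', one_apply_eq_self] at this

/-- Uniform weak Cauchy property. -/
theorem X_cauchy (hC : 0 ≤ C) (hS0 : S 0 = {x₀})
    (hS : ∀ k, ∀ y ∈ S k, ∀ t : ℂ, ‖t‖ ≤ C → NormedSpace.exp (t • A k) y ∈ S (k + 1))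
    (hE : ∀ k, ∀ v ∈ S k, ∀ y ∈ S k, ∀ t : ℂ, ‖t‖ ≤ C →
        ‖⟪v, NormedSpace.exp (t • A k) y⟫_ℂ - ⟪v, y⟫_ℂ‖ ≤ (1 / 2) ^ k / 4)
    {c : ℕ → ℂ} (hc : ∀ k, ‖c k‖ ≤ C) {K L : ℕ} (hKL : K ≤ L) {v : H} (hv : v ∈ S K) :
    ‖⟪X A x₀ c L, v⟫_ℂ - ⟪X A x₀ c K, v⟫_ℂ‖ ≤ (1 / 2) ^ K / 2 - (1 / 2) ^ L / 2 := by
  induction L, hKL using Nat.le_induction with
  | base => simp
  | succ L hL ih =>
    have h1 := hE L v (S_mono hC hS hL hv) _ (X_mem hS0 hS hc L) (c L) (hc L)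
    have h2 : ‖⟪X A x₀ c (L + 1), v⟫_ℂ - ⟪X A x₀ c L, v⟫_ℂ‖ ≤ (1 / 2) ^ L / 4 := by
      rw [← inner_conj_symm _ v, ← inner_conj_symm _ v, ← map_sub, RCLike.norm_conj]
      exact h1
    calc ‖⟪X A x₀ c (L + 1), v⟫_ℂ - ⟪X A x₀ c K, v⟫_ℂ‖
        ≤ ‖⟪X A x₀ c (L + 1), v⟫_ℂ - ⟪X A x₀ c L, v⟫_ℂ‖ +
          ‖⟪X A x₀ c L, v⟫_ℂ - ⟪X A x₀ c K, v⟫_ℂ‖ := norm_sub_le_norm_sub_add_norm_sub _ _ _
      _ ≤ (1 / 2) ^ L / 4 + ((1 / 2) ^ K / 2 - (1 / 2) ^ L / 2) := add_le_add h2 ih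
      _ = _ := by rw [pow_succ]; ring

theorem X_cauchy' (hC : 0 ≤ C) (hS0 : S 0 = {x₀})
    (hS : ∀ k, ∀ y ∈ S k, ∀ t : ℂ, ‖t‖ ≤ C → NormedSpace.exp (t • A k) y ∈ S (k + 1))
    (hE : ∀ k, ∀ v ∈ S k, ∀ y ∈ S k, ∀ t : ℂ, ‖t‖ ≤ C →
        ‖⟪v, NormedSpace.exp (t • A k) y⟫_ℂ - ⟪v, y⟫_ℂ‖ ≤ (1 / 2) ^ k / 4)
    {c : ℕ → ℂ} (hc : ∀ k, ‖c k‖ ≤ C) {K L : ℕ} (hKL : K ≤ L) {v : H} (hv : v ∈ S K) :
    ‖⟪X A x₀ c L, v⟫_ℂ - ⟪X A x₀ c K, v⟫_ℂ‖ ≤ (1 / 2) ^ K / 2 :=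
  (X_cauchy hC hS0 hS hE hc hKL hv).trans (by
    have : (0 : ℝ) ≤ (1 / 2) ^ L / 2 := by positivity
    linarith)

/-- The compact set of pairs (parameters, weak limit). -/
def good (A : ℕ → H →L[ℂ] H) (x₀ : H) (S : ℕ → Set H) (C R : ℝ) :
    Set ((ℕ → ℂ) × WeakDual ℂ H) :=
  {p | (∀ k, ‖p.1 k‖ ≤ C) ∧ (∀ K, ‖X A x₀ p.1 K‖ ≤ R) ∧
    (p.2 ∈ WeakDual.toStrongDual ⁻¹' Metric.closedBall (0 : StrongDual ℂ H) R) ∧
    (∀ K, ∀ v ∈ S K, ‖p.2 v - ⟪X A x₀ p.1 K, v⟫_ℂ‖ ≤ (1 / 2) ^ K / 2) ∧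
    (∀ v, (∀ K, ∀ s ∈ S K, ⟪s, v⟫_ℂ = 0) → p.2 v = 0)}

theorem good_compact (R : ℝ) : IsCompact (good A x₀ S C R) := by
  have h1 : IsCompact ((Set.univ.pi fun _ : ℕ => Metric.closedBall (0 : ℂ) C) ×ˢ
      (WeakDual.toStrongDual ⁻¹' Metric.closedBall (0 : StrongDual ℂ H) R)) :=
    (isCompact_univ_pi fun _ => isCompact_closedBall _ _).prod (WeakDual.isCompact_closedBall _ _)
  have hcl : IsClosed {p : (ℕ → ℂ) × WeakDual ℂ H | (∀ K, ‖X A x₀ p.1 K‖ ≤ R) ∧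
      (∀ K, ∀ v ∈ S K, ‖p.2 v - ⟪X A x₀ p.1 K, v⟫_ℂ‖ ≤ (1 / 2) ^ K / 2) ∧
      (∀ v, (∀ K, ∀ s ∈ S K, ⟪s, v⟫_ℂ = 0) → p.2 v = 0)} := by
    have hev : ∀ v : H, Continuous fun p : (ℕ → ℂ) × WeakDual ℂ H => p.2 v := fun v =>
      (WeakDual.eval_continuous v).comp continuous_snd
    have hX : ∀ K, Continuous fun p : (ℕ → ℂ) × WeakDual ℂ H => X A x₀ p.1 K := fun K =>
      (X_continuous A x₀ K).comp continuous_fst
    simp only [Set.setOf_and, Set.setOf_forall]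
    refine (isClosed_iInter fun K => isClosed_le (hX K).norm continuous_const).inter
      ((isClosed_iInter fun K => isClosed_iInter fun v => isClosed_iInter fun _ =>
        isClosed_le ((hev v).sub ((hX K).inner continuous_const)).norm continuous_const).inter
      (isClosed_iInter fun v => isClosed_iInter fun _ => isClosed_eq (hev v) continuous_const))
  have heq : good A x₀ S C R = ((Set.univ.pi fun _ : ℕ => Metric.closedBall (0 : ℂ) C) ×ˢ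
      (WeakDual.toStrongDual ⁻¹' Metric.closedBall (0 : StrongDual ℂ H) R)) ∩
      {p : (ℕ → ℂ) × WeakDual ℂ H | (∀ K, ‖X A x₀ p.1 K‖ ≤ R) ∧
      (∀ K, ∀ v ∈ S K, ‖p.2 v - ⟪X A x₀ p.1 K, v⟫_ℂ‖ ≤ (1 / 2) ^ K / 2) ∧
      (∀ v, (∀ K, ∀ s ∈ S K, ⟪s, v⟫_ℂ = 0) → p.2 v = 0)} := by
    ext p
    constructor
    · rintro ⟨h1, h2, h3, h4, h5⟩
      exact ⟨⟨fun k _ => by simpa using h1 k, h3⟩, h2, h4, h5⟩
    · rintro ⟨⟨h1, h3⟩, h2, h4, h5⟩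
      exact ⟨fun k => by simpa using h1 k trivial, h2, h3, h4, h5⟩
  rw [heq]
  exact h1.inter_right hcl

/-- The vector of a pair. -/
noncomputable def vec (p : (ℕ → ℂ) × WeakDual ℂ H) : H :=
  (InnerProductSpace.toDual ℂ H).symm (WeakDual.toStrongDual p.2)

theorem inner_vec (p : (ℕ → ℂ) × WeakDual ℂ H) (v : H) : ⟪vec p, v⟫_ℂ = p.2 v := by
  unfold vec
  rw [InnerProductSpace.toDual_symm_apply]
  rfl

theorem norm_vec {R : ℝ} {p : (ℕ → ℂ) × WeakDual ℂ H} (hp : p ∈ good A x₀ S C R) :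
    ‖vec p‖ ≤ R := by
  unfold vec
  rw [LinearIsometryEquiv.norm_map]
  simpa using hp.2.2.1

theorem vec_lsc {Y : Type*} [NormedAddCommGroup Y] [NormedSpace ℂ Y] (J : H →L[ℂ] Y) :
    LowerSemicontinuous fun p : (ℕ → ℂ) × WeakDual ℂ H => ‖J (vec p)‖ := by
  rw [lowerSemicontinuous_iff_isClosed_preimage]
  intro a
  have h1 : (fun p : (ℕ → ℂ) × WeakDual ℂ H => ‖J (vec p)‖) ⁻¹' Set.Iic a =
      ⋂ (f : Y →L[ℂ] ℂ) (_ : ‖f‖ ≤ 1), {p | ‖p.2 ((InnerProductSpace.toDual ℂ H).symm (f ∘L J))‖ ≤ a} := by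
    have h2 : ∀ (f : Y →L[ℂ] ℂ) (p : (ℕ → ℂ) × WeakDual ℂ H),
        ‖p.2 ((InnerProductSpace.toDual ℂ H).symm (f ∘L J))‖ = ‖f (J (vec p))‖ := by
      intro f p
      rw [← inner_vec, ← inner_conj_symm, RCLike.norm_conj, InnerProductSpace.toDual_symm_apply]
      rfl
    ext p
    simp only [Set.mem_preimage, Set.mem_Iic, Set.mem_iInter, Set.mem_ofPred_eq, h2]
    constructor
    · intro h f hf
      calc ‖f (J (vec p))‖ ≤ ‖f‖ * ‖J (vec p)‖ := f.le_opNorm _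
        _ ≤ 1 * ‖J (vec p)‖ := by gcongr
        _ ≤ a := by rwa [one_mul]
    · intro h
      obtain ⟨f, hf1, hf2⟩ := exists_dual_vector'' ℂ (J (vec p))
      have h3 := h f hf1
      rw [hf2] at h3
      simpa using h3
  rw [h1]
  refine isClosed_iInter fun f => isClosed_iInter fun _ => ?_
  exact isClosed_le ((WeakDual.eval_continuous _).comp continuous_snd).norm continuous_const

/-- For a good pair the partial products converge weakly to the vector. -/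
theorem good_tendsto {R : ℝ} (hS0 : S 0 = {x₀}) (hC : 0 ≤ C)
    (hS : ∀ k, ∀ y ∈ S k, ∀ t : ℂ, ‖t‖ ≤ C → NormedSpace.exp (t • A k) y ∈ S (k + 1))
    {p : (ℕ → ℂ) × WeakDual ℂ H} (hp : p ∈ good A x₀ S C R)
    (v : H) : Tendsto (fun L => ⟪X A x₀ p.1 L, v⟫_ℂ) atTop (𝓝 ⟪vec p, v⟫_ℂ) := by
  set V : Submodule ℂ H := (Submodule.span ℂ (⋃ K, S K)).topologicalClosure with hV
  have hVc : CompleteSpace V := (Submodule.isClosed_topologicalClosure _).completeSpace_coe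
  obtain ⟨v₁, hv₁, v₂, hv₂, rfl⟩ := V.exists_add_mem_mem_orthogonal v
  have hSV : ∀ K, ∀ s ∈ S K, s ∈ V := fun K s hs =>
    Submodule.le_topologicalClosure _ (Submodule.subset_span (Set.mem_iUnion.2 ⟨K, hs⟩))
  have hv2' : ∀ K, ∀ s ∈ S K, ⟪s, v₂⟫_ℂ = 0 := fun K s hs =>
    (Submodule.mem_orthogonal _ _).1 hv₂ s (hSV K s hs)
  have hX2 : ∀ L, ⟪X A x₀ p.1 L, v₂⟫_ℂ = 0 := fun L => hv2' L _ (X_mem hS0 hS hp.1 L)
  have hp2 : ⟪vec p, v₂⟫_ℂ = 0 := by rw [inner_vec]; exact hp.2.2.2.2 v₂ hv2'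
  have hspan : ∀ u ∈ Submodule.span ℂ (⋃ K, S K),
      Tendsto (fun L => ⟪X A x₀ p.1 L, u⟫_ℂ) atTop (𝓝 ⟪vec p, u⟫_ℂ) := by
    intro u hu
    induction hu using Submodule.span_induction with
    | mem u hu =>
      obtain ⟨K, hK⟩ := Set.mem_iUnion.1 hu
      rw [tendsto_iff_norm_sub_tendsto_zero]
      have h1 : Tendsto (fun L : ℕ => ((1 : ℝ) / 2) ^ L / 2) atTop (𝓝 0) := by
        have := (tendsto_pow_atTop_nhds_zero_of_lt_one (r := (1 / 2 : ℝ)) (by norm_num)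
          (by norm_num)).div_const 2
        simpa using this
      refine squeeze_zero' (Eventually.of_forall fun _ => norm_nonneg _) ?_ h1
      filter_upwards [eventually_ge_atTop K] with L hL
      have h2 := hp.2.2.2.1 L u (S_mono hC hS hL hK)
      rw [norm_sub_rev, inner_vec]
      exact h2
    | zero => simp
    | add u w _ _ hu hw =>
      simp only [inner_add_right]
      exact hu.add hw
    | smul a u _ hu =>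
      simp only [inner_smul_right]
      exact hu.const_mul a
  have hR0 : 0 ≤ R := (norm_nonneg _).trans (norm_vec hp)
  have hv1 : Tendsto (fun L => ⟪X A x₀ p.1 L, v₁⟫_ℂ) atTop (𝓝 ⟪vec p, v₁⟫_ℂ) := by
    rw [Metric.tendsto_atTop]
    intro ε hε
    have hcl : v₁ ∈ closure (Submodule.span ℂ (⋃ K, S K) : Set H) := by
      rw [hV] at hv₁
      exact hv₁
    obtain ⟨u, hu, huv⟩ := Metric.mem_closure_iff.1 hcl (ε / (4 * (R + 1))) (by positivity)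
    obtain ⟨N, hN⟩ := Metric.tendsto_atTop.1 (hspan u hu) (ε / 2) (by positivity)
    refine ⟨N, fun L hL => ?_⟩
    have h1 := hN L hL
    rw [dist_eq_norm] at h1 huv ⊢
    have h2 : ∀ w : H, ‖w‖ ≤ R → ‖⟪w, v₁ - u⟫_ℂ‖ ≤ ε / 4 := by
      intro w hw
      calc ‖⟪w, v₁ - u⟫_ℂ‖ ≤ ‖w‖ * ‖v₁ - u‖ := norm_inner_le_norm _ _
        _ ≤ (R + 1) * (ε / (4 * (R + 1))) := by
            refine mul_le_mul (by linarith) huv.le (norm_nonneg _) (by linarith)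
        _ = ε / 4 := by field_simp
    have h3 := h2 _ (hp.2.1 L)
    have h4 := h2 _ (norm_vec hp)
    have h5 : ⟪X A x₀ p.1 L, v₁⟫_ℂ - ⟪vec p, v₁⟫_ℂ = (⟪X A x₀ p.1 L, u⟫_ℂ - ⟪vec p, u⟫_ℂ) +
        ⟪X A x₀ p.1 L, v₁ - u⟫_ℂ - ⟪vec p, v₁ - u⟫_ℂ := by
      rw [inner_sub_right, inner_sub_right]; ring
    rw [h5]
    calc _ ≤ ‖(⟪X A x₀ p.1 L, u⟫_ℂ - ⟪vec p, u⟫_ℂ) + ⟪X A x₀ p.1 L, v₁ - u⟫_ℂ‖ +
          ‖⟪vec p, v₁ - u⟫_ℂ‖ := norm_sub_le _ _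
      _ ≤ ‖(⟪X A x₀ p.1 L, u⟫_ℂ - ⟪vec p, u⟫_ℂ)‖ + ‖⟪X A x₀ p.1 L, v₁ - u⟫_ℂ‖ +
          ‖⟪vec p, v₁ - u⟫_ℂ‖ := by gcongr; exact norm_add_le _ _
      _ < ε := by linarith
  simp only [inner_add_right, hX2, hp2, add_zero]
  exact hv1

/-- The norm bounds of a good pair. -/
theorem good_bounds {R κ : ℝ} (hκ : 0 ≤ κ) (hC : 0 ≤ C) (hS0 : S 0 = {x₀}) (hx₀ : ‖x₀‖ = 1)
    (hS : ∀ k, ∀ y ∈ S k, ∀ t : ℂ, ‖t‖ ≤ C → NormedSpace.exp (t • A k) y ∈ S (k + 1))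
    (hE : ∀ k, ∀ v ∈ S k, ∀ y ∈ S k, ∀ t : ℂ, ‖t‖ ≤ C →
        ‖⟪v, NormedSpace.exp (t • A k) y⟫_ℂ - ⟪v, y⟫_ℂ‖ ≤ (1 / 2) ^ k / 4)
    {U : ℕ → H →L[ℂ] H} (hU : ∀ k z, ‖U k z‖ = ‖z‖)
    (hF : ∀ k, ∀ y ∈ S k, ∀ t : ℂ, ‖t‖ ≤ C →
        ‖⟪U k y, NormedSpace.exp (t • A k) y⟫_ℂ - t * ‖y‖ ^ 2‖ ≤ (1 / 2) ^ k / 4)
    {p : (ℕ → ℂ) × WeakDual ℂ H} (hp : p ∈ good A x₀ S C R) (hpκ : ‖vec p‖ ≤ κ) :
    (∀ K, ‖X A x₀ p.1 K‖ ≤ κ + 1) ∧ (∀ k, ‖p.1 k‖ ≤ 2 * κ + 3) ∧ vec p ≠ 0 := by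
  have hpow : ∀ k : ℕ, ((1 : ℝ) / 2) ^ k ≤ 1 := fun k => pow_le_one₀ (by norm_num) (by norm_num)
  have h1 : ∀ K, ‖X A x₀ p.1 K‖ ≤ κ + 1 := by
    intro K
    have h2 := hp.2.2.2.1 K _ (X_mem hS0 hS hp.1 K)
    rw [← inner_vec, inner_self_eq_norm_sq_to_K] at h2
    have h3 : ‖((‖X A x₀ p.1 K‖ : ℂ)) ^ 2‖ = ‖X A x₀ p.1 K‖ ^ 2 := by
      rw [norm_pow, Complex.norm_real, norm_norm]
    have h4 : ‖X A x₀ p.1 K‖ ^ 2 ≤ κ * ‖X A x₀ p.1 K‖ + 1 := by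
      calc ‖X A x₀ p.1 K‖ ^ 2 = ‖((‖X A x₀ p.1 K‖ : ℂ)) ^ 2‖ := h3.symm
        _ ≤ ‖⟪vec p, X A x₀ p.1 K⟫_ℂ‖ + ‖⟪vec p, X A x₀ p.1 K⟫_ℂ - ((‖X A x₀ p.1 K‖ : ℂ)) ^ 2‖ := by
            have := norm_sub_le ⟪vec p, X A x₀ p.1 K⟫_ℂ
              (⟪vec p, X A x₀ p.1 K⟫_ℂ - ((‖X A x₀ p.1 K‖ : ℂ)) ^ 2)
            rwa [sub_sub_cancel] at this
        _ ≤ κ * ‖X A x₀ p.1 K‖ + 1 := by
            refine add_le_add ((norm_inner_le_norm _ _).trans (by gcongr)) ?_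
            have := hpow K
            exact h2.trans (by linarith)
    by_contra hcon
    push Not at hcon
    nlinarith [norm_nonneg (X A x₀ p.1 K)]
  have h5 : ∀ K, 1 / 2 ≤ ‖X A x₀ p.1 K‖ := by
    intro K
    have h6 := X_cauchy' hC hS0 hS hE hp.1 (Nat.zero_le K) (v := x₀) (by rw [hS0]; rfl)
    have h7 : X A x₀ p.1 0 = x₀ := rfl
    rw [h7, inner_self_eq_norm_sq_to_K, hx₀] at h6
    have h8 : ‖((1 : ℝ) : ℂ) ^ 2‖ ≤ ‖⟪X A x₀ p.1 K, x₀⟫_ℂ‖ + ‖⟪X A x₀ p.1 K, x₀⟫_ℂ - ((1 : ℝ) : ℂ) ^ 2‖ := by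
      have := norm_sub_le ⟪X A x₀ p.1 K, x₀⟫_ℂ (⟪X A x₀ p.1 K, x₀⟫_ℂ - ((1 : ℝ) : ℂ) ^ 2)
      rwa [sub_sub_cancel] at this
    have h9 : ‖⟪X A x₀ p.1 K, x₀⟫_ℂ‖ ≤ ‖X A x₀ p.1 K‖ := by
      have := norm_inner_le_norm (𝕜 := ℂ) (X A x₀ p.1 K) x₀
      rwa [hx₀, mul_one] at this
    have h10 : ‖((1 : ℝ) : ℂ) ^ 2‖ = 1 := by simp
    rw [pow_zero] at h6
    have h11 : ‖⟪X A x₀ p.1 K, x₀⟫_ℂ - ((1 : ℝ) : ℂ) ^ 2‖ ≤ 1 / 2 := h6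
    linarith
  refine ⟨h1, fun k => ?_, ?_⟩
  · have h6 := hF k _ (X_mem hS0 hS hp.1 k) (p.1 k) (hp.1 k)
    have h7 : ‖⟪U k (X A x₀ p.1 k), NormedSpace.exp (p.1 k • A k) (X A x₀ p.1 k)⟫_ℂ‖ ≤
        ‖X A x₀ p.1 k‖ * (κ + 1) := by
      refine (norm_inner_le_norm _ _).trans ?_
      rw [hU]
      exact mul_le_mul_of_nonneg_left (h1 (k + 1)) (norm_nonneg _)
    have h8 : ‖p.1 k‖ * ‖X A x₀ p.1 k‖ ^ 2 ≤ ‖X A x₀ p.1 k‖ * (κ + 1) + 1 / 4 := by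
      have h9 : ‖p.1 k * (‖X A x₀ p.1 k‖ : ℂ) ^ 2‖ = ‖p.1 k‖ * ‖X A x₀ p.1 k‖ ^ 2 := by
        rw [norm_mul, norm_pow, Complex.norm_real, norm_norm]
      have h10 := norm_sub_le
        ⟪U k (X A x₀ p.1 k), NormedSpace.exp (p.1 k • A k) (X A x₀ p.1 k)⟫_ℂ
        (⟪U k (X A x₀ p.1 k), NormedSpace.exp (p.1 k • A k) (X A x₀ p.1 k)⟫_ℂ -
          p.1 k * (‖X A x₀ p.1 k‖ : ℂ) ^ 2)
      rw [sub_sub_cancel, h9] at h10
      have := hpow k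
      linarith
    have h11 := h5 k
    set a := ‖X A x₀ p.1 k‖ with ha
    by_contra hcon
    push Not at hcon
    have h12 : (2 * κ + 3) * a ^ 2 < ‖p.1 k‖ * a ^ 2 := by
      have : 0 < a ^ 2 := by positivity
      nlinarith
    nlinarith [sq_nonneg (a - 1 / 2), mul_nonneg hκ (sub_nonneg.2 h11)]
  · intro h0
    have h6 := hp.2.2.2.1 0 x₀ (by rw [hS0]; rfl)
    have h7 : X A x₀ p.1 0 = x₀ := rfl
    rw [← inner_vec, h0, inner_zero_left, h7, inner_self_eq_norm_sq_to_K, hx₀, zero_sub, norm_neg] at h6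
    norm_num at h6

end Scheme

end Pool.Agent.Q100.WN
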