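import Pool.Agent.Q100.WN3

/-!
# The minimiser and its supporting functional
-/

set_option autoImplicit false

open Filter Topology Finset
open scoped InnerProductSpace ComplexConjugate

namespace Pool.Agent.Q100.WN

variable {H : Type*} [NormedAddCommGroup H] [InnerProductSpace ℂ H] [CompleteSpace H]
  {A : ℕ → H →L[ℂ] H} {x₀ : H} {S : ℕ → Set H} {C : ℝ}

/-- Small perturbations of a good pair in finitely many directions are good. -/
theorem good_perturb {κ : ℝ} (hκ : 0 ≤ κ) (hS0 : S 0 = {x₀}) (hx₀ : ‖x₀‖ = 1)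
    (hC : 2 * κ + 4 ≤ C) (hA : ∀ i j, Commute (A i) (A j))
    (hS : ∀ k, ∀ y ∈ S k, ∀ t : ℂ, ‖t‖ ≤ C → NormedSpace.exp (t • A k) y ∈ S (k + 1))
    (hE : ∀ k, ∀ v ∈ S k, ∀ y ∈ S k, ∀ t : ℂ, ‖t‖ ≤ C →
        ‖⟪v, NormedSpace.exp (t • A k) y⟫_ℂ - ⟪v, y⟫_ℂ‖ ≤ (1 / 2) ^ k / 4)
    {U : ℕ → H →L[ℂ] H} (hU : ∀ k z, ‖U k z‖ = ‖z‖)
    (hF : ∀ k, ∀ y ∈ S k, ∀ t : ℂ, ‖t‖ ≤ C →
        ‖⟪U k y, NormedSpace.exp (t • A k) y⟫_ℂ - t * ‖y‖ ^ 2‖ ≤ (1 / 2) ^ k / 4)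
    {p : (ℕ → ℂ) × WeakDual ℂ H} (hp : p ∈ good A x₀ S C (κ + 3)) (hpκ : ‖vec p‖ ≤ κ)
    (β : ℕ → ℂ) (K₀ : ℕ) (hβ : ∀ k, K₀ ≤ k → β k = 0) :
    ∀ᶠ s : ℂ in 𝓝 0, ∃ p' ∈ good A x₀ S C (κ + 3),
      vec p' = NormedSpace.exp (s • ∑ k ∈ range K₀, β k • A k) (vec p) := by
  obtain ⟨hX, hc, -⟩ := good_bounds hκ (by linarith) hS0 hx₀ hS hE hU hF hp hpκ
  set B : H →L[ℂ] H := ∑ k ∈ range K₀, β k • A k with hB
  have hsum : ∀ K, K₀ ≤ K → ∑ k ∈ range K, β k • A k = B := by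
    intro K hK
    rw [hB]
    symm
    refine sum_subset (range_subset_range.2 hK) fun k _ hk => ?_
    rw [mem_range, not_lt] at hk
    rw [hβ k hk, zero_smul]
  -- the eventual conditions
  have e1 : ∀ᶠ s : ℂ in 𝓝 0, ∀ k ∈ range K₀, ‖(p.1 + s • β) k‖ ≤ C := by
    rw [eventually_all_finset]
    intro k _
    have h1 : Tendsto (fun s : ℂ => ‖(p.1 + s • β) k‖) (𝓝 0) (𝓝 ‖(p.1 + (0 : ℂ) • β) k‖) := by
      have : Continuous fun s : ℂ => ‖(p.1 + s • β) k‖ := by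
        simp only [Pi.add_apply, Pi.smul_apply]
        fun_prop
      exact this.tendsto 0
    refine h1.eventually_le_const ?_
    rw [zero_smul, add_zero]
    exact (hc k).trans_lt (by linarith)
  have e2 : ∀ᶠ s : ℂ in 𝓝 0, ∀ K ∈ range K₀, ‖X A x₀ (p.1 + s • β) K‖ ≤ κ + 3 := by
    rw [eventually_all_finset]
    intro K _
    have h1 : Tendsto (fun s : ℂ => ‖X A x₀ (p.1 + s • β) K‖) (𝓝 0)
        (𝓝 ‖X A x₀ (p.1 + (0 : ℂ) • β) K‖) := by
      have : Continuous fun s : ℂ => ‖X A x₀ (p.1 + s • β) K‖ :=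
        ((X_continuous A x₀ K).comp (by fun_prop : Continuous fun s : ℂ => p.1 + s • β)).norm
      exact this.tendsto 0
    refine h1.eventually_le_const ?_
    rw [zero_smul, add_zero]
    exact (hX K).trans_lt (by linarith)
  have e3 : ∀ᶠ s : ℂ in 𝓝 0, ‖NormedSpace.exp (s • B)‖ * (κ + 1) ≤ κ + 3 := by
    rcases subsingleton_or_nontrivial H with h | h
    · exfalso
      rw [Subsingleton.elim x₀ 0, norm_zero] at hx₀
      norm_num at hx₀
    have h1 : Tendsto (fun s : ℂ => ‖NormedSpace.exp (s • B)‖ * (κ + 1)) (𝓝 0)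
        (𝓝 (‖NormedSpace.exp ((0 : ℂ) • B)‖ * (κ + 1))) := by
      have : Continuous fun s : ℂ => ‖NormedSpace.exp (s • B)‖ * (κ + 1) :=
        ((exp_cont'.comp (continuous_id.smul continuous_const)).norm).mul continuous_const
      exact this.tendsto 0
    refine h1.eventually_le_const ?_
    rw [zero_smul, exp_zero', norm_one]
    linarith
  filter_upwards [e1, e2, e3] with s h1 h2 h3
  set c' : ℕ → ℂ := p.1 + s • β with hc'
  have hc1 : ∀ k, ‖c' k‖ ≤ C := by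
    intro k
    rcases lt_or_ge k K₀ with hk | hk
    · exact h1 k (mem_range.2 hk)
    · rw [hc', Pi.add_apply, Pi.smul_apply, hβ k hk, smul_zero, add_zero]
      exact hp.1 k
  have hXs : ∀ K, K₀ ≤ K → X A x₀ c' K = NormedSpace.exp (s • B) (X A x₀ p.1 K) := by
    intro K hK
    rw [hc', X_add A hA, hsum K hK]
  have hX1 : ∀ K, ‖X A x₀ c' K‖ ≤ κ + 3 := by
    intro K
    rcases lt_or_ge K K₀ with hK | hK
    · exact h2 K (mem_range.2 hK)
    · rw [hXs K hK]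
      calc _ ≤ ‖NormedSpace.exp (s • B)‖ * ‖X A x₀ p.1 K‖ := ContinuousLinearMap.le_opNorm _ _
        _ ≤ ‖NormedSpace.exp (s • B)‖ * (κ + 1) := by gcongr; exact hX K
        _ ≤ _ := h3
  set y' : H := NormedSpace.exp (s • B) (vec p) with hy'
  have hy'n : ‖y'‖ ≤ κ + 3 := by
    calc _ ≤ ‖NormedSpace.exp (s • B)‖ * ‖vec p‖ := ContinuousLinearMap.le_opNorm _ _
      _ ≤ ‖NormedSpace.exp (s • B)‖ * (κ + 1) := by gcongr; linarith
      _ ≤ _ := h3
  let φ : WeakDual ℂ H := StrongDual.toWeakDual (InnerProductSpace.toDual ℂ H y')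
  have hφ : ∀ v, φ v = ⟪y', v⟫_ℂ := fun v => rfl
  have hvec : vec (c', φ) = y' := by
    refine ext_inner_right ℂ fun v => ?_
    rw [inner_vec]
    rfl
  have hconv : ∀ v, Tendsto (fun L => ⟪X A x₀ c' L, v⟫_ℂ) atTop (𝓝 ⟪y', v⟫_ℂ) := by
    intro v
    have h4 := good_tendsto hS0 (by linarith) hS hp
      (ContinuousLinearMap.adjoint (NormedSpace.exp (s • B)) v)
    rw [ContinuousLinearMap.adjoint_inner_right] at h4
    refine h4.congr' ?_
    filter_upwards [eventually_ge_atTop K₀] with L hL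
    rw [hXs L hL, ContinuousLinearMap.adjoint_inner_right]
  refine ⟨(c', φ), ⟨hc1, hX1, ?_, ?_, ?_⟩, hvec⟩
  · have : ‖InnerProductSpace.toDual ℂ H y'‖ ≤ κ + 3 := by
      rw [LinearIsometryEquiv.norm_map]; exact hy'n
    simpa [φ] using this
  · intro K v hv
    have h5 : Tendsto (fun L => ‖⟪X A x₀ c' L, v⟫_ℂ - ⟪X A x₀ c' K, v⟫_ℂ‖) atTop
        (𝓝 ‖⟪y', v⟫_ℂ - ⟪X A x₀ c' K, v⟫_ℂ‖) := ((hconv v).sub_const _).norm
    refine le_of_tendsto h5 ?_
    filter_upwards [eventually_ge_atTop K] with L hL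
    exact X_cauchy' (by linarith) hS0 hS hE hc1 hL hv
  · intro v hv
    have h5 : ∀ L, ⟪X A x₀ c' L, v⟫_ℂ = 0 := fun L => hv L _ (X_mem hS0 hS hc1 L)
    have h6 := hconv v
    simp only [h5] at h6
    exact tendsto_nhds_unique h6 tendsto_const_nhds

/-- If `‖J (exp (s B) y)‖ ≥ ‖J y‖` for all small `s`, then `‖J y + J (B y)‖ ≥ ‖J y‖`. -/
theorem norm_le_of_exp {Y : Type*} [NormedAddCommGroup Y] [NormedSpace ℂ Y] (J : H →L[ℂ] Y)
    (B : H →L[ℂ] H) (y : H)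
    (h : ∀ᶠ s : ℂ in 𝓝 0, ‖J y‖ ≤ ‖J (NormedSpace.exp (s • B) y)‖) :
    ‖J y‖ ≤ ‖J y + J (B y)‖ := by
  have hd : HasDerivAt (fun s : ℂ => NormedSpace.exp (s • B)) (NormedSpace.exp ((0 : ℂ) • B) * B) 0 :=
    hasDerivAt_exp_smul_const B 0
  rw [zero_smul, exp_zero', one_mul] at hd
  have h1 := hd.tendsto_slope_zero
  simp only [zero_add, zero_smul, exp_zero'] at h1
  have hs : Tendsto (fun j : ℕ => ((1 / ((j : ℝ) + 1) : ℝ) : ℂ)) atTop (𝓝[≠] 0) := by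
    rw [tendsto_nhdsWithin_iff]
    refine ⟨?_, Eventually.of_forall fun j => ?_⟩
    · have h2 := (Complex.continuous_ofReal.tendsto _).comp
        (tendsto_one_div_add_atTop_nhds_zero_nat (𝕜 := ℝ))
      rw [Complex.ofReal_zero] at h2
      exact h2
    · have : (1 / ((j : ℝ) + 1) : ℝ) ≠ 0 := by positivity
      exact Complex.ofReal_ne_zero.2 this
  have h2 := h1.comp hs
  have h3 : Tendsto (fun j : ℕ => J ((((1 / ((j : ℝ) + 1) : ℝ) : ℂ)⁻¹ •
      (NormedSpace.exp (((1 / ((j : ℝ) + 1) : ℝ) : ℂ) • B) - 1)) y)) atTop (𝓝 (J (B y))) := by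
    have h4 : Continuous fun D : H →L[ℂ] H => J (D y) :=
      J.continuous.comp (ContinuousLinearMap.apply ℂ H y).continuous
    exact (h4.tendsto _).comp h2
  have h5 : ∀ᶠ j : ℕ in atTop, ‖J y‖ ≤ ‖J (NormedSpace.exp (((1 / ((j : ℝ) + 1) : ℝ) : ℂ) • B) y)‖ :=
    (hs.mono_right nhdsWithin_le_nhds).eventually h
  refine ge_of_tendsto ((h3.const_add (J y)).norm) ?_
  filter_upwards [h5] with j hj
  set s : ℝ := 1 / ((j : ℝ) + 1) with hsj
  have hs0 : 0 < s := by positivity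
  have hs1 : s ≤ 1 := by
    rw [hsj, div_le_one (by positivity)]
    linarith [(Nat.cast_nonneg j : (0 : ℝ) ≤ j)]
  set w := J (((s : ℂ)⁻¹ • (NormedSpace.exp ((s : ℂ) • B) - 1)) y) with hw
  have h6 : J (NormedSpace.exp ((s : ℂ) • B) y) = (1 - s : ℂ) • J y + (s : ℂ) • (J y + w) := by
    have h7 : (s : ℂ) • w = J (NormedSpace.exp ((s : ℂ) • B) y) - J y := by
      rw [hw, smul_apply, map_smul, smul_smul, mul_inv_cancel₀ (by exact_mod_cast hs0.ne'),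
        one_smul, sub_apply, one_apply_eq_self, map_sub]
    rw [smul_add, h7, sub_smul, one_smul]
    abel
  rw [h6] at hj
  have h8 : ‖(1 - s : ℂ) • J y + (s : ℂ) • (J y + w)‖ ≤ (1 - s) * ‖J y‖ + s * ‖J y + w‖ := by
    refine (norm_add_le _ _).trans ?_
    rw [norm_smul, norm_smul]
    have h9 : ‖(1 - s : ℂ)‖ = 1 - s := by
      rw [← Complex.ofReal_one, ← Complex.ofReal_sub, Complex.norm_real, Real.norm_of_nonneg (by linarith)]
    have h10 : ‖(s : ℂ)‖ = s := by rw [Complex.norm_real, Real.norm_of_nonneg hs0.le]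
    rw [h9, h10]
  have h11 : s * ‖J y‖ ≤ s * ‖J y + w‖ := by linarith
  exact le_of_mul_le_mul_left h11 hs0

/-- A supporting functional vanishing on a subspace. -/
theorem exists_functional {Y : Type*} [NormedAddCommGroup Y] [NormedSpace ℂ Y] (x : Y) (hx : x ≠ 0)
    (M : Submodule ℂ Y) (h : ∀ m ∈ M, ‖x‖ ≤ ‖x + m‖) :
    ∃ f : Y →L[ℂ] ℂ, ‖f‖ = 1 ∧ f x = ‖x‖ ∧ ∀ m ∈ M, f m = 0 := by
  set V := M.topologicalClosure with hV
  have hcl : IsClosed (V : Set Y) := Submodule.isClosed_topologicalClosure _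
  have h' : ∀ m ∈ V, ‖x‖ ≤ ‖x + m‖ := by
    intro m hm
    have h1 : IsClosed {m : Y | ‖x‖ ≤ ‖x + m‖} :=
      isClosed_le continuous_const (continuous_const.add continuous_id).norm
    exact closure_minimal (s := (M : Set Y)) (fun m hm => h m hm) h1 hm
  have hn : ‖(Submodule.Quotient.mk x : Y ⧸ V)‖ = ‖x‖ := by
    refine le_antisymm (Submodule.Quotient.norm_mk_le V x) ?_
    by_contra hcon
    push Not at hcon
    obtain ⟨m, hm, hm2⟩ := Submodule.Quotient.norm_mk_lt (Submodule.Quotient.mk x : Y ⧸ V)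
      (sub_pos.2 hcon)
    have h2 : m - x ∈ V := (Submodule.Quotient.eq V).1 hm
    have h3 := h' _ h2
    rw [add_sub_cancel] at h3
    linarith
  have hne : (Submodule.Quotient.mk x : Y ⧸ V) ≠ 0 := by
    intro h0
    rw [h0, norm_zero] at hn
    exact hx (norm_eq_zero.1 hn.symm)
  obtain ⟨g, hg1, hg2⟩ := exists_dual_vector ℂ (Submodule.Quotient.mk x : Y ⧸ V) (norm_ne_zero_iff.2 hne)
  refine ⟨g ∘L V.mkQL, ?_, ?_, ?_⟩
  · refine le_antisymm ?_ ?_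
    · refine ContinuousLinearMap.opNorm_le_bound _ zero_le_one fun z => ?_
      calc ‖(g ∘L V.mkQL) z‖ ≤ ‖g‖ * ‖(Submodule.Quotient.mk z : Y ⧸ V)‖ := g.le_opNorm _
        _ ≤ 1 * ‖z‖ := by rw [hg1]; gcongr; exact Submodule.Quotient.norm_mk_le V z
    · have h4 := (g ∘L V.mkQL).le_opNorm x
      have h5 : (g ∘L V.mkQL) x = ‖x‖ := by
        show g (Submodule.Quotient.mk x) = _
        rw [hg2, hn]
        rfl
      rw [h5] at h4
      have h6 : ‖((‖x‖ : ℝ) : ℂ)‖ = ‖x‖ := by simp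
      rw [h6] at h4
      have h7 : 0 < ‖x‖ := norm_pos_iff.2 hx
      nlinarith
  · show g (Submodule.Quotient.mk x) = _
    rw [hg2, hn]
    rfl
  · intro m hm
    show g (Submodule.Quotient.mk m) = 0
    rw [(Submodule.Quotient.mk_eq_zero V).2 (Submodule.le_topologicalClosure _ hm), map_zero]

/-- **Main proposition.** -/
theorem main {T : H →L[ℂ] H} (hTu : T ∈ unitary (H →L[ℂ] H))
    (hne : ∀ (μ : ℂ) (v : H), T v = μ • v → v = 0) [Nontrivial H]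
    {Y : Type*} [NormedAddCommGroup Y] [NormedSpace ℂ Y] (J : H ≃L[ℂ] Y)
    {ω : ℕ → ℕ → ℂ} (hω : ∀ k, Tendsto (ω k) atTop (𝓝 0)) :
    ∃ (y : H) (f : Y →L[ℂ] ℂ) (n : ℕ → ℕ), ‖J y‖ = 1 ∧ ‖f‖ = 1 ∧ f (J y) = 1 ∧
      ∀ k, f (J ((T ^ n k) y)) = ω k (n k) := by
  obtain ⟨x₀, hx₀⟩ : ∃ x₀ : H, ‖x₀‖ = 1 := exists_norm_eq H zero_le_one
  set JL : H →L[ℂ] Y := (J : H →L[ℂ] Y) with hJL
  set JS : Y →L[ℂ] H := (J.symm : Y →L[ℂ] H) with hJS
  set κ : ℝ := ‖JS‖ * ‖JL‖ with hκ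
  have hκ0 : 0 ≤ κ := by positivity
  have hC0 : (0 : ℝ) ≤ 2 * κ + 4 := by linarith
  obtain ⟨n, S, hSc, hS0, hS, hE, hF⟩ := exists_scheme hTu hne x₀ hC0 hω
  set A : ℕ → H →L[ℂ] H := fun k => T ^ n k - ω k (n k) • (1 : H →L[ℂ] H) with hA
  have hcomm : ∀ i j, Commute (A i) (A j) := by
    intro i j
    have h1 : Commute (T ^ n i) (T ^ n j) := (Commute.refl T).pow_pow _ _
    have h2 : ∀ (z : ℂ) (D : H →L[ℂ] H), Commute D (z • (1 : H →L[ℂ] H)) := fun z D =>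
      (Commute.one_right D).smul_right z
    exact (h1.sub_right (h2 _ _)).sub_left ((h2 _ _).symm)
  have hU : ∀ k z, ‖(T ^ n k) z‖ = ‖z‖ := fun k => unitary_norm (pow_mem hTu (n k))
  -- nonempty
  have hbase : ((0 : ℕ → ℂ), (StrongDual.toWeakDual (InnerProductSpace.toDual ℂ H x₀) : WeakDual ℂ H))
      ∈ good A x₀ S (2 * κ + 4) (κ + 3) := by
    have hX0 : ∀ K, X A x₀ (0 : ℕ → ℂ) K = x₀ := by
      intro K
      induction K with
      | zero => rfl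
      | succ k ih =>
        show NormedSpace.exp ((0 : ℂ) • A k) (X A x₀ (0 : ℕ → ℂ) k) = x₀
        rw [ih, zero_smul, exp_zero', one_apply_eq_self]
    refine ⟨fun k => by simpa using hC0, fun K => ?_, ?_, ?_, ?_⟩
    · simp only [hX0, hx₀]; linarith
    · have : ‖InnerProductSpace.toDual ℂ H x₀‖ ≤ κ + 3 := by
        rw [LinearIsometryEquiv.norm_map, hx₀]; linarith
      simpa using this
    · intro K v hv
      simp only [hX0]
      have : (StrongDual.toWeakDual (InnerProductSpace.toDual ℂ H x₀) : WeakDual ℂ H) v =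
        ⟪x₀, v⟫_ℂ := rfl
      rw [this, sub_self, norm_zero]
      positivity
    · intro v hv
      exact hv 0 x₀ (by rw [hS0]; rfl)
  obtain ⟨p, hp, hmin⟩ := LowerSemicontinuousOn.exists_isMinOn ⟨_, hbase⟩
    (good_compact (A := A) (x₀ := x₀) (S := S) (C := 2 * κ + 4) (κ + 3))
    ((vec_lsc JL).lowerSemicontinuousOn _)
  have hvec0 : vec ((0 : ℕ → ℂ),
      (StrongDual.toWeakDual (InnerProductSpace.toDual ℂ H x₀) : WeakDual ℂ H)) = x₀ := by
    refine ext_inner_right ℂ fun v => ?_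
    rw [inner_vec]
    rfl
  have hpκ : ‖vec p‖ ≤ κ := by
    have h1 : ‖JL (vec p)‖ ≤ ‖JL x₀‖ := by
      have := hmin hbase
      simp only [Set.mem_ofPred_eq] at this
      rwa [hvec0] at this
    have h2 : vec p = JS (JL (vec p)) := by simp [hJS, hJL]
    calc ‖vec p‖ = ‖JS (JL (vec p))‖ := by rw [← h2]
      _ ≤ ‖JS‖ * ‖JL (vec p)‖ := JS.le_opNorm _
      _ ≤ ‖JS‖ * ‖JL x₀‖ := by gcongr
      _ ≤ ‖JS‖ * (‖JL‖ * ‖x₀‖) := by gcongr; exact JL.le_opNorm _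
      _ = κ := by rw [hx₀, mul_one]
  obtain ⟨-, -, hy0⟩ := good_bounds hκ0 hC0 hS0 hx₀ hS hE hU hF hp hpκ
  set y := vec p with hy
  have hJy : JL y ≠ 0 := by
    simp only [hJL]
    exact (J.map_ne_zero_iff).2 hy0
  -- the subspace
  let M : Submodule ℂ Y := Submodule.span ℂ (Set.range fun k => JL (A k y))
  have hM : ∀ m ∈ M, ‖JL y‖ ≤ ‖JL y + m‖ := by
    intro m hm
    obtain ⟨a, ha⟩ := Finsupp.mem_span_range_iff_exists_finsupp.1 hm
    obtain ⟨K₀, hK₀⟩ : ∃ K₀, ∀ k, K₀ ≤ k → a k = 0 := by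
      obtain ⟨K₀, hK₀⟩ := a.support.bddAbove
      refine ⟨K₀ + 1, fun k hk => ?_⟩
      by_contra h0
      have := hK₀ (Finset.mem_coe.2 (Finsupp.mem_support_iff.2 h0))
      omega
    have hm2 : m = JL ((∑ k ∈ range K₀, a k • A k) y) := by
      rw [← ha, Finsupp.sum, _root_.sum_apply, map_sum]
      rw [sum_subset (s₂ := range K₀)]
      · refine sum_congr rfl fun k _ => ?_
        rw [smul_apply, map_smul]
      · intro k hk
        rw [mem_range]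
        by_contra h0
        exact (Finsupp.mem_support_iff.1 hk) (hK₀ k (not_lt.1 h0))
      · intro k _ hk
        rw [Finsupp.notMem_support_iff.1 hk, zero_smul]
    rw [hm2]
    refine norm_le_of_exp JL _ y ?_
    filter_upwards [good_perturb hκ0 hS0 hx₀ le_rfl hcomm hS hE hU hF hp hpκ (fun k => a k) K₀ hK₀]
      with s hs
    obtain ⟨p', hp', hvp⟩ := hs
    rw [← hvp]
    exact hmin hp'
  obtain ⟨f, hf1, hf2, hf3⟩ := exists_functional (JL y) hJy M hM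
  have hn0 : ‖JL y‖ ≠ 0 := norm_ne_zero_iff.2 hJy
  refine ⟨((‖JL y‖ : ℂ)⁻¹) • y, f, n, ?_, hf1, ?_, fun k => ?_⟩
  · show ‖JL (((‖JL y‖ : ℂ)⁻¹) • y)‖ = 1
    rw [map_smul, norm_smul, norm_inv, Complex.norm_real, norm_norm, inv_mul_cancel₀ hn0]
  · show f (JL (((‖JL y‖ : ℂ)⁻¹) • y)) = 1
    rw [map_smul, map_smul, hf2, smul_eq_mul, inv_mul_cancel₀ (by exact_mod_cast hn0)]
  · show f (JL ((T ^ n k) (((‖JL y‖ : ℂ)⁻¹) • y))) = _
    have h1 : f (JL (A k y)) = 0 := hf3 _ (Submodule.subset_span ⟨k, rfl⟩)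
    have h2 : f (JL ((T ^ n k) y)) = ω k (n k) * ‖JL y‖ := by
      have h3 : (T ^ n k) y = A k y + ω k (n k) • y := by
        simp only [hA, sub_apply, smul_apply, one_apply_eq_self]
        abel
      rw [h3, map_add, map_add, h1, zero_add, map_smul, map_smul, hf2, smul_eq_mul]
    rw [map_smul, map_smul, map_smul, h2, smul_eq_mul, mul_comm, mul_assoc,
      mul_inv_cancel₀ (by exact_mod_cast hn0), mul_one]

end Pool.Agent.Q100.WN
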