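import Mathlib

/-!
# Operators without dense numerical orbits: the Baire dichotomy and compactness of orbits
-/

set_option autoImplicit false

open Filter Topology Set

namespace Pool.Agent.Q100.WR

section Baire

variable {E F : Type*} [NormedAddCommGroup E] [NormedSpace ℂ E] [NormedAddCommGroup F]
  [NormedSpace ℂ F]

/-- A functional omitting a value on a ball. -/
theorem nv (Λ : E →L[ℂ] ℂ) (e₀ : E) {ε : ℝ} (hε : 0 < ε) (w : ℂ)
    (h : ∀ e, ‖e - e₀‖ < ε → Λ e ≠ w) : ε * ‖Λ‖ ≤ ‖Λ e₀ - w‖ := by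
  rw [mul_comm, ← le_div_iff₀ hε]
  refine ContinuousLinearMap.opNorm_le_bound _ (by positivity) fun x => ?_
  by_contra hcon
  push Not at hcon
  have hx : Λ x ≠ 0 := by
    intro h0
    rw [h0, norm_zero] at hcon
    have : 0 ≤ ‖Λ e₀ - w‖ / ε * ‖x‖ := by positivity
    linarith
  have hxn : 0 < ‖Λ x‖ := norm_pos_iff.2 hx
  refine h (e₀ + ((w - Λ e₀) / Λ x) • x) ?_ ?_
  · rw [add_sub_cancel_left, norm_smul, norm_div, norm_sub_rev, div_mul_eq_mul_div,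
      div_lt_iff₀ hxn]
    rw [div_mul_eq_mul_div, div_lt_iff₀ hε] at hcon
    linarith
  · rw [map_add, map_smul, smul_eq_mul, div_mul_cancel₀ _ hx]
    ring

/-- **Baire dichotomy** for a sequence of functionals. -/
theorem baire_one [CompleteSpace E] (Λ : ℕ → E →L[ℂ] ℂ)
    (h : ∀ e, ¬ Dense (range fun n => Λ n e)) :
    ∃ (e : E) (ε : ℝ) (w : ℂ), 0 < ε ∧ ∀ n, ε * ‖Λ n‖ ≤ ‖Λ n e - w‖ := by
  by_contra hcon
  push Not at hcon
  set U : ℕ × ℕ → Set E := fun p =>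
    {e | ∃ n, ‖Λ n e - TopologicalSpace.denseSeq ℂ p.1‖ < 1 / ((p.2 : ℝ) + 1)} with hU
  have hUo : ∀ p, IsOpen (U p) := by
    intro p
    have : U p = ⋃ n, {e | ‖Λ n e - TopologicalSpace.denseSeq ℂ p.1‖ < 1 / ((p.2 : ℝ) + 1)} := by
      ext e; simp [hU]
    rw [this]
    exact isOpen_iUnion fun n => isOpen_lt ((Λ n).continuous.sub continuous_const).norm
      continuous_const
  have hUd : ∀ p, Dense (U p) := by
    intro p
    rw [Metric.dense_iff]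
    intro e r hr
    obtain ⟨n, hn⟩ := hcon e r (TopologicalSpace.denseSeq ℂ p.1) hr
    by_contra hemp
    rw [Set.not_nonempty_iff_eq_empty] at hemp
    have := nv (Λ n) e hr (TopologicalSpace.denseSeq ℂ p.1) (fun e' he' heq => by
      have : e' ∈ Metric.ball e r ∩ U p := by
        refine ⟨by rwa [Metric.mem_ball, dist_eq_norm], n, ?_⟩
        rw [heq, sub_self, norm_zero]
        positivity
      rw [hemp] at this
      exact this)
    linarith
  obtain ⟨e, he⟩ := (dense_iInter_of_isOpen hUo hUd).nonempty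
  refine h e ?_
  rw [Metric.dense_iff]
  intro z r hr
  obtain ⟨k, hk⟩ := Metric.denseRange_iff.1 (TopologicalSpace.denseRange_denseSeq ℂ) z (r / 2)
    (by positivity)
  obtain ⟨m, hm⟩ := exists_nat_one_div_lt (half_pos hr)
  obtain ⟨n, hn⟩ := mem_iInter.1 he (k, m)
  refine ⟨Λ n e, ?_, ⟨n, rfl⟩⟩
  rw [Metric.mem_ball, dist_comm]
  calc dist z (Λ n e) ≤ dist z (TopologicalSpace.denseSeq ℂ k) +
        dist (TopologicalSpace.denseSeq ℂ k) (Λ n e) := dist_triangle _ _ _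
    _ < r / 2 + r / 2 := by
        refine add_lt_add hk ?_
        rw [dist_comm, dist_eq_norm]
        exact hn.trans hm
    _ = r := by ring

/-- **Baire dichotomy** on a closed subspace. -/
theorem baire_sub [CompleteSpace E] (P : Submodule ℂ E) (hP : IsClosed (P : Set E))
    (Λ : ℕ → E →L[ℂ] ℂ) (h : ∀ e ∈ P, ¬ Dense (range fun n => Λ n e)) :
    ∃ g ∈ P, ∃ (ε : ℝ) (w : ℂ), 0 < ε ∧ ∀ n, ∀ f ∈ P, ε * ‖Λ n f‖ ≤ ‖Λ n g - w‖ * ‖f‖ := by
  haveI : CompleteSpace P := hP.completeSpace_coe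
  obtain ⟨g, ε, w, hε, hg⟩ := baire_one (E := P) (fun n => (Λ n).comp P.subtypeL)
    (fun e => h e e.2)
  refine ⟨g, g.2, ε, w, hε, fun n f hf => ?_⟩
  have h1 := ((Λ n).comp P.subtypeL).le_opNorm ⟨f, hf⟩
  have h2 := hg n
  have h3 : ‖Λ n f‖ ≤ ‖(Λ n).comp P.subtypeL‖ * ‖f‖ := h1
  calc ε * ‖Λ n f‖ ≤ ε * (‖(Λ n).comp P.subtypeL‖ * ‖f‖) := by gcongr
    _ = (ε * ‖(Λ n).comp P.subtypeL‖) * ‖f‖ := by ring
    _ ≤ _ := by
        gcongr
        exact h2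

/-- **Baire dichotomy** for a sequence of bilinear forms. -/
theorem baire_two [CompleteSpace E] [CompleteSpace F] (b : ℕ → E →L[ℂ] F →L[ℂ] ℂ)
    (h : ∀ e f, ¬ Dense (range fun n => b n e f)) :
    ∃ (e₀ : E) (f₀ : F) (ε : ℝ) (w : ℂ), 0 < ε ∧
      ∀ n e f, ‖e - e₀‖ < ε → ‖f - f₀‖ < ε → b n e f ≠ w := by
  by_contra hcon
  push Not at hcon
  set U : ℕ × ℕ → Set (E × F) := fun p =>
    {e | ∃ n, ‖b n e.1 e.2 - TopologicalSpace.denseSeq ℂ p.1‖ < 1 / ((p.2 : ℝ) + 1)} with hU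
  have hUo : ∀ p, IsOpen (U p) := by
    intro p
    have : U p = ⋃ n, {e | ‖b n e.1 e.2 - TopologicalSpace.denseSeq ℂ p.1‖ <
        1 / ((p.2 : ℝ) + 1)} := by
      ext e; simp [hU]
    rw [this]
    exact isOpen_iUnion fun n => isOpen_lt ((((b n).continuous.comp continuous_fst).clm_apply
      continuous_snd).sub continuous_const).norm continuous_const
  have hUd : ∀ p, Dense (U p) := by
    intro p
    rw [Metric.dense_iff]
    intro e r hr
    obtain ⟨n, e', f', he, hf, hn⟩ := hcon e.1 e.2 r (TopologicalSpace.denseSeq ℂ p.1) hr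
    refine ⟨(e', f'), ?_, n, ?_⟩
    · rw [Metric.mem_ball, Prod.dist_eq, dist_eq_norm, dist_eq_norm]
      exact max_lt he hf
    · simp only
      rw [hn, sub_self, norm_zero]
      positivity
  obtain ⟨e, he⟩ := (dense_iInter_of_isOpen hUo hUd).nonempty
  refine h e.1 e.2 ?_
  rw [Metric.dense_iff]
  intro z r hr
  obtain ⟨k, hk⟩ := Metric.denseRange_iff.1 (TopologicalSpace.denseRange_denseSeq ℂ) z (r / 2)
    (by positivity)
  obtain ⟨m, hm⟩ := exists_nat_one_div_lt (half_pos hr)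
  obtain ⟨n, hn⟩ := mem_iInter.1 he (k, m)
  refine ⟨b n e.1 e.2, ?_, ⟨n, rfl⟩⟩
  rw [Metric.mem_ball, dist_comm]
  calc dist z (b n e.1 e.2) ≤ dist z (TopologicalSpace.denseSeq ℂ k) +
        dist (TopologicalSpace.denseSeq ℂ k) (b n e.1 e.2) := dist_triangle _ _ _
    _ < r / 2 + r / 2 := by
        refine add_lt_add hk ?_
        rw [dist_comm, dist_eq_norm]
        exact hn.trans hm
    _ = r := by ring

end Baire

variable {X : Type*} [NormedAddCommGroup X] [NormedSpace ℂ X]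

/-- No numerical orbit of `S` is dense. -/
def NoDense (S : X →L[ℂ] X) : Prop :=
  ∀ (x : X) (f : X →L[ℂ] ℂ), ¬ Dense (range fun n : ℕ => f ((S ^ n) x))

/-- The evaluation functional has the norm of the vector. -/
theorem norm_eval (v : X) : ‖(ContinuousLinearMap.apply ℂ ℂ v : (X →L[ℂ] ℂ) →L[ℂ] ℂ)‖ = ‖v‖ := by
  refine le_antisymm ?_ ?_
  · refine ContinuousLinearMap.opNorm_le_bound _ (norm_nonneg _) fun f => ?_
    simp only [ContinuousLinearMap.apply_apply]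
    rw [mul_comm]
    exact f.le_opNorm v
  · obtain ⟨f, hf1, hf2⟩ := exists_dual_vector'' ℂ v
    have h1 := (ContinuousLinearMap.apply ℂ ℂ v : (X →L[ℂ] ℂ) →L[ℂ] ℂ).le_opNorm f
    simp only [ContinuousLinearMap.apply_apply] at h1
    rw [hf2] at h1
    have h2 : ‖((‖v‖ : ℝ) : ℂ)‖ = ‖v‖ := by simp
    rw [← h2]
    refine h1.trans ?_
    exact mul_le_of_le_one_right (norm_nonneg _) hf1

/-- Some vector has the growth of the norms of the powers. -/
theorem exists_growth [CompleteSpace X] {S : X →L[ℂ] X} (hS : NoDense S) :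
    ∃ (y : X) (C₁ C₂ : ℝ), 0 < C₁ ∧ 0 < C₂ ∧ ∀ n, ‖S ^ n‖ ≤ C₁ * ‖(S ^ n) y‖ + C₂ := by
  let b : ℕ → X →L[ℂ] (X →L[ℂ] ℂ) →L[ℂ] ℂ := fun n =>
    (ContinuousLinearMap.apply ℂ ℂ : X →L[ℂ] (X →L[ℂ] ℂ) →L[ℂ] ℂ) ∘L (S ^ n)
  have hb : ∀ n y f, b n y f = f ((S ^ n) y) := fun n y f => rfl
  obtain ⟨y₀, g₀, ε, w, hε, h⟩ := baire_two b (fun y f => by simpa only [hb] using hS y f)
  have h1 : ∀ n y, ‖y - y₀‖ < ε → ε * ‖(S ^ n) y‖ ≤ ‖g₀ ((S ^ n) y) - w‖ := by
    intro n y hy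
    have := nv (b n y) g₀ hε w (fun f hf => h n y f hy hf)
    rw [hb] at this
    have h2 : ‖b n y‖ = ‖(S ^ n) y‖ := norm_eval ((S ^ n) y)
    rwa [h2] at this
  have h2 : ∀ n, ε * ‖g₀ ∘L (S ^ n)‖ ≤ ‖g₀ ((S ^ n) y₀) - w‖ := by
    intro n
    refine nv (g₀ ∘L (S ^ n)) y₀ hε w (fun y hy => ?_)
    exact h n y g₀ hy (by simpa using hε)
  have h3 : ∀ n y, ‖y - y₀‖ < ε → ε * ‖(S ^ n) y‖ ≤ 2 * ‖g₀‖ * ‖(S ^ n) y₀‖ + 2 * ‖w‖ := by
    intro n y hy
    have e1 := h1 n y hy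
    have e2 := h2 n
    have e3 : ‖g₀ ((S ^ n) y) - w‖ ≤ ‖g₀ ((S ^ n) y₀) - w‖ + ‖(g₀ ∘L (S ^ n)) (y - y₀)‖ := by
      have : g₀ ((S ^ n) y) - w = (g₀ ((S ^ n) y₀) - w) + (g₀ ∘L (S ^ n)) (y - y₀) := by
        simp [map_sub]
      rw [this]
      exact norm_add_le _ _
    have e4 : ‖(g₀ ∘L (S ^ n)) (y - y₀)‖ ≤ ‖g₀ ((S ^ n) y₀) - w‖ := by
      refine ((g₀ ∘L (S ^ n)).le_opNorm _).trans ?_
      calc ‖g₀ ∘L (S ^ n)‖ * ‖y - y₀‖ ≤ ‖g₀ ∘L (S ^ n)‖ * ε := by gcongr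
        _ ≤ _ := by linarith
    have e5 : ‖g₀ ((S ^ n) y₀) - w‖ ≤ ‖g₀‖ * ‖(S ^ n) y₀‖ + ‖w‖ :=
      (norm_sub_le _ _).trans (by gcongr; exact g₀.le_opNorm _)
    linarith
  refine ⟨y₀, 8 * ‖g₀‖ / ε ^ 2 + 1, 8 * ‖w‖ / ε ^ 2 + 1, by positivity, by positivity, fun n => ?_⟩
  set a := ‖(S ^ n) y₀‖ with ha
  have ha0 : 0 ≤ a := norm_nonneg _
  set K := 2 * ‖g₀‖ * a + 2 * ‖w‖ with hK
  have hK0 : 0 ≤ K := by positivity
  have h4 : ‖S ^ n‖ ≤ 4 * K / ε ^ 2 := by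
    refine ContinuousLinearMap.opNorm_le_of_shell (c := (2 : ℂ)) hε (by positivity) (by simp)
      fun x hx1 hx2 => ?_
    have e1 := h3 n (y₀ + x) (by simpa using hx2)
    have e2 := h3 n y₀ (by simpa using hε)
    have e3 : ‖(S ^ n) x‖ ≤ ‖(S ^ n) (y₀ + x)‖ + ‖(S ^ n) y₀‖ := by
      have : (S ^ n) x = (S ^ n) (y₀ + x) - (S ^ n) y₀ := by rw [map_add]; abel
      rw [this]
      exact norm_sub_le _ _
    have e4 : ‖(S ^ n) x‖ ≤ 2 * K / ε := by
      rw [le_div_iff₀ hε]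
      nlinarith
    have e5 : ε / 2 ≤ ‖x‖ := by simpa using hx1
    calc ‖(S ^ n) x‖ ≤ 2 * K / ε := e4
      _ = 4 * K / ε ^ 2 * (ε / 2) := by field_simp; ring
      _ ≤ 4 * K / ε ^ 2 * ‖x‖ := by gcongr
  calc ‖S ^ n‖ ≤ 4 * K / ε ^ 2 := h4
    _ = (8 * ‖g₀‖ / ε ^ 2) * a + 8 * ‖w‖ / ε ^ 2 := by rw [hK]; ring
    _ ≤ (8 * ‖g₀‖ / ε ^ 2 + 1) * a + (8 * ‖w‖ / ε ^ 2 + 1) := by nlinarith

/-- A bounded sequence of complex numbers converges along an ultrafilter. -/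
theorem exists_lim_of_bounded (W : Ultrafilter ℕ) {a : ℕ → ℂ} {C : ℝ}
    (h : ∀ᶠ n in (W : Filter ℕ), ‖a n‖ ≤ C) : ∃ z : ℂ, ‖z‖ ≤ C ∧ Tendsto a W (𝓝 z) := by
  have hc : IsCompact (Metric.closedBall (0 : ℂ) C) := isCompact_closedBall _ _
  obtain ⟨z, hz1, hz⟩ := hc.ultrafilter_le_nhds (W.map a) (by
    rw [le_principal_iff, Ultrafilter.coe_map, Filter.mem_map]
    filter_upwards [h] with n hn
    simpa using hn)
  exact ⟨z, by simpa using hz1, hz⟩

theorem exists_lim_of_bounded_real (W : Ultrafilter ℕ) {a : ℕ → ℝ} {C : ℝ}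
    (h : ∀ᶠ n in (W : Filter ℕ), |a n| ≤ C) : ∃ z : ℝ, |z| ≤ C ∧ Tendsto a W (𝓝 z) := by
  have hc : IsCompact (Metric.closedBall (0 : ℝ) C) := isCompact_closedBall _ _
  obtain ⟨z, hz1, hz⟩ := hc.ultrafilter_le_nhds (W.map a) (by
    rw [le_principal_iff, Ultrafilter.coe_map, Filter.mem_map]
    filter_upwards [h] with n hn
    simpa using hn)
  exact ⟨z, by simpa using hz1, hz⟩

/-- **Compactness of normalised orbits.** -/
theorem orbit_compact [CompleteSpace X] {S : X →L[ℂ] X} (hS : NoDense S) (x : X)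
    (W : Ultrafilter ℕ) (hW : Tendsto (fun n => ‖(S ^ n) x‖) W atTop) :
    ∃ z : X, Tendsto (fun n => (‖(S ^ n) x‖⁻¹ : ℂ) • (S ^ n) x) W (𝓝 z) := by
  set u : ℕ → X := fun n => (‖(S ^ n) x‖⁻¹ : ℂ) • (S ^ n) x with hu
  have hev1 : ∀ᶠ n in (W : Filter ℕ), 1 ≤ ‖(S ^ n) x‖ := hW.eventually_ge_atTop 1
  have hinv : Tendsto (fun n => ‖(S ^ n) x‖⁻¹) W (𝓝 0) := tendsto_inv_atTop_zero.comp hW
  have hun : ∀ n, ‖u n‖ ≤ 1 := by
    intro n
    rw [hu]
    simp only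
    rw [norm_smul, norm_inv, Complex.norm_real, norm_norm]
    exact inv_mul_le_one
  have hub : ∀ (f : X →L[ℂ] ℂ) n, ‖f (u n)‖ ≤ ‖f‖ := fun f n =>
    (f.le_opNorm _).trans (mul_le_of_le_one_right (norm_nonneg _) (hun n))
  have hL : ∀ f : X →L[ℂ] ℂ, ∃ z : ℂ, ‖z‖ ≤ ‖f‖ ∧ Tendsto (fun n => f (u n)) W (𝓝 z) := fun f =>
    exists_lim_of_bounded W (Eventually.of_forall (hub f))
  choose L hL1 hL2 using hL
  -- a functional with nonzero limit
  obtain ⟨h, ε, w, hε, hh⟩ := baire_one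
    (fun n => (ContinuousLinearMap.apply ℂ ℂ ((S ^ n) x) : (X →L[ℂ] ℂ) →L[ℂ] ℂ))
    (fun f => hS x f)
  simp only [norm_eval, ContinuousLinearMap.apply_apply] at hh
  have ha : ε ≤ ‖L h‖ := by
    have h1 : Tendsto (fun n => ‖h (u n) - (‖(S ^ n) x‖⁻¹ : ℂ) * w‖) W (𝓝 ‖L h - 0 * w‖) := by
      refine ((hL2 h).sub (Tendsto.mul_const w ?_)).norm
      have := (Complex.continuous_ofReal.tendsto _).comp hinv
      simpa [Function.comp_def] using this
    rw [zero_mul, sub_zero] at h1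
    refine ge_of_tendsto h1 ?_
    filter_upwards [hev1] with n hn
    have h2 := hh n
    have h3 : h (u n) - (‖(S ^ n) x‖⁻¹ : ℂ) * w = (‖(S ^ n) x‖⁻¹ : ℂ) * (h ((S ^ n) x) - w) := by
      simp only [hu, map_smul, smul_eq_mul]; ring
    rw [h3, norm_mul, norm_inv, Complex.norm_real, norm_norm, ← div_eq_inv_mul,
      le_div_iff₀ (by linarith)]
    exact h2
  have ha0 : L h ≠ 0 := by
    intro h0
    rw [h0, norm_zero] at ha
    linarith
  -- the functionals with limit zero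
  let F : Submodule ℂ (X →L[ℂ] ℂ) :=
    { carrier := {f | Tendsto (fun n => f (u n)) W (𝓝 0)}
      add_mem' := by
        intro f g hf hg
        have := Tendsto.add (f := fun n => f (u n)) (g := fun n => g (u n)) hf hg
        simpa using this
      zero_mem' := by simp
      smul_mem' := by
        intro c f hf
        have := Tendsto.const_mul (f := fun n => f (u n)) c hf
        simpa using this }
  have hFmem : ∀ f : X →L[ℂ] ℂ, f ∈ F ↔ L f = 0 := by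
    intro f
    constructor
    · intro hf
      exact tendsto_nhds_unique (hL2 f) hf
    · intro hf
      have := hL2 f
      rw [hf] at this
      exact this
  have hFc : IsClosed (F : Set (X →L[ℂ] ℂ)) := by
    have hLd : ∀ f g, ‖L f - L g‖ ≤ ‖f - g‖ := by
      intro f g
      have h1 : Tendsto (fun n => ‖(f - g) (u n)‖) W (𝓝 ‖L f - L g‖) := by
        have := ((hL2 f).sub (hL2 g)).norm
        simpa using this
      exact le_of_tendsto h1 (Eventually.of_forall (hub (f - g)))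
    have hLc : Continuous L := by
      rw [Metric.continuous_iff]
      intro g δ hδ
      refine ⟨δ, hδ, fun f hf => ?_⟩
      rw [dist_eq_norm] at hf ⊢
      exact (hLd f g).trans_lt hf
    have : (F : Set (X →L[ℂ] ℂ)) = L ⁻¹' {0} := by
      ext f
      exact hFmem f
    rw [this]
    exact isClosed_singleton.preimage hLc
  obtain ⟨g, hgF, ε', w', hε', hg⟩ := baire_sub F hFc
    (fun n => (ContinuousLinearMap.apply ℂ ℂ ((S ^ n) x) : (X →L[ℂ] ℂ) →L[ℂ] ℂ))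
    (fun f _ => hS x f)
  simp only [ContinuousLinearMap.apply_apply] at hg
  set η : ℕ → ℝ := fun n => ε'⁻¹ * ‖g (u n) - (‖(S ^ n) x‖⁻¹ : ℂ) * w'‖ with hη
  have hη0 : ∀ n, 0 ≤ η n := fun n => by positivity
  have hηlim : Tendsto η W (𝓝 0) := by
    have h1 : Tendsto (fun n => ε'⁻¹ * ‖g (u n) - (‖(S ^ n) x‖⁻¹ : ℂ) * w'‖) W
        (𝓝 (ε'⁻¹ * ‖(0 : ℂ) - 0 * w'‖)) := by
      refine Tendsto.const_mul _ (Tendsto.norm (Tendsto.sub hgF (Tendsto.mul_const w' ?_)))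
      have := (Complex.continuous_ofReal.tendsto _).comp hinv
      simpa [Function.comp_def] using this
    rwa [zero_mul, sub_zero, norm_zero, mul_zero] at h1
  have hFb : ∀ f ∈ F, ∀ n, ‖f (u n)‖ ≤ η n * ‖f‖ := by
    intro f hf n
    have h1 := hg n f hf
    have h2 : f (u n) = (‖(S ^ n) x‖⁻¹ : ℂ) * f ((S ^ n) x) := by
      simp only [hu, map_smul, smul_eq_mul]
    have h3 : g (u n) - (‖(S ^ n) x‖⁻¹ : ℂ) * w' =
        (‖(S ^ n) x‖⁻¹ : ℂ) * (g ((S ^ n) x) - w') := by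
      simp only [hu, map_smul, smul_eq_mul]; ring
    have h4 : η n = ε'⁻¹ * (‖(S ^ n) x‖⁻¹ * ‖g ((S ^ n) x) - w'‖) := by
      simp only [hη]
      rw [h3, norm_mul, norm_inv, Complex.norm_real, norm_norm]
    rw [h2, h4, norm_mul, norm_inv, Complex.norm_real, norm_norm]
    have h5 : ‖f ((S ^ n) x)‖ ≤ ε'⁻¹ * (‖g ((S ^ n) x) - w'‖ * ‖f‖) := by
      rw [inv_mul_eq_div, le_div_iff₀ hε']
      linarith
    calc ‖(S ^ n) x‖⁻¹ * ‖f ((S ^ n) x)‖
        ≤ ‖(S ^ n) x‖⁻¹ * (ε'⁻¹ * (‖g ((S ^ n) x) - w'‖ * ‖f‖)) := by gcongr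
      _ = _ := by ring
  -- Cauchy
  set c : ℝ := ‖h‖ / ‖L h‖ with hc
  have hc0 : 0 ≤ c := by positivity
  have hLh0 : 0 < ‖L h‖ := norm_pos_iff.2 ha0
  have hdiff : ∀ n m, ‖u n - u m‖ ≤ ‖h (u n) - h (u m)‖ / ‖L h‖ + (1 + c) * (η n + η m) := by
    intro n m
    obtain ⟨f, hf1, hf2⟩ := exists_dual_vector'' ℂ (u n - u m)
    have h0 : ‖u n - u m‖ = ‖f (u n - u m)‖ := by
      rw [hf2]; simp
    set f' : X →L[ℂ] ℂ := f - (L f / L h) • h with hf'
    have hf'F : f' ∈ F := by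
      show Tendsto (fun n => f' (u n)) W (𝓝 0)
      have h1 : Tendsto (fun n => f (u n) - (L f / L h) * h (u n)) W
          (𝓝 (L f - (L f / L h) * L h)) := (hL2 f).sub ((hL2 h).const_mul _)
      rw [div_mul_cancel₀ _ ha0, sub_self] at h1
      exact h1
    have hLf : ‖L f / L h‖ ≤ 1 / ‖L h‖ := by
      rw [norm_div]
      gcongr
      exact (hL1 f).trans hf1
    have hf'n : ‖f'‖ ≤ 1 + c := by
      calc ‖f'‖ ≤ ‖f‖ + ‖(L f / L h) • h‖ := norm_sub_le _ _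
        _ ≤ 1 + 1 / ‖L h‖ * ‖h‖ := by
            rw [norm_smul]
            gcongr
        _ = 1 + c := by rw [hc]; ring
    have h2 : f (u n - u m) = (L f / L h) * (h (u n) - h (u m)) + (f' (u n) - f' (u m)) := by
      simp only [hf', map_sub, sub_apply, smul_apply, smul_eq_mul]
      ring
    rw [h0, h2]
    calc _ ≤ ‖(L f / L h) * (h (u n) - h (u m))‖ + ‖f' (u n) - f' (u m)‖ := norm_add_le _ _
      _ ≤ 1 / ‖L h‖ * ‖h (u n) - h (u m)‖ + (‖f' (u n)‖ + ‖f' (u m)‖) := by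
          rw [norm_mul]
          gcongr
          exact norm_sub_le _ _
      _ ≤ 1 / ‖L h‖ * ‖h (u n) - h (u m)‖ + (η n * (1 + c) + η m * (1 + c)) := by
          have e1 := hFb f' hf'F n
          have e2 := hFb f' hf'F m
          have e3 : η n * ‖f'‖ ≤ η n * (1 + c) := by gcongr
          have e4 : η m * ‖f'‖ ≤ η m * (1 + c) := by gcongr
          linarith
      _ = _ := by ring
  have hcau : Cauchy (Filter.map u W) := by
    rw [Metric.cauchy_iff]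
    refine ⟨inferInstance, fun δ hδ => ?_⟩
    have hhl := hL2 h
    have s1 : ∀ᶠ n in (W : Filter ℕ), ‖h (u n) - L h‖ < δ / 8 * ‖L h‖ := by
      have := (Metric.tendsto_nhds.1 hhl) (δ / 8 * ‖L h‖) (by positivity)
      simpa [dist_eq_norm] using this
    have s2 : ∀ᶠ n in (W : Filter ℕ), η n < δ / (8 * (1 + c)) :=
      hηlim.eventually_lt_const (by positivity)
    refine ⟨u '' {n | ‖h (u n) - L h‖ < δ / 8 * ‖L h‖ ∧ η n < δ / (8 * (1 + c))}, ?_, ?_⟩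
    · exact image_mem_map (s1.and s2)
    · rintro _ ⟨n, ⟨hn1, hn2⟩, rfl⟩ _ ⟨m, ⟨hm1, hm2⟩, rfl⟩
      rw [dist_eq_norm]
      refine (hdiff n m).trans_lt ?_
      have e1 : ‖h (u n) - h (u m)‖ ≤ δ / 8 * ‖L h‖ + δ / 8 * ‖L h‖ := by
        have : h (u n) - h (u m) = (h (u n) - L h) - (h (u m) - L h) := by ring
        rw [this]
        exact (norm_sub_le _ _).trans (by linarith)
      have e2 : ‖h (u n) - h (u m)‖ / ‖L h‖ ≤ δ / 4 := by
        rw [div_le_iff₀ hLh0]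
        linarith
      have e3 : (1 + c) * (η n + η m) ≤ (1 + c) * (δ / (8 * (1 + c)) + δ / (8 * (1 + c))) := by
        gcongr
      have e4 : (1 + c) * (δ / (8 * (1 + c)) + δ / (8 * (1 + c))) = δ / 4 := by
        field_simp
        ring
      linarith
  obtain ⟨z, hz⟩ := CompleteSpace.complete hcau
  exact ⟨z, hz⟩

/-- Normalised by `‖Sⁿ‖`, all orbits converge along ultrafilters on which `‖Sⁿ‖ → ∞`. -/
theorem orbit_compact' [CompleteSpace X] {S : X →L[ℂ] X} (hS : NoDense S) (x : X)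
    (W : Ultrafilter ℕ) (hW : Tendsto (fun n => ‖S ^ n‖) W atTop) :
    ∃ z : X, Tendsto (fun n => (‖S ^ n‖⁻¹ : ℂ) • (S ^ n) x) W (𝓝 z) := by
  set r : ℕ → ℝ := fun n => ‖S ^ n‖⁻¹ * ‖(S ^ n) x‖ with hr
  have hrb : ∀ n, |r n| ≤ ‖x‖ := by
    intro n
    rw [abs_of_nonneg (by positivity), hr]
    simp only
    rcases eq_or_ne (‖S ^ n‖) 0 with h | h
    · rw [h]; simp
    · rw [inv_mul_le_iff₀ (by positivity)]
      exact (S ^ n).le_opNorm x
  obtain ⟨b, hb1, hb⟩ := exists_lim_of_bounded_real W (Eventually.of_forall hrb)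
  have hb0 : 0 ≤ b := ge_of_tendsto hb (Eventually.of_forall fun n => by positivity)
  rcases eq_or_lt_of_le hb0 with h0 | h0
  · refine ⟨0, ?_⟩
    rw [tendsto_zero_iff_norm_tendsto_zero]
    rw [← h0] at hb
    refine hb.congr fun n => ?_
    rw [norm_smul, norm_inv, Complex.norm_real, norm_norm]
  · have h1 : Tendsto (fun n => ‖(S ^ n) x‖) W atTop := by
      have h2 : Tendsto (fun n => ‖S ^ n‖ * r n) W atTop := hW.atTop_mul_pos h0 hb
      refine h2.congr' ?_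
      filter_upwards [hW.eventually_ge_atTop 1] with n hn
      have : ‖S ^ n‖ ≠ 0 := by linarith
      rw [hr]
      field_simp
    obtain ⟨z, hz⟩ := orbit_compact hS x W h1
    refine ⟨(b : ℂ) • z, ?_⟩
    have h3 : Tendsto (fun n => ((r n : ℂ)) • ((‖(S ^ n) x‖⁻¹ : ℂ) • (S ^ n) x)) W
        (𝓝 ((b : ℂ) • z)) :=
      ((Complex.continuous_ofReal.tendsto _).comp hb).smul hz
    refine h3.congr' ?_
    filter_upwards [h1.eventually_ge_atTop 1] with n hn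
    have : (‖(S ^ n) x‖ : ℂ) ≠ 0 := by
      have : ‖(S ^ n) x‖ ≠ 0 := by linarith
      exact_mod_cast this
    rw [smul_smul]
    congr 1
    simp only [hr]
    rw [Complex.ofReal_mul, Complex.ofReal_inv, mul_assoc, mul_inv_cancel₀ this, mul_one]

end Pool.Agent.Q100.WR
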