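import Mathlib

/-!
# Peaks of submultiplicative sequences
-/

set_option autoImplicit false

open Filter Topology Set

namespace Pool.Agent.Q100.WR

theorem bound_of_le {N : ℕ → ℝ} (hN0 : ∀ n, 0 ≤ N n) (hsub : ∀ m n, N (m + n) ≤ N m * N n)
    {m : ℕ} (hm : m ≠ 0) {θ : ℝ} (hθ : 1 ≤ θ) (h : N m ≤ θ ^ m) : ∃ C, ∀ n, N n ≤ C * θ ^ n := by
  have hθ0 : 0 ≤ θ := by linarith
  have h1 : ∀ q r, N (m * q + r) ≤ θ ^ (m * q) * N r := by
    intro q
    induction q with
    | zero => intro r; simp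
    | succ q ih =>
      intro r
      have : m * (q + 1) + r = m + (m * q + r) := by ring
      rw [this]
      calc N (m + (m * q + r)) ≤ N m * N (m * q + r) := hsub _ _
        _ ≤ θ ^ m * (θ ^ (m * q) * N r) := by
            gcongr
            · exact hN0 _
            · exact ih r
        _ = θ ^ (m * (q + 1)) * N r := by ring
  refine ⟨∑ r ∈ Finset.range m, N r, fun n => ?_⟩
  have h2 := h1 (n / m) (n % m)
  rw [Nat.div_add_mod] at h2
  have h3 : N (n % m) ≤ ∑ r ∈ Finset.range m, N r :=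
    Finset.single_le_sum (f := N) (fun i _ => hN0 i)
      (Finset.mem_range.2 (Nat.mod_lt _ (Nat.pos_of_ne_zero hm)))
  have h4 : θ ^ (m * (n / m)) ≤ θ ^ n := pow_le_pow_right₀ hθ (Nat.mul_div_le n m)
  have h5 : 0 ≤ ∑ r ∈ Finset.range m, N r := Finset.sum_nonneg fun i _ => hN0 i
  calc N n ≤ θ ^ (m * (n / m)) * N (n % m) := h2
    _ ≤ θ ^ n * ∑ r ∈ Finset.range m, N r := by
        gcongr
        exact hN0 _
    _ = _ := mul_comm _ _

theorem one_le_of_unb {N : ℕ → ℝ} (hN0 : ∀ n, 0 ≤ N n) (hsub : ∀ m n, N (m + n) ≤ N m * N n)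
    (hunb : ∀ C, ∃ n, C < N n) (n : ℕ) : 1 ≤ N n := by
  rcases Nat.eq_zero_or_pos n with rfl | hn
  · obtain ⟨m, hm⟩ := hunb 0
    have h1 := hsub 0 m
    rw [zero_add] at h1
    by_contra hcon
    push Not at hcon
    nlinarith
  · by_contra hcon
    push Not at hcon
    obtain ⟨C, hC⟩ := bound_of_le hN0 hsub hn.ne' le_rfl (by simpa using hcon.le)
    obtain ⟨k, hk⟩ := hunb C
    have := hC k
    rw [one_pow, mul_one] at this
    linarith

/-- **Peaks** of an unbounded submultiplicative sequence. -/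
theorem peaks {N : ℕ → ℝ} (hN0 : ∀ n, 0 ≤ N n) (hsub : ∀ m n, N (m + n) ≤ N m * N n)
    (hunb : ∀ C, ∃ n, C < N n) :
    ∃ (ρ M : ℝ) (s : ℕ → ℕ), 1 ≤ ρ ∧ 1 ≤ M ∧ Tendsto (fun K => N (s K)) atTop atTop ∧
      (∀ j, ∀ᶠ K in atTop, N (s K + j) ≤ M * ρ ^ j * N (s K)) ∧
      (∀ j, ∀ᶠ K in atTop, ρ ^ j * N (s K - j) ≤ M * N (s K)) ∧
      (∀ θ, ρ < θ → ∃ C, ∀ n, N n ≤ C * θ ^ n) := by
  have hone := one_le_of_unb hN0 hsub hunb
  set Θ : Set ℝ := {θ | 1 ≤ θ ∧ ∃ C, ∀ n, N n ≤ C * θ ^ n} with hΘ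
  have hΘne : Θ.Nonempty :=
    ⟨N 1, hone 1, bound_of_le hN0 hsub one_ne_zero (hone 1) (by simp)⟩
  have hΘb : BddBelow Θ := ⟨1, fun θ h => h.1⟩
  set ρ := sInf Θ with hρ
  have hρ1 : 1 ≤ ρ := le_csInf hΘne fun θ h => h.1
  have hρ0 : 0 < ρ := by linarith
  -- decay above ρ
  have habove : ∀ θ, ρ < θ → Tendsto (fun n => N n / θ ^ n) atTop (𝓝 0) := by
    intro θ hθ
    obtain ⟨θ', hθ'1, hθ'2⟩ := exists_lt_of_csInf_lt hΘne hθ
    obtain ⟨h1, C, hC⟩ := hθ'1
    have hθ0 : 0 < θ := by linarith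
    have hlim : Tendsto (fun n : ℕ => C * (θ' / θ) ^ n) atTop (𝓝 (C * 0)) :=
      (tendsto_pow_atTop_nhds_zero_of_lt_one (by positivity)
        ((div_lt_one hθ0).2 hθ'2)).const_mul C
    rw [mul_zero] at hlim
    refine squeeze_zero (fun n => div_nonneg (hN0 n) (by positivity)) (fun n => ?_) hlim
    rw [div_pow, mul_div_assoc']
    gcongr
    exact hC n
  have hgr : ∀ θ, ρ < θ → ∃ C, ∀ n, N n ≤ C * θ ^ n := by
    intro θ hθ
    obtain ⟨θ', ⟨h1, C, hC⟩, hθ'2⟩ := exists_lt_of_csInf_lt hΘne hθ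
    have hC0 : 0 ≤ C := by
      have := hC 0
      rw [pow_zero, mul_one] at this
      exact (hN0 0).trans this
    refine ⟨C, fun n => (hC n).trans ?_⟩
    gcongr
  -- lower bound
  have hlow : ∀ n, ρ ^ n ≤ N n := by
    intro n
    rcases Nat.eq_zero_or_pos n with rfl | hn
    · simpa using hone 0
    · by_contra hcon
      push Not at hcon
      set θ := (N n) ^ ((n : ℝ)⁻¹) with hθ
      have hθn : θ ^ n = N n := Real.rpow_inv_natCast_pow (hN0 n) hn.ne'
      have hθ0 : 0 ≤ θ := Real.rpow_nonneg (hN0 n) _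
      have hθ1 : 1 ≤ θ := Real.one_le_rpow (hone n) (by positivity)
      have hθρ : θ < ρ := by
        refine lt_of_pow_lt_pow_left₀ n hρ0.le ?_
        rw [hθn]; exact hcon
      have : θ ∈ Θ := ⟨hθ1, bound_of_le hN0 hsub hn.ne' hθ1 hθn.ge⟩
      have := csInf_le hΘb this
      linarith
  by_cases hb : ∃ C, ∀ n, N n ≤ C * ρ ^ n
  · -- case B
    obtain ⟨C, hC⟩ := hb
    have hC1 : 1 ≤ C := by
      have := hC 0
      rw [pow_zero, mul_one] at this
      exact (hone 0).trans this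
    have hρ2 : 1 < ρ := by
      rcases lt_or_eq_of_le hρ1 with h | h
      · exact h
      · exfalso
        obtain ⟨n, hn⟩ := hunb C
        have := hC n
        rw [← h, one_pow, mul_one] at this
        linarith
    refine ⟨ρ, C, id, hρ1, hC1, ?_, fun j => Eventually.of_forall fun n => ?_, fun j => ?_, hgr⟩
    · exact tendsto_atTop_mono hlow (tendsto_pow_atTop_atTop_of_one_lt hρ2)
    · simp only [id]
      calc N (n + j) ≤ C * ρ ^ (n + j) := hC _
        _ = C * ρ ^ j * ρ ^ n := by ring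
        _ ≤ C * ρ ^ j * N n := by
            gcongr
            exact hlow n
    · filter_upwards [eventually_ge_atTop j] with n hn
      simp only [id]
      calc ρ ^ j * N (n - j) ≤ ρ ^ j * (C * ρ ^ (n - j)) := by
            gcongr
            exact hC _
        _ = C * ρ ^ (j + (n - j)) := by ring
        _ = C * ρ ^ n := by rw [Nat.add_sub_cancel' hn]
        _ ≤ C * N n := by
            gcongr
            exact hlow n
  · -- case A
    push Not at hb
    have key : ∀ K : ℕ, ∃ (n : ℕ) (θ : ℝ), ρ < θ ∧ θ ≤ ρ * (1 + 1 / ((K : ℝ) + 1)) ∧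
        (K : ℝ) ≤ N n ∧ ∀ k, N k / θ ^ k ≤ N n / θ ^ n := by
      intro K
      obtain ⟨n₀, hn₀⟩ := hb (2 * (K + 1))
      -- choose θ
      have hcont : Tendsto (fun δ : ℝ => (ρ * (1 + δ)) ^ n₀) (𝓝[>] 0) (𝓝 (ρ ^ n₀)) := by
        have h1 : Continuous fun δ : ℝ => (ρ * (1 + δ)) ^ n₀ := by fun_prop
        have h2 := h1.tendsto 0
        rw [add_zero, mul_one] at h2
        exact h2.mono_left nhdsWithin_le_nhds
      have hlt : ρ ^ n₀ < 2 * ρ ^ n₀ := by
        have : 0 < ρ ^ n₀ := by positivity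
        linarith
      have hev : ∀ᶠ δ : ℝ in 𝓝[>] 0, (ρ * (1 + δ)) ^ n₀ < 2 * ρ ^ n₀ :=
        hcont.eventually_lt_const hlt
      have hev2 : ∀ᶠ δ : ℝ in 𝓝[>] 0, δ ≤ 1 / ((K : ℝ) + 1) := by
        have : (0 : ℝ) < 1 / ((K : ℝ) + 1) := by positivity
        have h3 : ∀ᶠ δ : ℝ in 𝓝 0, δ ≤ 1 / ((K : ℝ) + 1) := eventually_le_nhds this
        exact h3.filter_mono nhdsWithin_le_nhds
      have hev3 : ∀ᶠ δ : ℝ in 𝓝[>] 0, 0 < δ := eventually_mem_nhdsWithin
      obtain ⟨δ, hδ1, hδ2, hδ3⟩ := (hev.and (hev2.and hev3)).exists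
      set θ := ρ * (1 + δ) with hθ
      have hρθ : ρ < θ := by rw [hθ]; nlinarith
      have hθ0 : 0 < θ := by linarith
      -- argmax
      have hlim := habove θ hρθ
      have hex : ∃ n, ∀ k, N k / θ ^ k ≤ N n / θ ^ n := by
        have hpos : 0 < N 0 / θ ^ 0 := by
          rw [pow_zero, div_one]; linarith [hone 0]
        have hev : ∀ᶠ k in atTop, N k / θ ^ k < N 0 / θ ^ 0 := hlim.eventually_lt_const hpos
        obtain ⟨B, hB⟩ := eventually_atTop.1 hev
        obtain ⟨n, hn1, hn2⟩ := Finset.exists_max_image (Finset.range (B + 1))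
          (fun k => N k / θ ^ k) ⟨0, by simp⟩
        refine ⟨n, fun k => ?_⟩
        by_cases hk : k < B + 1
        · exact hn2 k (Finset.mem_range.2 hk)
        · exact (hB k (by omega)).le.trans (hn2 0 (by simp))
      obtain ⟨n, hn⟩ := hex
      refine ⟨n, θ, hρθ, by rw [hθ]; gcongr, ?_, hn⟩
      have h1 := hn n₀
      have h2 : (K : ℝ) + 1 ≤ N n₀ / θ ^ n₀ := by
        rw [le_div_iff₀ (by positivity)]
        have : ((K : ℝ) + 1) * θ ^ n₀ ≤ ((K : ℝ) + 1) * (2 * ρ ^ n₀) := by gcongr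
        linarith
      have h3 : N n / θ ^ n ≤ N n := by
        refine div_le_self (hN0 n) (one_le_pow₀ (by linarith))
      linarith
    choose s θ h1 h2 h3 h4 using key
    have hθlim : Tendsto θ atTop (𝓝 ρ) := by
      have hl : Tendsto (fun K : ℕ => ρ * (1 + 1 / ((K : ℝ) + 1))) atTop (𝓝 (ρ * (1 + 0))) :=
        (tendsto_one_div_add_atTop_nhds_zero_nat.const_add 1).const_mul ρ
      rw [add_zero, mul_one] at hl
      exact tendsto_of_tendsto_of_tendsto_of_le_of_le tendsto_const_nhds hl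
        (fun K => (h1 K).le) h2
    refine ⟨ρ, 2, s, hρ1, by norm_num, ?_, fun j => ?_, fun j => ?_, hgr⟩
    · exact tendsto_atTop_mono h3 tendsto_natCast_atTop_atTop
    · have hl : Tendsto (fun K => θ K ^ j) atTop (𝓝 (ρ ^ j)) := hθlim.pow j
      have hlt : ρ ^ j < 2 * ρ ^ j := by
        have : 0 < ρ ^ j := by positivity
        linarith
      filter_upwards [hl.eventually_lt_const hlt] with K hK
      have hθ0 : 0 < θ K := hρ0.trans (h1 K)
      have h5 := h4 K (s K + j)
      rw [div_le_div_iff₀ (by positivity) (by positivity), pow_add] at h5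
      have h6 : N (s K + j) ≤ θ K ^ j * N (s K) := by
        have : 0 < θ K ^ s K := by positivity
        have h7 : N (s K + j) * θ K ^ s K ≤ (θ K ^ j * N (s K)) * θ K ^ s K := by
          calc _ ≤ N (s K) * (θ K ^ s K * θ K ^ j) := h5
            _ = _ := by ring
        exact le_of_mul_le_mul_right h7 this
      calc N (s K + j) ≤ θ K ^ j * N (s K) := h6
        _ ≤ 2 * ρ ^ j * N (s K) := by
            gcongr
            exact hN0 _
    · -- s K → ∞
      have hs : Tendsto (fun K => N (s K)) atTop atTop :=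
        tendsto_atTop_mono h3 tendsto_natCast_atTop_atTop
      have hs' : ∀ᶠ K in atTop, j ≤ s K := by
        have hb : ∀ n < j, N n ≤ ∑ r ∈ Finset.range j, N r := fun n hn =>
          Finset.single_le_sum (f := N) (fun i _ => hN0 i) (Finset.mem_range.2 hn)
        filter_upwards [hs.eventually_gt_atTop (∑ r ∈ Finset.range j, N r)] with K hK
        by_contra hcon
        push Not at hcon
        linarith [hb _ hcon]
      filter_upwards [hs'] with K hK
      have hθ0 : 0 < θ K := hρ0.trans (h1 K)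
      have h5 := h4 K (s K - j)
      have h6 : N (s K - j) * θ K ^ j ≤ N (s K) := by
        rw [div_le_div_iff₀ (by positivity) (by positivity)] at h5
        have h7 : θ K ^ s K = θ K ^ (s K - j) * θ K ^ j := by
          rw [← pow_add, Nat.sub_add_cancel hK]
        rw [h7] at h5
        have : 0 < θ K ^ (s K - j) := by positivity
        refine le_of_mul_le_mul_right ?_ this
        calc _ = N (s K - j) * (θ K ^ (s K - j) * θ K ^ j) := by ring
          _ ≤ _ := h5
      calc ρ ^ j * N (s K - j) ≤ θ K ^ j * N (s K - j) := by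
            gcongr
            · exact hN0 _
            · exact (h1 K).le
        _ = N (s K - j) * θ K ^ j := mul_comm _ _
        _ ≤ N (s K) := h6
        _ ≤ 2 * N (s K) := by linarith [hN0 (s K)]

end Pool.Agent.Q100.WR
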