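import Mathlib

/-!
# A power bounded operator with a compact orbit bounded away from zero has a unimodular eigenvalue
-/

set_option autoImplicit false

open Filter Topology Set Finset

namespace Pool.Agent.Q100.WR

section Fourier

variable {L : ℕ} [NeZero L]

/-- The standard additive character. -/
noncomputable abbrev ee (x : ZMod L) : ℂ := ZMod.stdAddChar x

theorem ee_conj (x : ZMod L) : (starRingEnd ℂ) (ee x) = ee (-x) :=
  (AddChar.map_neg_eq_conj _ x).symm

theorem ee_norm (x : ZMod L) : ‖ee x‖ = 1 := by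
  have h := ee_conj x
  have h1 : ee x * (starRingEnd ℂ) (ee x) = 1 := by
    rw [h, ← AddChar.map_add_eq_mul, add_neg_cancel, AddChar.map_zero_eq_one]
  rw [Complex.mul_conj] at h1
  have h2 : Complex.normSq (ee x) = 1 := by exact_mod_cast h1
  rw [Complex.normSq_eq_norm_sq] at h2
  nlinarith [norm_nonneg (ee x)]

theorem sum_ee (x : ZMod L) : ∑ j : ZMod L, ee (j * x) = if x = 0 then (L : ℂ) else 0 := by
  have h := AddChar.sum_mulShift (R := ZMod L) (R' := ℂ) x (ZMod.isPrimitive_stdAddChar L)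
  rw [ZMod.card] at h
  simpa using h

/-- Parseval's identity on `ZMod L`. -/
theorem parseval (f : ZMod L → ℂ) :
    ∑ j : ZMod L, ‖∑ x : ZMod L, ee (-(x * j)) * f x‖ ^ 2 = L * ∑ x : ZMod L, ‖f x‖ ^ 2 := by
  have h : (∑ j : ZMod L, (‖∑ x : ZMod L, ee (-(x * j)) * f x‖ : ℂ) ^ 2) =
      L * ∑ x : ZMod L, (‖f x‖ : ℂ) ^ 2 := by
    have h1 : ∀ j : ZMod L, (‖∑ x : ZMod L, ee (-(x * j)) * f x‖ : ℂ) ^ 2 =
        ∑ x : ZMod L, ∑ y : ZMod L, ee (j * (y - x)) * (f x * (starRingEnd ℂ) (f y)) := by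
      intro j
      rw [← Complex.mul_conj', map_sum, Finset.sum_mul_sum]
      refine Finset.sum_congr rfl fun x _ => Finset.sum_congr rfl fun y _ => ?_
      rw [map_mul, ee_conj, neg_neg]
      have : ee (j * (y - x)) = ee (-(x * j)) * ee (y * j) := by
        rw [← AddChar.map_add_eq_mul]
        congr 1
        ring
      rw [this]
      ring
    simp_rw [h1]
    rw [Finset.sum_comm]
    rw [Finset.mul_sum]
    refine Finset.sum_congr rfl fun x _ => ?_
    rw [Finset.sum_comm]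
    simp_rw [← Finset.sum_mul, sum_ee]
    rw [Finset.sum_eq_single x]
    · rw [sub_self, if_pos rfl, Complex.mul_conj']
    · intro y _ hy
      rw [if_neg (sub_ne_zero.2 hy), zero_mul]
    · intro hx
      exact absurd (Finset.mem_univ x) hx
  exact_mod_cast h

/-- Fourier transform of a sum of translates. -/
theorem dft_conv (A : Finset (ZMod L)) (f : ZMod L → ℂ) (j : ZMod L) :
    ∑ x : ZMod L, ee (-(x * j)) * ∑ t ∈ A, f (x + t) =
      (∑ t ∈ A, ee (t * j)) * ∑ x : ZMod L, ee (-(x * j)) * f x := by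
  simp_rw [Finset.mul_sum]
  rw [Finset.sum_comm]
  simp_rw [← Finset.mul_sum]
  rw [Finset.sum_mul]
  refine Finset.sum_congr rfl fun t _ => ?_
  rw [Finset.mul_sum]
  refine (Equiv.sum_comp (Equiv.addRight (-t)) _).symm.trans ?_
  refine Finset.sum_congr rfl fun x _ => ?_
  simp only [Equiv.coe_addRight]
  rw [neg_add_cancel_right, ← mul_assoc]
  congr 1
  rw [← AddChar.map_add_eq_mul]
  congr 1
  ring

theorem conv_bound (A : Finset (ZMod L)) (f : ZMod L → ℂ) {B : ℝ} (hB0 : 0 ≤ B)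
    (hB : ∀ j : ZMod L, ‖∑ x : ZMod L, ee (-(x * j)) * f x‖ ≤ B) :
    ∑ x : ZMod L, ‖∑ t ∈ A, f (x + t)‖ ^ 2 ≤ B ^ 2 * A.card := by
  have hL : (0 : ℝ) < L := by exact_mod_cast Nat.pos_of_ne_zero (NeZero.ne L)
  have h1 := parseval fun x : ZMod L => ∑ t ∈ A, f (x + t)
  simp_rw [dft_conv] at h1
  have h2 := parseval fun x : ZMod L => if x ∈ A then (1 : ℂ) else 0
  have h3 : ∀ j : ZMod L, ‖∑ t ∈ A, ee (t * j)‖ =
      ‖∑ x : ZMod L, ee (-(x * j)) * (if x ∈ A then (1 : ℂ) else 0)‖ := by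
    intro j
    have e1 : ∑ x : ZMod L, ee (-(x * j)) * (if x ∈ A then (1 : ℂ) else 0) =
        (starRingEnd ℂ) (∑ t ∈ A, ee (t * j)) := by
      rw [map_sum]
      simp_rw [mul_ite, mul_one, mul_zero, ee_conj]
      rw [Finset.sum_ite_mem, Finset.univ_inter]
    rw [e1, RCLike.norm_conj]
  have h4 : ∑ x : ZMod L, ‖(if x ∈ A then (1 : ℂ) else 0)‖ ^ 2 = (A.card : ℝ) := by
    have : ∀ x : ZMod L, ‖(if x ∈ A then (1 : ℂ) else 0)‖ ^ 2 = if x ∈ A then (1 : ℝ) else 0 := by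
      intro x
      split_ifs <;> simp
    simp_rw [this]
    rw [Finset.sum_ite_mem, Finset.univ_inter]
    simp
  simp_rw [← h3] at h2
  rw [h4] at h2
  have h5 : ∑ j : ZMod L, ‖(∑ t ∈ A, ee (t * j)) * ∑ x : ZMod L, ee (-(x * j)) * f x‖ ^ 2 ≤
      B ^ 2 * ∑ j : ZMod L, ‖∑ t ∈ A, ee (t * j)‖ ^ 2 := by
    rw [Finset.mul_sum]
    refine Finset.sum_le_sum fun j _ => ?_
    rw [norm_mul, mul_pow, mul_comm]
    gcongr
    exact hB j
  rw [h1, h2] at h5
  have h6 : (L : ℝ) * ∑ x : ZMod L, ‖∑ t ∈ A, f (x + t)‖ ^ 2 ≤ L * (B ^ 2 * A.card) := by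
    linarith
  exact le_of_mul_le_mul_left h6 hL

end Fourier

variable {Y : Type*} [NormedAddCommGroup Y] [NormedSpace ℂ Y]

/-- Large Fourier averages of compact orbits bounded away from zero. -/
theorem exists_freq (V : Y →L[ℂ] Y) {M : ℝ} (hM1 : 1 ≤ M) (hM : ∀ n, ‖V ^ n‖ ≤ M) (u : Y)
    {C : Set Y} (hC : TotallyBounded C) (hu : ∀ n, (V ^ n) u ∈ C) {c : ℝ} (hc : 0 < c)
    (hcu : ∀ n, c ≤ ‖(V ^ n) u‖) :
    ∃ η : ℝ, 0 < η ∧ ∀ m : ℕ, 0 < m → ∃ μ : ℂ, ‖μ‖ = 1 ∧
      2 * m * η ≤ ‖∑ k ∈ Finset.range (2 * m), μ ^ k • (V ^ k) u‖ := by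
  classical
  set r := c / (8 * M) with hr
  have hM0 : 0 < M := by linarith
  have hr0 : 0 < r := by positivity
  have hrM : M * r = c / 8 := by rw [hr]; field_simp
  have hrc : r ≤ c / 8 := by rw [← hrM]; nlinarith
  obtain ⟨T, hTf, hT⟩ := Metric.totallyBounded_iff.1 hC r hr0
  have hidx : ∀ k, ∃ y ∈ T, ‖(V ^ k) u - y‖ < r := by
    intro k
    have := hT (hu k)
    simp only [mem_iUnion] at this
    obtain ⟨y, hy, h⟩ := this
    exact ⟨y, hy, by rwa [Metric.mem_ball, dist_eq_norm] at h⟩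
  choose idx hidx1 hidx2 using hidx
  have hφ : ∀ y : Y, ∃ φ : Y →L[ℂ] ℂ, ‖φ‖ ≤ 1 ∧ φ y = (‖y‖ : ℂ) := fun y =>
    exists_dual_vector'' ℂ y
  choose φ hφ1 hφ2 using hφ
  set TF := hTf.toFinset with hTF
  have hmem : ∀ k, idx k ∈ TF := fun k => by rw [hTF, Set.Finite.mem_toFinset]; exact hidx1 k
  have hTne : TF.Nonempty := ⟨_, hmem 0⟩
  set J : ℝ := (TF.card : ℝ) with hJ
  have hJ1 : 1 ≤ J := by
    rw [hJ]; exact_mod_cast hTne.card_pos
  have hφle : ∀ y v, ‖φ y v‖ ≤ ‖v‖ := fun y v =>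
    ((φ y).le_opNorm v).trans (mul_le_of_le_one_left (norm_nonneg _) (hφ1 y))
  have hlow : ∀ k, 3 * c / 4 ≤ ‖φ (idx k) ((V ^ k) u)‖ := by
    intro k
    have e1 : φ (idx k) ((V ^ k) u) = φ (idx k) (idx k) + φ (idx k) ((V ^ k) u - idx k) := by
      rw [← map_add]; congr 1; abel
    have e2 : ‖φ (idx k) (idx k)‖ = ‖idx k‖ := by rw [hφ2]; simp
    have e3 := hφle (idx k) ((V ^ k) u - idx k)
    have e4 : ‖idx k‖ ≥ ‖(V ^ k) u‖ - ‖(V ^ k) u - idx k‖ := by
      have := norm_sub_norm_le ((V ^ k) u) (idx k)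
      linarith
    have e5 : ‖φ (idx k) (idx k)‖ ≤ ‖φ (idx k) ((V ^ k) u)‖ +
        ‖φ (idx k) ((V ^ k) u - idx k)‖ := by
      have : φ (idx k) (idx k) = φ (idx k) ((V ^ k) u) - φ (idx k) ((V ^ k) u - idx k) := by
        rw [e1]; ring
      rw [this]
      exact norm_sub_le _ _
    have e6 := hcu k
    have e7 := hidx2 k
    linarith
  refine ⟨c / (8 * J), by positivity, fun m hm => ?_⟩
  haveI : NeZero (2 * m) := ⟨by omega⟩
  have hm0 : (0 : ℝ) < m := by exact_mod_cast hm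
  by_contra hcon
  push Not at hcon
  -- pigeonhole
  obtain ⟨y₀, hy₀, hcard⟩ := Finset.exists_le_card_fiber_of_nsmul_le_card_of_maps_to
    (s := Finset.range m) (t := TF) (f := idx) (b := (m : ℝ) / J) (fun k _ => hmem k) hTne
    (by
      rw [nsmul_eq_mul, ← hJ, Finset.card_range, mul_div_cancel₀]
      linarith)
  set A := (Finset.range m).filter fun k => idx k = y₀ with hA
  have hAne : A.Nonempty := by
    rw [← Finset.card_pos]
    have : (0 : ℝ) < A.card := lt_of_lt_of_le (by positivity) hcard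
    exact_mod_cast this
  obtain ⟨t₀, ht₀⟩ := hAne
  have hA0 : (0 : ℝ) < A.card := by
    exact_mod_cast Finset.card_pos.2 ⟨t₀, ht₀⟩
  have hclose : ∀ t ∈ A, ∀ l, ‖(V ^ (l + t)) u - (V ^ (l + t₀)) u‖ ≤ c / 4 := by
    intro t ht l
    have h1 : idx t = y₀ := (Finset.mem_filter.1 ht).2
    have h2 : idx t₀ = y₀ := (Finset.mem_filter.1 ht₀).2
    have h3 : ‖(V ^ t) u - (V ^ t₀) u‖ ≤ 2 * r := by
      have e1 := hidx2 t
      have e2 := hidx2 t₀
      rw [h1] at e1
      rw [h2] at e2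
      have : (V ^ t) u - (V ^ t₀) u = ((V ^ t) u - y₀) - ((V ^ t₀) u - y₀) := by abel
      rw [this]
      exact (norm_sub_le _ _).trans (by linarith)
    have h4 : (V ^ (l + t)) u - (V ^ (l + t₀)) u = (V ^ l) ((V ^ t) u - (V ^ t₀) u) := by
      rw [map_sub, pow_add, pow_add]; rfl
    rw [h4]
    calc ‖(V ^ l) ((V ^ t) u - (V ^ t₀) u)‖ ≤ ‖V ^ l‖ * ‖(V ^ t) u - (V ^ t₀) u‖ :=
          (V ^ l).le_opNorm _
      _ ≤ M * (2 * r) := by gcongr; exact hM l
      _ = c / 4 := by linarith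
  -- the lower bound for the sums of translates
  have hsum : ∀ l, A.card * (c / 2) ≤
      ‖∑ t ∈ A, φ (idx (l + t₀)) ((V ^ (l + t)) u)‖ := by
    intro l
    set ψ := φ (idx (l + t₀)) with hψ
    have e1 : ∑ t ∈ A, ψ ((V ^ (l + t)) u) = (A.card : ℂ) * ψ ((V ^ (l + t₀)) u) +
        ∑ t ∈ A, ψ ((V ^ (l + t)) u - (V ^ (l + t₀)) u) := by
      simp_rw [map_sub]
      rw [Finset.sum_sub_distrib, Finset.sum_const, nsmul_eq_mul]
      ring
    have e2 : ‖∑ t ∈ A, ψ ((V ^ (l + t)) u - (V ^ (l + t₀)) u)‖ ≤ A.card * (c / 4) := by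
      refine (norm_sum_le _ _).trans ?_
      refine (Finset.sum_le_sum fun t ht => ((hφle _ _).trans (hclose t ht l))).trans ?_
      rw [Finset.sum_const, nsmul_eq_mul]
    have e3 := hlow (l + t₀)
    have e4 : ‖(A.card : ℂ) * ψ ((V ^ (l + t₀)) u)‖ = A.card * ‖ψ ((V ^ (l + t₀)) u)‖ := by
      rw [norm_mul, Complex.norm_natCast]
    have e5 : ‖(A.card : ℂ) * ψ ((V ^ (l + t₀)) u)‖ ≤ ‖∑ t ∈ A, ψ ((V ^ (l + t)) u)‖ +
        ‖∑ t ∈ A, ψ ((V ^ (l + t)) u - (V ^ (l + t₀)) u)‖ := by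
      have : (A.card : ℂ) * ψ ((V ^ (l + t₀)) u) = ∑ t ∈ A, ψ ((V ^ (l + t)) u) -
          ∑ t ∈ A, ψ ((V ^ (l + t)) u - (V ^ (l + t₀)) u) := by rw [e1]; ring
      rw [this]
      exact norm_sub_le _ _
    have e6 : (A.card : ℝ) * (3 * c / 4) ≤ A.card * ‖ψ ((V ^ (l + t₀)) u)‖ := by gcongr
    linarith
  -- Fourier upper bound
  set AZ : Finset (ZMod (2 * m)) :=
    Finset.image (fun t : ℕ => (t : ZMod (2 * m))) A with hAZ
  have hinj : Set.InjOn (fun t : ℕ => (t : ZMod (2 * m))) A := by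
    intro s hs t ht hst
    have hs' : s < m := Finset.mem_range.1 (Finset.mem_filter.1 hs).1
    have ht' : t < m := Finset.mem_range.1 (Finset.mem_filter.1 ht).1
    have := congrArg ZMod.val hst
    simp only at this
    rwa [ZMod.val_natCast_of_lt (by omega), ZMod.val_natCast_of_lt (by omega)] at this
  have hAZc : AZ.card = A.card := Finset.card_image_of_injOn hinj
  set B : ℝ := 2 * m * (c / (8 * J)) with hB
  have hB0 : 0 ≤ B := by positivity
  have hF : ∀ y ∈ TF, ∀ j : ZMod (2 * m),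
      ‖∑ x : ZMod (2 * m), ee (-(x * j)) * φ y ((V ^ x.val) u)‖ ≤ B := by
    intro y _ j
    have h1 : ∑ x : ZMod (2 * m), ee (-(x * j)) * φ y ((V ^ x.val) u) =
        φ y (∑ k ∈ Finset.range (2 * m), (ee (-j)) ^ k • (V ^ k) u) := by
      rw [map_sum]
      simp_rw [map_smul, smul_eq_mul]
      symm
      refine Finset.sum_bij (fun k _ => (k : ZMod (2 * m))) (fun k _ => Finset.mem_univ _) ?_ ?_ ?_
      · intro s hs t ht hst
        have := congrArg ZMod.val hst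
        rwa [ZMod.val_natCast_of_lt (Finset.mem_range.1 hs),
          ZMod.val_natCast_of_lt (Finset.mem_range.1 ht)] at this
      · intro x _
        exact ⟨x.val, Finset.mem_range.2 (ZMod.val_lt x), ZMod.natCast_zmod_val x⟩
      · intro k hk
        rw [ZMod.val_natCast_of_lt (Finset.mem_range.1 hk)]
        congr 1
        rw [← AddChar.map_nsmul_eq_pow, nsmul_eq_mul]
        congr 1
        ring
    rw [h1]
    exact (hφle _ _).trans (hcon _ (ee_norm _)).le
  have hG : ∀ y ∈ TF, ∑ l ∈ Finset.range m, ‖∑ t ∈ A, φ y ((V ^ (l + t)) u)‖ ^ 2 ≤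
      B ^ 2 * A.card := by
    intro y hy
    have h1 := conv_bound AZ (fun x => φ y ((V ^ x.val) u)) hB0 (hF y hy)
    rw [hAZc] at h1
    refine le_trans ?_ h1
    have h2 : ∑ l ∈ Finset.range m, ‖∑ t ∈ A, φ y ((V ^ (l + t)) u)‖ ^ 2 =
        ∑ x ∈ Finset.image (fun l : ℕ => (l : ZMod (2 * m))) (Finset.range m),
          ‖∑ t ∈ AZ, φ y ((V ^ (x + t).val) u)‖ ^ 2 := by
      rw [Finset.sum_image]
      · refine Finset.sum_congr rfl fun l hl => ?_
        congr 2
        rw [hAZ, Finset.sum_image hinj]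
        refine Finset.sum_congr rfl fun t ht => ?_
        have ht' : t < m := Finset.mem_range.1 (Finset.mem_filter.1 ht).1
        have hl' : l < m := Finset.mem_range.1 hl
        rw [← Nat.cast_add, ZMod.val_natCast_of_lt (by omega)]
      · intro s hs t ht hst
        have hs' : s < m := Finset.mem_range.1 hs
        have ht' : t < m := Finset.mem_range.1 ht
        have := congrArg ZMod.val hst
        simp only at this
        rwa [ZMod.val_natCast_of_lt (by omega), ZMod.val_natCast_of_lt (by omega)] at this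
    rw [h2]
    exact Finset.sum_le_sum_of_subset_of_nonneg (Finset.subset_univ _) fun _ _ _ => by positivity
  have hfin : (m : ℝ) * (A.card * (c / 2)) ^ 2 ≤ J * (B ^ 2 * A.card) := by
    calc (m : ℝ) * (A.card * (c / 2)) ^ 2
        = ∑ l ∈ Finset.range m, ((A.card : ℝ) * (c / 2)) ^ 2 := by
          rw [Finset.sum_const, Finset.card_range, nsmul_eq_mul]
      _ ≤ ∑ l ∈ Finset.range m, ∑ y ∈ TF, ‖∑ t ∈ A, φ y ((V ^ (l + t)) u)‖ ^ 2 := by
          refine Finset.sum_le_sum fun l _ => ?_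
          refine le_trans ?_ (Finset.single_le_sum
            (f := fun y => ‖∑ t ∈ A, φ y ((V ^ (l + t)) u)‖ ^ 2)
            (fun y _ => by positivity) (hmem (l + t₀)))
          have := hsum l
          gcongr
      _ = ∑ y ∈ TF, ∑ l ∈ Finset.range m, ‖∑ t ∈ A, φ y ((V ^ (l + t)) u)‖ ^ 2 :=
          Finset.sum_comm
      _ ≤ ∑ y ∈ TF, B ^ 2 * A.card := Finset.sum_le_sum fun y hy => hG y hy
      _ = J * (B ^ 2 * A.card) := by rw [Finset.sum_const, nsmul_eq_mul]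
  -- contradiction
  have h1 : (m : ℝ) * A.card * (c / 2) ^ 2 ≤ J * B ^ 2 := by
    have : ((m : ℝ) * A.card * (c / 2) ^ 2) * A.card ≤ (J * B ^ 2) * A.card := by
      calc _ = (m : ℝ) * (A.card * (c / 2)) ^ 2 := by ring
        _ ≤ J * (B ^ 2 * A.card) := hfin
        _ = _ := by ring
    exact le_of_mul_le_mul_right this hA0
  have h2 : (m : ℝ) * (m / J) * (c / 2) ^ 2 ≤ J * B ^ 2 := by
    refine le_trans ?_ h1
    gcongr
  have h3 : J * B ^ 2 = m ^ 2 * c ^ 2 / (16 * J) := by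
    rw [hB]
    field_simp
    ring
  have h4 : (m : ℝ) * (m / J) * (c / 2) ^ 2 = m ^ 2 * c ^ 2 / (4 * J) := by
    field_simp
    ring
  rw [h3, h4, div_le_div_iff₀ (by positivity) (by positivity)] at h2
  have h5 : 0 < (m : ℝ) ^ 2 * c ^ 2 * J := by positivity
  nlinarith

/-- **A compact orbit bounded away from zero yields a unimodular eigenvalue.** -/
theorem exists_eigen [CompleteSpace Y] (V : Y →L[ℂ] Y) {M : ℝ} (hM1 : 1 ≤ M)
    (hM : ∀ n, ‖V ^ n‖ ≤ M) (u : Y) {C : Set Y} (hC : TotallyBounded C)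
    (hu : ∀ n, (V ^ n) u ∈ C) {c : ℝ} (hc : 0 < c) (hcu : ∀ n, c ≤ ‖(V ^ n) u‖) :
    ∃ μ : ℂ, ‖μ‖ = 1 ∧ ∃ p : Y, p ≠ 0 ∧ V p = μ • p := by
  obtain ⟨η, hη, h⟩ := exists_freq V hM1 hM u hC hu hc hcu
  have h' : ∀ m : ℕ, ∃ μ : ℂ, ‖μ‖ = 1 ∧ 2 * ((m + 1 : ℕ) : ℝ) * η ≤
      ‖∑ k ∈ Finset.range (2 * (m + 1)), μ ^ k • (V ^ k) u‖ := fun m => h (m + 1) (by omega)
  choose μ hμ1 hμ2 using h'
  -- the compact set
  set D : Set Y := (fun q : ℂ × Y => q.1 • q.2) '' (Metric.sphere (0 : ℂ) 1 ×ˢ closure C) with hD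
  have hDc : IsCompact D := by
    refine IsCompact.image ?_ continuous_smul
    exact (isCompact_sphere _ _).prod (hC.closure.isCompact_of_isClosed isClosed_closure)
  have hK : IsCompact (closure (convexHull ℝ D)) :=
    (hDc.totallyBounded.convexHull).closure.isCompact_of_isClosed isClosed_closure
  set p : ℕ → Y := fun m => ((2 * (m + 1) : ℕ) : ℝ)⁻¹ •
    ∑ k ∈ Finset.range (2 * (m + 1)), (μ m) ^ k • (V ^ k) u with hp
  have hpK : ∀ m, p m ∈ closure (convexHull ℝ D) := by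
    intro m
    refine subset_closure ?_
    have h1 : p m = ∑ k ∈ Finset.range (2 * (m + 1)), ((2 * (m + 1) : ℕ) : ℝ)⁻¹ •
        ((μ m) ^ k • (V ^ k) u) := by
      rw [hp]
      simp only
      rw [Finset.smul_sum]
    rw [h1]
    refine (convex_convexHull ℝ D).sum_mem (fun _ _ => by positivity) ?_ fun k _ => ?_
    · rw [Finset.sum_const, Finset.card_range, nsmul_eq_mul, mul_inv_cancel₀]
      positivity
    · refine subset_convexHull ℝ D ⟨((μ m) ^ k, (V ^ k) u), ⟨?_, subset_closure (hu k)⟩, rfl⟩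
      rw [mem_sphere_zero_iff_norm, norm_pow, hμ1, one_pow]
  have hpη : ∀ m, η ≤ ‖p m‖ := by
    intro m
    rw [hp]
    simp only
    rw [norm_smul, norm_inv, Real.norm_of_nonneg (by positivity), inv_mul_eq_div,
      le_div_iff₀ (by positivity)]
    have := hμ2 m
    push_cast at this ⊢
    linarith
  set W : Ultrafilter ℕ := Ultrafilter.of atTop with hW
  have hWle : (W : Filter ℕ) ≤ atTop := Ultrafilter.of_le _
  obtain ⟨q, -, hq⟩ := hK.ultrafilter_le_nhds (W.map p) (by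
    rw [le_principal_iff, Ultrafilter.coe_map, Filter.mem_map]
    exact Eventually.of_forall hpK)
  obtain ⟨ν, hν1, hν⟩ := (isCompact_sphere (0 : ℂ) 1).ultrafilter_le_nhds (W.map μ) (by
    rw [le_principal_iff, Ultrafilter.coe_map, Filter.mem_map]
    exact Eventually.of_forall fun m => by simpa using hμ1 m)
  have hν1' : ‖ν‖ = 1 := by simpa using hν1
  have hq' : Tendsto p W (𝓝 q) := hq
  have hν' : Tendsto μ W (𝓝 ν) := hν
  have hq0 : q ≠ 0 := by
    intro h0
    have : η ≤ ‖q‖ := ge_of_tendsto hq'.norm (Eventually.of_forall hpη)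
    rw [h0, norm_zero] at this
    linarith
  have hdiff : ∀ m, ‖μ m • V (p m) - p m‖ ≤ ((2 * (m + 1) : ℕ) : ℝ)⁻¹ * (2 * M * ‖u‖) := by
    intro m
    have h1 : μ m • V (p m) - p m = ((2 * (m + 1) : ℕ) : ℝ)⁻¹ •
        ((μ m) ^ (2 * (m + 1)) • (V ^ (2 * (m + 1))) u - u) := by
      have e1 : V (p m) = ((2 * (m + 1) : ℕ) : ℝ)⁻¹ •
          ∑ k ∈ Finset.range (2 * (m + 1)), (μ m) ^ k • (V ^ (k + 1)) u := by
        rw [hp]
        simp only
        rw [ContinuousLinearMap.map_smul_of_tower, map_sum]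
        congr 1
        refine Finset.sum_congr rfl fun k _ => ?_
        rw [map_smul, pow_succ']
        rfl
      rw [e1, smul_comm, hp]
      simp only
      rw [← smul_sub]
      congr 1
      rw [Finset.smul_sum]
      have e2 : ∑ k ∈ Finset.range (2 * (m + 1)), μ m • (μ m) ^ k • (V ^ (k + 1)) u =
          ∑ k ∈ Finset.range (2 * (m + 1)), (μ m) ^ (k + 1) • (V ^ (k + 1)) u := by
        refine Finset.sum_congr rfl fun k _ => ?_
        rw [smul_smul, ← pow_succ']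
      rw [e2, ← Finset.sum_sub_distrib]
      have e3 := Finset.sum_range_sub (fun k => (μ m) ^ k • (V ^ k) u) (2 * (m + 1))
      rw [e3]
      simp
    rw [h1, norm_smul, norm_inv, Real.norm_of_nonneg (by positivity)]
    gcongr
    refine (norm_sub_le _ _).trans ?_
    rw [norm_smul, norm_pow, hμ1, one_pow, one_mul]
    have h2 : ‖(V ^ (2 * (m + 1))) u‖ ≤ M * ‖u‖ :=
      ((V ^ _).le_opNorm u).trans (by gcongr; exact hM _)
    nlinarith [norm_nonneg u]
  have hlim0 : Tendsto (fun m => μ m • V (p m) - p m) W (𝓝 0) := by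
    refine squeeze_zero_norm hdiff ?_
    have h1 : Tendsto (fun m : ℕ => ((2 * (m + 1) : ℕ) : ℝ)⁻¹) atTop (𝓝 0) := by
      refine tendsto_inv_atTop_zero.comp ?_
      refine tendsto_natCast_atTop_atTop.comp ?_
      exact tendsto_atTop_mono (f := id) (fun m => by simp only [id]; omega) tendsto_id
    have h2 := (h1.mul_const (2 * M * ‖u‖)).mono_left hWle
    rwa [zero_mul] at h2
  have hlim1 : Tendsto (fun m => μ m • V (p m) - p m) W (𝓝 (ν • V q - q)) :=
    (hν'.smul ((V.continuous.tendsto q).comp hq')).sub hq'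
  have heq : ν • V q - q = 0 := tendsto_nhds_unique hlim1 hlim0
  have hν0 : ν ≠ 0 := by
    intro h0
    rw [h0, norm_zero] at hν1'
    norm_num at hν1'
  refine ⟨ν⁻¹, by rw [norm_inv, hν1', inv_one], q, hq0, ?_⟩
  rw [eq_inv_smul_iff₀ hν0]
  exact sub_eq_zero.1 heq

end Pool.Agent.Q100.WR
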