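import Mathlib
import Pool.Agent.Q100.WR1
import Pool.Agent.Q100.WR2
import Pool.Agent.Q100.WR3

/-!
# Operators without dense numerical orbits that are not power bounded have eigenvalues
-/

set_option autoImplicit false

open Filter Topology Set

namespace Pool.Agent.Q100.WR

variable {X : Type*} [NormedAddCommGroup X] [NormedSpace ℂ X]

/-- Scaled orbits with scales tending to zero and bounded products converge along
ultrafilters. -/
theorem conv_general [CompleteSpace X] {S : X →L[ℂ] X} (hS : NoDense S) (y : X) {ι : Type*}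
    (W : Ultrafilter ι) (m : ι → ℕ) (c : ι → ℝ) (hc : Tendsto c W (𝓝 0)) {B : ℝ}
    (hB : ∀ᶠ i in (W : Filter ι), |c i * ‖S ^ (m i)‖| ≤ B) :
    ∃ z : X, Tendsto (fun i => (c i : ℂ) • (S ^ (m i)) y) W (𝓝 z) := by
  by_cases h : Tendsto (fun i => ‖S ^ (m i)‖) W atTop
  · obtain ⟨z, hz⟩ := orbit_compact' hS y (W.map m) (by
      rw [Ultrafilter.coe_map, tendsto_map'_iff]
      exact h)
    rw [Ultrafilter.coe_map, tendsto_map'_iff] at hz
    have hb : ∃ b : ℝ, Tendsto (fun i => c i * ‖S ^ (m i)‖) W (𝓝 b) := by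
      obtain ⟨b, -, hb⟩ := (isCompact_closedBall (0 : ℝ) B).ultrafilter_le_nhds
        (W.map fun i => c i * ‖S ^ (m i)‖) (by
          rw [le_principal_iff, Ultrafilter.coe_map, Filter.mem_map]
          filter_upwards [hB] with i hi
          simpa using hi)
      exact ⟨b, hb⟩
    obtain ⟨b, hb⟩ := hb
    refine ⟨(b : ℂ) • z, ?_⟩
    have h3 := ((Complex.continuous_ofReal.tendsto _).comp hb).smul hz
    refine h3.congr' ?_
    filter_upwards [h.eventually_ge_atTop 1] with i hi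
    have h4 : (‖S ^ (m i)‖ : ℂ) ≠ 0 := by
      have : ‖S ^ (m i)‖ ≠ 0 := by linarith
      exact_mod_cast this
    simp only [Function.comp]
    rw [smul_smul]
    congr 1
    rw [Complex.ofReal_mul, mul_assoc, mul_inv_cancel₀ h4, mul_one]
  · rw [tendsto_atTop] at h
    push Not at h
    obtain ⟨b, hb⟩ := h
    have hb' : ∀ᶠ i in (W : Filter ι), ‖S ^ (m i)‖ < b := hb
    refine ⟨0, ?_⟩
    have h1 : Tendsto (fun i => |c i| * (b * ‖y‖)) W (𝓝 0) := by
      have := hc.abs.mul_const (b * ‖y‖)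
      rwa [abs_zero, zero_mul] at this
    refine squeeze_zero_norm' ?_ h1
    filter_upwards [hb'] with i hi
    rw [norm_smul, Complex.norm_real, Real.norm_eq_abs]
    gcongr
    exact ((S ^ (m i)).le_opNorm y).trans (by gcongr)

/-- A map with limits along all ultrafilters has totally bounded range. -/
theorem totBdd_range {ι : Type*} (u : ι → X)
    (h : ∀ W : Ultrafilter ι, ∃ z, Tendsto u W (𝓝 z)) : TotallyBounded (range u) := by
  rw [totallyBounded_iff_ultrafilter]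
  intro f hf
  have hmem : u '' univ ∈ f := by
    rw [image_univ]
    exact le_principal_iff.1 hf
  obtain ⟨z, hz⟩ := h (Ultrafilter.ofComapInfPrincipal hmem)
  have h1 : Tendsto u (Ultrafilter.ofComapInfPrincipal hmem) (𝓝 z) := hz
  rw [Tendsto, ← Ultrafilter.coe_map, Ultrafilter.ofComapInfPrincipal_eq_of_map hmem] at h1
  exact cauchy_nhds.mono h1

/-- The data produced by peaks: the limit vectors. -/
theorem exists_limits [CompleteSpace X] {S : X →L[ℂ] X} (hS : NoDense S)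
    (hub : ∀ C : ℝ, ∃ n, C < ‖S ^ n‖) :
    ∃ (ρ B : ℝ) (v : ℕ → ℕ → X), 1 ≤ ρ ∧ (∀ k j, S (v k j) = v (k + 1) j) ∧
      (∀ j, v j j = v 0 0) ∧ v 0 0 ≠ 0 ∧ (∀ k j, ρ ^ j * ‖v k j‖ ≤ B * ρ ^ k) ∧
      TotallyBounded (range fun q : ℕ × ℕ => ((ρ ^ q.2 / ρ ^ q.1 : ℝ) : ℂ) • v q.1 q.2) ∧
      (∀ θ, ρ < θ → ∃ C, ∀ n, ‖S ^ n‖ ≤ C * θ ^ n) := by
  obtain ⟨y, C₁, C₂, hC₁, hC₂, hy⟩ := exists_growth hS
  set N : ℕ → ℝ := fun n => ‖S ^ n‖ with hN
  have hN0 : ∀ n, 0 ≤ N n := fun n => norm_nonneg _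
  have hsub : ∀ m n, N (m + n) ≤ N m * N n := by
    intro m n
    simp only [hN]
    rw [pow_add]
    exact norm_mul_le _ _
  have hone := one_le_of_unb hN0 hsub hub
  obtain ⟨ρ, M, s, hρ1, hM1, hs, hsu, hsd, hgr⟩ := peaks hN0 hsub hub
  have hρ0 : 0 < ρ := by linarith
  have hM0 : 0 < M := by linarith
  set U : Ultrafilter ℕ := Ultrafilter.of (Filter.map s atTop) with hU
  have hUle : (U : Filter ℕ) ≤ Filter.map s atTop := Ultrafilter.of_le _
  have hNU : Tendsto N U atTop := by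
    have : Tendsto N (Filter.map s atTop) atTop := tendsto_map'_iff.2 hs
    exact this.mono_left hUle
  have hup : ∀ j, ∀ᶠ n in (U : Filter ℕ), N (n + j) ≤ M * ρ ^ j * N n := fun j =>
    hUle (Filter.eventually_map.2 (hsu j))
  have hdn : ∀ j, ∀ᶠ n in (U : Filter ℕ), ρ ^ j * N (n - j) ≤ M * N n := fun j =>
    hUle (Filter.eventually_map.2 (hsd j))
  have hge : ∀ j, ∀ᶠ n in (U : Filter ℕ), j ≤ n := by
    intro j
    have hb : ∀ n < j, N n ≤ ∑ r ∈ Finset.range j, N r := fun n hn =>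
      Finset.single_le_sum (f := N) (fun i _ => hN0 i) (Finset.mem_range.2 hn)
    filter_upwards [hNU.eventually_gt_atTop (∑ r ∈ Finset.range j, N r)] with n hn
    by_contra hcon
    push Not at hcon
    linarith [hb _ hcon]
  have hboth : ∀ k j, ∀ᶠ n in (U : Filter ℕ), ρ ^ j * N (n - j + k) ≤ M * ρ ^ k * N n := by
    intro k j
    rcases le_total j k with hjk | hjk
    · filter_upwards [hup (k - j), hge j] with n hn hnj
      have e1 : n - j + k = n + (k - j) := by omega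
      rw [e1]
      calc ρ ^ j * N (n + (k - j)) ≤ ρ ^ j * (M * ρ ^ (k - j) * N n) := by gcongr
        _ = M * (ρ ^ j * ρ ^ (k - j)) * N n := by ring
        _ = M * ρ ^ k * N n := by rw [← pow_add, Nat.add_sub_cancel' hjk]
    · filter_upwards [hdn (j - k), hge j] with n hn hnj
      have e1 : n - j + k = n - (j - k) := by omega
      rw [e1]
      calc ρ ^ j * N (n - (j - k)) = ρ ^ k * (ρ ^ (j - k) * N (n - (j - k))) := by
            rw [← mul_assoc, ← pow_add, Nat.add_sub_cancel' hjk]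
        _ ≤ ρ ^ k * (M * N n) := by gcongr
        _ = _ := by ring
  have hinv : Tendsto (fun n => (N n)⁻¹) U (𝓝 0) := tendsto_inv_atTop_zero.comp hNU
  -- the limit vectors
  have hv : ∀ k j, ∃ z : X, Tendsto (fun n => (((N n)⁻¹ : ℝ) : ℂ) • (S ^ (n - j + k)) y) U
      (𝓝 z) := by
    intro k j
    refine conv_general hS y U (fun n => n - j + k) (fun n => (N n)⁻¹) hinv
      (B := M * ρ ^ k / ρ ^ j) ?_
    filter_upwards [hboth k j] with n hn
    have hNn : 0 < N n := by linarith [hone n]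
    rw [abs_of_nonneg (by positivity), le_div_iff₀ (by positivity), inv_mul_eq_div,
      div_mul_eq_mul_div, div_le_iff₀ hNn]
    calc _ = ρ ^ j * N (n - j + k) := by simp only [hN]; ring
      _ ≤ _ := hn
  choose v hv using hv
  have hvn : ∀ k j, ρ ^ j * ‖v k j‖ ≤ M * ‖y‖ * ρ ^ k := by
    intro k j
    refine le_of_tendsto ((hv k j).norm.const_mul (ρ ^ j)) ?_
    filter_upwards [hboth k j] with n hn
    have hNn : 0 < N n := by linarith [hone n]
    rw [norm_smul, Complex.norm_real, Real.norm_of_nonneg (by positivity)]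
    calc ρ ^ j * ((N n)⁻¹ * ‖(S ^ (n - j + k)) y‖)
        ≤ ρ ^ j * ((N n)⁻¹ * (N (n - j + k) * ‖y‖)) := by
          gcongr
          exact (S ^ (n - j + k)).le_opNorm y
      _ = (N n)⁻¹ * (ρ ^ j * N (n - j + k)) * ‖y‖ := by ring
      _ ≤ (N n)⁻¹ * (M * ρ ^ k * N n) * ‖y‖ := by gcongr
      _ = M * ‖y‖ * ρ ^ k := by field_simp
  refine ⟨ρ, M * ‖y‖, v, hρ1, ?_, ?_, ?_, hvn, ?_, hgr⟩
  · intro k j
    refine tendsto_nhds_unique ((S.continuous.tendsto _).comp (hv k j)) ?_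
    refine (hv (k + 1) j).congr fun n => ?_
    simp only [Function.comp]
    rw [map_smul, ← add_assoc, pow_succ']
    rfl
  · intro j
    refine tendsto_nhds_unique (hv j j) ?_
    refine (hv 0 0).congr' ?_
    filter_upwards [hge j] with n hn
    have e1 : n - j + j = n - 0 + 0 := by omega
    rw [e1]
  · intro h0
    have h1 : Tendsto (fun n => C₁ * ‖(((N n)⁻¹ : ℝ) : ℂ) • (S ^ (n - 0 + 0)) y‖ +
        C₂ * (N n)⁻¹) U (𝓝 (C₁ * ‖v 0 0‖ + C₂ * 0)) :=
      ((hv 0 0).norm.const_mul C₁).add (hinv.const_mul C₂)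
    have h2 : (1 : ℝ) ≤ C₁ * ‖v 0 0‖ + C₂ * 0 := by
      refine ge_of_tendsto h1 (Eventually.of_forall fun n => ?_)
      have hNn : 0 < N n := by linarith [hone n]
      rw [norm_smul, Complex.norm_real, Real.norm_of_nonneg (by positivity), Nat.sub_zero,
        add_zero]
      have h3 := hy n
      calc (1 : ℝ) = N n * (N n)⁻¹ := (mul_inv_cancel₀ hNn.ne').symm
        _ ≤ (C₁ * ‖(S ^ n) y‖ + C₂) * (N n)⁻¹ := by gcongr
        _ = _ := by ring
    rw [h0, norm_zero] at h2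
    norm_num at h2
  · -- total boundedness
    refine totBdd_range _ fun W => ?_
    by_cases hW : Tendsto (fun q : ℕ × ℕ => q.1 + q.2) W atTop
    · -- choose n
      have hch : ∀ q : ℕ × ℕ, ∃ n : ℕ,
          ‖((ρ ^ q.2 / ρ ^ q.1 : ℝ) : ℂ) • v q.1 q.2 -
            ((ρ ^ q.2 / ρ ^ q.1 * (N n)⁻¹ : ℝ) : ℂ) • (S ^ (n - q.2 + q.1)) y‖ ≤
            1 / ((q.1 + q.2 : ℕ) + 1 : ℝ) ∧
          (((q.1 + q.2 : ℕ) : ℝ) + 1) * ρ ^ q.2 ≤ N n ∧
          ρ ^ q.2 * N (n - q.2 + q.1) ≤ M * ρ ^ q.1 * N n := by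
        intro q
        have h1 : Tendsto (fun n => ‖((ρ ^ q.2 / ρ ^ q.1 : ℝ) : ℂ) • v q.1 q.2 -
            ((ρ ^ q.2 / ρ ^ q.1 * (N n)⁻¹ : ℝ) : ℂ) • (S ^ (n - q.2 + q.1)) y‖) U (𝓝 0) := by
          have h2 : Tendsto (fun n => ((ρ ^ q.2 / ρ ^ q.1 : ℝ) : ℂ) •
              ((((N n)⁻¹ : ℝ) : ℂ) • (S ^ (n - q.2 + q.1)) y)) U
              (𝓝 (((ρ ^ q.2 / ρ ^ q.1 : ℝ) : ℂ) • v q.1 q.2)) := (hv q.1 q.2).const_smul _
          have h3 := ((tendsto_const_nhds
            (x := ((ρ ^ q.2 / ρ ^ q.1 : ℝ) : ℂ) • v q.1 q.2)).sub h2).norm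
          rw [sub_self, norm_zero] at h3
          refine h3.congr fun n => ?_
          rw [smul_smul, Complex.ofReal_mul]
        have h4 : (0 : ℝ) < 1 / ((q.1 + q.2 : ℕ) + 1 : ℝ) := by positivity
        obtain ⟨n, hn1, hn2, hn3⟩ := ((h1.eventually_le_const h4).and
          ((hNU.eventually_ge_atTop ((((q.1 + q.2 : ℕ) : ℝ) + 1) * ρ ^ q.2)).and
            (hboth q.1 q.2))).exists
        exact ⟨n, hn1, hn2, hn3⟩
      choose n hn1 hn2 hn3 using hch
      have hW' : Tendsto (fun q : ℕ × ℕ => 1 / ((q.1 + q.2 : ℕ) + 1 : ℝ)) W (𝓝 0) :=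
        tendsto_one_div_add_atTop_nhds_zero_nat.comp hW
      have hpos : ∀ q, 0 < N (n q) := fun q => by linarith [hone (n q)]
      obtain ⟨z, hz⟩ := conv_general hS y W (fun q => n q - q.2 + q.1)
        (fun q => ρ ^ q.2 / ρ ^ q.1 * (N (n q))⁻¹) (by
          refine squeeze_zero (fun q => by have := hpos q; positivity) (fun q => ?_) hW'
          have h1 := hn2 q
          have h2 := hpos q
          have h3 : 1 ≤ ρ ^ q.1 := one_le_pow₀ hρ1
          rw [le_div_iff₀ (by positivity)]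
          calc ρ ^ q.2 / ρ ^ q.1 * (N (n q))⁻¹ * (((q.1 + q.2 : ℕ) : ℝ) + 1)
              ≤ ρ ^ q.2 * (N (n q))⁻¹ * (((q.1 + q.2 : ℕ) : ℝ) + 1) := by
                gcongr
                exact div_le_self (by positivity) h3
            _ = ((((q.1 + q.2 : ℕ) : ℝ) + 1) * ρ ^ q.2) * (N (n q))⁻¹ := by ring
            _ ≤ N (n q) * (N (n q))⁻¹ := by gcongr
            _ = 1 := mul_inv_cancel₀ h2.ne') (B := M) (Eventually.of_forall fun q => by
          have h2 := hpos q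
          have h3 := hn3 q
          rw [abs_of_nonneg (by positivity)]
          calc ρ ^ q.2 / ρ ^ q.1 * (N (n q))⁻¹ * ‖S ^ (n q - q.2 + q.1)‖
              = (ρ ^ q.2 * N (n q - q.2 + q.1)) * ((ρ ^ q.1)⁻¹ * (N (n q))⁻¹) := by
                simp only [hN]; ring
            _ ≤ (M * ρ ^ q.1 * N (n q)) * ((ρ ^ q.1)⁻¹ * (N (n q))⁻¹) := by gcongr
            _ = M := by field_simp)
      refine ⟨z, ?_⟩
      have h5 : Tendsto (fun q : ℕ × ℕ => ((ρ ^ q.2 / ρ ^ q.1 : ℝ) : ℂ) • v q.1 q.2 -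
          ((ρ ^ q.2 / ρ ^ q.1 * (N (n q))⁻¹ : ℝ) : ℂ) • (S ^ (n q - q.2 + q.1)) y) W (𝓝 0) :=
        squeeze_zero_norm hn1 hW'
      have h6 := h5.add hz
      rw [zero_add] at h6
      refine h6.congr fun q => ?_
      rw [sub_add_cancel]
    · rw [tendsto_atTop] at hW
      push Not at hW
      obtain ⟨b, hb⟩ := hW
      have hb' : {q : ℕ × ℕ | q.1 + q.2 < b} ∈ (W : Filter (ℕ × ℕ)) := hb
      have hfin : {q : ℕ × ℕ | q.1 + q.2 < b}.Finite := by
        refine ((Set.finite_Iio b).prod (Set.finite_Iio b)).subset ?_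
        rintro ⟨i, j⟩ hij
        simp only [Set.mem_setOf_eq] at hij
        simp only [Set.mem_prod, Set.mem_Iio]
        omega
      obtain ⟨q₀, -, hq₀⟩ := Ultrafilter.eq_pure_of_finite_mem hfin hb'
      refine ⟨((ρ ^ q₀.2 / ρ ^ q₀.1 : ℝ) : ℂ) • v q₀.1 q₀.2, ?_⟩
      rw [hq₀]
      exact tendsto_pure_nhds _ q₀

end Pool.Agent.Q100.WR
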