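import Mathlib
import Pool.Agent.Q100.WR4

/-!
# The main theorem on operators without dense numerical orbits
-/

set_option autoImplicit false

open Filter Topology Set

namespace Pool.Agent.Q100.WR

variable {X : Type*} [NormedAddCommGroup X] [NormedSpace ℂ X]

/-- An eigenvalue dominating the growth of the powers has modulus the spectral radius. -/
theorem norm_eq_spectralRadius [CompleteSpace X] (S : X →L[ℂ] X) {μ : ℂ} {p : X} (hp : p ≠ 0)
    (hμ : S p = μ • p) (hgr : ∀ θ, ‖μ‖ < θ → ∃ C, ∀ n, ‖S ^ n‖ ≤ C * θ ^ n) :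
    (‖μ‖₊ : ENNReal) = spectralRadius ℂ S := by
  haveI : Nontrivial X := ⟨⟨p, 0, hp⟩⟩
  have hmem : μ ∈ spectrum ℂ S := by
    rw [spectrum.mem_iff]
    intro hu
    obtain ⟨R, hR⟩ := hu.exists_left_inv
    have h1 : (R * (algebraMap ℂ (X →L[ℂ] X) μ - S)) p = p := by rw [hR]; rfl
    have h2 : (algebraMap ℂ (X →L[ℂ] X) μ - S) p = 0 := by
      rw [sub_apply, hμ, Algebra.algebraMap_eq_smul_one, smul_apply]
      exact sub_self _
    have h3 : (R * (algebraMap ℂ (X →L[ℂ] X) μ - S)) p =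
        R ((algebraMap ℂ (X →L[ℂ] X) μ - S) p) := rfl
    rw [h3, h2, map_zero] at h1
    exact hp h1.symm
  refine le_antisymm (le_iSup₂ (f := fun (k : ℂ) (_ : k ∈ spectrum ℂ S) => (‖k‖₊ : ENNReal))
    μ hmem) ?_
  obtain ⟨z, hz, hz'⟩ := spectrum.exists_nnnorm_eq_spectralRadius S
  rw [← hz']
  have h1 : ‖z‖ ≤ ‖μ‖ := by
    by_contra hcon
    push Not at hcon
    obtain ⟨θ, hθ1, hθ2⟩ := exists_between hcon
    obtain ⟨C, hC⟩ := hgr θ hθ1
    have hθ0 : 0 < θ := (norm_nonneg _).trans_lt hθ1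
    have h2 : ∀ n : ℕ, (‖z‖ / θ) ^ n ≤ C := by
      intro n
      have h3 : z ^ n ∈ spectrum ℂ (S ^ n) := spectrum.pow_mem_pow S n hz
      have h4 := spectrum.norm_le_norm_of_mem h3
      rw [norm_pow] at h4
      rw [div_pow, div_le_iff₀ (by positivity)]
      exact h4.trans (hC n)
    have h5 : 1 < ‖z‖ / θ := by rwa [one_lt_div hθ0]
    obtain ⟨n, hn⟩ := pow_unbounded_of_one_lt C h5
    linarith [h2 n]
  exact_mod_cast h1

/-- The eigenvector from the family of limit vectors. -/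
theorem eigen_of_family [CompleteSpace X] (T : X →L[ℂ] X) {ρ M₁ : ℝ} (hρ0 : 0 < ρ)
    (hM₁1 : 1 ≤ M₁) (hM₁ : ∀ n, ‖T ^ n‖ ≤ M₁ * ρ ^ n) (v : ℕ → ℕ → X)
    (hv : ∀ n k j, (T ^ n) (v k j) = v (k + n) j) (hvj : ∀ j, v j j = v 0 0) (hv0 : v 0 0 ≠ 0)
    (htb : TotallyBounded (range fun q : ℕ × ℕ => ((ρ ^ q.2 / ρ ^ q.1 : ℝ) : ℂ) • v q.1 q.2)) :
    ∃ μ : ℂ, ‖μ‖ = 1 ∧ ∃ p : X, p ≠ 0 ∧ T p = ((ρ : ℂ) * μ) • p := by
  have hρc : (ρ : ℂ) ≠ 0 := by exact_mod_cast hρ0.ne'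
  have hM₁0 : 0 < M₁ := by linarith
  set V : X →L[ℂ] X := (ρ : ℂ)⁻¹ • T with hV
  have hVn : ∀ n, V ^ n = ((ρ : ℂ)⁻¹) ^ n • T ^ n := fun n => by rw [hV, smul_pow]
  have hVb : ∀ n, ‖V ^ n‖ ≤ M₁ := by
    intro n
    rw [hVn, norm_smul, norm_pow, norm_inv, Complex.norm_real, Real.norm_of_nonneg hρ0.le,
      inv_pow, inv_mul_le_iff₀ (by positivity)]
    linarith [hM₁ n]
  -- the compact set
  set w : ℕ × ℕ → X := fun q => ((ρ ^ q.2 / ρ ^ q.1 : ℝ) : ℂ) • v q.1 q.2 with hw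
  have hwV : ∀ n (q : ℕ × ℕ), (V ^ n) (w q) = w (q.1 + n, q.2) := by
    intro n q
    rw [hVn]
    simp only [hw, map_smul, smul_apply, hv]
    rw [smul_smul]
    congr 1
    rw [pow_add]
    push_cast
    field_simp
    rw [one_div, inv_pow, inv_mul_cancel₀ (pow_ne_zero _ hρc)]
  set C := closure (range w) with hC
  have hCtb : TotallyBounded C := htb.closure
  have hCc : IsCompact C := hCtb.isCompact_of_isClosed isClosed_closure
  have hCinv : ∀ n, ∀ u ∈ C, (V ^ n) u ∈ C := by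
    intro n
    have : MapsTo (V ^ n) (range w) (range w) := by
      rintro _ ⟨q, rfl⟩
      exact ⟨(q.1 + n, q.2), (hwV n q).symm⟩
    exact fun u hu => this.closure (V ^ n).continuous hu
  -- an eigenvector of V
  have hev : ∃ μ : ℂ, ‖μ‖ = 1 ∧ ∃ p : X, p ≠ 0 ∧ V p = μ • p := by
    by_contra hcon
    have hsmall : ∀ u ∈ C, ∀ ε > 0, ∃ n, ‖(V ^ n) u‖ < ε := by
      intro u hu ε hε
      by_contra h
      push Not at h
      exact hcon (exists_eigen V hM₁1 hVb u hCtb (fun n => hCinv n u hu) hε h)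
    set ε := ‖v 0 0‖ / (2 * M₁) with hε
    have hv0n : 0 < ‖v 0 0‖ := norm_pos_iff.2 hv0
    have hε0 : 0 < ε := by positivity
    obtain ⟨t, ht⟩ := hCc.elim_finite_subcover (fun n : ℕ => {x : X | ‖(V ^ n) x‖ < ε})
      (fun n => isOpen_lt (V ^ n).continuous.norm continuous_const) (by
        intro u hu
        obtain ⟨n, hn⟩ := hsmall u hu ε hε0
        exact mem_iUnion.2 ⟨n, hn⟩)
    set n := t.sup id with hn
    have h1 : w (0, n) ∈ C := subset_closure ⟨_, rfl⟩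
    obtain ⟨m, hm⟩ := mem_iUnion.1 (ht h1)
    obtain ⟨hmt, hm⟩ := mem_iUnion.1 hm
    have hmn : m ≤ n := Finset.le_sup (f := id) hmt
    have h2 : (V ^ n) (w (0, n)) = (V ^ (n - m)) ((V ^ m) (w (0, n))) := by
      have : V ^ n = V ^ (n - m) * V ^ m := by rw [← pow_add, Nat.sub_add_cancel hmn]
      rw [this]; rfl
    have h3 : ‖(V ^ n) (w (0, n))‖ ≤ M₁ * ε := by
      rw [h2]
      refine ((V ^ (n - m)).le_opNorm _).trans ?_
      have : ‖(V ^ m) (w (0, n))‖ < ε := hm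
      have h4 := hVb (n - m)
      gcongr
    rw [hwV] at h3
    have h4 : ‖w (0 + n, n)‖ = ‖v 0 0‖ := by
      simp only [hw, zero_add]
      rw [div_self (by positivity), Complex.ofReal_one, one_smul, hvj]
    rw [h4, hε] at h3
    have h5 : M₁ * (‖v 0 0‖ / (2 * M₁)) = ‖v 0 0‖ / 2 := by field_simp
    rw [h5] at h3
    linarith
  obtain ⟨μ, hμ1, p, hp0, hp⟩ := hev
  refine ⟨μ, hμ1, p, hp0, ?_⟩
  have h1 : T p = (ρ : ℂ) • V p := by
    rw [hV, smul_apply, smul_smul, mul_inv_cancel₀ hρc, one_smul]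
  rw [h1, hp, smul_smul]

/-- **Main theorem.** A bounded operator on a complex Banach space that is not power bounded and
has no dense numerical orbit has an eigenvalue of modulus equal to the spectral radius. -/
theorem exists_eigenvalue [CompleteSpace X] {S : X →L[ℂ] X} (hS : NoDense S)
    (hub : ∀ C : ℝ, ∃ n, C < ‖S ^ n‖) :
    ∃ μ : ℂ, 1 ≤ ‖μ‖ ∧ (‖μ‖₊ : ENNReal) = spectralRadius ℂ S ∧ ∃ p : X, p ≠ 0 ∧ S p = μ • p := by
  obtain ⟨ρ, B, v, hρ1, hSv, hvj, hv0, hvn, htb, hgr⟩ := exists_limits hS hub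
  have hρ0 : 0 < ρ := by linarith
  have hρc : (ρ : ℂ) ≠ 0 := by exact_mod_cast hρ0.ne'
  have hSnv : ∀ n k j, (S ^ n) (v k j) = v (k + n) j := by
    intro n
    induction n with
    | zero => intro k j; simp
    | succ n ih =>
      intro k j
      rw [pow_succ']
      show S ((S ^ n) (v k j)) = _
      rw [ih, hSv, add_assoc]
  -- the invariant subspace
  set P : Submodule ℂ X := Submodule.span ℂ (range fun q : ℕ × ℕ => v q.1 q.2) with hP
  set Y : Submodule ℂ X := P.topologicalClosure with hY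
  have hYc : IsClosed (Y : Set X) := Submodule.isClosed_topologicalClosure _
  haveI : CompleteSpace Y := hYc.completeSpace_coe
  have hPinv : ∀ x ∈ P, S x ∈ P := by
    intro x hx
    induction hx using Submodule.span_induction with
    | mem x hx =>
      obtain ⟨q, rfl⟩ := hx
      simp only
      rw [hSv]
      exact Submodule.subset_span ⟨(q.1 + 1, q.2), rfl⟩
    | zero => rw [map_zero]; exact zero_mem _
    | add x y _ _ hx hy => rw [map_add]; exact add_mem hx hy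
    | smul c x _ hx => rw [map_smul]; exact Submodule.smul_mem _ _ hx
  have hYinv : ∀ x ∈ Y, S x ∈ Y := by
    have : MapsTo S (closure (P : Set X)) (closure (P : Set X)) :=
      MapsTo.closure (fun x hx => hPinv x hx) S.continuous
    intro x hx
    exact this hx
  have hvY : ∀ k j, v k j ∈ Y := fun k j =>
    Submodule.le_topologicalClosure _ (Submodule.subset_span ⟨(k, j), rfl⟩)
  set T₁ : Y →L[ℂ] Y := (S.comp Y.subtypeL).codRestrict Y (fun y => hYinv y y.2) with hT₁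
  have hT₁n : ∀ n (y : Y), (((T₁ ^ n) y : Y) : X) = (S ^ n) (y : X) := by
    intro n
    induction n with
    | zero => intro y; simp
    | succ n ih =>
      intro y
      rw [pow_succ', pow_succ']
      show ((T₁ ((T₁ ^ n) y) : Y) : X) = S ((S ^ n) (y : X))
      rw [← ih]
      rfl
  have hND : NoDense T₁ := by
    intro y g hd
    obtain ⟨f, hf, -⟩ := exists_extension_norm_eq Y g
    refine hS (y : X) f ?_
    refine (congrArg Dense ?_).mp hd
    congr 1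
    funext n
    rw [← hT₁n, hf]
  -- power estimate on Y
  have hPb : ∀ x ∈ P, ∃ C, ∀ n, ‖(S ^ n) x‖ ≤ C * ρ ^ n := by
    intro x hx
    induction hx using Submodule.span_induction with
    | mem x hx =>
      obtain ⟨q, rfl⟩ := hx
      refine ⟨B * ρ ^ q.1 / ρ ^ q.2, fun n => ?_⟩
      simp only
      rw [hSnv, div_mul_eq_mul_div, le_div_iff₀ (by positivity)]
      have := hvn (q.1 + n) q.2
      rw [pow_add] at this
      linarith
    | zero => exact ⟨0, fun n => by simp⟩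
    | add x y _ _ hx hy =>
      obtain ⟨C, hC⟩ := hx
      obtain ⟨D, hD⟩ := hy
      refine ⟨C + D, fun n => ?_⟩
      rw [map_add]
      refine (norm_add_le _ _).trans ?_
      have h1 := hC n
      have h2 := hD n
      linarith
    | smul c x _ hx =>
      obtain ⟨C, hC⟩ := hx
      refine ⟨‖c‖ * C, fun n => ?_⟩
      rw [map_smul, norm_smul, mul_assoc]
      gcongr
      exact hC n
  obtain ⟨y, C₁, C₂, hC₁, hC₂, hy⟩ := exists_growth hND
  have hM₁ : ∃ M₁ : ℝ, 1 ≤ M₁ ∧ ∀ n, ‖T₁ ^ n‖ ≤ M₁ * ρ ^ n := by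
    obtain ⟨y', hy'P, hy'⟩ := Metric.mem_closure_iff.1 (show (y : X) ∈ closure (P : Set X) from y.2)
      (1 / (2 * C₁)) (by positivity)
    obtain ⟨C, hC⟩ := hPb y' hy'P
    have hC0 : 0 ≤ C := by
      have := hC 0
      rw [pow_zero ρ, mul_one] at this
      exact (norm_nonneg _).trans this
    set y'' : Y := ⟨y', Submodule.le_topologicalClosure _ hy'P⟩ with hy''
    have hyy : ‖y - y''‖ ≤ 1 / (2 * C₁) := by
      rw [dist_eq_norm] at hy'
      exact hy'.le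
    refine ⟨2 * C₁ * C + 2 * C₂ + 1, by nlinarith [mul_nonneg hC₁.le hC0], fun n => ?_⟩
    have h1 := hy n
    have h2 : ‖(T₁ ^ n) y‖ ≤ ‖(T₁ ^ n) y''‖ + ‖T₁ ^ n‖ * (1 / (2 * C₁)) := by
      have e1 : (T₁ ^ n) y = (T₁ ^ n) y'' + (T₁ ^ n) (y - y'') := by
        rw [← map_add]; congr 1; abel
      rw [e1]
      refine (norm_add_le _ _).trans ?_
      gcongr
      exact ((T₁ ^ n).le_opNorm _).trans (by gcongr)
    have h3 : ‖(T₁ ^ n) y''‖ ≤ C * ρ ^ n := by
      have e1 : ‖(T₁ ^ n) y''‖ = ‖(((T₁ ^ n) y'' : Y) : X)‖ := rfl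
      rw [e1, hT₁n]
      exact hC n
    have h4 : 1 ≤ ρ ^ n := one_le_pow₀ hρ1
    have h5 : C₁ * (‖T₁ ^ n‖ * (1 / (2 * C₁))) = ‖T₁ ^ n‖ / 2 := by field_simp
    have h6 : ‖T₁ ^ n‖ ≤ C₁ * (C * ρ ^ n) + ‖T₁ ^ n‖ / 2 + C₂ := by
      calc ‖T₁ ^ n‖ ≤ C₁ * ‖(T₁ ^ n) y‖ + C₂ := h1
        _ ≤ C₁ * (C * ρ ^ n + ‖T₁ ^ n‖ * (1 / (2 * C₁))) + C₂ := by
            gcongr
            linarith
        _ = _ := by rw [mul_add, h5]
    nlinarith
  obtain ⟨M₁, hM₁1, hM₁⟩ := hM₁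
  obtain ⟨μ, hμ1, p, hp0, hp⟩ := eigen_of_family T₁ hρ0 hM₁1 hM₁ (fun k j => ⟨v k j, hvY k j⟩)
    (fun n k j => Subtype.ext (by rw [hT₁n]; exact hSnv n k j))
    (fun j => Subtype.ext (hvj j)) (fun h => hv0 (congrArg Subtype.val h)) (by
      refine (totallyBounded_preimage (isUniformInducing_val (Y : Set X)) htb).subset ?_
      rintro _ ⟨q, rfl⟩
      exact ⟨q, rfl⟩)
  have hSp : S (p : X) = ((ρ : ℂ) * μ) • (p : X) := congrArg Subtype.val hp
  have hp0' : (p : X) ≠ 0 := by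
    intro h0
    exact hp0 (Subtype.ext h0)
  have hnorm : ‖(ρ : ℂ) * μ‖ = ρ := by
    rw [norm_mul, hμ1, mul_one, Complex.norm_real, Real.norm_of_nonneg hρ0.le]
  refine ⟨(ρ : ℂ) * μ, by rw [hnorm]; exact hρ1, ?_, p, hp0', hSp⟩
  exact norm_eq_spectralRadius S hp0' hSp (by rw [hnorm]; exact hgr)

end Pool.Agent.Q100.WR
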