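import Mathlib

/-!
# Weak sequential forms of supercyclicity
-/

set_option autoImplicit false
open Filter Topology

namespace Q100.Ws

variable {𝕜 : Type*} [RCLike 𝕜] {X : Type*} [NormedAddCommGroup X] [NormedSpace 𝕜 X]

/-- The projective orbit `{c T^n x : n ≥ 0, c scalar}`. -/
def projOrbit (T : X →L[𝕜] X) (x : X) : Set X := {y | ∃ (c : 𝕜) (n : ℕ), y = c • (T ^ n) x}

variable (𝕜) in
/-- The sequence `u` converges weakly to `y`. -/
def WeakLim (u : ℕ → X) (y : X) : Prop :=
  ∀ f : StrongDual 𝕜 X, Tendsto (fun n => f (u n)) atTop (𝓝 (f y))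

variable (𝕜) in
/-- `[A]_1`: the set of weak limits of sequences of elements of `A`. -/
def seqLimits (A : Set X) : Set X := {y | ∃ u : ℕ → X, (∀ n, u n ∈ A) ∧ WeakLim 𝕜 u y}

variable (𝕜) in
/-- `A` is weakly sequentially closed. -/
def WeakSeqClosed (A : Set X) : Prop := seqLimits 𝕜 A = A

variable (𝕜) in
/-- The weak sequential closure: the smallest weakly sequentially closed set containing `A`. -/
def weakSeqClosure (A : Set X) : Set X := ⋂₀ {S | A ⊆ S ∧ WeakSeqClosed 𝕜 S}

/-- Weakly sequentially supercyclic operators. -/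
def WeakSeqSupercyclic (T : X →L[𝕜] X) : Prop :=
  ∃ x : X, weakSeqClosure 𝕜 (projOrbit T x) = Set.univ

/-- Weakly 1-sequentially supercyclic operators. -/
def Weak1SeqSupercyclic (T : X →L[𝕜] X) : Prop :=
  ∃ x : X, seqLimits 𝕜 (projOrbit T x) = Set.univ

end Q100.Ws
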