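import Pool.Agent.Q100.WsMul

/-!
# A unitary operator that is weakly sequentially but not weakly 1-sequentially supercyclic
-/

set_option autoImplicit false
open Filter Topology MeasureTheory
open scoped ENNReal InnerProductSpace

namespace Q100.Ws

section general

variable {Ω : Type*} [MeasurableSpace Ω] {μ : Measure Ω} [IsProbabilityMeasure μ]

/-- the class of a unimodular function -/
lemma memLp_uni {u : Ω → ℂ} (hu : Measurable u) (h1 : ∀ ω, ‖u ω‖ = 1) : MemLp u 2 μ :=
  MemLp.of_bound hu.aestronglyMeasurable 1 (Eventually.of_forall fun ω => (h1 ω).le)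

lemma WeakSeqClosed.mem {𝕜 X : Type*} [RCLike 𝕜] [NormedAddCommGroup X] [NormedSpace 𝕜 X]
    {S : Set X} (hS : WeakSeqClosed 𝕜 S) {u : ℕ → X} {y : X} (hu : ∀ n, u n ∈ S)
    (h : WeakLim 𝕜 u y) : y ∈ S := by
  rw [← hS]
  exact ⟨u, hu, h⟩

lemma WeakLim.of_tendsto {𝕜 X : Type*} [RCLike 𝕜] [NormedAddCommGroup X] [NormedSpace 𝕜 X]
    {u : ℕ → X} {y : X} (h : Tendsto u atTop (𝓝 y)) : WeakLim 𝕜 u y :=
  fun f => (f.continuous.tendsto y).comp h

lemma WeakLim.of_inner {H : Type*} [NormedAddCommGroup H] [InnerProductSpace ℂ H]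
    [CompleteSpace H] {u : ℕ → H} {y : H}
    (h : ∀ g : H, Tendsto (fun n => ⟪g, u n⟫_ℂ) atTop (𝓝 ⟪g, y⟫_ℂ)) : WeakLim ℂ u y := by
  intro f
  obtain ⟨g, rfl⟩ := (InnerProductSpace.toDual ℂ H).surjective f
  exact h g

lemma WeakSeqClosed.isClosed {𝕜 X : Type*} [RCLike 𝕜] [NormedAddCommGroup X] [NormedSpace 𝕜 X]
    {S : Set X} (hS : WeakSeqClosed 𝕜 S) : IsClosed S :=
  IsSeqClosed.isClosed fun _ _ hu h => hS.mem hu (WeakLim.of_tendsto h)

/-- two unimodular functions with a given mean -/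
noncomputable def half (s : ℝ) (z : ℂ) : ℂ :=
  (if z = 0 then 1 else z / (‖z‖ : ℂ)) * ((‖z‖ : ℂ) + (s : ℂ) * (Real.sqrt (1 - ‖z‖ ^ 2) : ℂ) * Complex.I)

lemma measurable_half (s : ℝ) : Measurable (half s) := by
  unfold half
  refine Measurable.mul (Measurable.ite (measurableSet_singleton 0) measurable_const ?_) ?_
  · exact measurable_id.div (Complex.measurable_ofReal.comp measurable_norm)
  · refine (Complex.measurable_ofReal.comp measurable_norm).add (Measurable.mul_const ?_ _)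
    refine Measurable.const_mul ?_ _
    exact Complex.measurable_ofReal.comp ((measurable_const.sub (measurable_norm.pow_const 2)).sqrt)

lemma norm_half {s : ℝ} (hs : s ^ 2 = 1) {z : ℂ} (hz : ‖z‖ ≤ 1) : ‖half s z‖ = 1 := by
  unfold half
  rw [norm_mul]
  have h1 : ‖(if z = 0 then 1 else z / (‖z‖ : ℂ) : ℂ)‖ = 1 := by
    split_ifs with h
    · exact norm_one
    · rw [norm_div, Complex.norm_real, norm_norm, div_self (norm_ne_zero_iff.2 h)]
  have h2 : ‖((‖z‖ : ℂ) + (s : ℂ) * (Real.sqrt (1 - ‖z‖ ^ 2) : ℂ) * Complex.I)‖ ^ 2 = 1 := by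
    rw [← Complex.ofReal_mul, ← Complex.normSq_eq_norm_sq, Complex.normSq_add_mul_I]
    rw [mul_pow, hs, one_mul, Real.sq_sqrt (by nlinarith [norm_nonneg z])]
    ring
  have h3 : ‖((‖z‖ : ℂ) + (s : ℂ) * (Real.sqrt (1 - ‖z‖ ^ 2) : ℂ) * Complex.I)‖ = 1 := by
    have h4 := norm_nonneg ((‖z‖ : ℂ) + (s : ℂ) * (Real.sqrt (1 - ‖z‖ ^ 2) : ℂ) * Complex.I)
    nlinarith
  rw [h1, h3, one_mul]

lemma half_add (z : ℂ) : (half 1 z + half (-1) z) / 2 = z := by
  unfold half
  by_cases h : z = 0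
  · simp [h]
  · rw [if_neg h]
    have : (‖z‖ : ℂ) ≠ 0 := by exact_mod_cast norm_ne_zero_iff.2 h
    push_cast
    field_simp
    ring

/-- The main step: if a weakly sequentially closed set contains all multiples of a dense sequence
of unimodular functions, and there is a Rademacher sequence, then it is everything. -/
lemma eq_univ_of_unimodular {S : Set (Lp ℂ 2 μ)} (hS : WeakSeqClosed ℂ S)
    (hU : ∀ (u : Ω → ℂ) (hu : Measurable u) (h1 : ∀ ω, ‖u ω‖ = 1) (c : ℂ),
      c • (memLp_uni (μ := μ) hu h1).toLp u ∈ S)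
    (r : ℕ → Ω → Bool) (hr : ∀ n, Measurable (r n))
    (hr0 : ∀ g : Lp ℂ 2 μ, Tendsto (fun n => ∫ ω, (if r n ω = true then (1 : ℂ) else -1) * g ω ∂μ)
      atTop (𝓝 0)) : S = Set.univ := by
  have hrs : ∀ n, MeasurableSet {ω | r n ω = true} := fun n => hr n (measurableSet_singleton true)
  -- step 1: means of two unimodular functions
  have step1 : ∀ (u v : Ω → ℂ) (hu : Measurable u) (hu1 : ∀ ω, ‖u ω‖ = 1) (hv : Measurable v)
      (hv1 : ∀ ω, ‖v ω‖ = 1) (c : ℂ) (y : Lp ℂ 2 μ),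
      (y : Ω → ℂ) =ᵐ[μ] (fun ω => c * ((u ω + v ω) / 2)) → y ∈ S := by
    intro u v hu hu1 hv hv1 c y hy
    set w : ℕ → Ω → ℂ := fun n ω => if r n ω = true then u ω else v ω with hw
    have hwm : ∀ n, Measurable (w n) := fun n => Measurable.ite (hrs n) hu hv
    have hw1 : ∀ n ω, ‖w n ω‖ = 1 := by
      intro n ω; simp only [hw]; split_ifs; exacts [hu1 ω, hv1 ω]
    refine hS.mem (u := fun n => c • (memLp_uni (μ := μ) (hwm n) (hw1 n)).toLp (w n))
      (fun n => hU _ (hwm n) (hw1 n) c) (WeakLim.of_inner fun h => ?_)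
    -- the function `c (u - v) / 2 * conj h`
    have hg : MemLp (fun ω => c * ((u ω - v ω) / 2) * (starRingEnd ℂ) (h ω)) 2 μ := by
      have hh : MemLp (fun ω => (starRingEnd ℂ) (h ω)) 2 μ := (Lp.memLp h).star
      refine MemLp.of_le_mul (c := ‖c‖) hh ?_ ?_
      · exact (((measurable_const.mul ((hu.sub hv).div_const _))).aestronglyMeasurable).mul
          hh.aestronglyMeasurable
      · filter_upwards with ω
        rw [norm_mul, norm_mul, norm_div]
        have : ‖u ω - v ω‖ ≤ 2 := (norm_sub_le _ _).trans (by rw [hu1, hv1]; norm_num)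
        have h2 : ‖u ω - v ω‖ / ‖(2 : ℂ)‖ ≤ 1 := by
          rw [Complex.norm_ofNat, div_le_one (by norm_num)]; exact this
        calc ‖c‖ * (‖u ω - v ω‖ / ‖(2 : ℂ)‖) * ‖(starRingEnd ℂ) (h ω)‖
            ≤ ‖c‖ * 1 * ‖(starRingEnd ℂ) (h ω)‖ := by gcongr
          _ = _ := by rw [mul_one]
    have h3 := hr0 (hg.toLp _)
    have h4 : ∀ n, ⟪h, c • (memLp_uni (μ := μ) (hwm n) (hw1 n)).toLp (w n)⟫_ℂ =
        ⟪h, y⟫_ℂ + ∫ ω, (if r n ω = true then (1 : ℂ) else -1) *
          (hg.toLp _ : Lp ℂ 2 μ) ω ∂μ := by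
      intro n
      rw [L2.inner_def, L2.inner_def, ← integral_add (L2.integrable_inner h y)]
      · apply integral_congr_ae
        filter_upwards [Lp.coeFn_smul c ((memLp_uni (μ := μ) (hwm n) (hw1 n)).toLp (w n)),
          (memLp_uni (μ := μ) (hwm n) (hw1 n)).coeFn_toLp, hg.coeFn_toLp, hy] with ω e1 e2 e3 e4
        rw [e1, Pi.smul_apply, e2, e3, e4]
        simp only [RCLike.inner_apply, smul_eq_mul, hw]
        by_cases hrn : r n ω = true
        · rw [if_pos hrn, if_pos hrn]; ring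
        · rw [if_neg hrn, if_neg hrn]; ring
      · have hi : Integrable (hg.toLp _ : Lp ℂ 2 μ) μ :=
          (Lp.memLp _).integrable (by norm_num)
        refine Integrable.bdd_mul (c := 1) hi ?_ ?_
        · refine Measurable.aestronglyMeasurable ?_
          exact Measurable.ite (hrs n) measurable_const measurable_const
        · filter_upwards with ω
          split_ifs <;> simp
    simp_rw [h4]
    simpa using h3.const_add ⟪h, y⟫_ℂ
  -- step 2: simple functions
  rw [Set.eq_univ_iff_forall]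
  intro y
  refine (Lp.simpleFunc.denseRange (E := ℂ) (p := 2) (μ := μ) (by norm_num)).induction_on y
    hS.isClosed ?_
  intro s
  obtain ⟨M, hM⟩ := (Lp.simpleFunc.toSimpleFunc s).exists_forall_norm_le
  set M' : ℝ := max M 1 with hM'
  have hM'0 : 0 < M' := lt_of_lt_of_le one_pos (le_max_right _ _)
  set f : Ω → ℂ := fun ω => (Lp.simpleFunc.toSimpleFunc s) ω / (M' : ℂ) with hf
  have hfm : Measurable f := ((Lp.simpleFunc.toSimpleFunc s).measurable).div_const _
  have hf1 : ∀ ω, ‖f ω‖ ≤ 1 := by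
    intro ω
    simp only [hf, norm_div, Complex.norm_real, Real.norm_of_nonneg hM'0.le]
    rw [div_le_one hM'0]
    exact (hM ω).trans (le_max_left _ _)
  refine step1 (fun ω => half 1 (f ω)) (fun ω => half (-1) (f ω)) ((measurable_half 1).comp hfm)
    (fun ω => norm_half (by norm_num) (hf1 ω)) ((measurable_half (-1)).comp hfm)
    (fun ω => norm_half (by norm_num) (hf1 ω)) (M' : ℂ) _ ?_
  filter_upwards [Lp.simpleFunc.toSimpleFunc_eq_toFun s] with ω e1
  rw [half_add, ← e1]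
  simp only [hf]
  have : (M' : ℂ) ≠ 0 := by exact_mod_cast hM'0.ne'
  field_simp

/-- The multiplication operator whose symbol is produced by `exists_symbol` from a dense sequence of
unimodular functions is weakly sequentially supercyclic. -/
lemma exists_supercyclic [MeasurableSpace.CountablyGenerated Ω] (r : ℕ → Ω → Bool)
    (hr : ∀ n, Measurable (r n))
    (hr0 : ∀ g : Lp ℂ 2 μ, Tendsto (fun n => ∫ ω, (if r n ω = true then (1 : ℂ) else -1) * g ω ∂μ)
      atTop (𝓝 0)) :
    ∃ (φ : Ω → ℂ) (hφ : Measurable φ) (h1 : ∀ ω, ‖φ ω‖ = 1),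
      WeakSeqSupercyclic (mulOp φ hφ h1 : Lp ℂ 2 μ →L[ℂ] Lp ℂ 2 μ) := by
  classical
  haveI : Fact ((2 : ℝ≥0∞) ≠ ∞) := ⟨by norm_num⟩
  set Un : Set (Lp ℂ 2 μ) := {g | ∀ᵐ ω ∂μ, ‖g ω‖ = 1} with hUn
  have hone : (memLp_uni (μ := μ) (u := fun _ => (1 : ℂ)) measurable_const
      (fun _ => norm_one)).toLp _ ∈ Un := by
    filter_upwards [(memLp_uni (μ := μ) (u := fun _ => (1 : ℂ)) measurable_const
      (fun _ => norm_one)).coeFn_toLp] with ω e
    rw [e, norm_one]
  haveI : Nonempty Un := ⟨⟨_, hone⟩⟩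
  obtain ⟨G, hG⟩ := TopologicalSpace.exists_dense_seq Un
  set F : ℕ → Ω → ℂ := fun k ω => if ‖((G k.unpair.1 : Un) : Lp ℂ 2 μ) ω‖ = 1 then
    ((G k.unpair.1 : Un) : Lp ℂ 2 μ) ω else 1 with hF
  have hFm : ∀ k, Measurable (F k) := by
    intro k
    have h2 : Measurable (((G k.unpair.1 : Un) : Lp ℂ 2 μ) : Ω → ℂ) :=
      (Lp.stronglyMeasurable _).measurable
    exact Measurable.ite (h2.norm (measurableSet_singleton 1)) h2 measurable_const
  have hF1 : ∀ k ω, ‖F k ω‖ = 1 := by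
    intro k ω
    simp only [hF]
    split_ifs with h
    · exact h
    · exact norm_one
  have hFG : ∀ k, F k =ᵐ[μ] (((G k.unpair.1 : Un) : Lp ℂ 2 μ) : Ω → ℂ) := by
    intro k
    filter_upwards [(G k.unpair.1).2] with ω e
    simp only [hF, e, if_true]
  obtain ⟨φ, hφ, h1, hφF⟩ := exists_symbol F hFm hF1
  refine ⟨φ, hφ, h1, (memLp_uni (μ := μ) (u := fun _ => (1 : ℂ)) measurable_const
      (fun _ => norm_one)).toLp _, ?_⟩
  set x : Lp ℂ 2 μ := (memLp_uni (μ := μ) (u := fun _ => (1 : ℂ)) measurable_const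
      (fun _ => norm_one)).toLp _ with hx
  have hx1 : (x : Ω → ℂ) =ᵐ[μ] fun _ => (1 : ℂ) := MemLp.coeFn_toLp _
  rw [Set.eq_univ_iff_forall]
  intro y
  simp only [weakSeqClosure, Set.mem_sInter, Set.mem_ofPred_eq]
  rintro S ⟨hOS, hS⟩
  suffices h : S = Set.univ by rw [h]; exact Set.mem_univ y
  have hclosed := hS.isClosed
  refine eq_univ_of_unimodular hS ?_ r hr hr0
  -- the dense sequence
  have hGS : ∀ (k : ℕ) (c : ℂ), c • ((G k : Un) : Lp ℂ 2 μ) ∈ S := by
    intro k c
    refine hclosed.mem_of_tendsto (f := fun i : ℕ => c • (((mulOp φ hφ h1 : Lp ℂ 2 μ →L[ℂ] Lp ℂ 2 μ) ^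
      (ex (Nat.pair k i))) x)) (b := atTop) ?_ (Eventually.of_forall fun i => hOS ⟨c, _, rfl⟩)
    refine Tendsto.const_smul ?_ c
    rw [tendsto_iff_norm_sub_tendsto_zero]
    have h3 : ∀ i : ℕ, ‖((mulOp φ hφ h1 : Lp ℂ 2 μ →L[ℂ] Lp ℂ 2 μ) ^ (ex (Nat.pair k i))) x -
        ((G k : Un) : Lp ℂ 2 μ)‖ ≤ 2 * Real.pi * (1 / 2) ^ i := by
      intro i
      have h4 : ‖((mulOp φ hφ h1 : Lp ℂ 2 μ →L[ℂ] Lp ℂ 2 μ) ^ (ex (Nat.pair k i))) x -
        ((G k : Un) : Lp ℂ 2 μ)‖ ≤ 2 * Real.pi * (1 / 2) ^ (Nat.pair k i) := by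
        have h5 := Lp.norm_le_of_ae_bound (μ := μ) (p := 2)
          (f := ((mulOp φ hφ h1 : Lp ℂ 2 μ →L[ℂ] Lp ℂ 2 μ) ^ (ex (Nat.pair k i))) x -
            ((G k : Un) : Lp ℂ 2 μ)) (C := 2 * Real.pi * (1 / 2) ^ (Nat.pair k i))
          (by positivity) (by
            filter_upwards [Lp.coeFn_sub (((mulOp φ hφ h1 : Lp ℂ 2 μ →L[ℂ] Lp ℂ 2 μ) ^
              (ex (Nat.pair k i))) x) ((G k : Un) : Lp ℂ 2 μ), mulOp_pow φ hφ h1
              (ex (Nat.pair k i)) x, hx1, hFG (Nat.pair k i)] with ω e1 e2 e3 e4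
            rw [e1, Pi.sub_apply, e2, e3, mul_one]
            rw [Nat.unpair_pair] at e4
            rw [← e4]
            exact hφF _ ω)
        have h5' : (measureUnivNNReal μ : ℝ) = 1 := by simp [measureUnivNNReal]
        rw [h5', Real.one_rpow, one_mul] at h5
        exact h5
      refine h4.trans ?_
      have : i ≤ Nat.pair k i := Nat.right_le_pair k i
      gcongr 2 * Real.pi * ?_
      exact pow_le_pow_of_le_one (by norm_num) (by norm_num) this
    refine squeeze_zero (fun i => norm_nonneg _) h3 ?_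
    simpa using (tendsto_pow_atTop_nhds_zero_of_lt_one (r := (1 : ℝ) / 2) (by norm_num)
      (by norm_num)).const_mul (2 * Real.pi)
  intro u hu hu1 c
  set U0 : Lp ℂ 2 μ := (memLp_uni (μ := μ) hu hu1).toLp u with hU0
  have hU0m : U0 ∈ Un := by
    filter_upwards [(memLp_uni (μ := μ) hu hu1).coeFn_toLp] with ω e
    rw [e, hu1]
  have h6 : (⟨U0, hU0m⟩ : Un) ∈ closure (Set.range G) := hG _
  rw [mem_closure_iff_seq_limit] at h6
  obtain ⟨w, hw, hlim⟩ := h6
  refine hclosed.mem_of_tendsto (f := fun i : ℕ => c • ((w i : Un) : Lp ℂ 2 μ)) (b := atTop) ?_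
    (Eventually.of_forall fun i => ?_)
  · exact ((continuous_subtype_val.tendsto _).comp hlim).const_smul c
  · obtain ⟨k, hk⟩ := hw i
    simp only [← hk]
    exact hGS k c

end general

/-! ### The fair coin space -/

/-- the fair coin measure on `Bool` -/
noncomputable def coin : Measure Bool := (2 : ℝ≥0∞)⁻¹ • (Measure.dirac true + Measure.dirac false)

instance : IsProbabilityMeasure coin := by
  constructor
  simp only [coin, Measure.smul_apply, Measure.add_apply, measure_univ, smul_eq_mul]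
  rw [one_add_one_eq_two, ENNReal.inv_mul_cancel (by norm_num) (by norm_num)]

/-- the product of countably many fair coins -/
noncomputable def coins : Measure (ℕ → Bool) := Measure.infinitePi (fun _ => coin)

instance : IsProbabilityMeasure coins := by unfold coins; infer_instance

/-- sign of a coin -/
def sg (b : Bool) : ℂ := if b = true then 1 else -1

lemma measurable_sg : Measurable sg := measurable_of_countable _

lemma integral_sg : ∫ b, sg b ∂coin = 0 := by
  have h1 : Integrable sg (Measure.dirac true) := integrable_dirac (by simp)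
  have h2 : Integrable sg (Measure.dirac false) := integrable_dirac (by simp)
  rw [coin, integral_smul_measure, integral_add_measure h1 h2, integral_dirac, integral_dirac]
  simp [sg]

lemma integral_sg_coord (n : ℕ) : ∫ ω, sg (ω n) ∂coins = 0 := by
  have h := (measurePreserving_eval_infinitePi (fun _ : ℕ => coin) n)
  have h2 : ∫ ω, sg (ω n) ∂coins = ∫ b, sg b ∂coin := by
    rw [← h.map_eq, integral_map h.measurable.aemeasurable measurable_sg.aestronglyMeasurable]
    rfl
  rw [h2, integral_sg]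

lemma integral_sg_mul {m n : ℕ} (hmn : m ≠ n) : ∫ ω, sg (ω m) * sg (ω n) ∂coins = 0 := by
  have h1 : ProbabilityTheory.iIndepFun (fun i (ω : ℕ → Bool) => sg (ω i)) coins :=
    ProbabilityTheory.iIndepFun_infinitePi (P := fun _ => coin) (X := fun _ => sg)
      (fun _ => measurable_sg)
  have h2 := (h1.indepFun hmn).integral_fun_mul_eq_mul_integral
    (measurable_sg.comp (measurable_pi_apply m)).aestronglyMeasurable
    (measurable_sg.comp (measurable_pi_apply n)).aestronglyMeasurable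
  rw [h2, integral_sg_coord, zero_mul]

lemma sg_norm (b : Bool) : ‖sg b‖ = 1 := by cases b <;> simp [sg]

lemma sg_conj (b : Bool) : (starRingEnd ℂ) (sg b) = sg b := by cases b <;> simp [sg]

lemma sg_sq (b : Bool) : sg b * sg b = 1 := by cases b <;> simp [sg]

/-- The Rademacher functions. -/
noncomputable def rad (n : ℕ) : Lp ℂ 2 coins :=
  (memLp_uni (μ := coins) (u := fun ω => sg (ω n)) (measurable_sg.comp (measurable_pi_apply n))
    (fun _ => sg_norm _)).toLp _

lemma rad_coe (n : ℕ) : (rad n : (ℕ → Bool) → ℂ) =ᵐ[coins] fun ω => sg (ω n) :=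
  MemLp.coeFn_toLp _

lemma orthonormal_rad : Orthonormal ℂ rad := by
  classical
  rw [orthonormal_iff_ite]
  intro m n
  rw [L2.inner_def]
  have h1 : ∫ ω, ⟪rad m ω, rad n ω⟫_ℂ ∂coins = ∫ ω, sg (ω m) * sg (ω n) ∂coins := by
    apply integral_congr_ae
    filter_upwards [rad_coe m, rad_coe n] with ω e1 e2
    rw [e1, e2, RCLike.inner_apply, sg_conj, mul_comm]
  rw [h1]
  split_ifs with h
  · subst h
    simp [sg_sq]
  · exact integral_sg_mul h

lemma rad_tendsto (g : Lp ℂ 2 coins) :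
    Tendsto (fun n => ∫ ω, (if ω n = true then (1 : ℂ) else -1) * g ω ∂coins) atTop (𝓝 0) := by
  have h1 := (orthonormal_rad.inner_products_summable g).tendsto_atTop_zero
  have h2 : Tendsto (fun n => ‖⟪rad n, g⟫_ℂ‖) atTop (𝓝 0) := by
    have h3 := h1.sqrt
    simpa [Real.sqrt_sq] using h3
  rw [tendsto_zero_iff_norm_tendsto_zero]
  refine h2.congr fun n => ?_
  rw [L2.inner_def]
  congr 1
  apply integral_congr_ae
  filter_upwards [rad_coe n] with ω e1
  rw [e1, RCLike.inner_apply, sg_conj, mul_comm]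
  rfl

/-- Boxes have small positive measure. -/
lemma coins_box (m : ℕ) : coins {ω | ∀ i ∈ Finset.range m, ω i = true} = (2 : ℝ≥0∞)⁻¹ ^ m := by
  have h1 : {ω : ℕ → Bool | ∀ i ∈ Finset.range m, ω i = true} =
      Set.pi (Finset.range m : Set ℕ) (fun _ => {true}) := by
    ext ω; simp [Set.mem_pi]
  rw [h1, coins, Measure.infinitePi_pi (fun _ => coin) (fun i _ => measurableSet_singleton true)]
  have h2 : coin {true} = (2 : ℝ≥0∞)⁻¹ := by
    simp [coin]
  rw [h2, Finset.prod_const, Finset.card_range]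

/-- The norm of `L²` is not dominated by a weighted `L¹`-norm. -/
lemma not_dominated (x : Lp ℂ 2 coins) (C : ℝ) (hC : 0 ≤ C)
    (h : ∀ h : Lp ℂ 2 coins, ‖h‖ ≤ C * ∫ ω, ‖x ω‖ * ‖h ω‖ ∂coins) : False := by
  set B : ℕ → Set (ℕ → Bool) := fun m => {ω | ∀ i ∈ Finset.range m, ω i = true} with hB
  have hBm : ∀ m, MeasurableSet (B m) := by
    intro m
    simp only [hB, Set.ofPred_forall]
    refine MeasurableSet.iInter fun i => MeasurableSet.iInter fun _ => ?_
    have : Measurable (fun ω : ℕ → Bool => ω i) := measurable_pi_apply i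
    exact this (measurableSet_singleton true)
  have hμB : ∀ m, coins (B m) = (2 : ℝ≥0∞)⁻¹ ^ m := coins_box
  have hxi : Integrable (fun ω => ‖x ω‖ ^ 2) coins := (Lp.memLp x).integrable_norm_pow (by norm_num)
  have hx1 : Integrable (fun ω => ‖x ω‖) coins := ((Lp.memLp x).integrable (by norm_num)).norm
  have hlim : Tendsto (fun m => ∫ ω in B m, ‖x ω‖ ^ 2 ∂coins) atTop (𝓝 0) := by
    refine hxi.tendsto_setIntegral_nhds_zero ?_
    have : (coins ∘ B) = fun m => (2 : ℝ≥0∞)⁻¹ ^ m := funext hμB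
    rw [this]
    exact ENNReal.tendsto_pow_atTop_nhds_zero_of_lt_one (by
      rw [ENNReal.inv_lt_one]; norm_num)
  set δ : ℝ := 1 / (2 * (C + 1)) with hδ
  have hδ0 : 0 < δ := by positivity
  have hev : ∀ᶠ m in atTop, ∫ ω in B m, ‖x ω‖ ^ 2 ∂coins < δ / (2 * (C + 1)) :=
    hlim.eventually_lt_const (by positivity)
  obtain ⟨m, hm⟩ := hev.exists
  set I : ℝ := ∫ ω in B m, ‖x ω‖ ^ 2 ∂coins with hI
  set b : ℝ := Real.sqrt (coins.real (B m)) with hb
  have hreal : 0 < coins.real (B m) := by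
    rw [measureReal_def, hμB m]
    simp
  have hb0 : 0 < b := Real.sqrt_pos.2 hreal
  have hb2 : b ^ 2 = coins.real (B m) := Real.sq_sqrt hreal.le
  set g : Lp ℂ 2 coins := indicatorConstLp 2 (hBm m) (measure_ne_top _ _) (1 : ℂ) with hg
  have hgn : ‖g‖ = b := by
    rw [hg, norm_indicatorConstLp (by norm_num) (by norm_num), norm_one, one_mul, hb,
      Real.sqrt_eq_rpow]
    norm_num
  have h1 := h g
  rw [hgn] at h1
  have h2 : ∫ ω, ‖x ω‖ * ‖g ω‖ ∂coins = ∫ ω in B m, ‖x ω‖ ∂coins := by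
    rw [← integral_indicator (hBm m)]
    apply integral_congr_ae
    filter_upwards [indicatorConstLp_coeFn (p := 2) (hs := hBm m) (hμs := measure_ne_top coins _)
      (c := (1 : ℂ))] with ω e1
    rw [hg, e1]
    by_cases hω : ω ∈ B m
    · simp [hω]
    · simp [hω]
  have h3 : ∫ ω in B m, ‖x ω‖ ∂coins ≤ b / (2 * δ) * I + b * δ / 2 := by
    have h4 : ∫ ω in B m, ‖x ω‖ ∂coins ≤
        ∫ ω in B m, (b / (2 * δ) * ‖x ω‖ ^ 2 + δ / (2 * b)) ∂coins := by
      refine setIntegral_mono hx1.integrableOn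
        ((hxi.integrableOn.const_mul _).add (integrable_const _)) ?_
      intro ω
      have h5 : 0 ≤ (b * ‖x ω‖ - δ) ^ 2 / (2 * b * δ) := by positivity
      have h6 : (b * ‖x ω‖ - δ) ^ 2 / (2 * b * δ) =
          b / (2 * δ) * ‖x ω‖ ^ 2 + δ / (2 * b) - ‖x ω‖ := by
        field_simp
        ring
      simp only
      linarith
    refine h4.trans (le_of_eq ?_)
    rw [integral_add (hxi.integrableOn.const_mul _) (integrable_const _), integral_const_mul,
      integral_const, measureReal_restrict_apply_univ, ← hb2, smul_eq_mul, ← hI]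
    field_simp
  rw [h2] at h1
  have h7 : b ≤ C * (b / (2 * δ) * I + b * δ / 2) := h1.trans (mul_le_mul_of_nonneg_left h3 hC)
  have h8 : C * (b / (2 * δ) * I + b * δ / 2) = b * (C * (I / (2 * δ) + δ / 2)) := by
    field_simp
  rw [h8] at h7
  have h9 : C * (I / (2 * δ) + δ / 2) < 1 := by
    have e1 : I / (2 * δ) < 1 / (4 * (C + 1)) := by
      rw [div_lt_iff₀ (by positivity)]
      calc I < δ / (2 * (C + 1)) := hm
        _ = 1 / (4 * (C + 1)) * (2 * δ) := by field_simp; ring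
    have e2 : δ / 2 = 1 / (4 * (C + 1)) := by rw [hδ]; field_simp; ring
    have e3 : C * (I / (2 * δ) + δ / 2) ≤ C * (1 / (4 * (C + 1)) + 1 / (4 * (C + 1))) := by
      apply mul_le_mul_of_nonneg_left _ hC
      rw [e2]; linarith
    have e4 : C * (1 / (4 * (C + 1)) + 1 / (4 * (C + 1))) = C / (2 * (C + 1)) := by
      field_simp; ring
    have e5 : C / (2 * (C + 1)) < 1 := by
      rw [div_lt_one (by positivity)]; linarith
    linarith
  have h10 : b * (C * (I / (2 * δ) + δ / 2)) < b * 1 := mul_lt_mul_of_pos_left h9 hb0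
  linarith

lemma not_weak1 (φ : (ℕ → Bool) → ℂ) (hφ : Measurable φ) (h1 : ∀ ω, ‖φ ω‖ = 1) :
    ¬ Weak1SeqSupercyclic (mulOp φ hφ h1 : Lp ℂ 2 coins →L[ℂ] Lp ℂ 2 coins) := by
  rintro ⟨x, hx⟩
  have hx0 : x ≠ 0 := by
    rintro rfl
    have h2 : rad 0 ∈ seqLimits ℂ
        (projOrbit (mulOp φ hφ h1 : Lp ℂ 2 coins →L[ℂ] Lp ℂ 2 coins) 0) := by
      rw [hx]; exact Set.mem_univ _
    obtain ⟨u, hu, hw⟩ := h2
    have hu0 : ∀ n, u n = 0 := by
      intro n
      obtain ⟨c, k, hc⟩ := hu n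
      rw [hc, map_zero, smul_zero]
    have h3 := hw (InnerProductSpace.toDual ℂ _ (rad 0))
    simp only [hu0, map_zero, InnerProductSpace.toDual_apply_apply] at h3
    have h4 : ⟪rad 0, rad 0⟫_ℂ = 0 := (tendsto_nhds_unique h3 tendsto_const_nhds)
    rw [inner_self_eq_zero] at h4
    have h5 := orthonormal_rad.1 0
    rw [h4, norm_zero] at h5
    exact zero_ne_one h5
  obtain ⟨C, hC, h2⟩ := norm_le_of_oneSeq φ hφ h1 x hx0 hx
  exact not_dominated x C hC h2

/-- There is a unitary operator on a separable complex Hilbert space that is weakly sequentially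
supercyclic but not weakly 1-sequentially supercyclic. -/
theorem main : ∃ (H : Type) (_ : NormedAddCommGroup H) (_ : InnerProductSpace ℂ H)
    (_ : CompleteSpace H) (_ : TopologicalSpace.SeparableSpace H) (U : H ≃ₗᵢ[ℂ] H),
    WeakSeqSupercyclic (U.toContinuousLinearEquiv.toContinuousLinearMap : H →L[ℂ] H) ∧
    ¬ Weak1SeqSupercyclic (U.toContinuousLinearEquiv.toContinuousLinearMap : H →L[ℂ] H) := by
  haveI : Fact ((2 : ℝ≥0∞) ≠ ∞) := ⟨by norm_num⟩
  obtain ⟨φ, hφ, h1, h2⟩ := exists_supercyclic (μ := coins) (fun n ω => ω n)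
    (fun n => measurable_pi_apply n) rad_tendsto
  exact ⟨Lp ℂ 2 coins, inferInstance, inferInstance, inferInstance, inferInstance,
    mulEquiv φ hφ h1, h2, not_weak1 φ hφ h1⟩

end Q100.Ws
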