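import Mathlib

/-!
# A symbol whose powers approximate a given sequence of unimodular functions
-/

set_option autoImplicit false
open Filter Topology MeasureTheory

namespace Q100.Ws

/-- the exponents -/
def ex (k : ℕ) : ℕ := 2 ^ (k ^ 2)

section
variable {Ω : Type*} (t : ℕ → Ω → ℝ)

/-- partial sums of the angle -/
noncomputable def Th : ℕ → Ω → ℝ
  | 0, _ => 0
  | k + 1, ω => Th k ω + Int.fract (t k ω - (ex k : ℝ) * Th k ω) / (ex k : ℝ)

/-- increments of the angle -/
noncomputable def de (k : ℕ) (ω : Ω) : ℝ := Int.fract (t k ω - (ex k : ℝ) * Th t k ω) / (ex k : ℝ)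

lemma Th_succ (k : ℕ) (ω : Ω) : Th t (k + 1) ω = Th t k ω + de t k ω := rfl

lemma ex_pos (k : ℕ) : (0 : ℝ) < (ex k : ℝ) := by
  have : 0 < ex k := by unfold ex; positivity
  exact_mod_cast this

lemma de_nonneg (k : ℕ) (ω : Ω) : 0 ≤ de t k ω := div_nonneg (Int.fract_nonneg _) (ex_pos k).le

lemma de_le (k : ℕ) (ω : Ω) : de t k ω ≤ 1 / (ex k : ℝ) :=
  div_le_div_of_nonneg_right (Int.fract_lt_one _).le (ex_pos k).le

lemma ex_ratio (k j : ℕ) :
    (ex k : ℝ) * (1 / (ex (j + (k + 1)) : ℝ)) ≤ (1 / 2) ^ (k + 1) * (1 / 2) ^ j := by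
  have h1 : (ex (j + (k + 1)) : ℝ) = (ex k : ℝ) * 2 ^ ((j + 1) * (j + 2 * k + 1)) := by
    unfold ex
    push_cast
    rw [← pow_add]
    congr 1
    ring
  rw [h1]
  have h2 : (0 : ℝ) < ex k := ex_pos k
  have h3 : (ex k : ℝ) * (1 / ((ex k : ℝ) * 2 ^ ((j + 1) * (j + 2 * k + 1)))) =
      (1 / 2) ^ ((j + 1) * (j + 2 * k + 1)) := by
    rw [one_div_pow]
    field_simp
  rw [h3, ← pow_add]
  apply pow_le_pow_of_le_one (by norm_num) (by norm_num)
  nlinarith

lemma summable_de (ω : Ω) : Summable (fun k => de t k ω) := by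
  refine Summable.of_nonneg_of_le (fun k => de_nonneg t k ω) (fun k => de_le t k ω) ?_
  refine Summable.of_nonneg_of_le (fun k => by have := ex_pos k; positivity) (fun k => ?_)
    (summable_geometric_of_lt_one (r := (1 : ℝ) / 2) (by norm_num) (by norm_num))
  unfold ex
  push_cast
  rw [one_div_pow]
  apply one_div_le_one_div_of_le (by positivity)
  apply pow_le_pow_right₀ (by norm_num)
  nlinarith [sq_nonneg k, Nat.zero_le k, (Nat.le_self_pow (two_ne_zero) k)]

lemma Th_eq_sum (k : ℕ) (ω : Ω) : Th t k ω = ∑ j ∈ Finset.range k, de t j ω := by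
  induction k with
  | zero => simp [Th]
  | succ k ih => rw [Th_succ, Finset.sum_range_succ, ih]

/-- The angle. -/
noncomputable def ang (ω : Ω) : ℝ := ∑' k, de t k ω

lemma ang_sub (k : ℕ) (ω : Ω) :
    0 ≤ (ex k : ℝ) * ang t ω - (ex k : ℝ) * Th t (k + 1) ω ∧
    (ex k : ℝ) * ang t ω - (ex k : ℝ) * Th t (k + 1) ω ≤ (1 / 2) ^ k := by
  have h1 := (summable_de t ω).sum_add_tsum_nat_add (k + 1)
  have h2 : ang t ω - Th t (k + 1) ω = ∑' j, de t (j + (k + 1)) ω := by
    rw [ang, ← h1, Th_eq_sum]; ring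
  have h3 : (ex k : ℝ) * ang t ω - (ex k : ℝ) * Th t (k + 1) ω =
      ∑' j, (ex k : ℝ) * de t (j + (k + 1)) ω := by
    rw [← mul_sub, h2, tsum_mul_left]
  rw [h3]
  have hs : Summable (fun j => (ex k : ℝ) * de t (j + (k + 1)) ω) :=
    ((summable_nat_add_iff (k + 1)).2 (summable_de t ω)).mul_left _
  constructor
  · exact tsum_nonneg fun j => mul_nonneg (ex_pos k).le (de_nonneg t _ ω)
  · have hg : Summable (fun j : ℕ => ((1 : ℝ) / 2) ^ (k + 1) * (1 / 2) ^ j) :=
      (summable_geometric_of_lt_one (by norm_num) (by norm_num)).mul_left _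
    calc ∑' j, (ex k : ℝ) * de t (j + (k + 1)) ω
        ≤ ∑' j : ℕ, ((1 : ℝ) / 2) ^ (k + 1) * (1 / 2) ^ j := by
          refine hs.tsum_le_tsum (fun j => ?_) hg
          exact (mul_le_mul_of_nonneg_left (de_le t _ ω) (ex_pos k).le).trans (ex_ratio k j)
      _ = (1 / 2) ^ k := by
          rw [tsum_mul_left, tsum_geometric_of_lt_one (by norm_num) (by norm_num)]
          rw [pow_succ]; ring

lemma ex_Th (k : ℕ) (ω : Ω) :
    (ex k : ℝ) * Th t (k + 1) ω = t k ω - (⌊t k ω - (ex k : ℝ) * Th t k ω⌋ : ℝ) := by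
  have h := (ex_pos k).ne'
  rw [Th_succ, de, mul_add, mul_div_cancel₀ _ h]
  have := Int.self_sub_floor (t k ω - (ex k : ℝ) * Th t k ω)
  rw [← this]; ring

variable [MeasurableSpace Ω] {t}

lemma measurable_Th (ht : ∀ k, Measurable (t k)) (k : ℕ) : Measurable (Th t k) := by
  induction k with
  | zero => exact measurable_const
  | succ k ih =>
    have h2 : Measurable (fun ω => t k ω - (ex k : ℝ) * Th t k ω) := (ht k).sub (ih.const_mul _)
    exact ih.add ((measurable_fract.comp h2).div_const _)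

lemma measurable_ang (ht : ∀ k, Measurable (t k)) : Measurable (ang t) := by
  refine measurable_of_tendsto_metrizable (measurable_Th ht) ?_
  rw [tendsto_pi_nhds]
  intro ω
  have h := (summable_de t ω).hasSum.tendsto_sum_nat
  refine h.congr fun k => ?_
  rw [Th_eq_sum]

end

lemma norm_exp_sub_exp_le (a b : ℝ) :
    ‖Complex.exp (Complex.I * a) - Complex.exp (Complex.I * b)‖ ≤ |a - b| := by
  have h1 : Complex.exp (Complex.I * a) - Complex.exp (Complex.I * b) =
      Complex.exp (Complex.I * b) * (Complex.exp (Complex.I * ((a - b : ℝ) : ℂ)) - 1) := by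
    rw [mul_sub, ← Complex.exp_add, mul_one]
    congr 2
    push_cast; ring
  rw [h1, norm_mul, Complex.norm_exp_I_mul_ofReal, one_mul]
  exact Real.norm_exp_I_mul_ofReal_sub_one_le

/-- For every sequence `F` of unimodular measurable functions there are a unimodular measurable
function `φ` and exponents `n k` with `φ ^ (n k)` uniformly close to `F k`. -/
theorem exists_symbol {Ω : Type*} [MeasurableSpace Ω] (F : ℕ → Ω → ℂ)
    (hF : ∀ k, Measurable (F k)) (hF1 : ∀ k ω, ‖F k ω‖ = 1) :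
    ∃ φ : Ω → ℂ, Measurable φ ∧ (∀ ω, ‖φ ω‖ = 1) ∧
      ∀ k ω, ‖φ ω ^ (ex k) - F k ω‖ ≤ 2 * Real.pi * (1 / 2) ^ k := by
  set t : ℕ → Ω → ℝ := fun k ω => Complex.arg (F k ω) / (2 * Real.pi) with ht
  have htm : ∀ k, Measurable (t k) := fun k => (Complex.measurable_arg.comp (hF k)).div_const _
  refine ⟨fun ω => Complex.exp (Complex.I * ((2 * Real.pi * ang t ω : ℝ) : ℂ)), ?_, ?_, ?_⟩
  · have h1 : Measurable (fun ω => 2 * Real.pi * ang t ω) := (measurable_ang htm).const_mul _
    exact Complex.measurable_exp.comp ((Complex.measurable_ofReal.comp h1).const_mul _)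
  · intro ω
    exact Complex.norm_exp_I_mul_ofReal _
  · intro k ω
    have hpi : (0 : ℝ) < 2 * Real.pi := by positivity
    have h1 : F k ω = Complex.exp (Complex.I * ((2 * Real.pi * ((ex k : ℝ) * Th t (k + 1) ω) : ℝ) : ℂ)) := by
      rw [ex_Th]
      have h2 := Complex.norm_mul_exp_arg_mul_I (F k ω)
      rw [hF1, Complex.ofReal_one, one_mul] at h2
      set m : ℤ := ⌊t k ω - (ex k : ℝ) * Th t k ω⌋
      have h3 : (Complex.I * ((2 * Real.pi * (t k ω - (m : ℝ)) : ℝ) : ℂ)) =
          (Complex.arg (F k ω) : ℂ) * Complex.I - (m : ℂ) * (2 * Real.pi * Complex.I) := by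
        have h4 : 2 * Real.pi * t k ω = Complex.arg (F k ω) := by
          simp only [ht]; field_simp
        have h5 : (2 * Real.pi * (t k ω - (m : ℝ)) : ℝ) =
            Complex.arg (F k ω) - 2 * Real.pi * (m : ℝ) := by rw [mul_sub, h4]
        rw [h5]; push_cast; ring
      rw [h3, Complex.exp_sub, Complex.exp_int_mul_two_pi_mul_I, div_one, h2]
    have h6 : (Complex.exp (Complex.I * ((2 * Real.pi * ang t ω : ℝ) : ℂ))) ^ (ex k) =
        Complex.exp (Complex.I * ((2 * Real.pi * ((ex k : ℝ) * ang t ω) : ℝ) : ℂ)) := by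
      rw [← Complex.exp_nat_mul]
      congr 1
      push_cast; ring
    simp only
    rw [h6, h1]
    refine (norm_exp_sub_exp_le _ _).trans ?_
    obtain ⟨h7, h8⟩ := ang_sub t k ω
    rw [← mul_sub, abs_mul, abs_of_pos hpi, abs_of_nonneg h7]
    exact mul_le_mul_of_nonneg_left h8 hpi.le

end Q100.Ws
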