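import Pool.Agent.Q100.WsDefs
import Pool.Agent.Q100.WsSym

/-!
# Multiplication operators on `L²`
-/

set_option autoImplicit false
open Filter Topology MeasureTheory
open scoped ENNReal InnerProductSpace

namespace Q100.Ws

variable {Ω : Type*} [MeasurableSpace Ω] {μ : Measure Ω}

lemma memLp_mul {φ : Ω → ℂ} (hφ : Measurable φ) (h1 : ∀ ω, ‖φ ω‖ = 1) (f : Lp ℂ 2 μ) :
    MemLp (fun ω => φ ω * f ω) 2 μ := by
  refine MemLp.of_le (Lp.memLp f) (hφ.aestronglyMeasurable.mul (Lp.aestronglyMeasurable f)) ?_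
  filter_upwards with ω
  rw [norm_mul, h1, one_mul]

/-- Multiplication by a unimodular function. -/
noncomputable def mulLin (φ : Ω → ℂ) (hφ : Measurable φ) (h1 : ∀ ω, ‖φ ω‖ = 1) :
    Lp ℂ 2 μ →ₗᵢ[ℂ] Lp ℂ 2 μ where
  toFun f := (memLp_mul hφ h1 f).toLp _
  map_add' f g := by
    apply Lp.ext
    filter_upwards [(memLp_mul hφ h1 (f + g)).coeFn_toLp, Lp.coeFn_add f g,
      (memLp_mul hφ h1 f).coeFn_toLp, (memLp_mul hφ h1 g).coeFn_toLp,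
      Lp.coeFn_add ((memLp_mul hφ h1 f).toLp _) ((memLp_mul hφ h1 g).toLp _)] with ω e1 e2 e3 e4 e5
    rw [e1, e5, Pi.add_apply, e3, e4, e2, Pi.add_apply, mul_add]
  map_smul' c f := by
    apply Lp.ext
    filter_upwards [(memLp_mul hφ h1 (c • f)).coeFn_toLp, Lp.coeFn_smul c f,
      (memLp_mul hφ h1 f).coeFn_toLp, Lp.coeFn_smul c ((memLp_mul hφ h1 f).toLp _)]
      with ω e1 e2 e3 e4
    rw [e1, RingHom.id_apply, e4, Pi.smul_apply, e3, e2, Pi.smul_apply, smul_eq_mul, smul_eq_mul]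
    ring
  norm_map' f := by
    change ‖(memLp_mul hφ h1 f).toLp _‖ = ‖f‖
    rw [Lp.norm_toLp, Lp.norm_def]
    congr 1
    apply eLpNorm_congr_norm_ae
    filter_upwards with ω
    rw [norm_mul, h1, one_mul]

lemma mulLin_coe (φ : Ω → ℂ) (hφ : Measurable φ) (h1 : ∀ ω, ‖φ ω‖ = 1) (f : Lp ℂ 2 μ) :
    (mulLin φ hφ h1 f : Ω → ℂ) =ᵐ[μ] fun ω => φ ω * f ω :=
  (memLp_mul hφ h1 f).coeFn_toLp

/-- Multiplication by a unimodular function, as a unitary operator. -/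
noncomputable def mulEquiv (φ : Ω → ℂ) (hφ : Measurable φ) (h1 : ∀ ω, ‖φ ω‖ = 1) :
    Lp ℂ 2 μ ≃ₗᵢ[ℂ] Lp ℂ 2 μ :=
  LinearIsometryEquiv.ofSurjective (mulLin φ hφ h1) (by
    intro g
    have hc : Measurable (fun ω => (starRingEnd ℂ) (φ ω)) := Complex.continuous_conj.measurable.comp hφ
    have hc1 : ∀ ω, ‖(starRingEnd ℂ) (φ ω)‖ = 1 := fun ω => by rw [RCLike.norm_conj, h1]
    refine ⟨mulLin _ hc hc1 g, ?_⟩
    apply Lp.ext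
    filter_upwards [mulLin_coe φ hφ h1 (mulLin _ hc hc1 g), mulLin_coe _ hc hc1 g] with ω e1 e2
    rw [e1, e2, ← mul_assoc, Complex.mul_conj, Complex.normSq_eq_norm_sq, h1]
    simp)

lemma mulEquiv_coe (φ : Ω → ℂ) (hφ : Measurable φ) (h1 : ∀ ω, ‖φ ω‖ = 1) (f : Lp ℂ 2 μ) :
    (mulEquiv φ hφ h1 f : Ω → ℂ) =ᵐ[μ] fun ω => φ ω * f ω :=
  mulLin_coe φ hφ h1 f

/-- The operator of multiplication by `φ`. -/
noncomputable def mulOp (φ : Ω → ℂ) (hφ : Measurable φ) (h1 : ∀ ω, ‖φ ω‖ = 1) :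
    Lp ℂ 2 μ →L[ℂ] Lp ℂ 2 μ := (mulEquiv φ hφ h1).toContinuousLinearEquiv.toContinuousLinearMap

lemma mulOp_apply (φ : Ω → ℂ) (hφ : Measurable φ) (h1 : ∀ ω, ‖φ ω‖ = 1) (f : Lp ℂ 2 μ) :
    mulOp φ hφ h1 f = mulEquiv φ hφ h1 f := rfl

lemma mulOp_pow (φ : Ω → ℂ) (hφ : Measurable φ) (h1 : ∀ ω, ‖φ ω‖ = 1) (n : ℕ) (f : Lp ℂ 2 μ) :
    (((mulOp φ hφ h1 : Lp ℂ 2 μ →L[ℂ] Lp ℂ 2 μ) ^ n) f : Ω → ℂ) =ᵐ[μ]
      fun ω => φ ω ^ n * f ω := by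
  induction n with
  | zero =>
    filter_upwards with ω
    simp
  | succ n ih =>
    have h2 := mulEquiv_coe φ hφ h1 (((mulOp φ hφ h1 : Lp ℂ 2 μ →L[ℂ] Lp ℂ 2 μ) ^ n) f)
    filter_upwards [ih, h2] with ω e1 e2
    have e3 : (((mulOp φ hφ h1 : Lp ℂ 2 μ →L[ℂ] Lp ℂ 2 μ) ^ (n + 1)) f : Ω → ℂ) ω =
        (mulEquiv φ hφ h1 (((mulOp φ hφ h1 : Lp ℂ 2 μ →L[ℂ] Lp ℂ 2 μ) ^ n) f) : Ω → ℂ) ω := by
      rw [pow_succ']; rfl
    rw [e3, e2, e1, pow_succ]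
    ring

lemma norm_mulOp_pow (φ : Ω → ℂ) (hφ : Measurable φ) (h1 : ∀ ω, ‖φ ω‖ = 1) (n : ℕ)
    (f : Lp ℂ 2 μ) : ‖((mulOp φ hφ h1 : Lp ℂ 2 μ →L[ℂ] Lp ℂ 2 μ) ^ n) f‖ = ‖f‖ := by
  induction n with
  | zero => simp
  | succ n ih =>
    have : ((mulOp φ hφ h1 : Lp ℂ 2 μ →L[ℂ] Lp ℂ 2 μ) ^ (n + 1)) f =
        mulEquiv φ hφ h1 (((mulOp φ hφ h1 : Lp ℂ 2 μ →L[ℂ] Lp ℂ 2 μ) ^ n) f) := by
      rw [pow_succ']; rfl
    rw [this, (mulEquiv φ hφ h1).norm_map, ih]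

lemma weakLim_bounded {u : ℕ → Lp ℂ 2 μ} {y : Lp ℂ 2 μ} (hw : WeakLim ℂ u y) :
    ∃ K : ℝ, ∀ k, ‖u k‖ ≤ K := by
  have h2 : ∀ f : StrongDual ℂ (Lp ℂ 2 μ), ∃ C, ∀ k,
      ‖(NormedSpace.inclusionInDoubleDual ℂ (Lp ℂ 2 μ) (u k)) f‖ ≤ C := by
    intro f
    obtain ⟨C, hC⟩ := (hw f).norm.bddAbove_range
    exact ⟨C, fun k => hC ⟨k, rfl⟩⟩
  obtain ⟨K, hK⟩ := banach_steinhaus h2
  refine ⟨K, fun k => ?_⟩
  rw [← (NormedSpace.inclusionInDoubleDualLi (E := Lp ℂ 2 μ) ℂ).norm_map (u k)]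
  exact hK k

lemma integrable_norm_mul (x h : Lp ℂ 2 μ) : Integrable (fun ω => ‖x ω‖ * ‖h ω‖) μ :=
  (Lp.memLp x).norm.integrable_mul (Lp.memLp h).norm

/-- Weak limits of sequences in a projective orbit of a unimodular multiplication operator are
dominated by a multiple of the starting vector. -/
lemma weakLim_bound (φ : Ω → ℂ) (hφ : Measurable φ) (h1 : ∀ ω, ‖φ ω‖ = 1) (x y : Lp ℂ 2 μ)
    (hx : x ≠ 0)
    (hy : y ∈ seqLimits ℂ (projOrbit (mulOp φ hφ h1 : Lp ℂ 2 μ →L[ℂ] Lp ℂ 2 μ) x)) :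
    ∃ C : ℕ, ∀ h : Lp ℂ 2 μ, ‖⟪h, y⟫_ℂ‖ ≤ C * ∫ ω, ‖x ω‖ * ‖h ω‖ ∂μ := by
  obtain ⟨u, hu, hw⟩ := hy
  choose c n hcn using hu
  obtain ⟨K, hK⟩ := weakLim_bounded hw
  have hxn : 0 < ‖x‖ := norm_pos_iff.2 hx
  have hc : ∀ k, ‖c k‖ ≤ K / ‖x‖ := by
    intro k
    rw [le_div_iff₀ hxn]
    have := hK k
    rw [hcn k, norm_smul, norm_mulOp_pow] at this
    exact this
  obtain ⟨C, hC⟩ := exists_nat_ge (K / ‖x‖)
  refine ⟨C, fun h => ?_⟩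
  have hI : 0 ≤ ∫ ω, ‖x ω‖ * ‖h ω‖ ∂μ := integral_nonneg fun ω => by positivity
  have h3 : Tendsto (fun k => ‖⟪h, u k⟫_ℂ‖) atTop (𝓝 ‖⟪h, y⟫_ℂ‖) :=
    (hw (InnerProductSpace.toDual ℂ _ h)).norm
  refine le_of_tendsto' h3 fun k => ?_
  rw [L2.inner_def]
  have h4 : ‖∫ ω, ⟪h ω, u k ω⟫_ℂ ∂μ‖ ≤ ∫ ω, ‖c k‖ * (‖x ω‖ * ‖h ω‖) ∂μ := by
    refine norm_integral_le_of_norm_le ((integrable_norm_mul x h).const_mul _) ?_
    have e0 := mulOp_pow φ hφ h1 (n k) x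
    have e1 := Lp.coeFn_smul (c k) (((mulOp φ hφ h1 : Lp ℂ 2 μ →L[ℂ] Lp ℂ 2 μ) ^ (n k)) x)
    filter_upwards [e0, e1] with ω e0 e1
    rw [hcn k, e1, Pi.smul_apply, e0]
    refine (norm_inner_le_norm _ _).trans ?_
    rw [norm_smul, norm_mul, norm_pow, h1, one_pow, one_mul]
    apply le_of_eq; ring
  refine h4.trans ?_
  rw [integral_const_mul]
  exact mul_le_mul_of_nonneg_right ((hc k).trans hC) hI

/-- If every vector is a weak limit of a sequence of the projective orbit then the norm of `L²` is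
dominated by a weighted `L¹` norm. -/
lemma norm_le_of_oneSeq (φ : Ω → ℂ) (hφ : Measurable φ) (h1 : ∀ ω, ‖φ ω‖ = 1) (x : Lp ℂ 2 μ)
    (hx : x ≠ 0)
    (hy : seqLimits ℂ (projOrbit (mulOp φ hφ h1 : Lp ℂ 2 μ →L[ℂ] Lp ℂ 2 μ) x) = Set.univ) :
    ∃ C : ℝ, 0 ≤ C ∧ ∀ h : Lp ℂ 2 μ, ‖h‖ ≤ C * ∫ ω, ‖x ω‖ * ‖h ω‖ ∂μ := by
  set N : Lp ℂ 2 μ → ℝ := fun h => ∫ ω, ‖x ω‖ * ‖h ω‖ ∂μ with hN
  have hN0 : ∀ h, 0 ≤ N h := fun h => integral_nonneg fun ω => by positivity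
  set F : ℕ → Set (Lp ℂ 2 μ) := fun m => {y | ∀ h, ‖⟪h, y⟫_ℂ‖ ≤ m * N h} with hF
  have hcl : ∀ m, IsClosed (F m) := by
    intro m
    simp only [hF, Set.ofPred_forall]
    exact isClosed_iInter fun h => isClosed_le (by fun_prop) continuous_const
  have hun : ⋃ m, F m = Set.univ := by
    rw [Set.eq_univ_iff_forall]
    intro y
    obtain ⟨C, hC⟩ := weakLim_bound φ hφ h1 x y hx (by rw [hy]; exact Set.mem_univ y)
    exact Set.mem_iUnion.2 ⟨C, hC⟩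
  obtain ⟨m, y0, hy0⟩ := nonempty_interior_of_iUnion_of_closed hcl hun
  obtain ⟨r, hr, hb⟩ := Metric.isOpen_iff.1 isOpen_interior y0 hy0
  have hb' : ∀ y, ‖y‖ < r → ∀ h, ‖⟪h, y⟫_ℂ‖ ≤ 2 * m * N h := by
    intro y hyr h
    have g1 : y0 + y ∈ F m := interior_subset (hb (by simp [hyr]))
    have g2 : y0 ∈ F m := interior_subset hy0
    have g3 : ⟪h, y⟫_ℂ = ⟪h, y0 + y⟫_ℂ - ⟪h, y0⟫_ℂ := by rw [inner_add_right]; ring
    rw [g3]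
    refine (norm_sub_le _ _).trans ?_
    have := g1 h
    have := g2 h
    linarith
  refine ⟨2 / r * (2 * m), by positivity, fun h => ?_⟩
  by_cases hh : h = 0
  · rw [hh, norm_zero]
    exact mul_nonneg (by positivity) (hN0 0)
  have hhn : 0 < ‖h‖ := norm_pos_iff.2 hh
  have g4 := hb' (((r / 2 / ‖h‖ : ℝ) : ℂ) • h) (by
    rw [norm_smul, Complex.norm_real, Real.norm_of_nonneg (by positivity),
      div_mul_cancel₀ _ hhn.ne']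
    linarith) h
  rw [inner_smul_right, norm_mul, Complex.norm_real, Real.norm_of_nonneg (by positivity),
    inner_self_eq_norm_sq_to_K] at g4
  have g5 : ‖((‖h‖ : ℂ)) ^ 2‖ = ‖h‖ ^ 2 := by
    rw [norm_pow, Complex.norm_real, norm_norm]
  have g6 : r / 2 * ‖h‖ ≤ 2 * m * N h := by
    calc r / 2 * ‖h‖ = r / 2 / ‖h‖ * ‖h‖ ^ 2 := by field_simp
      _ ≤ _ := by rw [← g5]; exact g4
  calc ‖h‖ = 2 / r * (r / 2 * ‖h‖) := by field_simp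
    _ ≤ 2 / r * (2 * m * N h) := mul_le_mul_of_nonneg_left g6 (by positivity)
    _ = _ := by ring

end Q100.Ws
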