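import Pool.Agent.Q100.KPMain

/-!
# The Kalton-Peck space: definitions
-/

set_option autoImplicit false
open Filter Topology
open scoped ENNReal Pointwise

noncomputable section

namespace Q100.KP

/-- Pairs `(y, x)` of finitely supported sequences. -/
def Pairs : Type := (ℕ →₀ ℝ) × (ℕ →₀ ℝ)

instance : AddCommGroup Pairs := inferInstanceAs (AddCommGroup ((ℕ →₀ ℝ) × (ℕ →₀ ℝ)))
instance : Module ℝ Pairs := inferInstanceAs (Module ℝ ((ℕ →₀ ℝ) × (ℕ →₀ ℝ)))

/-- The `ℓ₂` norm of a finitely supported sequence. -/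
def nrm (u : ℕ →₀ ℝ) : ℝ := Real.sqrt (∑ i ∈ u.support, (u i) ^ 2)

/-- The Kalton-Peck map `𝒦(x)_n = x_n log (|x_n| / ‖x‖₂)` on finitely supported sequences. -/
def KPm (x : ℕ →₀ ℝ) : ℕ →₀ ℝ :=
  x.mapRange (fun s => s * Real.log (|s| / nrm x)) (by simp)

/-- The quasi-norm `‖(y, x)‖ = ‖y - 𝒦(x)‖₂ + ‖x‖₂`. -/
def qn (z : Pairs) : ℝ := nrm (z.1 - KPm z.2) + nrm z.2

/-! ### Basic properties -/

theorem mem_fin (u : ℕ →₀ ℝ) : Memℓp (u : ℕ → ℝ) 2 :=
  mem_of_sq (summable_of_ne_finset_zero (s := u.support) (fun i hi => by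
    rw [Finsupp.notMem_support_iff.1 hi]; norm_num))

/-- The embedding of the finitely supported sequences into `ℓ₂`. -/
def emb : (ℕ →₀ ℝ) →ₗ[ℝ] E2 where
  toFun u := mk2 u (mem_fin u)
  map_add' u w := co_ext fun i => rfl
  map_smul' c u := co_ext fun i => rfl

theorem co_emb (u : ℕ →₀ ℝ) (i : ℕ) : co (emb u) i = u i := rfl

theorem nrm_eq (u : ℕ →₀ ℝ) : nrm u = ‖emb u‖ := by
  rw [nrm, ← Real.sqrt_sq (norm_nonneg (emb u)), norm_sq]
  congr 1
  rw [tsum_eq_sum (s := u.support) (fun i hi => by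
    rw [co_emb, Finsupp.notMem_support_iff.1 hi]; norm_num)]
  rfl

theorem K_emb (x : ℕ →₀ ℝ) (i : ℕ) : K (emb x) i = -(KPm x i) := by
  show co (emb x) i * Real.log ‖emb x‖ - Q100.QL.fl (co (emb x) i) =
    -(x i * Real.log (|x i| / nrm x))
  rw [co_emb, nrm_eq]
  rcases eq_or_ne (x i) 0 with h | h
  · rw [h, Q100.QL.fl_zero]; simp
  · have hx : emb x ≠ 0 := by
      intro h0
      apply h
      have := co_emb x i
      rw [h0, co_zero] at this
      exact this.symm
    rw [Real.log_div (abs_ne_zero.2 h) (norm_ne_zero_iff.2 hx), Real.log_abs]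
    unfold Q100.QL.fl
    ring

theorem emb_sub_KPm (z : Pairs) : co (emb (z.1 - KPm z.2)) = co (emb z.1) + K (emb z.2) := by
  funext i
  rw [Pi.add_apply, K_emb]
  show (z.1 - KPm z.2) i = z.1 i + -(KPm z.2 i)
  rw [Finsupp.sub_apply]
  ring

theorem qn_eq (z : Pairs) : qn z = ‖emb (z.1 - KPm z.2)‖ + ‖emb z.2‖ := by
  rw [qn, nrm_eq, nrm_eq]

theorem qn_nonneg (z : Pairs) : 0 ≤ qn z := by
  rw [qn_eq]; positivity

theorem qn_add_le (z w : Pairs) : qn (z + w) ≤ 5 * (qn z + qn w) := by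
  have h1 := K_add (emb z.2) (emb w.2)
  have h2 : ‖emb ((z + w).1 - KPm (z + w).2)‖ ≤ ‖emb (z.1 - KPm z.2)‖ +
      ‖emb (w.1 - KPm w.2)‖ + 4 * (‖emb z.2‖ + ‖emb w.2‖) := by
    have e : co (emb ((z + w).1 - KPm (z + w).2)) = co (emb (z.1 - KPm z.2) +
        emb (w.1 - KPm w.2)) + (K (emb z.2 + emb w.2) - K (emb z.2) - K (emb w.2)) := by
      rw [emb_sub_KPm]
      funext i
      rw [Pi.add_apply, Pi.add_apply, co_add]
      have e1 := congrFun (emb_sub_KPm z) i
      have e2 := congrFun (emb_sub_KPm w) i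
      rw [Pi.add_apply] at e1 e2
      rw [e1, e2]
      have e3 : emb (z + w).2 = emb z.2 + emb w.2 := map_add emb _ _
      have e4 : emb (z + w).1 = emb z.1 + emb w.1 := map_add emb _ _
      rw [e3, e4, co_add, Pi.sub_apply, Pi.sub_apply]
      ring
    rw [← norm_co, e]
    refine (nq2_add_le (co_mem _) h1.1).trans ?_
    rw [norm_co]
    exact add_le_add (norm_add_le _ _) h1.2
  have h3 : ‖emb (z + w).2‖ ≤ ‖emb z.2‖ + ‖emb w.2‖ := by
    have e3 : emb (z + w).2 = emb z.2 + emb w.2 := map_add emb _ _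
    rw [e3]
    exact norm_add_le _ _
  rw [qn_eq, qn_eq, qn_eq]
  have := norm_nonneg (emb (z.1 - KPm z.2))
  have := norm_nonneg (emb (w.1 - KPm w.2))
  linarith

theorem qn_smul (c : ℝ) (z : Pairs) : qn (c • z) = |c| * qn z := by
  have e : emb ((c • z).1 - KPm (c • z).2) = c • emb (z.1 - KPm z.2) := by
    refine co_ext fun i => ?_
    have e1 := congrFun (emb_sub_KPm z) i
    rw [emb_sub_KPm, co_smul, e1]
    have e3 : emb (c • z).2 = c • emb z.2 := map_smul emb _ _
    have e4 : emb (c • z).1 = c • emb z.1 := map_smul emb _ _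
    rw [e3, e4, K_smul, Pi.add_apply, Pi.add_apply, co_smul, Pi.smul_apply, smul_eq_mul]
    ring
  have e3 : emb (c • z).2 = c • emb z.2 := map_smul emb _ _
  rw [qn_eq, qn_eq, e, e3, norm_smul, norm_smul, Real.norm_eq_abs]
  ring

theorem qn_neg (z : Pairs) : qn (-z) = qn z := by
  have := qn_smul (-1) z
  simpa using this

theorem qn_zero : qn 0 = 0 := by
  have := qn_smul 0 0
  simpa using this

/-- The sets `{z : qn z < ε}`. -/
def qballs : Set (Set Pairs) := {U | ∃ ε : ℝ, 0 < ε ∧ U = {z | qn z < ε}}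

/-- The neighbourhood basis of zero given by the sets `{z : qn z < ε}`. -/
def zeroBasis : ModuleFilterBasis ℝ Pairs :=
  { addGroupFilterBasisOfComm qballs ⟨_, 1, one_pos, rfl⟩
      (by
        rintro _ _ ⟨ε, hε, rfl⟩ ⟨δ, hδ, rfl⟩
        refine ⟨_, ⟨min ε δ, lt_min hε hδ, rfl⟩, fun z hz => ?_⟩
        have h1 : qn z < min ε δ := hz
        exact ⟨lt_of_lt_of_le h1 (min_le_left _ _), lt_of_lt_of_le h1 (min_le_right _ _)⟩)
      (by
        rintro _ ⟨ε, hε, rfl⟩
        show qn 0 < ε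
        rw [qn_zero]
        exact hε)
      (by
        rintro _ ⟨ε, hε, rfl⟩
        refine ⟨_, ⟨ε / 10, by positivity, rfl⟩, ?_⟩
        rintro _ ⟨z, hz, w, hw, rfl⟩
        have h1 : qn z < ε / 10 := hz
        have h2 : qn w < ε / 10 := hw
        show qn (z + w) < ε
        have := qn_add_le z w
        linarith)
      (by
        rintro _ ⟨ε, hε, rfl⟩
        refine ⟨_, ⟨ε, hε, rfl⟩, fun z hz => ?_⟩
        show qn (-z) < ε
        rw [qn_neg]
        exact hz) with
    smul' := by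
      rintro _ ⟨ε, hε, rfl⟩
      refine ⟨Metric.ball 0 1, Metric.ball_mem_nhds _ one_pos, _, ⟨ε, hε, rfl⟩, ?_⟩
      rintro _ ⟨c, hc, z, hz, rfl⟩
      have h1 : qn z < ε := hz
      have h2 : |c| < 1 := by simpa [Real.dist_eq] using hc
      show qn (c • z) < ε
      rw [qn_smul]
      nlinarith [qn_nonneg z, abs_nonneg c]
    smul_left' := by
      rintro c _ ⟨ε, hε, rfl⟩
      refine ⟨_, ⟨ε / (|c| + 1), by positivity, rfl⟩, fun z hz => ?_⟩
      have h1 : qn z < ε / (|c| + 1) := hz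
      show qn (c • z) < ε
      rw [lt_div_iff₀ (by positivity)] at h1
      rw [qn_smul]
      nlinarith [qn_nonneg z, abs_nonneg c]
    smul_right' := by
      rintro z _ ⟨ε, hε, rfl⟩
      have h1 : Tendsto (fun c : ℝ => |c| * qn z) (𝓝 0) (𝓝 0) := by
        have : Tendsto (fun c : ℝ => |c| * qn z) (𝓝 0) (𝓝 (|0| * qn z)) :=
          (continuous_abs.mul continuous_const).tendsto 0
        simpa using this
      filter_upwards [h1.eventually (gt_mem_nhds hε)] with c hc
      show qn (c • z) < ε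
      rw [qn_smul]
      exact hc }

/-- The uniform structure on the pairs: the one of the topological group structure in which the
sets `{z : qn z < ε}` form a neighbourhood basis of zero. -/
instance : UniformSpace Pairs :=
  @IsTopologicalAddGroup.rightUniformSpace Pairs _ zeroBasis.topology
    zeroBasis.toAddGroupFilterBasis.isTopologicalAddGroup

instance : IsTopologicalAddGroup Pairs := zeroBasis.toAddGroupFilterBasis.isTopologicalAddGroup

instance : ContinuousSMul ℝ Pairs := zeroBasis.continuousSMul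

instance : IsUniformAddGroup Pairs := isUniformAddGroup_of_addCommGroup (G := Pairs)

instance : UniformContinuousConstSMul ℝ Pairs :=
  uniformContinuousConstSMul_of_continuousConstSMul ℝ Pairs

/-- The Kalton-Peck space `Z₂`: the completion of the space of pairs. -/
abbrev Z2 : Type := UniformSpace.Completion Pairs

/-- Exact sequences `0 → H → Z → H → 0`: an embedding `j`, a surjection `q`, `ker q = j(H)`. -/
structure IsExact {H Z : Type} [NormedAddCommGroup H] [InnerProductSpace ℝ H]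
    [AddCommGroup Z] [Module ℝ Z] [TopologicalSpace Z] (j : H →L[ℝ] Z) (q : Z →L[ℝ] H) :
    Prop where
  embedding : IsEmbedding j
  surjective : Function.Surjective q
  exact : ∀ z, q z = 0 ↔ z ∈ Set.range j

/-- `(T, U)` is compatible with the sequence: some operator `τ` on `Z` satisfies `τ j = j T` and
`q τ = U q`. -/
def CompatiblePair {H Z : Type} [NormedAddCommGroup H] [InnerProductSpace ℝ H]
    [AddCommGroup Z] [Module ℝ Z] [TopologicalSpace Z] (j : H →L[ℝ] Z) (q : Z →L[ℝ] H)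
    (T U : H →L[ℝ] H) : Prop :=
  ∃ tau : Z →L[ℝ] Z, (∀ h, tau (j h) = j (T h)) ∧ ∀ z, q (tau z) = U (q z)

end Q100.KP
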