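import Pool.Agent.Q100.Z2Defs

/-!
# Compatible pairs on the Kalton-Peck space
-/

set_option autoImplicit false
open Filter Topology
open scoped ENNReal Pointwise Uniformity

noncomputable section

namespace Q100.KP

theorem nhds_basis : (𝓝 (0 : Pairs)).HasBasis (fun ε : ℝ => 0 < ε) (fun ε => {z | qn z < ε}) := by
  have h := zeroBasis.toAddGroupFilterBasis.nhds_zero_hasBasis
  refine ⟨fun U => ?_⟩
  rw [h.mem_iff]
  constructor
  · rintro ⟨V, ⟨ε, hε, rfl⟩, hVU⟩
    exact ⟨ε, hε, hVU⟩
  · rintro ⟨ε, hε, hVU⟩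
    exact ⟨_, ⟨ε, hε, rfl⟩, hVU⟩

theorem KPm_zero : KPm 0 = 0 := by
  ext i
  simp [KPm]

/-- The pair `(y, 0)`. -/
def inl (y : ℕ →₀ ℝ) : Pairs := (y, 0)

theorem qn_inl (y : ℕ →₀ ℝ) : qn (inl y) = ‖emb y‖ := by
  rw [qn_eq]
  show ‖emb (y - KPm 0)‖ + ‖emb 0‖ = _
  rw [KPm_zero, sub_zero, map_zero, norm_zero, add_zero]

/-- The pair `(𝒦(x), x)`. -/
def sec (x : ℕ →₀ ℝ) : Pairs := (KPm x, x)

theorem qn_sec (x : ℕ →₀ ℝ) : qn (sec x) = ‖emb x‖ := by
  rw [qn_eq]
  show ‖emb (KPm x - KPm x)‖ + ‖emb x‖ = _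
  rw [sub_self, map_zero, norm_zero, zero_add]

theorem emb_injective : Function.Injective emb := by
  intro x y h
  ext i
  have := congrArg (fun v => co v i) h
  exact this

/-- The finitely supported sequences as a subspace of `ℓ₂`. -/
abbrev F0 : Type := ↥(LinearMap.range emb)

/-- The identification. -/
def inv : F0 ≃ₗ[ℝ] (ℕ →₀ ℝ) := (LinearEquiv.ofInjective emb emb_injective).symm

theorem emb_inv (x : F0) : emb (inv x) = x.1 := by
  have := (LinearEquiv.ofInjective emb emb_injective).apply_symm_apply x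
  exact congrArg Subtype.val this

theorem inv_emb (y : ℕ →₀ ℝ) (h : emb y ∈ LinearMap.range emb) : inv ⟨emb y, h⟩ = y :=
  emb_injective (emb_inv _)

/-- The map `y ↦ (y, 0)`. -/
def f1 : F0 →ₗ[ℝ] Pairs where
  toFun x := inl (inv x)
  map_add' x y := by
    show ((inv (x + y), 0) : (ℕ →₀ ℝ) × (ℕ →₀ ℝ)) = (inv x + inv y, 0 + 0)
    rw [map_add, add_zero]
  map_smul' c x := by
    show ((inv (c • x), 0) : (ℕ →₀ ℝ) × (ℕ →₀ ℝ)) = (c • inv x, c • 0)
    rw [map_smul, smul_zero]

theorem qn_f1 (x : F0) : qn (f1 x) = ‖x‖ := by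
  show qn (inl (inv x)) = _
  rw [qn_inl, emb_inv]
  rfl

theorem comap_f1 : comap f1 (𝓝 0) = 𝓝 0 := by
  refine (nhds_basis.comap f1).eq_of_same_basis ?_
  have h : (𝓝 (0 : F0)).HasBasis (fun ε : ℝ => 0 < ε) (Metric.ball 0) := Metric.nhds_basis_ball
  have e : (fun ε : ℝ => f1 ⁻¹' {z | qn z < ε}) = Metric.ball (0 : F0) := by
    funext ε
    ext x
    rw [mem_ball_zero_iff, Set.mem_preimage, ← qn_f1]
    rfl
  rw [e]
  exact h

theorem isUniformInducing_f1 : IsUniformInducing f1 := by
  refine ⟨?_⟩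
  rw [uniformity_eq_comap_nhds_zero, uniformity_eq_comap_nhds_zero, comap_comap, ← comap_f1,
    comap_comap]
  congr 1
  funext p
  simp only [Function.comp_apply, map_sub]

/-- The embedding of the pairs into the completion. -/
def coeL : Pairs →L[ℝ] Z2 :=
  { toFun := fun z => (z : Z2)
    map_add' := fun z w => UniformSpace.Completion.coe_add z w
    map_smul' := fun c z => UniformSpace.Completion.coe_smul c z
    cont := UniformSpace.Completion.continuous_coe Pairs }

theorem coeL_dense : DenseRange coeL := UniformSpace.Completion.denseRange_coe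

theorem coeL_inducing : IsUniformInducing coeL := UniformSpace.Completion.isUniformInducing_coe _

/-- The map `y ↦ (y, 0)` into the completion. -/
def f2 : F0 →L[ℝ] Z2 :=
  ⟨coeL.toLinearMap.comp f1, coeL.continuous.comp isUniformInducing_f1.uniformContinuous.continuous⟩

theorem f2_inducing : IsUniformInducing f2 := coeL_inducing.comp isUniformInducing_f1

theorem F0_dense : DenseRange (LinearMap.range emb).subtypeL := by
  show DenseRange (Subtype.val : F0 → E2)
  rw [denseRange_subtype_val]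
  intro x
  have h2 := (lp.hasSum_single (p := 2) (by norm_num) x).tendsto_sum_nat
  refine mem_closure_of_tendsto h2 (Eventually.of_forall fun N => ?_)
  show (∑ i ∈ Finset.range N, lp.single 2 i ((x : ∀ _ : ℕ, ℝ) i) : E2) ∈ LinearMap.range emb
  refine Submodule.sum_mem _ (fun i _ => ?_)
  refine ⟨Finsupp.single i (co x i), co_ext fun k => ?_⟩
  rw [co_emb]
  show _ = (lp.single 2 i (co x i) : ∀ _ : ℕ, ℝ) k
  rw [lp.single_apply, Finsupp.single_apply, Pi.single_apply]
  by_cases h : i = k
  · rw [if_pos h, if_pos h.symm]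
  · rw [if_neg h, if_neg (fun h' => h h'.symm)]

theorem F0_inducing : IsUniformInducing (LinearMap.range emb).subtypeL :=
  isUniformInducing_val _

/-- The embedding `j : ℓ₂ → Z₂`. -/
def jj : E2 →L[ℝ] Z2 := f2.extend (LinearMap.range emb).subtypeL

theorem jj_F0 (x : F0) : jj x.1 = coeL (f1 x) :=
  ContinuousLinearMap.extend_eq f2 F0_dense F0_inducing x

theorem jj_emb (y : ℕ →₀ ℝ) : jj (emb y) = coeL (inl y) := by
  have h := jj_F0 ⟨emb y, y, rfl⟩
  have h2 : f1 ⟨emb y, y, rfl⟩ = inl y := by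
    show inl (inv _) = inl y
    rw [inv_emb]
  rw [h2] at h
  exact h

theorem jj_inducing : IsUniformInducing jj := by
  have hid : IsDenseInducing (LinearMap.range emb).subtypeL := F0_inducing.isDenseInducing F0_dense
  have h1 : IsUniformInducing (hid.extend f2) :=
    hid.isUniformInducing_extend F0_inducing f2_inducing
  have h2 : (jj : E2 → Z2) = hid.extend f2 := by
    refine F0_dense.equalizer jj.continuous h1.uniformContinuous.continuous ?_
    funext x
    rw [Function.comp_apply, Function.comp_apply, hid.extend_eq f2.continuous]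
    exact ContinuousLinearMap.extend_eq f2 F0_dense F0_inducing x
  rw [h2]
  exact h1

/-- The map `(y, x) ↦ x`. -/
def q0 : Pairs →L[ℝ] E2 :=
  { toFun := fun z => emb z.2
    map_add' := fun z w => map_add emb _ _
    map_smul' := fun c z => map_smul emb _ _
    cont := by
      let g : Pairs →+ E2 :=
        { toFun := fun z => emb z.2, map_zero' := map_zero emb, map_add' := fun z w => map_add emb _ _ }
      refine continuous_of_continuousAt_zero g ?_
      rw [ContinuousAt, map_zero, nhds_basis.tendsto_iff Metric.nhds_basis_ball]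
      intro ε hε
      refine ⟨ε, hε, fun z hz => ?_⟩
      rw [mem_ball_zero_iff]
      show ‖emb z.2‖ < ε
      have h1 : qn z < ε := hz
      rw [qn_eq] at h1
      have := norm_nonneg (emb (z.1 - KPm z.2))
      linarith }

theorem q0_apply (z : Pairs) : q0 z = emb z.2 := rfl

/-- The quotient map `q : Z₂ → ℓ₂`. -/
def qq : Z2 →L[ℝ] E2 := q0.extend coeL

theorem qq_coe (z : Pairs) : qq (coeL z) = emb z.2 :=
  ContinuousLinearMap.extend_eq q0 coeL_dense coeL_inducing z

theorem qq_jj (h : E2) : qq (jj h) = 0 := by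
  have : (fun h => qq (jj h)) = fun _ => (0 : E2) := by
    refine F0_dense.equalizer (qq.continuous.comp jj.continuous) continuous_const ?_
    funext x
    show qq (jj x.1) = 0
    rw [jj_F0, qq_coe]
    exact map_zero emb
  exact congrFun this h

theorem qn_sum_le (z : ℕ → Pairs) (hz : ∀ n, qn (z n) ≤ (1 / 10 : ℝ) ^ n) (m : ℕ) :
    ∀ N, qn (∑ i ∈ Finset.range m, z (N + i)) ≤ 10 * (1 / 10 : ℝ) ^ N := by
  induction m with
  | zero =>
    intro N
    rw [Finset.sum_range_zero, qn_zero]
    positivity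
  | succ m ih =>
    intro N
    rw [Finset.sum_range_succ', add_zero]
    have h1 : ∑ i ∈ Finset.range m, z (N + (i + 1)) = ∑ i ∈ Finset.range m, z ((N + 1) + i) :=
      Finset.sum_congr rfl (fun i _ => by congr 1; omega)
    rw [h1]
    have h2 := ih (N + 1)
    have h3 := qn_add_le (∑ i ∈ Finset.range m, z ((N + 1) + i)) (z N)
    have h4 := hz N
    rw [pow_succ] at h2
    linarith

theorem qq_surjective : Function.Surjective qq := by
  intro x
  have hap : ∀ n : ℕ, ∃ s : ℕ →₀ ℝ, ‖emb s - x‖ < (1 / 10 : ℝ) ^ n / 2 := by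
    intro n
    obtain ⟨⟨_, s, rfl⟩, hs⟩ := F0_dense.exists_dist_lt x
      (show (0 : ℝ) < (1 / 10 : ℝ) ^ n / 2 by positivity)
    refine ⟨s, ?_⟩
    rw [dist_eq_norm, norm_sub_rev] at hs
    exact hs
  choose s hs using hap
  set t : ℕ → (ℕ →₀ ℝ) := fun n => s (n + 1) - s n with ht
  have htn : ∀ n, qn (sec (t n)) ≤ (1 / 10 : ℝ) ^ n := by
    intro n
    rw [qn_sec, ht]
    simp only
    rw [map_sub]
    have h1 := hs n
    have h2 := hs (n + 1)
    have h3 : (1 / 10 : ℝ) ^ (n + 1) ≤ (1 / 10 : ℝ) ^ n :=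
      pow_le_pow_of_le_one (by norm_num) (by norm_num) (Nat.le_succ n)
    calc ‖emb (s (n + 1)) - emb (s n)‖ = ‖(emb (s (n + 1)) - x) - (emb (s n) - x)‖ := by
          congr 1; abel
      _ ≤ ‖emb (s (n + 1)) - x‖ + ‖emb (s n) - x‖ := norm_sub_le _ _
      _ ≤ _ := by linarith
  set Z : ℕ → Pairs := fun N => sec (s 0) + ∑ n ∈ Finset.range N, sec (t n) with hZ
  have hZ2 : ∀ N, (Z N).2 = s N := by
    intro N
    induction N with
    | zero =>
      rw [hZ]
      simp only
      rw [Finset.sum_range_zero, add_zero]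
      rfl
    | succ N ih =>
      have h1 : Z (N + 1) = Z N + sec (t N) := by
        rw [hZ]
        simp only
        rw [Finset.sum_range_succ, add_assoc]
      rw [h1]
      show (Z N).2 + t N = s (N + 1)
      rw [ih, ht]
      simp
  have hdiff : ∀ N m, Z (N + m) - Z N = ∑ i ∈ Finset.range m, sec (t (N + i)) := by
    intro N m
    rw [hZ]
    simp only
    rw [Finset.sum_range_add]
    abel
  have hcau : CauchySeq Z := by
    have hb : (𝓤 Pairs).HasBasis (fun ε : ℝ => 0 < ε) (fun ε => {p : Pairs × Pairs |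
        p.2 - p.1 ∈ {z | qn z < ε}}) := nhds_basis.uniformity_of_nhds_zero
    rw [hb.cauchySeq_iff']
    intro ε hε
    have h1 : Tendsto (fun N : ℕ => 10 * (1 / 10 : ℝ) ^ N) atTop (𝓝 0) := by
      have := (tendsto_pow_atTop_nhds_zero_of_lt_one (by norm_num : (0 : ℝ) ≤ 1 / 10)
        (by norm_num)).const_mul 10
      rwa [mul_zero] at this
    obtain ⟨N, hN⟩ := (h1.eventually (gt_mem_nhds hε)).exists
    refine ⟨N, fun n hn => ?_⟩
    obtain ⟨m, rfl⟩ := Nat.exists_eq_add_of_le hn
    show qn (Z N - Z (N + m)) < ε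
    rw [← neg_sub, qn_neg, hdiff]
    exact (qn_sum_le (fun n => sec (t n)) htn m N).trans_lt hN
  have hcau2 : CauchySeq (fun N => coeL (Z N)) := hcau.map coeL_inducing.uniformContinuous
  obtain ⟨z, hz⟩ := cauchySeq_tendsto_of_complete hcau2
  refine ⟨z, ?_⟩
  have h1 : Tendsto (fun N => qq (coeL (Z N))) atTop (𝓝 (qq z)) :=
    (qq.continuous.tendsto z).comp hz
  have h2 : Tendsto (fun N => qq (coeL (Z N))) atTop (𝓝 x) := by
    simp_rw [qq_coe, hZ2]
    rw [tendsto_iff_norm_sub_tendsto_zero]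
    have h3 : Tendsto (fun N : ℕ => (1 / 10 : ℝ) ^ N / 2) atTop (𝓝 0) := by
      have := (tendsto_pow_atTop_nhds_zero_of_lt_one (by norm_num : (0 : ℝ) ≤ 1 / 10)
        (by norm_num)).div_const 2
      rwa [zero_div] at this
    exact squeeze_zero (fun N => norm_nonneg _) (fun N => (hs N).le) h3
  exact tendsto_nhds_unique h1 h2

theorem isExact_std : IsExact jj qq where
  embedding := ⟨jj_inducing.isInducing, jj_inducing.isInducing.injective⟩
  surjective := qq_surjective
  exact := by
    intro z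
    constructor
    · intro hz
      have hcl : IsClosed (Set.range jj) := jj_inducing.isComplete_range.isClosed
      rw [← hcl.closure_eq]
      set F : Filter Pairs := comap coeL (𝓝 z) with hF
      haveI : NeBot F := (coeL_inducing.isDenseInducing coeL_dense).comap_nhds_neBot z
      have h1 : Tendsto coeL F (𝓝 z) := tendsto_comap
      have h2 : Tendsto (fun w : Pairs => emb w.2) F (𝓝 0) := by
        have h3 : Tendsto (fun w => qq (coeL w)) F (𝓝 (qq z)) := (qq.continuous.tendsto z).comp h1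
        rw [hz] at h3
        exact h3.congr (fun w => qq_coe w)
      have h3 : Tendsto (fun w : Pairs => sec w.2) F (𝓝 0) := by
        rw [nhds_basis.tendsto_right_iff]
        intro ε hε
        filter_upwards [(tendsto_zero_iff_norm_tendsto_zero.1 h2).eventually (gt_mem_nhds hε)]
          with w hw
        show qn (sec w.2) < ε
        rw [qn_sec]
        exact hw
      have h4 : Tendsto (fun w : Pairs => coeL w - coeL (sec w.2)) F (𝓝 z) := by
        have h5 := (coeL.continuous.tendsto 0).comp h3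
        rw [map_zero] at h5
        have := h1.sub h5
        rwa [sub_zero] at this
      refine mem_closure_of_tendsto h4 (Eventually.of_forall fun w => ?_)
      refine ⟨emb (w.1 - KPm w.2), ?_⟩
      rw [jj_emb, ← map_sub]
      congr 1
      show ((w.1 - KPm w.2, 0) : (ℕ →₀ ℝ) × (ℕ →₀ ℝ)) = (w.1 - KPm w.2, w.2 - w.2)
      rw [sub_self]
    · rintro ⟨h, rfl⟩
      exact qq_jj h

/-! ### The pair -/

/-- The diagonal map with entries `(-1)^i` on the finitely supported sequences. -/
def dia0 : (ℕ →₀ ℝ) →ₗ[ℝ] (ℕ →₀ ℝ) where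
  toFun u := Finsupp.onFinset u.support (fun i => sgn i * u i) (fun i hi => by
    rw [Finsupp.mem_support_iff]
    intro h
    apply hi
    rw [h, mul_zero])
  map_add' u w := by
    ext i
    show sgn i * (u i + w i) = sgn i * u i + sgn i * w i
    ring
  map_smul' c u := by
    ext i
    show sgn i * (c * u i) = c * (sgn i * u i)
    ring

theorem dia0_apply (u : ℕ →₀ ℝ) (i : ℕ) : dia0 u i = sgn i * u i := rfl

theorem emb_dia0 (u : ℕ →₀ ℝ) : emb (dia0 u) = diaL (emb u) := co_ext fun i => rfl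

theorem KPm_dia0 (x : ℕ →₀ ℝ) : KPm (dia0 x) = dia0 (KPm x) := by
  ext i
  have h1 := K_emb (dia0 x) i
  have h2 := K_emb x i
  rw [emb_dia0, K_diaL, h2] at h1
  rw [dia0_apply]
  linarith

/-- The operator `(y, x) ↦ (T y, T x)` on the pairs. -/
def tau0 : Pairs →L[ℝ] Pairs :=
  { toFun := fun z => ((dia0 z.1, dia0 z.2) : (ℕ →₀ ℝ) × (ℕ →₀ ℝ))
    map_add' := fun z w => by
      show ((dia0 (z.1 + w.1), dia0 (z.2 + w.2)) : (ℕ →₀ ℝ) × (ℕ →₀ ℝ)) =
        (dia0 z.1 + dia0 w.1, dia0 z.2 + dia0 w.2)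
      rw [map_add, map_add]
    map_smul' := fun c z => by
      show ((dia0 (c • z.1), dia0 (c • z.2)) : (ℕ →₀ ℝ) × (ℕ →₀ ℝ)) =
        (c • dia0 z.1, c • dia0 z.2)
      rw [map_smul, map_smul]
    cont := by
      let g : Pairs →+ Pairs :=
        { toFun := fun z => ((dia0 z.1, dia0 z.2) : (ℕ →₀ ℝ) × (ℕ →₀ ℝ))
          map_zero' := by
            show ((dia0 0, dia0 0) : (ℕ →₀ ℝ) × (ℕ →₀ ℝ)) = (0, 0)
            rw [map_zero]
          map_add' := fun z w => by
            show ((dia0 (z.1 + w.1), dia0 (z.2 + w.2)) : (ℕ →₀ ℝ) × (ℕ →₀ ℝ)) =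
              (dia0 z.1 + dia0 w.1, dia0 z.2 + dia0 w.2)
            rw [map_add, map_add] }
      refine continuous_of_continuousAt_zero g ?_
      rw [ContinuousAt, map_zero, nhds_basis.tendsto_iff nhds_basis]
      intro ε hε
      refine ⟨ε, hε, fun z hz => ?_⟩
      have h1 : qn z < ε := hz
      show qn ((dia0 z.1, dia0 z.2) : (ℕ →₀ ℝ) × (ℕ →₀ ℝ)) < ε
      rw [qn_eq] at h1 ⊢
      show ‖emb (dia0 z.1 - KPm (dia0 z.2))‖ + ‖emb (dia0 z.2)‖ < ε
      rw [KPm_dia0, ← map_sub, emb_dia0, emb_dia0, norm_diaL, norm_diaL]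
      exact h1 }

/-- The operator `τ` on `Z₂`. -/
def tau : Z2 →L[ℝ] Z2 := (coeL.comp tau0).extend coeL

theorem tau_coe (z : Pairs) : tau (coeL z) = coeL (tau0 z) :=
  ContinuousLinearMap.extend_eq (coeL.comp tau0) coeL_dense coeL_inducing z

/-- The isometry exchanging the coordinates `2k` and `2k+1`. -/
def gam : E2 →L[ℝ] E2 := gamL.mkContinuous 1 (fun x => by rw [norm_gamL, one_mul])

theorem gam_apply (x : E2) : gam x = gamL x := rfl

theorem isExact_gam : IsExact jj (gam.comp qq) where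
  embedding := isExact_std.embedding
  surjective := by
    intro x
    obtain ⟨z, hz⟩ := qq_surjective (gamL x)
    refine ⟨z, ?_⟩
    show gamL (qq z) = x
    rw [hz, gamL_gamL]
  exact := by
    intro z
    rw [← isExact_std.exact]
    show gamL (qq z) = 0 ↔ qq z = 0
    constructor
    · intro h
      rw [← gamL_gamL (qq z), h, map_zero]
    · intro h
      rw [h, map_zero]

theorem compatiblePair : CompatiblePair jj (gam.comp qq) Top (-Top) := by
  refine ⟨tau, ?_, ?_⟩
  · have : (fun h => tau (jj h)) = fun h => jj (Top h) := by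
      refine F0_dense.equalizer (tau.continuous.comp jj.continuous)
        (jj.continuous.comp Top.continuous) ?_
      funext x
      show tau (jj x.1) = jj (Top x.1)
      rw [← emb_inv x, jj_emb, tau_coe, Top_apply, ← emb_dia0, jj_emb]
      congr 1
      show ((dia0 (inv x), dia0 0) : (ℕ →₀ ℝ) × (ℕ →₀ ℝ)) = (dia0 (inv x), 0)
      rw [map_zero]
    exact fun h => congrFun this h
  · have : (fun z => (gam.comp qq) (tau z)) = fun z => (-Top) ((gam.comp qq) z) := by
      refine coeL_dense.equalizer ((gam.comp qq).continuous.comp tau.continuous)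
        ((-Top).continuous.comp (gam.comp qq).continuous) ?_
      funext z
      show gamL (qq (tau (coeL z))) = -(diaL (gamL (qq (coeL z))))
      rw [tau_coe, qq_coe, qq_coe]
      show gamL (emb (dia0 z.2)) = _
      rw [emb_dia0, gamL_diaL]
    exact fun z => congrFun this z

theorem main_Z2 : ∃ (j : E2 →L[ℝ] Z2) (q : Z2 →L[ℝ] E2), IsExact j q ∧
    ∃ T U : E2 →L[ℝ] E2, CompatiblePair j q T U ∧ ¬ IsCompactOperator (T - U) :=
  ⟨jj, gam.comp qq, isExact_gam, Top, -Top, compatiblePair, not_compact⟩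

end Q100.KP
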